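import Pool.Agent.Lib.SE.Big.Spec
import Pool.Agent.Lib.HC.L.B

/-!
# PROJECT SE, module IsBig, part A1: the commutative algebra generated by a commutative Hodge Lie
algebra
-/

set_option autoImplicit false

open Module

noncomputable section

namespace SEB

open HC HC.E

namespace A1_aux

variable {T : AV} {m : ℕ}

/-- The generators. -/
def gen (h : Set (Module.End ℝ T.V)) : Set (Module.End ℝ T.V) :=
  h ∪ Set.range fun q : ℚ => (q : ℝ) • (1 : Module.End ℝ T.V)

theorem gen_comm {h : Set (Module.End ℝ T.V)} (hc : ∀ X ∈ h, ∀ Y ∈ h, X * Y = Y * X) :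
    ∀ X ∈ gen h, ∀ Y ∈ gen h, X * Y = Y * X := by
  rintro X (hX | ⟨q, rfl⟩) Y (hY | ⟨q', rfl⟩)
  · exact hc X hX Y hY
  · simp only [mul_smul_comm, smul_mul_assoc, mul_one, one_mul]
  · simp only [mul_smul_comm, smul_mul_assoc, mul_one, one_mul]
  · simp only [mul_smul_comm, mul_one]
    rw [smul_comm]

theorem cl_comm {h : Set (Module.End ℝ T.V)} (hc : ∀ X ∈ h, ∀ Y ∈ h, X * Y = Y * X) :
    ∀ X ∈ Subring.closure (gen h), ∀ Y ∈ Subring.closure (gen h), X * Y = Y * X := by
  intro X hX Y hY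
  induction hX using Subring.closure_induction with
  | mem X hX =>
    induction hY using Subring.closure_induction with
    | mem Y hY => exact gen_comm hc X hX Y hY
    | zero => rw [mul_zero, zero_mul]
    | one => rw [mul_one, one_mul]
    | add Y Y' _ _ h1 h2 => rw [mul_add, add_mul, h1, h2]
    | neg Y _ h1 => rw [mul_neg, neg_mul, h1]
    | mul Y Y' _ _ h1 h2 => rw [← mul_assoc, h1, mul_assoc, h2, mul_assoc]
  | zero => rw [mul_zero, zero_mul]
  | one => rw [mul_one, one_mul]
  | add X X' _ _ h1 h2 => rw [mul_add, add_mul, h1, h2]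
  | neg X _ h1 => rw [mul_neg, neg_mul, h1]
  | mul X X' _ _ h1 h2 => rw [mul_assoc, h2, ← mul_assoc, h1, mul_assoc]

theorem cl_rat {h : Set (Module.End ℝ T.V)} (hr : ∀ X ∈ h, RatEnd T X) :
    ∀ X ∈ Subring.closure (gen h), RatEnd T X := by
  intro X hX
  induction hX using Subring.closure_induction with
  | mem X hX =>
    rcases hX with hX | ⟨q, rfl⟩
    · exact hr X hX
    · exact RatEnd.one.qsmul q
  | zero => exact RatEnd.zero
  | one => exact RatEnd.one
  | add X X' _ _ h1 h2 => exact h1.add h2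
  | neg X _ h1 => exact h1.neg
  | mul X X' _ _ h1 h2 => exact h1.mul h2

theorem cl_adj (D : Cyc T m) {h : Set (Module.End ℝ T.V)} (hu : ∀ X ∈ h, IsU D X) :
    ∀ X ∈ Subring.closure (gen h), ∃ Y ∈ Subring.closure (gen h),
      ∀ u v, D.ψ (X u) v = D.ψ u (Y v) := by
  intro X hX
  induction hX using Subring.closure_induction with
  | mem X hX =>
    have hX' := hX
    rcases hX with hX | ⟨q, rfl⟩
    · refine ⟨-X, Subring.neg_mem _ (Subring.subset_closure hX'), fun u v => ?_⟩
      have h1 := (hu X hX).2 u v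
      rw [LinearMap.neg_apply, map_neg]
      linarith
    · refine ⟨_, Subring.subset_closure hX', fun u v => ?_⟩
      simp only [LinearMap.smul_apply, Module.End.one_apply, map_smul]
  | zero =>
    refine ⟨0, Subring.zero_mem _, fun u v => ?_⟩
    simp
  | one =>
    refine ⟨1, Subring.one_mem _, fun u v => ?_⟩
    simp
  | add X X' _ _ h1 h2 =>
    obtain ⟨Y, hY, h3⟩ := h1
    obtain ⟨Y', hY', h4⟩ := h2
    refine ⟨Y + Y', Subring.add_mem _ hY hY', fun u v => ?_⟩
    rw [LinearMap.add_apply, map_add, LinearMap.add_apply, h3, h4, LinearMap.add_apply, map_add]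
  | neg X _ h1 =>
    obtain ⟨Y, hY, h3⟩ := h1
    refine ⟨-Y, Subring.neg_mem _ hY, fun u v => ?_⟩
    rw [LinearMap.neg_apply, map_neg, LinearMap.neg_apply, h3, LinearMap.neg_apply, map_neg]
  | mul X X' _ _ h1 h2 =>
    obtain ⟨Y, hY, h3⟩ := h1
    obtain ⟨Y', hY', h4⟩ := h2
    refine ⟨Y' * Y, Subring.mul_mem _ hY' hY, fun u v => ?_⟩
    rw [Module.End.mul_apply, h3, h4, Module.End.mul_apply]

end A1_aux

open A1_aux

theorem tA1 : S_A1 := by
  rintro T m D ⟨h, hh, hc⟩
  refine ⟨(Subring.closure (gen h) : Set (Module.End ℝ T.V)), ?_, ?_, ?_, ?_, ?_, ?_, ?_, ?_⟩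
  · exact cl_rat hh.rat
  · exact Subring.one_mem _
  · exact fun X hX Y hY => Subring.add_mem _ hX hY
  · exact fun X hX Y hY => Subring.mul_mem _ hX hY
  · intro q X hX
    have h1 : (q : ℝ) • X = ((q : ℝ) • (1 : Module.End ℝ T.V)) * X := by
      rw [smul_mul_assoc, one_mul]
    rw [h1]
    exact Subring.mul_mem _ (Subring.subset_closure (Or.inr ⟨q, rfl⟩)) hX
  · exact cl_comm hc
  · exact cl_adj D hh.u
  · refine Submodule.span_mono ?_ hh.J
    intro X hX
    exact Subring.subset_closure (Or.inl hX)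

end SEB
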