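import Pool.Agent.Lib.SE.Big.Spec

/-!
# PROJECT SE, module IsBig, part A2: eigenforms of a commutative *-algebra
-/

set_option autoImplicit false

open Module

noncomputable section

namespace SEB

open HC HC.E

namespace A2_aux

variable {T : AV} {m : ℕ}

/-- Elements of `A` commute with the multiplication by `i`. -/
theorem comm_mulI {D : Cyc T m} {A : Set (Module.End ℝ T.V)} (hA : CAlg D A) :
    ∀ X ∈ A, X * mulI T = mulI T * X := by
  intro X hX
  suffices key : ∀ Y ∈ Submodule.span ℝ A, X * Y = Y * X from key _ hA.J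
  intro Y hJ
  induction hJ using Submodule.span_induction with
  | mem Y hY => exact hA.comm X hX Y hY
  | zero => rw [mul_zero, zero_mul]
  | add Y Y' _ _ h h' => rw [mul_add, add_mul, h, h']
  | smul c Y _ h => rw [mul_smul_comm, smul_mul_assoc, h]

theorem mulI_apply (v : T.V) : mulI T v = Complex.I • v := rfl

end A2_aux

open A2_aux

theorem tA2 : S_Hm → S_A2 := by
  intro hHm T m D A hA z χ hz hχ
  obtain ⟨H, H1, H2, H3, H4, H5⟩ := hHm T m D
  have hzz : H z z ≠ 0 := by
    intro h
    have h1 := H4 z hz
    rw [h] at h1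
    simp at h1
  refine ⟨?_, ?_⟩
  · intro X hX Y hY hXY
    have h1 : ∀ u v, D.ψ (Complex.I • X u) v = D.ψ (Complex.I • u) (Y v) := by
      intro u v
      have h2 : Complex.I • X u = X (Complex.I • u) :=
        (DFunLike.congr_fun (comm_mulI hA X hX) u).symm
      rw [h2]
      exact hXY _ _
    have h2 := H5 X Y h1 z z
    rw [hχ X hX, hχ Y hY, H2, H3 (χ Y • z) z, H2, map_mul, ← H3 z z] at h2
    have h3 : χ X = (starRingEnd ℂ) (χ Y) := mul_right_cancel₀ hzz h2
    rw [h3, Complex.conj_conj]
  · have hsp : ∀ X ∈ Submodule.span ℝ A, ∃ c : ℂ, ∀ v, z (X v) = c * z v := by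
      intro X hX
      induction hX using Submodule.span_induction with
      | mem X hX => exact ⟨χ X, fun v => DFunLike.congr_fun (hχ X hX) v⟩
      | zero => exact ⟨0, fun v => by rw [LinearMap.zero_apply, map_zero, zero_mul]⟩
      | add X Y _ _ hX hY =>
        obtain ⟨c, hc⟩ := hX
        obtain ⟨c', hc'⟩ := hY
        exact ⟨c + c', fun v => by rw [LinearMap.add_apply, map_add, hc, hc', add_mul]⟩
      | smul r X _ hX =>
        obtain ⟨c, hc⟩ := hX
        refine ⟨r * c, fun v => ?_⟩
        rw [LinearMap.smul_apply, map_smul, hc, mul_assoc]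
        exact Complex.real_smul
    obtain ⟨c, hc⟩ := hsp _ hA.J
    have hc' : ∀ v, z (Complex.I • v) = c * z v := hc
    obtain ⟨v, hv⟩ : ∃ v, z v ≠ 0 := by
      by_contra hcon
      push Not at hcon
      exact hz (LinearMap.ext hcon)
    have h1 : z (Complex.I • (Complex.I • v)) = c * (c * z v) := by
      rw [hc', hc']
    have h2 : Complex.I • (Complex.I • v) = -v := by
      rw [smul_smul, Complex.I_mul_I, neg_one_smul]
    rw [h2, map_neg] at h1
    have h3 : (c - Complex.I) * (c + Complex.I) = 0 := by
      have h4 : (c * c + 1) * z v = 0 := by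
        linear_combination -h1
      have h5 := (mul_eq_zero.1 h4).resolve_right hv
      have h6 : (c - Complex.I) * (c + Complex.I) = c * c - Complex.I * Complex.I := by ring
      rw [h6, Complex.I_mul_I, sub_neg_eq_add]
      exact h5
    rcases mul_eq_zero.1 h3 with h4 | h4
    · left
      intro v
      rw [hc', sub_eq_zero.1 h4]
    · right
      intro v
      rw [hc', eq_neg_of_add_eq_zero_left h4]

end SEB
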