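import Pool.Agent.Lib.SE.Big.Spec
import Pool.Agent.Lib.HC.P.Wtl

/-!
# PROJECT SE, module IsBig, A3: the rational lattice as a sum of number fields (helper59)
-/

set_option autoImplicit false

open Module

noncomputable section

namespace SEB

open HC HC.E

namespace A3_aux

/-- A finite module over a reduced finite dimensional commutative `ℚ`-algebra. -/
theorem abs (R : Type) [CommRing R] [Algebra ℚ R] [Module.Finite ℚ R] [IsReduced R] (M : Type)
    [AddCommGroup M] [Module ℚ M] [Module R M] [IsScalarTower ℚ R M] [Module.Finite ℚ M] :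
    ∃ (n : ℕ) (I : Fin n → Ideal R), (∀ k, (I k).IsMaximal) ∧
      Nonempty (M ≃ₗ[R] ∀ k, R ⧸ I k) := by
  have : IsArtinianRing R := IsArtinianRing.of_finite ℚ R
  have : IsSemisimpleRing R := IsArtinianRing.isSemisimpleRing_of_isReduced R
  have : Module.Finite R M := Module.Finite.of_restrictScalars_finite ℚ R M
  obtain ⟨n, S, e, hS⟩ := IsSemisimpleModule.exists_linearEquiv_fin_dfinsupp R M
  have h1 : ∀ k, ∃ I : Ideal R, I.IsMaximal ∧ Nonempty (S k ≃ₗ[R] R ⧸ I) := fun k =>
    isSimpleModule_iff_quot_maximal.1 (hS k)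
  choose I hI g using h1
  exact ⟨n, I, hI, ⟨(e.trans (DFinsupp.linearEquivFunOnFintype (R := R))).trans
    (LinearEquiv.piCongrRight fun k => (g k).some)⟩⟩

/-- A quotient field of a finite `ℚ`-algebra is a number field. -/
theorem nf (R : Type) [CommRing R] [Algebra ℚ R] [Module.Finite ℚ R] (F : Type) [Field F]
    (f : R →+* F) (hf : Function.Surjective f) : NumberField F := by
  have h1 : CharZero F :=
    charZero_of_injective_ringHom (f := f.comp (algebraMap ℚ R)) (RingHom.injective _)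
  have h2 : FiniteDimensional ℚ F := Module.Finite.of_surjective f.toRatAlgHom.toLinearMap hf
  exact ⟨⟩

/-- The vector of `V` with rational coordinates `q` in the basis of the lattice. -/
def emb (T : AV) : (Fund.Ix T → ℚ) →+ T.V where
  toFun q := ∑ i, ((q i : ℝ)) • Fund.bR T i
  map_zero' := by simp
  map_add' q q' := by
    rw [← Finset.sum_add_distrib]
    refine Finset.sum_congr rfl fun i _ => ?_
    rw [Pi.add_apply, Rat.cast_add, add_smul]

variable {T : AV}

theorem emb_apply (q : Fund.Ix T → ℚ) : emb T q = ∑ i, ((q i : ℝ)) • Fund.bR T i := rfl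

theorem emb_smul (r : ℚ) (q : Fund.Ix T → ℚ) : emb T (r • q) = (r : ℝ) • emb T q := by
  rw [emb_apply, emb_apply, Finset.smul_sum]
  refine Finset.sum_congr rfl fun i _ => ?_
  rw [Pi.smul_apply, smul_smul, smul_eq_mul, Rat.cast_mul]

theorem emb_inj {q q' : Fund.Ix T → ℚ} (h : emb T q = emb T q') : q = q' := by
  funext i
  have h1 := congrArg (fun v => (Fund.bR T).repr v i) h
  have h2 : ∀ q : Fund.Ix T → ℚ, (Fund.bR T).repr (emb T q) i = (q i : ℝ) := by
    intro q
    rw [emb_apply, Basis.repr_sum_self]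
  rw [h2, h2] at h1
  exact_mod_cast h1

/-- The coordinates of a lattice vector. -/
def crd (T : AV) : T.L →+ (Fund.Ix T → ℚ) where
  toFun v i := ((Fund.bZ T).repr v i : ℚ)
  map_zero' := by
    funext i
    simp
  map_add' v w := by
    funext i
    simp

theorem bR_eq (i : Fund.Ix T) : Fund.bR T i = ((Fund.bZ T i : T.L) : T.V) := by
  rw [Fund.bR, Basis.ofZLatticeBasis_apply]

theorem emb_crd (v : T.L) : emb T (crd T v) = v := by
  have h1 := (Fund.bZ T).sum_repr v
  have h2 := congrArg (fun w : T.L => (w : T.V)) h1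
  rw [emb_apply]
  refine Eq.trans ?_ h2
  rw [AddSubmonoidClass.coe_finsetSum]
  refine Finset.sum_congr rfl fun i _ => ?_
  rw [bR_eq]
  show (((((Fund.bZ T).repr v i : ℤ) : ℚ)) : ℝ) • ((Fund.bZ T i : T.L) : T.V) =
    (Fund.bZ T).repr v i • ((Fund.bZ T i : T.L) : T.V)
  rw [Rat.cast_intCast, Int.cast_smul_eq_zsmul]

/-- A multiple of a rational vector is in the lattice. -/
theorem exists_lat (q : Fund.Ix T → ℚ) : ∃ (N : ℕ) (v : T.L), N ≠ 0 ∧ crd T v = (N : ℚ) • q := by
  classical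
  have h1 : ∀ i, ∃ z : ℤ, ((∏ i, (q i).den : ℕ) : ℚ) * q i = z := by
    intro i
    refine ⟨((∏ t ∈ Finset.univ.erase i, (q t).den : ℕ) : ℤ) * (q i).num, ?_⟩
    rw [← Finset.prod_erase_mul _ _ (Finset.mem_univ i)]
    push_cast
    rw [mul_assoc, Rat.den_mul_eq_num]
  choose z hz using h1
  refine ⟨∏ i, (q i).den, ∑ i, z i • Fund.bZ T i,
    Finset.prod_ne_zero_iff.2 fun i _ => (q i).den_ne_zero, ?_⟩
  funext i
  rw [Pi.smul_apply, smul_eq_mul, hz]
  show (((Fund.bZ T).repr (∑ i, z i • Fund.bZ T i) i : ℤ) : ℚ) = z i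
  rw [Basis.repr_sum_self]

/-- A rational endomorphism acts on the rational coordinates. -/
theorem exists_phi {X : Module.End ℝ T.V} (hX : RatEnd T X) :
    ∃ φ : Module.End ℚ (Fund.Ix T → ℚ), ∀ q, X (emb T q) = emb T (φ q) := by
  classical
  have h1 : ∀ i, ∃ r : Fund.Ix T → ℚ, X (Fund.bR T i) = emb T r := by
    intro i
    obtain ⟨N, hN, hm⟩ := hX _ (Fund.bZ T i).2
    refine ⟨(N : ℚ)⁻¹ • crd T ⟨_, hm⟩, ?_⟩
    rw [emb_smul, emb_crd, bR_eq]
    have hN' : (N : ℝ) ≠ 0 := by exact_mod_cast hN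
    show X ((Fund.bZ T i : T.L) : T.V) =
      (((N : ℚ)⁻¹ : ℚ) : ℝ) • (N • X ((Fund.bZ T i : T.L) : T.V))
    rw [← Nat.cast_smul_eq_nsmul ℝ, smul_smul]
    push_cast
    rw [inv_mul_cancel₀ hN', one_smul]
  choose r hr using h1
  refine ⟨(Pi.basisFun ℚ (Fund.Ix T)).constr ℚ r, fun q => ?_⟩
  rw [Basis.constr_apply_fintype, emb_apply, map_sum, map_sum]
  refine Finset.sum_congr rfl fun i _ => ?_
  rw [map_smul, hr, Pi.basisFun_equivFun, emb_smul]
  rfl

/-- A real endomorphism is determined by its action on the rational vectors. -/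
theorem ext_emb {X Y : Module.End ℝ T.V} (h : ∀ q, X (emb T q) = Y (emb T q)) : X = Y := by
  refine (Fund.bR T).ext fun i => ?_
  have h1 := h (crd T (Fund.bZ T i))
  rw [emb_crd, ← bR_eq] at h1
  exact h1

variable {m : ℕ} {D : Cyc T m} {A : Set (Module.End ℝ T.V)}

/-- The algebra `A` acting on the rational coordinates. -/
def SA (hA : CAlg D A) : Subalgebra ℚ (Module.End ℚ (Fund.Ix T → ℚ)) where
  carrier := {φ | ∃ X ∈ A, ∀ q, X (emb T q) = emb T (φ q)}
  mul_mem' := by
    rintro φ φ' ⟨X, hX, h⟩ ⟨X', hX', h'⟩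
    refine ⟨X * X', hA.mul X hX X' hX', fun q => ?_⟩
    show X (X' (emb T q)) = emb T (φ (φ' q))
    rw [h', h]
  one_mem' := ⟨1, hA.one, fun q => rfl⟩
  add_mem' := by
    rintro φ φ' ⟨X, hX, h⟩ ⟨X', hX', h'⟩
    refine ⟨X + X', hA.add X hX X' hX', fun q => ?_⟩
    rw [LinearMap.add_apply, LinearMap.add_apply, map_add, h, h']
  zero_mem' := by
    refine ⟨0, ?_, fun q => by rw [LinearMap.zero_apply, LinearMap.zero_apply, map_zero]⟩
    have h := hA.smul 0 1 hA.one
    rwa [Rat.cast_zero, zero_smul] at h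
  algebraMap_mem' r := by
    refine ⟨(r : ℝ) • 1, hA.smul r 1 hA.one, fun q => ?_⟩
    rw [Module.algebraMap_end_apply, emb_smul]
    rfl

theorem SA_comm (hA : CAlg D A) (s t : SA hA) : s * t = t * s := by
  obtain ⟨φ, X, hX, h⟩ := s
  obtain ⟨φ', X', hX', h'⟩ := t
  apply Subtype.ext
  refine LinearMap.ext fun q => emb_inj ?_
  show emb T (φ (φ' q)) = emb T (φ' (φ q))
  rw [← h, ← h', ← h', ← h]
  exact LinearMap.congr_fun (hA.comm X hX X' hX') (emb T q)

/-- Elements of `A` with square zero vanish. -/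
theorem sq_zero (hA : CAlg D A) {X : Module.End ℝ T.V} (hX : X ∈ A) (h0 : X * X = 0) : X = 0 := by
  obtain ⟨Y, hY, hXY⟩ := hA.adj X hX
  -- everything commutes with `i`
  have hJ : ∀ Z ∈ A, ∀ v, Z (Complex.I • v) = Complex.I • Z v := by
    intro Z hZ
    have h1 : ∀ J ∈ Submodule.span ℝ A, J * Z = Z * J := by
      intro J hJ
      induction hJ using Submodule.span_induction with
      | mem W hW => exact hA.comm W hW Z hZ
      | zero => rw [zero_mul, mul_zero]
      | add W W' _ _ h h' => rw [add_mul, mul_add, h, h']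
      | smul r W _ h => rw [smul_mul_assoc, mul_smul_comm, h]
    intro v
    have h2 := LinearMap.congr_fun (h1 _ hA.J) v
    exact h2.symm
  let S : T.V → T.V → ℝ := fun u v => D.ψ (Complex.I • u) v
  have hS : ∀ u v, S u v = S v u := by
    intro u v
    show D.ψ (Complex.I • u) v = D.ψ (Complex.I • v) u
    rw [D.alt (Complex.I • u) v, ← D.cpx v (Complex.I • u), smul_smul, Complex.I_mul_I,
      neg_one_smul, map_neg, neg_neg]
  have hSX : ∀ u v, S (X u) v = S u (Y v) := by
    intro u v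
    show D.ψ (Complex.I • X u) v = D.ψ (Complex.I • u) (Y v)
    rw [← hJ X hX, hXY]
  have hSY : ∀ u v, S (Y u) v = S u (X v) := by
    intro u v
    rw [hS (Y u) v, ← hSX, hS]
  have hpos : ∀ v, S v v = 0 → v = 0 := by
    intro v hv
    by_contra hne
    exact (D.pos v hne).ne' hv
  have hc : ∀ v, X (Y v) = Y (X v) := fun v => LinearMap.congr_fun (hA.comm X hX Y hY) v
  have h00 : ∀ v, X (X v) = 0 := fun v => LinearMap.congr_fun h0 v
  have hW : ∀ u, Y (X u) = 0 := by
    intro u
    apply hpos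
    have h3 : S (Y (X u)) (Y (X u)) = S u 0 := by
      rw [hSY, hSX, hc, h00, map_zero, map_zero]
    rw [h3]
    show D.ψ (Complex.I • u) 0 = 0
    rw [map_zero]
  refine LinearMap.ext fun u => hpos _ ?_
  rw [hSX, hW]
  show D.ψ (Complex.I • u) 0 = 0
  rw [map_zero]

/-- The commutative ring `A`. -/
def RA (hA : CAlg D A) : Type := SA hA

instance (hA : CAlg D A) : CommRing (RA hA) :=
  { (inferInstance : Ring (SA hA)) with mul_comm := SA_comm hA }

instance (hA : CAlg D A) : Algebra ℚ (RA hA) := (inferInstance : Algebra ℚ (SA hA))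

instance (hA : CAlg D A) : Module (RA hA) (Fund.Ix T → ℚ) :=
  (inferInstance : Module (SA hA) (Fund.Ix T → ℚ))

instance (hA : CAlg D A) : IsScalarTower ℚ (RA hA) (Fund.Ix T → ℚ) :=
  ⟨fun _ _ _ => rfl⟩

instance (hA : CAlg D A) : Module.Finite ℚ (RA hA) :=
  (inferInstance : Module.Finite ℚ (SA hA))

instance (hA : CAlg D A) : IsReduced (RA hA) := by
  rw [isReduced_iff_pow_one_lt 2 (by norm_num)]
  intro s h2
  rw [pow_two] at h2
  obtain ⟨φ, X, hX, h⟩ := s
  have h3 : φ * φ = 0 := congrArg (fun s : SA hA => (s : Module.End ℚ (Fund.Ix T → ℚ))) h2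
  have h5 : X * X = 0 := by
    refine ext_emb fun q => ?_
    show X (X (emb T q)) = 0
    rw [h, h]
    have h6 : φ (φ q) = 0 := LinearMap.congr_fun h3 q
    rw [h6, map_zero]
  have h7 := sq_zero hA hX h5
  apply Subtype.ext
  refine LinearMap.ext fun q => emb_inj ?_
  show emb T (φ q) = emb T 0
  rw [← h, h7, LinearMap.zero_apply, map_zero]

end A3_aux

open A3_aux in
/-- **A3.** -/
theorem tA3 : S_A3 := by
  classical
  intro T m D A hA
  obtain ⟨n, I, hI, ⟨Φ⟩⟩ := abs (RA hA) (Fund.Ix T → ℚ)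
  have hφ : ∀ X : Module.End ℝ T.V, ∃ s : RA hA, X ∈ A → ∀ q, X (emb T q) = emb T (s • q) := by
    intro X
    by_cases hX : X ∈ A
    · obtain ⟨φ, h⟩ := exists_phi (hA.rat X hX)
      exact ⟨⟨φ, X, hX, h⟩, fun _ => h⟩
    · exact ⟨0, fun h => absurd h hX⟩
  choose σ hσ using hφ
  let F : ∀ k, Field (RA hA ⧸ I k) := fun k => Ideal.Quotient.field (I k)
  refine ⟨n, fun k => RA hA ⧸ I k, F, fun k => ?_, fun k => ?_, fun k X => ?_, ?_⟩
  · exact nf (RA hA) (RA hA ⧸ I k) (Ideal.Quotient.mk (I k)) Ideal.Quotient.mk_surjective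
  · exact AddMonoidHom.mk' (fun v => Φ (crd T v) k) (fun v w => by
      rw [map_add, map_add, Pi.add_apply])
  · exact Ideal.Quotient.mk (I k) (σ X)
  · refine ⟨?_, ?_, ?_, ?_⟩
    · intro k X hX v w N hw
      have h1 : crd T w = (N : ℚ) • (σ X • crd T v) := by
        apply emb_inj
        rw [emb_crd, emb_smul, ← hσ X hX, emb_crd, hw]
        push_cast
        rw [Nat.cast_smul_eq_nsmul]
      show Φ (crd T w) k = (N : RA hA ⧸ I k) * Ideal.Quotient.mk (I k) (σ X) * Φ (crd T v) k
      have h2 : crd T w = (N : RA hA) • (σ X • crd T v) := by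
        rw [h1, Nat.cast_smul_eq_nsmul, Nat.cast_smul_eq_nsmul]
      rw [h2, map_smul, map_smul, Pi.smul_apply, Pi.smul_apply, Algebra.smul_def,
        Algebra.smul_def, Ideal.Quotient.algebraMap_eq, map_natCast, mul_assoc]
    · intro v hv
      have h1 : Φ (crd T v) = 0 := funext fun k => hv k
      have h2 : crd T v = 0 := by
        rw [← map_zero Φ] at h1
        exact Φ.injective h1
      apply Subtype.ext
      rw [← emb_crd v, h2, map_zero]
      rfl
    · intro x
      obtain ⟨N, v, hN, hv⟩ := exists_lat (Φ.symm x)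
      refine ⟨N, v, hN, fun k => ?_⟩
      show Φ (crd T v) k = (N : RA hA ⧸ I k) * x k
      have h2 : crd T v = (N : RA hA) • Φ.symm x := by
        rw [hv, Nat.cast_smul_eq_nsmul, Nat.cast_smul_eq_nsmul]
      rw [h2, map_smul, LinearEquiv.apply_symm_apply, Pi.smul_apply, Algebra.smul_def,
        Ideal.Quotient.algebraMap_eq, map_natCast]
    · intro k x
      obtain ⟨s, hs⟩ := Ideal.Quotient.mk_surjective (I := I k) x
      obtain ⟨φ, X, hX, h⟩ := s
      refine ⟨X, hX, ?_⟩
      show Ideal.Quotient.mk (I k) (σ X) = x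
      rw [← hs]
      congr 1
      apply Subtype.ext
      refine LinearMap.ext fun q => emb_inj ?_
      exact (hσ X hX q).symm.trans (h q)

end SEB
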