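import Pool.Agent.Lib.SE.Big.Spec
import Pool.Agent.Lib.HC.L.E.Cm
import Pool.Agent.Lib.HC.P.Wtl

/-!
# PROJECT SE, module IsBig, A4: a commutative Hodge Lie algebra gives CM type (helper28)
-/

set_option autoImplicit false

open Module

noncomputable section

namespace SEB

open HC HC.E

namespace A4_aux

open NumberField Fund

/-- a totally complex number field with a complex conjugation independent of the embedding is a
CM field -/
theorem cm_of_conj (K : Type) [Field K] [NumberField K]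
    (hne : ∀ φ : K →+* ℂ, ComplexEmbedding.conjugate φ ≠ φ)
    (h : ∀ x : K, ∃ y : K, ∀ φ : K →+* ℂ, φ y = (starRingEnd ℂ) (φ x)) : IsCMField K := by
  have htc : IsTotallyComplex K := by
    refine ⟨fun w => ?_⟩
    rw [InfinitePlace.isComplex_iff]
    exact hne w.embedding
  have φ₀ : K →+* ℂ := Classical.choice (inferInstance : Nonempty (K →+* ℂ))
  obtain ⟨x, hx⟩ : ∃ x : K, (starRingEnd ℂ) (φ₀ x) ≠ φ₀ x := by
    by_contra hcon
    push Not at hcon
    exact hne φ₀ (RingHom.ext hcon)
  obtain ⟨y, hy⟩ := h x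
  obtain ⟨a, ha⟩ : ∃ a, a = x - y := ⟨_, rfl⟩
  have hac : ∀ φ : K →+* ℂ, (starRingEnd ℂ) (φ a) = -φ a := by
    intro φ
    rw [ha, map_sub, hy, map_sub, Complex.conj_conj]
    ring
  have ha0 : φ₀ a ≠ 0 := by
    rw [ha, map_sub, hy, sub_ne_zero]
    exact hx.symm
  have ha1 : a ≠ 0 := by
    intro h0
    exact ha0 (by rw [h0, map_zero])
  have hmem : ∀ z : K, (∀ φ : K →+* ℂ, (starRingEnd ℂ) (φ z) = φ z) → z ∈ maximalRealSubfield K :=
    fun z hz => (mem_maximalRealSubfield_iff z).2 hz
  have hfix : ∀ z : maximalRealSubfield K, (starRingEnd ℂ) (φ₀ (z : K)) = φ₀ (z : K) :=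
    fun z => (mem_maximalRealSubfield_iff _).1 z.2 φ₀
  have hli : LinearIndependent (maximalRealSubfield K) ![(1 : K), a] := by
    rw [LinearIndependent.pair_iff]
    intro s t hst
    have e1 : (s : K) + (t : K) * a = 0 := by
      rw [← hst, Subfield.smul_def, Subfield.smul_def, smul_eq_mul, smul_eq_mul, mul_one]
    have e2 := congrArg φ₀ e1
    rw [map_add, map_mul, map_zero] at e2
    have e3 := congrArg (starRingEnd ℂ) e2
    rw [map_add, map_mul, map_zero, hfix, hfix, hac] at e3
    have e4 : φ₀ (s : K) = 0 := by linear_combination (1 / 2 : ℂ) * e2 + (1 / 2 : ℂ) * e3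
    have e5 : φ₀ (t : K) * φ₀ a = 0 := by linear_combination (1 / 2 : ℂ) * e2 - (1 / 2 : ℂ) * e3
    have e6 := (mul_eq_zero.1 e5).resolve_right ha0
    exact ⟨Subtype.ext ((map_eq_zero φ₀).1 e4), Subtype.ext ((map_eq_zero φ₀).1 e6)⟩
  have hsp : ⊤ ≤ Submodule.span (maximalRealSubfield K) (Set.range ![(1 : K), a]) := by
    intro z _
    obtain ⟨z', hz'⟩ := h z
    have m1 : (z + z') / 2 ∈ maximalRealSubfield K := hmem _ fun φ => by
      rw [map_div₀, map_add, hz', map_ofNat, map_div₀, map_add, Complex.conj_conj, map_ofNat]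
      ring
    have m2 : (z - z') / (2 * a) ∈ maximalRealSubfield K := hmem _ fun φ => by
      rw [map_div₀, map_sub, hz', map_mul, map_ofNat, map_div₀, map_sub, Complex.conj_conj,
        map_mul, map_ofNat, hac]
      rw [mul_neg, div_neg, ← neg_div, neg_sub]
    rw [Matrix.range_cons, Matrix.range_cons, Matrix.range_empty, Set.union_empty,
      Set.singleton_union, Submodule.mem_span_pair]
    refine ⟨⟨_, m1⟩, ⟨_, m2⟩, ?_⟩
    rw [Subfield.smul_def, Subfield.smul_def, smul_eq_mul, smul_eq_mul]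
    field_simp
    ring
  have hq : Algebra.IsQuadraticExtension (maximalRealSubfield K) K := ⟨by
    rw [Module.finrank_eq_card_basis (Module.Basis.mk hli hsp), Fintype.card_fin]⟩
  exact ⟨⟩

variable {T : AV} {K : Type} [Field K]

/-- the real linear extension of `φ ∘ y` -/
def zf (y : T.L →+ K) (φ : K →+* ℂ) : Frm T := (bR T).constr ℝ fun i => φ (y (bZ T i))

theorem bR_apply (i : Ix T) : bR T i = (bZ T i : T.V) :=
  Module.Basis.ofZLatticeBasis_apply ℝ T.L (bZ T) i

theorem zf_b (y : T.L →+ K) (φ : K →+* ℂ) (i : Ix T) : zf y φ (bZ T i : T.V) = φ (y (bZ T i)) := by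
  rw [← bR_apply]
  exact (bR T).constr_basis ℝ _ i

theorem zf_L (y : T.L →+ K) (φ : K →+* ℂ) (v : T.L) : zf y φ (v : T.V) = φ (y v) := by
  have h1 := (bZ T).sum_repr v
  have h2 : ((v : T.L) : T.V) = ∑ i, (bZ T).repr v i • (bZ T i : T.V) := by
    conv_lhs => rw [← h1]
    rw [AddSubmonoidClass.coe_finsetSum]
    rfl
  rw [h2, map_sum]
  conv_rhs => rw [← h1]
  rw [map_sum, map_sum]
  refine Finset.sum_congr rfl fun i _ => ?_
  rw [map_zsmul, map_zsmul, map_zsmul, zf_b]

theorem frm_ext {a b : Frm T} (h : ∀ v : T.L, a (v : T.V) = b v) : a = b :=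
  (bR T).ext fun i => by rw [bR_apply]; exact h _

theorem zf_conj (y : T.L →+ K) (φ : K →+* ℂ) (v : T.V) :
    zf y (ComplexEmbedding.conjugate φ) v = (starRingEnd ℂ) (zf y φ v) := by
  have : zf y (ComplexEmbedding.conjugate φ) =
      (Complex.conjAe.toLinearMap : ℂ →ₗ[ℝ] ℂ) ∘ₗ zf y φ := by
    refine frm_ext fun v => ?_
    rw [LinearMap.comp_apply, zf_L, zf_L]
    rfl
  exact DFunLike.congr_fun this v

theorem zf_pre (y : T.L →+ K) (φ : K →+* ℂ) {X : Module.End ℝ T.V} (hX : RatEnd T X) (x : K)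
    (hw : ∀ (v w : T.L) (N : ℕ), (w : T.V) = N • X (v : T.V) → y w = N * x * y v) :
    pre X (zf y φ) = φ x • zf y φ := by
  refine frm_ext fun v => ?_
  obtain ⟨N, hN, hNL⟩ := hX v v.2
  have h1 := hw v ⟨_, hNL⟩ N rfl
  have h2 := congrArg φ h1
  rw [← zf_L, map_mul, map_mul, map_natCast, ← zf_L] at h2
  have h3 : zf y φ (N • X (v : T.V)) = (N : ℂ) * φ x * zf y φ (v : T.V) := h2
  rw [map_nsmul, nsmul_eq_mul, mul_assoc] at h3
  exact mul_left_cancel₀ (Nat.cast_ne_zero.2 hN) h3

end A4_aux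

open A4_aux NumberField Fund in
theorem tA4 : S_A4 := by
  classical
  intro h1 h2 h3 T m D hab
  obtain ⟨A, hA⟩ := h1 T m D hab
  obtain ⟨n, E, fE, nE, y, π, hy, hinj, hsur, hπ⟩ := h3 T m D A hA
  -- an element on which everything is known
  have hsing : ∀ (k : Fin n) (x : E k), ∃ (N : ℕ) (v : T.L), N ≠ 0 ∧ y k v = N * x ∧
      ∀ j, j ≠ k → y j v = 0 := by
    intro k x
    obtain ⟨N, v, hN, hv⟩ := hsur (Pi.single k x)
    refine ⟨N, v, hN, ?_, fun j hj => ?_⟩
    · rw [hv, Pi.single_eq_same]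
    · rw [hv, Pi.single_eq_of_ne hj, mul_zero]
  have hz0 : ∀ k (φ : E k →+* ℂ), zf (y k) φ ≠ 0 := by
    intro k φ h0
    obtain ⟨N, v, hN, hv, -⟩ := hsing k 1
    have e := zf_L (y k) φ v
    rw [h0, hv, mul_one, map_natCast, LinearMap.zero_apply] at e
    exact hN (by exact_mod_cast e.symm)
  have key : ∀ k (φ : E k →+* ℂ), (∀ X ∈ A, ∀ Y ∈ A, (∀ u v, D.ψ (X u) v = D.ψ u (Y v)) →
      φ (π k Y) = (starRingEnd ℂ) (φ (π k X))) ∧
      ((∀ v, zf (y k) φ (Complex.I • v) = Complex.I * zf (y k) φ v) ∨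
        ∀ v, zf (y k) φ (Complex.I • v) = -Complex.I * zf (y k) φ v) := fun k φ =>
    h2 T m D A hA (zf (y k) φ) (fun X => φ (π k X)) (hz0 k φ) fun X hX =>
      zf_pre (y k) φ (hA.rat X hX) (π k X) fun v w N hw => hy k X hX v w N hw
  let Φ : ∀ k, Set (E k →+* ℂ) := fun k =>
    {φ | ∀ v, zf (y k) φ (Complex.I • v) = Complex.I * zf (y k) φ v}
  have hΦ : ∀ k, IsType (Φ k) := by
    intro k φ
    constructor
    · intro h h'
      apply hz0 k φ
      refine LinearMap.ext fun v => ?_
      have e1 : zf (y k) φ (Complex.I • v) = Complex.I * zf (y k) φ v := h v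
      have e2 : zf (y k) (ComplexEmbedding.conjugate φ) (Complex.I • v) =
        Complex.I * zf (y k) (ComplexEmbedding.conjugate φ) v := h' v
      rw [zf_conj, zf_conj, e1, map_mul, Complex.conj_I] at e2
      have e3 : Complex.I * (starRingEnd ℂ) (zf (y k) φ v) = 0 := by
        linear_combination (-1 / 2 : ℂ) * e2
      have e4 := (mul_eq_zero.1 e3).resolve_left Complex.I_ne_zero
      rw [LinearMap.zero_apply]
      exact (map_eq_zero (starRingEnd ℂ)).1 e4
    · intro h
      rcases (key k φ).2 with h' | h'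
      · exact h'
      · exfalso
        apply h
        intro v
        rw [zf_conj, zf_conj, h' v, map_mul, map_neg, Complex.conj_I, neg_neg]
  have hcm : ∀ k, IsCMField (E k) := by
    intro k
    refine cm_of_conj (E k) (fun φ hφ => ?_) (fun x => ?_)
    · have e := hΦ k φ
      rw [hφ] at e
      exact (iff_not_self e).elim
    · obtain ⟨X, hX, hXx⟩ := hπ k x
      obtain ⟨Y, hY, hXY⟩ := hA.adj X hX
      exact ⟨π k Y, fun φ => by rw [(key k φ).1 X hX Y hY hXY, hXx]⟩
  -- the map
  let ψ : T.V →ₗ[ℂ] ((s : (k : Fin n) × Φ k) → ℂ) :=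
    { toFun := fun v s => zf (y s.1) s.2.1 v
      map_add' := fun v w => by
        funext s
        exact map_add _ _ _
      map_smul' := fun c v => by
        funext s
        have h1 : zf (y s.1) s.2.1 (Complex.I • v) = Complex.I * zf (y s.1) s.2.1 v := s.2.2 v
        have h2 : c • v = c.re • v + c.im • (Complex.I • v) := by
          conv_lhs => rw [← Complex.re_add_im c]
          rw [add_smul, mul_smul, Complex.coe_smul, Complex.coe_smul]
        change zf (y s.1) s.2.1 (c • v) = c * zf (y s.1) s.2.1 v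
        rw [h2, map_add, map_smul, map_smul, h1, Complex.real_smul, Complex.real_smul]
        conv_rhs => rw [← Complex.re_add_im c]
        ring }
  have hsurψ : Function.Surjective ψ := by
    rw [← LinearMap.range_eq_top]
    by_contra hne
    obtain ⟨f, hf0, hf⟩ := Submodule.exists_le_ker_of_lt_top _ (lt_top_iff_ne_top.2 hne)
    apply hf0
    refine LinearMap.pi_ext' fun s => ?_
    refine LinearMap.ext_ring ?_
    obtain ⟨k, φ⟩ := s
    have h1 : ∀ x : E k, ∑ φ : Φ k, f (Pi.single ⟨k, φ⟩ 1) * φ.1 x = 0 := by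
      intro x
      obtain ⟨N, v, hN, hv, hv'⟩ := hsing k x
      have h2 : f (ψ (v : T.V)) = 0 := hf ⟨_, rfl⟩
      rw [LinearMap.pi_apply_eq_sum_univ f, Fintype.sum_sigma] at h2
      rw [Finset.sum_eq_single k] at h2
      · have h4 : (N : ℂ) * ∑ φ : Φ k, f (Pi.single ⟨k, φ⟩ 1) * φ.1 x = 0 := by
          rw [← h2, Finset.mul_sum]
          refine Finset.sum_congr rfl fun φ _ => ?_
          have e1 : ψ (v : T.V) ⟨k, φ⟩ = N * φ.1 x := by
            change zf (y k) φ.1 (v : T.V) = _
            rw [zf_L, hv, map_mul, map_natCast]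
          have e2 : (Pi.single (⟨k, φ⟩ : (k : Fin n) × Φ k) (1 : ℂ)) =
              fun j => if (⟨k, φ⟩ : (k : Fin n) × Φ k) = j then (1 : ℂ) else 0 := by
            funext j
            by_cases hst : (⟨k, φ⟩ : (k : Fin n) × Φ k) = j
            · subst hst
              simp
            · rw [if_neg hst, Pi.single_eq_of_ne (Ne.symm hst)]
          rw [e1, e2, smul_eq_mul]
          ring
        exact (mul_eq_zero.1 h4).resolve_left (Nat.cast_ne_zero.2 hN)
      · intro j _ hj
        refine Finset.sum_eq_zero fun φ _ => ?_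
        have e1 : ψ (v : T.V) ⟨j, φ⟩ = 0 := by
          change zf (y j) φ.1 (v : T.V) = _
          rw [zf_L, hv' j hj, map_zero]
        rw [e1, zero_smul]
      · intro h
        exact absurd (Finset.mem_univ k) h
    have h3 : LinearIndependent ℂ (fun φ : Φ k => ((φ.1 : E k →* ℂ) : E k → ℂ)) := by
      refine (linearIndependent_monoidHom (E k) ℂ).comp (fun φ : Φ k => (φ.1 : E k →* ℂ)) ?_
      intro s t hst
      have h4 : (s.1 : E k →* ℂ) = (t.1 : E k →* ℂ) := hst
      exact Subtype.ext (RingHom.ext fun x => DFunLike.congr_fun h4 x)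
    rw [Fintype.linearIndependent_iff] at h3
    exact h3 (fun φ => f (Pi.single ⟨k, φ⟩ 1)) (by
      funext x
      rw [Finset.sum_apply]
      exact h1 x) φ
  -- the number of the embeddings
  have hcardΦ : ∀ k, 2 * Fintype.card (Φ k) = finrank ℚ (E k) := by
    intro k
    have h1 : Fintype.card (E k →+* ℂ) = finrank ℚ (E k) := Embeddings.card (E k) ℂ
    have h2 : Fintype.card (Φ k) = Fintype.card {φ : E k →+* ℂ // φ ∉ Φ k} := by
      refine Fintype.card_congr ⟨fun φ => ⟨ComplexEmbedding.conjugate φ.1, (hΦ k φ.1).1 φ.2⟩,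
        fun φ => ⟨ComplexEmbedding.conjugate φ.1, ?_⟩, ?_, ?_⟩
      · by_contra hc
        apply φ.2
        exact (hΦ k φ.1).2 hc
      · intro φ
        exact Subtype.ext (star_star φ.1)
      · intro φ
        exact Subtype.ext (star_star φ.1)
    have h3 := Fintype.card_subtype_compl (fun φ : E k →+* ℂ => φ ∈ Φ k)
    have h4 : Fintype.card {φ : E k →+* ℂ // φ ∈ Φ k} ≤ Fintype.card (E k →+* ℂ) :=
      Fintype.card_subtype_le _
    have h5 : Fintype.card (Φ k) = Fintype.card {φ : E k →+* ℂ // φ ∈ Φ k} := rfl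
    omega
  have hle : Fintype.card (Ix T) ≤ ∑ k, finrank ℚ (E k) := by
    let Y : T.L →ₗ[ℤ] (∀ k, E k) :=
      { toFun := fun v k => y k v
        map_add' := fun v w => by
          funext k
          exact map_add _ _ _
        map_smul' := fun c v => by
          funext k
          exact map_zsmul _ _ _ }
    have hY : LinearMap.ker Y = ⊥ := by
      rw [LinearMap.ker_eq_bot']
      intro v hv
      exact hinj v fun k => congrFun hv k
    have h4 : LinearIndependent ℤ (Y ∘ bZ T) := (bZ T).linearIndependent.map' Y hY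
    have h5 : LinearIndependent ℚ (Y ∘ bZ T) := (LinearIndependent.iff_fractionRing ℤ ℚ).1 h4
    have h6 := h5.fintype_card_le_finrank
    rwa [Module.finrank_pi_fintype] at h6
  have hdim : finrank ℂ T.V = Fintype.card ((k : Fin n) × Φ k) := by
    have e1 : finrank ℝ T.V = Fintype.card (Ix T) := Module.finrank_eq_card_basis (bR T)
    rw [finrank_real_of_complex] at e1
    have e2 : ∑ k, finrank ℚ (E k) = 2 * Fintype.card ((k : Fin n) × Φ k) := by
      rw [Fintype.card_sigma, Finset.mul_sum]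
      exact Finset.sum_congr rfl fun k _ => (hcardΦ k).symm
    have e3 : Fintype.card ((k : Fin n) × Φ k) ≤ finrank ℂ T.V := by
      have := LinearMap.finrank_le_finrank_of_surjective hsurψ
      rwa [Module.finrank_fintype_fun_eq_card] at this
    omega
  have hinjψ : Function.Injective ψ := by
    have h1 : finrank ℂ T.V = finrank ℂ ((s : (k : Fin n) × Φ k) → ℂ) := by
      rw [Module.finrank_fintype_fun_eq_card, hdim]
    exact (LinearMap.injective_iff_surjective_of_finrank_eq_finrank h1).2 hsurψ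
  refine ⟨n, E, fE, nE, hcm, Φ, hΦ, LinearEquiv.ofBijective ψ ⟨hinjψ, hsurψ⟩, ?_⟩
  intro v hv
  exact ⟨fun k => y k ⟨v, hv⟩, fun k φ => zf_L (y k) φ.1 ⟨v, hv⟩⟩

end SEB
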