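import Pool.Agent.Lib.SE.Big.Spec

/-!
# PROJECT SE, module IsBig: the eigenspace of `ad J` for the eigenvalue `2 i`
-/

set_option autoImplicit false

open Module

noncomputable section

namespace SEB

open HC HC.E

namespace AdJ_aux

/-- The projector to the eigenspace of `-i` of an operator `J` with `J² = -1`. -/
def prj {W : Type} [AddCommGroup W] [Module ℂ W] (J : Module.End ℂ W) (hJ : ∀ a, J (J a) = -a) :
    W →ₗ[ℂ] (Module.End.eigenspace J (-Complex.I)) where
  toFun a := ⟨(2 : ℂ)⁻¹ • (a + Complex.I • J a), by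
    rw [Module.End.mem_eigenspace_iff, map_smul, map_add, map_smul, hJ, smul_comm (-Complex.I)]
    congr 1
    rw [smul_add, smul_smul, neg_mul, Complex.I_mul_I, neg_neg, one_smul, smul_neg, neg_smul,
      add_comm]⟩
  map_add' a b := by
    refine Subtype.ext ?_
    show (2 : ℂ)⁻¹ • (a + b + Complex.I • J (a + b)) =
      (2 : ℂ)⁻¹ • (a + Complex.I • J a) + (2 : ℂ)⁻¹ • (b + Complex.I • J b)
    rw [map_add]
    module
  map_smul' c a := by
    refine Subtype.ext ?_
    show (2 : ℂ)⁻¹ • (c • a + Complex.I • J (c • a)) = c • ((2 : ℂ)⁻¹ • (a + Complex.I • J a))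
    rw [map_smul]
    module

section

variable {W : Type} [AddCommGroup W] [Module ℂ W] (J : Module.End ℂ W) (hJ : ∀ a, J (J a) = -a)

lemma prj_apply (a : W) : ((prj J hJ a : Module.End.eigenspace J (-Complex.I)) : W) =
    (2 : ℂ)⁻¹ • (a + Complex.I • J a) := rfl

lemma prj_neg (a : Module.End.eigenspace J (-Complex.I)) : prj J hJ (a : W) = a := by
  refine Subtype.ext ?_
  have h := Module.End.mem_eigenspace_iff.1 a.2
  rw [prj_apply, h, smul_smul, mul_neg, Complex.I_mul_I, neg_neg, one_smul, ← two_smul ℂ (a : W),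
    smul_smul, inv_mul_cancel₀ (two_ne_zero), one_smul]

lemma prj_pos (a : W) (ha : J a = Complex.I • a) : prj J hJ a = 0 := by
  refine Subtype.ext ?_
  rw [prj_apply, ha, smul_smul, Complex.I_mul_I, neg_smul, one_smul, add_neg_cancel, smul_zero]
  rfl

/-- The operators which kill type `(1,0)` and have values of type `(1,0)`. -/
def emb : ((Module.End.eigenspace J (-Complex.I)) →ₗ[ℂ] (Module.End.eigenspace J Complex.I)) →ₗ[ℂ]
    Module.End ℂ W where
  toFun f := (Module.End.eigenspace J Complex.I).subtype ∘ₗ f ∘ₗ prj J hJ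
  map_add' _ _ := rfl
  map_smul' _ _ := rfl

lemma emb_apply (f : (Module.End.eigenspace J (-Complex.I)) →ₗ[ℂ]
    (Module.End.eigenspace J Complex.I)) (a : W) : emb J hJ f a = (f (prj J hJ a) : W) := rfl

lemma emb_inj : Function.Injective (emb J hJ) := by
  intro f g h
  refine LinearMap.ext fun a => Subtype.ext ?_
  have h1 := LinearMap.congr_fun h (a : W)
  rw [emb_apply, emb_apply, prj_neg] at h1
  exact h1

include hJ in
/-- An operator of weight `2 i` kills the eigenspace of `i`. -/
lemma kills (A : Module.End ℂ W) (hA : ∀ a, J (A a) - A (J a) = (2 * Complex.I) • A a) (a : W)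
    (ha : J a = Complex.I • a) : A a = 0 := by
  have h1 := hA a
  rw [ha, map_smul] at h1
  have h2 : J (A a) = (3 * Complex.I) • A a := by
    rw [sub_eq_iff_eq_add.1 h1]
    module
  have h3 := hJ (A a)
  rw [h2, map_smul, h2, smul_smul] at h3
  have h4 : (3 * Complex.I * (3 * Complex.I)) = -9 := by
    rw [mul_mul_mul_comm, Complex.I_mul_I]
    norm_num
  rw [h4] at h3
  have h5 : (8 : ℂ) • A a = 0 := by
    have h6 : (8 : ℂ) • A a = -((-9 : ℂ) • A a) - A a := by module
    rw [h6, h3]
    module
  exact (smul_eq_zero.1 h5).resolve_left (by norm_num)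

/-- An operator of weight `2 i` maps the eigenspace of `-i` to the eigenspace of `i`. -/
lemma vals (A : Module.End ℂ W) (hA : ∀ a, J (A a) - A (J a) = (2 * Complex.I) • A a) (a : W)
    (ha : J a = -Complex.I • a) : J (A a) = Complex.I • A a := by
  have h1 := hA a
  rw [ha, map_smul] at h1
  rw [sub_eq_iff_eq_add.1 h1]
  module

include hJ in
/-- An operator of weight `2 i`. -/
lemma decomp (A : Module.End ℂ W) (hA : ∀ a, J (A a) - A (J a) = (2 * Complex.I) • A a) (a : W) :
    A a = A (prj J hJ a : W) := by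
  have h1 : a = (prj J hJ a : W) + (2 : ℂ)⁻¹ • (a - Complex.I • J a) := by
    rw [prj_apply]
    module
  have h2 : A ((2 : ℂ)⁻¹ • (a - Complex.I • J a)) = 0 := by
    refine kills J hJ A hA _ ?_
    rw [map_smul, map_sub, map_smul, hJ, smul_comm Complex.I]
    congr 1
    rw [smul_sub, smul_smul, Complex.I_mul_I, neg_smul, one_smul, smul_neg]
    module
  conv_lhs => rw [h1]
  rw [map_add, h2, add_zero]

include hJ in
lemma key [FiniteDimensional ℂ W] (S : Submodule ℂ (Module.End ℂ W))
    (hS : ∀ A, A ∈ S ↔ ∀ a, J (A a) - A (J a) = (2 * Complex.I) • A a) :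
    finrank ℂ S = finrank ℂ (Module.End.eigenspace J Complex.I) *
      finrank ℂ (Module.End.eigenspace J (-Complex.I)) ∧ ∀ A ∈ S, LinearMap.trace ℂ W A = 0 := by
  constructor
  · have h1 : S = LinearMap.range (emb J hJ) := by
      refine le_antisymm (fun A hA => ?_) ?_
      · have hA' := (hS A).1 hA
        refine ⟨LinearMap.codRestrict (Module.End.eigenspace J Complex.I)
          (A ∘ₗ (Module.End.eigenspace J (-Complex.I)).subtype) fun a => ?_, ?_⟩
        · exact Module.End.mem_eigenspace_iff.2
            (vals J A hA' a (Module.End.mem_eigenspace_iff.1 a.2))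
        · refine LinearMap.ext fun a => ?_
          rw [emb_apply, decomp J hJ A hA' a]
          rfl
      · rintro _ ⟨f, rfl⟩
        refine (hS _).2 fun a => ?_
        rw [emb_apply, emb_apply, Module.End.mem_eigenspace_iff.1 (f (prj J hJ a)).2]
        have h2 : prj J hJ (J a) = -Complex.I • prj J hJ a := by
          refine Subtype.ext ?_
          show (prj J hJ (J a) : W) = -Complex.I • (prj J hJ a : W)
          rw [prj_apply, prj_apply, hJ, smul_comm (-Complex.I)]
          congr 1
          rw [smul_add, smul_smul, neg_mul, Complex.I_mul_I, neg_neg, one_smul, smul_neg, neg_smul,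
            add_comm]
        rw [h2, map_smul]
        show Complex.I • (f (prj J hJ a) : W) - -Complex.I • (f (prj J hJ a) : W) = _
        module
    rw [h1, LinearMap.finrank_range_of_inj (emb_inj J hJ), Module.finrank_linearMap, mul_comm]
  · intro A hA
    have hA' := (hS A).1 hA
    have h2 : A ^ 2 = 0 := by
      refine LinearMap.ext fun a => ?_
      rw [pow_two, Module.End.mul_apply, LinearMap.zero_apply]
      refine kills J hJ A hA' _ ?_
      rw [decomp J hJ A hA' a]
      exact vals J A hA' _ (Module.End.mem_eigenspace_iff.1 (prj J hJ a).2)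
    have h3 : IsNilpotent (LinearMap.trace ℂ W A) :=
      LinearMap.isNilpotent_trace_of_isNilpotent ⟨2, h2⟩
    exact h3.eq_zero

end

end AdJ_aux

open AdJ_aux in
theorem tAdJ : S_Bas → S_AdJ := by
  intro hBas T m D hm s S hS
  obtain ⟨-, -, hW, -, hC⟩ := hBas T m D hm
  have hJW : ∀ s, ∀ a ∈ Ws D s, pre (mulI T) a ∈ Ws D s :=
    hW (mulI T) fun v => (D.Z.map_smul Complex.I v).symm
  have hpJ : ∀ (a : Frm T) v, pre (mulI T) a v = a (Complex.I • v) := fun a v => rfl
  set J : Module.End ℂ (Ws D s) := (pre (mulI T)).restrict (hJW s) with hJdef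
  have hJa : ∀ a : Ws D s, ((J a : Ws D s) : Frm T) = pre (mulI T) (a : Frm T) := fun a => rfl
  have hJ2 : ∀ a, J (J a) = -a := by
    intro a
    refine Subtype.ext (LinearMap.ext fun v => ?_)
    rw [hJa, hpJ, hJa, hpJ, smul_smul, Complex.I_mul_I, neg_smul, one_smul, map_neg]
    rfl
  have hS' : ∀ A, A ∈ S ↔ ∀ a, J (A a) - A (J a) = (2 * Complex.I) • A a := by
    intro A
    rw [hS A]
    constructor
    · intro h a
      exact Subtype.ext (h a (J a) rfl)
    · intro h a b hb
      have hb' : b = J a := Subtype.ext hb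
      rw [hb']
      exact congrArg Subtype.val (h a)
  obtain ⟨h1, h2⟩ := key J hJ2 S hS'
  refine ⟨?_, h2⟩
  rw [h1]
  congr 1
  · have e : (Module.End.eigenspace J Complex.I).map (Ws D s).subtype = Ws10 D s := by
      ext a
      constructor
      · rintro ⟨b, hb, rfl⟩
        refine ⟨b.2, fun v => ?_⟩
        have h3 := congrArg Subtype.val (Module.End.mem_eigenspace_iff.1 hb)
        exact LinearMap.congr_fun h3 v
      · rintro ⟨ha, hb⟩
        refine ⟨⟨a, ha⟩, Module.End.mem_eigenspace_iff.2 (Subtype.ext (LinearMap.ext fun v => ?_)),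
          rfl⟩
        exact hb v
    rw [Cyc.p, ← e]
    exact (Submodule.equivMapOfInjective (Ws D s).subtype (Ws D s).injective_subtype
      (Module.End.eigenspace J Complex.I)).finrank_eq
  · have hc2 : ∀ a : Frm T, a ∈ Ws D s → ((Complex.conjAe.toLinearMap : ℂ →ₗ[ℝ] ℂ) ∘ₗ a) ∈ Ws D (-s) := by
      intro a ha
      obtain ⟨b, hb, hb2⟩ := hC s a ha
      have : ((Complex.conjAe.toLinearMap : ℂ →ₗ[ℝ] ℂ) ∘ₗ a) = b :=
        LinearMap.ext fun v => (hb2 v).symm
      rw [this]
      exact hb
    have hc3 : ∀ a : Frm T, a ∈ Ws D (-s) → ((Complex.conjAe.toLinearMap : ℂ →ₗ[ℝ] ℂ) ∘ₗ a) ∈ Ws D s := by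
      intro a ha
      obtain ⟨b, hb, hb2⟩ := hC (-s) a ha
      rw [neg_neg] at hb
      have : ((Complex.conjAe.toLinearMap : ℂ →ₗ[ℝ] ℂ) ∘ₗ a) = b :=
        LinearMap.ext fun v => (hb2 v).symm
      rw [this]
      exact hb
    let j : Module.End.eigenspace J (-Complex.I) ≃+ Ws10 D (-s) :=
      { toFun := fun a => ⟨(Complex.conjAe.toLinearMap : ℂ →ₗ[ℝ] ℂ) ∘ₗ ((a : Ws D s) : Frm T), by
          refine ⟨hc2 _ (a : Ws D s).2, fun v => ?_⟩
          have h3 := congrArg Subtype.val (Module.End.mem_eigenspace_iff.1 a.2)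
          have h4 : ((a : Ws D s) : Frm T) (Complex.I • v) = -Complex.I * ((a : Ws D s) : Frm T) v :=
            LinearMap.congr_fun h3 v
          show (starRingEnd ℂ) (((a : Ws D s) : Frm T) (Complex.I • v)) =
            Complex.I * (starRingEnd ℂ) (((a : Ws D s) : Frm T) v)
          rw [h4, map_mul, map_neg, Complex.conj_I, neg_neg]⟩
        invFun := fun a => ⟨⟨(Complex.conjAe.toLinearMap : ℂ →ₗ[ℝ] ℂ) ∘ₗ (a : Frm T),
          hc3 _ a.2.1⟩, by
          refine Module.End.mem_eigenspace_iff.2 (Subtype.ext (LinearMap.ext fun v => ?_))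
          show (starRingEnd ℂ) ((a : Frm T) (Complex.I • v)) =
            -Complex.I * (starRingEnd ℂ) ((a : Frm T) v)
          rw [a.2.2 v, map_mul, Complex.conj_I]⟩
        left_inv := fun a => by
          refine Subtype.ext (Subtype.ext (LinearMap.ext fun v => ?_))
          exact Complex.conj_conj _
        right_inv := fun a => by
          refine Subtype.ext (LinearMap.ext fun v => ?_)
          exact Complex.conj_conj _
        map_add' := fun a b => by
          refine Subtype.ext (LinearMap.ext fun v => ?_)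
          exact map_add (starRingEnd ℂ) _ _ }
    have h5 : Module.rank ℂ (Module.End.eigenspace J (-Complex.I)) =
        Module.rank ℂ (Ws10 D (-s)) := by
      refine rank_eq_of_equiv_equiv (starRingEnd ℂ) j (Function.Involutive.bijective Complex.conj_conj) ?_
      intro r a
      refine Subtype.ext (LinearMap.ext fun v => ?_)
      exact map_mul (starRingEnd ℂ) _ _
    rw [Cyc.p, finrank, finrank, h5]

end SEB
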