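import Pool.Agent.Lib.SE.Big.Spec

/-! # SE/Big, module All: from one character to all characters -/

set_option autoImplicit false

open Module

noncomputable section

namespace SEB

open HC HC.E

namespace All_aux

variable {T : AV} {m : ℕ}

/-- The dimension of the traceless operators. -/
theorem fin_sl (W : Type) [AddCommGroup W] [Module ℂ W] (r : ℕ) (hr : 1 ≤ r)
    (hW : finrank ℂ W = r) : finrank ℂ (LinearMap.ker (LinearMap.trace ℂ W)) + 1 = r * r := by
  have : FiniteDimensional ℂ W := .of_finrank_pos (by omega)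
  have h1 := LinearMap.finrank_range_add_finrank_ker (LinearMap.trace ℂ W)
  have hr0 : (r : ℂ) ≠ 0 := by
    have : r ≠ 0 := by omega
    exact_mod_cast this
  have h2 : LinearMap.range (LinearMap.trace ℂ W) = ⊤ := by
    refine LinearMap.range_eq_top.2 fun c => ⟨(c / r) • 1, ?_⟩
    rw [map_smul, LinearMap.trace_one, hW, smul_eq_mul, div_mul_cancel₀ _ hr0]
  rw [h2, finrank_top, finrank_self, Module.finrank_linearMap, hW] at h1
  omega

/-- Transfer of a spanning family. -/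
theorem transfer {V V' ι : Type} [AddCommGroup V] [Module ℂ V] [AddCommGroup V'] [Module ℂ V']
    (R : ι → V) (R' : ι → V') (K : Submodule ℂ V) (K' : Submodule ℂ V') [FiniteDimensional ℂ K]
    [FiniteDimensional ℂ K'] (hK : finrank ℂ K = finrank ℂ K')
    (hsp : Submodule.span ℂ (Set.range R) = K) (hR' : ∀ i, R' i ∈ K')
    (hrel : ∀ (n : ℕ) (Y : Fin n → ι) (c : Fin n → ℂ), c ≠ 0 → ∑ i, c i • R' (Y i) = 0 →
      ∃ c' : Fin n → ℂ, c' ≠ 0 ∧ ∑ i, c' i • R (Y i) = 0) (x : V') (hx : x ∈ K') :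
    ∃ (n : ℕ) (Y : Fin n → ι) (c : Fin n → ℂ), ∑ i, c i • R' (Y i) = x := by
  have : FiniteDimensional ℂ (Submodule.span ℂ (Set.range R)) := by rw [hsp]; infer_instance
  obtain ⟨f, hf1, hf2, hf3⟩ := Submodule.exists_fun_fin_finrank_span_eq ℂ (Set.range R)
  choose Y hY using hf1
  have hind : LinearIndependent ℂ (fun i => R' (Y i)) := by
    rw [Fintype.linearIndependent_iff]
    intro c hc
    by_contra hne
    obtain ⟨c', hc', hr⟩ := hrel _ Y c (fun h0 => hne fun i => by rw [h0]; rfl) hc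
    apply hc'
    funext i
    refine (Fintype.linearIndependent_iff.1 hf3) c' ?_ i
    rw [← hr]
    exact Finset.sum_congr rfl fun i _ => by rw [hY i]
  let g : Fin (finrank ℂ (Submodule.span ℂ (Set.range R))) → K' := fun i => ⟨R' (Y i), hR' _⟩
  have hgi : LinearIndependent ℂ g := LinearIndependent.of_comp (Submodule.subtype _) hind
  have hgt : Submodule.span ℂ (Set.range g) = ⊤ :=
    hgi.span_eq_top_of_card_eq_finrank' (by rw [Fintype.card_fin, hsp, hK])
  have hmem : (⟨x, hx⟩ : K') ∈ Submodule.span ℂ (Set.range g) := by rw [hgt]; trivial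
  obtain ⟨c, hc⟩ := (Submodule.mem_span_range_iff_exists_fun ℂ).1 hmem
  refine ⟨_, Y, c, ?_⟩
  have h2 := congrArg (fun B : K' => (B : V')) hc
  simpa [g] using h2

/-- Transfer for operators. -/
theorem transferE (W W' : Type) [AddCommGroup W] [Module ℂ W] [AddCommGroup W'] [Module ℂ W']
    (r : ℕ) (hr : 1 ≤ r) (hW : finrank ℂ W = r) (hW' : finrank ℂ W' = r) (ι : Type)
    (R : ι → Module.End ℂ W) (R' : ι → Module.End ℂ W')
    (hsp : Submodule.span ℂ (Set.range R) = LinearMap.ker (LinearMap.trace ℂ W))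
    (hR' : ∀ i, LinearMap.trace ℂ W' (R' i) = 0)
    (hrel : ∀ (n : ℕ) (Y : Fin n → ι) (c : Fin n → ℂ), c ≠ 0 → ∑ i, c i • R' (Y i) = 0 →
      ∃ c' : Fin n → ℂ, c' ≠ 0 ∧ ∑ i, c' i • R (Y i) = 0) (x : Module.End ℂ W')
    (hx : LinearMap.trace ℂ W' x = 0) :
    ∃ (n : ℕ) (Y : Fin n → ι) (c : Fin n → ℂ), ∑ i, c i • R' (Y i) = x := by
  have : FiniteDimensional ℂ W := .of_finrank_pos (by omega)
  have : FiniteDimensional ℂ W' := .of_finrank_pos (by omega)
  have h1 := fin_sl W r hr hW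
  have h2 := fin_sl W' r hr hW'
  exact transfer R R' (LinearMap.ker (LinearMap.trace ℂ W)) (LinearMap.ker (LinearMap.trace ℂ W'))
    (Nat.add_right_cancel (h1.trans h2.symm)) hsp (fun i => LinearMap.mem_ker.2 (hR' i)) hrel x
    (LinearMap.mem_ker.2 hx)

/-- Operators in `gg h` act on the eigenspace like combinations of the restrictions. -/
theorem gg_res {D : Cyc T m} {h : Set (Module.End ℝ T.V)} {s : (ZMod m)ˣ}
    (R : Com h → Module.End ℂ (Ws D s))
    (hR : ∀ Y : Com h, ∀ a : Ws D s, pre Y.1 (a : Frm T) = (R Y a : Frm T))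
    (C : Module.End ℂ (Frm T)) (hC : C ∈ gg h) :
    ∃ B ∈ Submodule.span ℂ (Set.range R), ∀ a : Ws D s, C (a : Frm T) = (B a : Frm T) := by
  unfold gg at hC
  induction hC using Submodule.span_induction with
  | mem x hx =>
    obtain ⟨Y, hY, rfl⟩ := hx
    exact ⟨R ⟨Y, hY⟩, Submodule.subset_span ⟨_, rfl⟩, hR ⟨Y, hY⟩⟩
  | zero => exact ⟨0, zero_mem _, fun a => rfl⟩
  | add x y _ _ hx hy =>
    obtain ⟨B, hB, hB'⟩ := hx
    obtain ⟨B', hB2, hB2'⟩ := hy
    refine ⟨B + B', add_mem hB hB2, fun a => ?_⟩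
    rw [LinearMap.add_apply, hB' a, hB2' a]
    rfl
  | smul c x _ hx =>
    obtain ⟨B, hB, hB'⟩ := hx
    refine ⟨c • B, Submodule.smul_mem _ c hB, fun a => ?_⟩
    rw [LinearMap.smul_apply, hB' a]
    rfl

/-- Combinations of the restrictions. -/
theorem comb {D : Cyc T m} {h : Set (Module.End ℝ T.V)} {s : (ZMod m)ˣ}
    (R : Com h → Module.End ℂ (Ws D s))
    (hR : ∀ Y : Com h, ∀ a : Ws D s, pre Y.1 (a : Frm T) = (R Y a : Frm T)) (n : ℕ)
    (Y : Fin n → Com h) (c : Fin n → ℂ) (a : Ws D s) :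
    ∑ i, c i • pre (Y i).1 (a : Frm T) = (((∑ i, c i • R (Y i)) a : Ws D s) : Frm T) := by
  rw [LinearMap.sum_apply, AddSubmonoidClass.coe_finsetSum]
  exact Finset.sum_congr rfl fun i _ => by rw [hR]; rfl

end All_aux

open All_aux in
theorem tAll : S_All := by
  classical
  intro hBas hDim hLI hCl T m r D hm hr hfr h hh s hs t
  have hds := (hDim T m r D hm hfr s).1
  have hdt := (hDim T m r D hm hfr t).1
  have : FiniteDimensional ℂ (Ws D s) := .of_finrank_pos (by omega)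
  have : FiniteDimensional ℂ (Ws D t) := .of_finrank_pos (by omega)
  have hcl := (hCl hBas T m D hm h hh).2.2
  have hR : ∀ t', ∀ Y : Com h, ∃ A' : Module.End ℂ (Ws D t'),
      LinearMap.trace ℂ (Ws D t') A' = 0 ∧ ∀ a : Ws D t', pre Y.1 (a : Frm T) = (A' a : Frm T) :=
    fun t' Y => hcl (pre Y.1) (Submodule.subset_span ⟨Y.1, Y.2, rfl⟩) t'
  choose R hR1 hR2 using hR
  have hsp : Submodule.span ℂ (Set.range (R s)) = LinearMap.ker (LinearMap.trace ℂ (Ws D s)) := by
    apply le_antisymm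
    · refine Submodule.span_le.2 ?_
      rintro _ ⟨Y, rfl⟩
      exact LinearMap.mem_ker.2 (hR1 s Y)
    · intro A hA
      have hA0 : LinearMap.trace ℂ (Ws D s) A = 0 := LinearMap.mem_ker.1 hA
      obtain ⟨C, hC, hCA⟩ := hs (Function.update (fun s' => (0 : Module.End ℂ (Ws D s'))) s A) (by
        intro s'
        by_cases hss : s' = s
        · subst hss
          rw [Function.update_self]
          exact hA0
        · rw [Function.update_of_ne hss, map_zero])
      obtain ⟨B, hB, hCB⟩ := gg_res (R s) (hR2 s) C hC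
      have hAB : A = B := by
        refine LinearMap.ext fun a => Subtype.ext ?_
        have h1 := hCA s rfl a
        rw [Function.update_self] at h1
        rw [← h1, hCB a]
      rw [hAB]
      exact hB
  have hYh : ∀ Y : Com h, Y.1 ∈ h := fun Y => by
    obtain ⟨X, hX, X', hX', he⟩ := Y.2
    rw [he]
    exact hh.lie.br X hX X' hX'
  have hrel : ∀ (n : ℕ) (Y : Fin n → Com h) (c : Fin n → ℂ), c ≠ 0 →
      ∑ i, c i • R t (Y i) = 0 → ∃ c' : Fin n → ℂ, c' ≠ 0 ∧ ∑ i, c' i • R s (Y i) = 0 := by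
    intro n Y c hc0 hc
    have h0 : ∀ t' ∈ ({t} : Set (ZMod m)ˣ), ∀ a ∈ Ws D t', ∑ j, c j • pre (Y j).1 a = 0 := by
      intro t' ht' a ha
      obtain rfl : t' = t := ht'
      have h1 := comb (R t') (hR2 t') n Y c ⟨a, ha⟩
      rw [hc] at h1
      exact h1
    obtain ⟨c', hc', hrel⟩ := hLI T m D hm n (fun i => (Y i).1)
      (fun j => ⟨hh.rat _ (hYh (Y j)), (hh.u _ (hYh (Y j))).1⟩) {t} c hc0 h0 (s * t⁻¹)
    refine ⟨c', hc', LinearMap.ext fun a => Subtype.ext ?_⟩
    have hs' : s * t⁻¹ * t = s := inv_mul_cancel_right s t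
    have h3 := hrel t rfl (a : Frm T) (by rw [hs']; exact a.2)
    rw [← comb (R s) (hR2 s) n Y c' a]
    exact h3
  intro A hA
  have key := transferE (Ws D s) (Ws D t) r (by omega) hds hdt (Com h) (R s) (R t) hsp (hR1 t) hrel
    (A t) (hA t)
  obtain ⟨n, Y, c, hc⟩ := key
  refine ⟨∑ i, c i • pre (Y i).1, Submodule.sum_mem _ fun i _ =>
    Submodule.smul_mem _ _ (Submodule.subset_span ⟨(Y i).1, (Y i).2, rfl⟩), ?_⟩
  intro s' hs' a
  obtain rfl : s' = t := hs'
  rw [← hc, ← comb (R s') (hR2 s') n Y c a, LinearMap.sum_apply]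
  rfl

end SEB
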