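import Pool.Agent.Lib.SE.Big.Link

/-!
# PROJECT SE, module IsBig: translation of the aperiodicity condition
-/

set_option autoImplicit false

noncomputable section

namespace SEB

open HC HC.E HC.SE

private theorem Ap_neg {m : ℕ} [NeZero m] (hm : 3 ≤ m) (x : (ZMod m)ˣ) :
    ((-x : (ZMod m)ˣ) : ZMod m).val = m - (x : ZMod m).val := by
  have : Fact (1 < m) := ⟨by omega⟩
  have hx : (x : ZMod m) ≠ 0 := x.ne_zero
  rw [Units.val_neg, ZMod.neg_val, if_neg hx]

theorem tAp : S_Ap := by
  intro T m r D b hm hp hA g hg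
  have : NeZero m := ⟨by omega⟩
  have h1m : Fact (1 < m) := ⟨by omega⟩
  have h1 := hA (g : ZMod m).val (ZMod.val_lt _) (ZMod.val_coe_unit_coprime g) (by
    intro u hu huc
    have h2 := hg (ZMod.unitOfCoprime u huc)
    rw [hp, hp, hp, hp, Ap_neg hm, Ap_neg hm, Units.val_mul, ZMod.val_mul,
      ZMod.coe_unitOfCoprime, ZMod.val_cast_of_lt hu] at h2
    exact h2)
  rcases h1 with h1 | h1
  · left
    apply Units.ext
    apply ZMod.val_injective
    rw [h1, Units.val_one, ZMod.val_one]
  · right
    apply Units.ext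
    apply ZMod.val_injective
    rw [h1, Ap_neg hm, Units.val_one, ZMod.val_one]

end SEB
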