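import Pool.Agent.Lib.SE.Big.Link

/-!
# PROJECT SE, module IsBig: assembly from the modules (helper64)
-/

set_option autoImplicit false

open Module

noncomputable section

namespace SEB

open HC HC.E HC.SE

/-- All modules of `SE/Big/Spec.lean`. -/
structure Mods : Prop where
  L1 : S_L1
  Perf : S_Perf
  Gou : S_Gou
  Pj : S_Pj
  Bas : S_Bas
  LI : S_LI
  Dim : S_Dim
  J0 : S_J0
  AdJ : S_AdJ
  Red : S_Red
  RatSp : S_RatSp
  Irr : S_Irr
  R2i : S_R2i
  Cl : S_Cl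
  At0 : S_At0
  All : S_All
  Two : S_Two
  Rib : S_Rib
  Tr : S_Tr
  Real : S_Real
  Fin : S_Fin

/-- The common part. -/
theorem core (M : Mods) {T : AV} {m r : ℕ} {D : Cyc T m} (hm : 3 ≤ m) (hr : 2 ≤ r)
    (hd : 2 * finrank ℂ T.V = r * Nat.totient m) (hap : Aper D) {h : Set (Module.End ℝ T.V)}
    (hh : HLie D h) {s : (ZMod m)ˣ} (hs : D.p s = 1) (hi : Irr D h s) :
    ∀ X, IsSU D X → X ∈ Submodule.span ℝ (Com h) := by
  have h0 : Hits D h {s} := M.At0 M.Bas M.J0 M.L1 T m D hm h hh s hs hi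
  have h1 : ∀ t, Hits D h {t} := M.All M.Bas M.Dim M.LI (M.Cl) T m r D hm hr hd h hh s h0
  have h2 : ∀ s t, t ≠ s → t ≠ -s → Hits D h {s, t} :=
    M.Two M.Bas M.Dim M.LI M.Cl M.AdJ M.Gou T m r D hm hr hd hap h hh h1
  have h3 := M.Rib M.Cl M.Perf T m D hm h hh h1 h2
  exact M.Fin M.Bas (M.Tr) (M.Real) T m D hm h hh h3

theorem r2 (M : Mods) : R2 := by
  intro T m D hm hd hs hap
  by_cases hab : IsAb D
  · exact Or.inl hab
  · refine Or.inr fun h hh => ?_
    obtain ⟨s, hs⟩ := hs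
    have hi : Irr D h s := by
      rcases M.R2i M.Bas M.Dim M.Red M.LI T m D hm hd h hh s with hi | hc
      · exact hi
      · exact absurd ⟨h, hh, hc⟩ hab
    exact core M hm le_rfl (by rw [hd]) hap hh hs hi

theorem rr (M : Mods) : Rr := by
  intro T m r D hm hr hd hs hE hap h hh
  obtain ⟨s, hs⟩ := hs
  exact core M hm hr hd hap hh hs (M.Irr M.Bas M.Red M.RatSp T m D hm hE h hh s)

/-- `Cyc` from the data of `SE/Defs.lean`. -/
def mkCyc {T : AV} {m r : ℕ} {s : Fin (r + 1) → ℂ} {b : Fin (r + 1) → ℕ} (N : New T m s b)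
    {E : T.V →ₗ[ℝ] T.V →ₗ[ℝ] ℝ} (hE : IsPol T N.Z E) : Cyc T m where
  Z := N.Z
  lat := N.lat
  cyc := N.cyc
  ψ := E
  int := hE.1
  alt := hE.2.1
  cpx := hE.2.2.1
  pos := hE.2.2.2.1
  inv := hE.2.2.2.2

theorem exists_unit {m u : ℕ} (hu : u < m) (hc : u.Coprime m) :
    ∃ v : (ZMod m)ˣ, (v : ZMod m).val = u :=
  ⟨ZMod.unitOfCoprime u hc, by rw [ZMod.coe_unitOfCoprime, ZMod.val_natCast_of_lt hu]⟩

theorem bigR2 (M : Mods) (hHl : S_Hl) (hTo : S_ToBig) (hSg : S_Sg) (hPn : S_Pnew) (hAp : S_Ap)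
    (hA1 : S_A1) (hA2 : S_A2) (hA3 : S_A3) (hA4 : S_A4) : BigR2 := by
  intro T m s b hc N E hE hu hap
  have hm : 3 ≤ m := hc.1
  let D : Cyc T m := mkCyc N hE
  have hp : ∀ u : (ZMod m)ˣ, D.p u = sg m 2 b (u : ZMod m).val :=
    hPn hSg M.Bas T m 2 s b hc N D rfl
  have hd : finrank ℂ T.V = Nat.totient m := by
    have := N.dim
    omega
  obtain ⟨u, hum, huc, hu1⟩ := hu
  obtain ⟨v, hv⟩ := exists_unit hum huc
  rcases r2 M T m D hm hd ⟨v, by rw [hp, hv, hu1]⟩ (hAp T m 2 D b hm hp hap) with h | h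
  · exact Or.inl (hA4 hA1 hA2 hA3 T m D h)
  · exact Or.inr (hTo hHl T m D h)

theorem bigRr (M : Mods) (hHl : S_Hl) (hTo : S_ToBig) (hSg : S_Sg) (hPn : S_Pnew) (hAp : S_Ap) :
    BigRr := by
  intro T m r s b hr hc N E hE hu hap hEnd
  have hm : 3 ≤ m := hc.1
  let D : Cyc T m := mkCyc N hE
  have hp : ∀ u : (ZMod m)ˣ, D.p u = sg m r b (u : ZMod m).val :=
    hPn hSg M.Bas T m r s b hc N D rfl
  obtain ⟨u, hum, huc, hu1⟩ := hu
  obtain ⟨v, hv⟩ := exists_unit hum huc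
  refine hTo hHl T m D (rr M T m r D hm hr N.dim ⟨v, by rw [hp, hv, hu1]⟩ ?_
    (hAp T m r D b hm hp hap))
  intro X hX hXI
  let X' : Module.End ℂ T.V :=
    { toFun := X
      map_add' := X.map_add
      map_smul' := by
        intro c v
        have h1 : (c : ℂ) = (c.re : ℂ) + (c.im : ℂ) * Complex.I := (Complex.re_add_im c).symm
        have h2 : ∀ (x : ℝ) (w : T.V), X ((x : ℂ) • w) = (x : ℂ) • X w := fun x w => by
          have := X.map_smul x w
          exact this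
        simp only [RingHom.id_apply]
        conv_lhs => rw [h1]
        conv_rhs => rw [h1]
        rw [add_smul, mul_smul, map_add, h2, h2, hXI, add_smul, mul_smul] }
  obtain ⟨p, hp⟩ := hEnd X' hX
  have h3 : X = ∑ k ∈ Finset.range (p.natDegree + 1), ((p.coeff k : ℚ) : ℝ) • D.ZR ^ k := by
    ext v
    have h4 : X v = X' v := rfl
    rw [h4, hp, Polynomial.aeval_def, Polynomial.eval₂_map, Polynomial.eval₂_eq_sum_range]
    rw [LinearMap.sum_apply, LinearMap.sum_apply]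
    refine Finset.sum_congr rfl fun k _ => ?_
    have h5 : ∀ k : ℕ, ∀ w : T.V, (D.ZR ^ k) w = (N.Z ^ k) w := by
      intro k
      induction k with
      | zero => intro w; rfl
      | succ k ih => intro w; rw [pow_succ, pow_succ, Module.End.mul_apply, Module.End.mul_apply, ih]; rfl
    rw [LinearMap.smul_apply, h5, Module.End.mul_apply]
    simp only [RingHom.comp_apply, Module.algebraMap_end_apply]
    have : (algebraMap ℚ ℂ) (p.coeff k) = (((p.coeff k : ℚ) : ℝ) : ℂ) := by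
      simp
    rw [this]
    rfl
  rw [h3]
  exact Submodule.sum_mem _ fun k _ =>
    Submodule.smul_mem _ _ (Submodule.subset_span ⟨k, rfl⟩)

end SEB
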