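import Pool.Agent.Lib.HC.L.E.Cm

/-!
# Products of several abelian varieties of CM type
-/

set_option autoImplicit false

noncomputable section

namespace HC

/-- an abelian variety isogenous to `A × ∏ B_k` is of CM type if `A` and the `B_k` are -/
theorem isCM_prodE {A T : AV} {N : ℕ} {B : Fin N → AV} (hA : IsCM A) (hB : ∀ k, IsCM (B k))
    (hT : IsProdE T A B) : IsCM T := by
  classical
  obtain ⟨n, D, ψ, hψ⟩ := isCMI_of_isCM hA
  choose n' D' ψ' hψ' using fun k => isCMI_of_isCM (hB k)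
  obtain ⟨θ, hθ⟩ := hT
  let F : Fin n ⊕ ((k : Fin N) × Fin (n' k)) → CMD := Sum.elim D fun p => D' p.1 p.2
  let e : (A.V × ∀ i, (B i).V) ≃ₗ[ℂ]
      ((s : (i : Fin n ⊕ ((k : Fin N) × Fin (n' k))) × (F i).Φ) → ℂ) :=
    { toFun := fun w s => Sigma.rec (motive := fun _ => ℂ) (fun i => Sum.rec (motive := fun i =>
          (F i).Φ → ℂ) (fun i φ => ψ w.1 ⟨i, φ⟩) (fun p φ => ψ' p.1 (w.2 p.1) ⟨p.2, φ⟩) i) s
      map_add' := by
        intro w w'
        funext s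
        rcases s with ⟨i | p, φ⟩
        · change ψ (w.1 + w'.1) ⟨i, φ⟩ = _
          rw [map_add]; rfl
        · change ψ' p.1 (w.2 p.1 + w'.2 p.1) ⟨p.2, φ⟩ = _
          rw [map_add]; rfl
      map_smul' := by
        intro c w
        funext s
        rcases s with ⟨i | p, φ⟩
        · change ψ (c • w.1) ⟨i, φ⟩ = _
          rw [map_smul]; rfl
        · change ψ' p.1 (c • w.2 p.1) ⟨p.2, φ⟩ = _
          rw [map_smul]; rfl
      invFun := fun g => (ψ.symm fun s => g ⟨Sum.inl s.1, s.2⟩,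
        fun k => (ψ' k).symm fun s => g ⟨Sum.inr ⟨k, s.1⟩, s.2⟩)
      left_inv := by
        intro w
        refine Prod.ext ?_ ?_
        · change ψ.symm (fun s => ψ w.1 ⟨s.1, s.2⟩) = w.1
          exact ψ.symm_apply_apply w.1
        · funext k
          change (ψ' k).symm (fun s => ψ' k (w.2 k) ⟨s.1, s.2⟩) = w.2 k
          exact (ψ' k).symm_apply_apply (w.2 k)
      right_inv := by
        intro g
        funext s
        rcases s with ⟨i | ⟨k, i⟩, φ⟩
        · change ψ (ψ.symm fun s => g ⟨Sum.inl s.1, s.2⟩) ⟨i, φ⟩ = _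
          rw [LinearEquiv.apply_symm_apply]
        · change ψ' k ((ψ' k).symm fun s => g ⟨Sum.inr ⟨k, s.1⟩, s.2⟩) ⟨i, φ⟩ = _
          rw [LinearEquiv.apply_symm_apply] }
  refine isCM_of_isCMI (I := Fin n ⊕ ((k : Fin N) × Fin (n' k))) ⟨F, θ ≪≫ₗ e, ?_⟩
  intro v hv
  obtain ⟨M, hM, h1, h2⟩ := hθ v hv
  obtain ⟨y, hy⟩ := hψ _ h1
  choose y' hy' using fun k => hψ' k _ (h2 k)
  have hNC : (M : ℂ) ≠ 0 := Nat.cast_ne_zero.2 hM
  have key : ∀ a b : ℂ, M • a = b → a = (M : ℂ)⁻¹ * b := by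
    intro a b h
    rw [← h, nsmul_eq_mul, ← mul_assoc, inv_mul_cancel₀ hNC, one_mul]
  refine ⟨fun i => Sum.rec (motive := fun i => (F i).E) (fun i => (M : (D i).E)⁻¹ * y i)
    (fun p => (M : (D' p.1 p.2).E)⁻¹ * y' p.1 p.2) i, ?_⟩
  rintro (i | ⟨k, i⟩) φ
  · have h3 := hy i φ
    rw [map_nsmul] at h3
    have h4 := key _ _ h3
    have h5 : ∀ f : (D i).E →+* ℂ, f ((M : (D i).E)⁻¹ * y i) = (M : ℂ)⁻¹ * f (y i) := fun f => by
      rw [map_mul, map_inv₀, map_natCast]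
    exact h4.trans (h5 φ.1).symm
  · have h3 := hy' k i φ
    rw [map_nsmul] at h3
    have h4 := key _ _ h3
    have h5 : ∀ f : (D' k i).E →+* ℂ, f ((M : (D' k i).E)⁻¹ * y' k i) =
        (M : ℂ)⁻¹ * f (y' k i) := fun f => by
      rw [map_mul, map_inv₀, map_natCast]
    exact h4.trans (h5 φ.1).symm

end HC
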