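import Pool.Agent.Lib.SE.Big.Asm
import Pool.Agent.Lib.SE.Big.CMP

/-!
# PROJECT SE: the Hodge conjecture for `A × J ^ N`, from theorem B (helper64)
-/

set_option autoImplicit false

open Module

noncomputable section

namespace SEB

open HC HC.E HC.SE

/-- RANK 2. `J` is isogenous to the new part of the Jacobian of
`y ^ m = (x - s_0)^b_0 (x - s_1)^b_1 (x - s_2)^b_2` (any three distinct points), with aperiodic
signatures, one of them `(1,1)`; `A` is of CM type. Every Hodge class of every abelian variety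
isogenous to `A × J ^ N` is algebraic. -/
def HC2 : Prop :=
  ∀ (A J T : AV) (m N : ℕ) (s : Fin 3 → ℂ) (b : Fin 3 → ℕ), IsCM A → IsCov m s b →
    Nonempty (New J m s b) → (∃ u < m, u.Coprime m ∧ sg m 2 b u = 1) → AperC m 2 b →
    IsProdE T A (fun _ : Fin N => J) →
    ∀ (d : ℕ) (c : Hlg T d), IsHodge T d c → Alg2 T d c

/-- RANK `r`. The same for the curves `y ^ m = ∏ (x - s_j)^b_j` with `End⁰(J) = ℚ(Z)`, one signature
`(1, r - 1)`, aperiodic signatures. -/
def HCr : Prop :=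
  ∀ (A J T : AV) (m r N : ℕ) (s : Fin (r + 1) → ℂ) (b : Fin (r + 1) → ℕ), IsCM A → 2 ≤ r →
    IsCov m s b → ∀ D : New J m s b, (∃ u < m, u.Coprime m ∧ sg m r b u = 1) → AperC m r b →
    (∀ X : Module.End ℂ J.V, RatEnd J (X.restrictScalars ℝ) →
      ∃ p : Polynomial ℚ, X = Polynomial.aeval D.Z (p.map (algebraMap ℚ ℂ))) →
    IsProdE T A (fun _ : Fin N => J) →
    ∀ (d : ℕ) (c : Hlg T d), IsHodge T d c → Alg2 T d c

theorem exists_pol (hAvg : S_Avg) {T : AV} {m r : ℕ} {s : Fin (r + 1) → ℂ} {b : Fin (r + 1) → ℕ}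
    (hc : IsCov m s b) (N : New T m s b) : ∃ E, IsPol T N.Z E := by
  obtain ⟨D, hD⟩ := hAvg T m (by have := hc.1; omega) N.Z N.lat N.cyc
  exact ⟨D.ψ, D.int, D.alt, D.cpx, D.pos, fun u v => by rw [← hD]; exact D.inv u v⟩

theorem hc2 (hB : ThmB) (hCM : HodgeCM) (h2 : BigR2) (hAvg : S_Avg) : HC2 := by
  intro A J T m N s b hA hc hN hu hap hT d c hd
  obtain ⟨D⟩ := hN
  obtain ⟨E, hE⟩ := exists_pol hAvg hc D
  rcases h2 J m s b hc D E hE hu hap with h | h
  · exact Alg2.base (hCM T (isCM_prodE hA (fun _ => h) hT) d c hd)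
  · exact hB A T 1 N (fun _ => J) (fun _ => 0) (fun _ => m) (fun _ => 2) (fun _ => s) (fun _ => b)
      (fun _ => D) (fun _ => E) hA (fun _ => hc) (fun _ => hE) h hT d c hd

theorem hcr (hB : ThmB) (hr : BigRr) (hAvg : S_Avg) : HCr := by
  intro A J T m r N s b hA h2 hc D hu hap hEnd hT d c hd
  obtain ⟨E, hE⟩ := exists_pol hAvg hc D
  exact hB A T 1 N (fun _ => J) (fun _ => 0) (fun _ => m) (fun _ => r) (fun _ => s) (fun _ => b)
    (fun _ => D) (fun _ => E) hA (fun _ => hc) (fun _ => hE) (hr J m r s b h2 hc D E hE hu hap hEnd)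
    hT d c hd

end SEB
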