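import Pool.Agent.Lib.SE.Big.Link

/-!
# PROJECT SE, module IsBig, part 2: very general real branch points (helper64)

For real branch points `s_0 < … < s_r` outside a meagre set the commutant of `Z` in `End⁰(J)` is
`ℚ(Z)` (if one signature is `(1, r - 1)`), so `Big` holds in every rank.

* `Per`: if the periods of the only form of the first kind at the character `u` are linearly
  independent over the algebraic numbers, the commutant is `ℚ(Z)`.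
* `Loop`: these periods are, up to algebraic numbers, the integrals
  `I_k(s) = ∫_(s_k)^(s_(k+1)) ∏_j |x - s_j| ^ (-μ_j) dx`.
* `Bai`: the `I_k(s)` are linearly independent over the algebraic numbers outside a meagre set.

Every module: file `SE/Big/Xyz.lean`, `theorem tXyz : S_Xyz`, import only `Pool.Agent.Lib.SE.Big.VG`. If
the docstring says `From S_A, S_B` and these are not hypotheses in the statement itself, the
theorem is `tXyz : S_A → S_B → S_Xyz`.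
-/

set_option autoImplicit false

open Module MeasureTheory Topology

noncomputable section

namespace SEB

open HC HC.E HC.SE

/-! ## Algebra -/

/-- The rational endomorphisms which commute with `Z` are in `E = ℚ(Z)`. -/
def EndZ {T : AV} {m : ℕ} (D : Cyc T m) : Prop :=
  ∀ X : Module.End ℝ T.V, RatEnd T X → (∀ v, X (D.Z v) = D.Z (X v)) →
    (∀ v, X (Complex.I • v) = Complex.I • X v) →
    X ∈ Submodule.span ℝ (Set.range fun k : ℕ => D.ZR ^ k)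

/-- `S_Irr` with `EndZ`. PROOF. As `S_Irr`: the components `Y_k` of the projector commute with `Z`
(`S_RatSp` with `X = D.ZR`), with `h`, so with `mulI T`. -/
def S_IrrZ : Prop :=
  S_Bas → S_Red → S_RatSp → ∀ (T : AV) (m : ℕ) (D : Cyc T m), 3 ≤ m → EndZ D →
    ∀ h, HLie D h → ∀ s, Irr D h s

/-- Linear independence over the algebraic numbers. -/
def AInd {r : ℕ} (x : Fin r → ℂ) : Prop :=
  ∀ c : Fin r → ℂ, (∀ k, IsAlgebraic ℚ (c k)) → ∑ k, c k * x k = 0 → c = 0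

/-- PERIOD CRITERION. PROOF. The `Z^i v_k`, `i < φ(m)`, `k < r`, are linearly independent over `ℚ`:
`∑ q_(ik) Z^i v_k = 0`, apply `B`: `∑_k (∑_i q_(ik) ζ^(u i)) B(v_k) = 0`, `AInd`, and `ζ^u` has degree
`φ(m)` over `ℚ`. Their number is `r φ(m) = 2 dim T = rank L`, so they are a `ℚ`-basis of the rational
span of `L`. Let `X` be rational, complex linear, commuting with `Z`: `X v_k = ∑_j a_(kj)(Z) v_j`,
`a_(kj) ∈ ℚ[x]` (an element of the rational span of `L`). `B ∘ X ∈ Ws10 D u`, a line containing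
`B ≠ 0`: `B ∘ X = λ B`. So `∑_j a_(kj)(ζ^u) B(v_j) = λ B(v_k)`: `λ` is an eigenvalue of a matrix of
algebraic numbers, so it is algebraic; `AInd`: `a_(kj)(ζ^u) = 0` for `j ≠ k`, `a_(kk)(ζ^u) = λ` for all
`k`. The minimal polynomial of `ζ^u` is `Φ_m`, which kills `Z`: `a_(kj)(Z) = 0` (`j ≠ k`) and
`a_(kk)(Z) = a_(00)(Z)`: `X = a_(00)(Z)` on the `Z^i v_k`, so on `L`, which spans `T.V`. -/
def S_Per : Prop :=
  S_Bas → ∀ (T : AV) (m r : ℕ) (D : Cyc T m), 3 ≤ m → 1 ≤ r →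
    2 * finrank ℂ T.V = r * Nat.totient m → ∀ u : (ZMod m)ˣ, D.p u = 1 → ∀ B ∈ Ws10 D u,
    ∀ v : Fin r → T.V, (∀ k, v k ∈ T.L) → AInd (fun k => B (v k)) → EndZ D

/-! ## The real integrals -/

/-- `w(x) = ∏_j |x - s_j| ^ (-μ_j)`. -/
def wt {r : ℕ} (μ s : Fin (r + 1) → ℝ) (x : ℝ) : ℝ := ∏ j, |x - s j| ^ (-μ j)

/-- `I_k(s)`. -/
def Ik {r : ℕ} (μ s : Fin (r + 1) → ℝ) (k : Fin r) : ℝ :=
  ∫ x in (s k.castSucc)..(s k.succ), wt μ s x

/-- The exponents are between `0` and `1`. -/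
def Exq {r : ℕ} (μ : Fin (r + 1) → ℝ) : Prop := ∀ j, 0 < μ j ∧ μ j < 1

/-- The divided difference `(a(x) - a(c)) / (x - c)`. -/
def dd (a : Polynomial ℝ) (c : ℝ) : Polynomial ℝ := a /ₘ (Polynomial.X - Polynomial.C c)

/-- The weight is integrable. PROOF. On `(s_k, s_(k+1))` it is at most
`C (x - s_k)^(-μ_k) (s_(k+1) - x)^(-μ_(k+1))`; split at the midpoint. -/
def S_Wt : Prop :=
  ∀ (r : ℕ) (μ s : Fin (r + 1) → ℝ), Exq μ → StrictMono s → ∀ k : Fin r,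
    IntervalIntegrable (wt μ s) volume (s k.castSucc) (s k.succ)

/-- SUBSTITUTION. From `S_Wt`. PROOF. `x = t + a(t)`: strictly increasing on `[s_0, s_r]` (derivative
`1 + a' ≥ 1/2`), maps `s_j` to `s_j + a(s_j)`, and
`x - (s_j + a(s_j)) = (t - s_j) (1 + dd a (s_j) (t))`, `1 + dd a (s_j) (t) ≥ 1/2`. -/
def S_Sub : Prop :=
  ∀ (r : ℕ) (μ s : Fin (r + 1) → ℝ) (a : Polynomial ℝ), Exq μ → StrictMono s →
    (∀ t ∈ Set.Icc (s 0) (s (Fin.last r)), |a.derivative.eval t| ≤ 1 / 2 ∧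
      ∀ j, |(dd a (s j)).eval t| ≤ 1 / 2) → ∀ k : Fin r,
    Ik μ (fun j => s j + a.eval (s j)) k = ∫ t in (s k.castSucc)..(s k.succ),
      wt μ s t * ((∏ j, (1 + (dd a (s j)).eval t) ^ (-μ j)) * (1 + a.derivative.eval t))

/-- DERIVATIVE along the vector field `a(s_j) ∂/∂s_j`. From `S_Wt`, `S_Sub`. PROOF. `S_Sub` with `ε a`,
`|ε|` small: the integrand is `w(t) F(ε, t)`, `F` smooth with `F(0, t) = 1`,
`∂F/∂ε (0, t) = a'(t) - ∑_j μ_j dd a (s_j) (t)`, and `|∂F/∂ε| ≤ C` for `|ε| ≤ ε₀`, `t` in the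
interval: differentiate under the integral. -/
def S_Der : Prop :=
  ∀ (r : ℕ) (μ s : Fin (r + 1) → ℝ) (a : Polynomial ℝ), Exq μ → StrictMono s → ∀ k : Fin r,
    HasDerivAt (fun ε : ℝ => Ik μ (fun j => s j + ε * a.eval (s j)) k)
      (∫ t in (s k.castSucc)..(s k.succ),
        wt μ s t * (a.derivative.eval t - ∑ j, μ j * (dd a (s j)).eval t)) 0

/-- CONTINUITY. From `S_Wt`, `S_Sub`. PROOF. For `s'` near `s` let `a` be the interpolation polynomial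
with `a(s_j) = s'_j - s_j`; its coefficients tend to `0`, so `sup |a'|`, `sup |dd a (s_j)|` on
`[s_0, s_r]` tend to `0`; `S_Sub`: `|I_k(s') - I_k(s)| ≤ sup |F - 1| ∫ w → 0`. -/
def S_Con : Prop :=
  ∀ (r : ℕ) (μ : Fin (r + 1) → ℝ), Exq μ → ∀ k : Fin r,
    ContinuousOn (fun s : Fin (r + 1) → ℝ => Ik μ s k) {s | StrictMono s}

/-- MOMENTS. From `S_Wt`. PROOF. The real square matrix `M_(dk) = ∫_(s_k)^(s_(k+1)) w x^d`, `d, k < r`,
is invertible: if `∑_d p_d M_(dk) = 0` for all `k` then `P = ∑ p_d x^d` has `∫_(s_k)^(s_(k+1)) w P = 0`,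
`w > 0` on the open interval, so `P` has a zero in every open interval `(s_k, s_(k+1))`: `r` different
zeros, degree `< r`, so `P = 0`. (Real and imaginary parts of `c`.) -/
def S_Mom : Prop :=
  ∀ (r : ℕ) (μ s : Fin (r + 1) → ℝ), Exq μ → StrictMono s → ∀ c : Fin r → ℂ,
    (∀ d < r, ∑ k, c k * ((∫ x in (s k.castSucc)..(s k.succ), wt μ s x * x ^ d : ℝ) : ℂ) = 0) →
    c = 0

/-- BAIRE. From `S_Wt`, `S_Der`, `S_Con`, `S_Mom`. PROOF. The set is the union over the countably many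
`c ≠ 0` with algebraic coordinates of `F_c = {s | StrictMono s, ∑ c_k I_k(s) = 0}`, relatively closed
(`S_Con`) in the open set of the strictly increasing `s`. If `F_c` contains a nonempty open set, at a
point `s` of it all derivatives `S_Der` vanish: `∑_k c_k ∫_k w (a' - ∑_j μ_j dd a (s_j)) = 0` for every
`a`. For `a = x^(d+1)` this is a polynomial of degree `d` with leading coefficient
`d + 1 - ∑ μ_j ≠ 0`. By induction on `d`: `∑_k c_k ∫_k w x^d = 0` for all `d < r` (in fact all `d`),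
`S_Mom`: `c = 0`. So `F_c` is nowhere dense (an open subset of its closure contains an open subset
of `F_c`). -/
def S_Bai : Prop :=
  ∀ (r : ℕ) (μ : Fin (r + 1) → ℝ), Exq μ → (∀ n : ℤ, ∑ j, μ j ≠ n) →
    IsMeagre {s : Fin (r + 1) → ℝ | StrictMono s ∧ ¬ AInd (fun k : Fin r => (Ik μ s k : ℂ))}

/-! ## The branches -/

/-- An `m`-th root of `z`, holomorphic outside the negative real axis. -/
def rp (m : ℕ) (z : ℂ) : ℂ := z ^ ((m : ℂ)⁻¹)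

/-- An `m`-th root of `z`, holomorphic outside the positive real axis. -/
def rn (m : ℕ) (z : ℂ) : ℂ := Complex.exp (Real.pi * Complex.I / m) * (-z) ^ ((m : ℂ)⁻¹)

/-- The gap number `k` (between `s_(k-1)` and `s_k`; `k = 0, …, r + 1`). -/
def Gp {r : ℕ} (s : Fin (r + 1) → ℝ) (k : ℕ) : Set ℝ :=
  {x | (∀ j : Fin (r + 1), j.val < k → s j < x) ∧ ∀ j : Fin (r + 1), k ≤ j.val → x < s j}

/-- The plane without the real points outside the gap `k`. -/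
def Uk {r : ℕ} (s : Fin (r + 1) → ℝ) (k : ℕ) : Set ℂ := {x | x.im ≠ 0 ∨ x.re ∈ Gp s k}

/-- The branch of `(∏_j (x - s_j)^(b_j))^(1/m)` which is holomorphic on `Uk s k`; in the upper half plane
it does not depend on `k`. -/
def yk (m : ℕ) {r : ℕ} (s : Fin (r + 1) → ℝ) (b : Fin (r + 1) → ℕ) (k : ℕ) (x : ℂ) : ℂ :=
  ∏ j, (if j.val < k then rp m (x - s j) else rn m (x - s j)) ^ b j

/-- THE BRANCHES. PROOF. `(rp m z)^m = z = (rn m z)^m`; `rp` is holomorphic on `Complex.slitPlane`, `rn` on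
its negative; `rn m z = rp m z` for `0 < im z` (`arg(-z) = arg z - π`), and
`rn m z = exp(2πi/m) rp m z` for `im z < 0` (`arg(-z) = arg z + π`); `‖rp m z‖ = ‖rn m z‖ = ‖z‖^(1/m)`. For
real `x` in the gap `k`: `rp m (x - s_j) = |x - s_j|^(1/m)` (`j < k`),
`rn m (x - s_j) = exp(πi/m) |x - s_j|^(1/m)` (`j ≥ k`). -/
def S_Br : Prop :=
  ∀ (m r : ℕ) (s : Fin (r + 1) → ℝ) (b : Fin (r + 1) → ℕ) (k : ℕ), 1 ≤ m →
    (∀ x, yk m s b k x ^ m = ∏ j, (x - s j) ^ b j) ∧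
    DifferentiableOn ℂ (yk m s b k) (Uk s k) ∧ IsOpen (Uk s k) ∧
    (∀ x, ‖yk m s b k x‖ = ∏ j, ‖x - s j‖ ^ ((b j : ℝ) / m)) ∧
    (∀ x : ℂ, 0 < x.im → yk m s b k x = yk m s b 0 x) ∧
    (∀ x : ℂ, x.im < 0 → yk m s b k x = Complex.exp (2 * Real.pi * Complex.I / m) ^
      (∑ j ∈ Finset.univ.filter (fun j : Fin (r + 1) => k ≤ j.val), b j) * yk m s b (r + 1) x) ∧
    ∀ x ∈ Gp s k, yk m s b k x = Complex.exp (Real.pi * Complex.I / m) ^
      (∑ j ∈ Finset.univ.filter (fun j : Fin (r + 1) => k ≤ j.val), b j) *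
        ((∏ j, |x - s j| ^ ((b j : ℝ) / m) : ℝ) : ℂ)

/-! ## Loops -/

/-- PATH LIFTING along the segment from `p₀` to `p₁`. PROOF. `p(t) = p₀ + t (p₁ - p₀)`. Near `t₀` let
`η`, `g` be as in `Crv.map` at `(p(t₀), y(t₀))`. `η` and `y` are continuous with
`η(p(t))^m = y(t)^m ≠ 0` and equal at `t₀`, so `y(t) = η(p(t))` for `t` near `t₀` (the quotient is a
continuous root of unity). `g` is holomorphic near `p(t₀)`, so `ω(p(t), y(t)) = g'(p(t))` is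
continuous in `t`, and `α(p(t), y(t)) - ∫_0^t (p₁ - p₀) ω(p(τ), y(τ)) dτ` is constant modulo `L` near
`t₀`. `[0,1]` is connected. -/
def S_Seg : Prop :=
  ∀ (T : AV) (m r : ℕ) (s : Fin (r + 1) → ℂ) (b : Fin (r + 1) → ℕ) (N : New T m s b), 1 ≤ m →
    ∀ (p₀ p₁ : ℂ) (y : ℝ → ℂ), ContinuousOn y (Set.Icc 0 1) →
    (∀ t ∈ Set.Icc (0 : ℝ) 1, p₀ + t * (p₁ - p₀) ∉ Set.range s ∧
      y t ^ m = ∏ j, (p₀ + t * (p₁ - p₀) - s j) ^ b j) →
    ContinuousOn (fun t : ℝ => N.γ.ω (p₀ + t * (p₁ - p₀)) (y t)) (Set.Icc 0 1) ∧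
    N.γ.α p₁ (y 1) - N.γ.α p₀ (y 0) -
      ∫ t in (0 : ℝ)..1, (p₁ - p₀) • N.γ.ω (p₀ + t * (p₁ - p₀)) (y t) ∈ T.L

/-- The integral of `F dx` along the path `x₀ + i h → c + i h → c - i h → x₀ - i h`. -/
def Pth {W : Type} [NormedAddCommGroup W] [NormedSpace ℂ W] (F : ℂ → W) (x₀ h c : ℝ) : W :=
  (∫ t in x₀..c, F (t + h * Complex.I)) - Complex.I • (∫ y in (-h)..h, F (c + y * Complex.I)) +
    ∫ t in c..x₀, F (t - h * Complex.I)

/-- LATTICE ELEMENTS. From `S_Br`, `S_Seg`. PROOF. `V_j = Pth (x ↦ ω(x, y_j(x))) x₀ h (c j) ∈ T.V`,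
`j ≤ r + 1` (the path is in `Uk s j`). `a_f = α(x₀ + i h, ζ^f y_0(x₀ + i h))`,
`a'_f = α(x₀ - i h, ζ^f y_(r+1)(x₀ - i h))`. `S_Seg` for the lift `ζ^f y_j` along the three segments and
`New.equ` (`ω(x, ζ^f y) = Z^f ω(x, y)`): `Z^f V_j - (a'_(f + e_j) - a_f) ∈ L`, `e_j = ∑_(i ≥ j) b_i`.
So for `U_j = V_j - Z^(b_j) V_(j+1)`, `j ≤ r`: `Z^f U_j - (a_(f + b_j) - a_f) ∈ L` (`e_j = b_j + e_(j+1)`),
hence `(Z^(b_l) - 1) U_k ≡ a_(b_l + b_k) - a_(b_l) - a_(b_k) + a_0 ≡ (Z^(b_k) - 1) U_l` modulo `L`. Take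
`v = (Z^(b_l) - 1) U_k - (Z^(b_k) - 1) U_l` and apply `B` (it commutes with the integrals, whose
integrands are continuous by `S_Seg`). -/
def S_Lat : Prop :=
  ∀ (T : AV) (m r : ℕ) (s : Fin (r + 1) → ℝ) (b : Fin (r + 1) → ℕ)
    (N : New T m (fun j => (s j : ℂ)) b), 1 ≤ m → StrictMono s → ∀ (x₀ h : ℝ) (c : ℕ → ℝ), 0 < h →
    (∀ k ≤ r + 1, c k ∈ Gp s k) → ∀ k l : Fin (r + 1), ∃ v ∈ T.L,
      ∀ (B : T.V →ₗ[ℂ] ℂ) (ξ : ℂ), (∀ w, B (N.Z w) = ξ * B w) →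
        let β : ℕ → ℂ := fun j => Pth (fun x => B (N.γ.ω x (yk m s b j x))) x₀ h (c j)
        B v = (ξ ^ b l - 1) * (β k - ξ ^ b k * β (k + 1)) -
          (ξ ^ b k - 1) * (β l - ξ ^ b l * β (l + 1))

/-- The integral of the branch `1 / y_0` along `x₀ + i h → s_k + i h → s_k`. -/
def Ak (m : ℕ) {r : ℕ} (s : Fin (r + 1) → ℝ) (n : Fin (r + 1) → ℕ) (x₀ h : ℝ)
    (k : Fin (r + 1)) : ℂ :=
  (∫ t in x₀..(s k), (yk m s n 0 (t + h * Complex.I))⁻¹) -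
    Complex.I * ∫ y in (0 : ℝ)..h, (yk m s n 0 (s k + y * Complex.I))⁻¹

/-- AROUND `s_k`. From `S_Br`. `η_j = 1 / y_j`. PROOF. Cauchy's theorem on rectangles
(`Complex.integral_boundary_rect_eq_zero_of_differentiableOn`) in `Uk s k`:
`Pth η_k x₀ h (c k) = Pth η_k x₀ h (s_k - ε)` for small `ε > 0`, and
`Pth η_(k+1) x₀ h (c (k+1)) = Pth η_(k+1) x₀ h (s_k + ε)`. `ε → 0` (dominated convergence:
`‖η_j(s_k ± ε + i y)‖ ≤ C |y|^(-n_k/m)` for `|y| ≤ h`, `n_k < m`; the horizontal parts are continuous):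
with `A' = -i ∫_(-h)^0 η_(r+1)(s_k + i y) dy + ∫_(s_k)^(x₀) η_(r+1)(t - i h) dt`, `ζ = exp(2πi/m)`,
`f_j = ∑_(i ≥ j) n_i`: the limits are `Ak + ζ^(-f_k) A'` and `Ak + ζ^(-f_(k+1)) A'`, and
`f_k = n_k + f_(k+1)`. -/
def S_Ca : Prop :=
  ∀ (m r : ℕ) (s : Fin (r + 1) → ℝ) (n : Fin (r + 1) → ℕ), 1 ≤ m → StrictMono s →
    (∀ j, 1 ≤ n j ∧ n j < m) → ∀ (x₀ h : ℝ) (c : ℕ → ℝ), 0 < h → (∀ k ≤ r + 1, c k ∈ Gp s k) →
    ∀ k : Fin (r + 1),
      let β : ℕ → ℂ := fun j => Pth (fun x => (yk m s n j x)⁻¹) x₀ h (c j)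
      let z : ℂ := (Complex.exp (2 * Real.pi * Complex.I / m) ^ n k)⁻¹
      β k - z * β (k + 1) = (1 - z) * Ak m s n x₀ h k

/-- BETWEEN `s_k` AND `s_(k+1)`. From `S_Br`. PROOF. Cauchy's theorem on the rectangle
`[s_k + ε, s_(k+1) - ε] × [0, h]` in `Uk s (k+1)` for `1 / y_(k+1)` (equal to `1 / y_0` in the upper
half plane), `ε → 0` as in `S_Ca`; on the real axis `S_Br`. -/
def S_Cb : Prop :=
  ∀ (m r : ℕ) (s : Fin (r + 1) → ℝ) (n : Fin (r + 1) → ℕ), 1 ≤ m → StrictMono s →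
    (∀ j, 1 ≤ n j ∧ n j < m) → ∀ (x₀ h : ℝ), 0 < h → ∀ k : Fin r,
      Ak m s n x₀ h k.succ - Ak m s n x₀ h k.castSucc =
        (Complex.exp (Real.pi * Complex.I / m) ^
          (∑ j ∈ Finset.univ.filter (fun j : Fin (r + 1) => k.val + 1 ≤ j.val), n j))⁻¹ *
          (Ik (fun j => (n j : ℝ) / m) s k : ℂ)

/-- The values of `B` determine its eigenvalue. PROOF. The values `ω(x, y)` span `T.V`: the forms of
`New.dif` for all `u'`, `i'` (their number is `dim T`) are linearly independent on the span (see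
`S_Pnew`; `SE/S5/Delta.lean` contains most of this). `New.equ`:
`B(Z ω(x,y)) = B(ω(x, ζ y)) = ζ^u B(ω(x,y))`. -/
def S_Bf : Prop :=
  ∀ (T : AV) (m r : ℕ) (s : Fin (r + 1) → ℂ) (b : Fin (r + 1) → ℕ), IsCov m s b →
    ∀ (N : New T m s b) (u i : ℕ) (B : T.V →ₗ[ℂ] ℂ), (∀ x ∉ N.γ.S, ∀ y, N.γ.P (x, y) = 0 →
      B (N.γ.ω x y) = x ^ i * y ^ u / ∏ j, (x - s j) ^ (1 + u * b j / m)) →
    ∀ w, B (N.Z w) = Complex.exp (2 * Real.pi * Complex.I / m) ^ u * B w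

/-- THE PERIODS. From `S_Br`, `S_Lat`, `S_Ca`, `S_Cb`. PROOF. `n_j = m - (u b_j mod m)`, `1 ≤ n_j < m`.
`y_j(x)^u / ∏ (x - s_i)^(1 + ⌊u b_i/m⌋) = 1 / y'_j(x)`, `y'` the branches for the exponents `n`
(`y_j^u = ∏ ρ_i^(u b_i)`, `x - s_i = ρ_i^m`, `u b_i - m (1 + ⌊u b_i/m⌋) = -n_i`). `ξ = ζ^u`,
`ξ^(b_j) = ζ^(-n_j)`. `S_Lat` for the pair `k`, `k + 1`, `S_Ca`, `S_Cb`:
`B v = (z' - 1)(1 - z) Ak_k - (z - 1)(1 - z') Ak_(k+1) = (1 - z)(1 - z') (Ak_(k+1) - Ak_k)`,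
`z = ζ^(-n_k)`, `z' = ζ^(-n_(k+1))`, both `≠ 1`; the constants are algebraic (roots of unity). -/
def S_Loop : Prop :=
  S_Br → S_Lat → S_Ca → S_Cb → ∀ (T : AV) (m r : ℕ) (s : Fin (r + 1) → ℝ) (b : Fin (r + 1) → ℕ),
    StrictMono s → IsCov m (fun j => (s j : ℂ)) b → ∀ (N : New T m (fun j => (s j : ℂ)) b),
    ∀ u < m, u.Coprime m → ∀ B : T.V →ₗ[ℂ] ℂ,
    (∀ w, B (N.Z w) = Complex.exp (2 * Real.pi * Complex.I / m) ^ u * B w) →
    (∀ x ∉ N.γ.S, ∀ y, N.γ.P (x, y) = 0 →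
      B (N.γ.ω x y) = y ^ u / ∏ j, (x - (s j : ℂ)) ^ (1 + u * b j / m)) →
    ∀ k : Fin r, ∃ v ∈ T.L, ∃ κ : ℂ, κ ≠ 0 ∧ IsAlgebraic ℚ κ ∧
      B v = κ * (Ik (fun j => ((m - (u * b j) % m : ℕ) : ℝ) / m) s k : ℂ)

/-! ## The theorem -/

/-- VERY GENERAL BRANCH POINTS. -/
def BigVG : Prop :=
  ∀ (m r : ℕ) (b : Fin (r + 1) → ℕ), 2 ≤ r → (∃ u < m, u.Coprime m ∧ sg m r b u = 1) →
    AperC m r b → IsMeagre {s : Fin (r + 1) → ℝ | StrictMono s ∧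
      ¬ ∀ T : AV, IsCov m (fun j => (s j : ℂ)) b → ∀ (N : New T m (fun j => (s j : ℂ)) b)
        (E : T.V →ₗ[ℝ] T.V →ₗ[ℝ] ℝ), IsPol T N.Z E →
          HC.SE.Big (fun _ : Fin 1 => T) (fun _ => N.Z) (fun _ => E)}

end SEB
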