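import Pool.Agent.Lib.SE.Big.Asm
import Pool.Agent.Lib.SE.Big.VG
import Pool.Agent.Lib.SE.Big.Cor

/-!
# PROJECT SE, module IsBig: assembly of part 2 and concrete corollaries (helper64)
-/

set_option autoImplicit false

open Module

noncomputable section

namespace SEB

open HC HC.E HC.SE

/-- The rational endomorphisms commuting with `Z` are rational polynomials in `Z`. -/
def EndQ (T : AV) (Z : Module.End ℂ T.V) : Prop :=
  ∀ X : Module.End ℂ T.V, RatEnd T (X.restrictScalars ℝ) → X * Z = Z * X →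
    ∃ p : Polynomial ℚ, X = Polynomial.aeval Z (p.map (algebraMap ℚ ℂ))

theorem endZ_of_endQ {T : AV} {m : ℕ} (D : Cyc T m) (hEnd : EndQ T D.Z) : EndZ D := by
  intro X hX hXZ hXI
  let X' : Module.End ℂ T.V :=
    { toFun := X
      map_add' := X.map_add
      map_smul' := by
        intro c v
        have h1 : (c : ℂ) = (c.re : ℂ) + (c.im : ℂ) * Complex.I := (Complex.re_add_im c).symm
        have h2 : ∀ (x : ℝ) (w : T.V), X ((x : ℂ) • w) = (x : ℂ) • X w := fun x w => by
          have := X.map_smul x w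
          exact this
        simp only [RingHom.id_apply]
        conv_lhs => rw [h1]
        conv_rhs => rw [h1]
        rw [add_smul, mul_smul, map_add, h2, h2, hXI, add_smul, mul_smul] }
  obtain ⟨p, hp⟩ := hEnd X' hX (by ext v; exact hXZ v)
  have h3 : X = ∑ k ∈ Finset.range (p.natDegree + 1), ((p.coeff k : ℚ) : ℝ) • D.ZR ^ k := by
    ext v
    have h4 : X v = X' v := rfl
    rw [h4, hp, Polynomial.aeval_def, Polynomial.eval₂_map, Polynomial.eval₂_eq_sum_range]
    rw [LinearMap.sum_apply, LinearMap.sum_apply]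
    refine Finset.sum_congr rfl fun k _ => ?_
    have h5 : ∀ k : ℕ, ∀ w : T.V, (D.ZR ^ k) w = (D.Z ^ k) w := by
      intro k
      induction k with
      | zero => intro w; rfl
      | succ k ih =>
        intro w
        rw [pow_succ, pow_succ, Module.End.mul_apply, Module.End.mul_apply, ih]; rfl
    rw [LinearMap.smul_apply, h5, Module.End.mul_apply]
    simp only [RingHom.comp_apply, Module.algebraMap_end_apply]
    have : (algebraMap ℚ ℂ) (p.coeff k) = (((p.coeff k : ℚ) : ℝ) : ℂ) := by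
      simp
    rw [this]
    rfl
  rw [h3]
  exact Submodule.sum_mem _ fun k _ =>
    Submodule.smul_mem _ _ (Submodule.subset_span ⟨k, rfl⟩)

/-- RANK `r`, the commutant of `Z` is `ℚ(Z)`, any `T`. -/
theorem rrz (M : Mods) (hIrr : S_IrrZ) {T : AV} {m r : ℕ} {D : Cyc T m} (hm : 3 ≤ m) (hr : 2 ≤ r)
    (hd : 2 * finrank ℂ T.V = r * Nat.totient m) (hs : ∃ s, D.p s = 1) (hE : EndZ D)
    (hap : Aper D) : IsBig D := by
  intro h hh
  obtain ⟨s, hs⟩ := hs
  exact core M hm hr hd hap hh hs (hIrr M.Bas M.Red M.RatSp T m D hm hE h hh s)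

/-- RANK `r` for curves, the commutant of `Z` is `ℚ(Z)`. -/
def BigRz : Prop :=
  ∀ (T : AV) (m r : ℕ) (s : Fin (r + 1) → ℂ) (b : Fin (r + 1) → ℕ), 2 ≤ r → IsCov m s b →
    ∀ (N : New T m s b) (E : T.V →ₗ[ℝ] T.V →ₗ[ℝ] ℝ), IsPol T N.Z E →
    (∃ u < m, u.Coprime m ∧ sg m r b u = 1) → AperC m r b → EndQ T N.Z →
    HC.SE.Big (fun _ : Fin 1 => T) (fun _ => N.Z) (fun _ => E)

theorem bigRz (M : Mods) (hIrr : S_IrrZ) (hHl : S_Hl) (hTo : S_ToBig) (hSg : S_Sg)
    (hPn : S_Pnew) (hAp : S_Ap) : BigRz := by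
  intro T m r s b hr hc N E hE hu hap hEnd
  have hm : 3 ≤ m := hc.1
  let D : Cyc T m := mkCyc N hE
  have hp : ∀ u : (ZMod m)ˣ, D.p u = sg m r b (u : ZMod m).val :=
    hPn hSg M.Bas T m r s b hc N D rfl
  obtain ⟨u, hum, huc, hu1⟩ := hu
  obtain ⟨v, hv⟩ := exists_unit hum huc
  exact hTo hHl T m D (rrz M hIrr hm hr N.dim ⟨v, by rw [hp, hv, hu1]⟩
    (endZ_of_endQ D hEnd) (hAp T m r D b hm hp hap))

end SEB
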