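import Pool.Agent.Lib.SE.Big.Asm2

/-!
# PROJECT SE, module IsBig: very general real branch points, assembly (helper64)
-/

set_option autoImplicit false

open Module

noncomputable section

namespace SEB

open HC HC.E HC.SE

/-- The modules of part 2. -/
structure Mods2 : Prop where
  Irr : S_IrrZ
  Hl : S_Hl
  To : S_ToBig
  Sg : S_Sg
  Pn : S_Pnew
  Ap : S_Ap
  Per : S_Per
  Bai : S_Bai
  Br : S_Br
  Lat : S_Lat
  Ca : S_Ca
  Cb : S_Cb
  Loop : S_Loop
  Bf : S_Bf

theorem sum_lt_of_sg {m r : ℕ} {b : Fin (r + 1) → ℕ} {u : ℕ} (h : sg m r b u = 1) :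
    m * 0 + ∑ j, (u * b j) % m < m * r := by
  rw [sg, Finset.card_eq_one] at h
  obtain ⟨i, hi⟩ := h
  have : i ∈ (Finset.univ.filter fun i : Fin r => m * (i : ℕ) + ∑ j, (u * b j) % m < m * r) := by
    rw [hi]; exact Finset.mem_singleton_self i
  rw [Finset.mem_filter] at this
  have h2 := this.2
  have h3 : m * 0 ≤ m * (i : ℕ) := Nat.mul_le_mul_left _ (Nat.zero_le _)
  omega

theorem mod_pos {m u b : ℕ} (huc : u.Coprime m) (hb : ¬ m ∣ b) : 1 ≤ (u * b) % m := by
  rcases Nat.eq_zero_or_pos ((u * b) % m) with h | h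
  · exact absurd (huc.symm.dvd_of_dvd_mul_left (Nat.dvd_of_mod_eq_zero h)) hb
  · exact h

theorem AInd.mul {r : ℕ} {x y : Fin r → ℂ} (h : AInd x)
    (hy : ∀ k, ∃ κ : ℂ, κ ≠ 0 ∧ IsAlgebraic ℚ κ ∧ y k = κ * x k) : AInd y := by
  intro c hc h0
  choose κ h1 h2 h3 using hy
  have h4 := h (fun k => c k * κ k) (fun k => (hc k).mul (h2 k)) (by
    rw [← h0]
    refine Finset.sum_congr rfl fun k _ => ?_
    rw [h3, mul_assoc])
  funext k
  have h5 := congrFun h4 k
  simp only [Pi.zero_apply, mul_eq_zero] at h5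
  rcases h5 with h5 | h5
  · exact h5
  · exact absurd h5 (h1 k)

theorem bigVG (M : Mods) (M2 : Mods2) : BigVG := by
  intro m r b hr hu hap
  obtain ⟨u, hum, huc, hu1⟩ := hu
  by_cases hcov : 3 ≤ m ∧ (∀ j, ¬ m ∣ b j) ∧ ¬ m ∣ ∑ j, b j
  · obtain ⟨hm, hb, hbs⟩ := hcov
    have hm0 : (0 : ℝ) < m := by exact_mod_cast (by omega : 0 < m)
    have hn : ∀ j, 1 ≤ m - (u * b j) % m ∧ m - (u * b j) % m < m := fun j => by
      have h1 := Nat.mod_lt (u * b j) (by omega : 0 < m)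
      have h2 := mod_pos huc (hb j)
      omega
    have hEx : Exq (fun j => ((m - (u * b j) % m : ℕ) : ℝ) / m) := fun j => by
      refine ⟨div_pos ?_ hm0, (div_lt_one hm0).2 ?_⟩
      · exact_mod_cast (by have := (hn j).1; omega : 0 < m - (u * b j) % m)
      · exact_mod_cast (hn j).2
    have hint : ∀ n : ℤ, ∑ j, ((m - (u * b j) % m : ℕ) : ℝ) / m ≠ n := by
      intro n h
      rw [← Finset.sum_div, div_eq_iff hm0.ne'] at h
      have h1 : ((∑ j, (m - (u * b j) % m) : ℕ) : ℤ) = n * m := by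
        have : (((∑ j, (m - (u * b j) % m) : ℕ) : ℤ) : ℝ) = ((n * m : ℤ) : ℝ) := by
          push_cast
          rw [← h]
        exact_mod_cast this
      have h2 : (m : ℤ) ∣ ((∑ j, (m - (u * b j) % m) : ℕ) : ℤ) := ⟨n, by rw [h1, mul_comm]⟩
      have h3 : m ∣ ∑ j, (m - (u * b j) % m) := by exact_mod_cast h2
      have h4 : ∑ j, (m - (u * b j) % m) + u * ∑ j, b j =
          m * ∑ j : Fin (r + 1), (1 + u * b j / m) := by
        rw [Finset.mul_sum, Finset.mul_sum, ← Finset.sum_add_distrib]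
        refine Finset.sum_congr rfl fun j _ => ?_
        have h5 := Nat.div_add_mod (u * b j) m
        have h6 := Nat.mod_lt (u * b j) (by omega : 0 < m)
        rw [mul_add, mul_one]
        omega
      have h5 : m ∣ u * ∑ j, b j := by
        rw [← Nat.dvd_add_right h3, h4]
        exact dvd_mul_right _ _
      exact hbs (huc.symm.dvd_of_dvd_mul_left h5)
    refine (M2.Bai r _ hEx hint).mono ?_
    rintro s ⟨hs, hno⟩
    refine ⟨hs, fun hA => hno ?_⟩
    intro T hc N E hE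
    let D : Cyc T m := mkCyc N hE
    have hp : ∀ u : (ZMod m)ˣ, D.p u = sg m r b (u : ZMod m).val :=
      M2.Pn M2.Sg M.Bas T m r (fun j => (s j : ℂ)) b hc N D rfl
    obtain ⟨v, hv⟩ := exists_unit hum huc
    have hpv : D.p v = 1 := by rw [hp, hv, hu1]
    obtain ⟨B, hB⟩ := N.dif u hum huc 0 (sum_lt_of_sg hu1)
    have hBZ := M2.Bf T m r (fun j => (s j : ℂ)) b hc N u 0 B hB
    have hB' : ∀ x ∉ N.γ.S, ∀ y, N.γ.P (x, y) = 0 →
        B (N.γ.ω x y) = y ^ u / ∏ j, (x - (s j : ℂ)) ^ (1 + u * b j / m) := by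
      intro x hx y hy
      rw [hB x hx y hy, pow_zero, one_mul]
    have hL := M2.Loop M2.Br M2.Lat M2.Ca M2.Cb T m r s b hs hc N u hum huc B hBZ hB'
    choose w hw κ h1 h2 h3 using hL
    have hAI : AInd (fun k => (B.restrictScalars ℝ : Frm T) (w k)) :=
      AInd.mul hA fun k => ⟨κ k, h1 k, h2 k, h3 k⟩
    have hBW : (B.restrictScalars ℝ : Frm T) ∈ Ws10 D v := by
      refine ⟨fun x => ?_, fun x => ?_⟩
      · have := hBZ x
        change B (N.Z x) = zet m v * B x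
        rw [this, zet, hv]
      · exact B.map_smul _ _
    have hEnd : EndZ D := M2.Per M.Bas T m r D hm (by omega) N.dim v hpv _ hBW w hw hAI
    exact M2.To M2.Hl T m D (rrz M M2.Irr hm hr N.dim ⟨v, hpv⟩ hEnd
      (M2.Ap T m r D b hm hp hap))
  · have : {s : Fin (r + 1) → ℝ | StrictMono s ∧
      ¬ ∀ T : AV, IsCov m (fun j => (s j : ℂ)) b → ∀ (N : New T m (fun j => (s j : ℂ)) b)
        (E : T.V →ₗ[ℝ] T.V →ₗ[ℝ] ℝ), IsPol T N.Z E →
          HC.SE.Big (fun _ : Fin 1 => T) (fun _ => N.Z) (fun _ => E)} = ∅ := by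
      refine Set.eq_empty_of_forall_notMem ?_
      rintro s ⟨-, hno⟩
      exact hno fun T hc => absurd ⟨hc.1, hc.2.2.1, hc.2.2.2.1⟩ hcov
    rw [this]
    exact IsMeagre.empty

end SEB
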