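import Pool.Agent.Lib.SE.Big.Asm3

/-!
# PROJECT SE: the Hodge conjecture for `A × J ^ N`, concrete corollaries (helper64)
-/

set_option autoImplicit false

open Module

noncomputable section

namespace SEB

open HC HC.E HC.SE

/-- The Hodge conjecture for all abelian varieties isogenous to `A × J ^ N`, `A` of CM type. -/
def HCall (J : AV) : Prop :=
  ∀ (A T : AV) (N : ℕ), IsCM A → IsProdE T A (fun _ : Fin N => J) →
    ∀ (d : ℕ) (c : Hlg T d), IsHodge T d c → Alg2 T d c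

/-- The commutant of `Z` is `ℚ(Z)`. -/
def CorR : Prop :=
  ∀ (J : AV) (m r : ℕ) (s : Fin (r + 1) → ℂ) (b : Fin (r + 1) → ℕ), 2 ≤ r → IsCov m s b →
    ∀ D : New J m s b, (∃ u < m, u.Coprime m ∧ sg m r b u = 1) → AperC m r b → EndQ J D.Z →
    HCall J

/-- Real branch points outside a meagre set. -/
def CorM : Prop :=
  ∀ (m r : ℕ) (b : Fin (r + 1) → ℕ), 2 ≤ r → (∃ u < m, u.Coprime m ∧ sg m r b u = 1) →
    AperC m r b → IsMeagre {s : Fin (r + 1) → ℝ | StrictMono s ∧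
      ¬ ∀ J : AV, IsCov m (fun j => (s j : ℂ)) b →
        Nonempty (New J m (fun j => (s j : ℂ)) b) → HCall J}

/-- The curves `y ^ p = f(x)`, `f` any cubic polynomial with distinct roots, `p ≥ 5` prime. -/
def CorA : Prop :=
  ∀ (p : ℕ) (s : Fin 3 → ℂ) (J : AV), p.Prime → 5 ≤ p → Function.Injective s →
    Nonempty (New J p s fun _ => 1) → HCall J

/-- The curves `y ^ p = f(x)`, `f` of degree `n = r + 1 ≥ 3` with distinct roots, `p > n` prime, such
that the commutant of `Z` is `ℚ(Z)`. -/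
def CorB : Prop :=
  ∀ (p r : ℕ) (s : Fin (r + 1) → ℂ) (J : AV), p.Prime → 2 ≤ r → r + 1 < p →
    Function.Injective s → ∀ D : New J p s (fun _ => 1), EndQ J D.Z → HCall J

/-- The curves `y ^ p = f(x)`, `f` of degree `n = r + 1 ≥ 3`, `p > n` prime, for all `f` with distinct
real roots outside a meagre set. -/
def CorC : Prop :=
  ∀ p r : ℕ, p.Prime → 2 ≤ r → r + 1 < p → IsMeagre {s : Fin (r + 1) → ℝ | StrictMono s ∧
    ¬ ∀ J : AV, Nonempty (New J p (fun j => (s j : ℂ)) fun _ => 1) → HCall J}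

theorem hcall_of_big (hB : ThmB) {J : AV} {m r : ℕ} {s : Fin (r + 1) → ℂ} {b : Fin (r + 1) → ℕ}
    (hc : IsCov m s b) (D : New J m s b) {E : J.V →ₗ[ℝ] J.V →ₗ[ℝ] ℝ} (hE : IsPol J D.Z E)
    (h : HC.SE.Big (fun _ : Fin 1 => J) (fun _ => D.Z) (fun _ => E)) : HCall J := by
  intro A T N hA hT d c hd
  exact hB A T 1 N (fun _ => J) (fun _ => 0) (fun _ => m) (fun _ => r) (fun _ => s) (fun _ => b)
    (fun _ => D) (fun _ => E) hA (fun _ => hc) (fun _ => hE) h hT d c hd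

theorem corR (hB : ThmB) (hZ : BigRz) (hAvg : S_Avg) : CorR := by
  intro J m r s b hr hc D hu hap hEnd
  obtain ⟨E, hE⟩ := exists_pol hAvg hc D
  exact hcall_of_big hB hc D hE (hZ J m r s b hr hc D E hE hu hap hEnd)

theorem corM (hB : ThmB) (hV : BigVG) (hAvg : S_Avg) : CorM := by
  intro m r b hr hu hap
  refine (hV m r b hr hu hap).mono ?_
  rintro s ⟨hs, hno⟩
  refine ⟨hs, fun h => hno ?_⟩
  rintro J hc ⟨D⟩
  obtain ⟨E, hE⟩ := exists_pol hAvg hc D
  exact hcall_of_big hB hc D hE (h J hc D E hE)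

theorem isCov_one {p r : ℕ} {s : Fin (r + 1) → ℂ} (_hp : p.Prime) (hr : 2 ≤ r) (hrp : r + 1 < p)
    (hs : Function.Injective s) : IsCov p s (fun _ => 1) := by
  refine ⟨by omega, hs, fun _ h => ?_, fun h => ?_, fun d hd h => ?_⟩
  · have := Nat.le_of_dvd one_pos h
    omega
  · simp only [Finset.sum_const, Finset.card_univ, Fintype.card_fin, smul_eq_mul, mul_one] at h
    have := Nat.le_of_dvd (by omega) h
    omega
  · exact Nat.dvd_one.1 (h 0)

/-- `tPr` of `SE/Big/Pr.lean`. -/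
def S_Pr : Prop :=
  ∀ p r : ℕ, p.Prime → 2 ≤ r → r + 1 < p →
    AperC p r (fun _ => 1) ∧ ∃ u < p, u.Coprime p ∧ sg p r (fun _ => 1) u = 1

theorem corA (h2 : HC2) (hP : S_Pr) : CorA := by
  rintro p s J hp h5 hs hN A T N hA hT d c hd
  obtain ⟨h6, h7⟩ := hP p 2 hp le_rfl (by omega)
  exact h2 A J T p N s (fun _ => 1) hA (isCov_one hp le_rfl (by omega) hs) hN h7 h6 hT d c hd

theorem corB (hR : CorR) (hP : S_Pr) : CorB := by
  intro p r s J hp hr hrp hs D hEnd
  obtain ⟨h6, h7⟩ := hP p r hp hr hrp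
  exact hR J p r s (fun _ => 1) hr (isCov_one hp hr hrp hs) D h7 h6 hEnd

theorem corC (hM : CorM) (hP : S_Pr) : CorC := by
  intro p r hp hr hrp
  obtain ⟨h6, h7⟩ := hP p r hp hr hrp
  refine (hM p r (fun _ => 1) hr h7 h6).mono ?_
  rintro s ⟨hs, hno⟩
  refine ⟨hs, fun h => hno fun J hN => h J (isCov_one hp hr hrp ?_) hN⟩
  intro i j hij
  exact hs.injective (Complex.ofReal_injective hij)

end SEB
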