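import Pool.Agent.Lib.SE.Big.Fam
import Pool.Agent.Lib.SE.Big.Cor2

/-!
# PROJECT SE, module IsBig: products of different factors, assembly (helper64)
-/

set_option autoImplicit false

open Module

noncomputable section

namespace SEB

open HC HC.E HC.SE

/-- The modules of part 3. -/
structure Mods3 : Prop where
  FH : S_FH
  FLI : S_FLI
  FTwo : S_FTwo
  FRib : S_FRib
  FFin : S_FFin
  FHl : S_FHl

theorem full_of_irr (M : Mods) {T : AV} {m r : ℕ} {D : Cyc T m} (hm : 3 ≤ m) (hr : 2 ≤ r)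
    (hd : 2 * finrank ℂ T.V = r * Nat.totient m) (hap : Aper D) {s : (ZMod m)ˣ} (hs : D.p s = 1)
    (hi : ∀ h, HLie D h → Irr D h s) : Full D := by
  intro h hh
  have h0 : Hits D h {s} := M.At0 M.Bas M.J0 M.L1 T m D hm h hh s hs (hi h hh)
  have h1 : ∀ t, Hits D h {t} := M.All M.Bas M.Dim M.LI M.Cl T m r D hm hr hd h hh s h0
  exact ⟨h1, M.Two M.Bas M.Dim M.LI M.Cl M.AdJ M.Gou T m r D hm hr hd hap h hh h1⟩

/-- Rank 2. -/
theorem full_r2 (M : Mods) {T : AV} {m : ℕ} {D : Cyc T m} (hm : 3 ≤ m)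
    (hd : finrank ℂ T.V = Nat.totient m) (hs : ∃ s, D.p s = 1) (hap : Aper D) :
    IsAb D ∨ Full D := by
  by_cases hab : IsAb D
  · exact Or.inl hab
  · obtain ⟨s, hs⟩ := hs
    refine Or.inr (full_of_irr M hm le_rfl (by rw [hd]) hap hs fun h hh => ?_)
    rcases M.R2i M.Bas M.Dim M.Red M.LI T m D hm hd h hh s with hi | hc
    · exact hi
    · exact absurd ⟨h, hh, hc⟩ hab

/-- Rank `r`, the commutant of `Z` is `ℚ(Z)`. -/
theorem full_rz (M : Mods) (hIrr : S_IrrZ) {T : AV} {m r : ℕ} {D : Cyc T m} (hm : 3 ≤ m)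
    (hr : 2 ≤ r) (hd : 2 * finrank ℂ T.V = r * Nat.totient m) (hs : ∃ s, D.p s = 1)
    (hE : EndZ D) (hap : Aper D) : Full D := by
  obtain ⟨s, hs⟩ := hs
  exact full_of_irr M hm hr hd hap hs
    fun h hh => hIrr M.Bas M.Red M.RatSp T m D hm hE h hh s

theorem isSU_comm {T : AV} {m : ℕ} {D : Cyc T m} {P Q : Module.End ℝ T.V} (hP : IsU D P)
    (hQ : IsU D Q) : IsSU D (P * Q - Q * P) := by
  refine ⟨⟨fun v => ?_, fun u v => ?_⟩, fun k => ?_⟩
  · simp only [LinearMap.sub_apply, Module.End.mul_apply, map_sub, hP.1, hQ.1]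
  · have h1 := hP.2 (Q u) v
    have h2 := hP.2 u (Q v)
    have h3 := hQ.2 (P u) v
    have h4 := hQ.2 u (P v)
    simp only [LinearMap.sub_apply, Module.End.mul_apply, map_sub]
    linarith
  · have hc : P * D.ZR ^ k = D.ZR ^ k * P := by
      have h1 : Commute P D.ZR := by
        ext v
        exact hP.1 v
      exact (h1.pow_right k)
    have h1 : LinearMap.trace ℝ T.V (P * Q * D.ZR ^ k) =
        LinearMap.trace ℝ T.V (Q * P * D.ZR ^ k) := by
      rw [mul_assoc, LinearMap.trace_mul_comm, mul_assoc, ← hc, mul_assoc]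
    rw [sub_mul, map_sub, h1, sub_self]

/-- The theorem for families. -/
theorem bigF (M : Mods) (hPj : S_Pj) (M3 : Mods3) {q : ℕ} (F : Fm q) (hsep : SepF F)
    (hfull : ∀ i, Full (F.D i)) : HC.SE.Big F.T (fun i => (F.D i).Z) (fun i => (F.D i).ψ) := by
  intro h₀ hrat hcom hJ P Q hP hQ
  obtain ⟨h, hh, hC⟩ := M3.FHl q F h₀ hrat hcom hJ
  obtain ⟨h1, h2⟩ := M3.FH q F h hh hfull
  have h3 := M3.FTwo M.Bas M.Dim M3.FLI M.AdJ M.Gou q F hsep h hh h1
  have h4 : ∀ β β' : F.B, β' ≠ β → β' ≠ F.neg β → HitsF F h {β, β'} := by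
    intro β β' hne hne'
    by_cases hb : β.1 = β'.1
    · exact h2 β β' hb hne hne'
    · exact h3 β β' hb
  have h5 := M3.FRib M.Perf q F h hh h1 h4
  have h6 := M3.FFin hPj M.Bas M.Tr q F h hh h5 (P * Q - Q * P) fun i =>
    isSU_comm ⟨(hP i).1, (hP i).2⟩ ⟨(hQ i).1, (hQ i).2⟩
  refine Submodule.span_le.2 ?_ h6
  intro Y hY
  exact hC Y hY

end SEB
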