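import Pool.Agent.Lib.SE.Big.VG2
import Pool.Agent.Lib.SE.Big.Asm4

/-!
# PROJECT SE, module IsBig: very general real branch points, all signatures, assembly (helper64)
-/

set_option autoImplicit false

open Module MeasureTheory

noncomputable section

namespace SEB

open HC HC.E HC.SE

/-- The modules of part 4 used directly. -/
structure Mods4 : Prop where
  Sg : S_Sg
  Pn : S_Pnew
  Ap : S_Ap
  Bf : S_Bf
  Bai : S_Bai
  Kap : S_Kap
  Ba2 : S_Ba2
  LoopF : S_LoopF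
  EB : S_EB
  Hod : S_Hod
  Hit : S_Hit

/-- One unit `u` with both signatures positive and different (or `r = 2`). -/
def HypU (m r : ℕ) (b : Fin (r + 1) → ℕ) : Prop :=
  ∃ u < m, u.Coprime m ∧ 0 < sg m r b u ∧ 0 < sg m r b (m - u) ∧
    (sg m r b u ≠ sg m r b (m - u) ∨ r = 2)

theorem full_of_hits (M : Mods) {T : AV} {m r : ℕ} {D : Cyc T m} (hm : 3 ≤ m) (hr : 2 ≤ r)
    (hd : 2 * finrank ℂ T.V = r * Nat.totient m) (hap : Aper D) {s : (ZMod m)ˣ}
    (hi : ∀ h, HLie D h → Hits D h {s}) : Full D := by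
  intro h hh
  have h1 : ∀ t, Hits D h {t} := M.All M.Bas M.Dim M.LI M.Cl T m r D hm hr hd h hh s (hi h hh)
  exact ⟨h1, M.Two M.Bas M.Dim M.LI M.Cl M.AdJ M.Gou T m r D hm hr hd hap h hh h1⟩

theorem sum_lt_of_sg_pos {m r : ℕ} {b : Fin (r + 1) → ℕ} {u : ℕ} (h : 0 < sg m r b u) :
    m * 0 + ∑ j, (u * b j) % m < m * r := by
  rw [sg, Finset.card_pos] at h
  obtain ⟨i, hi⟩ := h
  rw [Finset.mem_filter] at hi
  have h2 := hi.2
  have h3 : m * 0 ≤ m * (i : ℕ) := Nat.mul_le_mul_left _ (Nat.zero_le _)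
  omega

/-- VERY GENERAL BRANCH POINTS: `Full`. -/
def FullVG : Prop :=
  ∀ (m r : ℕ) (b : Fin (r + 1) → ℕ), 2 ≤ r → HypU m r b → AperC m r b →
    IsMeagre {s : Fin (r + 1) → ℝ | StrictMono s ∧
      ¬ ∀ T : AV, IsCov m (fun j => (s j : ℂ)) b → ∀ (N : New T m (fun j => (s j : ℂ)) b)
        (E : T.V →ₗ[ℝ] T.V →ₗ[ℝ] ℝ) (hE : IsPol T N.Z E), Full (mkCyc N hE)}

theorem isMeagre_union {X : Type} [TopologicalSpace X] {A B : Set X} (hA : IsMeagre A)
    (hB : IsMeagre B) : IsMeagre (A ∪ B) := by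
  rw [IsMeagre, Set.compl_union]
  exact Filter.inter_mem hA hB

theorem fullVG (M : Mods) (M4 : Mods4) : FullVG := by
  intro m r b hr hu hap
  obtain ⟨u, hum, huc, hp, hq, hpq⟩ := hu
  by_cases hex : ∃ s : Fin (r + 1) → ℝ, StrictMono s ∧ IsCov m (fun j => (s j : ℂ)) b
  · obtain ⟨s₀, hs₀, hc₀⟩ := hex
    obtain ⟨-, hEx, hint, -⟩ := M4.Kap m r b u s₀ ⟨hs₀, hc₀, hum, huc⟩
    refine (isMeagre_union (M4.Bai r _ hEx hint) (M4.Ba2 m r b u hp hq hpq)).mono ?_
    rintro s ⟨hs, hno⟩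
    by_contra hbad
    rw [Set.mem_union, not_or] at hbad
    obtain ⟨hb1, hb2⟩ := hbad
    refine hno fun T hc N E hE => ?_
    have hm : 3 ≤ m := hc.1
    have hAdm : Adm m b u s := ⟨hs, hc, hum, huc⟩
    have hAI : AInd (fun k : Fin r => (Ik (mu m b u) s k : ℂ)) := by
      by_contra h
      exact hb1 ⟨hs, h⟩
    let D : Cyc T m := mkCyc N hE
    obtain ⟨w, hw⟩ := exists_unit hum huc
    obtain ⟨B, hB⟩ := N.dif u hum huc 0 (sum_lt_of_sg_pos hp)
    have hBZ := M4.Bf T m r (fun j => (s j : ℂ)) b hc N u 0 B hB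
    obtain ⟨v, hv, hvP⟩ := M4.LoopF T m r s b hs hc N
    have hBv : ∀ k, B (v k) = Pv m b u s 1 k := by
      refine hvP u hum huc 1 B hBZ ?_
      intro x hx y hy
      rw [hB x hx y hy, pow_zero, Polynomial.eval_one]
    have hBW : (B.restrictScalars ℝ : Frm T) ∈ Ws D w := by
      intro x
      have := hBZ x
      change B (N.Z x) = zet m w * B x
      rw [this, zet, hw]
    have hAI2 : AInd (fun k => (B.restrictScalars ℝ : Frm T) (v k)) := by
      refine AInd.mul hAI fun k => ⟨kap m b u k, ?_, ?_, ?_⟩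
      · exact ((M4.Kap m r b u s hAdm).2.2.2 k).1
      · exact ((M4.Kap m r b u s hAdm).2.2.2 k).2
      · change B (v k) = _
        rw [hBv k, Pv, Ik, ← intervalIntegral.integral_ofReal]
        simp only [Polynomial.eval_one, mul_one]
    obtain ⟨hinj, hmat⟩ := M4.EB T m r D hm (by omega) N.dim w _ hBW v hv hAI2
    have hHod := M4.Hod T m r s b hs hc N D rfl v hvP
    obtain ⟨hND, hHit⟩ := M4.Hit T m r s b D hs hc (by omega) N.dim v hinj hmat hHod w
    rw [hw] at hND hHit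
    have hp' : ∀ u : (ZMod m)ˣ, D.p u = sg m r b (u : ZMod m).val :=
      M4.Pn M4.Sg M.Bas T m r (fun j => (s j : ℂ)) b hc N D rfl
    refine full_of_hits M hm hr N.dim (M4.Ap T m r D b hm hp' hap) (s := w) (hHit ?_)
    rintro ⟨g, hg, J, hJ, hJg⟩
    exact hb2 ⟨hAdm, hND, g, hg, J, hJ, hJg⟩
  · have : {s : Fin (r + 1) → ℝ | StrictMono s ∧
      ¬ ∀ T : AV, IsCov m (fun j => (s j : ℂ)) b → ∀ (N : New T m (fun j => (s j : ℂ)) b)
        (E : T.V →ₗ[ℝ] T.V →ₗ[ℝ] ℝ) (hE : IsPol T N.Z E), Full (mkCyc N hE)} = ∅ := by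
      refine Set.eq_empty_of_forall_notMem ?_
      rintro s ⟨hs, hno⟩
      exact hno fun T hc => absurd ⟨s, hs, hc⟩ hex
    rw [this]
    exact IsMeagre.empty

end SEB
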