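import Pool.Agent.Lib.SE.Big.Fam

/-!
# PROJECT SE, module IsBig: separation for coprime orders (helper64)
-/

set_option autoImplicit false

open Module

noncomputable section

namespace SEB

open HC HC.E HC.SE

/-- SEPARATION FOR COPRIME ORDERS. PROOF. Let `β = (i, s)`, `β' = (j, t)`, `r_i = r_j`; `m_i`, `m_j` are
coprime. Say `pp (i, u) ≠ pp (i, v)`. For `w ∈ {u, v}` there is `ρ ∈ (ℤ/M)ˣ` with image `w s⁻¹` in
`(ℤ/m_i)ˣ` and `1` in `(ℤ/m_j)ˣ` (`m_i m_j ∣ M`, `ZMod.unitsMap_surjective`, Chinese remainder theorem):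
`pp (ρ β) = pp (i, w)`, `pp (ρ β') = pp β'`; one of the two `w` works. The other case in the same
way. -/
def S_Sep2 : Prop :=
  ∀ (q : ℕ) (F : Fm q), (∀ i j, i ≠ j → F.r i ≠ F.r j ∨ ((F.m i).Coprime (F.m j) ∧
    ((∃ u v : (ZMod (F.m i))ˣ, F.pp ⟨i, u⟩ ≠ F.pp ⟨i, v⟩) ∨
      ∃ u v : (ZMod (F.m j))ˣ, F.pp ⟨j, u⟩ ≠ F.pp ⟨j, v⟩))) → SepF F

end SEB
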