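import Pool.Agent.Lib.SE.Big.Fam

/-!
# PROJECT SE, module IsBig: the curves `y ^ m = f(x)`, `m` odd (helper64)
-/

set_option autoImplicit false

open Module

noncomputable section

namespace SEB

open HC HC.E HC.SE

/-- THE SIGNATURES FOR ODD `m`. Let `n = r + 1 ≥ 3`, `m ∤ n`; for `0 < u < m` prime to `m` put
`t(u) = ⌊n u / m⌋`. Then `sg m r 1 u = r - t(u)` (`Pr_aux.sg_eq` of SE/Big/Pr.lean has the case of a
prime), `sg (m - u) = t(u)`, `t(m - u) = r - t(u)`; `F(u) = sg u · sg (m - u) = t (r - t)`.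
PROOF. CASE `n > m`. `t` is strictly increasing, and `F(u) = F(u')` iff `t(u') ∈ {t(u), r - t(u)}` iff
`u' ∈ {u, m - u}`: take `u = 1` in `AperC`. `u = 1`: `t = ⌊n/m⌋ ≥ 1`, `t ≤ n/3 < r`; `2 t = r` would give
`n - 1 ≤ 2 n / 3`, `n ≤ 3 ≤ m`. CASE `n < m`. `F(u) = 0` iff `u < m/n` or `m - u < m/n` (that is
`t(u) = 0` or `t(m - u) = 0`; `n u = m` is impossible for a unit `u > 1`, and `m ∤ n`). APERIODIC: let `g`
be a period, `g = ± j`, `0 < j < m/2`; `F(1) = 0`, so `F(j) = 0`, `n j < m`. If `j ≥ 2`: let `a ≥ 1` be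
minimal with `n j 2^a > m`. Then `m/n < j 2^a < 2m/n ≤ m - m/n`, so `F(j 2^a) ≠ 0` (`j 2^a < m`, a unit as
`m` is odd), but `2^a ≤ j 2^(a-1) < m/n`, so `F(2^a) = 0`: contradiction to the period `g`. So `j = 1`.
UNIT: `n = 3`: `u = (m - 1)/2`, `t(u) = 1`, `t(m - u) = 1` (`r = 2`). `n = 4`: `u = (m - 1)/2`: `t(u) = 1`,
`t(m-u) = 2`. `n ≥ 5`: `u = 2^a` with `m/n < 2^a < 2m/n` (`m/n > 1`): `t(u) = 1`, `t(m - u) = r - 1 ≥ 3`.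
(For `n = 3, 4`: `3 ≤ n < m`, `m` odd, so `m ≥ 5`.) -/
def S_Pr3 : Prop :=
  ∀ m r : ℕ, Odd m → 3 ≤ m → 2 ≤ r → ¬ m ∣ r + 1 →
    AperC m r (fun _ => 1) ∧ ∃ u < m, u.Coprime m ∧ 0 < sg m r (fun _ => 1) u ∧
      0 < sg m r (fun _ => 1) (m - u) ∧
      (sg m r (fun _ => 1) u ≠ sg m r (fun _ => 1) (m - u) ∨ r = 2)

/-- SEPARATION FOR ODD `m_i`. PROOF. Let `β = (i, s)`, `β' = (j, t)`, `i ≠ j`, `r_i = r_j`, so `m_i ≠ m_j`. There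
is a unit `ρ` modulo `M` with `ρ ≡ 1 mod m_i`, `ρ ≢ ± 1 mod m_j`, or the same with `i`, `j` exchanged:
the image in `(ℤ/m_j)ˣ` of the units which are `1` modulo `m_i` is the kernel of
`(ℤ/m_j)ˣ → (ℤ/d)ˣ`, `d = gcd(m_i, m_j)`; if it is contained in `{± 1}` then, as `m_j` is odd, either
`d ≥ 3` and it is trivial (`-1 ≢ 1 mod d`), so `φ(m_j) = φ(d)` and `m_j = d ∣ m_i`, or `d = 1` and
`m_j = 3`; both for `(i,j)` and `(j,i)` is impossible for `m_i ≠ m_j`. (`ZMod.unitsMap_surjective`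
for `m_i, m_j ∣ M`.) Suppose `pp (ρ' β) = pp (ρ' β')` for all `ρ'`. Then the image
`g` of `ρ` in `(ℤ/m_j)ˣ` is a period of `pp (j, ·)`: for `s' ∈ (ℤ/m_j)ˣ` choose `ρ'` with `ρ' t = s'`;
`pp (j, g s') = pp (ρ ρ' β') = pp (ρ ρ' β) = pp (ρ' β) = pp (ρ' β') = pp (j, s')`; `Aper`: `g = ± 1`:
contradiction. -/
def S_Sep3 : Prop :=
  ∀ (q : ℕ) (F : Fm q), (∀ i, Odd (F.m i)) → (∀ i, Aper (F.D i)) →
    (∀ i j, i ≠ j → (F.m i, F.r i) ≠ (F.m j, F.r j)) → SepF F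

end SEB
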