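import Pool.Agent.Lib.SE.Big.Asm5
import Pool.Agent.Lib.SE.Big.Fam2
import Pool.Agent.Lib.SE.Big.Fam3

/-!
# PROJECT SE, module IsBig: the superelliptic families `y ^ p = f(x)`, assembly (helper64)
-/

set_option autoImplicit false

open Module MeasureTheory

noncomputable section

namespace SEB

open HC HC.E HC.SE

/-- THEOREM VG. For every odd prime `p` and every `n = r + 1 ≥ 3` prime to `p` there is a meagre set
`𝓜 (p, r)` of `(r + 1)`-tuples of real numbers such that, for curves `y ^ (p_i) = ∏_j (x - s_(i,j))` with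
`s_(i,0) < … < s_(i,r_i)` real and not in `𝓜`, and pairwise different `(p_i, r_i)`, the Hodge conjecture holds for
every abelian variety isogenous to a product of an abelian variety of CM type and powers of the
Jacobians. -/
def CorF : Prop :=
  ∃ 𝓜 : ∀ _ r : ℕ, Set (Fin (r + 1) → ℝ), (∀ p r, IsMeagre (𝓜 p r)) ∧
    ∀ (q : ℕ) (p r : Fin q → ℕ) (s : ∀ i, Fin (r i + 1) → ℝ) (J : Fin q → AV),
      (∀ i, (p i).Prime ∧ 3 ≤ p i ∧ 2 ≤ r i ∧ ¬ p i ∣ r i + 1) →
      (∀ i, StrictMono (s i) ∧ s i ∉ 𝓜 (p i) (r i) ∧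
        Nonempty (New (J i) (p i) (fun j => (s i j : ℂ)) fun _ => 1)) →
      (∀ i j, i ≠ j → (p i, r i) ≠ (p j, r j)) → ∀ (A T : AV) (N : ℕ) (j : Fin N → Fin q),
      IsCM A → IsProdE T A (fun n => J (j n)) →
      ∀ (d : ℕ) (c : Hlg T d), IsHodge T d c → Alg2 T d c

theorem isCov_one' {p r : ℕ} {s : Fin (r + 1) → ℂ} (hp : 3 ≤ p) (hrp : ¬ p ∣ r + 1)
    (hs : Function.Injective s) : IsCov p s (fun _ => 1) := by
  refine ⟨hp, hs, fun _ h => ?_, fun h => ?_, fun d hd h => ?_⟩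
  · have := Nat.le_of_dvd one_pos h
    omega
  · simp only [Finset.sum_const, Finset.card_univ, Fintype.card_fin, smul_eq_mul, mul_one] at h
    exact hrp h
  · exact Nat.dvd_one.1 (h 0)

theorem inj_of_mono {r : ℕ} {s : Fin (r + 1) → ℝ} (hs : StrictMono s) :
    Function.Injective (fun j => (s j : ℂ)) := by
  intro i j hij
  exact hs.injective (Complex.ofReal_injective hij)

theorem not_const {p r : ℕ} (hp : p.Prime) (h5 : 5 ≤ p) (hap : AperC p r (fun _ => 1)) :
    ∃ u v : (ZMod p)ˣ, sg p r (fun _ => 1) (u : ZMod p).val *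
        sg p r (fun _ => 1) (p - (u : ZMod p).val) ≠
      sg p r (fun _ => 1) (v : ZMod p).val * sg p r (fun _ => 1) (p - (v : ZMod p).val) := by
  by_contra hcon
  push Not at hcon
  have hc2 : Nat.Coprime 2 p := (Nat.coprime_primes Nat.prime_two hp).2 (by omega)
  rcases hap 2 (by omega) hc2 (fun u hu huc => by
    obtain ⟨v, hv⟩ := exists_unit hu huc
    have h1 : (u * 2) % p < p := Nat.mod_lt _ (by omega)
    have h2 : ((u * 2) % p).Coprime p := by
      have h3 : (u * 2).Coprime p := Nat.Coprime.mul_left huc hc2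
      rw [Nat.Coprime, ← Nat.gcd_rec, Nat.gcd_comm]
      exact h3
    obtain ⟨w, hw⟩ := exists_unit h1 h2
    have h4 := hcon w v
    rw [hv, hw] at h4
    exact h4) with h | h
  · omega
  · omega

theorem corF (hB : ThmB) (M : Mods) (hPj : S_Pj) (M3 : Mods3) (M4 : Mods4) (hV : FullVG)
    (hAvg : S_Avg) (hP : S_Pr2) (hS : S_Sep2) : CorF := by
  classical
  refine ⟨fun p r => if p.Prime ∧ 3 ≤ p ∧ 2 ≤ r ∧ ¬ p ∣ r + 1 then
    {s : Fin (r + 1) → ℝ | StrictMono s ∧
      ¬ ∀ T : AV, IsCov p (fun j => (s j : ℂ)) (fun _ => 1) →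
        ∀ (N : New T p (fun j => (s j : ℂ)) fun _ => 1)
        (E : T.V →ₗ[ℝ] T.V →ₗ[ℝ] ℝ) (hE : IsPol T N.Z E), Full (mkCyc N hE)} else ∅, ?_, ?_⟩
  · intro p r
    dsimp only
    split_ifs with h
    · obtain ⟨h1, h2⟩ := hP p r h.1 h.2.1 h.2.2.1 h.2.2.2
      exact hV p r (fun _ => 1) h.2.2.1 h2 h1
    · exact IsMeagre.empty
  · intro q p r s J hpr hs hne A T N j hA hT d c hc
    have hcov : ∀ i, IsCov (p i) (fun j => (s i j : ℂ)) (fun _ => 1) := fun i =>
      isCov_one' (hpr i).2.1 (hpr i).2.2.2 (inj_of_mono (hs i).1)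
    obtain ⟨D⟩ : Nonempty (∀ i, New (J i) (p i) (fun j => (s i j : ℂ)) fun _ => 1) :=
      ⟨fun i => Classical.choice (hs i).2.2⟩
    choose E hE using fun i => exists_pol hAvg (hcov i) (D i)
    have hfull : ∀ i, Full (mkCyc (D i) (hE i)) := by
      intro i
      have h1 := (hs i).2.1
      beta_reduce at h1
      rw [if_pos (hpr i)] at h1
      by_contra h2
      exact h1 ⟨(hs i).1, fun h3 => h2 (h3 (J i) (hcov i) (D i) (E i) (hE i))⟩
    let F : Fm q :=
      { T := J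
        m := p
        r := r
        D := fun i => mkCyc (D i) (hE i)
        hm := fun i => (hpr i).2.1
        hr := fun i => (hpr i).2.2.1
        hd := fun i => (D i).dim }
    have hpp : ∀ i (u : (ZMod (p i))ˣ), F.pp ⟨i, u⟩ = sg (p i) (r i) (fun _ => 1) (u : ZMod (p i)).val *
        sg (p i) (r i) (fun _ => 1) (p i - (u : ZMod (p i)).val) := by
      intro i u
      have h1 := M4.Pn M4.Sg M.Bas (J i) (p i) (r i) (fun j => (s i j : ℂ)) (fun _ => 1) (hcov i)
        (D i) (mkCyc (D i) (hE i)) rfl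
      change (mkCyc (D i) (hE i)).p u * (mkCyc (D i) (hE i)).p (-u) = _
      have : NeZero (p i) := ⟨(hpr i).1.ne_zero⟩
      have : Fact (p i).Prime := ⟨(hpr i).1⟩
      rw [h1, h1, Units.val_neg, ZMod.neg_val, if_neg u.ne_zero]
    have hsep : SepF F := by
      refine hS q F fun i j hij => ?_
      by_cases hr : r i = r j
      · right
        have hpij : p i ≠ p j := fun h => hne i j hij (Prod.ext h hr)
        refine ⟨(Nat.coprime_primes (hpr i).1 (hpr j).1).2 hpij, ?_⟩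
        have hcase : 5 ≤ p i ∨ 5 ≤ p j := by
          have h4 : ∀ i, p i ≠ 4 := fun i h => by
            have := (hpr i).1
            rw [h] at this
            exact absurd this (by norm_num)
          have := h4 i
          have := h4 j
          have := (hpr i).2.1
          have := (hpr j).2.1
          omega
        rcases hcase with h | h
        · left
          obtain ⟨u, v, huv⟩ := not_const (hpr i).1 h
            (hP (p i) (r i) (hpr i).1 (hpr i).2.1 (hpr i).2.2.1 (hpr i).2.2.2).1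
          refine ⟨u, v, ?_⟩
          rw [hpp, hpp]
          exact huv
        · right
          obtain ⟨u, v, huv⟩ := not_const (hpr j).1 h
            (hP (p j) (r j) (hpr j).1 (hpr j).2.1 (hpr j).2.2.1 (hpr j).2.2.2).1
          refine ⟨u, v, ?_⟩
          rw [hpp, hpp]
          exact huv
      · exact Or.inl hr
    have hbig := bigF M hPj M3 F hsep hfull
    exact hB A T q N J j p r (fun i j => (s i j : ℂ)) (fun _ _ => 1) D E hA hcov hE hbig hT d c hc

/-- THEOREM VG, all odd `m`. For every odd `m ≥ 3` and every `n = r + 1 ≥ 3` with `m ∤ n` there is a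
meagre set `𝓜 (m, r)` of `(r + 1)`-tuples of real numbers such that, for the new parts `J_i` of the
Jacobians of `y ^ (m_i) = ∏_j (x - s_(i,j))` with `s_(i,0) < … < s_(i,r_i)` real, `s_i` not in `𝓜`, and pairwise
different `(m_i, r_i)`, the Hodge conjecture holds for every abelian variety isogenous to a product of an
abelian variety of CM type and powers of the `J_i`. -/
def CorO : Prop :=
  ∃ 𝓜 : ∀ _ r : ℕ, Set (Fin (r + 1) → ℝ), (∀ m r, IsMeagre (𝓜 m r)) ∧
    ∀ (q : ℕ) (m r : Fin q → ℕ) (s : ∀ i, Fin (r i + 1) → ℝ) (J : Fin q → AV),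
      (∀ i, Odd (m i) ∧ 3 ≤ m i ∧ 2 ≤ r i ∧ ¬ m i ∣ r i + 1) →
      (∀ i, StrictMono (s i) ∧ s i ∉ 𝓜 (m i) (r i) ∧
        Nonempty (New (J i) (m i) (fun j => (s i j : ℂ)) fun _ => 1)) →
      (∀ i j, i ≠ j → (m i, r i) ≠ (m j, r j)) → ∀ (A T : AV) (N : ℕ) (j : Fin N → Fin q),
      IsCM A → IsProdE T A (fun n => J (j n)) →
      ∀ (d : ℕ) (c : Hlg T d), IsHodge T d c → Alg2 T d c

/-- The meagre sets of THEOREM VG. -/
def MM (m r : ℕ) : Set (Fin (r + 1) → ℝ) :=
  open Classical in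
  if Odd m ∧ 3 ≤ m ∧ 2 ≤ r ∧ ¬ m ∣ r + 1 then
    {s : Fin (r + 1) → ℝ | StrictMono s ∧
      ¬ ∀ T : AV, IsCov m (fun j => (s j : ℂ)) (fun _ => 1) →
        ∀ (N : New T m (fun j => (s j : ℂ)) fun _ => 1)
        (E : T.V →ₗ[ℝ] T.V →ₗ[ℝ] ℝ) (hE : IsPol T N.Z E), Full (mkCyc N hE)} else ∅

/-- THEOREM VG, all odd `m`, in terms of `Big`. -/
def BigO : Prop :=
  (∀ m r, IsMeagre (MM m r)) ∧
    ∀ (q : ℕ) (m r : Fin q → ℕ) (s : ∀ i, Fin (r i + 1) → ℝ) (J : Fin q → AV)
      (D : ∀ i, New (J i) (m i) (fun j => (s i j : ℂ)) fun _ => 1)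
      (E : ∀ i, (J i).V →ₗ[ℝ] (J i).V →ₗ[ℝ] ℝ),
      (∀ i, Odd (m i) ∧ 3 ≤ m i ∧ 2 ≤ r i ∧ ¬ m i ∣ r i + 1) →
      (∀ i, StrictMono (s i) ∧ s i ∉ MM (m i) (r i)) → (∀ i, IsPol (J i) (D i).Z (E i)) →
      (∀ i j, i ≠ j → (m i, r i) ≠ (m j, r j)) → HC.SE.Big J (fun i => (D i).Z) E

theorem bigO (M : Mods) (hPj : S_Pj) (M3 : Mods3) (M4 : Mods4) (hV : FullVG)
    (hP : S_Pr3) (hS : S_Sep3) : BigO := by
  classical
  refine ⟨?_, ?_⟩
  · intro m r
    rw [MM]
    split_ifs with h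
    · obtain ⟨h1, h2⟩ := hP m r h.1 h.2.1 h.2.2.1 h.2.2.2
      exact hV m r (fun _ => 1) h.2.2.1 h2 h1
    · exact IsMeagre.empty
  · intro q m r s J D E hpr hs hE hne
    have hcov : ∀ i, IsCov (m i) (fun j => (s i j : ℂ)) (fun _ => 1) := fun i =>
      isCov_one' (hpr i).2.1 (hpr i).2.2.2 (inj_of_mono (hs i).1)
    have hfull : ∀ i, Full (mkCyc (D i) (hE i)) := by
      intro i
      have h1 := (hs i).2
      rw [MM, if_pos (hpr i)] at h1
      by_contra h2
      exact h1 ⟨(hs i).1, fun h3 => h2 (h3 (J i) (hcov i) (D i) (E i) (hE i))⟩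
    let F : Fm q :=
      { T := J
        m := m
        r := r
        D := fun i => mkCyc (D i) (hE i)
        hm := fun i => (hpr i).2.1
        hr := fun i => (hpr i).2.2.1
        hd := fun i => (D i).dim }
    have hap : ∀ i, Aper (F.D i) := fun i =>
      M4.Ap (J i) (m i) (r i) (mkCyc (D i) (hE i)) (fun _ => 1) (hpr i).2.1
        (M4.Pn M4.Sg M.Bas (J i) (m i) (r i) (fun j => (s i j : ℂ)) (fun _ => 1) (hcov i)
          (D i) (mkCyc (D i) (hE i)) rfl)
        (hP (m i) (r i) (hpr i).1 (hpr i).2.1 (hpr i).2.2.1 (hpr i).2.2.2).1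
    exact bigF M hPj M3 F (hS q F (fun i => (hpr i).1) hap hne) hfull

theorem corO (hB : ThmB) (hO : BigO) (hAvg : S_Avg) : CorO := by
  refine ⟨MM, hO.1, ?_⟩
  intro q m r s J hpr hs hne A T N j hA hT d c hc
  have hcov : ∀ i, IsCov (m i) (fun j => (s i j : ℂ)) (fun _ => 1) := fun i =>
    isCov_one' (hpr i).2.1 (hpr i).2.2.2 (inj_of_mono (hs i).1)
  obtain ⟨D⟩ : Nonempty (∀ i, New (J i) (m i) (fun j => (s i j : ℂ)) fun _ => 1) :=
    ⟨fun i => Classical.choice (hs i).2.2⟩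
  choose E hE using fun i => exists_pol hAvg (hcov i) (D i)
  exact hB A T q N J j m r (fun i j => (s i j : ℂ)) (fun _ _ => 1) D E hA hcov hE
    (hO.2 q m r s J D E hpr (fun i => ⟨(hs i).1, (hs i).2.1⟩) hE hne) hT d c hc

end SEB
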