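import Pool.Agent.Lib.SE.Big.VG3
import Pool.Agent.Lib.SE.Big.Asm6

/-!
# PROJECT SE, module IsBig: very general complex branch points, all signatures, assembly (helper64)
-/

set_option autoImplicit false

open Module MeasureTheory

noncomputable section

namespace SEB

open HC HC.E HC.SE

/-- The modules used directly. -/
structure Mods5 : Prop where
  Sg : S_Sg
  Pn : S_Pnew
  Ap : S_Ap
  Bf : S_Bf
  EB : S_EB
  Kap : S_cKap
  N : S_cN
  AI : S_cAI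
  Ba2 : S_cBa2
  Loop : S_cLoop
  Hod : S_cHod
  Hit : S_cHit
  Pm : S_cPm
  So : S_cSo

/-- VERY GENERAL BRANCH POINTS with increasing real parts: `Full`. -/
def FullI : Prop :=
  ∀ (m r : ℕ) (b : Fin (r + 1) → ℕ), 2 ≤ r → HypU m r b → AperC m r b →
    IsMeagre {s : Fin (r + 1) → ℂ | Inc s ∧
      ¬ ∀ T : AV, IsCov m s b → ∀ (N : New T m s b)
        (E : T.V →ₗ[ℝ] T.V →ₗ[ℝ] ℝ) (hE : IsPol T N.Z E), Full (mkCyc N hE)}

/-- VERY GENERAL COMPLEX BRANCH POINTS: `Full`. -/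
def FullC : Prop :=
  ∀ (m r : ℕ) (b : Fin (r + 1) → ℕ), 2 ≤ r → HypU m r b → AperC m r b →
    IsMeagre {s : Fin (r + 1) → ℂ | Function.Injective s ∧
      ¬ ∀ T : AV, IsCov m s b → ∀ (N : New T m s b)
        (E : T.V →ₗ[ℝ] T.V →ₗ[ℝ] ℝ) (hE : IsPol T N.Z E), Full (mkCyc N hE)}

theorem inc_injective {r : ℕ} {s : Fin (r + 1) → ℂ} (hs : Inc s) : Function.Injective s :=
  fun i j h => StrictMono.injective hs (show (s i).re = (s j).re by rw [h])

theorem fullI (M : Mods) (M5 : Mods5) : FullI := by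
  intro m r b hr hu hap
  obtain ⟨u, hum, huc, hp, hq, hpq⟩ := hu
  by_cases hex : ∃ s : Fin (r + 1) → ℂ, Inc s ∧ IsCov m s b
  · obtain ⟨s₀, hs₀, hc₀⟩ := hex
    have hK : ∀ u < m, u.Coprime m → Exq (mu m b u) ∧ ∀ n : ℤ, ∑ j, mu m b u j ≠ n :=
      fun u h1 h2 => ⟨(M5.Kap m r b u s₀ ⟨hs₀, hc₀, h1, h2⟩).2.1,
        (M5.Kap m r b u s₀ ⟨hs₀, hc₀, h1, h2⟩).2.2.1⟩
    have hmN : IsMeagre (⋃ v : {v : ℕ // v < m ∧ v.Coprime m},
        {s : Fin (r + 1) → ℂ | Inc s ∧ ¬ Nj (mu m b v.1) s}) :=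
      isMeagre_iUnion fun v => M5.N r _ (hK v.1 v.2.1 v.2.2).1
    refine (isMeagre_union (isMeagre_union hmN (M5.AI r _ (hK u hum huc).1 (hK u hum huc).2))
      (M5.Ba2 m r b u hp hq hpq)).mono ?_
    rintro s ⟨hs, hno⟩
    by_contra hbad
    rw [Set.mem_union, Set.mem_union, not_or, not_or] at hbad
    obtain ⟨⟨hb0, hb1⟩, hb2⟩ := hbad
    refine hno fun T hc N E hE => ?_
    have hm : 3 ≤ m := hc.1
    have hNj : ∀ v < m, v.Coprime m → Nj (mu m b v) s := by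
      intro v h1 h2
      by_contra h3
      exact hb0 (Set.mem_iUnion.2 ⟨⟨v, h1, h2⟩, hs, h3⟩)
    have hAdm : Admc m b u s := ⟨hs, hc, hum, huc⟩
    have hAI : AInd (fun k : Fin r => Ic (mu m b u) s k fun x => (1 : Polynomial ℂ).eval x) := by
      by_contra h
      exact hb1 ⟨hs, h⟩
    let D : Cyc T m := mkCyc N hE
    obtain ⟨w, hw⟩ := exists_unit hum huc
    obtain ⟨B, hB⟩ := N.dif u hum huc 0 (sum_lt_of_sg_pos hp)
    have hBZ := M5.Bf T m r s b hc N u 0 B hB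
    obtain ⟨v, hv, hvP⟩ := M5.Loop T m r s b hs hc N
    have hBv : ∀ k, B (v k) = Pc m b u s 1 k := by
      refine hvP u hum huc 1 B hBZ ?_
      intro x hx y hy
      rw [hB x hx y hy, pow_zero, Polynomial.eval_one]
    have hBW : (B.restrictScalars ℝ : Frm T) ∈ Ws D w := by
      intro x
      have := hBZ x
      change B (N.Z x) = zet m w * B x
      rw [this, zet, hw]
    have hAI2 : AInd (fun k => (B.restrictScalars ℝ : Frm T) (v k)) := by
      refine AInd.mul hAI fun k => ⟨kap m b u k, ?_, ?_, ?_⟩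
      · exact ((M5.Kap m r b u s hAdm).2.2.2 k).1
      · exact ((M5.Kap m r b u s hAdm).2.2.2 k).2
      · change B (v k) = _
        rw [hBv k, Pc]
    obtain ⟨hinj, hmat⟩ := M5.EB T m r D hm (by omega) N.dim w _ hBW v hv hAI2
    have hHod := M5.Hod T m r s b hs hc hNj N D rfl v hvP
    obtain ⟨hND, hHit⟩ := M5.Hit T m r s b D hs hc hNj (by omega) N.dim v hinj hmat hHod w
    rw [hw] at hND hHit
    have hp' : ∀ u : (ZMod m)ˣ, D.p u = sg m r b (u : ZMod m).val :=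
      M5.Pn M5.Sg M.Bas T m r s b hc N D rfl
    refine full_of_hits M hm hr N.dim (M5.Ap T m r D b hm hp' hap) (s := w) (hHit ?_)
    rintro ⟨g, hg, J, hJ, hJg⟩
    exact hb2 ⟨hAdm, hND, g, hg, J, hJ, hJg⟩
  · have : {s : Fin (r + 1) → ℂ | Inc s ∧
      ¬ ∀ T : AV, IsCov m s b → ∀ (N : New T m s b)
        (E : T.V →ₗ[ℝ] T.V →ₗ[ℝ] ℝ) (hE : IsPol T N.Z E), Full (mkCyc N hE)} = ∅ := by
      refine Set.eq_empty_of_forall_notMem ?_
      rintro s ⟨hs, hno⟩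
      exact hno fun T hc => absurd ⟨s, hs, hc⟩ hex
    rw [this]
    exact IsMeagre.empty

theorem sg_perm (m r : ℕ) (b : Fin (r + 1) → ℕ) (σ : Equiv.Perm (Fin (r + 1))) (u : ℕ) :
    sg m r (b ∘ σ) u = sg m r b u := by
  have h : ∑ j, (u * (b ∘ σ) j) % m = ∑ j, (u * b j) % m :=
    Equiv.sum_comp σ fun j => (u * b j) % m
  rw [sg, sg, h]

theorem hypU_perm {m r : ℕ} {b : Fin (r + 1) → ℕ} (σ : Equiv.Perm (Fin (r + 1)))
    (h : HypU m r b) : HypU m r (b ∘ σ) := by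
  obtain ⟨u, h1, h2, h3, h4, h5⟩ := h
  refine ⟨u, h1, h2, ?_, ?_, ?_⟩
  · rw [sg_perm]; exact h3
  · rw [sg_perm]; exact h4
  · rw [sg_perm, sg_perm]; exact h5

theorem aperC_perm {m r : ℕ} {b : Fin (r + 1) → ℕ} (σ : Equiv.Perm (Fin (r + 1)))
    (h : AperC m r b) : AperC m r (b ∘ σ) := by
  intro g hg hgc hper
  refine h g hg hgc fun u hu huc => ?_
  have := hper u hu huc
  simp only [sg_perm] at this
  exact this

theorem fullC (M5 : Mods5) (hI : FullI) : FullC := by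
  intro m r b hr hu hap
  refine (M5.So r (fun σ => {s : Fin (r + 1) → ℂ | Inc s ∧
      ¬ ∀ T : AV, IsCov m s (b ∘ σ) → ∀ (N : New T m s (b ∘ σ))
        (E : T.V →ₗ[ℝ] T.V →ₗ[ℝ] ℝ) (hE : IsPol T N.Z E), Full (mkCyc N hE)})
    fun σ => hI m r (b ∘ σ) hr (hypU_perm σ hu) (aperC_perm σ hap)).mono ?_
  rintro s ⟨hs, hno⟩ σ hσ
  refine ⟨hσ, fun hall => hno fun T hc N E hE => ?_⟩
  obtain ⟨-, h1, h2⟩ := M5.Pm T m r s b σ
  obtain ⟨N', hN'⟩ := h2 N
  have hE' : IsPol T N'.Z E := by rw [hN']; exact hE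
  have h3 := hall T (h1 hc) N' E hE'
  have h4 : mkCyc N' hE' = mkCyc N hE := by
    unfold mkCyc
    congr
  rw [h4] at h3
  exact h3

/-! ## The curves `y ^ m = f(x)`, `m` odd -/

/-- The meagre sets. -/
def MMc (m r : ℕ) : Set (Fin (r + 1) → ℂ) :=
  open Classical in
  if Odd m ∧ 3 ≤ m ∧ 2 ≤ r ∧ ¬ m ∣ r + 1 then
    {s : Fin (r + 1) → ℂ | Function.Injective s ∧
      ¬ ∀ T : AV, IsCov m s (fun _ => 1) → ∀ (N : New T m s fun _ => 1)
        (E : T.V →ₗ[ℝ] T.V →ₗ[ℝ] ℝ) (hE : IsPol T N.Z E), Full (mkCyc N hE)} else ∅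

/-- All odd `m`, very general complex branch points, in terms of `Big`. -/
def BigOc : Prop :=
  (∀ m r, IsMeagre (MMc m r)) ∧
    ∀ (q : ℕ) (m r : Fin q → ℕ) (s : ∀ i, Fin (r i + 1) → ℂ) (J : Fin q → AV)
      (D : ∀ i, New (J i) (m i) (s i) fun _ => 1)
      (E : ∀ i, (J i).V →ₗ[ℝ] (J i).V →ₗ[ℝ] ℝ),
      (∀ i, Odd (m i) ∧ 3 ≤ m i ∧ 2 ≤ r i ∧ ¬ m i ∣ r i + 1) →
      (∀ i, Function.Injective (s i) ∧ s i ∉ MMc (m i) (r i)) → (∀ i, IsPol (J i) (D i).Z (E i)) →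
      (∀ i j, i ≠ j → (m i, r i) ≠ (m j, r j)) → HC.SE.Big J (fun i => (D i).Z) E

theorem bigOc (M : Mods) (hPj : S_Pj) (M3 : Mods3) (M5 : Mods5) (hV : FullC)
    (hP : S_Pr3) (hS : S_Sep3) : BigOc := by
  classical
  refine ⟨?_, ?_⟩
  · intro m r
    rw [MMc]
    split_ifs with h
    · obtain ⟨h1, h2⟩ := hP m r h.1 h.2.1 h.2.2.1 h.2.2.2
      exact hV m r (fun _ => 1) h.2.2.1 h2 h1
    · exact IsMeagre.empty
  · intro q m r s J D E hpr hs hE hne
    have hcov : ∀ i, IsCov (m i) (s i) (fun _ => 1) := fun i =>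
      isCov_one' (hpr i).2.1 (hpr i).2.2.2 (hs i).1
    have hfull : ∀ i, Full (mkCyc (D i) (hE i)) := by
      intro i
      have h1 := (hs i).2
      rw [MMc, if_pos (hpr i)] at h1
      by_contra h2
      exact h1 ⟨(hs i).1, fun h3 => h2 (h3 (J i) (hcov i) (D i) (E i) (hE i))⟩
    let F : Fm q :=
      { T := J
        m := m
        r := r
        D := fun i => mkCyc (D i) (hE i)
        hm := fun i => (hpr i).2.1
        hr := fun i => (hpr i).2.2.1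
        hd := fun i => (D i).dim }
    have hap : ∀ i, Aper (F.D i) := fun i =>
      M5.Ap (J i) (m i) (r i) (mkCyc (D i) (hE i)) (fun _ => 1) (hpr i).2.1
        (M5.Pn M5.Sg M.Bas (J i) (m i) (r i) (s i) (fun _ => 1) (hcov i)
          (D i) (mkCyc (D i) (hE i)) rfl)
        (hP (m i) (r i) (hpr i).1 (hpr i).2.1 (hpr i).2.2.1 (hpr i).2.2.2).1
    exact bigF M hPj M3 F (hS q F (fun i => (hpr i).1) hap hne) hfull

/-- THEOREM VG for complex branch points, all odd `m`. For every odd `m ≥ 3` and every `n = r + 1 ≥ 3`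
with `m ∤ n` there is a meagre set `𝓜 (m, r)` in `ℂ^n` such that, for the new parts `J_i` of the
Jacobians of `y ^ (m_i) = ∏_j (x - s_(i,j))` with distinct roots, `s_i` not in `𝓜`, and pairwise different
`(m_i, r_i)`, the Hodge conjecture holds for every abelian variety isogenous to a product of an
abelian variety of CM type and powers of the `J_i`. -/
def CorOc : Prop :=
  ∃ 𝓜 : ∀ _ r : ℕ, Set (Fin (r + 1) → ℂ), (∀ m r, IsMeagre (𝓜 m r)) ∧
    ∀ (q : ℕ) (m r : Fin q → ℕ) (s : ∀ i, Fin (r i + 1) → ℂ) (J : Fin q → AV),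
      (∀ i, Odd (m i) ∧ 3 ≤ m i ∧ 2 ≤ r i ∧ ¬ m i ∣ r i + 1) →
      (∀ i, Function.Injective (s i) ∧ s i ∉ 𝓜 (m i) (r i) ∧
        Nonempty (New (J i) (m i) (s i) fun _ => 1)) →
      (∀ i j, i ≠ j → (m i, r i) ≠ (m j, r j)) → ∀ (A T : AV) (N : ℕ) (j : Fin N → Fin q),
      IsCM A → IsProdE T A (fun n => J (j n)) →
      ∀ (d : ℕ) (c : Hlg T d), IsHodge T d c → Alg2 T d c

theorem corOc (hB : ThmB) (hO : BigOc) (hAvg : S_Avg) : CorOc := by
  refine ⟨MMc, hO.1, ?_⟩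
  intro q m r s J hpr hs hne A T N j hA hT d c hc
  have hcov : ∀ i, IsCov (m i) (s i) (fun _ => 1) := fun i =>
    isCov_one' (hpr i).2.1 (hpr i).2.2.2 (hs i).1
  obtain ⟨D⟩ : Nonempty (∀ i, New (J i) (m i) (s i) fun _ => 1) :=
    ⟨fun i => Classical.choice (hs i).2.2⟩
  choose E hE using fun i => exists_pol hAvg (hcov i) (D i)
  exact hB A T q N J j m r s (fun _ _ => 1) D E hA hcov hE
    (hO.2 q m r s J D E hpr (fun i => ⟨(hs i).1, (hs i).2.1⟩) hE hne) hT d c hc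

end SEB
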