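import Pool.Agent.Lib.SE.Big.Spec

/-!
# PROJECT SE, module IsBig: all of `sl` at the character with one holomorphic form (S_At0)
-/

set_option autoImplicit false

open Module

noncomputable section

namespace SEB

open HC HC.E

namespace At0_aux

variable {T : AV} {m : ℕ}

theorem pre_mul (X Y : Module.End ℝ T.V) : pre (X * Y) = pre Y * pre X := rfl

theorem pre_sub (X Y : Module.End ℝ T.V) : pre (X - Y) = pre X - pre Y := by
  ext a v
  show a (X v - Y v) = a (X v) - a (Y v)
  exact map_sub a _ _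

theorem pre_add (X Y : Module.End ℝ T.V) : pre (X + Y) = pre X + pre Y := by
  ext a v
  show a (X v + Y v) = a (X v) + a (Y v)
  exact map_add a _ _

theorem pre_zero : pre (0 : Module.End ℝ T.V) = 0 := by
  ext a v
  show a 0 = 0
  exact map_zero a

theorem pre_smul (r : ℝ) (X : Module.End ℝ T.V) : pre (r • X) = (r : ℂ) • pre X := by
  ext a v
  show a (r • X v) = (r : ℂ) * a (X v)
  rw [map_smul, Complex.real_smul]

/-- Commutators of complex combinations. -/
theorem com_mem (h : Set (Module.End ℝ T.V)) (A B : Module.End ℂ (Frm T))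
    (hA : A ∈ Submodule.span ℂ (pre '' h)) (hB : B ∈ Submodule.span ℂ (pre '' h)) :
    A * B - B * A ∈ gg h := by
  induction hA using Submodule.span_induction with
  | mem A hA =>
    obtain ⟨X, hX, rfl⟩ := hA
    induction hB using Submodule.span_induction with
    | mem B hB =>
      obtain ⟨Y, hY, rfl⟩ := hB
      rw [← pre_mul, ← pre_mul, ← pre_sub]
      exact Submodule.subset_span ⟨_, ⟨Y, hY, X, hX, rfl⟩, rfl⟩
    | zero =>
      rw [mul_zero, zero_mul, sub_zero]
      exact zero_mem _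
    | add B B' _ _ h1 h2 =>
      have : pre X * (B + B') - (B + B') * pre X =
          (pre X * B - B * pre X) + (pre X * B' - B' * pre X) := by
        rw [mul_add, add_mul]
        abel
      rw [this]
      exact add_mem h1 h2
    | smul c B _ h1 =>
      have : pre X * (c • B) - (c • B) * pre X = c • (pre X * B - B * pre X) := by
        rw [mul_smul_comm, smul_mul_assoc, smul_sub]
      rw [this]
      exact Submodule.smul_mem _ _ h1
  | zero =>
    rw [mul_zero, zero_mul, sub_zero]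
    exact zero_mem _
  | add A A' _ _ h1 h2 =>
    have : (A + A') * B - B * (A + A') = (A * B - B * A) + (A' * B - B * A') := by
      rw [mul_add, add_mul]
      abel
    rw [this]
    exact add_mem h1 h2
  | smul c A _ h1 =>
    have : (c • A) * B - B * (c • A) = c • (A * B - B * A) := by
      rw [mul_smul_comm, smul_mul_assoc, smul_sub]
    rw [this]
    exact Submodule.smul_mem _ _ h1

theorem gg_le {D : Cyc T m} {h : Set (Module.End ℝ T.V)} (hh : HLie D h) :
    gg h ≤ Submodule.span ℂ (pre '' h) := by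
  refine Submodule.span_mono ?_
  rintro _ ⟨Y, ⟨X, hX, X', hX', rfl⟩, rfl⟩
  exact ⟨_, hh.lie.br X hX X' hX', rfl⟩

/-- `pre` of a real combination. -/
theorem pre_span (h : Set (Module.End ℝ T.V)) (X : Module.End ℝ T.V)
    (hX : X ∈ Submodule.span ℝ h) : pre X ∈ Submodule.span ℂ (pre '' h) := by
  induction hX using Submodule.span_induction with
  | mem X hX => exact Submodule.subset_span ⟨X, hX, rfl⟩
  | zero =>
    rw [pre_zero]
    exact zero_mem _
  | add X Y _ _ h1 h2 =>
    rw [pre_add]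
    exact add_mem h1 h2
  | smul r X _ h1 =>
    rw [pre_smul]
    exact Submodule.smul_mem _ _ h1

/-- The restrictions of the elements of `S` to `W`. -/
def res (S : Submodule ℂ (Module.End ℂ (Frm T))) (W : Submodule ℂ (Frm T)) :
    Submodule ℂ (Module.End ℂ W) where
  carrier := {B | ∃ C ∈ S, ∀ a : W, C (a : Frm T) = (B a : Frm T)}
  add_mem' := by
    rintro B B' ⟨C, hC, h1⟩ ⟨C', hC', h2⟩
    refine ⟨C + C', add_mem hC hC', fun a => ?_⟩
    rw [LinearMap.add_apply, LinearMap.add_apply, h1, h2]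
    rfl
  zero_mem' := ⟨0, zero_mem _, fun _ => rfl⟩
  smul_mem' := by
    rintro c B ⟨C, hC, h1⟩
    refine ⟨c • C, Submodule.smul_mem _ _ hC, fun a => ?_⟩
    rw [LinearMap.smul_apply, LinearMap.smul_apply, h1]
    rfl

theorem fin_frm (T : AV) : FiniteDimensional ℂ (Frm T) := by
  have h2 : Module.Finite ℝ T.V := Module.Finite.trans ℂ T.V
  exact Module.Finite.linearMap ℝ ℂ T.V ℂ

/-- The restriction of a commutator. -/
theorem res_com {W : Submodule ℂ (Frm T)} {B B' : Module.End ℂ W} {C C' : Module.End ℂ (Frm T)}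
    (h1 : ∀ a : W, C (a : Frm T) = (B a : Frm T)) (h2 : ∀ a : W, C' (a : Frm T) = (B' a : Frm T))
    (a : W) : (C * C' - C' * C) (a : Frm T) = ((B * B' - B' * B) a : Frm T) := by
  show C (C' (a : Frm T)) - C' (C (a : Frm T)) = (B (B' a) : Frm T) - (B' (B a) : Frm T)
  rw [h1 a, h2 a, h1, h2]

end At0_aux

open At0_aux in
/-- AT THE CHARACTER `s` WITH `p s = 1`. -/
theorem tAt0 : S_At0 := by
  intro hBas hJ0 hL1 T m D hm h hh s hs hirr A hA
  obtain ⟨_, _, hst, _, _⟩ := hBas T m D hm
  obtain ⟨φ, v, hφ, hJ⟩ := hJ0 T m D hm s hs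
  have := fin_frm T
  have hfd : FiniteDimensional ℂ (Ws D s) := inferInstance
  set g : Submodule ℂ (Module.End ℂ (Ws D s)) := res (Submodule.span ℂ (pre '' h)) (Ws D s) with hg
  have hcl : ∀ X ∈ g, ∀ Y ∈ g, X * Y - Y * X ∈ g := by
    rintro X ⟨C, hC, h1⟩ Y ⟨C', hC', h2⟩
    exact ⟨C * C' - C' * C, gg_le hh (com_mem h C C' hC hC'), res_com h1 h2⟩
  have hres : ∀ X ∈ h, ∀ a ∈ Ws D s, pre X a ∈ Ws D s := fun X hX a ha =>
    hst X (hh.u X hX).1 s a ha
  have hmem : ∀ (X : Module.End ℝ T.V) (hX : X ∈ h), ((pre X).restrict (hres X hX)) ∈ g :=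
    fun X hX => ⟨pre X, Submodule.subset_span ⟨X, hX, rfl⟩, fun a => rfl⟩
  have hirr' : ∀ U : Submodule ℂ (Ws D s), (∀ X ∈ g, ∀ u ∈ U, X u ∈ U) → U = ⊥ ∨ U = ⊤ := by
    intro U hU
    have h1 : U.map (Ws D s).subtype ≤ Ws D s := Submodule.map_subtype_le _ _
    have h2 : ∀ X ∈ h, ∀ a ∈ U.map (Ws D s).subtype, pre X a ∈ U.map (Ws D s).subtype := by
      rintro X hX _ ⟨u, hu, rfl⟩
      exact ⟨_, hU _ (hmem X hX) u hu, rfl⟩
    rcases hirr _ h1 h2 with h3 | h3
    · left
      rw [eq_bot_iff]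
      intro u hu
      have h4 : (u : Frm T) ∈ U.map (Ws D s).subtype := ⟨u, hu, rfl⟩
      rw [h3, Submodule.mem_bot] at h4
      rw [Submodule.mem_bot]
      exact Subtype.ext h4
    · right
      rw [eq_top_iff]
      intro u _
      have h4 : (u : Frm T) ∈ U.map (Ws D s).subtype := by
        rw [h3]
        exact u.2
      obtain ⟨u', hu', h5⟩ := h4
      have h6 : u' = u := Subtype.ext h5
      rw [← h6]
      exact hu'
  have hel : (-Complex.I) • (1 : Module.End ℂ (Ws D s)) + (2 * Complex.I) • (φ.smulRight v) ∈ g := by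
    refine ⟨pre (mulI T), pre_span h _ hh.J, fun a => ?_⟩
    rw [hJ a, LinearMap.add_apply, LinearMap.smul_apply, LinearMap.smul_apply, Module.End.one_apply,
      LinearMap.smulRight_apply, smul_smul]
    rfl
  have key := hL1 (Ws D s) g (-Complex.I) (2 * Complex.I) φ v hcl
    (mul_ne_zero two_ne_zero Complex.I_ne_zero) hφ hel hirr' (A s) (hA s)
  have hle : Submodule.span ℂ {Y | ∃ A ∈ g, ∃ B ∈ g, Y = A * B - B * A} ≤
      res (gg h) (Ws D s) := by
    rw [Submodule.span_le]
    rintro _ ⟨X, ⟨C, hC, h1⟩, Y, ⟨C', hC', h2⟩, rfl⟩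
    exact ⟨C * C' - C' * C, com_mem h C C' hC hC', res_com h1 h2⟩
  obtain ⟨C, hC, h1⟩ := hle key
  refine ⟨C, hC, fun t ht a => ?_⟩
  rw [Set.mem_singleton_iff] at ht
  subst ht
  exact h1 a

end SEB
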