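import Pool.Agent.Lib.SE.Big.VG

/-!
# PROJECT SE, module IsBig, part 2: independent periods, commutant `ℚ(Z)`
-/

set_option autoImplicit false

open Module

noncomputable section

namespace SEB

open HC HC.E HC.SE

namespace Per_aux

variable {T : AV} {m r : ℕ}

theorem prim (hm : 0 < m) (u : (ZMod m)ˣ) : IsPrimitiveRoot (zet m u) m :=
  have : NeZero m := ⟨hm.ne'⟩
  (Complex.isPrimitiveRoot_exp m hm.ne').pow_of_coprime _ (ZMod.val_coe_unit_coprime u)

theorem B_pow {D : Cyc T m} {u : (ZMod m)ˣ} {B : Frm T} (hB : B ∈ Ws D u) (i : ℕ) (w : T.V) :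
    B ((D.Z ^ i) w) = zet m u ^ i * B w := by
  induction i generalizing w with
  | zero => rw [pow_zero, pow_zero, one_mul]; rfl
  | succ i ih => rw [pow_succ, Module.End.mul_apply, ih, hB w, pow_succ, mul_assoc]

theorem B_aeval {D : Cyc T m} {u : (ZMod m)ˣ} {B : Frm T} (hB : B ∈ Ws D u) (a : Polynomial ℤ)
    (w : T.V) : B ((Polynomial.aeval D.Z a) w) = Polynomial.aeval (zet m u) a * B w := by
  rw [Polynomial.aeval_eq_sum_range, Polynomial.aeval_eq_sum_range, LinearMap.sum_apply, map_sum,
    Finset.sum_mul]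
  refine Finset.sum_congr rfl fun i _ => ?_
  rw [LinearMap.smul_apply, map_zsmul, B_pow hB, smul_mul_assoc]

theorem dvd_of_root (hm : 0 < m) (u : (ZMod m)ˣ) (a : Polynomial ℤ)
    (h : Polynomial.aeval (zet m u) a = 0) : Polynomial.cyclotomic m ℤ ∣ a := by
  rw [Polynomial.cyclotomic_eq_minpoly (prim hm u) hm]
  exact minpoly.isIntegrallyClosed_dvd ((prim hm u).isIntegral hm) h

theorem aeval_zero (hm : 0 < m) (D : Cyc T m) (u : (ZMod m)ˣ) (a : Polynomial ℤ)
    (h : Polynomial.aeval (zet m u) a = 0) : Polynomial.aeval D.Z a = 0 := by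
  obtain ⟨b, rfl⟩ := dvd_of_root hm u a h
  rw [map_mul, D.cyc, zero_mul]

theorem low_zero (hm : 0 < m) (u : (ZMod m)ˣ) (g : Fin m.totient → ℤ)
    (h : ∑ i, (g i : ℂ) * zet m u ^ (i : ℕ) = 0) : ∀ i, g i = 0 := by
  have ha : Polynomial.aeval (zet m u)
      (∑ i : Fin m.totient, Polynomial.C (g i) * Polynomial.X ^ (i : ℕ)) = 0 := by
    rw [map_sum, ← h]
    refine Finset.sum_congr rfl fun i _ => ?_
    rw [map_mul, map_pow, Polynomial.aeval_X, Polynomial.aeval_C]
    rfl
  have hd := dvd_of_root hm u _ ha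
  have hdeg : (∑ i : Fin m.totient, Polynomial.C (g i) * Polynomial.X ^ (i : ℕ)).degree <
      (Polynomial.cyclotomic m ℤ).degree := by
    rw [Polynomial.degree_cyclotomic]
    exact Polynomial.degree_sum_fin_lt g
  have h0 := Polynomial.eq_zero_of_dvd_of_degree_lt hd hdeg
  intro i
  have h1 := congrArg (fun p => Polynomial.coeff p (i : ℕ)) h0
  simp only [Polynomial.finsetSum_coeff, Polynomial.coeff_C_mul_X_pow, Polynomial.coeff_zero] at h1
  rw [Finset.sum_eq_single i] at h1
  · simpa using h1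
  · intro j _ hj
    rw [if_neg]
    intro h2
    exact hj (Fin.ext h2.symm)
  · intro h2
    exact absurd (Finset.mem_univ i) h2

/-- The coefficients are algebraic. -/
theorem alg_aeval (hm : 0 < m) (u : (ZMod m)ˣ) (a : Polynomial ℤ) :
    Polynomial.aeval (zet m u) a ∈ integralClosure ℚ ℂ := by
  have hz : zet m u ∈ integralClosure ℚ ℂ := ((prim hm u).isIntegral hm).tower_top
  rw [Polynomial.aeval_eq_sum_range]
  exact sum_mem fun i _ => zsmul_mem (pow_mem hz i) _

/-- The elements `Z^i v_k` of the lattice. -/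
def wL (D : Cyc T m) (v : Fin r → T.V) (hv : ∀ k, v k ∈ T.L) (q : Fin m.totient × Fin r) : T.L :=
  ⟨(D.Z ^ (q.1 : ℕ)) (v q.2), by
    have h : ∀ i : ℕ, (D.Z ^ i) (v q.2) ∈ T.L := by
      intro i
      induction i with
      | zero => rw [pow_zero]; exact hv q.2
      | succ i ih => rw [pow_succ', Module.End.mul_apply]; exact D.lat _ ih
    exact h _⟩

theorem wL_sum (D : Cyc T m) (v : Fin r → T.V) (hv : ∀ k, v k ∈ T.L)
    (g : Fin m.totient × Fin r → ℤ) :
    ((∑ q, g q • wL D v hv q : T.L) : T.V) = ∑ k, (Polynomial.aeval D.Z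
      (∑ i : Fin m.totient, Polynomial.C (g (i, k)) * Polynomial.X ^ (i : ℕ))) (v k) := by
  rw [Submodule.coe_sum, Fintype.sum_prod_type_right]
  refine Finset.sum_congr rfl fun k _ => ?_
  rw [map_sum, LinearMap.sum_apply]
  refine Finset.sum_congr rfl fun i _ => ?_
  rw [map_mul, map_pow, Polynomial.aeval_X, Polynomial.aeval_C, Submodule.coe_smul,
    Module.End.mul_apply]
  change g (i, k) • (D.Z ^ (i : ℕ)) (v k) = _
  rw [algebraMap_int_eq, eq_intCast, Module.End.intCast_apply]

theorem wL_indep (hm : 0 < m) (D : Cyc T m) (u : (ZMod m)ˣ) (B : Frm T) (hB : B ∈ Ws D u)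
    (v : Fin r → T.V) (hv : ∀ k, v k ∈ T.L) (hA : AInd (fun k => B (v k))) :
    LinearIndependent ℤ (wL D v hv) := by
  rw [Fintype.linearIndependent_iff]
  intro g hg
  have h1 := wL_sum D v hv g
  rw [hg] at h1
  have h2 := congrArg B h1
  rw [map_sum, Submodule.coe_zero, map_zero] at h2
  have h3 := hA (fun k => Polynomial.aeval (zet m u)
      (∑ i : Fin m.totient, Polynomial.C (g (i, k)) * Polynomial.X ^ (i : ℕ)))
    (fun k => (alg_aeval hm u _).isAlgebraic) (by
      rw [h2]
      refine Finset.sum_congr rfl fun k _ => ?_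
      rw [B_aeval hB])
  rintro ⟨i, k⟩
  refine low_zero hm u (fun i => g (i, k)) ?_ i
  have h4 := congrFun h3 k
  simp only [map_sum, map_mul, map_pow, Polynomial.aeval_X, Polynomial.aeval_C, Pi.zero_apply]
    at h4
  rw [← h4]
  rfl

/-- Every element of the lattice is in the rational span. -/
theorem in_span (hm : 0 < m) (D : Cyc T m) (u : (ZMod m)ˣ) (B : Frm T) (hB : B ∈ Ws D u)
    (v : Fin r → T.V) (hv : ∀ k, v k ∈ T.L) (hA : AInd (fun k => B (v k)))
    (hd : 2 * finrank ℂ T.V = r * Nat.totient m) (y : T.V) (hy : y ∈ T.L) :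
    ∃ N : ℤ, N ≠ 0 ∧ ∃ a : Fin r → Polynomial ℤ,
      N • y = ∑ k, (Polynomial.aeval D.Z (a k)) (v k) := by
  have : Module.Free ℤ T.L := ZLattice.module_free ℝ T.L
  have : Module.Finite ℤ T.L := ZLattice.module_finite ℝ T.L
  have hI := wL_indep hm D u B hB v hv hA
  let f : Option (Fin m.totient × Fin r) → T.L := fun o => o.elim ⟨y, hy⟩ (wL D v hv)
  have hf : ¬ LinearIndependent ℤ f := by
    intro h
    have h1 := h.fintype_card_le_finrank
    rw [Fintype.card_option, Fintype.card_prod, Fintype.card_fin, Fintype.card_fin,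
      ZLattice.rank ℝ T.L, finrank_real_of_complex, hd, mul_comm] at h1
    omega
  rw [Fintype.not_linearIndependent_iff] at hf
  obtain ⟨g, hg, o, ho⟩ := hf
  rw [Fintype.sum_option] at hg
  have hn : g none ≠ 0 := by
    intro h0
    rw [h0, zero_smul, zero_add] at hg
    have h1 := Fintype.linearIndependent_iff.1 hI (fun q => g (some q)) hg
    cases o with
    | none => exact ho h0
    | some q => exact ho (h1 q)
  refine ⟨g none, hn, fun k => - ∑ i : Fin m.totient,
    Polynomial.C (g (some (i, k))) * Polynomial.X ^ (i : ℕ), ?_⟩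
  have h2 := wL_sum D v hv fun q => g (some q)
  have h3 : g none • (⟨y, hy⟩ : T.L) = - ∑ q, g (some q) • wL D v hv q :=
    eq_neg_of_add_eq_zero_left hg
  have h4 := congrArg (fun w : T.L => (w : T.V)) h3
  simp only [Submodule.coe_smul, Submodule.coe_neg] at h4
  rw [h4, h2, ← Finset.sum_neg_distrib]
  refine Finset.sum_congr rfl fun k _ => ?_
  rw [map_neg, LinearMap.neg_apply]

theorem ZR_pow (D : Cyc T m) (i : ℕ) (w : T.V) : (D.ZR ^ i) w = (D.Z ^ i) w := by
  induction i generalizing w with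
  | zero => rw [pow_zero, pow_zero]; rfl
  | succ i ih =>
    rw [pow_succ, Module.End.mul_apply, ih, pow_succ, Module.End.mul_apply]
    rfl

/-- An eigenvalue of a matrix of algebraic numbers with independent coordinates is algebraic. -/
theorem lam_alg (x : Fin r → ℂ) (hx : ∃ k, x k ≠ 0) (c : Fin r → Fin r → ℂ)
    (hc : ∀ k j, c k j ∈ integralClosure ℚ ℂ) (lam : ℂ) (h : ∀ k, lam * x k = ∑ j, c k j * x j) :
    IsIntegral ℚ lam := by
  let K : Subalgebra ℚ ℂ := integralClosure ℚ ℂ
  let W : Submodule K ℂ := Submodule.span K (Set.range x)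
  have h1 : IsIntegral K lam := by
    refine isIntegral_of_smul_mem_submodule W ?_ ?_ lam ?_
    · obtain ⟨k, hk⟩ := hx
      intro h0
      have h2 : x k ∈ W := Submodule.subset_span ⟨k, rfl⟩
      rw [h0, Submodule.mem_bot] at h2
      exact hk h2
    · exact Submodule.fg_span (Set.finite_range x)
    · intro n hn
      induction hn using Submodule.span_induction with
      | mem y hy =>
        obtain ⟨k, rfl⟩ := hy
        rw [smul_eq_mul, h k]
        refine sum_mem fun j _ => ?_
        exact Submodule.smul_mem W (⟨c k j, hc k j⟩ : K) (Submodule.subset_span ⟨j, rfl⟩)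
      | zero => rw [smul_zero]; exact zero_mem _
      | add y z _ _ hy hz => rw [smul_add]; exact add_mem hy hz
      | smul a y _ hy =>
        rw [smul_comm]
        exact Submodule.smul_mem W a hy
  exact isIntegral_trans (R := ℚ) (A := K) lam h1

end Per_aux

open Per_aux in
theorem tPer : S_Per := by
  intro _ T m r D hm3 hr hd u hp B hB v hv hA X hX hXZ hXI
  have hm : 0 < m := by omega
  have hBW : B ∈ Ws D u := hB.1
  -- `X` commutes with the polynomials in `Z`
  have hXp : ∀ (i : ℕ) (w : T.V), X ((D.Z ^ i) w) = (D.Z ^ i) (X w) := by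
    intro i
    induction i with
    | zero => intro w; rfl
    | succ i ih =>
      intro w
      rw [pow_succ, Module.End.mul_apply, ih, hXZ, Module.End.mul_apply]
  have hXa : ∀ (p : Polynomial ℤ) (w : T.V),
      X (Polynomial.aeval D.Z p w) = Polynomial.aeval D.Z p (X w) := by
    intro p w
    rw [Polynomial.aeval_eq_sum_range, LinearMap.sum_apply, LinearMap.sum_apply, map_sum]
    refine Finset.sum_congr rfl fun i _ => ?_
    rw [LinearMap.smul_apply, LinearMap.smul_apply, map_zsmul, hXp]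
  -- the eigenvalue
  let k0 : Fin r := ⟨0, hr⟩
  have hx0 : ∃ k, B (v k) ≠ 0 := by
    by_contra h
    push Not at h
    have h1 := hA (fun _ => 1) (fun _ => isAlgebraic_one)
      (Finset.sum_eq_zero fun k _ => by
        show (1 : ℂ) * B (v k) = 0
        rw [h k, mul_zero])
    exact one_ne_zero (congrFun h1 k0)
  have hB0 : (⟨B, hB⟩ : Ws10 D u) ≠ 0 := by
    intro h
    obtain ⟨k, hk⟩ := hx0
    have h1 : B = 0 := congrArg Subtype.val h
    exact hk (by rw [h1, LinearMap.zero_apply])
  have hBX : pre X B ∈ Ws10 D u := by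
    refine ⟨fun w => ?_, fun w => ?_⟩
    · change B (X (D.Z w)) = zet m u * B (X w)
      rw [hXZ, hBW]
    · change B (X (Complex.I • w)) = Complex.I * B (X w)
      rw [hXI, hB.2]
  obtain ⟨lam, hlam⟩ := (finrank_eq_one_iff_of_nonzero' (⟨B, hB⟩ : Ws10 D u) hB0).1 hp ⟨_, hBX⟩
  have hl : ∀ w, B (X w) = lam * B w := by
    intro w
    have h1 := congrArg Subtype.val hlam
    exact (LinearMap.congr_fun h1 w).symm
  -- the matrix of `X`
  have hk : ∀ k, ∃ N : ℤ, N ≠ 0 ∧ ∃ a : Fin r → Polynomial ℤ,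
      N • X (v k) = ∑ j, (Polynomial.aeval D.Z (a j)) (v j) := by
    intro k
    obtain ⟨N1, hN1, h1⟩ := hX (v k) (hv k)
    obtain ⟨N2, hN2, a, ha⟩ := in_span hm D u B hBW v hv hA hd _ h1
    refine ⟨N2 * N1, mul_ne_zero hN2 (by exact_mod_cast hN1), a, ?_⟩
    rw [← ha, mul_smul, natCast_zsmul]
  choose N hN a ha using hk
  have hrel : ∀ k, (N k : ℂ) * (lam * B (v k)) =
      ∑ j, Polynomial.aeval (zet m u) (a k j) * B (v j) := by
    intro k
    have h1 := congrArg B (ha k)
    rw [map_zsmul, hl, map_sum, zsmul_eq_mul] at h1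
    rw [h1]
    exact Finset.sum_congr rfl fun j _ => B_aeval hBW _ _
  have hNC : ∀ k, (N k : ℂ) ≠ 0 := fun k => by exact_mod_cast hN k
  have hNI : ∀ k, IsIntegral ℚ (N k : ℂ) := fun k => by
    have h1 := isIntegral_algebraMap (R := ℚ) (A := ℂ) (x := (N k : ℚ))
    rwa [map_intCast] at h1
  have hint : IsIntegral ℚ lam := by
    refine lam_alg (fun k => B (v k)) hx0
      (fun k j => (N k : ℂ)⁻¹ * Polynomial.aeval (zet m u) (a k j)) ?_ lam ?_
    · intro k j
      refine mul_mem ?_ (alg_aeval hm u _)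
      have h1 : (N k : ℂ)⁻¹ = algebraMap ℚ ℂ ((N k : ℚ)⁻¹) := by
        rw [map_inv₀, map_intCast]
      rw [h1]
      exact Subalgebra.algebraMap_mem _ _
    · intro k
      have h1 := hrel k
      simp_rw [mul_assoc]
      rw [← Finset.mul_sum, ← h1, ← mul_assoc, inv_mul_cancel₀ (hNC k), one_mul]
  have h5 : ∀ k j, Polynomial.aeval (zet m u) (a k j) = if j = k then (N k : ℂ) * lam else 0 := by
    intro k
    have h1 := hA (fun j => Polynomial.aeval (zet m u) (a k j) -
        if j = k then (N k : ℂ) * lam else 0) (fun j => by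
          refine (((alg_aeval hm u (a k j) : IsIntegral ℚ _)).sub ?_).isAlgebraic
          split_ifs
          · exact (hNI k).mul hint
          · exact isIntegral_zero) (by
          simp_rw [sub_mul, Finset.sum_sub_distrib, ite_mul, zero_mul]
          rw [Finset.sum_ite_eq' Finset.univ k, if_pos (Finset.mem_univ k), ← hrel k]
          ring)
    intro j
    exact sub_eq_zero.1 (congrFun h1 j)
  have h6 : ∀ k, N k • X (v k) = (Polynomial.aeval D.Z (a k k)) (v k) := by
    intro k
    rw [ha k, Finset.sum_eq_single k]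
    · intro j _ hj
      have h1 := h5 k j
      rw [if_neg hj] at h1
      rw [aeval_zero hm D u _ h1, LinearMap.zero_apply]
    · intro h
      exact absurd (Finset.mem_univ k) h
  -- all diagonal entries are the same
  set b := a k0 k0 with hb
  set M := N k0 with hM
  have h7 : ∀ k, M • X (v k) = (Polynomial.aeval D.Z b) (v k) := by
    intro k
    have h1 : Polynomial.aeval (zet m u)
        (Polynomial.C (N k) * b - Polynomial.C M * a k k) = 0 := by
      rw [map_sub, map_mul, map_mul, Polynomial.aeval_C, Polynomial.aeval_C, h5 k k, hb, h5 k0 k0,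
        if_pos rfl, if_pos rfl, algebraMap_int_eq, eq_intCast, eq_intCast]
      ring
    have h2 := LinearMap.congr_fun (aeval_zero hm D u _ h1) (v k)
    rw [map_sub, map_mul, map_mul, Polynomial.aeval_C, Polynomial.aeval_C, algebraMap_int_eq,
      eq_intCast, eq_intCast, LinearMap.sub_apply, Module.End.mul_apply, Module.End.mul_apply,
      Module.End.intCast_apply, Module.End.intCast_apply, LinearMap.zero_apply, sub_eq_zero,
      ← h6 k, smul_comm] at h2
    have h3 : (N k : ℝ) ≠ 0 := by exact_mod_cast hN k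
    have h4 : (N k : ℝ) • (M • X (v k) - (Polynomial.aeval D.Z b) (v k)) = 0 := by
      rw [Int.cast_smul_eq_zsmul, smul_sub, h2, sub_self]
    exact sub_eq_zero.1 ((smul_eq_zero.1 h4).resolve_left h3)
  -- everywhere
  have h8 : ∀ y ∈ T.L, M • X y = (Polynomial.aeval D.Z b) y := by
    intro y hy
    obtain ⟨N', hN', c, hc⟩ := in_span hm D u B hBW v hv hA hd y hy
    have h3 : (N' : ℝ) ≠ 0 := by exact_mod_cast hN'
    have e1 : N' • (M • X y) = M • X (N' • y) := by rw [map_zsmul, smul_comm]
    have e2 : N' • (Polynomial.aeval D.Z b) y = (Polynomial.aeval D.Z b) (N' • y) :=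
      (map_zsmul _ _ _).symm
    have h4 : (N' : ℝ) • (M • X y - (Polynomial.aeval D.Z b) y) = 0 := by
      rw [Int.cast_smul_eq_zsmul, smul_sub, e1, e2, hc, map_sum, map_sum, Finset.smul_sum,
        ← Finset.sum_sub_distrib]
      refine Finset.sum_eq_zero fun k _ => ?_
      rw [hXa, ← map_zsmul, h7, ← Module.End.mul_apply, ← Module.End.mul_apply, ← map_mul,
        ← map_mul, mul_comm, sub_self]
    exact sub_eq_zero.1 ((smul_eq_zero.1 h4).resolve_left h3)
  have h9 : (M : ℝ) • X = ((Polynomial.aeval D.Z b).restrictScalars ℝ : Module.End ℝ T.V) := by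
    refine LinearMap.ext_on (IsZLattice.span_top (K := ℝ) (L := T.L)) fun y hy => ?_
    rw [LinearMap.smul_apply, Int.cast_smul_eq_zsmul]
    exact h8 y hy
  have hM0 : (M : ℝ) ≠ 0 := by exact_mod_cast hN k0
  have h10 : X = ∑ i ∈ Finset.range (b.natDegree + 1),
      ((M : ℝ)⁻¹ * (b.coeff i : ℝ)) • D.ZR ^ i := by
    refine LinearMap.ext fun w => ?_
    have h1 : (M : ℝ) • X w = (Polynomial.aeval D.Z b) w := LinearMap.congr_fun h9 w
    have h2 : X w = (M : ℝ)⁻¹ • (Polynomial.aeval D.Z b) w := by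
      rw [← h1, smul_smul, inv_mul_cancel₀ hM0, one_smul]
    rw [h2, Polynomial.aeval_eq_sum_range, LinearMap.sum_apply, LinearMap.sum_apply,
      Finset.smul_sum]
    refine Finset.sum_congr rfl fun i _ => ?_
    rw [LinearMap.smul_apply, LinearMap.smul_apply, ZR_pow, mul_smul, Int.cast_smul_eq_zsmul]
  rw [h10]
  exact sum_mem fun i _ => Submodule.smul_mem _ _ (Submodule.subset_span ⟨i, rfl⟩)

end SEB
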