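import Pool.Agent.Lib.SE.Big.Fam3

/-!
# PROJECT SE, module IsBig: the signatures of `y ^ m = f(x)`, `m` odd (helper52)
-/

set_option autoImplicit false

noncomputable section

namespace SEB

open HC HC.E HC.SE

namespace Pr3_aux

/-- no integer -/
lemma nd {m r u : ℕ} (hd : ¬ m ∣ r + 1) (hc : u.Coprime m) : ¬ m ∣ (r + 1) * u :=
  fun h => hd (hc.symm.dvd_of_dvd_mul_right h)

/-- the floor -/
def t (m r u : ℕ) : ℕ := (r + 1) * u / m

/-- the signature -/
lemma sg_eq {m r u : ℕ} (hm : 0 < m) (hd : ¬ m ∣ r + 1) (hc : u.Coprime m) (hu : u < m) :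
    sg m r (fun _ => 1) u = r - t m r u := by
  have hsum : (∑ _j : Fin (r + 1), (u * 1) % m) = (r + 1) * u := by
    rw [Finset.sum_const, Finset.card_univ, Fintype.card_fin, mul_one, Nat.mod_eq_of_lt hu,
      smul_eq_mul]
  have hnd := nd hd hc
  unfold t
  set q := (r + 1) * u / m with hq
  have h1 : m * q + (r + 1) * u % m = (r + 1) * u := Nat.div_add_mod _ _
  have h2 : 0 < (r + 1) * u % m := Nat.pos_of_ne_zero fun h => hnd (Nat.dvd_of_mod_eq_zero h)
  have h3 : (r + 1) * u % m < m := Nat.mod_lt _ hm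
  have h4 : (Finset.univ.filter fun i : Fin r =>
      m * (i : ℕ) + ∑ _j : Fin (r + 1), (u * 1) % m < m * r) =
      Finset.univ.filter fun i : Fin r => (i : ℕ) < r - q := by
    refine Finset.filter_congr fun i _ => ?_
    rw [hsum, ← h1]
    constructor
    · intro h
      by_contra h5
      have h6 : m * r ≤ m * (i + q) := Nat.mul_le_mul_left m (by omega)
      rw [Nat.mul_add] at h6
      omega
    · intro h
      have h6 : m * (i + q + 1) ≤ m * r := Nat.mul_le_mul_left m (by omega)
      rw [Nat.mul_add, Nat.mul_add, Nat.mul_one] at h6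
      omega
  have h5 : sg m r (fun _ => 1) u = (Finset.univ.filter fun i : Fin r =>
      m * (i : ℕ) + ∑ _j : Fin (r + 1), (u * 1) % m < m * r).card := rfl
  rw [h5, h4, Fin.card_filter_val_lt, min_eq_right (Nat.sub_le _ _)]

/-- the sum -/
lemma t_add {m r u : ℕ} (hm : 0 < m) (hd : ¬ m ∣ r + 1) (hc : u.Coprime m) (hu : u < m) :
    t m r u + t m r (m - u) = r := by
  unfold t
  have n1 := nd hd hc
  have a1 := Nat.div_add_mod ((r + 1) * u) m
  have a2 := Nat.div_add_mod ((r + 1) * (m - u)) m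
  have m1 := Nat.mod_lt ((r + 1) * u) hm
  have m2 := Nat.mod_lt ((r + 1) * (m - u)) hm
  have p1 : 0 < (r + 1) * u % m := Nat.pos_of_ne_zero fun h => n1 (Nat.dvd_of_mod_eq_zero h)
  set x := (r + 1) * u / m with hx
  set y := (r + 1) * (m - u) / m with hy
  have e1 : (r + 1) * (m - u) + (r + 1) * u = (r + 1) * m := by
    rw [← Nat.mul_add, Nat.sub_add_cancel hu.le]
  have e2 : m * x + m * y + ((r + 1) * u % m + (r + 1) * (m - u) % m) = m * (r + 1) := by
    rw [mul_comm m (r + 1)]
    omega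
  have e3 : m * (x + y) = m * x + m * y := Nat.mul_add _ _ _
  have e4 : x + y < r + 1 := by
    by_contra h
    have h1 : m * (r + 1) ≤ m * (x + y) := Nat.mul_le_mul_left m (by omega)
    omega
  have e5 : r < x + y + 1 := by
    by_contra h
    have h1 : m * (x + y + 2) ≤ m * (r + 1) := Nat.mul_le_mul_left m (by omega)
    have h2 : m * (x + y + 2) = m * (x + y) + m * 2 := Nat.mul_add _ _ _
    omega
  omega

/-- strictly increasing -/
lemma t_lt {m r u v : ℕ} (hm : 0 < m) (hr : m < r + 1) (huv : u < v) :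
    t m r u < t m r v := by
  unfold t
  have h1 : (r + 1) * u + m ≤ (r + 1) * v := by
    have h2 : (r + 1) * (u + 1) ≤ (r + 1) * v := Nat.mul_le_mul_left _ huv
    have h3 : (r + 1) * (u + 1) = (r + 1) * u + (r + 1) := by ring
    omega
  have h2 : ((r + 1) * u + m) / m ≤ (r + 1) * v / m := Nat.div_le_div_right h1
  rw [Nat.add_div_right _ hm] at h2
  omega

lemma t_inj {m r u v : ℕ} (hm : 0 < m) (hr : m < r + 1) (h : t m r u = t m r v) : u = v := by
  rcases lt_trichotomy u v with h1 | h1 | h1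
  · exact absurd h (t_lt hm hr h1).ne
  · exact h1
  · exact absurd h (t_lt hm hr h1).ne'

lemma t_zero {m r u : ℕ} (hm : 0 < m) : t m r u = 0 ↔ (r + 1) * u < m := by
  unfold t
  exact Nat.div_eq_zero_iff_lt hm

/-- doubling -/
lemma dbl {m n : ℕ} (h0 : 0 < n) (h : n < m) :
    ∃ a, m < n * 2 ^ (a + 1) ∧ n * 2 ^ a ≤ m := by
  classical
  have hex : ∃ a, m < n * 2 ^ a := ⟨m, lt_of_lt_of_le Nat.lt_two_pow_self
    (Nat.le_mul_of_pos_left _ h0)⟩
  obtain ⟨b, hb⟩ : ∃ b, Nat.find hex = b := ⟨_, rfl⟩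
  have h1 := Nat.find_spec hex
  rw [hb] at h1
  have hb0 : b ≠ 0 := by
    rintro rfl
    rw [pow_zero, mul_one] at h1
    omega
  obtain ⟨a, rfl⟩ : ∃ a, b = a + 1 := ⟨b - 1, by omega⟩
  have h2 := Nat.find_min hex (m := a) (by omega)
  exact ⟨a, h1, by omega⟩

/-- multiplication by `j` does not preserve the set -/
lemma key {m r j : ℕ} (ho : Odd m) (h2 : 2 ≤ r) (hj2 : 2 ≤ j) (hjc : j.Coprime m)
    (hj : (r + 1) * j < m) : ∃ x, 0 < x ∧ x < m ∧ x.Coprime m ∧ (r + 1) * x < m ∧ x * j < m ∧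
      ¬ ((r + 1) * (x * j) < m ∨ (r + 1) * (m - x * j) < m) := by
  have h0 : 0 < (r + 1) * j := Nat.mul_pos (Nat.succ_pos r) (by omega)
  obtain ⟨a, h1, h3⟩ := dbl h0 hj
  have hne : (r + 1) * j * 2 ^ a ≠ m := by
    intro h
    have h4 : j ∣ m := ⟨(r + 1) * 2 ^ a, by rw [← h]; ring⟩
    have h5 : j ∣ 1 := by
      have := Nat.dvd_gcd dvd_rfl h4
      rwa [hjc] at this
    have := Nat.le_of_dvd one_pos h5
    omega
  have h4 : (r + 1) * j * 2 ^ a < m := lt_of_le_of_ne h3 hne
  have hc : (2 ^ (a + 1)).Coprime m := Nat.Coprime.pow_left _ (Nat.coprime_two_left.2 ho)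
  have hx0 : 0 < 2 ^ (a + 1) := pow_pos two_pos _
  have e1 : 2 ^ (a + 1) = 2 * 2 ^ a := pow_succ' 2 a
  have h5 : (r + 1) * 2 ^ (a + 1) < m := by
    calc (r + 1) * 2 ^ (a + 1) = (r + 1) * 2 * 2 ^ a := by rw [e1]; ring
      _ ≤ (r + 1) * j * 2 ^ a := Nat.mul_le_mul_right _ (Nat.mul_le_mul_left _ hj2)
      _ < m := h4
  have e2 : (r + 1) * (2 ^ (a + 1) * j) = (r + 1) * j * 2 ^ (a + 1) := by ring
  have e3 : (r + 1) * j * 2 ^ (a + 1) = 2 * ((r + 1) * j * 2 ^ a) := by rw [e1]; ring
  have h6 : (r + 1) * (2 ^ (a + 1) * j) < 2 * m := by omega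
  have h7 : 3 * (2 ^ (a + 1) * j) ≤ (r + 1) * (2 ^ (a + 1) * j) :=
    Nat.mul_le_mul_right _ (by omega)
  have h8 : 2 ^ (a + 1) * j < m := by omega
  have h9 : 2 ^ (a + 1) ≤ (r + 1) * 2 ^ (a + 1) := Nat.le_mul_of_pos_left _ (Nat.succ_pos r)
  refine ⟨2 ^ (a + 1), hx0, by omega, hc, h5, h8, ?_⟩
  rintro (h | h)
  · omega
  · have e4 : (r + 1) * (m - 2 ^ (a + 1) * j) + (r + 1) * (2 ^ (a + 1) * j) = (r + 1) * m := by
      rw [← Nat.mul_add, Nat.sub_add_cancel h8.le]
    have e5 : 3 * m ≤ (r + 1) * m := Nat.mul_le_mul_right _ (by omega)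
    omega

end Pr3_aux

open Pr3_aux

theorem tPr3 : S_Pr3 := by
  intro m r ho h3 h2 hd
  have hm : 0 < m := by omega
  have hm1 : 1 < m := by omega
  have hpos : ∀ u, u.Coprime m → 0 < u := by
    intro u hu
    rcases Nat.eq_zero_or_pos u with h | h
    · rw [h, Nat.coprime_zero_left] at hu
      omega
    · exact h
  have hsubc : ∀ u, u < m → u.Coprime m → (m - u).Coprime m := fun u hu hc =>
    (Nat.coprime_self_sub_left hu.le).2 hc
  have hprod : ∀ u, u < m → u.Coprime m → sg m r (fun _ => 1) u = r - t m r u ∧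
      sg m r (fun _ => 1) (m - u) = t m r u ∧ t m r u ≤ r := by
    intro u hu hc
    have h1 := t_add hm hd hc hu
    have h4 := hpos u hc
    rw [sg_eq hm hd hc hu, sg_eq hm hd (hsubc u hu hc) (by omega)]
    refine ⟨rfl, by omega, by omega⟩
  have hc1 : (1 : ℕ).Coprime m := Nat.coprime_one_left m
  have hne : m ≠ r + 1 := fun h => hd (h ▸ dvd_rfl)
  rcases lt_or_gt_of_ne hne with hlt | hgt
  · -- many points
    refine ⟨?_, 1, hm1, hc1, ?_⟩
    · intro g hg hgc H
      have h1 := H 1 hm1 hc1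
      obtain ⟨p1, p2, p3⟩ := hprod g hg hgc
      obtain ⟨q1, q2, q3⟩ := hprod 1 hm1 hc1
      rw [one_mul, Nat.mod_eq_of_lt hg, p1, p2, q1, q2] at h1
      obtain ⟨a, ha⟩ := Nat.exists_eq_add_of_le p3
      obtain ⟨b, hb⟩ := Nat.exists_eq_add_of_le q3
      have h4 : r - t m r g = a := by omega
      have h5 : r - t m r 1 = b := by omega
      rw [h4, h5] at h1
      have h6 : t m r g = t m r 1 ∨ t m r g = b := by
        have h7 : ((t m r g : ℤ) - t m r 1) * ((t m r g : ℤ) - b) = 0 := by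
          have e1 : (t m r g : ℤ) + a = t m r 1 + b := by
            have : t m r g + a = t m r 1 + b := by omega
            exact_mod_cast this
          have e2 : (a : ℤ) * t m r g = b * t m r 1 := by exact_mod_cast h1
          have e3 : (a : ℤ) = t m r 1 + b - t m r g := by linarith
          rw [e3] at e2
          linarith
        rcases mul_eq_zero.1 h7 with h | h
        · left
          have : (t m r g : ℤ) = t m r 1 := by linarith
          exact_mod_cast this
        · right
          have : (t m r g : ℤ) = b := by linarith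
          exact_mod_cast this
      rcases h6 with h6 | h6
      · left
        exact t_inj hm hlt h6
      · right
        have h7 := t_add hm hd hc1 hm1
        exact t_inj hm hlt (by omega)
    · obtain ⟨q1, q2, q3⟩ := hprod 1 hm1 hc1
      have h5 : 1 ≤ t m r 1 := by
        unfold t
        rw [mul_one]
        exact (Nat.one_le_div_iff hm).2 hlt.le
      have h6 : 3 * t m r 1 ≤ r + 1 := by
        unfold t
        rw [mul_one]
        calc 3 * ((r + 1) / m) ≤ m * ((r + 1) / m) := Nat.mul_le_mul_right _ h3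
          _ ≤ r + 1 := Nat.mul_div_le _ _
      omega
  · -- few points
    have hz : ∀ u, u < m → u.Coprime m → (sg m r (fun _ => 1) u * sg m r (fun _ => 1) (m - u) = 0 ↔
        (r + 1) * u < m ∨ (r + 1) * (m - u) < m) := by
      intro u hu hc
      obtain ⟨q1, q2, q3⟩ := hprod u hu hc
      have h1 := t_add hm hd hc hu
      rw [q1, q2, Nat.mul_eq_zero, ← t_zero hm, ← t_zero hm]
      omega
    refine ⟨?_, ?_⟩
    · intro g hg hgc H
      have hg0 := hpos g hgc
      -- the set is stable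
      have hst : ∀ u, u < m → u.Coprime m → (((r + 1) * ((u * g) % m) < m ∨
          (r + 1) * (m - (u * g) % m) < m) ↔ ((r + 1) * u < m ∨ (r + 1) * (m - u) < m)) := by
        intro u hu hc
        have h1 := H u hu hc
        have h4 : (u * g) % m < m := Nat.mod_lt _ hm
        have h5 : ((u * g) % m).Coprime m := by
          have h6 : (u * g).Coprime m := Nat.Coprime.mul_left hc hgc
          rw [Nat.coprime_iff_gcd_eq_one, ← Nat.gcd_rec]
          exact Nat.coprime_iff_gcd_eq_one.1 h6.symm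
        rw [← hz _ h4 h5, ← hz u hu hc, h1]
      have h1 := (hst 1 hm1 hc1).2 (Or.inl (by rw [mul_one]; exact hgt))
      rw [one_mul, Nat.mod_eq_of_lt hg] at h1
      by_contra hne
      rw [not_or] at hne
      rcases h1 with h1 | h1
      · obtain ⟨x, hx0, hxp, hxc, hx1, hx2, hx3⟩ := key ho h2 (by omega : 2 ≤ g) hgc h1
        have h3 := (hst x hxp hxc).2 (Or.inl hx1)
        rw [Nat.mod_eq_of_lt hx2] at h3
        exact hx3 h3
      · obtain ⟨x, hx0, hxp, hxc, hx1, hx2, hx3⟩ :=
          key ho h2 (by omega : 2 ≤ m - g) (hsubc g hg hgc) h1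
        have h3 := (hst x hxp hxc).2 (Or.inl hx1)
        have hx5 : 0 < x * (m - g) := Nat.mul_pos hx0 (by omega)
        have h4 : (x * g) % m = m - x * (m - g) := by
          have h5 : x * g + x * (m - g) = x * m := by
            rw [← Nat.mul_add, Nat.add_sub_cancel' hg.le]
          have h6 : x * g = (m - x * (m - g)) + m * (x - 1) := by
            obtain ⟨x', rfl⟩ : ∃ x', x = x' + 1 := ⟨x - 1, by omega⟩
            rw [Nat.add_sub_cancel]
            have h7 : (x' + 1) * m = m * x' + m := by ring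
            omega
          rw [h6, Nat.add_mul_mod_self_left, Nat.mod_eq_of_lt (by omega)]
        rw [h4] at h3
        apply hx3
        rw [Nat.sub_sub_self hx2.le] at h3
        exact h3.symm
    · obtain ⟨a, h1, h4⟩ := dbl (by omega : 0 < r + 1) hgt
      have hne2 : (r + 1) * 2 ^ a ≠ m := by
        intro h
        rcases Nat.eq_zero_or_pos a with h5 | h5
        · rw [h5, pow_zero, mul_one] at h
          omega
        · have h6 : 2 ∣ m := by
            rw [← h]
            exact Dvd.dvd.mul_left (dvd_pow_self 2 h5.ne') _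
          obtain ⟨k, hk⟩ := ho
          omega
      have h5 : (r + 1) * 2 ^ a < m := lt_of_le_of_ne h4 hne2
      have e1 : (r + 1) * 2 ^ (a + 1) = 2 * ((r + 1) * 2 ^ a) := by rw [pow_succ']; ring
      have hc : (2 ^ (a + 1)).Coprime m := Nat.Coprime.pow_left _ (Nat.coprime_two_left.2 ho)
      have h6 : 3 * 2 ^ (a + 1) ≤ (r + 1) * 2 ^ (a + 1) := Nat.mul_le_mul_right _ (by omega)
      have hu : 2 ^ (a + 1) < m := by omega
      have ht : t m r (2 ^ (a + 1)) = 1 := by
        unfold t
        refine Nat.div_eq_of_lt_le ?_ ?_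
        · rw [one_mul]
          exact h1.le
        · omega
      obtain ⟨q1, q2, q3⟩ := hprod _ hu hc
      rw [ht] at q1 q2
      refine ⟨2 ^ (a + 1), hu, hc, ?_, ?_, ?_⟩
      · omega
      · omega
      · omega

end SEB
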