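import Pool.Agent.Lib.SE.Big.VG6
import Pool.Agent.Lib.SE.Big.Asm8
import Pool.Agent.Lib.SE.Big.Cor
import Pool.Agent.Lib.SE.Big.Hit
import Pool.Agent.Lib.SE.Big.Pr3

/-!
# PROJECT SE, module IsBig: five or more branch points, no condition at all, assembly (helper64)
-/

set_option autoImplicit false

open Module MeasureTheory

noncomputable section

namespace SEB

open HC HC.E HC.SE

/-- One signature is not definite. -/
def HypW (m r : ℕ) (b : Fin (r + 1) → ℕ) : Prop :=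
  ∃ u < m, u.Coprime m ∧ 0 < sg m r b u ∧ 0 < sg m r b (m - u)

theorem hypW_or_defA (m r : ℕ) (b : Fin (r + 1) → ℕ) : HypW m r b ∨ DefA m r b := by
  by_cases h : HypW m r b
  · exact Or.inl h
  · refine Or.inr fun u hu huc => ?_
    by_contra h1
    rw [not_or] at h1
    exact h ⟨u, hu, huc, Nat.pos_of_ne_zero h1.1, Nat.pos_of_ne_zero h1.2⟩

/-- The modules used directly. -/
structure Mods8 : Prop where
  gBa : S_gBa
  eF : S_eF
  fL : S_fL
  fT : S_fT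
  fA : S_fA
  fD : S_fD

/-- VERY GENERAL BRANCH POINTS with increasing real parts, `r ≥ 3`: `Full`. -/
def FullIX : Prop :=
  ∀ (m r : ℕ) (b : Fin (r + 1) → ℕ), 3 ≤ r → HypW m r b →
    IsMeagre {s : Fin (r + 1) → ℂ | Inc s ∧
      ¬ ∀ T : AV, IsCov m s b → ∀ (N : New T m s b)
        (E : T.V →ₗ[ℝ] T.V →ₗ[ℝ] ℝ) (hE : IsPol T N.Z E), Full (mkCyc N hE)}

/-- VERY GENERAL COMPLEX BRANCH POINTS, `r ≥ 3`: `Full`. -/
def FullX : Prop :=
  ∀ (m r : ℕ) (b : Fin (r + 1) → ℕ), 3 ≤ r → HypW m r b →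
    IsMeagre {s : Fin (r + 1) → ℂ | Function.Injective s ∧
      ¬ ∀ T : AV, IsCov m s b → ∀ (N : New T m s b)
        (E : T.V →ₗ[ℝ] T.V →ₗ[ℝ] ℝ) (hE : IsPol T N.Z E), Full (mkCyc N hE)}

theorem fullIX (M : Mods) (M5 : Mods5) (M6 : Mods8) : FullIX := by
  intro m r b hr hu
  obtain ⟨u, hum, huc, hp, hq⟩ := hu
  have hr2 : 2 ≤ r := by omega
  by_cases hex : ∃ s : Fin (r + 1) → ℂ, Inc s ∧ IsCov m s b
  · obtain ⟨s₀, hs₀, hc₀⟩ := hex
    have hK : ∀ u < m, u.Coprime m → Exq (mu m b u) ∧ ∀ n : ℤ, ∑ j, mu m b u j ≠ n :=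
      fun u h1 h2 => ⟨(M5.Kap m r b u s₀ ⟨hs₀, hc₀, h1, h2⟩).2.1,
        (M5.Kap m r b u s₀ ⟨hs₀, hc₀, h1, h2⟩).2.2.1⟩
    have hmN : IsMeagre (⋃ v : {v : ℕ // v < m ∧ v.Coprime m},
        {s : Fin (r + 1) → ℂ | Inc s ∧ ¬ Nj (mu m b v.1) s}) :=
      isMeagre_iUnion fun v => M5.N r _ (hK v.1 v.2.1 v.2.2).1
    have hmL : IsMeagre (⋃ v : {v : ℕ × ℕ // v.1 ≠ v.2 ∧ 0 < sg m r b v.1 ∧ 0 < sg m r b (m - v.1)},
        {s : Fin (r + 1) → ℂ | Ad2 m b v.1.1 v.1.2 s ∧ LkA m b v.1.1 v.1.2 s}) :=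
      isMeagre_iUnion fun v => M6.eF m r b v.1.1 v.1.2 hr v.2.1 v.2.2.1 v.2.2.2
    refine (isMeagre_union (isMeagre_union (isMeagre_union hmN
      (M5.AI r _ (hK u hum huc).1 (hK u hum huc).2))
      (M6.gBa m r b u hr hp hq)) hmL).mono ?_
    rintro s ⟨hs, hno⟩
    by_contra hbad
    rw [Set.mem_union, Set.mem_union, Set.mem_union, not_or, not_or, not_or] at hbad
    obtain ⟨⟨⟨hb0, hb1⟩, hb2⟩, hb3⟩ := hbad
    refine hno fun T hc N E hE => ?_
    have hm : 3 ≤ m := hc.1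
    have hNj : ∀ v < m, v.Coprime m → Nj (mu m b v) s := by
      intro v h1 h2
      by_contra h3
      exact hb0 (Set.mem_iUnion.2 ⟨⟨v, h1, h2⟩, hs, h3⟩)
    have hAdm : Admc m b u s := ⟨hs, hc, hum, huc⟩
    have hAI : AInd (fun k : Fin r => Ic (mu m b u) s k fun x => (1 : Polynomial ℂ).eval x) := by
      by_contra h
      exact hb1 ⟨hs, h⟩
    let D : Cyc T m := mkCyc N hE
    obtain ⟨w, hw⟩ := exists_unit hum huc
    obtain ⟨B, hB⟩ := N.dif u hum huc 0 (sum_lt_of_sg_pos hp)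
    have hBZ := M5.Bf T m r s b hc N u 0 B hB
    obtain ⟨v, hv, hvP⟩ := M5.Loop T m r s b hs hc N
    have hBv : ∀ k, B (v k) = Pc m b u s 1 k := by
      refine hvP u hum huc 1 B hBZ ?_
      intro x hx y hy
      rw [hB x hx y hy, pow_zero, Polynomial.eval_one]
    have hBW : (B.restrictScalars ℝ : Frm T) ∈ Ws D w := by
      intro x
      have := hBZ x
      change B (N.Z x) = zet m w * B x
      rw [this, zet, hw]
    have hAI2 : AInd (fun k => (B.restrictScalars ℝ : Frm T) (v k)) := by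
      refine AInd.mul hAI fun k => ⟨kap m b u k, ?_, ?_, ?_⟩
      · exact ((M5.Kap m r b u s hAdm).2.2.2 k).1
      · exact ((M5.Kap m r b u s hAdm).2.2.2 k).2
      · change B (v k) = _
        rw [hBv k, Pc]
    obtain ⟨hinj, hmat⟩ := M5.EB T m r D hm (by omega) N.dim w _ hBW v hv hAI2
    have hHod := M5.Hod T m r s b hs hc hNj N D rfl v hvP
    obtain ⟨hND, hHit⟩ := M5.Hit T m r s b D hs hc hNj (by omega) N.dim v hinj hmat hHod w
    rw [hw] at hND hHit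
    have hp' : ∀ u : (ZMod m)ˣ, D.p u = sg m r b (u : ZMod m).val :=
      M5.Pn M5.Sg M.Bas T m r s b hc N D rfl
    have hi : ∀ h, HLie D h → Hits D h {w} := by
      refine hHit ?_
      rintro ⟨g, hg, J, hJ, hJg⟩
      exact hb2 ⟨hAdm, hND, g, hg, J, hJ, hJg⟩
    have hnw : ((-w : (ZMod m)ˣ) : ZMod m).val = m - u := by
      rw [Hit_aux.neg_val hm w, hw]
    intro h hh
    have h1 : ∀ t, Hits D h {t} :=
      M.All M.Bas M.Dim M.LI M.Cl T m r D hm hr2 N.dim h hh w (hi h hh)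
    refine ⟨h1, ?_⟩
    intro s' t' hne hne'
    by_contra hno'
    have hL := M6.fL M.Bas M.Dim M.LI M.Cl M.Gou T m r D hm hr2 N.dim h hh h1 s' t' hne hno'
      (w * s'⁻¹)
    rw [inv_mul_cancel_right] at hL
    have hpw : 0 < D.p w := by rw [hp', hw]; exact hp
    have hpnw : 0 < D.p (-w) := by rw [hp', hnw]; exact hq
    obtain ⟨t₂, ht₂, θ, hθ1, hθ2⟩ :=
      M6.fT T m r D hm hr2 N.dim h hh h1 w (w * s'⁻¹ * t') hL hpw hpnw
    have ht₂w : w ≠ t₂ := by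
      rintro rfl
      rcases ht₂ with h2 | h2
      · apply hne
        have h3 : w * (s'⁻¹ * t') = w * 1 := by rw [← mul_assoc, ← h2, mul_one]
        have h4 := mul_left_cancel h3
        rw [inv_mul_eq_one] at h4
        exact h4.symm
      · apply hne'
        have h3 : w * (s'⁻¹ * t') = w * (-1) := by
          rw [← mul_assoc, mul_neg, mul_one]
          exact (neg_eq_iff_eq_neg.2 h2).symm ▸ rfl
        have h4 := mul_left_cancel h3
        have h5 : t' = s' * (-1) := by rw [← h4, mul_inv_cancel_left]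
        rw [h5, mul_neg, mul_one]
    have hLk := M6.fA T m r s b D hs hc hNj hr2 N.dim v hinj hmat hHod h hh w t₂ (h1 t₂) θ hθ1 hθ2
    have : NeZero m := ⟨by omega⟩
    have hND2 : NDc m b (t₂ : ZMod m).val s :=
      (M5.Hit T m r s b D hs hc hNj (by omega) N.dim v hinj hmat hHod t₂).1
    have ht₂m : (t₂ : ZMod m).val < m := ZMod.val_lt _
    have ht₂c : (t₂ : ZMod m).val.Coprime m := ZMod.val_coe_unit_coprime t₂
    rw [hw] at hLk
    refine hb3 (Set.mem_iUnion.2 ⟨⟨(u, (t₂ : ZMod m).val), ?_, hp, hq⟩,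
      ⟨hAdm, hND, ⟨hs, hc, ht₂m, ht₂c⟩, hND2⟩, hLk⟩)
    intro h2
    apply ht₂w
    rw [← hw] at h2
    exact Units.ext (ZMod.val_injective m h2)
  · have : {s : Fin (r + 1) → ℂ | Inc s ∧
      ¬ ∀ T : AV, IsCov m s b → ∀ (N : New T m s b)
        (E : T.V →ₗ[ℝ] T.V →ₗ[ℝ] ℝ) (hE : IsPol T N.Z E), Full (mkCyc N hE)} = ∅ := by
      refine Set.eq_empty_of_forall_notMem ?_
      rintro s ⟨hs, hno⟩
      exact hno fun T hc => absurd ⟨s, hs, hc⟩ hex
    rw [this]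
    exact IsMeagre.empty

theorem hypW_perm {m r : ℕ} {b : Fin (r + 1) → ℕ} (σ : Equiv.Perm (Fin (r + 1)))
    (h : HypW m r b) : HypW m r (b ∘ σ) := by
  obtain ⟨u, h1, h2, h3, h4⟩ := h
  refine ⟨u, h1, h2, ?_, ?_⟩
  · rw [sg_perm]; exact h3
  · rw [sg_perm]; exact h4

theorem fullX (M5 : Mods5) (hI : FullIX) : FullX := by
  intro m r b hr hu
  refine (M5.So r (fun σ => {s : Fin (r + 1) → ℂ | Inc s ∧
      ¬ ∀ T : AV, IsCov m s (b ∘ σ) → ∀ (N : New T m s (b ∘ σ))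
        (E : T.V →ₗ[ℝ] T.V →ₗ[ℝ] ℝ) (hE : IsPol T N.Z E), Full (mkCyc N hE)})
    fun σ => hI m r (b ∘ σ) hr (hypW_perm σ hu)).mono ?_
  rintro s ⟨hs, hno⟩ σ hσ
  refine ⟨hσ, fun hall => hno fun T hc N E hE => ?_⟩
  obtain ⟨-, h1, h2⟩ := M5.Pm T m r s b σ
  obtain ⟨N', hN'⟩ := h2 N
  have hE' : IsPol T N'.Z E := by rw [hN']; exact hE
  have h3 := hall T (h1 hc) N' E hE'
  have h4 : mkCyc N' hE' = mkCyc N hE := by
    unfold mkCyc
    congr
  rw [h4] at h3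
  exact h3

/-! ## Theorems in terms of `Big` -/

/-- The meagre sets. -/
def MMx (m r : ℕ) (b : Fin (r + 1) → ℕ) : Set (Fin (r + 1) → ℂ) :=
  open Classical in
  if 3 ≤ r ∧ HypW m r b then
    {s : Fin (r + 1) → ℂ | Function.Injective s ∧
      ¬ ∀ T : AV, IsCov m s b → ∀ (N : New T m s b)
        (E : T.V →ₗ[ℝ] T.V →ₗ[ℝ] ℝ) (hE : IsPol T N.Z E), Full (mkCyc N hE)} else ∅

/-- Very general complex branch points, `r ≥ 3`, in terms of `Big`: factors of different ranks. -/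
def BigX : Prop :=
  (∀ m r b, IsMeagre (MMx m r b)) ∧
    ∀ (q : ℕ) (m r : Fin q → ℕ) (b : ∀ i, Fin (r i + 1) → ℕ) (s : ∀ i, Fin (r i + 1) → ℂ)
      (J : Fin q → AV) (D : ∀ i, New (J i) (m i) (s i) (b i))
      (E : ∀ i, (J i).V →ₗ[ℝ] (J i).V →ₗ[ℝ] ℝ),
      (∀ i, 3 ≤ r i ∧ HypW (m i) (r i) (b i)) → (∀ i, IsCov (m i) (s i) (b i)) →
      (∀ i, s i ∉ MMx (m i) (r i) (b i)) → (∀ i, IsPol (J i) (D i).Z (E i)) →
      (∀ i j, i ≠ j → r i ≠ r j) → HC.SE.Big J (fun i => (D i).Z) E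

theorem full_of_MMx {m r : ℕ} {b : Fin (r + 1) → ℕ} {s : Fin (r + 1) → ℂ} {T : AV}
    (h1 : 3 ≤ r ∧ HypW m r b) (hc : IsCov m s b) (hs : s ∉ MMx m r b) (N : New T m s b)
    (E : T.V →ₗ[ℝ] T.V →ₗ[ℝ] ℝ) (hE : IsPol T N.Z E) : Full (mkCyc N hE) := by
  rw [MMx, if_pos h1] at hs
  by_contra h2
  exact hs ⟨hc.2.1, fun h3 => h2 (h3 T hc N E hE)⟩

theorem bigX (M : Mods) (hPj : S_Pj) (M3 : Mods3) (hV : FullX) : BigX := by
  classical
  refine ⟨?_, ?_⟩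
  · intro m r b
    rw [MMx]
    split_ifs with h
    · exact hV m r b h.1 h.2
    · exact IsMeagre.empty
  · intro q m r b s J D E hpr hcov hs hE hne
    have hfull : ∀ i, Full (mkCyc (D i) (hE i)) := fun i =>
      full_of_MMx (hpr i) (hcov i) (hs i) (D i) (E i) (hE i)
    let F : Fm q :=
      { T := J
        m := m
        r := r
        D := fun i => mkCyc (D i) (hE i)
        hm := fun i => (hcov i).1
        hr := fun i => by have := (hpr i).1; omega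
        hd := fun i => (D i).dim }
    exact bigF M hPj M3 F (fun β β' h => Or.inl (hne _ _ h)) hfull

/-- THEOREM X, several factors of different degrees. For `q` curves
`y ^ (m_i) = ∏_j (x - s_(i,j))^b_(i,j)`, `r_i ≥ 3`, `HypW`, pairwise different `r_i`, `s_i` outside a
meagre set which depends only on `m_i, r_i, b_i`: the Hodge conjecture for every abelian variety isogenous
to a product of an abelian variety of CM type and powers of the new parts `J_i`. -/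
def CorX : Prop :=
  ∃ 𝓜 : ∀ (_ r : ℕ) (_ : Fin (r + 1) → ℕ), Set (Fin (r + 1) → ℂ), (∀ m r b, IsMeagre (𝓜 m r b)) ∧
    ∀ (q : ℕ) (m r : Fin q → ℕ) (b : ∀ i, Fin (r i + 1) → ℕ) (s : ∀ i, Fin (r i + 1) → ℂ)
      (J : Fin q → AV), (∀ i, 3 ≤ r i ∧ HypW (m i) (r i) (b i)) →
      (∀ i, IsCov (m i) (s i) (b i) ∧ s i ∉ 𝓜 (m i) (r i) (b i) ∧
        Nonempty (New (J i) (m i) (s i) (b i))) →
      (∀ i j, i ≠ j → r i ≠ r j) → ∀ (A T : AV) (N : ℕ) (j : Fin N → Fin q),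
      IsCM A → IsProdE T A (fun n => J (j n)) →
      ∀ (d : ℕ) (c : Hlg T d), IsHodge T d c → Alg2 T d c

theorem corX (hB : ThmB) (hO : BigX) (hAvg : S_Avg) : CorX := by
  refine ⟨MMx, hO.1, ?_⟩
  intro q m r b s J hpr hs hne A T N j hA hT d c hc
  have hcov : ∀ i, IsCov (m i) (s i) (b i) := fun i => (hs i).1
  obtain ⟨D⟩ : Nonempty (∀ i, New (J i) (m i) (s i) (b i)) :=
    ⟨fun i => Classical.choice (hs i).2.2⟩
  choose E hE using fun i => exists_pol hAvg (hcov i) (D i)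
  exact hB A T q N J j m r s b D E hA hcov hE
    (hO.2 q m r b s J D E hpr hcov (fun i => (hs i).2.1) hE hne) hT d c hc

/-- THEOREM X, one factor: every `m`, every `r ≥ 3` and all exponents `b` (`IsCov`), no condition:
very general cyclic covers of the line with at least five branch points. -/
def HCX : Prop :=
  ∀ (m r : ℕ) (b : Fin (r + 1) → ℕ), 3 ≤ r →
    ∃ 𝓜 : Set (Fin (r + 1) → ℂ), IsMeagre 𝓜 ∧ ∀ s : Fin (r + 1) → ℂ, IsCov m s b → s ∉ 𝓜 →
      ∀ (A J T : AV) (N : ℕ), IsCM A → Nonempty (New J m s b) → IsProdE T A (fun _ : Fin N => J) →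
      ∀ (d : ℕ) (c : Hlg T d), IsHodge T d c → Alg2 T d c

theorem ab_of_defA8 (M : Mods) (M5 : Mods5) (M6 : Mods8) {T : AV} {m r : ℕ}
    {b : Fin (r + 1) → ℕ} {s : Fin (r + 1) → ℂ} (hd : DefA m r b) (hc : IsCov m s b)
    (N : New T m s b) (D : Cyc T m) (hD : D.Z = N.Z) : IsAb D := by
  have hm : 3 ≤ m := hc.1
  have : NeZero m := ⟨by omega⟩
  have hp : ∀ u : (ZMod m)ˣ, D.p u = sg m r b (u : ZMod m).val :=
    M5.Pn M5.Sg M.Bas T m r s b hc N D hD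
  refine M6.fD T m r D hm N.dim fun u => ?_
  have h1 := hd (u : ZMod m).val (ZMod.val_lt _) (ZMod.val_coe_unit_coprime u)
  rw [hp, hp, Hit_aux.neg_val hm u]
  exact h1

theorem hcX (hB : ThmB) (hCM : HodgeCM) (hA4 : ∀ (T : AV) (m : ℕ) (D : Cyc T m), IsAb D → IsCM T)
    (M : Mods) (M5 : Mods5) (M6 : Mods8) (hO : BigX) (hAvg : S_Avg) : HCX := by
  intro m r b hr
  by_cases hV : HypW m r b
  · refine ⟨MMx m r b, hO.1 m r b, ?_⟩
    intro s hc hs A J T N hA hN hT d c hd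
    obtain ⟨D⟩ := hN
    obtain ⟨E, hE⟩ := exists_pol hAvg hc D
    have hbig := hO.2 1 (fun _ => m) (fun _ => r) (fun _ => b) (fun _ => s) (fun _ => J)
      (fun _ => D) (fun _ => E) (fun _ => ⟨hr, hV⟩) (fun _ => hc) (fun _ => hs) (fun _ => hE)
      (fun i j h => absurd (Subsingleton.elim i j) h)
    exact hB A T 1 N (fun _ => J) (fun _ => 0) (fun _ => m) (fun _ => r) (fun _ => s) (fun _ => b)
      (fun _ => D) (fun _ => E) hA (fun _ => hc) (fun _ => hE) hbig hT d c hd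
  · refine ⟨∅, IsMeagre.empty, ?_⟩
    intro s hc _ A J T N hA hN hT d c hd
    obtain ⟨D⟩ := hN
    obtain ⟨D', hD'⟩ := hAvg J m (by have := hc.1; omega) D.Z D.lat D.cyc
    have h := hA4 J m D' (ab_of_defA8 M M5 M6 ((hypW_or_defA m r b).resolve_left hV) hc D D' hD')
    exact Alg2.base (hCM T (isCM_prodE hA (fun _ => h) hT) d c hd)

/-! ## The curves `y ^ m = f(x)` -/

theorem hypW_one {m r : ℕ} (hm : 3 ≤ m) (hr : 3 ≤ r) (hd : ¬ m ∣ r + 1)
    (h6 : m = 6 → 5 ≤ r) : HypW m r (fun _ => 1) := by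
  obtain ⟨u, hu, huc, h1, h2⟩ := exists_ind hm hr h6
  have hm0 : 0 < m := by omega
  have h3 : 1 ≤ Pr3_aux.t m r u := (Nat.one_le_div_iff hm0).2 h1
  have h4 : Pr3_aux.t m r u < r := Nat.div_lt_of_lt_mul h2
  have h5 := Pr3_aux.t_add hm0 hd huc hu
  have hu0 : 0 < u := by
    rcases Nat.eq_zero_or_pos u with h | h
    · rw [h, Nat.mul_zero] at h1
      omega
    · exact h
  have huc' : (m - u).Coprime m := (Nat.coprime_self_sub_left hu.le).2 huc
  refine ⟨u, hu, huc, ?_, ?_⟩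
  · rw [Pr3_aux.sg_eq hm0 hd huc hu]
    omega
  · rw [Pr3_aux.sg_eq hm0 hd huc' (by omega)]
    omega

/-- THEOREM VG for complex branch points, every `m`. For every `m ≥ 3` and every `n = r + 1 ≥ 4` with `m ∤ n`,
`(m, n) ≠ (6, 4), (6, 5)`, there is a meagre set `𝓜 (m, r)` in `ℂ^n` such that, for the new parts `J_i` of
the Jacobians of `y ^ (m_i) = ∏_j (x - s_(i,j))` with distinct roots, `s_i` not in `𝓜`, of pairwise different
degrees, the Hodge conjecture holds for every abelian variety isogenous to a product of an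
abelian variety of CM type and powers of the `J_i`. -/
def CorX1 : Prop :=
  ∃ 𝓜 : ∀ _ r : ℕ, Set (Fin (r + 1) → ℂ), (∀ m r, IsMeagre (𝓜 m r)) ∧
    ∀ (q : ℕ) (m r : Fin q → ℕ) (s : ∀ i, Fin (r i + 1) → ℂ) (J : Fin q → AV),
      (∀ i, 3 ≤ m i ∧ 3 ≤ r i ∧ ¬ m i ∣ r i + 1 ∧ (m i = 6 → 5 ≤ r i)) →
      (∀ i, Function.Injective (s i) ∧ s i ∉ 𝓜 (m i) (r i) ∧
        Nonempty (New (J i) (m i) (s i) fun _ => 1)) →
      (∀ i j, i ≠ j → r i ≠ r j) → ∀ (A T : AV) (N : ℕ) (j : Fin N → Fin q),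
      IsCM A → IsProdE T A (fun n => J (j n)) →
      ∀ (d : ℕ) (c : Hlg T d), IsHodge T d c → Alg2 T d c

theorem corX1 (h : CorX) : CorX1 := by
  obtain ⟨𝓜, h1, h2⟩ := h
  refine ⟨fun m r => 𝓜 m r fun _ => 1, fun m r => h1 m r _, ?_⟩
  intro q m r s J hpr hs hne
  exact h2 q m r (fun _ _ => 1) s J
    (fun i => ⟨(hpr i).2.1, hypW_one (hpr i).1 (hpr i).2.1 (hpr i).2.2.1 (hpr i).2.2.2⟩)
    (fun i => ⟨isCov_one' (hpr i).1 (hpr i).2.2.1 (hs i).1, (hs i).2⟩) hne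

/-- One factor: every `m ≥ 3`, every `n = r + 1 ≥ 4` with `m ∤ n`, no exceptions. -/
def HCX1 : Prop :=
  ∀ m r : ℕ, 3 ≤ m → 3 ≤ r → ¬ m ∣ r + 1 →
    ∃ 𝓜 : Set (Fin (r + 1) → ℂ), IsMeagre 𝓜 ∧ ∀ s : Fin (r + 1) → ℂ, Function.Injective s → s ∉ 𝓜 →
      ∀ (A J T : AV) (N : ℕ), IsCM A → Nonempty (New J m s fun _ => 1) →
      IsProdE T A (fun _ : Fin N => J) →
      ∀ (d : ℕ) (c : Hlg T d), IsHodge T d c → Alg2 T d c

theorem hcX1 (h : HCX) : HCX1 := by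
  intro m r hm hr hd
  obtain ⟨𝓜, h1, h2⟩ := h m r (fun _ => 1) hr
  exact ⟨𝓜, h1, fun s hs hs' => h2 s (isCov_one' hm hd hs) hs'⟩

end SEB
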