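import Pool.Agent.Lib.SE.Big.Spec

/-! # PROJECT SE, module Avg: an invariant Riemann form by averaging -/

set_option autoImplicit false

open Module

noncomputable section

namespace SEB

open HC HC.E

theorem tAvg : S_Avg := by
  intro T m hm Z hlat hcyc
  obtain ⟨E, hint, halt, hcpx, hpos⟩ := T.pol
  have hZm : Z ^ m = 1 := by
    obtain ⟨q, hq⟩ : Polynomial.cyclotomic m ℤ ∣ Polynomial.X ^ m - 1 :=
      Polynomial.cyclotomic.dvd_X_pow_sub_one m ℤ
    have h := congrArg (Polynomial.aeval Z) hq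
    rw [map_mul, hcyc, zero_mul] at h
    simpa [sub_eq_zero] using h
  have hlatk : ∀ k : ℕ, ∀ v ∈ T.L, (Z ^ k) v ∈ T.L := by
    intro k
    induction k with
    | zero => intro v hv; simpa using hv
    | succ k ih => intro v hv; rw [pow_succ']; exact hlat _ (ih v hv)
  have hnn : ∀ w : T.V, 0 ≤ E (Complex.I • w) w := by
    intro w
    by_cases hw : w = 0
    · rw [hw]; simp
    · exact (hpos w hw).le
  have hs : ∀ (k : ℕ) (w : T.V), (Z ^ k) (Complex.I • w) = Complex.I • (Z ^ k) w :=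
    fun k w => (Z ^ k).map_smul _ _
  let ψ : T.V →ₗ[ℝ] T.V →ₗ[ℝ] ℝ :=
    ∑ k ∈ Finset.range m, E.compl₁₂ ((Z ^ k).restrictScalars ℝ) ((Z ^ k).restrictScalars ℝ)
  have hψ : ∀ u v, ψ u v = ∑ k ∈ Finset.range m, E ((Z ^ k) u) ((Z ^ k) v) := by
    intro u v
    simp only [ψ, LinearMap.sum_apply]
    rfl
  refine ⟨⟨Z, hlat, hcyc, ψ, ?_, ?_, ?_, ?_, ?_⟩, rfl⟩
  · intro u hu v hv
    rw [hψ]
    choose n hn using fun k : ℕ => hint _ (hlatk k u hu) _ (hlatk k v hv)
    refine ⟨∑ k ∈ Finset.range m, n k, ?_⟩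
    rw [Int.cast_sum]
    exact Finset.sum_congr rfl fun k _ => hn k
  · intro u v
    rw [hψ, hψ, ← Finset.sum_neg_distrib]
    exact Finset.sum_congr rfl fun k _ => halt _ _
  · intro u v
    rw [hψ, hψ]
    refine Finset.sum_congr rfl fun k _ => ?_
    rw [hs, hs, hcpx]
  · intro v hv
    rw [hψ]
    refine Finset.sum_pos' (fun k _ => ?_) ⟨0, Finset.mem_range.2 hm, ?_⟩
    · rw [hs]; exact hnn _
    · simpa using hpos v hv
  · intro u v
    rw [hψ, hψ]
    have h1 : ∀ k : ℕ, E ((Z ^ k) (Z u)) ((Z ^ k) (Z v)) =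
        E ((Z ^ (k + 1)) u) ((Z ^ (k + 1)) v) := by
      intro k
      rw [pow_succ]; rfl
    simp only [h1]
    have h2 := Finset.sum_range_succ' (fun k => E ((Z ^ k) u) ((Z ^ k) v)) m
    have h3 := Finset.sum_range_succ (fun k => E ((Z ^ k) u) ((Z ^ k) v)) m
    rw [h2] at h3
    simp only [hZm, pow_zero] at h3
    linarith

end SEB
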