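import Pool.Agent.Lib.SE.Big.VG

/-!
# PROJECT SE, module IsBig, part 2, Bai: the Baire argument
-/

set_option autoImplicit false

open Module MeasureTheory Topology

noncomputable section

namespace SEB

open HC HC.E HC.SE

namespace Bai_aux

lemma isOpen_sm (r : ℕ) : IsOpen {s : Fin (r + 1) → ℝ | StrictMono s} := by
  have h : {s : Fin (r + 1) → ℝ | StrictMono s} =
      ⋂ i : Fin (r + 1), ⋂ j : Fin (r + 1), {s : Fin (r + 1) → ℝ | i < j → s i < s j} := by
    ext s
    simp only [Set.mem_setOf_eq, Set.mem_iInter]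
    exact ⟨fun h i j hij => h hij, fun h i j hij => h i j hij⟩
  rw [h]
  refine isOpen_iInter_of_finite fun i => isOpen_iInter_of_finite fun j => ?_
  by_cases hij : i < j
  · simp only [hij, true_imp_iff]
    exact isOpen_lt (continuous_apply i) (continuous_apply j)
  · simp only [hij, false_imp_iff, Set.setOf_true]
    exact isOpen_univ

lemma dd_pow (c t : ℝ) (d : ℕ) :
    (dd (Polynomial.X ^ (d + 1)) c).eval t = ∑ i ∈ Finset.range (d + 1), t ^ i * c ^ (d - i) := by
  have h : (Polynomial.X ^ (d + 1) : Polynomial ℝ) /ₘ (Polynomial.X - Polynomial.C c) =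
      ∑ i ∈ Finset.range (d + 1), Polynomial.X ^ i * Polynomial.C c ^ (d - i) := by
    refine (Polynomial.div_modByMonic_unique _ (Polynomial.C (c ^ (d + 1)))
      (Polynomial.monic_X_sub_C c) ⟨?_, ?_⟩).1
    · have h1 := geom_sum₂_mul (Polynomial.X : Polynomial ℝ) (Polynomial.C c) (d + 1)
      rw [Nat.add_sub_cancel] at h1
      rw [mul_comm (Polynomial.X - Polynomial.C c), h1, Polynomial.C_pow]
      ring
    · rw [Polynomial.degree_X_sub_C]
      exact lt_of_le_of_lt Polynomial.degree_C_le zero_lt_one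
  unfold dd
  rw [h, Polynomial.eval_finset_sum]
  refine Finset.sum_congr rfl fun i _ => ?_
  rw [Polynomial.eval_mul, Polynomial.eval_pow, Polynomial.eval_X, Polynomial.eval_pow,
    Polynomial.eval_C]

lemma wt_int {r : ℕ} {μ s : Fin (r + 1) → ℝ}
    (hW : ∀ k : Fin r, IntervalIntegrable (wt μ s) volume (s k.castSucc) (s k.succ)) (k : Fin r)
    (P : Polynomial ℝ) :
    IntervalIntegrable (fun x => wt μ s x * P.eval x) volume (s k.castSucc) (s k.succ) :=
  (hW k).mul_continuousOn P.continuous.continuousOn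

/-- The linear functional `P ↦ ∑ c_k ∫ w P`. -/
def Lp {r : ℕ} (μ s : Fin (r + 1) → ℝ) (c : Fin r → ℂ)
    (hW : ∀ k : Fin r, IntervalIntegrable (wt μ s) volume (s k.castSucc) (s k.succ)) :
    Polynomial ℝ →ₗ[ℝ] ℂ where
  toFun P := ∑ k, c k * ((∫ x in (s k.castSucc)..(s k.succ), wt μ s x * P.eval x : ℝ) : ℂ)
  map_add' P Q := by
    rw [← Finset.sum_add_distrib]
    refine Finset.sum_congr rfl fun k _ => ?_
    have h : (∫ x in (s k.castSucc)..(s k.succ), wt μ s x * (P + Q).eval x) =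
        (∫ x in (s k.castSucc)..(s k.succ), wt μ s x * P.eval x) +
          ∫ x in (s k.castSucc)..(s k.succ), wt μ s x * Q.eval x := by
      rw [← intervalIntegral.integral_add (wt_int hW k P) (wt_int hW k Q)]
      refine intervalIntegral.integral_congr fun x _ => ?_
      simp only [Polynomial.eval_add, mul_add]
    rw [h, Complex.ofReal_add, mul_add]
  map_smul' a P := by
    rw [Finset.smul_sum]
    refine Finset.sum_congr rfl fun k _ => ?_
    have h : (∫ x in (s k.castSucc)..(s k.succ), wt μ s x * (a • P).eval x) =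
        a * ∫ x in (s k.castSucc)..(s k.succ), wt μ s x * P.eval x := by
      rw [← intervalIntegral.integral_const_mul]
      refine intervalIntegral.integral_congr fun x _ => ?_
      simp only [Polynomial.eval_smul, smul_eq_mul]
      ring
    rw [h, Complex.ofReal_mul, RingHom.id_apply, Complex.real_smul]
    ring

lemma Lp_apply {r : ℕ} (μ s : Fin (r + 1) → ℝ) (c : Fin r → ℂ)
    (hW : ∀ k : Fin r, IntervalIntegrable (wt μ s) volume (s k.castSucc) (s k.succ))
    (P : Polynomial ℝ) : Lp μ s c hW P =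
      ∑ k, c k * ((∫ x in (s k.castSucc)..(s k.succ), wt μ s x * P.eval x : ℝ) : ℂ) := rfl

/-- The derivative polynomial for `a = X^(d+1)`. -/
def Pd {r : ℕ} (μ s : Fin (r + 1) → ℝ) (d : ℕ) : Polynomial ℝ :=
  ((d : ℝ) + 1 - ∑ j, μ j) • Polynomial.X ^ d -
    ∑ i ∈ Finset.range d, (∑ j, μ j * s j ^ (d - i)) • (Polynomial.X ^ i : Polynomial ℝ)

lemma Pd_eval {r : ℕ} (μ s : Fin (r + 1) → ℝ) (d : ℕ) (t : ℝ) :
    (Polynomial.X ^ (d + 1) : Polynomial ℝ).derivative.eval t -
      ∑ j, μ j * (dd (Polynomial.X ^ (d + 1)) (s j)).eval t = (Pd μ s d).eval t := by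
  unfold Pd
  rw [Polynomial.eval_sub, Polynomial.eval_finset_sum, Polynomial.eval_smul, Polynomial.eval_pow,
    Polynomial.eval_X, Polynomial.derivative_X_pow, Polynomial.eval_mul, Polynomial.eval_C,
    Polynomial.eval_pow, Polynomial.eval_X, Nat.add_sub_cancel]
  have h1 : ∑ j, μ j * (dd (Polynomial.X ^ (d + 1)) (s j)).eval t =
      ∑ i ∈ Finset.range (d + 1), (∑ j, μ j * s j ^ (d - i)) * t ^ i := by
    have h2 : ∀ j, μ j * (dd (Polynomial.X ^ (d + 1)) (s j)).eval t =
        ∑ i ∈ Finset.range (d + 1), μ j * s j ^ (d - i) * t ^ i := by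
      intro j
      rw [dd_pow, Finset.mul_sum]
      refine Finset.sum_congr rfl fun i _ => ?_
      ring
    rw [Finset.sum_congr rfl fun j _ => h2 j, Finset.sum_comm]
    refine Finset.sum_congr rfl fun i _ => ?_
    rw [Finset.sum_mul]
  rw [h1, Finset.sum_range_succ, Nat.sub_self]
  have h3 : ∑ i ∈ Finset.range d, Polynomial.eval t
      ((∑ j, μ j * s j ^ (d - i)) • (Polynomial.X ^ i : Polynomial ℝ)) =
      ∑ i ∈ Finset.range d, (∑ j, μ j * s j ^ (d - i)) * t ^ i := by
    refine Finset.sum_congr rfl fun i _ => ?_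
    rw [Polynomial.eval_smul, Polynomial.eval_pow, Polynomial.eval_X, smul_eq_mul]
  rw [h3]
  have h4 : ∑ j, μ j * s j ^ 0 = ∑ j, μ j := by
    refine Finset.sum_congr rfl fun j _ => ?_
    rw [pow_zero, mul_one]
  rw [h4, smul_eq_mul]
  push_cast
  ring

/-- At an interior point of `F_c` all moments vanish. -/
lemma moments (hDer : S_Der) {r : ℕ} {μ s : Fin (r + 1) → ℝ} (hμ : Exq μ) (hs : StrictMono s)
    (hn : ∀ n : ℤ, ∑ j, μ j ≠ n) (c : Fin r → ℂ)
    (hW : ∀ k : Fin r, IntervalIntegrable (wt μ s) volume (s k.castSucc) (s k.succ))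
    (O : Set (Fin (r + 1) → ℝ)) (hO : IsOpen O) (hsO : s ∈ O)
    (hz : ∀ s' ∈ O, ∑ k, c k * (Ik μ s' k : ℂ) = 0) (d : ℕ) :
    Lp μ s c hW (Polynomial.X ^ d) = 0 := by
  induction d using Nat.strong_induction_on with
  | _ d ih =>
    have h0 : Lp μ s c hW (Pd μ s d) = 0 := by
      set a : Polynomial ℝ := Polynomial.X ^ (d + 1) with ha
      have hd : ∀ k : Fin r, HasDerivAt
          (fun ε : ℝ => c k * ((Ik μ (fun j => s j + ε * a.eval (s j)) k : ℝ) : ℂ))
          (c k * ((∫ t in (s k.castSucc)..(s k.succ), wt μ s t * (Pd μ s d).eval t : ℝ) : ℂ)) 0 := by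
        intro k
        have h1 := hDer r μ s a hμ hs k
        have h2 : (∫ t in (s k.castSucc)..(s k.succ),
            wt μ s t * (a.derivative.eval t - ∑ j, μ j * (dd a (s j)).eval t)) =
            ∫ t in (s k.castSucc)..(s k.succ), wt μ s t * (Pd μ s d).eval t := by
          refine intervalIntegral.integral_congr fun t _ => ?_
          rw [ha, Pd_eval]
        rw [h2] at h1
        exact h1.ofReal_comp.const_mul (c k)
      have hsum := HasDerivAt.fun_sum (u := Finset.univ) fun k _ => hd k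
      have hev : ∀ᶠ ε : ℝ in 𝓝 0,
          (∑ k, c k * ((Ik μ (fun j => s j + ε * a.eval (s j)) k : ℝ) : ℂ)) = 0 := by
        have hc : Continuous fun ε : ℝ => (fun j => s j + ε * a.eval (s j)) := by
          fun_prop
        have h3 : (fun j => s j + (0 : ℝ) * a.eval (s j)) ∈ O := by
          have h4 : (fun j => s j + (0 : ℝ) * a.eval (s j)) = s := by
            funext j
            ring
          rw [h4]
          exact hsO
        filter_upwards [hc.continuousAt.eventually (hO.mem_nhds h3)] with ε hε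
        exact hz _ hε
      have hzero : HasDerivAt
          (fun ε : ℝ => ∑ k, c k * ((Ik μ (fun j => s j + ε * a.eval (s j)) k : ℝ) : ℂ)) 0 0 :=
        (hasDerivAt_const (0 : ℝ) (0 : ℂ)).congr_of_eventuallyEq hev
      exact hsum.unique hzero
    have h5 : Lp μ s c hW (Pd μ s d) =
        ((d : ℝ) + 1 - ∑ j, μ j) • Lp μ s c hW (Polynomial.X ^ d) := by
      unfold Pd
      rw [map_sub, map_smul, map_sum]
      have h6 : ∑ i ∈ Finset.range d, Lp μ s c hW
          ((∑ j, μ j * s j ^ (d - i)) • (Polynomial.X ^ i : Polynomial ℝ)) = 0 := by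
        refine Finset.sum_eq_zero fun i hi => ?_
        rw [map_smul, ih i (Finset.mem_range.mp hi), smul_zero]
      rw [h6, sub_zero]
    rw [h5] at h0
    have h7 : ((d : ℝ) + 1 - ∑ j, μ j) ≠ 0 := by
      intro h8
      apply hn ((d : ℤ) + 1)
      push_cast
      linarith
    exact (smul_eq_zero.mp h0).resolve_left h7

/-- The set of a relation. -/
def Fc {r : ℕ} (μ : Fin (r + 1) → ℝ) (c : Fin r → ℂ) : Set (Fin (r + 1) → ℝ) :=
  {s | StrictMono s ∧ ∑ k, c k * (Ik μ s k : ℂ) = 0}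

lemma nd (hWt : S_Wt) (hDer : S_Der) (hCon : S_Con) (hMom : S_Mom) {r : ℕ}
    {μ : Fin (r + 1) → ℝ} (hμ : Exq μ) (hn : ∀ n : ℤ, ∑ j, μ j ≠ n) (c : Fin r → ℂ) (hc : c ≠ 0) :
    IsNowhereDense (Fc μ c) := by
  unfold IsNowhereDense
  by_contra hne
  obtain ⟨s₀, hs₀⟩ := Set.nonempty_iff_ne_empty.mpr hne
  have hU := isOpen_sm r
  have hWo : IsOpen (interior (closure (Fc μ c))) := isOpen_interior
  obtain ⟨s₁, h1, h2⟩ := mem_closure_iff.mp (interior_subset hs₀) _ hWo hs₀
  set O : Set (Fin (r + 1) → ℝ) := interior (closure (Fc μ c)) ∩ {s | StrictMono s} with hOdef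
  have hO : IsOpen O := hWo.inter hU
  have hsO : s₁ ∈ O := ⟨h1, h2.1⟩
  have hz : ∀ s' ∈ O, ∑ k, c k * (Ik μ s' k : ℂ) = 0 := by
    intro s' hs'
    have hcont : ContinuousAt (fun s : Fin (r + 1) → ℝ => ∑ k, c k * (Ik μ s k : ℂ)) s' := by
      refine tendsto_finset_sum _ fun k _ => ?_
      have h3 := (hCon r μ hμ k).continuousAt (hU.mem_nhds hs'.2)
      exact (tendsto_const_nhds (x := c k)).mul
        ((Complex.continuous_ofReal.tendsto _).comp h3)
    by_contra hne'
    have h4 : ∀ᶠ s in 𝓝 s', (∑ k, c k * (Ik μ s k : ℂ)) ≠ 0 :=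
      hcont.eventually_ne hne'
    obtain ⟨V, hV1, hV2, hV3⟩ := eventually_nhds_iff.mp h4
    obtain ⟨s₂, h5, h6⟩ := mem_closure_iff.mp (interior_subset hs'.1) V hV2 hV3
    exact hV1 s₂ h5 h6.2
  have hW := hWt r μ s₁ hμ h2.1
  apply hc
  refine hMom r μ s₁ hμ h2.1 c fun d _ => ?_
  have h7 := moments hDer hμ h2.1 hn c hW O hO hsO hz d
  rw [Lp_apply] at h7
  simp only [Polynomial.eval_pow, Polynomial.eval_X] at h7
  exact h7

end Bai_aux

open Bai_aux

theorem tBai : S_Wt → S_Der → S_Con → S_Mom → S_Bai := by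
  intro hWt hDer hCon hMom r μ hμ hn
  set A : Set (Fin r → ℂ) := {c | (∀ k, IsAlgebraic ℚ (c k)) ∧ c ≠ 0} with hA
  have hcount : A.Countable :=
    (Set.countable_pi fun _ : Fin r => Algebraic.countable ℚ ℂ).mono fun c hc k => hc.1 k
  haveI : Countable A := hcount.to_subtype
  have hM : IsMeagre (⋃ c : A, Fc μ (c : Fin r → ℂ)) :=
    isMeagre_iUnion fun c => (nd hWt hDer hCon hMom hμ hn _ c.2.2).isMeagre
  refine hM.mono ?_
  rintro s ⟨hs, hs2⟩
  unfold AInd at hs2
  push Not at hs2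
  obtain ⟨c, hc1, hc2, hc3⟩ := hs2
  rw [Set.mem_iUnion]
  exact ⟨⟨c, hc1, hc3⟩, hs, hc2⟩

end SEB
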