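import Pool.Agent.Lib.SE.Big.Spec

/-!
# PROJECT SE, module IsBig: basic facts about the eigenspaces
-/

set_option autoImplicit false

open Module

noncomputable section

namespace SEB

open HC HC.E

namespace Bas_aux

variable {T : AV} {m : ℕ}

lemma pre_apply (X : Module.End ℝ T.V) (a : Frm T) (v : T.V) : pre X a v = a (X v) := rfl

lemma pre_pow (D : Cyc T m) (k : ℕ) (a : Frm T) (v : T.V) :
    ((pre D.ZR) ^ k) a v = a ((D.Z ^ k) v) := by
  induction k generalizing v with
  | zero => rfl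
  | succ k ih =>
    rw [pow_succ', Module.End.mul_apply, pre_apply, ih]
    rw [pow_succ]
    rfl

lemma aeval_pre (D : Cyc T m) : Polynomial.aeval (pre D.ZR) (Polynomial.cyclotomic m ℂ) = 0 := by
  rw [← Polynomial.map_cyclotomic_int, ← algebraMap_int_eq, Polynomial.aeval_map_algebraMap]
  refine LinearMap.ext fun a => LinearMap.ext fun v => ?_
  rw [Polynomial.aeval_eq_sum_range, LinearMap.sum_apply, LinearMap.sum_apply]
  have h1 := D.cyc
  rw [Polynomial.aeval_eq_sum_range] at h1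
  have h2 := LinearMap.congr_fun h1 v
  rw [LinearMap.sum_apply] at h2
  have h3 := congrArg a h2
  rw [map_sum] at h3
  rw [LinearMap.zero_apply, LinearMap.zero_apply]
  rw [LinearMap.zero_apply, map_zero] at h3
  rw [← h3]
  refine Finset.sum_congr rfl fun i _ => ?_
  rw [LinearMap.smul_apply, LinearMap.smul_apply, LinearMap.smul_apply, map_zsmul, pre_pow]

lemma span_top (D : Cyc T m) (hm : 3 ≤ m) : ⨆ s, Ws D s = ⊤ := by
  have hm0 : m ≠ 0 := by omega
  have : NeZero m := ⟨hm0⟩
  have : NeZero (m : ℂ) := ⟨by exact_mod_cast hm0⟩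
  have hfd : FiniteDimensional ℂ (Frm T) := inferInstance
  have hss : (pre D.ZR).IsSemisimple :=
    Module.End.isSemisimple_of_squarefree_aeval_eq_zero
      (Polynomial.squarefree_cyclotomic m ℂ) (aeval_pre D)
  have htop := Module.End.iSup_maxGenEigenspace_eq_top (pre D.ZR)
  rw [eq_top_iff, ← htop]
  refine iSup_le fun μ => ?_
  rw [hss.isFinitelySemisimple.maxGenEigenspace_eq_eigenspace]
  intro a ha
  by_cases ha0 : a = 0
  · rw [ha0]
    exact zero_mem _
  have hev : (pre D.ZR).HasEigenvector μ a := ⟨ha, ha0⟩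
  have h1 := Module.End.aeval_apply_of_hasEigenvector (p := Polynomial.cyclotomic m ℂ) hev
  rw [aeval_pre, LinearMap.zero_apply] at h1
  have h2 : (Polynomial.cyclotomic m ℂ).IsRoot μ :=
    (smul_eq_zero.1 h1.symm).resolve_right ha0
  rw [Polynomial.isRoot_cyclotomic_iff] at h2
  obtain ⟨i, hi, hic, hiμ⟩ :=
    (IsPrimitiveRoot.isPrimitiveRoot_iff (Complex.isPrimitiveRoot_exp m hm0)).1 h2
  refine Submodule.mem_iSup_of_mem (ZMod.unitOfCoprime i hic) ?_
  intro v
  have h3 : zet m (ZMod.unitOfCoprime i hic) = μ := by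
    rw [zet, ZMod.coe_unitOfCoprime, ZMod.val_natCast_of_lt hi]
    exact hiμ
  rw [h3]
  have h4 : pre D.ZR a = μ • a := Module.End.mem_eigenspace_iff.1 ha
  have h5 := LinearMap.congr_fun h4 v
  exact h5

lemma zet_conj (hm : 3 ≤ m) (s : (ZMod m)ˣ) : zet m (-s) = (starRingEnd ℂ) (zet m s) := by
  have hm0 : m ≠ 0 := by omega
  have : NeZero m := ⟨hm0⟩
  have : Fact (1 < m) := ⟨by omega⟩
  have hs : (s : ZMod m) ≠ 0 := s.ne_zero
  have h1 : ((-s : (ZMod m)ˣ) : ZMod m).val = m - (s : ZMod m).val := by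
    rw [Units.val_neg, ZMod.neg_val, if_neg hs]
  have hp := Complex.isPrimitiveRoot_exp m hm0
  have h2 : Complex.exp (2 * Real.pi * Complex.I / m) ^ m = 1 := hp.pow_eq_one
  have h3 : (s : ZMod m).val ≤ m := (ZMod.val_lt _).le
  have hne : Complex.exp (2 * Real.pi * Complex.I / m) ≠ 0 := Complex.exp_ne_zero _
  have h4 : zet m (-s) * zet m s = 1 := by
    rw [zet, zet, h1, ← pow_add, Nat.sub_add_cancel h3, h2]
  have h5 : (starRingEnd ℂ) (zet m s) * zet m s = 1 := by
    rw [mul_comm, Complex.mul_conj, Complex.normSq_eq_norm_sq, zet, norm_pow,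
      IsPrimitiveRoot.norm'_eq_one hp hm0]
    simp
  have h6 : zet m s ≠ 0 := pow_ne_zero _ hne
  exact mul_right_cancel₀ h6 (h4.trans h5.symm)

end Bas_aux

open Bas_aux in
theorem tBas : S_Pj → S_Bas := by
  intro hPj T m D hm
  obtain ⟨hZ, hp1, hp2, hp3⟩ := hPj T m D hm
  refine ⟨span_top D hm, ?_, ?_, ?_, ?_⟩
  · rw [iSupIndep_def]
    intro s
    rw [Submodule.disjoint_def]
    intro a ha hb
    have h1 : ⨆ (j) (_ : j ≠ s), Ws D j ≤ LinearMap.ker (pj D s) := by
      refine iSup₂_le fun t ht b hbt => ?_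
      exact LinearMap.mem_ker.2 (hp3 t s ht b hbt)
    rw [← hp2 s a ha]
    exact LinearMap.mem_ker.1 (h1 hb)
  · intro X hX s a ha v
    rw [pre_apply, pre_apply, hX]
    exact ha (X v)
  · intro X Y
    refine ⟨rfl, ?_, ?_, ?_⟩
    · refine LinearMap.ext fun a => LinearMap.ext fun v => ?_
      show a (X v + Y v) = a (X v) + a (Y v)
      rw [map_add]
    · intro r
      refine LinearMap.ext fun a => LinearMap.ext fun v => ?_
      show a (r • X v) = (r : ℂ) * a (X v)
      rw [map_smul, Complex.real_smul]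
    · intro h
      refine LinearMap.ext fun v => ?_
      rw [← sub_eq_zero]
      refine (Module.forall_dual_apply_eq_zero_iff ℝ _).1 fun φ => ?_
      have h1 := LinearMap.congr_fun (LinearMap.congr_fun h
        (Complex.ofRealCLM.toLinearMap ∘ₗ φ)) v
      have h2 : ((φ (X v) : ℝ) : ℂ) = ((φ (Y v) : ℝ) : ℂ) := h1
      rw [map_sub, sub_eq_zero]
      exact_mod_cast h2
  · intro s a ha
    refine ⟨(Complex.conjAe.toLinearMap : ℂ →ₗ[ℝ] ℂ) ∘ₗ a, ?_, fun v => rfl⟩
    intro v
    show (starRingEnd ℂ) (a (D.Z v)) = zet m (-s) * (starRingEnd ℂ) (a v)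
    rw [ha v, map_mul, zet_conj hm]

end SEB
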