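import Pool.Agent.Lib.SE.Big.Link

/-! # PROJECT SE, module IsBig, Pnew: the signature of the new part of the Jacobian -/

set_option autoImplicit false

open Module

noncomputable section

namespace SEB

open HC HC.E HC.SE

namespace Pnew_aux

/-- The sum of the dimensions of independent subspaces. -/
lemma sum_finrank_le {V ι : Type} [AddCommGroup V] [Module ℂ V] [FiniteDimensional ℂ V] [Fintype ι]
    (p : ι → Submodule ℂ V) (h : iSupIndep p) (U : Submodule ℂ V) (hU : ∀ i, p i ≤ U) :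
    ∑ i, finrank ℂ (p i) ≤ finrank ℂ U := by
  classical
  have h1 := h.dfinsupp_lsum_injective
  have h2 := LinearMap.finrank_range_of_inj
    (f := (DFinsupp.lsum ℕ (M := fun i => p i) fun i => (p i).subtype : (Π₀ i, p i) →ₗ[ℂ] V)) h1
  have h3 : finrank ℂ (Π₀ i, p i) = ∑ i, finrank ℂ (p i) := finrank_directSum ℂ (fun i => ↥(p i))
  rw [← h3, ← h2]
  refine Submodule.finrank_mono ?_
  rw [← Submodule.iSup_eq_range_dfinsupp_lsum]
  exact iSup_le hU

lemma sep {ι : Type} [Fintype ι] (f : ι → ℂ) (hf : Function.Injective f) (v : ι → ℂ)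
    (h : ∀ k : ℕ, ∑ i, v i * f i ^ k = 0) (i : ι) : v i = 0 := by
  have h1 := (linearIndependent_monoidHom (Multiplicative ℕ) ℂ).comp
    (fun i => powersHom ℂ (f i)) (fun i j hij => hf (by
      have := DFunLike.congr_fun hij (Multiplicative.ofAdd 1)
      simpa using this))
  rw [Fintype.linearIndependent_iff] at h1
  refine h1 v ?_ i
  funext k
  have h2 := h k.toAdd
  rw [Finset.sum_apply]
  simpa using h2

section
variable (m r : ℕ) (b : Fin (r + 1) → ℕ)

/-- The indices of the differentials of the first kind. -/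
abbrev Idx : Type :=
  (u : (ZMod m)ˣ) × {i : Fin r // m * (i : ℕ) + ∑ j, ((u : ZMod m).val * b j) % m < m * r}

lemma card_fib (u : (ZMod m)ˣ) :
    Fintype.card {i : Fin r // m * (i : ℕ) + ∑ j, ((u : ZMod m).val * b j) % m < m * r} =
      sg m r b (u : ZMod m).val := by
  rw [Fintype.card_subtype]
  rfl

lemma val_lt (hm : 3 ≤ m) (u : (ZMod m)ˣ) : (u : ZMod m).val < m := by
  have : NeZero m := ⟨by omega⟩
  exact ZMod.val_lt _

lemma val_cop (u : (ZMod m)ˣ) : (u : ZMod m).val.Coprime m := ZMod.val_coe_unit_coprime u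

lemma sum_sg (hm : 3 ≤ m) (hsg : ∀ u < m, u.Coprime m → sg m r b u + sg m r b (m - u) = r) :
    haveI : NeZero m := ⟨by omega⟩
    2 * ∑ u : (ZMod m)ˣ, sg m r b (u : ZMod m).val = r * m.totient := by
  have : NeZero m := ⟨by omega⟩
  have : Fact (1 < m) := ⟨by omega⟩
  have h1 : ∑ u : (ZMod m)ˣ, sg m r b (u : ZMod m).val =
      ∑ u : (ZMod m)ˣ, sg m r b ((-u : (ZMod m)ˣ) : ZMod m).val :=
    (Equiv.sum_comp (Equiv.neg (ZMod m)ˣ)
      (fun u : (ZMod m)ˣ => sg m r b (u : ZMod m).val)).symm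
  have h2 : ∀ u : (ZMod m)ˣ, sg m r b (u : ZMod m).val +
      sg m r b ((-u : (ZMod m)ˣ) : ZMod m).val = r := by
    intro u
    rw [Units.val_neg, ZMod.neg_val, if_neg u.ne_zero]
    exact hsg _ (val_lt m hm u) (val_cop m u)
  calc 2 * ∑ u : (ZMod m)ˣ, sg m r b (u : ZMod m).val
      = ∑ u : (ZMod m)ˣ, sg m r b (u : ZMod m).val +
        ∑ u : (ZMod m)ˣ, sg m r b ((-u : (ZMod m)ˣ) : ZMod m).val := by
        rw [← h1, two_mul]
    _ = ∑ u : (ZMod m)ˣ, r := by
        rw [← Finset.sum_add_distrib]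
        exact Finset.sum_congr rfl fun u _ => h2 u
    _ = r * m.totient := by
        rw [Finset.sum_const, Finset.card_univ, ZMod.card_units_eq_totient, smul_eq_mul, mul_comm]

end

section
variable {T : AV} {m r : ℕ} {s : Fin (r + 1) → ℂ} {b : Fin (r + 1) → ℕ} (N : New T m s b)

/-- The points of the curve. -/
abbrev Pt : Type := {q : ℂ × ℂ // q.1 ∉ N.γ.S ∧ N.γ.P q = 0}

/-- A form as a function on the curve. -/
def ev : Frm T →ₗ[ℂ] (Pt N → ℂ) where
  toFun a q := a (N.γ.ω q.1.1 q.1.2)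
  map_add' _ _ := rfl
  map_smul' _ _ := rfl

/-- The differential `x ^ i y ^ u dx / ..`. -/
def dff (m : ℕ) (s : Fin (r + 1) → ℂ) (b : Fin (r + 1) → ℕ) (u i : ℕ) (x y : ℂ) : ℂ :=
  x ^ i * y ^ u / ∏ j, (x - s j) ^ (1 + u * b j / m)

lemma exists_pt (hm : 3 ≤ m) (x : ℂ) (hx : x ∉ N.γ.S) :
    ∃ y : ℂ, y ≠ 0 ∧ ∀ k : ℕ,
      N.γ.P (x, Complex.exp (2 * Real.pi * Complex.I / m) ^ k * y) = 0 := by
  obtain ⟨y, hy⟩ := IsAlgClosed.exists_pow_nat_eq (∏ j, (x - s j) ^ b j) (n := m) (by omega)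
  have h0 : ∏ j, (x - s j) ^ b j ≠ 0 := by
    refine Finset.prod_ne_zero_iff.2 fun j _ => pow_ne_zero _ (sub_ne_zero.2 ?_)
    rintro rfl
    exact hx (by rw [N.S]; exact ⟨j, rfl⟩)
  refine ⟨y, ?_, fun k => ?_⟩
  · rintro rfl
    rw [zero_pow (by omega)] at hy
    exact h0 hy.symm
  · have hp := (Complex.isPrimitiveRoot_exp m (by omega)).pow_eq_one
    rw [N.P, mul_pow, ← pow_mul, mul_comm k m, pow_mul, hp, one_pow, one_mul, hy, sub_self]

lemma li (hm : 3 ≤ m) : LinearIndependent ℂ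
    (fun q : Idx m r b => (fun p : Pt N => dff m s b (q.1 : ZMod m).val q.2.1 p.1.1 p.1.2)) := by
  have : NeZero m := ⟨by omega⟩
  rw [Fintype.linearIndependent_iff]
  rintro g hg ⟨u, i⟩
  -- for every `x`
  have key : ∀ x ∉ N.γ.S, ∑ i : {i : Fin r // m * (i : ℕ) +
      ∑ j, ((u : ZMod m).val * b j) % m < m * r}, g ⟨u, i⟩ * x ^ (i.1 : ℕ) = 0 := by
    intro x hx
    obtain ⟨y, hy, hP⟩ := exists_pt N hm x hx
    have hp := Complex.isPrimitiveRoot_exp m (by omega : m ≠ 0)
    have h1 := sep (fun u : (ZMod m)ˣ =>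
        Complex.exp (2 * Real.pi * Complex.I / m) ^ (u : ZMod m).val)
      (fun u v h => Units.ext (ZMod.val_injective m
        (hp.pow_inj (val_lt m hm u) (val_lt m hm v) h)))
      (fun u => ∑ i : {i : Fin r // m * (i : ℕ) +
        ∑ j, ((u : ZMod m).val * b j) % m < m * r},
        g ⟨u, i⟩ * dff m s b (u : ZMod m).val i.1 x y) (by
        intro k
        have h2 := congrFun hg ⟨(x, Complex.exp (2 * Real.pi * Complex.I / m) ^ k * y), hx, hP k⟩
        rw [Finset.sum_apply, Fintype.sum_sigma] at h2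
        refine Eq.trans (Finset.sum_congr rfl fun v _ => ?_) h2
        rw [Finset.sum_mul]
        refine Finset.sum_congr rfl fun j _ => ?_
        show g ⟨v, j⟩ * dff m s b (v : ZMod m).val j.1 x y * _ =
          g ⟨v, j⟩ * dff m s b (v : ZMod m).val j.1 x
            (Complex.exp (2 * Real.pi * Complex.I / m) ^ k * y)
        unfold dff
        rw [mul_pow, ← pow_mul, ← pow_mul, mul_comm k]
        ring) u
    have h3 : ∏ j, (x - s j) ^ (1 + (u : ZMod m).val * b j / m) ≠ 0 := by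
      refine Finset.prod_ne_zero_iff.2 fun j _ => pow_ne_zero _ (sub_ne_zero.2 ?_)
      rintro rfl
      exact hx (by rw [N.S]; exact ⟨j, rfl⟩)
    have h4 : (∑ i : {i : Fin r // m * (i : ℕ) +
        ∑ j, ((u : ZMod m).val * b j) % m < m * r}, g ⟨u, i⟩ * x ^ (i.1 : ℕ)) *
        (y ^ (u : ZMod m).val / ∏ j, (x - s j) ^ (1 + (u : ZMod m).val * b j / m)) = 0 := by
      rw [Finset.sum_mul]
      refine Eq.trans (Finset.sum_congr rfl fun i _ => ?_) h1
      unfold dff
      ring
    rcases mul_eq_zero.1 h4 with h5 | h5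
    · exact h5
    · exact absurd h5 (div_ne_zero (pow_ne_zero _ hy) h3)
  -- the polynomial is zero
  let Q : Polynomial ℂ := ∑ i : {i : Fin r // m * (i : ℕ) +
      ∑ j, ((u : ZMod m).val * b j) % m < m * r}, Polynomial.monomial (i.1 : ℕ) (g ⟨u, i⟩)
  have hQ : Q = 0 := by
    refine Polynomial.eq_zero_of_infinite_isRoot Q ?_
    refine (N.γ.fin.infinite_compl).mono fun x hx => ?_
    show Polynomial.IsRoot Q x
    rw [Polynomial.IsRoot, Polynomial.eval_finsetSum]
    refine Eq.trans (Finset.sum_congr rfl fun i _ => ?_) (key x hx)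
    rw [Polynomial.eval_monomial]
  have h6 : Q.coeff (i.1 : ℕ) = g ⟨u, i⟩ := by
    rw [Polynomial.finsetSum_coeff, Finset.sum_eq_single i]
    · rw [Polynomial.coeff_monomial, if_pos rfl]
    · intro j _ hj
      rw [Polynomial.coeff_monomial, if_neg]
      intro h
      exact hj (Subtype.ext (Fin.ext h))
    · intro h
      exact absurd (Finset.mem_univ i) h
  rw [← h6, hQ, Polynomial.coeff_zero]

end

end Pnew_aux

open Pnew_aux in
theorem tPnew : S_Pnew := by
  intro hSg hBas T m r s b hc N D hD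
  have hm : 3 ≤ m := hc.1
  have : NeZero m := ⟨by omega⟩
  have hsum := sum_sg m r b hm (hSg m r s b hc)
  have hN := N.dim
  -- the forms
  have hB : ∀ q : Idx m r b, ∃ B : T.V →ₗ[ℂ] ℂ, ∀ x ∉ N.γ.S, ∀ y, N.γ.P (x, y) = 0 →
      B (N.γ.ω x y) = dff m s b (q.1 : ZMod m).val q.2.1 x y := fun q =>
    N.dif _ (val_lt m hm q.1) (val_cop m q.1) q.2.1 q.2.2
  choose B hB using hB
  let W : Submodule ℂ T.V := Submodule.span ℂ (Set.range fun p : Pt N => N.γ.ω p.1.1 p.1.2)
  have hWm : ∀ p : Pt N, N.γ.ω p.1.1 p.1.2 ∈ W := fun p => Submodule.subset_span ⟨p, rfl⟩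
  have hcard : Fintype.card (Idx m r b) = finrank ℂ T.V := by
    have h1 : Fintype.card (Idx m r b) = ∑ u : (ZMod m)ˣ, sg m r b (u : ZMod m).val := by
      rw [Fintype.card_sigma]
      exact Finset.sum_congr rfl fun u _ => card_fib m r b u
    omega
  have hW : W = ⊤ := by
    let evW : Dual ℂ W →ₗ[ℂ] (Pt N → ℂ) :=
      { toFun := fun φ p => φ ⟨_, hWm p⟩
        map_add' := fun _ _ => rfl
        map_smul' := fun _ _ => rfl }
    have h1 : LinearIndependent ℂ (fun q : Idx m r b => (B q ∘ₗ W.subtype : Dual ℂ W)) := by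
      refine LinearIndependent.of_comp evW ?_
      have h2 : (evW ∘ fun q : Idx m r b => (B q ∘ₗ W.subtype : Dual ℂ W)) =
          (fun q : Idx m r b => (fun p : Pt N =>
            dff m s b (q.1 : ZMod m).val q.2.1 p.1.1 p.1.2)) := by
        funext q p
        exact hB q p.1.1 p.2.1 p.1.2 p.2.2
      rw [h2]
      exact li N hm
    have h3 := h1.fintype_card_le_finrank
    rw [Subspace.dual_finrank_eq, hcard] at h3
    exact Submodule.eq_top_of_finrank_eq (le_antisymm (Submodule.finrank_le W) h3)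
  -- eigenforms
  have hZ : ∀ (q : Idx m r b) (v : T.V), B q (D.Z v) = zet m q.1 * B q v := by
    intro q v
    have h1 : B q ∘ₗ D.Z = zet m q.1 • B q := by
      refine LinearMap.ext_on (s := Set.range fun p : Pt N => N.γ.ω p.1.1 p.1.2) hW ?_
      rintro _ ⟨p, rfl⟩
      show B q (D.Z (N.γ.ω p.1.1 p.1.2)) = zet m q.1 * B q (N.γ.ω p.1.1 p.1.2)
      have hp := (Complex.isPrimitiveRoot_exp m (by omega)).pow_eq_one
      have h2 : N.γ.P (p.1.1, Complex.exp (2 * Real.pi * Complex.I / m) * p.1.2) = 0 := by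
        have h3 : N.γ.P (p.1.1, p.1.2) = 0 := p.2.2
        rw [N.P] at h3 ⊢
        rw [mul_pow, hp, one_mul]
        exact h3
      rw [hD, ← N.equ p.1.1 p.2.1 p.1.2 p.2.2, hB q _ p.2.1 _ h2, hB q _ p.2.1 _ p.2.2]
      unfold dff zet
      rw [mul_pow]
      ring
    exact LinearMap.congr_fun h1 v
  -- lower bound
  have hmem : ∀ q : Idx m r b, ((B q).restrictScalars ℝ : Frm T) ∈ Ws10 D q.1 := fun q =>
    ⟨fun v => hZ q v, fun v => by
      show B q (Complex.I • v) = Complex.I * B q v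
      rw [map_smul, smul_eq_mul]⟩
  have hli : LinearIndependent ℂ (fun q : Idx m r b => ((B q).restrictScalars ℝ : Frm T)) := by
    refine LinearIndependent.of_comp (ev N) ?_
    have h2 : (ev N ∘ fun q : Idx m r b => ((B q).restrictScalars ℝ : Frm T)) =
        (fun q : Idx m r b => (fun p : Pt N =>
          dff m s b (q.1 : ZMod m).val q.2.1 p.1.1 p.1.2)) := by
      funext q p
      exact hB q p.1.1 p.2.1 p.1.2 p.2.2
    rw [h2]
    exact li N hm
  have hle : ∀ u : (ZMod m)ˣ, sg m r b (u : ZMod m).val ≤ D.p u := by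
    intro u
    have h1 := hli.comp (Sigma.mk u) sigma_mk_injective
    have h2 : LinearIndependent ℂ (fun i : {i : Fin r // m * (i : ℕ) +
        ∑ j, ((u : ZMod m).val * b j) % m < m * r} =>
        (⟨_, hmem ⟨u, i⟩⟩ : Ws10 D u)) := LinearIndependent.of_comp (Ws10 D u).subtype h1
    have h3 := h2.fintype_card_le_finrank
    rw [card_fib] at h3
    exact h3
  -- upper bound
  have hup : ∑ u : (ZMod m)ˣ, D.p u ≤ finrank ℂ T.V := by
    obtain ⟨-, hind, -⟩ := hBas T m D hm
    have hind' : iSupIndep fun u => Ws10 D u := hind.mono fun u a ha => ha.1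
    let ι : Dual ℂ T.V →ₗ[ℂ] Frm T :=
      { toFun := fun φ => φ.restrictScalars ℝ
        map_add' := fun _ _ => rfl
        map_smul' := fun _ _ => rfl }
    have h1 : ∀ u, Ws10 D u ≤ LinearMap.range ι := by
      intro u a ha
      refine ⟨{ toFun := a, map_add' := map_add a, map_smul' := ?_ }, ?_⟩
      · intro z v
        have h2 : a (z • v) = z * a v := by
          have h3 : z • v = z.re • v + z.im • (Complex.I • v) := by
            conv_lhs => rw [← Complex.re_add_im z]
            rw [add_smul, mul_smul]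
            rfl
          rw [h3, map_add, map_smul, map_smul, ha.2 v, Complex.real_smul, Complex.real_smul]
          conv_rhs => rw [← Complex.re_add_im z]
          ring
        exact h2
      · ext v
        rfl
    refine (sum_finrank_le _ hind' _ h1).trans ((LinearMap.finrank_range_le ι).trans ?_)
    rw [Subspace.dual_finrank_eq]
  have heq : ∑ u : (ZMod m)ˣ, sg m r b (u : ZMod m).val = ∑ u : (ZMod m)ˣ, D.p u := by
    refine le_antisymm (Finset.sum_le_sum fun u _ => hle u) ?_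
    omega
  intro u
  exact (((Finset.sum_eq_sum_iff_of_le fun u _ => hle u).1 heq) u (Finset.mem_univ u)).symm

end SEB
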