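import Pool.Agent.Lib.SE.Big.Link

/-!
# PROJECT SE, module IsBig: the sum of the signatures (task 23615)
-/

set_option autoImplicit false

noncomputable section

namespace SEB

open HC HC.E HC.SE

namespace Sg_aux

lemma cnt (m r S q t : ℕ) (hS : S = m * q + t) (ht : 0 < t) (htm : t < m) (hq : q ≤ r) :
    (Finset.univ.filter fun i : Fin r => m * (i : ℕ) + S < m * r).card = r - q := by
  have h1 : (Finset.univ.filter fun i : Fin r => m * (i : ℕ) + S < m * r) =
      Finset.univ.filter fun i : Fin r => (i : ℕ) < r - q := by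
    ext i
    simp only [Finset.mem_filter, Finset.mem_univ, true_and]
    constructor
    · intro h
      by_contra h2
      have h3 : r ≤ i + q := by omega
      have h4 : m * r ≤ m * (i + q) := Nat.mul_le_mul_left m h3
      rw [hS] at h
      nlinarith
    · intro h
      have h3 : (i : ℕ) + q + 1 ≤ r := by omega
      have h4 : m * (i + q + 1) ≤ m * r := Nat.mul_le_mul_left m h3
      rw [hS]
      nlinarith
  rw [h1]
  have h2 : (Finset.univ.filter fun i : Fin r => (i : ℕ) < r - q).card =
      (Finset.range (r - q)).card := by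
    refine Finset.card_bij (fun i _ => (i : ℕ)) ?_ ?_ ?_
    · intro i hi
      exact Finset.mem_range.2 (Finset.mem_filter.1 hi).2
    · intro a _ b _ h
      exact Fin.ext h
    · intro n hn
      have := Finset.mem_range.1 hn
      exact ⟨⟨n, by omega⟩, Finset.mem_filter.2 ⟨Finset.mem_univ _, this⟩, rfl⟩
  rw [h2, Finset.card_range]

end Sg_aux

theorem tSg : S_Sg := by
  intro m r s b hc u hu hco
  obtain ⟨h3, hs, hb, hsum, hd⟩ := hc
  have hm : 0 < m := by omega
  have hu0 : 0 < u := by
    rcases Nat.eq_zero_or_pos u with h | h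
    · rw [h, Nat.coprime_zero_left] at hco
      omega
    · exact h
  have hpos : ∀ j, 0 < (u * b j) % m := by
    intro j
    rcases Nat.eq_zero_or_pos ((u * b j) % m) with h | h
    · exact absurd (hco.symm.dvd_of_dvd_mul_left (Nat.dvd_of_mod_eq_zero h)) (hb j)
    · exact h
  have hcompl : ∀ j, ((m - u) * b j) % m = m - (u * b j) % m := by
    intro j
    have e1 : (m - u) * b j + u * b j = m * b j := by
      rw [← Nat.add_mul, Nat.sub_add_cancel hu.le]
    have e2 := Nat.div_add_mod (u * b j) m
    have e3 := Nat.mod_lt (u * b j) hm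
    have e4 : u * b j ≤ m * b j := Nat.mul_le_mul_right _ hu.le
    have h5 : (u * b j) / m < b j := by
      by_contra h
      have h6 : m * b j ≤ m * (u * b j / m) := Nat.mul_le_mul_left m (not_lt.1 h)
      have := hpos j
      omega
    have e5 : (m - u) * b j = (m - (u * b j) % m) + m * (b j - u * b j / m - 1) := by
      have h7 : m * (b j - u * b j / m - 1) = m * b j - m * (u * b j / m) - m := by
        rw [Nat.mul_sub, Nat.mul_sub, Nat.mul_one]
      have h8 : m * (u * b j / m + 1) ≤ m * b j := Nat.mul_le_mul_left m h5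
      rw [Nat.mul_add, Nat.mul_one] at h8
      rw [h7]
      omega
    rw [e5, Nat.add_mul_mod_self_left]
    exact Nat.mod_eq_of_lt (by have := hpos j; omega)
  set S := ∑ j, (u * b j) % m with hSd
  have hS' : ∑ j, ((m - u) * b j) % m + S = m * (r + 1) := by
    rw [hSd, ← Finset.sum_add_distrib]
    have : ∀ j ∈ (Finset.univ : Finset (Fin (r + 1))),
        ((m - u) * b j) % m + (u * b j) % m = m := by
      intro j _
      rw [hcompl j]
      have := Nat.mod_lt (u * b j) hm
      omega
    rw [Finset.sum_congr rfl this]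
    simp [mul_comm]
  have hnd : S % m ≠ 0 := by
    intro h
    have h1 : S % m = (∑ j, u * b j) % m := by
      rw [hSd, ← Finset.sum_nat_mod]
    rw [h1, ← Finset.mul_sum] at h
    exact hsum (hco.symm.dvd_of_dvd_mul_left (Nat.dvd_of_mod_eq_zero h))
  have hSlt : S < m * (r + 1) := by
    rcases Nat.lt_or_ge S (m * (r + 1)) with h | h
    · exact h
    · exfalso
      have h0 : ∑ j, ((m - u) * b j) % m = 0 := by omega
      have h1 := (Finset.sum_eq_zero_iff.1 h0) 0 (Finset.mem_univ _)
      rw [hcompl 0] at h1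
      have := Nat.mod_lt (u * b 0) hm
      omega
  obtain ⟨q, hq0⟩ : ∃ q, q = S / m := ⟨_, rfl⟩
  obtain ⟨v, hv0⟩ : ∃ v, v = S % m := ⟨_, rfl⟩
  have e := Nat.div_add_mod S m
  have hl := Nat.mod_lt S hm
  rw [← hq0, ← hv0] at e
  rw [← hv0] at hl hnd
  have hv := Nat.pos_of_ne_zero hnd
  have hq : q ≤ r := by
    by_contra h
    have h1 : m * (r + 1) ≤ m * q := Nat.mul_le_mul_left m (not_le.1 h)
    omega
  have c1 := Sg_aux.cnt m r S q v e.symm hv hl hq
  have c2 := Sg_aux.cnt m r (∑ j, ((m - u) * b j) % m) (r - q) (m - v) (by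
    have h1 : m * (r - q) = m * r - m * q := Nat.mul_sub _ _ _
    have h2 : m * q ≤ m * r := Nat.mul_le_mul_left m hq
    have h4 : m * (r + 1) = m * r + m := by ring
    omega) (by omega) (by omega) (by omega)
  unfold sg
  rw [← hSd, c1, c2]
  omega

end SEB
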