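import Pool.Agent.Lib.SE.Big.VG
import Pool.Agent.Lib.SE.Big.Pnew
import Pool.Agent.Lib.SE.Big.Sg

/-! # PROJECT SE, module IsBig, Bf: the eigenvalue of a form given by its values on the curve -/

set_option autoImplicit false

open Module

noncomputable section

namespace SEB

open HC HC.E HC.SE

namespace Bf_aux

open Pnew_aux

/-- The values of the tautological form span the tangent space. -/
theorem span_top {T : AV} {m r : ℕ} {s : Fin (r + 1) → ℂ} {b : Fin (r + 1) → ℕ}
    (hc : IsCov m s b) (N : New T m s b) :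
    Submodule.span ℂ (Set.range fun p : Pt N => N.γ.ω p.1.1 p.1.2) = ⊤ := by
  have hm : 3 ≤ m := hc.1
  have : NeZero m := ⟨by omega⟩
  have hsum := sum_sg m r b hm (tSg m r s b hc)
  have hN := N.dim
  have hB : ∀ q : Idx m r b, ∃ B : T.V →ₗ[ℂ] ℂ, ∀ x ∉ N.γ.S, ∀ y, N.γ.P (x, y) = 0 →
      B (N.γ.ω x y) = dff m s b (q.1 : ZMod m).val q.2.1 x y := fun q =>
    N.dif _ (val_lt m hm q.1) (val_cop m q.1) q.2.1 q.2.2
  choose B hB using hB
  let W : Submodule ℂ T.V := Submodule.span ℂ (Set.range fun p : Pt N => N.γ.ω p.1.1 p.1.2)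
  have hWm : ∀ p : Pt N, N.γ.ω p.1.1 p.1.2 ∈ W := fun p => Submodule.subset_span ⟨p, rfl⟩
  have hcard : Fintype.card (Idx m r b) = finrank ℂ T.V := by
    have h1 : Fintype.card (Idx m r b) = ∑ u : (ZMod m)ˣ, sg m r b (u : ZMod m).val := by
      rw [Fintype.card_sigma]
      exact Finset.sum_congr rfl fun u _ => card_fib m r b u
    omega
  let evW : Dual ℂ W →ₗ[ℂ] (Pt N → ℂ) :=
    { toFun := fun φ p => φ ⟨_, hWm p⟩
      map_add' := fun _ _ => rfl
      map_smul' := fun _ _ => rfl }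
  have h1 : LinearIndependent ℂ (fun q : Idx m r b => (B q ∘ₗ W.subtype : Dual ℂ W)) := by
    refine LinearIndependent.of_comp evW ?_
    have h2 : (evW ∘ fun q : Idx m r b => (B q ∘ₗ W.subtype : Dual ℂ W)) =
        (fun q : Idx m r b => (fun p : Pt N =>
          dff m s b (q.1 : ZMod m).val q.2.1 p.1.1 p.1.2)) := by
      funext q p
      exact hB q p.1.1 p.2.1 p.1.2 p.2.2
    rw [h2]
    exact li N hm
  have h3 := h1.fintype_card_le_finrank
  rw [Subspace.dual_finrank_eq, hcard] at h3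
  exact Submodule.eq_top_of_finrank_eq (le_antisymm (Submodule.finrank_le W) h3)

end Bf_aux

open Bf_aux Pnew_aux in
theorem tBf : S_Bf := by
  intro T m r s b hc N u i B hB w
  have hm : 3 ≤ m := hc.1
  have h1 : B ∘ₗ N.Z = Complex.exp (2 * Real.pi * Complex.I / m) ^ u • B := by
    refine LinearMap.ext_on (s := Set.range fun p : Pt N => N.γ.ω p.1.1 p.1.2)
      (span_top hc N) ?_
    rintro _ ⟨p, rfl⟩
    show B (N.Z (N.γ.ω p.1.1 p.1.2)) =
      Complex.exp (2 * Real.pi * Complex.I / m) ^ u * B (N.γ.ω p.1.1 p.1.2)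
    have hp := (Complex.isPrimitiveRoot_exp m (by omega)).pow_eq_one
    have h2 : N.γ.P (p.1.1, Complex.exp (2 * Real.pi * Complex.I / m) * p.1.2) = 0 := by
      have h3 : N.γ.P (p.1.1, p.1.2) = 0 := p.2.2
      rw [N.P] at h3 ⊢
      rw [mul_pow, hp, one_mul]
      exact h3
    rw [← N.equ p.1.1 p.2.1 p.1.2 p.2.2, hB _ p.2.1 _ h2, hB _ p.2.1 _ p.2.2, mul_pow]
    ring
  exact LinearMap.congr_fun h1 w

end SEB
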