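import Pool.Agent.Lib.SE.Big.VG

/-!
# PROJECT SE, module IsBig, part 2: branches of the `m`-th root on the slit plane (task 23684)
-/

set_option autoImplicit false

open Module MeasureTheory Topology

noncomputable section

namespace SEB

open HC HC.E HC.SE

namespace Br_aux

lemma rp_pow {m : ℕ} (hm : m ≠ 0) (z : ℂ) : rp m z ^ m = z := by
  unfold rp
  exact Complex.cpow_nat_inv_pow z hm

lemma rn_pow {m : ℕ} (hm : m ≠ 0) (z : ℂ) : rn m z ^ m = z := by
  have hm' : (m : ℂ) ≠ 0 := Nat.cast_ne_zero.2 hm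
  unfold rn
  rw [mul_pow, Complex.cpow_nat_inv_pow _ hm, ← Complex.exp_nat_mul,
    show (m : ℂ) * (Real.pi * Complex.I / m) = Real.pi * Complex.I by field_simp,
    Complex.exp_pi_mul_I]
  ring

lemma norm_rp {m : ℕ} (z : ℂ) : ‖rp m z‖ = ‖z‖ ^ ((m : ℝ)⁻¹) := by
  unfold rp
  exact Complex.norm_cpow_inv_nat z m

lemma norm_e (m : ℕ) : ‖Complex.exp (Real.pi * Complex.I / m)‖ = 1 := by
  have : (Real.pi * Complex.I / m : ℂ) = ((Real.pi / m : ℝ) : ℂ) * Complex.I := by
    push_cast
    ring
  rw [this, Complex.norm_exp_ofReal_mul_I]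

lemma norm_rn {m : ℕ} (z : ℂ) : ‖rn m z‖ = ‖z‖ ^ ((m : ℝ)⁻¹) := by
  unfold rn
  rw [norm_mul, norm_e, one_mul, Complex.norm_cpow_inv_nat, norm_neg]

lemma log_up {z : ℂ} (hz : 0 < z.im) : Complex.log (-z) = Complex.log z - Real.pi * Complex.I := by
  unfold Complex.log
  rw [norm_neg, Complex.arg_neg_eq_arg_sub_pi_of_im_pos hz]
  push_cast
  ring

lemma log_dn {z : ℂ} (hz : z.im < 0) : Complex.log (-z) = Complex.log z + Real.pi * Complex.I := by
  unfold Complex.log
  rw [norm_neg, Complex.arg_neg_eq_arg_add_pi_of_im_neg hz]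
  push_cast
  ring

lemma rn_up {m : ℕ} {z : ℂ} (hz : 0 < z.im) : rn m z = rp m z := by
  have hz0 : z ≠ 0 := by
    rintro rfl
    simp at hz
  unfold rn rp
  rw [Complex.cpow_def_of_ne_zero hz0, Complex.cpow_def_of_ne_zero (neg_ne_zero.2 hz0),
    log_up hz, ← Complex.exp_add]
  congr 1
  ring

lemma rn_dn {m : ℕ} {z : ℂ} (hz : z.im < 0) :
    rn m z = Complex.exp (2 * Real.pi * Complex.I / m) * rp m z := by
  have hz0 : z ≠ 0 := by
    rintro rfl
    simp at hz
  unfold rn rp
  rw [Complex.cpow_def_of_ne_zero hz0, Complex.cpow_def_of_ne_zero (neg_ne_zero.2 hz0),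
    log_dn hz, ← Complex.exp_add, ← Complex.exp_add]
  congr 1
  ring

lemma dif_rp (m : ℕ) {z : ℂ} (hz : z ∈ Complex.slitPlane) : DifferentiableAt ℂ (rp m) z := by
  unfold rp
  exact differentiableAt_id.cpow_const hz

lemma dif_rn (m : ℕ) {z : ℂ} (hz : -z ∈ Complex.slitPlane) : DifferentiableAt ℂ (rn m) z := by
  unfold rn
  exact (differentiableAt_id.neg.cpow_const hz).const_mul _

lemma ev (m : ℕ) {t : ℝ} (ht : 0 < t) : rp m (t : ℂ) = ((t ^ ((m : ℝ)⁻¹) : ℝ) : ℂ) := by
  unfold rp
  rw [Complex.ofReal_cpow ht.le]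
  push_cast
  rfl

lemma rp_real (m : ℕ) (n : ℕ) {x c : ℝ} (h : c < x) :
    rp m ((x : ℂ) - c) ^ n = ((|x - c| ^ ((n : ℝ) / m) : ℝ) : ℂ) := by
  have h1 : 0 < x - c := sub_pos.2 h
  rw [← Complex.ofReal_sub, ev m h1, abs_of_pos h1, ← Complex.ofReal_pow, ← Real.rpow_natCast,
    ← Real.rpow_mul h1.le]
  congr 2
  ring

lemma rn_real (m : ℕ) (n : ℕ) {x c : ℝ} (h : x < c) :
    rn m ((x : ℂ) - c) ^ n = Complex.exp (Real.pi * Complex.I / m) ^ n *
      ((|x - c| ^ ((n : ℝ) / m) : ℝ) : ℂ) := by
  have h1 : rn m ((x : ℂ) - c) = Complex.exp (Real.pi * Complex.I / m) * rp m ((c : ℂ) - x) := by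
    unfold rn rp
    rw [neg_sub]
  rw [h1, mul_pow, rp_real m n h, abs_sub_comm]

lemma gp_open {r : ℕ} (s : Fin (r + 1) → ℝ) (k : ℕ) : IsOpen (Gp s k) := by
  unfold Gp
  simp only [Set.ofPred_and, Set.ofPred_forall]
  refine IsOpen.inter (isOpen_iInter_of_finite fun j => isOpen_iInter_of_finite fun _ => ?_)
    (isOpen_iInter_of_finite fun j => isOpen_iInter_of_finite fun _ => ?_)
  · exact isOpen_lt continuous_const continuous_id
  · exact isOpen_lt continuous_id continuous_const

end Br_aux

open Br_aux in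
theorem tBr : S_Br := by
  intro m r s b k hm
  have hm0 : m ≠ 0 := by omega
  refine ⟨?_, ?_, ?_, ?_, ?_, ?_, ?_⟩
  · intro x
    unfold yk
    rw [← Finset.prod_pow]
    refine Finset.prod_congr rfl fun j _ => ?_
    rw [← pow_mul, mul_comm, pow_mul]
    split_ifs
    · rw [rp_pow hm0]
    · rw [rn_pow hm0]
  · intro x hx
    refine DifferentiableAt.differentiableWithinAt ?_
    unfold yk
    refine DifferentiableAt.fun_finsetProd fun j _ => ?_
    by_cases hj : j.val < k
    · simp only [hj, if_true]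
      refine DifferentiableAt.pow ?_ _
      have h1 : x - s j ∈ Complex.slitPlane := by
        rw [Complex.mem_slitPlane_iff]
        rcases hx with h | h
        · right
          simpa using h
        · left
          have := h.1 j hj
          simpa using this
      exact DifferentiableAt.comp x (g := rp m) (f := fun x : ℂ => x - s j) (dif_rp m h1)
        (differentiableAt_id.sub_const _)
    · simp only [hj, if_false]
      refine DifferentiableAt.pow ?_ _
      have h1 : -(x - s j) ∈ Complex.slitPlane := by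
        rw [Complex.mem_slitPlane_iff]
        rcases hx with h | h
        · right
          simpa using h
        · left
          have := h.2 j (not_lt.1 hj)
          simpa using this
      exact DifferentiableAt.comp x (g := rn m) (f := fun x : ℂ => x - s j) (dif_rn m h1)
        (differentiableAt_id.sub_const _)
  · have h1 : Uk s k = (Complex.im ⁻¹' {y | y ≠ 0}) ∪ (Complex.re ⁻¹' Gp s k) := rfl
    rw [h1]
    exact (isOpen_ne.preimage Complex.continuous_im).union
      ((gp_open s k).preimage Complex.continuous_re)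
  · intro x
    unfold yk
    rw [norm_prod]
    refine Finset.prod_congr rfl fun j _ => ?_
    rw [norm_pow]
    have h1 : ‖(if j.val < k then rp m (x - s j) else rn m (x - s j))‖ =
        ‖x - s j‖ ^ ((m : ℝ)⁻¹) := by
      split_ifs
      · rw [norm_rp]
      · rw [norm_rn]
    rw [h1, ← Real.rpow_natCast, ← Real.rpow_mul (norm_nonneg _)]
    congr 1
    ring
  · intro x hx
    unfold yk
    refine Finset.prod_congr rfl fun j _ => ?_
    have h1 : 0 < (x - (s j : ℂ)).im := by simpa using hx
    simp only [Nat.not_lt_zero, if_false]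
    split_ifs
    · rw [rn_up h1]
    · rfl
  · intro x hx
    unfold yk
    rw [← Finset.prod_pow_eq_pow_sum, Finset.prod_filter, ← Finset.prod_mul_distrib]
    refine Finset.prod_congr rfl fun j _ => ?_
    have h1 : (x - (s j : ℂ)).im < 0 := by simpa using hx
    have h2 : j.val < r + 1 := j.2
    by_cases hj : j.val < k
    · simp only [hj, if_true, h2, not_le.2 hj, if_false, one_mul]
    · simp only [hj, if_false, h2, if_true, not_lt.1 hj]
      rw [rn_dn h1, mul_pow]
  · intro x hx
    unfold yk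
    rw [← Finset.prod_pow_eq_pow_sum, Finset.prod_filter, Complex.ofReal_prod,
      ← Finset.prod_mul_distrib]
    refine Finset.prod_congr rfl fun j _ => ?_
    by_cases hj : j.val < k
    · simp only [hj, if_true, not_le.2 hj, if_false, one_mul]
      exact rp_real m (b j) (hx.1 j hj)
    · simp only [hj, if_false, not_lt.1 hj, if_true]
      exact rn_real m (b j) (hx.2 j (not_lt.1 hj))

end SEB
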