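import Pool.Agent.Lib.SE.Big.VG

/-!
# PROJECT SE, module IsBig, part 2, module Ca: Cauchy on rectangles around `s_k`
-/

set_option autoImplicit false

open Module MeasureTheory Topology

noncomputable section

namespace SEB

open HC HC.E HC.SE

namespace Ca_aux

/-- the inverse branch -/
def et (m : ℕ) {r : ℕ} (s : Fin (r + 1) → ℝ) (n : Fin (r + 1) → ℕ) (j : ℕ) (x : ℂ) : ℂ :=
  (yk m s n j x)⁻¹

variable {m r : ℕ} {s : Fin (r + 1) → ℝ} {n : Fin (r + 1) → ℕ}

theorem yk_ne (hBr : S_Br) (hm : 1 ≤ m) (j : ℕ) {x : ℂ} (hx : x ∈ Uk s j) :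
    yk m s n j x ≠ 0 := by
  intro h0
  have h1 := (hBr m r s n j hm).1 x
  rw [h0, zero_pow (by omega)] at h1
  have h2 : ∀ i, (x - (s i : ℂ)) ≠ 0 := by
    intro i hi
    have hxi : x = (s i : ℂ) := sub_eq_zero.1 hi
    rcases hx with hx | hx
    · apply hx
      rw [hxi]
      simp
    · rcases Nat.lt_or_ge i.val j with hij | hij
      · have h3 := hx.1 i hij
        rw [hxi] at h3
        simp at h3
      · have h3 := hx.2 i hij
        rw [hxi] at h3
        simp at h3
  exact (Finset.prod_ne_zero_iff.2 fun i _ => pow_ne_zero _ (h2 i)) h1.symm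

theorem et_diff (hBr : S_Br) (hm : 1 ≤ m) (j : ℕ) : DifferentiableOn ℂ (et m s n j) (Uk s j) :=
  (hBr m r s n j hm).2.1.inv fun _ hx => yk_ne hBr hm j hx

theorem et_cont (hBr : S_Br) (hm : 1 ≤ m) (j : ℕ) {x : ℂ} (hx : x ∈ Uk s j) :
    ContinuousAt (et m s n j) x :=
  (et_diff hBr hm j).continuousOn.continuousAt ((hBr m r s n j hm).2.2.1.mem_nhds hx)

/-- continuity on horizontal lines -/
theorem hor_cont (hBr : S_Br) (hm : 1 ≤ m) (j : ℕ) (g : ℝ) (hg : g ≠ 0) :
    Continuous (fun t : ℝ => et m s n j (t + g * Complex.I)) := by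
  rw [continuous_iff_continuousAt]
  intro t
  have h1 : ((t : ℂ) + g * Complex.I) ∈ Uk s j := Or.inl (by simpa using hg)
  exact ContinuousAt.comp (f := fun t : ℝ => ((t : ℂ) + g * Complex.I)) (et_cont hBr hm j h1)
    (by fun_prop)

theorem vert_meas (hBr : S_Br) (hm : 1 ≤ m) (j : ℕ) (c : ℝ) :
    AEStronglyMeasurable (fun y : ℝ => et m s n j (c + y * Complex.I)) volume := by
  have h1 : ContinuousOn (fun y : ℝ => et m s n j (c + y * Complex.I)) ({0}ᶜ : Set ℝ) := by
    intro y hy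
    have hy0 : y ≠ 0 := by simpa using hy
    have h2 : ((c : ℂ) + y * Complex.I) ∈ Uk s j := Or.inl (by simpa using hy0)
    exact (ContinuousAt.comp (f := fun y : ℝ => ((c : ℂ) + y * Complex.I)) (et_cont hBr hm j h2)
      (by fun_prop)).continuousWithinAt
  have h3 := h1.aestronglyMeasurable (μ := volume) (measurableSet_singleton (0 : ℝ)).compl
  rwa [restrict_compl_singleton] at h3

theorem int_abs (p h : ℝ) (hp : p < 1) (hh : 0 < h) :
    IntervalIntegrable (fun y : ℝ => |y| ^ (-p)) volume (-h) h := by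
  have h1 : IntervalIntegrable (fun y : ℝ => |y| ^ (-p)) volume 0 h := by
    have h2 : IntervalIntegrable (fun y : ℝ => y ^ (-p)) volume 0 h :=
      intervalIntegral.intervalIntegrable_rpow' (by linarith)
    rw [intervalIntegrable_iff] at h2 ⊢
    refine h2.congr_fun (fun y hy => ?_) measurableSet_uIoc
    rw [Set.uIoc_of_le hh.le] at hy
    show y ^ (-p) = |y| ^ (-p)
    rw [abs_of_pos hy.1]
  have h2 : IntervalIntegrable (fun y : ℝ => |y| ^ (-p)) volume (-h) 0 := by
    have h3 := (IntervalIntegrable.iff_comp_neg (f := fun y : ℝ => |y| ^ (-p))).1 h1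
    simp only [abs_neg, neg_zero] at h3
    exact h3.symm
  exact h2.trans h1

/-- the bound on vertical lines -/
theorem vert_bound (hBr : S_Br) (hm : 1 ≤ m) (j : ℕ) (k : Fin (r + 1)) (δ : ℝ) (hδ : 0 < δ)
    (c y : ℝ) (hc : ∀ i, i ≠ k → δ ≤ |c - s i|) (hy : y ≠ 0) :
    ‖et m s n j (c + y * Complex.I)‖ ≤
      (∏ i ∈ Finset.univ.erase k, δ ^ ((n i : ℝ) / m))⁻¹ * |y| ^ (-((n k : ℝ) / m)) := by
  have hD : 0 < ∏ i ∈ Finset.univ.erase k, δ ^ ((n i : ℝ) / m) :=
    Finset.prod_pos fun i _ => Real.rpow_pos_of_pos hδ _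
  have hy0 : 0 < |y| := abs_pos.2 hy
  have hyp : 0 < |y| ^ ((n k : ℝ) / m) := Real.rpow_pos_of_pos hy0 _
  rw [et, norm_inv, (hBr m r s n j hm).2.2.2.1, Real.rpow_neg hy0.le, ← mul_inv]
  refine inv_anti₀ (mul_pos hD hyp) ?_
  rw [← Finset.prod_erase_mul _ _ (Finset.mem_univ k)]
  refine mul_le_mul ?_ ?_ hyp.le (Finset.prod_nonneg fun i _ => Real.rpow_nonneg (norm_nonneg _) _)
  · refine Finset.prod_le_prod (fun i _ => Real.rpow_nonneg hδ.le _) fun i hi => ?_
    refine Real.rpow_le_rpow hδ.le ?_ (by positivity)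
    refine (hc i (Finset.ne_of_mem_erase hi)).trans ?_
    have h1 := Complex.abs_re_le_norm ((c : ℂ) + y * Complex.I - (s i : ℂ))
    simpa using h1
  · refine Real.rpow_le_rpow hy0.le ?_ (by positivity)
    have h1 := Complex.abs_im_le_norm ((c : ℂ) + y * Complex.I - (s k : ℂ))
    simpa using h1

theorem exists_delta (hs : StrictMono s) (k : Fin (r + 1)) : ∃ δ : ℝ, 0 < δ ∧
    ∀ᶠ c in 𝓝 (s k), ∀ i, i ≠ k → δ ≤ |c - s i| := by
  have h1 : ∀ i : Fin (r + 1), ∃ δ : ℝ, 0 < δ ∧ (i ≠ k → 2 * δ ≤ |s k - s i|) := by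
    intro i
    by_cases hi : i = k
    · exact ⟨1, one_pos, fun h => absurd hi h⟩
    · have h2 : 0 < |s k - s i| := abs_pos.2 (sub_ne_zero.2 fun h => hi (hs.injective h).symm)
      exact ⟨|s k - s i| / 2, by linarith, fun _ => by linarith⟩
  choose d hd0 hd using h1
  obtain ⟨i0, -, hi0⟩ := Finset.exists_min_image (Finset.univ : Finset (Fin (r + 1))) d
    ⟨k, Finset.mem_univ k⟩
  refine ⟨d i0, hd0 i0, ?_⟩
  have h3 : ∀ᶠ c in 𝓝 (s k), |c - s k| < d i0 := by
    have h4 := Metric.ball_mem_nhds (s k) (hd0 i0)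
    filter_upwards [h4] with c hc
    rwa [Metric.mem_ball, Real.dist_eq] at hc
  filter_upwards [h3] with c hc i hi
  have h5 := hd i hi
  have h6 := hi0 i (Finset.mem_univ i)
  have h7 : |s k - s i| ≤ |c - s k| + |c - s i| := by
    have h8 : s k - s i = -(c - s k) + (c - s i) := by ring
    calc |s k - s i| = |-(c - s k) + (c - s i)| := by rw [← h8]
      _ ≤ |-(c - s k)| + |c - s i| := abs_add_le _ _
      _ = _ := by rw [abs_neg]
  linarith

theorem pow_lt_one (hm : 1 ≤ m) (hn : ∀ j, 1 ≤ n j ∧ n j < m) (k : Fin (r + 1)) :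
    (n k : ℝ) / m < 1 := by
  have h1 : (0 : ℝ) < m := by exact_mod_cast hm
  rw [div_lt_one h1]
  exact_mod_cast (hn k).2

/-- the vertical integral is continuous in the position at `s_k` -/
theorem vert_cont (hBr : S_Br) (hm : 1 ≤ m) (hs : StrictMono s) (hn : ∀ j, 1 ≤ n j ∧ n j < m)
    (j : ℕ) (k : Fin (r + 1)) (h : ℝ) (hh : 0 < h) :
    ContinuousAt (fun c : ℝ => ∫ y in (-h)..h, et m s n j (c + y * Complex.I)) (s k) := by
  obtain ⟨δ, hδ, hev⟩ := exists_delta hs k
  refine intervalIntegral.continuousAt_of_dominated_interval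
    (bound := fun y => (∏ i ∈ Finset.univ.erase k, δ ^ ((n i : ℝ) / m))⁻¹ *
      |y| ^ (-((n k : ℝ) / m))) ?_ ?_ ?_ ?_
  · exact Filter.Eventually.of_forall fun c => (vert_meas hBr hm j c).restrict
  · filter_upwards [hev] with c hc
    have h0 : ∀ᵐ y : ℝ, y ≠ 0 := by
      have := (measure_singleton (μ := (volume : Measure ℝ)) (0 : ℝ))
      exact compl_mem_ae_iff.2 this
    filter_upwards [h0] with y hy _
    exact vert_bound hBr hm j k δ hδ c y hc hy
  · exact (int_abs _ h (pow_lt_one hm hn k) hh).const_mul _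
  · have h0 : ∀ᵐ y : ℝ, y ≠ 0 := by
      have := (measure_singleton (μ := (volume : Measure ℝ)) (0 : ℝ))
      exact compl_mem_ae_iff.2 this
    filter_upwards [h0] with y hy _
    have h2 : (((s k : ℝ) : ℂ) + y * Complex.I) ∈ Uk s j := Or.inl (by simpa using hy)
    exact ContinuousAt.comp (f := fun c : ℝ => ((c : ℂ) + y * Complex.I)) (et_cont hBr hm j h2)
      (by fun_prop)

theorem vert_int (hBr : S_Br) (hm : 1 ≤ m) (hs : StrictMono s) (hn : ∀ j, 1 ≤ n j ∧ n j < m)
    (j : ℕ) (k : Fin (r + 1)) (h : ℝ) (hh : 0 < h) :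
    IntervalIntegrable (fun y : ℝ => et m s n j (s k + y * Complex.I)) volume (-h) h := by
  obtain ⟨δ, hδ, hev⟩ := exists_delta hs k
  refine IntervalIntegrable.mono_fun' ((int_abs _ h (pow_lt_one hm hn k) hh).const_mul
    (∏ i ∈ Finset.univ.erase k, δ ^ ((n i : ℝ) / m))⁻¹) (vert_meas hBr hm j (s k)).restrict ?_
  have h0 : ∀ᵐ y : ℝ, y ≠ 0 := by
    have := (measure_singleton (μ := (volume : Measure ℝ)) (0 : ℝ))
    exact compl_mem_ae_iff.2 this
  refine ae_restrict_of_ae ?_
  filter_upwards [h0] with y hy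
  exact vert_bound hBr hm j k δ hδ (s k) y hev.self_of_nhds hy

/-- the path integral is continuous at `s_k` -/
theorem pth_cont (hBr : S_Br) (hm : 1 ≤ m) (hs : StrictMono s) (hn : ∀ j, 1 ≤ n j ∧ n j < m)
    (j : ℕ) (k : Fin (r + 1)) (x₀ h : ℝ) (hh : 0 < h) :
    ContinuousAt (fun c : ℝ => Pth (et m s n j) x₀ h c) (s k) := by
  have h1 := hor_cont (s := s) (n := n) hBr hm j h hh.ne'
  have h2 := hor_cont (s := s) (n := n) hBr hm j (-h) (neg_ne_zero.2 hh.ne')
  have h2' : Continuous (fun t : ℝ => et m s n j (t - h * Complex.I)) := by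
    have h3 : (fun t : ℝ => et m s n j (t - h * Complex.I)) =
        fun t : ℝ => et m s n j (t + ((-h : ℝ) : ℂ) * Complex.I) := by
      funext t
      refine congrArg _ ?_
      push_cast
      ring
    rw [h3]
    exact h2
  unfold Pth
  refine ContinuousAt.add (ContinuousAt.sub ?_ ?_) ?_
  · exact (intervalIntegral.continuous_primitive (fun a b => h1.intervalIntegrable a b)
      x₀).continuousAt
  · exact (vert_cont hBr hm hs hn j k h hh).const_smul Complex.I
  · have h4 : (fun c : ℝ => ∫ t in c..x₀, et m s n j (t - h * Complex.I)) =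
        fun c : ℝ => -∫ t in x₀..c, et m s n j (t - h * Complex.I) := by
      funext c
      rw [intervalIntegral.integral_symm]
    rw [h4]
    exact (intervalIntegral.continuous_primitive (fun a b => h2'.intervalIntegrable a b)
      x₀).continuousAt.neg

/-- the path integral is constant on the gap -/
theorem pth_const (hBr : S_Br) (hm : 1 ≤ m) (j : ℕ) (x₀ h : ℝ) (hh : 0 < h) (x x' : ℝ)
    (hx : x ∈ Gp s j) (hx' : x' ∈ Gp s j) :
    Pth (et m s n j) x₀ h x' = Pth (et m s n j) x₀ h x := by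
  have h1 := hor_cont (s := s) (n := n) hBr hm j h hh.ne'
  have h2 := hor_cont (s := s) (n := n) hBr hm j (-h) (neg_ne_zero.2 hh.ne')
  have e1 : ∀ t : ℝ, (t : ℂ) - h * Complex.I = t + ((-h : ℝ) : ℂ) * Complex.I := fun t => by
    push_cast
    ring
  have hC := Complex.integral_boundary_rect_eq_zero_of_differentiableOn (et m s n j)
    (⟨x, -h⟩ : ℂ) (⟨x', h⟩ : ℂ) ((et_diff hBr hm j).mono fun p hp => by
      have hp1 : p.re ∈ Set.uIcc x x' := hp.1
      rw [Set.mem_uIcc] at hp1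
      refine Or.inr ⟨fun i hi => ?_, fun i hi => ?_⟩
      · have h3 := hx.1 i hi
        have h4 := hx'.1 i hi
        rcases hp1 with h5 | h5 <;> linarith [h5.1, h5.2]
      · have h3 := hx.2 i hi
        have h4 := hx'.2 i hi
        rcases hp1 with h5 | h5 <;> linarith [h5.1, h5.2])
  have hC' : (∫ t in x..x', et m s n j (t + ((-h : ℝ) : ℂ) * Complex.I)) -
      (∫ t in x..x', et m s n j (t + (h : ℂ) * Complex.I)) +
      Complex.I • (∫ y in (-h)..h, et m s n j (x' + y * Complex.I)) -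
      Complex.I • (∫ y in (-h)..h, et m s n j (x + y * Complex.I)) = 0 := hC
  unfold Pth
  simp only [e1]
  have h3 := intervalIntegral.integral_add_adjacent_intervals (h1.intervalIntegrable x₀ x)
    (h1.intervalIntegrable x x') (μ := volume)
  have h4 := intervalIntegral.integral_add_adjacent_intervals (h2.intervalIntegrable x x')
    (h2.intervalIntegrable x' x₀) (μ := volume)
  rw [← h3, ← h4]
  linear_combination -hC'

/-- the value at the limit -/
theorem pth_lim_left (hBr : S_Br) (hm : 1 ≤ m) (hs : StrictMono s)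
    (hn : ∀ j, 1 ≤ n j ∧ n j < m) (k : Fin (r + 1)) (x₀ h : ℝ) (hh : 0 < h) (c : ℝ)
    (hc : c ∈ Gp s k.val) :
    Pth (et m s n k.val) x₀ h c = Pth (et m s n k.val) x₀ h (s k) := by
  have hck : c < s k := hc.2 k le_rfl
  have h1 : Filter.Tendsto (fun c : ℝ => Pth (et m s n k.val) x₀ h c) (𝓝[<] (s k))
      (𝓝 (Pth (et m s n k.val) x₀ h (s k))) :=
    (pth_cont hBr hm hs hn k.val k x₀ h hh).tendsto.mono_left nhdsWithin_le_nhds
  have h2 : ∀ᶠ x in 𝓝[<] (s k), Pth (et m s n k.val) x₀ h c = Pth (et m s n k.val) x₀ h x := by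
    filter_upwards [Ioo_mem_nhdsLT hck] with x hx
    refine (pth_const hBr hm k.val x₀ h hh c x hc ⟨fun i hi => ?_, fun i hi => ?_⟩).symm
    · exact (hc.1 i hi).trans hx.1
    · exact hx.2.trans_le (hs.monotone hi)
  exact tendsto_nhds_unique (tendsto_const_nhds.congr' h2) h1

theorem pth_lim_right (hBr : S_Br) (hm : 1 ≤ m) (hs : StrictMono s)
    (hn : ∀ j, 1 ≤ n j ∧ n j < m) (k : Fin (r + 1)) (x₀ h : ℝ) (hh : 0 < h) (c : ℝ)
    (hc : c ∈ Gp s (k.val + 1)) :
    Pth (et m s n (k.val + 1)) x₀ h c = Pth (et m s n (k.val + 1)) x₀ h (s k) := by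
  have hck : s k < c := hc.1 k (Nat.lt_succ_self _)
  have h1 : Filter.Tendsto (fun c : ℝ => Pth (et m s n (k.val + 1)) x₀ h c) (𝓝[>] (s k))
      (𝓝 (Pth (et m s n (k.val + 1)) x₀ h (s k))) :=
    (pth_cont hBr hm hs hn (k.val + 1) k x₀ h hh).tendsto.mono_left nhdsWithin_le_nhds
  have h2 : ∀ᶠ x in 𝓝[>] (s k),
      Pth (et m s n (k.val + 1)) x₀ h c = Pth (et m s n (k.val + 1)) x₀ h x := by
    filter_upwards [Ioo_mem_nhdsGT hck] with x hx
    refine (pth_const hBr hm (k.val + 1) x₀ h hh c x hc ⟨fun i hi => ?_, fun i hi => ?_⟩).symm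
    · have hik : i ≤ k := Fin.le_def.2 (Nat.le_of_lt_succ hi)
      exact (hs.monotone hik).trans_lt hx.1
    · exact hx.2.trans (hc.2 i hi)
  exact tendsto_nhds_unique (tendsto_const_nhds.congr' h2) h1

/-- `ζ` -/
def ze (m : ℕ) : ℂ := Complex.exp (2 * Real.pi * Complex.I / m)

/-- `f_j` -/
def ff {r : ℕ} (n : Fin (r + 1) → ℕ) (k : ℕ) : ℕ :=
  ∑ j ∈ Finset.univ.filter (fun j : Fin (r + 1) => k ≤ j.val), n j

theorem ff_succ (k : Fin (r + 1)) : ff n k.val = n k + ff n (k.val + 1) := by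
  have h1 : Finset.univ.filter (fun j : Fin (r + 1) => k.val ≤ j.val) =
      insert k (Finset.univ.filter (fun j : Fin (r + 1) => k.val + 1 ≤ j.val)) := by
    ext j
    simp only [Finset.mem_filter, Finset.mem_univ, true_and, Finset.mem_insert]
    constructor
    · intro h
      rcases Nat.lt_or_ge k.val j.val with h2 | h2
      · exact Or.inr h2
      · exact Or.inl (Fin.ext (le_antisymm h2 h))
    · rintro (h | h)
      · rw [h]
      · omega
  rw [ff, h1, Finset.sum_insert (by simp), ff]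

/-- the value of the path integral at `s_k` -/
theorem pth_val (hBr : S_Br) (hm : 1 ≤ m) (hs : StrictMono s) (hn : ∀ j, 1 ≤ n j ∧ n j < m)
    (j : ℕ) (k : Fin (r + 1)) (x₀ h : ℝ) (hh : 0 < h) :
    Pth (et m s n j) x₀ h (s k) = Ak m s n x₀ h k + (ze m ^ ff n j)⁻¹ *
      (-(Complex.I * ∫ y in (-h)..(0 : ℝ), et m s n (r + 1) (s k + y * Complex.I)) +
        ∫ t in (s k)..x₀, et m s n (r + 1) (t - h * Complex.I)) := by
  have hI := vert_int hBr hm hs hn j k h hh
  have hI1 : IntervalIntegrable (fun y : ℝ => et m s n j (s k + y * Complex.I)) volume (-h) 0 :=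
    hI.mono_set (by
      rw [Set.uIcc_of_le (by linarith), Set.uIcc_of_le (by linarith)]
      exact Set.Icc_subset_Icc le_rfl hh.le)
  have hI2 : IntervalIntegrable (fun y : ℝ => et m s n j (s k + y * Complex.I)) volume 0 h :=
    hI.mono_set (by
      rw [Set.uIcc_of_le hh.le, Set.uIcc_of_le (by linarith)]
      exact Set.Icc_subset_Icc (by linarith) le_rfl)
  have hup : ∀ x : ℂ, 0 < x.im → et m s n j x = (yk m s n 0 x)⁻¹ := fun x hx => by
    rw [et, (hBr m r s n j hm).2.2.2.2.1 x hx]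
  have hlo : ∀ x : ℂ, x.im < 0 → et m s n j x = (ze m ^ ff n j)⁻¹ * et m s n (r + 1) x :=
    fun x hx => by
      rw [et, et, (hBr m r s n j hm).2.2.2.2.2.1 x hx, mul_inv]
      rfl
  have e1 : (∫ t in x₀..(s k), et m s n j (t + h * Complex.I)) =
      ∫ t in x₀..(s k), (yk m s n 0 (t + h * Complex.I))⁻¹ := by
    refine intervalIntegral.integral_congr fun t _ => ?_
    exact hup _ (by simpa using hh)
  have e2 : (∫ y in (0 : ℝ)..h, et m s n j (s k + y * Complex.I)) =
      ∫ y in (0 : ℝ)..h, (yk m s n 0 (s k + y * Complex.I))⁻¹ := by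
    rw [intervalIntegral.integral_of_le hh.le, intervalIntegral.integral_of_le hh.le]
    refine setIntegral_congr_fun measurableSet_Ioc fun y hy => ?_
    exact hup _ (by simpa using hy.1)
  have e3 : (∫ y in (-h)..(0 : ℝ), et m s n j (s k + y * Complex.I)) =
      (ze m ^ ff n j)⁻¹ * ∫ y in (-h)..(0 : ℝ), et m s n (r + 1) (s k + y * Complex.I) := by
    rw [← intervalIntegral.integral_const_mul]
    refine intervalIntegral.integral_congr_ae ?_
    have h0 : ∀ᵐ y : ℝ, y ≠ 0 := by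
      have := (measure_singleton (μ := (volume : Measure ℝ)) (0 : ℝ))
      exact compl_mem_ae_iff.2 this
    filter_upwards [h0] with y hy hy2
    rw [Set.uIoc_of_le (by linarith)] at hy2
    have hy3 : y < 0 := lt_of_le_of_ne hy2.2 hy
    exact hlo _ (by simpa using hy3)
  have e4 : (∫ t in (s k)..x₀, et m s n j (t - h * Complex.I)) =
      (ze m ^ ff n j)⁻¹ * ∫ t in (s k)..x₀, et m s n (r + 1) (t - h * Complex.I) := by
    rw [← intervalIntegral.integral_const_mul]
    refine intervalIntegral.integral_congr fun t _ => ?_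
    exact hlo _ (by simpa using hh)
  unfold Pth Ak
  rw [← intervalIntegral.integral_add_adjacent_intervals hI1 hI2, e1, e2, e3, e4, smul_eq_mul]
  ring

end Ca_aux

open Ca_aux in
/-- Module Ca: around `s_k`. -/
theorem tCa : S_Br → S_Ca := by
  intro hBr m r s n hm hs hn x₀ h c hh hc k β z
  have hb1 : β k.val = Pth (et m s n k.val) x₀ h (s k) :=
    pth_lim_left hBr hm hs hn k x₀ h hh (c k.val) (hc k.val (by omega))
  have hb2 : β (k.val + 1) = Pth (et m s n (k.val + 1)) x₀ h (s k) :=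
    pth_lim_right hBr hm hs hn k x₀ h hh (c (k.val + 1)) (hc (k.val + 1) (by omega))
  have hz : z = (ze m ^ n k)⁻¹ := rfl
  rw [hb1, hb2, pth_val hBr hm hs hn k.val k x₀ h hh, pth_val hBr hm hs hn (k.val + 1) k x₀ h hh,
    ff_succ k, hz, pow_add, mul_inv]
  ring

end SEB
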