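import Pool.Agent.Lib.SE.Big.VG2
import Pool.Agent.Lib.SE.Big.Ca

/-!
# PROJECT SE, module IsBig, part 4, module CaF: Cauchy on rectangles around `s_k`, with a polynomial
-/

set_option autoImplicit false

open Module MeasureTheory Topology

noncomputable section

namespace SEB

open HC HC.E HC.SE

namespace CaF_aux

open Ca_aux

/-- the inverse branch, with the factor `f` -/
def eF (f : Polynomial ℂ) (m : ℕ) {r : ℕ} (s : Fin (r + 1) → ℝ) (n : Fin (r + 1) → ℕ) (j : ℕ)
    (x : ℂ) : ℂ :=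
  f.eval x * (yk m s n j x)⁻¹

variable {m r : ℕ} {s : Fin (r + 1) → ℝ} {n : Fin (r + 1) → ℕ} {f : Polynomial ℂ}

theorem eF_diff (hBr : S_Br) (hm : 1 ≤ m) (j : ℕ) :
    DifferentiableOn ℂ (eF f m s n j) (Uk s j) :=
  f.differentiable.differentiableOn.mul (et_diff hBr hm j)

theorem eF_cont (hBr : S_Br) (hm : 1 ≤ m) (j : ℕ) {x : ℂ} (hx : x ∈ Uk s j) :
    ContinuousAt (eF f m s n j) x :=
  (eF_diff hBr hm j).continuousOn.continuousAt ((hBr m r s n j hm).2.2.1.mem_nhds hx)

/-- continuity on horizontal lines -/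
theorem horF_cont (hBr : S_Br) (hm : 1 ≤ m) (j : ℕ) (g : ℝ) (hg : g ≠ 0) :
    Continuous (fun t : ℝ => eF f m s n j (t + g * Complex.I)) := by
  rw [continuous_iff_continuousAt]
  intro t
  have h1 : ((t : ℂ) + g * Complex.I) ∈ Uk s j := Or.inl (by simpa using hg)
  exact ContinuousAt.comp (f := fun t : ℝ => ((t : ℂ) + g * Complex.I)) (eF_cont hBr hm j h1)
    (by fun_prop)

theorem vertF_meas (hBr : S_Br) (hm : 1 ≤ m) (j : ℕ) (c : ℝ) :
    AEStronglyMeasurable (fun y : ℝ => eF f m s n j (c + y * Complex.I)) volume := by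
  have h1 : Continuous (fun y : ℝ => f.eval ((c : ℂ) + y * Complex.I)) :=
    f.continuous.comp (by fun_prop)
  exact h1.aestronglyMeasurable.mul (vert_meas hBr hm j c)

/-- the bound of the polynomial near the vertical segment -/
theorem pol_bound (f : Polynomial ℂ) (a h : ℝ) : ∃ C : ℝ, 0 ≤ C ∧
    ∀ c ∈ Set.Icc (a - 1) (a + 1), ∀ y ∈ Set.Icc (-h) h, ‖f.eval ((c : ℂ) + y * Complex.I)‖ ≤ C := by
  have h1 : IsCompact (Set.Icc (a - 1) (a + 1) ×ˢ Set.Icc (-h) h) :=
    isCompact_Icc.prod isCompact_Icc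
  have h2 : Continuous (fun p : ℝ × ℝ => f.eval ((p.1 : ℂ) + p.2 * Complex.I)) :=
    f.continuous.comp (by fun_prop)
  obtain ⟨C, hC⟩ := h1.exists_bound_of_continuousOn h2.continuousOn
  exact ⟨max C 0, le_max_right _ _, fun c hc y hy =>
    (hC (c, y) ⟨hc, hy⟩).trans (le_max_left _ _)⟩

/-- the bound on vertical lines -/
theorem vertF_bound (hBr : S_Br) (hm : 1 ≤ m) (j : ℕ) (k : Fin (r + 1)) (δ : ℝ) (hδ : 0 < δ)
    (c y C : ℝ) (hc : ∀ i, i ≠ k → δ ≤ |c - s i|) (hy : y ≠ 0)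
    (hC : ‖f.eval ((c : ℂ) + y * Complex.I)‖ ≤ C) :
    ‖eF f m s n j (c + y * Complex.I)‖ ≤
      C * ((∏ i ∈ Finset.univ.erase k, δ ^ ((n i : ℝ) / m))⁻¹ * |y| ^ (-((n k : ℝ) / m))) := by
  have h1 := vert_bound (n := n) hBr hm j k δ hδ c y hc hy
  rw [eF, norm_mul]
  exact mul_le_mul hC h1 (norm_nonneg _) ((norm_nonneg _).trans hC)

/-- the vertical integral is continuous in the position at `s_k` -/
theorem vertF_cont (hBr : S_Br) (hm : 1 ≤ m) (hs : StrictMono s) (hn : ∀ j, 1 ≤ n j ∧ n j < m)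
    (j : ℕ) (k : Fin (r + 1)) (h : ℝ) (hh : 0 < h) :
    ContinuousAt (fun c : ℝ => ∫ y in (-h)..h, eF f m s n j (c + y * Complex.I)) (s k) := by
  obtain ⟨δ, hδ, hev⟩ := exists_delta hs k
  obtain ⟨C, hC0, hC⟩ := pol_bound f (s k) h
  refine intervalIntegral.continuousAt_of_dominated_interval
    (bound := fun y => C * ((∏ i ∈ Finset.univ.erase k, δ ^ ((n i : ℝ) / m))⁻¹ *
      |y| ^ (-((n k : ℝ) / m)))) ?_ ?_ ?_ ?_
  · exact Filter.Eventually.of_forall fun c => (vertF_meas hBr hm j c).restrict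
  · filter_upwards [hev, Icc_mem_nhds (by linarith : s k - 1 < s k)
      (by linarith : s k < s k + 1)] with c hc hc2
    have h0 : ∀ᵐ y : ℝ, y ≠ 0 := by
      have := (measure_singleton (μ := (volume : Measure ℝ)) (0 : ℝ))
      exact compl_mem_ae_iff.2 this
    filter_upwards [h0] with y hy hy2
    rw [Set.uIoc_of_le (by linarith)] at hy2
    exact vertF_bound hBr hm j k δ hδ c y C hc hy (hC c hc2 y ⟨hy2.1.le, hy2.2⟩)
  · exact ((int_abs _ h (pow_lt_one hm hn k) hh).const_mul _).const_mul _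
  · have h0 : ∀ᵐ y : ℝ, y ≠ 0 := by
      have := (measure_singleton (μ := (volume : Measure ℝ)) (0 : ℝ))
      exact compl_mem_ae_iff.2 this
    filter_upwards [h0] with y hy _
    have h2 : (((s k : ℝ) : ℂ) + y * Complex.I) ∈ Uk s j := Or.inl (by simpa using hy)
    exact ContinuousAt.comp (f := fun c : ℝ => ((c : ℂ) + y * Complex.I)) (eF_cont hBr hm j h2)
      (by fun_prop)

theorem vertF_int (hBr : S_Br) (hm : 1 ≤ m) (hs : StrictMono s) (hn : ∀ j, 1 ≤ n j ∧ n j < m)
    (j : ℕ) (k : Fin (r + 1)) (h : ℝ) (hh : 0 < h) :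
    IntervalIntegrable (fun y : ℝ => eF f m s n j (s k + y * Complex.I)) volume (-h) h := by
  obtain ⟨δ, hδ, hev⟩ := exists_delta hs k
  obtain ⟨C, hC0, hC⟩ := pol_bound f (s k) h
  refine IntervalIntegrable.mono_fun' (((int_abs _ h (pow_lt_one hm hn k) hh).const_mul
    (∏ i ∈ Finset.univ.erase k, δ ^ ((n i : ℝ) / m))⁻¹).const_mul C)
    (vertF_meas hBr hm j (s k)).restrict ?_
  have h0 : ∀ᵐ y : ℝ, y ≠ 0 := by
    have := (measure_singleton (μ := (volume : Measure ℝ)) (0 : ℝ))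
    exact compl_mem_ae_iff.2 this
  rw [Filter.EventuallyLE, ae_restrict_iff' measurableSet_uIoc]
  filter_upwards [h0] with y hy hy2
  rw [Set.uIoc_of_le (by linarith)] at hy2
  exact vertF_bound hBr hm j k δ hδ (s k) y C hev.self_of_nhds hy
    (hC (s k) ⟨by linarith, by linarith⟩ y ⟨hy2.1.le, hy2.2⟩)

/-- the path integral is continuous at `s_k` -/
theorem pthF_cont (hBr : S_Br) (hm : 1 ≤ m) (hs : StrictMono s) (hn : ∀ j, 1 ≤ n j ∧ n j < m)
    (j : ℕ) (k : Fin (r + 1)) (x₀ h : ℝ) (hh : 0 < h) :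
    ContinuousAt (fun c : ℝ => Pth (eF f m s n j) x₀ h c) (s k) := by
  have h1 := horF_cont (s := s) (n := n) (f := f) hBr hm j h hh.ne'
  have h2 := horF_cont (s := s) (n := n) (f := f) hBr hm j (-h) (neg_ne_zero.2 hh.ne')
  have h2' : Continuous (fun t : ℝ => eF f m s n j (t - h * Complex.I)) := by
    have h3 : (fun t : ℝ => eF f m s n j (t - h * Complex.I)) =
        fun t : ℝ => eF f m s n j (t + ((-h : ℝ) : ℂ) * Complex.I) := by
      funext t
      refine congrArg _ ?_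
      push_cast
      ring
    rw [h3]
    exact h2
  unfold Pth
  refine ContinuousAt.add (ContinuousAt.sub ?_ ?_) ?_
  · exact (intervalIntegral.continuous_primitive (fun a b => h1.intervalIntegrable a b)
      x₀).continuousAt
  · exact (vertF_cont hBr hm hs hn j k h hh).const_smul Complex.I
  · have h4 : (fun c : ℝ => ∫ t in c..x₀, eF f m s n j (t - h * Complex.I)) =
        fun c : ℝ => -∫ t in x₀..c, eF f m s n j (t - h * Complex.I) := by
      funext c
      rw [intervalIntegral.integral_symm]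
    rw [h4]
    exact (intervalIntegral.continuous_primitive (fun a b => h2'.intervalIntegrable a b)
      x₀).continuousAt.neg

/-- the path integral is constant on the gap -/
theorem pthF_const (hBr : S_Br) (hm : 1 ≤ m) (j : ℕ) (x₀ h : ℝ) (hh : 0 < h) (x x' : ℝ)
    (hx : x ∈ Gp s j) (hx' : x' ∈ Gp s j) :
    Pth (eF f m s n j) x₀ h x' = Pth (eF f m s n j) x₀ h x := by
  have h1 := horF_cont (s := s) (n := n) (f := f) hBr hm j h hh.ne'
  have h2 := horF_cont (s := s) (n := n) (f := f) hBr hm j (-h) (neg_ne_zero.2 hh.ne')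
  have e1 : ∀ t : ℝ, (t : ℂ) - h * Complex.I = t + ((-h : ℝ) : ℂ) * Complex.I := fun t => by
    push_cast
    ring
  have hC := Complex.integral_boundary_rect_eq_zero_of_differentiableOn (eF f m s n j)
    (⟨x, -h⟩ : ℂ) (⟨x', h⟩ : ℂ) ((eF_diff hBr hm j).mono fun p hp => by
      have hp1 : p.re ∈ Set.uIcc x x' := hp.1
      rw [Set.mem_uIcc] at hp1
      refine Or.inr ⟨fun i hi => ?_, fun i hi => ?_⟩
      · have h3 := hx.1 i hi
        have h4 := hx'.1 i hi
        rcases hp1 with h5 | h5 <;> linarith [h5.1, h5.2]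
      · have h3 := hx.2 i hi
        have h4 := hx'.2 i hi
        rcases hp1 with h5 | h5 <;> linarith [h5.1, h5.2])
  have hC' : (∫ t in x..x', eF f m s n j (t + ((-h : ℝ) : ℂ) * Complex.I)) -
      (∫ t in x..x', eF f m s n j (t + (h : ℂ) * Complex.I)) +
      Complex.I • (∫ y in (-h)..h, eF f m s n j (x' + y * Complex.I)) -
      Complex.I • (∫ y in (-h)..h, eF f m s n j (x + y * Complex.I)) = 0 := hC
  unfold Pth
  simp only [e1]
  have h3 := intervalIntegral.integral_add_adjacent_intervals (h1.intervalIntegrable x₀ x)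
    (h1.intervalIntegrable x x') (μ := volume)
  have h4 := intervalIntegral.integral_add_adjacent_intervals (h2.intervalIntegrable x x')
    (h2.intervalIntegrable x' x₀) (μ := volume)
  rw [← h3, ← h4]
  linear_combination -hC'

/-- the value at the limit -/
theorem pthF_lim_left (hBr : S_Br) (hm : 1 ≤ m) (hs : StrictMono s)
    (hn : ∀ j, 1 ≤ n j ∧ n j < m) (k : Fin (r + 1)) (x₀ h : ℝ) (hh : 0 < h) (c : ℝ)
    (hc : c ∈ Gp s k.val) :
    Pth (eF f m s n k.val) x₀ h c = Pth (eF f m s n k.val) x₀ h (s k) := by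
  have hck : c < s k := hc.2 k le_rfl
  have h1 : Filter.Tendsto (fun c : ℝ => Pth (eF f m s n k.val) x₀ h c) (𝓝[<] (s k))
      (𝓝 (Pth (eF f m s n k.val) x₀ h (s k))) :=
    (pthF_cont hBr hm hs hn k.val k x₀ h hh).tendsto.mono_left nhdsWithin_le_nhds
  have h2 : ∀ᶠ x in 𝓝[<] (s k),
      Pth (eF f m s n k.val) x₀ h c = Pth (eF f m s n k.val) x₀ h x := by
    filter_upwards [Ioo_mem_nhdsLT hck] with x hx
    refine (pthF_const hBr hm k.val x₀ h hh c x hc ⟨fun i hi => ?_, fun i hi => ?_⟩).symm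
    · exact (hc.1 i hi).trans hx.1
    · exact hx.2.trans_le (hs.monotone hi)
  exact tendsto_nhds_unique (tendsto_const_nhds.congr' h2) h1

theorem pthF_lim_right (hBr : S_Br) (hm : 1 ≤ m) (hs : StrictMono s)
    (hn : ∀ j, 1 ≤ n j ∧ n j < m) (k : Fin (r + 1)) (x₀ h : ℝ) (hh : 0 < h) (c : ℝ)
    (hc : c ∈ Gp s (k.val + 1)) :
    Pth (eF f m s n (k.val + 1)) x₀ h c = Pth (eF f m s n (k.val + 1)) x₀ h (s k) := by
  have hck : s k < c := hc.1 k (Nat.lt_succ_self _)
  have h1 : Filter.Tendsto (fun c : ℝ => Pth (eF f m s n (k.val + 1)) x₀ h c) (𝓝[>] (s k))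
      (𝓝 (Pth (eF f m s n (k.val + 1)) x₀ h (s k))) :=
    (pthF_cont hBr hm hs hn (k.val + 1) k x₀ h hh).tendsto.mono_left nhdsWithin_le_nhds
  have h2 : ∀ᶠ x in 𝓝[>] (s k),
      Pth (eF f m s n (k.val + 1)) x₀ h c = Pth (eF f m s n (k.val + 1)) x₀ h x := by
    filter_upwards [Ioo_mem_nhdsGT hck] with x hx
    refine (pthF_const hBr hm (k.val + 1) x₀ h hh c x hc
      ⟨fun i hi => ?_, fun i hi => ?_⟩).symm
    · have hik : i ≤ k := Fin.le_def.2 (Nat.le_of_lt_succ hi)
      exact (hs.monotone hik).trans_lt hx.1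
    · exact hx.2.trans (hc.2 i hi)
  exact tendsto_nhds_unique (tendsto_const_nhds.congr' h2) h1

/-- the value of the path integral at `s_k` -/
theorem pthF_val (hBr : S_Br) (hm : 1 ≤ m) (hs : StrictMono s) (hn : ∀ j, 1 ≤ n j ∧ n j < m)
    (j : ℕ) (k : Fin (r + 1)) (x₀ h : ℝ) (hh : 0 < h) :
    Pth (eF f m s n j) x₀ h (s k) = AkF m s n f x₀ h k + (ze m ^ ff n j)⁻¹ *
      (-(Complex.I * ∫ y in (-h)..(0 : ℝ), eF f m s n (r + 1) (s k + y * Complex.I)) +
        ∫ t in (s k)..x₀, eF f m s n (r + 1) (t - h * Complex.I)) := by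
  have hI := vertF_int (f := f) hBr hm hs hn j k h hh
  have hI1 : IntervalIntegrable (fun y : ℝ => eF f m s n j (s k + y * Complex.I)) volume (-h) 0 :=
    hI.mono_set (by
      rw [Set.uIcc_of_le (by linarith), Set.uIcc_of_le (by linarith)]
      exact Set.Icc_subset_Icc le_rfl hh.le)
  have hI2 : IntervalIntegrable (fun y : ℝ => eF f m s n j (s k + y * Complex.I)) volume 0 h :=
    hI.mono_set (by
      rw [Set.uIcc_of_le hh.le, Set.uIcc_of_le (by linarith)]
      exact Set.Icc_subset_Icc (by linarith) le_rfl)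
  have hup : ∀ x : ℂ, 0 < x.im → eF f m s n j x = f.eval x * (yk m s n 0 x)⁻¹ := fun x hx => by
    rw [eF, (hBr m r s n j hm).2.2.2.2.1 x hx]
  have hlo : ∀ x : ℂ, x.im < 0 → eF f m s n j x = (ze m ^ ff n j)⁻¹ * eF f m s n (r + 1) x :=
    fun x hx => by
      rw [eF, eF, (hBr m r s n j hm).2.2.2.2.2.1 x hx, mul_inv, ← mul_assoc, mul_comm (f.eval x),
        mul_assoc]
      rfl
  have e1 : (∫ t in x₀..(s k), eF f m s n j (t + h * Complex.I)) =
      ∫ t in x₀..(s k), f.eval (t + h * Complex.I : ℂ) * (yk m s n 0 (t + h * Complex.I))⁻¹ := by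
    refine intervalIntegral.integral_congr fun t _ => ?_
    exact hup _ (by simpa using hh)
  have e2 : (∫ y in (0 : ℝ)..h, eF f m s n j (s k + y * Complex.I)) =
      ∫ y in (0 : ℝ)..h,
        f.eval (s k + y * Complex.I : ℂ) * (yk m s n 0 (s k + y * Complex.I))⁻¹ := by
    rw [intervalIntegral.integral_of_le hh.le, intervalIntegral.integral_of_le hh.le]
    refine setIntegral_congr_fun measurableSet_Ioc fun y hy => ?_
    exact hup _ (by simpa using hy.1)
  have e3 : (∫ y in (-h)..(0 : ℝ), eF f m s n j (s k + y * Complex.I)) =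
      (ze m ^ ff n j)⁻¹ * ∫ y in (-h)..(0 : ℝ), eF f m s n (r + 1) (s k + y * Complex.I) := by
    rw [← intervalIntegral.integral_const_mul]
    refine intervalIntegral.integral_congr_ae ?_
    have h0 : ∀ᵐ y : ℝ, y ≠ 0 := by
      have := (measure_singleton (μ := (volume : Measure ℝ)) (0 : ℝ))
      exact compl_mem_ae_iff.2 this
    filter_upwards [h0] with y hy hy2
    rw [Set.uIoc_of_le (by linarith)] at hy2
    have hy3 : y < 0 := lt_of_le_of_ne hy2.2 hy
    exact hlo _ (by simpa using hy3)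
  have e4 : (∫ t in (s k)..x₀, eF f m s n j (t - h * Complex.I)) =
      (ze m ^ ff n j)⁻¹ * ∫ t in (s k)..x₀, eF f m s n (r + 1) (t - h * Complex.I) := by
    rw [← intervalIntegral.integral_const_mul]
    refine intervalIntegral.integral_congr fun t _ => ?_
    exact hlo _ (by simpa using hh)
  unfold Pth AkF
  rw [← intervalIntegral.integral_add_adjacent_intervals hI1 hI2, e1, e2, e3, e4, smul_eq_mul]
  ring

end CaF_aux

open Ca_aux CaF_aux in
/-- Module CaF: around `s_k`, with the factor `f`. -/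
theorem tCaF : S_Br → S_CaF := by
  intro hBr m r s n f hm hs hn x₀ h c hh hc k β z
  have hb1 : β k.val = Pth (eF f m s n k.val) x₀ h (s k) :=
    pthF_lim_left hBr hm hs hn k x₀ h hh (c k.val) (hc k.val (by omega))
  have hb2 : β (k.val + 1) = Pth (eF f m s n (k.val + 1)) x₀ h (s k) :=
    pthF_lim_right hBr hm hs hn k x₀ h hh (c (k.val + 1)) (hc (k.val + 1) (by omega))
  have hz : z = (ze m ^ n k)⁻¹ := rfl
  rw [hb1, hb2, pthF_val hBr hm hs hn k.val k x₀ h hh,
    pthF_val hBr hm hs hn (k.val + 1) k x₀ h hh, ff_succ k, hz, pow_add, mul_inv]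
  ring

end SEB
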