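import Pool.Agent.Lib.SE.Big.VG

/-!
# PROJECT SE, IsBig part 2, Cb: Cauchy's theorem between `s_k` and `s_(k+1)` (helper26)
-/

set_option autoImplicit false

open Module MeasureTheory Topology Filter

noncomputable section

namespace SEB

open HC HC.E HC.SE

namespace Cb_aux

variable {m r : ℕ} {s : Fin (r + 1) → ℝ} {n : Fin (r + 1) → ℕ}

lemma ne_of_Uk {k : ℕ} {x : ℂ} (hx : x ∈ Uk s k) (j : Fin (r + 1)) : x - (s j : ℂ) ≠ 0 := by
  intro h
  have hx' : x = (s j : ℂ) := sub_eq_zero.1 h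
  rcases hx with h1 | ⟨h1, h2⟩
  · exact h1 (by rw [hx', Complex.ofReal_im])
  · have hre : x.re = s j := by rw [hx', Complex.ofReal_re]
    by_cases hj : j.val < k
    · have := h1 j hj
      linarith
    · have := h2 j (not_lt.1 hj)
      linarith

lemma up_Uk {k : ℕ} {x : ℂ} (hx : 0 < x.im) : x ∈ Uk s k := Or.inl hx.ne'

lemma yk_ne (hbr : S_Br) (hm : 1 ≤ m) {k : ℕ} {x : ℂ} (hx : x ∈ Uk s k) : yk m s n k x ≠ 0 := by
  have h := (hbr m r s n k hm).2.2.2.1 x
  intro h0
  rw [h0, norm_zero] at h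
  exact Finset.prod_ne_zero_iff.2 (fun j _ =>
    (Real.rpow_pos_of_pos (norm_pos_iff.2 (ne_of_Uk hx j)) _).ne') h.symm

lemma diff (hbr : S_Br) (hm : 1 ≤ m) (k : ℕ) :
    DifferentiableOn ℂ (fun x => (yk m s n k x)⁻¹) (Uk s k) :=
  (hbr m r s n k hm).2.1.inv fun _ hx => yk_ne hbr hm hx

lemma contAt (hbr : S_Br) (hm : 1 ≤ m) (k : ℕ) {x : ℂ} (hx : x ∈ Uk s k) :
    ContinuousAt (fun x => (yk m s n k x)⁻¹) x :=
  ((diff hbr hm k).differentiableAt ((hbr m r s n k hm).2.2.1.mem_nhds hx)).continuousAt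

lemma eq0 (hbr : S_Br) (hm : 1 ≤ m) (k : ℕ) {x : ℂ} (hx : 0 < x.im) :
    yk m s n k x = yk m s n 0 x := (hbr m r s n k hm).2.2.2.2.1 x hx

lemma im_add (u y : ℝ) : ((u : ℂ) + (y : ℂ) * Complex.I).im = y := by simp

lemma re_add (u y : ℝ) : ((u : ℂ) + (y : ℂ) * Complex.I).re = u := by simp

/-- the vertical integrals are continuous at `s_l` -/
lemma vert (hbr : S_Br) (hm : 1 ≤ m) (hs : StrictMono s) (hn : ∀ j, 1 ≤ n j ∧ n j < m) {h : ℝ}
    (hh : 0 < h) (l : Fin (r + 1)) :
    Tendsto (fun u : ℝ => ∫ y in (0 : ℝ)..h, (yk m s n 0 ((u : ℂ) + (y : ℂ) * Complex.I))⁻¹) (𝓝 (s l))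
      (𝓝 (∫ y in (0 : ℝ)..h, (yk m s n 0 ((s l : ℂ) + (y : ℂ) * Complex.I))⁻¹)) := by
  have hmpos : (0 : ℝ) < m := by exact_mod_cast hm
  have hIoc : Set.uIoc 0 h = Set.Ioc 0 h := Set.uIoc_of_le hh.le
  have hlt : -1 < -((n l : ℝ) / m) := by
    have h1 : (n l : ℝ) / m < 1 := by
      rw [div_lt_one hmpos]
      exact_mod_cast (hn l).2
    linarith
  refine intervalIntegral.tendsto_integral_filter_of_dominated_convergence
    (fun y => (∏ j ∈ Finset.univ.erase l, (|s l - s j| / 2) ^ ((n j : ℝ) / m))⁻¹ * y ^ (-((n l : ℝ) / m)))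
    (Eventually.of_forall fun u => ?_) ?_ ?_ (Eventually.of_forall fun y hy => ?_)
  · rw [hIoc]
    refine ContinuousOn.aestronglyMeasurable (fun y hy => ?_) measurableSet_Ioc
    have h1 : ContinuousAt (fun x => (yk m s n 0 x)⁻¹) ((u : ℂ) + (y : ℂ) * Complex.I) :=
      contAt hbr hm 0 (up_Uk (by rw [im_add]; exact hy.1))
    exact (ContinuousAt.comp (f := fun y : ℝ => (u : ℂ) + (y : ℂ) * Complex.I) h1
      (by fun_prop)).continuousWithinAt
  · have hev : ∀ᶠ u : ℝ in 𝓝 (s l), ∀ j, j ≠ l → |u - s l| < |s l - s j| / 2 := by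
      rw [eventually_all]
      intro j
      by_cases hj : j = l
      · exact Eventually.of_forall fun u h => absurd hj h
      · have hpos : 0 < |s l - s j| / 2 := by
          have : s l - s j ≠ 0 := sub_ne_zero.2 fun h => hj (hs.injective h).symm
          positivity
        have h1 : ContinuousAt (fun u : ℝ => |u - s l|) (s l) := by fun_prop
        have h2 : ∀ᶠ u : ℝ in 𝓝 (s l), |u - s l| < |s l - s j| / 2 :=
          h1.eventually_lt_const (by simpa using hpos)
        filter_upwards [h2] with u hu _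
        exact hu
    filter_upwards [hev] with u hu
    refine Eventually.of_forall fun y hy => ?_
    rw [hIoc] at hy
    have hy0 : 0 < y := hy.1
    rw [norm_inv, (hbr m r s n 0 hm).2.2.2.1, ← Finset.mul_prod_erase Finset.univ _ (Finset.mem_univ l),
      mul_inv, mul_comm]
    have hposj : ∀ j ∈ Finset.univ.erase l, 0 < (|s l - s j| / 2) ^ ((n j : ℝ) / m) := by
      intro j hj
      have : s l - s j ≠ 0 := sub_ne_zero.2 fun h => (Finset.ne_of_mem_erase hj) (hs.injective h).symm
      positivity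
    refine mul_le_mul ?_ ?_ (by positivity) (by
      refine inv_nonneg.2 (Finset.prod_nonneg fun j hj => (hposj j hj).le))
    · refine inv_anti₀ (Finset.prod_pos hposj) (Finset.prod_le_prod (fun j hj => (hposj j hj).le) fun j hj => ?_)
      refine Real.rpow_le_rpow (by positivity) ?_ (by positivity)
      have h1 : |u - s j| ≤ ‖(u : ℂ) + (y : ℂ) * Complex.I - (s j : ℂ)‖ := by
        have := Complex.abs_re_le_norm ((u : ℂ) + (y : ℂ) * Complex.I - (s j : ℂ))
        rwa [Complex.sub_re, re_add, Complex.ofReal_re] at this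
      have h2 := hu j (Finset.ne_of_mem_erase hj)
      have h3 : |s l - s j| ≤ |u - s l| + |u - s j| := by
        have := abs_sub_le (s l) u (s j)
        rwa [abs_sub_comm (s l) u] at this
      linarith
    · rw [Real.rpow_neg hy0.le]
      refine inv_anti₀ (by positivity) ?_
      refine Real.rpow_le_rpow hy0.le ?_ (by positivity)
      have := Complex.abs_im_le_norm ((u : ℂ) + (y : ℂ) * Complex.I - (s l : ℂ))
      rw [Complex.sub_im, im_add, Complex.ofReal_im, sub_zero, abs_of_pos hy0] at this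
      exact this
  · exact (intervalIntegral.intervalIntegrable_rpow' hlt).const_mul _
  · rw [hIoc] at hy
    have h1 : ContinuousAt (fun x => (yk m s n 0 x)⁻¹) ((s l : ℂ) + (y : ℂ) * Complex.I) :=
      contAt hbr hm 0 (up_Uk (by rw [im_add]; exact hy.1))
    exact ContinuousAt.comp (f := fun u : ℝ => (u : ℂ) + (y : ℂ) * Complex.I) h1 (by fun_prop)

/-- the weight is integrable -/
lemma wt_int (μ : Fin (r + 1) → ℝ) (hμ : ∀ j, 0 < μ j ∧ μ j < 1) (hs : StrictMono s) (k : Fin r) :
    IntervalIntegrable (wt μ s) volume (s k.castSucc) (s k.succ) := by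
  set a := s k.castSucc with ha
  set b := s k.succ with hb
  have hab : a < b := hs (Fin.castSucc_lt_succ)
  set C : ℝ := ∏ j ∈ (Finset.univ.erase k.castSucc).erase k.succ,
    (if j < k.castSucc then (a - s j) else (s j - b)) ^ (-μ j) with hC
  have hj1 : ∀ j, j ∈ (Finset.univ.erase k.castSucc).erase k.succ → j < k.castSucc ∨ k.succ < j := by
    intro j hj
    have h1 := Finset.ne_of_mem_erase hj
    have h2 := Finset.ne_of_mem_erase (Finset.mem_of_mem_erase hj)
    rcases lt_trichotomy j k.castSucc with h | h | h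
    · exact Or.inl h
    · exact absurd h h2
    · right
      have h3 : k.castSucc.val < j.val := h
      have h4 : j.val ≠ k.succ.val := fun e => h1 (Fin.ext e)
      have h5 : k.succ.val = k.castSucc.val + 1 := by simp
      exact Fin.lt_def.2 (by omega)
  have hpos : ∀ j ∈ (Finset.univ.erase k.castSucc).erase k.succ,
      0 < (if j < k.castSucc then (a - s j) else (s j - b)) := by
    intro j hj
    rcases hj1 j hj with h | h
    · rw [if_pos h]
      exact sub_pos.2 (hs h)
    · rw [if_neg (not_lt.2 ((Fin.castSucc_lt_succ (i := k)).le.trans h.le))]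
      exact sub_pos.2 (hs h)
  have hC0 : 0 ≤ C := Finset.prod_nonneg fun j hj => (Real.rpow_pos_of_pos (hpos j hj) _).le
  have hint : IntervalIntegrable (fun x => C * (((b - a) / 2) ^ (-μ k.succ) * (x - a) ^ (-μ k.castSucc) +
      ((b - a) / 2) ^ (-μ k.castSucc) * (b - x) ^ (-μ k.succ))) volume a b := by
    refine IntervalIntegrable.const_mul (IntervalIntegrable.add (IntervalIntegrable.const_mul ?_ _)
      (IntervalIntegrable.const_mul ?_ _)) _
    · have h1 : IntervalIntegrable (fun x : ℝ => x ^ (-μ k.castSucc)) volume 0 (b - a) :=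
        intervalIntegral.intervalIntegrable_rpow' (by have := (hμ k.castSucc).2; linarith)
      have h2 := IntervalIntegrable.comp_sub_right h1 a
      rwa [zero_add, sub_add_cancel] at h2
    · have h1 : IntervalIntegrable (fun x : ℝ => x ^ (-μ k.succ)) volume (b - a) 0 :=
        intervalIntegral.intervalIntegrable_rpow' (by have := (hμ k.succ).2; linarith)
      have h2 := IntervalIntegrable.comp_sub_left h1 b
      rwa [sub_zero, sub_sub_cancel] at h2
  refine IntervalIntegrable.mono_fun' hint ?_ ?_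
  · refine Measurable.aestronglyMeasurable ?_
    unfold wt
    fun_prop
  · rw [Set.uIoc_of_le hab.le, ← restrict_Ioo_eq_restrict_Ioc, EventuallyLE, ae_restrict_iff' measurableSet_Ioo]
    refine Eventually.of_forall fun x hx => ?_
    have hxa : 0 < x - a := sub_pos.2 hx.1
    have hxb : 0 < b - x := sub_pos.2 hx.2
    have hwt : wt μ s x = (x - a) ^ (-μ k.castSucc) * ((b - x) ^ (-μ k.succ) *
        ∏ j ∈ (Finset.univ.erase k.castSucc).erase k.succ, |x - s j| ^ (-μ j)) := by
      rw [wt, ← Finset.mul_prod_erase Finset.univ _ (Finset.mem_univ k.castSucc),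
        ← Finset.mul_prod_erase (Finset.univ.erase k.castSucc) _
          (Finset.mem_erase.2 ⟨(Fin.castSucc_lt_succ (i := k)).ne', Finset.mem_univ k.succ⟩)]
      rw [← ha, ← hb, abs_of_pos hxa, abs_of_neg (by linarith : x - b < 0), neg_sub]
    have hP : ∏ j ∈ (Finset.univ.erase k.castSucc).erase k.succ, |x - s j| ^ (-μ j) ≤ C := by
      refine Finset.prod_le_prod (fun j _ => by positivity) fun j hj => ?_
      refine Real.rpow_le_rpow_of_nonpos (hpos j hj) ?_ (by have := (hμ j).1; linarith)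
      rcases hj1 j hj with h | h
      · rw [if_pos h]
        exact le_trans (by linarith) (le_abs_self _)
      · rw [if_neg (not_lt.2 ((Fin.castSucc_lt_succ (i := k)).le.trans h.le))]
        exact le_trans (by linarith) (neg_le_abs _)
    have hP0 : 0 ≤ ∏ j ∈ (Finset.univ.erase k.castSucc).erase k.succ, |x - s j| ^ (-μ j) :=
      Finset.prod_nonneg fun j _ => by positivity
    have h0 : 0 ≤ wt μ s x := Finset.prod_nonneg fun j _ => by positivity
    rw [Real.norm_of_nonneg h0, hwt]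
    have hX : 0 < (x - a) ^ (-μ k.castSucc) := Real.rpow_pos_of_pos hxa _
    have hY : 0 < (b - x) ^ (-μ k.succ) := Real.rpow_pos_of_pos hxb _
    have hab2 : 0 < (b - a) / 2 := by linarith
    have hA : 0 < ((b - a) / 2) ^ (-μ k.succ) := Real.rpow_pos_of_pos hab2 _
    have hB : 0 < ((b - a) / 2) ^ (-μ k.castSucc) := Real.rpow_pos_of_pos hab2 _
    have hmain : (x - a) ^ (-μ k.castSucc) * (b - x) ^ (-μ k.succ) ≤
        ((b - a) / 2) ^ (-μ k.succ) * (x - a) ^ (-μ k.castSucc) +
          ((b - a) / 2) ^ (-μ k.castSucc) * (b - x) ^ (-μ k.succ) := by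
      by_cases hx2 : x ≤ (a + b) / 2
      · have : (b - x) ^ (-μ k.succ) ≤ ((b - a) / 2) ^ (-μ k.succ) :=
          Real.rpow_le_rpow_of_nonpos hab2 (by linarith) (by have := (hμ k.succ).1; linarith)
        nlinarith [mul_le_mul_of_nonneg_left this hX.le, mul_pos hB hY]
      · have : (x - a) ^ (-μ k.castSucc) ≤ ((b - a) / 2) ^ (-μ k.castSucc) :=
          Real.rpow_le_rpow_of_nonpos hab2 (by linarith) (by have := (hμ k.castSucc).1; linarith)
        nlinarith [mul_le_mul_of_nonneg_right this hY.le, mul_pos hA hX]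
    calc (x - a) ^ (-μ k.castSucc) * ((b - x) ^ (-μ k.succ) *
        ∏ j ∈ (Finset.univ.erase k.castSucc).erase k.succ, |x - s j| ^ (-μ j))
        = ((x - a) ^ (-μ k.castSucc) * (b - x) ^ (-μ k.succ)) *
          ∏ j ∈ (Finset.univ.erase k.castSucc).erase k.succ, |x - s j| ^ (-μ j) := by ring
      _ ≤ (((b - a) / 2) ^ (-μ k.succ) * (x - a) ^ (-μ k.castSucc) +
          ((b - a) / 2) ^ (-μ k.castSucc) * (b - x) ^ (-μ k.succ)) * C :=
        mul_le_mul hmain hP hP0 (by positivity)
      _ = _ := by ring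

end Cb_aux

open Cb_aux

theorem tCb : S_Br → S_Cb := by
  intro hbr m r s n hm hs hn x₀ h hh k
  have hmpos : (0 : ℝ) < m := by exact_mod_cast hm
  set a := s k.castSucc with ha
  set b := s k.succ with hb
  have hab : a < b := hs (Fin.castSucc_lt_succ)
  set κ : ℂ := Complex.exp (Real.pi * Complex.I / m) ^
    (∑ j ∈ Finset.univ.filter (fun j : Fin (r + 1) => k.val + 1 ≤ j.val), n j) with hκ
  -- the gap
  have hgap : ∀ x : ℝ, a < x → x < b → x ∈ Gp s (k.val + 1) := by
    intro x hx1 hx2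
    refine ⟨fun j hj => ?_, fun j hj => ?_⟩
    · have : s j ≤ a := hs.monotone (Fin.le_def.2 (by simpa using Nat.lt_succ_iff.1 hj))
      linarith
    · have : b ≤ s j := hs.monotone (Fin.le_def.2 (by simpa using hj))
      linarith
  -- on the real axis
  have hreal : ∀ x : ℝ, a < x → x < b →
      (yk m s n (k.val + 1) (x : ℂ))⁻¹ = κ⁻¹ * (wt (fun j => (n j : ℝ) / m) s x : ℂ) := by
    intro x hx1 hx2
    have hprod : (∏ j, |x - s j| ^ ((n j : ℝ) / m))⁻¹ = wt (fun j => (n j : ℝ) / m) s x := by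
      rw [wt, ← Finset.prod_inv_distrib]
      exact Finset.prod_congr rfl fun j _ => (Real.rpow_neg (abs_nonneg _) _).symm
    rw [(hbr m r s n (k.val + 1) hm).2.2.2.2.2.2 x (hgap x hx1 hx2), mul_inv, ← hκ, ← Complex.ofReal_inv,
      hprod]
  have hwt : IntervalIntegrable (wt (fun j => (n j : ℝ) / m) s) volume a b := by
    refine wt_int _ (fun j => ⟨?_, ?_⟩) hs k
    · have h1 : (0 : ℝ) < n j := by exact_mod_cast (hn j).1
      positivity
    · rw [div_lt_one hmpos]
      exact_mod_cast (hn j).2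
  set w : ℝ → ℂ := fun x => κ⁻¹ * (wt (fun j => (n j : ℝ) / m) s x : ℂ) with hw
  have hwint : IntervalIntegrable w volume a b := IntervalIntegrable.const_mul ⟨hwt.1.ofReal, hwt.2.ofReal⟩ κ⁻¹
  -- the horizontal integrand
  set H : ℝ → ℂ := fun t => (yk m s n 0 ((t : ℂ) + (h : ℂ) * Complex.I))⁻¹ with hH
  have hHc : Continuous H := by
    rw [continuous_iff_continuousAt]
    intro t
    have h1 : ContinuousAt (fun x => (yk m s n 0 x)⁻¹) ((t : ℂ) + (h : ℂ) * Complex.I) :=
      contAt hbr hm 0 (up_Uk (by rw [im_add]; exact hh))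
    exact ContinuousAt.comp (f := fun t : ℝ => (t : ℂ) + (h : ℂ) * Complex.I) h1 (by fun_prop)
  set V : ℝ → ℂ := fun u => ∫ y in (0 : ℝ)..h, (yk m s n 0 ((u : ℂ) + (y : ℂ) * Complex.I))⁻¹ with hV
  -- Cauchy
  have hcau : ∀ ε : ℝ, 0 < ε → ε < (b - a) / 2 →
      (∫ x in (a + ε)..(b - ε), w x) - (∫ x in (a + ε)..(b - ε), H x) + Complex.I * V (b - ε) -
        Complex.I * V (a + ε) = 0 := by
    intro ε h1 h2
    have hle : a + ε ≤ b - ε := by linarith
    have hsub : DifferentiableOn ℂ (fun x => (yk m s n (k.val + 1) x)⁻¹)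
        (Set.uIcc (⟨a + ε, 0⟩ : ℂ).re (⟨b - ε, h⟩ : ℂ).re ×ℂ
          Set.uIcc (⟨a + ε, 0⟩ : ℂ).im (⟨b - ε, h⟩ : ℂ).im) := by
      refine (diff hbr hm (k.val + 1)).mono fun z hz => ?_
      rw [Complex.mem_reProdIm, Set.uIcc_of_le hle, Set.uIcc_of_le hh.le] at hz
      exact Or.inr (hgap z.re (by linarith [hz.1.1]) (by linarith [hz.1.2]))
    have h3 := Complex.integral_boundary_rect_eq_zero_of_differentiableOn _ _ _ hsub
    simp only [Complex.ofReal_zero, zero_mul, add_zero, smul_eq_mul] at h3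
    have e1 : ∫ x in (a + ε)..(b - ε), (yk m s n (k.val + 1) (x : ℂ))⁻¹ = ∫ x in (a + ε)..(b - ε), w x := by
      refine intervalIntegral.integral_congr fun x hx => ?_
      rw [Set.uIcc_of_le hle] at hx
      exact hreal x (by linarith [hx.1]) (by linarith [hx.2])
    have e2 : ∫ x in (a + ε)..(b - ε), (yk m s n (k.val + 1) ((x : ℂ) + (h : ℂ) * Complex.I))⁻¹ =
        ∫ x in (a + ε)..(b - ε), H x := by
      refine intervalIntegral.integral_congr fun x hx => ?_
      change (yk m s n (k.val + 1) ((x : ℂ) + (h : ℂ) * Complex.I))⁻¹ = (yk m s n 0 ((x : ℂ) + (h : ℂ) * Complex.I))⁻¹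
      rw [eq0 hbr hm _ (by rw [im_add]; exact hh)]
    have e3 : ∀ u : ℝ, ∫ y in (0 : ℝ)..h, (yk m s n (k.val + 1) ((u : ℂ) + (y : ℂ) * Complex.I))⁻¹ = V u := by
      intro u
      change _ = ∫ y in (0 : ℝ)..h, (yk m s n 0 ((u : ℂ) + (y : ℂ) * Complex.I))⁻¹
      rw [intervalIntegral.integral_of_le hh.le, intervalIntegral.integral_of_le hh.le]
      refine setIntegral_congr_fun measurableSet_Ioc fun y hy => ?_
      rw [eq0 hbr hm _ (by rw [im_add]; exact hy.1)]
    rw [e1, e2, e3, e3] at h3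
    exact h3
  -- limits
  have hab' : a ≤ b := hab.le
  have hlim : ∀ G : ℝ → ℂ, IntervalIntegrable G volume a b →
      Tendsto (fun ε : ℝ => ∫ x in (a + ε)..(b - ε), G x) (𝓝[>] 0) (𝓝 (∫ x in a..b, G x)) := by
    intro G hG
    have hc := intervalIntegral.continuousOn_primitive_interval' hG Set.left_mem_uIcc
    rw [Set.uIcc_of_le hab'] at hc
    have hmem : ∀ᶠ ε : ℝ in 𝓝[>] 0, 0 < ε ∧ ε < (b - a) / 2 := by
      have h1 : Set.Ioo (0 : ℝ) ((b - a) / 2) ∈ 𝓝[>] (0 : ℝ) := Ioo_mem_nhdsGT (by linarith)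
      filter_upwards [h1] with ε hε
      exact hε
    have hB : Tendsto (fun ε : ℝ => ∫ x in a..(b - ε), G x) (𝓝[>] 0) (𝓝 (∫ x in a..b, G x)) := by
      have h1 : Tendsto (fun ε : ℝ => b - ε) (𝓝[>] 0) (𝓝[Set.Icc a b] b) := by
        refine tendsto_nhdsWithin_iff.2 ⟨?_, ?_⟩
        · have : Tendsto (fun ε : ℝ => b - ε) (𝓝 0) (𝓝 (b - 0)) := (continuous_const.sub continuous_id).tendsto 0
          rw [sub_zero] at this
          exact this.mono_left nhdsWithin_le_nhds
        · filter_upwards [hmem] with ε hε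
          exact ⟨by linarith, by linarith⟩
      exact (hc b (Set.right_mem_Icc.2 hab')).tendsto.comp h1
    have hA : Tendsto (fun ε : ℝ => ∫ x in a..(a + ε), G x) (𝓝[>] 0) (𝓝 (∫ x in a..a, G x)) := by
      have h1 : Tendsto (fun ε : ℝ => a + ε) (𝓝[>] 0) (𝓝[Set.Icc a b] a) := by
        refine tendsto_nhdsWithin_iff.2 ⟨?_, ?_⟩
        · have : Tendsto (fun ε : ℝ => a + ε) (𝓝 0) (𝓝 (a + 0)) := (continuous_const.add continuous_id).tendsto 0
          rw [add_zero] at this
          exact this.mono_left nhdsWithin_le_nhds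
        · filter_upwards [hmem] with ε hε
          exact ⟨by linarith, by linarith⟩
      exact (hc a (Set.left_mem_Icc.2 hab')).tendsto.comp h1
    rw [intervalIntegral.integral_same] at hA
    have h2 := hB.sub hA
    rw [sub_zero] at h2
    refine h2.congr' ?_
    filter_upwards [hmem] with ε hε
    have i1 : IntervalIntegrable G volume a (b - ε) := hG.mono_set (by
      rw [Set.uIcc_of_le hab', Set.uIcc_of_le (by linarith)]
      exact Set.Icc_subset_Icc le_rfl (by linarith))
    have i2 : IntervalIntegrable G volume a (a + ε) := hG.mono_set (by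
      rw [Set.uIcc_of_le hab', Set.uIcc_of_le (by linarith)]
      exact Set.Icc_subset_Icc le_rfl (by linarith))
    exact intervalIntegral.integral_interval_sub_left i1 i2
  have hVb : Tendsto (fun ε : ℝ => V (b - ε)) (𝓝[>] 0) (𝓝 (V b)) := by
    have h1 : Tendsto (fun ε : ℝ => b - ε) (𝓝 0) (𝓝 (b - 0)) := (continuous_const.sub continuous_id).tendsto 0
    rw [sub_zero] at h1
    exact ((vert hbr hm hs hn hh k.succ).comp h1).mono_left nhdsWithin_le_nhds
  have hVa : Tendsto (fun ε : ℝ => V (a + ε)) (𝓝[>] 0) (𝓝 (V a)) := by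
    have h1 : Tendsto (fun ε : ℝ => a + ε) (𝓝 0) (𝓝 (a + 0)) := (continuous_const.add continuous_id).tendsto 0
    rw [add_zero] at h1
    exact ((vert hbr hm hs hn hh k.castSucc).comp h1).mono_left nhdsWithin_le_nhds
  have hT := (((hlim w hwint).sub (hlim H (hHc.intervalIntegrable _ _))).add (hVb.const_mul Complex.I)).sub
    (hVa.const_mul Complex.I)
  have hT0 : Tendsto (fun ε : ℝ => (∫ x in (a + ε)..(b - ε), w x) - (∫ x in (a + ε)..(b - ε), H x) +
      Complex.I * V (b - ε) - Complex.I * V (a + ε)) (𝓝[>] 0) (𝓝 0) := by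
    refine tendsto_const_nhds.congr' ?_
    have h1 : Set.Ioo (0 : ℝ) ((b - a) / 2) ∈ 𝓝[>] (0 : ℝ) := Ioo_mem_nhdsGT (by linarith)
    filter_upwards [h1] with ε hε
    exact (hcau ε hε.1 hε.2).symm
  have hkey := tendsto_nhds_unique hT hT0
  -- conclusion
  have hsplit : (∫ t in x₀..b, H t) - ∫ t in x₀..a, H t = ∫ t in a..b, H t :=
    intervalIntegral.integral_interval_sub_left (hHc.intervalIntegrable _ _) (hHc.intervalIntegrable _ _)
  have hIk : ∫ x in a..b, w x = κ⁻¹ * (Ik (fun j => (n j : ℝ) / m) s k : ℂ) := by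
    rw [hw, intervalIntegral.integral_const_mul, intervalIntegral.integral_ofReal]
    rfl
  change ((∫ t in x₀..b, H t) - Complex.I * V b) - ((∫ t in x₀..a, H t) - Complex.I * V a) = _
  rw [← hIk]
  linear_combination hsplit - hkey

end SEB
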