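import Pool.Agent.Lib.SE.Big.VG2
import Pool.Agent.Lib.SE.Big.Cb

/-!
# PROJECT SE, IsBig part 4, CbF: Cauchy's theorem between `s_k` and `s_(k+1)`, with a polynomial
-/

set_option autoImplicit false

open Module MeasureTheory Topology Filter

noncomputable section

namespace SEB

open HC HC.E HC.SE

namespace CbF_aux

open Cb_aux

variable {m r : ℕ} {s : Fin (r + 1) → ℝ} {n : Fin (r + 1) → ℕ} {f : Polynomial ℂ}

/-- the inverse branch, with the factor `f` -/
def gF (f : Polynomial ℂ) (m : ℕ) {r : ℕ} (s : Fin (r + 1) → ℝ) (n : Fin (r + 1) → ℕ) (k : ℕ)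
    (x : ℂ) : ℂ :=
  f.eval x * (yk m s n k x)⁻¹

lemma diffF (hbr : S_Br) (hm : 1 ≤ m) (k : ℕ) : DifferentiableOn ℂ (gF f m s n k) (Uk s k) :=
  f.differentiable.differentiableOn.mul (diff hbr hm k)

lemma contAtF (hbr : S_Br) (hm : 1 ≤ m) (k : ℕ) {x : ℂ} (hx : x ∈ Uk s k) :
    ContinuousAt (gF f m s n k) x :=
  ((diffF hbr hm k).differentiableAt ((hbr m r s n k hm).2.2.1.mem_nhds hx)).continuousAt

lemma eq0F (hbr : S_Br) (hm : 1 ≤ m) (k : ℕ) {x : ℂ} (hx : 0 < x.im) :
    gF f m s n k x = gF f m s n 0 x := by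
  rw [gF, gF, eq0 hbr hm k hx]

/-- the bound of the polynomial near the vertical segment -/
lemma pol_bd (f : Polynomial ℂ) (a h : ℝ) : ∃ C : ℝ, 0 ≤ C ∧
    ∀ c ∈ Set.Icc (a - 1) (a + 1), ∀ y ∈ Set.Icc (-h) h, ‖f.eval ((c : ℂ) + (y : ℂ) * Complex.I)‖ ≤ C := by
  have h1 : IsCompact (Set.Icc (a - 1) (a + 1) ×ˢ Set.Icc (-h) h) :=
    isCompact_Icc.prod isCompact_Icc
  have h2 : Continuous (fun p : ℝ × ℝ => f.eval ((p.1 : ℂ) + (p.2 : ℂ) * Complex.I)) :=
    f.continuous.comp (by fun_prop)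
  obtain ⟨C, hC⟩ := h1.exists_bound_of_continuousOn h2.continuousOn
  exact ⟨max C 0, le_max_right _ _, fun c hc y hy =>
    (hC (c, y) ⟨hc, hy⟩).trans (le_max_left _ _)⟩

/-- the vertical integrals are continuous at `s_l` -/
lemma vertF (hbr : S_Br) (hm : 1 ≤ m) (hs : StrictMono s) (hn : ∀ j, 1 ≤ n j ∧ n j < m) {h : ℝ}
    (hh : 0 < h) (l : Fin (r + 1)) :
    Tendsto (fun u : ℝ => ∫ y in (0 : ℝ)..h, gF f m s n 0 ((u : ℂ) + (y : ℂ) * Complex.I)) (𝓝 (s l))
      (𝓝 (∫ y in (0 : ℝ)..h, gF f m s n 0 ((s l : ℂ) + (y : ℂ) * Complex.I))) := by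
  have hmpos : (0 : ℝ) < m := by exact_mod_cast hm
  have hIoc : Set.uIoc 0 h = Set.Ioc 0 h := Set.uIoc_of_le hh.le
  obtain ⟨C, hC0, hC⟩ := pol_bd f (s l) h
  have hlt : -1 < -((n l : ℝ) / m) := by
    have h1 : (n l : ℝ) / m < 1 := by
      rw [div_lt_one hmpos]
      exact_mod_cast (hn l).2
    linarith
  refine intervalIntegral.tendsto_integral_filter_of_dominated_convergence
    (fun y => C * ((∏ j ∈ Finset.univ.erase l, (|s l - s j| / 2) ^ ((n j : ℝ) / m))⁻¹ *
      y ^ (-((n l : ℝ) / m))))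
    (Eventually.of_forall fun u => ?_) ?_ ?_ (Eventually.of_forall fun y hy => ?_)
  · rw [hIoc]
    refine ContinuousOn.aestronglyMeasurable (fun y hy => ?_) measurableSet_Ioc
    have h1 : ContinuousAt (gF f m s n 0) ((u : ℂ) + (y : ℂ) * Complex.I) :=
      contAtF hbr hm 0 (up_Uk (by rw [im_add]; exact hy.1))
    exact (ContinuousAt.comp (f := fun y : ℝ => (u : ℂ) + (y : ℂ) * Complex.I) h1
      (by fun_prop)).continuousWithinAt
  · have hev : ∀ᶠ u : ℝ in 𝓝 (s l), ∀ j, j ≠ l → |u - s l| < |s l - s j| / 2 := by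
      rw [eventually_all]
      intro j
      by_cases hj : j = l
      · exact Eventually.of_forall fun u h => absurd hj h
      · have hpos : 0 < |s l - s j| / 2 := by
          have : s l - s j ≠ 0 := sub_ne_zero.2 fun h => hj (hs.injective h).symm
          positivity
        have h1 : ContinuousAt (fun u : ℝ => |u - s l|) (s l) := by fun_prop
        have h2 : ∀ᶠ u : ℝ in 𝓝 (s l), |u - s l| < |s l - s j| / 2 :=
          h1.eventually_lt_const (by simpa using hpos)
        filter_upwards [h2] with u hu _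
        exact hu
    filter_upwards [hev, Icc_mem_nhds (by linarith : s l - 1 < s l)
      (by linarith : s l < s l + 1)] with u hu hu2
    refine Eventually.of_forall fun y hy => ?_
    rw [hIoc] at hy
    have hy0 : 0 < y := hy.1
    rw [gF, norm_mul]
    refine mul_le_mul (hC u hu2 y ⟨by linarith, hy.2⟩) ?_ (norm_nonneg _) hC0
    rw [norm_inv, (hbr m r s n 0 hm).2.2.2.1, ← Finset.mul_prod_erase Finset.univ _ (Finset.mem_univ l),
      mul_inv, mul_comm]
    have hposj : ∀ j ∈ Finset.univ.erase l, 0 < (|s l - s j| / 2) ^ ((n j : ℝ) / m) := by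
      intro j hj
      have : s l - s j ≠ 0 := sub_ne_zero.2 fun h => (Finset.ne_of_mem_erase hj) (hs.injective h).symm
      positivity
    refine mul_le_mul ?_ ?_ (by positivity) (by
      refine inv_nonneg.2 (Finset.prod_nonneg fun j hj => (hposj j hj).le))
    · refine inv_anti₀ (Finset.prod_pos hposj) (Finset.prod_le_prod (fun j hj => (hposj j hj).le) fun j hj => ?_)
      refine Real.rpow_le_rpow (by positivity) ?_ (by positivity)
      have h1 : |u - s j| ≤ ‖(u : ℂ) + (y : ℂ) * Complex.I - (s j : ℂ)‖ := by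
        have := Complex.abs_re_le_norm ((u : ℂ) + (y : ℂ) * Complex.I - (s j : ℂ))
        rwa [Complex.sub_re, re_add, Complex.ofReal_re] at this
      have h2 := hu j (Finset.ne_of_mem_erase hj)
      have h3 : |s l - s j| ≤ |u - s l| + |u - s j| := by
        have := abs_sub_le (s l) u (s j)
        rwa [abs_sub_comm (s l) u] at this
      linarith
    · rw [Real.rpow_neg hy0.le]
      refine inv_anti₀ (by positivity) ?_
      refine Real.rpow_le_rpow hy0.le ?_ (by positivity)
      have := Complex.abs_im_le_norm ((u : ℂ) + (y : ℂ) * Complex.I - (s l : ℂ))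
      rw [Complex.sub_im, im_add, Complex.ofReal_im, sub_zero, abs_of_pos hy0] at this
      exact this
  · exact ((intervalIntegral.intervalIntegrable_rpow' hlt).const_mul _).const_mul _
  · rw [hIoc] at hy
    have h1 : ContinuousAt (gF f m s n 0) ((s l : ℂ) + (y : ℂ) * Complex.I) :=
      contAtF hbr hm 0 (up_Uk (by rw [im_add]; exact hy.1))
    exact ContinuousAt.comp (f := fun u : ℝ => (u : ℂ) + (y : ℂ) * Complex.I) h1 (by fun_prop)

end CbF_aux

open Cb_aux CbF_aux in
/-- Module CbF: between `s_k` and `s_(k+1)`, with the factor `f`. -/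
theorem tCbF : S_Br → S_CbF := by
  intro hbr m r s n f hm hs hn x₀ h hh k
  have hmpos : (0 : ℝ) < m := by exact_mod_cast hm
  set a := s k.castSucc with ha
  set b := s k.succ with hb
  have hab : a < b := hs (Fin.castSucc_lt_succ)
  set κ : ℂ := Complex.exp (Real.pi * Complex.I / m) ^
    (∑ j ∈ Finset.univ.filter (fun j : Fin (r + 1) => k.val + 1 ≤ j.val), n j) with hκ
  -- the gap
  have hgap : ∀ x : ℝ, a < x → x < b → x ∈ Gp s (k.val + 1) := by
    intro x hx1 hx2
    refine ⟨fun j hj => ?_, fun j hj => ?_⟩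
    · have : s j ≤ a := hs.monotone (Fin.le_def.2 (by simpa using Nat.lt_succ_iff.1 hj))
      linarith
    · have : b ≤ s j := hs.monotone (Fin.le_def.2 (by simpa using hj))
      linarith
  -- on the real axis
  have hreal : ∀ x : ℝ, a < x → x < b → gF f m s n (k.val + 1) (x : ℂ) =
      κ⁻¹ * (((wt (fun j => (n j : ℝ) / m) s x : ℝ) : ℂ) * f.eval (x : ℂ)) := by
    intro x hx1 hx2
    have hprod : (∏ j, |x - s j| ^ ((n j : ℝ) / m))⁻¹ = wt (fun j => (n j : ℝ) / m) s x := by
      rw [wt, ← Finset.prod_inv_distrib]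
      exact Finset.prod_congr rfl fun j _ => (Real.rpow_neg (abs_nonneg _) _).symm
    rw [gF, (hbr m r s n (k.val + 1) hm).2.2.2.2.2.2 x (hgap x hx1 hx2), mul_inv, ← hκ,
      ← Complex.ofReal_inv, hprod]
    ring
  have hwt : IntervalIntegrable (wt (fun j => (n j : ℝ) / m) s) volume a b := by
    refine wt_int _ (fun j => ⟨?_, ?_⟩) hs k
    · have h1 : (0 : ℝ) < n j := by exact_mod_cast (hn j).1
      positivity
    · rw [div_lt_one hmpos]
      exact_mod_cast (hn j).2
  set w : ℝ → ℂ := fun x => κ⁻¹ * (((wt (fun j => (n j : ℝ) / m) s x : ℝ) : ℂ) * f.eval (x : ℂ)) with hw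
  have hfc : Continuous (fun x : ℝ => f.eval (x : ℂ)) := f.continuous.comp Complex.continuous_ofReal
  have hwtc : IntervalIntegrable (fun x : ℝ => ((wt (fun j => (n j : ℝ) / m) s x : ℝ) : ℂ)) volume a b :=
    ⟨hwt.1.ofReal, hwt.2.ofReal⟩
  have hwint : IntervalIntegrable w volume a b :=
    (hwtc.mul_continuousOn hfc.continuousOn).const_mul κ⁻¹
  -- the horizontal integrand
  set H : ℝ → ℂ := fun t => gF f m s n 0 ((t : ℂ) + (h : ℂ) * Complex.I) with hH
  have hHc : Continuous H := by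
    rw [continuous_iff_continuousAt]
    intro t
    have h1 : ContinuousAt (gF f m s n 0) ((t : ℂ) + (h : ℂ) * Complex.I) :=
      contAtF hbr hm 0 (up_Uk (by rw [im_add]; exact hh))
    exact ContinuousAt.comp (f := fun t : ℝ => (t : ℂ) + (h : ℂ) * Complex.I) h1 (by fun_prop)
  set V : ℝ → ℂ := fun u => ∫ y in (0 : ℝ)..h, gF f m s n 0 ((u : ℂ) + (y : ℂ) * Complex.I) with hV
  -- Cauchy
  have hcau : ∀ ε : ℝ, 0 < ε → ε < (b - a) / 2 →
      (∫ x in (a + ε)..(b - ε), w x) - (∫ x in (a + ε)..(b - ε), H x) + Complex.I * V (b - ε) -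
        Complex.I * V (a + ε) = 0 := by
    intro ε h1 h2
    have hle : a + ε ≤ b - ε := by linarith
    have hsub : DifferentiableOn ℂ (gF f m s n (k.val + 1))
        (Set.uIcc (⟨a + ε, 0⟩ : ℂ).re (⟨b - ε, h⟩ : ℂ).re ×ℂ
          Set.uIcc (⟨a + ε, 0⟩ : ℂ).im (⟨b - ε, h⟩ : ℂ).im) := by
      refine (diffF hbr hm (k.val + 1)).mono fun z hz => ?_
      rw [Complex.mem_reProdIm, Set.uIcc_of_le hle, Set.uIcc_of_le hh.le] at hz
      exact Or.inr (hgap z.re (by linarith [hz.1.1]) (by linarith [hz.1.2]))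
    have h3 := Complex.integral_boundary_rect_eq_zero_of_differentiableOn _ _ _ hsub
    simp only [Complex.ofReal_zero, zero_mul, add_zero, smul_eq_mul] at h3
    have e1 : ∫ x in (a + ε)..(b - ε), gF f m s n (k.val + 1) (x : ℂ) = ∫ x in (a + ε)..(b - ε), w x := by
      refine intervalIntegral.integral_congr fun x hx => ?_
      rw [Set.uIcc_of_le hle] at hx
      exact hreal x (by linarith [hx.1]) (by linarith [hx.2])
    have e2 : ∫ x in (a + ε)..(b - ε), gF f m s n (k.val + 1) ((x : ℂ) + (h : ℂ) * Complex.I) =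
        ∫ x in (a + ε)..(b - ε), H x := by
      refine intervalIntegral.integral_congr fun x hx => ?_
      exact eq0F hbr hm _ (by rw [im_add]; exact hh)
    have e3 : ∀ u : ℝ, ∫ y in (0 : ℝ)..h, gF f m s n (k.val + 1) ((u : ℂ) + (y : ℂ) * Complex.I) = V u := by
      intro u
      change _ = ∫ y in (0 : ℝ)..h, gF f m s n 0 ((u : ℂ) + (y : ℂ) * Complex.I)
      rw [intervalIntegral.integral_of_le hh.le, intervalIntegral.integral_of_le hh.le]
      refine setIntegral_congr_fun measurableSet_Ioc fun y hy => ?_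
      exact eq0F hbr hm _ (by rw [im_add]; exact hy.1)
    rw [e1, e2, e3, e3] at h3
    exact h3
  -- limits
  have hab' : a ≤ b := hab.le
  have hlim : ∀ G : ℝ → ℂ, IntervalIntegrable G volume a b →
      Tendsto (fun ε : ℝ => ∫ x in (a + ε)..(b - ε), G x) (𝓝[>] 0) (𝓝 (∫ x in a..b, G x)) := by
    intro G hG
    have hc := intervalIntegral.continuousOn_primitive_interval' hG Set.left_mem_uIcc
    rw [Set.uIcc_of_le hab'] at hc
    have hmem : ∀ᶠ ε : ℝ in 𝓝[>] 0, 0 < ε ∧ ε < (b - a) / 2 := by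
      have h1 : Set.Ioo (0 : ℝ) ((b - a) / 2) ∈ 𝓝[>] (0 : ℝ) := Ioo_mem_nhdsGT (by linarith)
      filter_upwards [h1] with ε hε
      exact hε
    have hB : Tendsto (fun ε : ℝ => ∫ x in a..(b - ε), G x) (𝓝[>] 0) (𝓝 (∫ x in a..b, G x)) := by
      have h1 : Tendsto (fun ε : ℝ => b - ε) (𝓝[>] 0) (𝓝[Set.Icc a b] b) := by
        refine tendsto_nhdsWithin_iff.2 ⟨?_, ?_⟩
        · have : Tendsto (fun ε : ℝ => b - ε) (𝓝 0) (𝓝 (b - 0)) := (continuous_const.sub continuous_id).tendsto 0
          rw [sub_zero] at this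
          exact this.mono_left nhdsWithin_le_nhds
        · filter_upwards [hmem] with ε hε
          exact ⟨by linarith, by linarith⟩
      exact (hc b (Set.right_mem_Icc.2 hab')).tendsto.comp h1
    have hA : Tendsto (fun ε : ℝ => ∫ x in a..(a + ε), G x) (𝓝[>] 0) (𝓝 (∫ x in a..a, G x)) := by
      have h1 : Tendsto (fun ε : ℝ => a + ε) (𝓝[>] 0) (𝓝[Set.Icc a b] a) := by
        refine tendsto_nhdsWithin_iff.2 ⟨?_, ?_⟩
        · have : Tendsto (fun ε : ℝ => a + ε) (𝓝 0) (𝓝 (a + 0)) := (continuous_const.add continuous_id).tendsto 0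
          rw [add_zero] at this
          exact this.mono_left nhdsWithin_le_nhds
        · filter_upwards [hmem] with ε hε
          exact ⟨by linarith, by linarith⟩
      exact (hc a (Set.left_mem_Icc.2 hab')).tendsto.comp h1
    rw [intervalIntegral.integral_same] at hA
    have h2 := hB.sub hA
    rw [sub_zero] at h2
    refine h2.congr' ?_
    filter_upwards [hmem] with ε hε
    have i1 : IntervalIntegrable G volume a (b - ε) := hG.mono_set (by
      rw [Set.uIcc_of_le hab', Set.uIcc_of_le (by linarith)]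
      exact Set.Icc_subset_Icc le_rfl (by linarith))
    have i2 : IntervalIntegrable G volume a (a + ε) := hG.mono_set (by
      rw [Set.uIcc_of_le hab', Set.uIcc_of_le (by linarith)]
      exact Set.Icc_subset_Icc le_rfl (by linarith))
    exact intervalIntegral.integral_interval_sub_left i1 i2
  have hVb : Tendsto (fun ε : ℝ => V (b - ε)) (𝓝[>] 0) (𝓝 (V b)) := by
    have h1 : Tendsto (fun ε : ℝ => b - ε) (𝓝 0) (𝓝 (b - 0)) := (continuous_const.sub continuous_id).tendsto 0
    rw [sub_zero] at h1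
    exact ((vertF hbr hm hs hn hh k.succ).comp h1).mono_left nhdsWithin_le_nhds
  have hVa : Tendsto (fun ε : ℝ => V (a + ε)) (𝓝[>] 0) (𝓝 (V a)) := by
    have h1 : Tendsto (fun ε : ℝ => a + ε) (𝓝 0) (𝓝 (a + 0)) := (continuous_const.add continuous_id).tendsto 0
    rw [add_zero] at h1
    exact ((vertF hbr hm hs hn hh k.castSucc).comp h1).mono_left nhdsWithin_le_nhds
  have hT := (((hlim w hwint).sub (hlim H (hHc.intervalIntegrable _ _))).add (hVb.const_mul Complex.I)).sub
    (hVa.const_mul Complex.I)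
  have hT0 : Tendsto (fun ε : ℝ => (∫ x in (a + ε)..(b - ε), w x) - (∫ x in (a + ε)..(b - ε), H x) +
      Complex.I * V (b - ε) - Complex.I * V (a + ε)) (𝓝[>] 0) (𝓝 0) := by
    refine tendsto_const_nhds.congr' ?_
    have h1 : Set.Ioo (0 : ℝ) ((b - a) / 2) ∈ 𝓝[>] (0 : ℝ) := Ioo_mem_nhdsGT (by linarith)
    filter_upwards [h1] with ε hε
    exact (hcau ε hε.1 hε.2).symm
  have hkey := tendsto_nhds_unique hT hT0
  -- conclusion
  have hsplit : (∫ t in x₀..b, H t) - ∫ t in x₀..a, H t = ∫ t in a..b, H t :=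
    intervalIntegral.integral_interval_sub_left (hHc.intervalIntegrable _ _) (hHc.intervalIntegrable _ _)
  have hIk : ∫ x in a..b, w x =
      κ⁻¹ * ∫ x in a..b, ((wt (fun j => (n j : ℝ) / m) s x : ℝ) : ℂ) * f.eval (x : ℂ) := by
    rw [hw, intervalIntegral.integral_const_mul]
  change ((∫ t in x₀..b, H t) - Complex.I * V b) - ((∫ t in x₀..a, H t) - Complex.I * V a) = _
  rw [← hIk]
  linear_combination hsplit - hkey

end SEB
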