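import Pool.Agent.Lib.SE.Big.VG2
import Pool.Agent.Lib.SE.Big.Sg

/-!
# PROJECT SE, module IsBig, part 4, module Cj: openness and closedness
-/

set_option autoImplicit false

open Module MeasureTheory Topology

noncomputable section

namespace SEB

open HC HC.E HC.SE

namespace Cj_aux

variable {m r : ℕ} {b : Fin (r + 1) → ℕ} {u : ℕ}

theorem adm_neg {s : Fin (r + 1) → ℝ} (h : Adm m b u s) : Adm m b (m - u) s := by
  obtain ⟨h1, h2, h3, h4⟩ := h
  have hm : 3 ≤ m := h2.1
  have hu : u ≠ 0 := by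
    intro h0
    rw [h0, Nat.coprime_zero_left] at h4
    omega
  refine ⟨h1, h2, by omega, ?_⟩
  exact (Nat.coprime_self_sub_left h3.le).2 h4

theorem adm_of {s s' : Fin (r + 1) → ℝ} (h : Adm m b u s) (hs : StrictMono s') :
    Adm m b u s' := by
  obtain ⟨h1, ⟨h2, h3, h5, h6, h7⟩, h8, h9⟩ := h
  refine ⟨hs, ⟨h2, ?_, h5, h6, h7⟩, h8, h9⟩
  intro i j hij
  have h10 : ((s' i : ℝ) : ℂ) = ((s' j : ℝ) : ℂ) := hij
  exact hs.injective (by exact_mod_cast h10)

theorem isOpen_adm : IsOpen {s : Fin (r + 1) → ℝ | Adm m b u s} := by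
  by_cases hA : ∃ s : Fin (r + 1) → ℝ, Adm m b u s
  · obtain ⟨s0, hs0⟩ := hA
    have h1 : {s : Fin (r + 1) → ℝ | Adm m b u s} =
        ⋂ i : Fin r, {s : Fin (r + 1) → ℝ | s i.castSucc < s i.succ} := by
      ext s
      simp only [Set.mem_ofPred_eq, Set.mem_iInter]
      rw [← Fin.strictMono_iff_lt_succ]
      exact ⟨fun h => h.1, fun h => adm_of hs0 h⟩
    rw [h1]
    exact isOpen_iInter_of_finite fun i => isOpen_lt (continuous_apply _) (continuous_apply _)
  · have h1 : {s : Fin (r + 1) → ℝ | Adm m b u s} = ∅ := by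
      ext s
      simp only [Set.mem_ofPred_eq, Set.mem_empty_iff_false, iff_false]
      exact fun h => hA ⟨s, h⟩
    rw [h1]
    exact isOpen_empty

/-- the family of vectors -/
def FF (m : ℕ) {r : ℕ} (b : Fin (r + 1) → ℕ) (u : ℕ) (s : Fin (r + 1) → ℝ) :
    Fin (sg m r b u) ⊕ Fin (sg m r b (m - u)) → (Fin r → ℂ) :=
  Sum.elim (fun i => Pv m b u s (Polynomial.X ^ (i : ℕ)))
    (fun l => star (Pv m b (m - u) s (Polynomial.X ^ (l : ℕ))))

/-- the numbering -/
def ee (h : sg m r b u + sg m r b (m - u) = r) :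
    Fin (sg m r b u) ⊕ Fin (sg m r b (m - u)) ≃ Fin r :=
  finSumFinEquiv.trans (finCongr h)

/-- the matrix -/
def MM (h : sg m r b u + sg m r b (m - u) = r) (s : Fin (r + 1) → ℝ) :
    Matrix (Fin r) (Fin r) ℂ :=
  Matrix.of fun k j => FF m b u s ((ee h).symm j) k

theorem MM_mulVec (h : sg m r b u + sg m r b (m - u) = r) (s : Fin (r + 1) → ℝ)
    (v : Fin (sg m r b u) → ℂ) (w : Fin (sg m r b (m - u)) → ℂ) :
    (MM h s).mulVec (fun j => Sum.elim v w ((ee h).symm j)) =
      ∑ i, v i • Pv m b u s (Polynomial.X ^ (i : ℕ)) +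
        ∑ l, w l • star (Pv m b (m - u) s (Polynomial.X ^ (l : ℕ))) := by
  ext k
  rw [Matrix.mulVec, dotProduct]
  simp only [MM, Matrix.of_apply]
  rw [← (ee h).sum_comp]
  simp only [Equiv.symm_apply_apply, Fintype.sum_sum_type, FF, Sum.elim_inl, Sum.elim_inr,
    Pi.add_apply, Finset.sum_apply, Pi.smul_apply, smul_eq_mul]
  refine congrArg₂ (· + ·) ?_ ?_
  · exact Finset.sum_congr rfl fun i _ => mul_comm _ _
  · exact Finset.sum_congr rfl fun i _ => mul_comm _ _

/-- `Pv` as a linear map -/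
def PL (hPv : S_Pv) {s : Fin (r + 1) → ℝ} (hs : Adm m b u s) :
    Polynomial ℂ →ₗ[ℂ] (Fin r → ℂ) where
  toFun := Pv m b u s
  map_add' := (hPv m r b u s hs).1
  map_smul' c f := by
    rw [Polynomial.smul_eq_C_mul]
    exact (hPv m r b u s hs).2.1 c f

theorem pv_sum (hPv : S_Pv) {s : Fin (r + 1) → ℝ} (hs : Adm m b u s) (n : ℕ)
    (c : Fin n → ℂ) :
    Pv m b u s (∑ i : Fin n, Polynomial.C (c i) * Polynomial.X ^ (i : ℕ)) =
      ∑ i : Fin n, c i • Pv m b u s (Polynomial.X ^ (i : ℕ)) := by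
  have h1 : ∀ f, Pv m b u s f = PL hPv hs f := fun f => rfl
  simp only [h1]
  rw [map_sum]
  refine Finset.sum_congr rfl fun i _ => ?_
  rw [← Polynomial.smul_eq_C_mul, map_smul]

theorem poly_sum (f : Polynomial ℂ) (n : ℕ) (hf : f.degree < (n : WithBot ℕ)) :
    f = ∑ i : Fin n, Polynomial.C (f.coeff i) * Polynomial.X ^ (i : ℕ) := by
  rw [Polynomial.sum_fin (fun i a => Polynomial.C a * Polynomial.X ^ i) (by simp) hf,
    Polynomial.sum_C_mul_X_pow_eq]

theorem pv_eq (hPv : S_Pv) {s : Fin (r + 1) → ℝ} (hs : Adm m b u s) (n : ℕ)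
    (f : Polynomial ℂ) (hf : f.degree < (n : WithBot ℕ)) :
    Pv m b u s f = ∑ i : Fin n, f.coeff i • Pv m b u s (Polynomial.X ^ (i : ℕ)) := by
  conv_lhs => rw [poly_sum f n hf]
  exact pv_sum hPv hs n fun i => f.coeff i

theorem star_pv_eq (hPv : S_Pv) {s : Fin (r + 1) → ℝ} (hs : Adm m b u s) (n : ℕ)
    (f : Polynomial ℂ) (hf : f.degree < (n : WithBot ℕ)) :
    star (Pv m b u s f) =
      ∑ i : Fin n, star (f.coeff i) • star (Pv m b u s (Polynomial.X ^ (i : ℕ))) := by
  rw [pv_eq hPv hs n f hf, star_sum]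
  exact Finset.sum_congr rfl fun i _ => star_smul _ _

/-- `ND` is the nonvanishing of the determinant -/
theorem nd_iff (hPv : S_Pv) (h : sg m r b u + sg m r b (m - u) = r) {s : Fin (r + 1) → ℝ}
    (hs : Adm m b u s) : ND m b u s ↔ (MM h s).det ≠ 0 := by
  have hs' := adm_neg hs
  constructor
  · intro hND hdet
    obtain ⟨v, hv, hMv⟩ := Matrix.exists_mulVec_eq_zero_iff.2 hdet
    have hv2 : v = fun j => Sum.elim (fun i => v (ee h (Sum.inl i))) (fun l => v (ee h (Sum.inr l)))
        ((ee h).symm j) := by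
      funext j
      obtain ⟨x, rfl⟩ := (ee h).surjective j
      rw [Equiv.symm_apply_apply]
      cases x <;> rfl
    rw [hv2, MM_mulVec] at hMv
    set f : Polynomial ℂ := ∑ i : Fin (sg m r b u),
      Polynomial.C (v (ee h (Sum.inl i))) * Polynomial.X ^ (i : ℕ) with hf
    set g : Polynomial ℂ := ∑ l : Fin (sg m r b (m - u)),
      Polynomial.C (star (v (ee h (Sum.inr l)))) * Polynomial.X ^ (l : ℕ) with hg
    have hfd : f.degree < (sg m r b u : WithBot ℕ) := Polynomial.degree_sum_fin_lt _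
    have hgd : g.degree < (sg m r b (m - u) : WithBot ℕ) := Polynomial.degree_sum_fin_lt _
    have h1 : Pv m b u s f + star (Pv m b (m - u) s g) = 0 := by
      rw [← hMv, hf, hg, pv_sum hPv hs, pv_sum hPv hs', star_sum]
      refine congrArg₂ (· + ·) rfl (Finset.sum_congr rfl fun l _ => ?_)
      rw [star_smul, star_star]
    obtain ⟨hf0, hg0⟩ := hND f g hfd hgd h1
    apply hv
    funext j
    obtain ⟨x, rfl⟩ := (ee h).surjective j
    cases x with
    | inl i =>
      have h2 : f.coeff i = v (ee h (Sum.inl i)) := by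
        rw [hf, Polynomial.finsetSum_coeff, Finset.sum_eq_single i]
        · simp
        · intro i' _ hi'
          rw [Polynomial.coeff_C_mul_X_pow, if_neg]
          intro h3
          exact hi' (Fin.ext h3).symm
        · intro h3
          exact absurd (Finset.mem_univ i) h3
      rw [← h2, hf0]
      simp
    | inr l =>
      have h2 : g.coeff l = star (v (ee h (Sum.inr l))) := by
        rw [hg, Polynomial.finsetSum_coeff, Finset.sum_eq_single l]
        · simp
        · intro i' _ hi'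
          rw [Polynomial.coeff_C_mul_X_pow, if_neg]
          intro h3
          exact hi' (Fin.ext h3).symm
        · intro h3
          exact absurd (Finset.mem_univ l) h3
      rw [hg0, Polynomial.coeff_zero] at h2
      have h3 := congrArg star h2
      rw [star_star, star_zero] at h3
      rw [← h3]
      rfl
  · intro hdet f g hf hg hfg
    rw [pv_eq hPv hs _ f hf, star_pv_eq hPv hs' _ g hg, ← MM_mulVec h s
      (fun i => f.coeff i) (fun l => star (g.coeff l))] at hfg
    have h1 := Matrix.eq_zero_of_mulVec_eq_zero hdet hfg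
    have h2 : ∀ x, Sum.elim (fun i : Fin (sg m r b u) => f.coeff i)
        (fun l : Fin (sg m r b (m - u)) => star (g.coeff l)) x = 0 := fun x => by
      have h3 := congrFun h1 (ee h x)
      simpa using h3
    constructor
    · rw [poly_sum f _ hf]
      refine Finset.sum_eq_zero fun i _ => ?_
      have h3 := h2 (Sum.inl i)
      rw [Sum.elim_inl] at h3
      rw [h3, Polynomial.C_0, zero_mul]
    · rw [poly_sum g _ hg]
      refine Finset.sum_eq_zero fun l _ => ?_
      have h3 := h2 (Sum.inr l)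
      rw [Sum.elim_inr, star_eq_zero] at h3
      rw [h3, Polynomial.C_0, zero_mul]

/-- continuity of the matrix -/
theorem MM_cont (hC : S_PvC) (h : sg m r b u + sg m r b (m - u) = r) :
    ContinuousOn (MM h) {s : Fin (r + 1) → ℝ | Adm m b u s} := by
  refine continuousOn_pi.2 fun k => continuousOn_pi.2 fun j => ?_
  show ContinuousOn (fun s => FF m b u s ((ee h).symm j) k) _
  cases (ee h).symm j with
  | inl i =>
    exact (continuous_apply k).comp_continuousOn (hC m r b u (Polynomial.X ^ (i : ℕ)))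
  | inr l =>
    have h1 : ContinuousOn (fun s => Pv m b (m - u) s (Polynomial.X ^ (l : ℕ)))
        {s : Fin (r + 1) → ℝ | Adm m b u s} :=
      (hC m r b (m - u) (Polynomial.X ^ (l : ℕ))).mono fun s hs => adm_neg hs
    exact (continuous_apply k).comp_continuousOn (continuous_star.comp_continuousOn h1)

/-- the diagonal matrix -/
def DD (h : sg m r b u + sg m r b (m - u) = r) : Matrix (Fin r) (Fin r) ℂ :=
  Matrix.diagonal fun j => Sum.elim (fun _ => Complex.I) (fun _ => -Complex.I) ((ee h).symm j)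

/-- the matrix of `J` -/
def JM (h : sg m r b u + sg m r b (m - u) = r) (s : Fin (r + 1) → ℝ) :
    Matrix (Fin r) (Fin r) ℂ :=
  MM h s * DD h * (MM h s)⁻¹

theorem JM_isJ (hPv : S_Pv) (h : sg m r b u + sg m r b (m - u) = r) {s : Fin (r + 1) → ℝ}
    (hs : Adm m b u s) (hdet : (MM h s).det ≠ 0) : IsJ m b u s (Matrix.toLin' (JM h s)) := by
  have hs' := adm_neg hs
  have hu : IsUnit (MM h s).det := isUnit_iff_ne_zero.2 hdet
  have key : ∀ v : Fin r → ℂ, Matrix.toLin' (JM h s) ((MM h s).mulVec v) =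
      (MM h s).mulVec ((DD h).mulVec v) := fun v => by
    rw [Matrix.toLin'_apply, JM, ← Matrix.mulVec_mulVec, ← Matrix.mulVec_mulVec]
    rw [Matrix.mulVec_mulVec v, Matrix.nonsing_inv_mul _ hu, Matrix.one_mulVec]
  constructor
  · intro f hf
    have h1 : Pv m b u s f = (MM h s).mulVec (fun j => Sum.elim
        (fun i : Fin (sg m r b u) => f.coeff i) (fun _ : Fin (sg m r b (m - u)) => (0 : ℂ))
          ((ee h).symm j)) := by
      rw [MM_mulVec, pv_eq hPv hs _ f hf]
      simp
    have h2 : (DD h).mulVec (fun j => Sum.elim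
        (fun i : Fin (sg m r b u) => f.coeff i) (fun _ : Fin (sg m r b (m - u)) => (0 : ℂ))
          ((ee h).symm j)) = Complex.I • (fun j => Sum.elim
        (fun i : Fin (sg m r b u) => f.coeff i) (fun _ : Fin (sg m r b (m - u)) => (0 : ℂ))
          ((ee h).symm j)) := by
      funext j
      rw [DD, Matrix.mulVec_diagonal, Pi.smul_apply, smul_eq_mul]
      rcases (ee h).symm j with i | l <;> simp
    rw [h1, key, h2, Matrix.mulVec_smul]
  · intro g hg
    have h1 : star (Pv m b (m - u) s g) = (MM h s).mulVec (fun j => Sum.elim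
        (fun _ : Fin (sg m r b u) => (0 : ℂ))
        (fun l : Fin (sg m r b (m - u)) => star (g.coeff l)) ((ee h).symm j)) := by
      rw [MM_mulVec, star_pv_eq hPv hs' _ g hg]
      simp
    have h2 : (DD h).mulVec (fun j => Sum.elim
        (fun _ : Fin (sg m r b u) => (0 : ℂ))
        (fun l : Fin (sg m r b (m - u)) => star (g.coeff l)) ((ee h).symm j)) =
        -Complex.I • (fun j => Sum.elim (fun _ : Fin (sg m r b u) => (0 : ℂ))
        (fun l : Fin (sg m r b (m - u)) => star (g.coeff l)) ((ee h).symm j)) := by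
      funext j
      rw [DD, Matrix.mulVec_diagonal, Pi.smul_apply, smul_eq_mul]
      rcases (ee h).symm j with i | l <;> simp
    rw [h1, key, h2, Matrix.mulVec_smul]

end Cj_aux

open Cj_aux in
/-- Module Cj: openness and closedness. -/
theorem tCj : S_Pv → S_PvC → S_Jx → S_Cj := by
  intro hPv hC hJx m r b u
  by_cases hA : ∃ s : Fin (r + 1) → ℝ, Adm m b u s
  · obtain ⟨s0, hs0⟩ := hA
    have h : sg m r b u + sg m r b (m - u) = r := tSg m r _ b hs0.2.1 u hs0.2.2.1 hs0.2.2.2
    have hM := MM_cont hC h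
    have hdet : ContinuousOn (fun s => (MM h s).det) {s : Fin (r + 1) → ℝ | Adm m b u s} :=
      (Continuous.matrix_det continuous_id).comp_continuousOn hM
    have hO : {s : Fin (r + 1) → ℝ | Adm m b u s ∧ ND m b u s} =
        {s : Fin (r + 1) → ℝ | Adm m b u s} ∩ (fun s => (MM h s).det) ⁻¹' {0}ᶜ := by
      ext s
      simp only [Set.mem_ofPred_eq, Set.mem_inter_iff, Set.mem_preimage, Set.mem_compl_iff,
        Set.mem_singleton_iff]
      constructor
      · rintro ⟨h1, h2⟩
        exact ⟨h1, (nd_iff hPv h h1).1 h2⟩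
      · rintro ⟨h1, h2⟩
        exact ⟨h1, (nd_iff hPv h h1).2 h2⟩
    have hOpen : IsOpen {s : Fin (r + 1) → ℝ | Adm m b u s ∧ ND m b u s} := by
      rw [hO]
      exact hdet.isOpen_inter_preimage isOpen_adm isOpen_compl_singleton
    refine ⟨hOpen, fun g => ?_⟩
    have hsub : {s : Fin (r + 1) → ℝ | Adm m b u s ∧ ND m b u s} ⊆
        {s : Fin (r + 1) → ℝ | Adm m b u s} := fun s hs => hs.1
    have hJ : ContinuousOn (JM h) {s : Fin (r + 1) → ℝ | Adm m b u s ∧ ND m b u s} := by
      have h1 : ContinuousOn (fun s => (MM h s)⁻¹)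
          {s : Fin (r + 1) → ℝ | Adm m b u s ∧ ND m b u s} := by
        have h2 : (fun s => (MM h s)⁻¹) = fun s => ((MM h s).det)⁻¹ • (MM h s).adjugate := by
          funext s
          rw [Matrix.inv_def, Ring.inverse_eq_inv']
        rw [h2]
        have h3 : ContinuousOn (fun s => ((MM h s).det)⁻¹)
            {s : Fin (r + 1) → ℝ | Adm m b u s ∧ ND m b u s} :=
          (hdet.mono hsub).inv₀ fun s hs => (nd_iff hPv h hs.1).1 hs.2
        have h4 : ContinuousOn (fun s => (MM h s).adjugate)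
            {s : Fin (r + 1) → ℝ | Adm m b u s ∧ ND m b u s} :=
          (Continuous.matrix_adjugate continuous_id).comp_continuousOn (hM.mono hsub)
        exact h3.smul h4
      exact ((hM.mono hsub).mul continuousOn_const).mul h1
    set g' : Submodule ℂ (Matrix (Fin r) (Fin r) ℂ) :=
      g.comap (Matrix.toLin' (R := ℂ) (m := Fin r) (n := Fin r)).toLinearMap with hg'
    have hcl : IsClosed (g' : Set (Matrix (Fin r) (Fin r) ℂ)) := g'.closed_of_finiteDimensional
    refine ⟨({s : Fin (r + 1) → ℝ | Adm m b u s ∧ ND m b u s} ∩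
      JM h ⁻¹' ((g' : Set (Matrix (Fin r) (Fin r) ℂ))ᶜ))ᶜ, ?_, ?_⟩
    · exact (hJ.isOpen_inter_preimage hOpen hcl.isOpen_compl).isClosed_compl
    · intro s hs hND
      have hisJ := JM_isJ hPv h hs ((nd_iff hPv h hs).1 hND)
      obtain ⟨J0, -, huniq, -⟩ := hJx m r b u s hs hND
      have h3 : s ∈ ({s : Fin (r + 1) → ℝ | Adm m b u s ∧ ND m b u s} ∩
          JM h ⁻¹' ((g' : Set (Matrix (Fin r) (Fin r) ℂ))ᶜ))ᶜ ↔
          Matrix.toLin' (JM h s) ∈ g := by
        rw [Set.mem_compl_iff, Set.mem_inter_iff, Set.mem_preimage, Set.mem_compl_iff]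
        constructor
        · intro h4
          by_contra h5
          exact h4 ⟨⟨hs, hND⟩, h5⟩
        · rintro h4 ⟨-, h5⟩
          exact h5 h4
      rw [h3]
      constructor
      · intro h4 J hJ1
        rw [huniq J hJ1, ← huniq _ hisJ]
        exact h4
      · intro h4
        exact h4 _ hisJ
  · have h1 : {s : Fin (r + 1) → ℝ | Adm m b u s ∧ ND m b u s} = ∅ := by
      ext s
      simp only [Set.mem_ofPred_eq, Set.mem_empty_iff_false, iff_false]
      exact fun h => hA ⟨s, h.1⟩
    rw [h1]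
    exact ⟨isOpen_empty, fun g => ⟨Set.univ, isClosed_univ, fun s hs => absurd ⟨s, hs⟩ hA⟩⟩

end SEB
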