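import Pool.Agent.Lib.SE.Big.Spec

/-!
# PROJECT SE, module IsBig: (Cl) closure of the complex span of the commutators
-/

set_option autoImplicit false

open Module

noncomputable section

namespace SEB

open HC HC.E

namespace Cl_aux

variable {T : AV} {m : ℕ}

theorem pre_mul (X Y : Module.End ℝ T.V) : pre X * pre Y = pre (Y * X) := rfl

theorem pre_sub (X Y : Module.End ℝ T.V) : pre X - pre Y = pre (X - Y) := by
  ext a v
  change a (X v) - a (Y v) = a ((X - Y) v)
  rw [LinearMap.sub_apply, map_sub]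

theorem pre_add (X Y : Module.End ℝ T.V) : pre (X + Y) = pre X + pre Y := by
  ext a v
  change a ((X + Y) v) = a (X v) + a (Y v)
  rw [LinearMap.add_apply, map_add]

theorem pre_zero : pre (0 : Module.End ℝ T.V) = 0 := by
  ext a v
  change a ((0 : Module.End ℝ T.V) v) = 0
  rw [LinearMap.zero_apply, map_zero]

theorem pre_smul (c : ℝ) (X : Module.End ℝ T.V) : pre (c • X) = (c : ℂ) • pre X := by
  ext a v
  change a ((c • X) v) = (c : ℂ) * a (X v)
  rw [LinearMap.smul_apply, map_smul, Complex.real_smul]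

/-- Commutators with an operator `P`, from generators. -/
theorem br_gg {h : Set (Module.End ℝ T.V)} (P : Module.End ℂ (Frm T))
    (hP : ∀ Y ∈ Com h, P * pre Y - pre Y * P ∈ gg h) {A : Module.End ℂ (Frm T)}
    (hA : A ∈ gg h) : P * A - A * P ∈ gg h := by
  refine Submodule.span_induction (p := fun A _ => P * A - A * P ∈ gg h) ?_ ?_ ?_ ?_ hA
  · rintro _ ⟨Y, hY, rfl⟩
    exact hP Y hY
  · rw [mul_zero, zero_mul, sub_zero]
    exact zero_mem _
  · intro A B _ _ h1 h2
    have h3 : P * (A + B) - (A + B) * P = P * A - A * P + (P * B - B * P) := by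
      rw [mul_add, add_mul]
      abel
    rw [h3]
    exact add_mem h1 h2
  · intro c A _ h1
    have h3 : P * (c • A) - (c • A) * P = c • (P * A - A * P) := by
      rw [mul_smul_comm, smul_mul_assoc, smul_sub]
    rw [h3]
    exact Submodule.smul_mem _ _ h1

theorem com_sub {h : Set (Module.End ℝ T.V)} (hl : ∀ X ∈ h, ∀ Y ∈ h, X * Y - Y * X ∈ h)
    {Y : Module.End ℝ T.V} (hY : Y ∈ Com h) : Y ∈ h := by
  obtain ⟨X, hX, X', hX', rfl⟩ := hY
  exact hl X hX X' hX'

/-- `[pre X, A] ∈ gg h` for `X ∈ h`. -/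
theorem br_h {h : Set (Module.End ℝ T.V)} (hl : ∀ X ∈ h, ∀ Y ∈ h, X * Y - Y * X ∈ h)
    {X : Module.End ℝ T.V} (hX : X ∈ h) {A : Module.End ℂ (Frm T)} (hA : A ∈ gg h) :
    pre X * A - A * pre X ∈ gg h := by
  refine br_gg (pre X) (fun Y hY => ?_) hA
  rw [pre_mul, pre_mul, pre_sub]
  exact Submodule.subset_span ⟨_, ⟨Y, com_sub hl hY, X, hX, rfl⟩, rfl⟩

/-- The same for the real span. -/
theorem br_span {h : Set (Module.End ℝ T.V)} (hl : ∀ X ∈ h, ∀ Y ∈ h, X * Y - Y * X ∈ h)
    {X : Module.End ℝ T.V} (hX : X ∈ Submodule.span ℝ h) {A : Module.End ℂ (Frm T)}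
    (hA : A ∈ gg h) : pre X * A - A * pre X ∈ gg h := by
  refine Submodule.span_induction (p := fun X _ => pre X * A - A * pre X ∈ gg h)
    ?_ ?_ ?_ ?_ hX
  · intro X hX
    exact br_h hl hX hA
  · rw [pre_zero, mul_zero, zero_mul, sub_zero]
    exact zero_mem _
  · intro X Y _ _ h1 h2
    have h3 : pre (X + Y) * A - A * pre (X + Y) =
        pre X * A - A * pre X + (pre Y * A - A * pre Y) := by
      rw [pre_add, mul_add, add_mul]
      abel
    rw [h3]
    exact add_mem h1 h2
  · intro c X _ h1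
    have h3 : pre (c • X) * A - A * pre (c • X) = (c : ℂ) • (pre X * A - A * pre X) := by
      rw [pre_smul, mul_smul_comm, smul_mul_assoc, smul_sub]
    rw [h3]
    exact Submodule.smul_mem _ _ h1

theorem tr_br {V : Type} [AddCommGroup V] [Module ℂ V] (P Q : Module.End ℂ V) :
    LinearMap.trace ℂ V (P * Q - Q * P) = 0 := by
  rw [LinearMap.map_sub, LinearMap.trace_mul_comm, sub_self]

end Cl_aux

open Cl_aux in
theorem tCl : S_Cl := by
  intro _ T m D hm h hh
  have hl := hh.lie.br
  refine ⟨?_, ?_, ?_⟩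
  · intro A hA B hB
    have h1 : B * A - A * B ∈ gg h := by
      refine br_gg B (fun Y hY => ?_) hA
      have h2 := br_h hl (com_sub hl hY) hB
      have h3 : B * pre Y - pre Y * B = -(pre Y * B - B * pre Y) := by abel
      rw [h3]
      exact neg_mem h2
    have h3 : A * B - B * A = -(B * A - A * B) := by abel
    rw [h3]
    exact neg_mem h1
  · intro A hA
    exact br_span hl hh.J hA
  · intro A hA s
    have hp : ∀ X ∈ h, ∀ a ∈ Ws D s, pre X a ∈ Ws D s := by
      intro X hX a ha v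
      change a (X (D.Z v)) = zet m s * a (X v)
      rw [(hh.u X hX).1 v]
      exact ha (X v)
    refine Submodule.span_induction (p := fun A _ => ∃ A' : Module.End ℂ (Ws D s),
      LinearMap.trace ℂ (Ws D s) A' = 0 ∧ ∀ a : Ws D s, A (a : Frm T) = (A' a : Frm T))
      ?_ ?_ ?_ ?_ hA
    · rintro _ ⟨_, ⟨X, hX, X', hX', rfl⟩, rfl⟩
      let P : Module.End ℂ (Ws D s) := (pre X).restrict (hp X hX)
      let P' : Module.End ℂ (Ws D s) := (pre X').restrict (hp X' hX')
      refine ⟨P' * P - P * P', tr_br P' P, fun a => ?_⟩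
      · have h1 : pre (X * X' - X' * X) = pre X' * pre X - pre X * pre X' := by
          rw [pre_mul, pre_mul, pre_sub]
        rw [h1]
        rfl
    · exact ⟨0, map_zero _, fun a => rfl⟩
    · rintro A B _ _ ⟨A', hA1, hA2⟩ ⟨B', hB1, hB2⟩
      refine ⟨A' + B', by rw [map_add, hA1, hB1, add_zero], fun a => ?_⟩
      rw [LinearMap.add_apply, hA2, hB2]
      rfl
    · rintro c A _ ⟨A', hA1, hA2⟩
      refine ⟨c • A', by rw [map_smul, hA1, smul_zero], fun a => ?_⟩
      rw [LinearMap.smul_apply, hA2]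
      rfl

end SEB
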