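import Pool.Agent.Lib.SE.Big.VG

/-!
# PROJECT SE, module IsBig, part 2: continuity of the period integrals
-/

set_option autoImplicit false

open Module MeasureTheory Topology

noncomputable section

namespace SEB

open HC HC.E HC.SE

namespace Con_aux

theorem dd_poly (a : Polynomial ℝ) (c : ℝ) :
    a = (Polynomial.X - Polynomial.C c) * dd a c + Polynomial.C (a.eval c) := by
  have h := Polynomial.modByMonic_add_div a (Polynomial.X - Polynomial.C c)
  rw [Polynomial.modByMonic_X_sub_C_eq_C_eval] at h
  unfold dd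
  rw [add_comm]
  exact h.symm

theorem dd_eval (a : Polynomial ℝ) (c t : ℝ) : a.eval t = (t - c) * (dd a c).eval t + a.eval c := by
  have h := congrArg (Polynomial.eval t) (dd_poly a c)
  simpa using h

theorem dd_self (a : Polynomial ℝ) (c : ℝ) : (dd a c).eval c = a.derivative.eval c := by
  have h := congrArg (fun p => (Polynomial.derivative p).eval c) (dd_poly a c)
  simp at h
  exact h.symm

theorem dd_bound (a : Polynomial ℝ) {c t lo hi e : ℝ} (hc : c ∈ Set.Icc lo hi)
    (ht : t ∈ Set.Icc lo hi) (h : ∀ x ∈ Set.Icc lo hi, |a.derivative.eval x| ≤ e) :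
    |(dd a c).eval t| ≤ e := by
  rcases eq_or_ne t c with rfl | hne
  · rw [dd_self]
    exact h t ht
  · have h1 := Convex.norm_image_sub_le_of_norm_deriv_le (f := fun x : ℝ => a.eval x) (C := e)
      (s := Set.Icc lo hi) (x := c) (y := t) (fun x _ => a.differentiable x)
      (fun x hx => by rw [Polynomial.deriv]; exact h x hx) (convex_Icc lo hi) hc ht
    simp only [Real.norm_eq_abs] at h1
    have h2 : a.eval t - a.eval c = (t - c) * (dd a c).eval t := by
      rw [dd_eval a c t]
      ring
    rw [h2, abs_mul, mul_comm e] at h1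
    exact le_of_mul_le_mul_left h1 (abs_pos.2 (sub_ne_zero.2 hne))

theorem exists_bd {r : ℕ} (b : Fin (r + 1) → Polynomial ℝ) (lo hi : ℝ) :
    ∃ B : ℝ, 0 ≤ B ∧ ∀ j, ∀ t ∈ Set.Icc lo hi, |(b j).eval t| ≤ B := by
  have h : ∀ j, ∃ B : ℝ, ∀ t ∈ Set.Icc lo hi, ‖(b j).eval t‖ ≤ B := fun j =>
    isCompact_Icc.exists_bound_of_continuousOn (b j).continuous.continuousOn
  choose B hB using h
  refine ⟨∑ j, |B j|, Finset.sum_nonneg fun j _ => abs_nonneg _, fun j t ht => ?_⟩
  calc |(b j).eval t| ≤ B j := hB j t ht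
    _ ≤ |B j| := le_abs_self _
    _ ≤ ∑ j, |B j| := Finset.single_le_sum (f := fun j => |B j|) (fun j _ => abs_nonneg _)
        (Finset.mem_univ j)

theorem pow_le {x μ : ℝ} (hx : |x| ≤ 1 / 2) (h0 : 0 < μ) (h1 : μ < 1) : |(1 + x) ^ (-μ)| ≤ 2 := by
  have hx' := abs_le.1 hx
  have h2 : 0 < 1 + x := by linarith
  rw [abs_of_nonneg (Real.rpow_nonneg h2.le _)]
  calc (1 + x) ^ (-μ) ≤ (1 / 2 : ℝ) ^ (-μ) :=
        Real.rpow_le_rpow_of_nonpos (by norm_num) (by linarith) (by linarith)
    _ ≤ (1 / 2 : ℝ) ^ (-1 : ℝ) :=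
        Real.rpow_le_rpow_of_exponent_ge (by norm_num) (by norm_num) (by linarith)
    _ = 2 := by norm_num [Real.rpow_neg_one]

theorem meas_wt {r : ℕ} (μ s : Fin (r + 1) → ℝ) : Measurable (wt μ s) := by
  unfold wt
  refine Finset.measurable_prod _ fun j _ => ?_
  exact ((measurable_id.sub_const _).abs).pow_const _

end Con_aux

open Con_aux in
theorem tCon : S_Wt → S_Sub → S_Con := by
  intro hWt hSub r μ hμ k s hs
  have hs' : StrictMono s := hs
  have hinj : Set.InjOn s (Finset.univ : Finset (Fin (r + 1))) := hs'.injective.injOn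
  have hmem : ∀ j, s j ∈ Set.Icc (s 0) (s (Fin.last r)) := fun j =>
    ⟨hs'.monotone (Fin.zero_le j), hs'.monotone (Fin.le_last j)⟩
  let b : Fin (r + 1) → Polynomial ℝ := fun j => Lagrange.basis Finset.univ s j
  let a : (Fin (r + 1) → ℝ) → Polynomial ℝ := fun s' =>
    Lagrange.interpolate Finset.univ s (fun j => s' j - s j)
  have ha : ∀ s' j, s j + (a s').eval (s j) = s' j := by
    intro s' j
    have := Lagrange.eval_interpolate_at_node (s := Finset.univ) (v := s)
      (fun j => s' j - s j) hinj (Finset.mem_univ j)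
    simp only [a]
    rw [this]
    ring
  obtain ⟨B, hB0, hB⟩ := exists_bd (fun j => (b j).derivative) (s 0) (s (Fin.last r))
  let e : (Fin (r + 1) → ℝ) → ℝ := fun s' => ∑ j, |s' j - s j| * B
  have he : ∀ s', ∀ t ∈ Set.Icc (s 0) (s (Fin.last r)), |(a s').derivative.eval t| ≤ e s' := by
    intro s' t ht
    simp only [a, e]
    rw [Lagrange.interpolate_apply, Polynomial.derivative_sum, Polynomial.eval_finsetSum]
    refine (Finset.abs_sum_le_sum_abs _ _).trans (Finset.sum_le_sum fun j _ => ?_)
    rw [Polynomial.derivative_C_mul, Polynomial.eval_C_mul, abs_mul]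
    exact mul_le_mul_of_nonneg_left (hB j t ht) (abs_nonneg _)
  have he2 : ∀ s' j, ∀ t ∈ Set.Icc (s 0) (s (Fin.last r)), |(dd (a s') (s j)).eval t| ≤ e s' :=
    fun s' j t ht => dd_bound (a s') (hmem j) ht (he s')
  have hec : Filter.Tendsto e (𝓝[{s | StrictMono s}] s) (𝓝 0) := by
    have h1 : Continuous e := by
      simp only [e]
      fun_prop
    have h2 : e s = 0 := by simp [e]
    have h3 := h1.continuousAt (x := s)
    unfold ContinuousAt at h3
    rw [h2] at h3
    exact h3.mono_left nhdsWithin_le_nhds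
  have hev : ∀ᶠ s' in 𝓝[{s | StrictMono s}] s, e s' ≤ 1 / 2 := by
    have := hec.eventually (eventually_lt_nhds (show (0 : ℝ) < 1 / 2 by norm_num))
    exact this.mono fun s' h => h.le
  have hcs : s k.castSucc ≤ s k.succ := hs'.monotone (Fin.castSucc_lt_succ (i := k)).le
  have hsub : ∀ t ∈ Set.uIoc (s k.castSucc) (s k.succ), t ∈ Set.Icc (s 0) (s (Fin.last r)) := by
    intro t ht
    rw [Set.uIoc_of_le hcs] at ht
    exact ⟨(hmem _).1.trans ht.1.le, ht.2.trans (hmem _).2⟩
  let F : (Fin (r + 1) → ℝ) → ℝ → ℝ := fun s' t => wt μ s t *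
    ((∏ j, (1 + (dd (a s') (s j)).eval t) ^ (-μ j)) * (1 + (a s').derivative.eval t))
  have hF : ∀ᶠ s' in 𝓝[{s | StrictMono s}] s,
      Ik μ s' k = ∫ t in (s k.castSucc)..(s k.succ), F s' t := by
    filter_upwards [hev] with s' h
    have h1 := hSub r μ s (a s') hμ hs'
      (fun t ht => ⟨(he s' t ht).trans h, fun j => (he2 s' j t ht).trans h⟩) k
    have h2 : (fun j => s j + (a s').eval (s j)) = s' := funext (ha s')
    rw [h2] at h1
    exact h1
  have hlim : Filter.Tendsto (fun s' => ∫ t in (s k.castSucc)..(s k.succ), F s' t)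
      (𝓝[{s | StrictMono s}] s) (𝓝 (∫ t in (s k.castSucc)..(s k.succ), wt μ s t)) := by
    refine intervalIntegral.tendsto_integral_filter_of_dominated_convergence
      (fun t => |wt μ s t| * (2 ^ (r + 1) * 2)) ?_ ?_ ?_ ?_
    · refine Filter.Eventually.of_forall fun s' => Measurable.aestronglyMeasurable ?_
      refine (meas_wt μ s).mul (Measurable.mul ?_ ?_)
      · refine Finset.measurable_prod _ fun j _ => ?_
        exact (measurable_const.add (dd (a s') (s j)).continuous.measurable).pow_const _
      · exact measurable_const.add (a s').derivative.continuous.measurable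
    · filter_upwards [hev] with s' h
      refine Filter.Eventually.of_forall fun t ht => ?_
      have ht' := hsub t ht
      simp only [F]
      rw [Real.norm_eq_abs, abs_mul, abs_mul]
      refine mul_le_mul_of_nonneg_left ?_ (abs_nonneg _)
      refine mul_le_mul ?_ ?_ (abs_nonneg _) (by positivity)
      · rw [Finset.abs_prod]
        calc ∏ j, |(1 + (dd (a s') (s j)).eval t) ^ (-μ j)| ≤ ∏ _j : Fin (r + 1), (2 : ℝ) :=
              Finset.prod_le_prod (fun j _ => abs_nonneg _) fun j _ =>
                pow_le ((he2 s' j t ht').trans h) (hμ j).1 (hμ j).2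
          _ = 2 ^ (r + 1) := by simp
      · have h3 := abs_le.1 ((he s' t ht').trans h)
        rw [abs_le]
        constructor <;> linarith
    · exact (hWt r μ s hμ hs' k).abs.mul_const _
    · refine Filter.Eventually.of_forall fun t ht => ?_
      have ht' := hsub t ht
      have q1 : Filter.Tendsto (fun s' => (a s').derivative.eval t) (𝓝[{s | StrictMono s}] s) (𝓝 0) :=
        squeeze_zero_norm (fun s' => he s' t ht') hec
      have q2 : ∀ j, Filter.Tendsto (fun s' => (dd (a s') (s j)).eval t) (𝓝[{s | StrictMono s}] s)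
          (𝓝 0) := fun j => squeeze_zero_norm (fun s' => he2 s' j t ht') hec
      have q3 : ∀ j, Filter.Tendsto (fun s' => (1 + (dd (a s') (s j)).eval t) ^ (-μ j))
          (𝓝[{s | StrictMono s}] s) (𝓝 1) := by
        intro j
        have h4 : Filter.Tendsto (fun s' => 1 + (dd (a s') (s j)).eval t)
            (𝓝[{s | StrictMono s}] s) (𝓝 1) := by
          simpa using (q2 j).const_add 1
        have h5 := h4.rpow_const (p := -μ j) (Or.inl one_ne_zero)
        simpa using h5
      have q4 : Filter.Tendsto (fun s' => ∏ j, (1 + (dd (a s') (s j)).eval t) ^ (-μ j))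
          (𝓝[{s | StrictMono s}] s) (𝓝 1) := by
        have h6 := tendsto_finsetProd (Finset.univ : Finset (Fin (r + 1))) (fun j _ => q3 j)
        simpa using h6
      have q5 : Filter.Tendsto (fun s' => 1 + (a s').derivative.eval t)
          (𝓝[{s | StrictMono s}] s) (𝓝 1) := by
        simpa using q1.const_add 1
      have q6 := ((q4.mul q5).const_mul (wt μ s t))
      simpa using q6
  exact hlim.congr' (hF.mono fun _ h => h.symm)

end SEB
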