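import Pool.Agent.Lib.SE.Big.VG

set_option autoImplicit false

open Module MeasureTheory Topology

noncomputable section

namespace SEB

open HC HC.E HC.SE

namespace Der_aux

/-- The weight is measurable. -/
theorem wt_meas {r : ℕ} (μ s : Fin (r + 1) → ℝ) : Measurable (wt μ s) := by
  unfold wt
  refine Finset.measurable_prod _ fun j _ => ?_
  exact (measurable_id.sub_const _).abs.pow_const _

theorem wt_nonneg {r : ℕ} (μ s : Fin (r + 1) → ℝ) (x : ℝ) : 0 ≤ wt μ s x :=
  Finset.prod_nonneg fun _ _ => Real.rpow_nonneg (abs_nonneg _) _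

theorem prod_deriv {ι : Type} (S : Finset ι) (μ d : ι → ℝ) (ε : ℝ)
    (h : ∀ j ∈ S, 0 < 1 + ε * d j) :
    HasDerivAt (fun ε : ℝ => ∏ j ∈ S, (1 + ε * d j) ^ (-μ j))
      ((∏ j ∈ S, (1 + ε * d j) ^ (-μ j)) * (-∑ j ∈ S, μ j * d j / (1 + ε * d j))) ε := by
  classical
  induction S using Finset.induction_on with
  | empty =>
    simp only [Finset.prod_empty, Finset.sum_empty, neg_zero, mul_zero]
    exact hasDerivAt_const _ _
  | insert i S hi ih =>
    have hp := h i (Finset.mem_insert_self _ _)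
    have h1 : HasDerivAt (fun ε : ℝ => (1 + ε * d i) ^ (-μ i))
        (d i * (-μ i) * (1 + ε * d i) ^ (-μ i - 1)) ε := by
      have h2 : HasDerivAt (fun ε : ℝ => 1 + ε * d i) (d i) ε := by
        simpa using ((hasDerivAt_id ε).mul_const (d i)).const_add 1
      exact h2.rpow_const (Or.inl hp.ne')
    have h3 := h1.mul (ih fun j hj => h j (Finset.mem_insert_of_mem hj))
    have h4 : (fun ε : ℝ => ∏ j ∈ insert i S, (1 + ε * d j) ^ (-μ j)) =
        fun ε => (1 + ε * d i) ^ (-μ i) * ∏ j ∈ S, (1 + ε * d j) ^ (-μ j) := by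
      funext ε
      rw [Finset.prod_insert hi]
    rw [h4, Finset.prod_insert hi, Finset.sum_insert hi]
    refine h3.congr_deriv ?_
    rw [Real.rpow_sub_one hp.ne']
    field_simp
    ring

theorem fac_le {x μ : ℝ} (hx : 1 / 2 ≤ x) (h0 : 0 < μ) (h1 : μ < 1) : x ^ (-μ) ≤ 2 := by
  calc x ^ (-μ) ≤ (1 / 2 : ℝ) ^ (-μ) :=
        Real.rpow_le_rpow_of_nonpos (by norm_num) hx (by linarith)
    _ ≤ (1 / 2 : ℝ) ^ (-1 : ℝ) :=
        Real.rpow_le_rpow_of_exponent_ge (by norm_num) (by norm_num) (by linarith)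
    _ = 2 := by
        rw [Real.rpow_neg_one]
        norm_num

theorem dd_smul (a : Polynomial ℝ) (c ε : ℝ) : dd (ε • a) c = ε • dd a c := by
  unfold dd
  have hm := Polynomial.monic_X_sub_C c
  refine (Polynomial.div_modByMonic_unique (ε • (a /ₘ (Polynomial.X - Polynomial.C c)))
    (ε • (a %ₘ (Polynomial.X - Polynomial.C c))) hm ⟨?_, ?_⟩).1
  · rw [mul_smul_comm, ← smul_add, Polynomial.modByMonic_add_div]
  · exact (Polynomial.degree_smul_le _ _).trans_lt (Polynomial.degree_modByMonic_lt _ hm)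

theorem exists_M {r : ℕ} (s : Fin (r + 1) → ℝ) (a : Polynomial ℝ) :
    ∃ M : ℝ, 0 ≤ M ∧ ∀ t ∈ Set.Icc (s 0) (s (Fin.last r)), |a.derivative.eval t| ≤ M ∧
      ∀ j, |(dd a (s j)).eval t| ≤ M := by
  have hc : ContinuousOn (fun t : ℝ => |a.derivative.eval t| + ∑ j, |(dd a (s j)).eval t|)
      (Set.Icc (s 0) (s (Fin.last r))) := by
    apply Continuous.continuousOn
    refine (a.derivative.continuous.abs).add ?_
    exact continuous_finsetSum _ fun j _ => (dd a (s j)).continuous.abs
  obtain ⟨M, hM⟩ := isCompact_Icc.exists_bound_of_continuousOn hc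
  have hs : ∀ t, 0 ≤ ∑ j, |(dd a (s j)).eval t| := fun t =>
    Finset.sum_nonneg fun _ _ => abs_nonneg _
  refine ⟨max M 0, le_max_right _ _, fun t ht => ?_⟩
  have h1 := (le_abs_self _).trans (hM t ht)
  refine ⟨?_, fun j => ?_⟩
  · have := hs t
    exact (by linarith : |a.derivative.eval t| ≤ M).trans (le_max_left _ _)
  · have h2 : |(dd a (s j)).eval t| ≤ ∑ j, |(dd a (s j)).eval t| :=
      Finset.single_le_sum (f := fun j => |(dd a (s j)).eval t|) (fun _ _ => abs_nonneg _)
        (Finset.mem_univ j)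
    have h3 := abs_nonneg (a.derivative.eval t)
    exact (by linarith : |(dd a (s j)).eval t| ≤ M).trans (le_max_left _ _)

end Der_aux

open Der_aux in
theorem tDer : S_Wt → S_Sub → S_Der := by
  intro hWt hSub r μ s a hμ hs k
  obtain ⟨M, hM0, hM⟩ := exists_M s a
  set ε₀ : ℝ := 1 / (2 * (M + 1)) with hε₀
  have hε₀p : 0 < ε₀ := by positivity
  have hsmall : ∀ ε : ℝ, ε ∈ Metric.ball (0 : ℝ) ε₀ → ∀ x : ℝ, |x| ≤ M → |ε * x| ≤ 1 / 2 := by
    intro ε hε x hx
    rw [mem_ball_zero_iff, Real.norm_eq_abs] at hε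
    rw [abs_mul]
    have h1 : |ε| * |x| ≤ ε₀ * M := mul_le_mul hε.le hx (abs_nonneg _) hε₀p.le
    have h2 : ε₀ * M ≤ 1 / 2 := by
      rw [hε₀, div_mul_eq_mul_div, one_mul, div_le_div_iff₀ (by positivity) (by norm_num)]
      linarith
    exact h1.trans h2
  have hicc : ∀ t ∈ Set.uIoc (s k.castSucc) (s k.succ), t ∈ Set.Icc (s 0) (s (Fin.last r)) := by
    intro t ht
    have hlt : s k.castSucc < s k.succ := hs Fin.castSucc_lt_succ
    rw [Set.uIoc_of_le hlt.le] at ht
    exact ⟨(hs.monotone (Fin.zero_le _)).trans ht.1.le, ht.2.trans (hs.monotone (Fin.le_last _))⟩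
  -- the two integrands
  let F : ℝ → ℝ → ℝ := fun ε t => wt μ s t *
    ((∏ j, (1 + ε * (dd a (s j)).eval t) ^ (-μ j)) * (1 + ε * a.derivative.eval t))
  let F' : ℝ → ℝ → ℝ := fun ε t => wt μ s t *
    ((∏ j, (1 + ε * (dd a (s j)).eval t) ^ (-μ j)) *
        (-∑ j, μ j * (dd a (s j)).eval t / (1 + ε * (dd a (s j)).eval t)) *
        (1 + ε * a.derivative.eval t) +
      (∏ j, (1 + ε * (dd a (s j)).eval t) ^ (-μ j)) * a.derivative.eval t)
  have hF0 : F 0 = wt μ s := by
    funext t
    simp [F]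
  have hF'0 : F' 0 = fun t => wt μ s t *
      (a.derivative.eval t - ∑ j, μ j * (dd a (s j)).eval t) := by
    funext t
    simp only [F', zero_mul, add_zero, Real.one_rpow, Finset.prod_const_one, one_mul, div_one,
      mul_one]
    ring
  have hd : ∀ j, Measurable fun t : ℝ => (dd a (s j)).eval t := fun j =>
    (dd a (s j)).continuous.measurable
  have hda : Measurable fun t : ℝ => a.derivative.eval t := a.derivative.continuous.measurable
  have hFm : ∀ ε, Measurable (F ε) := by
    intro ε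
    refine (wt_meas μ s).mul (Measurable.mul ?_ ?_)
    · refine Finset.measurable_prod _ fun j _ => ?_
      exact (((hd j).const_mul ε).const_add 1).pow_const _
    · exact (hda.const_mul ε).const_add 1
  have hF'm : Measurable (F' 0) := by
    rw [hF'0]
    refine (wt_meas μ s).mul (hda.sub ?_)
    exact Finset.measurable_sum _ fun j _ => (hd j).const_mul _
  set C : ℝ := 2 ^ (r + 1) * ((∑ j : Fin (r + 1), 2 * M) * (3 / 2)) + 2 ^ (r + 1) * M with hC
  have key := intervalIntegral.hasDerivAt_integral_of_dominated_loc_of_deriv_le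
    (μ := volume) (a := s k.castSucc) (b := s k.succ) (F := F) (F' := F') (x₀ := (0 : ℝ))
    (s := Metric.ball (0 : ℝ) ε₀) (bound := fun t => wt μ s t * C)
    (Metric.ball_mem_nhds _ hε₀p) (Filter.Eventually.of_forall fun ε =>
      (hFm ε).aestronglyMeasurable) ?_ hF'm.aestronglyMeasurable ?_ ?_ ?_
  · have h1 := key.2
    rw [hF'0] at h1
    refine h1.congr_of_eventuallyEq ?_
    filter_upwards [Metric.ball_mem_nhds (0 : ℝ) hε₀p] with ε hε
    have h2 := hSub r μ s (ε • a) hμ hs (by
      intro t ht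
      refine ⟨?_, fun j => ?_⟩
      · rw [Polynomial.derivative_smul, Polynomial.eval_smul, smul_eq_mul]
        exact hsmall ε hε _ (hM t ht).1
      · rw [dd_smul, Polynomial.eval_smul, smul_eq_mul]
        exact hsmall ε hε _ ((hM t ht).2 j)) k
    simp only [Polynomial.eval_smul, smul_eq_mul, dd_smul, Polynomial.derivative_smul] at h2
    exact h2
  · rw [hF0]
    exact hWt r μ s hμ hs k
  · refine Filter.Eventually.of_forall fun t ht ε hε => ?_
    have ht' := hicc t ht
    have hpos : ∀ j, 1 / 2 ≤ 1 + ε * (dd a (s j)).eval t := by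
      intro j
      have := (abs_le.1 (hsmall ε hε _ ((hM t ht').2 j))).1
      linarith
    have hP0 : 0 ≤ ∏ j, (1 + ε * (dd a (s j)).eval t) ^ (-μ j) :=
      Finset.prod_nonneg fun j _ => Real.rpow_nonneg (by linarith [hpos j]) _
    have hP : ∏ j, (1 + ε * (dd a (s j)).eval t) ^ (-μ j) ≤ 2 ^ (r + 1) := by
      calc ∏ j, (1 + ε * (dd a (s j)).eval t) ^ (-μ j) ≤ ∏ _j : Fin (r + 1), (2 : ℝ) :=
            Finset.prod_le_prod (fun j _ => Real.rpow_nonneg (by linarith [hpos j]) _)
              fun j _ => fac_le (hpos j) (hμ j).1 (hμ j).2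
        _ = 2 ^ (r + 1) := by simp
    have hS : |-∑ j, μ j * (dd a (s j)).eval t / (1 + ε * (dd a (s j)).eval t)| ≤
        ∑ j : Fin (r + 1), 2 * M := by
      rw [abs_neg]
      refine (Finset.abs_sum_le_sum_abs _ _).trans (Finset.sum_le_sum fun j _ => ?_)
      rw [abs_div, abs_mul, abs_of_pos (hμ j).1, abs_of_pos (by linarith [hpos j] :
        0 < 1 + ε * (dd a (s j)).eval t), div_le_iff₀ (by linarith [hpos j])]
      have h1 : μ j * |(dd a (s j)).eval t| ≤ 1 * M :=
        mul_le_mul (hμ j).2.le ((hM t ht').2 j) (abs_nonneg _) (by norm_num)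
      have h2 : M ≤ 2 * M * (1 + ε * (dd a (s j)).eval t) := by
        have := mul_le_mul_of_nonneg_left (hpos j) (by linarith : 0 ≤ 2 * M)
        linarith
      linarith
    have hA : |1 + ε * a.derivative.eval t| ≤ 3 / 2 := by
      have h1 := abs_le.1 (hsmall ε hε _ (hM t ht').1)
      rw [abs_le]
      constructor <;> linarith [h1.1, h1.2]
    have hw := wt_nonneg μ s t
    rw [Real.norm_eq_abs]
    simp only [F']
    rw [abs_mul, abs_of_nonneg hw]
    refine mul_le_mul_of_nonneg_left ?_ hw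
    refine (abs_add_le _ _).trans (add_le_add ?_ ?_)
    · rw [abs_mul, abs_mul, abs_of_nonneg hP0, mul_assoc]
      refine mul_le_mul hP ?_ (by positivity) (by positivity)
      exact mul_le_mul hS hA (abs_nonneg _) (by positivity)
    · rw [abs_mul, abs_of_nonneg hP0]
      exact mul_le_mul hP (hM t ht').1 (abs_nonneg _) (by positivity)
  · exact (hWt r μ s hμ hs k).mul_const _
  · refine Filter.Eventually.of_forall fun t ht ε hε => ?_
    have ht' := hicc t ht
    have hpos : ∀ j ∈ Finset.univ, 0 < 1 + ε * (dd a (s j)).eval t := by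
      intro j _
      have := (abs_le.1 (hsmall ε hε _ ((hM t ht').2 j))).1
      linarith
    have h1 := prod_deriv Finset.univ μ (fun j => (dd a (s j)).eval t) ε hpos
    have h2 : HasDerivAt (fun ε : ℝ => 1 + ε * a.derivative.eval t) (a.derivative.eval t) ε := by
      simpa using ((hasDerivAt_id ε).mul_const (a.derivative.eval t)).const_add 1
    exact (h1.mul h2).const_mul (wt μ s t)

end SEB
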