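import Pool.Agent.Lib.SE.Big.Spec

/-! # PROJECT SE, IsBig, module Dim: the dimensions of the eigenspaces -/

set_option autoImplicit false

open Module

noncomputable section

namespace SEB

open HC HC.E

namespace Dim_aux

variable {T : AV} {m : ℕ}

/-! ### powers of the root of unity -/

theorem zeta_pow (hm : 3 ≤ m) : Complex.exp (2 * Real.pi * Complex.I / m) ^ m = 1 := by
  rw [← Complex.exp_nat_mul]
  have h0 : (m : ℂ) ≠ 0 := by
    have : m ≠ 0 := by omega
    exact_mod_cast this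
  have h : (m : ℂ) * (2 * Real.pi * Complex.I / m) = 2 * Real.pi * Complex.I := by
    field_simp
  rw [h, Complex.exp_two_pi_mul_I]

theorem zet_ne (m : ℕ) (s : (ZMod m)ˣ) : zet m s ≠ 0 :=
  pow_ne_zero _ (Complex.exp_ne_zero _)

theorem zet_pow_val (hm : 3 ≤ m) (ρ t : (ZMod m)ˣ) :
    zet m ρ ^ (t : ZMod m).val = zet m (ρ * t) := by
  unfold zet
  rw [← pow_mul, Units.val_mul, ZMod.val_mul]
  exact pow_eq_pow_mod _ (zeta_pow hm)

section tw

variable {ρ : (ZMod m)ˣ} {l : ℂ →+ ℂ}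
  (hl : ∀ x, l (Complex.exp (2 * Real.pi * Complex.I / m) * x) = zet m ρ * l x)

include hl

theorem tw_pow (n : ℕ) (x : ℂ) :
    l (Complex.exp (2 * Real.pi * Complex.I / m) ^ n * x) = zet m ρ ^ n * l x := by
  induction n with
  | zero => rw [pow_zero, pow_zero, one_mul, one_mul]
  | succ n ih => rw [pow_succ', mul_assoc, hl, ih, pow_succ', mul_assoc]

theorem tw_zet (hm : 3 ≤ m) (t : (ZMod m)ˣ) (x : ℂ) :
    l (zet m t * x) = zet m (ρ * t) * l x := by
  rw [← zet_pow_val hm, ← tw_pow hl]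
  rfl

theorem tw_inv (hm : 3 ≤ m) (t : (ZMod m)ˣ) (x : ℂ) :
    l ((zet m t)⁻¹ * x) = (zet m (ρ * t))⁻¹ * l x := by
  have h := tw_zet hl hm t ((zet m t)⁻¹ * x)
  rw [mul_inv_cancel_left₀ (zet_ne m t)] at h
  rw [h, inv_mul_cancel_left₀ (zet_ne m _)]

theorem tw_inv_pow (hm : 3 ≤ m) (t : (ZMod m)ˣ) (k : ℕ) (x : ℂ) :
    l ((zet m t)⁻¹ ^ k * x) = (zet m (ρ * t))⁻¹ ^ k * l x := by
  induction k with
  | zero => rw [pow_zero, pow_zero, one_mul, one_mul]
  | succ n ih => rw [pow_succ', mul_assoc, tw_inv hl hm, ih, pow_succ', mul_assoc]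

omit hl in
theorem tw_int (l : ℂ →+ ℂ) (n : ℤ) (x : ℂ) : l (x * n) = l x * n := by
  rw [mul_comm, ← zsmul_eq_mul, map_zsmul, zsmul_eq_mul, mul_comm]

omit hl in
theorem tw_minv (hm : 3 ≤ m) (l : ℂ →+ ℂ) (x : ℂ) : l ((m : ℂ)⁻¹ * x) = (m : ℂ)⁻¹ * l x := by
  have h0 : (m : ℂ) ≠ 0 := by
    have : m ≠ 0 := by omega
    exact_mod_cast this
  have h := tw_int l m ((m : ℂ)⁻¹ * x)
  rw [Int.cast_natCast] at h
  have h1 : (m : ℂ)⁻¹ * x * m = x := by field_simp
  rw [h1] at h
  rw [h]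
  field_simp

end tw

/-! ### the projectors -/

theorem pre_pow_apply (D : Cyc T m) (k : ℕ) (a : Frm T) (v : T.V) :
    ((pre D.ZR) ^ k) a v = a ((D.Z ^ k) v) := by
  induction k generalizing a with
  | zero => rfl
  | succ n ih =>
    rw [pow_succ, Module.End.mul_apply, ih, pow_succ', Module.End.mul_apply]
    rfl

theorem pj_apply (D : Cyc T m) (t : (ZMod m)ˣ) (a : Frm T) (v : T.V) :
    pj D t a v = (m : ℂ)⁻¹ * ∑ k ∈ Finset.range m, (zet m t)⁻¹ ^ k * a ((D.Z ^ k) v) := by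
  rw [pj, LinearMap.smul_apply, LinearMap.smul_apply, smul_eq_mul]
  congr 1
  rw [LinearMap.sum_apply, LinearMap.sum_apply]
  refine Finset.sum_congr rfl fun k _ => ?_
  rw [LinearMap.smul_apply, LinearMap.smul_apply, smul_eq_mul, pre_pow_apply]

theorem lat_pow (D : Cyc T m) (k : ℕ) (v : T.V) (hv : v ∈ T.L) : (D.Z ^ k) v ∈ T.L := by
  induction k with
  | zero => exact hv
  | succ n ih =>
    rw [pow_succ', Module.End.mul_apply]
    exact D.lat _ ih

theorem frm_ext (a : Frm T) (h : ∀ v ∈ T.L, a v = 0) : a = 0 := by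
  refine LinearMap.ext_on (s := (T.L : Set T.V)) ?_ ?_
  · exact IsZLattice.span_top
  · intro v hv
    rw [h v hv, LinearMap.zero_apply]

theorem key (D : Cyc T m) (hm : 3 ≤ m) {κ : Type} [Fintype κ] (c : κ → Frm T)
    (hc : ∀ i, ∀ v ∈ T.L, ∃ n : ℤ, c i v = n) (x : κ → ℂ) (t ρ : (ZMod m)ˣ) (l : ℂ →+ ℂ)
    (hl : ∀ x, l (Complex.exp (2 * Real.pi * Complex.I / m) * x) = zet m ρ * l x)
    (h0 : ∑ i, x i • pj D t (c i) = 0) : ∑ i, l (x i) • pj D (ρ * t) (c i) = 0 := by
  refine frm_ext _ fun v hv => ?_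
  have h1 : ∀ i (k : ℕ), ∃ n : ℤ, c i ((D.Z ^ k) v) = n := fun i k => hc i _ (lat_pow D k v hv)
  choose n hn using h1
  have h2 : ∑ i, x i * pj D t (c i) v = 0 := by
    have := LinearMap.congr_fun h0 v
    rw [LinearMap.sum_apply] at this
    simpa using this
  have h3 : ∀ i, l (x i * pj D t (c i) v) = l (x i) * pj D (ρ * t) (c i) v := by
    intro i
    have e1 : x i * pj D t (c i) v =
        (m : ℂ)⁻¹ * ∑ k ∈ Finset.range m, (zet m t)⁻¹ ^ k * (x i * (n i k : ℂ)) := by
      rw [pj_apply, mul_left_comm, Finset.mul_sum]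
      congr 1
      refine Finset.sum_congr rfl fun k _ => ?_
      rw [hn]
      ring
    rw [e1, tw_minv hm, pj_apply, mul_left_comm, Finset.mul_sum]
    congr 1
    rw [map_sum]
    refine Finset.sum_congr rfl fun k _ => ?_
    rw [tw_inv_pow hl hm, tw_int, hn]
    ring
  have h4 : l (∑ i, x i * pj D t (c i) v) = l 0 := congrArg l h2
  rw [map_sum, map_zero] at h4
  rw [LinearMap.sum_apply]
  rw [← h4]
  refine Finset.sum_congr rfl fun i _ => ?_
  rw [h3, LinearMap.smul_apply, smul_eq_mul]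

/-! ### integral forms -/

/-- a basis of the lattice -/
abbrev Ix (T : AV) : Type := Module.Free.ChooseBasisIndex ℤ T.L

instance : Module.Finite ℤ T.L := ZLattice.module_finite ℝ T.L
instance : Module.Free ℤ T.L := ZLattice.module_free ℝ T.L

/-- a lattice basis of `V` -/
def bV (T : AV) : Basis (Ix T) ℝ T.V := (Module.Free.chooseBasis ℤ T.L).ofZLatticeBasis ℝ T.L

/-- the coordinates -/
def cF (T : AV) (i : Ix T) : Frm T := Complex.ofRealCLM.toLinearMap ∘ₗ (bV T).coord i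

theorem cF_apply (i : Ix T) (v : T.V) : cF T i v = ((bV T).repr v i : ℂ) := rfl

theorem cF_int (i : Ix T) (v : T.V) (hv : v ∈ T.L) : ∃ n : ℤ, cF T i v = n := by
  refine ⟨(Module.Free.chooseBasis ℤ T.L).repr ⟨v, hv⟩ i, ?_⟩
  rw [cF_apply, bV]
  have := (Module.Free.chooseBasis ℤ T.L).ofZLatticeBasis_repr_apply ℝ T.L ⟨v, hv⟩ i
  rw [this]
  simp

theorem cF_exp (a : Frm T) : a = ∑ i, a (bV T i) • cF T i := by
  refine LinearMap.ext fun v => ?_
  conv_lhs => rw [← (bV T).sum_repr v]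
  rw [map_sum, LinearMap.sum_apply]
  refine Finset.sum_congr rfl fun i _ => ?_
  rw [map_smul, LinearMap.smul_apply, cF_apply, smul_eq_mul, mul_comm]
  rfl

theorem finrank_frm (T : AV) : finrank ℂ (Frm T) = 2 * finrank ℂ T.V := by
  have e := (bV T).constr (M' := ℂ) ℂ
  rw [← e.finrank_eq, Module.finrank_pi, ← Module.finrank_eq_card_basis (bV T),
    ← Module.finrank_mul_finrank ℝ ℂ T.V, Complex.finrank_real_complex]

instance : FiniteDimensional ℂ (Frm T) := by
  have e := (bV T).constr (M' := ℂ) ℂ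
  exact Module.Finite.equiv e

/-- the images of the integral forms span the eigenspace -/
theorem span_pj (D : Cyc T m) (t : (ZMod m)ˣ) (h1 : ∀ a, pj D t a ∈ Ws D t)
    (h2 : ∀ a ∈ Ws D t, pj D t a = a) :
    Submodule.span ℂ (Set.range fun i => pj D t (cF T i)) = Ws D t := by
  apply le_antisymm
  · rw [Submodule.span_le]
    rintro _ ⟨i, rfl⟩
    exact h1 _
  · intro a ha
    rw [← h2 a ha, cF_exp a, map_sum]
    refine Submodule.sum_mem _ fun i _ => ?_
    rw [map_smul]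
    exact Submodule.smul_mem _ _ (Submodule.subset_span ⟨i, rfl⟩)

theorem le_dim (hTw : S_Tw) (D : Cyc T m) (hm : 3 ≤ m) (h1 : ∀ t a, pj D t a ∈ Ws D t)
    (h2 : ∀ t, ∀ a ∈ Ws D t, pj D t a = a) (ρ t : (ZMod m)ˣ) :
    finrank ℂ (Ws D (ρ * t)) ≤ finrank ℂ (Ws D t) := by
  classical
  obtain ⟨κ, a, ha, hsp, hli⟩ := exists_linearIndependent' ℂ fun i => pj D (ρ * t) (cF T i)
  have : Finite κ := Finite.of_injective a ha
  have := Fintype.ofFinite κ
  have hli' : LinearIndependent ℂ ((fun i => pj D t (cF T i)) ∘ a) := by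
    rw [Fintype.linearIndependent_iff]
    intro g hg
    by_contra hcon
    push Not at hcon
    obtain ⟨i₀, hi₀⟩ := hcon
    obtain ⟨l, hl1, hl⟩ := hTw m (by omega) ρ (g i₀) hi₀
    have h3 := key D hm (fun i => cF T (a i)) (fun i => cF_int (a i)) g t ρ l hl hg
    have h4 := (Fintype.linearIndependent_iff.1 hli) (fun i => l (g i)) h3 i₀
    rw [hl1] at h4
    exact one_ne_zero h4
  have e1 : finrank ℂ (Ws D (ρ * t)) = Fintype.card κ := by
    rw [← span_pj D (ρ * t) (h1 _) (h2 _), ← hsp]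
    exact finrank_span_eq_card hli
  rw [e1, ← finrank_span_eq_card hli']
  refine Submodule.finrank_mono ?_
  rw [Submodule.span_le]
  rintro _ ⟨i, rfl⟩
  exact h1 _ _

theorem eq_dim (hTw : S_Tw) (D : Cyc T m) (hm : 3 ≤ m) (h1 : ∀ t a, pj D t a ∈ Ws D t)
    (h2 : ∀ t, ∀ a ∈ Ws D t, pj D t a = a) (s t : (ZMod m)ˣ) :
    finrank ℂ (Ws D s) = finrank ℂ (Ws D t) := by
  have h : ∀ s t : (ZMod m)ˣ, finrank ℂ (Ws D s) ≤ finrank ℂ (Ws D t) := by
    intro s t
    have := le_dim hTw D hm h1 h2 (s * t⁻¹) t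
    rwa [inv_mul_cancel_right] at this
  exact le_antisymm (h s t) (h t s)

/-! ### the two types -/

/-- The part of type `(0,1)` of the eigenspace. -/
def Ws01 (D : Cyc T m) (s : (ZMod m)ˣ) : Submodule ℂ (Frm T) where
  carrier := {a | a ∈ Ws D s ∧ ∀ v, a (Complex.I • v) = -Complex.I * a v}
  add_mem' {a b} ha hb := by
    refine ⟨add_mem ha.1 hb.1, fun v => ?_⟩
    rw [LinearMap.add_apply, ha.2 v, hb.2 v, LinearMap.add_apply, mul_add]
  zero_mem' := ⟨zero_mem _, fun v => by simp⟩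
  smul_mem' c a ha := by
    refine ⟨Submodule.smul_mem _ c ha.1, fun v => ?_⟩
    rw [LinearMap.smul_apply, ha.2 v, LinearMap.smul_apply, smul_eq_mul, smul_eq_mul]
    ring

theorem finrank10 (D : Cyc T m) (hB : ∀ s, ∀ a ∈ Ws D s, ∃ b ∈ Ws D (-s), ∀ v,
    b v = (starRingEnd ℂ) (a v)) (s : (ZMod m)ˣ) :
    finrank ℂ (Ws01 D s) = finrank ℂ (Ws10 D (-s)) := by
  let cj : Frm T → Frm T := fun a => Complex.conjAe.toLinearMap ∘ₗ a
  have hcj : ∀ a v, cj a v = (starRingEnd ℂ) (a v) := fun a v => rfl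
  have hW : ∀ s, ∀ a ∈ Ws D s, cj a ∈ Ws D (-s) := by
    intro s a ha
    obtain ⟨b, hb, hba⟩ := hB s a ha
    have : cj a = b := LinearMap.ext fun v => by rw [hba, hcj]
    rwa [this]
  have h1 : ∀ a ∈ Ws01 D s, cj a ∈ Ws10 D (-s) := by
    intro a ha
    refine ⟨hW s a ha.1, fun v => ?_⟩
    rw [hcj, ha.2, map_mul, map_neg, Complex.conj_I, neg_neg, hcj]
  have h2 : ∀ a ∈ Ws10 D (-s), cj a ∈ Ws01 D s := by
    intro a ha
    refine ⟨?_, fun v => ?_⟩
    · have := hW (-s) a ha.1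
      rwa [neg_neg] at this
    · rw [hcj, ha.2, map_mul, Complex.conj_I, hcj]
  have hcc : ∀ a, cj (cj a) = a := fun a => LinearMap.ext fun v => by
    rw [hcj, hcj, Complex.conj_conj]
  let e : Ws01 D s ≃ₗ[ℝ] Ws10 D (-s) :=
    { toFun := fun a => ⟨cj a, h1 a a.2⟩
      invFun := fun a => ⟨cj a, h2 a a.2⟩
      left_inv := fun a => Subtype.ext (hcc a)
      right_inv := fun a => Subtype.ext (hcc a)
      map_add' := fun a b => Subtype.ext (LinearMap.ext fun v => by
        change (starRingEnd ℂ) ((a : Frm T) v + (b : Frm T) v) = _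
        rw [map_add]
        rfl)
      map_smul' := fun x a => Subtype.ext (LinearMap.ext fun v => by
        change (starRingEnd ℂ) (x • (a : Frm T) v) = x • (starRingEnd ℂ) ((a : Frm T) v)
        rw [Complex.real_smul, Complex.real_smul, map_mul, Complex.conj_ofReal]) }
  have h3 := e.finrank_eq
  rw [← Module.finrank_mul_finrank ℝ ℂ (Ws01 D s), ← Module.finrank_mul_finrank ℝ ℂ (Ws10 D (-s)),
    Complex.finrank_real_complex] at h3
  omega

theorem sum_types (D : Cyc T m) (s : (ZMod m)ˣ) :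
    finrank ℂ (Ws10 D s) + finrank ℂ (Ws01 D s) = finrank ℂ (Ws D s) := by
  have hsup : Ws10 D s ⊔ Ws01 D s = Ws D s := by
    apply le_antisymm
    · exact sup_le (fun a ha => ha.1) (fun a ha => ha.1)
    · intro a ha
      let J : Frm T := pre (mulI T) a
      have hJ : ∀ v, J v = a (Complex.I • v) := fun v => rfl
      have hJW : J ∈ Ws D s := fun v => by
        rw [hJ, hJ, ← map_smul D.Z, ha]
      have hJJ : ∀ v, J (Complex.I • v) = -a v := fun v => by
        rw [hJ, smul_smul, Complex.I_mul_I, neg_one_smul, map_neg]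
      have e1 : a = (1 / 2 : ℂ) • (a - Complex.I • J) + (1 / 2 : ℂ) • (a + Complex.I • J) := by
        refine LinearMap.ext fun v => ?_
        simp only [LinearMap.add_apply, LinearMap.sub_apply, LinearMap.smul_apply, smul_eq_mul]
        ring
      rw [e1]
      refine Submodule.add_mem_sup (Submodule.smul_mem _ _ ⟨?_, fun v => ?_⟩)
        (Submodule.smul_mem _ _ ⟨?_, fun v => ?_⟩)
      · exact sub_mem ha (Submodule.smul_mem _ _ hJW)
      · simp only [LinearMap.sub_apply, LinearMap.smul_apply, smul_eq_mul, hJJ]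
        rw [← hJ]
        linear_combination (J v) * Complex.I_mul_I
      · exact add_mem ha (Submodule.smul_mem _ _ hJW)
      · simp only [LinearMap.add_apply, LinearMap.smul_apply, smul_eq_mul, hJJ]
        rw [← hJ]
        linear_combination (J v) * Complex.I_mul_I
  have hinf : Ws10 D s ⊓ Ws01 D s = ⊥ := by
    rw [eq_bot_iff]
    rintro a ⟨h1, h2⟩
    rw [Submodule.mem_bot]
    refine LinearMap.ext fun v => ?_
    have e1 := h1.2 v
    have e2 := h2.2 v
    rw [e1] at e2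
    have e3 : Complex.I * a v = 0 := by linear_combination (1 / 2 : ℂ) * e2
    rw [LinearMap.zero_apply]
    exact (mul_eq_zero.1 e3).resolve_left Complex.I_ne_zero
  have h := Submodule.finrank_sup_add_finrank_inf_eq (Ws10 D s) (Ws01 D s)
  rw [hsup, hinf, finrank_bot] at h
  omega

end Dim_aux

open Dim_aux in
theorem tDim : S_Pj → S_Tw → S_Bas → S_Dim := by
  intro hPj hTw hBas T m r D hm hr s
  classical
  obtain ⟨-, h1, h2, -⟩ := hPj T m D hm
  obtain ⟨htop, hind, -, -, hconj⟩ := hBas T m D hm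
  have : NeZero m := ⟨by omega⟩
  have hint : DirectSum.IsInternal fun t => Ws D t :=
    DirectSum.isInternal_submodule_of_iSupIndep_of_iSup_eq_top hind htop
  have hsum : finrank ℂ (Frm T) = ∑ t, finrank ℂ (Ws D t) := by
    rw [← Module.finrank_directSum]
    exact (LinearEquiv.ofBijective (DirectSum.coeLinearMap fun t => Ws D t) hint).finrank_eq.symm
  have hd : finrank ℂ (Ws D s) = r := by
    rw [finrank_frm, hr, Finset.sum_congr rfl fun t _ => eq_dim hTw D hm h1 h2 t s,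
      Finset.sum_const, Finset.card_univ, ZMod.card_units_eq_totient, smul_eq_mul, mul_comm] at hsum
    have hpos : 0 < Nat.totient m := Nat.totient_pos.2 (by omega)
    exact (Nat.eq_of_mul_eq_mul_left hpos hsum).symm
  refine ⟨hd, ?_⟩
  rw [Cyc.p, Cyc.p, ← finrank10 D hconj s, sum_types, hd]

end SEB
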