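import Pool.Agent.Lib.SE.Big.VG2
import Pool.Agent.Lib.SE.Big.Cj

/-!
# PROJECT SE, module IsBig, part 4, module Dj: derivative of `J` (task 23866, helper99)
-/

set_option autoImplicit false

open Module MeasureTheory Topology

noncomputable section

namespace SEB

open HC HC.E HC.SE

namespace Dj_aux

open Cj_aux

variable {m r : ℕ} {b : Fin (r + 1) → ℕ} {u : ℕ}

/-- `Th` as a linear map. -/
def ThL (m : ℕ) {r : ℕ} (b : Fin (r + 1) → ℕ) (u : ℕ) (s : Fin (r + 1) → ℝ)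
    (a : Polynomial ℂ) : Polynomial ℂ →ₗ[ℂ] Polynomial ℂ where
  toFun := Th m b u s a
  map_add' f g := by
    unfold Th
    rw [Polynomial.derivative_add]
    ring
  map_smul' c f := by
    unfold Th
    rw [Polynomial.smul_eq_C_mul, Polynomial.derivative_C_mul, RingHom.id_apply,
      Polynomial.smul_eq_C_mul]
    ring

theorem pv_th_eq (hPv : S_Pv) {s : Fin (r + 1) → ℝ} (hs : Adm m b u s) (a : Polynomial ℂ)
    (n : ℕ) (f : Polynomial ℂ) (hf : f.degree < (n : WithBot ℕ)) :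
    Pv m b u s (Th m b u s a f) =
      ∑ i : Fin n, f.coeff i • Pv m b u s (Th m b u s a (Polynomial.X ^ (i : ℕ))) := by
  have h1 : ∀ g, Pv m b u s (Th m b u s a g) = (PL hPv hs ∘ₗ ThL m b u s a) g := fun g => rfl
  simp only [h1]
  conv_lhs => rw [poly_sum f n hf]
  rw [map_sum]
  refine Finset.sum_congr rfl fun i _ => ?_
  rw [← Polynomial.smul_eq_C_mul, map_smul]

/-- the derivatives of the family of vectors -/
def FD (m : ℕ) {r : ℕ} (b : Fin (r + 1) → ℕ) (u : ℕ) (s : Fin (r + 1) → ℝ) (a : Polynomial ℂ) :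
    Fin (sg m r b u) ⊕ Fin (sg m r b (m - u)) → (Fin r → ℂ) :=
  Sum.elim (fun i => Pv m b u s (Th m b u s a (Polynomial.X ^ (i : ℕ))))
    (fun l => star (Pv m b (m - u) s (Th m b (m - u) s a (Polynomial.X ^ (l : ℕ)))))

/-- the derivative of the matrix -/
def MD (h : sg m r b u + sg m r b (m - u) = r) (s : Fin (r + 1) → ℝ) (a : Polynomial ℂ) :
    Matrix (Fin r) (Fin r) ℂ :=
  Matrix.of fun k j => FD m b u s a ((ee h).symm j) k

theorem MD_mulVec (h : sg m r b u + sg m r b (m - u) = r) (s : Fin (r + 1) → ℝ)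
    (a : Polynomial ℂ) (v : Fin (sg m r b u) → ℂ) (w : Fin (sg m r b (m - u)) → ℂ) :
    (MD h s a).mulVec (fun j => Sum.elim v w ((ee h).symm j)) =
      ∑ i, v i • Pv m b u s (Th m b u s a (Polynomial.X ^ (i : ℕ))) +
        ∑ l, w l • star (Pv m b (m - u) s (Th m b (m - u) s a (Polynomial.X ^ (l : ℕ)))) := by
  ext k
  rw [Matrix.mulVec, dotProduct]
  simp only [MD, Matrix.of_apply]
  rw [← (ee h).sum_comp]
  simp only [Equiv.symm_apply_apply, Fintype.sum_sum_type, FD, Sum.elim_inl, Sum.elim_inr,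
    Pi.add_apply, Finset.sum_apply, Pi.smul_apply, smul_eq_mul]
  refine congrArg₂ (· + ·) ?_ ?_
  · exact Finset.sum_congr rfl fun i _ => mul_comm _ _
  · exact Finset.sum_congr rfl fun i _ => mul_comm _ _

/-- the derivatives of the entries -/
theorem MM_deriv (hD : S_PvD) (h : sg m r b u + sg m r b (m - u) = r) {s : Fin (r + 1) → ℝ}
    (hs : Adm m b u s) (a : Polynomial ℝ) (k j : Fin r) :
    HasDerivAt (fun ε : ℝ => MM h (fun i => s i + ε * a.eval (s i)) k j)
      (MD h s (a.map (algebraMap ℝ ℂ)) k j) 0 := by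
  have hs' := adm_neg hs
  simp only [MM, MD, Matrix.of_apply, FF, FD]
  cases (ee h).symm j with
  | inl i =>
    simp only [Sum.elim_inl]
    exact (hasDerivAt_pi.1 (hD m r b u s hs a (Polynomial.X ^ (i : ℕ)))) k
  | inr l =>
    simp only [Sum.elim_inr]
    exact ((hasDerivAt_pi.1 (hD m r b (m - u) s hs' a (Polynomial.X ^ (l : ℕ)))) k).star

end Dj_aux

open Cj_aux Dj_aux in
/-- Module Dj: the derivative of `J`. -/
theorem tDj : S_Pv → S_PvD → S_Jx → S_Dj := by
  intro hPv hD hJx m r b u U hU hUA g hg s hs J hJ a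
  obtain ⟨hA, hN⟩ := hUA s hs
  have h : sg m r b u + sg m r b (m - u) = r := tSg m r _ b hA.2.1 u hA.2.2.1 hA.2.2.2
  have hA' := adm_neg hA
  set A : Polynomial ℂ := a.map (algebraMap ℝ ℂ) with hAdef
  set σ : ℝ → Fin (r + 1) → ℝ := fun ε i => s i + ε * a.eval (s i) with hσ
  have hσ0 : σ 0 = s := by
    funext i
    simp [hσ]
  have hσc : Continuous σ := by
    refine continuous_pi fun i => ?_
    exact continuous_const.add (continuous_id.mul continuous_const)
  have hev : ∀ᶠ ε in 𝓝 (0 : ℝ), σ ε ∈ U := by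
    refine hσc.continuousAt.eventually_mem ?_
    rw [hσ0]
    exact hU.mem_nhds hs
  have hder : ∀ k j, HasDerivAt (fun ε : ℝ => MM h (σ ε) k j) (MD h s A k j) 0 :=
    fun k j => MM_deriv hD h hA a k j
  have hMc : ContinuousAt (fun ε : ℝ => MM h (σ ε)) 0 :=
    continuousAt_pi.2 fun k => continuousAt_pi.2 fun j => (hder k j).continuousAt
  have hdet0 : (MM h (σ 0)).det ≠ 0 := by
    rw [hσ0]
    exact (nd_iff hPv h hA).1 hN
  have hdetc : ContinuousAt (fun ε : ℝ => (MM h (σ ε)).det) 0 :=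
    (Continuous.matrix_det continuous_id).continuousAt.comp hMc
  have hJc : ContinuousAt (fun ε : ℝ => JM h (σ ε)) 0 := by
    have h1 : ContinuousAt (fun ε : ℝ => (MM h (σ ε))⁻¹) 0 := by
      have h2 : (fun ε : ℝ => (MM h (σ ε))⁻¹) =
          fun ε => ((MM h (σ ε)).det)⁻¹ • (MM h (σ ε)).adjugate := by
        funext ε
        rw [Matrix.inv_def, Ring.inverse_eq_inv']
      rw [h2]
      have h3 : ContinuousAt (fun ε : ℝ => ((MM h (σ ε)).det)⁻¹) 0 := hdetc.inv₀ hdet0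
      have h4 : ContinuousAt (fun ε : ℝ => (MM h (σ ε)).adjugate) 0 :=
        (Continuous.matrix_adjugate continuous_id).continuousAt.comp hMc
      exact h3.smul h4
    exact (hMc.mul continuousAt_const).mul h1
  -- the difference quotients of the matrix
  have hT : Filter.Tendsto (fun ε : ℝ => ((ε⁻¹ : ℝ) : ℂ) • (MM h (σ ε) - MM h (σ 0)))
      (𝓝[≠] 0) (𝓝 (MD h s A)) := by
    refine tendsto_pi_nhds.2 fun k => tendsto_pi_nhds.2 fun j => ?_
    have h1 := (hder k j).tendsto_slope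
    refine h1.congr fun ε => ?_
    rw [slope_def_module, sub_zero]
    simp only [Matrix.smul_apply, Matrix.sub_apply]
    rw [Complex.coe_smul]
  have hJc' : Filter.Tendsto (fun ε : ℝ => JM h (σ ε)) (𝓝[≠] 0) (𝓝 (JM h s)) := by
    have h1 : Filter.Tendsto (fun ε : ℝ => JM h (σ ε)) (𝓝 0) (𝓝 (JM h (σ 0))) := hJc
    rw [hσ0] at h1
    exact h1.mono_left nhdsWithin_le_nhds
  have hlim : Filter.Tendsto (fun ε : ℝ =>
      ((((ε⁻¹ : ℝ) : ℂ) • (MM h (σ ε) - MM h (σ 0))) * DD h -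
        JM h (σ ε) * (((ε⁻¹ : ℝ) : ℂ) • (MM h (σ ε) - MM h (σ 0)))) * (MM h s)⁻¹)
      (𝓝[≠] 0) (𝓝 ((MD h s A * DD h - JM h s * MD h s A) * (MM h s)⁻¹)) :=
    ((hT.mul tendsto_const_nhds).sub (hJc'.mul hT)).mul tendsto_const_nhds
  have hisJ : ∀ ε, σ ε ∈ U → Matrix.toLin' (JM h (σ ε)) ∈ g := by
    intro ε hε
    obtain ⟨k1, k2⟩ := hUA _ hε
    exact hg _ hε _ (JM_isJ hPv h k1 ((nd_iff hPv h k1).1 k2))
  set g' : Submodule ℂ (Matrix (Fin r) (Fin r) ℂ) :=
    g.comap (Matrix.toLin' (R := ℂ) (m := Fin r) (n := Fin r)).toLinearMap with hg'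
  have hcl : IsClosed (g' : Set (Matrix (Fin r) (Fin r) ℂ)) := g'.closed_of_finiteDimensional
  have hmem : ∀ᶠ ε in 𝓝[≠] (0 : ℝ),
      ((((ε⁻¹ : ℝ) : ℂ) • (MM h (σ ε) - MM h (σ 0))) * DD h -
        JM h (σ ε) * (((ε⁻¹ : ℝ) : ℂ) • (MM h (σ ε) - MM h (σ 0)))) * (MM h s)⁻¹ ∈ g' := by
    filter_upwards [nhdsWithin_le_nhds hev] with ε hε
    have hε' : σ ε ∈ U := hε
    have hs0 : σ 0 ∈ U := by
      rw [hσ0]
      exact hs
    have e1 : JM h (σ ε) * MM h (σ ε) = MM h (σ ε) * DD h := by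
      have hu : IsUnit (MM h (σ ε)).det :=
        isUnit_iff_ne_zero.2 ((nd_iff hPv h (hUA _ hε').1).1 (hUA _ hε').2)
      rw [JM, Matrix.mul_assoc, Matrix.nonsing_inv_mul _ hu, Matrix.mul_one]
    have hu0 : IsUnit (MM h (σ 0)).det := isUnit_iff_ne_zero.2 hdet0
    have e2 : JM h (σ 0) * MM h (σ 0) = MM h (σ 0) * DD h := by
      rw [JM, Matrix.mul_assoc, Matrix.nonsing_inv_mul _ hu0, Matrix.mul_one]
    have e3 : ((((ε⁻¹ : ℝ) : ℂ) • (MM h (σ ε) - MM h (σ 0))) * DD h -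
        JM h (σ ε) * (((ε⁻¹ : ℝ) : ℂ) • (MM h (σ ε) - MM h (σ 0)))) * (MM h s)⁻¹ =
        ((ε⁻¹ : ℝ) : ℂ) • (JM h (σ ε) - JM h (σ 0)) := by
      have e4 : (((ε⁻¹ : ℝ) : ℂ) • (MM h (σ ε) - MM h (σ 0))) * DD h -
          JM h (σ ε) * (((ε⁻¹ : ℝ) : ℂ) • (MM h (σ ε) - MM h (σ 0))) =
          (((ε⁻¹ : ℝ) : ℂ) • (JM h (σ ε) - JM h (σ 0))) * MM h (σ 0) := by
        rw [Matrix.smul_mul, Matrix.mul_smul, Matrix.smul_mul, ← smul_sub, Matrix.sub_mul,
          Matrix.mul_sub, Matrix.sub_mul, e1, e2]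
        congr 1
        abel
      rw [e4, ← hσ0, Matrix.mul_assoc, Matrix.mul_nonsing_inv _ hu0, Matrix.mul_one]
    rw [e3]
    refine g'.smul_mem _ (g'.sub_mem ?_ ?_)
    · exact hisJ ε hε'
    · exact hisJ 0 hs0
  have hin : (MD h s A * DD h - JM h s * MD h s A) * (MM h s)⁻¹ ∈ g' :=
    hcl.mem_of_tendsto hlim hmem
  have hJ0 : J = Matrix.toLin' (JM h s) := by
    obtain ⟨J0, -, huniq, -⟩ := hJx m r b u s hA hN
    rw [huniq J hJ, ← huniq _ (JM_isJ hPv h hA ((nd_iff hPv h hA).1 hN))]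
  refine ⟨Matrix.toLin' ((MD h s A * DD h - JM h s * MD h s A) * (MM h s)⁻¹), hin, ?_⟩
  have hu : IsUnit (MM h s).det := isUnit_iff_ne_zero.2 ((nd_iff hPv h hA).1 hN)
  have key : ∀ (v : Fin r → ℂ) (z : ℂ), (DD h).mulVec v = z • v →
      Matrix.toLin' ((MD h s A * DD h - JM h s * MD h s A) * (MM h s)⁻¹) ((MM h s).mulVec v) =
        z • (MD h s A).mulVec v - J ((MD h s A).mulVec v) := by
    intro v z hz
    rw [Matrix.toLin'_apply, Matrix.mulVec_mulVec, Matrix.mul_assoc, Matrix.nonsing_inv_mul _ hu,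
      Matrix.mul_one, Matrix.sub_mulVec, ← Matrix.mulVec_mulVec, ← Matrix.mulVec_mulVec, hz,
      Matrix.mulVec_smul, hJ0, Matrix.toLin'_apply]
  constructor
  · intro f hf
    have h1 : Pv m b u s f = (MM h s).mulVec (fun j => Sum.elim
        (fun i : Fin (sg m r b u) => f.coeff i) (fun _ : Fin (sg m r b (m - u)) => (0 : ℂ))
          ((ee h).symm j)) := by
      rw [MM_mulVec, pv_eq hPv hA _ f hf]
      simp
    have h3 : Pv m b u s (Th m b u s A f) = (MD h s A).mulVec (fun j => Sum.elim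
        (fun i : Fin (sg m r b u) => f.coeff i) (fun _ : Fin (sg m r b (m - u)) => (0 : ℂ))
          ((ee h).symm j)) := by
      rw [MD_mulVec, pv_th_eq hPv hA A _ f hf]
      simp
    have h2 : (DD h).mulVec (fun j => Sum.elim
        (fun i : Fin (sg m r b u) => f.coeff i) (fun _ : Fin (sg m r b (m - u)) => (0 : ℂ))
          ((ee h).symm j)) = Complex.I • (fun j => Sum.elim
        (fun i : Fin (sg m r b u) => f.coeff i) (fun _ : Fin (sg m r b (m - u)) => (0 : ℂ))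
          ((ee h).symm j)) := by
      funext j
      rw [DD, Matrix.mulVec_diagonal, Pi.smul_apply, smul_eq_mul]
      rcases (ee h).symm j with i | l <;> simp
    rw [h1, key _ _ h2, ← h3]
  · intro f hf
    have h1 : star (Pv m b (m - u) s f) = (MM h s).mulVec (fun j => Sum.elim
        (fun _ : Fin (sg m r b u) => (0 : ℂ))
        (fun l : Fin (sg m r b (m - u)) => star (f.coeff l)) ((ee h).symm j)) := by
      rw [MM_mulVec, star_pv_eq hPv hA' _ f hf]
      simp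
    have h3 : star (Pv m b (m - u) s (Th m b (m - u) s A f)) =
        (MD h s A).mulVec (fun j => Sum.elim
        (fun _ : Fin (sg m r b u) => (0 : ℂ))
        (fun l : Fin (sg m r b (m - u)) => star (f.coeff l)) ((ee h).symm j)) := by
      rw [MD_mulVec, pv_th_eq hPv hA' A _ f hf, star_sum]
      simp only [star_smul, zero_smul, Finset.sum_const_zero, zero_add]
    have h2 : (DD h).mulVec (fun j => Sum.elim
        (fun _ : Fin (sg m r b u) => (0 : ℂ))
        (fun l : Fin (sg m r b (m - u)) => star (f.coeff l)) ((ee h).symm j)) =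
        -Complex.I • (fun j => Sum.elim (fun _ : Fin (sg m r b u) => (0 : ℂ))
        (fun l : Fin (sg m r b (m - u)) => star (f.coeff l)) ((ee h).symm j)) := by
      funext j
      rw [DD, Matrix.mulVec_diagonal, Pi.smul_apply, smul_eq_mul]
      rcases (ee h).symm j with i | l <;> simp
    rw [h1, key _ _ h2, ← h3]

end SEB
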