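import Pool.Agent.Lib.SE.Big.VG2
import Pool.Agent.Lib.SE.Big.Per

/-!
# PROJECT SE, module IsBig, part 4: `E`-basis
-/

set_option autoImplicit false

open Module

noncomputable section

namespace SEB

open HC HC.E HC.SE

namespace EB_aux

variable {T : AV}

theorem zero_of_lat (a : Frm T) (h : ∀ y ∈ T.L, a y = 0) : a = 0 := by
  have h1 : Submodule.span ℝ (T.L : Set T.V) = ⊤ := IsZLattice.span_top
  refine LinearMap.ext fun v => ?_
  have hv : v ∈ Submodule.span ℝ (T.L : Set T.V) := by
    rw [h1]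
    exact Submodule.mem_top
  rw [LinearMap.zero_apply]
  induction hv using Submodule.span_induction with
  | mem y hy => exact h y hy
  | zero => exact map_zero a
  | add y z _ _ hy hz => rw [map_add, hy, hz, add_zero]
  | smul c y _ hy => rw [map_smul, hy, smul_zero]

end EB_aux

open Per_aux in
theorem tEB : S_EB := by
  classical
  intro T m r D hm3 hr hd u₀ B hB v hv hA
  have hm : 0 < m := by omega
  refine ⟨fun u a ha hak => ?_, fun X hX hXZ => ?_⟩
  · refine EB_aux.zero_of_lat a fun y hy => ?_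
    obtain ⟨N, hN, b, hb⟩ := in_span hm D u₀ B hB v hv hA hd y hy
    have h1 := congrArg a hb
    rw [map_zsmul, map_sum] at h1
    have h2 : ∑ k, a ((Polynomial.aeval D.Z (b k)) (v k)) = 0 :=
      Finset.sum_eq_zero fun k _ => by rw [B_aeval ha, hak, mul_zero]
    rw [h2, zsmul_eq_mul] at h1
    exact (mul_eq_zero.1 h1).resolve_left (Int.cast_ne_zero.2 hN)
  · have h1 : ∀ k, ∃ (P : ℤ) (a : Fin r → Polynomial ℤ), P ≠ 0 ∧
        P • X (v k) = ∑ j, (Polynomial.aeval D.Z (a j)) (v j) := by
      intro k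
      obtain ⟨N, hN, hNL⟩ := hX (v k) (hv k)
      obtain ⟨M, hM, a, ha⟩ := in_span hm D u₀ B hB v hv hA hd (N • X (v k)) hNL
      refine ⟨M * N, a, mul_ne_zero hM (Int.natCast_ne_zero.2 hN), ?_⟩
      rw [← ha, mul_smul, natCast_zsmul]
    choose P a hP ha using h1
    refine ⟨∏ k, P k, fun k j => Polynomial.C (∏ i ∈ Finset.univ.erase k, P i) * a k j,
      Finset.prod_ne_zero_iff.2 fun k _ => hP k, fun k => ?_⟩
    rw [← Finset.mul_prod_erase Finset.univ P (Finset.mem_univ k), mul_comm, mul_smul, ha k,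
      Finset.smul_sum]
    refine Finset.sum_congr rfl fun j _ => ?_
    rw [map_mul, Polynomial.aeval_C, Module.End.mul_apply, algebraMap_int_eq, eq_intCast,
      Module.End.intCast_apply]

end SEB
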