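import Pool.Agent.Lib.SE.Big.Spec

/-!
# PROJECT SE, module IsBig, Real: real form from a half system of characters
-/

set_option autoImplicit false

open Module

noncomputable section

namespace SEB

open HC HC.E

namespace Real_aux

variable {T : AV} {m : ℕ}

theorem nd (D : Cyc T m) (u : T.V) (h : ∀ v, D.ψ u v = 0) : u = 0 := by
  by_contra hu
  have h1 := D.pos u hu
  rw [D.alt, h, neg_zero] at h1
  exact lt_irrefl _ h1

theorem nd2 (D : Cyc T m) (u u' : T.V) (h : ∀ v, D.ψ u v = D.ψ u' v) : u = u' := by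
  refine sub_eq_zero.1 (nd D _ fun v => ?_)
  rw [map_sub, LinearMap.sub_apply, h, sub_self]

theorem repR (D : Cyc T m) (f : T.V →ₗ[ℝ] ℝ) : ∃ u, ∀ v, f v = D.ψ u v := by
  have h1 : Function.Injective (D.ψ : T.V →ₗ[ℝ] T.V →ₗ[ℝ] ℝ) := fun u u' h =>
    nd2 D u u' fun v => LinearMap.congr_fun h v
  have h2 : Function.Surjective (D.ψ : T.V →ₗ[ℝ] T.V →ₗ[ℝ] ℝ) := by
    refine (LinearMap.injective_iff_surjective_of_finrank_eq_finrank ?_).1 h1
    exact (Subspace.dual_finrank_eq (K := ℝ) (V := T.V)).symm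
  obtain ⟨u, hu⟩ := h2 f
  exact ⟨u, fun v => by rw [hu]⟩

theorem repC (D : Cyc T m) (a : Frm T) :
    ∃ u1 u2, ∀ v, a v = (D.ψ u1 v : ℂ) + Complex.I * (D.ψ u2 v : ℂ) := by
  obtain ⟨u1, h1⟩ := repR D (Complex.reLm ∘ₗ a)
  obtain ⟨u2, h2⟩ := repR D (Complex.imLm ∘ₗ a)
  refine ⟨u1, u2, fun v => ?_⟩
  rw [← h1, ← h2]
  apply Complex.ext
  · simp
  · simp

theorem Zsurj (D : Cyc T m) : Function.Surjective D.Z := by
  refine LinearMap.injective_iff_surjective.1 ((injective_iff_map_eq_zero _).2 fun v hv => ?_)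
  refine nd D v fun w => ?_
  rw [← D.inv, hv, map_zero, LinearMap.zero_apply]

theorem zet_ne (hm : 3 ≤ m) (s t : (ZMod m)ˣ) (h : t ≠ s) : zet m t * zet m (-s) ≠ 1 := by
  intro h1
  have hm0 : m ≠ 0 := by lia
  have : NeZero m := ⟨hm0⟩
  have h2 := Complex.isPrimitiveRoot_exp m hm0
  rw [zet, zet, ← pow_add, h2.pow_eq_one_iff_dvd] at h1
  rw [← ZMod.natCast_eq_zero_iff, Nat.cast_add, ZMod.natCast_zmod_val, ZMod.natCast_zmod_val,
    Units.val_neg, ← sub_eq_add_neg, sub_eq_zero] at h1
  exact h (Units.ext h1)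

/-- Complex combinations are `pre P + i pre Q`. -/
theorem comb (Y₀ : Set (Module.End ℝ T.V)) (C : Module.End ℂ (Frm T))
    (hC : C ∈ Submodule.span ℂ (pre '' Y₀)) :
    ∃ P ∈ Submodule.span ℝ Y₀, ∃ Q ∈ Submodule.span ℝ Y₀,
      ∀ a v, C a v = a (P v) + Complex.I * a (Q v) := by
  induction hC using Submodule.span_induction with
  | mem C hC =>
    obtain ⟨Y, hY, rfl⟩ := hC
    refine ⟨Y, Submodule.subset_span hY, 0, Submodule.zero_mem _, fun a v => ?_⟩
    rw [LinearMap.zero_apply, map_zero, mul_zero, add_zero]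
    rfl
  | zero =>
    refine ⟨0, Submodule.zero_mem _, 0, Submodule.zero_mem _, fun a v => ?_⟩
    simp
  | add C C' _ _ h h' =>
    obtain ⟨P, hP, Q, hQ, h⟩ := h
    obtain ⟨P', hP', Q', hQ', h'⟩ := h'
    refine ⟨P + P', add_mem hP hP', Q + Q', add_mem hQ hQ', fun a v => ?_⟩
    rw [LinearMap.add_apply, LinearMap.add_apply, h, h', LinearMap.add_apply, LinearMap.add_apply,
      map_add, map_add]
    ring
  | smul c C _ h =>
    obtain ⟨P, hP, Q, hQ, h⟩ := h
    refine ⟨c.re • P - c.im • Q, sub_mem (Submodule.smul_mem _ _ hP) (Submodule.smul_mem _ _ hQ),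
      c.re • Q + c.im • P, add_mem (Submodule.smul_mem _ _ hQ) (Submodule.smul_mem _ _ hP),
      fun a v => ?_⟩
    rw [LinearMap.smul_apply, LinearMap.smul_apply, h, LinearMap.sub_apply, LinearMap.add_apply,
      map_sub, map_add, LinearMap.smul_apply, LinearMap.smul_apply, LinearMap.smul_apply,
      LinearMap.smul_apply, map_smul, map_smul, map_smul, map_smul, smul_eq_mul,
      Complex.real_smul, Complex.real_smul, Complex.real_smul, Complex.real_smul]
    conv_lhs => rw [← Complex.re_add_im c]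
    have hI := Complex.I_mul_I
    linear_combination ((c.im : ℂ) * a (Q v)) * hI

theorem isU_span (D : Cyc T m) (Y₀ : Set (Module.End ℝ T.V)) (h : ∀ Y ∈ Y₀, IsU D Y)
    (P : Module.End ℝ T.V) (hP : P ∈ Submodule.span ℝ Y₀) : IsU D P := by
  induction hP using Submodule.span_induction with
  | mem Y hY => exact h Y hY
  | zero => exact ⟨fun v => by simp, fun u v => by simp⟩
  | add P Q _ _ hP hQ =>
    refine ⟨fun v => ?_, fun u v => ?_⟩
    · rw [LinearMap.add_apply, hP.1, hQ.1, LinearMap.add_apply, map_add]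
    · have h1 := hP.2 u v
      have h2 := hQ.2 u v
      rw [LinearMap.add_apply, LinearMap.add_apply, map_add, LinearMap.add_apply, map_add]
      linarith
  | smul r P _ hP =>
    refine ⟨fun v => ?_, fun u v => ?_⟩
    · rw [LinearMap.smul_apply, hP.1, LinearMap.smul_apply]
      exact (LinearMap.map_smul_of_tower D.Z r (P v)).symm
    · have h1 := hP.2 u v
      rw [LinearMap.smul_apply, LinearMap.smul_apply, map_smul, LinearMap.smul_apply, map_smul,
        smul_eq_mul, smul_eq_mul, ← mul_add, h1, mul_zero]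

theorem isU_sub (D : Cyc T m) (P Q : Module.End ℝ T.V) (hP : IsU D P) (hQ : IsU D Q) :
    IsU D (P - Q) := by
  refine ⟨fun v => ?_, fun u v => ?_⟩
  · rw [LinearMap.sub_apply, hP.1, hQ.1, LinearMap.sub_apply, map_sub]
  · have h1 := hP.2 u v
    have h2 := hQ.2 u v
    rw [LinearMap.sub_apply, LinearMap.sub_apply, map_sub, LinearMap.sub_apply, map_sub]
    linarith

/-- The key step: vanishing on `Ws s` implies vanishing on `Ws (-s)`. -/
theorem key (D : Cyc T m) (hm : 3 ≤ m) (htop : ⨆ s, Ws D s = ⊤) (P Q : Module.End ℝ T.V)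
    (hP : IsU D P) (hQ : IsU D Q) (s : (ZMod m)ˣ)
    (h : ∀ a ∈ Ws D s, ∀ v, a (P v) + Complex.I * a (Q v) = 0) :
    ∀ b ∈ Ws D (-s), ∀ v, b (P v) + Complex.I * b (Q v) = 0 := by
  intro b hb u
  have hI := Complex.I_mul_I
  set b' : T.V → ℂ := fun v => b (P v) + Complex.I * b (Q v) with hb'
  have badd : ∀ v w, b' (v + w) = b' v + b' w := fun v w => by
    simp only [hb', map_add]
    ring
  have bsmul : ∀ (r : ℝ) v, b' (r • v) = (r : ℂ) * b' v := fun r v => by
    simp only [hb', map_smul, Complex.real_smul]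
    ring
  have bZ : ∀ v, b' (D.Z v) = zet m (-s) * b' v := fun v => by
    simp only [hb']
    rw [hP.1, hQ.1, hb, hb]
    ring
  have main : ∀ a : Frm T, ∃ u1 u2, (∀ v, a v = (D.ψ u1 v : ℂ) + Complex.I * (D.ψ u2 v : ℂ)) ∧
      b' u1 + Complex.I * b' u2 = 0 := by
    intro a
    have ha : a ∈ ⨆ s, Ws D s := by
      rw [htop]
      exact Submodule.mem_top
    induction ha using Submodule.iSup_induction' with
    | mem t a ha =>
      obtain ⟨u1, u2, hu⟩ := repC D a
      refine ⟨u1, u2, hu, ?_⟩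
      by_cases hts : t = s
      · subst hts
        have h1 : ∀ v, D.ψ (P u1 - Q u2) v = 0 ∧ D.ψ (P u2 + Q u1) v = 0 := by
          intro v
          have h2 := h a ha v
          rw [hu, hu] at h2
          have e1 : D.ψ u1 (P v) = -D.ψ (P u1) v := by linarith [hP.2 u1 v]
          have e2 : D.ψ u2 (P v) = -D.ψ (P u2) v := by linarith [hP.2 u2 v]
          have e3 : D.ψ u1 (Q v) = -D.ψ (Q u1) v := by linarith [hQ.2 u1 v]
          have e4 : D.ψ u2 (Q v) = -D.ψ (Q u2) v := by linarith [hQ.2 u2 v]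
          rw [e1, e2, e3, e4] at h2
          have h3 := congrArg Complex.re h2
          have h4 := congrArg Complex.im h2
          simp at h3 h4
          rw [map_sub, LinearMap.sub_apply, map_add, LinearMap.add_apply]
          constructor <;> linarith
        have h2 : P u1 = Q u2 := sub_eq_zero.1 (nd D _ fun v => (h1 v).1)
        have h3 : P u2 = -Q u1 := eq_neg_of_add_eq_zero_left (nd D _ fun v => (h1 v).2)
        simp only [hb']
        rw [h2, h3, map_neg]
        linear_combination (b (Q u2)) * hI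
      · set x : ℝ := (zet m t).re
        set y : ℝ := (zet m t).im
        have hz : zet m t = (x : ℂ) + (y : ℂ) * Complex.I := (Complex.re_add_im _).symm
        have h1 : ∀ v, D.ψ u1 (D.Z v) = D.ψ (x • u1 - y • u2) v ∧
            D.ψ u2 (D.Z v) = D.ψ (y • u1 + x • u2) v := by
          intro v
          have h2 := ha v
          rw [hu, hu, hz] at h2
          have h3 := congrArg Complex.re h2
          have h4 := congrArg Complex.im h2
          simp at h3 h4
          rw [map_sub, LinearMap.sub_apply, map_add, LinearMap.add_apply, map_smul, map_smul,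
            map_smul, map_smul, LinearMap.smul_apply, LinearMap.smul_apply, LinearMap.smul_apply,
            LinearMap.smul_apply, smul_eq_mul, smul_eq_mul, smul_eq_mul, smul_eq_mul]
          constructor <;> linarith
        have hw : ∀ w u, (∀ v, D.ψ u (D.Z v) = D.ψ w v) → u = D.Z w := by
          intro w u hwu
          refine nd2 D _ _ fun v => ?_
          obtain ⟨v, rfl⟩ := Zsurj D v
          rw [hwu, D.inv]
        have h2 := hw _ _ fun v => (h1 v).1
        have h3 := hw _ _ fun v => (h1 v).2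
        have bsub : ∀ v w, b' (v - w) = b' v - b' w := fun v w => by
          rw [sub_eq_add_neg, badd, ← neg_one_smul ℝ w, bsmul]
          push_cast
          ring
        have h4 : b' u1 = zet m (-s) * (x * b' u1 - y * b' u2) := by
          conv_lhs => rw [h2]
          rw [bZ, bsub, bsmul, bsmul]
        have h5 : b' u2 = zet m (-s) * (y * b' u1 + x * b' u2) := by
          conv_lhs => rw [h3]
          rw [bZ, badd, bsmul, bsmul]
        have h6 : (1 - zet m t * zet m (-s)) * (b' u1 + Complex.I * b' u2) = 0 := by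
          rw [hz]
          linear_combination h4 + Complex.I * h5 - ((zet m (-s)) * y * b' u2) * hI
        exact (mul_eq_zero.1 h6).resolve_left (sub_ne_zero.2 (zet_ne hm s t hts).symm)
    | zero =>
      refine ⟨0, 0, fun v => by simp, ?_⟩
      simp [hb']
    | add a c _ _ h1 h2 =>
      obtain ⟨u1, u2, hu, hu'⟩ := h1
      obtain ⟨w1, w2, hw, hw'⟩ := h2
      refine ⟨u1 + w1, u2 + w2, fun v => ?_, ?_⟩
      · rw [LinearMap.add_apply, hu, hw, map_add, map_add, LinearMap.add_apply,
          LinearMap.add_apply]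
        push_cast
        ring
      · rw [badd, badd]
        linear_combination hu' + hw'
  obtain ⟨u1, u2, h1, h2⟩ := main (Complex.ofRealCLM.toLinearMap ∘ₗ D.ψ u)
  have h3 : ∀ v, D.ψ u v = D.ψ u1 v ∧ D.ψ u2 v = 0 := by
    intro v
    have h4 := h1 v
    rw [LinearMap.comp_apply] at h4
    have h5 := congrArg Complex.re h4
    have h6 := congrArg Complex.im h4
    simp at h5 h6
    exact ⟨h5, h6.symm⟩
  have h4 : u = u1 := nd2 D _ _ fun v => (h3 v).1
  have h5 : u2 = 0 := nd D _ fun v => (h3 v).2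
  rw [← h4, h5] at h2
  have h6 : b' 0 = 0 := by simp [hb']
  rw [h6, mul_zero, add_zero] at h2
  exact h2

end Real_aux

open Real_aux

theorem tReal : S_Real := by
  intro hBas T m D hm Y₀ X hY hX F hF C hC hCF
  obtain ⟨htop, _, _, _, _⟩ := hBas T m D hm
  obtain ⟨P, hP, Q, hQ, hPQ⟩ := comb Y₀ C hC
  have uP := isU_span D Y₀ hY P hP
  have uQ := isU_span D Y₀ hY Q hQ
  have h1 : ∀ s ∈ F, ∀ a ∈ Ws D s, ∀ v, a ((P - X) v) + Complex.I * a (Q v) = 0 := by
    intro s hs a ha v
    have h2 := LinearMap.congr_fun (hCF s hs a ha) v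
    rw [hPQ] at h2
    have h3 : pre X a v = a (X v) := rfl
    rw [h3] at h2
    rw [LinearMap.sub_apply, map_sub]
    linear_combination h2
  have h2 : ∀ s, ∀ a ∈ Ws D s, ∀ v, a ((P - X) v) + Complex.I * a (Q v) = 0 := by
    intro s
    rcases hF s with hs | hs
    · exact h1 s hs
    · have h3 := key D hm htop (P - X) Q (isU_sub D P X uP hX) uQ (-s) (h1 (-s) hs)
      rw [neg_neg] at h3
      exact h3
  have h3 : ∀ a : Frm T, ∀ v, a ((P - X) v) + Complex.I * a (Q v) = 0 := by
    intro a
    have ha : a ∈ ⨆ s, Ws D s := by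
      rw [htop]
      exact Submodule.mem_top
    induction ha using Submodule.iSup_induction' with
    | mem t a ha => exact h2 t a ha
    | zero =>
      intro v
      simp
    | add a c _ _ h1 h2 =>
      intro v
      rw [LinearMap.add_apply, LinearMap.add_apply]
      linear_combination h1 v + h2 v
  have h4 : X = P := by
    refine LinearMap.ext fun v => ?_
    refine (sub_eq_zero.1 (nd D _ fun w => ?_)).symm
    have h5 := h3 (Complex.ofRealCLM.toLinearMap ∘ₗ D.ψ w) v
    have h6 := congrArg Complex.re h5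
    simp at h6
    rw [D.alt, map_sub, h6, neg_zero]
  rw [h4]
  exact hP

end SEB
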