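import Pool.Agent.Lib.SE.Big.Fam
import Pool.Agent.Lib.SE.Big.Real

/-! # SE/Big FFin: conclusion for families (helper11) -/

set_option autoImplicit false

open Module

noncomputable section

namespace SEB

open HC HC.E HC.SE

namespace FFin_aux

private theorem ne_neg {m : ℕ} (hm : 3 ≤ m) (s : (ZMod m)ˣ) :
    (s : ZMod m) ≠ ((-s : (ZMod m)ˣ) : ZMod m) := by
  intro h
  rw [Units.val_neg] at h
  have h2 : (2 : ZMod m) * (s : ZMod m) = 0 := by
    rw [two_mul]
    nth_rewrite 2 [h]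
    exact add_neg_cancel _
  have h3 : (2 : ZMod m) = 0 := by
    have := congrArg (fun x => x * ((s⁻¹ : (ZMod m)ˣ) : ZMod m)) h2
    simpa [mul_assoc] using this
  have h4 : ((2 : ℕ) : ZMod m) = 0 := by exact_mod_cast h3
  rw [ZMod.natCast_eq_zero_iff] at h4
  exact absurd (Nat.le_of_dvd (by norm_num) h4) (by omega)

/-- a half system of characters -/
private theorem half {m : ℕ} (hm : 3 ≤ m) :
    ∃ F : Set (ZMod m)ˣ, (∀ s, s ∈ F ∨ -s ∈ F) ∧ ∀ s ∈ F, -s ∉ F := by
  have : NeZero m := ⟨by omega⟩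
  refine ⟨{s | (s : ZMod m).val < ((-s : (ZMod m)ˣ) : ZMod m).val}, fun s => ?_, fun s hs => ?_⟩
  · rcases lt_trichotomy (s : ZMod m).val ((-s : (ZMod m)ˣ) : ZMod m).val with h | h | h
    · exact Or.inl h
    · exact absurd (ZMod.val_injective m h) (ne_neg hm s)
    · right
      change ((-s : (ZMod m)ˣ) : ZMod m).val < ((-(-s) : (ZMod m)ˣ) : ZMod m).val
      rw [neg_neg]
      exact h
  · intro h
    change ((-s : (ZMod m)ˣ) : ZMod m).val < ((-(-s) : (ZMod m)ˣ) : ZMod m).val at h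
    rw [neg_neg] at h
    exact absurd (lt_trans hs h) (lt_irrefl _)

private theorem com_u {T : AV} {m : ℕ} (D : Cyc T m) {X X' : Module.End ℝ T.V} (h : IsU D X)
    (h' : IsU D X') : IsU D (X * X' - X' * X) := by
  refine ⟨fun v => ?_, fun u v => ?_⟩
  · simp only [LinearMap.sub_apply, Module.End.mul_apply, h.1, h'.1, map_sub]
  · simp only [LinearMap.sub_apply, Module.End.mul_apply, map_sub]
    have e1 := h.2 (X' u) v
    have e2 := h'.2 (X u) v
    have e3 := h.2 u (X' v)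
    have e4 := h'.2 u (X v)
    linarith

/-- Complex combinations of tuples are `pre P + i pre Q`. -/
theorem combF {q : ℕ} {F : Fm q} (Y₀ : Set F.E) (C : F.O)
    (hC : C ∈ Submodule.span ℂ ((fun X : F.E => (fun i => pre (X i) : F.O)) '' Y₀)) :
    ∃ P ∈ Submodule.span ℝ Y₀, ∃ Q ∈ Submodule.span ℝ Y₀,
      ∀ i a v, C i a v = a (P i v) + Complex.I * a (Q i v) := by
  induction hC using Submodule.span_induction with
  | mem C hC =>
    obtain ⟨Y, hY, rfl⟩ := hC
    refine ⟨Y, Submodule.subset_span hY, 0, Submodule.zero_mem _, fun i a v => ?_⟩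
    rw [Pi.zero_apply, LinearMap.zero_apply, map_zero, mul_zero, add_zero]
    rfl
  | zero =>
    refine ⟨0, Submodule.zero_mem _, 0, Submodule.zero_mem _, fun i a v => ?_⟩
    simp
  | add C C' _ _ h h' =>
    obtain ⟨P, hP, Q, hQ, h⟩ := h
    obtain ⟨P', hP', Q', hQ', h'⟩ := h'
    refine ⟨P + P', add_mem hP hP', Q + Q', add_mem hQ hQ', fun i a v => ?_⟩
    rw [Pi.add_apply, Pi.add_apply, Pi.add_apply, LinearMap.add_apply, LinearMap.add_apply, h, h',
      LinearMap.add_apply, LinearMap.add_apply, map_add, map_add]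
    ring
  | smul c C _ h =>
    obtain ⟨P, hP, Q, hQ, h⟩ := h
    refine ⟨c.re • P - c.im • Q, sub_mem (Submodule.smul_mem _ _ hP) (Submodule.smul_mem _ _ hQ),
      c.re • Q + c.im • P, add_mem (Submodule.smul_mem _ _ hQ) (Submodule.smul_mem _ _ hP),
      fun i a v => ?_⟩
    rw [Pi.smul_apply, Pi.sub_apply, Pi.add_apply, Pi.smul_apply, Pi.smul_apply, Pi.smul_apply,
      Pi.smul_apply, LinearMap.smul_apply, LinearMap.smul_apply, h, LinearMap.sub_apply,
      LinearMap.add_apply, map_sub, map_add, LinearMap.smul_apply, LinearMap.smul_apply,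
      LinearMap.smul_apply, LinearMap.smul_apply, map_smul, map_smul, map_smul, map_smul,
      smul_eq_mul, Complex.real_smul, Complex.real_smul, Complex.real_smul, Complex.real_smul]
    conv_lhs => rw [← Complex.re_add_im c]
    have hI := Complex.I_mul_I
    linear_combination ((c.im : ℂ) * a (Q i v)) * hI

theorem isU_spanF {q : ℕ} (F : Fm q) (Y₀ : Set F.E) (h : ∀ Y ∈ Y₀, ∀ i, IsU (F.D i) (Y i))
    (P : F.E) (hP : P ∈ Submodule.span ℝ Y₀) (i : Fin q) : IsU (F.D i) (P i) := by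
  refine Real_aux.isU_span (F.D i) ((fun Y : F.E => Y i) '' Y₀) ?_ (P i) ?_
  · rintro Y ⟨Y', hY', rfl⟩
    exact h Y' hY' i
  · have h1 : (LinearMap.proj i : F.E →ₗ[ℝ] Module.End ℝ (F.T i).V) P ∈
        Submodule.map (LinearMap.proj i : F.E →ₗ[ℝ] Module.End ℝ (F.T i).V)
          (Submodule.span ℝ Y₀) := Submodule.mem_map_of_mem hP
    rw [Submodule.map_span] at h1
    exact h1

/-- The last part of the proof of `S_Real`. -/
theorem core (hBas : S_Bas) {T : AV} {m : ℕ} (D : Cyc T m) (hm : 3 ≤ m)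
    (P Q X : Module.End ℝ T.V) (uP : IsU D P) (uQ : IsU D Q) (hX : IsU D X) (F : Set (ZMod m)ˣ)
    (hF : ∀ s, s ∈ F ∨ -s ∈ F)
    (h1 : ∀ s ∈ F, ∀ a ∈ Ws D s, ∀ v, a ((P - X) v) + Complex.I * a (Q v) = 0) : X = P := by
  obtain ⟨htop, _, _, _, _⟩ := hBas T m D hm
  have h2 : ∀ s, ∀ a ∈ Ws D s, ∀ v, a ((P - X) v) + Complex.I * a (Q v) = 0 := by
    intro s
    rcases hF s with hs | hs
    · exact h1 s hs
    · have h3 := Real_aux.key D hm htop (P - X) Q (Real_aux.isU_sub D P X uP hX) uQ (-s) (h1 (-s) hs)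
      rw [neg_neg] at h3
      exact h3
  have h3 : ∀ a : Frm T, ∀ v, a ((P - X) v) + Complex.I * a (Q v) = 0 := by
    intro a
    have ha : a ∈ ⨆ s, Ws D s := by
      rw [htop]
      exact Submodule.mem_top
    induction ha using Submodule.iSup_induction' with
    | mem t a ha => exact h2 t a ha
    | zero =>
      intro v
      simp
    | add a c _ _ h1 h2 =>
      intro v
      rw [LinearMap.add_apply, LinearMap.add_apply]
      linear_combination h1 v + h2 v
  refine LinearMap.ext fun v => ?_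
  refine (sub_eq_zero.1 (Real_aux.nd D _ fun w => ?_)).symm
  have h5 := h3 (Complex.ofRealCLM.toLinearMap ∘ₗ D.ψ w) v
  have h6 := congrArg Complex.re h5
  simp at h6
  rw [D.alt, map_sub, h6, neg_zero]

end FFin_aux

open FFin_aux in
theorem tFFin : S_FFin := by
  intro hP hB hT q F h hH hits X hX
  choose F₀ hF1 hF2 using fun i => half (F.hm i)
  choose A hA1 hA2 using fun β : F.B => hT hP hB (F.T β.1) (F.m β.1) (F.D β.1) (F.hm β.1) (X β.1)
    (hX β.1) β.2
  obtain ⟨C, hC, hCF⟩ := hits {β : F.B | β.2 ∈ F₀ β.1} (fun β hβ => hF2 β.1 β.2 hβ) A hA1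
  obtain ⟨P, hP, Q, hQ, hPQ⟩ := combF (ComF h) C hC
  have hu : ∀ Y ∈ ComF h, ∀ i, IsU (F.D i) (Y i) := by
    rintro Y ⟨Y₁, h₁, Y₂, h₂, rfl⟩ i
    exact com_u (F.D i) (hH.u _ h₁ i) (hH.u _ h₂ i)
  have uP := isU_spanF F (ComF h) hu P hP
  have uQ := isU_spanF F (ComF h) hu Q hQ
  have hXP : X = P := by
    funext i
    refine core hB (F.D i) (F.hm i) (P i) (Q i) (X i) (uP i) (uQ i) (hX i).1 (F₀ i) (hF1 i) ?_
    intro s hs a ha v
    have h1 := hCF ⟨i, s⟩ hs ⟨a, ha⟩
    have h2 := (hA2 ⟨i, s⟩ ⟨a, ha⟩).symm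
    have h3 := LinearMap.congr_fun (h1.trans h2) v
    have h4 := hPQ i a v
    have h5 : C i a v = a (X i v) := h3
    rw [LinearMap.sub_apply, map_sub]
    linear_combination h5 - h4
  rw [hXP]
  exact hP

end SEB
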