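import Pool.Agent.Lib.SE.Big.Fam

/-!
# PROJECT SE, module IsBig, part 3: blocks of one factor (module FH)
-/

set_option autoImplicit false

open Module

noncomputable section

namespace SEB

open HC HC.E HC.SE

namespace FH_aux

variable {q : ℕ}

/-- The components of the elements of `h`. -/
def comp (F : Fm q) (h : Set F.E) (i : Fin q) : Set (Module.End ℝ (F.T i).V) :=
  (fun X : F.E => X i) '' h

theorem hlie (F : Fm q) (h : Set F.E) (hh : HLieF F h) (i : Fin q) :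
    HLie (F.D i) (comp F h i) := by
  refine ⟨?_, ?_, ?_, ?_⟩
  · rintro _ ⟨X, hX, rfl⟩
    exact hh.rat X hX i
  · rintro _ ⟨X, hX, rfl⟩
    exact hh.u X hX i
  · refine { zero := ?_, add := ?_, smul := ?_, br := ?_ }
    · exact ⟨0, hh.zero, rfl⟩
    · rintro _ ⟨X, hX, rfl⟩ _ ⟨Y, hY, rfl⟩
      exact ⟨X + Y, hh.add X hX Y hY, rfl⟩
    · rintro c _ ⟨X, hX, rfl⟩
      exact ⟨(c : ℝ) • X, hh.smul c X hX, rfl⟩
    · rintro _ ⟨X, hX, rfl⟩ _ ⟨Y, hY, rfl⟩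
      exact ⟨X * Y - Y * X, hh.br X hX Y hY, rfl⟩
  · have h1 := Submodule.mem_map_of_mem (f := LinearMap.proj (R := ℝ) (φ := fun i => Module.End ℝ (F.T i).V) i) hh.J
    rw [Submodule.map_span] at h1
    exact h1

theorem lift (F : Fm q) (h : Set F.E) (i : Fin q) (C : Module.End ℂ (Frm (F.T i)))
    (hC : C ∈ gg (comp F h i)) : ∃ C' ∈ ggF h, C' i = C := by
  have h1 : gg (comp F h i) ≤ (ggF h).map
      (LinearMap.proj (R := ℂ) (φ := fun i => Module.End ℂ (Frm (F.T i))) i) := by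
    unfold gg
    rw [Submodule.span_le]
    rintro _ ⟨Y, ⟨_, ⟨X, hX, rfl⟩, _, ⟨X', hX', rfl⟩, rfl⟩, rfl⟩
    refine ⟨fun j => pre ((X * X' - X' * X) j), ?_, rfl⟩
    exact Submodule.subset_span ⟨X * X' - X' * X, ⟨X, hX, X', hX', rfl⟩, rfl⟩
  obtain ⟨C', hC', h2⟩ := h1 hC
  exact ⟨C', hC', h2⟩

theorem hits (F : Fm q) (h : Set F.E) (i : Fin q) (S : Set (ZMod (F.m i))ˣ)
    (hS : Hits (F.D i) (comp F h i) S) (B : Set F.B)
    (hB : ∀ β ∈ B, ∃ s ∈ S, β = ⟨i, s⟩) : HitsF F h B := by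
  intro A hA
  obtain ⟨C, hC, h1⟩ := hS (fun s => A ⟨i, s⟩) (fun s => hA ⟨i, s⟩)
  obtain ⟨C', hC', h2⟩ := lift F h i C hC
  refine ⟨C', hC', ?_⟩
  intro β hβ
  obtain ⟨s, hs, rfl⟩ := hB β hβ
  intro a
  have h3 := h1 s hs a
  show C' i (a : Frm (F.T i)) = _
  rw [h2]
  exact h3

end FH_aux

theorem tFH : S_FH := by
  intro q F h hh hF
  refine ⟨?_, ?_⟩
  · rintro ⟨i, s⟩
    refine FH_aux.hits F h i {s} ((hF i _ (FH_aux.hlie F h hh i)).1 s) _ ?_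
    intro β hβ
    exact ⟨s, rfl, hβ⟩
  · rintro ⟨i, s⟩ ⟨j, t⟩ hij h1 h2
    dsimp only at hij
    subst hij
    have h3 : t ≠ s := fun h => h1 (by rw [h])
    have h4 : t ≠ -s := fun h => h2 (by rw [h]; rfl)
    refine FH_aux.hits F h i {s, t} ((hF i _ (FH_aux.hlie F h hh i)).2 s t h3 h4) _ ?_
    intro β hβ
    rcases hβ with hβ | hβ
    · exact ⟨s, Or.inl rfl, hβ⟩
    · exact ⟨t, Or.inr rfl, hβ⟩

end SEB
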