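import Pool.Agent.Lib.SE.Big.Spec
import Pool.Agent.Lib.HC.L.E.Flat

set_option autoImplicit false

open Module

noncomputable section

namespace SEB

open HC HC.E

namespace Hl_aux

/-- A Hamel basis is linearly independent over the rational numbers. -/
theorem num (S : Finset (Module.Basis.ofVectorSpaceIndex ℚ ℝ))
    (q : Module.Basis.ofVectorSpaceIndex ℚ ℝ → ℝ) (hq : ∀ s, ∃ r : ℚ, q s = r)
    (h : ∑ s ∈ S, HC.Flat.H s * q s = 0) : ∀ s ∈ S, q s = 0 := by
  choose r hr using hq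
  have h1 : ∑ s ∈ S, r s • HC.Flat.H s = 0 := by
    rw [← h]
    refine Finset.sum_congr rfl fun s _ => ?_
    rw [Rat.smul_def, hr, mul_comm]
  intro s hs
  have h2 := linearIndependent_iff'.1 HC.Flat.H.linearIndependent S r h1 s hs
  rw [hr, h2, Rat.cast_zero]

theorem entry {B : AV} {ι : Type} [Fintype ι] [DecidableEq ι] (b : Module.Basis ι ℝ B.V)
    (hb1 : ∀ i, b i ∈ B.L) (hb2 : ∀ v ∈ B.L, ∀ i, ∃ n : ℤ, b.repr v i = n)
    (X : Module.End ℝ B.V) (hX : RatEnd B X) (i : ι × ι) :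
    ∃ q : ℚ, (b.linearMap b).repr X i = q := by
  obtain ⟨N, hN, h1⟩ := hX (b i.2) (hb1 i.2)
  obtain ⟨n, hn⟩ := hb2 _ h1 i.1
  refine ⟨n / N, ?_⟩
  have h3 : (b.linearMap b).repr X i = b.repr (X (b i.2)) i.1 := by
    have : (b.linearMap b).repr X i = LinearMap.toMatrix b b X i.1 i.2 := by
      simp [Module.Basis.linearMap, Matrix.stdBasis]
    rw [this, LinearMap.toMatrix_apply]
  have hN' : (N : ℝ) ≠ 0 := Nat.cast_ne_zero.2 hN
  rw [h3]
  rw [← Nat.cast_smul_eq_nsmul ℝ N, map_smul, Finsupp.smul_apply, smul_eq_mul] at hn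
  push_cast
  rw [eq_div_iff hN', mul_comm, hn]

/-- rational coordinates -/
theorem coord {B : AV} {ι : Type} (b : Module.Basis ι ℝ B.V)
    (hb2 : ∀ v ∈ B.L, ∀ i, ∃ n : ℤ, b.repr v i = n) (w : B.V) (N : ℕ) (hN : N ≠ 0)
    (hw : N • w ∈ B.L) (i : ι) : ∃ q : ℚ, b.repr w i = q := by
  obtain ⟨n, hn⟩ := hb2 _ hw i
  refine ⟨n / N, ?_⟩
  have hN' : (N : ℝ) ≠ 0 := Nat.cast_ne_zero.2 hN
  rw [← Nat.cast_smul_eq_nsmul ℝ N, map_smul, Finsupp.smul_apply, smul_eq_mul] at hn
  push_cast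
  rw [eq_div_iff hN', mul_comm, hn]

variable {T : AV} {m : ℕ}

theorem psi_rat (D : Cyc T m) (w v : T.V) (N : ℕ) (hN : N ≠ 0) (hw : N • w ∈ T.L)
    (hv : v ∈ T.L) : ∃ q : ℚ, D.ψ w v = q := by
  obtain ⟨n, hn⟩ := D.int _ hw _ hv
  refine ⟨n / N, ?_⟩
  have hN' : (N : ℝ) ≠ 0 := Nat.cast_ne_zero.2 hN
  rw [← Nat.cast_smul_eq_nsmul ℝ N, map_smul, LinearMap.smul_apply, smul_eq_mul] at hn
  push_cast
  rw [eq_div_iff hN', mul_comm, hn]

theorem psi_rat' (D : Cyc T m) (w v : T.V) (N : ℕ) (hN : N ≠ 0) (hw : N • w ∈ T.L)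
    (hv : v ∈ T.L) : ∃ q : ℚ, D.ψ v w = q := by
  obtain ⟨q, hq⟩ := psi_rat D w v N hN hw hv
  refine ⟨-q, ?_⟩
  rw [D.alt, hq, Rat.cast_neg]

theorem mulI_apply (v : T.V) : mulI T v = Complex.I • v := rfl

theorem psi_mulI (D : Cyc T m) (u v : T.V) : D.ψ (mulI T u) v + D.ψ u (mulI T v) = 0 := by
  have h := D.cpx u (Complex.I • v)
  rw [smul_smul, Complex.I_mul_I, neg_smul, one_smul, map_neg] at h
  rw [mulI_apply, mulI_apply, ← h]
  ring

/-- Linear conditions with rational coefficients. -/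
theorem isU_of (D : Cyc T m) {ι : Type} [Fintype ι] (b : Module.Basis ι ℝ T.V)
    (hb1 : ∀ i, b i ∈ T.L) (hb2 : ∀ v ∈ T.L, ∀ i, ∃ n : ℤ, b.repr v i = n)
    (S : Finset (Module.Basis.ofVectorSpaceIndex ℚ ℝ))
    (Y : Module.Basis.ofVectorSpaceIndex ℚ ℝ → Module.End ℝ T.V) (hY : ∀ s, RatEnd T (Y s))
    (hS : mulI T = ∑ s ∈ S, HC.Flat.H s • Y s) : ∀ s ∈ S, IsU D (Y s) := by
  have happ : ∀ v, mulI T v = ∑ s ∈ S, HC.Flat.H s • Y s v := by
    intro v
    rw [hS, LinearMap.sum_apply]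
    rfl
  intro s hs
  constructor
  · -- commutation
    have h1 : (Y s) ∘ₗ (D.Z.restrictScalars ℝ) = (D.Z.restrictScalars ℝ) ∘ₗ (Y s) := by
      refine b.ext fun k => ?_
      apply b.repr.injective
      ext i
      have key := num S (fun s => b.repr (Y s (D.Z (b k))) i - b.repr (D.Z (Y s (b k))) i)
        ?_ ?_ s hs
      · exact sub_eq_zero.1 key
      · intro s
        obtain ⟨N, hN, hNL⟩ := hY s (D.Z (b k)) (D.lat _ (hb1 k))
        obtain ⟨q, hq⟩ := coord b hb2 _ N hN hNL i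
        obtain ⟨N', hN', hNL'⟩ := hY s (b k) (hb1 k)
        have h3 : N' • D.Z (Y s (b k)) ∈ T.L := by
          rw [← map_nsmul]
          exact D.lat _ hNL'
        obtain ⟨q', hq'⟩ := coord b hb2 _ N' hN' h3 i
        exact ⟨q - q', by rw [hq, hq', Rat.cast_sub]⟩
      · have h2 : mulI T (D.Z (b k)) = D.Z (mulI T (b k)) := by
          rw [mulI_apply, mulI_apply, map_smul]
        have h4 : b.repr (mulI T (D.Z (b k))) i =
            ∑ s ∈ S, HC.Flat.H s * b.repr (Y s (D.Z (b k))) i := by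
          rw [happ, map_sum, Finsupp.finsetSum_apply]
          refine Finset.sum_congr rfl fun s _ => ?_
          rw [map_smul, Finsupp.smul_apply, smul_eq_mul]
        have h5 : b.repr (D.Z (mulI T (b k))) i =
            ∑ s ∈ S, HC.Flat.H s * b.repr (D.Z (Y s (b k))) i := by
          have h6 : D.Z (mulI T (b k)) = (D.Z.restrictScalars ℝ) (mulI T (b k)) := rfl
          rw [h6, happ, map_sum, map_sum, Finsupp.finsetSum_apply]
          refine Finset.sum_congr rfl fun s _ => ?_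
          rw [map_smul, map_smul, Finsupp.smul_apply, smul_eq_mul]
          rfl
        simp only [mul_sub]
        rw [Finset.sum_sub_distrib, ← h4, ← h5, h2, sub_self]
    intro v
    exact LinearMap.congr_fun h1 v
  · -- skewness
    have hbb : ∀ k l, D.ψ (Y s (b k)) (b l) + D.ψ (b k) (Y s (b l)) = 0 := by
      intro k l
      refine num S (fun s => D.ψ (Y s (b k)) (b l) + D.ψ (b k) (Y s (b l))) ?_ ?_ s hs
      · intro s
        obtain ⟨N, hN, hNL⟩ := hY s (b k) (hb1 k)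
        obtain ⟨q, hq⟩ := psi_rat D _ (b l) N hN hNL (hb1 l)
        obtain ⟨N', hN', hNL'⟩ := hY s (b l) (hb1 l)
        obtain ⟨q', hq'⟩ := psi_rat' D _ (b k) N' hN' hNL' (hb1 k)
        exact ⟨q + q', by rw [hq, hq', Rat.cast_add]⟩
      · have h4 : D.ψ (mulI T (b k)) (b l) = ∑ s ∈ S, HC.Flat.H s * D.ψ (Y s (b k)) (b l) := by
          rw [happ, map_sum, LinearMap.sum_apply]
          refine Finset.sum_congr rfl fun s _ => ?_
          rw [map_smul, LinearMap.smul_apply, smul_eq_mul]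
        have h5 : D.ψ (b k) (mulI T (b l)) = ∑ s ∈ S, HC.Flat.H s * D.ψ (b k) (Y s (b l)) := by
          rw [happ, map_sum]
          refine Finset.sum_congr rfl fun s _ => ?_
          rw [map_smul, smul_eq_mul]
        simp only [mul_add]
        rw [Finset.sum_add_distrib, ← h4, ← h5, psi_mulI]
    have h2 : ∀ k v, D.ψ (Y s (b k)) v + D.ψ (b k) (Y s v) = 0 := by
      intro k v
      have h : D.ψ (Y s (b k)) + (D.ψ (b k)) ∘ₗ (Y s) = 0 := by
        refine b.ext fun l => ?_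
        exact hbb k l
      exact LinearMap.congr_fun h v
    intro u v
    have h : (D.ψ.flip v) ∘ₗ (Y s) + D.ψ.flip (Y s v) = 0 := by
      refine b.ext fun k => ?_
      exact h2 k v
    exact LinearMap.congr_fun h u

theorem isU_zero (D : Cyc T m) : IsU D 0 := by
  constructor
  · intro v
    simp
  · intro u v
    simp

theorem isU_add {D : Cyc T m} {X Y : Module.End ℝ T.V} (hX : IsU D X) (hY : IsU D Y) :
    IsU D (X + Y) := by
  constructor
  · intro v
    rw [LinearMap.add_apply, LinearMap.add_apply, map_add, hX.1, hY.1]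
  · intro u v
    have h1 := hX.2 u v
    have h2 := hY.2 u v
    rw [LinearMap.add_apply, LinearMap.add_apply, map_add, map_add, LinearMap.add_apply]
    linarith

theorem isU_smul {D : Cyc T m} {X : Module.End ℝ T.V} (hX : IsU D X) (r : ℝ) :
    IsU D (r • X) := by
  constructor
  · intro v
    rw [LinearMap.smul_apply, LinearMap.smul_apply, hX.1]
    exact ((D.Z.restrictScalars ℝ).map_smul r (X v)).symm
  · intro u v
    have h1 := hX.2 u v
    rw [LinearMap.smul_apply, LinearMap.smul_apply, map_smul, map_smul, LinearMap.smul_apply,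
      smul_eq_mul, smul_eq_mul, ← mul_add, h1, mul_zero]

theorem isU_br {D : Cyc T m} {X Y : Module.End ℝ T.V} (hX : IsU D X) (hY : IsU D Y) :
    IsU D (X * Y - Y * X) := by
  constructor
  · intro v
    simp only [LinearMap.sub_apply, Module.End.mul_apply, map_sub]
    rw [hY.1, hX.1, hX.1, hY.1]
  · intro u v
    simp only [LinearMap.sub_apply, Module.End.mul_apply, map_sub]
    have h1 := hX.2 (Y u) v
    have h2 := hY.2 u (X v)
    have h3 := hY.2 (X u) v
    have h4 := hX.2 u (Y v)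
    linarith

end Hl_aux

open Hl_aux in
theorem tHl : S_Hl := by
  classical
  intro T m D h₀ hr hc hJ
  obtain ⟨ι, _, b, hb1, hb2⟩ := exists_lat_basis' T
  have hJ1 : mulI T ∈ Submodule.span ℝ (qcl h₀ : Set (Module.End ℝ T.V)) :=
    Submodule.span_mono (fun X hX => subset_qcl h₀ X hX) hJ
  obtain ⟨S, hS⟩ := HC.Flat.sum_phi (b.linearMap b) (mulI T)
  have hmem : ∀ s, HC.Flat.phi (b.linearMap b) s (mulI T) ∈ qcl h₀ := fun s =>
    HC.Flat.phi_mem (b.linearMap b) (qcl h₀) qcl_qsmul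
      (fun X hX i => entry b hb1 hb2 X (qcl_rat hr X hX) i) _ hJ1 s
  have hU := isU_of D b hb1 hb2 S (fun s => HC.Flat.phi (b.linearMap b) s (mulI T))
    (fun s => qcl_rat hr _ (hmem s)) hS
  refine ⟨{X | X ∈ qcl h₀ ∧ IsU D X}, ⟨?_, ?_, ?_, ?_⟩, ?_⟩
  · exact fun X hX => qcl_rat hr X hX.1
  · exact fun X hX => hX.2
  · have hq := qcl_isQLie hc
    exact ⟨⟨⟨AddSubgroup.zero_mem _, isU_zero D⟩,
      fun X hX Y hY => ⟨AddSubgroup.add_mem _ hX.1 hY.1, isU_add hX.2 hY.2⟩,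
      fun q X hX => ⟨qcl_qsmul X hX.1 q, isU_smul hX.2 _⟩⟩,
      fun X hX Y hY => ⟨hq.br X hX.1 Y hY.1, isU_br hX.2 hY.2⟩⟩
  · rw [hS]
    exact Submodule.sum_mem _ fun s hs => Submodule.smul_mem _ _
      (Submodule.subset_span ⟨hmem s, hU s hs⟩)
  · rintro Y ⟨X, hX, X', hX', rfl⟩
    exact qcl_comm_span X hX.1 X' hX'.1

end SEB
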