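import Pool.Agent.Lib.SE.Big.Fam
import Pool.Agent.Lib.SE.Big.Hl

/-!
# PROJECT SE, module IsBig, part 3: reduction to Lie algebras in the product of the `u_E`
-/

set_option autoImplicit false

open Module

noncomputable section

namespace SEB

open HC HC.E HC.SE

namespace FHl_aux

section
variable {R : Type} [Ring R] [Algebra ℝ R]

/-- The `ℚ`-span. -/
def qc (h : Set R) : AddSubgroup R := AddSubgroup.closure {Z | ∃ Y ∈ h, ∃ q : ℚ, Z = (q : ℝ) • Y}

theorem subset_qc (h : Set R) : ∀ X ∈ h, X ∈ qc h := fun X hX =>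
  AddSubgroup.subset_closure ⟨X, hX, 1, by simp⟩

theorem qc_qsmul {h : Set R} : ∀ X ∈ qc h, ∀ q : ℚ, (q : ℝ) • X ∈ qc h := by
  intro X hX q
  induction hX using AddSubgroup.closure_induction with
  | mem x hx =>
    obtain ⟨Y, hY, r, rfl⟩ := hx
    exact AddSubgroup.subset_closure ⟨Y, hY, q * r, by rw [smul_smul, Rat.cast_mul]⟩
  | zero => rw [smul_zero]; exact AddSubgroup.zero_mem _
  | add x y _ _ ihx ihy => rw [smul_add]; exact AddSubgroup.add_mem _ ihx ihy
  | neg x _ ih => rw [smul_neg]; exact AddSubgroup.neg_mem _ ih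

theorem br_smul (X Y : R) (r t : ℝ) : (r • X) * (t • Y) - (t • Y) * (r • X) =
    (r * t) • (X * Y - Y * X) := by
  rw [smul_mul_smul_comm, smul_mul_smul_comm, smul_sub, mul_comm t]

/-- Commutators of elements of the `ℚ`-span. -/
theorem qc_comm_span {h : Set R} : ∀ X ∈ qc h, ∀ Y ∈ qc h,
    X * Y - Y * X ∈ Submodule.span ℝ {Z : R | ∃ X ∈ h, ∃ Y ∈ h, Z = X * Y - Y * X} := by
  intro X hX Y hY
  induction hX using AddSubgroup.closure_induction with
  | mem x hx =>
    obtain ⟨X', hX', r, rfl⟩ := hx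
    induction hY using AddSubgroup.closure_induction with
    | mem y hy =>
      obtain ⟨Y', hY', t, rfl⟩ := hy
      rw [br_smul]
      exact Submodule.smul_mem _ _ (Submodule.subset_span ⟨X', hX', Y', hY', rfl⟩)
    | zero => rw [mul_zero, zero_mul, sub_zero]; exact Submodule.zero_mem _
    | add y z _ _ ihy ihz =>
      rw [mul_add, add_mul, add_sub_add_comm]
      exact Submodule.add_mem _ ihy ihz
    | neg y _ ih =>
      rw [mul_neg, neg_mul, neg_sub_neg, ← neg_sub]
      exact Submodule.neg_mem _ ih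
  | zero => rw [mul_zero, zero_mul, sub_zero]; exact Submodule.zero_mem _
  | add y z _ _ ihy ihz =>
    rw [mul_add, add_mul, add_sub_add_comm]
    exact Submodule.add_mem _ ihy ihz
  | neg y _ ih =>
    rw [mul_neg, neg_mul, neg_sub_neg, ← neg_sub]
    exact Submodule.neg_mem _ ih

/-- The `ℚ`-span is closed under commutators. -/
theorem qc_comm {h : Set R} (hc : ∀ X ∈ h, ∀ Y ∈ h, X * Y - Y * X ∈ h) :
    ∀ X ∈ qc h, ∀ Y ∈ qc h, X * Y - Y * X ∈ qc h := by
  intro X hX Y hY
  induction hX using AddSubgroup.closure_induction with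
  | mem x hx =>
    obtain ⟨X', hX', r, rfl⟩ := hx
    induction hY using AddSubgroup.closure_induction with
    | mem y hy =>
      obtain ⟨Y', hY', t, rfl⟩ := hy
      rw [br_smul, ← Rat.cast_mul]
      exact AddSubgroup.subset_closure ⟨_, hc X' hX' Y' hY', r * t, rfl⟩
    | zero => rw [mul_zero, zero_mul, sub_zero]; exact AddSubgroup.zero_mem _
    | add y z _ _ ihy ihz =>
      rw [mul_add, add_mul, add_sub_add_comm]
      exact AddSubgroup.add_mem _ ihy ihz
    | neg y _ ih =>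
      rw [mul_neg, neg_mul, neg_sub_neg, ← neg_sub]
      exact AddSubgroup.neg_mem _ ih
  | zero => rw [mul_zero, zero_mul, sub_zero]; exact AddSubgroup.zero_mem _
  | add y z _ _ ihy ihz =>
    rw [mul_add, add_mul, add_sub_add_comm]
    exact AddSubgroup.add_mem _ ihy ihz
  | neg y _ ih =>
    rw [mul_neg, neg_mul, neg_sub_neg, ← neg_sub]
    exact AddSubgroup.neg_mem _ ih

end

theorem qc_rat {q : ℕ} {F : Fm q} {h : Set F.E} (hh : ∀ X ∈ h, ∀ i, RatEnd (F.T i) (X i)) :
    ∀ X ∈ qc h, ∀ i, RatEnd (F.T i) (X i) := by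
  intro X hX
  induction hX using AddSubgroup.closure_induction with
  | mem x hx =>
    obtain ⟨Y, hY, r, rfl⟩ := hx
    exact fun i => (hh Y hY i).qsmul r
  | zero => exact fun i => RatEnd.zero
  | add x y _ _ ihx ihy => exact fun i => (ihx i).add (ihy i)
  | neg x _ ih => exact fun i => (ih i).neg

end FHl_aux

open FHl_aux Hl_aux in
theorem tFHl : S_FHl := by
  classical
  intro q F h₀ hr hc hJ
  choose ι inst b hb1 hb2 using fun i => exists_lat_basis' (F.T i)
  let B : Module.Basis ((i : Fin q) × (ι i × ι i)) ℝ F.E :=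
    Pi.basis fun i => (b i).linearMap (b i)
  have hB : ∀ (X : F.E) (k : (i : Fin q) × (ι i × ι i)),
      B.repr X k = ((b k.1).linearMap (b k.1)).repr (X k.1) k.2 := by
    intro X k
    exact Pi.basis_repr _ X k
  have hJ1 : (fun i => mulI (F.T i) : F.E) ∈ Submodule.span ℝ (qc h₀ : Set F.E) :=
    Submodule.span_mono (fun X hX => subset_qc h₀ X hX) hJ
  obtain ⟨S, hS⟩ := HC.Flat.sum_phi B (fun i => mulI (F.T i) : F.E)
  have hmem : ∀ s, HC.Flat.phi B s (fun i => mulI (F.T i) : F.E) ∈ qc h₀ := fun s =>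
    HC.Flat.phi_mem B (qc h₀) qc_qsmul
      (fun X hX k => by
        rw [hB]
        exact entry (b k.1) (hb1 k.1) (hb2 k.1) (X k.1) (qc_rat hr X hX k.1) k.2) _ hJ1 s
  have hU : ∀ s ∈ S, ∀ i, IsU (F.D i) (HC.Flat.phi B s (fun i => mulI (F.T i) : F.E) i) := by
    intro s hs i
    refine isU_of (F.D i) (b i) (hb1 i) (hb2 i) S
      (fun s => HC.Flat.phi B s (fun i => mulI (F.T i) : F.E) i)
      (fun s => qc_rat hr _ (hmem s) i) ?_ s hs
    have h1 := congrFun hS i
    rw [h1, Finset.sum_apply]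
    rfl
  refine ⟨{X | X ∈ qc h₀ ∧ ∀ i, IsU (F.D i) (X i)}, ⟨?_, ?_, ?_, ?_, ?_, ?_, ?_⟩, ?_⟩
  · exact fun X hX => qc_rat hr X hX.1
  · exact fun X hX => hX.2
  · exact ⟨AddSubgroup.zero_mem _, fun i => isU_zero (F.D i)⟩
  · exact fun X hX Y hY => ⟨AddSubgroup.add_mem _ hX.1 hY.1, fun i => isU_add (hX.2 i) (hY.2 i)⟩
  · exact fun x X hX => ⟨qc_qsmul X hX.1 x, fun i => isU_smul (hX.2 i) _⟩
  · exact fun X hX Y hY => ⟨qc_comm hc X hX.1 Y hY.1, fun i => isU_br (hX.2 i) (hY.2 i)⟩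
  · rw [hS]
    exact Submodule.sum_mem _ fun s hs => Submodule.smul_mem _ _
      (Submodule.subset_span ⟨hmem s, hU s hs⟩)
  · rintro Y ⟨X, hX, X', hX', rfl⟩
    exact qc_comm_span X hX.1 X' hX'.1

end SEB
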