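import Pool.Agent.Lib.SE.Big.Spec

/-!
# PROJECT SE, module IsBig: change of the character (`S_LI`)
-/

set_option autoImplicit false

open Module

noncomputable section

namespace SEB

open HC HC.E

namespace LI_aux

variable {T : AV} {m : ℕ}

/-- A real basis of `T.V` which is a basis of the lattice. -/
theorem ex_basis (T : AV) : ∃ (ι : Type) (_ : Fintype ι) (b : Module.Basis ι ℝ T.V),
    (∀ i, b i ∈ T.L) ∧ ∀ v ∈ T.L, ∀ i, ∃ n : ℤ, b.repr v i = n := by
  have : Module.Free ℤ T.L := ZLattice.module_free ℝ T.L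
  have : Module.Finite ℤ T.L := ZLattice.module_finite ℝ T.L
  let B := Module.Free.chooseBasis ℤ T.L
  let ι := Module.Free.ChooseBasisIndex ℤ T.L
  refine ⟨Fin (Fintype.card ι), inferInstance,
    (B.ofZLatticeBasis ℝ T.L).reindex (Fintype.equivFin ι), fun i => ?_, fun v hv i => ?_⟩
  · rw [Module.Basis.reindex_apply, Module.Basis.ofZLatticeBasis_apply]
    exact (B _).2
  · refine ⟨(B.repr ⟨v, hv⟩ ((Fintype.equivFin ι).symm i) : ℤ), ?_⟩
    have h := B.ofZLatticeBasis_repr_apply ℝ T.L ⟨v, hv⟩ ((Fintype.equivFin ι).symm i)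
    rw [Module.Basis.repr_reindex_apply]
    exact h

/-- The dual basis. -/
def bf {ι : Type} (b : Module.Basis ι ℝ T.V) (i : ι) : Frm T where
  toFun v := ((b.repr v i : ℝ) : ℂ)
  map_add' u v := by rw [map_add, Finsupp.add_apply, Complex.ofReal_add]
  map_smul' r v := by
    rw [map_smul, Finsupp.smul_apply, smul_eq_mul, Complex.ofReal_mul, RingHom.id_apply,
      Complex.real_smul]

theorem bf_apply {ι : Type} (b : Module.Basis ι ℝ T.V) (i : ι) (v : T.V) :
    bf b i v = ((b.repr v i : ℝ) : ℂ) := rfl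

theorem frm_eq {ι : Type} [Fintype ι] (b : Module.Basis ι ℝ T.V) (a : Frm T) :
    a = ∑ i, a (b i) • bf b i := by
  refine LinearMap.ext fun v => ?_
  conv_lhs => rw [← b.sum_repr v]
  rw [map_sum, LinearMap.sum_apply]
  refine Finset.sum_congr rfl fun i _ => ?_
  rw [map_smul, LinearMap.smul_apply, bf_apply, Complex.real_smul, smul_eq_mul, mul_comm]

theorem pow_mem_L (D : Cyc T m) (k : ℕ) : ∀ v ∈ T.L, (D.ZR ^ k) v ∈ T.L := by
  induction k with
  | zero => intro v hv; simpa using hv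
  | succ k ih =>
    intro v hv
    rw [pow_succ, Module.End.mul_apply]
    exact ih _ (D.lat v hv)

theorem rat_val (D : Cyc T m) {ι : Type} (b : Module.Basis ι ℝ T.V)
    (hb : ∀ v ∈ T.L, ∀ i, ∃ n : ℤ, b.repr v i = n) (X : Module.End ℝ T.V) (hX : RatEnd T X)
    (v : T.V) (hv : v ∈ T.L) (k : ℕ) (i : ι) :
    ∃ q : ℚ, bf b i ((D.ZR ^ k) (X v)) = (q : ℂ) := by
  obtain ⟨N, hN, h1⟩ := hX v hv
  obtain ⟨n, hn⟩ := hb _ (pow_mem_L D k _ h1) i
  refine ⟨n / N, ?_⟩
  have hN' : (N : ℝ) ≠ 0 := Nat.cast_ne_zero.2 hN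
  rw [map_nsmul, ← Nat.cast_smul_eq_nsmul ℝ N, map_smul, Finsupp.smul_apply, smul_eq_mul] at hn
  rw [bf_apply]
  have h2 : b.repr ((D.ZR ^ k) (X v)) i = (n : ℝ) / (N : ℝ) := by
    rw [eq_div_iff hN', mul_comm]
    exact hn
  rw [h2]
  push_cast
  rfl

theorem pre_pow (X : Module.End ℝ T.V) (k : ℕ) : ∀ (a : Frm T) (w : T.V),
    ((pre X) ^ k) a w = a ((X ^ k) w) := by
  induction k with
  | zero => intro a w; rw [pow_zero, pow_zero]; rfl
  | succ k ih =>
    intro a w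
    rw [pow_succ, Module.End.mul_apply, ih, pow_succ', Module.End.mul_apply]
    rfl

theorem pj_apply (D : Cyc T m) (t : (ZMod m)ˣ) (a : Frm T) (w : T.V) :
    pj D t a w = (m : ℂ)⁻¹ * ∑ k ∈ Finset.range m, (zet m t)⁻¹ ^ k * a ((D.ZR ^ k) w) := by
  unfold pj
  rw [LinearMap.smul_apply, LinearMap.smul_apply, smul_eq_mul, LinearMap.sum_apply,
    LinearMap.sum_apply]
  congr 1
  refine Finset.sum_congr rfl fun k _ => ?_
  rw [LinearMap.smul_apply, LinearMap.smul_apply, smul_eq_mul, pre_pow]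

theorem xi_pow (hm : 1 ≤ m) : (Complex.exp (2 * Real.pi * Complex.I / m)) ^ m = 1 :=
  (Complex.isPrimitiveRoot_exp m (by omega)).pow_eq_one

theorem zet_ne (t : (ZMod m)ˣ) : zet m t ≠ 0 := pow_ne_zero _ (Complex.exp_ne_zero _)

theorem zet_mul (hm : 1 ≤ m) (ρ t : (ZMod m)ˣ) :
    zet m (ρ * t) = (zet m ρ) ^ (t : ZMod m).val := by
  unfold zet
  rw [← pow_mul, Units.val_mul, ZMod.val_mul]
  conv_rhs => rw [← Nat.mod_add_div ((ρ : ZMod m).val * (t : ZMod m).val) m, pow_add, pow_mul,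
    xi_pow hm, one_pow, mul_one]

/-- `l` is semilinear for the powers of `ζ`. -/
theorem l_zet (hm : 1 ≤ m) (ρ t : (ZMod m)ˣ) (l : ℂ →+ ℂ)
    (hl : ∀ x, l (Complex.exp (2 * Real.pi * Complex.I / m) * x) = zet m ρ * l x) (x : ℂ) :
    l (zet m t * x) = zet m (ρ * t) * l x := by
  have h1 : ∀ (n : ℕ) (x : ℂ), l (Complex.exp (2 * Real.pi * Complex.I / m) ^ n * x) =
      (zet m ρ) ^ n * l x := by
    intro n
    induction n with
    | zero => intro x; rw [pow_zero, pow_zero, one_mul, one_mul]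
    | succ n ih =>
      intro x
      rw [pow_succ, mul_assoc, ih, hl, pow_succ, mul_assoc]
  rw [zet_mul hm]
  exact h1 _ x

theorem l_inv (hm : 1 ≤ m) (ρ t : (ZMod m)ˣ) (l : ℂ →+ ℂ)
    (hl : ∀ x, l (Complex.exp (2 * Real.pi * Complex.I / m) * x) = zet m ρ * l x) (k : ℕ) :
    ∀ x : ℂ, l ((zet m t)⁻¹ ^ k * x) = (zet m (ρ * t))⁻¹ ^ k * l x := by
  have h1 : ∀ x : ℂ, l ((zet m t)⁻¹ * x) = (zet m (ρ * t))⁻¹ * l x := by
    intro x
    have h2 := l_zet hm ρ t l hl ((zet m t)⁻¹ * x)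
    rw [mul_inv_cancel_left₀ (zet_ne t)] at h2
    rw [h2, inv_mul_cancel_left₀ (zet_ne _)]
  induction k with
  | zero => intro x; rw [pow_zero, pow_zero, one_mul, one_mul]
  | succ k ih =>
    intro x
    rw [pow_succ, mul_assoc, ih, h1, pow_succ, mul_assoc]

theorem l_rat (l : ℂ →+ ℂ) (q : ℚ) (x : ℂ) : l ((q : ℂ) * x) = (q : ℂ) * l x := by
  rw [← Rat.smul_def, ← Rat.smul_def, map_rat_smul]

end LI_aux

open LI_aux in
theorem tLI : S_Pj → S_Tw → S_LI := by
  intro hPj hTw T m D hm n X hX F c hc hF ρ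
  obtain ⟨j₀, hj₀⟩ := Function.ne_iff.1 hc
  obtain ⟨l, hl1, hl⟩ := hTw m (by omega) ρ (c j₀) hj₀
  refine ⟨fun j => l (c j), ?_, ?_⟩
  · intro h
    have h2 := congrFun h j₀
    simp only [Pi.zero_apply] at h2
    rw [hl1] at h2
    exact one_ne_zero h2
  intro t ht a ha
  obtain ⟨ι, _, b, hb1, hb2⟩ := ex_basis T
  obtain ⟨-, hP1, hP2, -⟩ := hPj T m D hm
  have key : ∀ i k, ∑ j, l (c j) * (pj D (ρ * t) (bf b i)) (X j (b k)) = 0 := by
    intro i k
    have h1 : ∑ j, c j * (pj D t (bf b i)) (X j (b k)) = 0 := by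
      have h2 := LinearMap.congr_fun (hF t ht _ (hP1 t (bf b i))) (b k)
      rw [LinearMap.sum_apply, LinearMap.zero_apply] at h2
      exact h2
    have h3 : ∀ j, l (c j * (pj D t (bf b i)) (X j (b k))) =
        l (c j) * (pj D (ρ * t) (bf b i)) (X j (b k)) := by
      intro j
      rw [pj_apply, pj_apply, Finset.mul_sum, Finset.mul_sum, Finset.mul_sum, Finset.mul_sum,
        map_sum]
      refine Finset.sum_congr rfl fun e _ => ?_
      obtain ⟨q, hq⟩ := rat_val D b hb2 (X j) (hX j).1 (b k) (hb1 k) e i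
      rw [hq]
      have h4 : c j * ((m : ℂ)⁻¹ * ((zet m t)⁻¹ ^ e * (q : ℂ))) =
          (((m : ℚ)⁻¹ * q : ℚ) : ℂ) * ((zet m t)⁻¹ ^ e * c j) := by
        push_cast
        ring
      rw [h4, l_rat, l_inv (by omega) ρ t l hl]
      push_cast
      ring
    have h5 := congrArg l h1
    rw [map_sum, map_zero] at h5
    rw [← h5]
    exact Finset.sum_congr rfl fun j _ => (h3 j).symm
  have key2 : ∀ i, ∑ j, l (c j) • pre (X j) (pj D (ρ * t) (bf b i)) = 0 := by
    intro i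
    refine b.ext fun k => ?_
    rw [LinearMap.sum_apply, LinearMap.zero_apply]
    exact key i k
  have h6 : a = ∑ i, a (b i) • pj D (ρ * t) (bf b i) := by
    conv_lhs => rw [← hP2 (ρ * t) a ha]
    conv_lhs => rw [frm_eq b a]
    rw [map_sum]
    exact Finset.sum_congr rfl fun i _ => by rw [map_smul]
  rw [h6]
  have h7 : ∀ j, l (c j) • pre (X j) (∑ i, a (b i) • pj D (ρ * t) (bf b i)) =
      ∑ i, a (b i) • (l (c j) • pre (X j) (pj D (ρ * t) (bf b i))) := by
    intro j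
    rw [map_sum, Finset.smul_sum]
    exact Finset.sum_congr rfl fun i _ => by rw [map_smul, smul_comm]
  simp only [h7]
  rw [Finset.sum_comm]
  refine Finset.sum_eq_zero fun i _ => ?_
  rw [← Finset.smul_sum, key2 i, smul_zero]

end SEB
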