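import Pool.Agent.Lib.SE.Big.Fam
import Pool.Agent.Lib.SE.Big.LI

/-!
# PROJECT SE, module IsBig, part 3: change of the characters for families (`S_FLI`)
-/

set_option autoImplicit false

open Module

noncomputable section

namespace SEB

open HC HC.E HC.SE

namespace FLI_aux

open LI_aux

/-- One factor, with a given semilinear function. -/
theorem one {T : AV} {m : ℕ} (hPj : S_Pj) (D : Cyc T m) (hm : 3 ≤ m) {n : ℕ}
    (X : Fin n → Module.End ℝ T.V) (hX : ∀ j, RatEnd T (X j) ∧ ∀ v, X j (D.Z v) = D.Z (X j v))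
    (c : Fin n → ℂ) (ρ t : (ZMod m)ˣ) (l : ℂ →+ ℂ)
    (hl : ∀ x, l (Complex.exp (2 * Real.pi * Complex.I / m) * x) = zet m ρ * l x)
    (hF : ∀ a ∈ Ws D t, ∑ j, c j • pre (X j) a = 0) :
    ∀ a ∈ Ws D (ρ * t), ∑ j, l (c j) • pre (X j) a = 0 := by
  intro a ha
  obtain ⟨ι, _, b, hb1, hb2⟩ := ex_basis T
  obtain ⟨-, hP1, hP2, -⟩ := hPj T m D hm
  have key : ∀ i k, ∑ j, l (c j) * (pj D (ρ * t) (bf b i)) (X j (b k)) = 0 := by
    intro i k
    have h1 : ∑ j, c j * (pj D t (bf b i)) (X j (b k)) = 0 := by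
      have h2 := LinearMap.congr_fun (hF _ (hP1 t (bf b i))) (b k)
      rw [LinearMap.sum_apply, LinearMap.zero_apply] at h2
      exact h2
    have h3 : ∀ j, l (c j * (pj D t (bf b i)) (X j (b k))) =
        l (c j) * (pj D (ρ * t) (bf b i)) (X j (b k)) := by
      intro j
      rw [pj_apply, pj_apply, Finset.mul_sum, Finset.mul_sum, Finset.mul_sum, Finset.mul_sum,
        map_sum]
      refine Finset.sum_congr rfl fun e _ => ?_
      obtain ⟨q, hq⟩ := rat_val D b hb2 (X j) (hX j).1 (b k) (hb1 k) e i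
      rw [hq]
      have h4 : c j * ((m : ℂ)⁻¹ * ((zet m t)⁻¹ ^ e * (q : ℂ))) =
          (((m : ℚ)⁻¹ * q : ℚ) : ℂ) * ((zet m t)⁻¹ ^ e * c j) := by
        push_cast
        ring
      rw [h4, l_rat, l_inv (by omega) ρ t l hl]
      push_cast
      ring
    have h5 := congrArg l h1
    rw [map_sum, map_zero] at h5
    rw [← h5]
    exact Finset.sum_congr rfl fun j _ => (h3 j).symm
  have key2 : ∀ i, ∑ j, l (c j) • pre (X j) (pj D (ρ * t) (bf b i)) = 0 := by
    intro i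
    refine b.ext fun k => ?_
    rw [LinearMap.sum_apply, LinearMap.zero_apply]
    exact key i k
  have h6 : a = ∑ i, a (b i) • pj D (ρ * t) (bf b i) := by
    conv_lhs => rw [← hP2 (ρ * t) a ha]
    conv_lhs => rw [frm_eq b a]
    rw [map_sum]
    exact Finset.sum_congr rfl fun i _ => by rw [map_smul]
  rw [h6]
  have h7 : ∀ j, l (c j) • pre (X j) (∑ i, a (b i) • pj D (ρ * t) (bf b i)) =
      ∑ i, a (b i) • (l (c j) • pre (X j) (pj D (ρ * t) (bf b i))) := by
    intro j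
    rw [map_sum, Finset.smul_sum]
    exact Finset.sum_congr rfl fun i _ => by rw [map_smul, smul_comm]
  simp only [h7]
  rw [Finset.sum_comm]
  refine Finset.sum_eq_zero fun i _ => ?_
  rw [← Finset.smul_sum, key2 i, smul_zero]

theorem exp_dvd {m M : ℕ} (hM : 1 ≤ M) (h : m ∣ M) :
    Complex.exp (2 * Real.pi * Complex.I / M) ^ (M / m) =
      Complex.exp (2 * Real.pi * Complex.I / m) := by
  obtain ⟨k, rfl⟩ := h
  have hm : 0 < m := Nat.pos_of_ne_zero fun h0 => by
    rw [h0, Nat.zero_mul] at hM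
    omega
  have hk : 0 < k := Nat.pos_of_ne_zero fun h0 => by
    rw [h0, Nat.mul_zero] at hM
    omega
  rw [Nat.mul_div_cancel_left k hm, ← Complex.exp_nat_mul]
  congr 1
  have h1 : (m : ℂ) ≠ 0 := Nat.cast_ne_zero.2 hm.ne'
  have h2 : (k : ℂ) ≠ 0 := Nat.cast_ne_zero.2 hk.ne'
  push_cast
  field_simp

/-- The semilinear function for `M` is semilinear for the divisors `m` of `M`. -/
theorem down {m M : ℕ} (hm : 1 ≤ m) (hM : 1 ≤ M) (h : m ∣ M) (ρ : (ZMod M)ˣ) (l : ℂ →+ ℂ)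
    (hl : ∀ x, l (Complex.exp (2 * Real.pi * Complex.I / M) * x) = zet M ρ * l x) (x : ℂ) :
    l (Complex.exp (2 * Real.pi * Complex.I / m) * x) = zet m (ZMod.unitsMap h ρ) * l x := by
  have h1 : ∀ (n : ℕ) (x : ℂ), l (Complex.exp (2 * Real.pi * Complex.I / M) ^ n * x) =
      (zet M ρ) ^ n * l x := by
    intro n
    induction n with
    | zero => intro x; rw [pow_zero, pow_zero, one_mul, one_mul]
    | succ n ih =>
      intro x
      rw [pow_succ, mul_assoc, ih, hl, pow_succ, mul_assoc]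
  have h2 : (zet M ρ) ^ (M / m) = zet m (ZMod.unitsMap h ρ) := by
    have : NeZero M := ⟨by omega⟩
    have : NeZero m := ⟨by omega⟩
    unfold zet
    rw [pow_right_comm, exp_dvd hM h]
    have h3 : ((ZMod.unitsMap h ρ : (ZMod m)ˣ) : ZMod m).val = (ρ : ZMod M).val % m := by
      rw [ZMod.unitsMap_val, ZMod.cast_eq_val, ZMod.val_natCast]
    rw [h3]
    conv_lhs => rw [← Nat.mod_add_div (ρ : ZMod M).val m, pow_add, pow_mul, xi_pow hm, one_pow,
      mul_one]
  rw [← h2, ← exp_dvd hM h]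
  exact h1 _ x

end FLI_aux

open FLI_aux in
theorem tFLI : S_Pj → S_Tw → S_FLI := by
  intro hPj hTw q F n X hX S c hc hF ρ
  obtain ⟨j₀, hj₀⟩ := Function.ne_iff.1 hc
  have hM : 1 ≤ F.M := by
    refine Nat.succ_le_of_lt (Finset.prod_pos fun i _ => ?_)
    have := F.hm i
    omega
  obtain ⟨l, hl1, hl⟩ := hTw F.M hM ρ (c j₀) hj₀
  refine ⟨fun j => l (c j), ?_, ?_⟩
  · intro h
    have h2 := congrFun h j₀
    simp only [Pi.zero_apply] at h2
    rw [hl1] at h2
    exact one_ne_zero h2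
  intro β hβ a ha
  obtain ⟨i, t⟩ := β
  have hmi : 1 ≤ F.m i := by
    have := F.hm i
    omega
  exact one hPj (F.D i) (F.hm i) (fun j => X j i) (fun j => hX j i) c
    (ZMod.unitsMap (F.dvd i) ρ) t l (down hmi hM (F.dvd i) ρ l hl) (hF ⟨i, t⟩ hβ) a ha

end SEB
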