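import Pool.Agent.Lib.SE.Big.Fam

/-!
# PROJECT SE, module IsBig, part FRib: all blocks together (Ribet's lemma for different factors)
-/

set_option autoImplicit false

open Module

noncomputable section

namespace SEB

open HC HC.E HC.SE

namespace FRib_aux

variable {q : ℕ} {F : Fm q}

theorem pre_mul {T : AV} (X Y : Module.End ℝ T.V) : pre (X * Y) = pre Y * pre X := rfl

theorem pre_sub {T : AV} (X Y : Module.End ℝ T.V) : pre (X - Y) = pre X - pre Y := by
  refine LinearMap.ext fun a => LinearMap.ext fun v => ?_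
  change a (X v - Y v) = a (X v) - a (Y v)
  exact map_sub a _ _

theorem com_sub {h : Set F.E} (hh : HLieF F h) : ∀ Y ∈ ComF h, Y ∈ h := by
  rintro _ ⟨X, hX, X', hX', rfl⟩
  exact hh.br X hX X' hX'

theorem gg_comm {h : Set F.E} (hh : HLieF F h) :
    ∀ A ∈ ggF h, ∀ B ∈ ggF h, A * B - B * A ∈ ggF h := by
  intro A hA B hB
  induction hA using Submodule.span_induction with
  | mem A hA =>
    obtain ⟨Y, hY, rfl⟩ := hA
    induction hB using Submodule.span_induction with
    | mem B hB =>
      obtain ⟨Y', hY', rfl⟩ := hB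
      have h1 : (fun i => pre (Y i) : F.O) * (fun i => pre (Y' i) : F.O) -
          (fun i => pre (Y' i) : F.O) * (fun i => pre (Y i) : F.O) =
          (fun i => pre ((Y' * Y - Y * Y') i) : F.O) := by
        funext i
        change pre (Y i) * pre (Y' i) - pre (Y' i) * pre (Y i) = pre (Y' i * Y i - Y i * Y' i)
        rw [pre_sub, pre_mul, pre_mul]
      rw [h1]
      exact Submodule.subset_span ⟨_, ⟨Y', com_sub hh Y' hY', Y, com_sub hh Y hY, rfl⟩, rfl⟩
    | zero =>
      rw [mul_zero, zero_mul, sub_zero]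
      exact Submodule.zero_mem _
    | add B B' _ _ hB hB' =>
      have h1 : (fun i => pre (Y i) : F.O) * (B + B') - (B + B') * (fun i => pre (Y i) : F.O) =
          ((fun i => pre (Y i) : F.O) * B - B * (fun i => pre (Y i) : F.O)) +
            ((fun i => pre (Y i) : F.O) * B' - B' * (fun i => pre (Y i) : F.O)) := by
        rw [mul_add, add_mul]
        abel
      rw [h1]
      exact Submodule.add_mem _ hB hB'
    | smul c B _ hB =>
      have h1 : (fun i => pre (Y i) : F.O) * (c • B) - (c • B) * (fun i => pre (Y i) : F.O) =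
          c • ((fun i => pre (Y i) : F.O) * B - B * (fun i => pre (Y i) : F.O)) := by
        rw [mul_smul_comm, smul_mul_assoc, smul_sub]
      rw [h1]
      exact Submodule.smul_mem _ _ hB
  | zero =>
    rw [mul_zero, zero_mul, sub_zero]
    exact Submodule.zero_mem _
  | add A A' _ _ hA hA' =>
    have h1 : (A + A') * B - B * (A + A') = (A * B - B * A) + (A' * B - B * A') := by
      rw [mul_add, add_mul]
      abel
    rw [h1]
    exact Submodule.add_mem _ hA hA'
  | smul c A _ hA =>
    have h1 : (c • A) * B - B * (c • A) = c • (A * B - B * A) := by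
      rw [mul_smul_comm, smul_mul_assoc, smul_sub]
    rw [h1]
    exact Submodule.smul_mem _ _ hA

theorem gg_pres {h : Set F.E} (hh : HLieF F h) :
    ∀ A ∈ ggF h, ∀ β : F.B, ∀ a ∈ F.W β, A β.1 a ∈ F.W β := by
  intro A hA β a ha
  induction hA using Submodule.span_induction with
  | mem A hA =>
    obtain ⟨Y, hY, rfl⟩ := hA
    intro v
    change a (Y β.1 ((F.D β.1).Z v)) = zet (F.m β.1) β.2 * a (Y β.1 v)
    rw [(hh.u Y (com_sub hh Y hY) β.1).1 v]
    exact ha (Y β.1 v)
  | zero =>
    change (0 : Module.End ℂ (Frm (F.T β.1))) a ∈ F.W β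
    rw [LinearMap.zero_apply]
    exact Submodule.zero_mem _
  | add A A' _ _ hA hA' =>
    change (A β.1 + A' β.1) a ∈ F.W β
    rw [LinearMap.add_apply]
    exact Submodule.add_mem _ hA hA'
  | smul c A _ hA =>
    change (c • A β.1) a ∈ F.W β
    rw [LinearMap.smul_apply]
    exact Submodule.smul_mem _ _ hA

/-- One block, a finite set of other blocks. -/
theorem one_step (hP : S_Perf) (F : Fm q) (h : Set F.E) (hh : HLieF F h)
    (h1 : ∀ β, HitsF F h {β})
    (h2 : ∀ β β' : F.B, β' ≠ β → β' ≠ F.neg β → HitsF F h {β, β'}) (a : F.B) (G : Finset F.B)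
    (hG : ∀ b ∈ G, b ≠ a ∧ b ≠ F.neg a) :
    ∀ A : Module.End ℂ (F.W a), LinearMap.trace ℂ (F.W a) A = 0 →
      ∃ C ∈ ggF h, (∀ x : F.W a, C a.1 (x : Frm (F.T a.1)) = (A x : Frm (F.T a.1))) ∧
        ∀ b ∈ G, ∀ x : F.W b, C b.1 (x : Frm (F.T b.1)) = 0 := by
  classical
  induction G using Finset.induction_on with
  | empty =>
    intro A hA
    obtain ⟨C, hC, hC1⟩ := h1 a (fun s => if hs : s = a then hs ▸ A else 0) (by
      intro s
      by_cases hs : s = a
      · subst hs
        simpa using hA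
      · simp [hs])
    refine ⟨C, hC, fun x => ?_, fun b hb => absurd hb (Finset.notMem_empty b)⟩
    have h3 := hC1 a (Set.mem_singleton a) x
    simpa using h3
  | insert b G hb ih =>
    have ih' := ih (fun b' hb' => hG b' (Finset.mem_insert_of_mem hb'))
    have hba := hG b (Finset.mem_insert_self b G)
    intro A hA
    have hspan := hP (F.W a) A hA
    clear hA
    induction hspan using Submodule.span_induction with
    | mem X hX =>
      obtain ⟨A1, A2, t1, t2, rfl⟩ := hX
      obtain ⟨C1, hC1, u1, u2⟩ := ih' A1 t1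
      obtain ⟨C2, hC2, w⟩ := h2 a b hba.1 hba.2 (fun s => if hs : s = a then hs ▸ A2 else 0) (by
        intro s
        by_cases hs : s = a
        · subst hs
          simpa using t2
        · simp [hs])
      have w1 : ∀ x : F.W a, C2 a.1 (x : Frm (F.T a.1)) = (A2 x : Frm (F.T a.1)) := by
        intro x
        have h3 := w a (Set.mem_insert a _) x
        simpa using h3
      have w2 : ∀ x : F.W b, C2 b.1 (x : Frm (F.T b.1)) = 0 := by
        intro x
        have h3 := w b (Set.mem_insert_of_mem a (Set.mem_singleton b)) x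
        simpa [hba.1] using h3
      refine ⟨C1 * C2 - C2 * C1, gg_comm hh C1 hC1 C2 hC2, ?_, ?_⟩
      · intro x
        change (C1 a.1 * C2 a.1 - C2 a.1 * C1 a.1) (x : Frm (F.T a.1)) = _
        rw [LinearMap.sub_apply, Module.End.mul_apply, Module.End.mul_apply, w1, u1, u1, w1]
        rfl
      · intro b' hb' x
        change (C1 b'.1 * C2 b'.1 - C2 b'.1 * C1 b'.1) (x : Frm (F.T b'.1)) = 0
        rw [LinearMap.sub_apply, Module.End.mul_apply, Module.End.mul_apply]
        rcases Finset.mem_insert.1 hb' with hb'' | hb''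
        · subst hb''
          have h3 := w2 ⟨C1 b'.1 (x : Frm (F.T b'.1)), gg_pres hh C1 hC1 b' _ x.2⟩
          change C2 b'.1 (C1 b'.1 (x : Frm (F.T b'.1))) = 0 at h3
          rw [w2, map_zero, h3, sub_zero]
        · have h3 := u2 b' hb'' ⟨C2 b'.1 (x : Frm (F.T b'.1)), gg_pres hh C2 hC2 b' _ x.2⟩
          change C1 b'.1 (C2 b'.1 (x : Frm (F.T b'.1))) = 0 at h3
          rw [u2 b' hb'', map_zero, h3, sub_zero]
    | zero =>
      refine ⟨0, Submodule.zero_mem _, fun x => ?_, fun b' _ x => ?_⟩
      · simp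
      · simp
    | add X Y _ _ hX hY =>
      obtain ⟨C, hC, p1, p2⟩ := hX
      obtain ⟨C', hC', q1, q2⟩ := hY
      refine ⟨C + C', Submodule.add_mem _ hC hC', fun x => ?_, fun b' hb' x => ?_⟩
      · change (C a.1 + C' a.1) (x : Frm (F.T a.1)) = _
        rw [LinearMap.add_apply, p1, q1]
        rfl
      · change (C b'.1 + C' b'.1) (x : Frm (F.T b'.1)) = 0
        rw [LinearMap.add_apply, p2 b' hb', q2 b' hb', add_zero]
    | smul c X _ hX =>
      obtain ⟨C, hC, p1, p2⟩ := hX
      refine ⟨c • C, Submodule.smul_mem _ c hC, fun x => ?_, fun b' hb' x => ?_⟩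
      · change (c • C a.1) (x : Frm (F.T a.1)) = _
        rw [LinearMap.smul_apply, p1]
        rfl
      · change (c • C b'.1) (x : Frm (F.T b'.1)) = 0
        rw [LinearMap.smul_apply, p2 b' hb', smul_zero]

end FRib_aux

open FRib_aux

theorem tFRib : S_FRib := by
  classical
  intro hP q F h hh h1 h2 S hS A hA
  have hne : ∀ i, NeZero (F.m i) := fun i => ⟨by have := F.hm i; omega⟩
  have hft : ∀ i, Fintype (ZMod (F.m i))ˣ := fun i =>
    @Fintype.ofFinite _ (have := hne i; inferInstance)
  have hB : Fintype F.B := inferInstance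
  have hex : ∀ a : F.B, ∃ C ∈ ggF h, a ∈ S →
      (∀ x : F.W a, C a.1 (x : Frm (F.T a.1)) = (A a x : Frm (F.T a.1))) ∧
        ∀ b ∈ S, b ≠ a → ∀ x : F.W b, C b.1 (x : Frm (F.T b.1)) = 0 := by
    intro a
    by_cases ha : a ∈ S
    · obtain ⟨C, hC, p1, p2⟩ := one_step hP F h hh h1 h2 a
        (Finset.univ.filter fun b => b ∈ S ∧ b ≠ a) (by
          intro b hb
          rw [Finset.mem_filter] at hb
          refine ⟨hb.2.2, fun hba => hS a ha ?_⟩
          rw [← hba]
          exact hb.2.1) (A a) (hA a)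
      refine ⟨C, hC, fun _ => ⟨p1, fun b hb hba x => p2 b ?_ x⟩⟩
      rw [Finset.mem_filter]
      exact ⟨Finset.mem_univ _, hb, hba⟩
    · exact ⟨0, Submodule.zero_mem _, fun h => absurd h ha⟩
  choose C hC hC1 using hex
  refine ⟨∑ a ∈ Finset.univ.filter (fun a => a ∈ S), C a,
    Submodule.sum_mem _ fun a _ => hC a, fun s hs x => ?_⟩
  rw [Finset.sum_apply, LinearMap.sum_apply, Finset.sum_eq_single s]
  · exact (hC1 s hs).1 x
  · intro b hb hbs
    rw [Finset.mem_filter] at hb
    exact (hC1 b hb.2).2 s hs (Ne.symm hbs) x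
  · intro h3
    exact absurd (Finset.mem_filter.2 ⟨Finset.mem_univ _, hs⟩) h3

end SEB
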