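import Pool.Agent.Lib.SE.Big.Fam
import Pool.Agent.Lib.SE.Big.Cl
import Pool.Agent.Lib.SE.Big.All

/-!
# PROJECT SE, module IsBig, part 3: two blocks of different factors (helper35)
-/

set_option autoImplicit false

open Module

noncomputable section

namespace SEB

open HC HC.E HC.SE

namespace FTwo_aux

/-! ### Linear algebra -/

theorem fin_map {E E' : Type} [AddCommGroup E] [Module ℂ E] [AddCommGroup E'] [Module ℂ E']
    (P : Submodule ℂ E) (f : E →ₗ[ℂ] E') (hf : ∀ x ∈ P, f x = 0 → x = 0) :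
    finrank ℂ (P.map f) = finrank ℂ P := by
  rw [← LinearMap.range_domRestrict]
  refine LinearMap.finrank_range_of_inj ?_
  rw [injective_iff_map_eq_zero]
  rintro ⟨x, hx⟩ h
  exact Subtype.ext (hf x hx h)

theorem span_le_of_rel {V V' ι : Type} [AddCommGroup V] [Module ℂ V] [AddCommGroup V']
    [Module ℂ V'] [FiniteDimensional ℂ V] [FiniteDimensional ℂ V'] (R : ι → V) (R' : ι → V')
    (hrel : ∀ (n : ℕ) (Y : Fin n → ι) (c : Fin n → ℂ), c ≠ 0 → ∑ i, c i • R' (Y i) = 0 →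
      ∃ c' : Fin n → ℂ, c' ≠ 0 ∧ ∑ i, c' i • R (Y i) = 0) :
    finrank ℂ (Submodule.span ℂ (Set.range R)) ≤ finrank ℂ (Submodule.span ℂ (Set.range R')) := by
  obtain ⟨f, hf1, hf2, hf3⟩ := Submodule.exists_fun_fin_finrank_span_eq ℂ (Set.range R)
  choose Y hY using hf1
  have hind : LinearIndependent ℂ (fun i => R' (Y i)) := by
    rw [Fintype.linearIndependent_iff]
    intro c hc
    by_contra hne
    obtain ⟨c', hc', hr⟩ := hrel _ Y c (fun h0 => hne fun i => by rw [h0]; rfl) hc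
    apply hc'
    funext i
    refine (Fintype.linearIndependent_iff.1 hf3) c' ?_ i
    rw [← hr]
    exact Finset.sum_congr rfl fun i _ => by rw [hY i]
  let g : Fin (finrank ℂ (Submodule.span ℂ (Set.range R))) → Submodule.span ℂ (Set.range R') :=
    fun i => ⟨R' (Y i), Submodule.subset_span ⟨_, rfl⟩⟩
  have hgi : LinearIndependent ℂ g := LinearIndependent.of_comp (Submodule.subtype _) hind
  have h1 := hgi.fintype_card_le_finrank
  rwa [Fintype.card_fin] at h1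

section

variable {W W' : Type} [AddCommGroup W] [Module ℂ W] [AddCommGroup W'] [Module ℂ W']

/-- The graph of a bijection of the traceless operators. -/
structure Gr (P : Submodule ℂ (Module.End ℂ W × Module.End ℂ W')) : Prop where
  tr : ∀ x ∈ P, LinearMap.trace ℂ W x.1 = 0 ∧ LinearMap.trace ℂ W' x.2 = 0
  fst : ∀ X : Module.End ℂ W, LinearMap.trace ℂ W X = 0 → ∃ Y, (X, Y) ∈ P
  snd : ∀ Y : Module.End ℂ W', LinearMap.trace ℂ W' Y = 0 → ∃ X, (X, Y) ∈ P
  gr : ∀ x ∈ P, (x.1 = 0 ↔ x.2 = 0)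

variable {P : Submodule ℂ (Module.End ℂ W × Module.End ℂ W')}

theorem Gr.i1 (h : Gr P) : ∀ x ∈ P, LinearMap.fst ℂ _ _ x = 0 → x = 0 := fun x hx h0 =>
  Prod.ext h0 ((h.gr x hx).1 h0)

theorem Gr.i2 (h : Gr P) : ∀ x ∈ P, LinearMap.snd ℂ _ _ x = 0 → x = 0 := fun x hx h0 =>
  Prod.ext ((h.gr x hx).2 h0) h0

theorem Gr.d1 (h : Gr P) : finrank ℂ P = finrank ℂ (LinearMap.ker (LinearMap.trace ℂ W)) := by
  have h1 : P.map (LinearMap.fst ℂ _ _) = LinearMap.ker (LinearMap.trace ℂ W) := by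
    apply le_antisymm
    · rintro _ ⟨x, hx, rfl⟩
      exact LinearMap.mem_ker.2 (h.tr x hx).1
    · intro X hX
      obtain ⟨Y, hY⟩ := h.fst X (LinearMap.mem_ker.1 hX)
      exact ⟨(X, Y), hY, rfl⟩
  rw [← h1, fin_map P _ h.i1]

theorem Gr.d2 (h : Gr P) : finrank ℂ P = finrank ℂ (LinearMap.ker (LinearMap.trace ℂ W')) := by
  have h1 : P.map (LinearMap.snd ℂ _ _) = LinearMap.ker (LinearMap.trace ℂ W') := by
    apply le_antisymm
    · rintro _ ⟨x, hx, rfl⟩
      exact LinearMap.mem_ker.2 (h.tr x hx).2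
    · intro X hX
      obtain ⟨Y, hY⟩ := h.snd X (LinearMap.mem_ker.1 hX)
      exact ⟨(Y, X), hY, rfl⟩
  rw [← h1, fin_map P _ h.i2]

/-- The operators of weight `2 i`. -/
def wS (j : Module.End ℂ W) : Submodule ℂ (Module.End ℂ W) where
  carrier := {A | j * A - A * j = (2 * Complex.I) • A}
  zero_mem' := by
    change j * 0 - 0 * j = (2 * Complex.I) • 0
    rw [mul_zero, zero_mul, sub_zero, smul_zero]
  add_mem' {A B} hA hB := by
    change j * (A + B) - (A + B) * j = (2 * Complex.I) • (A + B)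
    rw [smul_add, ← (show j * A - A * j = (2 * Complex.I) • A from hA),
      ← (show j * B - B * j = (2 * Complex.I) • B from hB), mul_add, add_mul]
    abel
  smul_mem' c A hA := by
    change j * (c • A) - (c • A) * j = (2 * Complex.I) • (c • A)
    rw [smul_comm (2 * Complex.I) c A, ← (show j * A - A * j = (2 * Complex.I) • A from hA),
      mul_smul_comm, smul_mul_assoc, smul_sub]

theorem mem_wS (j A : Module.End ℂ W) : A ∈ wS j ↔ j * A - A * j = (2 * Complex.I) • A := Iff.rfl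

theorem Gr.adJ (h : Gr P) (j : Module.End ℂ W) (j' : Module.End ℂ W')
    (hj : ∀ x ∈ P, (j * x.1 - x.1 * j, j' * x.2 - x.2 * j') ∈ P)
    (h1 : ∀ A ∈ wS j, LinearMap.trace ℂ W A = 0) (h2 : ∀ A ∈ wS j', LinearMap.trace ℂ W' A = 0) :
    finrank ℂ (wS j) = finrank ℂ (wS j') := by
  have key : ∀ x ∈ P, (x.1 ∈ wS j ↔ x.2 ∈ wS j') := by
    intro x hx
    have h3 := h.gr _ (P.sub_mem (hj x hx) (P.smul_mem (2 * Complex.I) hx))
    rw [mem_wS, mem_wS, ← sub_eq_zero, ← sub_eq_zero (b := (2 * Complex.I) • x.2)]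
    exact h3
  have e1 : (P ⊓ (wS j).comap (LinearMap.fst ℂ _ _)).map (LinearMap.fst ℂ _ _) = wS j := by
    apply le_antisymm
    · rintro _ ⟨x, hx, rfl⟩
      exact hx.2
    · intro X hX
      obtain ⟨Y, hY⟩ := h.fst X (h1 X hX)
      exact ⟨(X, Y), ⟨hY, hX⟩, rfl⟩
  have e2 : (P ⊓ (wS j).comap (LinearMap.fst ℂ _ _)).map (LinearMap.snd ℂ _ _) = wS j' := by
    apply le_antisymm
    · rintro _ ⟨x, hx, rfl⟩
      exact (key x hx.1).1 hx.2
    · intro X hX
      obtain ⟨Y, hY⟩ := h.snd X (h2 X hX)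
      exact ⟨(Y, X), ⟨hY, (key _ hY).2 hX⟩, rfl⟩
  have e3 := fin_map (P ⊓ (wS j).comap (LinearMap.fst ℂ _ _)) (LinearMap.fst ℂ _ _)
    (fun x hx => h.i1 x (Submodule.mem_inf.1 hx).1)
  have e4 := fin_map (P ⊓ (wS j).comap (LinearMap.fst ℂ _ _)) (LinearMap.snd ℂ _ _)
    (fun x hx => h.i2 x (Submodule.mem_inf.1 hx).1)
  rw [← e1, ← e2, e3, e4]

/-- The dimension if `P` is everything. -/
theorem all_dim [FiniteDimensional ℂ W] [FiniteDimensional ℂ W']
    (h : ∀ X Y, LinearMap.trace ℂ W X = 0 → LinearMap.trace ℂ W' Y = 0 → (X, Y) ∈ P) :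
    finrank ℂ (LinearMap.ker (LinearMap.trace ℂ W)) +
      finrank ℂ (LinearMap.ker (LinearMap.trace ℂ W')) ≤ finrank ℂ P := by
  rw [← finrank_prod]
  let f : (LinearMap.ker (LinearMap.trace ℂ W)) × (LinearMap.ker (LinearMap.trace ℂ W')) →ₗ[ℂ] P :=
    LinearMap.codRestrict P
      (LinearMap.prodMap (Submodule.subtype _) (Submodule.subtype _)) (fun x =>
        h x.1.1 x.2.1 (LinearMap.mem_ker.1 x.1.2) (LinearMap.mem_ker.1 x.2.2))
  refine LinearMap.finrank_le_finrank_of_injective (f := f) ?_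
  intro x y hxy
  have h1 := congrArg (fun z : P => z.1) hxy
  have h2 := congrArg Prod.fst h1
  have h3 := congrArg Prod.snd h1
  exact Prod.ext (Subtype.ext h2) (Subtype.ext h3)

end

/-! ### Families -/

variable {q : ℕ} {F : Fm q}

/-- The tuple of the `pre`. -/
def prF (X : F.E) : F.O := fun i => pre (X i)

theorem prF_mul (X Y : F.E) : prF X * prF Y = prF (Y * X) := rfl

theorem prF_sub (X Y : F.E) : prF X - prF Y = prF (X - Y) :=
  funext fun i => Cl_aux.pre_sub (X i) (Y i)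

theorem prF_add (X Y : F.E) : prF (X + Y) = prF X + prF Y :=
  funext fun i => Cl_aux.pre_add (X i) (Y i)

theorem prF_zero : prF (0 : F.E) = 0 := funext fun _ => Cl_aux.pre_zero

theorem prF_smul (c : ℝ) (X : F.E) : prF (c • X) = (c : ℂ) • prF X :=
  funext fun i => Cl_aux.pre_smul c (X i)

variable {h : Set F.E}

theorem com_sub (hh : HLieF F h) {Y : F.E} (hY : Y ∈ ComF h) : Y ∈ h := by
  obtain ⟨X, hX, X', hX', rfl⟩ := hY
  exact hh.br X hX X' hX'

theorem br_gg (P : F.O) (hP : ∀ Y ∈ ComF h, P * prF Y - prF Y * P ∈ ggF h) {A : F.O}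
    (hA : A ∈ ggF h) : P * A - A * P ∈ ggF h := by
  refine Submodule.span_induction (p := fun A _ => P * A - A * P ∈ ggF h) ?_ ?_ ?_ ?_ hA
  · rintro _ ⟨Y, hY, rfl⟩
    exact hP Y hY
  · rw [mul_zero, zero_mul, sub_zero]
    exact zero_mem _
  · intro A B _ _ h1 h2
    have h3 : P * (A + B) - (A + B) * P = P * A - A * P + (P * B - B * P) := by
      rw [mul_add, add_mul]
      abel
    rw [h3]
    exact add_mem h1 h2
  · intro c A _ h1
    have h3 : P * (c • A) - (c • A) * P = c • (P * A - A * P) := by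
      rw [mul_smul_comm, smul_mul_assoc, smul_sub]
    rw [h3]
    exact Submodule.smul_mem _ _ h1

theorem br_h (hh : HLieF F h) {X : F.E} (hX : X ∈ h) {A : F.O} (hA : A ∈ ggF h) :
    prF X * A - A * prF X ∈ ggF h := by
  refine br_gg (prF X) (fun Y hY => ?_) hA
  rw [prF_mul, prF_mul, prF_sub]
  exact Submodule.subset_span ⟨_, ⟨Y, com_sub hh hY, X, hX, rfl⟩, rfl⟩

theorem br_span (hh : HLieF F h) {X : F.E} (hX : X ∈ Submodule.span ℝ h) {A : F.O}
    (hA : A ∈ ggF h) : prF X * A - A * prF X ∈ ggF h := by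
  refine Submodule.span_induction (p := fun X _ => prF X * A - A * prF X ∈ ggF h)
    ?_ ?_ ?_ ?_ hX
  · intro X hX
    exact br_h hh hX hA
  · rw [prF_zero, mul_zero, zero_mul, sub_zero]
    exact zero_mem _
  · intro X Y _ _ h1 h2
    have h3 : prF (X + Y) * A - A * prF (X + Y) =
        prF X * A - A * prF X + (prF Y * A - A * prF Y) := by
      rw [prF_add, mul_add, add_mul]
      abel
    rw [h3]
    exact add_mem h1 h2
  · intro c X _ h1
    have h3 : prF (c • X) * A - A * prF (c • X) = (c : ℂ) • (prF X * A - A * prF X) := by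
      rw [prF_smul, mul_smul_comm, smul_mul_assoc, smul_sub]
    rw [h3]
    exact Submodule.smul_mem _ _ h1

theorem br_br (hh : HLieF F h) {A B : F.O} (hA : A ∈ ggF h) (hB : B ∈ ggF h) :
    A * B - B * A ∈ ggF h := by
  refine br_gg A (fun Y hY => ?_) hB
  have h2 := br_h hh (com_sub hh hY) hA
  have h3 : A * prF Y - prF Y * A = -(prF Y * A - A * prF Y) := by abel
  rw [h3]
  exact neg_mem h2

/-- The restriction of an operator commuting with `Z`. -/
def rs (β : F.B) (X : Module.End ℝ (F.T β.1).V)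
    (hX : ∀ v, X ((F.D β.1).Z v) = (F.D β.1).Z (X v)) : Module.End ℂ (F.W β) :=
  (pre X).restrict (p := F.W β) (q := F.W β) (by
    intro a ha v
    change a (X ((F.D β.1).Z v)) = zet (F.m β.1) β.2 * a (X v)
    rw [hX v]
    exact ha (X v))

theorem rs_apply (β : F.B) (X : Module.End ℝ (F.T β.1).V)
    (hX : ∀ v, X ((F.D β.1).Z v) = (F.D β.1).Z (X v)) (a : F.W β) :
    (rs β X hX a : Frm (F.T β.1)) = pre X (a : Frm (F.T β.1)) := rfl

theorem gg_tr (hh : HLieF F h) {A : F.O} (hA : A ∈ ggF h) (β : F.B) :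
    ∃ A' : Module.End ℂ (F.W β), LinearMap.trace ℂ (F.W β) A' = 0 ∧
      ∀ a : F.W β, A β.1 (a : Frm (F.T β.1)) = (A' a : Frm (F.T β.1)) := by
  refine Submodule.span_induction (p := fun A _ => ∃ A' : Module.End ℂ (F.W β),
    LinearMap.trace ℂ (F.W β) A' = 0 ∧
      ∀ a : F.W β, A β.1 (a : Frm (F.T β.1)) = (A' a : Frm (F.T β.1))) ?_ ?_ ?_ ?_ hA
  · rintro _ ⟨_, ⟨X, hX, X', hX', rfl⟩, rfl⟩
    refine ⟨rs β (X' β.1) (hh.u X' hX' β.1).1 * rs β (X β.1) (hh.u X hX β.1).1 -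
      rs β (X β.1) (hh.u X hX β.1).1 * rs β (X' β.1) (hh.u X' hX' β.1).1, Cl_aux.tr_br _ _,
      fun a => ?_⟩
    have h1 : pre ((X * X' - X' * X) β.1) =
        pre (X' β.1) * pre (X β.1) - pre (X β.1) * pre (X' β.1) := by
      rw [Cl_aux.pre_mul, Cl_aux.pre_mul, Cl_aux.pre_sub]
      rfl
    change pre ((X * X' - X' * X) β.1) (a : Frm (F.T β.1)) = _
    rw [h1]
    rfl
  · exact ⟨0, map_zero _, fun a => rfl⟩
  · rintro A B _ _ ⟨A', hA1, hA2⟩ ⟨B', hB1, hB2⟩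
    refine ⟨A' + B', by rw [map_add, hA1, hB1, add_zero], fun a => ?_⟩
    rw [Pi.add_apply, LinearMap.add_apply, hA2, hB2]
    rfl
  · rintro c A _ ⟨A', hA1, hA2⟩
    refine ⟨c • A', by rw [map_smul, hA1, smul_zero], fun a => ?_⟩
    rw [Pi.smul_apply, LinearMap.smul_apply, hA2]
    rfl

/-- The pairs of restrictions. -/
def PP (h : Set F.E) (β β' : F.B) : Submodule ℂ (Module.End ℂ (F.W β) × Module.End ℂ (F.W β')) where
  carrier := {x | ∃ C ∈ ggF h, (∀ a : F.W β, C β.1 (a : Frm (F.T β.1)) = (x.1 a : Frm (F.T β.1))) ∧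
    ∀ a : F.W β', C β'.1 (a : Frm (F.T β'.1)) = (x.2 a : Frm (F.T β'.1))}
  zero_mem' := ⟨0, zero_mem _, fun _ => rfl, fun _ => rfl⟩
  add_mem' := by
    rintro x y ⟨C, hC, h1, h2⟩ ⟨C', hC', h1', h2'⟩
    refine ⟨C + C', add_mem hC hC', fun a => ?_, fun a => ?_⟩
    · rw [Pi.add_apply, LinearMap.add_apply, h1, h1']
      rfl
    · rw [Pi.add_apply, LinearMap.add_apply, h2, h2']
      rfl
  smul_mem' := by
    rintro c x ⟨C, hC, h1, h2⟩
    refine ⟨c • C, Submodule.smul_mem _ _ hC, fun a => ?_, fun a => ?_⟩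
    · rw [Pi.smul_apply, LinearMap.smul_apply, h1]
      rfl
    · rw [Pi.smul_apply, LinearMap.smul_apply, h2]
      rfl

theorem PP_br (hh : HLieF F h) (β β' : F.B) : ∀ x ∈ PP h β β', ∀ y ∈ PP h β β',
    (x.1 * y.1 - y.1 * x.1, x.2 * y.2 - y.2 * x.2) ∈ PP h β β' := by
  rintro x ⟨C, hC, h1, h2⟩ y ⟨C', hC', h1', h2'⟩
  refine ⟨C * C' - C' * C, br_br hh hC hC', fun a => ?_, fun a => ?_⟩
  · change C β.1 (C' β.1 (a : Frm (F.T β.1))) - C' β.1 (C β.1 (a : Frm (F.T β.1))) = _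
    rw [h1, h1', h1, h1']
    rfl
  · change C β'.1 (C' β'.1 (a : Frm (F.T β'.1))) - C' β'.1 (C β'.1 (a : Frm (F.T β'.1))) = _
    rw [h2, h2', h2, h2']
    rfl

theorem PP_tr (hh : HLieF F h) (β β' : F.B) : ∀ x ∈ PP h β β',
    LinearMap.trace ℂ (F.W β) x.1 = 0 ∧ LinearMap.trace ℂ (F.W β') x.2 = 0 := by
  rintro x ⟨C, hC, h1, h2⟩
  constructor
  · obtain ⟨A', hA1, hA2⟩ := gg_tr hh hC β
    have : x.1 = A' := LinearMap.ext fun a => Subtype.ext (by rw [← h1, hA2])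
    rw [this, hA1]
  · obtain ⟨A', hA1, hA2⟩ := gg_tr hh hC β'
    have : x.2 = A' := LinearMap.ext fun a => Subtype.ext (by rw [← h2, hA2])
    rw [this, hA1]

/-- Multiplication by `i`. -/
def jW (β : F.B) : Module.End ℂ (F.W β) :=
  rs β (mulI (F.T β.1)) (fun v => ((F.D β.1).Z.map_smul Complex.I v).symm)

theorem PP_J (hh : HLieF F h) (β β' : F.B) : ∀ x ∈ PP h β β',
    (jW β * x.1 - x.1 * jW β, jW β' * x.2 - x.2 * jW β') ∈ PP h β β' := by
  rintro x ⟨C, hC, h1, h2⟩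
  refine ⟨prF (fun i => mulI (F.T i)) * C - C * prF (fun i => mulI (F.T i)),
    br_span hh hh.J hC, fun a => ?_, fun a => ?_⟩
  · change pre (mulI (F.T β.1)) (C β.1 (a : Frm (F.T β.1))) -
      C β.1 (pre (mulI (F.T β.1)) (a : Frm (F.T β.1))) = _
    rw [h1]
    have h3 := h1 (jW β a)
    rw [jW, rs_apply] at h3
    rw [h3]
    rfl
  · change pre (mulI (F.T β'.1)) (C β'.1 (a : Frm (F.T β'.1))) -
      C β'.1 (pre (mulI (F.T β'.1)) (a : Frm (F.T β'.1))) = _
    rw [h2]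
    have h3 := h2 (jW β' a)
    rw [jW, rs_apply] at h3
    rw [h3]
    rfl

theorem PP_fst (hh : HLieF F h) (hs : ∀ β, HitsF F h {β}) (β β' : F.B) :
    ∀ X : Module.End ℂ (F.W β), LinearMap.trace ℂ (F.W β) X = 0 → ∃ Y, (X, Y) ∈ PP h β β' := by
  classical
  intro X hX
  obtain ⟨C, hC, hCA⟩ := hs β (Function.update (fun β'' => (0 : Module.End ℂ (F.W β''))) β X) (by
    intro β''
    by_cases hb : β'' = β
    · subst hb
      rw [Function.update_self]
      exact hX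
    · rw [Function.update_of_ne hb, map_zero])
  obtain ⟨Y, -, hY⟩ := gg_tr hh hC β'
  refine ⟨Y, C, hC, fun a => ?_, hY⟩
  have h1 := hCA β rfl a
  rw [Function.update_self] at h1
  exact h1

theorem PP_snd (hh : HLieF F h) (hs : ∀ β, HitsF F h {β}) (β β' : F.B) :
    ∀ Y : Module.End ℂ (F.W β'), LinearMap.trace ℂ (F.W β') Y = 0 → ∃ X, (X, Y) ∈ PP h β β' := by
  intro Y hY
  obtain ⟨X, C, hC, h1, h2⟩ := PP_fst hh hs β' β Y hY
  exact ⟨X, C, hC, h2, h1⟩

/-- The pair of restrictions of a commutator. -/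
def RR (hh : HLieF F h) (β β' : F.B) (Y : ComF h) :
    Module.End ℂ (F.W β) × Module.End ℂ (F.W β') :=
  (rs β (Y.1 β.1) (hh.u _ (com_sub hh Y.2) β.1).1,
    rs β' (Y.1 β'.1) (hh.u _ (com_sub hh Y.2) β'.1).1)

theorem PP_span (hh : HLieF F h) (β β' : F.B) :
    PP h β β' = Submodule.span ℂ (Set.range (RR hh β β')) := by
  apply le_antisymm
  · rintro x ⟨C, hC, h1, h2⟩
    have key : ∃ y ∈ Submodule.span ℂ (Set.range (RR hh β β')),
        (∀ a : F.W β, C β.1 (a : Frm (F.T β.1)) = (y.1 a : Frm (F.T β.1))) ∧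
        ∀ a : F.W β', C β'.1 (a : Frm (F.T β'.1)) = (y.2 a : Frm (F.T β'.1)) := by
      clear h1 h2
      refine Submodule.span_induction (p := fun C _ =>
        ∃ y ∈ Submodule.span ℂ (Set.range (RR hh β β')),
        (∀ a : F.W β, C β.1 (a : Frm (F.T β.1)) = (y.1 a : Frm (F.T β.1))) ∧
        ∀ a : F.W β', C β'.1 (a : Frm (F.T β'.1)) = (y.2 a : Frm (F.T β'.1))) ?_ ?_ ?_ ?_ hC
      · rintro _ ⟨Y, hY, rfl⟩
        exact ⟨RR hh β β' ⟨Y, hY⟩, Submodule.subset_span ⟨_, rfl⟩, fun _ => rfl, fun _ => rfl⟩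
      · exact ⟨0, zero_mem _, fun _ => rfl, fun _ => rfl⟩
      · rintro A B _ _ ⟨y, hy, h1, h2⟩ ⟨y', hy', h1', h2'⟩
        refine ⟨y + y', add_mem hy hy', fun a => ?_, fun a => ?_⟩
        · rw [Pi.add_apply, LinearMap.add_apply, h1, h1']
          rfl
        · rw [Pi.add_apply, LinearMap.add_apply, h2, h2']
          rfl
      · rintro c A _ ⟨y, hy, h1, h2⟩
        refine ⟨c • y, Submodule.smul_mem _ _ hy, fun a => ?_, fun a => ?_⟩
        · rw [Pi.smul_apply, LinearMap.smul_apply, h1]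
          rfl
        · rw [Pi.smul_apply, LinearMap.smul_apply, h2]
          rfl
    obtain ⟨y, hy, h1', h2'⟩ := key
    have : x = y := Prod.ext (LinearMap.ext fun a => Subtype.ext (by rw [← h1, h1']))
      (LinearMap.ext fun a => Subtype.ext (by rw [← h2, h2']))
    rw [this]
    exact hy
  · refine Submodule.span_le.2 ?_
    rintro _ ⟨Y, rfl⟩
    exact ⟨prF Y.1, Submodule.subset_span ⟨Y.1, Y.2, rfl⟩, fun _ => rfl, fun _ => rfl⟩

theorem comb (β : F.B) (n : ℕ) (Y : Fin n → F.E)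
    (hY : ∀ i, ∀ v, Y i β.1 ((F.D β.1).Z v) = (F.D β.1).Z (Y i β.1 v)) (c : Fin n → ℂ)
    (a : F.W β) : ∑ i, c i • pre (Y i β.1) (a : Frm (F.T β.1)) =
      (((∑ i, c i • rs β (Y i β.1) (hY i)) a : F.W β) : Frm (F.T β.1)) := by
  rw [LinearMap.sum_apply, AddSubmonoidClass.coe_finsetSum]
  exact Finset.sum_congr rfl fun i _ => rfl

theorem comb0 (β : F.B) (n : ℕ) (Y : Fin n → F.E)
    (hY : ∀ i, ∀ v, Y i β.1 ((F.D β.1).Z v) = (F.D β.1).Z (Y i β.1 v)) (c : Fin n → ℂ) :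
    (∀ a ∈ F.W β, ∑ i, c i • pre (Y i β.1) a = 0) ↔ ∑ i, c i • rs β (Y i β.1) (hY i) = 0 := by
  constructor
  · intro h0
    refine LinearMap.ext fun a => Subtype.ext ?_
    rw [← comb β n Y hY c a]
    exact h0 _ a.2
  · intro h0 a ha
    have h1 := comb β n Y hY c ⟨a, ha⟩
    rw [h0] at h1
    exact h1

theorem PP_le (hFLI : S_FLI) (hh : HLieF F h) (β β' : F.B) [FiniteDimensional ℂ (F.W β)]
    [FiniteDimensional ℂ (F.W β')] (ρ : (ZMod F.M)ˣ)
    [FiniteDimensional ℂ (F.W (F.act ρ β))] [FiniteDimensional ℂ (F.W (F.act ρ β'))] :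
    finrank ℂ (PP h (F.act ρ β) (F.act ρ β')) ≤ finrank ℂ (PP h β β') := by
  rw [PP_span hh (F.act ρ β) (F.act ρ β'), PP_span hh β β']
  refine span_le_of_rel (RR hh (F.act ρ β) (F.act ρ β')) (RR hh β β') fun n Y c hc0 hc => ?_
  have hYZ : ∀ j i, ∀ v, (Y j).1 i ((F.D i).Z v) = (F.D i).Z ((Y j).1 i v) :=
    fun j i => (hh.u _ (com_sub hh (Y j).2) i).1
  have hc1 : ∑ i, c i • rs β ((Y i).1 β.1) (hYZ i β.1) = 0 := by
    have := congrArg Prod.fst hc
    rw [Prod.fst_sum] at this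
    exact this
  have hc2 : ∑ i, c i • rs β' ((Y i).1 β'.1) (hYZ i β'.1) = 0 := by
    have := congrArg Prod.snd hc
    rw [Prod.snd_sum] at this
    exact this
  obtain ⟨c', hc', hr⟩ := hFLI q F n (fun i => (Y i).1)
    (fun j i => ⟨hh.rat _ (com_sub hh (Y j).2) i, hYZ j i⟩) {β, β'} c hc0 (by
      rintro b hb
      rcases hb with rfl | hb
      · exact (comb0 b _ (fun i => (Y i).1) (fun i => hYZ i b.1) c).2 hc1
      · obtain rfl : b = β' := hb
        exact (comb0 b _ (fun i => (Y i).1) (fun i => hYZ i b.1) c).2 hc2) ρ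
  refine ⟨c', hc', ?_⟩
  have h1 := hr β (Set.mem_insert _ _)
  have h2 := hr β' (Set.mem_insert_of_mem _ rfl)
  have h1' := (comb0 (F.act ρ β) _ (fun i => (Y i).1) (fun i => hYZ i β.1) c').1 h1
  have h2' := (comb0 (F.act ρ β') _ (fun i => (Y i).1) (fun i => hYZ i β'.1) c').1 h2
  refine Prod.ext ?_ ?_
  · rw [Prod.fst_sum]
    exact h1'
  · rw [Prod.snd_sum]
    exact h2'

end FTwo_aux

open FTwo_aux in
theorem tFTwo : S_FTwo := by
  intro _ hDim hFLI hAdJ hGou q F hSep h hh hs β β' hne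
  have hd : ∀ γ : F.B, finrank ℂ (F.W γ) = F.r γ.1 := fun γ =>
    (hDim (F.T γ.1) (F.m γ.1) (F.r γ.1) (F.D γ.1) (F.hm γ.1) (F.hd γ.1) γ.2).1
  have hfd : ∀ γ : F.B, FiniteDimensional ℂ (F.W γ) := fun γ =>
    .of_finrank_pos (by rw [hd γ]; have := F.hr γ.1; omega)
  have hsl : ∀ γ : F.B, finrank ℂ (LinearMap.ker (LinearMap.trace ℂ (F.W γ))) + 1 =
      F.r γ.1 * F.r γ.1 := fun γ =>
    All_aux.fin_sl (F.W γ) (F.r γ.1) (by have := F.hr γ.1; omega) (hd γ)
  have hdich : ∀ γ γ' : F.B, (∀ X Y, LinearMap.trace ℂ (F.W γ) X = 0 →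
      LinearMap.trace ℂ (F.W γ') Y = 0 → (X, Y) ∈ PP h γ γ') ∨ Gr (PP h γ γ') := by
    intro γ γ'
    have := hfd γ
    have := hfd γ'
    rcases hGou (F.W γ) (F.W γ') (PP h γ γ') (PP_br hh γ γ') (PP_tr hh γ γ') (PP_fst hh hs γ γ')
      (PP_snd hh hs γ γ') with h1 | h1
    · exact Or.inl h1
    · exact Or.inr ⟨PP_tr hh γ γ', PP_fst hh hs γ γ', PP_snd hh hs γ γ', h1⟩
  rcases hdich β β' with h1 | hG
  · intro A hA
    obtain ⟨C, hC, h2, h3⟩ := h1 (A β) (A β') (hA β) (hA β')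
    refine ⟨C, hC, fun γ hγ a => ?_⟩
    rcases hγ with rfl | hγ
    · exact h2 a
    · obtain rfl : γ = β' := hγ
      exact h3 a
  exfalso
  have hr1 := F.hr β.1
  have hr2 := F.hr β'.1
  have e1 := hsl β
  have e2 := hsl β'
  have d1 := hG.d1
  have d2 := hG.d2
  have hrr : F.r β.1 = F.r β'.1 := by
    have h3 : F.r β.1 * F.r β.1 = F.r β'.1 * F.r β'.1 := by omega
    exact Nat.mul_self_inj.1 h3
  have hpp : ∀ ρ : (ZMod F.M)ˣ, F.pp (F.act ρ β) = F.pp (F.act ρ β') := by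
    intro ρ
    have := hfd β
    have := hfd β'
    have := hfd (F.act ρ β)
    have := hfd (F.act ρ β')
    have hle := PP_le hFLI hh β β' ρ
    have hGρ : Gr (PP h (F.act ρ β) (F.act ρ β')) := by
      rcases hdich (F.act ρ β) (F.act ρ β') with h1 | h1
      · exfalso
        have h4 := all_dim h1
        have e3 := hsl (F.act ρ β)
        have e4 := hsl (F.act ρ β')
        have e5 : F.r (F.act ρ β).1 = F.r β.1 := rfl
        have e6 : F.r (F.act ρ β').1 = F.r β'.1 := rfl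
        rw [e5] at e3
        rw [e6] at e4
        have h5 : 4 ≤ F.r β'.1 * F.r β'.1 := Nat.mul_le_mul hr2 hr2
        omega
      · exact h1
    have hA : ∀ γ : F.B, finrank ℂ (wS (jW γ)) = F.pp γ ∧
        ∀ A ∈ wS (jW γ), LinearMap.trace ℂ (F.W γ) A = 0 := by
      intro γ
      refine hAdJ (F.T γ.1) (F.m γ.1) (F.D γ.1) (F.hm γ.1) γ.2 (wS (jW γ)) fun A => ?_
      rw [mem_wS]
      constructor
      · intro h5 a b hb
        have hb' : b = jW γ a := Subtype.ext hb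
        have h6 := congrArg (fun z : F.W γ => (z : Frm (F.T γ.1))) (LinearMap.congr_fun h5 a)
        rw [hb']
        exact h6
      · intro h5
        refine LinearMap.ext fun a => Subtype.ext ?_
        exact h5 a (jW γ a) rfl
    have h7 := hGρ.adJ (jW _) (jW _) (PP_J hh _ _) (hA _).2 (hA _).2
    rw [(hA _).1, (hA _).1] at h7
    exact h7
  rcases hSep β β' hne with h8 | ⟨ρ, h8⟩
  · exact h8 hrr
  · exact h8 (hpp ρ)

end SEB
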