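import Pool.Agent.Lib.SE.Big.VG

/-!
# PROJECT SE, module IsBig, part 3: products of different factors (helper64)

`T_1, …, T_q` abelian varieties with `ℚ(ζ_(m_i))`-action, each of them big, pairwise with different
ranks or different signatures: the Hodge Lie algebra of the product contains the product of the
`su`. Proofs as in `SE/Big/Spec.lean` (all modules there are proved, copy and adapt).

Every module: file `SE/Big/Xyz.lean`, `theorem tXyz : S_Xyz`, import `Pool.Agent.Lib.SE.Big.Fam` and the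
proved modules `SE/Big/*.lean` you want to use. If the docstring says `From S_A, S_B` and these are
not hypotheses in the statement itself, the theorem is `tXyz : S_A → S_B → S_Xyz`.
-/

set_option autoImplicit false

open Module

noncomputable section

namespace SEB

open HC HC.E HC.SE

/-- `h` acts by all of `sl` on every eigenspace and on every pair of eigenspaces. -/
def Full {T : AV} {m : ℕ} (D : Cyc T m) : Prop :=
  ∀ h, HLie D h → (∀ s, Hits D h {s}) ∧ ∀ s t, t ≠ s → t ≠ -s → Hits D h {s, t}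

/-- A family of abelian varieties `T_i` with `ℚ(ζ_(m_i))`-action of rank `r_i`. -/
structure Fm (q : ℕ) where
  T : Fin q → AV
  m : Fin q → ℕ
  r : Fin q → ℕ
  D : ∀ i, Cyc (T i) (m i)
  hm : ∀ i, 3 ≤ m i
  hr : ∀ i, 2 ≤ r i
  hd : ∀ i, 2 * finrank ℂ (T i).V = r i * Nat.totient (m i)

variable {q : ℕ}

/-- A common multiple of the `m_i`. -/
def Fm.M (F : Fm q) : ℕ := ∏ i, F.m i

theorem Fm.dvd (F : Fm q) (i : Fin q) : F.m i ∣ F.M := Finset.dvd_prod_of_mem F.m (Finset.mem_univ i)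

/-- Tuples of real endomorphisms. -/
abbrev Fm.E (F : Fm q) : Type := ∀ i, Module.End ℝ (F.T i).V

/-- Tuples of operators on the forms. -/
abbrev Fm.O (F : Fm q) : Type := ∀ i, Module.End ℂ (Frm (F.T i))

/-- The blocks: a factor and a character. -/
abbrev Fm.B (F : Fm q) : Type := (i : Fin q) × (ZMod (F.m i))ˣ

/-- The conjugate block. -/
def Fm.neg (F : Fm q) (β : F.B) : F.B := ⟨β.1, -β.2⟩

/-- The Galois action on the blocks. -/
def Fm.act (F : Fm q) (ρ : (ZMod F.M)ˣ) (β : F.B) : F.B := ⟨β.1, ZMod.unitsMap (F.dvd β.1) ρ * β.2⟩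

/-- The signature product. -/
def Fm.pp (F : Fm q) (β : F.B) : ℕ := (F.D β.1).p β.2 * (F.D β.1).p (-β.2)

/-- The eigenspace of a block. -/
abbrev Fm.W (F : Fm q) (β : F.B) : Submodule ℂ (Frm (F.T β.1)) := Ws (F.D β.1) β.2

/-- A `ℚ`-Lie algebra of rational tuples in `∏ u_E` whose real span contains the multiplication by
`i`. -/
structure HLieF (F : Fm q) (h : Set F.E) : Prop where
  rat : ∀ X ∈ h, ∀ i, RatEnd (F.T i) (X i)
  u : ∀ X ∈ h, ∀ i, IsU (F.D i) (X i)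
  zero : (0 : F.E) ∈ h
  add : ∀ X ∈ h, ∀ Y ∈ h, X + Y ∈ h
  smul : ∀ x : ℚ, ∀ X ∈ h, (x : ℝ) • X ∈ h
  br : ∀ X ∈ h, ∀ Y ∈ h, X * Y - Y * X ∈ h
  J : (fun i => mulI (F.T i) : F.E) ∈ Submodule.span ℝ h

/-- The commutators. -/
def ComF {F : Fm q} (h : Set F.E) : Set F.E := {Y | ∃ X ∈ h, ∃ X' ∈ h, Y = X * X' - X' * X}

/-- Complex combinations of commutators. -/
def ggF {F : Fm q} (h : Set F.E) : Submodule ℂ F.O :=
  Submodule.span ℂ ((fun X : F.E => (fun i => pre (X i) : F.O)) '' ComF h)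

/-- The commutators realise every family of traceless operators on the blocks in `S`. -/
def HitsF (F : Fm q) (h : Set F.E) (S : Set F.B) : Prop :=
  ∀ A : ∀ β : F.B, Module.End ℂ (F.W β), (∀ β, LinearMap.trace ℂ (F.W β) (A β) = 0) →
    ∃ C ∈ ggF h, ∀ β ∈ S, ∀ a : F.W β, C β.1 (a : Frm (F.T β.1)) = (A β a : Frm (F.T β.1))

/-- Different factors have different ranks or different signatures. -/
def SepF (F : Fm q) : Prop :=
  ∀ β β' : F.B, β.1 ≠ β'.1 → F.r β.1 ≠ F.r β'.1 ∨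
    ∃ ρ : (ZMod F.M)ˣ, F.pp (F.act ρ β) ≠ F.pp (F.act ρ β')

/-- BLOCKS OF ONE FACTOR. PROOF. The set of the components `X i`, `X ∈ h`, is an `HLie` for `F.D i`;
its commutators and their complex combinations lift to `ggF h`. -/
def S_FH : Prop :=
  ∀ (q : ℕ) (F : Fm q) (h : Set F.E), HLieF F h → (∀ i, Full (F.D i)) →
    (∀ β, HitsF F h {β}) ∧
    ∀ β β' : F.B, β.1 = β'.1 → β' ≠ β → β' ≠ F.neg β → HitsF F h {β, β'}

/-- CHANGE OF THE CHARACTERS. From `S_Pj`, `S_Tw`. PROOF. As `S_LI`, with `l` from `S_Tw` for `F.M`: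
`exp(2πi/m_i) = exp(2πi/M)^(M/m_i)`, so `l(exp(2πi/m_i) x) = zet (m_i) (unitsMap ρ) l(x)`. -/
def S_FLI : Prop :=
  ∀ (q : ℕ) (F : Fm q) (n : ℕ) (X : Fin n → F.E),
    (∀ j i, RatEnd (F.T i) (X j i) ∧ ∀ v, X j i ((F.D i).Z v) = (F.D i).Z (X j i v)) →
    ∀ (S : Set F.B) (c : Fin n → ℂ), c ≠ 0 →
    (∀ β ∈ S, ∀ a ∈ F.W β, ∑ j, c j • pre (X j β.1) a = 0) → ∀ ρ : (ZMod F.M)ˣ,
    ∃ c' : Fin n → ℂ, c' ≠ 0 ∧
      ∀ β ∈ S, ∀ a ∈ F.W (F.act ρ β), ∑ j, c' j • pre (X j β.1) a = 0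

/-- BLOCKS OF DIFFERENT FACTORS. From `S_Bas`, `S_Dim`, `S_FLI`, `S_AdJ`, `S_Gou`. PROOF. As `S_Two`.
Suppose `¬ HitsF {β, β'}`. `S_Gou` for the pairs of restrictions of the elements of `ggF h` to `W β`,
`W β'`: they are the graph of a bijection `sl(W β) → sl(W β')`: `r = r'` (`r² - 1 = r'² - 1`), and the
dimension of the graph is `r² - 1`. `S_FLI`: for every `ρ` the dimension of the pairs for
`ρ β`, `ρ β'` is at most `r² - 1 < 2 (r² - 1)`, so again the graph of an isomorphism, which commutes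
with `ad J` (`[J, ·]` preserves `ggF h`); `S_AdJ`: `pp (ρ β) = pp (ρ β')`, for all `ρ`, against
`SepF`. -/
def S_FTwo : Prop :=
  S_Bas → S_Dim → S_FLI → S_AdJ → S_Gou → ∀ (q : ℕ) (F : Fm q), SepF F → ∀ h : Set F.E,
    HLieF F h → (∀ β, HitsF F h {β}) → ∀ β β' : F.B, β.1 ≠ β'.1 → HitsF F h {β, β'}

/-- ALL BLOCKS. From `S_Perf`. PROOF. As `S_Rib`. -/
def S_FRib : Prop :=
  S_Perf → ∀ (q : ℕ) (F : Fm q) (h : Set F.E), HLieF F h → (∀ β, HitsF F h {β}) →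
    (∀ β β' : F.B, β' ≠ β → β' ≠ F.neg β → HitsF F h {β, β'}) →
    ∀ S : Set F.B, (∀ β ∈ S, F.neg β ∉ S) → HitsF F h S

/-- CONCLUSION. PROOF. As `S_Real`, `S_Fin`: a half system `S` of blocks, `C ∈ ggF h` with
`C i = pre (X i)` on the blocks in `S` (`S_Tr`), so on all blocks by the duality of `W β` and
`W (neg β)`; `C i = ∑_j c_j pre (Y_j i)` with `c_j` independent of `i`, so
`X = ∑_j Re(c_j) Y_j`. -/
def S_FFin : Prop :=
  S_Pj → S_Bas → S_Tr → ∀ (q : ℕ) (F : Fm q) (h : Set F.E), HLieF F h →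
    (∀ S : Set F.B, (∀ β ∈ S, F.neg β ∉ S) → HitsF F h S) → ∀ X : F.E,
    (∀ i, IsSU (F.D i) (X i)) → X ∈ Submodule.span ℝ (ComF h)

/-- From any set of tuples to `HLieF`. PROOF. As `S_Hl`: `(mulI)_i = ∑ c_k Y_k`, `Y_k` rational
combinations of elements of `h₀`, `c_k` linearly independent over `ℚ`; every component of `Y_k` is in
`u_E`. -/
def S_FHl : Prop :=
  ∀ (q : ℕ) (F : Fm q) (h₀ : Set F.E), (∀ X ∈ h₀, ∀ i, RatEnd (F.T i) (X i)) →
    (∀ X ∈ h₀, ∀ Y ∈ h₀, X * Y - Y * X ∈ h₀) →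
    (fun i => mulI (F.T i) : F.E) ∈ Submodule.span ℝ h₀ →
    ∃ h, HLieF F h ∧ ∀ Y ∈ ComF h, Y ∈ Submodule.span ℝ (ComF h₀)

/-- SEPARATION for `y ^ p = f(x)`, `deg f = r + 1 < p`. PROOF. `sg p r 1 u = r - ⌊(r+1) u / p⌋` (see
`SE/Big/Pr.lean`). Let `r_i = r_j`; then `p_i ≠ p_j` are different primes. For `s`, `t` there is
`ρ` prime to `M` (Chinese remainder theorem; `ZMod.unitsMap` is surjective) with `ρ s = 1` mod `p_i`,
where `sg · sg = r · 0 = 0`, and `ρ t = u` mod `p_j` with `sg = 1`, `sg · sg = r - 1 ≠ 0`. -/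
def S_Sep : Prop :=
  ∀ (q : ℕ) (F : Fm q), (∀ i, (F.m i).Prime ∧ F.r i + 1 < F.m i) →
    (∀ i (u : (ZMod (F.m i))ˣ), (F.D i).p u = sg (F.m i) (F.r i) (fun _ => 1) (u : ZMod (F.m i)).val) →
    (∀ i j, i ≠ j → (F.m i, F.r i) ≠ (F.m j, F.r j)) → SepF F

end SEB
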