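import Pool.Agent.Lib.SE.Big.Spec

/-!
# PROJECT SE, module IsBig, `S_Gou`: Goursat's lemma for `sl(W) × sl(W')` (helper33)

An ideal of `sl(V)` is `0` or everything (`dich`); Goursat's lemma follows.
-/

set_option autoImplicit false

open Module

noncomputable section

namespace SEB

open HC HC.E

namespace Gou_aux

variable {V : Type} [AddCommGroup V] [Module ℂ V] [FiniteDimensional ℂ V]

/-- A functional which vanishes at `x` and not at `u`. -/
lemma sep {u x : V} (h : ∀ c : ℂ, u ≠ c • x) : ∃ f : Dual ℂ V, f x = 0 ∧ f u ≠ 0 := by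
  have hu : u ∉ Submodule.span ℂ {x} := by
    intro hh
    obtain ⟨c, hc⟩ := Submodule.mem_span_singleton.1 hh
    exact h c hc.symm
  obtain ⟨f, hf, hf'⟩ := Submodule.exists_dual_map_eq_bot_of_notMem hu inferInstance
  refine ⟨f, ?_, hf⟩
  have hx : f x ∈ (Submodule.span ℂ {x}).map f :=
    Submodule.mem_map_of_mem (Submodule.mem_span_singleton_self x)
  rw [hf'] at hx
  exact (Submodule.mem_bot ℂ).1 hx

/-- The double bracket with a nilpotent operator of rank one. -/
lemma key (N : Submodule ℂ (Module.End ℂ V))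
    (hN : ∀ n ∈ N, ∀ y : Module.End ℂ V, LinearMap.trace ℂ V y = 0 → y * n - n * y ∈ N)
    {n : Module.End ℂ V} (hn : n ∈ N) {φ : Dual ℂ V} {u : V} (h0 : φ u = 0)
    (h1 : φ (n u) ≠ 0) : (φ.smulRight u : Module.End ℂ V) ∈ N := by
  have ht : LinearMap.trace ℂ V (φ.smulRight u) = 0 := by
    rw [LinearMap.trace_smulRight, h0]
  have h2 := hN _ (hN n hn _ ht) _ ht
  have h3 : (φ.smulRight u : Module.End ℂ V) = (-2 * φ (n u))⁻¹ •
      ((φ.smulRight u) * ((φ.smulRight u) * n - n * (φ.smulRight u)) -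
        ((φ.smulRight u) * n - n * (φ.smulRight u)) * (φ.smulRight u)) := by
    have h4 : ((φ.smulRight u : Module.End ℂ V) * ((φ.smulRight u) * n - n * (φ.smulRight u)) -
        ((φ.smulRight u) * n - n * (φ.smulRight u)) * (φ.smulRight u))
        = (-2 * φ (n u)) • (φ.smulRight u : Module.End ℂ V) := by
      ext v
      simp only [LinearMap.sub_apply, Module.End.mul_apply, LinearMap.smulRight_apply, map_sub,
        map_smul, h0, LinearMap.smul_apply]
      module
    rw [h4, smul_smul, inv_mul_cancel₀ (mul_ne_zero (by norm_num) h1), one_smul]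
  rw [h3]
  exact N.smul_mem _ h2

/-- From one operator of rank one to all. -/
lemma trans (N : Submodule ℂ (Module.End ℂ V))
    (hN : ∀ n ∈ N, ∀ y : Module.End ℂ V, LinearMap.trace ℂ V y = 0 → y * n - n * y ∈ N)
    {φ φ' : Dual ℂ V} {u u' : V} (h0 : φ u = 0) (h0' : φ' u' = 0) (hφ : φ ≠ 0) (hφ' : φ' ≠ 0)
    (hu : u ≠ 0) (hu' : u' ≠ 0) (h : (φ.smulRight u : Module.End ℂ V) ∈ N) :
    (φ'.smulRight u' : Module.End ℂ V) ∈ N := by
  have hex : ∀ i : Fin 2, ∃ x, (![φ, φ'] : Fin 2 → Dual ℂ V) i x ≠ 0 := by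
    intro i
    fin_cases i
    · by_contra! hc
      exact hφ (LinearMap.ext hc)
    · by_contra! hc
      exact hφ' (LinearMap.ext hc)
  obtain ⟨x, hx⟩ := Module.Dual.exists_forall_ne_zero_of_forall_exists _ hex
  have hx1 : φ x ≠ 0 := hx 0
  have hx2 : φ' x ≠ 0 := hx 1
  have hn1 : ∀ c : ℂ, u ≠ c • x := by
    rintro c rfl
    rw [map_smul, smul_eq_mul] at h0
    rcases mul_eq_zero.1 h0 with h | h
    · exact hu (by rw [h, zero_smul])
    · exact hx1 h
  have hn2 : ∀ c : ℂ, u' ≠ c • x := by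
    rintro c rfl
    rw [map_smul, smul_eq_mul] at h0'
    rcases mul_eq_zero.1 h0' with h | h
    · exact hu' (by rw [h, zero_smul])
    · exact hx2 h
  obtain ⟨ξ, hξ, hξ'⟩ := Module.Dual.exists_forall_mem_ne_zero_of_forall_exists
    (LinearMap.ker (Dual.eval ℂ V x)) (![Dual.eval ℂ V u, Dual.eval ℂ V u'] : Fin 2 → _) (by
      intro i
      fin_cases i
      · obtain ⟨f, hf, hf'⟩ := sep hn1
        exact ⟨f, hf, hf'⟩
      · obtain ⟨f, hf, hf'⟩ := sep hn2
        exact ⟨f, hf, hf'⟩)
  have h1 : ξ x = 0 := hξ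
  have h2 : ξ u ≠ 0 := hξ' 0
  have h3 : ξ u' ≠ 0 := hξ' 1
  have h4 : (ξ.smulRight x : Module.End ℂ V) ∈ N := by
    refine key N hN h h1 ?_
    rw [LinearMap.smulRight_apply, map_smul, smul_eq_mul]
    exact mul_ne_zero hx1 h2
  refine key N hN h4 h0' ?_
  rw [LinearMap.smulRight_apply, map_smul, smul_eq_mul]
  exact mul_ne_zero h3 hx2

/-- The operators of rank one and trace zero span `sl(V)`. -/
lemma full (N : Submodule ℂ (Module.End ℂ V))
    (h : ∀ (φ : Dual ℂ V) (u : V), φ u = 0 → (φ.smulRight u : Module.End ℂ V) ∈ N)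
    {φ₀ : Dual ℂ V} {u₀ : V} (h00 : φ₀ u₀ = 1) (X : Module.End ℂ V)
    (hX : LinearMap.trace ℂ V X = 0) : X ∈ N := by
  have h1 : ∀ (φ : Dual ℂ V) (u : V), φ u₀ = 0 → φ₀ u = 0 →
      (φ.smulRight u - (φ u) • φ₀.smulRight u₀ : Module.End ℂ V) ∈ N := by
    intro φ u ha hb
    have e : (φ.smulRight u - (φ u) • φ₀.smulRight u₀ : Module.End ℂ V)
        = (φ + (-(φ u)) • φ₀).smulRight (u + u₀) - φ.smulRight u₀
          - (-(φ u)) • φ₀.smulRight u := by
      ext v
      simp only [LinearMap.sub_apply, LinearMap.smulRight_apply, LinearMap.smul_apply,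
        LinearMap.add_apply, smul_eq_mul]
      module
    rw [e]
    refine N.sub_mem (N.sub_mem (h _ _ ?_) (h _ _ ha)) (N.smul_mem _ (h _ _ hb))
    simp only [LinearMap.add_apply, LinearMap.smul_apply, map_add, smul_eq_mul, ha, hb, h00]
    ring
  have h2 : ∀ (φ : Dual ℂ V) (u : V),
      (φ.smulRight u - (φ u) • φ₀.smulRight u₀ : Module.End ℂ V) ∈ N := by
    intro φ u
    have e : (φ.smulRight u - (φ u) • φ₀.smulRight u₀ : Module.End ℂ V)
        = ((φ - (φ u₀) • φ₀).smulRight (u - (φ₀ u) • u₀)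
            - ((φ - (φ u₀) • φ₀) (u - (φ₀ u) • u₀)) • φ₀.smulRight u₀)
          + (φ₀ u) • (φ - (φ u₀) • φ₀).smulRight u₀
          + (φ u₀) • φ₀.smulRight (u - (φ₀ u) • u₀) := by
      ext v
      simp only [LinearMap.sub_apply, LinearMap.smulRight_apply, LinearMap.smul_apply,
        LinearMap.add_apply, smul_eq_mul, map_sub, map_smul, h00]
      module
    rw [e]
    refine N.add_mem (N.add_mem (h1 _ _ ?_ ?_) (N.smul_mem _ (h _ _ ?_)))
      (N.smul_mem _ (h _ _ ?_)) <;>
    simp only [LinearMap.sub_apply, LinearMap.smul_apply, map_sub, map_smul, smul_eq_mul, h00] <;>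
    ring
  let b := Module.finBasis ℂ V
  have h3 : X = ∑ i, (b.coord i).smulRight (X (b i)) := by
    refine b.ext fun j => ?_
    rw [LinearMap.sum_apply, Finset.sum_eq_single j]
    · simp
    · intro i _ hij
      simp [Finsupp.single_eq_of_ne hij]
    · intro hj
      exact absurd (Finset.mem_univ j) hj
  have h4 : LinearMap.trace ℂ V X = ∑ i, (b.coord i) (X (b i)) := by
    conv_lhs => rw [h3]
    rw [map_sum]
    exact Finset.sum_congr rfl fun i _ => LinearMap.trace_smulRight _ _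
  have h5 : X = ∑ i, ((b.coord i).smulRight (X (b i))
      - ((b.coord i) (X (b i))) • φ₀.smulRight u₀) := by
    rw [Finset.sum_sub_distrib, ← Finset.sum_smul, ← h4, hX, zero_smul, sub_zero]
    exact h3
  rw [h5]
  exact N.sum_mem fun i _ => h2 _ _

/-- An ideal of `sl(V)` is `0` or `sl(V)`. -/
lemma dich (N : Submodule ℂ (Module.End ℂ V)) (h0 : ∀ n ∈ N, LinearMap.trace ℂ V n = 0)
    (hN : ∀ n ∈ N, ∀ y : Module.End ℂ V, LinearMap.trace ℂ V y = 0 → y * n - n * y ∈ N) :
    (∀ n ∈ N, n = 0) ∨ ∀ X : Module.End ℂ V, LinearMap.trace ℂ V X = 0 → X ∈ N := by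
  by_cases hz : ∀ n ∈ N, n = 0
  · exact Or.inl hz
  right
  push Not at hz
  obtain ⟨n, hn, hne⟩ := hz
  have hi : ∃ u, LinearIndependent ℂ ![u, n u] := by
    by_contra! hc
    obtain ⟨a, ha⟩ := LinearMap.exists_eq_smul_id_of_forall_notLinearIndependent hc
    have ht := h0 n hn
    rw [ha, map_smul, smul_eq_mul, LinearMap.trace_one] at ht
    rcases mul_eq_zero.1 ht with h | h
    · exact hne (by rw [ha, h, zero_smul])
    · have hf : finrank ℂ V = 0 := by exact_mod_cast h
      have := (finrank_zero_iff (R := ℂ) (M := V)).1 hf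
      exact hne (LinearMap.ext fun v => Subsingleton.elim _ _)
  obtain ⟨u, hu⟩ := hi
  have hu0 : u ≠ 0 := hu.ne_zero 0
  have hnc : ∀ c : ℂ, n u ≠ c • u := by
    intro c hc
    have := LinearIndependent.pair_iff.1 hu c (-1) (by rw [hc]; module)
    exact absurd this.2 (by norm_num)
  obtain ⟨φ, hφ, hφ'⟩ := sep hnc
  have hφ0 : φ ≠ 0 := by
    rintro rfl
    exact hφ' rfl
  have hin := key N hN hn hφ hφ'
  refine fun X hX => full N ?_ (φ₀ := (φ (n u))⁻¹ • φ) (u₀ := n u) ?_ X hX
  · intro φ' u' h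
    by_cases ha : φ' = 0
    · rw [ha]
      have : ((0 : Dual ℂ V).smulRight u' : Module.End ℂ V) = 0 := by
        ext v
        simp
      rw [this]
      exact N.zero_mem
    by_cases hb : u' = 0
    · rw [hb]
      have : (φ'.smulRight (0 : V) : Module.End ℂ V) = 0 := by
        ext v
        simp
      rw [this]
      exact N.zero_mem
    exact trans N hN hφ h hφ0 ha hu0 hb hin
  · rw [LinearMap.smul_apply, smul_eq_mul]
    exact inv_mul_cancel₀ hφ'

end Gou_aux

open Gou_aux in
theorem tGou : S_Gou := by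
  intro W W' _ _ _ _ _ _ P hbr htr hs1 hs2
  have hP1 := dich (P.comap (LinearMap.inl ℂ (Module.End ℂ W) (Module.End ℂ W')))
    (fun n hn => (htr _ hn).1) (by
      intro n hn y hy
      obtain ⟨Y, hY⟩ := hs1 y hy
      have := hbr _ hY _ hn
      simpa using this)
  have hP2 := dich (P.comap (LinearMap.inr ℂ (Module.End ℂ W) (Module.End ℂ W')))
    (fun n hn => (htr _ hn).2) (by
      intro n hn y hy
      obtain ⟨Y, hY⟩ := hs2 y hy
      have := hbr _ hY _ hn
      simpa using this)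
  rcases hP1 with hP1 | hP1
  · rcases hP2 with hP2 | hP2
    · right
      intro x hx
      constructor
      · intro h
        refine hP2 x.2 ?_
        change ((0 : Module.End ℂ W), x.2) ∈ P
        rw [← h]
        exact hx
      · intro h
        refine hP1 x.1 ?_
        change (x.1, (0 : Module.End ℂ W')) ∈ P
        rw [← h]
        exact hx
    · left
      intro X Y hX hY
      obtain ⟨Y', hY'⟩ := hs1 X hX
      have h1 : ((0 : Module.End ℂ W), Y - Y') ∈ P :=
        hP2 (Y - Y') (by rw [map_sub, hY, (htr _ hY').2, sub_zero])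
      have := P.add_mem hY' h1
      simpa using this
  · left
    intro X Y hX hY
    obtain ⟨X', hX'⟩ := hs2 Y hY
    have h1 : (X - X', (0 : Module.End ℂ W')) ∈ P :=
      hP1 (X - X') (by rw [map_sub, hX, (htr _ hX').1, sub_zero])
    have := P.add_mem hX' h1
    simpa using this

end SEB
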