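import Pool.Agent.Lib.SE.Big.Spec

/-! # SE, Big: a hermitian form on the 1-forms -/

set_option autoImplicit false

open Module

noncomputable section

namespace SEB

open HC HC.E

namespace Hm_aux

theorem onb (V : Type) [AddCommGroup V] [Module ℝ V] [FiniteDimensional ℝ V]
    (S : V →ₗ[ℝ] V →ₗ[ℝ] ℝ) (hs : ∀ u v, S u v = S v u) (hp : ∀ v, v ≠ 0 → 0 < S v v) :
    ∃ (n : ℕ) (e : Basis (Fin n) ℝ V), ∀ i j, S (e i) (e j) = if i = j then 1 else 0 := by
  let core : InnerProductSpace.Core ℝ V :=
    { inner := fun u v => S u v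
      conj_inner_symm := fun u v => by
        change (starRingEnd ℝ) (S v u) = S u v
        rw [hs v u]
        rfl
      re_inner_nonneg := fun v => by
        by_cases h : v = 0
        · rw [h]
          simp
        · exact (hp v h).le
      add_left := fun u v w => by
        change S (u + v) w = S u w + S v w
        rw [map_add, LinearMap.add_apply]
      smul_left := fun u v r => by
        change S (r • u) v = (starRingEnd ℝ) r * S u v
        rw [map_smul, LinearMap.smul_apply, smul_eq_mul]
        rfl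
      definite := fun v h => by
        by_contra h0
        exact (hp v h0).ne' h }
  letI : NormedAddCommGroup V := core.toNormedAddCommGroup
  letI : InnerProductSpace ℝ V := InnerProductSpace.ofCore core.toCore
  refine ⟨_, (stdOrthonormalBasis ℝ V).toBasis, fun i j => ?_⟩
  have h := (orthonormal_iff_ite.1 (stdOrthonormalBasis ℝ V).orthonormal) i j
  rw [OrthonormalBasis.coe_toBasis]
  exact h

theorem expand {V : Type} [AddCommGroup V] [Module ℝ V]
    {S : V →ₗ[ℝ] V →ₗ[ℝ] ℝ} {n : ℕ} (e : Basis (Fin n) ℝ V)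
    (he : ∀ i j, S (e i) (e j) = if i = j then 1 else 0) (v : V) : v = ∑ j, S v (e j) • e j := by
  have h : ∀ j, S v (e j) = e.repr v j := by
    intro j
    conv_lhs => rw [← e.sum_repr v]
    rw [map_sum, LinearMap.sum_apply, Finset.sum_eq_single j]
    · rw [map_smul, LinearMap.smul_apply, he, if_pos rfl, smul_eq_mul, mul_one]
    · intro i _ hij
      rw [map_smul, LinearMap.smul_apply, he, if_neg hij, smul_zero]
    · intro h
      exact absurd (Finset.mem_univ _) h
  simp only [h]
  exact (e.sum_repr v).symm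

end Hm_aux

theorem tHm : S_Hm := by
  intro T m D
  let S : T.V →ₗ[ℝ] T.V →ₗ[ℝ] ℝ := D.ψ ∘ₗ mulI T
  have hS : ∀ u v, S u v = D.ψ (Complex.I • u) v := fun u v => rfl
  have hfin : FiniteDimensional ℝ T.V := inferInstance
  have hs : ∀ u v, S u v = S v u := by
    intro u v
    rw [hS, hS, D.alt, ← D.cpx v, smul_smul, Complex.I_mul_I, neg_smul, one_smul, map_neg, neg_neg]
  have hp : ∀ v, v ≠ 0 → 0 < S v v := fun v hv => D.pos v hv
  obtain ⟨n, e, he⟩ := Hm_aux.onb T.V S hs hp
  refine ⟨fun a b => ∑ k, a (e k) * (starRingEnd ℂ) (b (e k)), ?_, ?_, ?_, ?_, ?_⟩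
  · intro a b c
    simp only [LinearMap.add_apply, add_mul, Finset.sum_add_distrib]
  · intro x a b
    simp only [LinearMap.smul_apply, smul_eq_mul, Finset.mul_sum, mul_assoc]
  · intro a b
    simp only [map_sum, map_mul, Complex.conj_conj]
    exact Finset.sum_congr rfl fun k _ => mul_comm _ _
  · intro a ha
    have h1 : (∑ k, a (e k) * (starRingEnd ℂ) (a (e k))).re = ∑ k, ‖a (e k)‖ ^ 2 := by
      rw [Complex.re_sum]
      refine Finset.sum_congr rfl fun k _ => ?_
      rw [Complex.mul_conj, Complex.ofReal_re, Complex.normSq_eq_norm_sq]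
    rw [h1]
    have h2 : ∃ k, a (e k) ≠ 0 := by
      by_contra h
      push_neg at h
      exact ha (e.ext fun k => by rw [h k, LinearMap.zero_apply])
    obtain ⟨k, hk⟩ := h2
    refine lt_of_lt_of_le (pow_pos (norm_pos_iff.2 hk) 2) ?_
    exact Finset.single_le_sum (f := fun k => ‖a (e k)‖ ^ 2) (fun i _ => by positivity)
      (Finset.mem_univ k)
  · intro X Y hXY a b
    have hXY' : ∀ u v, S (X u) v = S u (Y v) := hXY
    have hX : ∀ k, (pre X a) (e k) = ∑ j, (S (X (e k)) (e j) : ℂ) * a (e j) := by
      intro k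
      change a (X (e k)) = _
      conv_lhs => rw [Hm_aux.expand e he (X (e k))]
      rw [map_sum]
      refine Finset.sum_congr rfl fun j _ => ?_
      rw [map_smul, Complex.real_smul]
    have hY : ∀ j, (starRingEnd ℂ) ((pre Y b) (e j)) =
        ∑ k, (S (X (e k)) (e j) : ℂ) * (starRingEnd ℂ) (b (e k)) := by
      intro j
      change (starRingEnd ℂ) (b (Y (e j))) = _
      conv_lhs => rw [Hm_aux.expand e he (Y (e j))]
      rw [map_sum, map_sum]
      refine Finset.sum_congr rfl fun k _ => ?_
      rw [map_smul, Complex.real_smul, map_mul, Complex.conj_ofReal, hs (Y (e j)), ← hXY']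
    change ∑ k, (pre X a) (e k) * (starRingEnd ℂ) (b (e k)) =
      ∑ j, a (e j) * (starRingEnd ℂ) ((pre Y b) (e j))
    simp only [hX, hY, Finset.sum_mul, Finset.mul_sum]
    rw [Finset.sum_comm]
    refine Finset.sum_congr rfl fun j _ => Finset.sum_congr rfl fun k _ => ?_
    ring

end SEB
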