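import Pool.Agent.Lib.SE.Big.Spec

/-!
# PROJECT SE, module Irr: `End⁰(T) = E` implies irreducibility
-/

set_option autoImplicit false

open Module

noncomputable section

namespace SEB

open HC HC.E

namespace Irr_aux

private lemma commute_proj {E : Type} [AddCommGroup E] [Module ℂ E] {P Q : Submodule ℂ E}
    (h : IsCompl P Q) (f : Module.End ℂ E) (hP : ∀ x ∈ P, f x ∈ P) (hQ : ∀ x ∈ Q, f x ∈ Q) :
    P.projection Q h * f = f * P.projection Q h := by
  refine LinearMap.ext fun x => ?_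
  have hx : x ∈ P ⊔ Q := by
    rw [h.sup_eq_top]
    exact Submodule.mem_top
  obtain ⟨p, hp, q, hq, rfl⟩ := Submodule.mem_sup.1 hx
  rw [Module.End.mul_apply, Module.End.mul_apply, map_add, map_add, map_add,
    Submodule.projection_apply_of_mem_left h (hP p hp),
    Submodule.projection_apply_of_mem_right h (hQ q hq),
    Submodule.projection_apply_of_mem_left h hp, Submodule.projection_apply_of_mem_right h hq,
    add_zero, add_zero]

private lemma pre_pow {T : AV} {m : ℕ} (D : Cyc T m) (s : (ZMod m)ˣ) (k : ℕ) :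
    ∀ a ∈ Ws D s, pre (D.ZR ^ k) a = (zet m s ^ k) • a := by
  intro a ha
  refine LinearMap.ext fun v => ?_
  change a ((D.ZR ^ k) v) = zet m s ^ k * a v
  induction k with
  | zero => simp
  | succ k ih =>
    have h1 : (D.ZR ^ (k + 1)) v = D.Z ((D.ZR ^ k) v) := by
      rw [pow_succ']
      rfl
    rw [h1, ha, ih]
    ring

private lemma scalar {T : AV} {m : ℕ} (D : Cyc T m) (s : (ZMod m)ˣ) (Y : Module.End ℝ T.V)
    (hY : Y ∈ Submodule.span ℝ (Set.range fun k : ℕ => D.ZR ^ k)) :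
    ∃ c : ℂ, ∀ a ∈ Ws D s, pre Y a = c • a := by
  induction hY using Submodule.span_induction with
  | mem x hx =>
    obtain ⟨k, rfl⟩ := hx
    exact ⟨_, pre_pow D s k⟩
  | zero =>
    refine ⟨0, fun a _ => ?_⟩
    rw [zero_smul]
    refine LinearMap.ext fun v => ?_
    change a ((0 : Module.End ℝ T.V) v) = 0
    rw [LinearMap.zero_apply, map_zero]
  | add x y _ _ hx hy =>
    obtain ⟨c, hc⟩ := hx
    obtain ⟨d, hd⟩ := hy
    refine ⟨c + d, fun a ha => ?_⟩
    rw [add_smul, ← hc a ha, ← hd a ha]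
    refine LinearMap.ext fun v => ?_
    change a ((x + y) v) = a (x v) + a (y v)
    rw [LinearMap.add_apply, map_add]
  | smul r x _ hx =>
    obtain ⟨c, hc⟩ := hx
    refine ⟨(r : ℂ) * c, fun a ha => ?_⟩
    rw [mul_smul, ← hc a ha]
    refine LinearMap.ext fun v => ?_
    change a ((r • x) v) = (r : ℂ) * a (x v)
    rw [LinearMap.smul_apply, map_smul, Complex.real_smul]

private lemma comm_span {T : AV} (h : Set (Module.End ℝ T.V)) (Y : Module.End ℝ T.V)
    (hY : ∀ X ∈ h, X * Y = Y * X) (Z : Module.End ℝ T.V) (hZ : Z ∈ Submodule.span ℝ h) :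
    Z * Y = Y * Z := by
  induction hZ using Submodule.span_induction with
  | mem x hx => exact hY x hx
  | zero => rw [zero_mul, mul_zero]
  | add x y _ _ hx hy => rw [add_mul, mul_add, hx, hy]
  | smul r x _ hx => rw [smul_mul_assoc, mul_smul_comm, hx]

private lemma compl {T : AV} {m : ℕ} (D : Cyc T m) (s : (ZMod m)ˣ) (htop : ⨆ t, Ws D t = ⊤)
    (hind : iSupIndep fun t => Ws D t) (U U' : Submodule ℂ (Frm T)) (hU : U ≤ Ws D s)
    (hU' : U' ≤ Ws D s) (h1 : U ⊔ U' = Ws D s) (h2 : U ⊓ U' = ⊥) :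
    IsCompl U (U' ⊔ ⨆ (t) (_ : t ≠ s), Ws D t) := by
  constructor
  · rw [Submodule.disjoint_def]
    intro x hx hx'
    obtain ⟨u', hu', r, hr, hxr⟩ := Submodule.mem_sup.1 hx'
    have h3 : r ∈ Ws D s := by
      have h4 : r = x - u' := by rw [← hxr]; abel
      rw [h4]
      exact Submodule.sub_mem _ (hU hx) (hU' hu')
    have h5 : r = 0 := Submodule.disjoint_def.1 (hind s) r h3 hr
    rw [h5, add_zero] at hxr
    have h6 : x ∈ U ⊓ U' := ⟨hx, hxr ▸ hu'⟩
    rw [h2] at h6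
    exact (Submodule.mem_bot ℂ).1 h6
  · rw [codisjoint_iff, eq_top_iff, ← htop]
    refine iSup_le fun t => ?_
    by_cases ht : t = s
    · rw [ht, ← h1]
      exact sup_le le_sup_left (le_sup_left.trans le_sup_right)
    · exact (le_iSup₂ (f := fun (t : (ZMod m)ˣ) (_ : t ≠ s) => Ws D t) t ht).trans
        (le_sup_right.trans le_sup_right)

private lemma stab {T : AV} {m : ℕ} (D : Cyc T m) (s : (ZMod m)ˣ) (U' : Submodule ℂ (Frm T))
    (f : Module.End ℂ (Frm T)) (hU' : ∀ a ∈ U', f a ∈ U') (hW : ∀ t, ∀ a ∈ Ws D t, f a ∈ Ws D t) :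
    ∀ a ∈ U' ⊔ ⨆ (t) (_ : t ≠ s), Ws D t, f a ∈ U' ⊔ ⨆ (t) (_ : t ≠ s), Ws D t := by
  have h1 : U' ⊔ ⨆ (t) (_ : t ≠ s), Ws D t ≤ (U' ⊔ ⨆ (t) (_ : t ≠ s), Ws D t).comap f := by
    refine sup_le (fun a ha => ?_) (iSup₂_le fun t ht a ha => ?_)
    · exact Submodule.mem_sup_left (hU' a ha)
    · exact Submodule.mem_sup_right
        ((le_iSup₂ (f := fun (t : (ZMod m)ˣ) (_ : t ≠ s) => Ws D t) t ht) (hW t a ha))
  exact fun a ha => h1 ha

end Irr_aux

theorem tIrr : S_Irr := by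
  intro hBas hRed hRat T m D hm hE h hh s U hU hst
  by_contra hcon
  rw [not_or] at hcon
  obtain ⟨hU0, hUs⟩ := hcon
  obtain ⟨htop, hind, hpres, -, -⟩ := hBas T m D hm
  obtain ⟨U', hU', hst', h1, h2⟩ := hRed T m D hm h hh s U hU hst
  have hc := Irr_aux.compl D s htop hind U U' hU hU' h1 h2
  obtain ⟨n, c, Y, hA, hYr, hYc⟩ := hRat T (U.projection _ hc)
  have hXc : ∀ X ∈ h, U.projection _ hc * pre X = pre X * U.projection _ hc := fun X hX =>
    Irr_aux.commute_proj hc (pre X) (hst X hX)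
      (Irr_aux.stab D s U' (pre X) (hst' X hX) (hpres X (hh.u X hX).1))
  have hY1 : ∀ k, ∀ X ∈ h, X * Y k = Y k * X := fun k X hX =>
    hYc X (hh.rat X hX) (hXc X hX) k
  have hY2 : ∀ k, Y k ∈ Submodule.span ℝ (Set.range fun k : ℕ => D.ZR ^ k) := by
    intro k
    refine hE (Y k) (hYr k) fun v => ?_
    have h3 := Irr_aux.comm_span h (Y k) (hY1 k) (mulI T) hh.J
    have h4 := LinearMap.congr_fun h3 v
    exact h4.symm
  choose d hd using fun k => Irr_aux.scalar D s (Y k) (hY2 k)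
  have hsc : ∀ a ∈ Ws D s, U.projection _ hc a = (∑ k, c k * d k) • a := by
    intro a ha
    rw [hA, LinearMap.sum_apply, Finset.sum_smul]
    refine Finset.sum_congr rfl fun k _ => ?_
    rw [LinearMap.smul_apply, hd k a ha, mul_smul]
  have hμ1 : ∑ k, c k * d k = 1 := by
    obtain ⟨a, ha, ha0⟩ := Submodule.exists_mem_ne_zero_of_ne_bot hU0
    have h3 := hsc a (hU ha)
    rw [Submodule.projection_apply_of_mem_left hc ha] at h3
    have h4 : ((∑ k, c k * d k) - 1) • a = 0 := by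
      rw [sub_smul, one_smul, ← h3, sub_self]
    rcases smul_eq_zero.1 h4 with h5 | h5
    · exact sub_eq_zero.1 h5
    · exact absurd h5 ha0
  have hU'0 : U' ≠ ⊥ := by
    intro h3
    rw [h3, sup_bot_eq] at h1
    exact hUs h1
  obtain ⟨a, ha, ha0⟩ := Submodule.exists_mem_ne_zero_of_ne_bot hU'0
  have h3 := hsc a (hU' ha)
  rw [Submodule.projection_apply_of_mem_right hc (Submodule.mem_sup_left ha), hμ1, one_smul] at h3
  exact ha0 h3.symm

end SEB
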