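import Pool.Agent.Lib.SE.Big.Spec

/-!
# SE/Big, module J0: multiplication by `i` on an eigenspace with one holomorphic form
-/

set_option autoImplicit false

open Module

noncomputable section

namespace SEB

open HC HC.E

namespace J0_aux

variable {T : AV} {m : ℕ}

theorem mulI_apply' (v : T.V) : mulI T v = Complex.I • v := rfl

theorem pre_apply (X : Module.End ℝ T.V) (a : Frm T) (v : T.V) : pre X a v = a (X v) := rfl

theorem I_smul_smul (v : T.V) : Complex.I • Complex.I • v = -v := by
  rw [smul_smul, Complex.I_mul_I, neg_one_smul]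

/-- The projector to the part of type `(1,0)`. -/
def proj (D : Cyc T m) (s : (ZMod m)ˣ) : Ws D s →ₗ[ℂ] Ws10 D s where
  toFun a := ⟨(2⁻¹ : ℂ) • ((a : Frm T) - Complex.I • pre (mulI T) (a : Frm T)), by
    refine ⟨fun v => ?_, fun v => ?_⟩
    · have h1 := a.2 v
      have h2 := a.2 (Complex.I • v)
      rw [map_smul] at h2
      simp only [LinearMap.smul_apply, LinearMap.sub_apply, pre_apply, mulI_apply', smul_eq_mul]
      rw [h1, h2]
      ring
    · simp only [LinearMap.smul_apply, LinearMap.sub_apply, pre_apply, mulI_apply', smul_eq_mul,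
        I_smul_smul, map_neg]
      linear_combination (2⁻¹ * (a : Frm T) (Complex.I • v)) * Complex.I_sq⟩
  map_add' a b := by
    apply Subtype.ext
    simp only [Submodule.coe_add, map_add, smul_add, smul_sub]
    abel
  map_smul' c a := by
    apply Subtype.ext
    simp only [Submodule.coe_smul, map_smul, smul_sub, RingHom.id_apply]
    rw [smul_comm c (2⁻¹ : ℂ), smul_comm c (2⁻¹ : ℂ), smul_comm c Complex.I]

theorem pre_eq (D : Cyc T m) (s : (ZMod m)ˣ) (a : Ws D s) :
    pre (mulI T) (a : Frm T) =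
      -Complex.I • (a : Frm T) + (2 * Complex.I) • ((proj D s a : Ws10 D s) : Frm T) := by
  ext v
  simp only [proj, LinearMap.coe_mk, AddHom.coe_mk, LinearMap.add_apply, LinearMap.smul_apply,
    LinearMap.sub_apply, pre_apply, mulI_apply', smul_eq_mul]
  linear_combination ((a : Frm T) (Complex.I • v)) * Complex.I_sq

theorem proj_self (D : Cyc T m) (s : (ZMod m)ˣ) (a : Ws D s)
    (ha : (a : Frm T) ∈ Ws10 D s) : ((proj D s a : Ws10 D s) : Frm T) = (a : Frm T) := by
  ext v
  have h := ha.2 v
  simp only [proj, LinearMap.coe_mk, AddHom.coe_mk, LinearMap.smul_apply,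
    LinearMap.sub_apply, pre_apply, mulI_apply', smul_eq_mul]
  rw [h]
  linear_combination (-(2⁻¹ * (a : Frm T) v)) * Complex.I_sq

end J0_aux

open J0_aux

theorem tJ0 : S_J0 := by
  intro T m D hm s hs
  have hs' : finrank ℂ (Ws10 D s) = 1 := hs
  have : Module.Finite ℂ (Ws10 D s) := Module.finite_of_finrank_pos (by rw [hs']; norm_num)
  let e : Ws10 D s ≃ₗ[ℂ] ℂ :=
    LinearEquiv.ofFinrankEq (Ws10 D s) ℂ (by rw [hs', Module.finrank_self])
  let w : Ws10 D s := e.symm 1
  have hw : ∀ x : Ws10 D s, x = e x • w := by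
    intro x
    have h1 : e x • w = e.symm (e x • (1 : ℂ)) := by rw [map_smul]
    rw [h1, smul_eq_mul, mul_one, LinearEquiv.symm_apply_apply]
  refine ⟨e.toLinearMap ∘ₗ proj D s, ⟨(w : Frm T), w.2.1⟩, ?_, fun a => ?_⟩
  · have h2 : proj D s ⟨(w : Frm T), w.2.1⟩ = w := by
      apply Subtype.ext
      exact proj_self D s ⟨(w : Frm T), w.2.1⟩ w.2
    rw [LinearMap.comp_apply, h2]
    exact e.apply_symm_apply 1
  · rw [pre_eq D s a]
    have h3 := congrArg (fun x : Ws10 D s => (x : Frm T)) (hw (proj D s a))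
    simp only [Submodule.coe_smul] at h3
    rw [h3]
    simp only [LinearMap.comp_apply, LinearEquiv.coe_coe, smul_smul]

end SEB
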