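import Pool.Agent.Lib.SE.Big.Spec

/-!
# PROJECT SE, IsBig, L1: a rank one criterion for an irreducible Lie algebra of operators
-/

set_option autoImplicit false

open Module

noncomputable section

namespace SEB

open HC HC.E

namespace L1_aux

variable {W : Type} [AddCommGroup W] [Module ℂ W]

/-- commutators of `g` -/
def S (g : Submodule ℂ (Module.End ℂ W)) : Submodule ℂ (Module.End ℂ W) :=
  Submodule.span ℂ {Y | ∃ A ∈ g, ∃ B ∈ g, Y = A * B - B * A}

/-- `g` and the scalars -/
def G (g : Submodule ℂ (Module.End ℂ W)) : Submodule ℂ (Module.End ℂ W) :=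
  g ⊔ Submodule.span ℂ {(1 : Module.End ℂ W)}

theorem mem_G {g : Submodule ℂ (Module.End ℂ W)} {X : Module.End ℂ W} :
    X ∈ G g ↔ ∃ A ∈ g, ∃ x : ℂ, X = A + x • 1 := by
  unfold G
  rw [Submodule.mem_sup]
  constructor
  · rintro ⟨A, hA, Z, hZ, rfl⟩
    obtain ⟨x, rfl⟩ := Submodule.mem_span_singleton.1 hZ
    exact ⟨A, hA, x, rfl⟩
  · rintro ⟨A, hA, x, rfl⟩
    exact ⟨A, hA, _, Submodule.mem_span_singleton.2 ⟨x, rfl⟩, rfl⟩

theorem com_eq (A B : Module.End ℂ W) (x y : ℂ) :
    (A + x • 1) * (B + y • 1) - (B + y • 1) * (A + x • 1) = A * B - B * A := by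
  simp only [mul_add, add_mul, mul_smul_comm, smul_mul_assoc, mul_one, one_mul, smul_add]
  rw [smul_comm x y]
  abel

theorem com_S {g : Submodule ℂ (Module.End ℂ W)} {X Y : Module.End ℂ W} (hX : X ∈ G g)
    (hY : Y ∈ G g) : X * Y - Y * X ∈ S g := by
  obtain ⟨A, hA, x, rfl⟩ := mem_G.1 hX
  obtain ⟨B, hB, y, rfl⟩ := mem_G.1 hY
  rw [com_eq]
  exact Submodule.subset_span ⟨A, hA, B, hB, rfl⟩

variable {g : Submodule ℂ (Module.End ℂ W)} (hg : ∀ X ∈ g, ∀ Y ∈ g, X * Y - Y * X ∈ g)

include hg in
theorem com_G {X Y : Module.End ℂ W} (hX : X ∈ G g) (hY : Y ∈ G g) : X * Y - Y * X ∈ G g := by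
  obtain ⟨A, hA, x, rfl⟩ := mem_G.1 hX
  obtain ⟨B, hB, y, rfl⟩ := mem_G.1 hY
  rw [com_eq]
  exact mem_G.2 ⟨_, hg A hA B hB, 0, by rw [zero_smul, add_zero]⟩

variable {φ : Module.Dual ℂ W} {v : W} (hv : φ v = 1) (he : φ.smulRight v ∈ G g)

include hg hv he in
/-- the component `(1 - e) X e` -/
theorem comp {X : Module.End ℂ W} (hX : X ∈ G g) :
    φ.smulRight (X v - φ (X v) • v) ∈ G g := by
  set e : Module.End ℂ W := φ.smulRight v with hedef
  have h1 := com_G hg he hX
  have h2 := com_G hg he h1
  have h3 : φ.smulRight (X v - φ (X v) • v) =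
      (2 : ℂ)⁻¹ • ((e * (e * X - X * e) - (e * X - X * e) * e) - (e * X - X * e)) := by
    ext w
    simp only [hedef, LinearMap.smulRight_apply, LinearMap.smul_apply, LinearMap.sub_apply,
      Module.End.mul_apply, map_sub, map_smul, smul_sub, hv, mul_one, smul_smul]
    module
  rw [h3]
  exact Submodule.smul_mem _ _ (Submodule.sub_mem _ h2 h1)

include hg hv he in
/-- `φ ⊗ a` -/
theorem stepA (hirr : ∀ U : Submodule ℂ W, (∀ X ∈ g, ∀ u ∈ U, X u ∈ U) → U = ⊥ ∨ U = ⊤) (a : W) :
    φ.smulRight a ∈ G g := by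
  let U : Submodule ℂ W :=
    { carrier := {u | φ.smulRight u ∈ G g}
      add_mem' := fun {x y} hx hy => by
        have : φ.smulRight (x + y) = φ.smulRight x + φ.smulRight y := by
          ext w; simp
        show φ.smulRight (x + y) ∈ G g
        rw [this]
        exact add_mem hx hy
      zero_mem' := by
        have : φ.smulRight (0 : W) = (0 : Module.End ℂ W) := by
          ext w; simp
        show φ.smulRight (0 : W) ∈ G g
        rw [this]
        exact zero_mem _
      smul_mem' := fun x y hy => by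
        have : φ.smulRight (x • y) = x • (φ.smulRight y) := by
          ext w
          rw [LinearMap.smulRight_apply, LinearMap.smul_apply, LinearMap.smulRight_apply, smul_comm]
        show φ.smulRight (x • y) ∈ G g
        rw [this]
        exact Submodule.smul_mem _ _ hy }
  have hU : ∀ u, u ∈ U ↔ φ.smulRight u ∈ G g := fun _ => Iff.rfl
  have hvU : v ∈ U := he
  have hst : ∀ X ∈ g, ∀ u ∈ U, X u ∈ U := by
    intro X hX u hu
    have hXG : X ∈ G g := mem_G.2 ⟨X, hX, 0, by rw [zero_smul, add_zero]⟩
    have h1 : X v ∈ U := by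
      have h2 := comp hg hv he hXG
      have h3 : X v = (X v - φ (X v) • v) + φ (X v) • v := by abel
      rw [h3]
      exact add_mem h2 (Submodule.smul_mem _ _ hvU)
    have h4 := com_G hg hXG hu
    have h5 := comp hg hv he h4
    have h6 : (X * φ.smulRight u - φ.smulRight u * X) v = X u - φ (X v) • u := by
      simp [hv]
    rw [h6] at h5
    have h7 : X u = (X u - φ (X v) • u - φ (X u - φ (X v) • u) • v) +
        (φ (X v) • u + φ (X u - φ (X v) • u) • v) := by abel
    rw [h7]
    exact add_mem h5 (add_mem (Submodule.smul_mem _ _ hu) (Submodule.smul_mem _ _ hvU))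
  have hv0 : v ≠ 0 := by
    rintro rfl
    rw [map_zero] at hv
    exact zero_ne_one hv
  rcases hirr U hst with h | h
  · rw [h] at hvU
    exact absurd ((Submodule.mem_bot ℂ).1 hvU) hv0
  · have : a ∈ U := by rw [h]; exact Submodule.mem_top
    exact this

include hg hv he in
/-- `β ⊗ a` -/
theorem stepB [FiniteDimensional ℂ W]
    (hirr : ∀ U : Submodule ℂ W, (∀ X ∈ g, ∀ u ∈ U, X u ∈ U) → U = ⊥ ∨ U = ⊤)
    (β : Module.Dual ℂ W) (a : W) : β.smulRight a ∈ G g := by
  let D : Submodule ℂ (Module.Dual ℂ W) :=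
    { carrier := {β | ∀ a : W, β.smulRight a ∈ G g}
      add_mem' := fun {x y} hx hy a => by
        have : (x + y).smulRight a = x.smulRight a + y.smulRight a := by
          ext w; simp [add_smul]
        rw [this]
        exact add_mem (hx a) (hy a)
      zero_mem' := fun a => by
        have : (0 : Module.Dual ℂ W).smulRight a = (0 : Module.End ℂ W) := by
          ext w; simp
        rw [this]
        exact zero_mem _
      smul_mem' := fun x y hy a => by
        have : (x • y).smulRight a = x • (y.smulRight a) := by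
          ext w; simp [mul_smul]
        rw [this]
        exact Submodule.smul_mem _ _ (hy a) }
  have hφD : φ ∈ D := fun a => stepA hg hv he hirr a
  have hst : ∀ X ∈ g, ∀ β ∈ D, β ∘ₗ X ∈ D := by
    intro X hX β hβ a
    have hXG : X ∈ G g := mem_G.2 ⟨X, hX, 0, by rw [zero_smul, add_zero]⟩
    have h1 := com_G hg (hβ a) hXG
    have h2 := hβ (X a)
    have h3 : (β ∘ₗ X).smulRight a = (β.smulRight a * X - X * β.smulRight a) + β.smulRight (X a) := by
      ext w; simp
    rw [h3]
    exact add_mem h1 h2
  have hK : D.dualCoannihilator = ⊥ := by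
    rcases hirr D.dualCoannihilator (by
      intro X hX u hu
      rw [Submodule.mem_dualCoannihilator] at hu ⊢
      intro β hβ
      exact hu _ (hst X hX β hβ)) with h | h
    · exact h
    · have hv' : v ∈ D.dualCoannihilator := by rw [h]; exact Submodule.mem_top
      rw [Submodule.mem_dualCoannihilator] at hv'
      have := hv' φ hφD
      rw [hv] at this
      exact absurd this one_ne_zero
  have hD : D = ⊤ := by
    rw [← Subspace.dualCoannihilator_dualAnnihilator_eq (W := D), hK,
      Submodule.dualAnnihilator_bot]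
  have : β ∈ D := by rw [hD]; exact Submodule.mem_top
  exact this a

end L1_aux

open L1_aux in
theorem tL1 : S_L1 := by
  intro W _ _ _ g c c' φ v hg hc' hv hcg hirr X hX
  have he : φ.smulRight v ∈ G g := by
    refine mem_G.2 ⟨c'⁻¹ • (c • (1 : Module.End ℂ W) + c' • (φ.smulRight v)),
      Submodule.smul_mem _ _ hcg, -(c'⁻¹ * c), ?_⟩
    rw [smul_add, smul_smul, smul_smul, inv_mul_cancel₀ hc', one_smul, neg_smul]
    abel
  -- modulo commutators every operator is a multiple of `e`
  have key : ∀ (β : Module.Dual ℂ W) (b : W), β.smulRight b - β b • φ.smulRight v ∈ S g := by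
    intro β b
    have h1 := com_S (stepB hg hv he hirr φ b) (stepB hg hv he hirr β v)
    have h2 : φ.smulRight b * β.smulRight v - β.smulRight v * φ.smulRight b =
        β.smulRight b - β b • φ.smulRight v := by
      ext w
      simp only [LinearMap.sub_apply, Module.End.mul_apply, LinearMap.smulRight_apply,
        LinearMap.smul_apply, map_smul, smul_smul]
      rw [mul_comm (β b) (φ w), hv, mul_one]
    rw [h2] at h1
    exact h1
  let B := Module.finBasis ℂ W
  have hdec : X = ∑ i, (B.coord i).smulRight (X (B i)) := by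
    ext w
    rw [LinearMap.sum_apply]
    conv_lhs => rw [← B.sum_repr w]
    rw [map_sum]
    refine Finset.sum_congr rfl fun i _ => ?_
    rw [map_smul, LinearMap.smulRight_apply, Basis.coord_apply]
  have htr : ∑ i, (B.coord i) (X (B i)) = 0 := by
    rw [← hX]
    conv_rhs => rw [hdec]
    rw [map_sum]
    exact Finset.sum_congr rfl fun i _ => (LinearMap.trace_smulRight _ _).symm
  have h3 : X = ∑ i, ((B.coord i).smulRight (X (B i)) -
      (B.coord i) (X (B i)) • φ.smulRight v) := by
    rw [Finset.sum_sub_distrib, ← Finset.sum_smul, htr, zero_smul, sub_zero]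
    exact hdec
  rw [h3]
  exact Submodule.sum_mem _ fun i _ => key _ _

end SEB
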