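import Pool.Agent.Lib.SE.Big.VG

/-!
# SE Big Loop: the periods
-/

set_option autoImplicit false

open Module MeasureTheory Topology

noncomputable section

namespace SEB

open HC HC.E HC.SE

namespace Loop_aux

theorem rp_pow {m : ℕ} (hm : m ≠ 0) (z : ℂ) : rp m z ^ m = z := by
  unfold rp
  exact Complex.cpow_nat_inv_pow z hm

theorem rn_pow {m : ℕ} (hm : m ≠ 0) (z : ℂ) : rn m z ^ m = z := by
  unfold rn
  rw [mul_pow, Complex.cpow_nat_inv_pow _ hm, ← Complex.exp_nat_mul]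
  have h : (m : ℂ) * (Real.pi * Complex.I / m) = Real.pi * Complex.I := by
    have : (m : ℂ) ≠ 0 := by exact_mod_cast hm
    field_simp
  rw [h, Complex.exp_pi_mul_I]
  ring

theorem root_ne {m : ℕ} (hm : m ≠ 0) {ρ z : ℂ} (h : ρ ^ m = z) (hz : z ≠ 0) : ρ ≠ 0 := by
  rintro rfl
  rw [zero_pow hm] at h
  exact hz h.symm

/-- The algebra of the exponents. -/
theorem expo {m u c : ℕ} (hm : 0 < m) {ρ z : ℂ} (h : ρ ^ m = z) (hz : z ≠ 0) :
    (ρ ^ c) ^ u / z ^ (1 + u * c / m) = (ρ ^ (m - (u * c) % m))⁻¹ := by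
  have hρ : ρ ≠ 0 := root_ne hm.ne' h hz
  have h1 : (u * c) % m < m := Nat.mod_lt _ hm
  have h2 : m * (u * c / m) + (u * c) % m = u * c := Nat.div_add_mod _ _
  have h3 : c * u + (m - (u * c) % m) = m * (1 + u * c / m) := by
    have h4 : m * (1 + u * c / m) = m + m * (u * c / m) := by ring
    rw [h4, mul_comm c u]
    omega
  rw [← h, ← pow_mul, ← pow_mul, ← h3, pow_add, div_eq_iff (mul_ne_zero (pow_ne_zero _ hρ)
    (pow_ne_zero _ hρ))]
  rw [mul_comm (ρ ^ (c * u)), ← mul_assoc, inv_mul_cancel₀ (pow_ne_zero _ hρ), one_mul]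

theorem yk_expo {m r : ℕ} (hm : 0 < m) (s : Fin (r + 1) → ℝ) (b : Fin (r + 1) → ℕ) (u j : ℕ)
    {x : ℂ} (hx : ∀ i, x ≠ (s i : ℂ)) :
    yk m s b j x ^ u / ∏ i, (x - (s i : ℂ)) ^ (1 + u * b i / m) =
      (yk m s (fun i => m - (u * b i) % m) j x)⁻¹ := by
  unfold yk
  rw [← Finset.prod_pow, ← Finset.prod_div_distrib, ← Finset.prod_inv_distrib]
  refine Finset.prod_congr rfl fun i _ => ?_
  refine expo hm ?_ (sub_ne_zero.2 (hx i))
  split_ifs
  · exact rp_pow hm.ne' _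
  · exact rn_pow hm.ne' _

theorem yk_curve {m r : ℕ} (hm : 0 < m) (s : Fin (r + 1) → ℝ) (b : Fin (r + 1) → ℕ) (j : ℕ)
    (x : ℂ) : yk m s b j x ^ m = ∏ i, (x - (s i : ℂ)) ^ b i := by
  unfold yk
  rw [← Finset.prod_pow]
  refine Finset.prod_congr rfl fun i _ => ?_
  rw [← pow_mul, mul_comm, pow_mul]
  congr 1
  split_ifs
  · exact rp_pow hm.ne' _
  · exact rn_pow hm.ne' _

theorem exists_gap {r : ℕ} {s : Fin (r + 1) → ℝ} (hs : StrictMono s) (k : ℕ) :
    ∃ c, k ≤ r + 1 → c ∈ Gp s k := by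
  rcases Nat.eq_zero_or_pos k with hk | hk
  · subst hk
    refine ⟨s 0 - 1, fun _ => ⟨fun j hj => absurd hj (Nat.not_lt_zero _), fun j _ => ?_⟩⟩
    have : s 0 ≤ s j := hs.monotone (Fin.zero_le j)
    linarith
  · by_cases h : k ≤ r
    · refine ⟨(s ⟨k - 1, by omega⟩ + s ⟨k, by omega⟩) / 2, fun _ => ?_⟩
      have h0 : s ⟨k - 1, by omega⟩ < s ⟨k, by omega⟩ := hs (by
        rw [Fin.lt_def]
        simp only
        omega)
      refine ⟨fun j hj => ?_, fun j hj => ?_⟩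
      · have : s j ≤ s ⟨k - 1, by omega⟩ := hs.monotone (by
          rw [Fin.le_def]
          simp only
          omega)
        linarith
      · have : s ⟨k, by omega⟩ ≤ s j := hs.monotone (by
          rw [Fin.le_def]
          simp only
          omega)
        linarith
    · refine ⟨s (Fin.last r) + 1, fun hk2 => ⟨fun j _ => ?_, fun j hj => ?_⟩⟩
      · have : s j ≤ s (Fin.last r) := hs.monotone (Fin.le_last j)
        linarith
      · have := j.2
        omega

theorem gap_ne {r : ℕ} {s : Fin (r + 1) → ℝ} {k : ℕ} {c : ℝ} (hc : c ∈ Gp s k)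
    (j : Fin (r + 1)) : c ≠ s j := by
  rcases lt_or_ge j.val k with h | h
  · exact (hc.1 j h).ne'
  · exact (hc.2 j h).ne

theorem im_ne {r : ℕ} (s : Fin (r + 1) → ℝ) {x : ℂ} (h : x.im ≠ 0) (j : Fin (r + 1)) :
    x ≠ (s j : ℂ) := by
  intro h1
  rw [h1, Complex.ofReal_im] at h
  exact h rfl

theorem pth_congr {F G : ℂ → ℂ} {x₀ h c : ℝ} (h1 : ∀ t : ℝ, F (t + h * Complex.I) =
    G (t + h * Complex.I)) (h2 : ∀ t : ℝ, F (c + t * Complex.I) = G (c + t * Complex.I))
    (h3 : ∀ t : ℝ, F (t - h * Complex.I) = G (t - h * Complex.I)) :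
    Pth F x₀ h c = Pth G x₀ h c := by
  unfold Pth
  simp_rw [h1, h2, h3]

theorem zeta_ne {m n : ℕ} (hn : 1 ≤ n) (hnm : n < m) :
    (Complex.exp (2 * Real.pi * Complex.I / m) ^ n)⁻¹ ≠ 1 := by
  intro h
  rw [inv_eq_one] at h
  have hp := Complex.isPrimitiveRoot_exp m (by omega)
  have h2 := hp.dvd_of_pow_eq_one n h
  exact absurd (Nat.le_of_dvd hn h2) (by omega)

theorem alg_exp {m : ℕ} (hm : 0 < m) :
    IsAlgebraic ℚ (Complex.exp (Real.pi * Complex.I / m)) := by
  refine IsAlgebraic.of_pow (n := 2 * m) (by omega) ?_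
  rw [← Complex.exp_nat_mul]
  have h : ((2 * m : ℕ) : ℂ) * (Real.pi * Complex.I / m) = 2 * Real.pi * Complex.I := by
    have : (m : ℂ) ≠ 0 := by exact_mod_cast hm.ne'
    push_cast
    field_simp
  rw [h, Complex.exp_two_pi_mul_I]
  exact isAlgebraic_one

theorem alg_exp2 {m : ℕ} (hm : 0 < m) :
    IsAlgebraic ℚ (Complex.exp (2 * Real.pi * Complex.I / m)) := by
  refine IsAlgebraic.of_pow (n := m) hm ?_
  rw [← Complex.exp_nat_mul]
  have h : (m : ℂ) * (2 * Real.pi * Complex.I / m) = 2 * Real.pi * Complex.I := by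
    have : (m : ℂ) ≠ 0 := by exact_mod_cast hm.ne'
    field_simp
  rw [h, Complex.exp_two_pi_mul_I]
  exact isAlgebraic_one

theorem xi_pow {m u c : ℕ} (hm : 0 < m) :
    (Complex.exp (2 * Real.pi * Complex.I / m) ^ u) ^ c =
      (Complex.exp (2 * Real.pi * Complex.I / m) ^ (m - (u * c) % m))⁻¹ := by
  set z := Complex.exp (2 * Real.pi * Complex.I / m) with hz
  have hzm : z ^ m = 1 := (Complex.isPrimitiveRoot_exp m hm.ne').pow_eq_one
  have hz0 : z ≠ 0 := Complex.exp_ne_zero _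
  rw [← pow_mul]
  refine eq_inv_of_mul_eq_one_left ?_
  rw [← pow_add]
  have h1 : (u * c) % m < m := Nat.mod_lt _ hm
  have h2 : m * (u * c / m) + (u * c) % m = u * c := Nat.div_add_mod _ _
  have h3 : u * c + (m - (u * c) % m) = m * (u * c / m + 1) := by
    have h4 : m * (u * c / m + 1) = m * (u * c / m) + m := by ring
    rw [h4]
    omega
  rw [h3, pow_mul, hzm, one_pow]

end Loop_aux

open Loop_aux

theorem tLoop : S_Loop := by
  intro hBr hLat hCa hCb T m r s b hs hcov N u hu hum B hB hBω k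
  have hm3 : 3 ≤ m := hcov.1
  have hm : 0 < m := by omega
  choose c hc using exists_gap hs
  set n : Fin (r + 1) → ℕ := fun i => m - (u * b i) % m with hn
  have hn1 : ∀ j, 1 ≤ n j ∧ n j < m := by
    intro j
    have h1 : (u * b j) % m < m := Nat.mod_lt _ hm
    have h2 : (u * b j) % m ≠ 0 := by
      intro h0
      exact hcov.2.2.1 j ((Nat.Coprime.symm hum).dvd_of_dvd_mul_left (Nat.dvd_of_mod_eq_zero h0))
    simp only [hn]
    omega
  obtain ⟨v, hv, hBv⟩ := hLat T m r s b N (by omega) hs 0 1 c one_pos hc k.castSucc k.succ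
  have hBv' := hBv B (Complex.exp (2 * Real.pi * Complex.I / m) ^ u) hB
  have hβ : ∀ j ≤ r + 1, Pth (fun x => B (N.γ.ω x (yk m s b j x))) 0 1 (c j) =
      Pth (fun x => (yk m s n j x)⁻¹) 0 1 (c j) := by
    intro j hj
    have key : ∀ x : ℂ, (∀ i, x ≠ (s i : ℂ)) →
        B (N.γ.ω x (yk m s b j x)) = (yk m s n j x)⁻¹ := by
      intro x hx
      have hxS : x ∉ N.γ.S := by
        rw [N.S]
        rintro ⟨i, hi⟩
        exact hx i hi.symm
      have hP : N.γ.P (x, yk m s b j x) = 0 := by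
        rw [N.P, yk_curve hm, sub_self]
      rw [hBω x hxS _ hP]
      exact yk_expo hm s b u j hx
    refine pth_congr (fun t => key _ (im_ne s ?_)) (fun t => key _ fun i => ?_)
      (fun t => key _ (im_ne s ?_))
    · simp
    · intro h1
      have h2 := congrArg Complex.re h1
      simp at h2
      exact gap_ne (hc j hj) i h2
    · simp
  have e1 := hβ (k.castSucc : Fin (r + 1)).val (by omega)
  have e2 := hβ ((k.castSucc : Fin (r + 1)).val + 1) (by omega)
  have e3 := hβ (k.succ : Fin (r + 1)).val (by omega)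
  have e4 := hβ ((k.succ : Fin (r + 1)).val + 1) (by omega)
  have a1 := hCa m r s n (by omega) hs hn1 0 1 c one_pos hc k.castSucc
  have a2 := hCa m r s n (by omega) hs hn1 0 1 c one_pos hc k.succ
  have a3 := hCb m r s n (by omega) hs hn1 0 1 one_pos k
  simp only at hBv' a1 a2
  rw [e1, e2, e3, e4, xi_pow hm, xi_pow hm] at hBv'
  refine ⟨v, hv, (1 - (Complex.exp (2 * Real.pi * Complex.I / m) ^ n k.castSucc)⁻¹) *
    (1 - (Complex.exp (2 * Real.pi * Complex.I / m) ^ n k.succ)⁻¹) *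
    (Complex.exp (Real.pi * Complex.I / m) ^
      (∑ j ∈ Finset.univ.filter (fun j : Fin (r + 1) => k.val + 1 ≤ j.val), n j))⁻¹, ?_, ?_, ?_⟩
  · refine mul_ne_zero (mul_ne_zero ?_ ?_) (inv_ne_zero (pow_ne_zero _ (Complex.exp_ne_zero _)))
    · exact sub_ne_zero.2 (zeta_ne (hn1 _).1 (hn1 _).2).symm
    · exact sub_ne_zero.2 (zeta_ne (hn1 _).1 (hn1 _).2).symm
  · refine ((isAlgebraic_one.sub ((alg_exp2 hm).pow _).inv).mul
      (isAlgebraic_one.sub ((alg_exp2 hm).pow _).inv)).mul ((alg_exp hm).pow _).inv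
  · have hk1 : m - u * b k.castSucc % m = n k.castSucc := rfl
    have hk2 : m - u * b k.succ % m = n k.succ := rfl
    rw [hk1, hk2] at hBv'
    have hI : Ik (fun j => ((m - (u * b j) % m : ℕ) : ℝ) / m) s k =
        Ik (fun j => (n j : ℝ) / m) s k := rfl
    rw [hI]
    linear_combination hBv' + ((Complex.exp (2 * Real.pi * Complex.I / m) ^ n k.succ)⁻¹ - 1) * a1 -
      ((Complex.exp (2 * Real.pi * Complex.I / m) ^ n k.castSucc)⁻¹ - 1) * a2 +
      (1 - (Complex.exp (2 * Real.pi * Complex.I / m) ^ n k.castSucc)⁻¹) *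
      (1 - (Complex.exp (2 * Real.pi * Complex.I / m) ^ n k.succ)⁻¹) * a3

end SEB
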