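import Pool.Agent.Lib.SE.Big.Spec

/-! # PROJECT SE, module IsBig: `sl(W)` is perfect -/

set_option autoImplicit false

open Module

noncomputable section

namespace SEB

open HC HC.E

namespace Perf_aux

/-- the span of the commutators of traceless matrices -/
def CM (n : ℕ) : Submodule ℂ (Matrix (Fin n) (Fin n) ℂ) :=
  Submodule.span ℂ {Y | ∃ A B : Matrix (Fin n) (Fin n) ℂ, A.trace = 0 ∧ B.trace = 0 ∧
    Y = A * B - B * A}

theorem offdiag {n : ℕ} {i j : Fin n} (h : i ≠ j) (c : ℂ) : Matrix.single i j c ∈ CM n := by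
  have h1 : (2 * Matrix.single i j c : Matrix (Fin n) (Fin n) ℂ) ∈ CM n := by
    refine Submodule.subset_span ⟨Matrix.single i i 1 - Matrix.single j j 1, Matrix.single i j c,
      ?_, ?_, ?_⟩
    · rw [Matrix.trace_sub, Matrix.trace_single_eq_same, Matrix.trace_single_eq_same, sub_self]
    · exact Matrix.trace_single_eq_of_ne i j c h
    · rw [sub_mul, mul_sub, Matrix.single_mul_single_same, Matrix.single_mul_single_of_ne _ _ _ _ h.symm,
        Matrix.single_mul_single_of_ne _ _ _ _ h.symm, Matrix.single_mul_single_same, one_mul, mul_one]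
      noncomm_ring
  have h2 := (CM n).smul_mem (2 : ℂ)⁻¹ h1
  have h3 : (2 : ℂ)⁻¹ • (2 * Matrix.single i j c : Matrix (Fin n) (Fin n) ℂ) = Matrix.single i j c := by
    rw [two_mul, ← two_smul ℂ, smul_smul, inv_mul_cancel₀ two_ne_zero, one_smul]
  rwa [h3] at h2

theorem diag {n : ℕ} (i j : Fin n) (c : ℂ) :
    Matrix.single i i c - Matrix.single j j c ∈ CM n := by
  by_cases h : i = j
  · rw [h, sub_self]
    exact zero_mem _
  · refine Submodule.subset_span ⟨Matrix.single i j c, Matrix.single j i 1, ?_, ?_, ?_⟩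
    · exact Matrix.trace_single_eq_of_ne i j c h
    · exact Matrix.trace_single_eq_of_ne j i 1 (Ne.symm h)
    · rw [Matrix.single_mul_single_same, Matrix.single_mul_single_same, one_mul, mul_one]

theorem mat {n : ℕ} (M : Matrix (Fin n) (Fin n) ℂ) (h : M.trace = 0) : M ∈ CM n := by
  rcases Nat.eq_zero_or_pos n with h0 | h0
  · subst h0
    have : M = 0 := Subsingleton.elim _ _
    rw [this]
    exact zero_mem _
  let o : Fin n := ⟨0, h0⟩
  have h1 : M = ∑ i, ((∑ j, if i = j then 0 else Matrix.single i j (M i j)) +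
      (Matrix.single i i (M i i) - Matrix.single o o (M i i))) := by
    rw [Finset.sum_add_distrib, Finset.sum_sub_distrib]
    have h2 : ∑ i, Matrix.single o o (M i i) = (0 : Matrix (Fin n) (Fin n) ℂ) := by
      have h3 : ∑ i, M i i = 0 := h
      ext a b
      rw [Matrix.sum_apply]
      simp only [Matrix.single_apply]
      by_cases hab : o = a ∧ o = b
      · simp only [if_pos hab, h3, Matrix.zero_apply]
      · simp only [if_neg hab, Finset.sum_const_zero, Matrix.zero_apply]
    rw [h2, sub_zero, ← Finset.sum_add_distrib]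
    conv_lhs => rw [Matrix.matrix_eq_sum_single M]
    refine Finset.sum_congr rfl fun i _ => ?_
    have h4 : ∀ j, Matrix.single i j (M i j) = (if i = j then 0 else Matrix.single i j (M i j)) +
        (if i = j then Matrix.single i i (M i i) else (0 : Matrix (Fin n) (Fin n) ℂ)) := by
      intro j
      by_cases hij : i = j
      · rw [if_pos hij, if_pos hij, ← hij, zero_add]
      · rw [if_neg hij, if_neg hij, add_zero]
    rw [Finset.sum_congr rfl fun j _ => h4 j, Finset.sum_add_distrib]
    congr 1
    rw [Finset.sum_ite_eq, if_pos (Finset.mem_univ i)]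
  rw [h1]
  refine Submodule.sum_mem _ fun i _ => Submodule.add_mem _ (Submodule.sum_mem _ fun j _ => ?_)
    (diag i o _)
  by_cases hij : i = j
  · rw [if_pos hij]
    exact zero_mem _
  · rw [if_neg hij]
    exact offdiag hij _

end Perf_aux

open Perf_aux

theorem tPerf : S_Perf := by
  intro W _ _ _ X hX
  let b := Module.finBasis ℂ W
  have h1 : (LinearMap.toMatrix b b X).trace = 0 := by
    rw [← LinearMap.trace_eq_matrix_trace ℂ b X]
    exact hX
  have h2 := mat _ h1
  have h3 : ∀ M ∈ CM (finrank ℂ W), Matrix.toLin b b M ∈ Submodule.span ℂ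
      {Y | ∃ A B : Module.End ℂ W, LinearMap.trace ℂ W A = 0 ∧ LinearMap.trace ℂ W B = 0 ∧
        Y = A * B - B * A} := by
    intro M hM
    refine Submodule.span_induction ?_ ?_ ?_ ?_ hM
    · rintro _ ⟨A, B, hA, hB, rfl⟩
      refine Submodule.subset_span ⟨Matrix.toLin b b A, Matrix.toLin b b B, ?_, ?_, ?_⟩
      · rw [LinearMap.trace_eq_matrix_trace ℂ b, LinearMap.toMatrix_toLin]
        exact hA
      · rw [LinearMap.trace_eq_matrix_trace ℂ b, LinearMap.toMatrix_toLin]
        exact hB
      · rw [map_sub, Matrix.toLin_mul b b b, Matrix.toLin_mul b b b]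
        rfl
    · rw [map_zero]
      exact zero_mem _
    · intro x y _ _ hx hy
      rw [map_add]
      exact Submodule.add_mem _ hx hy
    · intro c x _ hx
      rw [map_smul]
      exact Submodule.smul_mem _ c hx
  have h4 := h3 _ h2
  rwa [Matrix.toLin_toMatrix] at h4

end SEB
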