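import Pool.Agent.Lib.SE.Big.Spec

/-!
# PROJECT SE, module IsBig, Pj: the projectors to the eigenspaces
-/

set_option autoImplicit false

open Module

noncomputable section

namespace SEB

open HC HC.E

variable {T : AV} {m : ℕ}

private lemma zet_pow_one (hm : m ≠ 0) (t : (ZMod m)ˣ) : zet m t ^ m = 1 := by
  unfold zet
  rw [← pow_mul, Nat.mul_comm, pow_mul, (Complex.isPrimitiveRoot_exp m hm).pow_eq_one, one_pow]

private lemma zet_inj (hm : m ≠ 0) (s t : (ZMod m)ˣ) (h : zet m s = zet m t) : s = t := by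
  haveI : NeZero m := ⟨hm⟩
  have h1 := (Complex.isPrimitiveRoot_exp m hm).pow_inj (ZMod.val_lt (s : ZMod m))
    (ZMod.val_lt (t : ZMod m)) h
  exact Units.ext (ZMod.val_injective m h1)

private lemma Z_pow (D : Cyc T m) : D.Z ^ m = 1 := by
  obtain ⟨q, hq⟩ := Polynomial.cyclotomic.dvd_X_pow_sub_one m ℤ
  have h := congrArg (Polynomial.aeval D.Z) hq
  rw [map_mul, D.cyc, zero_mul, map_sub, map_pow, Polynomial.aeval_X, map_one] at h
  exact sub_eq_zero.mp h

private lemma pre_pow_apply (X : Module.End ℝ T.V) (k : ℕ) (a : Frm T) (v : T.V) :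
    ((pre X) ^ k) a v = a ((X ^ k) v) := by
  induction k generalizing a v with
  | zero => simp
  | succ k ih =>
    rw [pow_succ, pow_succ', Module.End.mul_apply, Module.End.mul_apply, ih]
    rfl

private lemma ZR_pow_apply (D : Cyc T m) (k : ℕ) (v : T.V) : (D.ZR ^ k) v = (D.Z ^ k) v := by
  induction k generalizing v with
  | zero => simp
  | succ k ih =>
    rw [pow_succ, pow_succ, Module.End.mul_apply, Module.End.mul_apply, ih]
    rfl

private lemma pre_pow_m (D : Cyc T m) : (pre D.ZR) ^ m = 1 := by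
  ext a v
  rw [pre_pow_apply, ZR_pow_apply, Z_pow]
  simp

private lemma mem_iff (D : Cyc T m) (t : (ZMod m)ˣ) (a : Frm T) :
    a ∈ Ws D t ↔ pre D.ZR a = zet m t • a := by
  constructor
  · intro h
    ext v
    exact h v
  · intro h v
    exact LinearMap.congr_fun h v

private lemma pow_eig (D : Cyc T m) (t : (ZMod m)ˣ) (a : Frm T) (h : a ∈ Ws D t) (k : ℕ) :
    ((pre D.ZR) ^ k) a = (zet m t) ^ k • a := by
  rw [mem_iff] at h
  induction k with
  | zero => simp
  | succ k ih =>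
    rw [pow_succ', Module.End.mul_apply, ih, map_smul, h, smul_smul, pow_succ]

private lemma pj_apply (D : Cyc T m) (t : (ZMod m)ˣ) (a : Frm T) :
    pj D t a = (m : ℂ)⁻¹ • ∑ k ∈ Finset.range m, ((zet m t)⁻¹ ^ k) • ((pre D.ZR) ^ k) a := by
  unfold pj
  rw [LinearMap.smul_apply, LinearMap.sum_apply]
  rfl

private lemma zet_ne (hm : m ≠ 0) (t : (ZMod m)ˣ) : zet m t ≠ 0 := by
  intro h
  have h1 := zet_pow_one hm t
  rw [h, zero_pow hm] at h1
  exact zero_ne_one h1

private lemma pj_mem (hm : m ≠ 0) (D : Cyc T m) (t : (ZMod m)ˣ) (a : Frm T) :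
    pj D t a ∈ Ws D t := by
  rw [mem_iff, pj_apply, map_smul, map_sum, smul_comm]
  congr 1
  rw [Finset.smul_sum]
  set c := zet m t with hc
  have hc0 : c ≠ 0 := zet_ne hm t
  have hcm : c ^ m = 1 := zet_pow_one hm t
  set g : ℕ → Frm T := fun k => (c * c⁻¹ ^ k) • ((pre D.ZR) ^ k) a with hg
  have e1 : ∀ k, pre D.ZR ((c⁻¹ ^ k) • ((pre D.ZR) ^ k) a) = g (k + 1) := by
    intro k
    rw [map_smul, hg]
    simp only
    rw [pow_succ' (pre D.ZR), Module.End.mul_apply, pow_succ' c⁻¹, ← mul_assoc,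
      mul_inv_cancel₀ hc0, one_mul]
  have e2 : ∀ k, c • ((c⁻¹ ^ k) • ((pre D.ZR) ^ k) a) = g k := by
    intro k
    rw [smul_smul]
  rw [Finset.sum_congr rfl fun k _ => e1 k, Finset.sum_congr rfl fun k _ => e2 k]
  have e3 : g m = g 0 := by
    rw [hg]
    simp only
    rw [pre_pow_m, inv_pow, hcm, pow_zero, pow_zero, inv_one]
  have e4 := Finset.sum_range_succ g m
  have e5 := Finset.sum_range_succ' g m
  rw [e4, e3] at e5
  exact (add_right_cancel e5).symm

private lemma pj_eig (hm : m ≠ 0) (D : Cyc T m) (t : (ZMod m)ˣ) (a : Frm T) (h : a ∈ Ws D t) :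
    pj D t a = a := by
  have hc0 : zet m t ≠ 0 := zet_ne hm t
  rw [pj_apply]
  have e1 : ∀ k ∈ Finset.range m, ((zet m t)⁻¹ ^ k) • ((pre D.ZR) ^ k) a = a := by
    intro k _
    rw [pow_eig D t a h, smul_smul, ← mul_pow, inv_mul_cancel₀ hc0, one_pow, one_smul]
  rw [Finset.sum_congr rfl e1, Finset.sum_const, Finset.card_range, ← Nat.cast_smul_eq_nsmul ℂ,
    smul_smul, inv_mul_cancel₀ (Nat.cast_ne_zero.mpr hm), one_smul]

private lemma pj_other (hm : m ≠ 0) (D : Cyc T m) (s t : (ZMod m)ˣ) (hst : s ≠ t) (a : Frm T)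
    (h : a ∈ Ws D s) : pj D t a = 0 := by
  have hc0 : zet m t ≠ 0 := zet_ne hm t
  rw [pj_apply]
  have e1 : ∀ k ∈ Finset.range m, ((zet m t)⁻¹ ^ k) • ((pre D.ZR) ^ k) a =
      ((zet m t)⁻¹ * zet m s) ^ k • a := by
    intro k _
    rw [pow_eig D s a h, smul_smul, ← mul_pow]
  rw [Finset.sum_congr rfl e1, ← Finset.sum_smul]
  have hx : (zet m t)⁻¹ * zet m s ≠ 1 := by
    intro h1
    apply hst
    apply zet_inj hm
    have h2 : zet m t * ((zet m t)⁻¹ * zet m s) = zet m t * 1 := by rw [h1]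
    rw [← mul_assoc, mul_inv_cancel₀ hc0, one_mul, mul_one] at h2
    exact h2
  rw [geom_sum_eq hx, mul_pow, inv_pow, zet_pow_one hm, zet_pow_one hm, inv_one, mul_one, sub_self,
    zero_div, zero_smul, smul_zero]

theorem tPj : S_Pj := by
  intro T m D hm
  have hm0 : m ≠ 0 := by omega
  exact ⟨Z_pow D, pj_mem hm0 D, pj_eig hm0 D, pj_other hm0 D⟩

end SEB
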