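import Pool.Agent.Lib.SE.Big.Link

/-!
# PROJECT SE, module IsBig: the signatures of `y ^ p = ∏ (x - s_j)`, `p` a prime (helper80)
-/

set_option autoImplicit false

noncomputable section

namespace SEB

open HC HC.E HC.SE

namespace Pr_aux

/-- the signature -/
lemma sg_eq {p r u : ℕ} (hp : p.Prime) (hr : r + 1 < p) (h0 : 0 < u) (hu : u < p) :
    sg p r (fun _ => 1) u = r - (r + 1) * u / p := by
  have hsum : (∑ _j : Fin (r + 1), (u * 1) % p) = (r + 1) * u := by
    rw [Finset.sum_const, Finset.card_univ, Fintype.card_fin, mul_one, Nat.mod_eq_of_lt hu,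
      smul_eq_mul]
  have hnd : ¬ p ∣ (r + 1) * u := by
    intro h
    rcases (hp.dvd_mul).1 h with h | h
    · exact absurd (Nat.le_of_dvd (by omega) h) (by omega)
    · exact absurd (Nat.le_of_dvd h0 h) (by omega)
  set q := (r + 1) * u / p with hq
  have h1 : p * q + (r + 1) * u % p = (r + 1) * u := Nat.div_add_mod _ _
  have h2 : 0 < (r + 1) * u % p := Nat.pos_of_ne_zero fun h => hnd (Nat.dvd_of_mod_eq_zero h)
  have h3 : (r + 1) * u % p < p := Nat.mod_lt _ hp.pos
  have h4 : (Finset.univ.filter fun i : Fin r =>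
      p * (i : ℕ) + ∑ _j : Fin (r + 1), (u * 1) % p < p * r) =
      Finset.univ.filter fun i : Fin r => (i : ℕ) < r - q := by
    refine Finset.filter_congr fun i _ => ?_
    rw [hsum, ← h1]
    constructor
    · intro h
      by_contra h5
      have h6 : p * r ≤ p * (i + q) := Nat.mul_le_mul_left p (by omega)
      rw [Nat.mul_add] at h6
      omega
    · intro h
      have h6 : p * (i + q + 1) ≤ p * r := Nat.mul_le_mul_left p (by omega)
      rw [Nat.mul_add, Nat.mul_add, Nat.mul_one] at h6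
      omega
  have h5 : sg p r (fun _ => 1) u = (Finset.univ.filter fun i : Fin r =>
      p * (i : ℕ) + ∑ _j : Fin (r + 1), (u * 1) % p < p * r).card := rfl
  rw [h5, h4, Fin.card_filter_val_lt, min_eq_right (Nat.sub_le _ _)]

/-- both signatures are positive iff `u` is not near `0` or `p` -/
lemma zero_iff {p r u : ℕ} (hp : p.Prime) (hr : r + 1 < p) (h0 : 0 < u) (hu : u < p) :
    sg p r (fun _ => 1) u * sg p r (fun _ => 1) (p - u) = 0 ↔
      (r + 1) * u < p ∨ (r + 1) * (p - u) < p := by
  rw [sg_eq hp hr h0 hu, sg_eq hp hr (Nat.sub_pos_of_lt hu) (Nat.sub_lt hp.pos h0)]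
  have hk : ∀ v, v < p → 0 < v → ((r - (r + 1) * v / p = 0) ↔ (r + 1) * (p - v) < p) := by
    intro v hv hv0
    have e1 : (r + 1) * (p - v) + (r + 1) * v = (r + 1) * p := by
      rw [← Nat.mul_add, Nat.sub_add_cancel hv.le]
    have e2 : (r + 1) * p = r * p + p := by ring
    have hnd : (r + 1) * v ≠ r * p := by
      intro h
      have h1 : p ∣ (r + 1) * v := ⟨r, by rw [h, mul_comm]⟩
      rcases (hp.dvd_mul).1 h1 with h | h
      · exact absurd (Nat.le_of_dvd (by omega) h) (by omega)
      · exact absurd (Nat.le_of_dvd hv0 h) (by omega)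
    rw [Nat.sub_eq_zero_iff_le, Nat.le_div_iff_mul_le hp.pos]
    constructor
    · intro h
      have h2 : r * p < (r + 1) * v := lt_of_le_of_ne h (Ne.symm hnd)
      omega
    · intro h
      omega
  rw [Nat.mul_eq_zero, hk u hu h0, hk (p - u) (Nat.sub_lt hp.pos h0) (Nat.sub_pos_of_lt hu),
    Nat.sub_sub_self hu.le]
  exact or_comm

/-- multiplication by `j` does not preserve the set -/
lemma key {p r j : ℕ} (hp : p.Prime) (hr : r + 1 < p) (h2 : 2 ≤ r) (hj2 : 2 ≤ j)
    (hj : (r + 1) * j < p) : ∃ t, 0 < t ∧ t < p ∧ (r + 1) * t < p ∧ t * j < p ∧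
      ¬ ((r + 1) * (t * j) < p ∨ (r + 1) * (p - t * j) < p) := by
  set k := p / (r + 1) with hk
  have hle : ∀ n, n ≤ k ↔ (r + 1) * n ≤ p := by
    intro n
    rw [hk, Nat.le_div_iff_mul_le (by omega), mul_comm]
  have hnd : ¬ (r + 1) ∣ p := by
    intro h
    rcases (Nat.dvd_prime hp).1 h with h | h
    · omega
    · omega
  have hlt : ∀ n, n ≤ k → (r + 1) * n < p := by
    intro n hn
    refine lt_of_le_of_ne ((hle n).1 hn) fun h => hnd ⟨n, h.symm⟩
  have hjk : j ≤ k := (hle j).2 hj.le
  have h3k : 3 * k < p := lt_of_le_of_lt (Nat.mul_le_mul_right k (by omega : 3 ≤ r + 1))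
    (hlt k le_rfl)
  have hdm := Nat.div_add_mod k j
  have hm := Nat.mod_lt k (by omega : 0 < j)
  have ht1 : (k / j + 1) * j = k - k % j + j := by
    have : (k / j + 1) * j = j * (k / j) + j := by ring
    rw [this]
    omega
  have hmk : k % j ≤ k := Nat.mod_le _ _
  have htk : k / j + 1 ≤ k := by
    have h5 : k / j ≤ k / 2 := Nat.div_le_div_left hj2 (by omega)
    omega
  refine ⟨k / j + 1, Nat.succ_pos _, lt_of_le_of_lt htk (by omega), hlt _ htk, ?_, ?_⟩
  · rw [ht1]
    omega
  · rw [ht1]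
    rintro (h | h)
    · have := (hle _).2 h.le
      omega
    · have := (hle _).2 h.le
      omega

end Pr_aux

open Pr_aux

theorem tPr : ∀ p r : ℕ, p.Prime → 2 ≤ r → r + 1 < p →
    AperC p r (fun _ => 1) ∧ ∃ u < p, u.Coprime p ∧ sg p r (fun _ => 1) u = 1 := by
  intro p r hp h2 hr
  have hcop : ∀ u, 0 < u → u < p → u.Coprime p := fun u h0 hu =>
    (hp.coprime_iff_not_dvd.2 fun h => absurd (Nat.le_of_dvd h0 h) (by omega)).symm
  refine ⟨?_, ?_⟩
  · intro g hg hgc H
    have hg0 : 0 < g := by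
      rcases Nat.eq_zero_or_pos g with h | h
      · rw [h, Nat.coprime_zero_left] at hgc
        exact absurd hgc hp.one_lt.ne'
      · exact h
    -- the set is stable
    have hst : ∀ u, 0 < u → u < p → (((r + 1) * ((u * g) % p) < p ∨
        (r + 1) * (p - (u * g) % p) < p) ↔ ((r + 1) * u < p ∨ (r + 1) * (p - u) < p)) := by
      intro u h0 hu
      have h1 := H u hu (hcop u h0 hu)
      have h3 : 0 < (u * g) % p := by
        refine Nat.pos_of_ne_zero fun h => ?_
        rcases (hp.dvd_mul).1 (Nat.dvd_of_mod_eq_zero h) with h | h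
        · exact absurd (Nat.le_of_dvd h0 h) (by omega)
        · exact absurd (Nat.le_of_dvd hg0 h) (by omega)
      have h4 : (u * g) % p < p := Nat.mod_lt _ hp.pos
      rw [← zero_iff hp hr h3 h4, ← zero_iff hp hr h0 hu, h1]
    have h1 := (hst 1 one_pos hp.one_lt).2 (Or.inl (by rw [mul_one]; exact hr))
    rw [one_mul, Nat.mod_eq_of_lt hg] at h1
    by_contra hne
    rw [not_or] at hne
    rcases h1 with h1 | h1
    · obtain ⟨t, ht0, htp, ht1, ht2, ht3⟩ := key hp hr h2 (by omega : 2 ≤ g) h1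
      have h3 := (hst t ht0 htp).2 (Or.inl ht1)
      rw [Nat.mod_eq_of_lt ht2] at h3
      exact ht3 h3
    · obtain ⟨t, ht0, htp, ht1, ht2, ht3⟩ := key hp hr h2 (by omega : 2 ≤ p - g) h1
      have h3 := (hst t ht0 htp).2 (Or.inl ht1)
      have ht5 : 0 < t * (p - g) := Nat.mul_pos ht0 (by omega)
      have h4 : (t * g) % p = p - t * (p - g) := by
        have h5 : t * g + t * (p - g) = t * p := by
          rw [← Nat.mul_add, Nat.add_sub_cancel' hg.le]
        have h6 : t * g = (p - t * (p - g)) + p * (t - 1) := by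
          obtain ⟨t', rfl⟩ : ∃ t', t = t' + 1 := ⟨t - 1, by omega⟩
          rw [Nat.add_sub_cancel]
          have h7 : (t' + 1) * p = p * t' + p := by ring
          omega
        rw [h6, Nat.add_mul_mod_self_left, Nat.mod_eq_of_lt (by omega)]
      rw [h4] at h3
      apply ht3
      rw [Nat.sub_sub_self ht2.le] at h3
      exact h3.symm
  · refine ⟨p * (r - 1) / (r + 1) + 1, ?_⟩
    have h1 := Nat.div_add_mod (p * (r - 1)) (r + 1)
    have h3 := Nat.mod_lt (p * (r - 1)) (by omega : 0 < r + 1)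
    obtain ⟨a, ha⟩ : ∃ a, a = p * (r - 1) / (r + 1) := ⟨_, rfl⟩
    rw [← ha] at h1 ⊢
    have h4 : (r + 1) * (a + 1) = (r + 1) * a + (r + 1) := by ring
    have h5 : p * r = p * (r - 1) + p := by
      obtain ⟨r', rfl⟩ : ∃ r', r = r' + 1 := ⟨r - 1, by omega⟩
      rw [Nat.add_sub_cancel]
      ring
    have h6 : (r + 1) * (a + 1) < p * r := by omega
    have h7 : p * (r - 1) < (r + 1) * (a + 1) := by omega
    have hu : a + 1 < p := by
      by_contra h8
      have h9 : (r + 1) * p ≤ (r + 1) * (a + 1) := Nat.mul_le_mul_left _ (by omega)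
      have h10 : (r + 1) * p = p * r + p := by ring
      omega
    refine ⟨hu, hcop _ (by omega) hu, ?_⟩
    rw [sg_eq hp hr (by omega) hu]
    have h8 : (r + 1) * (a + 1) / p = r - 1 := by
      refine Nat.div_eq_of_lt_le ?_ ?_
      · rw [mul_comm]
        exact h7.le
      · have : r - 1 + 1 = r := by omega
        rw [this, mul_comm r p]
        exact h6
    rw [h8]
    omega

end SEB
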