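import Pool.Agent.Lib.SE.Big.Spec

/-! # SE/Big/R2i: rank 2, irreducible or commutative (helper99) -/

set_option autoImplicit false

open Module

noncomputable section

namespace SEB

open HC HC.E

namespace R2i_aux

variable {T : AV}

/-- On a stable line the operators commute. -/
lemma comm_line (U : Submodule ℂ (Frm T)) (hU : finrank ℂ U ≤ 1) (P Q : Module.End ℂ (Frm T))
    (hP : ∀ a ∈ U, P a ∈ U) (hQ : ∀ a ∈ U, Q a ∈ U) (a : Frm T) (ha : a ∈ U) :
    P (Q a) = Q (P a) := by
  obtain ⟨v, hv⟩ := finrank_le_one_iff.1 hU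
  have key : ∀ R : Module.End ℂ (Frm T), (∀ a ∈ U, R a ∈ U) → ∃ x : ℂ, ∀ b ∈ U, R b = x • b := by
    intro R hR
    obtain ⟨x, hx⟩ := hv ⟨R v, hR v v.2⟩
    refine ⟨x, fun b hb => ?_⟩
    obtain ⟨y, hy⟩ := hv ⟨b, hb⟩
    have h1 : y • (v : Frm T) = b := congrArg Subtype.val hy
    have h2 : x • (v : Frm T) = R v := congrArg Subtype.val hx
    rw [← h1, map_smul, ← h2, smul_comm]
  obtain ⟨x, hx⟩ := key P hP
  obtain ⟨y, hy⟩ := key Q hQ
  rw [hy a ha, hx a ha, map_smul, map_smul, hx a ha, hy a ha, smul_comm]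

end R2i_aux

open R2i_aux in
theorem tR2i : S_R2i := by
  intro hBas hDim hRed hLI T m D hm hT h hh s
  by_cases hI : Irr D h s
  · exact Or.inl hI
  · right
    unfold Irr at hI
    push Not at hI
    obtain ⟨U, hU, hst, hU0, hU1⟩ := hI
    obtain ⟨U', hU', hst', hsup, hinf⟩ := hRed T m D hm h hh s U hU hst
    obtain ⟨hb1, -, hb3, hb4, -⟩ := hBas T m D hm
    have hfr : finrank ℂ (Ws D s) = 2 := (hDim T m 2 D hm (by rw [hT]) s).1
    have hadd : finrank ℂ U + finrank ℂ U' = 2 := by
      have h1 := Submodule.finrank_sup_add_finrank_inf_eq U U'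
      rw [hsup, hinf, finrank_bot, hfr] at h1
      omega
    have hUp : 0 < finrank ℂ U := by
      rw [Nat.pos_iff_ne_zero, Ne, Submodule.finrank_eq_zero]
      exact hU0
    have hUp' : 0 < finrank ℂ U' := by
      rw [Nat.pos_iff_ne_zero, Ne, Submodule.finrank_eq_zero]
      intro h0
      rw [h0, sup_bot_eq] at hsup
      exact hU1 hsup
    intro X hX Y hY
    have hK := hh.lie.br X hX Y hY
    have hKZ := (hh.u _ hK).1
    have hpre : ∀ a, pre (X * Y - Y * X) a = pre Y (pre X a) - pre X (pre Y a) := by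
      intro a
      refine LinearMap.ext fun v => ?_
      show a (X (Y v) - Y (X v)) = a (X (Y v)) - a (Y (X v))
      rw [map_sub]
    have h0 : ∀ a ∈ Ws D s, pre (X * Y - Y * X) a = 0 := by
      intro a ha
      rw [← hsup] at ha
      obtain ⟨b, hb, c, hc, rfl⟩ := Submodule.mem_sup.1 ha
      rw [map_add, hpre, hpre, comm_line U (by omega) (pre Y) (pre X) (hst Y hY) (hst X hX) b hb,
        comm_line U' (by omega) (pre Y) (pre X) (hst' Y hY) (hst' X hX) c hc, sub_self, sub_self,
        add_zero]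
    have h1 : ∀ t, ∀ a ∈ Ws D t, pre (X * Y - Y * X) a = 0 := by
      intro t a ha
      obtain ⟨c', hc', h2⟩ := hLI T m D hm 1 (fun _ => X * Y - Y * X)
        (fun _ => ⟨hh.rat _ hK, hKZ⟩) {s} (fun _ => 1) (by
          intro h3
          exact one_ne_zero (congrFun h3 0)) (by
          intro t ht a ha
          rw [Set.mem_singleton_iff] at ht
          subst ht
          rw [Fin.sum_univ_one, h0 a ha, smul_zero]) (t * s⁻¹)
      have h3 := h2 s rfl a (by rw [inv_mul_cancel_right]; exact ha)
      rw [Fin.sum_univ_one] at h3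
      rcases smul_eq_zero.1 h3 with h4 | h4
      · exfalso
        apply hc'
        funext i
        rw [Subsingleton.elim i 0]
        exact h4
      · exact h4
    have h2 : ∀ a : Frm T, pre (X * Y - Y * X) a = 0 := by
      intro a
      have ha : a ∈ ⨆ s, Ws D s := by
        rw [hb1]
        exact Submodule.mem_top
      have h3 : (⨆ s, Ws D s) ≤ LinearMap.ker (pre (X * Y - Y * X)) :=
        iSup_le fun t a ha => h1 t a ha
      exact h3 ha
    have h3 : pre (X * Y - Y * X) = pre (T := T) 0 := by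
      refine LinearMap.ext fun a => ?_
      rw [h2 a]
      refine LinearMap.ext fun v => ?_
      show (0 : ℂ) = a ((0 : Module.End ℝ T.V) v)
      rw [LinearMap.zero_apply, map_zero]
    have h4 := (hb4 (X * Y - Y * X) 0).2.2.2 h3
    exact sub_eq_zero.1 h4

end SEB
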