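import Pool.Agent.Lib.SE.Big.Spec

/-!
# PROJECT SE, module IsBig: (Red) complete reducibility
-/

set_option autoImplicit false

open Module

noncomputable section

namespace SEB

open HC HC.E

namespace Red_aux

/-- Orthogonal complements for a positive definite hermitian form. -/
theorem perp_compl {V : Type} [AddCommGroup V] [Module ℂ V] [FiniteDimensional ℂ V]
    (H : V → V → ℂ) (h1 : ∀ a b c, H (a + b) c = H a c + H b c)
    (h2 : ∀ (x : ℂ) (a b : V), H (x • a) b = x * H a b)
    (h3 : ∀ a b, H b a = (starRingEnd ℂ) (H a b)) (h4 : ∀ a, a ≠ 0 → 0 < (H a a).re)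
    (U W U' : Submodule ℂ V) (hUW : U ≤ W) (hU' : ∀ b, b ∈ U' ↔ b ∈ W ∧ ∀ a ∈ U, H a b = 0) :
    U ⊔ U' = W ∧ U ⊓ U' = ⊥ := by
  have h0 : ∀ b : V, H 0 b = 0 := by
    intro b
    have h := h2 0 0 b
    rw [zero_smul, zero_mul] at h
    exact h
  constructor
  · letI core : InnerProductSpace.Core ℂ V :=
      { inner := fun a b => H b a
        conj_inner_symm := fun a b => (h3 a b).symm
        re_inner_nonneg := fun a => by
          by_cases ha : a = 0
          · change 0 ≤ RCLike.re (H a a)
            rw [ha, h0]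
            simp
          · exact (h4 a ha).le
        add_left := fun a b c => by
          change H c (a + b) = H c a + H c b
          rw [h3 (a + b) c, h3 a c, h3 b c, h1, map_add]
        smul_left := fun a b r => by
          change H b (r • a) = (starRingEnd ℂ) r * H b a
          rw [h3 (r • a) b, h2, map_mul, ← h3 a b]
        definite := fun a ha => by
          by_contra hne
          have h := h4 a hne
          change H a a = 0 at ha
          rw [ha] at h
          simp at h }
    letI : NormedAddCommGroup V := core.toNormedAddCommGroup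
    letI : InnerProductSpace ℂ V := InnerProductSpace.ofCore core.toCore
    haveI : FiniteDimensional ℂ U := inferInstance
    have hs : U ⊔ Uᗮ ⊓ W = W := Submodule.sup_orthogonal_inf_of_hasOrthogonalProjection hUW
    have he : Uᗮ ⊓ W = U' := by
      ext b
      rw [Submodule.mem_inf, Submodule.mem_orthogonal, hU']
      constructor
      · rintro ⟨hb1, hb2⟩
        refine ⟨hb2, fun a ha => ?_⟩
        have h : H b a = 0 := hb1 a ha
        rw [h3 b a, h, map_zero]
      · rintro ⟨hb1, hb2⟩
        refine ⟨fun a ha => ?_, hb1⟩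
        change H b a = 0
        rw [h3 a b, hb2 a ha, map_zero]
    rw [he] at hs
    exact hs
  · rw [eq_bot_iff]
    intro x hx
    rw [Submodule.mem_inf] at hx
    rw [Submodule.mem_bot]
    by_contra hne
    have h := h4 x hne
    have h' := ((hU' x).mp hx.2).2 x hx.1
    rw [h'] at h
    simp at h

variable {T : AV} {m : ℕ}

theorem mulI_apply (v : T.V) : mulI T v = Complex.I • v := rfl

theorem mulI_sq : mulI T * mulI T = -1 := by
  ext v
  rw [Module.End.mul_apply, mulI_apply, mulI_apply, smul_smul, Complex.I_mul_I, LinearMap.neg_apply,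
    Module.End.one_apply, neg_one_smul]

/-- The real span of a rational Lie algebra is closed under commutators. -/
theorem span_br {h : Set (Module.End ℝ T.V)} (hl : ∀ X ∈ h, ∀ Y ∈ h, X * Y - Y * X ∈ h)
    {X Y : Module.End ℝ T.V} (hX : X ∈ Submodule.span ℝ h) (hY : Y ∈ Submodule.span ℝ h) :
    X * Y - Y * X ∈ Submodule.span ℝ h := by
  have h1 : ∀ X ∈ h, X * Y - Y * X ∈ Submodule.span ℝ h := by
    intro X hX
    refine Submodule.span_induction (p := fun Y _ => X * Y - Y * X ∈ Submodule.span ℝ h)
      ?_ ?_ ?_ ?_ hY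
    · intro Y hY
      exact Submodule.subset_span (hl X hX Y hY)
    · rw [mul_zero, zero_mul, sub_zero]
      exact zero_mem _
    · intro Y Y' _ _ h1 h2
      have h3 := add_mem h1 h2
      have h4 : X * (Y + Y') - (Y + Y') * X = X * Y - Y * X + (X * Y' - Y' * X) := by
        rw [mul_add, add_mul]
        abel
      rw [h4]
      exact h3
    · intro c Y _ h1
      have h4 : X * (c • Y) - (c • Y) * X = c • (X * Y - Y * X) := by
        rw [mul_smul_comm, smul_mul_assoc, smul_sub]
      rw [h4]
      exact Submodule.smul_mem _ _ h1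
  refine Submodule.span_induction (p := fun X _ => X * Y - Y * X ∈ Submodule.span ℝ h)
    ?_ ?_ ?_ ?_ hX
  · exact h1
  · rw [mul_zero, zero_mul, sub_zero]
    exact zero_mem _
  · intro X X' _ _ h2 h3
    have h4 : (X + X') * Y - Y * (X + X') = X * Y - Y * X + (X' * Y - Y * X') := by
      rw [mul_add, add_mul]
      abel
    rw [h4]
    exact add_mem h2 h3
  · intro c X _ h2
    have h4 : (c • X) * Y - Y * (c • X) = c • (X * Y - Y * X) := by
      rw [mul_smul_comm, smul_mul_assoc, smul_sub]
    rw [h4]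
    exact Submodule.smul_mem _ _ h2

/-- `J X J` in terms of commutators. -/
theorem jxj (J X : Module.End ℝ T.V) (hJ : J * J = -1) :
    J * X * J = -X - (2⁻¹ : ℝ) • (J * (J * X - X * J) - (J * X - X * J) * J) := by
  have h1 : J * (J * X - X * J) - (J * X - X * J) * J = -((2 : ℝ) • X) - (2 : ℝ) • (J * X * J) := by
    have e1 : J * (J * X) = -X := by rw [← mul_assoc, hJ, neg_one_mul]
    have e2 : X * J * J = -X := by rw [mul_assoc, hJ, mul_neg_one]
    have e3 : J * (X * J) = J * X * J := (mul_assoc _ _ _).symm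
    rw [mul_sub, sub_mul, e1, e2, e3, two_smul, two_smul]
    abel
  rw [h1, smul_sub, smul_neg, smul_smul, smul_smul]
  norm_num

/-- Stability under the real span. -/
theorem stab_span {h : Set (Module.End ℝ T.V)} {U : Submodule ℂ (Frm T)}
    (hU : ∀ X ∈ h, ∀ a ∈ U, pre X a ∈ U) {X : Module.End ℝ T.V} (hX : X ∈ Submodule.span ℝ h) :
    ∀ a ∈ U, pre X a ∈ U := by
  intro a ha
  refine Submodule.span_induction (p := fun X _ => pre X a ∈ U) ?_ ?_ ?_ ?_ hX
  · intro X hX
    exact hU X hX a ha
  · have h1 : pre (0 : Module.End ℝ T.V) a = 0 := by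
      ext v
      change a ((0 : Module.End ℝ T.V) v) = 0
      rw [LinearMap.zero_apply, map_zero]
    rw [h1]
    exact zero_mem _
  · intro X Y _ _ h1 h2
    have h3 : pre (X + Y) a = pre X a + pre Y a := by
      ext v
      change a ((X + Y) v) = a (X v) + a (Y v)
      rw [LinearMap.add_apply, map_add]
    rw [h3]
    exact add_mem h1 h2
  · intro c X _ h1
    have h3 : pre (c • X) a = (c : ℂ) • pre X a := by
      ext v
      change a ((c • X) v) = (c : ℂ) * a (X v)
      rw [LinearMap.smul_apply, map_smul, Complex.real_smul]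
    rw [h3]
    exact Submodule.smul_mem _ _ h1

/-- The adjoint of a skew endomorphism. -/
theorem adj (D : Cyc T m) {X : Module.End ℝ T.V} (hX : ∀ u v, D.ψ (X u) v + D.ψ u (X v) = 0)
    (u v : T.V) : D.ψ (Complex.I • X u) v =
      D.ψ (Complex.I • u) ((mulI T * X * mulI T) v) := by
  have h1 : D.ψ (Complex.I • X u) v = -D.ψ (X u) (Complex.I • v) := by
    rw [← D.cpx (Complex.I • X u) v, smul_smul, Complex.I_mul_I, neg_one_smul, map_neg,
      LinearMap.neg_apply]
  have h2 := hX u (Complex.I • v)
  have h3 : (mulI T * X * mulI T) v = Complex.I • X (Complex.I • v) := rfl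
  rw [h3, D.cpx, h1]
  linarith

end Red_aux

open Red_aux in
theorem tRed : S_Hm → S_Red := by
  intro hHm T m D hm h hh s U hUW hU
  obtain ⟨H, h1, h2, h3, h4, h5⟩ := hHm T m D
  have hbr := hh.lie.br
  have hst : ∀ X ∈ h, ∀ a ∈ U, pre (mulI T * X * mulI T) a ∈ U := by
    intro X hX
    refine stab_span hU ?_
    rw [jxj _ _ mulI_sq]
    have hXs : X ∈ Submodule.span ℝ h := Submodule.subset_span hX
    refine Submodule.sub_mem _ (Submodule.neg_mem _ hXs) (Submodule.smul_mem _ _ ?_)
    exact span_br hbr hh.J (span_br hbr hh.J hXs)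
  have hadd : ∀ a b c, H a (b + c) = H a b + H a c := by
    intro a b c
    rw [h3 (b + c) a, h3 b a, h3 c a, h1, map_add]
  have hsm : ∀ (x : ℂ) (a b : Frm T), H a (x • b) = (starRingEnd ℂ) x * H a b := by
    intro x a b
    rw [h3 (x • b) a, h2, map_mul, ← h3 b a]
  let U' : Submodule ℂ (Frm T) :=
    { carrier := {b | b ∈ Ws D s ∧ ∀ a ∈ U, H a b = 0}
      add_mem' := fun {b c} hb hc => ⟨add_mem hb.1 hc.1, fun a ha => by
        rw [hadd, hb.2 a ha, hc.2 a ha, add_zero]⟩
      zero_mem' := ⟨zero_mem _, fun a ha => by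
        have h := hsm 0 a 0
        rw [zero_smul, map_zero, zero_mul] at h
        exact h⟩
      smul_mem' := fun x b hb => ⟨Submodule.smul_mem _ x hb.1, fun a ha => by
        rw [hsm, hb.2 a ha, mul_zero]⟩ }
  obtain ⟨hs1, hs2⟩ := perp_compl H h1 h2 h3 h4 U (Ws D s) U' hUW fun b => Iff.rfl
  refine ⟨U', fun b hb => hb.1, ?_, hs1, hs2⟩
  intro X hX b hb
  obtain ⟨hXc, hXs⟩ := hh.u X hX
  refine ⟨fun v => ?_, fun a ha => ?_⟩
  · change b (X (D.Z v)) = zet m s * b (X v)
    rw [hXc v]
    exact hb.1 (X v)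
  · have h6 : H (pre X b) a = H b (pre (mulI T * X * mulI T) a) := h5 _ _ (adj D hXs) b a
    rw [h3 (pre X b) a, h6, ← h3 b]
    exact hb.2 _ (hst X hX a ha)

end SEB
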