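import Pool.Agent.Lib.SE.Big.Spec

/-!
# PROJECT SE, module IsBig, part Rib: all characters together (Ribet's lemma)
-/

set_option autoImplicit false

open Module

noncomputable section

namespace SEB

open HC HC.E

namespace Rib_aux

variable {T : AV} {m : ℕ}

theorem pre_mul (X Y : Module.End ℝ T.V) : pre (X * Y) = pre Y * pre X := rfl

theorem pre_sub (X Y : Module.End ℝ T.V) : pre (X - Y) = pre X - pre Y := by
  refine LinearMap.ext fun a => LinearMap.ext fun v => ?_
  change a (X v - Y v) = a (X v) - a (Y v)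
  exact map_sub a _ _

theorem com_sub {h : Set (Module.End ℝ T.V)} {D : Cyc T m} (hh : HLie D h) :
    ∀ Y ∈ Com h, Y ∈ h := by
  rintro _ ⟨X, hX, X', hX', rfl⟩
  exact hh.lie.br X hX X' hX'

theorem gg_comm {h : Set (Module.End ℝ T.V)} {D : Cyc T m} (hh : HLie D h) :
    ∀ A ∈ gg h, ∀ B ∈ gg h, A * B - B * A ∈ gg h := by
  intro A hA B hB
  induction hA using Submodule.span_induction with
  | mem A hA =>
    obtain ⟨Y, hY, rfl⟩ := hA
    induction hB using Submodule.span_induction with
    | mem B hB =>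
      obtain ⟨Y', hY', rfl⟩ := hB
      have h1 : pre Y * pre Y' - pre Y' * pre Y = pre (Y' * Y - Y * Y') := by
        rw [pre_sub, pre_mul, pre_mul]
      rw [h1]
      exact Submodule.subset_span ⟨_, ⟨Y', com_sub hh Y' hY', Y, com_sub hh Y hY, rfl⟩, rfl⟩
    | zero =>
      rw [mul_zero, zero_mul, sub_zero]
      exact Submodule.zero_mem _
    | add B B' _ _ hB hB' =>
      have h1 : pre Y * (B + B') - (B + B') * pre Y =
          (pre Y * B - B * pre Y) + (pre Y * B' - B' * pre Y) := by
        rw [mul_add, add_mul]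
        abel
      rw [h1]
      exact Submodule.add_mem _ hB hB'
    | smul c B _ hB =>
      have h1 : pre Y * (c • B) - (c • B) * pre Y = c • (pre Y * B - B * pre Y) := by
        rw [mul_smul_comm, smul_mul_assoc, smul_sub]
      rw [h1]
      exact Submodule.smul_mem _ _ hB
  | zero =>
    rw [mul_zero, zero_mul, sub_zero]
    exact Submodule.zero_mem _
  | add A A' _ _ hA hA' =>
    have h1 : (A + A') * B - B * (A + A') = (A * B - B * A) + (A' * B - B * A') := by
      rw [mul_add, add_mul]
      abel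
    rw [h1]
    exact Submodule.add_mem _ hA hA'
  | smul c A _ hA =>
    have h1 : (c • A) * B - B * (c • A) = c • (A * B - B * A) := by
      rw [mul_smul_comm, smul_mul_assoc, smul_sub]
    rw [h1]
    exact Submodule.smul_mem _ _ hA

theorem gg_pres {h : Set (Module.End ℝ T.V)} {D : Cyc T m} (hh : HLie D h) :
    ∀ A ∈ gg h, ∀ s, ∀ a ∈ Ws D s, A a ∈ Ws D s := by
  intro A hA s a ha
  induction hA using Submodule.span_induction with
  | mem A hA =>
    obtain ⟨Y, hY, rfl⟩ := hA
    intro v
    change a (Y (D.Z v)) = zet m s * a (Y v)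
    rw [(hh.u Y (com_sub hh Y hY)).1 v]
    exact ha (Y v)
  | zero =>
    rw [LinearMap.zero_apply]
    exact Submodule.zero_mem _
  | add A A' _ _ hA hA' =>
    rw [LinearMap.add_apply]
    exact Submodule.add_mem _ hA hA'
  | smul c A _ hA =>
    rw [LinearMap.smul_apply]
    exact Submodule.smul_mem _ _ hA

/-- One character, a finite set of other characters. -/
theorem one_step (hP : S_Perf) (D : Cyc T m)
    (h : Set (Module.End ℝ T.V)) (hh : HLie D h) (h1 : ∀ s, Hits D h {s})
    (h2 : ∀ s t, t ≠ s → t ≠ -s → Hits D h {s, t}) (a : (ZMod m)ˣ) (G : Finset (ZMod m)ˣ)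
    (hG : ∀ b ∈ G, b ≠ a ∧ b ≠ -a) :
    ∀ A : Module.End ℂ (Ws D a), LinearMap.trace ℂ (Ws D a) A = 0 →
      ∃ C ∈ gg h, (∀ x : Ws D a, C (x : Frm T) = (A x : Frm T)) ∧
        ∀ b ∈ G, ∀ x : Ws D b, C (x : Frm T) = 0 := by
  classical
  induction G using Finset.induction_on with
  | empty =>
    intro A hA
    obtain ⟨C, hC, hC1⟩ := h1 a (fun s => if hs : s = a then hs ▸ A else 0) (by
      intro s
      by_cases hs : s = a
      · subst hs
        simpa using hA
      · simp [hs])
    refine ⟨C, hC, fun x => ?_, fun b hb => absurd hb (Finset.notMem_empty b)⟩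
    have h3 := hC1 a (Set.mem_singleton a) x
    simpa using h3
  | insert b G hb ih =>
    have ih' := ih (fun b' hb' => hG b' (Finset.mem_insert_of_mem hb'))
    have hba := hG b (Finset.mem_insert_self b G)
    intro A hA
    have hspan := hP (Ws D a) A hA
    clear hA
    induction hspan using Submodule.span_induction with
    | mem X hX =>
      obtain ⟨A1, A2, t1, t2, rfl⟩ := hX
      obtain ⟨C1, hC1, u1, u2⟩ := ih' A1 t1
      obtain ⟨C2, hC2, w⟩ := h2 a b hba.1 hba.2 (fun s => if hs : s = a then hs ▸ A2 else 0) (by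
        intro s
        by_cases hs : s = a
        · subst hs
          simpa using t2
        · simp [hs])
      have w1 : ∀ x : Ws D a, C2 (x : Frm T) = (A2 x : Frm T) := by
        intro x
        have h3 := w a (Set.mem_insert a _) x
        simpa using h3
      have w2 : ∀ x : Ws D b, C2 (x : Frm T) = 0 := by
        intro x
        have h3 := w b (Set.mem_insert_of_mem a (Set.mem_singleton b)) x
        simpa [hba.1] using h3
      refine ⟨C1 * C2 - C2 * C1, gg_comm hh C1 hC1 C2 hC2, ?_, ?_⟩
      · intro x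
        rw [LinearMap.sub_apply, Module.End.mul_apply, Module.End.mul_apply, w1, u1, u1, w1]
        rfl
      · intro b' hb' x
        rw [LinearMap.sub_apply, Module.End.mul_apply, Module.End.mul_apply]
        rcases Finset.mem_insert.1 hb' with hb'' | hb''
        · subst hb''
          have h3 := w2 ⟨C1 (x : Frm T), gg_pres hh C1 hC1 b' _ x.2⟩
          change C2 (C1 (x : Frm T)) = 0 at h3
          rw [w2, map_zero, h3, sub_zero]
        · have h3 := u2 b' hb'' ⟨C2 (x : Frm T), gg_pres hh C2 hC2 b' _ x.2⟩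
          change C1 (C2 (x : Frm T)) = 0 at h3
          rw [u2 b' hb'', map_zero, h3, sub_zero]
    | zero =>
      refine ⟨0, Submodule.zero_mem _, fun x => ?_, fun b' _ x => ?_⟩
      · simp
      · simp
    | add X Y _ _ hX hY =>
      obtain ⟨C, hC, p1, p2⟩ := hX
      obtain ⟨C', hC', q1, q2⟩ := hY
      refine ⟨C + C', Submodule.add_mem _ hC hC', fun x => ?_, fun b' hb' x => ?_⟩
      · rw [LinearMap.add_apply, LinearMap.add_apply, p1, q1]
        rfl
      · rw [LinearMap.add_apply, p2 b' hb', q2 b' hb', add_zero]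
    | smul c X _ hX =>
      obtain ⟨C, hC, p1, p2⟩ := hX
      refine ⟨c • C, Submodule.smul_mem _ c hC, fun x => ?_, fun b' hb' x => ?_⟩
      · rw [LinearMap.smul_apply, LinearMap.smul_apply, p1]
        rfl
      · rw [LinearMap.smul_apply, p2 b' hb', smul_zero]

end Rib_aux

open Rib_aux

theorem tRib : S_Rib := by
  classical
  intro _ hP T m D hm h hh h1 h2 F hF A hA
  have : NeZero m := ⟨by omega⟩
  have hex : ∀ a : (ZMod m)ˣ, ∃ C ∈ gg h, a ∈ F →
      (∀ x : Ws D a, C (x : Frm T) = (A a x : Frm T)) ∧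
        ∀ b ∈ F, b ≠ a → ∀ x : Ws D b, C (x : Frm T) = 0 := by
    intro a
    by_cases ha : a ∈ F
    · obtain ⟨C, hC, p1, p2⟩ := one_step hP D h hh h1 h2 a
        (Finset.univ.filter fun b => b ∈ F ∧ b ≠ a) (by
          intro b hb
          rw [Finset.mem_filter] at hb
          refine ⟨hb.2.2, fun hba => hF a ha ?_⟩
          rw [← hba]
          exact hb.2.1) (A a) (hA a)
      refine ⟨C, hC, fun _ => ⟨p1, fun b hb hba x => p2 b ?_ x⟩⟩
      rw [Finset.mem_filter]
      exact ⟨Finset.mem_univ _, hb, hba⟩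
    · exact ⟨0, Submodule.zero_mem _, fun h => absurd h ha⟩
  choose C hC hC1 using hex
  refine ⟨∑ a ∈ Finset.univ.filter (fun a => a ∈ F), C a,
    Submodule.sum_mem _ fun a _ => hC a, fun s hs x => ?_⟩
  rw [LinearMap.sum_apply, Finset.sum_eq_single s]
  · exact (hC1 s hs).1 x
  · intro b hb hbs
    rw [Finset.mem_filter] at hb
    exact (hC1 b hb.2).2 s hs (Ne.symm hbs) x
  · intro h3
    exact absurd (Finset.mem_filter.2 ⟨Finset.mem_univ _, hs⟩) h3

end SEB
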