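import Pool.Agent.Lib.SE.Big.VG

/-!
# PROJECT SE, module IsBig: path lifting along a segment (helper37)
-/

set_option autoImplicit false

open Module MeasureTheory Topology Filter

noncomputable section

namespace SEB

open HC HC.E HC.SE

namespace Seg_aux

/-- A continuous root of unity is constant near a point. -/
theorem root_near {m : ℕ} (hm : 1 ≤ m) {q : ℝ → ℂ} {t₀ : ℝ} {S : Set ℝ}
    (hq : ContinuousWithinAt q S t₀) (h1 : q t₀ = 1) (hr : ∀ᶠ t in 𝓝[S] t₀, q t ^ m = 1) :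
    ∀ᶠ t in 𝓝[S] t₀, q t = 1 := by
  have hfin : {z : ℂ | z ^ m = 1}.Finite := by
    have h2 : {z : ℂ | z ^ m = 1} ⊆ ((Polynomial.nthRoots m (1 : ℂ)).toFinset : Set ℂ) := by
      intro z hz
      rw [Finset.mem_coe, Multiset.mem_toFinset, Polynomial.mem_nthRoots (by omega)]
      exact hz
    exact (Finset.finite_toSet _).subset h2
  have hcl : IsClosed ({z : ℂ | z ^ m = 1} \ {1}) := (hfin.subset Set.sdiff_subset).isClosed
  have hmem : ({z : ℂ | z ^ m = 1} \ {1})ᶜ ∈ 𝓝 (q t₀) := by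
    refine hcl.isOpen_compl.mem_nhds ?_
    rw [h1]
    simp
  filter_upwards [hq hmem, hr] with t ht htS
  by_contra hne
  exact ht ⟨htS, hne⟩

end Seg_aux

open Seg_aux in
theorem tSeg : S_Seg := by
  intro T m r s b N hm p₀ p₁ y hy hP
  set p : ℝ → ℂ := fun t => p₀ + t * (p₁ - p₀) with hp
  have hpc : Continuous p := by
    rw [hp]
    fun_prop
  have hpd : ∀ t, HasDerivAt p (p₁ - p₀) t := by
    intro t
    have h1 : HasDerivAt (fun t : ℝ => (t : ℂ)) 1 t := Complex.ofRealCLM.hasDerivAt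
    have h2 := (h1.mul_const (p₁ - p₀)).const_add p₀
    rw [one_mul] at h2
    exact h2
  have hS : ∀ t ∈ Set.Icc (0 : ℝ) 1, p t ∉ N.γ.S := by
    intro t ht
    rw [N.S]
    exact (hP t ht).1
  -- the local structure
  have loc : ∀ t₀ ∈ Set.Icc (0 : ℝ) 1, ∃ (g : ℂ → T.V) (g' : ℂ → T.V), ContinuousAt g' (p t₀) ∧
      ∀ᶠ t in 𝓝[Set.Icc 0 1] t₀, HasDerivAt g (g' (p t)) (p t) ∧ N.γ.ω (p t) (y t) = g' (p t) ∧
        N.γ.α (p t) (y t) - g (p t) ∈ T.L := by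
    intro t₀ ht₀
    have hP0 : N.γ.P (p t₀, y t₀) = 0 := by
      rw [N.P, (hP t₀ ht₀).2, sub_self]
    obtain ⟨η, g, h1, h2, h3⟩ := N.γ.map (p t₀) (hS t₀ ht₀) (y t₀) hP0
    -- `η (p t) = y t` near `t₀`
    have hne : ∀ t ∈ Set.Icc (0 : ℝ) 1, y t ≠ 0 := by
      intro t ht h0
      have h4 := (hP t ht).2
      rw [h0, zero_pow (by omega)] at h4
      refine Finset.prod_ne_zero_iff.2 (fun j _ => ?_) h4.symm
      refine pow_ne_zero _ (sub_ne_zero.2 fun h5 => (hP t ht).1 ⟨j, h5.symm⟩)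
    have hpt : Tendsto p (𝓝[Set.Icc 0 1] t₀) (𝓝 (p t₀)) :=
      hpc.continuousAt.continuousWithinAt
    have hη : ∀ᶠ t in 𝓝[Set.Icc 0 1] t₀, η (p t) = y t := by
      have h5 : ContinuousWithinAt (fun t => η (p t)) (Set.Icc 0 1) t₀ :=
        ContinuousAt.comp_continuousWithinAt (f := p) h2 hpt
      have h6 : ContinuousWithinAt (fun t => η (p t) / y t) (Set.Icc 0 1) t₀ :=
        h5.div (hy t₀ ht₀) (hne t₀ ht₀)
      have h7 : ∀ᶠ t in 𝓝[Set.Icc 0 1] t₀, (η (p t) / y t) ^ m = 1 := by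
        filter_upwards [hpt.eventually h3, self_mem_nhdsWithin] with t ht htI
        have h8 := ht.1
        rw [N.P, sub_eq_zero, ← (hP t htI).2] at h8
        rw [div_pow, h8, div_self (pow_ne_zero _ (hne t htI))]
      have h11 := root_near hm h6 (by rw [h1, div_self (hne t₀ ht₀)]) h7
      filter_upwards [h11, self_mem_nhdsWithin] with t ht htI
      exact (div_eq_one_iff_eq (hne t htI)).1 ht
    have hd : ∀ᶠ x in 𝓝 (p t₀), DifferentiableAt ℂ g x := by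
      filter_upwards [h3] with x hx
      exact hx.2.2.differentiableAt
    have hcd : ContinuousAt (deriv g) (p t₀) := by
      have h4 : AnalyticAt ℂ g (p t₀) := Complex.analyticAt_iff_eventually_differentiableAt.2 hd
      exact h4.deriv.continuousAt
    refine ⟨g, deriv g, hcd, ?_⟩
    filter_upwards [hpt.eventually h3, hη] with t ht hηt
    rw [hηt] at ht
    have h4 := ht.2.2
    refine ⟨h4.differentiableAt.hasDerivAt, h4.deriv.symm, ht.2.1⟩
  have hcont : ContinuousOn (fun t : ℝ => N.γ.ω (p t) (y t)) (Set.Icc 0 1) := by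
    intro t₀ ht₀
    obtain ⟨g, g', h1, h2⟩ := loc t₀ ht₀
    have h3 : ContinuousWithinAt (fun t => g' (p t)) (Set.Icc 0 1) t₀ :=
      ContinuousAt.comp_continuousWithinAt (f := p) h1 hpc.continuousAt.continuousWithinAt
    refine h3.congr_of_eventuallyEq ?_ ?_
    · filter_upwards [h2] with t ht
      exact ht.2.1
    · exact (mem_of_mem_nhdsWithin ht₀ h2).2.1
  refine ⟨hcont, ?_⟩
  have hint : ∀ a ∈ Set.Icc (0 : ℝ) 1, ∀ c ∈ Set.Icc (0 : ℝ) 1, IntervalIntegrable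
      (fun t : ℝ => (p₁ - p₀) • N.γ.ω (p t) (y t)) volume a c := by
    intro a ha c hc
    refine ((continuousOn_const (c := p₁ - p₀)).smul hcont).mono ?_ |>.intervalIntegrable
    exact Set.uIcc_subset_Icc ha hc
  -- the function modulo the lattice
  set F : ℝ → T.V := fun t => N.γ.α (p t) (y t) -
    ∫ τ in (0 : ℝ)..t, (p₁ - p₀) • N.γ.ω (p τ) (y τ) with hF
  have hloc : ∀ t₀ ∈ Set.Icc (0 : ℝ) 1, ∀ᶠ t in 𝓝[Set.Icc 0 1] t₀, F t - F t₀ ∈ T.L := by
    intro t₀ ht₀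
    obtain ⟨g, g', h1, h2⟩ := loc t₀ ht₀
    obtain ⟨δ, hδ, hball⟩ := Metric.mem_nhdsWithin_iff.1 h2
    filter_upwards [inter_mem_nhdsWithin _ (Metric.ball_mem_nhds t₀ hδ)] with t ht
    have h0I : (0 : ℝ) ∈ Set.Icc (0 : ℝ) 1 := by simp
    have hsub : ∀ τ ∈ Set.uIcc t₀ t, τ ∈ Metric.ball t₀ δ ∩ Set.Icc 0 1 := by
      intro τ hτ
      refine ⟨?_, Set.uIcc_subset_Icc ht₀ ht.1 hτ⟩
      rw [Metric.mem_ball, Real.dist_eq]
      have h3 := ht.2
      rw [Metric.mem_ball, Real.dist_eq] at h3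
      exact lt_of_le_of_lt (Set.abs_sub_left_of_mem_uIcc hτ) h3
    have h4 : ∫ τ in t₀..t, (p₁ - p₀) • N.γ.ω (p τ) (y τ) = g (p t) - g (p t₀) := by
      refine intervalIntegral.integral_eq_sub_of_hasDerivAt (f := fun τ => g (p τ)) ?_
        (hint t₀ ht₀ t ht.1)
      intro τ hτ
      have h5 := hball (hsub τ hτ)
      rw [h5.2.1]
      exact HasDerivAt.scomp τ h5.1 (hpd τ)
    have h6 : (∫ τ in (0 : ℝ)..t, (p₁ - p₀) • N.γ.ω (p τ) (y τ)) -
        ∫ τ in (0 : ℝ)..t₀, (p₁ - p₀) • N.γ.ω (p τ) (y τ) =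
        ∫ τ in t₀..t, (p₁ - p₀) • N.γ.ω (p τ) (y τ) :=
      intervalIntegral.integral_interval_sub_left (hint 0 h0I t ht.1) (hint 0 h0I t₀ ht₀)
    have h7 := (hball ⟨ht.2, ht.1⟩).2.2
    have h8 := (hball ⟨Metric.mem_ball_self hδ, ht₀⟩).2.2
    have h9 : F t - F t₀ = (N.γ.α (p t) (y t) - g (p t)) - (N.γ.α (p t₀) (y t₀) - g (p t₀)) := by
      simp only [hF]
      rw [h4] at h6
      rw [sub_sub_sub_comm, h6]
      abel
    rw [h9]
    exact T.L.sub_mem h7 h8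
  have hlc : IsLocallyConstant (fun t : Set.Icc (0 : ℝ) 1 => T.L.mkQ (F t)) := by
    rw [IsLocallyConstant.iff_eventually_eq]
    intro t₀
    have h1 := hloc t₀ t₀.2
    have h2 : Tendsto (Subtype.val : Set.Icc (0 : ℝ) 1 → ℝ) (𝓝 t₀) (𝓝[Set.Icc 0 1] (t₀ : ℝ)) := by
      rw [tendsto_nhdsWithin_iff]
      exact ⟨continuousAt_subtype_val, Eventually.of_forall fun x => x.2⟩
    filter_upwards [h2.eventually h1] with t ht
    rw [Submodule.mkQ_apply, Submodule.mkQ_apply, Submodule.Quotient.eq]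
    exact ht
  have h0 : (0 : ℝ) ∈ Set.Icc (0 : ℝ) 1 := by simp
  have h1 : (1 : ℝ) ∈ Set.Icc (0 : ℝ) 1 := by simp
  have hpre : PreconnectedSpace (Set.Icc (0 : ℝ) 1) :=
    Subtype.preconnectedSpace isPreconnected_Icc
  have h2 := hlc.apply_eq_of_preconnectedSpace ⟨1, h1⟩ ⟨0, h0⟩
  rw [Submodule.mkQ_apply, Submodule.mkQ_apply, Submodule.Quotient.eq] at h2
  have h3 : p 1 = p₁ := by simp [hp]
  have h4 : p 0 = p₀ := by simp [hp]
  simp only [hF, h3, h4, intervalIntegral.integral_same, sub_zero] at h2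
  have h5 : N.γ.α p₁ (y 1) - N.γ.α p₀ (y 0) - ∫ t in (0 : ℝ)..1, (p₁ - p₀) • N.γ.ω (p t) (y t) =
      N.γ.α p₁ (y 1) - (∫ t in (0 : ℝ)..1, (p₁ - p₀) • N.γ.ω (p t) (y t)) - N.γ.α p₀ (y 0) := by
    abel
  rw [h5]
  exact h2

end SEB
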