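import Pool.Agent.Lib.SE.Big.Fam
import Pool.Agent.Lib.SE.Big.Pr

/-!
# PROJECT SE, module IsBig, part 3: separation for the curves `y ^ p = f(x)` (helper28)
-/

set_option autoImplicit false

noncomputable section

namespace SEB

open HC HC.E HC.SE

namespace Sep_aux

/-- the product of the signatures is not zero for some `u` -/
theorem exU {p r : ℕ} (hp : p.Prime) (h2 : 2 ≤ r) (hr : r + 1 < p) :
    ∃ u : (ZMod p)ˣ, sg p r (fun _ => 1) (u : ZMod p).val *
      sg p r (fun _ => 1) (((-u : (ZMod p)ˣ) : ZMod p)).val ≠ 0 := by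
  haveI : NeZero p := ⟨hp.ne_zero⟩
  obtain ⟨u, hu, hc, h1⟩ := (tPr p r hp h2 hr).2
  have h0 : 0 < u := by
    rcases Nat.eq_zero_or_pos u with h | h
    · rw [h, Nat.coprime_zero_left] at hc
      exact absurd hc hp.one_lt.ne'
    · exact h
  have hv : ((ZMod.unitOfCoprime u hc : (ZMod p)ˣ) : ZMod p).val = u := by
    rw [ZMod.coe_unitOfCoprime, ZMod.val_natCast_of_lt hu]
  refine ⟨ZMod.unitOfCoprime u hc, ?_⟩
  rw [Units.val_neg, ZMod.neg_val, hv]
  have hne : ((ZMod.unitOfCoprime u hc : (ZMod p)ˣ) : ZMod p) ≠ 0 := by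
    intro h
    rw [h, ZMod.val_zero] at hv
    omega
  rw [if_neg hne]
  intro h
  rw [Pr_aux.sg_eq hp hr h0 hu] at h1
  rcases (Pr_aux.zero_iff hp hr h0 hu).1 h with h3 | h3
  · rw [Nat.div_eq_of_lt h3] at h1
    omega
  · have e1 : (r + 1) * (p - u) + (r + 1) * u = r * p + p := by
      rw [← Nat.mul_add, Nat.sub_add_cancel hu.le]
      ring
    have e2 : r ≤ (r + 1) * u / p := (Nat.le_div_iff_mul_le hp.pos).2 (by omega)
    omega

/-- the product of the signatures is zero at `1` -/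
theorem one {p r : ℕ} (hp : p.Prime) (hr : r + 1 < p) :
    sg p r (fun _ => 1) ((1 : (ZMod p)ˣ) : ZMod p).val *
      sg p r (fun _ => 1) (((-1 : (ZMod p)ˣ) : ZMod p)).val = 0 := by
  haveI : NeZero p := ⟨hp.ne_zero⟩
  haveI : Fact (1 < p) := ⟨hp.one_lt⟩
  rw [Units.val_neg, ZMod.neg_val, Units.val_one, if_neg one_ne_zero, ZMod.val_one]
  exact (Pr_aux.zero_iff hp hr one_pos hp.one_lt).2 (Or.inl (by rw [mul_one]; exact hr))

/-- Chinese remainder theorem for units -/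
theorem crt {a b M : ℕ} [NeZero M] (hab : a.Coprime b) (ha : a ∣ M) (hb : b ∣ M) (s : (ZMod a)ˣ)
    (t : (ZMod b)ˣ) : ∃ ρ : (ZMod M)ˣ, ZMod.unitsMap ha ρ = s ∧ ZMod.unitsMap hb ρ = t := by
  have hM : a * b ∣ M := Nat.Coprime.mul_dvd_of_dvd_of_dvd hab ha hb
  let e := ZMod.chineseRemainder hab
  let σ : (ZMod (a * b))ˣ := Units.map (e.symm : ZMod a × ZMod b →* ZMod (a * b))
    (MulEquiv.prodUnits.symm (s, t))
  have hσ1 : ZMod.unitsMap (dvd_mul_right a b) σ = s := by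
    apply Units.ext
    have h1 : ZMod.castHom (dvd_mul_right a b) (ZMod a) =
        (RingHom.fst (ZMod a) (ZMod b)).comp (e : ZMod (a * b) →+* ZMod a × ZMod b) :=
      Subsingleton.elim _ _
    change ZMod.castHom (dvd_mul_right a b) (ZMod a) (e.symm ((s : ZMod a), (t : ZMod b))) = s
    rw [h1]
    change (e (e.symm ((s : ZMod a), (t : ZMod b)))).1 = s
    rw [RingEquiv.apply_symm_apply]
  have hσ2 : ZMod.unitsMap (dvd_mul_left b a) σ = t := by
    apply Units.ext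
    have h1 : ZMod.castHom (dvd_mul_left b a) (ZMod b) =
        (RingHom.snd (ZMod a) (ZMod b)).comp (e : ZMod (a * b) →+* ZMod a × ZMod b) :=
      Subsingleton.elim _ _
    change ZMod.castHom (dvd_mul_left b a) (ZMod b) (e.symm ((s : ZMod a), (t : ZMod b))) = t
    rw [h1]
    change (e (e.symm ((s : ZMod a), (t : ZMod b)))).2 = t
    rw [RingEquiv.apply_symm_apply]
  obtain ⟨ρ, hρ⟩ := ZMod.unitsMap_surjective hM σ
  refine ⟨ρ, ?_, ?_⟩
  · rw [← hσ1, ← hρ, ← MonoidHom.comp_apply, ZMod.unitsMap_comp]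
  · rw [← hσ2, ← hρ, ← MonoidHom.comp_apply, ZMod.unitsMap_comp]

end Sep_aux

open Sep_aux in
theorem tSep : S_Sep := by
  intro q F hp hsg hne β β' hβ
  by_cases hr : F.r β.1 = F.r β'.1
  · right
    haveI : NeZero F.M := ⟨Finset.prod_ne_zero_iff.2 fun i _ => (hp i).1.ne_zero⟩
    have hm : F.m β.1 ≠ F.m β'.1 := fun h => hne _ _ hβ (Prod.ext h hr)
    have hc : (F.m β.1).Coprime (F.m β'.1) :=
      (Nat.coprime_primes (hp β.1).1 (hp β'.1).1).2 hm
    obtain ⟨u, hu⟩ := exU (hp β'.1).1 (F.hr β'.1) (hp β'.1).2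
    obtain ⟨ρ, h1, h2⟩ := crt hc (F.dvd β.1) (F.dvd β'.1) β.2⁻¹ (u * β'.2⁻¹)
    refine ⟨ρ, ?_⟩
    have e1 : F.pp (F.act ρ β) = 0 := by
      change (F.D β.1).p (ZMod.unitsMap (F.dvd β.1) ρ * β.2) *
        (F.D β.1).p (-(ZMod.unitsMap (F.dvd β.1) ρ * β.2)) = 0
      rw [h1, inv_mul_cancel, hsg, hsg]
      exact one (hp β.1).1 (hp β.1).2
    have e2 : F.pp (F.act ρ β') ≠ 0 := by
      change (F.D β'.1).p (ZMod.unitsMap (F.dvd β'.1) ρ * β'.2) *
        (F.D β'.1).p (-(ZMod.unitsMap (F.dvd β'.1) ρ * β'.2)) ≠ 0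
      rw [h2, inv_mul_cancel_right, hsg, hsg]
      exact hu
    rw [e1]
    exact fun h => e2 h.symm
  · left
    exact hr

end SEB
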