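import Pool.Agent.Lib.SE.Big.VG

/-! # PROJECT SE, IsBig part 2, module Sub: the substitution `x = t + a(t)` in the integrals -/

set_option autoImplicit false

open Module MeasureTheory Topology

noncomputable section

namespace SEB

open HC HC.E HC.SE

namespace Sub_aux

theorem dd_spec (a : Polynomial ℝ) (c t : ℝ) :
    a.eval t - a.eval c = (t - c) * (dd a c).eval t := by
  have h := Polynomial.modByMonic_add_div a (Polynomial.X - Polynomial.C c)
  rw [Polynomial.modByMonic_X_sub_C_eq_C_eval] at h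
  have h2 := congrArg (Polynomial.eval t) h
  rw [Polynomial.eval_add, Polynomial.eval_C, Polynomial.eval_mul, Polynomial.eval_sub,
    Polynomial.eval_X, Polynomial.eval_C] at h2
  rw [dd, ← h2]
  ring

theorem phi_deriv (a : Polynomial ℝ) (t : ℝ) :
    HasDerivAt (fun t => t + a.eval t) (1 + a.derivative.eval t) t :=
  (hasDerivAt_id t).add (a.hasDerivAt t)

theorem phi_mono {a : Polynomial ℝ} {p q : ℝ}
    (h : ∀ t ∈ Set.Icc p q, |a.derivative.eval t| ≤ 1 / 2) :
    StrictMonoOn (fun t => t + a.eval t) (Set.Icc p q) := by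
  refine strictMonoOn_of_deriv_pos (convex_Icc p q) ?_ ?_
  · exact (continuous_id.add a.continuous).continuousOn
  · intro t ht
    rw [(phi_deriv a t).deriv]
    have := abs_le.1 (h t (interior_subset ht))
    linarith

theorem phi_image {a : Polynomial ℝ} {p q : ℝ} (hpq : p ≤ q)
    (hm : StrictMonoOn (fun t => t + a.eval t) (Set.Icc p q)) :
    (fun t => t + a.eval t) '' Set.Icc p q = Set.Icc (p + a.eval p) (q + a.eval q) := by
  apply le_antisymm
  · rintro _ ⟨t, ht, rfl⟩
    exact ⟨hm.monotoneOn (Set.left_mem_Icc.2 hpq) ht ht.1,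
      hm.monotoneOn ht (Set.right_mem_Icc.2 hpq) ht.2⟩
  · exact intermediate_value_Icc hpq (continuous_id.add a.continuous).continuousOn

/-- the weight at `t + a(t)` -/
theorem wt_phi {r : ℕ} (μ s : Fin (r + 1) → ℝ) (a : Polynomial ℝ) (t : ℝ)
    (h : ∀ j, |(dd a (s j)).eval t| ≤ 1 / 2) :
    wt μ (fun j => s j + a.eval (s j)) (t + a.eval t) =
      wt μ s t * ∏ j, (1 + (dd a (s j)).eval t) ^ (-μ j) := by
  rw [wt, wt, ← Finset.prod_mul_distrib]
  refine Finset.prod_congr rfl fun j _ => ?_
  have h1 := abs_le.1 (h j)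
  have h2 : 0 < 1 + (dd a (s j)).eval t := by linarith
  have h3 : t + a.eval t - (s j + a.eval (s j)) = (t - s j) * (1 + (dd a (s j)).eval t) := by
    have := dd_spec a (s j) t
    linear_combination this
  rw [h3, abs_mul, abs_of_pos h2, Real.mul_rpow (abs_nonneg _) h2.le]

end Sub_aux

open Sub_aux in
theorem tSub : S_Wt → S_Sub := by
  intro _ r μ s a _ hs ha k
  have hk1 : s 0 ≤ s k.castSucc := hs.monotone (Fin.zero_le _)
  have hk2 : s k.castSucc < s k.succ := hs (Fin.castSucc_lt_succ)
  have hk3 : s k.succ ≤ s (Fin.last r) := hs.monotone (Fin.le_last _)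
  have hsub : Set.Icc (s k.castSucc) (s k.succ) ⊆ Set.Icc (s 0) (s (Fin.last r)) :=
    Set.Icc_subset_Icc hk1 hk3
  have hm : StrictMonoOn (fun t => t + a.eval t) (Set.Icc (s k.castSucc) (s k.succ)) :=
    phi_mono fun t ht => (ha t (hsub ht)).1
  have hle : s k.castSucc + a.eval (s k.castSucc) ≤ s k.succ + a.eval (s k.succ) :=
    hm.monotoneOn (Set.left_mem_Icc.2 hk2.le) (Set.right_mem_Icc.2 hk2.le) hk2.le
  rw [Ik, intervalIntegral.integral_of_le hle, intervalIntegral.integral_of_le hk2.le,
    ← integral_Icc_eq_integral_Ioc, ← integral_Icc_eq_integral_Ioc, ← phi_image hk2.le hm,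
    integral_image_eq_integral_abs_deriv_smul measurableSet_Icc
      (fun t _ => (phi_deriv a t).hasDerivWithinAt) hm.injOn]
  refine setIntegral_congr_fun measurableSet_Icc fun t ht => ?_
  have h := ha t (hsub ht)
  have h1 := abs_le.1 h.1
  have h2 : 0 < 1 + a.derivative.eval t := by linarith
  rw [wt_phi μ s a t h.2, abs_of_pos h2, smul_eq_mul]
  ring

end SEB
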