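import Pool.Agent.Lib.SE.Big.Link

/-!
# PROJECT SE, module IsBig: `ToBig`, the link with `HC.SE.Big`
-/

set_option autoImplicit false

open Module

noncomputable section

namespace SEB

open HC HC.E HC.SE

namespace ToBig_aux

variable {T : AV} {m : ℕ} (D : Cyc T m)

theorem comm_pow {P : Module.End ℝ T.V} (h : ∀ v, P (D.Z v) = D.Z (P v)) (k : ℕ) :
    P * D.ZR ^ k = D.ZR ^ k * P := by
  have h1 : Commute P D.ZR := by
    apply LinearMap.ext
    intro v
    exact h v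
  exact (h1.pow_right k).eq

theorem isSU_comm {P Q : Module.End ℝ T.V} (hP : P ∈ Lef T D.Z D.ψ) (hQ : Q ∈ Lef T D.Z D.ψ) :
    IsSU D (P * Q - Q * P) := by
  refine ⟨⟨fun v => ?_, fun u v => ?_⟩, fun k => ?_⟩
  · rw [LinearMap.sub_apply, LinearMap.sub_apply, Module.End.mul_apply, Module.End.mul_apply,
      Module.End.mul_apply, Module.End.mul_apply, hQ.1, hP.1, hP.1, hQ.1, map_sub]
  · have h1 := hP.2 (Q u) v
    have h2 := hQ.2 (P u) v
    have h3 := hP.2 u (Q v)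
    have h4 := hQ.2 u (P v)
    rw [LinearMap.sub_apply, LinearMap.sub_apply, Module.End.mul_apply, Module.End.mul_apply,
      Module.End.mul_apply, Module.End.mul_apply, map_sub, LinearMap.sub_apply, map_sub]
    linarith
  · have h1 : (P * Q - Q * P) * D.ZR ^ k = P * (Q * D.ZR ^ k) - (Q * D.ZR ^ k) * P := by
      rw [sub_mul, mul_assoc, mul_assoc, mul_assoc, comm_pow D hP.1 k]
    rw [h1, map_sub, LinearMap.trace_mul_comm, sub_self]

end ToBig_aux

open ToBig_aux in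
theorem tToBig : S_ToBig := by
  intro hHl T m D hbig h hrat hcom hJ P Q hP hQ
  let ev : (∀ _ : Fin 1, Module.End ℝ T.V) →ₗ[ℝ] Module.End ℝ T.V := LinearMap.proj 0
  obtain ⟨h', hh', hcc⟩ := hHl T m D (ev '' h) (by
      rintro _ ⟨X, hX, rfl⟩
      exact hrat X hX 0) (by
      rintro _ ⟨X, hX, rfl⟩ _ ⟨Y, hY, rfl⟩
      exact ⟨X * Y - Y * X, hcom X hX Y hY, rfl⟩) (by
      rw [Submodule.span_image]
      exact ⟨_, hJ, rfl⟩)
  have h1 := hbig h' hh' _ (isSU_comm D (hP 0) (hQ 0))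
  have h2 : Submodule.span ℝ (Com h') ≤ Submodule.span ℝ (Com (ev '' h)) :=
    Submodule.span_le.2 hcc
  have h3 : Submodule.span ℝ (Com (ev '' h)) ≤
      Submodule.map ev (Submodule.span ℝ {W | ∃ X ∈ h, ∃ Y ∈ h, W = X * Y - Y * X}) := by
    rw [← Submodule.span_image]
    apply Submodule.span_mono
    rintro _ ⟨_, ⟨X, hX, rfl⟩, _, ⟨Y, hY, rfl⟩, rfl⟩
    exact ⟨X * Y - Y * X, ⟨X, hX, Y, hY, rfl⟩, rfl⟩
  obtain ⟨W, hW, hWe⟩ := h3 (h2 h1)
  have h4 : P * Q - Q * P = W := by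
    funext i
    have hi : i = 0 := Subsingleton.elim i 0
    subst hi
    exact hWe.symm
  rw [h4]
  exact hW

end SEB
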