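import Pool.Agent.Lib.SE.Big.Spec

/-!
# PROJECT SE, module IsBig: `tTr : S_Tr` (helper66)

`X ∈ su_E` has trace `0` on every eigenspace: the trace of `pre X` on `Ws s` is the trace of
`pre X * pj s` on all forms.
-/

set_option autoImplicit false

open Module

noncomputable section

namespace SEB

open HC HC.E

namespace Tr_aux

/-- The basis of the forms given by a real basis of `T.V`. -/
def fb (T : AV) : Basis (Fin (finrank ℝ T.V)) ℂ (Frm T) :=
  Basis.ofEquivFun ((Module.finBasis ℝ T.V).constr ℂ).symm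

theorem fin_frm (T : AV) : Module.Finite ℂ (Frm T) := Module.Finite.of_basis (fb T)

/-- The trace of `pre Y` is the real trace of `Y`. -/
theorem tr_pre {T : AV} (Y : Module.End ℝ T.V) :
    LinearMap.trace ℂ (Frm T) (pre Y) = ((LinearMap.trace ℝ T.V Y : ℝ) : ℂ) := by
  rw [LinearMap.trace_eq_matrix_trace ℂ (fb T), LinearMap.trace_eq_matrix_trace ℝ
    (Module.finBasis ℝ T.V)]
  unfold Matrix.trace
  rw [Complex.ofReal_sum]
  refine Finset.sum_congr rfl fun i _ => ?_
  rw [Matrix.diag_apply, Matrix.diag_apply, LinearMap.toMatrix_apply, LinearMap.toMatrix_apply]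
  have h1 : fb T i = (Module.finBasis ℝ T.V).constr ℂ (Pi.single i (1 : ℂ)) := by
    rw [fb, Basis.coe_ofEquivFun]
    rfl
  have h2 : ∀ v : T.V, fb T i v = (((Module.finBasis ℝ T.V).repr v i : ℝ) : ℂ) := by
    intro v
    rw [h1, Basis.constr_apply_fintype]
    rw [Finset.sum_eq_single i]
    · rw [Pi.single_eq_same, Basis.equivFun_apply]
      simp
    · intro j _ hj
      rw [Pi.single_eq_of_ne hj, smul_zero]
    · intro h
      exact absurd (Finset.mem_univ i) h
  have h3 : ∀ a : Frm T, (fb T).repr a i = a (Module.finBasis ℝ T.V i) := by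
    intro a
    rw [← Basis.equivFun_apply, fb, Basis.equivFun_ofEquivFun]
    rfl
  rw [h3]
  show fb T i (Y (Module.finBasis ℝ T.V i)) = _
  rw [h2]

/-- `pre` of a power. -/
theorem pre_mul_pow {T : AV} (X Y : Module.End ℝ T.V) (k : ℕ) :
    pre X * (pre Y) ^ k = pre (Y ^ k * X) := by
  induction k generalizing X with
  | zero => rw [pow_zero, pow_zero, one_mul, mul_one]
  | succ k ih =>
    rw [pow_succ', ← mul_assoc]
    have h1 : pre X * pre Y = pre (Y * X) := rfl
    rw [h1, ih, pow_succ, mul_assoc]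

/-- The trace of the restriction to a subspace with a projector. -/
theorem tr_res {V : Type*} [AddCommGroup V] [Module ℂ V] [Module.Finite ℂ V]
    (W : Submodule ℂ V) (p f : Module.End ℂ V) (hp : ∀ a, p a ∈ W) (hi : ∀ a ∈ W, p a = a)
    (hf : ∀ a ∈ W, f a ∈ W) :
    LinearMap.trace ℂ W (f.restrict hf) = LinearMap.trace ℂ V (f * p) := by
  have h1 : f * p = W.subtype ∘ₗ (f.restrict hf ∘ₗ p.codRestrict W hp) := by
    ext a
    rfl
  rw [h1, LinearMap.trace_comp_comm']
  congr 1
  ext a
  show f a = f (p a)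
  rw [hi a a.2]

end Tr_aux

open Tr_aux in
theorem tTr : S_Tr := by
  intro hPj hBas T m D hm X hX s
  obtain ⟨-, hp1, hp2, -⟩ := hPj T m D hm
  have hB := (hBas T m D hm).2.2.1 X hX.1.1 s
  haveI := fin_frm T
  refine ⟨(pre X).restrict hB, ?_, fun a => rfl⟩
  rw [tr_res (Ws D s) (pj D s) (pre X) (hp1 s) (hp2 s) hB]
  unfold pj
  rw [mul_smul_comm, Finset.mul_sum, map_smul, map_sum, Finset.sum_eq_zero, smul_zero]
  intro k _
  rw [mul_smul_comm, map_smul, pre_mul_pow, tr_pre, LinearMap.trace_mul_comm, hX.2 k,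
    Complex.ofReal_zero, smul_zero]

end SEB
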