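import Pool.Agent.Lib.SE.Big.Spec

/-!
# PROJECT SE, module Big/Tw: a semilinear function from an automorphism of the cyclotomic field
-/

set_option autoImplicit false

open Module

noncomputable section

namespace SEB

open HC HC.E

namespace Tw_aux

lemma zet_root (m : ℕ) (hm : 1 ≤ m) (ρ : (ZMod m)ˣ) :
    Polynomial.aeval (zet m ρ)
      (minpoly ℚ (Complex.exp (2 * Real.pi * Complex.I / m))) = 0 := by
  have h0 : m ≠ 0 := by omega
  have h1 : IsPrimitiveRoot (Complex.exp (2 * Real.pi * Complex.I / m)) m :=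
    Complex.isPrimitiveRoot_exp m h0
  have h2 : IsPrimitiveRoot (zet m ρ) m := h1.pow_of_coprime _ (ZMod.val_coe_unit_coprime ρ)
  rw [← Polynomial.cyclotomic_eq_minpoly_rat h1 (by omega)]
  have h3 := h2.isRoot_cyclotomic (by omega)
  rw [← Polynomial.map_cyclotomic m (algebraMap ℚ ℂ), Polynomial.IsRoot.def,
    Polynomial.eval_map_algebraMap] at h3
  exact h3

end Tw_aux

open Tw_aux in
theorem tTw : S_Tw := by
  intro m hm ρ c hc
  have h0 : m ≠ 0 := by omega
  set ζ : ℂ := Complex.exp (2 * Real.pi * Complex.I / m) with hζ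
  have h1 : IsPrimitiveRoot ζ m := Complex.isPrimitiveRoot_exp m h0
  have hint : IsIntegral ℚ ζ := (h1.isIntegral (by omega)).tower_top
  have hroot := zet_root m hm ρ
  rw [← hζ] at hroot
  let pb := IntermediateField.adjoin.powerBasis hint
  have hgen : pb.gen = IntermediateField.AdjoinSimple.gen ℚ ζ :=
    IntermediateField.adjoin.powerBasis_gen hint
  have hmp : Polynomial.aeval (zet m ρ) (minpoly ℚ pb.gen) = 0 := by
    have h7 : minpoly ℚ (IntermediateField.AdjoinSimple.gen ℚ ζ) = minpoly ℚ ζ :=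
      IntermediateField.minpoly_gen ℚ ζ
    rw [hgen, h7]
    exact hroot
  let τ : IntermediateField.adjoin ℚ {ζ} →ₐ[ℚ] ℂ := pb.lift (zet m ρ) hmp
  have hτ : τ (IntermediateField.AdjoinSimple.gen ℚ ζ) = zet m ρ := by
    rw [← hgen]
    exact pb.lift_gen (zet m ρ) hmp
  obtain ⟨φ, hφ⟩ : ∃ φ : Module.Dual (IntermediateField.adjoin ℚ {ζ}) ℂ, φ c ≠ 0 := by
    by_contra hcon
    push Not at hcon
    exact hc ((Module.forall_dual_apply_eq_zero_iff _ c).1 hcon)
  refine ⟨(τ : IntermediateField.adjoin ℚ {ζ} →+ ℂ).comp ((φ c)⁻¹ • φ).toAddMonoidHom, ?_, ?_⟩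
  · change τ ((φ c)⁻¹ • φ c) = 1
    rw [smul_eq_mul, inv_mul_cancel₀ hφ, map_one]
  · intro x
    change τ ((φ c)⁻¹ • φ (ζ * x)) = zet m ρ * τ ((φ c)⁻¹ • φ x)
    have h5 : ζ * x = IntermediateField.AdjoinSimple.gen ℚ ζ • x := rfl
    rw [h5, map_smul φ, smul_comm, smul_eq_mul (IntermediateField.AdjoinSimple.gen ℚ ζ), map_mul, hτ]

end SEB
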