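import Pool.Agent.Lib.SE.Big.Spec

/-! # PROJECT SE, module IsBig: two characters -/

set_option autoImplicit false
set_option linter.unusedVariables false

open Module

noncomputable section

namespace SEB

open HC HC.E

namespace Two_aux

theorem exists_indep {K V ι : Type} [Field K] [AddCommGroup V] [Module K V]
    [FiniteDimensional K V] (f : ι → V) (n : ℕ)
    (hn : n ≤ finrank K (Submodule.span K (Set.range f))) :
    ∃ g : Fin n → ι, LinearIndependent K (f ∘ g) := by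
  obtain ⟨κ, a, ha, hspan, hli⟩ := exists_linearIndependent' K f
  have hfin : Finite κ := hli.finite
  have hft := Fintype.ofFinite κ
  have hc : finrank K (Submodule.span K (Set.range f)) = Fintype.card κ := by
    rw [← hspan]
    exact finrank_span_eq_card hli
  have hn' : Fintype.card (Fin n) ≤ Fintype.card κ := by
    rw [Fintype.card_fin, ← hc]
    exact hn
  obtain ⟨e⟩ : Nonempty (Fin n ↪ κ) := Function.Embedding.nonempty_of_card_le hn'
  exact ⟨a ∘ e, hli.comp e e.injective⟩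

theorem finrank_ker_trace {W : Type} [AddCommGroup W] [Module ℂ W] [FiniteDimensional ℂ W]
    (hr : 0 < finrank ℂ W) :
    finrank ℂ (LinearMap.ker (LinearMap.trace ℂ W)) + 1 = finrank ℂ W * finrank ℂ W := by
  have h1 := LinearMap.finrank_range_add_finrank_ker (LinearMap.trace ℂ W)
  have hne : (finrank ℂ W : ℂ) ≠ 0 := by exact_mod_cast hr.ne'
  have h2 : LinearMap.range (LinearMap.trace ℂ W) = ⊤ := by
    rw [LinearMap.range_eq_top]
    intro c
    refine ⟨(c / finrank ℂ W) • LinearMap.id, ?_⟩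
    rw [map_smul, LinearMap.trace_id, smul_eq_mul]
    field_simp
  rw [h2, finrank_top, finrank_self, Module.finrank_linearMap] at h1
  omega

/-- the counting argument -/
theorem gen_no {G W₁ W₂ W₃ W₄ ι : Type} [AddCommGroup G] [Module ℂ G] [AddCommGroup W₁]
    [Module ℂ W₁] [AddCommGroup W₂] [Module ℂ W₂] [AddCommGroup W₃] [Module ℂ W₃]
    [AddCommGroup W₄] [Module ℂ W₄] (r : ℕ) (hr : 2 ≤ r) (h₁ : finrank ℂ W₁ = r)
    (h₃ : finrank ℂ W₃ = r) (h₄ : finrank ℂ W₄ = r)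
    (R₁ : G →ₗ[ℂ] Module.End ℂ W₁) (R₂ : G →ₗ[ℂ] Module.End ℂ W₂)
    (R₃ : G →ₗ[ℂ] Module.End ℂ W₃) (R₄ : G →ₗ[ℂ] Module.End ℂ W₄) (x : ι → G)
    (hx : ∀ A, A ∈ Submodule.span ℂ (Set.range x))
    (htr : ∀ A, LinearMap.trace ℂ W₁ (R₁ A) = 0) (hgr : ∀ A, R₁ A = 0 → R₂ A = 0)
    (hits : ∀ X Y, LinearMap.trace ℂ W₃ X = 0 → LinearMap.trace ℂ W₄ Y = 0 →
      ∃ A, R₃ A = X ∧ R₄ A = Y) :
    ∃ (n : ℕ) (X : Fin n → ι) (c : Fin n → ℂ), c ≠ 0 ∧ R₁ (∑ j, c j • x (X j)) = 0 ∧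
      R₂ (∑ j, c j • x (X j)) = 0 ∧
      ∀ c' : Fin n → ℂ, R₃ (∑ j, c' j • x (X j)) = 0 → R₄ (∑ j, c' j • x (X j)) = 0 →
        c' = 0 := by
  have p₁ : 0 < finrank ℂ W₁ := by omega
  have p₃ : 0 < finrank ℂ W₃ := by omega
  have p₄ : 0 < finrank ℂ W₄ := by omega
  have : FiniteDimensional ℂ W₁ := Module.finite_of_finrank_pos p₁
  have : FiniteDimensional ℂ W₃ := Module.finite_of_finrank_pos p₃
  have : FiniteDimensional ℂ W₄ := Module.finite_of_finrank_pos p₄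
  let Ψ : G →ₗ[ℂ] Module.End ℂ W₃ × Module.End ℂ W₄ := R₃.prod R₄
  let f : ι → Module.End ℂ W₃ × Module.End ℂ W₄ := fun i => Ψ (x i)
  have hspan : ∀ A, Ψ A ∈ Submodule.span ℂ (Set.range f) := by
    intro A
    have h1 : Ψ A ∈ (Submodule.span ℂ (Set.range x)).map Ψ := ⟨A, hx A, rfl⟩
    rw [Submodule.map_span, ← Set.range_comp] at h1
    exact h1
  have hle : finrank ℂ (LinearMap.ker (LinearMap.trace ℂ W₃) ×
      LinearMap.ker (LinearMap.trace ℂ W₄)) ≤ finrank ℂ (Submodule.span ℂ (Set.range f)) := by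
    have hmem : ∀ y : LinearMap.ker (LinearMap.trace ℂ W₃) × LinearMap.ker (LinearMap.trace ℂ W₄),
        LinearMap.prodMap (Submodule.subtype (LinearMap.ker (LinearMap.trace ℂ W₃)))
          (Submodule.subtype (LinearMap.ker (LinearMap.trace ℂ W₄))) y ∈
            Submodule.span ℂ (Set.range f) := by
      intro y
      obtain ⟨A, hA1, hA2⟩ := hits y.1 y.2 y.1.2 y.2.2
      have h3 : Ψ A = LinearMap.prodMap (Submodule.subtype (LinearMap.ker (LinearMap.trace ℂ W₃)))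
          (Submodule.subtype (LinearMap.ker (LinearMap.trace ℂ W₄))) y := Prod.ext hA1 hA2
      rw [← h3]
      exact hspan A
    refine LinearMap.finrank_le_finrank_of_injective (f := LinearMap.codRestrict
      (Submodule.span ℂ (Set.range f)) (LinearMap.prodMap
        (Submodule.subtype (LinearMap.ker (LinearMap.trace ℂ W₃)))
          (Submodule.subtype (LinearMap.ker (LinearMap.trace ℂ W₄)))) hmem) ?_
    intro y z hyz
    have h1 := congrArg Subtype.val hyz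
    have h2 := congrArg Prod.fst h1
    have h3 := congrArg Prod.snd h1
    exact Prod.ext (Subtype.ext h2) (Subtype.ext h3)
  rw [Module.finrank_prod] at hle
  have hk3 := finrank_ker_trace p₃
  have hk4 := finrank_ker_trace p₄
  have hk1 := finrank_ker_trace p₁
  rw [h₃] at hk3
  rw [h₄] at hk4
  rw [h₁] at hk1
  have hrr : 4 ≤ r * r := Nat.mul_le_mul hr hr
  obtain ⟨X, hX⟩ := exists_indep (K := ℂ) f (r * r) (by omega)
  obtain ⟨c, hc0, hc1⟩ : ∃ c : Fin (r * r) → ℂ, c ≠ 0 ∧ R₁ (∑ j, c j • x (X j)) = 0 := by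
    have h1 : ¬ LinearIndependent ℂ (fun j =>
        (⟨R₁ (x (X j)), htr _⟩ : LinearMap.ker (LinearMap.trace ℂ W₁))) := by
      intro h2
      have h3 := h2.fintype_card_le_finrank
      rw [Fintype.card_fin] at h3
      omega
    obtain ⟨c, h2, j, hj⟩ := Fintype.not_linearIndependent_iff.1 h1
    refine ⟨c, fun h3 => hj (by rw [h3]; rfl), ?_⟩
    have h4 := congrArg (Submodule.subtype (LinearMap.ker (LinearMap.trace ℂ W₁))) h2
    rw [map_sum, map_zero] at h4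
    rw [map_sum, ← h4]
    exact Finset.sum_congr rfl fun j _ => map_smul _ _ _
  refine ⟨r * r, X, c, hc0, hc1, hgr _ hc1, ?_⟩
  intro c' h3 h4
  refine funext (Fintype.linearIndependent_iff.1 hX c' ?_)
  have h5 : ∑ j, c' j • (f ∘ X) j = Ψ (∑ j, c' j • x (X j)) := by
    rw [map_sum]
    exact Finset.sum_congr rfl fun j _ => (map_smul _ _ _).symm
  rw [h5]
  exact Prod.ext h3 h4

/-- the comparison argument -/
theorem gen_sig {G E₁ E₂ : Type} [AddCommGroup G] [Module ℂ G] [AddCommGroup E₁]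
    [Module ℂ E₁] [AddCommGroup E₂] [Module ℂ E₂] (R₁ : G →ₗ[ℂ] E₁) (R₂ : G →ₗ[ℂ] E₂)
    (S₁ : Submodule ℂ E₁) (S₂ : Submodule ℂ E₂) (hgr : ∀ A, R₁ A = 0 ↔ R₂ A = 0)
    (hS : ∀ A, R₁ A ∈ S₁ ↔ R₂ A ∈ S₂) (hs1 : ∀ B ∈ S₁, ∃ A, R₁ A = B)
    (hs2 : ∀ B ∈ S₂, ∃ A, R₂ A = B) : finrank ℂ S₁ = finrank ℂ S₂ := by
  let M : Submodule ℂ G := S₁.comap R₁
  let φ : M →ₗ[ℂ] S₁ := LinearMap.codRestrict _ (R₁ ∘ₗ M.subtype) fun A => A.2
  let φ' : M →ₗ[ℂ] S₂ := LinearMap.codRestrict _ (R₂ ∘ₗ M.subtype) fun A => (hS A).1 A.2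
  have hφ : Function.Surjective φ := by
    intro B
    obtain ⟨A, hA⟩ := hs1 B B.2
    refine ⟨⟨A, ?_⟩, Subtype.ext hA⟩
    show R₁ A ∈ S₁
    rw [hA]
    exact B.2
  have hφ' : Function.Surjective φ' := by
    intro B
    obtain ⟨A, hA⟩ := hs2 B B.2
    refine ⟨⟨A, ?_⟩, Subtype.ext hA⟩
    show R₁ A ∈ S₁
    rw [hS, hA]
    exact B.2
  have hker : LinearMap.ker φ = LinearMap.ker φ' := by
    ext A
    rw [LinearMap.mem_ker, LinearMap.mem_ker]
    constructor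
    · intro hA
      exact Subtype.ext ((hgr A).1 (congrArg Subtype.val hA))
    · intro hA
      exact Subtype.ext ((hgr A).2 (congrArg Subtype.val hA))
  exact LinearEquiv.finrank_eq
    ((φ.quotKerEquivOfSurjective hφ).symm ≪≫ₗ (Submodule.quotEquivOfEq _ _ hker) ≪≫ₗ
      (φ'.quotKerEquivOfSurjective hφ'))

/-- the comparison argument for operators -/
theorem gen_sig' {G W₁ W₂ : Type} [AddCommGroup G] [Module ℂ G] [AddCommGroup W₁]
    [Module ℂ W₁] [AddCommGroup W₂] [Module ℂ W₂] (R₁ : G →ₗ[ℂ] Module.End ℂ W₁)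
    (R₂ : G →ₗ[ℂ] Module.End ℂ W₂) (S₁ : Submodule ℂ (Module.End ℂ W₁))
    (S₂ : Submodule ℂ (Module.End ℂ W₂)) (hgr : ∀ A, R₁ A = 0 ↔ R₂ A = 0)
    (hS : ∀ A, R₁ A ∈ S₁ ↔ R₂ A ∈ S₂) (hs1 : ∀ B ∈ S₁, ∃ A, R₁ A = B)
    (hs2 : ∀ B ∈ S₂, ∃ A, R₂ A = B) : finrank ℂ S₁ = finrank ℂ S₂ :=
  gen_sig R₁ R₂ S₁ S₂ hgr hS hs1 hs2

variable {T : AV} {m : ℕ}

/-- The restriction to an eigenspace. -/
theorem exists_res (D : Cyc T m) (h : Set (Module.End ℝ T.V))
    (hst : ∀ s, ∀ A ∈ gg h, ∀ a ∈ Ws D s, A a ∈ Ws D s) :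
    ∃ R : ∀ s, gg h →ₗ[ℂ] Module.End ℂ (Ws D s), ∀ s (A : gg h) (a : Ws D s),
      ((R s A a : Ws D s) : Frm T) = (A : Module.End ℂ (Frm T)) (a : Frm T) :=
  ⟨fun s => { toFun := fun A => (A : Module.End ℂ (Frm T)).restrict (hst s A A.2)
              map_add' := fun A B => LinearMap.ext fun a => Subtype.ext rfl
              map_smul' := fun c A => LinearMap.ext fun a => Subtype.ext rfl },
    fun s A a => rfl⟩

/-- The operators of eigenvalue `2 i` for `ad J`. -/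
def SJ (D : Cyc T m) (s : (ZMod m)ˣ) : Submodule ℂ (Module.End ℂ (Ws D s)) where
  carrier := {A | ∀ a : Ws D s, ∀ b : Ws D s, (b : Frm T) = pre (mulI T) (a : Frm T) →
        pre (mulI T) (A a : Frm T) - (A b : Frm T) = (2 * Complex.I) • (A a : Frm T)}
  add_mem' {A B} hA hB a b hab := by
    have h1 := hA a b hab
    have h2 := hB a b hab
    rw [LinearMap.add_apply, LinearMap.add_apply, Submodule.coe_add, Submodule.coe_add, map_add,
      smul_add, ← h1, ← h2]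
    abel
  zero_mem' a b _ := by simp
  smul_mem' c A hA a b hab := by
    have h1 := hA a b hab
    rw [LinearMap.smul_apply, LinearMap.smul_apply, Submodule.coe_smul, Submodule.coe_smul,
      map_smul, smul_comm, ← h1, smul_sub]

theorem mem_SJ (D : Cyc T m) (s : (ZMod m)ˣ) (A : Module.End ℂ (Ws D s)) :
    A ∈ SJ D s ↔ ∀ a : Ws D s, ∀ b : Ws D s, (b : Frm T) = pre (mulI T) (a : Frm T) →
        pre (mulI T) (A a : Frm T) - (A b : Frm T) = (2 * Complex.I) • (A a : Frm T) := Iff.rfl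

theorem ext_Ws (D : Cyc T m) (s : (ZMod m)ˣ) (X Y : Module.End ℂ (Ws D s))
    (hXY : ∀ a : Ws D s, ((X a : Ws D s) : Frm T) = ((Y a : Ws D s) : Frm T)) : X = Y :=
  LinearMap.ext fun a => Subtype.ext (hXY a)

/-- a family with two given values -/
theorem exists_fam (D : Cyc T m) (s t : (ZMod m)ˣ) (hst : s ≠ t) (X : Module.End ℂ (Ws D s))
    (Y : Module.End ℂ (Ws D t)) (hX : LinearMap.trace ℂ (Ws D s) X = 0)
    (hY : LinearMap.trace ℂ (Ws D t) Y = 0) :
    ∃ A : ∀ s, Module.End ℂ (Ws D s), (∀ s, LinearMap.trace ℂ (Ws D s) (A s) = 0) ∧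
      A s = X ∧ A t = Y := by
  refine ⟨Function.update (Function.update 0 s X) t Y, ?_, ?_, Function.update_self _ _ _⟩
  · intro s'
    by_cases h1 : s' = t
    · subst h1
      rw [Function.update_self]
      exact hY
    · rw [Function.update_of_ne h1]
      by_cases h2 : s' = s
      · subst h2
        rw [Function.update_self]
        exact hX
      · rw [Function.update_of_ne h2, Pi.zero_apply, map_zero]
  · rw [Function.update_of_ne hst, Function.update_self]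

theorem exists_fam1 (D : Cyc T m) (s : (ZMod m)ˣ) (X : Module.End ℂ (Ws D s))
    (hX : LinearMap.trace ℂ (Ws D s) X = 0) :
    ∃ A : ∀ s, Module.End ℂ (Ws D s), (∀ s, LinearMap.trace ℂ (Ws D s) (A s) = 0) ∧
      A s = X := by
  refine ⟨Function.update 0 s X, ?_, Function.update_self _ _ _⟩
  intro s'
  by_cases h2 : s' = s
  · subst h2
    rw [Function.update_self]
    exact hX
  · rw [Function.update_of_ne h2, Pi.zero_apply, map_zero]

/-- `gg h` is spanned by the `pre X`, `X ∈ Com h`. -/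
theorem span_gg (h : Set (Module.End ℝ T.V)) (hC : ∀ X : Com h, pre (X : Module.End ℝ T.V) ∈ gg h)
    (A : gg h) : A ∈ Submodule.span ℂ
      (Set.range fun X : Com h => (⟨pre (X : Module.End ℝ T.V), hC X⟩ : gg h)) := by
  obtain ⟨A, hA⟩ := A
  induction hA using Submodule.span_induction with
  | mem x hx =>
    obtain ⟨X, hX, rfl⟩ := hx
    exact Submodule.subset_span ⟨⟨X, hX⟩, rfl⟩
  | zero => exact Submodule.zero_mem _
  | add x y hx hy ihx ihy => exact Submodule.add_mem _ ihx ihy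
  | smul c x hx ihx => exact Submodule.smul_mem _ c ihx

end Two_aux

open Two_aux

section

variable {T : AV} {m : ℕ} (D : Cyc T m) (h : Set (Module.End ℝ T.V))
  (R : ∀ s, gg h →ₗ[ℂ] Module.End ℂ (Ws D s))
  (hR : ∀ s (A : gg h) (a : Ws D s),
    ((R s A a : Ws D s) : Frm T) = (A : Module.End ℂ (Frm T)) (a : Frm T))

include hR

/-- the dichotomy -/
private theorem dich (hGou : S_Gou) (hbr : ∀ A ∈ gg h, ∀ B ∈ gg h, A * B - B * A ∈ gg h)
    (htr0 : ∀ s (A : gg h), LinearMap.trace ℂ (Ws D s) (R s A) = 0)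
    (hsurj : ∀ s (X : Module.End ℂ (Ws D s)), LinearMap.trace ℂ (Ws D s) X = 0 →
      ∃ A : gg h, R s A = X) (hfd : ∀ s, FiniteDimensional ℂ (Ws D s)) (σ τ : (ZMod m)ˣ) :
    Hits D h {σ, τ} ∨ ∀ A : gg h, R σ A = 0 ↔ R τ A = 0 := by
  have := hfd σ
  have := hfd τ
  have hbrres : ∀ s (A B : gg h), R s ⟨A * B - B * A, hbr A A.2 B B.2⟩ =
      R s A * R s B - R s B * R s A := by
    intro s A B
    refine ext_Ws D s _ _ fun a => ?_
    have h1 : (R s A * R s B - R s B * R s A) a = R s A (R s B a) - R s B (R s A a) := rfl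
    have h2 : ((A * B - B * A : Module.End ℂ (Frm T))) (a : Frm T) =
      (A : Module.End ℂ (Frm T)) ((B : Module.End ℂ (Frm T)) a) -
        (B : Module.End ℂ (Frm T)) ((A : Module.End ℂ (Frm T)) a) := rfl
    rw [h1, Submodule.coe_sub, hR s A, hR s B, hR s B, hR s A, hR]
    exact h2
  rcases hGou (Ws D σ) (Ws D τ) (LinearMap.range ((R σ).prod (R τ))) (by
      rintro _ ⟨A, rfl⟩ _ ⟨B, rfl⟩
      exact ⟨⟨A * B - B * A, hbr A A.2 B B.2⟩, Prod.ext (hbrres σ A B) (hbrres τ A B)⟩) (by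
      rintro _ ⟨A, rfl⟩
      exact ⟨htr0 σ A, htr0 τ A⟩) (by
      intro X hX
      obtain ⟨A, hA⟩ := hsurj σ X hX
      exact ⟨R τ A, A, Prod.ext hA rfl⟩) (by
      intro Y hY
      obtain ⟨A, hA⟩ := hsurj τ Y hY
      exact ⟨R σ A, A, Prod.ext rfl hA⟩) with h1 | h1
  · left
    intro A hA
    obtain ⟨C, hC⟩ := h1 (A σ) (A τ) (hA σ) (hA τ)
    have hC1 : R σ C = A σ := congrArg Prod.fst hC
    have hC2 : R τ C = A τ := congrArg Prod.snd hC
    refine ⟨C, C.2, ?_⟩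
    intro s' hs' a
    rcases hs' with rfl | hs'
    · rw [← hC1, hR]
    · have hs'' : s' = τ := hs'
      subst hs''
      rw [← hC2, hR]
  · right
    intro A
    exact h1 (R σ A, R τ A) ⟨A, rfl⟩

/-- no hits at the other pairs -/
private theorem nohits (hLI : S_LI) (hm : 3 ≤ m) (r : ℕ) (hr : 2 ≤ r)
    (hdimW : ∀ s, finrank ℂ (Ws D s) = r)
    (htr0 : ∀ s (A : gg h), LinearMap.trace ℂ (Ws D s) (R s A) = 0)
    (hCom : ∀ X ∈ Com h, RatEnd T X ∧ ∀ v, X (D.Z v) = D.Z (X v)) (s t : (ZMod m)ˣ)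
    (hgr : ∀ A : gg h, R s A = 0 → R t A = 0) (hts : t ≠ s) (ρ : (ZMod m)ˣ) :
    ¬ Hits D h {ρ * s, ρ * t} := by
  intro hhits
  have hne : ρ * s ≠ ρ * t := fun he => hts (mul_left_cancel he).symm
  have hComgg : ∀ X : Com h, pre (X : Module.End ℝ T.V) ∈ gg h := fun X =>
    Submodule.subset_span ⟨X, X.2, rfl⟩
  obtain ⟨n, X, c, hc0, hc1, hc2, hc3⟩ := gen_no (W₁ := Ws D s) (W₂ := Ws D t)
    (W₃ := Ws D (ρ * s)) (W₄ := Ws D (ρ * t)) r hr (hdimW s) (hdimW (ρ * s)) (hdimW (ρ * t))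
    (R s) (R t) (R (ρ * s)) (R (ρ * t))
    (fun X : Com h => (⟨pre (X : Module.End ℝ T.V), hComgg X⟩ : gg h))
    (span_gg h hComgg) (htr0 s) hgr (by
      intro X Y hX hY
      obtain ⟨A, hA, hA1, hA2⟩ := exists_fam D (ρ * s) (ρ * t) hne X Y hX hY
      obtain ⟨C, hC, hC'⟩ := hhits A hA
      refine ⟨⟨C, hC⟩, ?_, ?_⟩
      · refine ext_Ws D (ρ * s) _ _ fun a => ?_
        rw [hR, ← hA1]
        exact hC' (ρ * s) (Set.mem_insert _ _) a
      · refine ext_Ws D (ρ * t) _ _ fun a => ?_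
        rw [hR, ← hA2]
        exact hC' (ρ * t) (Set.mem_insert_of_mem _ (Set.mem_singleton _)) a)
  have hval : ∀ (d : Fin n → ℂ) (a : Frm T), ∑ j, d j • pre (X j : Module.End ℝ T.V) a =
      ((∑ j, d j • (⟨pre (X j : Module.End ℝ T.V), hComgg (X j)⟩ : gg h) : gg h) :
        Module.End ℂ (Frm T)) a := by
    intro d a
    rw [AddSubmonoidClass.coe_finsetSum, LinearMap.sum_apply]
    rfl
  obtain ⟨c', hc'0, hc'1⟩ := hLI T m D hm n (fun j => (X j : Module.End ℝ T.V))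
    (fun j => hCom _ (X j).2) {s, t} c hc0 (by
      intro u hu a ha
      rw [hval]
      rcases hu with rfl | hu
      · have h1 := hR u (∑ j, c j • (⟨pre (X j : Module.End ℝ T.V), hComgg (X j)⟩ : gg h)) ⟨a, ha⟩
        rw [hc1] at h1
        exact h1.symm
      · have hu' : u = t := hu
        subst hu'
        have h1 := hR u (∑ j, c j • (⟨pre (X j : Module.End ℝ T.V), hComgg (X j)⟩ : gg h)) ⟨a, ha⟩
        rw [hc2] at h1
        exact h1.symm) ρ
  refine hc'0 (hc3 c' ?_ ?_)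
  · refine ext_Ws D (ρ * s) _ _ fun a => ?_
    rw [hR, ← hval]
    exact hc'1 s (Set.mem_insert _ _) a a.2
  · refine ext_Ws D (ρ * t) _ _ fun a => ?_
    rw [hR, ← hval]
    exact hc'1 t (Set.mem_insert_of_mem _ (Set.mem_singleton _)) a a.2

/-- eigenvectors of `ad J` -/
private theorem keySJ (hJbr : ∀ A ∈ gg h, pre (mulI T) * A - A * pre (mulI T) ∈ gg h)
    (hJst : ∀ σ, ∀ a ∈ Ws D σ, pre (mulI T) a ∈ Ws D σ) (σ : (ZMod m)ˣ) (A : gg h) :
    R σ A ∈ SJ D σ ↔ R σ (⟨pre (mulI T) * A - A * pre (mulI T), hJbr A A.2⟩ -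
      (2 * Complex.I) • A) = 0 := by
  rw [mem_SJ]
  constructor
  · intro hA
    refine ext_Ws D σ _ _ fun a => ?_
    have h3 := hA a ⟨pre (mulI T) a, hJst σ a a.2⟩ rfl
    rw [hR, hR] at h3
    rw [hR]
    exact sub_eq_zero.2 h3
  · intro hA a b hab
    have h4 := hR σ (⟨pre (mulI T) * A - A * pre (mulI T), hJbr A A.2⟩ -
      (2 * Complex.I) • A) a
    rw [hA] at h4
    have h3 : pre (mulI T) ((A : Module.End ℂ (Frm T)) a) -
        (A : Module.End ℂ (Frm T)) (pre (mulI T) a) -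
        (2 * Complex.I) • (A : Module.End ℂ (Frm T)) a = 0 := h4.symm
    rw [hR, hR, hab]
    exact sub_eq_zero.1 h3

/-- the signatures -/
private theorem sig (hAdJ : S_AdJ) (hm : 3 ≤ m)
    (hJbr : ∀ A ∈ gg h, pre (mulI T) * A - A * pre (mulI T) ∈ gg h)
    (hJst : ∀ σ, ∀ a ∈ Ws D σ, pre (mulI T) a ∈ Ws D σ)
    (hsurj : ∀ s (X : Module.End ℂ (Ws D s)), LinearMap.trace ℂ (Ws D s) X = 0 →
      ∃ A : gg h, R s A = X) (σ τ : (ZMod m)ˣ) (hgr : ∀ A : gg h, R σ A = 0 ↔ R τ A = 0) :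
    D.p σ * D.p (-σ) = D.p τ * D.p (-τ) := by
  have h1 := hAdJ T m D hm σ (SJ D σ) (mem_SJ D σ)
  have h2 := hAdJ T m D hm τ (SJ D τ) (mem_SJ D τ)
  have hS : ∀ A : gg h, R σ A ∈ SJ D σ ↔ R τ A ∈ SJ D τ := by
    intro A
    rw [keySJ D h R hR hJbr hJst σ A, keySJ D h R hR hJbr hJst τ A]
    exact hgr _
  have hs1 : ∀ B ∈ SJ D σ, ∃ A, R σ A = B := fun B hB => hsurj σ B (h1.2 B hB)
  have hs2 : ∀ B ∈ SJ D τ, ∃ A, R τ A = B := fun B hB => hsurj τ B (h2.2 B hB)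
  rw [← h1.1, ← h2.1]
  exact gen_sig' (G := gg h) (W₁ := Ws D σ) (W₂ := Ws D τ) (R σ) (R τ) (SJ D σ) (SJ D τ)
    hgr hS hs1 hs2

end

/-- two characters -/
theorem tTwo : S_Two := by
  intro hBas hDim hLI hCl hAdJ hGou T m r D hm hr hdim hAper h hh hone s t hts hts'
  by_contra hnot
  obtain ⟨hbr, hJbr, htr⟩ := hCl hBas T m D hm h hh
  have hBas' := hBas T m D hm
  have hdimW : ∀ s, finrank ℂ (Ws D s) = r := fun s => (hDim T m r D hm hdim s).1
  have hfd : ∀ s, FiniteDimensional ℂ (Ws D s) := fun s =>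
    Module.finite_of_finrank_pos (by rw [hdimW s]; omega)
  have hst : ∀ s, ∀ A ∈ gg h, ∀ a ∈ Ws D s, A a ∈ Ws D s := by
    intro s A hA a ha
    obtain ⟨A', -, h2⟩ := htr A hA s
    have h3 := h2 ⟨a, ha⟩
    rw [h3]
    exact (A' ⟨a, ha⟩).2
  obtain ⟨R, hR⟩ := exists_res D h hst
  have htr0 : ∀ s (A : gg h), LinearMap.trace ℂ (Ws D s) (R s A) = 0 := by
    intro s A
    obtain ⟨A', h1, h2⟩ := htr A A.2 s
    have h3 : R s A = A' := ext_Ws D s _ _ fun a => by rw [hR]; exact h2 a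
    rw [h3, h1]
  have hsurj : ∀ s (X : Module.End ℂ (Ws D s)), LinearMap.trace ℂ (Ws D s) X = 0 →
      ∃ A : gg h, R s A = X := by
    intro s X hX
    obtain ⟨A, hA, hA1⟩ := exists_fam1 D s X hX
    obtain ⟨C, hC, hC'⟩ := hone s A hA
    refine ⟨⟨C, hC⟩, ext_Ws D s _ _ fun a => ?_⟩
    rw [hR, ← hA1]
    exact hC' s (Set.mem_singleton s) a
  have hdich := dich D h R hR hGou hbr htr0 hsurj hfd
  have hgr := (hdich s t).resolve_left hnot
  have hCom : ∀ X ∈ Com h, RatEnd T X ∧ ∀ v, X (D.Z v) = D.Z (X v) := by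
    rintro X ⟨Y, hY, Z, hZ, rfl⟩
    have h1 := hh.lie.br Y hY Z hZ
    exact ⟨hh.rat _ h1, (hh.u _ h1).1⟩
  have hno := nohits D h R hR hLI hm r hr hdimW htr0 hCom s t (fun A => (hgr A).1) hts
  have hJst : ∀ σ, ∀ a ∈ Ws D σ, pre (mulI T) a ∈ Ws D σ := by
    intro σ a ha
    refine hBas'.2.2.1 (mulI T) ?_ σ a ha
    intro v
    show Complex.I • D.Z v = D.Z (Complex.I • v)
    rw [map_smul]
  have hsig : ∀ ρ, D.p (ρ * s) * D.p (-(ρ * s)) = D.p (ρ * t) * D.p (-(ρ * t)) := fun ρ =>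
    sig D h R hR hAdJ hm hJbr hJst hsurj _ _ ((hdich (ρ * s) (ρ * t)).resolve_left (hno ρ))
  rcases hAper (t * s⁻¹) (fun s' => by
    have h1 := hsig (s' * s⁻¹)
    have e1 : s' * s⁻¹ * s = s' := inv_mul_cancel_right s' s
    have e2 : s' * s⁻¹ * t = s' * (t * s⁻¹) := by
      rw [mul_assoc, mul_comm s⁻¹ t]
    rw [e1, e2] at h1
    exact h1.symm) with h1 | h1
  · exact hts (mul_inv_eq_one.1 h1)
  · apply hts'
    rw [mul_inv_eq_iff_eq_mul] at h1
    rw [h1, neg_mul, one_mul]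

end SEB
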