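import Pool.Agent.Lib.SE.Big.VG

/-!
# PROJECT SE, module Wt: the weight is integrable.
-/

set_option autoImplicit false

open Module MeasureTheory Topology

noncomputable section

namespace SEB

open HC HC.E HC.SE

namespace Wt_aux

lemma abs_rpow_int (r : ℝ) (hr : -1 < r) (c d : ℝ) :
    IntervalIntegrable (fun x : ℝ => |x| ^ r) volume c d := by
  have h1 : IntervalIntegrable (fun x : ℝ => (x : ℂ) ^ (r : ℂ)) volume c d :=
    intervalIntegral.intervalIntegrable_cpow' (by simpa using hr)
  have h2 := h1.norm
  refine h2.congr ?_
  intro x _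
  simp only
  rw [Complex.norm_cpow_real, Complex.norm_real, Real.norm_eq_abs]

lemma abs_sub_rpow_int (r : ℝ) (hr : -1 < r) (e c d : ℝ) :
    IntervalIntegrable (fun x : ℝ => |x - e| ^ r) volume c d := by
  have h1 := (abs_rpow_int r hr (c - e) (d - e)).comp_sub_right e
  simpa using h1

/-- integrability near one branch point -/
lemma one {r : ℕ} (μ s : Fin (r + 1) → ℝ) (hμ : Exq μ) (i : Fin (r + 1)) (p q : ℝ)
    (h : ∀ x ∈ Set.uIcc p q, ∀ j, j ≠ i → x ≠ s j) :
    IntervalIntegrable (wt μ s) volume p q := by
  have h1 := abs_sub_rpow_int (-μ i) (by have := (hμ i).2; linarith) (s i) p q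
  have h2 : ContinuousOn (fun x : ℝ => ∏ j ∈ Finset.univ.erase i, |x - s j| ^ (-μ j))
      (Set.uIcc p q) := by
    refine continuousOn_finsetProd _ ?_
    intro j hj
    refine ContinuousOn.rpow_const ?_ ?_
    · exact ((continuous_id.sub continuous_const).abs).continuousOn
    · intro x hx
      left
      have := h x hx j (Finset.ne_of_mem_erase hj)
      exact abs_ne_zero.mpr (sub_ne_zero.mpr this)
  have h3 := h1.mul_continuousOn h2
  refine h3.congr ?_
  intro x _
  simp only [wt]
  exact Finset.mul_prod_erase Finset.univ (fun j => |x - s j| ^ (-μ j)) (Finset.mem_univ i)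

end Wt_aux

theorem tWt : S_Wt := by
  intro r μ s hμ hs k
  have hab : s k.castSucc < s k.succ := hs (Fin.castSucc_lt_succ)
  set a := s k.castSucc with ha
  set b := s k.succ with hb
  have h1 : IntervalIntegrable (wt μ s) volume a ((a + b) / 2) := by
    refine Wt_aux.one μ s hμ k.castSucc _ _ ?_
    intro x hx j hj
    rw [Set.uIcc_of_le (by linarith)] at hx
    rcases lt_or_gt_of_ne hj with h | h
    · have := hs h
      have h2 := hx.1
      rw [ha] at h2
      exact (lt_of_lt_of_le this h2).ne'
    · have h3 : k.succ ≤ j := by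
        rw [Fin.le_def]
        rw [Fin.lt_def] at h
        simpa using h
      have := hs.monotone h3
      have h2 := hx.2
      rw [← hb] at this
      have h4 : x < s j := by linarith
      exact h4.ne
  have h2 : IntervalIntegrable (wt μ s) volume ((a + b) / 2) b := by
    refine Wt_aux.one μ s hμ k.succ _ _ ?_
    intro x hx j hj
    rw [Set.uIcc_of_le (by linarith)] at hx
    rcases lt_or_gt_of_ne hj with h | h
    · have h3 : j ≤ k.castSucc := by
        rw [Fin.le_def]
        rw [Fin.lt_def] at h
        simp at h ⊢
        omega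
      have := hs.monotone h3
      have h2 := hx.1
      rw [← ha] at this
      have h4 : s j < x := by linarith
      exact h4.ne'
    · have := hs h
      have h2 := hx.2
      rw [hb] at h2
      exact (lt_of_le_of_lt h2 this).ne
  exact h1.trans h2

end SEB
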