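import Pool.Agent.Lib.SE.Big.Asm6
import Pool.Agent.Lib.SE.Big.L1
import Pool.Agent.Lib.SE.Big.Perf
import Pool.Agent.Lib.SE.Big.Gou
import Pool.Agent.Lib.SE.Big.Pj
import Pool.Agent.Lib.SE.Big.Hm
import Pool.Agent.Lib.SE.Big.Tw
import Pool.Agent.Lib.SE.Big.Bas
import Pool.Agent.Lib.SE.Big.LI
import Pool.Agent.Lib.SE.Big.Dim
import Pool.Agent.Lib.SE.Big.J0
import Pool.Agent.Lib.SE.Big.AdJ
import Pool.Agent.Lib.SE.Big.Red
import Pool.Agent.Lib.SE.Big.RatSp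
import Pool.Agent.Lib.SE.Big.Irr
import Pool.Agent.Lib.SE.Big.R2i
import Pool.Agent.Lib.SE.Big.Cl
import Pool.Agent.Lib.SE.Big.At0
import Pool.Agent.Lib.SE.Big.All
import Pool.Agent.Lib.SE.Big.Two
import Pool.Agent.Lib.SE.Big.Rib
import Pool.Agent.Lib.SE.Big.Tr
import Pool.Agent.Lib.SE.Big.Real
import Pool.Agent.Lib.SE.Big.Fin
import Pool.Agent.Lib.SE.Big.Hl
import Pool.Agent.Lib.SE.Big.Avg
import Pool.Agent.Lib.SE.Big.A1
import Pool.Agent.Lib.SE.Big.A2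
import Pool.Agent.Lib.SE.Big.A3
import Pool.Agent.Lib.SE.Big.A4
import Pool.Agent.Lib.SE.Big.ToBig
import Pool.Agent.Lib.SE.Big.Sg
import Pool.Agent.Lib.SE.Big.Pnew
import Pool.Agent.Lib.SE.Big.Ap
import Pool.Agent.Lib.SE.Big.Pr
import Pool.Agent.Lib.SE.Big.IrrZ
import Pool.Agent.Lib.SE.Big.Per
import Pool.Agent.Lib.SE.Big.Wt
import Pool.Agent.Lib.SE.Big.Sub
import Pool.Agent.Lib.SE.Big.Der
import Pool.Agent.Lib.SE.Big.Ctn
import Pool.Agent.Lib.SE.Big.Mom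
import Pool.Agent.Lib.SE.Big.Bai
import Pool.Agent.Lib.SE.Big.Br
import Pool.Agent.Lib.SE.Big.Seg
import Pool.Agent.Lib.SE.Big.Lat
import Pool.Agent.Lib.SE.Big.Ca
import Pool.Agent.Lib.SE.Big.Cb
import Pool.Agent.Lib.SE.Big.Bf
import Pool.Agent.Lib.SE.Big.Loop
import Pool.Agent.Lib.SE.Big.FH
import Pool.Agent.Lib.SE.Big.FLI
import Pool.Agent.Lib.SE.Big.FTwo
import Pool.Agent.Lib.SE.Big.FRib
import Pool.Agent.Lib.SE.Big.FFin
import Pool.Agent.Lib.SE.Big.FHl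
import Pool.Agent.Lib.SE.Big.Sep

/-!
# PROJECT SE, module IsBig: the theorems of parts 1, 2, 3 without hypotheses (helper64)
-/

set_option autoImplicit false

open Module

noncomputable section

namespace SEB

open HC HC.E HC.SE

theorem mods : Mods where
  L1 := tL1
  Perf := tPerf
  Gou := tGou
  Pj := tPj
  Bas := tBas tPj
  LI := tLI tPj tTw
  Dim := tDim tPj tTw (tBas tPj)
  J0 := tJ0
  AdJ := tAdJ (tBas tPj)
  Red := tRed tHm
  RatSp := tRatSp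
  Irr := tIrr
  R2i := tR2i
  Cl := tCl
  At0 := tAt0
  All := tAll
  Two := tTwo
  Rib := tRib
  Tr := tTr
  Real := tReal
  Fin := tFin tPj

theorem mods2 : Mods2 where
  Irr := tIrrZ
  Hl := tHl
  To := tToBig
  Sg := tSg
  Pn := tPnew
  Ap := tAp
  Per := tPer
  Bai := tBai tWt (tDer tWt (tSub tWt)) (tCon tWt (tSub tWt)) (tMom tWt)
  Br := tBr
  Lat := tLat tBr tSeg
  Ca := tCa tBr
  Cb := tCb tBr
  Loop := tLoop
  Bf := tBf

theorem mods3 : Mods3 where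
  FH := tFH
  FLI := tFLI tPj tTw
  FTwo := tFTwo
  FRib := tFRib
  FFin := tFFin
  FHl := tFHl

/-- Any `T`, rank 2. -/
theorem thR2 : R2 := r2 mods

/-- Any `T`, `End⁰(T) = ℚ(Z)`. -/
theorem thRr : Rr := rr mods

/-- Any `T`, the commutant of `Z` is `ℚ(Z)`. -/
theorem thRz {T : AV} {m r : ℕ} {D : Cyc T m} (hm : 3 ≤ m) (hr : 2 ≤ r)
    (hd : 2 * finrank ℂ T.V = r * Nat.totient m) (hs : ∃ s, D.p s = 1) (hE : EndZ D)
    (hap : Aper D) : IsBig D := rrz mods tIrrZ hm hr hd hs hE hap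

theorem thBigR2 : BigR2 := bigR2 mods tHl tToBig tSg tPnew tAp tA1 (tA2 tHm) tA3 tA4

theorem thBigRr : BigRr := bigRr mods tHl tToBig tSg tPnew tAp

theorem thBigRz : BigRz := bigRz mods tIrrZ tHl tToBig tSg tPnew tAp

theorem thBigVG : BigVG := bigVG mods mods2

/-- Families. -/
theorem thBigF {q : ℕ} (F : Fm q) (hsep : SepF F) (hfull : ∀ i, Full (F.D i)) :
    HC.SE.Big F.T (fun i => (F.D i).Z) (fun i => (F.D i).ψ) := bigF mods tPj mods3 F hsep hfull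

theorem thAvg : S_Avg := tAvg

theorem thA4 : ∀ (T : AV) (m : ℕ) (D : Cyc T m), IsAb D → IsCM T := tA4 tA1 (tA2 tHm) tA3

end SEB
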