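import Pool.Agent.Lib.SE.All
import Pool.Agent.Lib.HC.All
import Pool.Agent.Lib.SE.Big.Main

/-!
# PROJECT SE: the Hodge conjecture for `A × J ^ N`, from theorem B and parts 1-3 (helper64)
-/

set_option autoImplicit false

open Module

noncomputable section

namespace SEB

open HC HC.E HC.SE

theorem thmB' : ThmB := _root_.SE.thm_B

theorem thHC2 : HC2 := hc2 thmB' HC.hodgeCM thBigR2 tAvg

theorem thHCr : HCr := hcr thmB' thBigRr tAvg

theorem thCorR : CorR := corR thmB' thBigRz tAvg

theorem thCorM : CorM := corM thmB' thBigVG tAvg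

theorem thCorA : CorA := corA thHC2 tPr

theorem thCorB : CorB := corB thCorR tPr

theorem thCorC : CorC := corC thCorM tPr

end SEB
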