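import Pool.Agent.Lib.SE.Big.Asm7
import Pool.Agent.Lib.SE.Q.SpecG

/-!
# PROJECT SE: very general complex branch points in the form `GFg` (helper64)
-/

set_option autoImplicit false

open Module MeasureTheory

noncomputable section

namespace SEB

open HC HC.E HC.SE

theorem isHit_of_full (M : Mods) {T : AV} {m : ℕ} {D : Cyc T m} (hm : 3 ≤ m) (hF : Full D) :
    SEQ.IsHit D := fun h hh F hf =>
  M.Rib M.Cl M.Perf T m D hm h hh (hF h hh).1 (hF h hh).2 F hf

theorem cyc_eq {T : AV} {m r : ℕ} {s : Fin (r + 1) → ℂ} {b : Fin (r + 1) → ℕ} (N : New T m s b)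
    (D : Cyc T m) (hD : D.Z = N.Z) : ∃ hE : IsPol T N.Z D.ψ, mkCyc N hE = D := by
  have hE : IsPol T N.Z D.ψ :=
    ⟨D.int, D.alt, D.cpx, D.pos, fun u v => by rw [← hD]; exact D.inv u v⟩
  refine ⟨hE, ?_⟩
  cases D
  unfold mkCyc
  congr
  exact hD.symm

/-- `Full` gives a good factor. -/
theorem gfg_of_full (M : Mods) (hPn : S_Pnew) (hSg : S_Sg) (hAp : S_Ap) {T : AV} {m r : ℕ}
    {s : Fin (r + 1) → ℂ} {b : Fin (r + 1) → ℕ} (hc : IsCov m s b) (N : New T m s b)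
    (D : Cyc T m) (hD : D.Z = N.Z) (hr : 2 ≤ r) (hu : HypU m r b) (hap : AperC m r b)
    (hF : Full D) : SEQ.GFg D r := by
  have hm : 3 ≤ m := hc.1
  have hp : ∀ u : (ZMod m)ˣ, D.p u = sg m r b (u : ZMod m).val := hPn hSg M.Bas T m r s b hc N D hD
  have hdim : 2 * finrank ℂ T.V = r * Nat.totient m := N.dim
  refine ⟨hm, hr, hdim, ?_, hAp T m r D b hm hp hap, isHit_of_full M hm hF⟩
  obtain ⟨u, hum, huc, h1, h2, h3⟩ := hu
  obtain ⟨w, hw⟩ := exists_unit hum huc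
  have h4 := hSg m r s b hc u hum huc
  refine ⟨w, ?_, ?_, ?_⟩
  · rw [hp, hw]; exact h1
  · rw [hp, hw]; omega
  · rw [hp, hw]
    rcases h3 with h3 | h3
    · left; omega
    · exact Or.inr h3

/-- Very general complex branch points give good factors. -/
theorem meagre_gfg (M : Mods) (M5 : Mods5) (hV : FullC) (m r : ℕ) (b : Fin (r + 1) → ℕ)
    (hr : 2 ≤ r) (hu : HypU m r b) (hap : AperC m r b) :
    IsMeagre {s : Fin (r + 1) → ℂ | Function.Injective s ∧ ¬ ∀ T : AV, IsCov m s b →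
      ∀ (N : New T m s b) (D : Cyc T m), D.Z = N.Z → SEQ.GFg D r} := by
  refine (hV m r b hr hu hap).mono ?_
  rintro s ⟨hs, hno⟩
  refine ⟨hs, fun hall => hno fun T hc N D hD => ?_⟩
  obtain ⟨hE, hDE⟩ := cyc_eq N D hD
  have h1 := hall T hc N D.ψ hE
  rw [hDE] at h1
  exact gfg_of_full M M5.Pn M5.Sg M5.Ap hc N D hD hr hu hap h1

end SEB
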