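import Pool.Agent.Lib.SE.Big.VG2

/-!
# PROJECT SE, module IsBig, part 4, module R1N: rank one nilpotents (helper94)
-/

set_option autoImplicit false

open Module MeasureTheory Topology

noncomputable section

namespace SEB

open HC HC.E HC.SE

namespace R1N_aux

section

variable {V : Type} [AddCommGroup V] [Module ℂ V]

/-- the rank one operator `v ↦ γ(v) u` -/
def R (u : V) (γ : Dual ℂ V) : Module.End ℂ V := γ.smulRight u

theorem Rap (u : V) (γ : Dual ℂ V) (v : V) : R u γ v = γ v • u := rfl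

/-- the projection along `x`, `y` -/
def p0 (x y : V) (φ ψ : Dual ℂ V) : V →ₗ[ℂ] V := LinearMap.id - R x ψ - R y φ

theorem p0_apply (x y : V) (φ ψ : Dual ℂ V) (v : V) :
    p0 x y φ ψ v = v - ψ v • x - φ v • y := rfl

/-- The normalized data. -/
structure Dat (g : Submodule ℂ (Module.End ℂ V)) (J : Module.End ℂ V) (x y : V)
    (φ ψ : Dual ℂ V) : Prop where
  br : ∀ X ∈ g, ∀ Y ∈ g, X * Y - Y * X ∈ g
  hJ : J ∈ g
  JJ : J * J = -1
  Jx : J x = -Complex.I • x
  Jy : J y = Complex.I • y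
  φJ : ∀ v, φ (J v) = Complex.I * φ v
  ψJ : ∀ v, ψ (J v) = -Complex.I * ψ v
  φy : φ y = 1
  ψx : ψ x = 1
  φx : φ x = 0
  ψy : ψ y = 0
  e : R x φ ∈ g
  f : R y ψ ∈ g
  irr : ∀ U : Submodule ℂ V, (∀ X ∈ g, ∀ u ∈ U, X u ∈ U) → U = ⊥ ∨ U = ⊤

variable {g : Submodule ℂ (Module.End ℂ V)} {J : Module.End ℂ V} {x y : V} {φ ψ : Dual ℂ V}

theorem Dat.h (D : Dat g J x y φ ψ) : R x ψ - R y φ ∈ g := by
  have h1 := D.br _ D.e _ D.f
  have h2 : R x φ * R y ψ - R y ψ * R x φ = R x ψ - R y φ := by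
    refine LinearMap.ext fun v => ?_
    simp only [LinearMap.sub_apply, Module.End.mul_apply, Rap, map_smul, D.φy, D.ψx, one_smul]
  rwa [h2] at h1

theorem Dat.p0x (D : Dat g J x y φ ψ) : p0 x y φ ψ x = 0 := by
  rw [p0_apply, D.ψx, D.φx]
  module

theorem Dat.p0y (D : Dat g J x y φ ψ) : p0 x y φ ψ y = 0 := by
  rw [p0_apply, D.ψy, D.φy]
  module

theorem Dat.φ0 (D : Dat g J x y φ ψ) (v : V) : φ (p0 x y φ ψ v) = 0 := by
  simp [p0_apply, D.φx, D.φy]

theorem Dat.ψ0 (D : Dat g J x y φ ψ) (v : V) : ψ (p0 x y φ ψ v) = 0 := by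
  simp [p0_apply, D.ψx, D.ψy]

theorem dec (v : V) : v = ψ v • x + φ v • y + p0 x y φ ψ v := by
  rw [p0_apply]
  module

/-- The component of weight one. -/
theorem Dat.comp1 (D : Dat g J x y φ ψ) {X : Module.End ℂ V} (hX : X ∈ g) :
    R x (ψ ∘ₗ X ∘ₗ p0 x y φ ψ) + R (p0 x y φ ψ (X y)) φ ∈ g := by
  have h1 := D.br _ D.h _ hX
  have h2 := D.br _ D.h _ h1
  have h3 : R x (ψ ∘ₗ X ∘ₗ p0 x y φ ψ) + R (p0 x y φ ψ (X y)) φ =
      (1 / 2 : ℂ) • (((R x ψ - R y φ) * ((R x ψ - R y φ) * X - X * (R x ψ - R y φ)) -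
        ((R x ψ - R y φ) * X - X * (R x ψ - R y φ)) * (R x ψ - R y φ)) +
        ((R x ψ - R y φ) * X - X * (R x ψ - R y φ))) - (3 * ψ (X y)) • R x φ -
      φ (X x) • R y ψ := by
    refine LinearMap.ext fun v => ?_
    simp only [LinearMap.sub_apply, LinearMap.add_apply, LinearMap.smul_apply,
      Module.End.mul_apply, Rap, map_smul, map_sub, D.φy, D.ψx, D.φx, D.ψy,
      smul_eq_mul, p0_apply, LinearMap.comp_apply]
    module
  rw [h3]
  exact g.sub_mem (g.sub_mem (g.smul_mem _ (g.add_mem h2 h1)) (g.smul_mem _ D.e))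
    (g.smul_mem _ D.f)

/-- Evaluation at `y` is surjective. -/
theorem Dat.surj (D : Dat g J x y φ ψ) (v : V) : ∃ Z ∈ g, Z y = v := by
  have h1 := D.irr (g.map (LinearMap.applyₗ y)) ?_
  · rcases h1 with h1 | h1
    · exfalso
      have h2 : x ∈ g.map (LinearMap.applyₗ y) := by
        refine Submodule.mem_map.2 ⟨R x φ, D.e, ?_⟩
        show R x φ y = x
        rw [Rap, D.φy, one_smul]
      rw [h1, Submodule.mem_bot] at h2
      have h3 := D.ψx
      rw [h2, map_zero] at h3
      exact zero_ne_one h3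
    · have h2 : v ∈ g.map (LinearMap.applyₗ y) := by
        rw [h1]
        trivial
      obtain ⟨Z, hZ, h3⟩ := Submodule.mem_map.1 h2
      exact ⟨Z, hZ, h3⟩
  · intro X hX u hu
    obtain ⟨Z, hZ, rfl⟩ := Submodule.mem_map.1 hu
    have hB := D.comp1 hZ
    set B := R x (ψ ∘ₗ Z ∘ₗ p0 x y φ ψ) + R (p0 x y φ ψ (Z y)) φ with hBd
    refine Submodule.mem_map.2 ⟨ψ (Z y) • ((X * R x φ - R x φ * X) + φ (X y) • R x φ) +
      φ (Z y) • X + (X * B - B * X) + ψ (Z (p0 x y φ ψ (X y))) • R x φ + φ (X y) • B, ?_, ?_⟩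
    · exact g.add_mem (g.add_mem (g.add_mem (g.add_mem (g.smul_mem _ (g.add_mem
        (D.br _ hX _ D.e) (g.smul_mem _ D.e))) (g.smul_mem _ hX)) (D.br _ hX _ hB))
        (g.smul_mem _ D.e)) (g.smul_mem _ hB)
    · show (ψ (Z y) • ((X * R x φ - R x φ * X) + φ (X y) • R x φ) +
        φ (Z y) • X + (X * B - B * X) + ψ (Z (p0 x y φ ψ (X y))) • R x φ + φ (X y) • B) y =
        X (Z y)
      simp only [hBd, LinearMap.sub_apply, LinearMap.add_apply, LinearMap.smul_apply,
        Module.End.mul_apply, Rap, map_smul, map_sub, map_add, D.φy, D.ψy,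
        smul_eq_mul, p0_apply, LinearMap.comp_apply]
      module

/-- The functionals `ψ ∘ Z` are all functionals. -/
theorem Dat.surj' [FiniteDimensional ℂ V] (D : Dat g J x y φ ψ) (α : Dual ℂ V) :
    ∃ Z ∈ g, ∀ v, ψ (Z v) = α v := by
  let Lp : Module.End ℂ V →ₗ[ℂ] Dual ℂ V :=
    { toFun := fun Z => ψ ∘ₗ Z
      map_add' := fun Z W => LinearMap.comp_add _ _ _
      map_smul' := fun c Z => LinearMap.comp_smul _ _ _ }
  have h1 := D.irr (g.map Lp).dualCoannihilator ?_
  · rcases h1 with h1 | h1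
    · have h2 := Subspace.dualCoannihilator_dualAnnihilator_eq (W := g.map Lp)
      rw [h1, Submodule.dualAnnihilator_bot] at h2
      have h3 : α ∈ g.map Lp := by
        rw [← h2]
        trivial
      obtain ⟨Z, hZ, h4⟩ := Submodule.mem_map.1 h3
      exact ⟨Z, hZ, fun v => LinearMap.congr_fun h4 v⟩
    · exfalso
      have h2 : x ∈ (g.map Lp).dualCoannihilator := by
        rw [h1]
        trivial
      rw [Submodule.mem_dualCoannihilator] at h2
      have h3 : ψ ((R x ψ - R y φ) x) = 0 := h2 _ (Submodule.mem_map_of_mem (f := Lp) D.h)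
      rw [LinearMap.sub_apply, Rap, Rap, D.ψx, D.φx, one_smul, zero_smul, sub_zero,
        D.ψx] at h3
      exact one_ne_zero h3
  · intro X hX v hv
    rw [Submodule.mem_dualCoannihilator] at hv ⊢
    have hv' : ∀ Z ∈ g, ψ (Z v) = 0 := fun Z hZ => hv _ (Submodule.mem_map_of_mem (f := Lp) hZ)
    intro γ hγ
    obtain ⟨Z, hZ, rfl⟩ := Submodule.mem_map.1 hγ
    show ψ (Z (X v)) = 0
    have hψv : ψ v = 0 := by
      have h3 := hv' _ D.h
      simpa [Rap, D.ψx, D.ψy] using h3
    have hφv : φ v = 0 := by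
      have h3 := hv' _ D.e
      simpa [Rap, D.ψx] using h3
    have hψX : ψ (X v) = 0 := hv' _ hX
    have hφX : φ (X v) = 0 := by
      have h3 := hv' _ (D.br _ D.e _ hX)
      simpa [Rap, D.ψx, hφv] using h3
    have hZv := hv' _ hZ
    have h5 := hv' _ (D.br _ (D.comp1 hZ) _ hX)
    simpa [Rap, D.ψx, D.ψy, p0_apply, hφv, hψv, hψX, hφX, hZv] using h5

theorem Dat.n1 (D : Dat g J x y φ ψ) (v : V) (hφ : φ v = 0) (hψ : ψ v = 0) :
    ∃ α : Dual ℂ V, α x = 0 ∧ α y = 0 ∧ R x α + R v φ ∈ g := by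
  obtain ⟨Z, hZ, h1⟩ := D.surj v
  refine ⟨ψ ∘ₗ Z ∘ₗ p0 x y φ ψ, ?_, ?_, ?_⟩
  · simp [D.p0x]
  · simp [D.p0y]
  · have h2 := D.comp1 hZ
    have h3 : p0 x y φ ψ (Z y) = v := by
      rw [h1, p0_apply, hφ, hψ]
      module
    rwa [h3] at h2

theorem Dat.n1' [FiniteDimensional ℂ V] (D : Dat g J x y φ ψ) (α : Dual ℂ V) (hx : α x = 0)
    (hy : α y = 0) : ∃ v : V, φ v = 0 ∧ ψ v = 0 ∧ R x α + R v φ ∈ g := by
  obtain ⟨Z, hZ, h1⟩ := D.surj' α
  refine ⟨p0 x y φ ψ (Z y), D.φ0 _, D.ψ0 _, ?_⟩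
  have h2 := D.comp1 hZ
  have h3 : ψ ∘ₗ Z ∘ₗ p0 x y φ ψ = α := by
    refine LinearMap.ext fun v => ?_
    rw [LinearMap.comp_apply, LinearMap.comp_apply, h1, p0_apply, map_sub, map_sub, map_smul,
      map_smul, hx, hy, smul_zero, smul_zero, sub_zero, sub_zero]
  rwa [h3] at h2

theorem Dat.two [FiniteDimensional ℂ V] (D : Dat g J x y φ ψ) {α : Dual ℂ V} (hx : α x = 0)
    (hy : α y = 0) (hα : α ≠ 0) (hg : R x α ∈ g) :
    (∀ v, φ v = 0 → ψ v = 0 → R v φ ∈ g) ∧ ∀ β : Dual ℂ V, β x = 0 → β y = 0 → R x β ∈ g := by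
  have key : ∀ v w, φ v = 0 → ψ v = 0 → φ w = 0 → ψ w = 0 →
      α w • R v φ + α v • R w φ ∈ g := by
    intro v w hφv hψv hφw hψw
    obtain ⟨β, hβx, hβy, hB⟩ := D.n1 v hφv hψv
    obtain ⟨β', hβx', hβy', hB'⟩ := D.n1 w hφw hψw
    have h1 := D.br _ (D.br _ hB _ (D.br _ D.f _ hg)) _ hB'
    have h2 := g.add_mem h1 (g.smul_mem (β' v) hg)
    refine (congrArg (· ∈ g) ?_).mp h2
    refine LinearMap.ext fun u => ?_
    simp only [LinearMap.sub_apply, LinearMap.add_apply, LinearMap.smul_apply,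
      Module.End.mul_apply, Rap, map_smul, map_sub, map_add, D.φy, D.ψx, D.φx, hx, hy,
      hφv, hψv, hφw, hψw, hβx, hβy, hβx', hβy']
    module
  obtain ⟨u, hu⟩ : ∃ u, α u ≠ 0 := by
    by_contra h
    push Not at h
    exact hα (LinearMap.ext h)
  have hu' : α (p0 x y φ ψ u) ≠ 0 := by
    rw [p0_apply, map_sub, map_sub, map_smul, map_smul, hx, hy, smul_zero, smul_zero, sub_zero,
      sub_zero]
    exact hu
  have h0 : R (p0 x y φ ψ u) φ ∈ g := by
    have h1 := key _ _ (D.φ0 u) (D.ψ0 u) (D.φ0 u) (D.ψ0 u)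
    rw [← add_smul] at h1
    exact (Submodule.smul_mem_iff g (by
      intro h2
      apply hu'
      linear_combination (1 / 2 : ℂ) * h2)).1 h1
  have hall : ∀ v, φ v = 0 → ψ v = 0 → R v φ ∈ g := by
    intro v hφ hψ
    have h1 := key _ _ hφ hψ (D.φ0 u) (D.ψ0 u)
    have h2 := g.sub_mem h1 (g.smul_mem (α v) h0)
    rw [add_sub_cancel_right] at h2
    exact (Submodule.smul_mem_iff g hu').1 h2
  refine ⟨hall, fun β hβx hβy => ?_⟩
  obtain ⟨v, hφ, hψ, h1⟩ := D.n1' β hβx hβy
  have h2 := g.sub_mem h1 (hall v hφ hψ)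
  rwa [add_sub_cancel_right] at h2

theorem Dat.two' [FiniteDimensional ℂ V] (D : Dat g J x y φ ψ) {v : V} (hφ : φ v = 0)
    (hψ : ψ v = 0) (hv : v ≠ 0) (hg : R v φ ∈ g) :
    (∀ v, φ v = 0 → ψ v = 0 → R v φ ∈ g) ∧ ∀ β : Dual ℂ V, β x = 0 → β y = 0 → R x β ∈ g := by
  have key : ∀ β β' : Dual ℂ V, β x = 0 → β y = 0 → β' x = 0 → β' y = 0 →
      β v • R x β' + β' v • R x β ∈ g := by
    intro β β' hβx hβy hβx' hβy'
    obtain ⟨w, hφw, hψw, hB⟩ := D.n1' β hβx hβy
    obtain ⟨w', hφw', hψw', hB'⟩ := D.n1' β' hβx' hβy'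
    have h1 := D.br _ (D.br _ hB _ (D.br _ D.f _ hg)) _ hB'
    have h2 := g.sub_mem (g.neg_mem h1) (g.smul_mem (- β w') hg)
    refine (congrArg (· ∈ g) ?_).mp h2
    refine LinearMap.ext fun u => ?_
    simp only [LinearMap.sub_apply, LinearMap.add_apply, LinearMap.smul_apply, LinearMap.neg_apply,
      Module.End.mul_apply, Rap, map_smul, map_sub, map_add, D.φy, D.ψx, D.φx, hφ, hψ,
      hφw, hψw, hφw', hψw', hβx, hβy, hβx', hβy']
    module
  obtain ⟨γ, hγ⟩ : ∃ γ : Dual ℂ V, γ v ≠ 0 := by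
    by_contra h
    push Not at h
    exact hv ((Module.forall_dual_apply_eq_zero_iff ℂ v).1 h)
  have hx0 : (γ ∘ₗ p0 x y φ ψ) x = 0 := by
    rw [LinearMap.comp_apply, D.p0x, map_zero]
  have hy0 : (γ ∘ₗ p0 x y φ ψ) y = 0 := by
    rw [LinearMap.comp_apply, D.p0y, map_zero]
  have hv0 : (γ ∘ₗ p0 x y φ ψ) v ≠ 0 := by
    rw [LinearMap.comp_apply, p0_apply, hφ, hψ, zero_smul, zero_smul, sub_zero, sub_zero]
    exact hγ
  have h0 : R x (γ ∘ₗ p0 x y φ ψ) ∈ g := by
    have h1 := key _ _ hx0 hy0 hx0 hy0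
    rw [← add_smul] at h1
    exact (Submodule.smul_mem_iff g (by
      intro h2
      apply hv0
      linear_combination (1 / 2 : ℂ) * h2)).1 h1
  have hall : ∀ β : Dual ℂ V, β x = 0 → β y = 0 → R x β ∈ g := by
    intro β hβx hβy
    have h1 := key _ _ hx0 hy0 hβx hβy
    have h2 := g.sub_mem h1 (g.smul_mem (β v) h0)
    rw [add_sub_cancel_right] at h2
    exact (Submodule.smul_mem_iff g hv0).1 h2
  refine ⟨fun w hφw hψw => ?_, hall⟩
  obtain ⟨β, hβx, hβy, h1⟩ := D.n1 w hφw hψw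
  have h2 := g.sub_mem h1 (hall β hβx hβy)
  rwa [add_sub_cancel_left] at h2

/-- A relation between vectors and functionals which is linear has a linear section. -/
theorem Dat.sec (D : Dat g J x y φ ψ) : ∃ T : V →ₗ[ℂ] Dual ℂ V, ∀ v, T v x = 0 ∧ T v y = 0 ∧
    R x (T v) + R (p0 x y φ ψ v) φ ∈ g := by
  let Γ : Submodule ℂ (V × Dual ℂ V) :=
    { carrier := {p | p.2 x = 0 ∧ p.2 y = 0 ∧ R x p.2 + R (p0 x y φ ψ p.1) φ ∈ g}
      add_mem' := by
        rintro p q ⟨h1, h2, h3⟩ ⟨h4, h5, h6⟩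
        refine ⟨?_, ?_, ?_⟩
        · show (p.2 + q.2) x = 0
          rw [LinearMap.add_apply, h1, h4, add_zero]
        · show (p.2 + q.2) y = 0
          rw [LinearMap.add_apply, h2, h5, add_zero]
        · refine (congrArg (· ∈ g) ?_).mp (g.add_mem h3 h6)
          refine LinearMap.ext fun u => ?_
          simp only [LinearMap.add_apply, Rap, Prod.snd_add, Prod.fst_add, map_add]
          module
      zero_mem' := by
        refine ⟨rfl, rfl, ?_⟩
        refine (congrArg (· ∈ g) ?_).mp g.zero_mem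
        refine LinearMap.ext fun u => ?_
        simp [Rap]
      smul_mem' := by
        rintro c p ⟨h1, h2, h3⟩
        refine ⟨?_, ?_, ?_⟩
        · show (c • p.2) x = 0
          rw [LinearMap.smul_apply, h1, smul_zero]
        · show (c • p.2) y = 0
          rw [LinearMap.smul_apply, h2, smul_zero]
        · refine (congrArg (· ∈ g) ?_).mp (g.smul_mem c h3)
          refine LinearMap.ext fun u => ?_
          simp only [LinearMap.add_apply, LinearMap.smul_apply, Rap, Prod.smul_snd,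
            Prod.smul_fst, map_smul, smul_eq_mul]
          module }
  have hsurj : LinearMap.range ((LinearMap.fst ℂ V (Dual ℂ V)).comp Γ.subtype) = ⊤ := by
    refine LinearMap.range_eq_top.2 fun v => ?_
    obtain ⟨α, h1, h2, h3⟩ := D.n1 (p0 x y φ ψ v) (D.φ0 v) (D.ψ0 v)
    exact ⟨⟨(v, α), h1, h2, h3⟩, rfl⟩
  obtain ⟨s, hs⟩ := LinearMap.exists_rightInverse_of_surjective _ hsurj
  refine ⟨(LinearMap.snd ℂ V (Dual ℂ V)).comp (Γ.subtype.comp s), fun v => ?_⟩
  have h1 : ((s v : Γ) : V × Dual ℂ V).1 = v := LinearMap.congr_fun hs v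
  obtain ⟨h2, h3, h4⟩ := (s v).2
  rw [h1] at h4
  exact ⟨h2, h3, h4⟩

theorem Dat.p0J (D : Dat g J x y φ ψ) (v : V) : p0 x y φ ψ (J v) = J (p0 x y φ ψ v) := by
  rw [p0_apply, p0_apply, map_sub, map_sub, map_smul, map_smul, D.Jx, D.Jy, D.φJ, D.ψJ]
  module

theorem Dat.three [FiniteDimensional ℂ V] (D : Dat g J x y φ ψ)
    (h1 : ∀ α : Dual ℂ V, α x = 0 → α y = 0 → R x α ∈ g → α = 0)
    (h2 : ∀ v, φ v = 0 → ψ v = 0 → R v φ ∈ g → v = 0) :
    finrank ℂ (LinearMap.ker (J - Complex.I • (1 : Module.End ℂ V))) =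
      finrank ℂ (LinearMap.ker (J + Complex.I • (1 : Module.End ℂ V))) := by
  obtain ⟨T, hT⟩ := D.sec
  have hI : Complex.I * Complex.I = -1 := Complex.I_mul_I
  -- the functionals vanish on the eigenspaces
  have hp : ∀ v, J v = Complex.I • v → ∀ w, T v (J w) = -Complex.I * T v w := by
    intro v hv w
    obtain ⟨hx, hy, hB⟩ := hT v
    have h3 : R x (-Complex.I • T v - (T v) ∘ₗ J) ∈ g := by
      refine (congrArg (· ∈ g) ?_).mp (D.br _ D.hJ _ hB)
      refine LinearMap.ext fun u => ?_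
      have h4 : J (p0 x y φ ψ v) = Complex.I • p0 x y φ ψ v := by
        rw [← D.p0J, hv, map_smul]
      simp only [LinearMap.sub_apply, LinearMap.add_apply, LinearMap.smul_apply,
        Module.End.mul_apply, Rap, map_smul, map_add, LinearMap.comp_apply, h4, D.Jx, D.φJ,
        smul_eq_mul]
      module
    have h4 := h1 _ (by simp [D.Jx, hx]) (by simp [D.Jy, hy]) h3
    have h5 := LinearMap.congr_fun h4 w
    simp only [LinearMap.sub_apply, LinearMap.smul_apply, LinearMap.comp_apply, smul_eq_mul,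
      LinearMap.zero_apply] at h5
    linear_combination -h5
  have hm : ∀ v, J v = -Complex.I • v → ∀ w, T v (J w) = Complex.I * T v w := by
    intro v hv w
    obtain ⟨hx, hy, hB⟩ := hT v
    have h3 : R x (Complex.I • T v - (T v) ∘ₗ J) ∈ g := by
      refine (congrArg (· ∈ g) ?_).mp (g.add_mem (D.br _ D.hJ _ hB)
        (g.smul_mem (2 * Complex.I) hB))
      refine LinearMap.ext fun u => ?_
      have h4 : J (p0 x y φ ψ v) = -Complex.I • p0 x y φ ψ v := by
        rw [← D.p0J, hv, map_smul]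
      simp only [LinearMap.sub_apply, LinearMap.add_apply, LinearMap.smul_apply,
        Module.End.mul_apply, Rap, map_smul, map_add, LinearMap.comp_apply, h4, D.Jx, D.φJ,
        smul_eq_mul]
      module
    have h4 := h1 _ (by simp [D.Jx, hx]) (by simp [D.Jy, hy]) h3
    have h5 := LinearMap.congr_fun h4 w
    simp only [LinearMap.sub_apply, LinearMap.smul_apply, LinearMap.comp_apply, smul_eq_mul,
      LinearMap.zero_apply] at h5
    linear_combination -h5
  -- a functional which vanishes on both eigenspaces is zero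
  have hz : ∀ α : Dual ℂ V, (∀ w, J w = Complex.I • w → α w = 0) →
      (∀ w, J w = -Complex.I • w → α w = 0) → α = 0 := by
    intro α ha hb
    refine LinearMap.ext fun w => ?_
    have hJJ : J (J w) = -w := by
      have := LinearMap.congr_fun D.JJ w
      simpa using this
    have h3 := ha (w - Complex.I • J w) (by
      rw [map_sub, map_smul, hJJ, smul_sub, smul_smul, hI]
      module)
    have h4 := hb (w + Complex.I • J w) (by
      rw [map_add, map_smul, hJJ, smul_add, smul_smul, neg_mul, hI]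
      module)
    rw [map_sub, map_smul] at h3
    rw [map_add, map_smul] at h4
    have h5 : α w = 0 := by linear_combination (1 / 2 : ℂ) * h3 + (1 / 2 : ℂ) * h4
    rw [h5, LinearMap.zero_apply]
  have hT0 : ∀ v, T v = 0 → p0 x y φ ψ v = 0 := by
    intro v hv
    obtain ⟨-, -, hB⟩ := hT v
    rw [hv] at hB
    refine h2 _ (D.φ0 v) (D.ψ0 v) ?_
    refine (congrArg (· ∈ g) ?_).mp hB
    refine LinearMap.ext fun u => ?_
    simp [Rap]
  have kp : ∀ v, v ∈ LinearMap.ker (J - Complex.I • (1 : Module.End ℂ V)) ↔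
      J v = Complex.I • v := by
    intro v
    rw [LinearMap.mem_ker, LinearMap.sub_apply, LinearMap.smul_apply, Module.End.one_apply,
      sub_eq_zero]
  have km : ∀ v, v ∈ LinearMap.ker (J + Complex.I • (1 : Module.End ℂ V)) ↔
      J v = -Complex.I • v := by
    intro v
    rw [LinearMap.mem_ker, LinearMap.add_apply, LinearMap.smul_apply, Module.End.one_apply,
      add_eq_zero_iff_eq_neg, neg_smul]
  have ψp : ∀ v, J v = Complex.I • v → ψ v = 0 := by
    intro v hv
    have h3 := D.ψJ v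
    rw [hv, map_smul, smul_eq_mul] at h3
    have h4 : (2 * Complex.I) * ψ v = 0 := by linear_combination h3
    exact (mul_eq_zero.1 h4).resolve_left (by simp)
  have φm : ∀ v, J v = -Complex.I • v → φ v = 0 := by
    intro v hv
    have h3 := D.φJ v
    rw [hv, map_smul, smul_eq_mul] at h3
    have h4 : (2 * Complex.I) * φ v = 0 := by linear_combination -h3
    exact (mul_eq_zero.1 h4).resolve_left (by simp)
  apply le_antisymm
  · let S : V →ₗ[ℂ] Dual ℂ V := LinearMap.smulRight φ ψ + T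
    have hinj : Function.Injective ((LinearMap.ker
        (J + Complex.I • (1 : Module.End ℂ V))).subtype.dualMap ∘ₗ S ∘ₗ
          (LinearMap.ker (J - Complex.I • (1 : Module.End ℂ V))).subtype) := by
      rw [← LinearMap.ker_eq_bot, LinearMap.ker_eq_bot']
      intro v hv
      have hv1 := (kp _).1 v.2
      have h3 : ∀ w, J w = -Complex.I • w → φ (v : V) * ψ w + T v w = 0 := fun w hw =>
        LinearMap.congr_fun hv (⟨w, (km _).2 hw⟩ :
          LinearMap.ker (J + Complex.I • (1 : Module.End ℂ V)))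
      have h4 : φ (v : V) = 0 := by
        have h5 := h3 x D.Jx
        rwa [D.ψx, (hT v).1, mul_one, add_zero] at h5
      have h5 : T (v : V) = 0 := by
        refine hz _ (fun w hw => ?_) (fun w hw => ?_)
        · have h6 := hp _ hv1 w
          rw [hw, map_smul, smul_eq_mul] at h6
          have h7 : (2 * Complex.I) * T v w = 0 := by linear_combination h6
          exact (mul_eq_zero.1 h7).resolve_left (by simp)
        · have h6 := h3 w hw
          rwa [h4, zero_mul, zero_add] at h6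
      have h6 := hT0 _ h5
      rw [p0_apply, h4, ψp _ hv1, zero_smul, zero_smul, sub_zero, sub_zero] at h6
      exact Subtype.ext h6
    have h3 := LinearMap.finrank_le_finrank_of_injective hinj
    rwa [Subspace.dual_finrank_eq] at h3
  · let S : V →ₗ[ℂ] Dual ℂ V := LinearMap.smulRight ψ φ + T
    have hinj : Function.Injective ((LinearMap.ker
        (J - Complex.I • (1 : Module.End ℂ V))).subtype.dualMap ∘ₗ S ∘ₗ
          (LinearMap.ker (J + Complex.I • (1 : Module.End ℂ V))).subtype) := by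
      rw [← LinearMap.ker_eq_bot, LinearMap.ker_eq_bot']
      intro v hv
      have hv1 := (km _).1 v.2
      have h3 : ∀ w, J w = Complex.I • w → ψ (v : V) * φ w + T v w = 0 := fun w hw =>
        LinearMap.congr_fun hv (⟨w, (kp _).2 hw⟩ :
          LinearMap.ker (J - Complex.I • (1 : Module.End ℂ V)))
      have h4 : ψ (v : V) = 0 := by
        have h5 := h3 y D.Jy
        rwa [D.φy, (hT v).2.1, mul_one, add_zero] at h5
      have h5 : T (v : V) = 0 := by
        refine hz _ (fun w hw => ?_) (fun w hw => ?_)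
        · have h6 := h3 w hw
          rwa [h4, zero_mul, zero_add] at h6
        · have h6 := hm _ hv1 w
          rw [hw, map_smul, smul_eq_mul] at h6
          have h7 : (2 * Complex.I) * T v w = 0 := by linear_combination -h6
          exact (mul_eq_zero.1 h7).resolve_left (by simp)
      have h6 := hT0 _ h5
      rw [p0_apply, h4, φm _ hv1, zero_smul, zero_smul, sub_zero, sub_zero] at h6
      exact Subtype.ext h6
    have h3 := LinearMap.finrank_le_finrank_of_injective hinj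
    rwa [Subspace.dual_finrank_eq] at h3

/-- The end of the proof. -/
theorem Dat.fin [FiniteDimensional ℂ V] (D : Dat g J x y φ ψ)
    (hM : ∀ v, φ v = 0 → ψ v = 0 → R v φ ∈ g)
    (hA : ∀ β : Dual ℂ V, β x = 0 → β y = 0 → R x β ∈ g) (X : Module.End ℂ V)
    (hX : LinearMap.trace ℂ V X = 0) :
    X ∈ Submodule.span ℂ {Y | ∃ A ∈ g, ∃ B ∈ g, Y = A * B - B * A} := by
  set S := Submodule.span ℂ {Y | ∃ A ∈ g, ∃ B ∈ g, Y = A * B - B * A} with hS
  have hbr : ∀ A ∈ g, ∀ B ∈ g, A * B - B * A ∈ S := fun A hA B hB =>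
    Submodule.subset_span ⟨A, hA, B, hB, rfl⟩
  have hBg : ∀ u, φ u = 0 → R u φ ∈ g := by
    intro u hu
    have h1 := g.add_mem (g.smul_mem (ψ u) D.e) (hM (u - ψ u • x) (by simp [hu, D.φx])
      (by simp [D.ψx]))
    refine (congrArg (· ∈ g) ?_).mp h1
    refine LinearMap.ext fun w => ?_
    simp only [LinearMap.add_apply, LinearMap.smul_apply, Rap]
    module
  have hCg : ∀ β : Dual ℂ V, β y = 0 → R y β ∈ g := by
    intro β hβ
    have h1 := g.add_mem (g.smul_mem (β x) D.f) (D.br _ D.f _ (hA (β - β x • ψ)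
      (by simp [D.ψx]) (by simp [D.ψy, hβ])))
    refine (congrArg (· ∈ g) ?_).mp h1
    refine LinearMap.ext fun w => ?_
    simp only [LinearMap.add_apply, LinearMap.sub_apply, LinearMap.smul_apply, Rap,
      Module.End.mul_apply, map_smul, D.ψx, D.ψy, hβ, smul_eq_mul]
    module
  have hBS : ∀ u, φ u = 0 → R u φ ∈ S := by
    intro u hu
    have h1 := hbr _ D.h _ (hBg (u - (ψ u / 2) • x) (by simp [hu, D.φx]))
    refine (congrArg (· ∈ S) ?_).mp h1
    refine LinearMap.ext fun w => ?_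
    simp only [LinearMap.sub_apply, Rap, Module.End.mul_apply, map_smul, map_sub, D.φy, D.ψx,
      D.φx, hu]
    module
  have hCS : ∀ β : Dual ℂ V, β y = 0 → R y β ∈ S := by
    intro β hβ
    have h1 := S.neg_mem (hbr _ D.h _ (hCg (β - (β x / 2) • ψ) (by simp [D.ψy, hβ])))
    refine (congrArg (· ∈ S) ?_).mp h1
    refine LinearMap.ext fun w => ?_
    simp only [LinearMap.sub_apply, LinearMap.neg_apply, LinearMap.smul_apply, Rap,
      Module.End.mul_apply, map_smul, map_sub, D.φy, D.ψx, D.ψy, hβ, smul_eq_mul]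
    module
  have hmix : ∀ (u : V) (β : Dual ℂ V), φ u = 0 → β y = 0 → R u β - β u • R y φ ∈ S := by
    intro u β hu hβ
    refine (congrArg (· ∈ S) ?_).mp (hbr _ (hBg u hu) _ (hCg β hβ))
    refine LinearMap.ext fun w => ?_
    simp only [LinearMap.sub_apply, LinearMap.smul_apply, Rap, Module.End.mul_apply, map_smul,
      D.φy]
    module
  have hall : ∀ (u : V) (γ : Dual ℂ V), R u γ - γ u • R y φ ∈ S := by
    intro u γ
    have h1 : φ (u - φ u • y) = 0 := by simp [D.φy]
    have h2 : (γ - γ y • φ) y = 0 := by simp [D.φy]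
    have h3 := S.add_mem (S.add_mem (hmix _ _ h1 h2) (S.smul_mem (φ u) (hCS _ h2)))
      (S.smul_mem (γ y) (hBS _ h1))
    refine (congrArg (· ∈ S) ?_).mp h3
    refine LinearMap.ext fun w => ?_
    simp only [LinearMap.add_apply, LinearMap.sub_apply, LinearMap.smul_apply, Rap, map_smul,
      map_sub, D.φy, smul_eq_mul]
    module
  let b := Module.finBasis ℂ V
  have h1 : X = ∑ i, (R (X (b i)) (b.coord i) - b.coord i (X (b i)) • R y φ) := by
    rw [Finset.sum_sub_distrib, ← Finset.sum_smul]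
    have h2 : ∑ i, b.coord i (X (b i)) = 0 := by
      rw [LinearMap.trace_eq_matrix_trace ℂ b] at hX
      rw [← hX]
      simp [Matrix.trace, LinearMap.toMatrix_apply]
    rw [h2, zero_smul, sub_zero]
    refine LinearMap.ext fun w => ?_
    rw [LinearMap.sum_apply]
    conv_lhs => rw [← b.sum_repr w, map_sum]
    refine Finset.sum_congr rfl fun i _ => ?_
    rw [map_smul, Rap, Basis.coord_apply]
  rw [h1]
  exact S.sum_mem fun i _ => hall _ _

end

end R1N_aux

open R1N_aux in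
theorem tR1N : S_R1N := by
  intro V _ _ _ g J x y φ ψ hbr hJ hJJ hJx hJy hφJ hψJ hφy hψx he hf hirr hdim X hX
  have hφx : φ x = 0 := by
    have h3 := hφJ x
    rw [hJx, map_smul, smul_eq_mul] at h3
    have h4 : (2 * Complex.I) * φ x = 0 := by linear_combination -h3
    exact (mul_eq_zero.1 h4).resolve_left (by simp)
  have hψy : ψ y = 0 := by
    have h3 := hψJ y
    rw [hJy, map_smul, smul_eq_mul] at h3
    have h4 : (2 * Complex.I) * ψ y = 0 := by linear_combination h3
    exact (mul_eq_zero.1 h4).resolve_left (by simp)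
  have D : Dat g J x y ((φ y)⁻¹ • φ) ((ψ x)⁻¹ • ψ) :=
    { br := hbr
      hJ := hJ
      JJ := hJJ
      Jx := hJx
      Jy := hJy
      φJ := fun v => by
        simp only [LinearMap.smul_apply, hφJ, smul_eq_mul]
        ring
      ψJ := fun v => by
        simp only [LinearMap.smul_apply, hψJ, smul_eq_mul]
        ring
      φy := by simp [hφy]
      ψx := by simp [hψx]
      φx := by simp [hφx]
      ψy := by simp [hψy]
      e := by
        refine (congrArg (· ∈ g) ?_).mp (g.smul_mem (φ y)⁻¹ he)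
        refine LinearMap.ext fun w => ?_
        simp [Rap, smul_smul]
      f := by
        refine (congrArg (· ∈ g) ?_).mp (g.smul_mem (ψ x)⁻¹ hf)
        refine LinearMap.ext fun w => ?_
        simp [Rap, smul_smul]
      irr := hirr }
  set φ' := (φ y)⁻¹ • φ
  set ψ' := (ψ x)⁻¹ • ψ
  have hmain : (∀ v, φ' v = 0 → ψ' v = 0 → R v φ' ∈ g) ∧
      ∀ β : Dual ℂ V, β x = 0 → β y = 0 → R x β ∈ g := by
    by_cases h1 : ∃ α : Dual ℂ V, α x = 0 ∧ α y = 0 ∧ R x α ∈ g ∧ α ≠ 0
    · obtain ⟨α, hx, hy, hg, hne⟩ := h1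
      exact D.two hx hy hne hg
    by_cases h2 : ∃ v, φ' v = 0 ∧ ψ' v = 0 ∧ R v φ' ∈ g ∧ v ≠ 0
    · obtain ⟨v, hφ, hψ, hg, hne⟩ := h2
      exact D.two' hφ hψ hne hg
    have h3 := D.three (fun α hx hy hg => by
      by_contra h
      exact h1 ⟨α, hx, hy, hg, h⟩) (fun v hφ hψ hg => by
      by_contra h
      exact h2 ⟨v, hφ, hψ, hg, h⟩)
    rcases hdim with h4 | h4
    · exact absurd h3 h4
    · -- dimension two
      have hv0 : ∀ v, φ' v = 0 → ψ' v = 0 → v = 0 := by
        intro v hφ hψ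
        let L : V →ₗ[ℂ] ℂ × ℂ := φ'.prod ψ'
        have hs : Function.Surjective L := by
          rintro ⟨a, c⟩
          refine ⟨a • y + c • x, ?_⟩
          simp [L, D.φy, D.ψx, D.φx, D.ψy]
        have hi : Function.Injective L := by
          refine (LinearMap.injective_iff_surjective_of_finrank_eq_finrank ?_).2 hs
          rw [h4]
          simp
        apply hi
        rw [map_zero]
        exact Prod.ext hφ hψ
      refine ⟨fun v hφ hψ => ?_, fun β hx hy => ?_⟩
      · rw [hv0 v hφ hψ]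
        refine (congrArg (· ∈ g) ?_).mp g.zero_mem
        refine LinearMap.ext fun w => ?_
        simp [Rap]
      · have h5 : β = 0 := by
          refine LinearMap.ext fun v => ?_
          rw [dec (x := x) (y := y) (φ := φ') (ψ := ψ') v, hv0 _ (D.φ0 v) (D.ψ0 v)]
          simp [hx, hy]
        rw [h5]
        refine (congrArg (· ∈ g) ?_).mp g.zero_mem
        refine LinearMap.ext fun w => ?_
        simp [Rap]
  exact D.fin hmain.1 hmain.2 X hX

end SEB
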