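import Pool.Agent.Lib.SE.Big.Fam3

/-!
# PROJECT SE, module IsBig: separation for odd orders (helper17)
-/

set_option autoImplicit false

noncomputable section

namespace SEB

open HC HC.E HC.SE

namespace Sep3_aux

/-- lifting of units -/
theorem lift {a b M : ℕ} [NeZero M] (ha : a ∣ M) (hb : b ∣ M) (y : (ZMod b)ˣ)
    (hy : (y : ZMod b).val ≡ 1 [MOD Nat.gcd a b]) :
    ∃ ρ : (ZMod M)ˣ, ZMod.unitsMap ha ρ = 1 ∧ ZMod.unitsMap hb ρ = y := by
  have hb0 : NeZero b := ⟨fun h => NeZero.ne M (Nat.eq_zero_of_zero_dvd (h ▸ hb))⟩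
  obtain ⟨n, h1, h2⟩ := Nat.chineseRemainder' hy.symm
  have c1 : n.Coprime a := by
    have := h1.gcd_eq
    rwa [Nat.gcd_one_left] at this
  have c2 : n.Coprime b := by
    have h3 := h2.gcd_eq
    rw [ZMod.val_coe_unit_coprime y] at h3
    exact h3
  have c3 : n.Coprime (Nat.lcm a b) := (c1.mul_right c2).coprime_dvd_right (Nat.lcm_dvd_mul a b)
  have hl : Nat.lcm a b ∣ M := Nat.lcm_dvd ha hb
  obtain ⟨ρ, hρ⟩ := ZMod.unitsMap_surjective hl (ZMod.unitOfCoprime n c3)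
  refine ⟨ρ, ?_, ?_⟩
  · have h4 : ZMod.unitsMap ha ρ = ZMod.unitsMap (Nat.dvd_lcm_left a b) (ZMod.unitsMap hl ρ) := by
      rw [← MonoidHom.comp_apply, ZMod.unitsMap_comp]
    rw [h4, hρ]
    apply Units.ext
    change ZMod.castHom (Nat.dvd_lcm_left a b) (ZMod a) ((n : ℕ) : ZMod (Nat.lcm a b)) = 1
    rw [map_natCast, ← Nat.cast_one, ZMod.natCast_eq_natCast_iff]
    exact h1
  · have h4 : ZMod.unitsMap hb ρ = ZMod.unitsMap (Nat.dvd_lcm_right a b) (ZMod.unitsMap hl ρ) := by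
      rw [← MonoidHom.comp_apply, ZMod.unitsMap_comp]
    rw [h4, hρ]
    apply Units.ext
    change ZMod.castHom (Nat.dvd_lcm_right a b) (ZMod b) ((n : ℕ) : ZMod (Nat.lcm a b)) = y
    rw [map_natCast, ← ZMod.natCast_zmod_val (y : ZMod b), ZMod.natCast_eq_natCast_iff]
    exact h2

/-- a unit modulo `M` which is `1` modulo `a` and not `± 1` modulo `b` -/
theorem exH {a b M : ℕ} [NeZero M] (ha : a ∣ M) (hb : b ∣ M) (hbo : Odd b) (h3 : 3 ≤ b)
    (hba : ¬ b ∣ a) (h : Nat.gcd a b ≠ 1 ∨ 5 ≤ b) :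
    ∃ ρ : (ZMod M)ˣ, ZMod.unitsMap ha ρ = 1 ∧ ZMod.unitsMap hb ρ ≠ 1 ∧
      ZMod.unitsMap hb ρ ≠ -1 := by
  have hb0 : NeZero b := ⟨by omega⟩
  by_cases hd : Nat.gcd a b = 1
  · have h5 : 5 ≤ b := h.resolve_left fun h' => h' hd
    have hc : Nat.Coprime 2 b := Nat.coprime_two_left.2 hbo
    obtain ⟨ρ, e1, e2⟩ := lift ha hb (ZMod.unitOfCoprime 2 hc) (by
      rw [hd]
      exact Nat.modEq_one)
    refine ⟨ρ, e1, ?_, ?_⟩
    · rw [e2]
      intro h6
      have h7 := congrArg (fun u : (ZMod b)ˣ => (u : ZMod b)) h6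
      simp only [ZMod.coe_unitOfCoprime, Units.val_one] at h7
      rw [← Nat.cast_one, ZMod.natCast_eq_natCast_iff] at h7
      have h8 := (Nat.modEq_iff_dvd' (by norm_num : 1 ≤ 2)).1 h7.symm
      have h9 := Nat.le_of_dvd (by norm_num) h8
      omega
    · rw [e2]
      intro h6
      have h7 := congrArg (fun u : (ZMod b)ˣ => (u : ZMod b)) h6
      simp only [ZMod.coe_unitOfCoprime, Units.val_neg, Units.val_one] at h7
      have h8 : ((3 : ℕ) : ZMod b) = 0 := by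
        have : ((3 : ℕ) : ZMod b) = ((2 : ℕ) : ZMod b) + 1 := by
          push_cast
          norm_num
        rw [this, h7]
        ring
      have h9 := Nat.le_of_dvd (by norm_num) ((ZMod.natCast_eq_zero_iff 3 b).1 h8)
      omega
  · -- the kernel of the reduction modulo `d` is not trivial
    obtain ⟨d, hdd⟩ : ∃ d, d = Nat.gcd a b := ⟨_, rfl⟩
    rw [← hdd] at hd
    have hdb : d ∣ b := hdd ▸ Nat.gcd_dvd_right a b
    have hdo : Odd d := Odd.of_dvd_nat hbo hdb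
    have hd0 : 0 < d := hdo.pos
    have hd3 : 3 ≤ d := by
      obtain ⟨k, hk⟩ := hdo
      omega
    have hdne : d ≠ b := by
      intro h'
      exact hba (h' ▸ hdd ▸ Nat.gcd_dvd_left a b)
    have hd0' : NeZero d := ⟨by omega⟩
    obtain ⟨z, hz1, hz2⟩ : ∃ z : (ZMod b)ˣ, z ≠ 1 ∧ ZMod.unitsMap hdb z = 1 := by
      by_contra hcon
      push Not at hcon
      have hinj : Function.Injective (ZMod.unitsMap hdb) := by
        rw [injective_iff_map_eq_one]
        intro z hz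
        by_contra hz1
        exact hcon z hz1 hz
      have h4 := Fintype.card_le_of_injective _ hinj
      rw [ZMod.card_units_eq_totient, ZMod.card_units_eq_totient] at h4
      have h5 : d.totient ≤ b.totient := Nat.le_of_dvd (Nat.totient_pos.2 (by omega))
        (Nat.totient_dvd_of_dvd hdb)
      rcases Nat.eq_or_eq_of_totient_eq_totient hdb (le_antisymm h5 h4) with h6 | h6
      · exact hdne h6
      · rw [← h6] at hbo
        exact (Nat.not_even_iff_odd.2 hbo) (even_two_mul d)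
    have hzc : ((z : ZMod b).val : ZMod d) = 1 := by
      have h4 := congrArg (fun u : (ZMod d)ˣ => (u : ZMod d)) hz2
      simp only [ZMod.unitsMap_val, Units.val_one] at h4
      rw [ZMod.natCast_val]
      exact h4
    obtain ⟨ρ, e1, e2⟩ := lift ha hb z (by
      rw [← hdd, ← ZMod.natCast_eq_natCast_iff, hzc, Nat.cast_one])
    refine ⟨ρ, e1, by rw [e2]; exact hz1, ?_⟩
    rw [e2]
    intro h6
    have h4 := congrArg (fun u : (ZMod d)ˣ => (u : ZMod d)) hz2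
    rw [h6] at h4
    change ZMod.castHom hdb (ZMod d) (-1 : ZMod b) = 1 at h4
    rw [map_neg, map_one] at h4
    have h8 : ((2 : ℕ) : ZMod d) = 0 := by
      have : ((2 : ℕ) : ZMod d) = 1 + 1 := by
        push_cast
        norm_num
      rw [this]
      nth_rewrite 1 [← h4]
      ring
    have h9 := Nat.le_of_dvd (by norm_num) ((ZMod.natCast_eq_zero_iff 2 d).1 h8)
    omega

theorem exG {a b M : ℕ} [NeZero M] (ha : a ∣ M) (hb : b ∣ M) (hao : Odd a) (hbo : Odd b)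
    (h3a : 3 ≤ a) (h3b : 3 ≤ b) (hab : a ≠ b) :
    (∃ ρ : (ZMod M)ˣ, ZMod.unitsMap ha ρ = 1 ∧ ZMod.unitsMap hb ρ ≠ 1 ∧
      ZMod.unitsMap hb ρ ≠ -1) ∨
    ∃ ρ : (ZMod M)ˣ, ZMod.unitsMap hb ρ = 1 ∧ ZMod.unitsMap ha ρ ≠ 1 ∧
      ZMod.unitsMap ha ρ ≠ -1 := by
  by_cases h1 : ¬ b ∣ a ∧ (Nat.gcd a b ≠ 1 ∨ 5 ≤ b)
  · exact Or.inl (exH ha hb hbo h3b h1.1 h1.2)
  · right
    by_cases h2 : ¬ a ∣ b ∧ (Nat.gcd b a ≠ 1 ∨ 5 ≤ a)
    · exact exH hb ha hao h3a h2.1 h2.2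
    · exfalso
      rw [Nat.gcd_comm b a] at h2
      by_cases hg : Nat.gcd a b = 1
      · have e1 : ¬ b ∣ a := by
          intro h
          rw [Nat.gcd_eq_right h] at hg
          omega
        have e2 : ¬ a ∣ b := by
          intro h
          rw [Nat.gcd_eq_left h] at hg
          omega
        have e3 : b < 5 := by
          by_contra h
          exact h1 ⟨e1, Or.inr (by omega)⟩
        have e4 : a < 5 := by
          by_contra h
          exact h2 ⟨e2, Or.inr (by omega)⟩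
        obtain ⟨k, hk⟩ := hao
        obtain ⟨l, hl⟩ := hbo
        omega
      · have e1 : b ∣ a := by
          by_contra h
          exact h1 ⟨h, Or.inl hg⟩
        have e2 : a ∣ b := by
          by_contra h
          exact h2 ⟨h, Or.inl hg⟩
        exact hab (Nat.dvd_antisymm e2 e1)

/-- the period -/
theorem core {q : ℕ} (F : Fm q) [NeZero F.M] (hA : ∀ i, Aper (F.D i)) (β β' : F.B)
    (ρ : (ZMod F.M)ˣ) (h1 : ZMod.unitsMap (F.dvd β.1) ρ = 1)
    (h2 : ZMod.unitsMap (F.dvd β'.1) ρ ≠ 1) (h3 : ZMod.unitsMap (F.dvd β'.1) ρ ≠ -1) :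
    ∃ ρ' : (ZMod F.M)ˣ, F.pp (F.act ρ' β) ≠ F.pp (F.act ρ' β') := by
  by_contra hcon
  push Not at hcon
  have hper : ∀ s, (F.D β'.1).p (s * ZMod.unitsMap (F.dvd β'.1) ρ) *
      (F.D β'.1).p (-(s * ZMod.unitsMap (F.dvd β'.1) ρ)) =
      (F.D β'.1).p s * (F.D β'.1).p (-s) := by
    intro s
    obtain ⟨ρ', hρ'⟩ := ZMod.unitsMap_surjective (F.dvd β'.1) (s * β'.2⁻¹)
    have e1 : F.act ρ' β' = ⟨β'.1, s⟩ := by
      change (⟨β'.1, ZMod.unitsMap (F.dvd β'.1) ρ' * β'.2⟩ : F.B) = ⟨β'.1, s⟩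
      rw [hρ', inv_mul_cancel_right]
    have e2 : F.act (ρ' * ρ) β' = ⟨β'.1, s * ZMod.unitsMap (F.dvd β'.1) ρ⟩ := by
      change (⟨β'.1, ZMod.unitsMap (F.dvd β'.1) (ρ' * ρ) * β'.2⟩ : F.B) =
        ⟨β'.1, s * ZMod.unitsMap (F.dvd β'.1) ρ⟩
      rw [map_mul, hρ', mul_right_comm, inv_mul_cancel_right]
    have e3 : F.act (ρ' * ρ) β = F.act ρ' β := by
      change (⟨β.1, ZMod.unitsMap (F.dvd β.1) (ρ' * ρ) * β.2⟩ : F.B) =
        ⟨β.1, ZMod.unitsMap (F.dvd β.1) ρ' * β.2⟩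
      rw [map_mul, h1, mul_one]
    have e4 := hcon (ρ' * ρ)
    rw [e2, e3, hcon ρ', e1] at e4
    exact e4.symm
  rcases hA β'.1 _ hper with h | h
  · exact h2 h
  · exact h3 h

end Sep3_aux

open Sep3_aux in
theorem tSep3 : S_Sep3 := by
  intro q F hodd hA hne β β' hβ
  by_cases hr : F.r β.1 = F.r β'.1
  · right
    have hM : NeZero F.M := ⟨Finset.prod_ne_zero_iff.2 fun i _ => by
      have := F.hm i
      omega⟩
    have hm : F.m β.1 ≠ F.m β'.1 := fun h => hne _ _ hβ (Prod.ext h hr)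
    rcases exG (F.dvd β.1) (F.dvd β'.1) (hodd _) (hodd _) (F.hm _) (F.hm _) hm with
      ⟨ρ, h1, h2, h3⟩ | ⟨ρ, h1, h2, h3⟩
    · exact core F hA β β' ρ h1 h2 h3
    · obtain ⟨ρ', h4⟩ := core F hA β' β ρ h1 h2 h3
      exact ⟨ρ', h4.symm⟩
  · left
    exact hr

end SEB
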