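import Pool.Agent.Lib.SE.Big.VG3
import Pool.Agent.Lib.SE.Big.Bai

/-!
# PROJECT SE, module IsBig, part 5, cAI: periods independent over the algebraic numbers
-/

set_option autoImplicit false

open Module MeasureTheory Topology

noncomputable section

namespace SEB

open HC HC.E HC.SE

namespace cAI_aux

/-- a relatively closed subset of an open set without interior points is nowhere dense -/
theorem nd {E : Type} [TopologicalSpace E] {U : Set E} (hU : IsOpen U) {g : E → ℂ}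
    (hg : ContinuousOn g U) (hi : ¬ (interior {s | s ∈ U ∧ g s = 0}).Nonempty) :
    IsNowhereDense {s | s ∈ U ∧ g s = 0} := by
  have h1 : closure {s | s ∈ U ∧ g s = 0} ∩ U ⊆ {s | s ∈ U ∧ g s = 0} := by
    rintro x ⟨hx, hxU⟩
    refine ⟨hxU, ?_⟩
    by_contra h0
    have h2 : ∀ᶠ y in 𝓝 x, g y ≠ 0 := (hg.continuousAt (hU.mem_nhds hxU)).eventually_ne h0
    rw [mem_closure_iff_frequently] at hx
    obtain ⟨y, hy, hy2⟩ := (hx.and_eventually h2).exists
    exact hy2 hy.2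
  rw [IsNowhereDense, Set.eq_empty_iff_forall_notMem]
  intro x hx
  apply hi
  have h2 : x ∈ closure {s | s ∈ U ∧ g s = 0} := interior_subset hx
  obtain ⟨y, hy, hyF⟩ := mem_closure_iff_nhds.1 h2 _ (isOpen_interior.mem_nhds hx)
  refine ⟨y, mem_interior.2 ⟨interior (closure {s | s ∈ U ∧ g s = 0}) ∩ U, ?_, ?_, hy, hyF.1⟩⟩
  · exact fun z hz => h1 ⟨interior_subset hz.1, hz.2⟩
  · exact isOpen_interior.inter hU

/-- the linear form in the periods -/
def gfm {r : ℕ} (μ : Fin (r + 1) → ℝ) (c : Fin r → ℂ) (s : Fin (r + 1) → ℂ) : ℂ :=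
  ∑ k, c k * Ic μ s k fun x => (1 : Polynomial ℂ).eval x

theorem gfm_cont (hC : S_cC) {r : ℕ} {μ : Fin (r + 1) → ℝ} (hμ : Exq μ) (c : Fin r → ℂ) :
    ContinuousOn (gfm μ c) {s | Inc s} :=
  continuousOn_finsetSum _ fun k _ => continuousOn_const.mul (hC r μ hμ k 1)

theorem gfm_diff (hD : S_cD1) {r : ℕ} {μ : Fin (r + 1) → ℝ} (hμ : Exq μ) (c : Fin r → ℂ)
    (s : Fin (r + 1) → ℂ) (hs : Inc s) (v : Fin (r + 1) → ℂ) :
    DifferentiableAt ℂ (fun ε : ℂ => gfm μ c fun j => s j + ε * v j) 0 := by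
  refine DifferentiableAt.fun_sum fun k _ => DifferentiableAt.const_mul ?_ _
  exact (hD r μ s hμ hs v k 1 _ (fun x => v k.castSucc + (x - s k.castSucc) *
    ((v k.succ - v k.castSucc) / (s k.succ - s k.castSucc))) rfl fun x => rfl).differentiableAt

theorem gfm_real (hRe : S_cRe) {r : ℕ} {μ : Fin (r + 1) → ℝ} (hμ : Exq μ) (c : Fin r → ℂ)
    (s : Fin (r + 1) → ℝ) (hs : StrictMono s) :
    gfm μ c (fun j => (s j : ℂ)) = ∑ k, c k * (Ik μ s k : ℂ) := by
  refine Finset.sum_congr rfl fun k _ => ?_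
  rw [hRe r μ s hμ hs k 1, Ik, ← intervalIntegral.integral_ofReal]
  congr 1
  refine intervalIntegral.integral_congr fun x _ => ?_
  simp only [Polynomial.eval_one, mul_one]

theorem ne_meagre {r : ℕ} : ¬ IsMeagre {s : Fin (r + 1) → ℝ | StrictMono s} := by
  refine not_isMeagre_of_isOpen (Bai_aux.isOpen_sm r) ⟨fun j => (j.val : ℝ), ?_⟩
  intro i j hij
  show (i.val : ℝ) < (j.val : ℝ)
  exact_mod_cast hij

end cAI_aux

open cAI_aux

theorem tcAI : S_cI → S_cC → S_cD1 → S_cId → S_cRe → S_Bai → S_cAI := by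
  intro hI hC hD hId hRe hBai r μ hμ hn
  have hU : IsOpen {s : Fin (r + 1) → ℂ | Inc s} := (hI.2 r μ).1
  have hc : {c : Fin r → ℂ | ∀ k, c k ∈ {x : ℂ | IsAlgebraic ℚ x}}.Countable :=
    Set.countable_pi fun _ => Algebraic.countable ℚ ℂ
  have hm : ∀ c ∈ {c : Fin r → ℂ | ∀ k, c k ∈ {x : ℂ | IsAlgebraic ℚ x}} \ {0},
      IsMeagre {s : Fin (r + 1) → ℂ | s ∈ {s : Fin (r + 1) → ℂ | Inc s} ∧ gfm μ c s = 0} := by
    intro c hc
    refine (nd hU (gfm_cont hC hμ c) fun hne => ?_).isMeagre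
    have hsub : interior {s | s ∈ {s : Fin (r + 1) → ℂ | Inc s} ∧ gfm μ c s = 0} ⊆
        {s | s ∈ {s : Fin (r + 1) → ℂ | Inc s} ∧ gfm μ c s = 0} := interior_subset
    have hall := hId r (gfm μ c) (gfm_diff hD hμ c) _ isOpen_interior hne fun s hs => hsub hs
    refine ne_meagre (r := r) (IsMeagre.mono ?_ (hBai r μ hμ hn))
    intro s hs
    refine ⟨hs, fun hA => hc.2 (hA c hc.1 ?_)⟩
    rw [← gfm_real hRe hμ c s hs]
    exact hall _ fun i j hij => hs hij
  refine IsMeagre.mono ?_ (isMeagre_biUnion (hc.mono Set.sdiff_subset) hm)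
  rintro s ⟨hs, hA⟩
  simp only [AInd, not_forall] at hA
  obtain ⟨c, hca, hc0, hcn⟩ := hA
  exact Set.mem_iUnion₂.2 ⟨c, ⟨hca, hcn⟩, hs, hc0⟩

end SEB
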