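import Pool.Agent.Lib.SE.Big.VG3
import Pool.Agent.Lib.SE.Big.Br

/-!
# PROJECT SE, module IsBig, part 5: branches of the `m`-th root for complex branch points (helper55)

The same proof as in `SE/Big/Br.lean` (real branch points).
-/

set_option autoImplicit false

open Module MeasureTheory Topology

noncomputable section

namespace SEB

open HC HC.E HC.SE

namespace cBr_aux

open Br_aux

lemma rp_c (m n : ℕ) (z : ℂ) : rp m z ^ n = z ^ ((n : ℂ) / m) := by
  unfold rp
  rw [← Complex.cpow_nat_mul]
  congr 1

lemma rn_c (m n : ℕ) (z : ℂ) :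
    rn m z ^ n = Complex.exp (Real.pi * Complex.I / m) ^ n * (-z) ^ ((n : ℂ) / m) := by
  unfold rn
  rw [mul_pow, ← Complex.cpow_nat_mul]
  congr 2

end cBr_aux

open Br_aux cBr_aux in
theorem tcBr : S_cBr := by
  intro m r s b k hm
  have hm0 : m ≠ 0 := by omega
  refine ⟨?_, ?_, ?_, ?_, ?_, ?_, ?_, ?_⟩
  · intro x
    unfold ykc
    rw [← Finset.prod_pow]
    refine Finset.prod_congr rfl fun j _ => ?_
    rw [← pow_mul, mul_comm, pow_mul]
    split_ifs
    · rw [rp_pow hm0]
    · rw [rn_pow hm0]
  · intro x hx
    refine DifferentiableAt.differentiableWithinAt ?_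
    unfold ykc
    refine DifferentiableAt.fun_finsetProd fun j _ => ?_
    by_cases hj : j.val < k
    · simp only [hj, if_true]
      refine DifferentiableAt.pow ?_ _
      exact DifferentiableAt.comp x (g := rp m) (f := fun x : ℂ => x - s j)
        (dif_rp m ((hx j).1 hj)) (differentiableAt_id.sub_const _)
    · simp only [hj, if_false]
      refine DifferentiableAt.pow ?_ _
      have h1 : -(x - s j) ∈ Complex.slitPlane := by
        rw [neg_sub]
        exact (hx j).2 (not_lt.1 hj)
      exact DifferentiableAt.comp x (g := rn m) (f := fun x : ℂ => x - s j) (dif_rn m h1)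
        (differentiableAt_id.sub_const _)
  · have h1 : Ukc s k = ⋂ j : Fin (r + 1), ({x : ℂ | j.val < k → x - s j ∈ Complex.slitPlane} ∩
        {x : ℂ | k ≤ j.val → s j - x ∈ Complex.slitPlane}) := by
      ext x
      simp [Ukc]
    rw [h1]
    refine isOpen_iInter_of_finite fun j => IsOpen.inter ?_ ?_
    · by_cases hj : j.val < k
      · simp only [hj, true_implies]
        exact Complex.isOpen_slitPlane.preimage (continuous_id.sub continuous_const)
      · simp [hj]
    · by_cases hj : k ≤ j.val
      · simp only [hj, true_implies]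
        exact Complex.isOpen_slitPlane.preimage (continuous_const.sub continuous_id)
      · simp [hj]
  · intro x
    unfold ykc
    rw [norm_prod]
    refine Finset.prod_congr rfl fun j _ => ?_
    rw [norm_pow]
    have h1 : ‖(if j.val < k then rp m (x - s j) else rn m (x - s j))‖ =
        ‖x - s j‖ ^ ((m : ℝ)⁻¹) := by
      split_ifs
      · rw [norm_rp]
      · rw [norm_rn]
    rw [h1, ← Real.rpow_natCast, ← Real.rpow_mul (norm_nonneg _)]
    congr 1
    ring
  · intro x hx
    refine ⟨fun j => ⟨fun _ => ?_, fun _ => ?_⟩, ?_⟩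
    · rw [Complex.mem_slitPlane_iff]
      right
      rw [Complex.sub_im]
      have := hx j
      exact (sub_pos.2 this).ne'
    · rw [Complex.mem_slitPlane_iff]
      right
      rw [Complex.sub_im]
      exact (sub_neg.2 (hx j)).ne
    · unfold ykc
      refine Finset.prod_congr rfl fun j _ => ?_
      have h1 : 0 < (x - s j).im := by
        rw [Complex.sub_im]
        exact sub_pos.2 (hx j)
      simp only [Nat.not_lt_zero, if_false]
      split_ifs
      · rw [rn_up h1]
      · rfl
  · intro x hx
    refine ⟨fun j => ⟨fun _ => ?_, fun _ => ?_⟩, ?_⟩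
    · rw [Complex.mem_slitPlane_iff]
      right
      rw [Complex.sub_im]
      exact (sub_neg.2 (hx j)).ne
    · rw [Complex.mem_slitPlane_iff]
      right
      rw [Complex.sub_im]
      exact (sub_pos.2 (hx j)).ne'
    · unfold ykc
      rw [← Finset.prod_pow_eq_pow_sum, Finset.prod_filter, ← Finset.prod_mul_distrib]
      refine Finset.prod_congr rfl fun j _ => ?_
      have h1 : (x - s j).im < 0 := by
        rw [Complex.sub_im]
        exact sub_neg.2 (hx j)
      have h2 : j.val < r + 1 := j.2
      by_cases hj : j.val < k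
      · simp only [hj, if_true, h2, not_le.2 hj, if_false, one_mul]
      · simp only [hj, if_false, h2, if_true, not_lt.1 hj]
        rw [rn_dn h1, mul_pow]
  · intro x hx
    refine ⟨fun j => ⟨fun hj => ?_, fun hj => ?_⟩, ?_⟩
    · rw [Complex.mem_slitPlane_iff]
      left
      rw [Complex.sub_re]
      exact sub_pos.2 (hx.1 j hj)
    · rw [Complex.mem_slitPlane_iff]
      left
      rw [Complex.sub_re]
      exact sub_pos.2 (hx.2 j hj)
    · unfold ykc
      rw [← Finset.prod_pow_eq_pow_sum, Finset.prod_filter, ← Finset.prod_mul_distrib]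
      refine Finset.prod_congr rfl fun j _ => ?_
      by_cases hj : j.val < k
      · simp only [hj, if_true, not_le.2 hj, if_false, one_mul]
        exact rp_c m (b j) _
      · simp only [hj, if_false, not_lt.1 hj, if_true]
        rw [rn_c, neg_sub]
  · intro l x
    have h0 : ∀ (k : ℕ) , ykc m s b k x =
        (if l.val < k then rp m (x - s l) else rn m (x - s l)) ^ b l *
          ∏ j ∈ Finset.univ.erase l,
            (if j.val < k then rp m (x - s j) else rn m (x - s j)) ^ b j := by
      intro k
      unfold ykc
      exact (Finset.mul_prod_erase _ _ (Finset.mem_univ l)).symm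
    have h1 : ∏ j ∈ Finset.univ.erase l,
        (if j.val < l.val then rp m (x - s j) else rn m (x - s j)) ^ b j =
        ∏ j ∈ Finset.univ.erase l,
          (if j.val < l.val + 1 then rp m (x - s j) else rn m (x - s j)) ^ b j := by
      refine Finset.prod_congr rfl fun j hj => ?_
      have h2 : j.val ≠ l.val := fun h => (Finset.mem_erase.1 hj).1 (Fin.ext h)
      have h3 : j.val < l.val ↔ j.val < l.val + 1 := by omega
      simp only [h3]
    have h2 : ¬ l.val < l.val := lt_irrefl _
    have h3 : l.val < l.val + 1 := Nat.lt_succ_self _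
    refine ⟨fun h => ?_, fun h => ?_⟩
    · rw [h0, h0, h1, if_neg h2, if_pos h3, rn_up (by rw [Complex.sub_im]; exact sub_pos.2 h)]
    · rw [h0, h0, h1, if_neg h2, if_pos h3, rn_dn (by rw [Complex.sub_im]; exact sub_neg.2 h),
        mul_pow, mul_assoc]

end SEB
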