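import Pool.Agent.Lib.SE.Big.VG3

/-! # PROJECT SE, module IsBig, part 5: continuity of the period integrals -/

set_option autoImplicit false

open Module MeasureTheory Topology

noncomputable section

namespace SEB

open HC HC.E HC.SE

namespace cC_aux

lemma cont_seg {r : ℕ} (k : Fin r) :
    Continuous fun p : (Fin (r + 1) → ℂ) × ℝ => seg p.1 k p.2 := by
  unfold seg
  fun_prop

end cC_aux

open cC_aux in
/-- continuity of the period integrals -/
theorem tcC (hI : S_cI) : S_cC := by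
  intro r μ hμ k f
  obtain ⟨hw, hI2⟩ := hI
  obtain ⟨hopen, -, h3⟩ := hI2 r μ
  obtain ⟨-, hc⟩ := h3 k
  set F : (Fin (r + 1) → ℂ) × ℝ → ℂ := fun p => Hc μ p.1 k p.2 * f.eval (seg p.1 k p.2) with hF
  have hFc : ContinuousOn F ({s | Inc s} ×ˢ Set.Icc (0 : ℝ) 1) :=
    hc.mul (f.continuous.comp (cont_seg k)).continuousOn
  intro s₀ hs₀
  apply ContinuousAt.continuousWithinAt
  obtain ⟨δ, hδ, hball⟩ := Metric.nhds_basis_closedBall.mem_iff.1 (hopen.mem_nhds hs₀)
  have hcpt : IsCompact (Metric.closedBall s₀ δ ×ˢ Set.Icc (0 : ℝ) 1) :=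
    (isCompact_closedBall s₀ δ).prod isCompact_Icc
  obtain ⟨M, hM⟩ := hcpt.exists_bound_of_continuousOn
    (hFc.mono (Set.prod_mono hball subset_rfl))
  have hwm : Measurable fun t : ℝ => ((t ^ (-μ k.castSucc) * (1 - t) ^ (-μ k.succ) : ℝ) : ℂ) := by
    fun_prop
  unfold Ic
  refine intervalIntegral.continuousAt_of_dominated_interval
    (bound := fun t => t ^ (-μ k.castSucc) * (1 - t) ^ (-μ k.succ) * M) ?_ ?_ ?_ ?_
  · filter_upwards [hopen.mem_nhds hs₀] with s hs
    refine hwm.aestronglyMeasurable.mul ?_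
    rw [Set.uIoc_of_le (zero_le_one)]
    have h1 : ContinuousOn (fun t : ℝ => F (s, t)) (Set.Icc 0 1) :=
      hFc.comp (by fun_prop) fun t ht => ⟨hs, ht⟩
    exact (h1.mono Set.Ioc_subset_Icc_self).aestronglyMeasurable measurableSet_Ioc
  · filter_upwards [Metric.closedBall_mem_nhds s₀ hδ] with s hs
    refine Filter.Eventually.of_forall fun t ht => ?_
    rw [Set.uIoc_of_le (zero_le_one)] at ht
    have h0 : 0 ≤ t ^ (-μ k.castSucc) * (1 - t) ^ (-μ k.succ) :=
      mul_nonneg (Real.rpow_nonneg ht.1.le _) (Real.rpow_nonneg (by linarith [ht.2]) _)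
    rw [norm_mul, Complex.norm_real, Real.norm_eq_abs, abs_of_nonneg h0]
    exact mul_le_mul_of_nonneg_left (hM (s, t) ⟨hs, ht.1.le, ht.2⟩) h0
  · exact (hw _ _ (hμ _).2 (hμ _).2).mul_const M
  · refine Filter.Eventually.of_forall fun t ht => ?_
    rw [Set.uIoc_of_le (zero_le_one)] at ht
    have h1 : ContinuousOn (fun s => F (s, t)) {s | Inc s} :=
      hFc.comp (by fun_prop) fun s hs => ⟨hs, ht.1.le, ht.2⟩
    exact continuousAt_const.mul (h1.continuousAt (hopen.mem_nhds hs₀))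

end SEB
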