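import Pool.Agent.Lib.SE.Big.VG3
import Pool.Agent.Lib.SE.Big.CaF

/-!
# PROJECT SE, module IsBig, part 5, module cCa: Cauchy on rectangles around `s_k`, complex points
-/

set_option autoImplicit false

open Module MeasureTheory Topology

noncomputable section

namespace SEB

open HC HC.E HC.SE

namespace cCa_aux

/-- the inverse branch, with the factor `f` -/
def eC (f : Polynomial ℂ) (m : ℕ) {r : ℕ} (s : Fin (r + 1) → ℂ) (n : Fin (r + 1) → ℕ) (j : ℕ)
    (x : ℂ) : ℂ :=
  f.eval x * (ykc m s n j x)⁻¹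

variable {m r : ℕ} {s : Fin (r + 1) → ℂ} {n : Fin (r + 1) → ℕ} {f : Polynomial ℂ}

theorem ykc_ne (hBr : S_cBr) (hm : 1 ≤ m) (j : ℕ) {x : ℂ} (hx : x ∈ Ukc s j) :
    ykc m s n j x ≠ 0 := by
  intro h0
  have h1 := (hBr m r s n j hm).1 x
  rw [h0, zero_pow (by omega)] at h1
  have h2 : ∀ i, x - s i ≠ 0 := by
    intro i hi
    rcases Nat.lt_or_ge i.val j with hij | hij
    · exact Complex.slitPlane_ne_zero ((hx i).1 hij) hi
    · refine Complex.slitPlane_ne_zero ((hx i).2 hij) ?_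
      rw [← neg_sub, hi, neg_zero]
  exact (Finset.prod_ne_zero_iff.2 fun i _ => pow_ne_zero _ (h2 i)) h1.symm

theorem eC_diff (hBr : S_cBr) (hm : 1 ≤ m) (j : ℕ) :
    DifferentiableOn ℂ (eC f m s n j) (Ukc s j) :=
  f.differentiable.differentiableOn.mul
    ((hBr m r s n j hm).2.1.inv fun _ hx => ykc_ne hBr hm j hx)

theorem eC_cont (hBr : S_cBr) (hm : 1 ≤ m) (j : ℕ) {x : ℂ} (hx : x ∈ Ukc s j) :
    ContinuousAt (eC f m s n j) x :=
  (eC_diff hBr hm j).continuousOn.continuousAt ((hBr m r s n j hm).2.2.1.mem_nhds hx)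

theorem mem_of_im (j : ℕ) {x : ℂ} (hx : ∀ i, x.im ≠ (s i).im) : x ∈ Ukc s j := by
  intro i
  refine ⟨fun _ => ?_, fun _ => ?_⟩
  · rw [Complex.mem_slitPlane_iff]
    right
    rw [Complex.sub_im, sub_ne_zero]
    exact hx i
  · rw [Complex.mem_slitPlane_iff]
    right
    rw [Complex.sub_im, sub_ne_zero]
    exact (hx i).symm

/-- points on the vertical line through `s_k` -/
theorem mem_vert (hs : Inc s) (k : Fin (r + 1)) {j : ℕ} (hj : j = k.val ∨ j = k.val + 1) {y : ℝ}
    (hy : y ≠ (s k).im) : (((s k).re : ℂ) + y * Complex.I) ∈ Ukc s j := by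
  intro i
  have hre : (((s k).re : ℂ) + y * Complex.I).re = (s k).re := by simp
  have him : (((s k).re : ℂ) + y * Complex.I).im = y := by simp
  rw [Complex.mem_slitPlane_iff, Complex.mem_slitPlane_iff, Complex.sub_re, Complex.sub_im,
    Complex.sub_re, Complex.sub_im, hre, him]
  by_cases hik : i = k
  · subst hik
    exact ⟨fun _ => Or.inr (sub_ne_zero.2 hy), fun _ => Or.inr (sub_ne_zero.2 hy.symm)⟩
  · have hne : i.val ≠ k.val := fun h => hik (Fin.ext h)
    refine ⟨fun hij => Or.inl ?_, fun hij => Or.inl ?_⟩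
    · have h1 : i < k := Fin.lt_def.2 (by omega)
      exact sub_pos.2 (hs h1)
    · have h1 : k < i := Fin.lt_def.2 (by omega)
      exact sub_pos.2 (hs h1)

/-- continuity on horizontal lines -/
theorem hor_cont (hBr : S_cBr) (hm : 1 ≤ m) (j : ℕ) (g : ℝ) (hg : ∀ i, g ≠ (s i).im) :
    Continuous (fun t : ℝ => eC f m s n j (t + g * Complex.I)) := by
  rw [continuous_iff_continuousAt]
  intro t
  have h1 : ((t : ℂ) + g * Complex.I) ∈ Ukc s j := mem_of_im j fun i => by simpa using hg i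
  exact ContinuousAt.comp (f := fun t : ℝ => ((t : ℂ) + g * Complex.I)) (eC_cont hBr hm j h1)
    (by fun_prop)

theorem vert_meas (hBr : S_cBr) (hm : 1 ≤ m) (j : ℕ) (c : ℝ) :
    AEStronglyMeasurable (fun y : ℝ => eC f m s n j (c + y * Complex.I)) volume := by
  have hfin : (Set.range fun i => (s i).im).Finite := Set.finite_range _
  have h1 : ContinuousOn (fun y : ℝ => eC f m s n j (c + y * Complex.I))
      ((Set.range fun i => (s i).im)ᶜ : Set ℝ) := by
    intro y hy
    have h2 : ((c : ℂ) + y * Complex.I) ∈ Ukc s j := mem_of_im j fun i h => hy ⟨i, by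
      have h3 : ((c : ℂ) + y * Complex.I).im = y := by simp
      exact h.symm.trans h3⟩
    exact (ContinuousAt.comp (f := fun y : ℝ => ((c : ℂ) + y * Complex.I)) (eC_cont hBr hm j h2)
      (by fun_prop)).continuousWithinAt
  have h3 := h1.aestronglyMeasurable (μ := volume) hfin.measurableSet.compl
  have h4 : (volume : Measure ℝ).restrict ((Set.range fun i => (s i).im)ᶜ : Set ℝ) = volume :=
    Measure.restrict_eq_self_of_ae_mem (compl_mem_ae_iff.2 (hfin.measure_zero _))
  rwa [h4] at h3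

theorem int_abs' (p h a : ℝ) (hp : p < 1) (ha : |a| < h) :
    IntervalIntegrable (fun y : ℝ => |y - a| ^ (-p)) volume (-h) h := by
  have h0 : 0 ≤ |a| := abs_nonneg a
  have h1 := (Ca_aux.int_abs p (h + |a|) hp (by linarith)).comp_sub_right a
  refine h1.mono_set ?_
  have h2 := le_abs_self a
  have h3 := neg_abs_le a
  rw [Set.uIcc_of_le (by linarith), Set.uIcc_of_le (by linarith)]
  exact Set.Icc_subset_Icc (by linarith) (by linarith)

theorem ae_ne (a : ℝ) : ∀ᵐ y : ℝ, y ≠ a := by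
  have := (measure_singleton (μ := (volume : Measure ℝ)) a)
  exact compl_mem_ae_iff.2 this

/-- the bound on vertical lines -/
theorem vert_bound (hBr : S_cBr) (hm : 1 ≤ m) (j : ℕ) (k : Fin (r + 1)) (δ : ℝ) (hδ : 0 < δ)
    (c y C : ℝ) (hc : ∀ i, i ≠ k → δ ≤ |c - (s i).re|) (hy : y ≠ (s k).im)
    (hC : ‖f.eval ((c : ℂ) + y * Complex.I)‖ ≤ C) :
    ‖eC f m s n j (c + y * Complex.I)‖ ≤
      C * ((∏ i ∈ Finset.univ.erase k, δ ^ ((n i : ℝ) / m))⁻¹ *
        |y - (s k).im| ^ (-((n k : ℝ) / m))) := by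
  have hD : 0 < ∏ i ∈ Finset.univ.erase k, δ ^ ((n i : ℝ) / m) :=
    Finset.prod_pos fun i _ => Real.rpow_pos_of_pos hδ _
  have hy0 : 0 < |y - (s k).im| := abs_pos.2 (sub_ne_zero.2 hy)
  have hyp : 0 < |y - (s k).im| ^ ((n k : ℝ) / m) := Real.rpow_pos_of_pos hy0 _
  rw [eC, norm_mul]
  refine mul_le_mul hC ?_ (norm_nonneg _) ((norm_nonneg _).trans hC)
  rw [norm_inv, (hBr m r s n j hm).2.2.2.1, Real.rpow_neg hy0.le, ← mul_inv]
  refine inv_anti₀ (mul_pos hD hyp) ?_
  rw [← Finset.prod_erase_mul _ _ (Finset.mem_univ k)]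
  refine mul_le_mul ?_ ?_ hyp.le (Finset.prod_nonneg fun i _ => Real.rpow_nonneg (norm_nonneg _) _)
  · refine Finset.prod_le_prod (fun i _ => Real.rpow_nonneg hδ.le _) fun i hi => ?_
    refine Real.rpow_le_rpow hδ.le ?_ (by positivity)
    refine (hc i (Finset.ne_of_mem_erase hi)).trans ?_
    have h1 := Complex.abs_re_le_norm ((c : ℂ) + y * Complex.I - s i)
    simpa using h1
  · refine Real.rpow_le_rpow hy0.le ?_ (by positivity)
    have h1 := Complex.abs_im_le_norm ((c : ℂ) + y * Complex.I - s k)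
    simpa using h1

/-- the vertical integral is continuous in the position at `re s_k` -/
theorem vert_cont (hBr : S_cBr) (hm : 1 ≤ m) (hs : Inc s) (hn : ∀ j, 1 ≤ n j ∧ n j < m)
    {j : ℕ} (k : Fin (r + 1)) (hj : j = k.val ∨ j = k.val + 1) (h : ℝ) (hh : |(s k).im| < h) :
    ContinuousAt (fun c : ℝ => ∫ y in (-h)..h, eC f m s n j (c + y * Complex.I)) (s k).re := by
  have hh0 : 0 < h := (abs_nonneg _).trans_lt hh
  obtain ⟨δ, hδ, hev⟩ := Ca_aux.exists_delta (s := fun i => (s i).re) hs k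
  obtain ⟨C, hC0, hC⟩ := CaF_aux.pol_bound f (s k).re h
  refine intervalIntegral.continuousAt_of_dominated_interval
    (bound := fun y => C * ((∏ i ∈ Finset.univ.erase k, δ ^ ((n i : ℝ) / m))⁻¹ *
      |y - (s k).im| ^ (-((n k : ℝ) / m)))) ?_ ?_ ?_ ?_
  · exact Filter.Eventually.of_forall fun c => (vert_meas hBr hm j c).restrict
  · filter_upwards [hev, Icc_mem_nhds (by linarith : (s k).re - 1 < (s k).re)
      (by linarith : (s k).re < (s k).re + 1)] with c hc hc2
    filter_upwards [ae_ne (s k).im] with y hy hy2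
    rw [Set.uIoc_of_le (by linarith)] at hy2
    exact vert_bound hBr hm j k δ hδ c y C hc hy (hC c hc2 y ⟨hy2.1.le, hy2.2⟩)
  · exact ((int_abs' _ h _ (Ca_aux.pow_lt_one hm hn k) hh).const_mul _).const_mul _
  · filter_upwards [ae_ne (s k).im] with y hy _
    exact ContinuousAt.comp (f := fun c : ℝ => ((c : ℂ) + y * Complex.I))
      (eC_cont hBr hm j (mem_vert hs k hj hy)) (by fun_prop)

theorem vert_int (hBr : S_cBr) (hm : 1 ≤ m) (hs : Inc s) (hn : ∀ j, 1 ≤ n j ∧ n j < m)
    (j : ℕ) (k : Fin (r + 1)) (h : ℝ) (hh : |(s k).im| < h) :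
    IntervalIntegrable (fun y : ℝ => eC f m s n j ((s k).re + y * Complex.I)) volume (-h) h := by
  have hh0 : 0 < h := (abs_nonneg _).trans_lt hh
  obtain ⟨δ, hδ, hev⟩ := Ca_aux.exists_delta (s := fun i => (s i).re) hs k
  obtain ⟨C, hC0, hC⟩ := CaF_aux.pol_bound f (s k).re h
  refine IntervalIntegrable.mono_fun' (((int_abs' _ h _ (Ca_aux.pow_lt_one hm hn k) hh).const_mul
    (∏ i ∈ Finset.univ.erase k, δ ^ ((n i : ℝ) / m))⁻¹).const_mul C)
    (vert_meas hBr hm j (s k).re).restrict ?_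
  rw [Filter.EventuallyLE, ae_restrict_iff' measurableSet_uIoc]
  filter_upwards [ae_ne (s k).im] with y hy hy2
  rw [Set.uIoc_of_le (by linarith)] at hy2
  exact vert_bound hBr hm j k δ hδ (s k).re y C hev.self_of_nhds hy
    (hC (s k).re ⟨by linarith, by linarith⟩ y ⟨hy2.1.le, hy2.2⟩)

theorem top_ne {h : ℝ} (hh : ∀ i, |(s i).im| < h) (i : Fin (r + 1)) : h ≠ (s i).im :=
  ((abs_lt.1 (hh i)).2).ne'

theorem bot_ne {h : ℝ} (hh : ∀ i, |(s i).im| < h) (i : Fin (r + 1)) : -h ≠ (s i).im :=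
  ((abs_lt.1 (hh i)).1).ne

theorem bot_eq (F : ℂ → ℂ) (h : ℝ) : (fun t : ℝ => F (t - h * Complex.I)) =
    fun t : ℝ => F (t + ((-h : ℝ) : ℂ) * Complex.I) := by
  funext t
  refine congrArg _ ?_
  push_cast
  ring

/-- the path integral is continuous at `re s_k` -/
theorem pth_cont (hBr : S_cBr) (hm : 1 ≤ m) (hs : Inc s) (hn : ∀ j, 1 ≤ n j ∧ n j < m)
    {j : ℕ} (k : Fin (r + 1)) (hj : j = k.val ∨ j = k.val + 1) (x₀ h : ℝ)
    (hh : ∀ i, |(s i).im| < h) :
    ContinuousAt (fun c : ℝ => Pth (eC f m s n j) x₀ h c) (s k).re := by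
  have h1 := hor_cont (s := s) (n := n) (f := f) hBr hm j h (top_ne hh)
  have h2 := hor_cont (s := s) (n := n) (f := f) hBr hm j (-h) (bot_ne hh)
  have h2' : Continuous (fun t : ℝ => eC f m s n j (t - h * Complex.I)) := by
    rw [bot_eq]
    exact h2
  unfold Pth
  refine ContinuousAt.add (ContinuousAt.sub ?_ ?_) ?_
  · exact (intervalIntegral.continuous_primitive (fun a b => h1.intervalIntegrable a b)
      x₀).continuousAt
  · exact (vert_cont hBr hm hs hn k hj h (hh k)).const_smul Complex.I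
  · have h4 : (fun c : ℝ => ∫ t in c..x₀, eC f m s n j (t - h * Complex.I)) =
        fun c : ℝ => -∫ t in x₀..c, eC f m s n j (t - h * Complex.I) := by
      funext c
      rw [intervalIntegral.integral_symm]
    rw [h4]
    exact (intervalIntegral.continuous_primitive (fun a b => h2'.intervalIntegrable a b)
      x₀).continuousAt.neg

/-- the path integral is constant on the gap -/
theorem pth_const (hBr : S_cBr) (hm : 1 ≤ m) (j : ℕ) (x₀ h : ℝ) (hh : ∀ i, |(s i).im| < h)
    (x x' : ℝ) (hx : x ∈ Gp (fun i => (s i).re) j) (hx' : x' ∈ Gp (fun i => (s i).re) j) :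
    Pth (eC f m s n j) x₀ h x' = Pth (eC f m s n j) x₀ h x := by
  have h1 := hor_cont (s := s) (n := n) (f := f) hBr hm j h (top_ne hh)
  have h2 := hor_cont (s := s) (n := n) (f := f) hBr hm j (-h) (bot_ne hh)
  have e1 : ∀ t : ℝ, (t : ℂ) - h * Complex.I = t + ((-h : ℝ) : ℂ) * Complex.I := fun t => by
    push_cast
    ring
  have hC := Complex.integral_boundary_rect_eq_zero_of_differentiableOn (eC f m s n j)
    (⟨x, -h⟩ : ℂ) (⟨x', h⟩ : ℂ) ((eC_diff hBr hm j).mono fun p hp => by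
      have hp1 : p.re ∈ Set.uIcc x x' := hp.1
      rw [Set.mem_uIcc] at hp1
      refine ((hBr m r s n j hm).2.2.2.2.2.2.1 p ⟨fun i hi => ?_, fun i hi => ?_⟩).1
      · have h3 := hx.1 i hi
        have h4 := hx'.1 i hi
        rcases hp1 with h5 | h5 <;> linarith [h5.1, h5.2]
      · have h3 := hx.2 i hi
        have h4 := hx'.2 i hi
        rcases hp1 with h5 | h5 <;> linarith [h5.1, h5.2])
  have hC' : (∫ t in x..x', eC f m s n j (t + ((-h : ℝ) : ℂ) * Complex.I)) -
      (∫ t in x..x', eC f m s n j (t + (h : ℂ) * Complex.I)) +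
      Complex.I • (∫ y in (-h)..h, eC f m s n j (x' + y * Complex.I)) -
      Complex.I • (∫ y in (-h)..h, eC f m s n j (x + y * Complex.I)) = 0 := hC
  unfold Pth
  simp only [e1]
  have h3 := intervalIntegral.integral_add_adjacent_intervals (h1.intervalIntegrable x₀ x)
    (h1.intervalIntegrable x x') (μ := volume)
  have h4 := intervalIntegral.integral_add_adjacent_intervals (h2.intervalIntegrable x x')
    (h2.intervalIntegrable x' x₀) (μ := volume)
  rw [← h3, ← h4]
  linear_combination -hC'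

/-- the value at the limit -/
theorem pth_lim_left (hBr : S_cBr) (hm : 1 ≤ m) (hs : Inc s)
    (hn : ∀ j, 1 ≤ n j ∧ n j < m) (k : Fin (r + 1)) (x₀ h : ℝ) (hh : ∀ i, |(s i).im| < h) (c : ℝ)
    (hc : c ∈ Gp (fun i => (s i).re) k.val) :
    Pth (eC f m s n k.val) x₀ h c = Pth (eC f m s n k.val) x₀ h (s k).re := by
  have hck : c < (s k).re := hc.2 k le_rfl
  have h1 : Filter.Tendsto (fun c : ℝ => Pth (eC f m s n k.val) x₀ h c) (𝓝[<] (s k).re)
      (𝓝 (Pth (eC f m s n k.val) x₀ h (s k).re)) :=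
    (pth_cont hBr hm hs hn k (Or.inl rfl) x₀ h hh).tendsto.mono_left nhdsWithin_le_nhds
  have h2 : ∀ᶠ x in 𝓝[<] (s k).re,
      Pth (eC f m s n k.val) x₀ h c = Pth (eC f m s n k.val) x₀ h x := by
    filter_upwards [Ioo_mem_nhdsLT hck] with x hx
    refine (pth_const hBr hm k.val x₀ h hh c x hc ⟨fun i hi => ?_, fun i hi => ?_⟩).symm
    · exact (hc.1 i hi).trans hx.1
    · have h3 : (s k).re ≤ (s i).re := hs.monotone (Fin.le_def.2 hi)
      exact hx.2.trans_le h3
  exact tendsto_nhds_unique (tendsto_const_nhds.congr' h2) h1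

theorem pth_lim_right (hBr : S_cBr) (hm : 1 ≤ m) (hs : Inc s)
    (hn : ∀ j, 1 ≤ n j ∧ n j < m) (k : Fin (r + 1)) (x₀ h : ℝ) (hh : ∀ i, |(s i).im| < h) (c : ℝ)
    (hc : c ∈ Gp (fun i => (s i).re) (k.val + 1)) :
    Pth (eC f m s n (k.val + 1)) x₀ h c = Pth (eC f m s n (k.val + 1)) x₀ h (s k).re := by
  have hck : (s k).re < c := hc.1 k (Nat.lt_succ_self _)
  have h1 : Filter.Tendsto (fun c : ℝ => Pth (eC f m s n (k.val + 1)) x₀ h c) (𝓝[>] (s k).re)
      (𝓝 (Pth (eC f m s n (k.val + 1)) x₀ h (s k).re)) :=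
    (pth_cont hBr hm hs hn k (Or.inr rfl) x₀ h hh).tendsto.mono_left nhdsWithin_le_nhds
  have h2 : ∀ᶠ x in 𝓝[>] (s k).re,
      Pth (eC f m s n (k.val + 1)) x₀ h c = Pth (eC f m s n (k.val + 1)) x₀ h x := by
    filter_upwards [Ioo_mem_nhdsGT hck] with x hx
    refine (pth_const hBr hm (k.val + 1) x₀ h hh c x hc
      ⟨fun i hi => ?_, fun i hi => ?_⟩).symm
    · have h3 : (s i).re ≤ (s k).re := hs.monotone (Fin.le_def.2 (Nat.le_of_lt_succ hi))
      exact h3.trans_lt hx.1
    · exact hx.2.trans (hc.2 i hi)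
  exact tendsto_nhds_unique (tendsto_const_nhds.congr' h2) h1

/-- the path integrals for the branches number `k` and `k + 1` at `re s_k` -/
theorem pth_diff (hBr : S_cBr) (hm : 1 ≤ m) (hs : Inc s) (hn : ∀ j, 1 ≤ n j ∧ n j < m)
    (k : Fin (r + 1)) (x₀ h : ℝ) (hh : ∀ i, |(s i).im| < h) (z : ℂ)
    (hz : z = (Complex.exp (2 * Real.pi * Complex.I / m) ^ n k)⁻¹) :
    Pth (eC f m s n k.val) x₀ h (s k).re - z * Pth (eC f m s n (k.val + 1)) x₀ h (s k).re =
      (1 - z) * Akc m s n f x₀ h k := by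
  have hlo : -h < (s k).im := (abs_lt.1 (hh k)).1
  have hhi : (s k).im < h := (abs_lt.1 (hh k)).2
  have hspl : ∀ j, (∫ y in (-h)..h, eC f m s n j ((s k).re + y * Complex.I)) =
      (∫ y in (-h)..(s k).im, eC f m s n j ((s k).re + y * Complex.I)) +
        ∫ y in (s k).im..h, eC f m s n j ((s k).re + y * Complex.I) := by
    intro j
    have hI := vert_int (f := f) hBr hm hs hn j k h (hh k)
    refine (intervalIntegral.integral_add_adjacent_intervals (hI.mono_set ?_)
      (hI.mono_set ?_)).symm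
    · rw [Set.uIcc_of_le hlo.le, Set.uIcc_of_le (by linarith)]
      exact Set.Icc_subset_Icc le_rfl hhi.le
    · rw [Set.uIcc_of_le hhi.le, Set.uIcc_of_le (by linarith)]
      exact Set.Icc_subset_Icc hlo.le le_rfl
  have hup : ∀ j, ∀ x : ℂ, (∀ i, (s i).im < x.im) →
      eC f m s n j x = f.eval x * (ykc m s n 0 x)⁻¹ := fun j x hx => by
    rw [eC, ((hBr m r s n j hm).2.2.2.2.1 x hx).2]
  have h8 := (hBr m r s n 0 hm).2.2.2.2.2.2.2 k
  have hab : ∀ x : ℂ, (s k).im < x.im → eC f m s n (k.val + 1) x = eC f m s n k.val x :=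
    fun x hx => by rw [eC, eC, (h8 x).1 hx]
  have hbe : ∀ x : ℂ, x.im < (s k).im → eC f m s n k.val x = z * eC f m s n (k.val + 1) x :=
    fun x hx => by
      rw [eC, eC, (h8 x).2 hx, mul_inv, hz]
      ring
  have e1 : ∀ j, (∫ t in x₀..(s k).re, eC f m s n j (t + h * Complex.I)) =
      ∫ t in x₀..(s k).re,
        f.eval (t + h * Complex.I : ℂ) * (ykc m s n 0 (t + h * Complex.I))⁻¹ := by
    intro j
    refine intervalIntegral.integral_congr fun t _ => ?_
    refine hup j _ fun i => ?_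
    have := (abs_lt.1 (hh i)).2
    simpa using this
  have e2 : (∫ y in (s k).im..h, eC f m s n (k.val + 1) ((s k).re + y * Complex.I)) =
      ∫ y in (s k).im..h, eC f m s n k.val ((s k).re + y * Complex.I) := by
    rw [intervalIntegral.integral_of_le hhi.le, intervalIntegral.integral_of_le hhi.le]
    refine setIntegral_congr_fun measurableSet_Ioc fun y hy => ?_
    exact hab _ (by simpa using hy.1)
  have e3 : (∫ y in (-h)..(s k).im, eC f m s n k.val ((s k).re + y * Complex.I)) =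
      z * ∫ y in (-h)..(s k).im, eC f m s n (k.val + 1) ((s k).re + y * Complex.I) := by
    rw [← intervalIntegral.integral_const_mul]
    refine intervalIntegral.integral_congr_ae ?_
    filter_upwards [ae_ne (s k).im] with y hy hy2
    rw [Set.uIoc_of_le hlo.le] at hy2
    have hy3 : y < (s k).im := lt_of_le_of_ne hy2.2 hy
    exact hbe _ (by simpa using hy3)
  have e4 : (∫ t in (s k).re..x₀, eC f m s n k.val (t - h * Complex.I)) =
      z * ∫ t in (s k).re..x₀, eC f m s n (k.val + 1) (t - h * Complex.I) := by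
    rw [← intervalIntegral.integral_const_mul]
    refine intervalIntegral.integral_congr fun t _ => ?_
    exact hbe _ (by simpa using hlo)
  have hA : Akc m s n f x₀ h k = (∫ t in x₀..(s k).re,
      f.eval (t + h * Complex.I : ℂ) * (ykc m s n 0 (t + h * Complex.I))⁻¹) -
      Complex.I * ∫ y in (s k).im..h, eC f m s n k.val ((s k).re + y * Complex.I) := rfl
  unfold Pth
  rw [hA, hspl k.val, hspl (k.val + 1), e1 k.val, e1 (k.val + 1), e2, e3, e4, smul_eq_mul,
    smul_eq_mul]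
  ring

end cCa_aux

open cCa_aux in
/-- Module cCa: around `s_k`. -/
theorem tcCa : S_cBr → S_cCa := by
  intro hBr m r s n f hm hs hn x₀ h c hh hc k β z
  have hb1 : β k.val = Pth (eC f m s n k.val) x₀ h (s k).re :=
    pth_lim_left hBr hm hs hn k x₀ h hh (c k.val) (hc k.val (by omega))
  have hb2 : β (k.val + 1) = Pth (eC f m s n (k.val + 1)) x₀ h (s k).re :=
    pth_lim_right hBr hm hs hn k x₀ h hh (c (k.val + 1)) (hc (k.val + 1) (by omega))
  rw [hb1, hb2]
  exact pth_diff hBr hm hs hn k x₀ h hh z rfl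

end SEB
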