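import Pool.Agent.Lib.SE.Big.VG3

/-!
# PROJECT SE, module IsBig, part 5, module cD: derivative along a vector field
-/

set_option autoImplicit false

open Module MeasureTheory Topology

noncomputable section

namespace SEB

open HC HC.E HC.SE

namespace cD_aux

variable {r : ℕ} {μ : Fin (r + 1) → ℝ} {s : Fin (r + 1) → ℂ}

/-- values of the quotient -/
theorem eval_quot (a : Polynomial ℂ) (c x : ℂ) (hx : x ≠ c) :
    (a /ₘ (Polynomial.X - Polynomial.C c)).eval x = (a.eval x - a.eval c) / (x - c) := by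
  have h1 := Polynomial.modByMonic_add_div a (Polynomial.X - Polynomial.C c)
  rw [Polynomial.modByMonic_X_sub_C_eq_C_eval] at h1
  have h2 := congrArg (Polynomial.eval x) h1
  rw [Polynomial.eval_add, Polynomial.eval_C, Polynomial.eval_mul, Polynomial.eval_sub,
    Polynomial.eval_X, Polynomial.eval_C] at h2
  rw [eq_div_iff (sub_ne_zero.2 hx), ← h2]
  ring

/-- the weight as a complex function -/
theorem wInt (hI : S_cI) (hμ : Exq μ) (k : Fin r) :
    IntervalIntegrable (fun t : ℝ =>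
      ((t ^ (-μ k.castSucc) * (1 - t) ^ (-μ k.succ) : ℝ) : ℂ)) volume 0 1 := by
  have h1 := hI.1 (μ k.castSucc) (μ k.succ) (hμ _).2 (hμ _).2
  rw [intervalIntegrable_iff] at h1 ⊢
  exact h1.ofReal

theorem hcCont (hI : S_cI) (hs : Inc s) (k : Fin r) :
    ContinuousOn (fun t : ℝ => Hc μ s k t) (Set.Icc (0 : ℝ) 1) := by
  have h1 := ((hI.2 r μ).2.2 k).2
  have h2 : ContinuousOn (fun t : ℝ => ((s, t) : (Fin (r + 1) → ℂ) × ℝ)) (Set.Icc (0 : ℝ) 1) :=
    (continuous_const.prodMk continuous_id).continuousOn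
  exact h1.comp h2 fun t ht => ⟨hs, ht⟩

/-- integrability -/
theorem gInt (hI : S_cI) (hμ : Exq μ) (hs : Inc s) (k : Fin r) {G : ℂ → ℂ}
    (hG : ContinuousOn (fun t : ℝ => G (seg s k t)) (Set.Icc (0 : ℝ) 1)) :
    IntervalIntegrable (fun t : ℝ =>
      ((t ^ (-μ k.castSucc) * (1 - t) ^ (-μ k.succ) : ℝ) : ℂ) *
        (Hc μ s k t * G (seg s k t))) volume 0 1 := by
  refine (wInt hI hμ k).mul_continuousOn ?_
  rw [Set.uIcc_of_le zero_le_one]
  exact (hcCont hI hs k).mul hG

theorem ic_sub (hI : S_cI) (hμ : Exq μ) (hs : Inc s) (k : Fin r) {G G' : ℂ → ℂ}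
    (hG : ContinuousOn (fun t : ℝ => G (seg s k t)) (Set.Icc (0 : ℝ) 1))
    (hG' : ContinuousOn (fun t : ℝ => G' (seg s k t)) (Set.Icc (0 : ℝ) 1)) :
    Ic μ s k (fun x => G x - G' x) = Ic μ s k G - Ic μ s k G' := by
  rw [Ic, Ic, Ic, ← intervalIntegral.integral_sub (gInt hI hμ hs k hG) (gInt hI hμ hs k hG')]
  refine intervalIntegral.integral_congr fun t _ => ?_
  ring

/-- only the points inside the segment matter -/
theorem ic_congr (k : Fin r) {G G' : ℂ → ℂ}
    (h : ∀ t ∈ Set.Ioo (0 : ℝ) 1, G (seg s k t) = G' (seg s k t)) :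
    Ic μ s k G = Ic μ s k G' := by
  rw [Ic, Ic]
  refine intervalIntegral.integral_congr_ae ?_
  have h1 : ∀ᵐ t : ℝ, t ≠ 1 := by
    rw [ae_iff]
    simp
  filter_upwards [h1] with t ht ht'
  rw [Set.uIoc_of_le zero_le_one] at ht'
  rw [h t ⟨ht'.1, lt_of_le_of_ne ht'.2 ht⟩]

theorem seg_cont (k : Fin r) : Continuous fun t : ℝ => seg s k t := by
  unfold seg
  fun_prop

/-- on the open segment all the points are different from the `s_j` -/
theorem seg_ne (hI : S_cI) (hs : Inc s) (k : Fin r) {t : ℝ} (ht : t ∈ Set.Ioo (0 : ℝ) 1)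
    (j : Fin (r + 1)) : seg s k t ≠ s j := by
  obtain ⟨hΔ, h1⟩ := ((hI.2 r (0 : Fin (r + 1) → ℝ)).2.2 k).1 s hs
  have hΔ0 : s k.succ - s k.castSucc ≠ 0 := fun h => by
    rw [h, Complex.zero_re] at hΔ
    exact lt_irrefl _ hΔ
  obtain ⟨h2, h3⟩ := h1 t ⟨ht.1.le, ht.2.le⟩ j
  intro he
  rcases Nat.lt_trichotomy j.val k.val with h | h | h
  · have h4 := h2 h
    rw [he, sub_self, Complex.zero_re] at h4
    exact lt_irrefl _ h4
  · have h5 : j = k.castSucc := Fin.ext h
    rw [h5, seg, add_eq_left] at he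
    rcases mul_eq_zero.1 he with h6 | h6
    · exact ht.1.ne' (Complex.ofReal_eq_zero.1 h6)
    · exact hΔ0 h6
  · rcases Nat.lt_or_ge (k.val + 1) j.val with h' | h'
    · have h4 := h3 h'
      rw [he, sub_self, Complex.zero_re] at h4
      exact lt_irrefl _ h4
    · have h5 : j = k.succ := Fin.ext (by rw [Fin.val_succ]; omega)
      rw [h5, seg] at he
      have h7 : ((t : ℂ) - 1) * (s k.succ - s k.castSucc) = 0 := by
        linear_combination he
      rcases mul_eq_zero.1 h7 with h6 | h6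
      · have h8 : ((t - 1 : ℝ) : ℂ) = 0 := by
          push_cast
          exact h6
        have h9 := Complex.ofReal_eq_zero.1 h8
        have h10 := ht.2
        linarith
      · exact hΔ0 h6

/-- the denominators of the other points do not vanish on the closed segment -/
theorem seg_ne' (hI : S_cI) (hs : Inc s) (k : Fin r) {t : ℝ} (ht : t ∈ Set.Icc (0 : ℝ) 1)
    (j : Fin (r + 1)) (hj : ¬ (j = k.castSucc ∨ j = k.succ)) : seg s k t - s j ≠ 0 := by
  obtain ⟨hΔ, h1⟩ := ((hI.2 r (0 : Fin (r + 1) → ℝ)).2.2 k).1 s hs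
  obtain ⟨h2, h3⟩ := h1 t ht j
  have hj1 : j.val ≠ k.val := fun h => hj (Or.inl (Fin.ext h))
  have hj2 : j.val ≠ k.val + 1 := fun h => hj (Or.inr (Fin.ext (by rw [Fin.val_succ]; exact h)))
  intro he
  rcases Nat.lt_or_ge j.val k.val with h | h
  · have h4 := h2 h
    rw [he, Complex.zero_re] at h4
    exact lt_irrefl _ h4
  · have h4 := h3 (by omega)
    rw [← neg_sub, he, neg_zero, Complex.zero_re] at h4
    exact lt_irrefl _ h4

end cD_aux

theorem tcD : S_cI → S_cD1 → S_cX → S_cD := by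
  intro hI hD1 hX r μ s hμ hs a f k
  obtain ⟨hΔ, -⟩ := ((hI.2 r μ).2.2 k).1 s hs
  have hΔ0 : s k.succ - s k.castSucc ≠ 0 := fun h => by
    rw [h, Complex.zero_re] at hΔ
    exact lt_irrefl _ hΔ
  obtain ⟨ℓ', hℓ'⟩ : ∃ ℓ' : ℂ, ℓ' = (a.eval (s k.succ) - a.eval (s k.castSucc)) /
    (s k.succ - s k.castSucc) := ⟨_, rfl⟩
  obtain ⟨ℓ, hℓ⟩ : ∃ ℓ : ℂ → ℂ, ∀ x, ℓ x = a.eval (s k.castSucc) + (x - s k.castSucc) * ℓ' :=
    ⟨_, fun x => rfl⟩
  have hd := hD1 r μ s hμ hs (fun j => a.eval (s j)) k f ℓ' ℓ hℓ' hℓ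
  -- the exact form
  obtain ⟨e, he⟩ : ∃ e : Polynomial ℂ, e = a - (Polynomial.C (a.eval (s k.castSucc)) +
    (Polynomial.X - Polynomial.C (s k.castSucc)) * Polynomial.C ℓ') := ⟨_, rfl⟩
  have he1 : ∀ x, e.eval x = a.eval x - ℓ x := fun x => by
    rw [he, hℓ]
    simp only [Polynomial.eval_sub, Polynomial.eval_add, Polynomial.eval_C, Polynomial.eval_mul,
      Polynomial.eval_X]
  have he2 : ∀ x, (Polynomial.derivative e).eval x = (Polynomial.derivative a).eval x - ℓ' :=
    fun x => by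
    rw [he]
    simp only [Polynomial.derivative_sub, Polynomial.derivative_add, Polynomial.derivative_C,
      Polynomial.derivative_mul, Polynomial.derivative_X, Polynomial.eval_sub, Polynomial.eval_C,
      sub_zero, mul_zero, add_zero, one_mul, zero_add]
  have hℓ0 : ℓ (s k.castSucc) = a.eval (s k.castSucc) := by
    rw [hℓ, sub_self, zero_mul, add_zero]
  have hℓ1 : ℓ (s k.succ) = a.eval (s k.succ) := by
    rw [hℓ, hℓ', mul_div_cancel₀ _ hΔ0]
    ring
  have hx := hX r μ s hμ hs k f e (by rw [he1, hℓ0, sub_self]) (by rw [he1, hℓ1, sub_self])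
  -- the continuous version of the first integrand
  let G1 : ℂ → ℂ := fun x => (Polynomial.derivative f).eval x * ℓ x +
    f.eval x * (ℓ' - ∑ j, (μ j : ℂ) * (if j = k.castSucc ∨ j = k.succ then ℓ'
      else (ℓ x - a.eval (s j)) / (x - s j)))
  have hℓc : Continuous ℓ := by
    have : ℓ = fun x => a.eval (s k.castSucc) + (x - s k.castSucc) * ℓ' := funext hℓ
    rw [this]
    fun_prop
  have hsc : Continuous fun t : ℝ => seg s k t := cD_aux.seg_cont k
  have hG1 : ContinuousOn (fun t : ℝ => G1 (seg s k t)) (Set.Icc (0 : ℝ) 1) := by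
    refine ContinuousOn.add ?_ (ContinuousOn.mul ?_ (ContinuousOn.sub continuousOn_const ?_))
    · exact (((Polynomial.derivative f).continuous.comp hsc).mul (hℓc.comp hsc)).continuousOn
    · exact (f.continuous.comp hsc).continuousOn
    · refine continuousOn_finsetSum _ fun j _ => continuousOn_const.mul ?_
      by_cases hj : j = k.castSucc ∨ j = k.succ
      · simp only [if_pos hj]
        exact continuousOn_const
      · simp only [if_neg hj]
        refine ContinuousOn.div ((hℓc.comp hsc).sub continuous_const).continuousOn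
          (hsc.sub continuous_const).continuousOn fun t ht => cD_aux.seg_ne' hI hs k ht j hj
  have hT : ContinuousOn (fun t : ℝ => (Thc μ s a f).eval (seg s k t)) (Set.Icc (0 : ℝ) 1) :=
    ((Thc μ s a f).continuous.comp hsc).continuousOn
  have hG : ∀ t ∈ Set.Ioo (0 : ℝ) 1, G1 (seg s k t) =
      (Polynomial.derivative f).eval (seg s k t) * ℓ (seg s k t) +
        f.eval (seg s k t) * (ℓ' - ∑ j, (μ j : ℂ) *
          ((ℓ (seg s k t) - a.eval (s j)) / (seg s k t - s j))) := by
    intro t ht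
    have h1 : ∀ j : Fin (r + 1), (if j = k.castSucc ∨ j = k.succ then ℓ' else
          (ℓ (seg s k t) - a.eval (s j)) / (seg s k t - s j)) =
        (ℓ (seg s k t) - a.eval (s j)) / (seg s k t - s j) := by
      intro j
      have h2 := sub_ne_zero.2 (cD_aux.seg_ne hI hs k ht j)
      split_ifs with hj
      · symm
        rw [div_eq_iff h2]
        rcases hj with hj | hj
        · rw [hj, hℓ]
          ring
        · rw [hj, ← hℓ1, hℓ, hℓ]
          ring
      · rfl
    have h2 : ∑ j, (μ j : ℂ) * (if j = k.castSucc ∨ j = k.succ then ℓ' else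
          (ℓ (seg s k t) - a.eval (s j)) / (seg s k t - s j)) =
        ∑ j, (μ j : ℂ) * ((ℓ (seg s k t) - a.eval (s j)) / (seg s k t - s j)) :=
      Finset.sum_congr rfl fun j _ => by rw [h1 j]
    change (Polynomial.derivative f).eval (seg s k t) * ℓ (seg s k t) +
      f.eval (seg s k t) * (ℓ' - ∑ j, (μ j : ℂ) * (if j = k.castSucc ∨ j = k.succ then ℓ' else
          (ℓ (seg s k t) - a.eval (s j)) / (seg s k t - s j))) = _
    rw [h2]
  -- the first integrand
  have hc1 : Ic μ s k (fun x => (Polynomial.derivative f).eval x * ℓ x +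
      f.eval x * (ℓ' - ∑ j, (μ j : ℂ) * ((ℓ x - a.eval (s j)) / (x - s j)))) = Ic μ s k G1 :=
    cD_aux.ic_congr k fun t ht => (hG t ht).symm
  -- the second integrand
  have hc2 : Ic μ s k (fun x => (Polynomial.derivative f).eval x * e.eval x +
      f.eval x * ((Polynomial.derivative e).eval x - ∑ j, (μ j : ℂ) * (e.eval x / (x - s j)))) =
      Ic μ s k (fun x => (Thc μ s a f).eval x - G1 x) := by
    refine cD_aux.ic_congr k fun t ht => ?_
    have h3 : (Thc μ s a f).eval (seg s k t) =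
        (Polynomial.derivative f).eval (seg s k t) * a.eval (seg s k t) +
        f.eval (seg s k t) * ((Polynomial.derivative a).eval (seg s k t) -
          ∑ j, (μ j : ℂ) * ((a.eval (seg s k t) - a.eval (s j)) / (seg s k t - s j))) := by
      rw [Thc, Polynomial.eval_add, Polynomial.eval_mul, Polynomial.eval_mul,
        Polynomial.eval_sub, Polynomial.eval_finsetSum]
      congr 3
      refine Finset.sum_congr rfl fun j _ => ?_
      rw [Polynomial.eval_mul, Polynomial.eval_C,
        cD_aux.eval_quot a (s j) _ (cD_aux.seg_ne hI hs k ht j)]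
    have h4 : ∑ j, (μ j : ℂ) * (e.eval (seg s k t) / (seg s k t - s j)) =
        ∑ j, (μ j : ℂ) * ((a.eval (seg s k t) - a.eval (s j)) / (seg s k t - s j)) -
        ∑ j, (μ j : ℂ) * ((ℓ (seg s k t) - a.eval (s j)) / (seg s k t - s j)) := by
      rw [← Finset.sum_sub_distrib]
      refine Finset.sum_congr rfl fun j _ => ?_
      rw [he1, ← mul_sub, ← sub_div]
      congr 2
      ring
    rw [hG t ht, h3, h4, he1, he2]
    ring
  rw [hc2, cD_aux.ic_sub hI hμ hs k hT hG1, sub_eq_zero] at hx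
  rw [hx, ← hc1]
  exact hd

end SEB
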