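import Pool.Agent.Lib.SE.Big.VG3

/-!
# PROJECT SE, module IsBig, part 5: derivative under the integral sign, complex parameter
-/

set_option autoImplicit false

open Module MeasureTheory Topology

noncomputable section

namespace SEB

open HC HC.E HC.SE

namespace cD1_aux

/-- logarithmic derivative of a product -/
theorem ld_prod {ι : Type*} (S : Finset ι) (g : ι → ℂ → ℂ) (h : ι → ℂ) (x : ℂ)
    (H : ∀ i ∈ S, HasDerivAt (g i) (g i x * h i) x) :
    HasDerivAt (fun y => ∏ i ∈ S, g i y) ((∏ i ∈ S, g i x) * ∑ i ∈ S, h i) x := by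
  classical
  induction S using Finset.induction_on with
  | empty => simpa using hasDerivAt_const x (1 : ℂ)
  | insert a S ha ih =>
    have h1 := H a (Finset.mem_insert_self a S)
    have h2 := ih fun i hi => H i (Finset.mem_insert_of_mem hi)
    have h3 := h1.mul h2
    have e : (fun y => ∏ i ∈ insert a S, g i y) = (g a * fun y => ∏ i ∈ S, g i y) := by
      funext y; rw [Finset.prod_insert ha]; rfl
    rw [e, Finset.prod_insert ha, Finset.sum_insert ha]
    refine h3.congr_deriv ?_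
    ring

/-- logarithmic derivative of a power -/
theorem ld_cpow {B : ℂ → ℂ} {B' x c : ℂ} (hB : HasDerivAt B B' x) (h0 : 0 < (B x).re) :
    HasDerivAt (fun y => B y ^ c) (B x ^ c * (c * (B' / B x))) x := by
  have hs : B x ∈ Complex.slitPlane := Or.inl h0
  have hn : B x ≠ 0 := Complex.slitPlane_ne_zero hs
  refine (hB.cpow_const hs).congr_deriv ?_
  rw [Complex.cpow_sub _ _ hn, Complex.cpow_one]
  field_simp

variable {r : ℕ}

/-- the points in the direction `v` -/
def Sv (s v : Fin (r + 1) → ℂ) (ε : ℂ) : Fin (r + 1) → ℂ := fun j => s j + ε * v j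

theorem seg_Sv (s v : Fin (r + 1) → ℂ) (k : Fin r) (ε : ℂ) (t : ℝ) :
    seg (Sv s v ε) k t = seg s k t + ε * seg v k t := by unfold seg Sv; ring

/-- logarithmic derivative of the factor `j` -/
def hj (μ : Fin (r + 1) → ℝ) (s v : Fin (r + 1) → ℂ) (k : Fin r) (ε : ℂ) (t : ℝ)
    (j : Fin (r + 1)) : ℂ :=
  if j = k.castSucc ∨ j = k.succ then 0 else
    -(μ j : ℂ) * ((seg v k t - v j) / (seg (Sv s v ε) k t - Sv s v ε j))

/-- logarithmic derivative of `Hc` -/
def Dj (μ : Fin (r + 1) → ℝ) (s v : Fin (r + 1) → ℂ) (k : Fin r) (ε : ℂ) (t : ℝ) : ℂ :=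
  (1 - (μ k.castSucc : ℂ) - (μ k.succ : ℂ)) *
    ((v k.succ - v k.castSucc) / (Sv s v ε k.succ - Sv s v ε k.castSucc)) +
    ∑ j, hj μ s v k ε t j

theorem der_lin (a b : ℂ) (ε : ℂ) : HasDerivAt (fun e : ℂ => a + e * b) b ε := by
  simpa using ((hasDerivAt_id ε).mul_const b).const_add a

theorem cases_j (k : Fin r) (j : Fin (r + 1)) (h : ¬(j = k.castSucc ∨ j = k.succ)) :
    j.val < k.val ∨ k.val + 1 < j.val := by
  rw [not_or, Fin.ext_iff, Fin.ext_iff] at h
  simp only [Fin.val_castSucc, Fin.val_succ] at h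
  omega

theorem der_Hc (hI : S_cI) (μ : Fin (r + 1) → ℝ) (s v : Fin (r + 1) → ℂ) (k : Fin r) (ε : ℂ)
    (t : ℝ) (h : Inc (Sv s v ε)) (ht : t ∈ Set.Icc (0 : ℝ) 1) :
    HasDerivAt (fun e => Hc μ (Sv s v e) k t) (Hc μ (Sv s v ε) k t * Dj μ s v k ε t) ε := by
  obtain ⟨hA, hB⟩ := ((hI.2 r μ).2.2 k).1 _ h
  have hB := hB t ht
  unfold Hc
  have h1 : HasDerivAt (fun e => (Sv s v e k.succ - Sv s v e k.castSucc) ^
      (1 - (μ k.castSucc : ℂ) - (μ k.succ : ℂ)))
      ((Sv s v ε k.succ - Sv s v ε k.castSucc) ^ (1 - (μ k.castSucc : ℂ) - (μ k.succ : ℂ)) *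
        ((1 - (μ k.castSucc : ℂ) - (μ k.succ : ℂ)) *
        ((v k.succ - v k.castSucc) / (Sv s v ε k.succ - Sv s v ε k.castSucc)))) ε :=
    ld_cpow ((der_lin _ _ ε).sub (der_lin _ _ ε)) hA
  have h2 : HasDerivAt (fun e => ∏ j, (if j = k.castSucc ∨ j = k.succ then 1 else
      (if j.val ≤ k.val then seg (Sv s v e) k t - Sv s v e j
        else Sv s v e j - seg (Sv s v e) k t) ^ (-(μ j : ℂ))))
      ((∏ j, (if j = k.castSucc ∨ j = k.succ then 1 else
      (if j.val ≤ k.val then seg (Sv s v ε) k t - Sv s v ε j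
        else Sv s v ε j - seg (Sv s v ε) k t) ^ (-(μ j : ℂ)))) * ∑ j, hj μ s v k ε t j) ε := by
    refine ld_prod Finset.univ (fun j e => (if j = k.castSucc ∨ j = k.succ then 1 else
      (if j.val ≤ k.val then seg (Sv s v e) k t - Sv s v e j
        else Sv s v e j - seg (Sv s v e) k t) ^ (-(μ j : ℂ)))) _ ε fun j _ => ?_
    simp only [hj]
    by_cases hj1 : j = k.castSucc ∨ j = k.succ
    · simp only [if_pos hj1, mul_zero]
      exact hasDerivAt_const ε (1 : ℂ)
    · simp only [if_neg hj1]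
      have hseg : HasDerivAt (fun e => seg (Sv s v e) k t) (seg v k t) ε := by
        have := der_lin (seg s k t) (seg v k t) ε
        refine this.congr_of_eventuallyEq (Filter.Eventually.of_forall fun e => ?_)
        exact seg_Sv s v k e t
      rcases cases_j k j hj1 with hlt | hgt
      · have hle : j.val ≤ k.val := hlt.le
        simp only [if_pos hle]
        exact ld_cpow (hseg.sub (der_lin _ _ ε)) ((hB j).1 hlt)
      · have hle : ¬ j.val ≤ k.val := by omega
        simp only [if_neg hle]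
        have h3 := ld_cpow (c := -(μ j : ℂ)) ((der_lin (s j) (v j) ε).sub hseg) ((hB j).2 hgt)
        refine h3.congr_deriv ?_
        congr 2
        rw [← neg_sub (v j) (seg v k t), ← neg_sub (Sv s v ε j) (seg (Sv s v ε) k t),
          neg_div_neg_eq]
        rfl
  refine (h1.mul h2).congr_deriv ?_
  unfold Dj
  ring

/-- the derivative without the weight -/
def Gf (μ : Fin (r + 1) → ℝ) (s v : Fin (r + 1) → ℂ) (k : Fin r) (f : Polynomial ℂ) (ε : ℂ)
    (t : ℝ) : ℂ :=
  Hc μ (Sv s v ε) k t * (Dj μ s v k ε t * f.eval (seg (Sv s v ε) k t) +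
    (Polynomial.derivative f).eval (seg (Sv s v ε) k t) * seg v k t)

theorem der_F (hI : S_cI) (μ : Fin (r + 1) → ℝ) (s v : Fin (r + 1) → ℂ) (k : Fin r)
    (f : Polynomial ℂ) (ε : ℂ) (t : ℝ) (h : Inc (Sv s v ε)) (ht : t ∈ Set.Icc (0 : ℝ) 1) (w : ℂ) :
    HasDerivAt (fun e => w * (Hc μ (Sv s v e) k t * f.eval (seg (Sv s v e) k t)))
      (w * Gf μ s v k f ε t) ε := by
  have h1 := der_Hc hI μ s v k ε t h ht
  have hseg : HasDerivAt (fun e => seg (Sv s v e) k t) (seg v k t) ε := by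
    have := der_lin (seg s k t) (seg v k t) ε
    refine this.congr_of_eventuallyEq (Filter.Eventually.of_forall fun e => ?_)
    exact seg_Sv s v k e t
  have h2 : HasDerivAt (fun e => f.eval (seg (Sv s v e) k t))
      ((Polynomial.derivative f).eval (seg (Sv s v ε) k t) * seg v k t) ε :=
    (f.hasDerivAt _).comp ε hseg
  refine ((h1.mul h2).const_mul w).congr_deriv ?_
  unfold Gf
  ring

theorem cont_G (hI : S_cI) (μ : Fin (r + 1) → ℝ) (s v : Fin (r + 1) → ℂ) (k : Fin r)
    (f : Polynomial ℂ) (K : Set ℂ) (hK : ∀ ε ∈ K, Inc (Sv s v ε)) :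
    ContinuousOn (fun p : ℂ × ℝ => Gf μ s v k f p.1 p.2) (K ×ˢ Set.Icc (0 : ℝ) 1) := by
  have hS : Continuous (fun p : ℂ × ℝ => (Sv s v p.1, p.2)) := by unfold Sv; fun_prop
  have hH : ContinuousOn (fun p : ℂ × ℝ => Hc μ (Sv s v p.1) k p.2) (K ×ˢ Set.Icc (0 : ℝ) 1) :=
    ((hI.2 r μ).2.2 k).2.comp hS.continuousOn fun p hp => ⟨hK _ hp.1, hp.2⟩
  have hseg : Continuous (fun p : ℂ × ℝ => seg (Sv s v p.1) k p.2) := by unfold seg Sv; fun_prop
  have hsv : Continuous (fun p : ℂ × ℝ => seg v k p.2) := by unfold seg; fun_prop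
  have hD : ContinuousOn (fun p : ℂ × ℝ => Dj μ s v k p.1 p.2) (K ×ˢ Set.Icc (0 : ℝ) 1) := by
    unfold Dj
    refine ContinuousOn.add (continuousOn_const.mul (continuousOn_const.div ?_ ?_))
      (continuousOn_finsetSum _ fun j _ => ?_)
    · exact Continuous.continuousOn (by unfold Sv; fun_prop)
    · intro p hp
      have := (((hI.2 r μ).2.2 k).1 _ (hK _ hp.1)).1
      exact Complex.slitPlane_ne_zero (Or.inl this)
    · unfold hj
      by_cases hj1 : j = k.castSucc ∨ j = k.succ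
      · simp only [if_pos hj1]
        exact continuousOn_const
      · simp only [if_neg hj1]
        refine continuousOn_const.mul (ContinuousOn.div ?_ ?_ ?_)
        · exact (hsv.sub continuous_const).continuousOn
        · exact Continuous.continuousOn (by unfold seg Sv; fun_prop)
        · intro p hp
          have h1 := (((hI.2 r μ).2.2 k).1 _ (hK _ hp.1)).2 p.2 hp.2 j
          rcases cases_j k j hj1 with hlt | hgt
          · exact Complex.slitPlane_ne_zero (Or.inl (h1.1 hlt))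
          · have := Complex.slitPlane_ne_zero (Or.inl (h1.2 hgt))
            intro h0
            exact this (by rw [← neg_sub, h0, neg_zero])
  unfold Gf
  refine hH.mul ((hD.mul ?_).add (ContinuousOn.mul ?_ hsv.continuousOn))
  · exact (f.continuous.comp hseg).continuousOn
  · exact ((Polynomial.derivative f).continuous.comp hseg).continuousOn

theorem sum_two (k : Fin r) (g : Fin (r + 1) → ℂ) :
    ∑ j, (if j = k.castSucc ∨ j = k.succ then g j else 0) = g k.castSucc + g k.succ := by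
  have hne : k.castSucc ≠ k.succ := by
    intro h
    have := congrArg Fin.val h
    simp at this
  have : ∀ j, (if j = k.castSucc ∨ j = k.succ then g j else 0) =
      (if j = k.castSucc then g j else 0) + (if j = k.succ then g j else 0) := by
    intro j
    by_cases h1 : j = k.castSucc
    · have h2 : j ≠ k.succ := fun h => hne (h1.symm.trans h)
      rw [if_pos (Or.inl h1), if_pos h1, if_neg h2, add_zero]
    · by_cases h2 : j = k.succ
      · rw [if_pos (Or.inr h2), if_neg h1, if_pos h2, zero_add]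
      · rw [if_neg (by tauto), if_neg h1, if_neg h2, add_zero]
  simp only [this, Finset.sum_add_distrib]
  rw [Finset.sum_ite_eq' Finset.univ, Finset.sum_ite_eq' Finset.univ]
  simp

theorem Sv_zero (s v : Fin (r + 1) → ℂ) : Sv s v 0 = s := by
  funext j; unfold Sv; ring

/-- the integrand at `ε = 0` -/
theorem at_zero (hI : S_cI) (μ : Fin (r + 1) → ℝ) (s v : Fin (r + 1) → ℂ) (k : Fin r)
    (f : Polynomial ℂ) (hs : Inc s) (ℓ' : ℂ) (ℓ : ℂ → ℂ)
    (hℓ' : ℓ' = (v k.succ - v k.castSucc) / (s k.succ - s k.castSucc))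
    (hℓ : ∀ x, ℓ x = v k.castSucc + (x - s k.castSucc) * ℓ') (t : ℝ) (ht0 : 0 < t) (ht1 : t < 1) :
    Gf μ s v k f 0 t = Hc μ s k t * ((Polynomial.derivative f).eval (seg s k t) *
      ℓ (seg s k t) + f.eval (seg s k t) *
      (ℓ' - ∑ j, (μ j : ℂ) * ((ℓ (seg s k t) - v j) / (seg s k t - s j)))) := by
  have hA : s k.succ - s k.castSucc ≠ 0 :=
    Complex.slitPlane_ne_zero (Or.inl (((hI.2 r μ).2.2 k).1 _ hs).1)
  have hℓA : ℓ' * (s k.succ - s k.castSucc) = v k.succ - v k.castSucc := by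
    rw [hℓ']; field_simp
  have hx : seg s k t - s k.castSucc = t * (s k.succ - s k.castSucc) := by unfold seg; ring
  have hx1 : seg s k t - s k.succ = -((1 - t) * (s k.succ - s k.castSucc)) := by unfold seg; ring
  have hseg : seg v k t = ℓ (seg s k t) := by
    rw [hℓ, hx]
    unfold seg
    rw [← hℓA]; ring
  have ht0' : (t : ℂ) ≠ 0 := by exact_mod_cast ht0.ne'
  have ht1' : (1 - (t : ℂ)) ≠ 0 := by
    have : (1 - t : ℝ) ≠ 0 := by linarith
    exact_mod_cast this
  have hq : ∀ j, (μ j : ℂ) * ((ℓ (seg s k t) - v j) / (seg s k t - s j)) =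
      (if j = k.castSucc ∨ j = k.succ then (μ j : ℂ) * ℓ' else 0) - hj μ s v k 0 t j := by
    intro j
    unfold hj
    by_cases hj1 : j = k.castSucc ∨ j = k.succ
    · rw [if_pos hj1, if_pos hj1, sub_zero]
      congr 1
      rcases hj1 with rfl | rfl
      · rw [hℓ, hx]
        field_simp
        ring
      · rw [hℓ, hx1, hx]
        have : v k.castSucc + t * (s k.succ - s k.castSucc) * ℓ' - v k.succ =
            -((1 - t) * (s k.succ - s k.castSucc)) * ℓ' := by
          linear_combination hℓA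
        rw [this, mul_div_assoc, mul_comm, div_mul_cancel₀]
        exact neg_ne_zero.2 (mul_ne_zero ht1' hA)
    · rw [if_neg hj1, if_neg hj1, Sv_zero, hseg]
      ring
  have hsum : ∑ j, (μ j : ℂ) * ((ℓ (seg s k t) - v j) / (seg s k t - s j)) =
      ((μ k.castSucc : ℂ) * ℓ' + (μ k.succ : ℂ) * ℓ') - ∑ j, hj μ s v k 0 t j := by
    rw [Finset.sum_congr rfl fun j _ => hq j, Finset.sum_sub_distrib,
      sum_two k fun j => (μ j : ℂ) * ℓ']
  unfold Gf Dj
  rw [Sv_zero, hsum, hseg, ← hℓ']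
  ring

end cD1_aux

open cD1_aux in
theorem tcD1 : S_cI → S_cD1 := by
  intro hI r μ s hμ hs v k f ℓ' ℓ hℓ' hℓ
  have hcont : Continuous fun ε : ℂ => Sv s v ε := by unfold Sv; fun_prop
  have hopen : IsOpen ((fun ε : ℂ => Sv s v ε) ⁻¹' {s : Fin (r + 1) → ℂ | Inc s}) :=
    (hI.2 r μ).1.preimage hcont
  have h0 : (0 : ℂ) ∈ ((fun ε : ℂ => Sv s v ε) ⁻¹' {s : Fin (r + 1) → ℂ | Inc s}) := by
    change Inc (Sv s v 0)
    rw [Sv_zero]; exact hs
  obtain ⟨δ, hδ, hball⟩ := Metric.nhds_basis_closedBall.mem_iff.1 (hopen.mem_nhds h0)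
  have hK : ∀ ε ∈ Metric.closedBall (0 : ℂ) δ, Inc (Sv s v ε) := fun ε hε => hball hε
  set W : ℝ → ℝ := fun t => t ^ (-μ k.castSucc) * (1 - t) ^ (-μ k.succ) with hWd
  have hW : IntervalIntegrable W volume 0 1 := hI.1 _ _ (hμ _).2 (hμ _).2
  have hWc : IntervalIntegrable (fun t => ((W t : ℝ) : ℂ)) volume 0 1 :=
    intervalIntegrable_iff.2 (intervalIntegrable_iff.1 hW).ofReal
  have hG := cont_G hI μ s v k f _ hK
  obtain ⟨C, hC⟩ := ((isCompact_closedBall (0 : ℂ) δ).prod isCompact_Icc).exists_bound_of_continuousOn hG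
  have hF : ∀ ε ∈ Metric.closedBall (0 : ℂ) δ, ContinuousOn
      (fun t : ℝ => Hc μ (Sv s v ε) k t * f.eval (seg (Sv s v ε) k t)) (Set.Icc 0 1) := by
    intro ε hε
    refine ContinuousOn.mul ?_ (Continuous.continuousOn ?_)
    · exact ((hI.2 r μ).2.2 k).2.comp (f := fun t : ℝ => (Sv s v ε, t))
        (Continuous.continuousOn (by fun_prop)) fun t ht => ⟨hK _ hε, ht⟩
    · exact f.continuous.comp (by unfold seg; fun_prop)
  have hG0 : ContinuousOn (fun t : ℝ => Gf μ s v k f 0 t) (Set.Icc 0 1) :=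
    hG.comp (f := fun t : ℝ => ((0 : ℂ), t)) (Continuous.continuousOn (by fun_prop))
      fun t ht => ⟨Metric.mem_closedBall_self hδ.le, ht⟩
  have hI01 : Set.uIcc (0 : ℝ) 1 = Set.Icc 0 1 := Set.uIcc_of_le zero_le_one
  have hmem : ∀ t : ℝ, t ∈ Set.uIoc (0 : ℝ) 1 → t ∈ Set.Icc (0 : ℝ) 1 := by
    intro t ht
    rw [Set.uIoc_of_le zero_le_one] at ht
    exact ⟨ht.1.le, ht.2⟩
  have main := intervalIntegral.hasDerivAt_integral_of_dominated_loc_of_deriv_le
    (μ := volume) (a := 0) (b := 1)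
    (F := fun (e : ℂ) (t : ℝ) => ((W t : ℝ) : ℂ) *
      (Hc μ (Sv s v e) k t * f.eval (seg (Sv s v e) k t)))
    (F' := fun (e : ℂ) (t : ℝ) => ((W t : ℝ) : ℂ) * Gf μ s v k f e t)
    (bound := fun t => |W t| * C) (x₀ := (0 : ℂ)) (Metric.closedBall_mem_nhds (0 : ℂ) hδ)
    ?_ ?_ ?_ ?_ ?_ ?_
  · refine (main.2).congr_deriv ?_
    unfold Ic
    refine intervalIntegral.integral_congr_ae ?_
    have h1 : ∀ᵐ t : ℝ ∂volume, t ≠ 1 := by
      rw [ae_iff]
      simp
    filter_upwards [h1] with t ht1 ht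
    rw [Set.uIoc_of_le zero_le_one] at ht
    have := at_zero hI μ s v k f hs ℓ' ℓ hℓ' hℓ t ht.1 (lt_of_le_of_ne ht.2 ht1)
    rw [this]
  · filter_upwards [Metric.closedBall_mem_nhds (0 : ℂ) hδ] with ε hε
    exact (hWc.mul_continuousOn (hI01 ▸ hF ε hε)).def'.aestronglyMeasurable
  · exact hWc.mul_continuousOn (hI01 ▸ hF 0 (Metric.mem_closedBall_self hδ.le))
  · exact (hWc.mul_continuousOn (hI01 ▸ hG0)).def'.aestronglyMeasurable
  · refine Filter.Eventually.of_forall fun t ht ε hε => ?_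
    rw [norm_mul, Complex.norm_real, Real.norm_eq_abs]
    exact mul_le_mul_of_nonneg_left (hC (ε, t) ⟨hε, hmem t ht⟩) (abs_nonneg _)
  · exact hW.abs.mul_const C
  · exact Filter.Eventually.of_forall fun t ht ε hε =>
      der_F hI μ s v k f ε t (hK ε hε) (hmem t ht) _

end SEB
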