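import Pool.Agent.Lib.SE.Big.VG3

/-!
# PROJECT SE, module IsBig, part cE: exact forms (helper76)
-/

set_option autoImplicit false

open Module MeasureTheory Topology

noncomputable section

namespace SEB

open HC HC.E HC.SE

namespace cE_aux

/-- the points of the open segment are not branch points -/
theorem seg_ne {r : ℕ} {s : Fin (r + 1) → ℂ} (hs : Inc s) (k : Fin r) {t : ℝ} (h0 : 0 < t)
    (h1 : t < 1) (j : Fin (r + 1)) : seg s k t - s j ≠ 0 := by
  have hk : (s k.castSucc).re < (s k.succ).re := hs (Fin.castSucc_lt_succ)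
  have e : (seg s k t).re = (s k.castSucc).re + t * ((s k.succ).re - (s k.castSucc).re) := by
    simp [seg]
  have hlo : (s k.castSucc).re < (seg s k t).re := by
    rw [e]
    have : 0 < t * ((s k.succ).re - (s k.castSucc).re) := mul_pos h0 (by linarith)
    linarith
  have hhi : (seg s k t).re < (s k.succ).re := by
    rw [e]
    nlinarith
  intro h
  have h' : seg s k t = s j := sub_eq_zero.1 h
  rcases le_or_gt j k.castSucc with hj | hj
  · have h2 : (s j).re ≤ (s k.castSucc).re := hs.monotone hj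
    rw [← h'] at h2
    linarith
  · have hj' : k.succ ≤ j := by
      rw [Fin.le_def, Fin.val_succ]
      rw [Fin.lt_def, Fin.val_castSucc] at hj
      omega
    have h2 : (s k.succ).re ≤ (s j).re := hs.monotone hj'
    rw [← h'] at h2
    linarith

/-- two functions which agree outside the branch points have the same integral -/
theorem Ic_congr {r : ℕ} (μ : Fin (r + 1) → ℝ) {s : Fin (r + 1) → ℂ} (hs : Inc s) (k : Fin r)
    (F G : ℂ → ℂ) (h : ∀ x, (∀ j, x - s j ≠ 0) → F x = G x) : Ic μ s k F = Ic μ s k G := by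
  unfold Ic
  refine intervalIntegral.integral_congr_ae ?_
  have h1 : ∀ᵐ t : ℝ, t ≠ 1 := by
    have : ({1} : Set ℝ)ᶜ ∈ ae (volume : Measure ℝ) :=
      compl_mem_ae_iff.2 (measure_singleton 1)
    exact this
  filter_upwards [h1] with t ht htI
  rw [Set.uIoc_of_le zero_le_one] at htI
  have ht1 : t < 1 := lt_of_le_of_ne htI.2 ht
  rw [h _ fun j => seg_ne hs k htI.1 ht1 j]

end cE_aux

open cE_aux

theorem tcE : S_cX → S_cE := by
  intro hX r μ s hμ hs f k
  obtain ⟨Q, hQ⟩ : ∃ Q : Polynomial ℂ, Q = ∏ j, (Polynomial.X - Polynomial.C (s j)) :=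
    ⟨_, rfl⟩
  rw [← hQ]
  have hQe : ∀ y : ℂ, Q.eval y = ∏ j, (y - s j) := by
    intro y
    rw [hQ, Polynomial.eval_prod]
    exact Finset.prod_congr rfl fun j _ => by simp
  have hQ0 : ∀ j, Q.eval (s j) = 0 := by
    intro j
    rw [hQe]
    exact Finset.prod_eq_zero (Finset.mem_univ j) (sub_self _)
  have hQj : ∀ (j : Fin (r + 1)) (y : ℂ), (y - s j) *
      (Q /ₘ (Polynomial.X - Polynomial.C (s j))).eval y = Q.eval y := by
    intro j y
    have h1 := congrArg (Polynomial.eval y)
      (Polynomial.mul_divByMonic_eq_iff_isRoot.2 (show Q.IsRoot (s j) from hQ0 j))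
    simpa using h1
  rw [← hX r μ s hμ hs k f Q (hQ0 _) (hQ0 _)]
  refine Ic_congr μ hs k _ _ fun x hx => ?_
  have h5 : ∀ j, (Q /ₘ (Polynomial.X - Polynomial.C (s j))).eval x = Q.eval x / (x - s j) :=
    fun j => by rw [eq_div_iff (hx j), mul_comm, hQj]
  unfold Thc
  rw [Polynomial.eval_add, Polynomial.eval_mul, Polynomial.eval_mul, Polynomial.eval_sub,
    Polynomial.eval_finsetSum]
  simp only [Polynomial.eval_mul, Polynomial.eval_C, h5]

end SEB
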