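import Pool.Agent.Lib.SE.Big.VG3
import Pool.Agent.Lib.SE.Big.At0
import Pool.Agent.Lib.SE.Big.Per

/-!
# PROJECT SE, module IsBig, part 5: transfer to `T` for complex branch points
-/

set_option autoImplicit false

open Module

noncomputable section

namespace SEB

open HC HC.E HC.SE

namespace cHit_aux

open At0_aux Per_aux

variable {T : AV} {m r : ℕ}

theorem neg_val (hm : 3 ≤ m) (u : (ZMod m)ˣ) : ((-u : (ZMod m)ˣ) : ZMod m).val =
    m - (u : ZMod m).val := by
  have : NeZero m := ⟨by omega⟩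
  have : Nontrivial (ZMod m) := by
    have : Fact (1 < m) := ⟨by omega⟩
    infer_instance
  have h0 : (u : ZMod m) ≠ 0 := u.ne_zero
  rw [Units.val_neg, ZMod.neg_val, if_neg h0]

theorem adm (b : Fin (r + 1) → ℕ) (s : Fin (r + 1) → ℂ) (hs : Inc s)
    (hc : IsCov m s b) (u : (ZMod m)ˣ) : Admc m b (u : ZMod m).val s := by
  have : NeZero m := ⟨by have := hc.1; omega⟩
  exact ⟨hs, hc, ZMod.val_lt _, ZMod.val_coe_unit_coprime u⟩

theorem sg_le (m r : ℕ) (b : Fin (r + 1) → ℕ) (u : ℕ) : sg m r b u ≤ r := by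
  have h := Finset.card_filter_le (Finset.univ : Finset (Fin r))
    (fun i : Fin r => m * (i : ℕ) + ∑ j, (u * b j) % m < m * r)
  rw [Finset.card_univ, Fintype.card_fin] at h
  exact h

theorem deg_lt {b : Fin (r + 1) → ℕ} {u : ℕ} {f : Polynomial ℂ}
    (h : f.degree < (sg m r b u : WithBot ℕ)) : f.degree < (r : WithBot ℕ) :=
  lt_of_lt_of_le h (by exact_mod_cast sg_le m r b u)

/-- injectivity of the period vectors -/
theorem pinj {u : ℕ} {b : Fin (r + 1) → ℕ} {s : Fin (r + 1) → ℂ} (hk : ∀ k, kap m b u k ≠ 0)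
    (hN : Nj (mu m b u) s) (f : Polynomial ℂ) (hf : f.degree < (r : WithBot ℕ))
    (h0 : Pc m b u s f = 0) : f = 0 := by
  refine hN f hf fun k => ?_
  have h1 : kap m b u k * Ic (mu m b u) s k (fun x => f.eval x) = 0 := congrFun h0 k
  exact (mul_eq_zero.1 h1).resolve_left (hk k)

/-- the coordinates -/
def Phi (D : Cyc T m) (u : (ZMod m)ˣ) (v : Fin r → T.V) : Ws D u →ₗ[ℂ] (Fin r → ℂ) where
  toFun a k := (a : Frm T) (v k)
  map_add' _ _ := rfl
  map_smul' _ _ := rfl

/-- the elements of `res` are combinations of the restrictions of the `pre X` -/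
theorem res_span (h : Set (Module.End ℝ T.V)) (W : Submodule ℂ (Frm T))
    (hst : ∀ X ∈ h, ∀ a ∈ W, pre X a ∈ W) (B : Module.End ℂ W)
    (hB : B ∈ res (Submodule.span ℂ (pre '' h)) W) :
    B ∈ Submodule.span ℂ {B' : Module.End ℂ W | ∃ X ∈ h, ∀ a : W, pre X (a : Frm T) =
      (B' a : Frm T)} := by
  have key : ∀ C ∈ Submodule.span ℂ (pre '' h), ∃ B' ∈ Submodule.span ℂ
      {B' : Module.End ℂ W | ∃ X ∈ h, ∀ a : W, pre X (a : Frm T) = (B' a : Frm T)},
      ∀ a : W, C (a : Frm T) = (B' a : Frm T) := by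
    intro C hC
    induction hC using Submodule.span_induction with
    | mem C hC =>
      obtain ⟨X, hX, rfl⟩ := hC
      exact ⟨(pre X).restrict (hst X hX), Submodule.subset_span ⟨X, hX, fun a => rfl⟩,
        fun a => rfl⟩
    | zero => exact ⟨0, zero_mem _, fun a => rfl⟩
    | add C C' _ _ h1 h2 =>
      obtain ⟨B1, h3, h4⟩ := h1
      obtain ⟨B2, h5, h6⟩ := h2
      refine ⟨B1 + B2, add_mem h3 h5, fun a => ?_⟩
      rw [LinearMap.add_apply, LinearMap.add_apply, h4, h6]
      rfl
    | smul c C _ h1 =>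
      obtain ⟨B1, h3, h4⟩ := h1
      refine ⟨c • B1, Submodule.smul_mem _ _ h3, fun a => ?_⟩
      rw [LinearMap.smul_apply, LinearMap.smul_apply, h4]
      rfl
  obtain ⟨C, hC, h1⟩ := hB
  obtain ⟨B', hB', h2⟩ := key C hC
  have h3 : B = B' := by
    apply LinearMap.ext
    intro a
    apply Subtype.ext
    rw [← h1, ← h2]
  rw [h3]
  exact hB'

end cHit_aux

open cHit_aux At0_aux Per_aux in
theorem tcHit : S_Bas → S_Dim → S_cKap → S_cPv → S_cHit := by
  classical
  intro hBas hDim hKap _ T m r s b D hs hc hNj hr hd v hinj hmat hHod u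
  have hm3 : 3 ≤ m := hc.1
  have hm : 0 < m := by omega
  obtain ⟨_, _, hst, _, hcj⟩ := hBas T m D hm3
  have hnv := neg_val hm3 u
  have hA1 := adm b s hs hc u
  have hA2 := adm b s hs hc (-u)
  have hPinj := pinj (fun k => ((hKap m r b _ s hA1).2.2.2 k).1) (hNj _ hA1.2.2.1 hA1.2.2.2)
  have hPinj' := pinj (fun k => ((hKap m r b _ s hA2).2.2.2 k).1) (hNj _ hA2.2.2.1 hA2.2.2.2)
  obtain ⟨hH1, _⟩ := hHod u
  obtain ⟨hH2, _⟩ := hHod (-u)
  rw [hnv] at hH2 hPinj'
  -- the conjugates of the forms of type (1,0) at -u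
  have hcon : ∀ g : Polynomial ℂ, g.degree < (sg m r b (m - (u : ZMod m).val) : WithBot ℕ) →
      ∃ c ∈ Ws D u, (∀ w, c (Complex.I • w) = -Complex.I * c w) ∧
        ∀ k, c (v k) = star (Pc m b (m - (u : ZMod m).val) s g) k := by
    intro g hg
    obtain ⟨a, ha, hak⟩ := hH2 g hg
    obtain ⟨c, hcW, hca⟩ := hcj (-u) a ha.1
    rw [neg_neg] at hcW
    refine ⟨c, hcW, fun w => ?_, fun k => ?_⟩
    · rw [hca, hca, ha.2, map_mul, Complex.conj_I]
    · rw [hca, hak]
      rfl
  refine ⟨?_, ?_⟩
  · intro f g hf hg hfg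
    obtain ⟨a, ha, hak⟩ := hH1 f hf
    obtain ⟨c, hcW, hcI, hck⟩ := hcon g hg
    have h0 : a + c = 0 := by
      refine hinj u (a + c) (add_mem ha.1 hcW) fun k => ?_
      rw [LinearMap.add_apply, hak, hck]
      exact congrFun hfg k
    have h1 : ∀ w, a w = 0 := by
      intro w
      have h2 : a w + c w = 0 := by
        have := congrArg (fun z : Frm T => z w) h0
        exact this
      have h3 : a (Complex.I • w) + c (Complex.I • w) = 0 := by
        have := congrArg (fun z : Frm T => z (Complex.I • w)) h0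
        exact this
      rw [ha.2, hcI] at h3
      have h4 : Complex.I * (2 * a w) = 0 := by linear_combination h3 + Complex.I * h2
      rcases mul_eq_zero.1 h4 with h5 | h5
      · exact absurd h5 Complex.I_ne_zero
      · exact (mul_eq_zero.1 h5).resolve_left two_ne_zero
    refine ⟨hPinj f (deg_lt hf) ?_, hPinj' g (deg_lt hg) ?_⟩
    · funext k
      rw [← hak, h1]
      rfl
    · funext k
      have h2 : star (Pc m b (m - (u : ZMod m).val) s g) k = 0 := by
        have h3 := congrFun hfg k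
        rw [Pi.add_apply, ← hak, h1, zero_add] at h3
        exact h3
      have h4 : star (Pc m b (m - (u : ZMod m).val) s g k) = 0 := h2
      exact star_eq_zero.1 h4
  · intro hbad h hh
    have := fin_frm T
    have hfd : FiniteDimensional ℂ (Ws D u) := inferInstance
    have hPhi : Function.Injective (Phi D u v) := by
      rw [← LinearMap.ker_eq_bot, LinearMap.ker_eq_bot']
      intro a ha
      apply Subtype.ext
      exact hinj u a a.2 fun k => congrFun ha k
    have hfr : finrank ℂ (Ws D u) = finrank ℂ (Fin r → ℂ) := by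
      rw [(hDim T m r D hm3 hd u).1, finrank_fintype_fun_eq_card, Fintype.card_fin]
    have hsur : Function.Surjective (Phi D u v) :=
      (LinearMap.injective_iff_surjective_of_finrank_eq_finrank hfr).1 hPhi
    let e : Ws D u ≃ₗ[ℂ] (Fin r → ℂ) := LinearEquiv.ofBijective (Phi D u v) ⟨hPhi, hsur⟩
    have he : ∀ (a : Ws D u) k, e a k = (a : Frm T) (v k) := fun _ _ => rfl
    have hres : ∀ X ∈ h, ∀ a ∈ Ws D u, pre X a ∈ Ws D u := fun X hX a ha =>
      hst X (hh.u X hX).1 u a ha
    set R : Set (Module.End ℂ (Ws D u)) :=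
      {B' | ∃ X ∈ h, ∀ a : Ws D u, pre X (a : Frm T) = (B' a : Frm T)} with hR
    set g : Submodule ℂ (Module.End ℂ (Ws D u)) := res (Submodule.span ℂ (pre '' h)) (Ws D u)
      with hg
    have hgR : g = Submodule.span ℂ R := by
      apply le_antisymm
      · intro B hB
        exact res_span h (Ws D u) hres B hB
      · rw [Submodule.span_le]
        rintro B ⟨X, hX, h1⟩
        exact ⟨pre X, Submodule.subset_span ⟨X, hX, rfl⟩, h1⟩
    have hcl : ∀ X ∈ g, ∀ Y ∈ g, X * Y - Y * X ∈ g := by
      rintro X ⟨C, hC, h1⟩ Y ⟨C', hC', h2⟩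
      exact ⟨C * C' - C' * C, gg_le hh (com_mem h C C' hC hC'), res_com h1 h2⟩
    have hcm : ∀ X Y : Module.End ℂ (Ws D u), e.conj (X * Y) = e.conj X * e.conj Y := by
      intro X Y
      exact LinearEquiv.conj_comp e Y X
    have hcs : ∀ X Y : Module.End ℂ (Ws D u), e.conj (X - Y) = e.conj X - e.conj Y :=
      fun X Y => map_sub e.conj X Y
    set gh : Submodule ℂ (Module.End ℂ (Fin r → ℂ)) := g.map e.conj.toLinearMap with hgh
    have hghm : ∀ X ∈ g, e.conj X ∈ gh := fun X hX => ⟨X, hX, rfl⟩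
    -- the operator J
    have hJW : ∀ a ∈ Ws D u, pre (mulI T) a ∈ Ws D u := fun a ha => hst (mulI T) (fun w => by
      change Complex.I • D.Z w = D.Z (Complex.I • w)
      rw [map_smul]) u a ha
    set J : Module.End ℂ (Ws D u) := (pre (mulI T)).restrict hJW with hJ
    have hJg : J ∈ g := ⟨pre (mulI T), pre_span h _ hh.J, fun a => rfl⟩
    have hIsJ : IsJc m b (u : ZMod m).val s (e.conj J) := by
      refine ⟨fun f hf => ?_, fun f hf => ?_⟩
      · obtain ⟨a, ha, hak⟩ := hH1 f hf
        have h1 : Pc m b (u : ZMod m).val s f = e ⟨a, ha.1⟩ := by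
          funext k
          rw [he, hak]
        rw [h1, LinearEquiv.conj_apply_apply, LinearEquiv.symm_apply_apply, ← map_smul]
        congr 1
        apply Subtype.ext
        apply LinearMap.ext
        intro w
        exact ha.2 w
      · obtain ⟨a, ha, haI, hak⟩ := hcon f hf
        have h1 : star (Pc m b (m - (u : ZMod m).val) s f) = e ⟨a, ha⟩ := by
          funext k
          rw [he, hak]
        rw [h1, LinearEquiv.conj_apply_apply, LinearEquiv.symm_apply_apply, ← map_smul]
        congr 1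
        apply Subtype.ext
        apply LinearMap.ext
        intro w
        exact haI w
    -- algebraic generators
    have hgen : ∃ (n : ℕ) (X : Fin n → Module.End ℂ (Fin r → ℂ)),
        (∀ i k l, IsAlgebraic ℚ (X i (Pi.single k 1) l)) ∧ gh = Submodule.span ℂ (Set.range X) := by
      have h1 : gh = Submodule.span ℂ (e.conj '' R) := by
        rw [hgh, hgR, Submodule.map_span]
        rfl
      have h2 : (Submodule.span ℂ (e.conj '' R)).FG := IsNoetherian.noetherian _
      obtain ⟨S, hS1, hS2⟩ := Submodule.fg_span_iff_fg_span_finset_subset _ |>.1 h2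
      refine ⟨S.card, fun i => (S.equivFin.symm i : Module.End ℂ (Fin r → ℂ)), ?_, ?_⟩
      · intro i k l
        obtain ⟨B, ⟨X, hX, hXB⟩, hB⟩ := hS1 (S.equivFin.symm i).2
        change IsAlgebraic ℚ ((S.equivFin.symm i : Module.End ℂ (Fin r → ℂ)) (Pi.single k 1) l)
        rw [← hB]
        obtain ⟨N, x, hN, hx⟩ := hmat X (hh.rat X hX) (hh.u X hX).1
        set a : Ws D u := e.symm (Pi.single k 1) with ha
        have hak : ∀ j, (a : Frm T) (v j) = (Pi.single k 1 : Fin r → ℂ) j := by
          intro j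
          rw [← he, ha, LinearEquiv.apply_symm_apply]
        have h3 : e.conj B (Pi.single k 1) l = (a : Frm T) (X (v l)) := by
          rw [LinearEquiv.conj_apply_apply, he, ← hXB]
          rfl
        have h4 := congrArg (a : Frm T) (hx l)
        rw [map_zsmul, map_sum] at h4
        have h5 : ∑ j, (a : Frm T) ((Polynomial.aeval D.Z (x l j)) (v j)) =
            Polynomial.aeval (zet m u) (x l k) := by
          rw [Finset.sum_eq_single k]
          · rw [B_aeval a.2, hak, Pi.single_eq_same, mul_one]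
          · intro j _ hj
            rw [B_aeval a.2, hak, Pi.single_eq_of_ne hj, mul_zero]
          · intro h6
            exact absurd (Finset.mem_univ k) h6
        rw [h5, zsmul_eq_mul] at h4
        have hN' : (N : ℂ) ≠ 0 := Int.cast_ne_zero.2 hN
        have h6 : (a : Frm T) (X (v l)) = (N : ℂ)⁻¹ * Polynomial.aeval (zet m u) (x l k) := by
          rw [← h4]
          field_simp
        rw [h3, h6]
        have h7 : IsIntegral ℚ (Polynomial.aeval (zet m u) (x l k)) := alg_aeval hm u (x l k)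
        have h8 : IsAlgebraic ℚ ((N : ℂ)⁻¹) := by
          have : ((N : ℂ)⁻¹) = algebraMap ℚ ℂ ((N : ℚ)⁻¹) := by
            rw [map_inv₀]
            congr 1
          rw [this]
          exact isAlgebraic_algebraMap _
        exact h8.mul h7.isAlgebraic
      · rw [h1, hS2]
        congr 1
        ext Y
        constructor
        · intro hY
          refine ⟨S.equivFin ⟨Y, hY⟩, ?_⟩
          change (S.equivFin.symm (S.equivFin ⟨Y, hY⟩) : Module.End ℂ (Fin r → ℂ)) = Y
          rw [Equiv.symm_apply_apply]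
        · rintro ⟨i, rfl⟩
          exact (S.equivFin.symm i).2
    have hclh : ∀ X ∈ gh, ∀ Y ∈ gh, X * Y - Y * X ∈ gh := by
      rintro _ ⟨X, hX, rfl⟩ _ ⟨Y, hY, rfl⟩
      refine ⟨X * Y - Y * X, hcl X hX Y hY, ?_⟩
      change e.conj (X * Y - Y * X) = e.conj X * e.conj Y - e.conj Y * e.conj X
      rw [hcs, hcm, hcm]
    intro A hA
    have hY : ∀ Y : Module.End ℂ (Fin r → ℂ), LinearMap.trace ℂ _ Y = 0 →
        Y ∈ Submodule.span ℂ {Y | ∃ A ∈ gh, ∃ B ∈ gh, Y = A * B - B * A} := by
      intro Y hY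
      by_contra hn
      exact hbad ⟨gh, ⟨hgen, hclh, Y, hY, hn⟩, e.conj J, hghm J hJg, hIsJ⟩
    have htr : LinearMap.trace ℂ _ (e.conj (A u)) = 0 := by
      rw [LinearMap.trace_conj', hA]
    have h1 := hY _ htr
    have h2 : ∀ Y ∈ Submodule.span ℂ {Y | ∃ A ∈ gh, ∃ B ∈ gh, Y = A * B - B * A},
        e.conj.symm Y ∈ res (gg h) (Ws D u) := by
      intro Y hY
      induction hY using Submodule.span_induction with
      | mem Y hY =>
        obtain ⟨_, ⟨X, ⟨C, hC, h3⟩, rfl⟩, _, ⟨X', ⟨C', hC', h4⟩, rfl⟩, rfl⟩ := hY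
        have h5 : e.conj.symm (e.conj.toLinearMap X * e.conj.toLinearMap X' -
            e.conj.toLinearMap X' * e.conj.toLinearMap X) = X * X' - X' * X := by
          rw [LinearEquiv.symm_apply_eq]
          change e.conj X * e.conj X' - e.conj X' * e.conj X = e.conj (X * X' - X' * X)
          rw [hcs, hcm, hcm]
        rw [h5]
        exact ⟨C * C' - C' * C, com_mem h C C' hC hC', res_com h3 h4⟩
      | zero =>
        rw [map_zero]
        exact zero_mem _
      | add Y Y' _ _ h3 h4 =>
        rw [map_add]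
        exact add_mem h3 h4
      | smul c Y _ h3 =>
        rw [map_smul]
        exact Submodule.smul_mem _ _ h3
    have h3 := h2 _ h1
    rw [LinearEquiv.symm_apply_apply] at h3
    obtain ⟨C, hC, h4⟩ := h3
    refine ⟨C, hC, fun t ht a => ?_⟩
    rw [Set.mem_singleton_iff] at ht
    subst ht
    exact h4 a

end SEB
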