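import Pool.Agent.Lib.SE.Big.VG3

/-!
# PROJECT SE, module cI: the weight on the segments, the convex open set `Inc`
-/

set_option autoImplicit false

open Module MeasureTheory Topology

noncomputable section

namespace SEB

open HC HC.E HC.SE

namespace cI_aux

lemma beta (a b : ℝ) (ha : a < 1) (hb : b < 1) :
    IntervalIntegrable (fun t : ℝ => t ^ (-a) * (1 - t) ^ (-b)) volume 0 1 := by
  have h1 : IntervalIntegrable (fun t : ℝ => t ^ (-a) * (1 - t) ^ (-b)) volume 0 (1 / 2) := by
    refine (intervalIntegral.intervalIntegrable_rpow' (by linarith)).mul_continuousOn ?_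
    refine ContinuousOn.rpow_const (continuousOn_const.sub continuousOn_id) ?_
    intro x hx
    left
    rw [Set.uIcc_of_le (by norm_num)] at hx
    have h2 := hx.2
    intro h
    change 1 - x = 0 at h
    linarith
  have h2 : IntervalIntegrable (fun t : ℝ => t ^ (-a) * (1 - t) ^ (-b)) volume (1 / 2) 1 := by
    have h3 : IntervalIntegrable (fun t : ℝ => (1 - t) ^ (-b)) volume (1 / 2) 1 := by
      have h4 : IntervalIntegrable (fun t : ℝ => t ^ (-b)) volume (1 - 1 / 2) (1 - 1) :=
        intervalIntegral.intervalIntegrable_rpow' (by linarith)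
      have h5 := h4.comp_sub_left 1
      simpa using h5
    refine h3.continuousOn_mul ?_
    refine ContinuousOn.rpow_const continuousOn_id ?_
    intro x hx
    left
    rw [Set.uIcc_of_le (by norm_num)] at hx
    have h2 := hx.1
    intro h
    change x = 0 at h
    linarith
  exact h1.trans h2

lemma inc_iff {r : ℕ} (s : Fin (r + 1) → ℂ) :
    Inc s ↔ ∀ i : Fin r, (s i.castSucc).re < (s i.succ).re :=
  Fin.strictMono_iff_lt_succ

lemma inc_open (r : ℕ) : IsOpen {s : Fin (r + 1) → ℂ | Inc s} := by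
  have h : {s : Fin (r + 1) → ℂ | Inc s} =
      ⋂ i : Fin r, {s : Fin (r + 1) → ℂ | (s i.castSucc).re < (s i.succ).re} := by
    ext s
    rw [Set.mem_iInter]
    exact inc_iff s
  rw [h]
  refine isOpen_iInter_of_finite fun i => ?_
  exact isOpen_lt (Complex.continuous_re.comp (continuous_apply _))
    (Complex.continuous_re.comp (continuous_apply _))

lemma inc_convex (r : ℕ) : Convex ℝ {s : Fin (r + 1) → ℂ | Inc s} := by
  intro s hs t ht a b ha hb hab i j hij
  have h1 : (s i).re < (s j).re := hs hij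
  have h2 : (t i).re < (t j).re := ht hij
  simp only [Pi.add_apply, Pi.smul_apply, Complex.add_re, Complex.real_smul, Complex.mul_re,
    Complex.ofReal_re, Complex.ofReal_im, zero_mul, sub_zero]
  rcases ha.eq_or_lt with h | h
  · have hb1 : b = 1 := by linarith
    rw [← h, hb1]
    linarith
  · nlinarith [mul_pos h (sub_pos.2 h1), mul_nonneg hb (sub_pos.2 h2).le]

lemma seg_re {r : ℕ} (s : Fin (r + 1) → ℂ) (k : Fin r) (t : ℝ) :
    (seg s k t).re = (s k.castSucc).re + t * ((s k.succ).re - (s k.castSucc).re) := by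
  simp [seg]

lemma pos {r : ℕ} {s : Fin (r + 1) → ℂ} (hs : Inc s) (k : Fin r) :
    0 < (s k.succ - s k.castSucc).re ∧ ∀ t ∈ Set.Icc (0 : ℝ) 1,
      ∀ j : Fin (r + 1), (j.val < k.val → 0 < (seg s k t - s j).re) ∧
        (k.val + 1 < j.val → 0 < (s j - seg s k t).re) := by
  have h1 : (s k.castSucc).re < (s k.succ).re := (inc_iff s).1 hs k
  refine ⟨by rw [Complex.sub_re]; linarith, fun t ht j => ⟨fun hj => ?_, fun hj => ?_⟩⟩
  · have h2 : (s j).re < (s k.castSucc).re := hs (by rw [Fin.lt_def]; simpa using hj)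
    rw [Complex.sub_re, seg_re]
    have h3 := mul_nonneg ht.1 (sub_pos.2 h1).le
    linarith
  · have h2 : (s k.succ).re < (s j).re := hs (by rw [Fin.lt_def]; simpa using hj)
    rw [Complex.sub_re, seg_re]
    have h3 := mul_nonneg (sub_nonneg.2 ht.2) (sub_pos.2 h1).le
    nlinarith

lemma cont {r : ℕ} (μ : Fin (r + 1) → ℝ) (k : Fin r) :
    ContinuousOn (fun p : (Fin (r + 1) → ℂ) × ℝ => Hc μ p.1 k p.2)
      ({s | Inc s} ×ˢ Set.Icc (0 : ℝ) 1) := by
  have happ : ∀ j : Fin (r + 1), Continuous fun p : (Fin (r + 1) → ℂ) × ℝ => p.1 j :=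
    fun j => (continuous_apply j).comp continuous_fst
  have hseg : Continuous fun p : (Fin (r + 1) → ℂ) × ℝ => seg p.1 k p.2 := by
    unfold seg
    exact (happ _).add ((Complex.continuous_ofReal.comp continuous_snd).mul
      ((happ _).sub (happ _)))
  unfold Hc
  refine ContinuousOn.mul ?_ ?_
  · refine ContinuousOn.cpow ((happ _).sub (happ _)).continuousOn continuousOn_const ?_
    rintro ⟨s, t⟩ ⟨hs, _⟩
    exact Or.inl (pos hs k).1
  · refine continuousOn_finsetProd _ fun j _ => ?_
    by_cases hj : j = k.castSucc ∨ j = k.succ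
    · simp only [if_pos hj]
      exact continuousOn_const
    · simp only [if_neg hj]
      push Not at hj
      have hj1 : j.val ≠ k.val := fun h => hj.1 (Fin.ext h)
      have hj2 : j.val ≠ k.val + 1 := fun h => hj.2 (Fin.ext h)
      by_cases h : j.val ≤ k.val
      · simp only [if_pos h]
        refine ContinuousOn.cpow (hseg.sub (happ _)).continuousOn continuousOn_const ?_
        rintro ⟨s, t⟩ ⟨hs, ht⟩
        exact Or.inl (((pos hs k).2 t ht j).1 (by omega))
      · simp only [if_neg h]
        refine ContinuousOn.cpow ((happ _).sub hseg).continuousOn continuousOn_const ?_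
        rintro ⟨s, t⟩ ⟨hs, ht⟩
        exact Or.inl (((pos hs k).2 t ht j).2 (by omega))

end cI_aux

theorem tcI : S_cI :=
  ⟨cI_aux.beta, fun r μ => ⟨cI_aux.inc_open r, cI_aux.inc_convex r, fun k =>
    ⟨fun _ hs => cI_aux.pos hs k, cI_aux.cont μ k⟩⟩⟩

end SEB

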