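import Pool.Agent.Lib.SE.Big.VG2

/-!
# PROJECT SE, module IsBig, part 4: the operator `J` (task 23863, helper63)
-/

set_option autoImplicit false

open Module MeasureTheory Topology

noncomputable section

namespace SEB

open HC HC.E HC.SE

namespace Jx_aux

variable {V W₁ W₂ : Type} [AddCommGroup V] [Module ℂ V] [FiniteDimensional ℂ V]
  [AddCommGroup W₁] [Module ℂ W₁] [FiniteDimensional ℂ W₁]
  [AddCommGroup W₂] [Module ℂ W₂] [FiniteDimensional ℂ W₂]

/-- The abstract statement: `J` is `i` on the image of `A` and `-i` on the image of `B`. -/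
lemma main (A : W₁ →ₗ[ℂ] V) (B : W₂ →ₗ[ℂ] V) (h : ∀ f g, A f + B g = 0 → f = 0 ∧ g = 0)
    (hd : finrank ℂ W₁ + finrank ℂ W₂ = finrank ℂ V) :
    ∃ J : Module.End ℂ V, (∀ f, J (A f) = Complex.I • A f) ∧ (∀ g, J (B g) = -Complex.I • B g) ∧
      (∀ J' : Module.End ℂ V, (∀ f, J' (A f) = Complex.I • A f) →
        (∀ g, J' (B g) = -Complex.I • B g) → J' = J) ∧ J * J = -1 ∧
      (∀ v, J v = Complex.I • v ↔ ∃ f, v = A f) ∧ (∀ v, J v = -Complex.I • v ↔ ∃ g, v = B g) ∧
      finrank ℂ (LinearMap.ker (J - Complex.I • (1 : Module.End ℂ V))) = finrank ℂ W₁ ∧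
      finrank ℂ (LinearMap.ker (J + Complex.I • (1 : Module.End ℂ V))) = finrank ℂ W₂ := by
  have hinj : Function.Injective (A.coprod B) := by
    rw [← LinearMap.ker_eq_bot, LinearMap.ker_eq_bot']
    rintro ⟨f, g⟩ hfg
    rw [LinearMap.coprod_apply] at hfg
    obtain ⟨h1, h2⟩ := h f g hfg
    rw [h1, h2]
    rfl
  have hdim : finrank ℂ (W₁ × W₂) = finrank ℂ V := by rw [Module.finrank_prod, hd]
  let e : (W₁ × W₂) ≃ₗ[ℂ] V := LinearEquiv.ofInjectiveOfFinrankEq (A.coprod B) hinj hdim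
  have he : ∀ f g, e (f, g) = A f + B g := by
    intro f g
    exact LinearMap.coprod_apply A B (f, g)
  have hA : ∀ f, A f = e (f, 0) := fun f => by rw [he, map_zero, add_zero]
  have hB : ∀ g, B g = e (0, g) := fun g => by rw [he, map_zero, zero_add]
  let J₀ : Module.End ℂ (W₁ × W₂) :=
    LinearMap.prodMap (Complex.I • (1 : Module.End ℂ W₁)) (-Complex.I • (1 : Module.End ℂ W₂))
  have hJ₀ : ∀ f g, J₀ (f, g) = (Complex.I • f, -Complex.I • g) := fun f g => rfl
  let J : Module.End ℂ V := e.toLinearMap ∘ₗ J₀ ∘ₗ e.symm.toLinearMap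
  have hJ : ∀ f g, J (e (f, g)) = e (Complex.I • f, -Complex.I • g) := by
    intro f g
    change e (J₀ (e.symm (e (f, g)))) = _
    rw [LinearEquiv.symm_apply_apply, hJ₀]
  have hII : ∀ (W : Type) [AddCommGroup W] [Module ℂ W] (w : W),
      Complex.I • w = -Complex.I • w → w = 0 := by
    intro W _ _ w hw
    have h1 : (2 * Complex.I) • w = 0 := by
      rw [two_mul, add_smul]
      nth_rewrite 1 [hw]
      rw [neg_smul, neg_add_cancel]
    exact (smul_eq_zero.1 h1).resolve_left (mul_ne_zero two_ne_zero Complex.I_ne_zero)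
  have hsurj : ∀ v, ∃ f g, v = e (f, g) := fun v => ⟨(e.symm v).1, (e.symm v).2, by
    rw [Prod.mk.eta, LinearEquiv.apply_symm_apply]⟩
  have hJA : ∀ f, J (A f) = Complex.I • A f := by
    intro f
    rw [hA, hJ, smul_zero, ← map_smul, Prod.smul_mk, smul_zero]
  have hJB : ∀ g, J (B g) = -Complex.I • B g := by
    intro g
    rw [hB, hJ, smul_zero, ← map_smul, Prod.smul_mk, smul_zero]
  have hp : ∀ v, J v = Complex.I • v ↔ ∃ f, v = A f := by
    intro v
    constructor
    · intro hv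
      obtain ⟨f, g, rfl⟩ := hsurj v
      rw [hJ, ← map_smul, Prod.smul_mk] at hv
      have h1 := e.injective hv
      have h2 : g = 0 := hII W₂ g (Prod.mk.inj h1).2.symm
      exact ⟨f, by rw [h2, hA]⟩
    · rintro ⟨f, rfl⟩
      exact hJA f
  have hm : ∀ v, J v = -Complex.I • v ↔ ∃ g, v = B g := by
    intro v
    constructor
    · intro hv
      obtain ⟨f, g, rfl⟩ := hsurj v
      rw [hJ, ← map_smul, Prod.smul_mk] at hv
      have h1 := e.injective hv
      have h2 : f = 0 := hII W₁ f (Prod.mk.inj h1).1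
      exact ⟨g, by rw [h2, hB]⟩
    · rintro ⟨g, rfl⟩
      exact hJB g
  have hAinj : Function.Injective A := by
    intro f f' hff
    rw [hA, hA] at hff
    exact (Prod.mk.inj (e.injective hff)).1
  have hBinj : Function.Injective B := by
    intro g g' hgg
    rw [hB, hB] at hgg
    exact (Prod.mk.inj (e.injective hgg)).2
  refine ⟨J, hJA, hJB, ?_, ?_, hp, hm, ?_, ?_⟩
  · intro J' h1 h2
    refine LinearMap.ext fun v => ?_
    obtain ⟨f, g, rfl⟩ := hsurj v
    rw [he, map_add, map_add, h1, h2, hJA, hJB]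
  · refine LinearMap.ext fun v => ?_
    obtain ⟨f, g, rfl⟩ := hsurj v
    rw [Module.End.mul_apply, hJ, hJ, smul_smul, smul_smul]
    have h1 : Complex.I * Complex.I = -1 := Complex.I_mul_I
    have h2 : -Complex.I * -Complex.I = -1 := by rw [neg_mul_neg, h1]
    rw [h1, h2, LinearMap.neg_apply, Module.End.one_apply, neg_one_smul, neg_one_smul, ← map_neg]
    rfl
  · have h1 : LinearMap.ker (J - Complex.I • (1 : Module.End ℂ V)) = LinearMap.range A := by
      ext v
      rw [LinearMap.mem_ker, LinearMap.sub_apply, sub_eq_zero, LinearMap.smul_apply,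
        Module.End.one_apply, hp, LinearMap.mem_range]
      exact ⟨fun ⟨f, hf⟩ => ⟨f, hf.symm⟩, fun ⟨f, hf⟩ => ⟨f, hf.symm⟩⟩
    rw [h1, LinearMap.finrank_range_of_inj hAinj]
  · have h1 : LinearMap.ker (J + Complex.I • (1 : Module.End ℂ V)) = LinearMap.range B := by
      ext v
      rw [LinearMap.mem_ker, LinearMap.add_apply, LinearMap.smul_apply, Module.End.one_apply,
        ← sub_neg_eq_add, sub_eq_zero, ← neg_smul, hm, LinearMap.mem_range]
      exact ⟨fun ⟨f, hf⟩ => ⟨f, hf.symm⟩, fun ⟨f, hf⟩ => ⟨f, hf.symm⟩⟩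
    rw [h1, LinearMap.finrank_range_of_inj hBinj]

/-- The conjugate polynomial. -/
def cj (f : Polynomial ℂ) : Polynomial ℂ := f.map (starRingEnd ℂ)

lemma cj_cj (f : Polynomial ℂ) : cj (cj f) = f := by
  unfold cj
  rw [Polynomial.map_map]
  have : (starRingEnd ℂ).comp (starRingEnd ℂ) = RingHom.id ℂ := by
    ext x
    simp
  rw [this, Polynomial.map_id]

lemma cj_degree (f : Polynomial ℂ) : (cj f).degree = f.degree :=
  Polynomial.degree_map_eq_of_injective (starRingEnd ℂ).injective f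

lemma finrank_degreeLT (n : ℕ) : finrank ℂ (Polynomial.degreeLT ℂ n) = n := by
  rw [(Polynomial.degreeLTEquiv ℂ n).finrank_eq, Module.finrank_fin_fun]

lemma fin_degreeLT (n : ℕ) : FiniteDimensional ℂ (Polynomial.degreeLT ℂ n) :=
  FiniteDimensional.of_injective (Polynomial.degreeLTEquiv ℂ n).toLinearMap
    (Polynomial.degreeLTEquiv ℂ n).injective

lemma adm_neg {m r : ℕ} {b : Fin (r + 1) → ℕ} {u : ℕ} {s : Fin (r + 1) → ℝ}
    (h : Adm m b u s) : Adm m b (m - u) s := by
  obtain ⟨h1, h2, h3, h4⟩ := h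
  have hm : 3 ≤ m := h2.1
  have hu : 0 < u := by
    rcases Nat.eq_zero_or_pos u with h | h
    · rw [h, Nat.coprime_zero_left] at h4
      omega
    · exact h
  exact ⟨h1, h2, by omega, (Nat.coprime_self_sub_left h3.le).2 h4⟩

end Jx_aux

open Jx_aux in
theorem tJx : S_Pv → S_Sg → S_Jx := by
  intro hPv hSg m r b u s hA hN
  obtain ⟨P1, P2, -⟩ := hPv m r b u s hA
  obtain ⟨Q1, Q2, -⟩ := hPv m r b (m - u) s (adm_neg hA)
  have hsum := hSg m r _ b hA.2.1 u hA.2.2.1 hA.2.2.2
  have i1 := fin_degreeLT (sg m r b u)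
  have i2 := fin_degreeLT (sg m r b (m - u))
  let A : Polynomial.degreeLT ℂ (sg m r b u) →ₗ[ℂ] (Fin r → ℂ) :=
    { toFun := fun f => Pv m b u s f
      map_add' := fun f g => P1 f g
      map_smul' := fun c f => by
        change Pv m b u s (c • (f : Polynomial ℂ)) = _
        rw [Polynomial.smul_eq_C_mul, P2]
        rfl }
  let B : Polynomial.degreeLT ℂ (sg m r b (m - u)) →ₗ[ℂ] (Fin r → ℂ) :=
    { toFun := fun f => star (Pv m b (m - u) s (cj f))
      map_add' := fun f g => by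
        change star (Pv m b (m - u) s (cj ((f : Polynomial ℂ) + g))) = _
        rw [← star_add, ← Q1]
        unfold cj
        rw [Polynomial.map_add]
      map_smul' := fun c f => by
        change star (Pv m b (m - u) s (cj (c • (f : Polynomial ℂ)))) = _
        have h1 : cj (c • (f : Polynomial ℂ)) = Polynomial.C (star c) * cj f := by
          unfold cj
          rw [Polynomial.smul_eq_C_mul, Polynomial.map_mul, Polynomial.map_C]
          rfl
        rw [h1, Q2, star_smul, star_star]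
        rfl }
  have hA' : ∀ f, A f = Pv m b u s f := fun f => rfl
  have hB' : ∀ f, B f = star (Pv m b (m - u) s (cj f)) := fun f => rfl
  obtain ⟨J, h1, h2, h3, h4, h5, h6, h7, h8⟩ := main A B (by
    intro f g hfg
    rw [hA', hB'] at hfg
    obtain ⟨e1, e2⟩ := hN f (cj g) (Polynomial.mem_degreeLT.1 f.2)
      (by rw [cj_degree]; exact Polynomial.mem_degreeLT.1 g.2) hfg
    refine ⟨Subtype.ext e1, Subtype.ext ?_⟩
    rw [← cj_cj (g : Polynomial ℂ), e2]
    unfold cj
    rw [Polynomial.map_zero]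
    rfl) (by rw [finrank_degreeLT, finrank_degreeLT, hsum, Module.finrank_fin_fun])
  have hJA : ∀ (J' : Module.End ℂ (Fin r → ℂ)), IsJ m b u s J' ↔
      (∀ f, J' (A f) = Complex.I • A f) ∧ ∀ g, J' (B g) = -Complex.I • B g := by
    intro J'
    constructor
    · rintro ⟨k1, k2⟩
      refine ⟨fun f => k1 f (Polynomial.mem_degreeLT.1 f.2), fun g => ?_⟩
      exact k2 (cj g) (by rw [cj_degree]; exact Polynomial.mem_degreeLT.1 g.2)
    · rintro ⟨k1, k2⟩
      refine ⟨fun f hf => k1 ⟨f, Polynomial.mem_degreeLT.2 hf⟩, fun g hg => ?_⟩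
      have := k2 ⟨cj g, Polynomial.mem_degreeLT.2 (by rw [cj_degree]; exact hg)⟩
      rw [hB'] at this
      simp only [cj_cj] at this
      exact this
  refine ⟨J, (hJA J).2 ⟨h1, h2⟩, fun J' hJ' => h3 J' ((hJA J').1 hJ').1 ((hJA J').1 hJ').2, h4,
    ?_, ?_, ?_, ?_⟩
  · intro v
    rw [h5]
    constructor
    · rintro ⟨f, rfl⟩
      exact ⟨f, Polynomial.mem_degreeLT.1 f.2, rfl⟩
    · rintro ⟨f, hf, rfl⟩
      exact ⟨⟨f, Polynomial.mem_degreeLT.2 hf⟩, rfl⟩
  · intro v
    rw [h6]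
    constructor
    · rintro ⟨g, rfl⟩
      exact ⟨cj g, by rw [cj_degree]; exact Polynomial.mem_degreeLT.1 g.2, rfl⟩
    · rintro ⟨g, hg, rfl⟩
      refine ⟨⟨cj g, Polynomial.mem_degreeLT.2 (by rw [cj_degree]; exact hg)⟩, ?_⟩
      rw [hB']
      simp only [cj_cj]
  · rw [h7, finrank_degreeLT]
  · rw [h8, finrank_degreeLT]

end SEB
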