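import Pool.Agent.Lib.SE.Big.VG3
import Pool.Agent.Lib.SE.Big.Jx

/-!
# PROJECT SE, module IsBig, part 5: the operator `J` for complex branch points

As `SE/Big/Jx.lean` (helper63), for complex `s`.
-/

set_option autoImplicit false

open Module MeasureTheory Topology

noncomputable section

namespace SEB

open HC HC.E HC.SE

namespace cJx_aux

lemma admc_neg {m r : ℕ} {b : Fin (r + 1) → ℕ} {u : ℕ} {s : Fin (r + 1) → ℂ}
    (h : Admc m b u s) : Admc m b (m - u) s := by
  obtain ⟨h1, h2, h3, h4⟩ := h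
  have hm : 3 ≤ m := h2.1
  have hu : 0 < u := by
    rcases Nat.eq_zero_or_pos u with h | h
    · rw [h, Nat.coprime_zero_left] at h4
      omega
    · exact h
  exact ⟨h1, h2, by omega, (Nat.coprime_self_sub_left h3.le).2 h4⟩

end cJx_aux

open Jx_aux cJx_aux in
/-- Existence and properties of `J`. -/
theorem tcJx : S_cPv → S_Sg → S_cJx := by
  intro hPv hSg m r b u s hA hN
  obtain ⟨P1, P2⟩ := hPv m r b u s hA
  obtain ⟨Q1, Q2⟩ := hPv m r b (m - u) s (admc_neg hA)
  have hsum := hSg m r _ b hA.2.1 u hA.2.2.1 hA.2.2.2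
  have i1 := fin_degreeLT (sg m r b u)
  have i2 := fin_degreeLT (sg m r b (m - u))
  let A : Polynomial.degreeLT ℂ (sg m r b u) →ₗ[ℂ] (Fin r → ℂ) :=
    { toFun := fun f => Pc m b u s f
      map_add' := fun f g => P1 f g
      map_smul' := fun c f => by
        change Pc m b u s (c • (f : Polynomial ℂ)) = _
        rw [Polynomial.smul_eq_C_mul, P2]
        rfl }
  let B : Polynomial.degreeLT ℂ (sg m r b (m - u)) →ₗ[ℂ] (Fin r → ℂ) :=
    { toFun := fun f => star (Pc m b (m - u) s (cj f))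
      map_add' := fun f g => by
        change star (Pc m b (m - u) s (cj ((f : Polynomial ℂ) + g))) = _
        rw [← star_add, ← Q1]
        unfold cj
        rw [Polynomial.map_add]
      map_smul' := fun c f => by
        change star (Pc m b (m - u) s (cj (c • (f : Polynomial ℂ)))) = _
        have h1 : cj (c • (f : Polynomial ℂ)) = Polynomial.C (star c) * cj f := by
          unfold cj
          rw [Polynomial.smul_eq_C_mul, Polynomial.map_mul, Polynomial.map_C]
          rfl
        rw [h1, Q2, star_smul, star_star]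
        rfl }
  have hA' : ∀ f, A f = Pc m b u s f := fun f => rfl
  have hB' : ∀ f, B f = star (Pc m b (m - u) s (cj f)) := fun f => rfl
  obtain ⟨J, h1, h2, h3, h4, h5, h6, h7, h8⟩ := main A B (by
    intro f g hfg
    rw [hA', hB'] at hfg
    obtain ⟨e1, e2⟩ := hN f (cj g) (Polynomial.mem_degreeLT.1 f.2)
      (by rw [cj_degree]; exact Polynomial.mem_degreeLT.1 g.2) hfg
    refine ⟨Subtype.ext e1, Subtype.ext ?_⟩
    rw [← cj_cj (g : Polynomial ℂ), e2]
    unfold cj
    rw [Polynomial.map_zero]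
    rfl) (by rw [finrank_degreeLT, finrank_degreeLT, hsum, Module.finrank_fin_fun])
  have hJA : ∀ (J' : Module.End ℂ (Fin r → ℂ)), IsJc m b u s J' ↔
      (∀ f, J' (A f) = Complex.I • A f) ∧ ∀ g, J' (B g) = -Complex.I • B g := by
    intro J'
    constructor
    · rintro ⟨k1, k2⟩
      refine ⟨fun f => k1 f (Polynomial.mem_degreeLT.1 f.2), fun g => ?_⟩
      exact k2 (cj g) (by rw [cj_degree]; exact Polynomial.mem_degreeLT.1 g.2)
    · rintro ⟨k1, k2⟩
      refine ⟨fun f hf => k1 ⟨f, Polynomial.mem_degreeLT.2 hf⟩, fun g hg => ?_⟩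
      have := k2 ⟨cj g, Polynomial.mem_degreeLT.2 (by rw [cj_degree]; exact hg)⟩
      rw [hB'] at this
      simp only [cj_cj] at this
      exact this
  refine ⟨J, (hJA J).2 ⟨h1, h2⟩, fun J' hJ' => h3 J' ((hJA J').1 hJ').1 ((hJA J').1 hJ').2, h4,
    ?_, ?_, ?_, ?_⟩
  · intro v
    rw [h5]
    constructor
    · rintro ⟨f, rfl⟩
      exact ⟨f, Polynomial.mem_degreeLT.1 f.2, rfl⟩
    · rintro ⟨f, hf, rfl⟩
      exact ⟨⟨f, Polynomial.mem_degreeLT.2 hf⟩, rfl⟩
  · intro v
    rw [h6]
    constructor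
    · rintro ⟨g, rfl⟩
      exact ⟨cj g, by rw [cj_degree]; exact Polynomial.mem_degreeLT.1 g.2, rfl⟩
    · rintro ⟨g, hg, rfl⟩
      refine ⟨⟨cj g, Polynomial.mem_degreeLT.2 (by rw [cj_degree]; exact hg)⟩, ?_⟩
      rw [hB']
      simp only [cj_cj]
  · rw [h7, finrank_degreeLT]
  · rw [h8, finrank_degreeLT]

end SEB
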