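import Pool.Agent.Lib.SE.Big.VG2

/-!
# PROJECT SE, module IsBig, part 4, module Key: `J` and its derivatives generate `sl`
-/

set_option autoImplicit false

open Module MeasureTheory Topology

noncomputable section

namespace SEB

open HC HC.E HC.SE

namespace Key_aux

/-- enough vectors `ξ_j` span the eigenspace -/
lemma span_le {r q : ℕ} {J : Module.End ℂ (Fin r → ℂ)} {ε : ℂ} {ξ : Fin (r + 1) → (Fin r → ℂ)}
    (hξ : ∀ j, J (ξ j) = -ε • ξ j)
    (hind : ∀ c : Fin (r + 1) → ℂ, (Finset.univ.filter fun j => c j ≠ 0).card ≤ q →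
      ∑ j, c j • ξ j = 0 → c = 0)
    (hk : finrank ℂ (LinearMap.ker (J + ε • (1 : Module.End ℂ (Fin r → ℂ)))) = q)
    (U : Submodule ℂ (Fin r → ℂ)) (S : Finset (Fin (r + 1))) (hS : q ≤ S.card)
    (h : ∀ j ∈ S, ξ j ∈ U) :
    LinearMap.ker (J + ε • (1 : Module.End ℂ (Fin r → ℂ))) ≤ U := by
  classical
  obtain ⟨S', hS', hc⟩ := Finset.exists_subset_card_eq hS
  have li : LinearIndependent ℂ (fun j : S' => ξ j) := by
    rw [Fintype.linearIndependent_iff]
    intro c hcs
    set c' : Fin (r + 1) → ℂ := fun j => if h : j ∈ S' then c ⟨j, h⟩ else 0 with hc'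
    have h1 : ∑ j, c' j • ξ j = 0 := by
      rw [← hcs, ← Finset.sum_subset (Finset.subset_univ S')
        (fun j _ hj => by rw [hc']; simp only [dif_neg hj, zero_smul]), ← Finset.sum_coe_sort]
      refine Finset.sum_congr rfl fun j _ => ?_
      rw [hc']
      simp only [Finset.coe_mem, dif_pos, Subtype.coe_eta]
    have h2 : (Finset.univ.filter fun j => c' j ≠ 0).card ≤ q := by
      rw [← hc]
      refine Finset.card_le_card fun j hj => ?_
      rw [Finset.mem_filter] at hj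
      by_contra hjS
      exact hj.2 (by rw [hc']; simp only [dif_neg hjS])
    have h3 := hind c' h2 h1
    intro j
    have h4 := congrFun h3 j
    rw [hc'] at h4
    simpa using h4
  have hP : finrank ℂ (Submodule.span ℂ (Set.range fun j : S' => ξ j)) = q := by
    rw [finrank_span_eq_card li, Fintype.card_coe, hc]
  have hle : Submodule.span ℂ (Set.range fun j : S' => ξ j) ≤
      LinearMap.ker (J + ε • (1 : Module.End ℂ (Fin r → ℂ))) := by
    rw [Submodule.span_le]
    rintro _ ⟨j, rfl⟩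
    change (J + ε • (1 : Module.End ℂ (Fin r → ℂ))) (ξ j) = 0
    rw [LinearMap.add_apply, LinearMap.smul_apply, Module.End.one_apply, hξ, neg_smul,
      neg_add_cancel]
  rw [← Submodule.eq_of_le_of_finrank_eq hle (by rw [hP, hk]), Submodule.span_le]
  rintro _ ⟨j, rfl⟩
  exact h _ (hS' j.2)

/-- a family of rank one operators -/
structure Fam (r p q : ℕ) (g : Submodule ℂ (Module.End ℂ (Fin r → ℂ)))
    (J : Module.End ℂ (Fin r → ℂ)) (ε : ℂ) (φ : Fin (r + 1) → Module.Dual ℂ (Fin r → ℂ))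
    (ξ : Fin (r + 1) → (Fin r → ℂ)) : Prop where
  mem : ∀ j, (φ j).smulRight (ξ j) ∈ g
  jx : ∀ j, J (ξ j) = -ε • ξ j
  jp : ∀ j v, φ j (J v) = ε * φ j v
  few : ∀ w, J w = ε • w → w ≠ 0 → (Finset.univ.filter fun j => φ j w = 0).card < p
  ind : ∀ c : Fin (r + 1) → ℂ, (Finset.univ.filter fun j => c j ≠ 0).card ≤ q →
      ∑ j, c j • ξ j = 0 → c = 0
  one : ∀ j, ∃ w, J w = ε • w ∧ φ j w ≠ 0

lemma Fam.sweep {r p q : ℕ} {g : Submodule ℂ (Module.End ℂ (Fin r → ℂ))}
    {J : Module.End ℂ (Fin r → ℂ)} {ε : ℂ} {φ : Fin (r + 1) → Module.Dual ℂ (Fin r → ℂ)}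
    {ξ : Fin (r + 1) → (Fin r → ℂ)} (F : Fam r p q g J ε φ ξ) (hpq : p + q = r)
    (hk : finrank ℂ (LinearMap.ker (J + ε • (1 : Module.End ℂ (Fin r → ℂ)))) = q)
    (U : Submodule ℂ (Fin r → ℂ)) (hU : ∀ X ∈ g, ∀ u ∈ U, X u ∈ U) (w : Fin r → ℂ) (hw : w ∈ U)
    (hJw : J w = ε • w) (h0 : w ≠ 0) :
    LinearMap.ker (J + ε • (1 : Module.End ℂ (Fin r → ℂ))) ≤ U := by
  classical
  refine span_le F.jx F.ind hk U (Finset.univ.filter fun j => ¬ φ j w = 0) ?_ ?_
  · have h1 := F.few w hJw h0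
    have h2 := Finset.card_filter_add_card_filter_not (s := (Finset.univ : Finset (Fin (r + 1))))
      (fun j => φ j w = 0)
    rw [Finset.card_univ, Fintype.card_fin] at h2
    omega
  · intro j hj
    rw [Finset.mem_filter] at hj
    have h1 := hU _ (F.mem j) w hw
    rw [LinearMap.smulRight_apply] at h1
    exact (U.smul_mem_iff hj.2).1 h1

lemma ne0 {r q : ℕ} {ξ : Fin (r + 1) → (Fin r → ℂ)}
    (hind : ∀ c : Fin (r + 1) → ℂ, (Finset.univ.filter fun j => c j ≠ 0).card ≤ q →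
      ∑ j, c j • ξ j = 0 → c = 0) (hq : 0 < q) (j : Fin (r + 1)) : ξ j ≠ 0 := by
  classical
  intro h
  have h1 := hind (Pi.single j 1) ?_ ?_
  · have h2 := congrFun h1 j
    rw [Pi.single_eq_same] at h2
    exact one_ne_zero h2
  · refine le_trans (Finset.card_le_card (t := {j}) fun i hi => ?_) ?_
    · rw [Finset.mem_filter] at hi
      rw [Finset.mem_singleton]
      by_contra hne
      exact hi.2 (Pi.single_eq_of_ne hne 1)
    · rw [Finset.card_singleton]
      exact hq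
  · rw [Finset.sum_eq_single j]
    · rw [h, smul_zero]
    · intro i _ hi
      rw [Pi.single_eq_of_ne hi, zero_smul]
    · intro hj
      exact absurd (Finset.mem_univ j) hj

/-- the components of a vector -/
lemma split {r : ℕ} {J : Module.End ℂ (Fin r → ℂ)} (hJJ : J * J = -1) {ε : ℂ} (hε : ε * ε = -1)
    (v : Fin r → ℂ) : ∃ v₁ v₂ : Fin r → ℂ, v = v₁ + v₂ ∧ J v₁ = ε • v₁ ∧ J v₂ = -ε • v₂ ∧
      v₁ = (1 / 2 : ℂ) • (v - ε • J v) ∧ v₂ = (1 / 2 : ℂ) • (v + ε • J v) := by
  have h1 : J (J v) = -v := by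
    have := congrArg (fun X : Module.End ℂ (Fin r → ℂ) => X v) hJJ
    simpa using this
  refine ⟨(1 / 2 : ℂ) • (v - ε • J v), (1 / 2 : ℂ) • (v + ε • J v), ?_, ?_, ?_, rfl, rfl⟩
  · funext i
    simp only [Pi.add_apply, Pi.smul_apply, Pi.sub_apply, smul_eq_mul]
    ring
  · rw [map_smul, map_sub, map_smul, h1]
    funext i
    simp only [Pi.smul_apply, Pi.sub_apply, Pi.neg_apply, smul_eq_mul]
    linear_combination (1 / 2 * J v i) * hε
  · rw [map_smul, map_add, map_smul, h1]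
    funext i
    simp only [Pi.smul_apply, Pi.add_apply, Pi.neg_apply, smul_eq_mul]
    linear_combination (1 / 2 * J v i) * hε

/-- from `D` to the rank one operator -/
lemma mk_phi {r : ℕ} {g : Submodule ℂ (Module.End ℂ (Fin r → ℂ))}
    (hg : ∀ X ∈ g, ∀ Y ∈ g, X * Y - Y * X ∈ g) {J D : Module.End ℂ (Fin r → ℂ)} (hJ : J ∈ g)
    (hJJ : J * J = -1) {ε : ℂ} (hε : ε * ε = -1) (hD : D ∈ g) {x : Fin r → ℂ} (hx : x ≠ 0)
    (hJx : J x = -ε • x) (hD1 : ∀ v, J v = ε • v → ∃ c : ℂ, D v = c • x)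
    (hD2 : ∀ v, J v = -ε • v → J (D v) = ε • D v) :
    ∃ φ : Module.Dual ℂ (Fin r → ℂ), φ.smulRight x ∈ g ∧ (∀ v, φ (J v) = ε * φ v) ∧
      ∀ v, J v = ε • v → D v = φ v • x := by
  set A : Module.End ℂ (Fin r → ℂ) := (1 / 2 : ℂ) • (D + (ε / 2) • (J * D - D * J)) with hA
  have hAg : A ∈ g := g.smul_mem _ (g.add_mem hD (g.smul_mem _ (hg J hJ D hD)))
  have hAv : ∀ v, A v = (1 / 2 : ℂ) • (D v + (ε / 2) • (J (D v) - D (J v))) := fun v => rfl
  have hA1 : ∀ v, J v = ε • v → A v = D v := by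
    intro v hv
    obtain ⟨c, hc⟩ := hD1 v hv
    rw [hAv, hv, map_smul, hc, map_smul, hJx]
    funext i
    simp only [Pi.add_apply, Pi.smul_apply, Pi.sub_apply, smul_eq_mul]
    linear_combination (-(1 / 2) * (c * x i)) * hε
  have hA2 : ∀ v, J v = -ε • v → A v = 0 := by
    intro v hv
    rw [hAv, hv, map_smul, hD2 v hv]
    funext i
    simp only [Pi.add_apply, Pi.smul_apply, Pi.sub_apply, smul_eq_mul, Pi.zero_apply]
    linear_combination (1 / 2 * D v i) * hε
  obtain ⟨i, hi⟩ : ∃ i, x i ≠ 0 := by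
    by_contra hcon
    push Not at hcon
    exact hx (funext hcon)
  set φ : Module.Dual ℂ (Fin r → ℂ) :=
    ((x i)⁻¹ • (LinearMap.proj i : (Fin r → ℂ) →ₗ[ℂ] ℂ)) ∘ₗ A with hφ
  have hφv : ∀ v, φ v = (x i)⁻¹ * A v i := fun v => rfl
  have hAc : ∀ v, ∃ c : ℂ, A v = c • x := by
    intro v
    obtain ⟨v₁, v₂, h1, h2, h3, -, -⟩ := split hJJ hε v
    obtain ⟨c, hc⟩ := hD1 v₁ h2
    exact ⟨c, by rw [h1, map_add, hA1 v₁ h2, hA2 v₂ h3, add_zero, hc]⟩
  have key : ∀ v, A v = φ v • x := by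
    intro v
    obtain ⟨c, hc⟩ := hAc v
    rw [hφv, hc, Pi.smul_apply, smul_eq_mul, mul_comm c, inv_mul_cancel_left₀ hi]
  refine ⟨φ, ?_, ?_, ?_⟩
  · have : φ.smulRight x = A := by
      refine LinearMap.ext fun v => ?_
      rw [LinearMap.smulRight_apply, key]
    rw [this]
    exact hAg
  · intro v
    obtain ⟨v₁, v₂, h1, h2, h3, -, -⟩ := split hJJ hε v
    have e1 : A (J v) = ε • A v := by
      rw [h1, map_add, h2, h3, map_add, map_smul, map_smul, hA2 v₂ h3, smul_zero, add_zero,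
        map_add, hA2 v₂ h3, add_zero]
    rw [hφv, hφv, e1, Pi.smul_apply, smul_eq_mul]
    ring
  · intro v hv
    rw [← hA1 v hv, key]

/-- few zeros -/
lemma few_zeros {r p : ℕ} {s : Fin (r + 1) → ℝ} (hs : StrictMono s) (f : Polynomial ℂ)
    (hf : f ≠ 0) (hd : f.degree < (p : WithBot ℕ)) :
    (Finset.univ.filter fun j => f.eval (s j : ℂ) = 0).card < p := by
  classical
  have h1 : f.natDegree < p := (Polynomial.natDegree_lt_iff_degree_lt hf).2 hd
  refine lt_of_le_of_lt ?_ h1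
  have h2 : (Finset.univ.filter fun j => f.eval (s j : ℂ) = 0).card =
      ((Finset.univ.filter fun j => f.eval (s j : ℂ) = 0).image fun j => (s j : ℂ)).card := by
    rw [Finset.card_image_of_injective]
    intro i j hij
    have hij' : (s i : ℂ) = (s j : ℂ) := hij
    exact hs.injective (by exact_mod_cast hij')
  rw [h2]
  refine (Finset.card_le_card (t := f.roots.toFinset) ?_).trans
    ((Multiset.toFinset_card_le _).trans (Polynomial.card_roots' f))
  intro z hz
  rw [Finset.mem_image] at hz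
  obtain ⟨j, hj, rfl⟩ := hz
  rw [Multiset.mem_toFinset, Polynomial.mem_roots hf]
  exact (Finset.mem_filter.1 hj).2

lemma back {r : ℕ} {J : Module.End ℂ (Fin r → ℂ)} (hJJ : J * J = -1) {ε : ℂ} (hε : ε * ε = -1)
    (w : Fin r → ℂ) : J (ε • w - J w) = -ε • (ε • w - J w) := by
  have h1 : J (J w) = -w := by
    have := congrArg (fun X : Module.End ℂ (Fin r → ℂ) => X w) hJJ
    simpa using this
  rw [map_sub, map_smul, h1]
  funext i
  simp only [Pi.smul_apply, Pi.sub_apply, Pi.neg_apply, smul_eq_mul]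
  linear_combination (w i) * hε

/-- the operator conjugate to `J` -/
def cj {r : ℕ} (J : Module.End ℂ (Fin r → ℂ)) : Module.End ℂ (Fin r → ℂ) where
  toFun v := star (J (star v))
  map_add' v w := by rw [star_add, map_add, star_add]
  map_smul' c v := by rw [star_smul, map_smul, star_smul, star_star, RingHom.id_apply]

lemma cj_apply {r : ℕ} (J : Module.End ℂ (Fin r → ℂ)) (v : Fin r → ℂ) :
    cj J v = star (J (star v)) := rfl

/-- irreducibility and the choice of the two operators -/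
lemma finish {r p q : ℕ} {g : Submodule ℂ (Module.End ℂ (Fin r → ℂ))}
    {J : Module.End ℂ (Fin r → ℂ)} {φ ψ : Fin (r + 1) → Module.Dual ℂ (Fin r → ℂ)}
    {ξ η : Fin (r + 1) → (Fin r → ℂ)} (F1 : Fam r p q g J Complex.I φ ξ)
    (F2 : Fam r q p g J (-Complex.I) ψ η) (hpq : p + q = r) (hp : 0 < p) (hq : 0 < q)
    (hJ : J ∈ g) (hJJ : J * J = -1)
    (hk1 : finrank ℂ (LinearMap.ker (J - Complex.I • (1 : Module.End ℂ (Fin r → ℂ)))) = p)
    (hk2 : finrank ℂ (LinearMap.ker (J + Complex.I • (1 : Module.End ℂ (Fin r → ℂ)))) = q) :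
    (∀ U : Submodule ℂ (Fin r → ℂ), (∀ X ∈ g, ∀ u ∈ U, X u ∈ U) → U = ⊥ ∨ U = ⊤) ∧
      ∃ j, φ j (η 0) ≠ 0 ∧ ψ 0 (ξ j) ≠ 0 := by
  classical
  have hk1' : finrank ℂ (LinearMap.ker (J + (-Complex.I) • (1 : Module.End ℂ (Fin r → ℂ)))) = p := by
    have e : J + (-Complex.I) • (1 : Module.End ℂ (Fin r → ℂ)) =
        J - Complex.I • (1 : Module.End ℂ (Fin r → ℂ)) := by
      refine LinearMap.ext fun v => ?_
      rw [LinearMap.add_apply, LinearMap.sub_apply, LinearMap.smul_apply, LinearMap.smul_apply,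
        neg_smul, sub_eq_add_neg]
    rw [e]
    exact hk1
  have hmem : ∀ (ε : ℂ) (v : Fin r → ℂ), J v = -ε • v →
      v ∈ LinearMap.ker (J + ε • (1 : Module.End ℂ (Fin r → ℂ))) := by
    intro ε v hv
    change (J + ε • (1 : Module.End ℂ (Fin r → ℂ))) v = 0
    rw [LinearMap.add_apply, LinearMap.smul_apply, Module.End.one_apply, hv, neg_smul,
      neg_add_cancel]
  have hξ0 := ne0 F1.ind hq
  have hη0 := ne0 F2.ind hp
  have hη : ∀ k, J (η k) = Complex.I • η k := by
    intro k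
    rw [F2.jx k, neg_neg]
  constructor
  · intro U hU
    by_cases hbot : U = ⊥
    · exact Or.inl hbot
    right
    obtain ⟨v, hv, hv0⟩ := Submodule.exists_mem_ne_zero_of_ne_bot hbot
    have hJU : ∀ u ∈ U, J u ∈ U := fun u hu => hU J hJ u hu
    have both : LinearMap.ker (J + Complex.I • (1 : Module.End ℂ (Fin r → ℂ))) ≤ U ∧
        LinearMap.ker (J + (-Complex.I) • (1 : Module.End ℂ (Fin r → ℂ))) ≤ U := by
      obtain ⟨v₁, v₂, e, h1, h2, h3, h4⟩ := split hJJ Complex.I_mul_I v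
      have hv1 : v₁ ∈ U := by
        rw [h3]
        exact U.smul_mem _ (U.sub_mem hv (U.smul_mem _ (hJU v hv)))
      have hv2 : v₂ ∈ U := by
        rw [h4]
        exact U.smul_mem _ (U.add_mem hv (U.smul_mem _ (hJU v hv)))
      by_cases h0 : v₁ = 0
      · have h0' : v₂ ≠ 0 := by
          intro h
          rw [h0, h, add_zero] at e
          exact hv0 e
        have g1 := F2.sweep (by omega) hk1' U hU v₂ hv2 h2 h0'
        have g2 := g1 (hmem (-Complex.I) (η 0) (F2.jx 0))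
        exact ⟨F1.sweep hpq hk2 U hU (η 0) g2 (hη 0) (hη0 0), g1⟩
      · have g1 := F1.sweep hpq hk2 U hU v₁ hv1 h1 h0
        have g2 := g1 (hmem Complex.I (ξ 0) (F1.jx 0))
        exact ⟨g1, F2.sweep (by omega) hk1' U hU (ξ 0) g2 (F1.jx 0) (hξ0 0)⟩
    rw [eq_top_iff]
    intro w _
    obtain ⟨v₁, v₂, e, h1, h2, -, -⟩ := split hJJ Complex.I_mul_I w
    rw [e]
    exact U.add_mem (both.2 (hmem _ _ (by rw [neg_neg]; exact h1))) (both.1 (hmem _ _ h2))
  · have n1 := F1.few (η 0) (hη 0) (hη0 0)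
    have n2 : (Finset.univ.filter fun j => ψ 0 (ξ j) = 0).card < q := by
      by_contra hcon
      push Not at hcon
      have h1 := span_le F1.jx F1.ind hk2 (LinearMap.ker (ψ 0))
        (Finset.univ.filter fun j => ψ 0 (ξ j) = 0) hcon
        (fun j hj => (Finset.mem_filter.1 hj).2)
      obtain ⟨w, hw, hw0⟩ := F2.one 0
      exact hw0 (h1 (hmem _ w hw))
    by_contra hcon
    push Not at hcon
    have h1 : (Finset.univ : Finset (Fin (r + 1))) ⊆
        (Finset.univ.filter fun j => φ j (η 0) = 0) ∪ Finset.univ.filter fun j => ψ 0 (ξ j) = 0 := by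
      intro j _
      rw [Finset.mem_union, Finset.mem_filter, Finset.mem_filter]
      by_cases h : φ j (η 0) = 0
      · exact Or.inl ⟨Finset.mem_univ _, h⟩
      · exact Or.inr ⟨Finset.mem_univ _, hcon j h⟩
    have h2 := (Finset.card_le_card h1).trans (Finset.card_union_le _ _)
    rw [Finset.card_univ, Fintype.card_fin] at h2
    omega

end Key_aux

open Key_aux in
theorem tKey : S_R1N → S_Sg → S_Pv → S_Jx → S_Rk1 → S_Key := by
  classical
  intro hR hSg hPv hJx hRk m r b u s hA hN hp hq hne g J hg hIJ hJ hD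
  obtain ⟨hs, hcov, hum, huc⟩ := id hA
  have hm3 : 3 ≤ m := hcov.1
  have hpq : sg m r b u + sg m r b (m - u) = r := hSg m r _ b hcov u hum huc
  have hu0 : 0 < u := by
    rcases Nat.eq_zero_or_pos u with h | h
    · rw [h, Nat.coprime_zero_left] at huc
      omega
    · exact h
  have hmm : m - (m - u) = u := by omega
  have hA' : Adm m b (m - u) s :=
    ⟨hs, hcov, by omega, (Nat.coprime_self_sub_left hum.le).2 huc⟩
  have hN' : ND m b (m - u) s := by
    intro f f' hf hf' h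
    rw [hmm] at hf' h
    have h1 : Pv m b u s f' + star (Pv m b (m - u) s f) = 0 := by
      have h2 := congrArg star h
      rw [star_add, star_star, star_zero, add_comm] at h2
      exact h2
    exact (hN f' f hf' hf h1).symm
  obtain ⟨J₀, h0, huniq, hJJ, hW1, hW2, hk1, hk2⟩ := hJx m r b u s hA hN
  have hJJ0 : J = J₀ := huniq J hIJ
  subst hJJ0
  have hIJ' : IsJ m b (m - u) s (cj J) := by
    refine ⟨fun f hf => ?_, fun f hf => ?_⟩
    · rw [cj_apply, hIJ.2 f hf, star_smul, star_star]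
      congr 1
      simp
    · rw [hmm] at hf ⊢
      rw [cj_apply, star_star, hIJ.1 f hf, star_smul]
      congr 1
      simp
  obtain ⟨ξ, hξ, ha, hind⟩ := hRk m r b u s hA hN J hIJ
  obtain ⟨ξ', hξ', ha', hind'⟩ := hRk m r b (m - u) s hA' hN' (cj J) hIJ'
  choose a ha using ha
  choose a' ha' using ha'
  choose Dm hDg hDJ using hD
  rw [hmm] at hind'
  have hP0 : Pv m b u s 0 = 0 := by
    have := (hPv m r b u s hA).2.1 0 0
    simpa using this
  have hP0' : Pv m b (m - u) s 0 = 0 := by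
    have := (hPv m r b (m - u) s hA').2.1 0 0
    simpa using this
  have hIne : (-Complex.I) * (-Complex.I) = -1 := by
    rw [neg_mul_neg, Complex.I_mul_I]
  -- the first family
  have hξ0 := ne0 hind hq
  have hφ : ∀ j, ∃ φ : Module.Dual ℂ (Fin r → ℂ), φ.smulRight (ξ j) ∈ g ∧
      (∀ v, φ (J v) = Complex.I * φ v) ∧ ∀ v, J v = Complex.I • v → Dm (a j) v = φ v • ξ j := by
    intro j
    refine mk_phi hg hJ hJJ Complex.I_mul_I (hDg (a j)) (hξ0 j) (hξ j) ?_ ?_
    · intro v hv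
      obtain ⟨f, hf, rfl⟩ := (hW1 v).1 hv
      exact ⟨_, ((hDJ (a j)).1 f hf).trans (ha j f hf)⟩
    · intro v hv
      obtain ⟨f, hf, rfl⟩ := (hW2 v).1 hv
      rw [(hDJ (a j)).2 f hf, back hJJ hIne, neg_neg]
  choose φ hφ1 hφ2 hφ3 using hφ
  have hφe : ∀ j, ∀ f : Polynomial ℂ, f.degree < (sg m r b u : WithBot ℕ) →
      φ j (Pv m b u s f) = f.eval (s j : ℂ) := by
    intro j f hf
    have h1 := hφ3 j (Pv m b u s f) (hIJ.1 f hf)
    rw [(hDJ (a j)).1 f hf, ha j f hf] at h1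
    exact (smul_left_injective ℂ (hξ0 j) h1).symm
  have F1 : Fam r (sg m r b u) (sg m r b (m - u)) g J Complex.I φ ξ := by
    refine ⟨hφ1, hξ, hφ2, ?_, hind, ?_⟩
    · intro w hw hw0
      obtain ⟨f, hf, rfl⟩ := (hW1 w).1 hw
      have hf0 : f ≠ 0 := by
        rintro rfl
        exact hw0 hP0
      have h1 := few_zeros hs f hf0 hf
      have h2 : (Finset.univ.filter fun j => φ j (Pv m b u s f) = 0) =
          Finset.univ.filter fun j => f.eval (s j : ℂ) = 0 := by
        refine Finset.filter_congr fun j _ => ?_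
        rw [hφe j f hf]
      rw [h2]
      exact h1
    · intro j
      have h1 : (1 : Polynomial ℂ).degree < (sg m r b u : WithBot ℕ) := by
        rw [Polynomial.degree_one]
        exact_mod_cast hp
      refine ⟨Pv m b u s 1, hIJ.1 1 h1, ?_⟩
      rw [hφe j 1 h1, Polynomial.eval_one]
      exact one_ne_zero
  -- the second family
  have hηi : ∀ c : Fin (r + 1) → ℂ, (Finset.univ.filter fun j => c j ≠ 0).card ≤ sg m r b u →
      ∑ j, c j • star (ξ' j) = 0 → c = 0 := by
    intro c hc hs0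
    have h1 := hind' (star c) ?_ ?_
    · have := congrArg star h1
      rwa [star_star, star_zero] at this
    · refine le_trans (Finset.card_le_card fun j hj => ?_) hc
      rw [Finset.mem_filter] at hj ⊢
      refine ⟨hj.1, fun h => hj.2 ?_⟩
      rw [Pi.star_apply, h, star_zero]
    · have h2 := congrArg star hs0
      rw [star_sum, star_zero] at h2
      rw [← h2]
      refine Finset.sum_congr rfl fun j _ => ?_
      rw [star_smul, star_star, Pi.star_apply]
  have hη0 := ne0 hηi hp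
  have hηx : ∀ k, J (star (ξ' k)) = - -Complex.I • star (ξ' k) := by
    intro k
    have h1 := hξ' k
    rw [cj_apply] at h1
    have h2 := congrArg star h1
    rw [star_star, star_smul] at h2
    rw [h2]
    congr 1
    simp
  have hD' : ∀ k, ∀ f : Polynomial ℂ, f.degree < (sg m r b (m - u) : WithBot ℕ) →
      Dm (a' k) (star (Pv m b (m - u) s f)) = (star (f.eval (s k : ℂ))) • star (ξ' k) := by
    intro k f hf
    rw [(hDJ (a' k)).2 f hf, ← star_smul, ← ha' k f hf, star_sub, star_smul, cj_apply, star_star]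
    congr 2
    simp
  have hψ : ∀ k, ∃ ψ : Module.Dual ℂ (Fin r → ℂ), ψ.smulRight (star (ξ' k)) ∈ g ∧
      (∀ v, ψ (J v) = -Complex.I * ψ v) ∧
      ∀ v, J v = -Complex.I • v → Dm (a' k) v = ψ v • star (ξ' k) := by
    intro k
    refine mk_phi hg hJ hJJ hIne (hDg (a' k)) (hη0 k) (hηx k) ?_ ?_
    · intro v hv
      obtain ⟨f, hf, rfl⟩ := (hW2 v).1 hv
      exact ⟨_, hD' k f hf⟩
    · intro v hv
      rw [neg_neg] at hv
      obtain ⟨f, hf, rfl⟩ := (hW1 v).1 hv
      rw [(hDJ (a' k)).1 f hf, back hJJ Complex.I_mul_I]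
  choose ψ hψ1 hψ2 hψ3 using hψ
  have hψe : ∀ k, ∀ f : Polynomial ℂ, f.degree < (sg m r b (m - u) : WithBot ℕ) →
      ψ k (star (Pv m b (m - u) s f)) = star (f.eval (s k : ℂ)) := by
    intro k f hf
    have h1 := hψ3 k (star (Pv m b (m - u) s f)) (hIJ.2 f hf)
    rw [hD' k f hf] at h1
    exact (smul_left_injective ℂ (hη0 k) h1).symm
  have F2 : Fam r (sg m r b (m - u)) (sg m r b u) g J (-Complex.I) ψ (fun k => star (ξ' k)) := by
    refine ⟨hψ1, hηx, hψ2, ?_, hηi, ?_⟩
    · intro w hw hw0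
      obtain ⟨f, hf, rfl⟩ := (hW2 w).1 hw
      have hf0 : f ≠ 0 := by
        rintro rfl
        rw [hP0', star_zero] at hw0
        exact hw0 rfl
      have h1 := few_zeros hs f hf0 hf
      have h2 : (Finset.univ.filter fun j => ψ j (star (Pv m b (m - u) s f)) = 0) =
          Finset.univ.filter fun j => f.eval (s j : ℂ) = 0 := by
        refine Finset.filter_congr fun j _ => ?_
        rw [hψe j f hf, star_eq_zero]
      rw [h2]
      exact h1
    · intro j
      have h1 : (1 : Polynomial ℂ).degree < (sg m r b (m - u) : WithBot ℕ) := by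
        rw [Polynomial.degree_one]
        exact_mod_cast hq
      refine ⟨star (Pv m b (m - u) s 1), hIJ.2 1 h1, ?_⟩
      rw [hψe j 1 h1, Polynomial.eval_one, star_one]
      exact one_ne_zero
  obtain ⟨hirr, j, hj1, hj2⟩ := finish F1 F2 hpq hp hq hJ hJJ hk1 hk2
  refine hR (Fin r → ℂ) g J (ξ j) (star (ξ' 0)) (φ j) (ψ 0) hg hJ hJJ (hξ j) ?_ (hφ2 j) (hψ2 0)
    hj1 hj2 (hφ1 j) (hψ1 0) hirr ?_
  · rw [hηx 0, neg_neg]
  · rw [hk1, hk2, Module.finrank_fin_fun]
    exact hne

end SEB
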