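import Pool.Agent.Lib.SE.Big.VG3
import Pool.Agent.Lib.SE.Big.Lat

/-!
# PROJECT SE, module IsBig, part 5, cLat: lattice elements (complex branch points)
-/

set_option autoImplicit false

open Module MeasureTheory Topology

noncomputable section

namespace SEB

open HC HC.E HC.SE

namespace cLat_aux

open Lat_aux (Sgm sgm_map pth_eq e_succ)

theorem s_notMem {r : ℕ} (s : Fin (r + 1) → ℂ) (k : ℕ) (x : ℂ) (hx : x ∈ Ukc s k) :
    x ∉ Set.range s := by
  rintro ⟨j, rfl⟩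
  rcases lt_or_ge j.val k with hj | hj
  · have h1 := (hx j).1 hj
    rw [sub_self] at h1
    exact Complex.zero_notMem_slitPlane h1
  · have h1 := (hx j).2 hj
    rw [sub_self] at h1
    exact Complex.zero_notMem_slitPlane h1

section

variable {T : AV} {m r : ℕ} {s : Fin (r + 1) → ℂ} {b : Fin (r + 1) → ℕ}
  (N : New T m s b)

theorem om_pow (hm : 1 ≤ m) (x : ℂ) (hx : x ∉ N.γ.S) (y : ℂ)
    (hy : y ^ m = ∏ j, (x - s j) ^ b j) (f : ℕ) :
    N.γ.ω x (Complex.exp (2 * Real.pi * Complex.I / m) ^ f * y) = (N.Z ^ f) (N.γ.ω x y) := by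
  have hζ : Complex.exp (2 * Real.pi * Complex.I / m) ^ m = 1 :=
    (Complex.isPrimitiveRoot_exp m (by lia)).pow_eq_one
  induction f with
  | zero => simp
  | succ f ih =>
    have h1 : N.γ.P (x, Complex.exp (2 * Real.pi * Complex.I / m) ^ f * y) = 0 := by
      rw [N.P, mul_pow, ← pow_mul, mul_comm f m, pow_mul, hζ, one_pow, one_mul, hy, sub_self]
    have h2 := N.equ x hx _ h1
    rw [pow_succ', mul_assoc, h2, ih, pow_succ']
    rfl

theorem seg' (hBr : S_cBr) (hSeg : S_Seg) (hm : 1 ≤ m) (j : ℕ) (p₀ p₁ : ℂ)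
    (hp : ∀ t ∈ Set.Icc (0 : ℝ) 1, p₀ + t * (p₁ - p₀) ∈ Ukc s j) :
    ContinuousOn (fun t : ℝ => N.γ.ω (p₀ + t * (p₁ - p₀)) (ykc m s b j (p₀ + t * (p₁ - p₀))))
      (Set.Icc 0 1) ∧ ∀ f : ℕ,
    N.γ.α p₁ (Complex.exp (2 * Real.pi * Complex.I / m) ^ f * ykc m s b j p₁) -
      N.γ.α p₀ (Complex.exp (2 * Real.pi * Complex.I / m) ^ f * ykc m s b j p₀) -
      (N.Z ^ f) (Sgm (fun x => N.γ.ω x (ykc m s b j x)) p₀ p₁) ∈ T.L := by
  obtain ⟨b1, b2, -, -, -, -, -, -⟩ := hBr m r s b j hm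
  have hζ : Complex.exp (2 * Real.pi * Complex.I / m) ^ m = 1 :=
    (Complex.isPrimitiveRoot_exp m (by lia)).pow_eq_one
  have hpc : Continuous (fun t : ℝ => p₀ + t * (p₁ - p₀)) := by fun_prop
  have hyc : ContinuousOn (fun t : ℝ => ykc m s b j (p₀ + t * (p₁ - p₀))) (Set.Icc 0 1) :=
    b2.continuousOn.comp hpc.continuousOn hp
  have key : ∀ f : ℕ, _ := fun f : ℕ => hSeg T m r s b N hm p₀ p₁
    (fun t => Complex.exp (2 * Real.pi * Complex.I / m) ^ f * ykc m s b j (p₀ + t * (p₁ - p₀)))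
    (continuousOn_const.mul hyc) (fun t ht => ⟨s_notMem s j _ (hp t ht), by
      rw [mul_pow, ← pow_mul, mul_comm f m, pow_mul, hζ, one_pow, one_mul]
      exact b1 _⟩)
  have hc : ContinuousOn (fun t : ℝ => N.γ.ω (p₀ + t * (p₁ - p₀))
      (ykc m s b j (p₀ + t * (p₁ - p₀)))) (Set.Icc 0 1) := by
    have h1 := (key 0).1
    simpa using h1
  refine ⟨hc, fun f => ?_⟩
  have h2 := (key f).2
  have e0 : p₀ + ((0 : ℝ) : ℂ) * (p₁ - p₀) = p₀ := by simp
  have e1 : p₀ + ((1 : ℝ) : ℂ) * (p₁ - p₀) = p₁ := by simp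
  simp only [e0, e1] at h2
  rw [sgm_map (N.Z ^ f) _ _ _ hc]
  have h3 : Sgm (fun x => (N.Z ^ f) (N.γ.ω x (ykc m s b j x))) p₀ p₁ =
      ∫ t in (0 : ℝ)..1, (p₁ - p₀) • N.γ.ω (p₀ + t * (p₁ - p₀))
        (Complex.exp (2 * Real.pi * Complex.I / m) ^ f * ykc m s b j (p₀ + t * (p₁ - p₀))) := by
    rw [Sgm]
    refine intervalIntegral.integral_congr fun t ht => ?_
    rw [Set.uIcc_of_le zero_le_one] at ht
    rw [om_pow N hm _ (by
      rw [N.S]
      exact s_notMem s j _ (hp t ht)) _ (b1 _)]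
  rw [h3]
  exact h2

end

end cLat_aux

open cLat_aux Lat_aux in
theorem tcLat : S_cBr → S_Seg → S_cLat := by
  intro hBr hSeg T m r s b N hm hs x₀ h c hh hc k l
  have hh1 : ∀ j, (s j).im < h := fun j => (abs_lt.1 (hh j)).2
  have hh2 : ∀ j, -h < (s j).im := fun j => (abs_lt.1 (hh j)).1
  set ζ : ℂ := Complex.exp (2 * Real.pi * Complex.I / m) with hζ
  set F : ℕ → ℂ → T.V := fun j x => N.γ.ω x (ykc m s b j x) with hF
  set V : ℕ → T.V := fun j => Pth (F j) x₀ h (c j) with hV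
  set e : ℕ → ℕ := fun j => ∑ i ∈ Finset.univ.filter (fun i : Fin (r + 1) => j ≤ i.val), b i with he
  set a : ℕ → T.V := fun f => N.γ.α (x₀ + h * Complex.I) (ζ ^ f * ykc m s b 0 (x₀ + h * Complex.I))
    with ha
  set a' : ℕ → T.V := fun f => N.γ.α (x₀ - h * Complex.I)
    (ζ ^ f * ykc m s b (r + 1) (x₀ - h * Complex.I)) with ha'
  -- the three segments
  have s1 : ∀ j, ∀ t ∈ Set.Icc (0 : ℝ) 1, ((x₀ : ℂ) + h * Complex.I) +
      t * (((c j : ℂ) + h * Complex.I) - (x₀ + h * Complex.I)) ∈ Ukc s j := by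
    intro j t _
    obtain ⟨-, -, -, -, b5, -, -, -⟩ := hBr m r s b j hm
    refine (b5 _ fun i => ?_).1
    have h1 : (((x₀ : ℂ) + h * Complex.I) +
      t * (((c j : ℂ) + h * Complex.I) - (x₀ + h * Complex.I))).im = h := by
      simp
    rw [h1]
    exact hh1 i
  have s3 : ∀ j, ∀ t ∈ Set.Icc (0 : ℝ) 1, ((c j : ℂ) - h * Complex.I) +
      t * (((x₀ : ℂ) - h * Complex.I) - (c j - h * Complex.I)) ∈ Ukc s j := by
    intro j t _
    obtain ⟨-, -, -, -, -, b6, -, -⟩ := hBr m r s b j hm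
    refine (b6 _ fun i => ?_).1
    have h1 : (((c j : ℂ) - h * Complex.I) +
      t * (((x₀ : ℂ) - h * Complex.I) - (c j - h * Complex.I))).im = -h := by
      simp
    rw [h1]
    exact hh2 i
  have s2 : ∀ j ≤ r + 1, ∀ t ∈ Set.Icc (0 : ℝ) 1, ((c j : ℂ) + h * Complex.I) +
      t * (((c j : ℂ) - h * Complex.I) - (c j + h * Complex.I)) ∈ Ukc s j := by
    intro j hj t _
    obtain ⟨-, -, -, -, -, -, b7, -⟩ := hBr m r s b j hm
    refine (b7 _ ?_).1
    have h1 : (((c j : ℂ) + h * Complex.I) +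
      t * (((c j : ℂ) - h * Complex.I) - (c j + h * Complex.I))).re = c j := by
      simp
    rw [h1]
    exact hc j hj
  -- claim A
  have A : ∀ j ≤ r + 1, ∀ f : ℕ, (N.Z ^ f) (V j) - (a' (f + e j) - a f) ∈ T.L := by
    intro j hj f
    obtain ⟨-, -, -, -, b5, b6, -, -⟩ := hBr m r s b j hm
    have h1 := (seg' N hBr hSeg hm j _ _ (s1 j)).2 f
    have h2 := (seg' N hBr hSeg hm j _ _ (s2 j hj)).2 f
    have h3 := (seg' N hBr hSeg hm j _ _ (s3 j)).2 f
    have e0 : ykc m s b j (x₀ + h * Complex.I) = ykc m s b 0 (x₀ + h * Complex.I) := by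
      refine (b5 _ fun i => ?_).2
      simp
      exact hh1 i
    have e1 : ykc m s b j (x₀ - h * Complex.I) =
        ζ ^ e j * ykc m s b (r + 1) (x₀ - h * Complex.I) := by
      refine (b6 _ fun i => ?_).2
      simp
      exact hh2 i
    rw [e0] at h1
    rw [e1, ← mul_assoc, ← pow_add] at h3
    have h4 := T.L.neg_mem (T.L.add_mem (T.L.add_mem h1 h2) h3)
    have h5 : V j = Sgm (F j) (x₀ + h * Complex.I) (c j + h * Complex.I) +
      Sgm (F j) (c j + h * Complex.I) (c j - h * Complex.I) +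
      Sgm (F j) (c j - h * Complex.I) (x₀ - h * Complex.I) := pth_eq _ _ _ _
    rw [h5, map_add, map_add]
    refine (congrArg (· ∈ T.L) ?_).mp h4
    simp only [ha, ha', hF, hζ]
    abel
  -- claim U
  set U : Fin (r + 1) → T.V := fun j => V j.val - (N.Z ^ b j) (V (j.val + 1)) with hU
  have B : ∀ j : Fin (r + 1), ∀ f : ℕ, (N.Z ^ f) (U j) - (a (f + b j) - a f) ∈ T.L := by
    intro j f
    have h1 := A j.val (by lia) f
    have h2 := A (j.val + 1) (by lia) (f + b j)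
    have e1 : f + e j.val = f + b j + e (j.val + 1) := by
      have := e_succ b j
      simp only [he]
      lia
    rw [e1] at h1
    have h3 := T.L.sub_mem h1 h2
    have e2 : (N.Z ^ (f + b j)) (V (j.val + 1)) = (N.Z ^ f) ((N.Z ^ b j) (V (j.val + 1))) := by
      rw [pow_add]
      rfl
    rw [e2] at h3
    refine (congrArg (· ∈ T.L) ?_).mp h3
    simp only [hU, map_sub]
    abel
  refine ⟨((N.Z ^ b l) (U k) - U k) - ((N.Z ^ b k) (U l) - U l), ?_, ?_⟩
  · have h1 := B k (b l)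
    have h2 := B k 0
    have h3 := B l (b k)
    have h4 := B l 0
    rw [pow_zero] at h2 h4
    rw [add_comm (b k) (b l)] at h3
    rw [zero_add] at h2 h4
    have h5 := T.L.sub_mem (T.L.sub_mem h1 h2) (T.L.sub_mem h3 h4)
    refine (congrArg (· ∈ T.L) ?_).mp h5
    change ((N.Z ^ b l) (U k) - (a (b l + b k) - a (b l)) - (U k - (a (b k) - a 0)) -
      ((N.Z ^ b k) (U l) - (a (b l + b k) - a (b k)) - (U l - (a (b l) - a 0)))) = _
    abel
  · intro B' ξ hB β
    have hpow : ∀ (n : ℕ) w, B' ((N.Z ^ n) w) = ξ ^ n * B' w := by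
      intro n
      induction n with
      | zero =>
        intro w
        simp
      | succ n ih =>
        intro w
        rw [pow_succ', pow_succ']
        change B' (N.Z ((N.Z ^ n) w)) = _
        rw [hB, ih, mul_assoc]
    have hβ : ∀ j ≤ r + 1, B' (V j) = β j := by
      intro j hj
      have h1 := (seg' N hBr hSeg hm j _ _ (s1 j)).1
      have h2 := (seg' N hBr hSeg hm j _ _ (s2 j hj)).1
      have h3 := (seg' N hBr hSeg hm j _ _ (s3 j)).1
      have q1 := sgm_map B' (F j) _ _ h1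
      have q2 := sgm_map B' (F j) _ _ h2
      have q3 := sgm_map B' (F j) _ _ h3
      have q4 : β j = Pth (fun x => B' (F j x)) x₀ h (c j) := rfl
      have q5 : V j = Pth (F j) x₀ h (c j) := rfl
      rw [q4, q5, pth_eq, pth_eq, map_add, map_add, q1, q2, q3]
    have hBU : ∀ j : Fin (r + 1), B' (U j) = β j - ξ ^ b j * β (j + 1) := by
      intro j
      simp only [hU]
      rw [map_sub, hpow, hβ _ (by lia), hβ _ (by lia)]
    have gen : ∀ (p q : ℕ) (x y : T.V), B' (((N.Z ^ p) x - x) - ((N.Z ^ q) y - y)) =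
        (ξ ^ p - 1) * B' x - (ξ ^ q - 1) * B' y := by
      intro p q x y
      rw [map_sub, map_sub, map_sub, hpow, hpow]
      ring
    rw [gen, hBU, hBU]

end SEB
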