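import Pool.Agent.Lib.SE.Big.VG3
import Pool.Agent.Lib.SE.Big.Loop

/-!
# SE Big cLoop: the loops for complex branch points
-/

set_option autoImplicit false

open Module MeasureTheory Topology

noncomputable section

namespace SEB

open HC HC.E HC.SE

namespace cLoop_aux

theorem ykc_expo {m r : ℕ} (hm : 0 < m) (s : Fin (r + 1) → ℂ) (b : Fin (r + 1) → ℕ) (u j : ℕ)
    {x : ℂ} (hx : ∀ i, x ≠ s i) :
    ykc m s b j x ^ u / ∏ i, (x - s i) ^ (1 + u * b i / m) =
      (ykc m s (nn m b u) j x)⁻¹ := by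
  unfold ykc
  rw [← Finset.prod_pow, ← Finset.prod_div_distrib, ← Finset.prod_inv_distrib]
  refine Finset.prod_congr rfl fun i _ => ?_
  refine Loop_aux.expo hm ?_ (sub_ne_zero.2 (hx i))
  split_ifs
  · exact Loop_aux.rp_pow hm.ne' _
  · exact Loop_aux.rn_pow hm.ne' _

theorem ykc_curve {m r : ℕ} (hm : 0 < m) (s : Fin (r + 1) → ℂ) (b : Fin (r + 1) → ℕ) (j : ℕ)
    (x : ℂ) : ykc m s b j x ^ m = ∏ i, (x - s i) ^ b i := by
  unfold ykc
  rw [← Finset.prod_pow]
  refine Finset.prod_congr rfl fun i _ => ?_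
  rw [← pow_mul, mul_comm, pow_mul]
  congr 1
  split_ifs
  · exact Loop_aux.rp_pow hm.ne' _
  · exact Loop_aux.rn_pow hm.ne' _

theorem exists_h {r : ℕ} (s : Fin (r + 1) → ℂ) : ∃ h : ℝ, ∀ j, |(s j).im| < h := by
  refine ⟨∑ j, |(s j).im| + 1, fun j => ?_⟩
  have h1 : |(s j).im| ≤ ∑ j, |(s j).im| :=
    Finset.single_le_sum (f := fun j => |(s j).im|) (fun i _ => abs_nonneg _) (Finset.mem_univ j)
  linarith

end cLoop_aux

open cLoop_aux

theorem tcLoop : S_cBr → S_cLat → S_cCa → S_cCb → S_cLoop := by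
  intro _ hLat hCa hCb T m r s b hs hcov N
  have hm3 : 3 ≤ m := hcov.1
  have hm : 0 < m := by omega
  choose c hc using Loop_aux.exists_gap (s := fun j => (s j).re) hs
  obtain ⟨h, hh⟩ := exists_h s
  choose v hv hBv using fun k : Fin r =>
    hLat T m r s b N (by omega) hs 0 h c hh hc k.castSucc k.succ
  refine ⟨v, hv, fun u hu hum f B hB hBω k => ?_⟩
  have hn1 : ∀ j, 1 ≤ nn m b u j ∧ nn m b u j < m := by
    intro j
    have h1 : (u * b j) % m < m := Nat.mod_lt _ hm
    have h2 : (u * b j) % m ≠ 0 := by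
      intro h0
      exact hcov.2.2.1 j ((Nat.Coprime.symm hum).dvd_of_dvd_mul_left (Nat.dvd_of_mod_eq_zero h0))
    unfold nn
    omega
  have hBv' := hBv k B (Complex.exp (2 * Real.pi * Complex.I / m) ^ u) hB
  have hβ : ∀ j ≤ r + 1, Pth (fun x => B (N.γ.ω x (ykc m s b j x))) 0 h (c j) =
      Pth (fun x => f.eval x * (ykc m s (nn m b u) j x)⁻¹) 0 h (c j) := by
    intro j hj
    have key : ∀ x : ℂ, (∀ i, x ≠ s i) →
        B (N.γ.ω x (ykc m s b j x)) = f.eval x * (ykc m s (nn m b u) j x)⁻¹ := by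
      intro x hx
      have hxS : x ∉ N.γ.S := by
        rw [N.S]
        rintro ⟨i, hi⟩
        exact hx i hi.symm
      have hP : N.γ.P (x, ykc m s b j x) = 0 := by
        rw [N.P, ykc_curve hm, sub_self]
      rw [hBω x hxS _ hP, mul_div_assoc, ykc_expo hm s b u j hx]
    refine Loop_aux.pth_congr (fun t => key _ fun i h1 => ?_) (fun t => key _ fun i h1 => ?_)
      (fun t => key _ fun i h1 => ?_)
    · have h2 := congrArg Complex.im h1
      simp at h2
      have h3 := hh i
      rw [← h2] at h3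
      exact absurd (le_abs_self h) (not_le.2 h3)
    · have h2 := congrArg Complex.re h1
      simp at h2
      exact Loop_aux.gap_ne (hc j hj) i h2
    · have h2 := congrArg Complex.im h1
      simp at h2
      have h3 := hh i
      rw [← h2, abs_neg] at h3
      exact absurd (le_abs_self h) (not_le.2 h3)
  have e1 := hβ (k.castSucc : Fin (r + 1)).val (by omega)
  have e2 := hβ ((k.castSucc : Fin (r + 1)).val + 1) (by omega)
  have e3 := hβ (k.succ : Fin (r + 1)).val (by omega)
  have e4 := hβ ((k.succ : Fin (r + 1)).val + 1) (by omega)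
  have a1 := hCa m r s (nn m b u) f (by omega) hs hn1 0 h c hh hc k.castSucc
  have a2 := hCa m r s (nn m b u) f (by omega) hs hn1 0 h c hh hc k.succ
  have a3 := hCb m r s (nn m b u) f (by omega) hs hn1 0 h hh k
  simp only at hBv' a1 a2
  rw [e1, e2, e3, e4, Loop_aux.xi_pow hm, Loop_aux.xi_pow hm] at hBv'
  have hk1 : m - u * b k.castSucc % m = nn m b u k.castSucc := rfl
  have hk2 : m - u * b k.succ % m = nn m b u k.succ := rfl
  rw [hk1, hk2] at hBv'
  have hI : Ic (mu m b u) s k (fun x => f.eval x) =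
      Ic (fun j => (nn m b u j : ℝ) / m) s k (fun x => f.eval x) := rfl
  unfold Pc kap
  rw [hI]
  linear_combination hBv' +
    ((Complex.exp (2 * Real.pi * Complex.I / m) ^ nn m b u k.succ)⁻¹ - 1) * a1 -
    ((Complex.exp (2 * Real.pi * Complex.I / m) ^ nn m b u k.castSucc)⁻¹ - 1) * a2 +
    (1 - (Complex.exp (2 * Real.pi * Complex.I / m) ^ nn m b u k.castSucc)⁻¹) *
    (1 - (Complex.exp (2 * Real.pi * Complex.I / m) ^ nn m b u k.succ)⁻¹) * a3

end SEB
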