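import Pool.Agent.Lib.SE.Big.VG3

/-! # PROJECT SE, module IsBig, part 5, module cN: the period matrix is invertible -/

set_option autoImplicit false

open Module MeasureTheory Topology

noncomputable section

namespace SEB

open HC HC.E HC.SE

namespace cN_aux

/-- The period matrix. -/
def Mc {r : ℕ} (μ : Fin (r + 1) → ℝ) (s : Fin (r + 1) → ℂ) : Matrix (Fin r) (Fin r) ℂ :=
  fun d k => Ic μ s k fun x => (Polynomial.X ^ (d : ℕ) : Polynomial ℂ).eval x

lemma int_ok (hI : S_cI) {r : ℕ} {μ : Fin (r + 1) → ℝ} (hμ : Exq μ) {s : Fin (r + 1) → ℂ}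
    (hs : Inc s) (k : Fin r) (f : Polynomial ℂ) :
    IntervalIntegrable (fun t : ℝ => ((t ^ (-μ k.castSucc) * (1 - t) ^ (-μ k.succ) : ℝ) : ℂ) *
      (Hc μ s k t * f.eval (seg s k t))) volume 0 1 := by
  have h1 := hI.1 (μ k.castSucc) (μ k.succ) (hμ _).2 (hμ _).2
  have h2 : IntervalIntegrable
      (fun t : ℝ => ((t ^ (-μ k.castSucc) * (1 - t) ^ (-μ k.succ) : ℝ) : ℂ)) volume 0 1 :=
    ⟨h1.1.ofReal, h1.2.ofReal⟩
  refine h2.mul_continuousOn ?_
  rw [Set.uIcc_of_le zero_le_one]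
  have h3 : ContinuousOn (fun t : ℝ => Hc μ s k t) (Set.Icc 0 1) := by
    have h4 := ((hI.2 r μ).2.2 k).2
    exact h4.comp (f := fun t : ℝ => (s, t)) (by fun_prop) (fun t ht => ⟨hs, ht⟩)
  refine h3.mul (Continuous.continuousOn ?_)
  refine f.continuous.comp ?_
  unfold seg
  fun_prop

lemma Ic_expand (hI : S_cI) {r : ℕ} {μ : Fin (r + 1) → ℝ} (hμ : Exq μ) {s : Fin (r + 1) → ℂ}
    (hs : Inc s) (k : Fin r) (f : Polynomial ℂ) (hf : f.degree < (r : WithBot ℕ)) :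
    Ic μ s k (fun x => f.eval x) = ∑ d : Fin r, f.coeff d * Mc μ s d k := by
  have h3 : ∀ x : ℂ, f.eval x = ∑ d : Fin r, f.coeff d * x ^ (d : ℕ) := by
    intro x
    by_cases hr : f = 0
    · subst hr
      simp
    rw [Polynomial.eval_eq_sum_range' (n := r)
      ((Polynomial.natDegree_lt_iff_degree_lt hr).2 hf)]
    exact Finset.sum_range fun i => f.coeff i * x ^ i
  unfold Mc Ic
  simp_rw [← intervalIntegral.integral_const_mul]
  rw [← intervalIntegral.integral_finsetSum]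
  · refine intervalIntegral.integral_congr fun t _ => ?_
    simp only [Polynomial.eval_pow, Polynomial.eval_X]
    rw [h3, Finset.mul_sum, Finset.mul_sum]
    refine Finset.sum_congr rfl fun d _ => ?_
    ring
  · intro d _
    exact (int_ok hI hμ hs k _).const_mul _

lemma det_zero (hI : S_cI) {r : ℕ} {μ : Fin (r + 1) → ℝ} (hμ : Exq μ) {s : Fin (r + 1) → ℂ}
    (hs : Inc s) (hN : ¬ Nj μ s) : (Mc μ s).det = 0 := by
  unfold Nj at hN
  push Not at hN
  obtain ⟨f, hf, h0, hne⟩ := hN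
  have hv : Matrix.vecMul (fun d : Fin r => f.coeff d) (Mc μ s) = 0 := by
    funext k
    have h1 := h0 k
    rw [Ic_expand hI hμ hs k f hf] at h1
    exact h1
  refine Matrix.exists_vecMul_eq_zero_iff.1 ⟨_, ?_, hv⟩
  intro hz
  apply hne
  ext n
  rw [Polynomial.coeff_zero]
  by_cases hn : n < r
  · exact congrFun hz ⟨n, hn⟩
  · exact Polynomial.coeff_eq_zero_of_degree_lt (hf.trans_le (by exact_mod_cast not_lt.1 hn))

lemma det_real (hRe : S_cRe) (hMom : S_Mom) {r : ℕ} {μ : Fin (r + 1) → ℝ} (hμ : Exq μ)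
    (s : Fin (r + 1) → ℝ) (hs : StrictMono s) : (Mc μ fun j => (s j : ℂ)).det ≠ 0 := by
  intro hd
  obtain ⟨c, hc0, hc⟩ := Matrix.exists_mulVec_eq_zero_iff.2 hd
  refine hc0 (hMom r μ s hμ hs c fun d hd => ?_)
  have h1 := congrFun hc ⟨d, hd⟩
  simp only [Matrix.mulVec, dotProduct, Pi.zero_apply, Mc] at h1
  rw [← h1]
  refine Finset.sum_congr rfl fun k _ => ?_
  rw [hRe r μ s hμ hs k, mul_comm]
  congr 1
  rw [← intervalIntegral.integral_ofReal]
  refine intervalIntegral.integral_congr fun x _ => ?_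
  simp only [Polynomial.eval_pow, Polynomial.eval_X]
  push_cast
  ring

lemma det_diff (hD1 : S_cD1) {r : ℕ} {μ : Fin (r + 1) → ℝ} (hμ : Exq μ) (s : Fin (r + 1) → ℂ)
    (hs : Inc s) (v : Fin (r + 1) → ℂ) :
    DifferentiableAt ℂ (fun ε : ℂ => (Mc μ fun j => s j + ε * v j).det) 0 := by
  have he : ∀ d k : Fin r,
      DifferentiableAt ℂ (fun ε : ℂ => Mc μ (fun j => s j + ε * v j) d k) 0 := fun d k =>
    (hD1 r μ s hμ hs v k (Polynomial.X ^ (d : ℕ)) _ _ rfl (fun x => rfl)).differentiableAt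
  simp only [Matrix.det_apply']
  exact DifferentiableAt.fun_sum fun σ _ =>
    (DifferentiableAt.fun_finsetProd fun i _ => he (σ i) i).const_mul _

lemma det_cont (hC : S_cC) {r : ℕ} {μ : Fin (r + 1) → ℝ} (hμ : Exq μ) :
    ContinuousOn (fun s : Fin (r + 1) → ℂ => (Mc μ s).det) {s | Inc s} := by
  have h1 : ContinuousOn (fun s : Fin (r + 1) → ℂ => Mc μ s) {s | Inc s} :=
    continuousOn_pi.2 fun d => continuousOn_pi.2 fun k => hC r μ hμ k (Polynomial.X ^ (d : ℕ))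
  exact (Continuous.matrix_det continuous_id).comp_continuousOn h1

/-- The set where the determinant vanishes. -/
def Zs {r : ℕ} (μ : Fin (r + 1) → ℝ) : Set (Fin (r + 1) → ℂ) := {s | Inc s ∧ (Mc μ s).det = 0}

lemma nd (hI : S_cI) (hC : S_cC) (hD1 : S_cD1) (hId : S_cId) (hRe : S_cRe) (hMom : S_Mom) {r : ℕ}
    {μ : Fin (r + 1) → ℝ} (hμ : Exq μ) : IsNowhereDense (Zs μ) := by
  unfold IsNowhereDense
  by_contra hne
  obtain ⟨s₀, hs₀⟩ := Set.nonempty_iff_ne_empty.mpr hne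
  have hU := (hI.2 r μ).1
  have hWo : IsOpen (interior (closure (Zs μ))) := isOpen_interior
  obtain ⟨s₁, h1, h2⟩ := mem_closure_iff.mp (interior_subset hs₀) _ hWo hs₀
  set O : Set (Fin (r + 1) → ℂ) := interior (closure (Zs μ)) ∩ {s | Inc s} with hOdef
  have hO : IsOpen O := hWo.inter hU
  have hsO : s₁ ∈ O := ⟨h1, h2.1⟩
  have hz : ∀ s' ∈ O, (Mc μ s').det = 0 := by
    intro s' hs'
    have hcont : ContinuousAt (fun s : Fin (r + 1) → ℂ => (Mc μ s).det) s' :=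
      (det_cont hC hμ).continuousAt (hU.mem_nhds hs'.2)
    by_contra hne'
    have h4 : ∀ᶠ s in 𝓝 s', (Mc μ s).det ≠ 0 := hcont.eventually_ne hne'
    obtain ⟨V, hV1, hV2, hV3⟩ := eventually_nhds_iff.mp h4
    obtain ⟨s₂, h5, h6⟩ := mem_closure_iff.mp (interior_subset hs'.1) V hV2 hV3
    exact hV1 s₂ h5 h6.2
  have hall := hId r (fun s => (Mc μ s).det) (fun s hs v => det_diff hD1 hμ s hs v) O hO ⟨s₁, hsO⟩
    (fun s hs => ⟨hs.2, hz s hs⟩)
  have hmono : StrictMono fun j : Fin (r + 1) => ((j.val : ℕ) : ℝ) := fun i j hij =>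
    Nat.cast_lt.2 hij
  refine det_real hRe hMom hμ (fun j => ((j.val : ℕ) : ℝ)) hmono (hall _ ?_)
  intro i j hij
  simp only [Complex.ofReal_re]
  exact hmono hij

end cN_aux

open cN_aux

theorem tcN : S_cI → S_cC → S_cD1 → S_cId → S_cRe → S_Wt → S_Mom → S_cN := by
  intro hI hC hD1 hId hRe _ hMom r μ hμ
  refine (nd hI hC hD1 hId hRe hMom hμ).isMeagre.mono ?_
  rintro s ⟨hs, hN⟩
  exact ⟨hs, det_zero hI hμ hs hN⟩

end SEB
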