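import Pool.Agent.Lib.SE.Big.VG3

/-!
# PROJECT SE, module IsBig, part 5: permutations of the branch points (helper73)
-/

set_option autoImplicit false

noncomputable section

namespace SEB

open HC HC.E HC.SE

namespace cPm_aux

theorem sum_mod {r : ℕ} (m : ℕ) (b : Fin (r + 1) → ℕ) (σ : Equiv.Perm (Fin (r + 1))) (u : ℕ) :
    ∑ j, (u * (b ∘ σ) j) % m = ∑ j, (u * b j) % m :=
  Equiv.sum_comp σ fun j => (u * b j) % m

end cPm_aux

open cPm_aux in
theorem tcPm : S_cPm := by
  intro T m r s b σ
  refine ⟨fun u => ?_, fun h => ?_, fun N => ?_⟩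
  · unfold sg
    rw [sum_mod]
  · obtain ⟨h1, h2, h3, h4, h5⟩ := h
    refine ⟨h1, h2.comp σ.injective, fun j => h3 (σ j), ?_, fun d hd hj => h5 d hd fun j => ?_⟩
    · have e1 : ∑ j, (b ∘ σ) j = ∑ j, b j := Equiv.sum_comp σ b
      rw [e1]
      exact h4
    · have h6 := hj (σ.symm j)
      rwa [Function.comp_apply, Equiv.apply_symm_apply] at h6
  · refine ⟨{ Z := N.Z
              γ := N.γ
              lat := N.lat
              cyc := N.cyc
              dim := N.dim
              P := fun x y => ?_
              S := N.S.trans (σ.surjective.range_comp s).symm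
              equ := N.equ
              dif := fun u hu hc i hi => ?_ }, rfl⟩
    · rw [N.P]
      congr 1
      exact (Equiv.prod_comp σ fun j => (x - s j) ^ b j).symm
    · rw [sum_mod] at hi
      obtain ⟨B, hB⟩ := N.dif u hu hc i hi
      refine ⟨B, fun x hx y hy => ?_⟩
      rw [hB x hx y hy]
      congr 1
      exact (Equiv.prod_comp σ fun j => (x - s j) ^ (1 + u * b j / m)).symm

end SEB
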