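import Pool.Agent.Lib.SE.Big.VG3

/-!
# PROJECT SE, module IsBig, part 5, `cRe`: comparison with the real integrals

Author: helper67 (statement and plan: helper64).
-/

set_option autoImplicit false

open Module MeasureTheory Topology

noncomputable section

namespace SEB

open HC HC.E HC.SE

namespace cRe_aux

theorem prod_split {n : ℕ} (g : Fin n → ℝ) {p q : Fin n} (hpq : p ≠ q) :
    ∏ j, g j = g p * g q * ∏ j, (if j = p ∨ j = q then 1 else g j) := by
  have h1 : ∀ j, g j = (if j = p then g j else 1) * (if j = q then g j else 1) *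
      (if j = p ∨ j = q then 1 else g j) := by
    intro j
    by_cases h1 : j = p
    · have h2 : j ≠ q := fun h => hpq (h1.symm.trans h)
      simp [h1, hpq]
    · by_cases h2 : j = q
      · simp [h2, hpq.symm]
      · simp [h1, h2]
  conv_lhs => rw [Finset.prod_congr rfl fun j _ => h1 j]
  rw [Finset.prod_mul_distrib, Finset.prod_mul_distrib]
  simp

variable {r : ℕ} {μ s : Fin (r + 1) → ℝ}

theorem lt_k (hs : StrictMono s) (k : Fin r) : s k.castSucc < s k.succ := hs Fin.castSucc_lt_succ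

theorem seg_re (k : Fin r) (t : ℝ) : seg (fun j => (s j : ℂ)) k t =
    ((s k.castSucc + (s k.succ - s k.castSucc) * t : ℝ) : ℂ) := by
  unfold seg
  push_cast
  ring

/-- the factor of the point number `j` -/
theorem fac (hs : StrictMono s) (k : Fin r) {t : ℝ} (h0 : 0 ≤ t) (h1 : t ≤ 1) (j : Fin (r + 1))
    (hj : ¬(j = k.castSucc ∨ j = k.succ)) :
    (if j.val ≤ k.val then seg (fun j => (s j : ℂ)) k t - (s j : ℂ) else
      (s j : ℂ) - seg (fun j => (s j : ℂ)) k t) ^ (-(μ j : ℂ)) =
    ((|s k.castSucc + (s k.succ - s k.castSucc) * t - s j| ^ (-μ j) : ℝ) : ℂ) := by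
  have hΔ := lt_k hs k
  rw [not_or] at hj
  rw [seg_re]
  have hle1 : s k.castSucc ≤ s k.castSucc + (s k.succ - s k.castSucc) * t := by nlinarith
  have hle2 : s k.castSucc + (s k.succ - s k.castSucc) * t ≤ s k.succ := by nlinarith
  split_ifs with hc
  · have h2 : j < k.castSucc := lt_of_le_of_ne (by rw [Fin.le_def]; exact hc) hj.1
    have h3 : s j < s k.castSucc := hs h2
    have h4 : 0 ≤ s k.castSucc + (s k.succ - s k.castSucc) * t - s j := by linarith
    rw [abs_of_nonneg h4, Complex.ofReal_cpow h4]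
    push_cast
    ring_nf
  · have h2 : k.succ < j := by
      refine lt_of_le_of_ne ?_ (Ne.symm hj.2)
      rw [Fin.le_def, Fin.val_succ]
      omega
    have h3 : s k.succ < s j := hs h2
    have h4 : 0 ≤ s j - (s k.castSucc + (s k.succ - s k.castSucc) * t) := by linarith
    rw [abs_sub_comm, abs_of_nonneg h4, Complex.ofReal_cpow h4]
    push_cast
    ring_nf

theorem key (hs : StrictMono s) (k : Fin r) {t : ℝ} (h0 : 0 ≤ t) (h1 : t ≤ 1) :
    ((t ^ (-μ k.castSucc) * (1 - t) ^ (-μ k.succ) : ℝ) : ℂ) * Hc μ (fun j => (s j : ℂ)) k t =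
    (((s k.succ - s k.castSucc) * wt μ s (s k.castSucc + (s k.succ - s k.castSucc) * t) : ℝ) : ℂ) := by
  have hΔ : 0 < s k.succ - s k.castSucc := sub_pos.mpr (lt_k hs k)
  have hne : k.castSucc ≠ k.succ := (Fin.castSucc_lt_succ (i := k)).ne
  unfold Hc wt
  rw [prod_split _ hne]
  have hP : (∏ j, if j = k.castSucc ∨ j = k.succ then (1 : ℂ) else
      (if j.val ≤ k.val then seg (fun j => (s j : ℂ)) k t - (s j : ℂ) else
        (s j : ℂ) - seg (fun j => (s j : ℂ)) k t) ^ (-(μ j : ℂ))) =
      ((∏ j, (if j = k.castSucc ∨ j = k.succ then (1 : ℝ) else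
        |s k.castSucc + (s k.succ - s k.castSucc) * t - s j| ^ (-μ j)) : ℝ) : ℂ) := by
    rw [Complex.ofReal_prod]
    refine Finset.prod_congr rfl fun j _ => ?_
    by_cases hj : j = k.castSucc ∨ j = k.succ
    · rw [if_pos hj, if_pos hj, Complex.ofReal_one]
    · rw [if_neg hj, if_neg hj]
      exact fac hs k h0 h1 j hj
  have hD : ((s k.succ : ℂ) - (s k.castSucc : ℂ)) ^ (1 - (μ k.castSucc : ℂ) - (μ k.succ : ℂ)) =
      (((s k.succ - s k.castSucc) * ((s k.succ - s k.castSucc) ^ (-μ k.castSucc) *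
        (s k.succ - s k.castSucc) ^ (-μ k.succ)) : ℝ) : ℂ) := by
    have h2 : (s k.succ - s k.castSucc) * ((s k.succ - s k.castSucc) ^ (-μ k.castSucc) *
        (s k.succ - s k.castSucc) ^ (-μ k.succ)) =
        (s k.succ - s k.castSucc) ^ (1 - μ k.castSucc - μ k.succ) := by
      rw [show 1 - μ k.castSucc - μ k.succ = 1 + (-μ k.castSucc + -μ k.succ) by ring,
        Real.rpow_add hΔ, Real.rpow_one, Real.rpow_add hΔ]
    rw [h2, Complex.ofReal_cpow hΔ.le]
    push_cast
    rfl
  have e1 : |s k.castSucc + (s k.succ - s k.castSucc) * t - s k.castSucc| ^ (-μ k.castSucc) =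
      (s k.succ - s k.castSucc) ^ (-μ k.castSucc) * t ^ (-μ k.castSucc) := by
    rw [show s k.castSucc + (s k.succ - s k.castSucc) * t - s k.castSucc =
      (s k.succ - s k.castSucc) * t by ring, abs_of_nonneg (mul_nonneg hΔ.le h0),
      Real.mul_rpow hΔ.le h0]
  have e2 : |s k.castSucc + (s k.succ - s k.castSucc) * t - s k.succ| ^ (-μ k.succ) =
      (s k.succ - s k.castSucc) ^ (-μ k.succ) * (1 - t) ^ (-μ k.succ) := by
    rw [abs_sub_comm, show s k.succ - (s k.castSucc + (s k.succ - s k.castSucc) * t) =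
      (s k.succ - s k.castSucc) * (1 - t) by ring,
      abs_of_nonneg (mul_nonneg hΔ.le (sub_nonneg.mpr h1)), Real.mul_rpow hΔ.le (sub_nonneg.mpr h1)]
  rw [hP, hD, e1, e2]
  push_cast
  ring

end cRe_aux

open cRe_aux in
/-- REAL POINTS -/
theorem tcRe : S_cRe := by
  intro r μ s hμ hs k f
  have h1 := intervalIntegral.smul_integral_comp_add_mul (a := (0 : ℝ)) (b := 1)
    (fun x : ℝ => ((wt μ s x : ℝ) : ℂ) * f.eval (x : ℂ)) (s k.succ - s k.castSucc) (s k.castSucc)
  rw [mul_zero, add_zero, mul_one, add_sub_cancel] at h1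
  rw [← h1, ← intervalIntegral.integral_smul]
  unfold Ic
  refine intervalIntegral.integral_congr fun t ht => ?_
  rw [Set.uIcc_of_le zero_le_one] at ht
  have h2 := key (μ := μ) hs k ht.1 ht.2
  change _ * (_ * _) = (s k.succ - s k.castSucc) • (_ * _)
  rw [← mul_assoc, h2, seg_re, Complex.real_smul]
  push_cast
  ring

end SEB
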