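import Pool.Agent.Lib.SE.Big.VG3

/-!
# PROJECT SE, module IsBig, part 5: `cSo`, sorting by real parts, meagre sets
-/

set_option autoImplicit false

open Module MeasureTheory Topology

noncomputable section

namespace SEB

open HC HC.E HC.SE

namespace cSo_aux

variable {r : ℕ}

/-- The difference of two real parts. -/
def dRe (i j : Fin (r + 1)) : (Fin (r + 1) → ℂ) →L[ℝ] ℝ :=
  Complex.reCLM.comp (ContinuousLinearMap.proj (R := ℝ) i) -
    Complex.reCLM.comp (ContinuousLinearMap.proj (R := ℝ) j)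

theorem dRe_apply (i j : Fin (r + 1)) (s : Fin (r + 1) → ℂ) :
    dRe i j s = (s i).re - (s j).re := rfl

theorem dRe_surj {i j : Fin (r + 1)} (hij : i ≠ j) :
    Function.Surjective (dRe i j : (Fin (r + 1) → ℂ) → ℝ) := by
  intro y
  refine ⟨Function.update 0 i (y : ℂ), ?_⟩
  rw [dRe_apply, Function.update_self, Function.update_of_ne hij.symm]
  simp

theorem meagre_zero : IsMeagre ({0} : Set ℝ) := by
  apply IsNowhereDense.isMeagre
  rw [(isClosed_singleton).isNowhereDense_iff]
  exact interior_singleton 0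

theorem meagre_eq {i j : Fin (r + 1)} (hij : i ≠ j) :
    IsMeagre {s : Fin (r + 1) → ℂ | (s i).re = (s j).re} := by
  have h1 : IsMeagre ((dRe i j : (Fin (r + 1) → ℂ) → ℝ) ⁻¹' {0}) :=
    meagre_zero.preimage_of_isOpenMap (dRe i j).continuous
      ((dRe i j).isOpenMap (dRe_surj hij))
  refine h1.mono ?_
  intro s hs
  have hs' : (s i).re = (s j).re := hs
  change dRe i j s = 0
  rw [dRe_apply, hs', sub_self]

theorem meagre_perm (σ : Equiv.Perm (Fin (r + 1))) {A : Set (Fin (r + 1) → ℂ)} (hA : IsMeagre A) :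
    IsMeagre ((fun s : Fin (r + 1) → ℂ => s ∘ σ) ⁻¹' A) := by
  let e : (Fin (r + 1) → ℂ) ≃ₜ (Fin (r + 1) → ℂ) :=
    (Homeomorph.piCongrLeft (Y := fun _ : Fin (r + 1) => ℂ) σ).symm
  have he : (fun s : Fin (r + 1) → ℂ => s ∘ σ) = e := by
    funext s
    rfl
  rw [he]
  exact hA.preimage_of_isOpenMap e.continuous e.isOpenMap

end cSo_aux

open cSo_aux in
theorem tcSo : S_cSo := by
  intro r A hA
  have h1 : IsMeagre (⋃ p : {p : Fin (r + 1) × Fin (r + 1) // p.1 ≠ p.2},
      {s : Fin (r + 1) → ℂ | (s p.1.1).re = (s p.1.2).re}) :=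
    isMeagre_iUnion fun p => meagre_eq p.2
  have h2 : IsMeagre (⋃ σ : Equiv.Perm (Fin (r + 1)),
      (fun s : Fin (r + 1) → ℂ => s ∘ σ) ⁻¹' A σ) :=
    isMeagre_iUnion fun σ => meagre_perm σ (hA σ)
  refine (h1.union h2).mono ?_
  intro s hs
  by_cases hinj : Function.Injective fun j => (s j).re
  · right
    refine Set.mem_iUnion.2 ⟨Tuple.sort fun j => (s j).re, hs _ ?_⟩
    exact (Tuple.monotone_sort fun j => (s j).re).strictMono_of_injective
      (hinj.comp (Tuple.sort fun j => (s j).re).injective)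
  · left
    simp only [Function.Injective] at hinj
    push Not at hinj
    obtain ⟨i, j, hij, hne⟩ := hinj
    exact Set.mem_iUnion.2 ⟨⟨(i, j), hne⟩, hij⟩

end SEB
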