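import Pool.Agent.Lib.SE.Big.VG3

/-!
# PROJECT SE, module IsBig, part cX: exact forms on a segment
-/

set_option autoImplicit false

open Module MeasureTheory Topology

noncomputable section

namespace SEB

open HC HC.E HC.SE

namespace cX_aux

/-- The logarithmic derivative of a product. -/
theorem prod_logderiv {ι : Type} [DecidableEq ι] (S : Finset ι) (f : ι → ℂ → ℂ)
    (L : ι → ℂ) (x : ℂ) (h : ∀ j ∈ S, HasDerivAt (f j) (f j x * L j) x) :
    HasDerivAt (fun y => ∏ j ∈ S, f j y) ((∏ j ∈ S, f j x) * ∑ j ∈ S, L j) x := by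
  induction S using Finset.induction_on with
  | empty =>
    simp only [Finset.prod_empty, Finset.sum_empty, mul_zero]
    exact hasDerivAt_const x 1
  | insert i S hi ih =>
    have h1 := (h i (Finset.mem_insert_self i S)).mul
      (ih fun j hj => h j (Finset.mem_insert_of_mem hj))
    have h2 : (fun y => ∏ j ∈ insert i S, f j y) = fun y => f i y * ∏ j ∈ S, f j y := by
      funext y
      rw [Finset.prod_insert hi]
    rw [h2, Finset.prod_insert hi, Finset.sum_insert hi]
    refine h1.congr_deriv ?_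
    ring

/-- a polynomial with two different roots -/
theorem two_roots (e : Polynomial ℂ) {a b : ℂ} (hab : a ≠ b) (ha : e.eval a = 0)
    (hb : e.eval b = 0) : ∃ g : Polynomial ℂ,
      e = (Polynomial.X - Polynomial.C a) * (Polynomial.X - Polynomial.C b) * g := by
  obtain ⟨q, hq⟩ := Polynomial.dvd_iff_isRoot.2 (show e.IsRoot a from ha)
  have h1 : q.eval b = 0 := by
    rw [hq] at hb
    simp only [Polynomial.eval_mul, Polynomial.eval_sub, Polynomial.eval_X,
      Polynomial.eval_C] at hb
    rcases mul_eq_zero.1 hb with h | h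
    · exact absurd (sub_eq_zero.1 h).symm hab
    · exact h
  obtain ⟨g, hg⟩ := Polynomial.dvd_iff_isRoot.2 (show q.IsRoot b from h1)
  exact ⟨g, by rw [hq, hg]; ring⟩

/-- the singular factor -/
def A (α β t : ℝ) : ℝ := t ^ (1 - α) * (1 - t) ^ (1 - β)

theorem A_cont {α β : ℝ} (hα : α < 1) (hβ : β < 1) : ContinuousOn (A α β) (Set.Icc 0 1) := by
  apply Continuous.continuousOn
  exact (Real.continuous_rpow_const (by linarith)).mul
    ((Real.continuous_rpow_const (by linarith)).comp (continuous_const.sub continuous_id))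

theorem A_eq {α β t : ℝ} (h0 : 0 < t) (h1 : t < 1) :
    A α β t = (t ^ (-α) * (1 - t) ^ (-β)) * (t * (1 - t)) := by
  have h2 : 0 < 1 - t := by linarith
  unfold A
  rw [show (1 : ℝ) - α = -α + 1 by ring, show (1 : ℝ) - β = -β + 1 by ring,
    Real.rpow_add_one h0.ne', Real.rpow_add_one h2.ne']
  ring

theorem A_deriv {α β t : ℝ} (h0 : 0 < t) (h1 : t < 1) :
    HasDerivAt (A α β) ((t ^ (-α) * (1 - t) ^ (-β)) * ((1 - α) * (1 - t) - (1 - β) * t)) t := by
  have h2 : 0 < 1 - t := by linarith
  have d1 : HasDerivAt (fun t : ℝ => t ^ (1 - α)) ((1 - α) * t ^ (-α)) t := by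
    have h := Real.hasDerivAt_rpow_const (x := t) (p := 1 - α) (Or.inl h0.ne')
    rw [show (1 : ℝ) - α - 1 = -α by ring] at h
    exact h
  have d2 : HasDerivAt (fun t : ℝ => (1 - t) ^ (1 - β)) (-((1 - β) * (1 - t) ^ (-β))) t := by
    have h := ((hasDerivAt_id t).const_sub (1 : ℝ)).rpow_const (p := 1 - β) (Or.inl h2.ne')
    rw [show (1 : ℝ) - β - 1 = -β by ring] at h
    refine h.congr_deriv ?_
    simp only [id]
    ring
  refine (d1.mul d2).congr_deriv ?_
  have e1 : t ^ (1 - α) = t ^ (-α) * t := by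
    rw [show (1 : ℝ) - α = -α + 1 by ring, Real.rpow_add_one h0.ne']
  have e2 : (1 - t) ^ (1 - β) = (1 - t) ^ (-β) * (1 - t) := by
    rw [show (1 : ℝ) - β = -β + 1 by ring, Real.rpow_add_one h2.ne']
  rw [e1, e2]
  ring

/-- the logarithmic derivative of a power -/
theorem cpow_log {g : ℂ → ℂ} {g' x c : ℂ} (hg : HasDerivAt g g' x) (h0 : 0 < (g x).re) :
    HasDerivAt (fun y => g y ^ c) (g x ^ c * (c * g' / g x)) x := by
  have hs : g x ∈ Complex.slitPlane := Or.inl h0
  have hne : g x ≠ 0 := Complex.slitPlane_ne_zero hs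
  refine (hg.cpow_const hs).congr_deriv ?_
  rw [Complex.cpow_sub _ _ hne, Complex.cpow_one]
  ring

end cX_aux

open cX_aux

theorem tcX : S_cI → S_cX := by
  intro hI r μ s hE hs k f e he0 he1
  obtain ⟨hwI, hI2⟩ := hI
  obtain ⟨-, -, hk⟩ := hI2 r μ
  obtain ⟨hk1, hk2⟩ := hk k
  obtain ⟨hΔ, hpos⟩ := hk1 s hs
  set a : ℂ := s k.castSucc with ha
  set b : ℂ := s k.succ with hb
  set Δ : ℂ := b - a with hΔd
  have hΔ0 : Δ ≠ 0 := fun h => by rw [h] at hΔ; simp at hΔ
  have hab : a ≠ b := fun h => hΔ0 (by rw [hΔd, h, sub_self])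
  obtain ⟨g, hg⟩ := two_roots e hab he0 he1
  have hkk : k.castSucc ≠ k.succ := (Fin.castSucc_lt_succ).ne
  -- the points of the segment
  have hx : ∀ t : ℝ, seg s k t = a + t * Δ := fun t => rfl
  -- the other branch points
  have hoth : ∀ j : Fin (r + 1), ¬ (j = k.castSucc ∨ j = k.succ) → j.val < k.val ∨
      k.val + 1 < j.val := by
    intro j hj
    rw [not_or] at hj
    have h1 : j.val ≠ k.val := fun h => hj.1 (Fin.ext (by simpa using h))
    have h2 : j.val ≠ k.val + 1 := fun h => hj.2 (Fin.ext (by simpa using h))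
    omega
  have hne : ∀ t ∈ Set.Icc (0 : ℝ) 1, ∀ j : Fin (r + 1), ¬ (j = k.castSucc ∨ j = k.succ) →
      seg s k t - s j ≠ 0 := by
    intro t ht j hj h0
    rcases hoth j hj with h | h
    · have h1 := (hpos t ht j).1 h
      rw [h0] at h1
      simp at h1
    · have h1 := (hpos t ht j).2 h
      rw [← neg_sub, h0] at h1
      simp at h1
  -- the sum over the other branch points
  let Sg : ℝ → ℂ := fun t => ∑ j : Fin (r + 1), if j = k.castSucc ∨ j = k.succ then 0 else
    (μ j : ℂ) * Δ / (seg s k t - s j)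
  have hsegc : Continuous (fun t : ℝ => seg s k t) := by
    unfold seg
    fun_prop
  have hSgc : ContinuousOn Sg (Set.Icc 0 1) := by
    apply continuousOn_finsetSum
    intro j _
    by_cases hj : j = k.castSucc ∨ j = k.succ
    · simp only [if_pos hj]
      exact continuousOn_const
    · simp only [if_neg hj]
      exact continuousOn_const.div ((hsegc.sub continuous_const).continuousOn)
        fun t ht => hne t ht j hj
  have hHc : ContinuousOn (fun t : ℝ => Hc μ s k t) (Set.Icc 0 1) := by
    have h1 : ContinuousOn (fun t : ℝ => ((s, t) : (Fin (r + 1) → ℂ) × ℝ)) (Set.Icc 0 1) := by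
      fun_prop
    exact hk2.comp h1 fun t ht => ⟨hs, ht⟩
  -- the derivative of `Hc`
  have hHd : ∀ t ∈ Set.Icc (0 : ℝ) 1, HasDerivAt (fun t : ℝ => Hc μ s k t)
      (Hc μ s k t * (-Sg t)) t := by
    intro t ht
    have h1 : ∀ j ∈ (Finset.univ : Finset (Fin (r + 1))), HasDerivAt
        (fun z : ℂ => if j = k.castSucc ∨ j = k.succ then (1 : ℂ) else
          (if j.val ≤ k.val then (a + z * Δ) - s j else s j - (a + z * Δ)) ^ (-(μ j : ℂ)))
        ((if j = k.castSucc ∨ j = k.succ then (1 : ℂ) else
          (if j.val ≤ k.val then (a + (t : ℂ) * Δ) - s j else s j - (a + (t : ℂ) * Δ)) ^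
            (-(μ j : ℂ))) *
          (-(if j = k.castSucc ∨ j = k.succ then 0 else
            (μ j : ℂ) * Δ / ((a + (t : ℂ) * Δ) - s j)))) (t : ℂ) := by
      intro j _
      have hd0 : HasDerivAt (fun z : ℂ => a + z * Δ) Δ (t : ℂ) := by
        have := ((hasDerivAt_id (t : ℂ)).mul_const Δ).const_add a
        simpa using this
      by_cases hj : j = k.castSucc ∨ j = k.succ
      · simp only [if_pos hj, neg_zero, mul_zero]
        exact hasDerivAt_const _ _
      · simp only [if_neg hj]
        rcases hoth j hj with h | h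
        · have h2 := (hpos t ht j).1 h
          rw [hx] at h2
          have h3 : j.val ≤ k.val := h.le
          simp only [if_pos h3]
          refine (cpow_log (hd0.sub_const (s j)) h2).congr_deriv ?_
          ring
        · have h2 := (hpos t ht j).2 h
          rw [hx] at h2
          have h3 : ¬ j.val ≤ k.val := by omega
          simp only [if_neg h3]
          refine (cpow_log (hd0.const_sub (s j)) h2).congr_deriv ?_
          rw [← neg_sub (a + (t : ℂ) * Δ) (s j), div_neg]
          ring
    have h2 := prod_logderiv Finset.univ _ _ (t : ℂ) h1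
    have h3 := (h2.const_mul (Δ ^ (1 - (μ k.castSucc : ℂ) - (μ k.succ : ℂ)))).comp_ofReal
    refine (h3.congr_deriv ?_)
    rw [Finset.sum_neg_distrib]
    change _ = (Δ ^ (1 - (μ k.castSucc : ℂ) - (μ k.succ : ℂ)) * _) * (-Sg t)
    rw [mul_assoc]
    rfl
  -- the primitive
  have hΔm : μ k.castSucc < 1 := (hE _).2
  have hΔm' : μ k.succ < 1 := (hE _).2
  let F : ℝ → ℂ := fun t => (f * g).eval (seg s k t)
  have hFc : Continuous F := (f * g).continuous.comp hsegc
  let F' : ℝ → ℂ := fun t => Δ * (Polynomial.derivative (f * g)).eval (seg s k t)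
  have hFc' : Continuous F' :=
    continuous_const.mul ((Polynomial.derivative (f * g)).continuous.comp hsegc)
  have hFd : ∀ t : ℝ, HasDerivAt F (F' t) t := by
    intro t
    have hd0 : HasDerivAt (fun z : ℂ => a + z * Δ) Δ (t : ℂ) := by
      have := ((hasDerivAt_id (t : ℂ)).mul_const Δ).const_add a
      simpa using this
    have h1 := ((f * g).hasDerivAt (a + (t : ℂ) * Δ)).comp (t : ℂ) hd0
    refine (h1.comp_ofReal).congr_deriv ?_
    rw [mul_comm]
    rfl
  let α := μ k.castSucc
  let β := μ k.succ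
  let K : ℝ → ℂ := fun t => -Δ * (((((1 - α) * (1 - t) - (1 - β) * t : ℝ)) : ℂ) * F t +
    ((t * (1 - t) : ℝ) : ℂ) * (F' t - Sg t * F t))
  have hKc : ContinuousOn K (Set.Icc 0 1) := by
    apply ContinuousOn.mul continuousOn_const
    apply ContinuousOn.add
    · apply Continuous.continuousOn
      apply Continuous.mul _ hFc
      apply Complex.continuous_ofReal.comp
      fun_prop
    · apply ContinuousOn.mul
      · apply Continuous.continuousOn
        apply Complex.continuous_ofReal.comp
        fun_prop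
      · exact hFc'.continuousOn.sub (hSgc.mul hFc.continuousOn)
  let P : ℝ → ℂ := fun t => -Δ * ((A α β t : ℂ) * (Hc μ s k t * F t))
  have hPc : ContinuousOn P (Set.Icc 0 1) := by
    apply ContinuousOn.mul continuousOn_const
    apply ContinuousOn.mul
    · exact Complex.continuous_ofReal.comp_continuousOn (A_cont hΔm hΔm')
    · exact hHc.mul hFc.continuousOn
  let D : ℝ → ℂ := fun t => ((t ^ (-α) * (1 - t) ^ (-β) : ℝ) : ℂ) * (Hc μ s k t * K t)
  have hPd : ∀ t ∈ Set.Ioo (0 : ℝ) 1, HasDerivAt P (D t) t := by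
    intro t ht
    have h1 := (A_deriv (α := α) (β := β) ht.1 ht.2).ofReal_comp
    have h2 := hHd t ⟨ht.1.le, ht.2.le⟩
    have h3 := ((h1.mul (h2.mul (hFd t))).const_mul (-Δ))
    refine h3.congr_deriv ?_
    rw [A_eq ht.1 ht.2]
    simp only [D, K, Pi.mul_apply]
    push_cast
    ring
  have hDi : IntervalIntegrable D volume 0 1 := by
    have h1 := hwI α β hΔm hΔm'
    have h2 : IntervalIntegrable (fun t : ℝ => ((t ^ (-α) * (1 - t) ^ (-β) : ℝ) : ℂ)) volume 0 1 :=
      ⟨h1.1.ofReal, h1.2.ofReal⟩
    refine IntervalIntegrable.mul_continuousOn h2 ?_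
    rw [Set.uIcc_of_le zero_le_one]
    exact hHc.mul hKc
  have hmain := intervalIntegral.integral_eq_sub_of_hasDerivAt_of_le zero_le_one hPc hPd hDi
  have hP0 : P 0 = 0 := by
    simp only [P, A]
    rw [Real.zero_rpow (by linarith : (1 : ℝ) - α ≠ 0)]
    simp
  have hP1 : P 1 = 0 := by
    simp only [P, A]
    rw [sub_self, Real.zero_rpow (by linarith : (1 : ℝ) - β ≠ 0)]
    simp
  rw [hP0, hP1, sub_self] at hmain
  rw [← hmain]
  unfold Ic
  rw [intervalIntegral.integral_of_le zero_le_one, intervalIntegral.integral_of_le zero_le_one,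
    integral_Ioc_eq_integral_Ioo, integral_Ioc_eq_integral_Ioo]
  apply setIntegral_congr_fun measurableSet_Ioo
  intro t ht
  have hta : (t : ℂ) ≠ 0 := Complex.ofReal_ne_zero.2 ht.1.ne'
  have htb : (1 : ℂ) - (t : ℂ) ≠ 0 := by
    have : ((1 - t : ℝ) : ℂ) ≠ 0 := Complex.ofReal_ne_zero.2 (by linarith [ht.2])
    simpa using this
  simp only [D]
  congr 2
  -- the values of `e`
  set x : ℂ := seg s k t with hxd
  have hxa : x - a = t * Δ := by rw [hxd, hx]; ring
  have hxb : x - b = -((1 - t) * Δ) := by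
    rw [hxd, hx, hΔd]; ring
  have hev : e.eval x = -((t * (1 - t)) * Δ ^ 2 * g.eval x) := by
    rw [hg]
    simp only [Polynomial.eval_mul, Polynomial.eval_sub, Polynomial.eval_X, Polynomial.eval_C]
    rw [hxa, hxb]
    ring
  have hev' : (Polynomial.derivative e).eval x = (t * Δ - (1 - t) * Δ) * g.eval x -
      (t * (1 - t)) * Δ ^ 2 * (Polynomial.derivative g).eval x := by
    rw [hg]
    simp only [Polynomial.derivative_mul, Polynomial.derivative_sub, Polynomial.derivative_X,
      Polynomial.derivative_C, Polynomial.eval_add, Polynomial.eval_mul, Polynomial.eval_sub,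
      Polynomial.eval_X, Polynomial.eval_C, sub_zero, one_mul, mul_one]
    rw [hxa, hxb]
    ring
  have hsum : ∑ j, (μ j : ℂ) * (e.eval x / (x - s j)) =
      -((α : ℂ) * ((1 - t) * Δ * g.eval x)) + (β : ℂ) * (t * Δ * g.eval x) -
        (t * (1 - t)) * Δ * g.eval x * Sg t := by
    have h1 : ∀ j : Fin (r + 1), (μ j : ℂ) * (e.eval x / (x - s j)) =
        ((if j = k.castSucc then -((μ j : ℂ) * ((1 - t) * Δ * g.eval x)) else 0) +
        (if j = k.succ then (μ j : ℂ) * (t * Δ * g.eval x) else 0)) -
        (t * (1 - t)) * Δ * g.eval x * (if j = k.castSucc ∨ j = k.succ then 0 else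
          (μ j : ℂ) * Δ / (x - s j)) := by
      intro j
      by_cases hj1 : j = k.castSucc
      · have hj2 : ¬ j = k.succ := fun h => hkk (hj1.symm.trans h)
        rw [if_pos hj1, if_neg hj2, if_pos (Or.inl hj1), hev]
        have h2 : x - s j = t * Δ := by rw [hj1]; exact hxa
        rw [h2]
        field_simp
        ring
      · by_cases hj2 : j = k.succ
        · rw [if_neg hj1, if_pos hj2, if_pos (Or.inr hj2), hev]
          have h2 : x - s j = -((1 - t) * Δ) := by rw [hj2]; exact hxb
          rw [h2, div_neg]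
          field_simp
          ring
        · have hj : ¬ (j = k.castSucc ∨ j = k.succ) := fun h => h.elim hj1 hj2
          rw [if_neg hj1, if_neg hj2, if_neg hj, hev]
          ring
    rw [Finset.sum_congr rfl fun j _ => h1 j, Finset.sum_sub_distrib, Finset.sum_add_distrib,
      Finset.sum_ite_eq' Finset.univ k.castSucc, Finset.sum_ite_eq' Finset.univ k.succ,
      ← Finset.mul_sum, if_pos (Finset.mem_univ _), if_pos (Finset.mem_univ _)]
  rw [hsum, hev, hev']
  simp only [K, F, F', Polynomial.derivative_mul, Polynomial.eval_add, Polynomial.eval_mul]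
  rw [← hxd]
  push_cast
  ring

end SEB
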