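import Pool.Agent.Lib.SE.Big.Main
import Pool.Agent.Lib.SE.Big.Asm7
import Pool.Agent.Lib.SE.Big.Gf
import Pool.Agent.Lib.SE.Big.Kap
import Pool.Agent.Lib.SE.Big.R1N
import Pool.Agent.Lib.SE.Big.EB
import Pool.Agent.Lib.SE.Big.Pr3
import Pool.Agent.Lib.SE.Big.Sep3
import Pool.Agent.Lib.SE.Big.cI
import Pool.Agent.Lib.SE.Big.cC
import Pool.Agent.Lib.SE.Big.cD1
import Pool.Agent.Lib.SE.Big.cX
import Pool.Agent.Lib.SE.Big.cD
import Pool.Agent.Lib.SE.Big.cE
import Pool.Agent.Lib.SE.Big.cId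
import Pool.Agent.Lib.SE.Big.cRe
import Pool.Agent.Lib.SE.Big.cN
import Pool.Agent.Lib.SE.Big.cAI
import Pool.Agent.Lib.SE.Big.cKap
import Pool.Agent.Lib.SE.Big.cPv
import Pool.Agent.Lib.SE.Big.cJx
import Pool.Agent.Lib.SE.Big.cRk1
import Pool.Agent.Lib.SE.Big.cKey
import Pool.Agent.Lib.SE.Big.cDj
import Pool.Agent.Lib.SE.Big.cCj
import Pool.Agent.Lib.SE.Big.cBa2
import Pool.Agent.Lib.SE.Big.cBr
import Pool.Agent.Lib.SE.Big.cLat
import Pool.Agent.Lib.SE.Big.cCa
import Pool.Agent.Lib.SE.Big.cCb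
import Pool.Agent.Lib.SE.Big.cLoop
import Pool.Agent.Lib.SE.Big.cHod
import Pool.Agent.Lib.SE.Big.cHit
import Pool.Agent.Lib.SE.Big.cPm
import Pool.Agent.Lib.SE.Big.cSo

/-!
# PROJECT SE, module IsBig: the theorems of part 5 (complex branch points) without hypotheses (helper64)
-/

set_option autoImplicit false

open Module

noncomputable section

namespace SEB

open HC HC.E HC.SE

theorem cI' : S_cI := tcI

theorem cC' : S_cC := tcC tcI

theorem cD1' : S_cD1 := tcD1 tcI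

theorem cX' : S_cX := tcX tcI

theorem cD' : S_cD := tcD tcI cD1' cX'

theorem cE' : S_cE := tcE cX'

theorem cId' : S_cId := tcId tcI

theorem cN' : S_cN := tcN tcI cC' cD1' cId' tcRe tWt (tMom tWt)

theorem cAI' : S_cAI := tcAI tcI cC' cD1' cId' tcRe mods2.Bai

theorem cKap' : S_cKap := tcKap tKap

theorem cPv' : S_cPv := tcPv tcI cKap'

theorem cJx' : S_cJx := tcJx cPv' tSg

theorem cRk1' : S_cRk1 := tcRk1 cPv' cE' cJx' cKap'

theorem cKey' : S_cKey := tcKey tR1N tSg cPv' cJx' cRk1'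

theorem cDj' : S_cDj := tcDj cPv' cKap' cD' cJx'

theorem cCj' : S_cCj := tcCj tcI cKap' cPv' cC' cJx'

theorem cBa2' : S_cBa2 := tcBa2 cKap' cN' cJx' cKey' cDj' cCj'

theorem cLat' : S_cLat := tcLat tcBr tSeg

theorem cLoop' : S_cLoop := tcLoop tcBr cLat' (tcCa tcBr) (tcCb tcBr tcI)

theorem mods5 : Mods5 where
  Sg := tSg
  Pn := tPnew
  Ap := tAp
  Bf := tBf
  EB := tEB
  Kap := cKap'
  N := cN'
  AI := cAI'
  Ba2 := cBa2'
  Loop := cLoop'
  Hod := tcHod tSg (tBas tPj) tPnew tBf cKap' cPv'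
  Hit := tcHit (tBas tPj) (tDim tPj tTw (tBas tPj)) cKap' cPv'
  Pm := tcPm
  So := tcSo

/-- Very general complex branch points: `Full`. -/
theorem thFullC : FullC := fullC mods5 (fullI mods mods5)

/-- All odd `m`, very general complex branch points. -/
theorem thBigOc : BigOc := bigOc mods tPj mods3 mods5 thFullC tPr3 tSep3

/-- The sets `MMc` are meagre. -/
theorem tMc : ∀ m r, IsMeagre (MMc m r) := thBigOc.1

/-- Very general complex branch points give good factors. -/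
theorem thMeagre (m r : ℕ) (b : Fin (r + 1) → ℕ) (hr : 2 ≤ r) (hu : HypU m r b)
    (hap : AperC m r b) : IsMeagre {s : Fin (r + 1) → ℂ | Function.Injective s ∧
      ¬ ∀ T : AV, IsCov m s b → ∀ (N : New T m s b) (D : Cyc T m), D.Z = N.Z → SEQ.GFg D r} :=
  meagre_gfg mods mods5 thFullC m r b hr hu hap

end SEB
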