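import Pool.Agent.Lib.SE.Big.Fin2
import Pool.Agent.Lib.SE.Big.Main3

/-!
# PROJECT SE, module IsBig: very general complex branch points, unconditional corollary (helper64)
-/

set_option autoImplicit false

open Module

noncomputable section

namespace SEB

open HC HC.E HC.SE

/-- All odd `m`, `n ≥ 3`, very general complex polynomials: the Hodge conjecture. -/
theorem thCorOc : CorOc := corOc thmB' thBigOc tAvg

end SEB
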