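import Pool.Agent.Lib.SE.Big.VG4
import Pool.Agent.Lib.SE.Big.R1N

/-!
# PROJECT SE, module IsBig, part 6, module R1S: rank one nilpotents, sl or symplectic (helper69)
-/

set_option autoImplicit false

open Module MeasureTheory Topology

noncomputable section

namespace SEB

open HC HC.E HC.SE

namespace R1S_aux

open R1N_aux

variable {V : Type} [AddCommGroup V] [Module ℂ V]
variable {g : Submodule ℂ (Module.End ℂ V)} {J : Module.End ℂ V} {x y : V} {φ ψ : Dual ℂ V}

/-- The functional is determined by the vector. -/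
theorem uniq (h1 : ∀ α : Dual ℂ V, α x = 0 → α y = 0 → R x α ∈ g → α = 0)
    {T : V →ₗ[ℂ] Dual ℂ V}
    (hT : ∀ v, T v x = 0 ∧ T v y = 0 ∧ R x (T v) + R (p0 x y φ ψ v) φ ∈ g)
    {α : Dual ℂ V} {v : V} (hx : α x = 0) (hy : α y = 0)
    (hg : R x α + R (p0 x y φ ψ v) φ ∈ g) : α = T v := by
  obtain ⟨h2, h3, h4⟩ := hT v
  refine sub_eq_zero.1 (h1 (α - T v) (by simp [hx, h2]) (by simp [hy, h3]) ?_)
  refine (congrArg (· ∈ g) ?_).mp (g.sub_mem hg h4)
  refine LinearMap.ext fun u => ?_
  simp only [LinearMap.add_apply, LinearMap.sub_apply, Rap]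
  module

theorem p0p0 (D : Dat g J x y φ ψ) (v : V) : p0 x y φ ψ (p0 x y φ ψ v) = p0 x y φ ψ v := by
  conv_lhs => rw [p0_apply]
  rw [D.φ0, D.ψ0]
  module

theorem main [FiniteDimensional ℂ V] (D : Dat g J x y φ ψ)
    (h1 : ∀ α : Dual ℂ V, α x = 0 → α y = 0 → R x α ∈ g → α = 0)
    (h2 : ∀ v, φ v = 0 → ψ v = 0 → R v φ ∈ g → v = 0) :
    ∃ ω : V →ₗ[ℂ] V →ₗ[ℂ] ℂ, Csp ω g := by
  obtain ⟨T, hT⟩ := D.sec
  have hTp : ∀ v, T (p0 x y φ ψ v) = T v := by
    intro v
    obtain ⟨h3, h4, h5⟩ := hT (p0 x y φ ψ v)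
    rw [p0p0 D] at h5
    exact uniq h1 hT h3 h4 h5
  have hTw : ∀ v w, T v (p0 x y φ ψ w) = T v w := by
    intro v w
    obtain ⟨h3, h4, -⟩ := hT v
    rw [p0_apply, map_sub, map_sub, map_smul, map_smul, h3, h4, smul_zero, smul_zero, sub_zero,
      sub_zero]
  have hTx : T x = 0 := by
    rw [← hTp x, D.p0x, map_zero]
  have hTy : T y = 0 := by
    rw [← hTp y, D.p0y, map_zero]
  -- alternating
  have halt0 : ∀ v, φ v = 0 → ψ v = 0 → T v v = 0 := by
    intro v hφ hψ
    obtain ⟨h3, h4, h5⟩ := hT v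
    have h6 : p0 x y φ ψ v = v := by
      rw [p0_apply, hφ, hψ]
      module
    rw [h6] at h5
    have h7 := D.br _ (D.br _ h5 _ (D.br _ D.f _ h5)) _ h5
    have h8 : R x ((-6 * T v v) • T v) ∈ g := by
      refine (congrArg (· ∈ g) ?_).mp (g.sub_mem h7 (g.smul_mem (3 * T v v) h5))
      refine LinearMap.ext fun u => ?_
      simp only [LinearMap.sub_apply, LinearMap.add_apply, LinearMap.smul_apply,
        Module.End.mul_apply, Rap, map_smul, map_sub, map_add, D.φy, D.ψx, D.φx, hφ, hψ,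
        h3, h4, smul_eq_mul]
      module
    have h9 := h1 _ (by simp [h3]) (by simp [h4]) h8
    have h10 := LinearMap.congr_fun h9 v
    simp only [LinearMap.smul_apply, smul_eq_mul, LinearMap.zero_apply] at h10
    have h11 : T v v * T v v = 0 := by linear_combination (-1 / 6 : ℂ) * h10
    exact mul_self_eq_zero.1 h11
  have halt : ∀ v, T v v = 0 := by
    intro v
    rw [← hTp v, ← hTw]
    exact halt0 _ (D.φ0 v) (D.ψ0 v)
  have hanti : ∀ v w, T v w = - T w v := by
    intro v w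
    have h3 := halt (v + w)
    simp only [map_add, LinearMap.add_apply, halt] at h3
    linear_combination h3
  -- the components of weight one and minus one
  have ha : ∀ X ∈ g, ∀ w, ψ (X (p0 x y φ ψ w)) = T (X y) w := by
    intro X hX w
    have h3 := uniq h1 hT (α := ψ ∘ₗ X ∘ₗ p0 x y φ ψ) (v := X y) (by simp [D.p0x])
      (by simp [D.p0y]) (D.comp1 hX)
    exact LinearMap.congr_fun h3 w
  have hb : ∀ X ∈ g, ∀ w, φ (X (p0 x y φ ψ w)) = - T (X x) w := by
    intro X hX w
    have h3 := ha _ (D.br _ D.e _ hX) w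
    have h4 : (R x φ * X - X * R x φ) y = φ (X y) • x - X x := by
      simp only [LinearMap.sub_apply, Module.End.mul_apply, Rap, D.φy, one_smul]
    rw [h4, map_sub, map_smul, hTx, smul_zero, zero_sub, LinearMap.neg_apply] at h3
    rw [← h3]
    simp only [LinearMap.sub_apply, Module.End.mul_apply, Rap, map_smul, D.φ0, D.ψx,
      smul_eq_mul, map_zero, zero_smul, mul_one, sub_zero]
  have hc : ∀ X ∈ g, ∀ v w, T (X (p0 x y φ ψ v)) w + T v (X (p0 x y φ ψ w)) =
      (ψ (X x) + φ (X y)) * T v w := by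
    intro X hX v w
    obtain ⟨h3, h4, h5⟩ := hT v
    have h6 := ha _ (D.br _ hX _ h5) w
    have h7 : (X * (R x (T v) + R (p0 x y φ ψ v) φ) - (R x (T v) + R (p0 x y φ ψ v) φ) * X) y =
        X (p0 x y φ ψ v) - T v (X y) • x - φ (X y) • p0 x y φ ψ v := by
      simp only [LinearMap.sub_apply, LinearMap.add_apply, Module.End.mul_apply, Rap,
        D.φy, h4, one_smul, zero_smul, zero_add]
      module
    rw [h7, map_sub, map_sub, map_smul, map_smul, hTx, hTp, smul_zero, sub_zero] at h6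
    have h8 : ψ ((X * (R x (T v) + R (p0 x y φ ψ v) φ) -
        (R x (T v) + R (p0 x y φ ψ v) φ) * X) (p0 x y φ ψ w)) =
        T v w * ψ (X x) - T v (X (p0 x y φ ψ w)) := by
      simp only [LinearMap.sub_apply, LinearMap.add_apply, Module.End.mul_apply, Rap, map_add,
        map_sub, map_smul, D.φ0, D.ψ0, D.ψx, hTw, smul_eq_mul, zero_smul, add_zero, mul_one,
        mul_zero]
    have h9 : (T (X (p0 x y φ ψ v)) - φ (X y) • T v) w =
        T (X (p0 x y φ ψ v)) w - φ (X y) * T v w := rfl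
    rw [h8, h9] at h6
    linear_combination -h6
  refine ⟨LinearMap.smulRight ψ φ - LinearMap.smulRight φ ψ + T, ?_, ?_, ?_⟩
  · intro v
    simp only [LinearMap.add_apply, LinearMap.sub_apply, LinearMap.smulRight_apply,
      LinearMap.smul_apply, smul_eq_mul, halt]
    ring
  · intro v hv
    have hv' : ∀ w, ψ v * φ w - φ v * ψ w + T v w = 0 := hv
    have h3 := hv' y
    rw [D.φy, D.ψy, (hT v).2.1] at h3
    have h4 := hv' x
    rw [D.φx, D.ψx, (hT v).1] at h4
    have hψv : ψ v = 0 := by linear_combination h3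
    have hφv : φ v = 0 := by linear_combination -h4
    have h5 : p0 x y φ ψ v = v := by
      rw [p0_apply, hφv, hψv]
      module
    have h6 : T v = 0 := by
      refine LinearMap.ext fun w => ?_
      have h7 := hv' w
      rw [hψv, hφv] at h7
      rw [LinearMap.zero_apply]
      linear_combination h7
    refine h2 v hφv hψv ?_
    have h7 := (hT v).2.2
    rw [h5, h6] at h7
    refine (congrArg (· ∈ g) ?_).mp h7
    refine LinearMap.ext fun u => ?_
    simp [Rap]
  · intro X hX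
    refine ⟨ψ (X x) + φ (X y), fun v w => ?_⟩
    show (ψ (X v) * φ w - φ (X v) * ψ w + T (X v) w) +
      (ψ v * φ (X w) - φ v * ψ (X w) + T v (X w)) =
      (ψ (X x) + φ (X y)) * (ψ v * φ w - φ v * ψ w + T v w)
    have e1 : X v = ψ v • X x + φ v • X y + X (p0 x y φ ψ v) := by
      conv_lhs => rw [dec (x := x) (y := y) (φ := φ) (ψ := ψ) v]
      simp only [map_add, map_smul]
    have e2 : X w = ψ w • X x + φ w • X y + X (p0 x y φ ψ w) := by
      conv_lhs => rw [dec (x := x) (y := y) (φ := φ) (ψ := ψ) w]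
      simp only [map_add, map_smul]
    have a1 := ha X hX v
    have a2 := ha X hX w
    have b1 := hb X hX v
    have b2 := hb X hX w
    have c1 := hc X hX v w
    have d1 := hanti v (X x)
    have d2 := hanti v (X y)
    rw [e1, e2]
    simp only [map_add, map_smul, LinearMap.add_apply, LinearMap.smul_apply, smul_eq_mul, d1, d2,
      a1, a2, b1, b2]
    linear_combination c1

end R1S_aux

open R1N_aux in
theorem tR1S : S_R1S := by
  intro V _ _ _ g J x y φ ψ hbr hJ hJJ hJx hJy hφJ hψJ hφy hψx he hf hirr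
  have hφx : φ x = 0 := by
    have h3 := hφJ x
    rw [hJx, map_smul, smul_eq_mul] at h3
    have h4 : (2 * Complex.I) * φ x = 0 := by linear_combination -h3
    exact (mul_eq_zero.1 h4).resolve_left (by simp)
  have hψy : ψ y = 0 := by
    have h3 := hψJ y
    rw [hJy, map_smul, smul_eq_mul] at h3
    have h4 : (2 * Complex.I) * ψ y = 0 := by linear_combination h3
    exact (mul_eq_zero.1 h4).resolve_left (by simp)
  have D : Dat g J x y ((φ y)⁻¹ • φ) ((ψ x)⁻¹ • ψ) :=
    { br := hbr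
      hJ := hJ
      JJ := hJJ
      Jx := hJx
      Jy := hJy
      φJ := fun v => by
        simp only [LinearMap.smul_apply, hφJ, smul_eq_mul]
        ring
      ψJ := fun v => by
        simp only [LinearMap.smul_apply, hψJ, smul_eq_mul]
        ring
      φy := by simp [hφy]
      ψx := by simp [hψx]
      φx := by simp [hφx]
      ψy := by simp [hψy]
      e := by
        refine (congrArg (· ∈ g) ?_).mp (g.smul_mem (φ y)⁻¹ he)
        refine LinearMap.ext fun w => ?_
        simp [Rap, smul_smul]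
      f := by
        refine (congrArg (· ∈ g) ?_).mp (g.smul_mem (ψ x)⁻¹ hf)
        refine LinearMap.ext fun w => ?_
        simp [Rap, smul_smul]
      irr := hirr }
  by_cases h1 : ∃ α : Dual ℂ V, α x = 0 ∧ α y = 0 ∧ R x α ∈ g ∧ α ≠ 0
  · obtain ⟨α, hx, hy, hg, hne⟩ := h1
    obtain ⟨h3, h4⟩ := D.two hx hy hne hg
    exact Or.inl fun X hX => D.fin h3 h4 X hX
  by_cases h2 : ∃ v, ((φ y)⁻¹ • φ) v = 0 ∧ ((ψ x)⁻¹ • ψ) v = 0 ∧
      R v ((φ y)⁻¹ • φ) ∈ g ∧ v ≠ 0
  · obtain ⟨v, hφ, hψ, hg, hne⟩ := h2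
    obtain ⟨h3, h4⟩ := D.two' hφ hψ hne hg
    exact Or.inl fun X hX => D.fin h3 h4 X hX
  refine Or.inr (R1S_aux.main D (fun α hx hy hg => ?_) (fun v hφ hψ hg => ?_))
  · by_contra h
    exact h1 ⟨α, hx, hy, hg, h⟩
  · by_contra h
    exact h2 ⟨v, hφ, hψ, hg, h⟩

end SEB
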