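import Pool.Agent.Lib.SE.Big.VG4
import Pool.Agent.Lib.SE.Big.cKey

/-!
# PROJECT SE, module IsBig, part 6, module dKey: `J` and its derivatives, all signatures
-/

set_option autoImplicit false

open Module MeasureTheory Topology

noncomputable section

namespace SEB

open HC HC.E HC.SE


open Key_aux cKey_aux in
theorem tdKey : S_R1S → S_Sg → S_cPv → S_cJx → S_cRk1 → S_dKey := by
  classical
  intro hR hSg hPv hJx hRk m r b u s hA hN hNj hNj' hp hq g J hg hIJ hJ hD
  obtain ⟨hs, hcov, hum, huc⟩ := id hA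
  have hm3 : 3 ≤ m := hcov.1
  have hpq : sg m r b u + sg m r b (m - u) = r := hSg m r _ b hcov u hum huc
  have hu0 : 0 < u := by
    rcases Nat.eq_zero_or_pos u with h | h
    · rw [h, Nat.coprime_zero_left] at huc
      omega
    · exact h
  have hmm : m - (m - u) = u := by omega
  have hA' : Admc m b (m - u) s :=
    ⟨hs, hcov, by omega, (Nat.coprime_self_sub_left hum.le).2 huc⟩
  have hN' : NDc m b (m - u) s := by
    intro f f' hf hf' h
    rw [hmm] at hf' h
    have h1 : Pc m b u s f' + star (Pc m b (m - u) s f) = 0 := by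
      have h2 := congrArg star h
      rw [star_add, star_star, star_zero, add_comm] at h2
      exact h2
    exact (hN f' f hf' hf h1).symm
  obtain ⟨J₀, h0, huniq, hJJ, hW1, hW2, hk1, hk2⟩ := hJx m r b u s hA hN
  have hJJ0 : J = J₀ := huniq J hIJ
  subst hJJ0
  have hIJ' : IsJc m b (m - u) s (cj J) := by
    refine ⟨fun f hf => ?_, fun f hf => ?_⟩
    · rw [cj_apply, hIJ.2 f hf, star_smul, star_star]
      congr 1
      simp
    · rw [hmm] at hf ⊢
      rw [cj_apply, star_star, hIJ.1 f hf, star_smul]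
      congr 1
      simp
  obtain ⟨ξ, hξ, ha, hind⟩ := hRk m r b u s hA hN hNj J hIJ
  obtain ⟨ξ', hξ', ha', hind'⟩ := hRk m r b (m - u) s hA' hN' hNj' (cj J) hIJ'
  choose a ha using ha
  choose a' ha' using ha'
  choose Dm hDg hDJ using hD
  rw [hmm] at hind'
  have hP0 : Pc m b u s 0 = 0 := by
    have := (hPv m r b u s hA).2 0 0
    simpa using this
  have hP0' : Pc m b (m - u) s 0 = 0 := by
    have := (hPv m r b (m - u) s hA').2 0 0
    simpa using this
  have hIne : (-Complex.I) * (-Complex.I) = -1 := by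
    rw [neg_mul_neg, Complex.I_mul_I]
  -- the first family
  have hξ0 := ne0 hind hq
  have hφ : ∀ j, ∃ φ : Module.Dual ℂ (Fin r → ℂ), φ.smulRight (ξ j) ∈ g ∧
      (∀ v, φ (J v) = Complex.I * φ v) ∧ ∀ v, J v = Complex.I • v → Dm (a j) v = φ v • ξ j := by
    intro j
    refine mk_phi hg hJ hJJ Complex.I_mul_I (hDg (a j)) (hξ0 j) (hξ j) ?_ ?_
    · intro v hv
      obtain ⟨f, hf, rfl⟩ := (hW1 v).1 hv
      exact ⟨_, ((hDJ (a j)).1 f hf).trans (ha j f hf)⟩
    · intro v hv
      obtain ⟨f, hf, rfl⟩ := (hW2 v).1 hv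
      rw [(hDJ (a j)).2 f hf, back hJJ hIne, neg_neg]
  choose φ hφ1 hφ2 hφ3 using hφ
  have hφe : ∀ j, ∀ f : Polynomial ℂ, f.degree < (sg m r b u : WithBot ℕ) →
      φ j (Pc m b u s f) = f.eval (s j) := by
    intro j f hf
    have h1 := hφ3 j (Pc m b u s f) (hIJ.1 f hf)
    rw [(hDJ (a j)).1 f hf, ha j f hf] at h1
    exact (smul_left_injective ℂ (hξ0 j) h1).symm
  have F1 : Fam r (sg m r b u) (sg m r b (m - u)) g J Complex.I φ ξ := by
    refine ⟨hφ1, hξ, hφ2, ?_, hind, ?_⟩
    · intro w hw hw0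
      obtain ⟨f, hf, rfl⟩ := (hW1 w).1 hw
      have hf0 : f ≠ 0 := by
        rintro rfl
        exact hw0 hP0
      have h1 := cfew_zeros hs f hf0 hf
      have h2 : (Finset.univ.filter fun j => φ j (Pc m b u s f) = 0) =
          Finset.univ.filter fun j => f.eval (s j) = 0 := by
        refine Finset.filter_congr fun j _ => ?_
        rw [hφe j f hf]
      rw [h2]
      exact h1
    · intro j
      have h1 : (1 : Polynomial ℂ).degree < (sg m r b u : WithBot ℕ) := by
        rw [Polynomial.degree_one]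
        exact_mod_cast hp
      refine ⟨Pc m b u s 1, hIJ.1 1 h1, ?_⟩
      rw [hφe j 1 h1, Polynomial.eval_one]
      exact one_ne_zero
  -- the second family
  have hηi : ∀ c : Fin (r + 1) → ℂ, (Finset.univ.filter fun j => c j ≠ 0).card ≤ sg m r b u →
      ∑ j, c j • star (ξ' j) = 0 → c = 0 := by
    intro c hc hs0
    have h1 := hind' (star c) ?_ ?_
    · have := congrArg star h1
      rwa [star_star, star_zero] at this
    · refine le_trans (Finset.card_le_card fun j hj => ?_) hc
      rw [Finset.mem_filter] at hj ⊢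
      refine ⟨hj.1, fun h => hj.2 ?_⟩
      rw [Pi.star_apply, h, star_zero]
    · have h2 := congrArg star hs0
      rw [star_sum, star_zero] at h2
      rw [← h2]
      refine Finset.sum_congr rfl fun j _ => ?_
      rw [star_smul, star_star, Pi.star_apply]
  have hη0 := ne0 hηi hp
  have hηx : ∀ k, J (star (ξ' k)) = - -Complex.I • star (ξ' k) := by
    intro k
    have h1 := hξ' k
    rw [cj_apply] at h1
    have h2 := congrArg star h1
    rw [star_star, star_smul] at h2
    rw [h2]
    congr 1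
    simp
  have hD' : ∀ k, ∀ f : Polynomial ℂ, f.degree < (sg m r b (m - u) : WithBot ℕ) →
      Dm (a' k) (star (Pc m b (m - u) s f)) = (star (f.eval (s k))) • star (ξ' k) := by
    intro k f hf
    rw [(hDJ (a' k)).2 f hf, ← star_smul, ← ha' k f hf, star_sub, star_smul, cj_apply, star_star]
    congr 2
    simp
  have hψ : ∀ k, ∃ ψ : Module.Dual ℂ (Fin r → ℂ), ψ.smulRight (star (ξ' k)) ∈ g ∧
      (∀ v, ψ (J v) = -Complex.I * ψ v) ∧
      ∀ v, J v = -Complex.I • v → Dm (a' k) v = ψ v • star (ξ' k) := by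
    intro k
    refine mk_phi hg hJ hJJ hIne (hDg (a' k)) (hη0 k) (hηx k) ?_ ?_
    · intro v hv
      obtain ⟨f, hf, rfl⟩ := (hW2 v).1 hv
      exact ⟨_, hD' k f hf⟩
    · intro v hv
      rw [neg_neg] at hv
      obtain ⟨f, hf, rfl⟩ := (hW1 v).1 hv
      rw [(hDJ (a' k)).1 f hf, back hJJ Complex.I_mul_I]
  choose ψ hψ1 hψ2 hψ3 using hψ
  have hψe : ∀ k, ∀ f : Polynomial ℂ, f.degree < (sg m r b (m - u) : WithBot ℕ) →
      ψ k (star (Pc m b (m - u) s f)) = star (f.eval (s k)) := by
    intro k f hf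
    have h1 := hψ3 k (star (Pc m b (m - u) s f)) (hIJ.2 f hf)
    rw [hD' k f hf] at h1
    exact (smul_left_injective ℂ (hη0 k) h1).symm
  have F2 : Fam r (sg m r b (m - u)) (sg m r b u) g J (-Complex.I) ψ (fun k => star (ξ' k)) := by
    refine ⟨hψ1, hηx, hψ2, ?_, hηi, ?_⟩
    · intro w hw hw0
      obtain ⟨f, hf, rfl⟩ := (hW2 w).1 hw
      have hf0 : f ≠ 0 := by
        rintro rfl
        rw [hP0', star_zero] at hw0
        exact hw0 rfl
      have h1 := cfew_zeros hs f hf0 hf
      have h2 : (Finset.univ.filter fun j => ψ j (star (Pc m b (m - u) s f)) = 0) =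
          Finset.univ.filter fun j => f.eval (s j) = 0 := by
        refine Finset.filter_congr fun j _ => ?_
        rw [hψe j f hf, star_eq_zero]
      rw [h2]
      exact h1
    · intro j
      have h1 : (1 : Polynomial ℂ).degree < (sg m r b (m - u) : WithBot ℕ) := by
        rw [Polynomial.degree_one]
        exact_mod_cast hq
      refine ⟨star (Pc m b (m - u) s 1), hIJ.2 1 h1, ?_⟩
      rw [hψe j 1 h1, Polynomial.eval_one, star_one]
      exact one_ne_zero
  obtain ⟨hirr, j, hj1, hj2⟩ := finish F1 F2 hpq hp hq hJ hJJ hk1 hk2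
  refine hR (Fin r → ℂ) g J (ξ j) (star (ξ' 0)) (φ j) (ψ 0) hg hJ hJJ (hξ j) ?_ (hφ2 j) (hψ2 0)
    hj1 hj2 (hφ1 j) (hψ1 0) hirr
  rw [hηx 0, neg_neg]

end SEB
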