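import Pool.Agent.Lib.SE.Big.VG4
import Pool.Agent.Lib.SE.Big.cCj
import Pool.Agent.Lib.SE.Big.cBa2

/-!
# PROJECT SE, module IsBig, part 6, module eB: the Baire argument for links
-/

set_option autoImplicit false

open Module MeasureTheory Topology

noncomputable section

namespace SEB

open HC HC.E HC.SE

namespace eB_aux

open cCj_aux

/-- the matrix of `J` is continuous -/
theorem JM_cont (hK : S_cKap) (hPv : S_cPv) (hC : S_cC) {m r : ℕ} {b : Fin (r + 1) → ℕ} {u : ℕ}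
    (h : sg m r b u + sg m r b (m - u) = r) :
    ContinuousOn (JM h) {s : Fin (r + 1) → ℂ | Admc m b u s ∧ NDc m b u s} := by
  have hM := MM_cont hK hC h
  have hdet : ContinuousOn (fun s => (cCj_aux.MM h s).det) {s : Fin (r + 1) → ℂ | Admc m b u s} :=
    (Continuous.matrix_det continuous_id).comp_continuousOn hM
  have hsub : {s : Fin (r + 1) → ℂ | Admc m b u s ∧ NDc m b u s} ⊆
      {s : Fin (r + 1) → ℂ | Admc m b u s} := fun s hs => hs.1
  have h1 : ContinuousOn (fun s => (cCj_aux.MM h s)⁻¹)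
      {s : Fin (r + 1) → ℂ | Admc m b u s ∧ NDc m b u s} := by
    have h2 : (fun s => (cCj_aux.MM h s)⁻¹) = fun s => ((cCj_aux.MM h s).det)⁻¹ • (cCj_aux.MM h s).adjugate := by
      funext s
      rw [Matrix.inv_def, Ring.inverse_eq_inv']
    rw [h2]
    have h3 : ContinuousOn (fun s => ((cCj_aux.MM h s).det)⁻¹)
        {s : Fin (r + 1) → ℂ | Admc m b u s ∧ NDc m b u s} :=
      (hdet.mono hsub).inv₀ fun s hs => (nd_iff hPv h hs.1).1 hs.2
    have h4 : ContinuousOn (fun s => (cCj_aux.MM h s).adjugate)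
        {s : Fin (r + 1) → ℂ | Admc m b u s ∧ NDc m b u s} :=
      (Continuous.matrix_adjugate continuous_id).comp_continuousOn (hM.mono hsub)
    exact h3.smul h4
  exact ((hM.mono hsub).mul continuousOn_const).mul h1

/-- a link in terms of the matrices -/
theorem lk_iff (hPv : S_cPv) (hJx : S_cJx) {m r : ℕ} {b : Fin (r + 1) → ℕ} {u v : ℕ}
    (hu : sg m r b u + sg m r b (m - u) = r) (hv : sg m r b v + sg m r b (m - v) = r)
    {s : Fin (r + 1) → ℂ} (hs : Ad2 m b u v s) (θ : Module.End ℂ (Fin r → ℂ)) :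
    Lk m b u v s θ ↔
      LinearMap.toMatrix' θ * JM hu s - JM hv s * LinearMap.toMatrix' θ = 0 := by
  obtain ⟨h1, h2, h3, h4⟩ := hs
  have i1 := JM_isJ hPv hu h1 ((nd_iff hPv hu h1).1 h2)
  have i2 := JM_isJ hPv hv h3 ((nd_iff hPv hv h3).1 h4)
  obtain ⟨J1, -, u1, -⟩ := hJx m r b u s h1 h2
  obtain ⟨J2, -, u2, -⟩ := hJx m r b v s h3 h4
  have key : θ * Matrix.toLin' (JM hu s) = Matrix.toLin' (JM hv s) * θ ↔
      LinearMap.toMatrix' θ * JM hu s - JM hv s * LinearMap.toMatrix' θ = 0 := by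
    rw [sub_eq_zero, ← LinearMap.toMatrix'.injective.eq_iff, LinearMap.toMatrix'_mul,
      LinearMap.toMatrix'_mul, LinearMap.toMatrix'_toLin', LinearMap.toMatrix'_toLin']
  rw [← key]
  constructor
  · intro h
    exact h _ _ i1 i2
  · intro h J J' hJ hJ'
    rw [u1 J hJ, u2 J' hJ', ← u1 _ i1, ← u2 _ i2]
    exact h

theorem nd (hI : S_cI) (hK : S_cKap) (hPv : S_cPv) (hC : S_cC) (hJx : S_cJx) (hN : S_cN)
    (hSg : S_Sg) (hM : S_eM) (hU : S_eU) (hO : S_eO) {m r : ℕ} {b : Fin (r + 1) → ℕ} {u v : ℕ}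
    (huv : u ≠ v) (hp : 2 ≤ sg m r b u) (hpv : sg m r b v = sg m r b u)
    (hq : 1 ≤ sg m r b (m - u)) (θ : Module.End ℂ (Fin r → ℂ)) (hθ : Function.Injective θ) :
    IsNowhereDense {s : Fin (r + 1) → ℂ | Ad2 m b u v s ∧ Lk m b u v s θ} := by
  by_cases hA : ∃ s : Fin (r + 1) → ℂ, Ad2 m b u v s
  swap
  · have h1 : {s : Fin (r + 1) → ℂ | Ad2 m b u v s ∧ Lk m b u v s θ} = ∅ := by
      ext s
      simp only [Set.mem_ofPred_eq, Set.mem_empty_iff_false, iff_false]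
      exact fun h => hA ⟨s, h.1⟩
    rw [h1]
    exact isNowhereDense_empty
  obtain ⟨s0, hs0⟩ := hA
  have hu : sg m r b u + sg m r b (m - u) = r := hSg m r _ b hs0.1.2.1 u hs0.1.2.2.1 hs0.1.2.2.2
  have hv : sg m r b v + sg m r b (m - v) = r :=
    hSg m r _ b hs0.2.2.1.2.1 v hs0.2.2.1.2.2.1 hs0.2.2.1.2.2.2
  have hEv : Exq (mu m b v) := (hK m r b v s0 hs0.2.2.1).2.1
  have hCj := tcCj hI hK hPv hC hJx
  have hOp : IsOpen {s : Fin (r + 1) → ℂ | Ad2 m b u v s} := by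
    have h1 : {s : Fin (r + 1) → ℂ | Ad2 m b u v s} =
        {s : Fin (r + 1) → ℂ | Admc m b u s ∧ NDc m b u s} ∩
          {s : Fin (r + 1) → ℂ | Admc m b v s ∧ NDc m b v s} := by
      ext s
      exact ⟨fun h => ⟨⟨h.1, h.2.1⟩, h.2.2.1, h.2.2.2⟩, fun h => ⟨h.1.1, h.1.2, h.2.1, h.2.2⟩⟩
    rw [h1]
    exact (hCj m r b u).1.inter (hCj m r b v).1
  have hF : ContinuousOn (fun s => LinearMap.toMatrix' θ * JM hu s -
      JM hv s * LinearMap.toMatrix' θ) {s : Fin (r + 1) → ℂ | Ad2 m b u v s} := by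
    have j1 : ContinuousOn (JM hu) {s : Fin (r + 1) → ℂ | Ad2 m b u v s} :=
      (JM_cont hK hPv hC hu).mono fun s hs => ⟨hs.1, hs.2.1⟩
    have j2 : ContinuousOn (JM hv) {s : Fin (r + 1) → ℂ | Ad2 m b u v s} :=
      (JM_cont hK hPv hC hv).mono fun s hs => ⟨hs.2.2.1, hs.2.2.2⟩
    exact (continuousOn_const.mul j1).sub (j2.mul continuousOn_const)
  unfold IsNowhereDense
  by_contra hne
  obtain ⟨s₀, hs₀⟩ := Set.nonempty_iff_ne_empty.mpr hne
  have hWo : IsOpen (interior (closure {s : Fin (r + 1) → ℂ | Ad2 m b u v s ∧ Lk m b u v s θ})) :=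
    isOpen_interior
  obtain ⟨s₂, k1, k2⟩ := mem_closure_iff.mp (interior_subset hs₀) _ hWo hs₀
  set O : Set (Fin (r + 1) → ℂ) :=
    interior (closure {s : Fin (r + 1) → ℂ | Ad2 m b u v s ∧ Lk m b u v s θ}) ∩
      {s : Fin (r + 1) → ℂ | Ad2 m b u v s} with hOd
  have hOo : IsOpen O := hWo.inter hOp
  have hLk : ∀ s ∈ O, Lk m b u v s θ := by
    intro s hs
    rw [lk_iff hPv hJx hu hv hs.2]
    by_contra hne'
    have hcont : ContinuousAt (fun s => LinearMap.toMatrix' θ * JM hu s -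
      JM hv s * LinearMap.toMatrix' θ) s := hF.continuousAt (hOp.mem_nhds hs.2)
    obtain ⟨V, hV1, hV2, hV3⟩ := eventually_nhds_iff.mp (hcont.eventually_ne hne')
    obtain ⟨s', h5, h6⟩ := mem_closure_iff.mp (interior_subset hs.1) V hV2 hV3
    exact hV1 s' h5 ((lk_iff hPv hJx hu hv h6.1 θ).1 h6.2)
  have hde : Dense ({s : Fin (r + 1) → ℂ | Inc s ∧ ¬ Nj (mu m b v) s})ᶜ :=
    dense_of_mem_residual (hN r (mu m b v) hEv)
  obtain ⟨s₁, hs₁, hs₁'⟩ := hde.inter_open_nonempty _ hOo ⟨s₂, k1, k2.1⟩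
  have hInc : Inc s₁ := hs₁.2.1.1
  have n1 : Nj (mu m b v) s₁ := by
    by_contra hn
    exact hs₁' ⟨hInc, hn⟩
  have hmu := hM m r b u v (O ∩ {s : Fin (r + 1) → ℂ | Inc s ∧ Nj (mu m b v) s})
    (hOo.inter (hO r (mu m b v) hEv)) ⟨s₁, hs₁, hInc, n1⟩ (fun s hs => hs.1.2)
    (fun s hs => hs.2.2) θ hθ (fun s hs => hLk s hs.1) hp hpv hq
  exact huv (hU m r b u v s₁ hs₁.2.1 hs₁.2.2.2.1 hmu)

end eB_aux

open eB_aux

/-- Module eB: the Baire argument for links. -/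
theorem teB : S_cI → S_cKap → S_cPv → S_cC → S_cJx → S_cN → S_Sg → S_eM → S_eU → S_eO → S_eB := by
  intro hI hK hPv hC hJx hN hSg hM hU hO m r b u v huv hp hpv hq
  have : Countable (cBa2_aux.Al r) := (cBa2_aux.countable_Al r).to_subtype
  have hMe : IsMeagre (⋃ θ : cBa2_aux.Al r, {s : Fin (r + 1) → ℂ |
      Function.Injective (θ : Module.End ℂ (Fin r → ℂ)) ∧ Ad2 m b u v s ∧
        Lk m b u v s (θ : Module.End ℂ (Fin r → ℂ))}) := by
    refine isMeagre_iUnion fun θ => ?_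
    by_cases hi : Function.Injective (θ : Module.End ℂ (Fin r → ℂ))
    · refine (nd hI hK hPv hC hJx hN hSg hM hU hO huv hp hpv hq _ hi).isMeagre.mono ?_
      rintro s ⟨_, hs⟩
      exact hs
    · have h1 : {s : Fin (r + 1) → ℂ |
          Function.Injective (θ : Module.End ℂ (Fin r → ℂ)) ∧ Ad2 m b u v s ∧
            Lk m b u v s (θ : Module.End ℂ (Fin r → ℂ))} = ∅ := by
        ext s
        constructor
        · rintro ⟨h, _⟩
          exact absurd h hi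
        · intro h
          exact absurd h (Set.notMem_empty s)
      rw [h1]
      exact IsMeagre.empty
  refine hMe.mono ?_
  rintro s ⟨h1, θ, h2, h3, h4⟩
  exact Set.mem_iUnion.2 ⟨⟨θ, h3⟩, h2, h1, h4⟩

end SEB
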