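import Pool.Agent.Lib.SE.Big.VG4
import Pool.Agent.Lib.SE.Big.cDj

/-!
# PROJECT SE, module IsBig, part 6, module eD: derivative of a link
-/

set_option autoImplicit false

open Module MeasureTheory Topology

noncomputable section

namespace SEB

open HC HC.E HC.SE

namespace eD_aux

open cDj_aux

variable {m r : ℕ} {b : Fin (r + 1) → ℕ} {u : ℕ}

/-- the curve -/
def sc {r : ℕ} (s : Fin (r + 1) → ℂ) (a : Polynomial ℂ) (ε : ℝ) : Fin (r + 1) → ℂ :=
  fun i => s i + (ε : ℂ) * a.eval (s i)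

theorem sc_zero (s : Fin (r + 1) → ℂ) (a : Polynomial ℂ) : sc s a 0 = s := by
  funext i
  simp [sc]

theorem sc_cont (s : Fin (r + 1) → ℂ) (a : Polynomial ℂ) : Continuous (sc s a) := by
  refine continuous_pi fun i => ?_
  exact continuous_const.add (Complex.continuous_ofReal.mul continuous_const)

/-- the matrix of `J` is continuous along the curve -/
theorem JM_cont (hPv : S_cPv) (hKap : S_cKap) (hD : S_cD)
    (h : sg m r b u + sg m r b (m - u) = r) {s : Fin (r + 1) → ℂ} (hs : Admc m b u s)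
    (hN : NDc m b u s) (a : Polynomial ℂ) :
    ContinuousAt (fun ε : ℝ => JM h (sc s a ε)) 0 := by
  have hder : ∀ k j, HasDerivAt (fun ε : ℝ => cDj_aux.MM h (sc s a ε) k j) (MD h s a k j) 0 :=
    fun k j => MM_deriv hKap hD h hs a k j
  have hMc : ContinuousAt (fun ε : ℝ => cDj_aux.MM h (sc s a ε)) 0 :=
    continuousAt_pi.2 fun k => continuousAt_pi.2 fun j => (hder k j).continuousAt
  have hdet0 : (cDj_aux.MM h (sc s a 0)).det ≠ 0 := by
    rw [sc_zero]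
    exact (nd_iff hPv h hs).1 hN
  have hdetc : ContinuousAt (fun ε : ℝ => (cDj_aux.MM h (sc s a ε)).det) 0 :=
    (Continuous.matrix_det continuous_id).continuousAt.comp hMc
  have h1 : ContinuousAt (fun ε : ℝ => (cDj_aux.MM h (sc s a ε))⁻¹) 0 := by
    have h2 : (fun ε : ℝ => (cDj_aux.MM h (sc s a ε))⁻¹) =
        fun ε => ((cDj_aux.MM h (sc s a ε)).det)⁻¹ • (cDj_aux.MM h (sc s a ε)).adjugate := by
      funext ε
      rw [Matrix.inv_def, Ring.inverse_eq_inv']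
    rw [h2]
    have h3 : ContinuousAt (fun ε : ℝ => ((cDj_aux.MM h (sc s a ε)).det)⁻¹) 0 := hdetc.inv₀ hdet0
    have h4 : ContinuousAt (fun ε : ℝ => (cDj_aux.MM h (sc s a ε)).adjugate) 0 :=
      (Continuous.matrix_adjugate continuous_id).continuousAt.comp hMc
    exact h3.smul h4
  exact (hMc.mul continuousAt_const).mul h1

theorem th_deriv {r : ℕ} (θ : Module.End ℂ (Fin r → ℂ)) {F : ℝ → (Fin r → ℂ)} {F' : Fin r → ℂ}
    (hF : HasDerivAt F F' 0) : HasDerivAt (fun ε => θ (F ε)) (θ F') 0 :=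
  ((θ.restrictScalars ℝ).toContinuousLinearMap.hasFDerivAt (x := F 0)).comp_hasDerivAt 0 hF

theorem mv_smul {r : ℕ} (A : Matrix (Fin r) (Fin r) ℂ) (x : ℝ) (v : Fin r → ℂ)
    (hv : A.mulVec v = Complex.I • v) : A.mulVec (x • v) = Complex.I • (x • v) := by
  rw [Matrix.mulVec_smul, hv, smul_comm]

theorem mv_lim {r : ℕ} {l : Filter ℝ} {A : ℝ → Matrix (Fin r) (Fin r) ℂ} {v : ℝ → Fin r → ℂ}
    {A0 : Matrix (Fin r) (Fin r) ℂ} {v0 : Fin r → ℂ} (hA : Filter.Tendsto A l (𝓝 A0))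
    (hv : Filter.Tendsto v l (𝓝 v0)) :
    Filter.Tendsto (fun ε => (A ε).mulVec (v ε)) l (𝓝 (A0.mulVec v0)) := by
  refine tendsto_pi_nhds.2 fun i => ?_
  have h1 : ∀ j, Filter.Tendsto (fun ε => A ε i j) l (𝓝 (A0 i j)) := fun j =>
    tendsto_pi_nhds.1 (tendsto_pi_nhds.1 hA i) j
  have h2 : ∀ j, Filter.Tendsto (fun ε => v ε j) l (𝓝 (v0 j)) := fun j =>
    tendsto_pi_nhds.1 hv j
  have h3 := tendsto_finsetSum (Finset.univ : Finset (Fin r)) fun j _ => (h1 j).mul (h2 j)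
  exact h3

theorem der_lim {r : ℕ} {w : ℝ → Fin r → ℂ} {w' : Fin r → ℂ} (h : HasDerivAt w w' 0)
    (h0 : w 0 = 0) : Filter.Tendsto (fun ε : ℝ => ε⁻¹ • w ε) (𝓝[≠] 0) (𝓝 w') := by
  have h1 := h.tendsto_slope_zero
  simpa [h0] using h1

theorem key {r : ℕ} {w : ℝ → Fin r → ℂ} {w' : Fin r → ℂ} {A : ℝ → Matrix (Fin r) (Fin r) ℂ}
    {A0 : Matrix (Fin r) (Fin r) ℂ} (hw : HasDerivAt w w' 0) (h0 : w 0 = 0)
    (hA : ContinuousAt A 0) (hA0 : A 0 = A0)
    (he : ∀ᶠ ε in 𝓝 (0 : ℝ), (A ε).mulVec (w ε) = Complex.I • w ε) :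
    A0.mulVec w' = Complex.I • w' := by
  have hA' : Filter.Tendsto A (𝓝[≠] 0) (𝓝 A0) := by
    have h1 : Filter.Tendsto A (𝓝 0) (𝓝 (A 0)) := hA
    rw [hA0] at h1
    exact h1.mono_left nhdsWithin_le_nhds
  have hl := der_lim hw h0
  have h2 := mv_lim hA' hl
  have h3 := hl.const_smul Complex.I
  refine tendsto_nhds_unique (h2.congr' ?_) h3
  filter_upwards [nhdsWithin_le_nhds he] with ε hε
  exact mv_smul _ _ _ hε

end eD_aux

open cDj_aux eD_aux in
theorem teD : S_cPv → S_cKap → S_cD → S_cJx → S_Sg → S_eD := by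
  intro hPv hKap hD hJx hSg m r b u v U hU hUA θ hL s hs f g hf hg hfg a
  obtain ⟨hAu, hNu, hAv, hNv⟩ := hUA s hs
  have h : sg m r b v + sg m r b (m - v) = r := hSg m r _ b hAv.2.1 v hAv.2.2.1 hAv.2.2.2
  have hev : ∀ᶠ ε in 𝓝 (0 : ℝ), sc s a ε ∈ U := by
    refine (sc_cont s a).continuousAt.eventually_mem ?_
    rw [sc_zero]
    exact hU.mem_nhds hs
  -- the derivative of `w`
  set w : ℝ → (Fin r → ℂ) := fun ε => θ (Pc m b u (sc s a ε) f) - Pc m b v (sc s a ε) g with hw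
  set w' : Fin r → ℂ := θ (Pc m b u s (Thc (mu m b u) s a f)) -
    Pc m b v s (Thc (mu m b v) s a g) with hw'
  have hw0 : w 0 = 0 := by
    rw [hw]
    simp only [sc_zero]
    rw [hfg, sub_self]
  have hderiv : HasDerivAt w w' 0 := by
    have h1 : HasDerivAt (fun ε : ℝ => Pc m b u (sc s a ε) f)
        (Pc m b u s (Thc (mu m b u) s a f)) 0 := Pc_deriv hKap hD hAu a f
    have h2 : HasDerivAt (fun ε : ℝ => Pc m b v (sc s a ε) g)
        (Pc m b v s (Thc (mu m b v) s a g)) 0 := Pc_deriv hKap hD hAv a g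
    exact (th_deriv θ h1).fun_sub h2
  have hfin : (JM h s).mulVec w' = Complex.I • w' := by
    refine key hderiv hw0 (JM_cont hPv hKap hD h hAv hNv a) (by rw [sc_zero]) ?_
    filter_upwards [hev] with ε hε
    obtain ⟨kAu, kNu, kAv, kNv⟩ := hUA _ hε
    obtain ⟨Ju, hJu, -⟩ := hJx m r b u _ kAu kNu
    have hJv := JM_isJ hPv h kAv ((nd_iff hPv h kAv).1 kNv)
    have hcomm := hL _ hε Ju _ hJu hJv
    have e2 : Matrix.toLin' (JM h (sc s a ε)) (θ (Pc m b u (sc s a ε) f)) =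
        Complex.I • θ (Pc m b u (sc s a ε) f) := by
      have e3 := congrArg (fun T : Module.End ℂ (Fin r → ℂ) => T (Pc m b u (sc s a ε) f)) hcomm
      simp only [Module.End.mul_apply] at e3
      rw [← e3, hJu.1 f hf, map_smul]
    have e1 : Matrix.toLin' (JM h (sc s a ε)) (w ε) = Complex.I • w ε := by
      rw [hw]
      simp only
      rw [map_sub, e2, hJv.1 g hg, smul_sub]
    rw [Matrix.toLin'_apply] at e1
    exact e1
  obtain ⟨J, hJ, huniq, -, hI, -⟩ := hJx m r b v s hAv hNv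
  have hJ0 := huniq _ (JM_isJ hPv h hAv ((nd_iff hPv h hAv).1 hNv))
  obtain ⟨g', hg', hgg⟩ := (hI w').1 (by rw [← hJ0, Matrix.toLin'_apply, hfin])
  refine ⟨g', hg', ?_⟩
  rw [← hgg, hw', sub_add_cancel]

end SEB
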