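import Pool.Agent.Lib.SE.Big.VG4

/-!
# PROJECT SE, module IsBig, part 6, module eF: the Baire argument for links, all signatures
-/

set_option autoImplicit false

open Module MeasureTheory Topology

noncomputable section

namespace SEB

open HC HC.E HC.SE

namespace eF_aux

/-- the operator conjugate to `J` -/
def cj {r : ℕ} (J : Module.End ℂ (Fin r → ℂ)) : Module.End ℂ (Fin r → ℂ) where
  toFun v := star (J (star v))
  map_add' v w := by rw [star_add, map_add, star_add]
  map_smul' c v := by rw [star_smul, map_smul, star_smul, star_star, RingHom.id_apply]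

lemma cj_apply {r : ℕ} (J : Module.End ℂ (Fin r → ℂ)) (v : Fin r → ℂ) :
    cj J v = star (J (star v)) := rfl

/-- an injective intertwiner gives an inequality of the dimensions of the eigenspaces -/
lemma dim_le {r : ℕ} {θ J J' : Module.End ℂ (Fin r → ℂ)} (hθ : Function.Injective θ)
    (h : θ * J = J' * θ) (c : ℂ) :
    finrank ℂ (LinearMap.ker (J + c • (1 : Module.End ℂ (Fin r → ℂ)))) ≤
      finrank ℂ (LinearMap.ker (J' + c • (1 : Module.End ℂ (Fin r → ℂ)))) := by
  have hm : ∀ v ∈ LinearMap.ker (J + c • (1 : Module.End ℂ (Fin r → ℂ))),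
      θ v ∈ LinearMap.ker (J' + c • (1 : Module.End ℂ (Fin r → ℂ))) := by
    intro v hv
    rw [LinearMap.mem_ker, LinearMap.add_apply, LinearMap.smul_apply, Module.End.one_apply] at hv ⊢
    have e : θ (J v) = J' (θ v) := by
      have := congrArg (fun X : Module.End ℂ (Fin r → ℂ) => X v) h
      simpa using this
    rw [← e, ← map_smul, ← map_add, hv, map_zero]
  let f : LinearMap.ker (J + c • (1 : Module.End ℂ (Fin r → ℂ))) →ₗ[ℂ]
      LinearMap.ker (J' + c • (1 : Module.End ℂ (Fin r → ℂ))) := θ.restrict hm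
  have hf : Function.Injective f := by
    intro a b hab
    apply Subtype.ext
    apply hθ
    have := congrArg Subtype.val hab
    simpa [f] using this
  exact LinearMap.finrank_le_finrank_of_injective hf

lemma sub_form {r : ℕ} (J : Module.End ℂ (Fin r → ℂ)) (c : ℂ) :
    J + (-c) • (1 : Module.End ℂ (Fin r → ℂ)) = J - c • (1 : Module.End ℂ (Fin r → ℂ)) := by
  refine LinearMap.ext fun v => ?_
  rw [LinearMap.add_apply, LinearMap.sub_apply, LinearMap.smul_apply, LinearMap.smul_apply,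
    neg_smul, sub_eq_add_neg]

lemma sg_le (hJx : S_cJx) {m r : ℕ} {b : Fin (r + 1) → ℕ} {u v : ℕ} {s : Fin (r + 1) → ℂ}
    (hs : Ad2 m b u v s) {θ : Module.End ℂ (Fin r → ℂ)} (hθ : Function.Injective θ)
    (hl : Lk m b u v s θ) :
    sg m r b u ≤ sg m r b v ∧ sg m r b (m - u) ≤ sg m r b (m - v) := by
  obtain ⟨h1, h2, h3, h4⟩ := hs
  obtain ⟨J, hJ, -, -, -, -, k1, k2⟩ := hJx m r b u s h1 h2
  obtain ⟨J', hJ', -, -, -, -, k1', k2'⟩ := hJx m r b v s h3 h4
  have e := hl J J' hJ hJ'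
  have s1 := dim_le hθ e (-Complex.I)
  have s2 := dim_le hθ e Complex.I
  rw [sub_form, sub_form, k1, k1'] at s1
  rw [k2, k2'] at s2
  exact ⟨s1, s2⟩

lemma coprime_sub {m u : ℕ} (hu : u < m) (h : u.Coprime m) : (m - u).Coprime m := by
  rw [Nat.coprime_self_sub_left hu.le]
  exact h

lemma admc_neg {m r : ℕ} {b : Fin (r + 1) → ℕ} {u : ℕ} {s : Fin (r + 1) → ℂ}
    (h : Admc m b u s) : Admc m b (m - u) s ∧ 0 < u ∧ u < m := by
  obtain ⟨h1, h2, h3, h4⟩ := h
  have h0 : 0 < u := by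
    rcases Nat.eq_zero_or_pos u with h0 | h0
    · rw [h0, Nat.coprime_zero_left] at h4
      have := h2.1
      omega
    · exact h0
  exact ⟨⟨h1, h2, by omega, coprime_sub h3 h4⟩, h0, h3⟩

lemma ndc_neg {m r : ℕ} {b : Fin (r + 1) → ℕ} {u : ℕ} {s : Fin (r + 1) → ℂ} (hu : u < m)
    (h : NDc m b u s) : NDc m b (m - u) s := by
  have hmm : m - (m - u) = u := by omega
  intro f g hf hg e
  rw [hmm] at hg e
  have e' : Pc m b u s g + star (Pc m b (m - u) s f) = 0 := by
    have := congrArg star e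
    rw [star_add, star_star, star_zero, add_comm] at this
    exact this
  obtain ⟨a1, a2⟩ := h g f hg hf e'
  exact ⟨a2, a1⟩

lemma isJc_cj {m r : ℕ} {b : Fin (r + 1) → ℕ} {u : ℕ} {s : Fin (r + 1) → ℂ} (hu : u < m)
    {J : Module.End ℂ (Fin r → ℂ)} (h : IsJc m b (m - u) s J) : IsJc m b u s (cj J) := by
  have hmm : m - (m - u) = u := by omega
  obtain ⟨h1, h2⟩ := h
  rw [hmm] at h2
  constructor
  · intro f hf
    rw [cj_apply, h2 f hf, star_smul, star_star]
    congr 1
    simp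
  · intro g hg
    rw [cj_apply, star_star, h1 g hg, star_smul]
    congr 1
    simp

lemma alg_star {z : ℂ} (h : IsAlgebraic ℚ z) : IsAlgebraic ℚ (star z) := by
  have := h.algHom ((Complex.conjAe.toAlgHom).restrictScalars ℚ)
  simpa using this

lemma star_single {r : ℕ} (k : Fin r) : star (Pi.single k (1 : ℂ)) = (Pi.single k (1 : ℂ) : Fin r → ℂ) := by
  funext i
  rw [Pi.star_apply]
  by_cases h : i = k
  · subst h; simp
  · rw [Pi.single_eq_of_ne h]; simp

lemma lkA_neg {m r : ℕ} {b : Fin (r + 1) → ℕ} {u v : ℕ} {s : Fin (r + 1) → ℂ} (hu : u < m)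
    (hv : v < m) (h : LkA m b u v s) : LkA m b (m - u) (m - v) s := by
  obtain ⟨θ, h1, h2, h3⟩ := h
  refine ⟨cj θ, ?_, ?_, ?_⟩
  · intro x y hxy
    rw [cj_apply, cj_apply] at hxy
    exact star_injective (h1 (star_injective hxy))
  · intro k l
    rw [cj_apply, star_single, Pi.star_apply]
    exact alg_star (h2 k l)
  · intro J J' hJ hJ'
    have e := h3 _ _ (isJc_cj hu hJ) (isJc_cj hv hJ')
    refine LinearMap.ext fun x => ?_
    have e' := congrArg (fun X : Module.End ℂ (Fin r → ℂ) => X (star x)) e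
    simp only [Module.End.mul_apply, cj_apply, star_star] at e' ⊢
    have := congrArg star e'
    rw [star_star] at this
    exact this

end eF_aux

open eF_aux in
theorem teF : S_eB → S_cJx → S_Sg → S_eF := by
  intro hB hJx hSg m r b u v hr huv h1 h2
  have hsum : ∀ s, Ad2 m b u v s → sg m r b u + sg m r b (m - u) = r ∧
      sg m r b v + sg m r b (m - v) = r := by
    intro s hs
    obtain ⟨⟨_, a2, a3, a4⟩, _, ⟨_, b2, b3, b4⟩, _⟩ := hs
    exact ⟨hSg m r s b a2 u a3 a4, hSg m r s b b2 v b3 b4⟩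
  have heq : ∀ s, Ad2 m b u v s → LkA m b u v s → sg m r b v = sg m r b u ∧
      sg m r b (m - v) = sg m r b (m - u) := by
    intro s hs hl
    obtain ⟨θ, t1, t2, t3⟩ := hl
    have := sg_le hJx hs t1 t3
    have := hsum s hs
    omega
  by_cases hne : ∃ s, Ad2 m b u v s ∧ LkA m b u v s
  swap
  · have : {s : Fin (r + 1) → ℂ | Ad2 m b u v s ∧ LkA m b u v s} = ∅ := by
      apply Set.eq_empty_of_forall_notMem
      intro s hs
      exact hne ⟨s, hs⟩
    rw [this]
    exact IsMeagre.empty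
  obtain ⟨s₀, hs₀, hl₀⟩ := hne
  obtain ⟨e1, e2⟩ := heq s₀ hs₀ hl₀
  obtain ⟨e3, e4⟩ := hsum s₀ hs₀
  by_cases h3 : 2 ≤ sg m r b u
  · exact hB m r b u v huv h3 e1 h2
  · obtain ⟨-, u0, um⟩ := admc_neg hs₀.1
    obtain ⟨-, v0, vm⟩ := admc_neg hs₀.2.2.1
    have hmm : m - (m - u) = u := by omega
    have hb := hB m r b (m - u) (m - v) (by omega) (by omega) e2 (by rw [hmm]; exact h1)
    refine hb.mono ?_
    rintro s ⟨⟨a1, a2, a3, a4⟩, hl⟩
    exact ⟨⟨(admc_neg a1).1, ndc_neg um a2, (admc_neg a3).1, ndc_neg vm a4⟩, lkA_neg um vm hl⟩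

end SEB
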