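import Pool.Agent.Lib.SE.Big.VG4
import Pool.Agent.Lib.SE.Big.cRk1
import Pool.Agent.Lib.SE.Big.cDj

/-!
# PROJECT SE, module IsBig, part 6: linked characters have equal exponents (helper70)
-/

set_option autoImplicit false

open Module MeasureTheory Topology

noncomputable section

namespace SEB

open HC HC.E HC.SE

namespace eM_aux

/-- If `x = c y` near `0` for all indices, with one common scalar function `c`, the derivatives satisfy
the product rule with one common derivative of `c`. -/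
theorem common {r : ℕ} {x y x₁ y₁ : ℝ → Fin r → ℂ} {x' y' x₁' y₁' : Fin r → ℂ}
    (hx : HasDerivAt x x' 0) (hy : HasDerivAt y y' 0)
    (hx₁ : HasDerivAt x₁ x₁' 0) (hy₁ : HasDerivAt y₁ y₁' 0) (hy0 : y 0 ≠ 0)
    (h : ∀ᶠ ε in 𝓝 (0 : ℝ), ∃ c : ℂ, x ε = c • y ε ∧ x₁ ε = c • y₁ ε) (c₀ : ℂ)
    (hc₀ : x 0 = c₀ • y 0) :
    ∃ c' : ℂ, x₁' = c₀ • y₁' + c' • y₁ 0 := by
  obtain ⟨k, hk⟩ : ∃ k, y 0 k ≠ 0 := by
    by_contra hcon
    push Not at hcon
    exact hy0 (funext hcon)
  have hxk := hasDerivAt_pi.1 hx k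
  have hyk := hasDerivAt_pi.1 hy k
  have hC := hxk.div hyk hk
  set c' : ℂ := (x' k * y 0 k - x 0 k * y' k) / y 0 k ^ 2 with hc'
  have hC0 : x 0 k / y 0 k = c₀ := by
    rw [hc₀, Pi.smul_apply, smul_eq_mul, mul_div_assoc, div_self hk, mul_one]
  have hP := hC.smul hy₁
  have hev : ∀ᶠ ε in 𝓝 (0 : ℝ), y ε k ≠ 0 :=
    hyk.continuousAt.eventually_ne hk
  have heq : x₁ =ᶠ[𝓝 (0 : ℝ)] fun ε => ((fun ε => x ε k) / fun ε => y ε k) ε • y₁ ε := by
    filter_upwards [h, hev] with ε hε hyε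
    obtain ⟨c, h1, h2⟩ := hε
    have h3 : ((fun ε => x ε k) / fun ε => y ε k) ε = c := by
      rw [Pi.div_apply, h1, Pi.smul_apply, smul_eq_mul, mul_div_assoc, div_self hyε, mul_one]
    rw [h3]
    exact h2
  have hD := (hP.congr_of_eventuallyEq heq).unique hx₁
  refine ⟨c', ?_⟩
  rw [← hD, Pi.div_apply, hC0]

/-- The derivative of `θ w`. -/
theorem deriv_theta {r : ℕ} (θ : Module.End ℂ (Fin r → ℂ)) {w : ℝ → Fin r → ℂ} {w' : Fin r → ℂ}
    (hw : HasDerivAt w w' 0) : HasDerivAt (fun ε => θ (w ε)) (θ w') 0 := by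
  have h := ((LinearMap.toContinuousLinearMap θ).restrictScalars ℝ).hasFDerivAt.comp_hasDerivAt
    (0 : ℝ) hw
  exact h

end eM_aux

open cRk1_aux cDj_aux eM_aux in
/-- THE EXPONENTS OF LINKED CHARACTERS ARE EQUAL. -/
theorem teM : S_eS → S_cPv → S_cKap → S_cD → S_cE → S_eM := by
  intro hS hPv hKap hD hE m r b u v U hU hUne hUA hUN θ hθ hLk hp hvp hneg j
  obtain ⟨s, hs⟩ := hUne
  obtain ⟨hAu, hNu, hAv, hNv⟩ := hUA s hs
  have hinj : Function.Injective s := hAu.2.1.2.1
  have hr : sg m r b u ≤ r := by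
    unfold sg
    refine (Finset.card_filter_le _ _).trans ?_
    rw [Finset.card_univ, Fintype.card_fin]
  set a : Polynomial ℂ := ac s j with ha
  set f : Polynomial ℂ := Polynomial.X - Polynomial.C (s j) with hf
  have h1d : (1 : Polynomial ℂ).degree < (sg m r b u : WithBot ℕ) := by
    rw [Polynomial.degree_one]
    exact_mod_cast (by omega : 0 < sg m r b u)
  have hfd : f.degree < (sg m r b u : WithBot ℕ) := by
    rw [hf, Polynomial.degree_X_sub_C]
    exact_mod_cast (by omega : 1 < sg m r b u)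
  set σ : ℝ → Fin (r + 1) → ℂ := fun ε i => s i + (ε : ℂ) * a.eval (s i) with hσ
  have hσ0 : σ 0 = s := by
    funext i
    simp [hσ]
  have hσc : Continuous σ := by
    refine continuous_pi fun i => ?_
    exact continuous_const.add (Complex.continuous_ofReal.mul continuous_const)
  have hev : ∀ᶠ ε in 𝓝 (0 : ℝ), σ ε ∈ U := by
    refine hσc.continuousAt.eventually_mem ?_
    rw [hσ0]
    exact hU.mem_nhds hs
  have hScal : ∀ s' ∈ U, ∃ c : ℂ, c ≠ 0 ∧ ∀ f : Polynomial ℂ,
      f.degree < (sg m r b u : WithBot ℕ) → θ (Pc m b u s' f) = c • Pc m b v s' f :=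
    fun s' hs' => hS m r b u v U hU hUA θ hθ hLk (by omega) hvp hneg s' hs' (hUN s' hs')
  obtain ⟨c₀, hc₀, hc₀f⟩ := hScal s hs
  -- injectivity of the period vectors
  have hkapv := (hKap m r b v s hAv).2.2.2
  have hinjv : ∀ g : Polynomial ℂ, g.degree < (r : WithBot ℕ) → Pc m b v s g = 0 → g = 0 := by
    intro g hg h0
    refine hUN s hs g hg fun k => ?_
    have h1 : kap m b v k * Ic (mu m b v) s k (fun x => g.eval x) = 0 := congrFun h0 k
    exact (mul_eq_zero.1 h1).resolve_left (hkapv k).1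
  have hr0 : (0 : WithBot ℕ) < (r : WithBot ℕ) := by
    exact_mod_cast (by omega : 0 < r)
  have hr1 : (1 : WithBot ℕ) < (r : WithBot ℕ) := by
    exact_mod_cast (by omega : 1 < r)
  have hy0 : Pc m b v (σ 0) 1 ≠ 0 := by
    rw [hσ0]
    intro h0
    have := hinjv 1 (by rw [Polynomial.degree_one]; exact hr0) h0
    exact one_ne_zero this
  have hDu := fun g => Pc_deriv hKap hD hAu a g
  have hDv := fun g => Pc_deriv hKap hD hAv a g
  obtain ⟨c', hc'⟩ := common (x := fun ε => θ (Pc m b u (σ ε) 1))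
    (y := fun ε => Pc m b v (σ ε) 1) (x₁ := fun ε => θ (Pc m b u (σ ε) f))
    (y₁ := fun ε => Pc m b v (σ ε) f) (deriv_theta θ (hDu 1)) (hDv 1)
    (deriv_theta θ (hDu f)) (hDv f) hy0
    (by
      filter_upwards [hev] with ε hε
      obtain ⟨c, _, hc⟩ := hScal _ hε
      exact ⟨c, hc 1 h1d, hc f hfd⟩) c₀ (by simp only [hσ0]; exact hc₀f 1 h1d)
  simp only [hσ0] at hc'
  -- the derivatives
  have hEu : ∀ (w : ℕ), Admc m b w s → Pc m b w s (Thc (mu m b w) s a f) =
      (mu m b w j : ℂ) • Pc m b w s 1 := by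
    intro w hw
    obtain ⟨hadd, hsm⟩ := hPv m r b w s hw
    have hQ : Pc m b w s (Thc (mu m b w) s (Q s) 1) = 0 := by
      funext k
      have h1 : Ic (mu m b w) s k (fun x => (Thc (mu m b w) s (Q s) 1).eval x) = 0 :=
        hE r (mu m b w) s (hKap m r b w s hw).2.1 hw.1 1 k
      change kap m b w k * Ic (mu m b w) s k (fun x => (Thc (mu m b w) s (Q s) 1).eval x) = 0
      rw [h1, mul_zero]
    have h2 : f = f * 1 := (mul_one f).symm
    rw [h2, hf, ha, Th_ac (mu m b w) s hinj j 1, hadd, hsm, hsm, hQ, smul_zero, zero_add]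
  rw [hEu u hAu, hEu v hAv, map_smul, hc₀f 1 h1d] at hc'
  obtain ⟨hadd, hsm⟩ := hPv m r b v s hAv
  set g : Polynomial ℂ := Polynomial.C (c₀ * ((mu m b u j : ℂ) - (mu m b v j : ℂ))) * 1 +
    Polynomial.C (-c') * f with hg
  have hg0 : Pc m b v s g = 0 := by
    rw [hg, hadd, hsm, hsm]
    have h3 : (c₀ * ((mu m b u j : ℂ) - (mu m b v j : ℂ))) • Pc m b v s 1 + -c' • Pc m b v s f =
        (mu m b u j : ℂ) • c₀ • Pc m b v s 1 -
          (c₀ • (mu m b v j : ℂ) • Pc m b v s 1 + c' • Pc m b v s f) := by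
      module
    rw [h3, hc', sub_self]
  have hgd : g.degree < (r : WithBot ℕ) := by
    rw [hg]
    refine lt_of_le_of_lt (Polynomial.degree_add_le _ _) (max_lt ?_ ?_)
    · rw [mul_one]
      exact lt_of_le_of_lt Polynomial.degree_C_le hr0
    · have h4 : (Polynomial.C (-c') * f).degree ≤ f.degree := by
        rw [Polynomial.degree_mul]
        calc _ ≤ 0 + f.degree := add_le_add Polynomial.degree_C_le le_rfl
          _ = _ := zero_add _
      refine lt_of_le_of_lt h4 ?_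
      rw [hf, Polynomial.degree_X_sub_C]
      exact hr1
  have hgz := hinjv g hgd hg0
  have h4 := congrArg (fun q : Polynomial ℂ => q.eval (s j)) hgz
  simp only [hg, hf, Polynomial.eval_add, Polynomial.eval_mul, Polynomial.eval_C,
    mul_one, Polynomial.eval_sub, Polynomial.eval_X, sub_self, mul_zero,
    add_zero, Polynomial.eval_zero] at h4
  have h5 := (mul_eq_zero.1 h4).resolve_left hc₀
  have h6 : (mu m b u j : ℂ) = (mu m b v j : ℂ) := sub_eq_zero.1 h5
  exact_mod_cast h6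

end SEB
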