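import Pool.Agent.Lib.SE.Big.VG4
import Pool.Agent.Lib.SE.Big.cN

/-! # PROJECT SE, module IsBig, part 6, module eO: openness of the set `Nj` (helper13) -/

set_option autoImplicit false

open Module MeasureTheory Topology

noncomputable section

namespace SEB

open HC HC.E HC.SE

namespace eO_aux

open cN_aux

lemma det_ne (hI : S_cI) {r : ℕ} {μ : Fin (r + 1) → ℝ} (hμ : Exq μ) {s : Fin (r + 1) → ℂ}
    (hs : Inc s) (hN : Nj μ s) : (Mc μ s).det ≠ 0 := by
  intro hd
  obtain ⟨v, hv, h0⟩ := Matrix.exists_vecMul_eq_zero_iff.2 hd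
  apply hv
  set f : Polynomial ℂ := ∑ d : Fin r, Polynomial.C (v d) * Polynomial.X ^ (d : ℕ) with hf
  have hdeg : f.degree < (r : WithBot ℕ) := by
    rw [hf]
    refine lt_of_le_of_lt (Polynomial.degree_sum_le _ _) ?_
    refine (Finset.sup_lt_iff (WithBot.bot_lt_coe r)).2 fun d _ => ?_
    exact lt_of_le_of_lt (Polynomial.degree_C_mul_X_pow_le _ _) (WithBot.coe_lt_coe.2 d.2)
  have hco : ∀ d : Fin r, f.coeff d = v d := by
    intro d
    rw [hf, Polynomial.finsetSum_coeff]
    simp only [Polynomial.coeff_C_mul, Polynomial.coeff_X_pow]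
    rw [Finset.sum_eq_single d]
    · simp
    · intro e _ he
      rw [if_neg (fun h => he (Fin.ext h.symm)), mul_zero]
    · intro h
      exact absurd (Finset.mem_univ d) h
  have hz : f = 0 := by
    refine hN f hdeg fun k => ?_
    rw [Ic_expand hI hμ hs k f hdeg]
    have h1 := congrFun h0 k
    simp only [Matrix.vecMul, dotProduct, Pi.zero_apply] at h1
    rw [← h1]
    exact Finset.sum_congr rfl fun d _ => by rw [hco]
  funext d
  rw [← hco d, hz, Polynomial.coeff_zero]
  rfl

end eO_aux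

open eO_aux cN_aux

theorem teO : S_cI → S_cC → S_eO := by
  intro hI hC r μ hμ
  have hU := (hI.2 r μ).1
  have he : {s : Fin (r + 1) → ℂ | Inc s ∧ Nj μ s} =
      {s : Fin (r + 1) → ℂ | Inc s} ∩ (fun s => (Mc μ s).det) ⁻¹' {0}ᶜ := by
    ext s
    constructor
    · rintro ⟨hs, hN⟩
      exact ⟨hs, det_ne hI hμ hs hN⟩
    · rintro ⟨hs, hN⟩
      refine ⟨hs, ?_⟩
      by_contra hN'
      exact hN (det_zero hI hμ hs hN')
  rw [he]
  exact (det_cont hC hμ).isOpen_inter_preimage hU isOpen_compl_singleton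

end SEB
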