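import Pool.Agent.Lib.SE.Big.VG4
import Pool.Agent.Lib.SE.Big.cRk1

/-!
# PROJECT SE, module IsBig, part 6: a link is a scalar (module eS)
-/

set_option autoImplicit false

open Module

noncomputable section

namespace SEB

open HC HC.E HC.SE

namespace eS_aux

open cRk1_aux

theorem Pc_zero {m r : ℕ} (b : Fin (r + 1) → ℕ) (u : ℕ) (s : Fin (r + 1) → ℂ) :
    Pc m b u s 0 = 0 := by
  funext k
  simp [Pc, Ic]

theorem natDegree_ac_eq {r : ℕ} (s : Fin (r + 1) → ℂ) (hs : Function.Injective s)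
    (j : Fin (r + 1)) : (ac s j).natDegree = r := by
  have hcc : cc s j ≠ 0 := by
    unfold cc
    refine inv_ne_zero (Finset.prod_ne_zero_iff.2 fun k hk => ?_)
    rw [Finset.mem_erase] at hk
    rw [sub_ne_zero]
    exact fun h => hk.1 (hs h).symm
  rw [ac, Polynomial.natDegree_C_mul hcc, Polynomial.natDegree_prod_of_monic _ _
    (fun l _ => Polynomial.monic_X_sub_C (s l))]
  rw [Finset.sum_congr rfl fun l _ => Polynomial.natDegree_X_sub_C (s l), Finset.sum_const,
    Finset.card_erase_of_mem (Finset.mem_univ j), Finset.card_univ, Fintype.card_fin]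
  simp

/-- The data at one point and one character. -/
structure Dt (m r : ℕ) (b : Fin (r + 1) → ℕ) (u : ℕ) (s : Fin (r + 1) → ℂ) : Prop where
  inj : Function.Injective s
  add : ∀ f g, Pc m b u s (f + g) = Pc m b u s f + Pc m b u s g
  sm : ∀ (c : ℂ) (f : Polynomial ℂ), Pc m b u s (Polynomial.C c * f) = c • Pc m b u s f
  ex : ∀ f : Polynomial ℂ, Pc m b u s (Thc (mu m b u) s (Q s) f) = 0
  mu : ∀ n : ℤ, ∑ j, mu m b u j ≠ n
  sgm : sg m r b u + sg m r b (m - u) = r

theorem mkDt (hPv : S_cPv) (hKap : S_cKap) (hE : S_cE) (hSg : S_Sg) {m r : ℕ}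
    {b : Fin (r + 1) → ℕ} {u : ℕ} {s : Fin (r + 1) → ℂ} (hA : Admc m b u s) :
    Dt m r b u s := by
  obtain ⟨hadd, hsm⟩ := hPv m r b u s hA
  obtain ⟨hI, hcov, hum, huc⟩ := hA
  obtain ⟨-, hExq, hmu, -⟩ := hKap m r b u s ⟨hI, hcov, hum, huc⟩
  refine ⟨hcov.2.1, hadd, hsm, fun f => ?_, hmu, hSg m r _ b hcov u hum huc⟩
  funext k
  have h1 : Ic (SEB.mu m b u) s k (fun x => (Thc (SEB.mu m b u) s (Q s) f).eval x) = 0 :=
    hE r (SEB.mu m b u) s hExq hI f k
  change kap m b u k * Ic (SEB.mu m b u) s k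
    (fun x => (Thc (SEB.mu m b u) s (Q s) f).eval x) = 0
  rw [h1, mul_zero]

section
variable {m r : ℕ} {b : Fin (r + 1) → ℕ} {u : ℕ} {s : Fin (r + 1) → ℂ}

theorem Dt.sub (D : Dt m r b u s) (f g : Polynomial ℂ) :
    Pc m b u s (f - g) = Pc m b u s f - Pc m b u s g := by
  have h1 := D.add (f - g) g
  rw [sub_add_cancel] at h1
  rw [h1, add_sub_cancel_right]

/-- The period vector of the derivative along `a_j` of `(X - s_j) f`. -/
theorem Dt.Th_ac (D : Dt m r b u s) (j : Fin (r + 1)) (f : Polynomial ℂ) :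
    Pc m b u s (Thc (SEB.mu m b u) s (ac s j)
      ((Polynomial.X - Polynomial.C (s j)) * f)) = (SEB.mu m b u j : ℂ) • Pc m b u s f := by
  rw [cRk1_aux.Th_ac (SEB.mu m b u) s D.inj, D.add, D.sm, D.sm, D.ex, smul_zero, zero_add]

theorem split (f : Polynomial ℂ) (c : ℂ) :
    f = Polynomial.C (f.eval c) * 1 +
      (Polynomial.X - Polynomial.C c) * (f /ₘ (Polynomial.X - Polynomial.C c)) := by
  rw [mul_dv]
  ring

theorem Dt.Th_all (D : Dt m r b u s) (j : Fin (r + 1)) (f : Polynomial ℂ) :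
    Pc m b u s (Thc (SEB.mu m b u) s (ac s j) f) =
      f.eval (s j) • Pc m b u s (Thc (SEB.mu m b u) s (ac s j) 1) +
        (SEB.mu m b u j : ℂ) • Pc m b u s (f /ₘ (Polynomial.X - Polynomial.C (s j))) := by
  conv_lhs => rw [split f (s j)]
  rw [Th_add, Th_C_mul, D.add, D.sm, D.Th_ac]

/-- The period vector of `Thc a_j 1` is not in the span of the vectors of degree `< p`. -/
theorem Dt.nsp (D : Dt m r b u s)
    (hinj : ∀ f : Polynomial ℂ, f.degree < (r : WithBot ℕ) → Pc m b u s f = 0 → f = 0)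
    {p : ℕ} (hp : p + 1 ≤ r) (j : Fin (r + 1)) (c : ℂ) (h : Polynomial ℂ)
    (hd : h.degree < (p : WithBot ℕ))
    (he : c • Pc m b u s (Thc (SEB.mu m b u) s (ac s j) 1) = Pc m b u s h) : c = 0 := by
  obtain ⟨n, rfl⟩ : ∃ n, r = n + 1 := ⟨r - 1, by omega⟩
  have hnd := natDegree_ac_eq s D.inj j
  have ha0 : ac s j ≠ 0 := by
    intro h0
    rw [h0, Polynomial.natDegree_zero] at hnd
    omega
  have hThd := Th_one_degree (SEB.mu m b u) s ha0
  have had : (ac s j).degree ≤ ((n + 1 : ℕ) : WithBot ℕ) :=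
    Polynomial.degree_le_of_natDegree_le hnd.le
  have hpn : ((p : ℕ) : WithBot ℕ) ≤ ((n + 1 : ℕ) : WithBot ℕ) := by
    exact_mod_cast (by omega : p ≤ n + 1)
  have hz : Polynomial.C c * Thc (SEB.mu m b u) s (ac s j) 1 - h = 0 := by
    refine hinj _ ?_ ?_
    · refine lt_of_le_of_lt (Polynomial.degree_sub_le _ _) (max_lt ?_ ?_)
      · refine lt_of_le_of_lt ?_ (lt_of_lt_of_le hThd had)
        rw [Polynomial.degree_mul]
        calc _ ≤ 0 + (Thc (SEB.mu m b u) s (ac s j) 1).degree :=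
              add_le_add Polynomial.degree_C_le le_rfl
          _ = _ := zero_add _
      · exact lt_of_lt_of_le hd hpn
    · rw [D.sub, D.sm, he, sub_self]
  have hco := congrArg (fun g : Polynomial ℂ => g.coeff n) hz
  simp only [Polynomial.coeff_sub, Polynomial.coeff_C_mul, Polynomial.coeff_zero] at hco
  rw [Th_one_coeff (SEB.mu m b u) s hnd, Polynomial.coeff_eq_zero_of_degree_lt
    (lt_of_lt_of_le hd (by exact_mod_cast (by omega : p ≤ n))), sub_zero] at hco
  rcases mul_eq_zero.1 hco with h1 | h1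
  · exact h1
  · exfalso
    rcases mul_eq_zero.1 h1 with h2 | h2
    · apply D.mu ((n : ℤ) + 1)
      have h4 : ((∑ j, SEB.mu m b u j : ℝ) : ℂ) = (((n : ℤ) + 1 : ℤ) : ℂ) := by
        push_cast
        linear_combination -h2
      exact_mod_cast h4
    · refine ha0 (Polynomial.leadingCoeff_eq_zero.1 ?_)
      rw [Polynomial.leadingCoeff, hnd]
      exact h2

end

/-- A linear operator on the polynomials of degree `< p`. -/
theorem mkT {p : ℕ} (G : Polynomial ℂ → Polynomial ℂ)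
    (h1 : ∀ f : Polynomial ℂ, f.degree < (p : WithBot ℕ) → (G f).degree < (p : WithBot ℕ))
    (h2 : ∀ f g : Polynomial ℂ, f.degree < (p : WithBot ℕ) → g.degree < (p : WithBot ℕ) →
      G (f + g) = G f + G g)
    (h3 : ∀ (c : ℂ) (f : Polynomial ℂ), f.degree < (p : WithBot ℕ) → G (c • f) = c • G f) :
    ∃ T : Polynomial.degreeLT ℂ p →ₗ[ℂ] Polynomial.degreeLT ℂ p,
      ∀ f, (T f : Polynomial ℂ) = G f := by
  have hmem : ∀ f : Polynomial.degreeLT ℂ p,
      (f : Polynomial ℂ).degree < (p : WithBot ℕ) := fun f =>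
    Polynomial.mem_degreeLT.1 f.2
  refine ⟨{ toFun := fun f => ⟨G f, Polynomial.mem_degreeLT.2 (h1 f (hmem f))⟩
            map_add' := fun f g => Subtype.ext (h2 f g (hmem f) (hmem g))
            map_smul' := fun c f => Subtype.ext (h3 c f (hmem f)) }, fun f => rfl⟩

end eS_aux

open eS_aux cRk1_aux in
theorem teS : S_eT → S_eD → S_cPv → S_cKap → S_cE → S_cJx → S_Sg → S_eS := by
  intro hT hD hPv hKap hE hJx hSg m r b u v U hU hAd θ hθ hLk hu hvu hmu s hs hNj
  obtain ⟨hAu, hNu, hAv, hNv⟩ := hAd s hs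
  have Du := mkDt hPv hKap hE hSg hAu
  have Dv := mkDt hPv hKap hE hSg hAv
  obtain ⟨-, -, -, hkap⟩ := hKap m r b v s hAv
  have hinj : ∀ f : Polynomial ℂ, f.degree < (r : WithBot ℕ) → Pc m b v s f = 0 → f = 0 := by
    intro f hf h0
    refine hNj f hf fun k => ?_
    have h1 : kap m b v k * Ic (mu m b v) s k (fun x => f.eval x) = 0 := congrFun h0 k
    exact (mul_eq_zero.1 h1).resolve_left (hkap k).1
  have hsg := Du.sgm
  set p := sg m r b u with hp
  have hpr : p + 1 ≤ r := by omega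
  have hprW : ((p : ℕ) : WithBot ℕ) ≤ ((r : ℕ) : WithBot ℕ) := by
    exact_mod_cast (by omega : p ≤ r)
  obtain ⟨Ju, hJu, -, -, -, -, -, -⟩ := hJx m r b u s hAu hNu
  obtain ⟨Jv, hJv, -, -, hplus, -, -, -⟩ := hJx m r b v s hAv hNv
  have hcomm := hLk s hs Ju Jv hJu hJv
  -- the image of a form of the first kind
  have hex : ∀ f : Polynomial ℂ, f.degree < (p : WithBot ℕ) →
      ∃ g : Polynomial ℂ, g.degree < (p : WithBot ℕ) ∧ θ (Pc m b u s f) = Pc m b v s g := by
    intro f hf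
    have h1 : Jv (θ (Pc m b u s f)) = Complex.I • θ (Pc m b u s f) := by
      have h2 := congrArg (fun T : Module.End ℂ (Fin r → ℂ) => T (Pc m b u s f)) hcomm
      simp only [Module.End.mul_apply] at h2
      rw [← h2, hJu.1 f hf, map_smul]
    obtain ⟨g, hg, hge⟩ := (hplus _).1 h1
    rw [hvu] at hg
    exact ⟨g, hg, hge⟩
  have hun : ∀ g g' : Polynomial ℂ, g.degree < (p : WithBot ℕ) → g'.degree < (p : WithBot ℕ) →
      Pc m b v s g = Pc m b v s g' → g = g' := by
    intro g g' hg hg' h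
    rw [← sub_eq_zero]
    refine hinj _ ?_ ?_
    · exact lt_of_le_of_lt (Polynomial.degree_sub_le _ _)
        (max_lt (lt_of_lt_of_le hg hprW) (lt_of_lt_of_le hg' hprW))
    · rw [Dv.sub, h, sub_self]
  choose! G hG1 hG2 using hex
  have hmem : ∀ f : Polynomial.degreeLT ℂ p,
      (f : Polynomial ℂ).degree < (p : WithBot ℕ) := fun f =>
    Polynomial.mem_degreeLT.1 f.2
  have hGadd : ∀ f g : Polynomial ℂ, f.degree < (p : WithBot ℕ) → g.degree < (p : WithBot ℕ) →
      G (f + g) = G f + G g := by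
    intro f g hf hg
    have hfg : (f + g).degree < (p : WithBot ℕ) :=
      lt_of_le_of_lt (Polynomial.degree_add_le _ _) (max_lt hf hg)
    refine hun _ _ (hG1 _ hfg) ?_ ?_
    · exact lt_of_le_of_lt (Polynomial.degree_add_le _ _) (max_lt (hG1 _ hf) (hG1 _ hg))
    · rw [← hG2 _ hfg, Du.add, Dv.add, map_add, hG2 _ hf, hG2 _ hg]
  have hdC : ∀ (c : ℂ) (q : Polynomial ℂ), q.degree < (p : WithBot ℕ) →
      (Polynomial.C c * q).degree < (p : WithBot ℕ) := by
    intro c q hq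
    refine lt_of_le_of_lt ?_ hq
    rw [Polynomial.degree_mul]
    calc _ ≤ 0 + q.degree := add_le_add Polynomial.degree_C_le le_rfl
      _ = _ := zero_add _
  have hGsm : ∀ (c : ℂ) (f : Polynomial ℂ), f.degree < (p : WithBot ℕ) →
      G (c • f) = c • G f := by
    intro c f hf
    rw [Polynomial.smul_eq_C_mul, Polynomial.smul_eq_C_mul]
    refine hun _ _ (hG1 _ (hdC c f hf)) (hdC c _ (hG1 _ hf)) ?_
    rw [← hG2 _ (hdC c f hf), Du.sm, Dv.sm, map_smul, hG2 _ hf]
  obtain ⟨T, hTG⟩ : ∃ T : Polynomial.degreeLT ℂ p →ₗ[ℂ] Polynomial.degreeLT ℂ p,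
      ∀ f, (T f : Polynomial ℂ) = G f := mkT G hG1 hGadd hGsm
  have hTe : ∀ f : Polynomial.degreeLT ℂ p,
      θ (Pc m b u s (f : Polynomial ℂ)) = Pc m b v s (T f : Polynomial ℂ) := fun f => by
    rw [hTG, hG2 _ (hmem f)]
  -- zeros
  have hzero : ∀ (j : Fin (r + 1)) (f : Polynomial.degreeLT ℂ p),
      (f : Polynomial ℂ).eval (s j) = 0 → (T f : Polynomial ℂ).eval (s j) = 0 := by
    intro j f hf
    set f1 := (f : Polynomial ℂ) /ₘ (Polynomial.X - Polynomial.C (s j)) with hf1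
    have hf1d : f1.degree < (p : WithBot ℕ) :=
      lt_of_le_of_lt (Polynomial.degree_divByMonic_le _ _) (hmem f)
    set g : Polynomial ℂ := (T f : Polynomial ℂ) with hg
    have hgd : g.degree < (p : WithBot ℕ) := hmem (T f)
    set g1 := g /ₘ (Polynomial.X - Polynomial.C (s j)) with hg1
    have hg1d : g1.degree < (p : WithBot ℕ) :=
      lt_of_le_of_lt (Polynomial.degree_divByMonic_le _ _) hgd
    obtain ⟨g', hg'd, hg'⟩ := hD m r b u v U hU hAd θ hLk s hs f g (hmem f)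
      (by rw [hvu]; exact hgd) (hTe f) (ac s j)
    rw [hvu] at hg'd
    rw [Du.Th_all, Dv.Th_all, hf, zero_smul, zero_add, map_smul, ← hf1, ← hg1,
      hG2 f1 hf1d] at hg'
    refine Dv.nsp hinj hpr j (g.eval (s j))
      (Polynomial.C (mu m b u j : ℂ) * G f1 - g' - Polynomial.C (mu m b v j : ℂ) * g1) ?_ ?_
    · refine lt_of_le_of_lt (Polynomial.degree_sub_le _ _) (max_lt ?_ (hdC _ _ hg1d))
      exact lt_of_le_of_lt (Polynomial.degree_sub_le _ _) (max_lt (hdC _ _ (hG1 f1 hf1d)) hg'd)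
    · rw [Dv.sub, Dv.sub, Dv.sm, Dv.sm, hg']
      abel
  obtain ⟨c, hc⟩ := hT p (fun j => s (Fin.castLE (by omega) j))
    (fun i j h => Fin.castLE_injective _ (Du.inj h)) T (fun j f hf => hzero _ f hf)
  have hfin : ∀ f : Polynomial ℂ, f.degree < (p : WithBot ℕ) →
      θ (Pc m b u s f) = c • Pc m b v s f := by
    intro f hf
    have h1 := hTe ⟨f, Polynomial.mem_degreeLT.2 hf⟩
    rw [hc] at h1
    change θ (Pc m b u s f) = Pc m b v s (c • f) at h1
    rw [h1, Polynomial.smul_eq_C_mul, Dv.sm]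
  refine ⟨c, ?_, hfin⟩
  rintro rfl
  have h1d : (1 : Polynomial ℂ).degree < (p : WithBot ℕ) := by
    rw [Polynomial.degree_one]
    exact_mod_cast (by omega : 0 < p)
  have h2 := hfin 1 h1d
  rw [zero_smul] at h2
  have h3 : Pc m b u s 1 = 0 := hθ (by rw [h2, map_zero])
  have h4 := (hNu 1 0 h1d (by rw [Polynomial.degree_zero]; exact WithBot.bot_lt_coe _)
    (by rw [h3, Pc_zero, star_zero, add_zero])).1
  exact one_ne_zero h4

end SEB
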