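import Pool.Agent.Lib.SE.Big.VG4

/-!
# PROJECT SE, module IsBig, part 6, module eT: an operator on polynomials which preserves zeros
-/

set_option autoImplicit false

open Module MeasureTheory Topology

noncomputable section

namespace SEB

open HC HC.E HC.SE

namespace eT_aux

open Polynomial in
theorem deg_prod {p : ℕ} (hp : 0 < p) (x : Fin (p + 1) → ℂ) (i j : Fin (p + 1)) (hij : i ≠ j) :
    (∏ k ∈ (Finset.univ.erase i).erase j, (X - C (x k)) : Polynomial ℂ).degree < (p : WithBot ℕ) := by
  rw [Polynomial.degree_prod]
  simp only [Polynomial.degree_X_sub_C, Finset.sum_const]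
  have hc : ((Finset.univ.erase i).erase j : Finset (Fin (p + 1))).card = p - 1 := by
    rw [Finset.card_erase_of_mem (Finset.mem_erase.2 ⟨hij.symm, Finset.mem_univ _⟩),
      Finset.card_erase_of_mem (Finset.mem_univ _), Finset.card_univ, Fintype.card_fin]
    omega
  rw [hc, nsmul_one]
  exact_mod_cast (by omega : p - 1 < p)

end eT_aux

open eT_aux Polynomial in
/-- Module eT. -/
theorem teT : S_eT := by
  intro p x hx T hT
  rcases Nat.eq_zero_or_pos p with rfl | hp
  · refine ⟨0, fun f => ?_⟩
    have h0 : ∀ g : Polynomial.degreeLT ℂ 0, g = 0 := by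
      intro g
      have h1 := Polynomial.mem_degreeLT.1 g.2
      have h2 : (g : Polynomial ℂ) = 0 := by
        by_contra h3
        have h4 := Polynomial.zero_le_degree_iff.2 h3
        exact absurd h1 (not_lt.2 (by simpa using h4))
      exact Subtype.ext h2
    rw [h0 (T f), h0 ((0 : ℂ) • f)]
  · have h1mem : (1 : Polynomial ℂ) ∈ Polynomial.degreeLT ℂ p := by
      rw [Polynomial.mem_degreeLT, Polynomial.degree_one]
      exact_mod_cast hp
    let one : Polynomial.degreeLT ℂ p := ⟨1, h1mem⟩
    let lam : Fin (p + 1) → ℂ := fun i => (T one : Polynomial ℂ).eval (x i)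
    have h1 : ∀ i (f : Polynomial.degreeLT ℂ p), (T f : Polynomial ℂ).eval (x i) =
        lam i * (f : Polynomial ℂ).eval (x i) := by
      intro i f
      have h2 := hT i (f - (f : Polynomial ℂ).eval (x i) • one) (by simp [one])
      rw [map_sub, map_smul] at h2
      simp only [Submodule.coe_sub, Submodule.coe_smul, Polynomial.eval_sub,
        Polynomial.eval_smul, smul_eq_mul] at h2
      simp only [lam]
      linear_combination h2
    have h2 : ∀ i j, i ≠ j → lam i = lam j := by
      intro i j hij
      have hd := deg_prod hp x i j hij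
      let F : Polynomial.degreeLT ℂ p :=
        ⟨∏ k ∈ (Finset.univ.erase i).erase j, (X - C (x k)), Polynomial.mem_degreeLT.2 hd⟩
      have hFk : ∀ k, k ≠ i → k ≠ j → (F : Polynomial ℂ).eval (x k) = 0 := by
        intro k hki hkj
        simp only [F, Polynomial.eval_prod]
        exact Finset.prod_eq_zero (i := k) (Finset.mem_erase.2 ⟨hkj,
          Finset.mem_erase.2 ⟨hki, Finset.mem_univ _⟩⟩) (by simp)
      have hFj : (F : Polynomial ℂ).eval (x j) ≠ 0 := by
        simp only [F, Polynomial.eval_prod, Polynomial.eval_sub, Polynomial.eval_X,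
          Polynomial.eval_C]
        refine Finset.prod_ne_zero_iff.2 fun k hk => ?_
        exact sub_ne_zero.2 fun h => (Finset.mem_erase.1 hk).1 (hx h).symm
      have hG : (((T F - lam i • F : Polynomial.degreeLT ℂ p)) : Polynomial ℂ) = 0 := by
        refine Polynomial.eq_zero_of_degree_lt_of_eval_index_eq_zero (s := Finset.univ.erase j)
          (hx.injOn) ?_ ?_
        · rw [Finset.card_erase_of_mem (Finset.mem_univ _), Finset.card_univ, Fintype.card_fin,
            Nat.add_sub_cancel]
          exact Polynomial.mem_degreeLT.1 (T F - lam i • F).2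
        · intro k hk
          simp only [Submodule.coe_sub, Submodule.coe_smul, Polynomial.eval_sub,
            Polynomial.eval_smul, smul_eq_mul, h1]
          by_cases hki : k = i
          · rw [hki, sub_self]
          · rw [hFk k hki (Finset.mem_erase.1 hk).1, mul_zero, mul_zero, sub_self]
      have h3 := congrArg (fun g : Polynomial ℂ => g.eval (x j)) hG
      simp only [Submodule.coe_sub, Submodule.coe_smul, Polynomial.eval_sub,
        Polynomial.eval_smul, smul_eq_mul, h1, Polynomial.eval_zero] at h3
      have h4 : (lam j - lam i) * (F : Polynomial ℂ).eval (x j) = 0 := by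
        linear_combination h3
      have h5 := (mul_eq_zero.1 h4).resolve_right hFj
      linear_combination -h5
    refine ⟨lam 0, fun f => ?_⟩
    have h3 : ∀ i, lam i = lam 0 := by
      intro i
      by_cases hi : i = 0
      · rw [hi]
      · exact h2 i 0 hi
    have hG : (((T f - lam 0 • f : Polynomial.degreeLT ℂ p)) : Polynomial ℂ) = 0 := by
      refine Polynomial.eq_zero_of_degree_lt_of_eval_index_eq_zero (s := Finset.univ)
        (hx.injOn) ?_ ?_
      · rw [Finset.card_univ, Fintype.card_fin]
        refine lt_of_lt_of_le (Polynomial.mem_degreeLT.1 (T f - lam 0 • f).2) ?_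
        exact_mod_cast Nat.le_succ p
      · intro k _
        simp only [Submodule.coe_sub, Submodule.coe_smul, Polynomial.eval_sub,
          Polynomial.eval_smul, smul_eq_mul, h1, h3, sub_self]
    have h4 : T f - lam 0 • f = 0 := Subtype.ext hG
    exact sub_eq_zero.1 h4

end SEB
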