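import Pool.Agent.Lib.SE.Big.VG4
import Pool.Agent.Lib.SE.Big.At0
import Pool.Agent.Lib.SE.Big.Per
import Pool.Agent.Lib.SE.Big.cHit


/-!
# PROJECT SE, module IsBig, part 6: coordinates of a link, algebraic entries
-/

set_option autoImplicit false

open Module

noncomputable section

namespace SEB

open HC HC.E HC.SE

namespace fA_aux

open At0_aux Per_aux cHit_aux

/-! ### a system of linear equations with algebraic coefficients -/

theorem alg_sol {n : ℕ} (Θ : Matrix (Fin n) (Fin n) ℂ) (hΘ : Θ ≠ 0) :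
    ∃ B : Matrix (Fin n) (Fin n) ℂ, B ≠ 0 ∧ (∀ i j, IsAlgebraic ℚ (B i j)) ∧
      ∀ P Q : Matrix (Fin n) (Fin n) ℂ, (∀ i j, IsAlgebraic ℚ (P i j)) →
        (∀ i j, IsAlgebraic ℚ (Q i j)) → Θ * P = Q * Θ → B * P = Q * B := by
  classical
  obtain ⟨i0, j0, h0⟩ : ∃ i j, Θ i j ≠ 0 := by
    by_contra hc
    push Not at hc
    exact hΘ (by ext i j; exact hc i j)
  let K := algebraicClosure ℚ ℂ
  have hker : LinearMap.ker (LinearMap.toSpanSingleton K ℂ (Θ i0 j0)) = ⊥ := by
    rw [LinearMap.ker_eq_bot']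
    intro x hx
    have h1 : (x : ℂ) * Θ i0 j0 = 0 := hx
    rcases mul_eq_zero.1 h1 with h2 | h2
    · exact Subtype.ext h2
    · exact absurd h2 h0
  obtain ⟨f, hf⟩ := LinearMap.exists_leftInverse_of_injective _ hker
  have hf1 : f (Θ i0 j0) = 1 := by
    have h1 := LinearMap.congr_fun hf 1
    simpa using h1
  have hfs : ∀ (x : K) (z : ℂ), f ((x : ℂ) * z) = x * f z := fun x z => f.map_smul x z
  refine ⟨Matrix.of fun i j => ((f (Θ i j) : K) : ℂ), ?_, ?_, ?_⟩
  · intro h1
    have h2 : ((f (Θ i0 j0) : K) : ℂ) = 0 := congrFun (congrFun h1 i0) j0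
    rw [hf1] at h2
    exact one_ne_zero h2
  · intro i j
    exact mem_algebraicClosure_iff.1 (f (Θ i j)).2
  · intro P Q hP hQ hPQ
    ext i j
    have h1 : (Θ * P) i j = (Q * Θ) i j := by rw [hPQ]
    rw [Matrix.mul_apply, Matrix.mul_apply] at h1 ⊢
    simp only [Matrix.of_apply]
    have h2 := congrArg (fun z : ℂ => ((f z : K) : ℂ)) h1
    simp only [map_sum] at h2
    have h3 : ∀ l, f (Θ i l * P l j) = f (Θ i l) * ⟨P l j, mem_algebraicClosure_iff.2 (hP l j)⟩ := by
      intro l
      rw [mul_comm (Θ i l), mul_comm (f (Θ i l))]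
      exact hfs ⟨P l j, mem_algebraicClosure_iff.2 (hP l j)⟩ (Θ i l)
    have h4 : ∀ l, f (Q i l * Θ l j) = ⟨Q i l, mem_algebraicClosure_iff.2 (hQ i l)⟩ * f (Θ l j) := by
      intro l
      exact hfs ⟨Q i l, mem_algebraicClosure_iff.2 (hQ i l)⟩ (Θ l j)
    simp only [h3, h4] at h2
    simpa using h2

theorem tm_apply {n : ℕ} (A : Module.End ℂ (Fin n → ℂ)) (i j : Fin n) :
    LinearMap.toMatrix' A i j = A (Pi.single j 1) i :=
  LinearMap.toMatrix'_apply A i j

/-! ### scalars -/

theorem scal {n : ℕ} (hn : 2 ≤ n) (M : Module.End ℂ (Fin n → ℂ))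
    (hM : ∀ A : Module.End ℂ (Fin n → ℂ), LinearMap.trace ℂ _ A = 0 → M * A = A * M) :
    ∃ c : ℂ, M = c • 1 := by
  classical
  have key : ∀ i j : Fin n, i ≠ j →
      M (Pi.single i 1) = (M (Pi.single j 1) j) • (Pi.single i 1 : Fin n → ℂ) := by
    intro i j hij
    let A : Module.End ℂ (Fin n → ℂ) := (LinearMap.proj j).smulRight (Pi.single i 1)
    have hA : LinearMap.trace ℂ _ A = 0 := by
      rw [LinearMap.trace_smulRight]
      simp [Ne.symm hij]
    have h1 := LinearMap.congr_fun (hM A hA) (Pi.single j 1)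
    have h2 : A (Pi.single j 1) = Pi.single i 1 := by
      simp [A]
    have h3 : A (M (Pi.single j 1)) = (M (Pi.single j 1) j) • (Pi.single i 1 : Fin n → ℂ) := rfl
    rw [Module.End.mul_apply, Module.End.mul_apply, h2, h3] at h1
    exact h1
  have hoff : ∀ i : Fin n, ∃ j, i ≠ j := by
    intro i
    have : Nontrivial (Fin n) := Fin.nontrivial_iff_two_le.2 hn
    obtain ⟨j, hj⟩ := exists_ne i
    exact ⟨j, hj.symm⟩
  have hd : ∀ i j : Fin n, M (Pi.single i 1) i = M (Pi.single j 1) j := by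
    intro i j
    by_cases hij : i = j
    · rw [hij]
    · have h1 := congrFun (key i j hij) i
      rw [h1]
      simp
  let i0 : Fin n := ⟨0, by omega⟩
  refine ⟨M (Pi.single i0 1) i0, ?_⟩
  refine LinearMap.pi_ext' fun i => LinearMap.ext_ring ?_
  obtain ⟨j, hj⟩ := hoff i
  have h1 := key i j hj
  rw [hd j i0] at h1
  exact h1

/-! ### the period vectors and the multiplication by `i` -/

section

variable {T : AV} {m r : ℕ} {s : Fin (r + 1) → ℂ} {b : Fin (r + 1) → ℕ} {D : Cyc T m}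

/-- the hypothesis on the forms of type `(1,0)` at the character `u` -/
def HodU (m : ℕ) {r : ℕ} (b : Fin (r + 1) → ℕ) (s : Fin (r + 1) → ℂ) {T : AV} (D : Cyc T m)
    (v : Fin r → T.V) (u : (ZMod m)ˣ) : Prop :=
  ∀ a ∈ Ws10 D u, ∃ f : Polynomial ℂ, f.degree < (sg m r b (u : ZMod m).val : WithBot ℕ) ∧
    ∀ k, a (v k) = Pc m b (u : ZMod m).val s f k

theorem J_eq (hBas : S_Bas) (hm : 3 ≤ m) (v : Fin r → T.V) (u : (ZMod m)ˣ)
    (h1 : HodU m b s D v u) (h2 : HodU m b s D v (-u)) (J : Module.End ℂ (Fin r → ℂ))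
    (hJ : IsJc m b (u : ZMod m).val s J) (e : Ws D u ≃ₗ[ℂ] (Fin r → ℂ))
    (he : ∀ (a : Ws D u) k, e a k = (a : Frm T) (v k)) (a a' : Ws D u)
    (haa : (a' : Frm T) = pre (mulI T) (a : Frm T)) : J (e a) = e a' := by
  obtain ⟨-, -, hst, -, hcj⟩ := hBas T m D hm
  have hnv := neg_val hm u
  have haI : ∀ w, (a' : Frm T) w = (a : Frm T) (Complex.I • w) := fun w => by
    rw [haa]
    rfl
  -- the two parts
  let ap : Ws D u := (1 / 2 : ℂ) • (a - Complex.I • a')
  let am : Ws D u := (1 / 2 : ℂ) • (a + Complex.I • a')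
  have hap : ∀ w, (ap : Frm T) w = (1 / 2 : ℂ) * ((a : Frm T) w -
      Complex.I * (a : Frm T) (Complex.I • w)) := by
    intro w
    rw [← haI]
    rfl
  have ham : ∀ w, (am : Frm T) w = (1 / 2 : ℂ) * ((a : Frm T) w +
      Complex.I * (a : Frm T) (Complex.I • w)) := by
    intro w
    rw [← haI]
    rfl
  have hII : ∀ w : T.V, Complex.I • (Complex.I • w) = -w := by
    intro w
    rw [smul_smul, Complex.I_mul_I, neg_one_smul]
  have hapI : ∀ w, (ap : Frm T) (Complex.I • w) = Complex.I * (ap : Frm T) w := by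
    intro w
    rw [hap, hap, hII, map_neg]
    have hI := Complex.I_mul_I
    linear_combination (1 / 2 : ℂ) * (a : Frm T) (Complex.I • w) * hI
  have hamI : ∀ w, (am : Frm T) (Complex.I • w) = -Complex.I * (am : Frm T) w := by
    intro w
    rw [ham, ham, hII, map_neg]
    have hI := Complex.I_mul_I
    linear_combination (1 / 2 : ℂ) * (a : Frm T) (Complex.I • w) * hI
  have hsum : a = ap + am := by
    apply Subtype.ext
    apply LinearMap.ext
    intro w
    have h3 : ((ap + am : Ws D u) : Frm T) w = (ap : Frm T) w + (am : Frm T) w := rfl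
    rw [h3, hap, ham]
    ring
  have hdif : a' = Complex.I • ap + (-Complex.I) • am := by
    apply Subtype.ext
    apply LinearMap.ext
    intro w
    have h3 : ((Complex.I • ap + (-Complex.I) • am : Ws D u) : Frm T) w =
        Complex.I * (ap : Frm T) w + (-Complex.I) * (am : Frm T) w := rfl
    rw [h3, hap, ham, haI]
    have hI := Complex.I_mul_I
    linear_combination (a : Frm T) (Complex.I • w) * hI
  -- the part of type `(1,0)`
  obtain ⟨f, hf, hfk⟩ := h1 (ap : Frm T) ⟨ap.2, hapI⟩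
  have e1 : e ap = Pc m b (u : ZMod m).val s f := by
    funext k
    rw [he, hfk]
  -- the part of type `(0,1)`
  obtain ⟨c, hc, hca⟩ := hcj u (am : Frm T) am.2
  have hcI : ∀ w, c (Complex.I • w) = Complex.I * c w := by
    intro w
    rw [hca, hca, hamI, map_mul, map_neg, Complex.conj_I, neg_neg]
  obtain ⟨g, hg, hgk⟩ := h2 c ⟨hc, hcI⟩
  rw [hnv] at hg hgk
  have e2 : e am = star (Pc m b (m - (u : ZMod m).val) s g) := by
    funext k
    rw [he]
    change _ = (starRingEnd ℂ) (Pc m b (m - (u : ZMod m).val) s g k)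
    rw [← hgk, hca, Complex.conj_conj]
  clear_value ap am
  rw [hsum, hdif, map_add, map_add, map_add, map_smul, map_smul, e1, e2, hJ.1 f hf, hJ.2 g hg]

end

end fA_aux

open fA_aux cHit_aux At0_aux Per_aux in
theorem tfA : S_Bas → S_Dim → S_cKap → S_cPv → S_fA := by
  classical
  intro hBas hDim _ _ T m r s b D hs hc _ hr hd v hinj hmat hHod h hh u w hw θ hθ hθJ
  have hm3 : 3 ≤ m := hc.1
  have hm : 0 < m := by omega
  obtain ⟨_, _, hst, _, _⟩ := hBas T m D hm3
  have := fin_frm T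
  have hfd : ∀ t, FiniteDimensional ℂ (Ws D t) := fun t => inferInstance
  have hex : ∀ t, ∃ e : Ws D t ≃ₗ[ℂ] (Fin r → ℂ), ∀ (a : Ws D t) k, e a k = (a : Frm T) (v k) := by
    intro t
    have hPhi : Function.Injective (Phi D t v) := by
      rw [← LinearMap.ker_eq_bot, LinearMap.ker_eq_bot']
      intro a ha
      apply Subtype.ext
      exact hinj t a a.2 fun k => congrFun ha k
    have hfr : finrank ℂ (Ws D t) = finrank ℂ (Fin r → ℂ) := by
      rw [(hDim T m r D hm3 hd t).1, finrank_fintype_fun_eq_card, Fintype.card_fin]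
    have hsur : Function.Surjective (Phi D t v) :=
      (LinearMap.injective_iff_surjective_of_finrank_eq_finrank hfr).1 hPhi
    exact ⟨LinearEquiv.ofBijective (Phi D t v) ⟨hPhi, hsur⟩, fun _ _ => rfl⟩
  choose e he using hex
  have hCom : ∀ Y ∈ Com h, Y ∈ h := by
    rintro _ ⟨X, hX, X', hX', rfl⟩
    exact hh.lie.br X hX X' hX'
  have hres : ∀ Y ∈ Com h, ∀ t, ∀ a ∈ Ws D t, pre Y a ∈ Ws D t := fun Y hY t a ha =>
    hst Y (hh.u Y (hCom Y hY)).1 t a ha
  -- the operators in coordinates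
  let op : ∀ Y ∈ Com h, ∀ t, Module.End ℂ (Ws D t) := fun Y hY t => (pre Y).restrict (hres Y hY t)
  have hop : ∀ Y hY t (a : Ws D t), ((op Y hY t a : Ws D t) : Frm T) = pre Y (a : Frm T) :=
    fun Y hY t a => rfl
  have halg : ∀ Y hY t k l, IsAlgebraic ℚ ((e t).conj (op Y hY t) (Pi.single k 1) l) := by
    intro Y hY t k l
    obtain ⟨N, x, hN, hx⟩ := hmat Y (hh.rat Y (hCom Y hY)) (hh.u Y (hCom Y hY)).1
    set a : Ws D t := (e t).symm (Pi.single k 1) with ha
    have hak : ∀ j, (a : Frm T) (v j) = (Pi.single k 1 : Fin r → ℂ) j := by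
      intro j
      rw [← he, ha, LinearEquiv.apply_symm_apply]
    have h3 : (e t).conj (op Y hY t) (Pi.single k 1) l = (a : Frm T) (Y (v l)) := by
      rw [LinearEquiv.conj_apply_apply, he, hop Y hY t]
      rfl
    have h4 := congrArg (a : Frm T) (hx l)
    rw [map_zsmul, map_sum] at h4
    have h5 : ∑ j, (a : Frm T) ((Polynomial.aeval D.Z (x l j)) (v j)) =
        Polynomial.aeval (zet m t) (x l k) := by
      rw [Finset.sum_eq_single k]
      · rw [B_aeval a.2, hak, Pi.single_eq_same, mul_one]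
      · intro j _ hj
        rw [B_aeval a.2, hak, Pi.single_eq_of_ne hj, mul_zero]
      · intro h6
        exact absurd (Finset.mem_univ k) h6
    rw [h5, zsmul_eq_mul] at h4
    have hN' : (N : ℂ) ≠ 0 := Int.cast_ne_zero.2 hN
    have h6 : (a : Frm T) (Y (v l)) = (N : ℂ)⁻¹ * Polynomial.aeval (zet m t) (x l k) := by
      rw [← h4]
      field_simp
    rw [h3, h6]
    have h7 : IsIntegral ℚ (Polynomial.aeval (zet m t) (x l k)) := alg_aeval hm t (x l k)
    have h8 : IsAlgebraic ℚ ((N : ℂ)⁻¹) := by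
      have : ((N : ℂ)⁻¹) = algebraMap ℚ ℂ ((N : ℚ)⁻¹) := by
        rw [map_inv₀]
        congr 1
      rw [this]
      exact isAlgebraic_algebraMap _
    exact h8.mul h7.isAlgebraic
  -- the link in coordinates
  let θ' : (Fin r → ℂ) ≃ₗ[ℂ] (Fin r → ℂ) := (e u).symm.trans (θ.trans (e w))
  have hθ' : ∀ a : Ws D u, θ' (e u a) = e w (θ a) := by
    intro a
    change e w (θ ((e u).symm (e u a))) = _
    rw [LinearEquiv.symm_apply_apply]
  let θl : Module.End ℂ (Fin r → ℂ) := θ'
  have hgen : ∀ Y, ∀ hY : Y ∈ Com h, θl * (e u).conj (op Y hY u) = (e w).conj (op Y hY w) * θl := by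
    intro Y hY
    apply LinearMap.ext
    intro y
    obtain ⟨a, rfl⟩ := (e u).surjective y
    change θ' ((e u).conj (op Y hY u) (e u a)) = (e w).conj (op Y hY w) (θ' (e u a))
    rw [LinearEquiv.conj_apply_apply, LinearEquiv.symm_apply_apply, hθ', hθ',
      LinearEquiv.conj_apply_apply, LinearEquiv.symm_apply_apply]
    congr 1
    apply Subtype.ext
    exact hθ (pre Y) (Submodule.subset_span ⟨Y, hY, rfl⟩) a (op Y hY u a) rfl
  have hΘ0 : LinearMap.toMatrix' θl ≠ 0 := by
    intro h0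
    have h1 : θl = 0 := by
      have := congrArg Matrix.toLin' h0
      rwa [Matrix.toLin'_toMatrix', map_zero] at this
    have h2 : θ' (Pi.single (⟨0, by omega⟩ : Fin r) 1) = 0 := LinearMap.congr_fun h1 _
    rw [LinearEquiv.map_eq_zero_iff] at h2
    have h3 := congrFun h2 (⟨0, by omega⟩ : Fin r)
    simp at h3
  obtain ⟨B, hB0, hBalg, hB⟩ := alg_sol (LinearMap.toMatrix' θl) hΘ0
  let Bl : Module.End ℂ (Fin r → ℂ) := Matrix.toLin' B
  have hBe : ∀ k l, Bl (Pi.single k 1) l = B l k := by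
    intro k l
    change (Matrix.toLin' B (Pi.single k 1)) l = _
    rw [Matrix.toLin'_apply, Matrix.mulVec_single_one]
    rfl
  have hBgen : ∀ Y, ∀ hY : Y ∈ Com h, Bl * (e u).conj (op Y hY u) = (e w).conj (op Y hY w) * Bl := by
    intro Y hY
    have h1 := hB (LinearMap.toMatrix' ((e u).conj (op Y hY u)))
      (LinearMap.toMatrix' ((e w).conj (op Y hY w)))
      (fun i j => by rw [tm_apply]; exact halg Y hY u j i)
      (fun i j => by rw [tm_apply]; exact halg Y hY w j i)
      (by rw [← LinearMap.toMatrix'_mul, ← LinearMap.toMatrix'_mul, hgen Y hY])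
    have h2 := congrArg Matrix.toLin' h1
    rw [Matrix.toLin'_mul, Matrix.toLin'_mul, Matrix.toLin'_toMatrix', Matrix.toLin'_toMatrix'] at h2
    exact h2
  -- the quotient is a scalar
  let θi : Module.End ℂ (Fin r → ℂ) := θ'.symm
  have hi1 : θi * θl = 1 := by
    apply LinearMap.ext
    intro y
    exact θ'.symm_apply_apply y
  have hi2 : θl * θi = 1 := by
    apply LinearMap.ext
    intro y
    exact θ'.apply_symm_apply y
  set M : Module.End ℂ (Fin r → ℂ) := Bl * θi with hM
  have hMgen : ∀ Y, ∀ hY : Y ∈ Com h, M * (e w).conj (op Y hY w) = (e w).conj (op Y hY w) * M := by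
    intro Y hY
    have h1 : θi * (e w).conj (op Y hY w) = (e u).conj (op Y hY u) * θi := by
      calc θi * (e w).conj (op Y hY w) = θi * ((e w).conj (op Y hY w) * (θl * θi)) := by
            rw [hi2, mul_one]
        _ = θi * (((e w).conj (op Y hY w) * θl) * θi) := by rw [mul_assoc]
        _ = θi * ((θl * (e u).conj (op Y hY u)) * θi) := by rw [hgen Y hY]
        _ = (θi * θl) * ((e u).conj (op Y hY u) * θi) := by simp only [mul_assoc]
        _ = (e u).conj (op Y hY u) * θi := by rw [hi1, one_mul]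
    rw [hM, mul_assoc, h1, ← mul_assoc, hBgen Y hY, mul_assoc]
  have hcom : ∀ C ∈ gg h, ∃ C' : Module.End ℂ (Ws D w), (∀ a : Ws D w, C (a : Frm T) =
      (C' a : Frm T)) ∧ M * (e w).conj C' = (e w).conj C' * M := by
    intro C hC
    refine Submodule.span_induction (p := fun C _ => ∃ C' : Module.End ℂ (Ws D w),
      (∀ a : Ws D w, C (a : Frm T) = (C' a : Frm T)) ∧ M * (e w).conj C' = (e w).conj C' * M)
      ?_ ?_ ?_ ?_ hC
    · rintro _ ⟨Y, hY, rfl⟩
      exact ⟨op Y hY w, fun a => rfl, hMgen Y hY⟩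
    · refine ⟨0, fun a => rfl, ?_⟩
      rw [map_zero, mul_zero, zero_mul]
    · rintro C1 C2 _ _ ⟨C1', h1, h2⟩ ⟨C2', h3, h4⟩
      refine ⟨C1' + C2', fun a => ?_, ?_⟩
      · rw [LinearMap.add_apply, h1, h3]
        rfl
      · rw [map_add, mul_add, add_mul, h2, h4]
    · rintro c C1 _ ⟨C1', h1, h2⟩
      refine ⟨c • C1', fun a => ?_, ?_⟩
      · rw [LinearMap.smul_apply, h1]
        rfl
      · rw [map_smul, mul_smul_comm, smul_mul_assoc, h2]
  obtain ⟨c, hcM⟩ := scal hr M (by
    intro A hA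
    have htr : LinearMap.trace ℂ (Ws D w) ((e w).symm.conj A) = 0 := by
      rw [LinearMap.trace_conj', hA]
    obtain ⟨C, hC, h1⟩ := hw (Function.update (fun _ => 0) w ((e w).symm.conj A)) (by
      intro t
      by_cases ht : t = w
      · subst ht
        rw [Function.update_self]
        exact htr
      · rw [Function.update_of_ne ht, map_zero])
    obtain ⟨C', h2, h3⟩ := hcom C hC
    have h4 : C' = (e w).symm.conj A := by
      apply LinearMap.ext
      intro a
      apply Subtype.ext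
      rw [← h2, h1 w rfl a, Function.update_self]
    have h5 : (e w).conj ((e w).symm.conj A) = A := by
      apply LinearMap.ext
      intro y
      rw [LinearEquiv.conj_apply_apply, LinearEquiv.conj_apply_apply]
      simp
    rw [h4, h5] at h3
    exact h3)
  have hBl : Bl = c • θl := by
    have h1 : M * θl = Bl := by
      rw [hM, mul_assoc, hi1, mul_one]
    rw [← h1, hcM, smul_mul_assoc, one_mul]
  have hc0 : c ≠ 0 := by
    rintro rfl
    rw [zero_smul] at hBl
    apply hB0
    have h1 : Matrix.toLin' B = Matrix.toLin' 0 := by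
      rw [map_zero]
      exact hBl
    exact Matrix.toLin'.injective h1
  refine ⟨Bl, ?_, ?_, ?_⟩
  · rw [hBl]
    intro x y hxy
    have h1 : c • θ' x = c • θ' y := hxy
    exact θ'.injective (smul_right_injective _ hc0 h1)
  · intro k l
    rw [hBe]
    exact hBalg l k
  · intro J J' hJ hJ'
    have hJW : ∀ t, ∀ a ∈ Ws D t, pre (mulI T) a ∈ Ws D t := fun t a ha =>
      hst (mulI T) (fun w => by
        change Complex.I • D.Z w = D.Z (Complex.I • w)
        rw [map_smul]) t a ha
    rw [hBl, smul_mul_assoc, mul_smul_comm]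
    congr 1
    apply LinearMap.ext
    intro y
    obtain ⟨a, rfl⟩ := (e u).surjective y
    change θ' (J (e u a)) = J' (θ' (e u a))
    have h1 : J (e u a) = e u ⟨pre (mulI T) (a : Frm T), hJW u _ a.2⟩ :=
      J_eq hBas hm3 v u (hHod u).2 (hHod (-u)).2 J hJ (e u) (he u) a _ rfl
    rw [h1, hθ', hθ']
    have h2 : J' (e w (θ a)) = e w ⟨pre (mulI T) ((θ a : Ws D w) : Frm T), hJW w _ (θ a).2⟩ :=
      J_eq hBas hm3 v w (hHod w).2 (hHod (-w)).2 J' hJ' (e w) (he w) (θ a) _ rfl
    rw [h2]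
    congr 1
    apply Subtype.ext
    exact hθJ a _ rfl

end SEB
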