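import Pool.Agent.Lib.SE.Big.VG4
import Pool.Agent.Lib.SE.Big.Hl
import Pool.Agent.Lib.SE.Big.Real
import Pool.Agent.Lib.SE.Big.Tr

/-!
# PROJECT SE, module IsBig, fD: all signatures definite, the Hodge Lie algebra is commutative
-/

set_option autoImplicit false

open Module MeasureTheory Topology

noncomputable section

namespace SEB

open HC HC.E HC.SE

namespace fD_aux

variable {T : AV} {m : ℕ}

theorem mulI_apply (v : T.V) : mulI T v = Complex.I • v := rfl

theorem I_smul_smul (v : T.V) : Complex.I • Complex.I • v = -v := by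
  rw [smul_smul, Complex.I_mul_I, neg_one_smul]

/-- `p s = 0`: all forms at the character `s` are of type `(0,1)`. -/
theorem anti (D : Cyc T m) (s : (ZMod m)ˣ) (h : D.p s = 0) (a : Frm T) (ha : a ∈ Ws D s)
    (v : T.V) : a (Complex.I • v) = -Complex.I * a v := by
  have := Tr_aux.fin_frm T
  have h1 : Ws10 D s = ⊥ := Submodule.finrank_eq_zero.1 h
  have h2 : a - Complex.I • (pre (mulI T) a) ∈ Ws10 D s := by
    refine ⟨Submodule.sub_mem _ ha (Submodule.smul_mem _ _ fun w => ?_), fun w => ?_⟩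
    · show a (Complex.I • D.Z w) = zet m s * a (Complex.I • w)
      rw [← ha, D.Z.map_smul]
    · show a (Complex.I • w) - Complex.I * a (Complex.I • Complex.I • w) =
        Complex.I * (a w - Complex.I * a (Complex.I • w))
      rw [I_smul_smul, map_neg]
      linear_combination (a (Complex.I • w)) * Complex.I_mul_I
  rw [h1, Submodule.mem_bot] at h2
  have h3 : a v - Complex.I * a (Complex.I • v) = 0 := LinearMap.congr_fun h2 v
  linear_combination Complex.I * h3 + (a (Complex.I • v)) * Complex.I_mul_I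

/-- The multiplication by `i` is a scalar on every eigenspace. -/
theorem scal (D : Cyc T m) (hB : ∀ s, ∀ a ∈ Ws D s, ∃ b ∈ Ws D (-s), ∀ v, b v =
    (starRingEnd ℂ) (a v)) (s : (ZMod m)ˣ) (h : D.p s = 0 ∨ D.p (-s) = 0) :
    ∃ c : ℂ, ∀ a ∈ Ws D s, pre (mulI T) a = c • a := by
  rcases h with h | h
  · exact ⟨-Complex.I, fun a ha => LinearMap.ext fun v => anti D s h a ha v⟩
  · refine ⟨Complex.I, fun a ha => LinearMap.ext fun v => ?_⟩
    obtain ⟨b, hb, h1⟩ := hB s a ha
    have h2 := anti D (-s) h b hb v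
    rw [h1, h1] at h2
    have h3 := congrArg (starRingEnd ℂ) h2
    rw [map_mul, map_neg, Complex.conj_I, neg_neg, Complex.conj_conj, Complex.conj_conj] at h3
    exact h3

theorem pre_pow (X : Module.End ℝ T.V) (k : ℕ) : (pre X) ^ k = pre (X ^ k) := by
  induction k with
  | zero => rfl
  | succ k ih =>
    rw [pow_succ, pow_succ', ih]
    rfl

theorem pj_mem (D : Cyc T m) (t : (ZMod m)ˣ) :
    pj D t ∈ Submodule.span ℂ (pre '' (Set.range (fun k : ℕ => D.ZR ^ k) ∪ {0})) := by
  unfold pj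
  refine Submodule.smul_mem _ _ (Submodule.sum_mem _ fun k _ => Submodule.smul_mem _ _ ?_)
  rw [pre_pow]
  exact Submodule.subset_span ⟨_, Or.inl ⟨k, rfl⟩, rfl⟩

/-- The multiplication by `i` is a real combination of powers of `Z`. -/
theorem mem (hPj : S_Pj) (hBas : S_Bas) (D : Cyc T m) (hm : 3 ≤ m)
    (h : ∀ s, D.p s = 0 ∨ D.p (-s) = 0) :
    mulI T ∈ Submodule.span ℝ (Set.range (fun k : ℕ => D.ZR ^ k) ∪ {0}) := by
  have : NeZero m := ⟨by lia⟩
  obtain ⟨htop, -, -, -, hconj⟩ := hBas T m D hm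
  obtain ⟨-, -, p2, p3⟩ := hPj T m D hm
  have h1 : ∀ s, ∃ c : ℂ, ∀ a ∈ Ws D s, pre (mulI T) a = c • a := fun s =>
    scal D hconj s (h s)
  choose c hc using h1
  have h2 : pre (mulI T) = ∑ s, c s • pj D s := by
    refine LinearMap.ext fun a => ?_
    have ha : a ∈ ⨆ s, Ws D s := by
      rw [htop]
      exact Submodule.mem_top
    induction ha using Submodule.iSup_induction' with
    | mem t a ha =>
      rw [hc t a ha, LinearMap.sum_apply, Finset.sum_eq_single t]
      · rw [LinearMap.smul_apply, p2 t a ha]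
      · intro s _ hs
        rw [LinearMap.smul_apply, p3 t s hs.symm a ha, smul_zero]
      · intro h0
        exact absurd (Finset.mem_univ t) h0
    | zero => rw [map_zero, map_zero]
    | add a b _ _ h1 h2 => rw [map_add, map_add, h1, h2]
  have h3 : pre (mulI T) ∈ Submodule.span ℂ
      (pre '' (Set.range (fun k : ℕ => D.ZR ^ k) ∪ {0})) := by
    rw [h2]
    exact Submodule.sum_mem _ fun s _ => Submodule.smul_mem _ _ (pj_mem D s)
  obtain ⟨P, hP, Q, -, hPQ⟩ := Real_aux.comb _ _ h3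
  have h4 : mulI T = P := by
    refine LinearMap.ext fun v => ?_
    refine (sub_eq_zero.1 (Real_aux.nd D _ fun w => ?_)).symm
    have h5 : (D.ψ w (mulI T v) : ℂ) = D.ψ w (P v) + Complex.I * D.ψ w (Q v) :=
      hPQ (Complex.ofRealCLM.toLinearMap ∘ₗ D.ψ w) v
    have h6 := congrArg Complex.re h5
    simp at h6
    rw [D.alt, map_sub, h6, sub_self, neg_zero]
  rw [h4]
  exact hP

end fD_aux

open fD_aux

theorem tfD : S_Pj → S_Bas → S_Dim → S_fD := by
  intro hPj hBas _ T m r D hm _ h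
  have comm : ∀ X ∈ Set.range (fun k : ℕ => D.ZR ^ k) ∪ {0},
      ∀ Y ∈ Set.range (fun k : ℕ => D.ZR ^ k) ∪ {0}, X * Y - Y * X = 0 := by
    rintro X (⟨k, rfl⟩ | rfl) Y (⟨l, rfl⟩ | rfl)
    · show D.ZR ^ k * D.ZR ^ l - D.ZR ^ l * D.ZR ^ k = 0
      rw [← pow_add, ← pow_add, add_comm, sub_self]
    · rw [mul_zero, zero_mul, sub_self]
    · rw [mul_zero, zero_mul, sub_self]
    · rw [sub_self]
  have rat : ∀ X ∈ Set.range (fun k : ℕ => D.ZR ^ k) ∪ {0}, RatEnd T X := by
    rintro X (⟨k, rfl⟩ | rfl) v hv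
    · refine ⟨1, one_ne_zero, ?_⟩
      rw [one_smul]
      show (D.ZR ^ k) v ∈ T.L
      induction k with
      | zero => exact hv
      | succ k ih =>
        rw [pow_succ', Module.End.mul_apply]
        exact D.lat _ ih
    · refine ⟨1, one_ne_zero, ?_⟩
      rw [LinearMap.zero_apply, smul_zero]
      exact T.L.zero_mem
  obtain ⟨g, hg, h1⟩ := tHl T m D _ rat
    (fun X hX Y hY => by rw [comm X hX Y hY]; exact Or.inr rfl) (mem hPj hBas D hm h)
  refine ⟨g, hg, fun X hX Y hY => ?_⟩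
  have h2 := h1 _ ⟨X, hX, Y, hY, rfl⟩
  have h3 : Com (Set.range (fun k : ℕ => D.ZR ^ k) ∪ {0}) ⊆
      ((⊥ : Submodule ℝ (Module.End ℝ T.V)) : Set (Module.End ℝ T.V)) := by
    rintro W ⟨A, hA, B, hB, rfl⟩
    exact comm A hA B hB
  have h4 := Submodule.span_le.2 h3 h2
  exact sub_eq_zero.1 ((Submodule.mem_bot ℝ).1 h4)

end SEB
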