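import Pool.Agent.Lib.SE.Big.VG4
import Pool.Agent.Lib.SE.Big.Two

/-! # PROJECT SE, module IsBig, part 6: linked characters of `T` (fL) -/

set_option autoImplicit false
set_option linter.unusedVariables false

open Module

noncomputable section

namespace SEB

open HC HC.E HC.SE

namespace fL_aux

open Two_aux

section

variable {T : AV} {m : ℕ} (D : Cyc T m) (h : Set (Module.End ℝ T.V))
  (R : ∀ s, gg h →ₗ[ℂ] Module.End ℂ (Ws D s))
  (hR : ∀ s (A : gg h) (a : Ws D s),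
    ((R s A a : Ws D s) : Frm T) = (A : Module.End ℂ (Frm T)) (a : Frm T))

include hR

/-- the dichotomy -/
theorem dich (hGou : S_Gou) (hbr : ∀ A ∈ gg h, ∀ B ∈ gg h, A * B - B * A ∈ gg h)
    (htr0 : ∀ s (A : gg h), LinearMap.trace ℂ (Ws D s) (R s A) = 0)
    (hsurj : ∀ s (X : Module.End ℂ (Ws D s)), LinearMap.trace ℂ (Ws D s) X = 0 →
      ∃ A : gg h, R s A = X) (hfd : ∀ s, FiniteDimensional ℂ (Ws D s)) (σ τ : (ZMod m)ˣ) :
    Hits D h {σ, τ} ∨ ∀ A : gg h, R σ A = 0 ↔ R τ A = 0 := by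
  have := hfd σ
  have := hfd τ
  have hbrres : ∀ s (A B : gg h), R s ⟨A * B - B * A, hbr A A.2 B B.2⟩ =
      R s A * R s B - R s B * R s A := by
    intro s A B
    refine ext_Ws D s _ _ fun a => ?_
    have h1 : (R s A * R s B - R s B * R s A) a = R s A (R s B a) - R s B (R s A a) := rfl
    have h2 : ((A * B - B * A : Module.End ℂ (Frm T))) (a : Frm T) =
      (A : Module.End ℂ (Frm T)) ((B : Module.End ℂ (Frm T)) a) -
        (B : Module.End ℂ (Frm T)) ((A : Module.End ℂ (Frm T)) a) := rfl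
    rw [h1, Submodule.coe_sub, hR s A, hR s B, hR s B, hR s A, hR]
    exact h2
  rcases hGou (Ws D σ) (Ws D τ) (LinearMap.range ((R σ).prod (R τ))) (by
      rintro _ ⟨A, rfl⟩ _ ⟨B, rfl⟩
      exact ⟨⟨A * B - B * A, hbr A A.2 B B.2⟩, Prod.ext (hbrres σ A B) (hbrres τ A B)⟩) (by
      rintro _ ⟨A, rfl⟩
      exact ⟨htr0 σ A, htr0 τ A⟩) (by
      intro X hX
      obtain ⟨A, hA⟩ := hsurj σ X hX
      exact ⟨R τ A, A, Prod.ext hA rfl⟩) (by
      intro Y hY
      obtain ⟨A, hA⟩ := hsurj τ Y hY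
      exact ⟨R σ A, A, Prod.ext rfl hA⟩) with h1 | h1
  · left
    intro A hA
    obtain ⟨C, hC⟩ := h1 (A σ) (A τ) (hA σ) (hA τ)
    have hC1 : R σ C = A σ := congrArg Prod.fst hC
    have hC2 : R τ C = A τ := congrArg Prod.snd hC
    refine ⟨C, C.2, ?_⟩
    intro s' hs' a
    rcases hs' with rfl | hs'
    · rw [← hC1, hR]
    · have hs'' : s' = τ := hs'
      subst hs''
      rw [← hC2, hR]
  · right
    intro A
    exact h1 (R σ A, R τ A) ⟨A, rfl⟩

/-- no hits at the other pairs -/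
theorem nohits (hLI : S_LI) (hm : 3 ≤ m) (r : ℕ) (hr : 2 ≤ r)
    (hdimW : ∀ s, finrank ℂ (Ws D s) = r)
    (htr0 : ∀ s (A : gg h), LinearMap.trace ℂ (Ws D s) (R s A) = 0)
    (hCom : ∀ X ∈ Com h, RatEnd T X ∧ ∀ v, X (D.Z v) = D.Z (X v)) (s t : (ZMod m)ˣ)
    (hgr : ∀ A : gg h, R s A = 0 → R t A = 0) (hts : t ≠ s) (ρ : (ZMod m)ˣ) :
    ¬ Hits D h {ρ * s, ρ * t} := by
  intro hhits
  have hne : ρ * s ≠ ρ * t := fun he => hts (mul_left_cancel he).symm
  have hComgg : ∀ X : Com h, pre (X : Module.End ℝ T.V) ∈ gg h := fun X =>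
    Submodule.subset_span ⟨X, X.2, rfl⟩
  obtain ⟨n, X, c, hc0, hc1, hc2, hc3⟩ := gen_no (W₁ := Ws D s) (W₂ := Ws D t)
    (W₃ := Ws D (ρ * s)) (W₄ := Ws D (ρ * t)) r hr (hdimW s) (hdimW (ρ * s)) (hdimW (ρ * t))
    (R s) (R t) (R (ρ * s)) (R (ρ * t))
    (fun X : Com h => (⟨pre (X : Module.End ℝ T.V), hComgg X⟩ : gg h))
    (span_gg h hComgg) (htr0 s) hgr (by
      intro X Y hX hY
      obtain ⟨A, hA, hA1, hA2⟩ := exists_fam D (ρ * s) (ρ * t) hne X Y hX hY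
      obtain ⟨C, hC, hC'⟩ := hhits A hA
      refine ⟨⟨C, hC⟩, ?_, ?_⟩
      · refine ext_Ws D (ρ * s) _ _ fun a => ?_
        rw [hR, ← hA1]
        exact hC' (ρ * s) (Set.mem_insert _ _) a
      · refine ext_Ws D (ρ * t) _ _ fun a => ?_
        rw [hR, ← hA2]
        exact hC' (ρ * t) (Set.mem_insert_of_mem _ (Set.mem_singleton _)) a)
  have hval : ∀ (d : Fin n → ℂ) (a : Frm T), ∑ j, d j • pre (X j : Module.End ℝ T.V) a =
      ((∑ j, d j • (⟨pre (X j : Module.End ℝ T.V), hComgg (X j)⟩ : gg h) : gg h) :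
        Module.End ℂ (Frm T)) a := by
    intro d a
    rw [AddSubmonoidClass.coe_finsetSum, LinearMap.sum_apply]
    rfl
  obtain ⟨c', hc'0, hc'1⟩ := hLI T m D hm n (fun j => (X j : Module.End ℝ T.V))
    (fun j => hCom _ (X j).2) {s, t} c hc0 (by
      intro u hu a ha
      rw [hval]
      rcases hu with rfl | hu
      · have h1 := hR u (∑ j, c j • (⟨pre (X j : Module.End ℝ T.V), hComgg (X j)⟩ : gg h)) ⟨a, ha⟩
        rw [hc1] at h1
        exact h1.symm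
      · have hu' : u = t := hu
        subst hu'
        have h1 := hR u (∑ j, c j • (⟨pre (X j : Module.End ℝ T.V), hComgg (X j)⟩ : gg h)) ⟨a, ha⟩
        rw [hc2] at h1
        exact h1.symm) ρ
  refine hc'0 (hc3 c' ?_ ?_)
  · refine ext_Ws D (ρ * s) _ _ fun a => ?_
    rw [hR, ← hval]
    exact hc'1 s (Set.mem_insert _ _) a a.2
  · refine ext_Ws D (ρ * t) _ _ fun a => ?_
    rw [hR, ← hval]
    exact hc'1 t (Set.mem_insert_of_mem _ (Set.mem_singleton _)) a a.2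

end

end fL_aux

open Two_aux in
/-- linked characters -/
theorem tfL : S_fL := by
  intro hBas hDim hLI hCl hGou T m r D hm hr hdim h hh hone s t hts hnot ρ
  obtain ⟨hbr, hJbr, htr⟩ := hCl hBas T m D hm h hh
  have hBas' := hBas T m D hm
  have hdimW : ∀ s, finrank ℂ (Ws D s) = r := fun s => (hDim T m r D hm hdim s).1
  have hfd : ∀ s, FiniteDimensional ℂ (Ws D s) := fun s =>
    Module.finite_of_finrank_pos (by rw [hdimW s]; omega)
  have hst : ∀ s, ∀ A ∈ gg h, ∀ a ∈ Ws D s, A a ∈ Ws D s := by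
    intro s A hA a ha
    obtain ⟨A', -, h2⟩ := htr A hA s
    have h3 := h2 ⟨a, ha⟩
    rw [h3]
    exact (A' ⟨a, ha⟩).2
  obtain ⟨R, hR⟩ := exists_res D h hst
  have htr0 : ∀ s (A : gg h), LinearMap.trace ℂ (Ws D s) (R s A) = 0 := by
    intro s A
    obtain ⟨A', h1, h2⟩ := htr A A.2 s
    have h3 : R s A = A' := ext_Ws D s _ _ fun a => by rw [hR]; exact h2 a
    rw [h3, h1]
  have hsurj : ∀ s (X : Module.End ℂ (Ws D s)), LinearMap.trace ℂ (Ws D s) X = 0 →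
      ∃ A : gg h, R s A = X := by
    intro s X hX
    obtain ⟨A, hA, hA1⟩ := exists_fam1 D s X hX
    obtain ⟨C, hC, hC'⟩ := hone s A hA
    refine ⟨⟨C, hC⟩, ext_Ws D s _ _ fun a => ?_⟩
    rw [hR, ← hA1]
    exact hC' s (Set.mem_singleton s) a
  have hdich := fL_aux.dich D h R hR hGou hbr htr0 hsurj hfd
  have hgr := (hdich s t).resolve_left hnot
  have hCom : ∀ X ∈ Com h, RatEnd T X ∧ ∀ v, X (D.Z v) = D.Z (X v) := by
    rintro X ⟨Y, hY, Z, hZ, rfl⟩
    have h1 := hh.lie.br Y hY Z hZ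
    exact ⟨hh.rat _ h1, (hh.u _ h1).1⟩
  have hno := fL_aux.nohits D h R hR hLI hm r hr hdimW htr0 hCom s t (fun A => (hgr A).1) hts ρ
  have hgr2 := (hdich (ρ * s) (ρ * t)).resolve_left hno
  have hz : ∀ (σ : (ZMod m)ˣ) (A : gg h), R σ A = 0 ↔
      ∀ a ∈ Ws D σ, (A : Module.End ℂ (Frm T)) a = 0 := by
    intro σ A
    constructor
    · intro h0 a ha
      have h1 := hR σ A ⟨a, ha⟩
      rw [h0] at h1
      exact h1.symm
    · intro h0
      exact ext_Ws D σ _ _ fun a => (hR σ A a).trans (h0 a a.2)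
  intro C hC
  have h1 := hgr2 ⟨C, hC⟩
  rw [hz, hz] at h1
  exact h1

end SEB
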