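import Pool.Agent.Lib.SE.Big.VG4
import Pool.Agent.Lib.SE.Q.Jc
import Pool.Agent.Lib.SE.Q.Th0g

/-!
# PROJECT SE, module fT: from a link to the isomorphism of the eigenspaces
-/

set_option autoImplicit false

open Module

noncomputable section

namespace SEB

open HC HC.E HC.SE

namespace fT_aux

section

variable {W W' : Type} [AddCommGroup W] [Module ℂ W] [FiniteDimensional ℂ W] [AddCommGroup W']
  [Module ℂ W'] [FiniteDimensional ℂ W']

omit [FiniteDimensional ℂ W] in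
/-- The linear algebra. -/
theorem alg (A : Module.End ℂ W) (A' : Module.End ℂ W') (θ : W ≃ₗ[ℂ] W') (r p p' : ℂ)
    (hW : (finrank ℂ W : ℂ) = r) (hr : 0 < finrank ℂ W)
    (hA : A * A = -1) (hA' : A' * A' = -1)
    (tA : LinearMap.trace ℂ W A = Complex.I * (2 * p - r))
    (tA' : LinearMap.trace ℂ W' A' = Complex.I * (2 * p' - r)) (hp0 : p ≠ 0) (hpr : p ≠ r)
    (hcomm : ∀ (N : Module.End ℂ W') , LinearMap.trace ℂ W' N = 0 →
      (θ.conj A - A') * N = N * (θ.conj A - A')) : θ.conj A = A' := by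
  have hr' : 0 < finrank ℂ W' := by rwa [← θ.finrank_eq]
  obtain ⟨c, hc⟩ := SEQ.Jc_aux.scalar hr' _ hcomm
  have h1 : θ.conj A = A' + c • (1 : Module.End ℂ W') := by
    rw [← hc]
    abel
  have h2 : (θ.conj A) * (θ.conj A) = -1 := by
    refine LinearMap.ext fun w => ?_
    have h3 : A (A (θ.symm w)) = -θ.symm w := LinearMap.congr_fun hA (θ.symm w)
    have h4 : (θ.conj A * θ.conj A) w = θ (A (θ.symm (θ (A (θ.symm w))))) := rfl
    rw [h4, θ.symm_apply_apply, h3, map_neg, θ.apply_symm_apply]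
    rfl
  have h3 : c • ((2 : ℂ) • A' + c • (1 : Module.End ℂ W')) = 0 := by
    rw [h1, add_mul, mul_add, mul_add, hA', smul_mul_assoc, mul_smul_comm, one_mul, mul_one,
      smul_mul_assoc, one_mul] at h2
    have h4 : c • A' + (c • A' + c • c • (1 : Module.End ℂ W')) = 0 := by
      rw [add_assoc] at h2
      exact add_eq_left.1 h2
    rw [← h4, smul_add, smul_smul, smul_smul]
    module
  have tr1 : LinearMap.trace ℂ W' (θ.conj A) = LinearMap.trace ℂ W A :=
    LinearMap.trace_conj' A θ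
  rw [h1, map_add, map_smul, LinearMap.trace_one, ← θ.finrank_eq, hW, tA, tA', smul_eq_mul] at tr1
  have hI := Complex.I_ne_zero
  by_cases hc0 : c = 0
  · rw [h1, hc0, zero_smul, add_zero]
  · exfalso
    have h4 : (2 : ℂ) • A' + c • (1 : Module.End ℂ W') = 0 := (smul_eq_zero.1 h3).resolve_left hc0
    have h5 : 2 * (Complex.I * (2 * p' - r)) + c * r = 0 := by
      have h6 := congrArg (LinearMap.trace ℂ W') h4
      rwa [map_add, map_smul, map_smul, LinearMap.trace_one, ← θ.finrank_eq, hW, tA', smul_eq_mul,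
        smul_eq_mul, map_zero] at h6
    have h7 : c * c = -4 := by
      have h8 : A' = (-(c / 2)) • (1 : Module.End ℂ W') := by
        have h9 : (2 : ℂ) • A' = -(c • (1 : Module.End ℂ W')) := eq_neg_of_add_eq_zero_left h4
        have h10 : A' = (1 / 2 : ℂ) • ((2 : ℂ) • A') := by
          rw [smul_smul]
          norm_num
        rw [h10, h9]
        module
      rw [h8, smul_mul_assoc, one_mul, smul_smul] at hA'
      have h9 := congrArg (LinearMap.trace ℂ W') hA'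
      rw [map_smul, map_neg, LinearMap.trace_one, ← θ.finrank_eq, hW, smul_eq_mul] at h9
      have hr0 : r ≠ 0 := by
        rw [← hW]
        exact_mod_cast hr.ne'
      have h10 : (c * c + 4) * r = 0 := by linear_combination 4 * h9
      have h11 := (mul_eq_zero.1 h10).resolve_right hr0
      linear_combination h11
    have h8 : (c - 2 * Complex.I) * (c + 2 * Complex.I) = 0 := by
      have := Complex.I_mul_I
      linear_combination h7 - 4 * this
    have h9 : c * r = 2 * (Complex.I * (2 * p - r)) := by linear_combination 2 * tr1 - h5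
    rcases mul_eq_zero.1 h8 with h10 | h10
    · apply hpr
      have h11 : Complex.I * (4 * (p - r)) = 0 := by linear_combination -h9 + r * h10
      have h12 := (mul_eq_zero.1 h11).resolve_left hI
      linear_combination (1 / 4 : ℂ) * h12
    · apply hp0
      have h11 : Complex.I * (4 * p) = 0 := by linear_combination -h9 + r * h10
      have h12 := (mul_eq_zero.1 h11).resolve_left hI
      linear_combination (1 / 4 : ℂ) * h12

end

variable {T : AV} {m : ℕ}

/-- the pairs of operators which are induced -/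
def PP0 (D : Cyc T m) (h : Set (Module.End ℝ T.V)) (s t : (ZMod m)ˣ) :
    Submodule ℂ (Module.End ℂ (Ws D s) × Module.End ℂ (Ws D t)) where
  carrier := {x | ∃ C ∈ gg h, (∀ a : Ws D s, C (a : Frm T) = (x.1 a : Frm T)) ∧
    ∀ b : Ws D t, C (b : Frm T) = (x.2 b : Frm T)}
  add_mem' := by
    rintro x y ⟨C, hC, h1, h2⟩ ⟨C', hC', h1', h2'⟩
    refine ⟨C + C', add_mem hC hC', fun a => ?_, fun b => ?_⟩
    · rw [LinearMap.add_apply, h1, h1']
      rfl
    · rw [LinearMap.add_apply, h2, h2']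
      rfl
  zero_mem' := ⟨0, zero_mem _, fun a => rfl, fun b => rfl⟩
  smul_mem' := by
    rintro c x ⟨C, hC, h1, h2⟩
    refine ⟨c • C, Submodule.smul_mem _ c hC, fun a => ?_, fun b => ?_⟩
    · rw [LinearMap.smul_apply, h1]
      rfl
    · rw [LinearMap.smul_apply, h2]
      rfl

/-- `θ` intertwines the commutators. -/
def It (D : Cyc T m) (h : Set (Module.End ℝ T.V)) {s t : (ZMod m)ˣ} (θ : Ws D s ≃ₗ[ℂ] Ws D t) :
    Prop :=
  ∀ C ∈ gg h, ∀ a b : Ws D s, (b : Frm T) = C (a : Frm T) → (θ b : Frm T) = C (θ a : Frm T)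

/-- the isomorphism -/
theorem exθ (hCl : S_Cl) (hBas : S_Bas) (hDim : S_Dim) (hInt : SEQ.S_Int)
    (hIntG : SEQ.S_IntG) (hDua : SEQ.S_Dua) (r : ℕ) (D : Cyc T m) (hm : 3 ≤ m) (hr : 2 ≤ r)
    (hd : 2 * finrank ℂ T.V = r * Nat.totient m) (h : Set (Module.End ℝ T.V)) (hh : HLie D h)
    (hhit : ∀ s, Hits D h {s}) (s t : (ZMod m)ˣ)
    (hL : ∀ C ∈ gg h, (∀ a ∈ Ws D s, C a = 0) ↔ ∀ b ∈ Ws D t, C b = 0) :
    ∃ t', (t' = t ∨ t' = -t) ∧ ∃ θ : Ws D s ≃ₗ[ℂ] Ws D t', It D h θ := by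
  obtain ⟨hbr, -, htr⟩ := hCl hBas T m D hm h hh
  have hds : 2 ≤ finrank ℂ (Ws D s) := by
    rw [(hDim T m r D hm hd s).1]
    exact hr
  have hdt : 2 ≤ finrank ℂ (Ws D t) := by
    rw [(hDim T m r D hm hd t).1]
    exact hr
  have hfd : FiniteDimensional ℂ (Ws D s) := inferInstance
  have hfd' : FiniteDimensional ℂ (Ws D t) := inferInstance
  have hcl : ∀ x ∈ PP0 D h s t, ∀ y ∈ PP0 D h s t,
      (x.1 * y.1 - y.1 * x.1, x.2 * y.2 - y.2 * x.2) ∈ PP0 D h s t := by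
    rintro x ⟨C, hC, h1, h2⟩ y ⟨C', hC', h1', h2'⟩
    refine ⟨C * C' - C' * C, hbr C hC C' hC', fun a => ?_, fun b => ?_⟩
    · show C (C' (a : Frm T)) - C' (C (a : Frm T)) = _
      rw [h1', h1, h1, h1']
      rfl
    · show C (C' (b : Frm T)) - C' (C (b : Frm T)) = _
      rw [h2', h2, h2, h2']
      rfl
  have htr0 : ∀ x ∈ PP0 D h s t, LinearMap.trace ℂ (Ws D s) x.1 = 0 ∧
      LinearMap.trace ℂ (Ws D t) x.2 = 0 := by
    rintro x ⟨C, hC, h1, h2⟩
    obtain ⟨A', hA1, hA2⟩ := htr C hC s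
    obtain ⟨B', hB1, hB2⟩ := htr C hC t
    have e1 : x.1 = A' := SEQ.Th0g_aux.ext_Ws D s _ _ fun a => by rw [← h1, hA2]
    have e2 : x.2 = B' := SEQ.Th0g_aux.ext_Ws D t _ _ fun b => by rw [← h2, hB2]
    rw [e1, e2]
    exact ⟨hA1, hB1⟩
  have hs1 : ∀ X : Module.End ℂ (Ws D s), LinearMap.trace ℂ (Ws D s) X = 0 →
      ∃ Y, (X, Y) ∈ PP0 D h s t := by
    intro X hX
    obtain ⟨C, hC, hC1⟩ := SEQ.Jc_aux.upd (hhit s) X hX
    obtain ⟨B', -, hB2⟩ := htr C hC t
    exact ⟨B', C, hC, hC1, hB2⟩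
  have hs2 : ∀ Y : Module.End ℂ (Ws D t), LinearMap.trace ℂ (Ws D t) Y = 0 →
      ∃ X, (X, Y) ∈ PP0 D h s t := by
    intro Y hY
    obtain ⟨C, hC, hC1⟩ := SEQ.Jc_aux.upd (hhit t) Y hY
    obtain ⟨A', -, hA2⟩ := htr C hC s
    exact ⟨A', C, hC, hA2, hC1⟩
  have hlk : ∀ x ∈ PP0 D h s t, x.1 = 0 ↔ x.2 = 0 := by
    rintro x ⟨C, hC, h1, h2⟩
    have h3 : (∀ a ∈ Ws D s, C a = 0) ↔ x.1 = 0 := by
      constructor
      · intro h4
        refine SEQ.Th0g_aux.ext_Ws D s _ _ fun a => ?_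
        rw [← h1, h4 a a.2]
        rfl
      · intro h4 a ha
        rw [h1 ⟨a, ha⟩, h4]
        rfl
    have h5 : (∀ b ∈ Ws D t, C b = 0) ↔ x.2 = 0 := by
      constructor
      · intro h4
        refine SEQ.Th0g_aux.ext_Ws D t _ _ fun b => ?_
        rw [← h2, h4 b b.2]
        rfl
      · intro h4 b hb
        rw [h2 ⟨b, hb⟩, h4]
        rfl
    rw [← h3, ← h5]
    exact hL C hC
  rcases hIntG hInt (Ws D s) (Ws D t) (PP0 D h s t) hds hdt hcl htr0 hs1 hs2 hlk with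
    ⟨θ, hθ⟩ | ⟨θ, hθ⟩
  · refine ⟨t, Or.inl rfl, θ, ?_⟩
    intro C hC a b hab
    obtain ⟨A', -, hA2⟩ := htr C hC s
    obtain ⟨B', -, hB2⟩ := htr C hC t
    have h1 : θ (A' a) = B' (θ a) := hθ (A', B') ⟨C, hC, hA2, hB2⟩ a
    have h2 : b = A' a := Subtype.ext (by rw [hab, hA2])
    rw [h2, h1, hB2]
  · obtain ⟨β, hβ⟩ := SEQ.Th0g_aux.dua hDua D hm (-t) t (neg_neg t).symm
    refine ⟨-t, Or.inr rfl, θ.trans β.symm, ?_⟩
    intro C hC a b hab
    obtain ⟨A', -, hA2⟩ := htr C hC s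
    obtain ⟨B', -, hB2⟩ := htr C hC t
    obtain ⟨B'', -, hB3⟩ := htr C hC (-t)
    have h2 : b = A' a := Subtype.ext (by rw [hab, hA2])
    have hCu : C ∈ Submodule.span ℂ (pre '' {Y | IsU D Y}) := by
      refine Submodule.span_mono (Set.image_mono ?_) hC
      rintro _ ⟨X, hX, X', hX', rfl⟩
      exact hh.u _ (hh.lie.br X hX X' hX')
    have hc : ∀ x, β ((θ.trans β.symm) x) = θ x := fun x => by
      rw [LinearEquiv.trans_apply, LinearEquiv.apply_symm_apply]
    set c : Ws D (-t) := (θ.trans β.symm) a with hcdef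
    have h3 : β (B'' c) = θ b := by
      refine LinearMap.ext fun w' => ?_
      have h4 : β (B'' c) w' = -β c (B' w') :=
        hβ C hCu c (B'' c) w' (B' w') (hB3 c).symm (hB2 w').symm
      have h5 : θ (A' a) w' = -(θ a) (B' w') := hθ (A', B') ⟨C, hC, hA2, hB2⟩ a w'
      rw [h4, hcdef, hc a, ← h5, h2]
    have h6 : (θ.trans β.symm) b = B'' c := by
      apply β.injective
      rw [hc b, h3]
    rw [h6, hB3]

/-- it commutes with the multiplication by `i` -/
theorem comJ (hBas : S_Bas) (hCl : S_Cl) (hDim : S_Dim) (hTrJ : SEQ.S_TrJ) (r : ℕ) (D : Cyc T m)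
    (hm : 3 ≤ m) (hr : 2 ≤ r) (hd : 2 * finrank ℂ T.V = r * Nat.totient m)
    (h : Set (Module.End ℝ T.V)) (hh : HLie D h) (hhit : ∀ s, Hits D h {s}) (s t : (ZMod m)ˣ)
    (θ : Ws D s ≃ₗ[ℂ] Ws D t) (hθ : It D h θ) (hp0 : 0 < D.p s) (hp1 : 0 < D.p (-s)) :
    ∀ a b : Ws D s, (b : Frm T) = pre (mulI T) (a : Frm T) →
        (θ b : Frm T) = pre (mulI T) (θ a : Frm T) := by
  obtain ⟨-, hclJ, htr⟩ := hCl hBas T m D hm h hh
  obtain ⟨d1, d2⟩ := hDim T m r D hm hd s
  obtain ⟨d1', d2'⟩ := hDim T m r D hm hd t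
  obtain ⟨A, hA⟩ := SEQ.Jc_aux.exA D hm s
  obtain ⟨A', hA'⟩ := SEQ.Jc_aux.exA D hm t
  obtain ⟨tA, sA⟩ := hTrJ T m D hm s A hA
  obtain ⟨tA', sA'⟩ := hTrJ T m D hm t A' hA'
  have e1 : (D.p (-s) : ℂ) = (r : ℂ) - D.p s := by
    rw [← d2]
    push_cast
    ring
  have e2 : (D.p (-t) : ℂ) = (r : ℂ) - D.p t := by
    rw [← d2']
    push_cast
    ring
  have key : θ.conj A = A' := by
    refine alg A A' θ (r : ℂ) (D.p s) (D.p t) (by rw [d1]) (by rw [d1]; omega) sA sA' ?_ ?_ ?_ ?_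
      ?_
    · rw [tA, e1]
      ring
    · rw [tA', e2]
      ring
    · exact_mod_cast hp0.ne'
    · have : D.p s ≠ r := by omega
      exact_mod_cast this
    · intro N hN
      obtain ⟨C, hC, hCN⟩ := SEQ.Jc_aux.upd (hhit t) N hN
      obtain ⟨A₀, -, hA₀⟩ := htr C hC s
      have h1 : ∀ a : Ws D s, θ (A₀ a) = N (θ a) := by
        intro a
        apply Subtype.ext
        rw [hθ C hC a (A₀ a) (hA₀ a).symm, hCN]
      have h2 : ∀ a : Ws D s, θ (A (A₀ a) - A₀ (A a)) = A' (N (θ a)) - N (A' (θ a)) := by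
        intro a
        apply Subtype.ext
        have h3 := hθ _ (hclJ C hC) a (A (A₀ a) - A₀ (A a)) (by
          have h4 : ((pre (mulI T) * C - C * pre (mulI T)) (a : Frm T)) =
              pre (mulI T) (C (a : Frm T)) - C (pre (mulI T) (a : Frm T)) := rfl
          rw [h4, hA₀, hA, hA, hA₀]
          rfl)
        have h5 : ((pre (mulI T) * C - C * pre (mulI T)) (θ a : Frm T)) =
            pre (mulI T) (C (θ a : Frm T)) - C (pre (mulI T) (θ a : Frm T)) := rfl
        rw [h3, h5, hCN, hA', hA', hCN]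
        rfl
      refine LinearMap.ext fun w => ?_
      obtain ⟨a, rfl⟩ := θ.surjective w
      have h3 := h2 a
      rw [map_sub, h1] at h3
      have h4 : θ.conj A (N (θ a)) = θ (A (A₀ a)) := by
        have h5 : θ.conj A (N (θ a)) = θ (A (θ.symm (N (θ a)))) := rfl
        rw [h5, ← h1, θ.symm_apply_apply]
      have h5 : θ.conj A (θ a) = θ (A a) := by
        have h6 : θ.conj A (θ a) = θ (A (θ.symm (θ a))) := rfl
        rw [h6, θ.symm_apply_apply]
      rw [Module.End.mul_apply, Module.End.mul_apply, LinearMap.sub_apply, LinearMap.sub_apply,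
        h4, h5, map_sub]
      have h6 : θ (A (A₀ a)) = A' (N (θ a)) - N (A' (θ a)) + N (θ (A a)) := by
        rw [← h3]
        abel
      rw [h6]
      abel
  intro a b hab
  have h1 : b = A a := Subtype.ext (by rw [hab, hA])
  have h2 : θ.conj A (θ a) = θ (A a) := by
    have h6 : θ.conj A (θ a) = θ (A (θ.symm (θ a))) := rfl
    rw [h6, θ.symm_apply_apply]
  rw [h1, ← h2, key, hA']

end fT_aux

open fT_aux in
theorem tfT : S_Bas → S_Dim → S_Cl → SEQ.S_Int → SEQ.S_IntG → SEQ.S_Dua → SEQ.S_TrJ → S_fT := by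
  intro hBas hDim hCl hInt hIntG hDua hTrJ T m r D hm hr hd h hh hhit s t hL hp0 hp1
  obtain ⟨t', ht', θ, hθ⟩ := exθ hCl hBas hDim hInt hIntG hDua r D hm hr hd h hh hhit s t hL
  exact ⟨t', ht', θ, hθ, comJ hBas hCl hDim hTrJ r D hm hr hd h hh hhit s t' θ hθ hp0 hp1⟩

end SEB
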