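import Pool.Agent.Lib.SE.Big.VG4

/-!
# PROJECT SE, module IsBig, part 6: the Baire argument for the bad Lie algebras, all signatures
(helper35; after `cBa2.lean`)
-/

set_option autoImplicit false

open Module MeasureTheory Topology

noncomputable section

namespace SEB

open HC HC.E HC.SE

namespace dBa_aux

/-- the operators with algebraic matrix entries -/
def Al (r : ℕ) : Set (Module.End ℂ (Fin r → ℂ)) :=
  {X | ∀ k l, IsAlgebraic ℚ (X (Pi.single k 1) l)}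

lemma countable_Al (r : ℕ) : (Al r).Countable := by
  classical
  let φ : Module.End ℂ (Fin r → ℂ) → (Fin r → Fin r → ℂ) := fun X k l => X (Pi.single k 1) l
  have hφ : Function.Injective φ := by
    intro X Y h
    refine (Pi.basisFun ℂ (Fin r)).ext fun k => ?_
    rw [Pi.basisFun_apply]
    funext l
    exact congrFun (congrFun h k) l
  have h1 : {v : Fin r → ℂ | ∀ l, v l ∈ {x : ℂ | IsAlgebraic ℚ x}}.Countable :=
    Set.countable_pi fun _ : Fin r => Algebraic.countable ℚ ℂ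
  have h2 : {M : Fin r → Fin r → ℂ | ∀ k, M k ∈
      {v : Fin r → ℂ | ∀ l, v l ∈ {x : ℂ | IsAlgebraic ℚ x}}}.Countable :=
    Set.countable_pi fun _ : Fin r => h1
  exact h2.preimage_of_injOn (hφ.injOn)

/-- the exponents of the opposite character -/
lemma exq_neg {m r : ℕ} {b : Fin (r + 1) → ℕ} {u : ℕ}
    (h : ∀ j, 1 ≤ nn m b u j ∧ nn m b u j < m ∧ nn m b (m - u) j = m - nn m b u j) :
    Exq (mu m b (m - u)) := by
  intro j
  obtain ⟨h1, h2, h3⟩ := h j
  have hm : (0 : ℝ) < m := by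
    have : 0 < m := by omega
    exact_mod_cast this
  unfold mu
  rw [h3]
  constructor
  · refine div_pos ?_ hm
    have : 0 < m - nn m b u j := by omega
    exact_mod_cast this
  · rw [div_lt_one hm]
    have : m - nn m b u j < m := by omega
    exact_mod_cast this

lemma nd (hKap : S_cKap) (hN : S_cN) (hJx : S_cJx) (hSg : S_Sg) (hKey : S_cKey) (hKey' : S_dKey)
    (hSp : S_dSp) (hDj : S_cDj) (hCj : S_cCj)
    {m r : ℕ} {b : Fin (r + 1) → ℕ} {u : ℕ} (hr : 3 ≤ r) (hp : 0 < sg m r b u)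
    (hq : 0 < sg m r b (m - u))
    (hpq : sg m r b u ≠ sg m r b (m - u) ∨ ¬ m ∣ 2 * ∑ j, b j)
    (g : Submodule ℂ (Module.End ℂ (Fin r → ℂ))) (hg : Bad g) :
    IsMeagre {s : Fin (r + 1) → ℂ | Admc m b u s ∧ NDc m b u s ∧ ∃ J ∈ g, IsJc m b u s J} := by
  obtain ⟨hO, hC⟩ := hCj m r b u
  obtain ⟨C, hCc, hCs⟩ := hC g
  set O : Set (Fin (r + 1) → ℂ) := {s | Admc m b u s ∧ NDc m b u s} with hOd
  have hnd : IsNowhereDense (O ∩ C) := by
    unfold IsNowhereDense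
    by_contra hne
    obtain ⟨s₀, hs₀⟩ := Set.nonempty_iff_ne_empty.mpr hne
    have hWo : IsOpen (interior (closure (O ∩ C))) := isOpen_interior
    obtain ⟨s₂, k1, k2⟩ := mem_closure_iff.mp (interior_subset hs₀) _ hWo hs₀
    have hUo : IsOpen (interior (closure (O ∩ C)) ∩ O) := hWo.inter hO
    have hUC : ∀ s ∈ interior (closure (O ∩ C)) ∩ O, ∀ J, IsJc m b u s J → J ∈ g := by
      intro s hs
      have h3 : s ∈ C := by
        have h4 : s ∈ closure (O ∩ C) := interior_subset hs.1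
        have h5 := closure_mono (Set.inter_subset_right : O ∩ C ⊆ C) h4
        rw [hCc.closure_eq] at h5
        exact h5
      exact (hCs s hs.2.1 hs.2.2).1 h3
    obtain ⟨c1, c2, -, -⟩ := hKap m r b u s₂ k2.1.1
    have hMe : IsMeagre ({s : Fin (r + 1) → ℂ | Inc s ∧ ¬ Nj (mu m b u) s} ∪
        {s : Fin (r + 1) → ℂ | Inc s ∧ ¬ Nj (mu m b (m - u)) s}) :=
      (hN r (mu m b u) c2).union (hN r (mu m b (m - u)) (exq_neg c1))
    have hde : Dense ({s : Fin (r + 1) → ℂ | Inc s ∧ ¬ Nj (mu m b u) s} ∪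
        {s : Fin (r + 1) → ℂ | Inc s ∧ ¬ Nj (mu m b (m - u)) s})ᶜ := dense_of_mem_residual hMe
    obtain ⟨s₁, hs₁, hs₁'⟩ := hde.inter_open_nonempty _ hUo ⟨s₂, k1, k2.1⟩
    have hInc : Inc s₁ := hs₁.2.1.1
    have n1 : Nj (mu m b u) s₁ := by
      by_contra hn
      exact hs₁' (Or.inl ⟨hInc, hn⟩)
    have n2 : Nj (mu m b (m - u)) s₁ := by
      by_contra hn
      exact hs₁' (Or.inr ⟨hInc, hn⟩)
    obtain ⟨J, hJ, _⟩ := hJx m r b u s₁ hs₁.2.1 hs₁.2.2
    have hD := hDj m r b u _ hUo (fun s hs => hs.2) g hUC s₁ hs₁ J hJ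
    obtain ⟨Y, hY1, hY2⟩ := hg.2.2
    by_cases heq : sg m r b u = sg m r b (m - u)
    · obtain ⟨hInc₁, hcov, hum, huc⟩ := hs₁.2.1
      have hsum : sg m r b u + sg m r b (m - u) = r := hSg m r _ b hcov u hum huc
      rcases hKey' m r b u s₁ hs₁.2.1 hs₁.2.2 n1 n2 hp hq g J hg.2.1 hJ (hUC s₁ hs₁ J hJ) hD with
        h | ⟨ω, hω⟩
      · exact hY2 (h Y hY1)
      · have h5 := hSp m r b u _ hUo (fun s hs => hs.2) ⟨s₁, hs₁, n1⟩ (by omega) heq.symm ω g hω
          hUC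
        rcases hpq with h6 | h6
        · exact h6 heq
        · exact h6 h5
    · exact hY2 (hKey m r b u s₁ hs₁.2.1 hs₁.2.2 n1 n2 hp hq (Or.inl heq) g J hg.2.1 hJ
        (hUC s₁ hs₁ J hJ) hD Y hY1)
  refine hnd.isMeagre.mono ?_
  rintro s ⟨h1, h2, J, hJg, hJ⟩
  refine ⟨⟨h1, h2⟩, (hCs s h1 h2).2 fun J' hJ' => ?_⟩
  obtain ⟨J₀, _, huniq, _⟩ := hJx m r b u s h1 h2
  rw [huniq J' hJ', ← huniq J hJ]
  exact hJg

end dBa_aux

open dBa_aux

theorem tdBa : S_cKap → S_cN → S_cJx → S_Sg → S_cKey → S_dKey → S_dSp → S_cDj → S_cCj → S_dBa := by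
  classical
  intro hKap hN hJx hSg hKey hKey' hSp hDj hCj m r b u hr hp hq hpq
  have : Countable (Al r) := (countable_Al r).to_subtype
  let gp : (Σ n : ℕ, (Fin n → Al r)) → Submodule ℂ (Module.End ℂ (Fin r → ℂ)) := fun p =>
    Submodule.span ℂ (Set.range fun i => ((p.2 i : Al r) : Module.End ℂ (Fin r → ℂ)))
  have hM : IsMeagre (⋃ p : (Σ n : ℕ, (Fin n → Al r)),
      {s : Fin (r + 1) → ℂ | Bad (gp p) ∧ Admc m b u s ∧ NDc m b u s ∧ ∃ J ∈ gp p,
        IsJc m b u s J}) := by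
    refine isMeagre_iUnion fun p => ?_
    by_cases hb : Bad (gp p)
    · refine (nd hKap hN hJx hSg hKey hKey' hSp hDj hCj hr hp hq hpq (gp p) hb).mono ?_
      rintro s ⟨_, hs⟩
      exact hs
    · have : {s : Fin (r + 1) → ℂ | Bad (gp p) ∧ Admc m b u s ∧ NDc m b u s ∧ ∃ J ∈ gp p,
          IsJc m b u s J} = ∅ := by
        ext s
        constructor
        · rintro ⟨h, _⟩
          exact absurd h hb
        · intro h
          exact absurd h (Set.notMem_empty s)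
      rw [this]
      exact IsMeagre.empty
  refine hM.mono ?_
  rintro s ⟨h1, h2, g, hg, J, hJg, hJ⟩
  obtain ⟨n, X, hX, hgX⟩ := hg.1
  rw [Set.mem_iUnion]
  have h3 : gp ⟨n, fun i => ⟨X i, fun k l => hX i k l⟩⟩ = g := by
    rw [hgX]
  refine ⟨⟨n, fun i => ⟨X i, fun k l => hX i k l⟩⟩, ?_⟩
  refine ⟨?_, h1, h2, J, ?_, hJ⟩
  · rw [h3]
    exact hg
  · rw [h3]
    exact hJg

end SEB
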