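import Pool.Agent.Lib.SE.Big.VG6
import Pool.Agent.Lib.SE.Big.dBa

/-!
# PROJECT SE, module IsBig, part 8: the Baire argument for the bad Lie algebras, no condition
(helper13; after `dBa.lean` of helper35)
-/

set_option autoImplicit false

open Module MeasureTheory Topology

noncomputable section

namespace SEB

open HC HC.E HC.SE

namespace gBa_aux

open dBa_aux

/-- The exponents are not all `1/2`. -/
lemma half_false {m r : ℕ} {b : Fin (r + 1) → ℕ} {u : ℕ} {s : Fin (r + 1) → ℂ}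
    (hA : Admc m b u s) (h : ∀ j, mu m b u j = 1 / 2) : False := by
  obtain ⟨-, hcov, hum, huc⟩ := hA
  obtain ⟨h3, -, -, -, hd⟩ := hcov
  have key : ∀ j, 2 * nn m b u j = m := by
    intro j
    have h1 := h j
    unfold mu at h1
    have hm : (0 : ℝ) < m := by
      have : 0 < m := by omega
      exact_mod_cast this
    rw [div_eq_iff hm.ne'] at h1
    have h2 : (2 * nn m b u j : ℝ) = m := by linarith
    exact_mod_cast h2
  have key2 : ∀ j, 2 * ((u * b j) % m) = m := by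
    intro j
    have h1 := key j
    have h2 : (u * b j) % m < m := Nat.mod_lt _ (by omega)
    unfold nn at h1
    omega
  obtain ⟨k, hk⟩ : ∃ k, m = 2 * k := ⟨_, (key2 0).symm⟩
  have hkd : ∀ j, k ∣ b j := by
    intro j
    have h1 := key2 j
    have h4 := Nat.div_add_mod (u * b j) m
    have h2 : u * (2 * b j) = m * (2 * (u * b j / m) + 1) := by
      calc u * (2 * b j) = 2 * (u * b j) := by ring
        _ = 2 * (m * (u * b j / m) + (u * b j) % m) := by rw [h4]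
        _ = m * (2 * (u * b j / m)) + 2 * ((u * b j) % m) := by ring
        _ = m * (2 * (u * b j / m)) + m := by rw [h1]
        _ = m * (2 * (u * b j / m) + 1) := by ring
    have h6 : m ∣ 2 * b j := Nat.Coprime.dvd_of_dvd_mul_left huc.symm ⟨_, h2⟩
    rw [hk] at h6
    exact Nat.dvd_of_mul_dvd_mul_left two_pos h6
  have h7 := hd k ⟨2, by rw [hk]; ring⟩ hkd
  omega

lemma ndg (hKap : S_cKap) (hN : S_cN) (hJx : S_cJx) (hSg : S_Sg) (hKey : S_cKey) (hKey' : S_dKey)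
    (hSp : S_gSp) (hDj : S_cDj) (hCj : S_cCj)
    {m r : ℕ} {b : Fin (r + 1) → ℕ} {u : ℕ} (hr : 3 ≤ r) (hp : 0 < sg m r b u)
    (hq : 0 < sg m r b (m - u))
    (g : Submodule ℂ (Module.End ℂ (Fin r → ℂ))) (hg : Bad g) :
    IsMeagre {s : Fin (r + 1) → ℂ | Admc m b u s ∧ NDc m b u s ∧ ∃ J ∈ g, IsJc m b u s J} := by
  obtain ⟨hO, hC⟩ := hCj m r b u
  obtain ⟨C, hCc, hCs⟩ := hC g
  set O : Set (Fin (r + 1) → ℂ) := {s | Admc m b u s ∧ NDc m b u s} with hOd
  have hnd : IsNowhereDense (O ∩ C) := by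
    unfold IsNowhereDense
    by_contra hne
    obtain ⟨s₀, hs₀⟩ := Set.nonempty_iff_ne_empty.mpr hne
    have hWo : IsOpen (interior (closure (O ∩ C))) := isOpen_interior
    obtain ⟨s₂, k1, k2⟩ := mem_closure_iff.mp (interior_subset hs₀) _ hWo hs₀
    have hUo : IsOpen (interior (closure (O ∩ C)) ∩ O) := hWo.inter hO
    have hUC : ∀ s ∈ interior (closure (O ∩ C)) ∩ O, ∀ J, IsJc m b u s J → J ∈ g := by
      intro s hs
      have h3 : s ∈ C := by
        have h4 : s ∈ closure (O ∩ C) := interior_subset hs.1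
        have h5 := closure_mono (Set.inter_subset_right : O ∩ C ⊆ C) h4
        rw [hCc.closure_eq] at h5
        exact h5
      exact (hCs s hs.2.1 hs.2.2).1 h3
    obtain ⟨c1, c2, -, -⟩ := hKap m r b u s₂ k2.1.1
    have hMe : IsMeagre ({s : Fin (r + 1) → ℂ | Inc s ∧ ¬ Nj (mu m b u) s} ∪
        {s : Fin (r + 1) → ℂ | Inc s ∧ ¬ Nj (mu m b (m - u)) s}) :=
      (hN r (mu m b u) c2).union (hN r (mu m b (m - u)) (exq_neg c1))
    have hde : Dense ({s : Fin (r + 1) → ℂ | Inc s ∧ ¬ Nj (mu m b u) s} ∪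
        {s : Fin (r + 1) → ℂ | Inc s ∧ ¬ Nj (mu m b (m - u)) s})ᶜ := dense_of_mem_residual hMe
    obtain ⟨s₁, hs₁, hs₁'⟩ := hde.inter_open_nonempty _ hUo ⟨s₂, k1, k2.1⟩
    have hInc : Inc s₁ := hs₁.2.1.1
    have n1 : Nj (mu m b u) s₁ := by
      by_contra hn
      exact hs₁' (Or.inl ⟨hInc, hn⟩)
    have n2 : Nj (mu m b (m - u)) s₁ := by
      by_contra hn
      exact hs₁' (Or.inr ⟨hInc, hn⟩)
    obtain ⟨J, hJ, _⟩ := hJx m r b u s₁ hs₁.2.1 hs₁.2.2
    have hD := hDj m r b u _ hUo (fun s hs => hs.2) g hUC s₁ hs₁ J hJ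
    obtain ⟨Y, hY1, hY2⟩ := hg.2.2
    by_cases heq : sg m r b u = sg m r b (m - u)
    · obtain ⟨hInc₁, hcov, hum, huc⟩ := hs₁.2.1
      have hsum : sg m r b u + sg m r b (m - u) = r := hSg m r _ b hcov u hum huc
      rcases hKey' m r b u s₁ hs₁.2.1 hs₁.2.2 n1 n2 hp hq g J hg.2.1 hJ (hUC s₁ hs₁ J hJ) hD with
        h | ⟨ω, hω⟩
      · exact hY2 (h Y hY1)
      · have h5 := hSp m r b u _ hUo (fun s hs => hs.2) ⟨s₁, hs₁, n1⟩ (by omega) heq.symm ω g hω
          hUC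
        exact half_false hs₁.2.1 h5
    · exact hY2 (hKey m r b u s₁ hs₁.2.1 hs₁.2.2 n1 n2 hp hq (Or.inl heq) g J hg.2.1 hJ
        (hUC s₁ hs₁ J hJ) hD Y hY1)
  refine hnd.isMeagre.mono ?_
  rintro s ⟨h1, h2, J, hJg, hJ⟩
  refine ⟨⟨h1, h2⟩, (hCs s h1 h2).2 fun J' hJ' => ?_⟩
  obtain ⟨J₀, _, huniq, _⟩ := hJx m r b u s h1 h2
  rw [huniq J' hJ', ← huniq J hJ]
  exact hJg

end gBa_aux

open dBa_aux gBa_aux

theorem tgBa : S_cKap → S_cN → S_cJx → S_Sg → S_cKey → S_dKey → S_gSp → S_cDj → S_cCj → S_gBa := by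
  classical
  intro hKap hN hJx hSg hKey hKey' hSp hDj hCj m r b u hr hp hq
  have : Countable (Al r) := (countable_Al r).to_subtype
  let gp : (Σ n : ℕ, (Fin n → Al r)) → Submodule ℂ (Module.End ℂ (Fin r → ℂ)) := fun p =>
    Submodule.span ℂ (Set.range fun i => ((p.2 i : Al r) : Module.End ℂ (Fin r → ℂ)))
  have hM : IsMeagre (⋃ p : (Σ n : ℕ, (Fin n → Al r)),
      {s : Fin (r + 1) → ℂ | Bad (gp p) ∧ Admc m b u s ∧ NDc m b u s ∧ ∃ J ∈ gp p,
        IsJc m b u s J}) := by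
    refine isMeagre_iUnion fun p => ?_
    by_cases hb : Bad (gp p)
    · refine (ndg hKap hN hJx hSg hKey hKey' hSp hDj hCj hr hp hq (gp p) hb).mono ?_
      rintro s ⟨_, hs⟩
      exact hs
    · have : {s : Fin (r + 1) → ℂ | Bad (gp p) ∧ Admc m b u s ∧ NDc m b u s ∧ ∃ J ∈ gp p,
          IsJc m b u s J} = ∅ := by
        ext s
        constructor
        · rintro ⟨h, _⟩
          exact absurd h hb
        · intro h
          exact absurd h (Set.notMem_empty s)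
      rw [this]
      exact IsMeagre.empty
  refine hM.mono ?_
  rintro s ⟨h1, h2, g, hg, J, hJg, hJ⟩
  obtain ⟨n, X, hX, hgX⟩ := hg.1
  rw [Set.mem_iUnion]
  have h3 : gp ⟨n, fun i => ⟨X i, fun k l => hX i k l⟩⟩ = g := by
    rw [hgX]
  refine ⟨⟨n, fun i => ⟨X i, fun k l => hX i k l⟩⟩, ?_⟩
  refine ⟨?_, h1, h2, J, ?_, hJ⟩
  · rw [h3]
    exact hg
  · rw [h3]
    exact hJg

end SEB
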