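import Pool.Agent.Lib.SE.Big.VG4
import Pool.Agent.Lib.SE.Big.cDj

/-!
# PROJECT SE, module IsBig, part 6, module dSp: no constant symplectic form (helper69)
-/

set_option autoImplicit false

open Module MeasureTheory Topology

noncomputable section

namespace SEB

open HC HC.E HC.SE

namespace dSp_aux

open cDj_aux

/-- the derivative of a bilinear form along two curves -/
theorem bil_deriv {n : ℕ} (ω : (Fin n → ℂ) →ₗ[ℂ] (Fin n → ℂ) →ₗ[ℂ] ℂ)
    {A B : ℝ → (Fin n → ℂ)} {A' B' : Fin n → ℂ} (hA : HasDerivAt A A' 0)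
    (hB : HasDerivAt B B' 0) :
    HasDerivAt (fun ε : ℝ => ω (A ε) (B ε)) (ω A' (B 0) + ω (A 0) B') 0 := by
  have h1 : ∀ v w : Fin n → ℂ, ω v w = ∑ j, ∑ i, (v i * w j) *
      ω (fun k => if i = k then 1 else 0) (fun k => if j = k then 1 else 0) := by
    intro v w
    rw [LinearMap.pi_apply_eq_sum_univ (ω v) w]
    refine Finset.sum_congr rfl fun j _ => ?_
    have h2 : ω v (fun k => if j = k then 1 else 0) =
        (ω.flip (fun k => if j = k then 1 else 0)) v := rfl
    rw [h2, LinearMap.pi_apply_eq_sum_univ _ v, Finset.smul_sum]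
    refine Finset.sum_congr rfl fun i _ => ?_
    rw [smul_eq_mul, smul_eq_mul, LinearMap.flip_apply]
    ring
  have h3 : (fun ε : ℝ => ω (A ε) (B ε)) = fun ε => ∑ j, ∑ i, (A ε i * B ε j) *
      ω (fun k => if i = k then 1 else 0) (fun k => if j = k then 1 else 0) := by
    funext ε
    exact h1 _ _
  have h4 : ω A' (B 0) + ω (A 0) B' = ∑ j, ∑ i, (A' i * B 0 j + A 0 i * B' j) *
      ω (fun k => if i = k then 1 else 0) (fun k => if j = k then 1 else 0) := by
    rw [h1 A' (B 0), h1 (A 0) B', ← Finset.sum_add_distrib]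
    refine Finset.sum_congr rfl fun j _ => ?_
    rw [← Finset.sum_add_distrib]
    exact Finset.sum_congr rfl fun i _ => by ring
  rw [h3, h4]
  refine HasDerivAt.fun_sum fun j _ => HasDerivAt.fun_sum fun i _ => ?_
  exact ((hasDerivAt_pi.1 hA i).mul (hasDerivAt_pi.1 hB j)).mul_const _

variable {m r : ℕ} {b : Fin (r + 1) → ℕ} {u : ℕ}

/-- derivative of a relation which holds on an open set -/
theorem der (hKap : S_cKap) (hD : S_cD) {U : Set (Fin (r + 1) → ℂ)} (hU : IsOpen U)
    (hUA : ∀ s ∈ U, Admc m b u s) (ω : (Fin r → ℂ) →ₗ[ℂ] (Fin r → ℂ) →ₗ[ℂ] ℂ)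
    (f₁ f₂ : Polynomial ℂ) (h0 : ∀ s ∈ U, ω (Pc m b u s f₁) (Pc m b u s f₂) = 0)
    {s : Fin (r + 1) → ℂ} (hs : s ∈ U) (a : Polynomial ℂ) :
    ω (Pc m b u s (Thc (mu m b u) s a f₁)) (Pc m b u s f₂) +
      ω (Pc m b u s f₁) (Pc m b u s (Thc (mu m b u) s a f₂)) = 0 := by
  have hA := hUA s hs
  set σ : ℝ → Fin (r + 1) → ℂ := fun ε i => s i + (ε : ℂ) * a.eval (s i) with hσ
  have hσ0 : σ 0 = s := by
    funext i
    simp [hσ]
  have hσc : Continuous σ := by
    refine continuous_pi fun i => ?_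
    exact continuous_const.add (Complex.continuous_ofReal.mul continuous_const)
  have hev : ∀ᶠ ε in 𝓝 (0 : ℝ), σ ε ∈ U := by
    refine hσc.continuousAt.eventually_mem ?_
    rw [hσ0]
    exact hU.mem_nhds hs
  have h1 := bil_deriv ω (Pc_deriv hKap hD hA a f₁) (Pc_deriv hKap hD hA a f₂)
  have h2 : (fun ε : ℝ => ω (Pc m b u (σ ε) f₁) (Pc m b u (σ ε) f₂)) =ᶠ[𝓝 0]
      fun _ => (0 : ℂ) := by
    filter_upwards [hev] with ε hε
    exact h0 _ hε
  have h3 := (h1.congr_of_eventuallyEq h2.symm).unique (hasDerivAt_const (0 : ℝ) (0 : ℂ))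
  have h4 : (fun i => s i + (((0 : ℝ)) : ℂ) * a.eval (s i)) = s := hσ0
  rw [h4] at h3
  exact h3

/-- the eigenspace of `i` is isotropic -/
theorem iso (hPv : S_cPv) (hJx : S_cJx) {s : Fin (r + 1) → ℂ} (hA : Admc m b u s)
    (hN : NDc m b u s) (hp : 0 < sg m r b (m - u))
    {ω : (Fin r → ℂ) →ₗ[ℂ] (Fin r → ℂ) →ₗ[ℂ] ℂ} {g : Submodule ℂ (Module.End ℂ (Fin r → ℂ))}
    (hω : Csp ω g) (hg : ∀ J, IsJc m b u s J → J ∈ g) (f₁ f₂ : Polynomial ℂ)
    (h1 : f₁.degree < (sg m r b u : WithBot ℕ)) (h2 : f₂.degree < (sg m r b u : WithBot ℕ)) :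
    ω (Pc m b u s f₁) (Pc m b u s f₂) = 0 := by
  obtain ⟨J, hJ, -, hJJ, -⟩ := hJx m r b u s hA hN
  obtain ⟨halt, hnd, hX⟩ := hω
  obtain ⟨χ, hχ⟩ := hX J (hg J hJ)
  have h3 := hχ (Pc m b u s f₁) (Pc m b u s f₂)
  rw [hJ.1 f₁ h1, hJ.1 f₂ h2, map_smul, map_smul, LinearMap.smul_apply, smul_eq_mul] at h3
  by_cases h4 : χ = 2 * Complex.I
  · exfalso
    set v := star (Pc m b (m - u) s 1) with hv
    have h5 : J v = -Complex.I • v := by
      refine hJ.2 1 ?_
      rw [Polynomial.degree_one]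
      exact_mod_cast hp
    have h6 : ∀ w, ω v (J w) = 3 * Complex.I * ω v w := by
      intro w
      have h7 := hχ v w
      rw [h5, map_smul, LinearMap.smul_apply, smul_eq_mul, h4] at h7
      linear_combination h7
    have h7 : ∀ w, ω v w = 0 := by
      intro w
      have h8 := h6 (J w)
      rw [h6 w] at h8
      have h9 : J (J w) = - w := by
        have h10 := LinearMap.congr_fun hJJ w
        simpa using h10
      rw [h9, map_neg] at h8
      have h10 : (8 : ℂ) * ω v w = 0 := by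
        linear_combination h8 + 9 * ω v w * Complex.I_mul_I
      exact (mul_eq_zero.1 h10).resolve_left (by norm_num)
    have h8 := hnd v h7
    have h9 := hN 0 1 (by
      rw [Polynomial.degree_zero]
      exact WithBot.bot_lt_coe _) (by
      rw [Polynomial.degree_one]
      exact_mod_cast hp) (by
      rw [← hv, h8, add_zero]
      have h10 := (hPv m r b u s hA).2 0 0
      rwa [zero_smul, mul_zero] at h10)
    exact one_ne_zero h9.2
  · have h5 : (χ - 2 * Complex.I) * ω (Pc m b u s f₁) (Pc m b u s f₂) = 0 := by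
      linear_combination -h3
    exact (mul_eq_zero.1 h5).resolve_left (sub_ne_zero.2 h4)

/-- division of `X ^ 2` -/
theorem dm2 (c : ℂ) : (Polynomial.X ^ 2 : Polynomial ℂ) /ₘ (Polynomial.X - Polynomial.C c) =
    Polynomial.X + Polynomial.C c := by
  refine (Polynomial.div_modByMonic_unique _ (Polynomial.C (c ^ 2))
    (Polynomial.monic_X_sub_C c) ⟨?_, ?_⟩).1
  · rw [Polynomial.C_pow]
    ring
  · rw [Polynomial.degree_X_sub_C]
    exact lt_of_le_of_lt Polynomial.degree_C_le (by norm_num)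

/-- division of `X ^ 3` -/
theorem dm3 (c : ℂ) : (Polynomial.X ^ 3 : Polynomial ℂ) /ₘ (Polynomial.X - Polynomial.C c) =
    Polynomial.X ^ 2 + Polynomial.C c * Polynomial.X + Polynomial.C (c ^ 2) := by
  refine (Polynomial.div_modByMonic_unique _ (Polynomial.C (c ^ 3))
    (Polynomial.monic_X_sub_C c) ⟨?_, ?_⟩).1
  · rw [Polynomial.C_pow, Polynomial.C_pow]
    ring
  · rw [Polynomial.degree_X_sub_C]
    exact lt_of_le_of_lt Polynomial.degree_C_le (by norm_num)

/-- the derivative of `X ^ i w` along `X ^ 2` -/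
theorem th2 (μ : Fin (r + 1) → ℝ) (s : Fin (r + 1) → ℂ) (i : ℕ) :
    Thc μ s (Polynomial.X ^ 2) (Polynomial.X ^ i) =
      Polynomial.C ((i : ℂ) + 2 - ∑ j, (μ j : ℂ)) * Polynomial.X ^ (i + 1) -
        Polynomial.C (∑ j, (μ j : ℂ) * s j) * Polynomial.X ^ i := by
  have h1 : ∑ j, Polynomial.C (μ j : ℂ) *
      ((Polynomial.X ^ 2 : Polynomial ℂ) /ₘ (Polynomial.X - Polynomial.C (s j))) =
      Polynomial.C (∑ j, (μ j : ℂ)) * Polynomial.X + Polynomial.C (∑ j, (μ j : ℂ) * s j) := by
    rw [map_sum, map_sum, Finset.sum_mul, ← Finset.sum_add_distrib]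
    refine Finset.sum_congr rfl fun j _ => ?_
    rw [dm2, Polynomial.C_mul]
    ring
  unfold Thc
  rw [h1]
  rcases i with _ | i
  · simp only [pow_zero, Polynomial.derivative_one, Polynomial.derivative_X_pow, map_sub,
      map_add, Nat.cast_zero, Nat.cast_ofNat, map_ofNat, map_zero]
    ring
  · simp only [Polynomial.derivative_X_pow, map_sub, map_add, map_natCast, map_ofNat,
      Nat.cast_ofNat, Nat.add_sub_cancel, Nat.cast_add, Nat.cast_one, map_one]
    ring

/-- the derivative of `X ^ i w` along `X ^ 3` -/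
theorem th3 (μ : Fin (r + 1) → ℝ) (s : Fin (r + 1) → ℂ) (i : ℕ) :
    Thc μ s (Polynomial.X ^ 3) (Polynomial.X ^ i) =
      Polynomial.C ((i : ℂ) + 3 - ∑ j, (μ j : ℂ)) * Polynomial.X ^ (i + 2) -
        Polynomial.C (∑ j, (μ j : ℂ) * s j) * Polynomial.X ^ (i + 1) -
          Polynomial.C (∑ j, (μ j : ℂ) * s j ^ 2) * Polynomial.X ^ i := by
  have h1 : ∑ j, Polynomial.C (μ j : ℂ) *
      ((Polynomial.X ^ 3 : Polynomial ℂ) /ₘ (Polynomial.X - Polynomial.C (s j))) =
      Polynomial.C (∑ j, (μ j : ℂ)) * Polynomial.X ^ 2 +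
        Polynomial.C (∑ j, (μ j : ℂ) * s j) * Polynomial.X +
          Polynomial.C (∑ j, (μ j : ℂ) * s j ^ 2) := by
    rw [map_sum, map_sum, map_sum, Finset.sum_mul, Finset.sum_mul, ← Finset.sum_add_distrib,
      ← Finset.sum_add_distrib]
    refine Finset.sum_congr rfl fun j _ => ?_
    rw [dm3, Polynomial.C_mul, Polynomial.C_mul]
    ring
  unfold Thc
  rw [h1]
  rcases i with _ | i
  · simp only [pow_zero, Polynomial.derivative_one, Polynomial.derivative_X_pow, map_sub,
      map_add, Nat.cast_zero, Nat.cast_ofNat, map_ofNat, map_zero]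
    ring
  · simp only [Polynomial.derivative_X_pow, map_sub, map_add, map_natCast, map_ofNat,
      Nat.cast_ofNat, Nat.add_sub_cancel, Nat.cast_add, Nat.cast_one, map_one]
    ring

/-- an isotropic subspace is not too large -/
theorem iso_dim {V : Type} [AddCommGroup V] [Module ℂ V] [FiniteDimensional ℂ V]
    (ω : V →ₗ[ℂ] V →ₗ[ℂ] ℂ) (halt : ∀ v, ω v v = 0)
    (hnd : ∀ v, (∀ w, ω v w = 0) → v = 0) (W : Submodule ℂ V)
    (hW : ∀ v ∈ W, ∀ w ∈ W, ω v w = 0) : 2 * finrank ℂ W ≤ finrank ℂ V := by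
  have hr : ∀ v w, ω v w = - ω w v := by
    intro v w
    have h3 := halt (v + w)
    simp only [map_add, LinearMap.add_apply, halt] at h3
    linear_combination h3
  have hN : LinearMap.Nondegenerate ω := by
    refine ⟨fun v hv => hnd v hv, fun v hv => hnd v fun w => ?_⟩
    rw [hr, hv w, neg_zero]
  have h1 := LinearMap.BilinForm.finrank_orthogonal (B := ω) hN W
  have h2 : W ≤ LinearMap.BilinForm.orthogonal ω W := by
    intro v hv
    rw [LinearMap.BilinForm.mem_orthogonal_iff]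
    intro w hw
    exact hW w hw v hv
  have h3 := Submodule.finrank_mono h2
  have h4 := Submodule.finrank_le W
  omega

end dSp_aux

open cDj_aux dSp_aux in
theorem tdSp : S_cPv → S_cKap → S_cD → S_cJx → S_Sg → S_dSp := by
  intro hPv hKap hD hJx hSg m r b u U hU hUA ⟨s, hs, hNj⟩ h2 hsym ω g hω hg
  obtain ⟨hA, hN⟩ := hUA s hs
  have hsum : sg m r b u + sg m r b (m - u) = r := hSg m r _ b hA.2.1 u hA.2.2.1 hA.2.2.2
  obtain ⟨hnn, -, hMi, -⟩ := hKap m r b u s hA
  obtain ⟨p, hp⟩ : ∃ p, sg m r b u = p + 2 := ⟨sg m r b u - 2, by omega⟩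
  have hr : r = 2 * p + 4 := by omega
  obtain ⟨halt, hnd, hX⟩ := hω
  have hanti : ∀ v w, ω v w = - ω w v := by
    intro v w
    have h3 := halt (v + w)
    simp only [map_add, LinearMap.add_apply, halt] at h3
    linear_combination h3
  set M : ℂ := ∑ j, (mu m b u j : ℂ) with hM
  have hMn : ∀ n : ℕ, (n : ℂ) - M ≠ 0 := by
    intro n h
    refine hMi n ?_
    have h3 : ((∑ j, mu m b u j : ℝ) : ℂ) = ((n : ℝ) : ℂ) := by
      rw [Complex.ofReal_sum, Complex.ofReal_natCast]
      linear_combination -h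
    have h4 := Complex.ofReal_injective h3
    rw [h4]
    norm_cast
  -- the bracket
  have hadd : ∀ s ∈ U, ∀ (c d : ℂ) (i j : ℕ), Pc m b u s (Polynomial.C c * Polynomial.X ^ i -
      Polynomial.C d * Polynomial.X ^ j) = c • Pc m b u s (Polynomial.X ^ i) -
        d • Pc m b u s (Polynomial.X ^ j) := by
    intro s hs c d i j
    have h3 := (PL hPv (hUA s hs).1).map_sub (Polynomial.C c * Polynomial.X ^ i)
      (Polynomial.C d * Polynomial.X ^ j)
    have h4 := (hPv m r b u s (hUA s hs).1).2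
    rw [← h4, ← h4]
    exact h3
  have hadd3 : ∀ s ∈ U, ∀ (c d e : ℂ) (i j k : ℕ), Pc m b u s
      (Polynomial.C c * Polynomial.X ^ i - Polynomial.C d * Polynomial.X ^ j -
        Polynomial.C e * Polynomial.X ^ k) = c • Pc m b u s (Polynomial.X ^ i) -
        d • Pc m b u s (Polynomial.X ^ j) - e • Pc m b u s (Polynomial.X ^ k) := by
    intro s hs c d e i j k
    have h3 := (PL hPv (hUA s hs).1).map_sub (Polynomial.C c * Polynomial.X ^ i -
      Polynomial.C d * Polynomial.X ^ j) (Polynomial.C e * Polynomial.X ^ k)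
    have h4 := (hPv m r b u s (hUA s hs).1).2
    rw [← hadd s hs, ← h4]
    exact h3
  have hUA1 : ∀ s ∈ U, Admc m b u s := fun s hs => (hUA s hs).1
  -- the relations
  have d2 : ∀ i j : ℕ, (∀ s ∈ U, ω (Pc m b u s (Polynomial.X ^ i))
      (Pc m b u s (Polynomial.X ^ j)) = 0) → ∀ s ∈ U,
      ((i : ℂ) + 2 - M) * ω (Pc m b u s (Polynomial.X ^ (i + 1)))
        (Pc m b u s (Polynomial.X ^ j)) +
      ((j : ℂ) + 2 - M) * ω (Pc m b u s (Polynomial.X ^ i))
        (Pc m b u s (Polynomial.X ^ (j + 1))) = 0 := by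
    intro i j h0 s hs
    have h3 := der hKap hD hU hUA1 ω _ _ h0 hs (Polynomial.X ^ 2)
    rw [th2, th2, hadd s hs, hadd s hs] at h3
    simp only [map_sub, map_smul, LinearMap.sub_apply, LinearMap.smul_apply, smul_eq_mul,
      h0 s hs] at h3
    linear_combination h3
  have d3 : ∀ i j : ℕ, (∀ s ∈ U, ω (Pc m b u s (Polynomial.X ^ i))
      (Pc m b u s (Polynomial.X ^ j)) = 0) → ∀ s ∈ U,
      ((i : ℂ) + 3 - M) * ω (Pc m b u s (Polynomial.X ^ (i + 2)))
        (Pc m b u s (Polynomial.X ^ j)) -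
      (∑ j, (mu m b u j : ℂ) * s j) * ω (Pc m b u s (Polynomial.X ^ (i + 1)))
        (Pc m b u s (Polynomial.X ^ j)) +
      (((j : ℂ) + 3 - M) * ω (Pc m b u s (Polynomial.X ^ i))
        (Pc m b u s (Polynomial.X ^ (j + 2))) -
      (∑ j, (mu m b u j : ℂ) * s j) * ω (Pc m b u s (Polynomial.X ^ i))
        (Pc m b u s (Polynomial.X ^ (j + 1)))) = 0 := by
    intro i j h0 s hs
    have h3 := der hKap hD hU hUA1 ω _ _ h0 hs (Polynomial.X ^ 3)
    rw [th3, th3, hadd3 s hs, hadd3 s hs] at h3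
    simp only [map_sub, map_smul, LinearMap.sub_apply, LinearMap.smul_apply, smul_eq_mul,
      h0 s hs] at h3
    linear_combination h3
  have hlt : ∀ i, i ≤ p + 1 → (Polynomial.X ^ i : Polynomial ℂ).degree <
      (sg m r b u : WithBot ℕ) := by
    intro i hi
    rw [Polynomial.degree_X_pow, hp]
    exact_mod_cast (by omega : i < p + 2)
  have e0 : ∀ i j, i ≤ p + 1 → j ≤ p + 1 → ∀ s ∈ U, ω (Pc m b u s (Polynomial.X ^ i))
      (Pc m b u s (Polynomial.X ^ j)) = 0 := by
    intro i j hi hj s hs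
    exact iso hPv hJx (hUA s hs).1 (hUA s hs).2 (by omega) ⟨halt, hnd, hX⟩ (hg s hs) _ _
      (hlt i hi) (hlt j hj)
  have e1 : ∀ i, i ≤ p → ∀ s ∈ U, ω (Pc m b u s (Polynomial.X ^ i))
      (Pc m b u s (Polynomial.X ^ (p + 2))) = 0 := by
    intro i hi s hs
    have h3 := d2 i (p + 1) (e0 i (p + 1) (by omega) le_rfl) s hs
    rw [e0 (i + 1) (p + 1) (by omega) le_rfl s hs, mul_zero, zero_add] at h3
    refine (mul_eq_zero.1 h3).resolve_left ?_
    have h4 := hMn (p + 3)
    intro h5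
    apply h4
    rw [← h5]
    push_cast
    ring
  set κ := ω (Pc m b u s (Polynomial.X ^ (p + 1))) (Pc m b u s (Polynomial.X ^ (p + 2))) with hκ
  have e2 := d2 p (p + 2) (e1 p le_rfl) s hs
  have e3 := d3 p (p + 1) (e0 p (p + 1) (by omega) le_rfl) s hs
  rw [e0 (p + 1) (p + 1) le_rfl le_rfl s hs, e1 p le_rfl s hs,
    hanti (Pc m b u s (Polynomial.X ^ (p + 2))), ← hκ] at e3
  rw [← hκ] at e2
  rw [show p + 1 + 2 = p + 2 + 1 by omega] at e3
  have e4 : ((2 * p + 5 : ℕ) - 2 * M) * κ = 0 := by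
    push_cast at e2 e3 ⊢
    linear_combination e2 - e3
  have hκ0 : κ ≠ 0 := by
    intro h0
    -- the vectors span an isotropic subspace
    have hz : ∀ i j, i ≤ p + 2 → j ≤ p + 2 → ω (Pc m b u s (Polynomial.X ^ i))
        (Pc m b u s (Polynomial.X ^ j)) = 0 := by
      have h3 : ∀ i, i ≤ p + 1 → ω (Pc m b u s (Polynomial.X ^ i))
          (Pc m b u s (Polynomial.X ^ (p + 2))) = 0 := by
        intro i hi
        rcases Nat.lt_or_ge p i with h | h
        · have h4 : i = p + 1 := by omega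
          rw [h4, ← hκ, h0]
        · exact e1 i h s hs
      intro i j hi hj
      rcases Nat.lt_or_ge (p + 1) i with h | h
      · have h4 : i = p + 2 := by omega
        rw [h4]
        rcases Nat.lt_or_ge (p + 1) j with h' | h'
        · have h5 : j = p + 2 := by omega
          rw [h5]
          exact halt _
        · rw [hanti, h3 j h', neg_zero]
      · rcases Nat.lt_or_ge (p + 1) j with h' | h'
        · have h5 : j = p + 2 := by omega
          rw [h5]
          exact h3 i h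
        · exact e0 i j h h' s hs
    set W : Submodule ℂ (Fin r → ℂ) := Submodule.span ℂ
      (Set.range fun i : Fin (p + 3) => Pc m b u s (Polynomial.X ^ (i : ℕ))) with hW
    have hWi : ∀ v ∈ W, ∀ w ∈ W, ω v w = 0 := by
      intro v hv w hw
      refine Submodule.span_induction₂ (p := fun v w _ _ => ω v w = 0) ?_ ?_ ?_ ?_ ?_ ?_ ?_ hv hw
      · rintro _ _ ⟨i, rfl⟩ ⟨j, rfl⟩
        exact hz _ _ (by omega) (by omega)
      · intro y _
        rw [map_zero, LinearMap.zero_apply]
      · intro y _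
        rw [map_zero]
      · intro x y z _ _ _ h3 h4
        rw [map_add, LinearMap.add_apply, h3, h4, add_zero]
      · intro x y z _ _ _ h3 h4
        rw [map_add, h3, h4, add_zero]
      · intro c x y _ _ h3
        rw [map_smul, LinearMap.smul_apply, h3, smul_zero]
      · intro c x y _ _ h3
        rw [map_smul, h3, smul_zero]
    have hli : LinearIndependent ℂ
        (fun i : Fin (p + 3) => Pc m b u s (Polynomial.X ^ (i : ℕ))) := by
      rw [Fintype.linearIndependent_iff]
      intro c hc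
      set f : Polynomial ℂ := ∑ i : Fin (p + 3), Polynomial.C (c i) * Polynomial.X ^ (i : ℕ)
        with hf
      have h3 : Pc m b u s f = 0 := by
        rw [hf, pv_sum hPv hA]
        exact hc
      have h4 : f.degree < (r : WithBot ℕ) := by
        refine lt_of_lt_of_le (Polynomial.degree_sum_fin_lt _) ?_
        exact_mod_cast (by omega : p + 3 ≤ r)
      have h5 : f = 0 := by
        refine hNj f h4 fun k => ?_
        have h6 := congrFun h3 k
        have h7 : kap m b u k * Ic (mu m b u) s k (fun x => f.eval x) = 0 := h6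
        exact (mul_eq_zero.1 h7).resolve_left ((hKap m r b u s hA).2.2.2 k).1
      intro i
      have h6 : f.coeff i = c i := by
        rw [hf, Polynomial.finsetSum_coeff, Finset.sum_eq_single i]
        · simp
        · intro i' _ hi'
          rw [Polynomial.coeff_C_mul_X_pow, if_neg]
          intro h3
          exact hi' (Fin.ext h3).symm
        · intro h3
          exact absurd (Finset.mem_univ i) h3
      rw [← h6, h5, Polynomial.coeff_zero]
    have h3 := iso_dim ω halt hnd W hWi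
    rw [hW, finrank_span_eq_card hli, Fintype.card_fin, Module.finrank_fin_fun] at h3
    omega
  have e5 : ((2 * p + 5 : ℕ) : ℂ) - 2 * M = 0 := (mul_eq_zero.1 e4).resolve_right hκ0
  -- arithmetic
  have hm3 : 3 ≤ m := hA.2.1.1
  have e6 : 2 * ∑ j, nn m b u j = (r + 1) * m := by
    have h3 : 2 * ∑ j, (mu m b u j) = (r : ℝ) + 1 := by
      have h4 : ((2 * ∑ j, (mu m b u j) : ℝ) : ℂ) = (((r : ℝ) + 1 : ℝ) : ℂ) := by
        push_cast
        rw [← hM, hr]
        push_cast at e5 ⊢
        linear_combination -e5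
      exact Complex.ofReal_injective h4
    have h5 : ∑ j, mu m b u j = (∑ j, (nn m b u j : ℝ)) / m := by
      rw [Finset.sum_div]
      rfl
    have hm0 : (m : ℝ) ≠ 0 := by
      have : 0 < m := by omega
      positivity
    rw [h5] at h3
    have h6 : 2 * (∑ j, (nn m b u j : ℝ)) = ((r : ℝ) + 1) * m := by
      field_simp at h3
      linear_combination h3
    exact_mod_cast h6
  have e7 : ∑ j, nn m b u j + ∑ j, (u * b j) % m = (r + 1) * m := by
    rw [← Finset.sum_add_distrib]
    have h3 : ∀ j ∈ (Finset.univ : Finset (Fin (r + 1))), nn m b u j + (u * b j) % m = m := by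
      intro j _
      have h4 : (u * b j) % m < m := Nat.mod_lt _ (by omega)
      unfold nn
      omega
    rw [Finset.sum_congr rfl h3, Finset.sum_const, Finset.card_univ, Fintype.card_fin,
      smul_eq_mul]
  have e8 : m ∣ 2 * ∑ j, (u * b j) % m := ⟨r + 1, by
    have h3 := e6
    have h4 := e7
    set S := ∑ j, nn m b u j
    set T := ∑ j, (u * b j) % m
    rw [mul_comm m]
    omega⟩
  have e9 : m ∣ u * (2 * ∑ j, b j) := by
    have h3 : u * (2 * ∑ j, b j) = 2 * ∑ j, u * b j := by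
      rw [← Finset.mul_sum]
      ring
    rw [h3]
    have h4 : (∑ j, u * b j) % m = (∑ j, (u * b j) % m) % m := Finset.sum_nat_mod _ _ _
    have h5 : (2 * ∑ j, u * b j) ≡ (2 * ∑ j, (u * b j) % m) [MOD m] :=
      Nat.ModEq.mul_left 2 h4
    exact (Nat.ModEq.dvd_iff h5 dvd_rfl).2 e8
  exact (Nat.Coprime.dvd_of_dvd_mul_left hA.2.2.2.symm e9)

end SEB
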