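import Pool.Agent.Lib.SE.Big.VG6
import Pool.Agent.Lib.SE.Big.dSp
import Pool.Agent.Lib.SE.Big.cRk1

/-!
# PROJECT SE, module IsBig, part 8, module gSp: no constant symplectic form except for `μ = 1/2`
-/

set_option autoImplicit false

open Module MeasureTheory Topology

noncomputable section

namespace SEB

open HC HC.E HC.SE

namespace gSp_aux

open cRk1_aux

/-- the difference of two quotients -/
theorem dd_sub (F : Polynomial ℂ) (c c' : ℂ) :
    F /ₘ (Polynomial.X - Polynomial.C c') - F /ₘ (Polynomial.X - Polynomial.C c) =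
      Polynomial.C (c' - c) * ((F /ₘ (Polynomial.X - Polynomial.C c)) /ₘ
        (Polynomial.X - Polynomial.C c')) := by
  refine mul_left_cancel₀ (Polynomial.X_sub_C_ne_zero c') ?_
  have h1 := mul_dv F c'
  have h2 := mul_dv F c
  have h3 := mul_dv (F /ₘ (Polynomial.X - Polynomial.C c)) c'
  have h4 := congrArg (Polynomial.eval c') h2
  simp only [Polynomial.eval_mul, Polynomial.eval_sub, Polynomial.eval_X,
    Polynomial.eval_C] at h4
  have h5 : (Polynomial.C c' - Polynomial.C c) *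
      Polynomial.C (Polynomial.eval c' (F /ₘ (Polynomial.X - Polynomial.C c))) =
      Polynomial.C (Polynomial.eval c' F) - Polynomial.C (Polynomial.eval c F) := by
    rw [← Polynomial.C_sub, ← Polynomial.C_mul, h4, Polynomial.C_sub]
  rw [Polynomial.C_sub]
  linear_combination h1 - h2 - (Polynomial.C c' - Polynomial.C c) * h3 + h5

section
variable {r : ℕ} (μ : Fin (r + 1) → ℝ) (s : Fin (r + 1) → ℂ) (j : Fin (r + 1))

/-- The product of the other factors. -/
def Aj : Polynomial ℂ :=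
  ∏ l ∈ Finset.univ.erase j, (Polynomial.X - Polynomial.C (s l))

theorem mul_Aj : (Polynomial.X - Polynomial.C (s j)) * Aj s j = Q s :=
  Finset.mul_prod_erase Finset.univ (fun l => Polynomial.X - Polynomial.C (s l))
    (Finset.mem_univ j)

theorem eval_Aj {l : Fin (r + 1)} (h : l ≠ j) : (Aj s j).eval (s l) = 0 := by
  rw [Aj, Polynomial.eval_prod]
  refine Finset.prod_eq_zero (Finset.mem_erase.2 ⟨h, Finset.mem_univ l⟩) ?_
  simp

theorem eval_Aj_ne (hs : Function.Injective s) : (Aj s j).eval (s j) ≠ 0 := by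
  rw [Aj, Polynomial.eval_prod]
  refine Finset.prod_ne_zero_iff.2 fun k hk => ?_
  rw [Finset.mem_erase] at hk
  rw [Polynomial.eval_sub, Polynomial.eval_X, Polynomial.eval_C, sub_ne_zero]
  exact fun h => hk.1 (hs h).symm

theorem monic_Aj : (Aj s j).Monic :=
  Polynomial.monic_prod_of_monic _ _ fun _ _ => Polynomial.monic_X_sub_C _

theorem natDegree_Aj : (Aj s j).natDegree = r := by
  rw [Aj, Polynomial.natDegree_prod_of_monic _ _ fun _ _ => Polynomial.monic_X_sub_C _]
  simp only [Polynomial.natDegree_X_sub_C, Finset.sum_const, smul_eq_mul, mul_one]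
  rw [Finset.card_erase_of_mem (Finset.mem_univ j), Finset.card_univ, Fintype.card_fin]
  rfl

theorem sum_er (F : Polynomial ℂ) :
    ∑ l, Polynomial.C (μ l : ℂ) * (F /ₘ (Polynomial.X - Polynomial.C (s l))) =
      ∑ l ∈ Finset.univ.erase j,
        Polynomial.C (μ l : ℂ) * (F /ₘ (Polynomial.X - Polynomial.C (s l))) +
      Polynomial.C (μ j : ℂ) * (F /ₘ (Polynomial.X - Polynomial.C (s j))) :=
  (Finset.sum_erase_add _ _ (Finset.mem_univ j)).symm

theorem dv_Q_ne {l : Fin (r + 1)} (h : l ≠ j) :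
    Q s /ₘ (Polynomial.X - Polynomial.C (s l)) = (Polynomial.X - Polynomial.C (s j)) *
      (Aj s j /ₘ (Polynomial.X - Polynomial.C (s l))) := by
  refine dv_unique ?_
  rw [eval_Q, Polynomial.C_0, sub_zero, mul_left_comm, mul_dv, eval_Aj s j h, Polynomial.C_0,
    sub_zero, mul_Aj]

theorem dv_Q_self : Q s /ₘ (Polynomial.X - Polynomial.C (s j)) = Aj s j := by
  refine dv_unique ?_
  rw [eval_Q, Polynomial.C_0, sub_zero, mul_Aj]

/-- The sum for `Q`. -/
theorem sum_Q :
    ∑ l, Polynomial.C (μ l : ℂ) * (Q s /ₘ (Polynomial.X - Polynomial.C (s l))) =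
      (Polynomial.X - Polynomial.C (s j)) * (∑ l ∈ Finset.univ.erase j,
        Polynomial.C (μ l : ℂ) * (Aj s j /ₘ (Polynomial.X - Polynomial.C (s l)))) +
      Polynomial.C (μ j : ℂ) * Aj s j := by
  rw [sum_er μ s j, dv_Q_self, Finset.mul_sum]
  congr 1
  refine Finset.sum_congr rfl fun l hl => ?_
  rw [dv_Q_ne s j (Finset.mem_erase.1 hl).1]
  ring

theorem dv_A_ne {l : Fin (r + 1)} (h : l ≠ j) :
    Aj s j /ₘ (Polynomial.X - Polynomial.C (s l)) = (Polynomial.X - Polynomial.C (s j)) *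
      ((Aj s j /ₘ (Polynomial.X - Polynomial.C (s j))) /ₘ
        (Polynomial.X - Polynomial.C (s l))) +
      Polynomial.C ((Aj s j /ₘ (Polynomial.X - Polynomial.C (s j))).eval (s l)) := by
  refine dv_unique ?_
  have h1 := mul_dv (Aj s j) (s j)
  have h2 := mul_dv (Aj s j /ₘ (Polynomial.X - Polynomial.C (s j))) (s l)
  have h3 := congrArg (Polynomial.eval (s l)) h1
  simp only [Polynomial.eval_mul, Polynomial.eval_sub, Polynomial.eval_X,
    Polynomial.eval_C, eval_Aj s j h] at h3
  have h4 : (Polynomial.C (s l) - Polynomial.C (s j)) *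
      Polynomial.C ((Aj s j /ₘ (Polynomial.X - Polynomial.C (s j))).eval (s l)) =
      - Polynomial.C ((Aj s j).eval (s j)) := by
    rw [← Polynomial.C_sub, ← Polynomial.C_mul, h3, zero_sub, Polynomial.C_neg]
  rw [eval_Aj s j h, Polynomial.C_0, sub_zero]
  linear_combination (Polynomial.X - Polynomial.C (s j)) * h2 + h1 - h4

/-- The sum for `A` and the sum for `δ`. -/
theorem sum_A :
    ∑ l ∈ Finset.univ.erase j,
      Polynomial.C (μ l : ℂ) * (Aj s j /ₘ (Polynomial.X - Polynomial.C (s l))) =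
    (Polynomial.X - Polynomial.C (s j)) * (∑ l ∈ Finset.univ.erase j, Polynomial.C (μ l : ℂ) *
      ((Aj s j /ₘ (Polynomial.X - Polynomial.C (s j))) /ₘ
        (Polynomial.X - Polynomial.C (s l)))) +
      ∑ l ∈ Finset.univ.erase j, Polynomial.C (μ l : ℂ) *
        Polynomial.C ((Aj s j /ₘ (Polynomial.X - Polynomial.C (s j))).eval (s l)) := by
  rw [Finset.mul_sum, ← Finset.sum_add_distrib]
  refine Finset.sum_congr rfl fun l hl => ?_
  rw [dv_A_ne s j (Finset.mem_erase.1 hl).1]
  ring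

/-- The derivative of `y f w` along `A`. -/
theorem th_Aj (f : Polynomial ℂ) :
    Thc μ s (Aj s j) ((Polynomial.X - Polynomial.C (s j)) * f) =
      Thc μ s (Q s) f + Polynomial.C ((μ j : ℂ) * (Aj s j).eval (s j)) * f := by
  have h1 : Polynomial.derivative ((Polynomial.X - Polynomial.C (s j)) * Aj s j) =
      Polynomial.derivative (Q s) := by rw [mul_Aj]
  rw [Polynomial.derivative_mul, Polynomial.derivative_sub, Polynomial.derivative_X,
    Polynomial.derivative_C, sub_zero, one_mul] at h1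
  have h2 := mul_Aj s j
  have h3 := mul_dv (Aj s j) (s j)
  unfold Thc
  rw [sum_Q μ s j, sum_er μ s j (Aj s j), Polynomial.derivative_mul, Polynomial.derivative_sub,
    Polynomial.derivative_X, Polynomial.derivative_C, sub_zero, one_mul, Polynomial.C_mul]
  linear_combination f * h1 + Polynomial.derivative f * h2 - Polynomial.C (μ j : ℂ) * f * h3

/-- The derivative of `(X - c) w` along `a`. -/
theorem th_y (a : Polynomial ℂ) (c : ℂ) :
    Thc μ s a (Polynomial.X - Polynomial.C c) =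
      Thc μ s (a * (Polynomial.X - Polynomial.C c)) 1 +
        Polynomial.C (∑ l, (μ l : ℂ) * a.eval (s l)) := by
  have h1 : ∀ l, (a * (Polynomial.X - Polynomial.C c)) /ₘ (Polynomial.X - Polynomial.C (s l)) =
      (Polynomial.X - Polynomial.C c) * (a /ₘ (Polynomial.X - Polynomial.C (s l))) +
        Polynomial.C (a.eval (s l)) := by
    intro l
    refine dv_unique ?_
    have h2 := mul_dv a (s l)
    rw [Polynomial.eval_mul, Polynomial.C_mul, Polynomial.eval_sub, Polynomial.eval_X,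
      Polynomial.eval_C, Polynomial.C_sub]
    linear_combination (Polynomial.X - Polynomial.C c) * h2
  have h3 : ∑ l, Polynomial.C (μ l : ℂ) * ((a * (Polynomial.X - Polynomial.C c)) /ₘ
      (Polynomial.X - Polynomial.C (s l))) = (Polynomial.X - Polynomial.C c) *
        (∑ l, Polynomial.C (μ l : ℂ) * (a /ₘ (Polynomial.X - Polynomial.C (s l)))) +
          Polynomial.C (∑ l, (μ l : ℂ) * a.eval (s l)) := by
    rw [map_sum, Finset.mul_sum, ← Finset.sum_add_distrib]
    refine Finset.sum_congr rfl fun l _ => ?_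
    rw [h1, Polynomial.C_mul]
    ring
  rw [Th_one, h3]
  unfold Thc
  rw [Polynomial.derivative_mul, Polynomial.derivative_sub, Polynomial.derivative_X,
    Polynomial.derivative_C, sub_zero, one_mul]
  ring

theorem th_C (x : ℂ) : Thc μ s (Polynomial.C x) 1 = 0 := by
  rw [Th_one, Polynomial.derivative_C, zero_sub, neg_eq_zero]
  refine Finset.sum_eq_zero fun l _ => ?_
  have h : (Polynomial.C x : Polynomial ℂ) /ₘ (Polynomial.X - Polynomial.C (s l)) = 0 := by
    refine dv_unique ?_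
    rw [Polynomial.eval_C, sub_self, mul_zero]
  rw [h, mul_zero]

end

/-- the algebra of the identity -/
theorem ident_alg {R : Type} [CommRing R] [IsDomain R]
    {A δ κ h q S T A' δ' q' h' y α Q0 D M δ0 : R} (hy : y ≠ 0)
    (ha : y * δ = A - α) (hb : y * κ = δ - δ0) (hc : y * h = q - Q0) (hS : S = y * T + D)
    (hq : q = A' - S - M * δ) (hh' : y * h' + h = q') (hδ' : y * δ' + δ = A')
    (hQ0 : Q0 = δ0 - D - M * δ0) :
    q' * A + q * q - M * α * κ = M * α * (δ' - T - M * κ) + Q0 * q +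
      (h' * (y * A) + h * ((A + y * A') - (y * S + M * A))) := by
  have h1 : h = δ' - T + (1 - M) * κ := by
    refine mul_left_cancel₀ hy ?_
    linear_combination hc - hδ' - hS - (1 - M) * hb + hq - hQ0
  linear_combination -A * hh' - (A' - S) * hc + (q - Q0) * hq + M * δ * hc - M * h * ha +
    M * α * h1

section
variable {r : ℕ} (μ : Fin (r + 1) → ℝ) (s : Fin (r + 1) → ℂ) (j : Fin (r + 1))

/-- THE IDENTITY (9). -/
theorem ident {q δ κ h : Polynomial ℂ} (hq : q = Thc μ s (Aj s j) 1)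
    (hδ : δ = Aj s j /ₘ (Polynomial.X - Polynomial.C (s j)))
    (hκ : κ = δ /ₘ (Polynomial.X - Polynomial.C (s j)))
    (hh : h = q /ₘ (Polynomial.X - Polynomial.C (s j))) :
    Thc μ s (Aj s j) q - Polynomial.C ((μ j : ℂ) * (Aj s j).eval (s j)) * κ =
      Polynomial.C ((μ j : ℂ) * (Aj s j).eval (s j)) * Thc μ s δ 1 +
        Polynomial.C (q.eval (s j)) * q + Thc μ s (Q s) h := by
  have ha := mul_dv (Aj s j) (s j)
  rw [← hδ] at ha
  have hb := mul_dv δ (s j)
  rw [← hκ] at hb
  have hc := mul_dv q (s j)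
  rw [← hh] at hc
  have hS := sum_A μ s j
  rw [← hδ] at hS
  set S := ∑ l ∈ Finset.univ.erase j,
      Polynomial.C (μ l : ℂ) * (Aj s j /ₘ (Polynomial.X - Polynomial.C (s l))) with hSd
  set T := ∑ l ∈ Finset.univ.erase j,
      Polynomial.C (μ l : ℂ) * (δ /ₘ (Polynomial.X - Polynomial.C (s l))) with hTd
  set D := ∑ l ∈ Finset.univ.erase j,
      Polynomial.C (μ l : ℂ) * Polynomial.C (δ.eval (s l)) with hDd
  have hDC : D = Polynomial.C (∑ l ∈ Finset.univ.erase j, (μ l : ℂ) * δ.eval (s l)) := by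
    rw [hDd, map_sum]
    exact Finset.sum_congr rfl fun l _ => (Polynomial.C_mul).symm
  have hq2 : q = Polynomial.derivative (Aj s j) - S - Polynomial.C (μ j : ℂ) * δ := by
    rw [hq, Th_one, sum_er μ s j, ← hSd, ← hδ]
    ring
  have hh' : (Polynomial.X - Polynomial.C (s j)) * Polynomial.derivative h + h =
      Polynomial.derivative q := by
    have h1 := congrArg Polynomial.derivative hc
    rw [Polynomial.derivative_mul, Polynomial.derivative_sub, Polynomial.derivative_sub,
      Polynomial.derivative_X, Polynomial.derivative_C, Polynomial.derivative_C] at h1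
    linear_combination h1
  have hδ' : (Polynomial.X - Polynomial.C (s j)) * Polynomial.derivative δ + δ =
      Polynomial.derivative (Aj s j) := by
    have h1 := congrArg Polynomial.derivative ha
    rw [Polynomial.derivative_mul, Polynomial.derivative_sub, Polynomial.derivative_sub,
      Polynomial.derivative_X, Polynomial.derivative_C, Polynomial.derivative_C] at h1
    linear_combination h1
  have hQ0 : Polynomial.C (q.eval (s j)) = Polynomial.C (δ.eval (s j)) - D -
      Polynomial.C (μ j : ℂ) * Polynomial.C (δ.eval (s j)) := by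
    have h1 := congrArg (Polynomial.eval (s j)) hq2
    have h2 := congrArg (Polynomial.eval (s j)) hδ'
    have h3 := congrArg (Polynomial.eval (s j)) hS
    rw [hDC] at h3
    simp only [Polynomial.eval_mul, Polynomial.eval_sub, Polynomial.eval_add, Polynomial.eval_X,
      Polynomial.eval_C, sub_self, zero_mul, zero_add] at h1 h2 h3
    rw [hDC, h1, h3, ← h2, ← Polynomial.C_mul, ← Polynomial.C_sub, ← Polynomial.C_sub]
  have h1 := ident_alg (Polynomial.X_sub_C_ne_zero (s j)) ha hb hc hS hq2 hh' hδ' hQ0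
  have h2 : Polynomial.derivative (Q s) = Aj s j +
      (Polynomial.X - Polynomial.C (s j)) * Polynomial.derivative (Aj s j) := by
    rw [← mul_Aj s j, Polynomial.derivative_mul, Polynomial.derivative_sub,
      Polynomial.derivative_X, Polynomial.derivative_C, sub_zero, one_mul]
  have e1 : Thc μ s (Aj s j) q = Polynomial.derivative q * Aj s j + q * q := by
    unfold Thc
    rw [sum_er μ s j, ← hSd, ← hδ]
    linear_combination (-q) * hq2
  have e2 : Thc μ s δ 1 = Polynomial.derivative δ - T - Polynomial.C (μ j : ℂ) * κ := by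
    rw [Th_one, sum_er μ s j, ← hTd, ← hκ]
    ring
  have e3 : Thc μ s (Q s) h = Polynomial.derivative h *
      ((Polynomial.X - Polynomial.C (s j)) * Aj s j) + h * ((Aj s j +
        (Polynomial.X - Polynomial.C (s j)) * Polynomial.derivative (Aj s j)) -
          ((Polynomial.X - Polynomial.C (s j)) * S + Polynomial.C (μ j : ℂ) * Aj s j)) := by
    unfold Thc
    rw [sum_Q μ s j, ← hSd, h2, mul_Aj]
  rw [e1, e2, e3, Polynomial.C_mul]
  exact h1

end

/-- a maximal isotropic subspace -/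
theorem max_iso {V : Type} [AddCommGroup V] [Module ℂ V] [FiniteDimensional ℂ V]
    (ω : V →ₗ[ℂ] V →ₗ[ℂ] ℂ) (halt : ∀ v, ω v v = 0)
    (hnd : ∀ v, (∀ w, ω v w = 0) → v = 0) (W : Submodule ℂ V)
    (hW : ∀ v ∈ W, ∀ w ∈ W, ω v w = 0) (hd : finrank ℂ V ≤ 2 * finrank ℂ W) (x : V)
    (hx : ∀ w ∈ W, ω w x = 0) : x ∈ W := by
  have hr : ∀ v w, ω v w = - ω w v := by
    intro v w
    have h3 := halt (v + w)
    simp only [map_add, LinearMap.add_apply, halt] at h3
    linear_combination h3
  by_contra hxW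
  have h1 : W < W ⊔ Submodule.span ℂ {x} := by
    refine lt_of_le_of_ne le_sup_left fun h => hxW ?_
    rw [h]
    exact Submodule.mem_sup_right (Submodule.mem_span_singleton_self x)
  have h2 := Submodule.finrank_lt_finrank_of_lt h1
  have h3 := dSp_aux.iso_dim ω halt hnd (W ⊔ Submodule.span ℂ {x}) (by
    intro v hv w hw
    obtain ⟨v1, hv1, v2, hv2, rfl⟩ := Submodule.mem_sup.1 hv
    obtain ⟨w1, hw1, w2, hw2, rfl⟩ := Submodule.mem_sup.1 hw
    obtain ⟨c, rfl⟩ := Submodule.mem_span_singleton.1 hv2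
    obtain ⟨d, rfl⟩ := Submodule.mem_span_singleton.1 hw2
    have e1 := hW v1 hv1 w1 hw1
    have e2 := hx v1 hv1
    have e3 : ω x w1 = 0 := by rw [hr, hx w1 hw1, neg_zero]
    simp only [map_add, map_smul, LinearMap.add_apply, LinearMap.smul_apply, e1, e2, e3, halt,
      smul_zero, add_zero])
  omega

/-- the derivative of `ε G(ε)` at `0` -/
theorem smul_deriv {n : ℕ} {G : ℝ → (Fin n → ℂ)} (hG : ContinuousAt G 0) :
    HasDerivAt (fun ε : ℝ => (ε : ℂ) • G ε) (G 0) 0 := by
  rw [hasDerivAt_iff_tendsto_slope_zero]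
  have h1 : Filter.Tendsto G (𝓝[≠] 0) (𝓝 (G 0)) := hG.tendsto.mono_left nhdsWithin_le_nhds
  refine h1.congr' ?_
  filter_upwards [self_mem_nhdsWithin] with t ht
  have ht' : (t : ℝ) ≠ 0 := ht
  rw [zero_add, Complex.ofReal_zero, zero_smul, sub_zero]
  funext k
  simp only [Pi.smul_apply, smul_eq_mul, Complex.real_smul, Complex.ofReal_inv]
  rw [← mul_assoc, inv_mul_cancel₀ (Complex.ofReal_ne_zero.2 ht'), one_mul]

end gSp_aux

open cDj_aux dSp_aux cRk1_aux gSp_aux in
theorem tgSp : S_cPv → S_cKap → S_cD → S_cE → S_cJx → S_Sg → S_gSp := by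
  intro hPv hKap hD hE hJx hSg m r b u U hU hUA ⟨s, hs, hNj⟩ h2 hsym ω g hω hg j
  obtain ⟨hA, hN⟩ := hUA s hs
  have hsum : sg m r b u + sg m r b (m - u) = r := hSg m r _ b hA.2.1 u hA.2.2.1 hA.2.2.2
  obtain ⟨hnn, hExq, hMi, hkap⟩ := hKap m r b u s hA
  obtain ⟨halt, hnd, hX⟩ := hω
  have hanti : ∀ v w, ω v w = - ω w v := by
    intro v w
    have h3 := halt (v + w)
    simp only [map_add, LinearMap.add_apply, halt] at h3
    linear_combination h3
  have hsi : ∀ s ∈ U, Function.Injective s := fun s hs => (hUA s hs).1.2.1.2.1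
  have hUA1 : ∀ s ∈ U, Admc m b u s := fun s hs => (hUA s hs).1
  -- linearity
  have padd : ∀ s ∈ U, ∀ f g : Polynomial ℂ, Pc m b u s (f + g) =
      Pc m b u s f + Pc m b u s g := fun s hs => (hPv m r b u s (hUA1 s hs)).1
  have psub : ∀ s ∈ U, ∀ f g : Polynomial ℂ, Pc m b u s (f - g) =
      Pc m b u s f - Pc m b u s g := fun s hs f g => (PL hPv (hUA1 s hs)).map_sub f g
  have pC : ∀ s ∈ U, ∀ (c : ℂ) (f : Polynomial ℂ), Pc m b u s (Polynomial.C c * f) =
      c • Pc m b u s f := fun s hs => (hPv m r b u s (hUA1 s hs)).2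
  have pC1 : ∀ s ∈ U, ∀ (c : ℂ), Pc m b u s (Polynomial.C c) = c • Pc m b u s 1 := by
    intro s hs c
    rw [← pC s hs, mul_one]
  have pQ : ∀ s ∈ U, ∀ f : Polynomial ℂ, Pc m b u s (Thc (mu m b u) s (Q s) f) = 0 := by
    intro s hs f
    funext k
    have h1 : Ic (mu m b u) s k (fun x => (Thc (mu m b u) s (Q s) f).eval x) = 0 :=
      hE r (mu m b u) s hExq (hUA1 s hs).1 f k
    change kap m b u k * Ic (mu m b u) s k (fun x => (Thc (mu m b u) s (Q s) f).eval x) = 0
    rw [h1, mul_zero]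
  -- (0)
  have hB0 : ∀ s ∈ U, ∀ f₁ f₂ : Polynomial ℂ, f₁.degree < (sg m r b u : WithBot ℕ) →
      f₂.degree < (sg m r b u : WithBot ℕ) → ω (Pc m b u s f₁) (Pc m b u s f₂) = 0 := by
    intro s hs f₁ f₂ h1 h3
    exact iso hPv hJx (hUA s hs).1 (hUA s hs).2 (by omega) ⟨halt, hnd, hX⟩ (hg s hs) _ _ h1 h3
  have hd1 : (1 : Polynomial ℂ).degree < (sg m r b u : WithBot ℕ) := by
    rw [Polynomial.degree_one]
    exact_mod_cast (by omega : 0 < sg m r b u)
  have hdy : ∀ c : ℂ, (Polynomial.X - Polynomial.C c).degree < (sg m r b u : WithBot ℕ) := by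
    intro c
    rw [Polynomial.degree_X_sub_C]
    exact_mod_cast (by omega : 1 < sg m r b u)
  -- (4)
  have h4 : ∀ s ∈ U, ∀ (c : ℂ) (a : Polynomial ℂ), ω (Pc m b u s (Polynomial.X - Polynomial.C c))
      (Pc m b u s (Thc (mu m b u) s a 1)) = ω (Pc m b u s 1)
        (Pc m b u s (Thc (mu m b u) s (a * (Polynomial.X - Polynomial.C c)) 1)) := by
    intro s hs c a
    have h := der hKap hD hU hUA1 ω (Polynomial.X - Polynomial.C c) 1
      (fun s hs => hB0 s hs _ _ (hdy c) hd1) hs a
    rw [th_y, padd s hs, pC1 s hs, map_add, map_smul, LinearMap.add_apply,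
      LinearMap.smul_apply, halt, smul_zero, add_zero] at h
    rw [hanti (Pc m b u s 1)]
    linear_combination h
  -- (5)
  have h5 : ∀ s ∈ U, ω (Pc m b u s (Polynomial.X - Polynomial.C (s j)))
      (Pc m b u s (Thc (mu m b u) s (Aj s j) 1)) = 0 := by
    intro s hs
    rw [h4 s hs, mul_comm, mul_Aj, pQ s hs, map_zero]
  set α : ℂ := (Aj s j).eval (s j) with hα
  have hα0 : α ≠ 0 := eval_Aj_ne s j (hsi s hs)
  obtain ⟨δ, hδ⟩ : ∃ δ, δ = Aj s j /ₘ (Polynomial.X - Polynomial.C (s j)) := ⟨_, rfl⟩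
  obtain ⟨q, hq⟩ : ∃ q, q = Thc (mu m b u) s (Aj s j) 1 := ⟨_, rfl⟩
  obtain ⟨κ, hκ⟩ : ∃ κ, κ = δ /ₘ (Polynomial.X - Polynomial.C (s j)) := ⟨_, rfl⟩
  obtain ⟨h, hh⟩ : ∃ h, h = q /ₘ (Polynomial.X - Polynomial.C (s j)) := ⟨_, rfl⟩
  have h5' : ω (Pc m b u s (Polynomial.X - Polynomial.C (s j))) (Pc m b u s q) = 0 := by
    rw [hq]
    exact h5 s hs
  -- (6)
  have h6 : ω (Pc m b u s (Polynomial.X - Polynomial.C (s j)))
      (Pc m b u s (Thc (mu m b u) s δ 1)) = ω (Pc m b u s 1) (Pc m b u s q) := by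
    have e1 : δ * (Polynomial.X - Polynomial.C (s j)) = Aj s j + Polynomial.C (-α) := by
      have e2 := mul_dv (Aj s j) (s j)
      rw [← hδ, ← hα] at e2
      rw [Polynomial.C_neg]
      linear_combination e2
    rw [h4 s hs, e1, Th_one_add, th_C, add_zero, ← hq]
  -- (7)
  have hsl : ∀ l, l ≠ j → ∀ ε : ℝ, s l + (ε : ℂ) * (Aj s j).eval (s l) = s l := by
    intro l hl ε
    rw [eval_Aj s j hl, mul_zero, add_zero]
  set σ : ℝ → Fin (r + 1) → ℂ := fun ε i => s i + (ε : ℂ) * (Aj s j).eval (s i) with hσ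
  have hσ0 : σ 0 = s := by
    funext i
    simp [hσ]
  have hσj : ∀ ε, σ ε j = s j + (ε : ℂ) * α := fun ε => rfl
  have hσc : Continuous σ := by
    refine continuous_pi fun i => ?_
    exact continuous_const.add (Complex.continuous_ofReal.mul continuous_const)
  have hev : ∀ᶠ ε in 𝓝 (0 : ℝ), σ ε ∈ U := by
    refine hσc.continuousAt.eventually_mem ?_
    rw [hσ0]
    exact hU.mem_nhds hs
  have hAσ : ∀ ε, Aj (σ ε) j = Aj s j := by
    intro ε
    refine Finset.prod_congr rfl fun l hl => ?_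
    rw [show σ ε l = s l from hsl l (Finset.mem_erase.1 hl).1 ε]
  have hqσ : ∀ ε, Thc (mu m b u) (σ ε) (Aj s j) 1 = q -
      Polynomial.C ((mu m b u j : ℂ) * ((ε : ℂ) * α)) *
        (δ /ₘ (Polynomial.X - Polynomial.C (σ ε j))) := by
    intro ε
    have e1 := dd_sub (Aj s j) (s j) (σ ε j)
    rw [← hδ, hσj, add_sub_cancel_left, ← hσj] at e1
    have e2 : ∑ l ∈ Finset.univ.erase j, Polynomial.C (mu m b u l : ℂ) *
        (Aj s j /ₘ (Polynomial.X - Polynomial.C (σ ε l))) = ∑ l ∈ Finset.univ.erase j,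
          Polynomial.C (mu m b u l : ℂ) * (Aj s j /ₘ (Polynomial.X - Polynomial.C (s l))) := by
      refine Finset.sum_congr rfl fun l hl => ?_
      rw [show σ ε l = s l from hsl l (Finset.mem_erase.1 hl).1 ε]
    rw [hq, Th_one, Th_one, sum_er _ (σ ε) j, sum_er _ s j, e2, ← hδ, Polynomial.C_mul]
    linear_combination -Polynomial.C (mu m b u j : ℂ) * e1
  set K : ℝ → (Fin r → ℂ) := fun ε => ∑ i : Fin (r + 1),
    (δ /ₘ (Polynomial.X - Polynomial.C (σ ε j))).coeff (i : ℕ) •
      Pc m b u (σ ε) (Polynomial.X ^ (i : ℕ)) with hK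
  have hdδ : ∀ c : ℂ, (δ /ₘ (Polynomial.X - Polynomial.C c)).degree <
      ((r + 1 : ℕ) : WithBot ℕ) := by
    intro c
    refine lt_of_le_of_lt (Polynomial.degree_divByMonic_le _ _) ?_
    rw [hδ]
    refine lt_of_le_of_lt (Polynomial.degree_divByMonic_le _ _) ?_
    refine lt_of_le_of_lt Polynomial.degree_le_natDegree ?_
    rw [natDegree_Aj]
    exact_mod_cast Nat.lt_succ_self r
  have hKe : ∀ ε, σ ε ∈ U → Pc m b u (σ ε) (δ /ₘ (Polynomial.X - Polynomial.C (σ ε j))) =
      K ε := by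
    intro ε hε
    exact pv_eq hPv (hUA1 _ hε) (r + 1) _ (hdδ _)
  have hPd : ∀ f : Polynomial ℂ, HasDerivAt (fun ε : ℝ => Pc m b u (σ ε) f)
      (Pc m b u s (Thc (mu m b u) s (Aj s j) f)) 0 := fun f => Pc_deriv hKap hD hA (Aj s j) f
  have hKc : ContinuousAt K 0 := by
    rw [hK]
    refine tendsto_finsetSum _ fun i _ => ?_
    refine Filter.Tendsto.smul ?_ (hPd _).continuousAt
    have e1 : Continuous fun ε : ℝ =>
        (δ /ₘ (Polynomial.X - Polynomial.C (σ ε j))).coeff (i : ℕ) := by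
      simp only [Polynomial.coeff_divByMonic_X_sub_C]
      refine continuous_finsetSum _ fun k _ => ?_
      exact (((continuous_apply j).comp hσc).pow _).mul continuous_const
    exact e1.continuousAt
  have hAd : HasDerivAt (fun ε : ℝ => Pc m b u (σ ε) (Polynomial.X - Polynomial.C (s j)) -
      (ε : ℂ) • (α • Pc m b u (σ ε) 1))
      (Pc m b u s (Thc (mu m b u) s (Aj s j) (Polynomial.X - Polynomial.C (s j))) -
        α • Pc m b u s 1) 0 := by
    have e1 := smul_deriv (G := fun ε : ℝ => α • Pc m b u (σ ε) 1)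
      ((hPd 1).continuousAt.const_smul α)
    rw [hσ0] at e1
    exact (hPd _).sub e1
  have hBd : HasDerivAt (fun ε : ℝ => Pc m b u (σ ε) q -
      (ε : ℂ) • (((mu m b u j : ℂ) * α) • K ε))
      (Pc m b u s (Thc (mu m b u) s (Aj s j) q) -
        ((mu m b u j : ℂ) * α) • Pc m b u s κ) 0 := by
    have hKc2 : ContinuousAt (fun ε : ℝ => ((mu m b u j : ℂ) * α) • K ε) 0 := by
      exact hKc.const_smul ((mu m b u j : ℂ) * α)
    have e1 := smul_deriv (G := fun ε : ℝ => ((mu m b u j : ℂ) * α) • K ε) hKc2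
    have e2 : K 0 = Pc m b u s κ := by
      rw [← hKe 0 (by rw [hσ0]; exact hs), hσ0, hκ]
    rw [e2] at e1
    exact (hPd _).sub e1
  have h7 := bil_deriv ω hAd hBd
  have h8 : (fun ε : ℝ => ω (Pc m b u (σ ε) (Polynomial.X - Polynomial.C (s j)) -
      (ε : ℂ) • (α • Pc m b u (σ ε) 1)) (Pc m b u (σ ε) q -
        (ε : ℂ) • (((mu m b u j : ℂ) * α) • K ε))) =ᶠ[𝓝 0] fun _ => (0 : ℂ) := by
    filter_upwards [hev] with ε hε
    have e1 := h5 (σ ε) hε
    rw [hAσ, hqσ, psub _ hε q, pC _ hε, hKe ε hε] at e1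
    have e2 : Pc m b u (σ ε) (Polynomial.X - Polynomial.C (σ ε j)) =
        Pc m b u (σ ε) (Polynomial.X - Polynomial.C (s j)) -
          (ε : ℂ) • (α • Pc m b u (σ ε) 1) := by
      rw [psub _ hε, psub _ hε, pC1 _ hε, pC1 _ hε, hσj, smul_smul, add_smul]
      abel
    have e3 : ((mu m b u j : ℂ) * ((ε : ℂ) * α)) • K ε =
        (ε : ℂ) • (((mu m b u j : ℂ) * α) • K ε) := by
      rw [smul_smul]
      congr 1
      ring
    rw [e2, e3] at e1
    exact e1
  have h9 := (h7.congr_of_eventuallyEq h8.symm).unique (hasDerivAt_const (0 : ℝ) (0 : ℂ))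
  rw [Complex.ofReal_zero, zero_smul, zero_smul, sub_zero, sub_zero, hσ0] at h9
  -- (8)
  have e8 : Pc m b u s (Thc (mu m b u) s (Aj s j) (Polynomial.X - Polynomial.C (s j))) =
      ((mu m b u j : ℂ) * α) • Pc m b u s 1 := by
    have e1 := th_Aj (mu m b u) s j 1
    rw [mul_one, mul_one, ← hα] at e1
    rw [e1, padd s hs, pQ s hs, zero_add, pC1 s hs]
  -- (9)
  have e9 := ident (mu m b u) s j hq hδ hκ hh
  rw [← hα] at e9
  have e9' : Pc m b u s (Thc (mu m b u) s (Aj s j) q) -
      ((mu m b u j : ℂ) * α) • Pc m b u s κ = ((mu m b u j : ℂ) * α) •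
        Pc m b u s (Thc (mu m b u) s δ 1) + (q.eval (s j)) • Pc m b u s q := by
    rw [← pC s hs, ← psub s hs, e9, padd s hs, padd s hs, pC s hs, pC s hs, pQ s hs, add_zero]
  rw [e8, e9', map_add, map_smul, map_smul, h6, h5', map_sub, map_smul, map_smul,
    LinearMap.sub_apply, LinearMap.smul_apply, LinearMap.smul_apply] at h9
  simp only [smul_eq_mul, mul_zero, add_zero] at h9
  -- (10)
  have h10 : ω (Pc m b u s 1) (Pc m b u s q) ≠ 0 := by
    intro h0
    have hinj : ∀ f : Polynomial ℂ, f.degree < (r : WithBot ℕ) → Pc m b u s f = 0 → f = 0 := by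
      intro f hf h0
      refine hNj f hf fun k => ?_
      have h1 : kap m b u k * Ic (mu m b u) s k (fun x => f.eval x) = 0 := congrFun h0 k
      exact (mul_eq_zero.1 h1).resolve_left (hkap k).1
    have hort : ∀ f : Polynomial ℂ, f.degree < (sg m r b u : WithBot ℕ) →
        ω (Pc m b u s f) (Pc m b u s q) = 0 := by
      intro f hf
      obtain ⟨f1, hf1⟩ : ∃ f1, f1 = f /ₘ (Polynomial.X - Polynomial.C (s j)) := ⟨_, rfl⟩
      have e1 := mul_dv f (s j)
      rw [← hf1] at e1
      have hf1d : f1.degree < (sg m r b u : WithBot ℕ) := by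
        rw [hf1]
        exact lt_of_le_of_lt (Polynomial.degree_divByMonic_le _ _) hf
      have hyd : ((Polynomial.X - Polynomial.C (s j)) * f1).degree <
          (sg m r b u : WithBot ℕ) := by
        rw [e1]
        refine lt_of_le_of_lt (Polynomial.degree_sub_le _ _) (max_lt hf ?_)
        refine lt_of_le_of_lt Polynomial.degree_C_le ?_
        exact_mod_cast (by omega : 0 < sg m r b u)
      have e2 := der hKap hD hU hUA1 ω _ _ (fun s' hs' => hB0 s' hs' _ _ hyd hd1) hs (Aj s j)
      rw [th_Aj, padd s hs, pQ s hs, zero_add, pC s hs, ← hq, map_smul,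
        LinearMap.smul_apply, hB0 s hs _ _ hf1d hd1, smul_zero, zero_add] at e2
      have e3 : f = Polynomial.C (f.eval (s j)) +
          (Polynomial.X - Polynomial.C (s j)) * f1 := by
        rw [e1]
        ring
      rw [e3, padd s hs, pC1 s hs, map_add, map_smul, LinearMap.add_apply,
        LinearMap.smul_apply, h0, e2, smul_zero, add_zero]
    set W : Submodule ℂ (Fin r → ℂ) := Submodule.span ℂ
      (Set.range fun i : Fin (sg m r b u) => Pc m b u s (Polynomial.X ^ (i : ℕ))) with hW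
    have hWm : ∀ v ∈ W, ∃ f : Polynomial ℂ, f.degree < (sg m r b u : WithBot ℕ) ∧
        v = Pc m b u s f := by
      intro v hv
      obtain ⟨c, hc⟩ := (Submodule.mem_span_range_iff_exists_fun ℂ).1 hv
      refine ⟨∑ i : Fin (sg m r b u), Polynomial.C (c i) * Polynomial.X ^ (i : ℕ),
        Polynomial.degree_sum_fin_lt _, ?_⟩
      rw [pv_sum hPv hA, hc]
    have hli : LinearIndependent ℂ
        (fun i : Fin (sg m r b u) => Pc m b u s (Polynomial.X ^ (i : ℕ))) := by
      rw [Fintype.linearIndependent_iff]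
      intro c hc
      set f : Polynomial ℂ := ∑ i : Fin (sg m r b u),
        Polynomial.C (c i) * Polynomial.X ^ (i : ℕ) with hf
      have h3 : Pc m b u s f = 0 := by
        rw [hf, pv_sum hPv hA]
        exact hc
      have h4 : f.degree < (r : WithBot ℕ) := by
        refine lt_of_lt_of_le (Polynomial.degree_sum_fin_lt _) ?_
        exact_mod_cast (by omega : sg m r b u ≤ r)
      have h5 : f = 0 := hinj f h4 h3
      intro i
      have h6 : f.coeff i = c i := by
        rw [hf, Polynomial.finsetSum_coeff, Finset.sum_eq_single i]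
        · simp
        · intro i' _ hi'
          rw [Polynomial.coeff_C_mul_X_pow, if_neg]
          intro h3
          exact hi' (Fin.ext h3).symm
        · intro h3
          exact absurd (Finset.mem_univ i) h3
      rw [← h6, h5, Polynomial.coeff_zero]
    have hfr : finrank ℂ W = sg m r b u := by
      rw [hW, finrank_span_eq_card hli, Fintype.card_fin]
    have hqW : Pc m b u s q ∈ W := by
      refine max_iso ω halt hnd W ?_ ?_ _ ?_
      · intro v hv w hw
        obtain ⟨f1, hf1, rfl⟩ := hWm v hv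
        obtain ⟨f2, hf2, rfl⟩ := hWm w hw
        exact hB0 s hs _ _ hf1 hf2
      · rw [hfr, Module.finrank_fin_fun]
        omega
      · intro w hw
        obtain ⟨f2, hf2, rfl⟩ := hWm w hw
        exact hort f2 hf2
    obtain ⟨f, hf, hfq⟩ := hWm _ hqW
    obtain ⟨n, hn⟩ : ∃ n, r = n + 1 := ⟨r - 1, by omega⟩
    have hqd : q.degree < (r : WithBot ℕ) := by
      rw [hq]
      refine lt_of_lt_of_le (Th_one_degree _ _ (monic_Aj s j).ne_zero) ?_
      refine Polynomial.degree_le_natDegree.trans ?_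
      rw [natDegree_Aj]
    have hqf : q - f = 0 := by
      refine hinj _ (lt_of_le_of_lt (Polynomial.degree_sub_le _ _) (max_lt hqd ?_)) ?_
      · refine lt_of_lt_of_le hf ?_
        exact_mod_cast (by omega : sg m r b u ≤ r)
      · rw [psub s hs, hfq, sub_self]
    have e1 := Th_one_coeff (mu m b u) s (a := Aj s j) (n := n)
      ((natDegree_Aj s j).trans hn)
    have e2 : (Aj s j).coeff (n + 1) = 1 := by
      have e3 := (monic_Aj s j).coeff_natDegree
      rw [natDegree_Aj] at e3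
      exact (congrArg (Aj s j).coeff hn.symm).trans e3
    have e4 : f.coeff n = 0 := by
      refine Polynomial.coeff_eq_zero_of_degree_lt (lt_of_lt_of_le hf ?_)
      exact_mod_cast (by omega : sg m r b u ≤ n)
    rw [← hq, sub_eq_zero.1 hqf, e4, e2, mul_one] at e1
    apply hMi ((n : ℤ) + 1)
    have e5 : ((∑ l, mu m b u l : ℝ) : ℂ) = (((n : ℤ) + 1 : ℤ) : ℂ) := by
      push_cast
      linear_combination e1
    exact_mod_cast e5
  have h11 : (2 * (mu m b u j : ℂ) - 1) * (α * ω (Pc m b u s 1) (Pc m b u s q)) = 0 := by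
    linear_combination h9
  have h12 : (2 * (mu m b u j : ℂ) - 1) = 0 :=
    (mul_eq_zero.1 h11).resolve_right (mul_ne_zero hα0 h10)
  have h13 : (((2 * mu m b u j - 1 : ℝ)) : ℂ) = ((0 : ℝ) : ℂ) := by
    push_cast
    exact h12
  have h14 := Complex.ofReal_injective h13
  linarith

end SEB
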