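import Pool.Agent.Lib.SE.Big.Main3
import Pool.Agent.Lib.SE.Big.Asm9
import Pool.Agent.Lib.SE.Q.Int
import Pool.Agent.Lib.SE.Q.IntG
import Pool.Agent.Lib.SE.Q.Dua
import Pool.Agent.Lib.SE.Q.TrJ
import Pool.Agent.Lib.SE.Big.R1S
import Pool.Agent.Lib.SE.Big.dKey
import Pool.Agent.Lib.SE.Big.gSp
import Pool.Agent.Lib.SE.Big.gBa
import Pool.Agent.Lib.SE.Big.eT
import Pool.Agent.Lib.SE.Big.eD
import Pool.Agent.Lib.SE.Big.eS
import Pool.Agent.Lib.SE.Big.eM
import Pool.Agent.Lib.SE.Big.eU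
import Pool.Agent.Lib.SE.Big.eO
import Pool.Agent.Lib.SE.Big.eB
import Pool.Agent.Lib.SE.Big.eF
import Pool.Agent.Lib.SE.Big.fL
import Pool.Agent.Lib.SE.Big.fT
import Pool.Agent.Lib.SE.Big.fA
import Pool.Agent.Lib.SE.Big.fD

/-!
# PROJECT SE, module IsBig: very general cyclic covers with five or more branch points, no hypotheses
(helper64)
-/

set_option autoImplicit false

open Module

noncomputable section

namespace SEB

open HC HC.E HC.SE

theorem dKey' : S_dKey := tdKey tR1S tSg cPv' cJx' cRk1'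

theorem gSp' : S_gSp := tgSp cPv' cKap' cD' cE' cJx' tSg

theorem gBa' : S_gBa := tgBa cKap' cN' cJx' tSg cKey' dKey' gSp' cDj' cCj'

theorem eD' : S_eD := teD cPv' cKap' cD' cJx' tSg

theorem eS' : S_eS := teS teT eD' cPv' cKap' cE' cJx' tSg

theorem eM' : S_eM := teM eS' cPv' cKap' cD' cE'

theorem eB' : S_eB := teB tcI cKap' cPv' cC' cJx' cN' tSg eM' teU (teO tcI cC')

theorem eF' : S_eF := teF eB' cJx' tSg

theorem bas' : S_Bas := tBas tPj

theorem dim' : S_Dim := tDim tPj tTw (tBas tPj)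

theorem mods8 : Mods8 where
  gBa := gBa'
  eF := eF'
  fL := tfL
  fT := tfT bas' dim' tCl SEQ.tInt SEQ.tIntG SEQ.tDua SEQ.tTrJ
  fA := tfA bas' dim' cKap' cPv'
  fD := tfD tPj bas' dim'

/-- Very general complex branch points, `r ≥ 3`, one signature not definite: `Full`. -/
theorem thFullX : FullX := fullX mods5 (fullIX mods mods5 mods8)

theorem thBigX : BigX := bigX mods tPj mods3 thFullX

end SEB
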