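import Pool.Agent.Lib.SE.Big.Fin3
import Pool.Agent.Lib.SE.Big.Main5

/-!
# PROJECT SE, module IsBig: very general cyclic covers of the line with five or more branch points (helper64)
-/

set_option autoImplicit false

open Module

noncomputable section

namespace SEB

open HC HC.E HC.SE

/-- `r ≥ 3`, all exponents, one signature not definite, factors of different ranks. -/
theorem thCorX : CorX := corX thmB' thBigX tAvg

/-- `r ≥ 3`, one factor, every `m` and all exponents: no condition. -/
theorem thHCX : HCX := hcX thmB' HC.hodgeCM thA4 mods mods5 mods8 thBigX tAvg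

/-- `y ^ m = f(x)`, every `m ≥ 3`, `n ≥ 4`, factors of different degrees. -/
theorem thCorX1 : CorX1 := corX1 thCorX

/-- `y ^ m = f(x)`, every `m ≥ 3`, `n ≥ 4`, one factor. -/
theorem thHCX1 : HCX1 := hcX1 thHCX

end SEB
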