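import Pool.Agent.Lib.SE.Big.Main5
import Pool.Agent.Lib.SE.Big.Gf

/-!
# PROJECT SE: very general cyclic covers with five or more branch points: the data for the product
theorems (helper64)
-/

set_option autoImplicit false

open Module MeasureTheory

noncomputable section

namespace SEB

open HC HC.E HC.SE

/-- The sets `MMx` are meagre. -/
theorem tMx : ∀ m r b, IsMeagre (MMx m r b) := thBigX.1

/-- Outside `MMx m r b` the new part is `Full` and hits every half system. -/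
theorem full_hit_of_MMx {m r : ℕ} {b : Fin (r + 1) → ℕ} {s : Fin (r + 1) → ℂ} (h3 : 3 ≤ r)
    (hW : HypW m r b) (hc : IsCov m s b) (hs : s ∉ MMx m r b) {T : AV} (N : New T m s b)
    (D : Cyc T m) (hD : D.Z = N.Z) :
    3 ≤ m ∧ 2 ≤ r ∧ 2 * finrank ℂ T.V = r * Nat.totient m ∧
      (∀ u : (ZMod m)ˣ, D.p u = sg m r b (u : ZMod m).val) ∧
      (∃ u, 0 < D.p u ∧ D.p u < r) ∧ Full D ∧ SEQ.IsHit D := by
  obtain ⟨hE, hDE⟩ := cyc_eq N D hD
  have hF : Full D := by
    rw [← hDE]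
    exact full_of_MMx ⟨h3, hW⟩ hc hs N D.ψ hE
  have hm : 3 ≤ m := hc.1
  have hp : ∀ u : (ZMod m)ˣ, D.p u = sg m r b (u : ZMod m).val :=
    tPnew tSg (tBas tPj) T m r s b hc N D hD
  refine ⟨hm, by omega, N.dim, hp, ?_, hF, isHit_of_full mods hm hF⟩
  obtain ⟨u, hum, huc, h1, h2⟩ := hW
  obtain ⟨w, hw⟩ := exists_unit hum huc
  have h4 := tSg m r s b hc u hum huc
  refine ⟨w, ?_, ?_⟩
  · rw [hp, hw]; exact h1
  · rw [hp, hw]; omega

end SEB
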