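import Pool.Agent.Lib.SE.Big.Gf5
import Pool.Agent.Lib.SE.G.Spec

/-!
# PROJECT SE: very general cyclic covers with five or more branch points are good factors (helper64)
-/

set_option autoImplicit false

open Module MeasureTheory

noncomputable section

namespace SEB

open HC HC.E HC.SE

/-- Outside `MMx m r b` the new part is a good factor `GFw` of rank `r`. -/
theorem gfw_of_MMx {m r : ℕ} {b : Fin (r + 1) → ℕ} {s : Fin (r + 1) → ℂ} (h3 : 3 ≤ r)
    (hW : HypW m r b) (hc : IsCov m s b) (hs : s ∉ MMx m r b) {T : AV} (N : New T m s b)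
    (D : Cyc T m) (hD : D.Z = N.Z) :
    SEG.GFw D r ∧ Full D ∧ (∀ u : (ZMod m)ˣ, D.p u = sg m r b (u : ZMod m).val) ∧
      ∃ u, 0 < D.p u ∧ D.p u < r := by
  obtain ⟨h1, h2, h3', h4, h5, h6, h7⟩ := full_hit_of_MMx h3 hW hc hs N D hD
  exact ⟨⟨h1, h2, h3', h7⟩, h6, h4, h5⟩

end SEB
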