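import Pool.Agent.Lib.SE.Big.VG2

/-!
# PROJECT SE, module IsBig, Hod: the Hodge decomposition in coordinates (task 23873)
-/

set_option autoImplicit false

open Module

noncomputable section

namespace SEB

open HC HC.E HC.SE

namespace Hod_aux

lemma lt_sg (m r : ℕ) (b : Fin (r + 1) → ℕ) (u i : ℕ) (hi : i < sg m r b u) :
    m * i + ∑ j, (u * b j) % m < m * r := by
  classical
  by_contra hn
  have h1 : sg m r b u ≤ (Finset.range i).card := by
    unfold sg
    refine Finset.card_le_card_of_injOn (fun j : Fin r => (j : ℕ)) ?_ ?_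
    · intro j hj
      have hj' : j ∈ Finset.univ.filter
          (fun i : Fin r => m * (i : ℕ) + ∑ j, (u * b j) % m < m * r) := hj
      have h2 := (Finset.mem_filter.1 hj').2
      have h3 : (j : ℕ) ∈ Finset.range i := by
        rw [Finset.mem_range]
        by_contra h4
        have h5 : m * i ≤ m * (j : ℕ) := Nat.mul_le_mul_left m (by omega)
        omega
      exact h3
    · intro a _ c _ h
      exact Fin.ext h
  rw [Finset.card_range] at h1
  omega

lemma sg_le (m r : ℕ) (b : Fin (r + 1) → ℕ) (u : ℕ) : sg m r b u ≤ r := by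
  unfold sg
  refine (Finset.card_filter_le _ _).trans ?_
  rw [Finset.card_univ, Fintype.card_fin]

/-- The polynomial with given coefficients. -/
def pol {q : ℕ} (g : Fin q → ℂ) : Polynomial ℂ :=
  ∑ i : Fin q, Polynomial.C (g i) * Polynomial.X ^ (i : ℕ)

lemma pol_degree {q : ℕ} (g : Fin q → ℂ) : (pol g).degree < (q : WithBot ℕ) :=
  Polynomial.degree_sum_fin_lt g

lemma pol_coeff {q : ℕ} (g : Fin q → ℂ) (i : Fin q) : (pol g).coeff (i : ℕ) = g i := by
  unfold pol
  rw [Polynomial.finsetSum_coeff, Finset.sum_eq_single i]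
  · rw [Polynomial.coeff_C_mul_X_pow, if_pos rfl]
  · intro j _ hj
    rw [Polynomial.coeff_C_mul_X_pow, if_neg]
    intro h
    exact hj (Fin.ext h.symm)
  · intro h
    exact absurd (Finset.mem_univ i) h

lemma pol_eval {q : ℕ} (g : Fin q → ℂ) (x : ℂ) :
    (pol g).eval x = ∑ i : Fin q, g i * x ^ (i : ℕ) := by
  unfold pol
  rw [Polynomial.eval_finsetSum]
  exact Finset.sum_congr rfl fun i _ => by simp

lemma pol_of (q : ℕ) (f : Polynomial ℂ) (hf : f.degree < (q : WithBot ℕ)) :
    pol (fun i : Fin q => f.coeff (i : ℕ)) = f := by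
  ext n
  by_cases hn : n < q
  · exact pol_coeff (fun i : Fin q => f.coeff (i : ℕ)) ⟨n, hn⟩
  · have h1 := (Polynomial.degree_lt_iff_coeff_zero f q).1 hf n (by omega)
    have h2 := (Polynomial.degree_lt_iff_coeff_zero _ q).1
      (pol_degree (fun i : Fin q => f.coeff (i : ℕ))) n (by omega)
    rw [h1, h2]

end Hod_aux

open Hod_aux in
theorem tHod : S_Sg → S_Bas → S_Pnew → S_Bf → S_Pv → S_Hod := by
  intro hSg hBas hPnew hBf hPv T m r s b hs hc N D hD v hv u
  have hm : 3 ≤ m := hc.1
  have : NeZero m := ⟨by omega⟩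
  have hul : (u : ZMod m).val < m := ZMod.val_lt _
  have huc : (u : ZMod m).val.Coprime m := ZMod.val_coe_unit_coprime u
  set q := sg m r b (u : ZMod m).val with hq
  have hp : finrank ℂ (Ws10 D u) = q := hPnew hSg hBas T m r _ b hc N D hD u
  have hB : ∀ i : Fin q, ∃ B : T.V →ₗ[ℂ] ℂ, ∀ x ∉ N.γ.S, ∀ y, N.γ.P (x, y) = 0 →
      B (N.γ.ω x y) = x ^ (i : ℕ) * y ^ (u : ZMod m).val /
        ∏ j, (x - (s j : ℂ)) ^ (1 + (u : ZMod m).val * b j / m) := fun i =>
    N.dif _ hul huc i (lt_sg m r b _ i i.2)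
  choose B hB using hB
  have hZ : ∀ (i : Fin q) (w : T.V), B i (N.Z w) =
      Complex.exp (2 * Real.pi * Complex.I / m) ^ (u : ZMod m).val * B i w := fun i =>
    hBf T m r _ b hc N _ i (B i) (hB i)
  -- the form of a polynomial
  let Bg : (Fin q → ℂ) → (T.V →ₗ[ℂ] ℂ) := fun g => ∑ i, g i • B i
  have hBg : ∀ (g : Fin q → ℂ) (w : T.V), Bg g w = ∑ i, g i * B i w := by
    intro g w
    simp only [Bg, LinearMap.sum_apply, LinearMap.smul_apply, smul_eq_mul]
  have hBZ : ∀ (g : Fin q → ℂ) (w : T.V), Bg g (N.Z w) =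
      Complex.exp (2 * Real.pi * Complex.I / m) ^ (u : ZMod m).val * Bg g w := by
    intro g w
    rw [hBg, hBg, Finset.mul_sum]
    refine Finset.sum_congr rfl fun i _ => ?_
    rw [hZ i w]
    ring
  have hBv : ∀ (g : Fin q → ℂ) (k : Fin r), Bg g (v k) = Pv m b (u : ZMod m).val s (pol g) k := by
    intro g k
    refine hv _ hul huc (pol g) (Bg g) (hBZ g) ?_ k
    intro x hx y hy
    rw [hBg, pol_eval, Finset.sum_mul, Finset.sum_div]
    refine Finset.sum_congr rfl fun i _ => ?_
    rw [hB i x hx y hy]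
    ring
  let F : (Fin q → ℂ) →ₗ[ℂ] Ws10 D u :=
    { toFun := fun g => ⟨(Bg g).restrictScalars ℝ, by
        refine ⟨fun w => ?_, fun w => ?_⟩
        · show Bg g (D.Z w) = zet m u * Bg g w
          rw [hD]
          exact hBZ g w
        · show Bg g (Complex.I • w) = Complex.I * Bg g w
          rw [map_smul, smul_eq_mul]⟩
      map_add' := fun g g' => by
        refine Subtype.ext (LinearMap.ext fun w => ?_)
        show Bg (g + g') w = Bg g w + Bg g' w
        rw [hBg, hBg, hBg, ← Finset.sum_add_distrib]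
        exact Finset.sum_congr rfl fun i _ => by rw [Pi.add_apply, add_mul]
      map_smul' := fun c g => by
        refine Subtype.ext (LinearMap.ext fun w => ?_)
        show Bg (c • g) w = c * Bg g w
        rw [hBg, hBg, Finset.mul_sum]
        exact Finset.sum_congr rfl fun i _ => by rw [Pi.smul_apply, smul_eq_mul, mul_assoc] }
  have hF : ∀ (g : Fin q → ℂ) (w : T.V), (F g : Frm T) w = Bg g w := fun _ _ => rfl
  have hadm : Adm m b (u : ZMod m).val s := ⟨hs, hc, hul, huc⟩
  have hqr : q ≤ r := sg_le m r b _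
  have hinj : Function.Injective F := by
    rw [injective_iff_map_eq_zero]
    intro g hg
    have h1 : Pv m b (u : ZMod m).val s (pol g) = 0 := by
      funext k
      rw [← hBv, ← hF, hg]
      rfl
    have h2 := (hPv m r b _ s hadm).2.2 (pol g)
      (lt_of_lt_of_le (pol_degree g) (by exact_mod_cast hqr)) h1
    funext i
    rw [← pol_coeff g i, h2, Polynomial.coeff_zero]
    rfl
  have hfin : finrank ℂ (Fin q → ℂ) = finrank ℂ (Ws10 D u) := by
    rw [hp, Module.finrank_fintype_fun_eq_card, Fintype.card_fin]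
  have hsurj : Function.Surjective F :=
    (LinearMap.injective_iff_surjective_of_finrank_eq_finrank hfin).1 hinj
  constructor
  · intro f hf
    refine ⟨F (fun i => f.coeff (i : ℕ)), (F _).2, fun k => ?_⟩
    rw [hF, hBv, pol_of q f hf]
  · intro a ha
    obtain ⟨g, hg⟩ := hsurj ⟨a, ha⟩
    refine ⟨pol g, pol_degree g, fun k => ?_⟩
    rw [← hBv, ← hF, hg]

end SEB
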