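import Pool.Agent.Lib.SE.Big.Spec
import Pool.Agent.Lib.SE.Defs

/-!
# PROJECT SE, module IsBig: link with the definitions of `SE/Defs.lean` (helper64)
-/

set_option autoImplicit false

open Module

noncomputable section

namespace SEB

open HC HC.E HC.SE

/-- From `S_Hl`. PROOF. `q = 1`: `h₀` = the components at `0` of the elements of `h` (a set of tuples
indexed by `Fin 1`), `S_Hl`, `IsBig` for the `HLie`; `[P, Q]` is in `su_E`: the trace of
`(P Q - Q P) Z^k` is `0` since `Z^k` commutes with `P`; the tuples are determined by their component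
at `0`. -/
def S_ToBig : Prop :=
  S_Hl → ∀ (T : AV) (m : ℕ) (D : Cyc T m), IsBig D →
    HC.SE.Big (fun _ : Fin 1 => T) (fun _ => D.Z) (fun _ => D.ψ)

/-- `x ^ i y ^ u dx / ..` is of the first kind. -/
def sg (m r : ℕ) (b : Fin (r + 1) → ℕ) (u : ℕ) : ℕ :=
  (Finset.univ.filter fun i : Fin r => m * (i : ℕ) + ∑ j, (u * b j) % m < m * r).card

/-- SIGNATURES. `sg u + sg (m - u) = r`. PROOF. Let `S = ∑_j (u b_j mod m)`; no `u b_j` is
`0 mod m`, so `∑_j ((m - u) b_j mod m) = m (r + 1) - S`; `m ∤ S` (as `m ∤ ∑ b_j`). The number of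
`i < r` with `m i + S < m r` is `r - ⌊S/m⌋`, and `r - ⌊(m (r+1) - S)/m⌋ = ⌊S/m⌋`. -/
def S_Sg : Prop :=
  ∀ (m r : ℕ) (s : Fin (r + 1) → ℂ) (b : Fin (r + 1) → ℕ), IsCov m s b →
    ∀ u < m, u.Coprime m → sg m r b u + sg m r b (m - u) = r

/-- SIGNATURE OF THE NEW PART. From `S_Sg`, `S_Dim`. PROOF. Let `B_(u,i)` be the forms of `New.dif`
(`u < m`, `(u,m) = 1`, `i` as in `sg`). They are linearly independent on the span `W` of all values
`γ.ω x y`: a relation `∑ c_(u,i) x^i y^u / .. = 0` on the curve; replace `y` by `ζ^k y`: the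
relations for the different `u` separate; for one `u`: `∑_i c_(u,i) x^i = 0` for all `x ∉ S` (there
is `y ≠ 0` on the curve over `x`). Their number is `∑_u sg u = r φ(m) / 2 = dim T` (`S_Sg`, pairing
`u`, `m - u`), so `W = T.V` and they are a basis of the dual of `T.V`. `New.equ`:
`B_(u,i)(Z w) = ζ^u B_(u,i)(w)` for the values `w` of `ω`, so everywhere: `B_(u,i) ∈ Ws10 u`. So
`sg u ≤ p u`; equality since `∑_u p u ≤ dim T` (the `Ws10 u` are independent subspaces of the dual of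
`T.V`). -/
def S_Pnew : Prop :=
  S_Sg → S_Bas → ∀ (T : AV) (m r : ℕ) (s : Fin (r + 1) → ℂ) (b : Fin (r + 1) → ℕ), IsCov m s b →
    ∀ (N : New T m s b) (D : Cyc T m), D.Z = N.Z → ∀ u : (ZMod m)ˣ,
      D.p u = sg m r b (u : ZMod m).val

/-- The signatures are aperiodic modulo `-1`, in terms of the `b_j`. -/
def AperC (m r : ℕ) (b : Fin (r + 1) → ℕ) : Prop :=
  ∀ g < m, g.Coprime m →
    (∀ u < m, u.Coprime m → sg m r b ((u * g) % m) * sg m r b (m - (u * g) % m) =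
      sg m r b u * sg m r b (m - u)) → g = 1 ∨ g = m - 1

/-- TRANSLATION. PROOF. `u ↦ (u : ZMod m).val` is a bijection from `(ZMod m)ˣ` to the `u < m`
prime to `m`; `(-u).val = m - u.val`. -/
def S_Ap : Prop :=
  ∀ (T : AV) (m r : ℕ) (D : Cyc T m) (b : Fin (r + 1) → ℕ), 3 ≤ m →
    (∀ u : (ZMod m)ˣ, D.p u = sg m r b (u : ZMod m).val) → AperC m r b → Aper D

/-- RANK 2 for curves: `y ^ m = (x - s_0)^b_0 (x - s_1)^b_1 (x - s_2)^b_2`. -/
def BigR2 : Prop :=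
  ∀ (T : AV) (m : ℕ) (s : Fin 3 → ℂ) (b : Fin 3 → ℕ), IsCov m s b → ∀ (N : New T m s b)
    (E : T.V →ₗ[ℝ] T.V →ₗ[ℝ] ℝ), IsPol T N.Z E → (∃ u < m, u.Coprime m ∧ sg m 2 b u = 1) →
    AperC m 2 b → IsCM T ∨ HC.SE.Big (fun _ : Fin 1 => T) (fun _ => N.Z) (fun _ => E)

/-- RANK `r` for curves, `End⁰(T) = E`. -/
def BigRr : Prop :=
  ∀ (T : AV) (m r : ℕ) (s : Fin (r + 1) → ℂ) (b : Fin (r + 1) → ℕ), 2 ≤ r → IsCov m s b →
    ∀ (N : New T m s b) (E : T.V →ₗ[ℝ] T.V →ₗ[ℝ] ℝ), IsPol T N.Z E →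
    (∃ u < m, u.Coprime m ∧ sg m r b u = 1) → AperC m r b →
    (∀ X : Module.End ℂ T.V, RatEnd T (X.restrictScalars ℝ) →
      ∃ p : Polynomial ℚ, X = Polynomial.aeval N.Z (p.map (algebraMap ℚ ℂ))) →
    HC.SE.Big (fun _ : Fin 1 => T) (fun _ => N.Z) (fun _ => E)

end SEB
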