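import Pool.Agent.Lib.SE.Big.VG2
import Pool.Agent.Lib.SE.Big.Loop

/-!
# SE Big LoopF: the loops with a polynomial factor
-/

set_option autoImplicit false

open Module MeasureTheory Topology

noncomputable section

namespace SEB

open HC HC.E HC.SE

open Loop_aux

theorem tLoopF : S_Br → S_Lat → S_CaF → S_CbF → S_LoopF := by
  intro _ hLat hCa hCb T m r s b hs hcov N
  have hm3 : 3 ≤ m := hcov.1
  have hm : 0 < m := by omega
  choose c hc using exists_gap hs
  choose v hv hBv using fun k : Fin r =>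
    hLat T m r s b N (by omega) hs 0 1 c one_pos hc k.castSucc k.succ
  refine ⟨v, hv, fun u hu hum f B hB hBω k => ?_⟩
  set n : Fin (r + 1) → ℕ := fun i => m - (u * b i) % m with hn
  have hn1 : ∀ j, 1 ≤ n j ∧ n j < m := by
    intro j
    have h1 : (u * b j) % m < m := Nat.mod_lt _ hm
    have h2 : (u * b j) % m ≠ 0 := by
      intro h0
      exact hcov.2.2.1 j ((Nat.Coprime.symm hum).dvd_of_dvd_mul_left (Nat.dvd_of_mod_eq_zero h0))
    simp only [hn]
    omega
  have hBv' := hBv k B (Complex.exp (2 * Real.pi * Complex.I / m) ^ u) hB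
  have hβ : ∀ j ≤ r + 1, Pth (fun x => B (N.γ.ω x (yk m s b j x))) 0 1 (c j) =
      Pth (fun x => f.eval x * (yk m s n j x)⁻¹) 0 1 (c j) := by
    intro j hj
    have key : ∀ x : ℂ, (∀ i, x ≠ (s i : ℂ)) →
        B (N.γ.ω x (yk m s b j x)) = f.eval x * (yk m s n j x)⁻¹ := by
      intro x hx
      have hxS : x ∉ N.γ.S := by
        rw [N.S]
        rintro ⟨i, hi⟩
        exact hx i hi.symm
      have hP : N.γ.P (x, yk m s b j x) = 0 := by
        rw [N.P, yk_curve hm, sub_self]
      rw [hBω x hxS _ hP, mul_div_assoc]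
      congr 1
      exact yk_expo hm s b u j hx
    refine pth_congr (fun t => key _ (im_ne s ?_)) (fun t => key _ fun i => ?_)
      (fun t => key _ (im_ne s ?_))
    · simp
    · intro h1
      have h2 := congrArg Complex.re h1
      simp at h2
      exact gap_ne (hc j hj) i h2
    · simp
  have e1 := hβ (k.castSucc : Fin (r + 1)).val (by omega)
  have e2 := hβ ((k.castSucc : Fin (r + 1)).val + 1) (by omega)
  have e3 := hβ (k.succ : Fin (r + 1)).val (by omega)
  have e4 := hβ ((k.succ : Fin (r + 1)).val + 1) (by omega)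
  have a1 := hCa m r s n f (by omega) hs hn1 0 1 c one_pos hc k.castSucc
  have a2 := hCa m r s n f (by omega) hs hn1 0 1 c one_pos hc k.succ
  have a3 := hCb m r s n f (by omega) hs hn1 0 1 one_pos k
  simp only at hBv' a1 a2
  rw [e1, e2, e3, e4, xi_pow hm, xi_pow hm] at hBv'
  have hk1 : m - u * b k.castSucc % m = n k.castSucc := rfl
  have hk2 : m - u * b k.succ % m = n k.succ := rfl
  rw [hk1, hk2] at hBv'
  have hPv : Pv m b u s f k = (1 - (Complex.exp (2 * Real.pi * Complex.I / m) ^ n k.castSucc)⁻¹) *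
      (1 - (Complex.exp (2 * Real.pi * Complex.I / m) ^ n k.succ)⁻¹) *
      (Complex.exp (Real.pi * Complex.I / m) ^
        (∑ j ∈ Finset.univ.filter (fun j : Fin (r + 1) => k.val + 1 ≤ j.val), n j))⁻¹ *
      ∫ x in (s k.castSucc)..(s k.succ),
        ((wt (fun j => (n j : ℝ) / m) s x : ℝ) : ℂ) * f.eval (x : ℂ) := rfl
  rw [hPv]
  linear_combination hBv' + ((Complex.exp (2 * Real.pi * Complex.I / m) ^ n k.succ)⁻¹ - 1) * a1 -
    ((Complex.exp (2 * Real.pi * Complex.I / m) ^ n k.castSucc)⁻¹ - 1) * a2 +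
    (1 - (Complex.exp (2 * Real.pi * Complex.I / m) ^ n k.castSucc)⁻¹) *
    (1 - (Complex.exp (2 * Real.pi * Complex.I / m) ^ n k.succ)⁻¹) * a3

end SEB
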