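import Pool.Agent.Lib.SE.Big.VG

/-!
# PROJECT SE, module IsBig, part 2: independence of the moments (helper1)
-/

set_option autoImplicit false

open Module MeasureTheory Topology

noncomputable section

namespace SEB

open HC HC.E HC.SE

namespace Mom_aux

lemma wt_pos {r : ℕ} (μ s : Fin (r + 1) → ℝ) (hs : StrictMono s) (k : Fin r) (x : ℝ)
    (hx : x ∈ Set.Ioo (s k.castSucc) (s k.succ)) : 0 < wt μ s x := by
  unfold wt
  refine Finset.prod_pos fun j _ => Real.rpow_pos_of_pos (abs_pos.mpr ?_) _
  rcases le_or_gt j k.castSucc with h | h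
  · have := hs.monotone h
    exact ne_of_gt (by linarith [hx.1])
  · have h' : k.succ ≤ j := by
      rw [Fin.le_def]
      rw [Fin.lt_def] at h
      simp only [Fin.val_castSucc, Fin.val_succ] at h ⊢
      omega
    have := hs.monotone h'
    exact ne_of_lt (by linarith [hx.2])

lemma exists_root (w : ℝ → ℝ) (a b : ℝ) (hab : a < b) (hw : ∀ x ∈ Set.Ioo a b, 0 < w x)
    (hi : IntervalIntegrable w volume a b) (P : Polynomial ℝ)
    (h0 : ∫ x in a..b, w x * P.eval x = 0) : ∃ x ∈ Set.Ioo a b, P.eval x = 0 := by
  by_contra hne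
  push Not at hne
  have hc : ContinuousOn (fun x : ℝ => P.eval x) (Set.Ioo a b) := P.continuous.continuousOn
  have hI : IntervalIntegrable (fun x => w x * P.eval x) volume a b :=
    hi.mul_continuousOn P.continuous.continuousOn
  have hsign : (∀ x ∈ Set.Ioo a b, 0 < P.eval x) ∨ (∀ x ∈ Set.Ioo a b, P.eval x < 0) := by
    by_contra hcon
    push Not at hcon
    obtain ⟨⟨x, hx, hx0⟩, ⟨y, hy, hy0⟩⟩ := hcon
    obtain ⟨z, hz, hz0⟩ := (isPreconnected_Ioo (a := a) (b := b)).intermediate_value hx hy hc
      ⟨hx0, hy0⟩
    exact hne z hz hz0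
  rcases hsign with h | h
  · have := intervalIntegral.intervalIntegral_pos_of_pos_on hI
      (fun x hx => mul_pos (hw x hx) (h x hx)) hab
    linarith
  · have := intervalIntegral.intervalIntegral_pos_of_pos_on hI.neg
      (fun x hx => by
        have := mul_neg_of_pos_of_neg (hw x hx) (h x hx)
        simpa using this) hab
    have h2 : ∫ x in a..b, (-fun x => w x * P.eval x) x = - ∫ x in a..b, w x * P.eval x := by
      rw [← intervalIntegral.integral_neg]
      rfl
    rw [h2, h0] at this
    linarith

lemma poly_zero {r : ℕ} (μ s : Fin (r + 1) → ℝ) (hs : StrictMono s)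
    (hi : ∀ k : Fin r, IntervalIntegrable (wt μ s) volume (s k.castSucc) (s k.succ))
    (P : Polynomial ℝ) (hd : P.degree < r)
    (h0 : ∀ k : Fin r, ∫ x in (s k.castSucc)..(s k.succ), wt μ s x * P.eval x = 0) : P = 0 := by
  choose z hz hz0 using fun k : Fin r => exists_root (wt μ s) (s k.castSucc) (s k.succ)
    (hs (Fin.castSucc_lt_succ (i := k))) (wt_pos μ s hs k) (hi k) P (h0 k)
  have hzm : StrictMono z := by
    intro k l hkl
    have h1 : s k.succ ≤ s l.castSucc := by
      apply hs.monotone
      rw [Fin.le_def]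
      rw [Fin.lt_def] at hkl
      simp only [Fin.val_castSucc, Fin.val_succ]
      omega
    linarith [(hz k).2, (hz l).1]
  by_contra hP
  have hcard : r ≤ P.roots.toFinset.card := by
    have hsub : Finset.univ.image z ⊆ P.roots.toFinset := by
      intro x hx
      obtain ⟨k, -, rfl⟩ := Finset.mem_image.mp hx
      rw [Multiset.mem_toFinset, Polynomial.mem_roots hP]
      exact hz0 k
    have := Finset.card_le_card hsub
    rwa [Finset.card_image_of_injective _ hzm.injective, Finset.card_univ, Fintype.card_fin] at this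
  have h1 := P.roots.toFinset_card_le
  have h2 := P.card_roots hP
  have h3 : (r : WithBot ℕ) ≤ P.degree :=
    le_trans (by exact_mod_cast (hcard.trans h1)) h2
  exact absurd hd (not_lt.mpr h3)

end Mom_aux

open Mom_aux in
theorem tMom : S_Wt → S_Mom := by
  intro hWt r μ s hμ hs c hc
  have hi := hWt r μ s hμ hs
  let M : Matrix (Fin r) (Fin r) ℝ := fun d k =>
    ∫ x in (s k.castSucc)..(s k.succ), wt μ s x * x ^ (d : ℕ)
  have hdet : M.det ≠ 0 := by
    intro h0
    obtain ⟨v, hv0, hv⟩ := Matrix.exists_vecMul_eq_zero_iff.mpr h0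
    apply hv0
    let P : Polynomial ℝ := ∑ d : Fin r, Polynomial.C (v d) * Polynomial.X ^ (d : ℕ)
    have hPd : P.degree < r := Polynomial.degree_sum_fin_lt v
    have hPe : ∀ x : ℝ, P.eval x = ∑ d : Fin r, v d * x ^ (d : ℕ) := fun x => by
      simp only [P, Polynomial.eval_finsetSum, Polynomial.eval_mul, Polynomial.eval_C,
        Polynomial.eval_pow, Polynomial.eval_X]
    have hP0 : P = 0 := by
      refine poly_zero μ s hs hi P hPd fun k => ?_
      have h1 : (∫ x in (s k.castSucc)..(s k.succ), wt μ s x * P.eval x) =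
          ∑ d : Fin r, v d * M d k := by
        have h2 : ∀ x : ℝ, wt μ s x * P.eval x = ∑ d : Fin r, v d * (wt μ s x * x ^ (d : ℕ)) := by
          intro x
          rw [hPe, Finset.mul_sum]
          exact Finset.sum_congr rfl fun d _ => by ring
        simp only [h2]
        rw [intervalIntegral.integral_finsetSum]
        · exact Finset.sum_congr rfl fun d _ => intervalIntegral.integral_const_mul _ _
        · intro d _
          exact ((hi k).mul_continuousOn (continuous_pow _).continuousOn).const_mul _
      rw [h1]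
      have := congrFun hv k
      simpa [Matrix.vecMul, dotProduct] using this
    funext d
    have h3 : P.coeff (d : ℕ) = v d := by
      simp only [P, Polynomial.finsetSum_coeff, Polynomial.coeff_C_mul, Polynomial.coeff_X_pow]
      rw [Finset.sum_eq_single d]
      · simp
      · intro e _ he
        rw [if_neg (fun h => he (Fin.ext h.symm)), mul_zero]
      · intro h
        exact absurd (Finset.mem_univ d) h
    rw [← h3, hP0]
    rfl
  have hdetC : (M.map (fun x : ℝ => (x : ℂ))).det ≠ 0 := by
    have : (M.map (fun x : ℝ => (x : ℂ))).det = ((M.det : ℝ) : ℂ) :=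
      (Complex.ofRealHom.map_det M).symm
    rw [this]
    exact_mod_cast hdet
  refine Matrix.eq_zero_of_mulVec_eq_zero hdetC ?_
  funext d
  have := hc d d.2
  simp only [Matrix.mulVec, dotProduct, Matrix.map_apply, M, Pi.zero_apply]
  rw [← this]
  exact Finset.sum_congr rfl fun k _ => mul_comm _ _

end SEB
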