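import Pool.Agent.Lib.SE.Big.VG2
import Pool.Agent.Lib.SE.Big.Pr

/-!
# PROJECT SE, module IsBig, part 4: the signatures of `y ^ p = f(x)`, all degrees (helper27)
-/

set_option autoImplicit false

noncomputable section

namespace SEB

open HC HC.E HC.SE

namespace Pr2_aux

/-- no integer -/
lemma nd {p r u : ℕ} (hp : p.Prime) (hd : ¬ p ∣ r + 1) (h0 : 0 < u) (hu : u < p) :
    ¬ p ∣ (r + 1) * u := by
  intro h
  rcases (hp.dvd_mul).1 h with h | h
  · exact hd h
  · exact absurd (Nat.le_of_dvd h0 h) (by omega)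

/-- the floor -/
def t (p r u : ℕ) : ℕ := (r + 1) * u / p

/-- the signature -/
lemma sg_eq {p r u : ℕ} (hp : p.Prime) (hd : ¬ p ∣ r + 1) (h0 : 0 < u) (hu : u < p) :
    sg p r (fun _ => 1) u = r - t p r u := by
  have hsum : (∑ _j : Fin (r + 1), (u * 1) % p) = (r + 1) * u := by
    rw [Finset.sum_const, Finset.card_univ, Fintype.card_fin, mul_one, Nat.mod_eq_of_lt hu,
      smul_eq_mul]
  have hnd := nd hp hd h0 hu
  unfold t
  set q := (r + 1) * u / p with hq
  have h1 : p * q + (r + 1) * u % p = (r + 1) * u := Nat.div_add_mod _ _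
  have h2 : 0 < (r + 1) * u % p := Nat.pos_of_ne_zero fun h => hnd (Nat.dvd_of_mod_eq_zero h)
  have h3 : (r + 1) * u % p < p := Nat.mod_lt _ hp.pos
  have h4 : (Finset.univ.filter fun i : Fin r =>
      p * (i : ℕ) + ∑ _j : Fin (r + 1), (u * 1) % p < p * r) =
      Finset.univ.filter fun i : Fin r => (i : ℕ) < r - q := by
    refine Finset.filter_congr fun i _ => ?_
    rw [hsum, ← h1]
    constructor
    · intro h
      by_contra h5
      have h6 : p * r ≤ p * (i + q) := Nat.mul_le_mul_left p (by omega)
      rw [Nat.mul_add] at h6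
      omega
    · intro h
      have h6 : p * (i + q + 1) ≤ p * r := Nat.mul_le_mul_left p (by omega)
      rw [Nat.mul_add, Nat.mul_add, Nat.mul_one] at h6
      omega
  have h5 : sg p r (fun _ => 1) u = (Finset.univ.filter fun i : Fin r =>
      p * (i : ℕ) + ∑ _j : Fin (r + 1), (u * 1) % p < p * r).card := rfl
  rw [h5, h4, Fin.card_filter_val_lt, min_eq_right (Nat.sub_le _ _)]

/-- the sum -/
lemma t_add {p r u : ℕ} (hp : p.Prime) (hd : ¬ p ∣ r + 1) (h0 : 0 < u) (hu : u < p) :
    t p r u + t p r (p - u) = r := by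
  unfold t
  have n1 := nd hp hd h0 hu
  have a1 := Nat.div_add_mod ((r + 1) * u) p
  have a2 := Nat.div_add_mod ((r + 1) * (p - u)) p
  have m1 := Nat.mod_lt ((r + 1) * u) hp.pos
  have m2 := Nat.mod_lt ((r + 1) * (p - u)) hp.pos
  have p1 : 0 < (r + 1) * u % p := Nat.pos_of_ne_zero fun h => n1 (Nat.dvd_of_mod_eq_zero h)
  set x := (r + 1) * u / p with hx
  set y := (r + 1) * (p - u) / p with hy
  have e1 : (r + 1) * (p - u) + (r + 1) * u = (r + 1) * p := by
    rw [← Nat.mul_add, Nat.sub_add_cancel hu.le]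
  have e2 : p * x + p * y + ((r + 1) * u % p + (r + 1) * (p - u) % p) = p * (r + 1) := by
    rw [mul_comm p (r + 1)]
    omega
  have e3 : p * (x + y) = p * x + p * y := Nat.mul_add _ _ _
  have e4 : x + y < r + 1 := by
    by_contra h
    have h1 : p * (r + 1) ≤ p * (x + y) := Nat.mul_le_mul_left p (by omega)
    omega
  have e5 : r < x + y + 1 := by
    by_contra h
    have h1 : p * (x + y + 2) ≤ p * (r + 1) := Nat.mul_le_mul_left p (by omega)
    have h2 : p * (x + y + 2) = p * (x + y) + p * 2 := Nat.mul_add _ _ _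
    omega
  omega

/-- strictly increasing -/
lemma t_lt {p r u v : ℕ} (hp : p.Prime) (hr : p < r + 1) (huv : u < v) :
    t p r u < t p r v := by
  unfold t
  have h1 : (r + 1) * u + p ≤ (r + 1) * v := by
    have h2 : (r + 1) * (u + 1) ≤ (r + 1) * v := Nat.mul_le_mul_left _ huv
    have h3 : (r + 1) * (u + 1) = (r + 1) * u + (r + 1) := by ring
    omega
  have h2 : ((r + 1) * u + p) / p ≤ (r + 1) * v / p := Nat.div_le_div_right h1
  rw [Nat.add_div_right _ hp.pos] at h2
  omega

lemma t_inj {p r u v : ℕ} (hp : p.Prime) (hr : p < r + 1) (h : t p r u = t p r v) : u = v := by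
  rcases lt_trichotomy u v with h1 | h1 | h1
  · exact absurd h (t_lt hp hr h1).ne
  · exact h1
  · exact absurd h (t_lt hp hr h1).ne'

end Pr2_aux

open Pr2_aux

theorem tPr2 : S_Pr2 := by
  intro p r hp h3 h2 hd
  have hcop : ∀ u, 0 < u → u < p → u.Coprime p := fun u h0 hu =>
    (hp.coprime_iff_not_dvd.2 fun h => absurd (Nat.le_of_dvd h0 h) (by omega)).symm
  have hpos : ∀ u, u.Coprime p → 0 < u := by
    intro u hu
    rcases Nat.eq_zero_or_pos u with h | h
    · rw [h, Nat.coprime_zero_left] at hu
      exact absurd hu hp.one_lt.ne'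
    · exact h
  have hsum : ∀ u, 0 < u → u < p → sg p r (fun _ => 1) u + sg p r (fun _ => 1) (p - u) = r := by
    intro u h0 hu
    have h1 := t_add hp hd h0 hu
    rw [sg_eq hp hd h0 hu, sg_eq hp hd (Nat.sub_pos_of_lt hu) (Nat.sub_lt hp.pos h0)]
    omega
  have hne : p ≠ r + 1 := fun h => hd (h ▸ dvd_rfl)
  rcases lt_or_gt_of_ne hne with hlt | hgt
  · -- many points
    have hprod : ∀ u, 0 < u → u < p → sg p r (fun _ => 1) u * sg p r (fun _ => 1) (p - u) =
        (r - t p r u) * t p r u := by
      intro u h0 hu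
      have h1 := t_add hp hd h0 hu
      rw [sg_eq hp hd h0 hu, sg_eq hp hd (Nat.sub_pos_of_lt hu) (Nat.sub_lt hp.pos h0)]
      congr 1
      omega
    refine ⟨?_, 1, hp.one_lt, Nat.coprime_one_left p, ?_⟩
    · intro g hg hgc H
      have hg0 := hpos g hgc
      have h1 := H 1 hp.one_lt (Nat.coprime_one_left p)
      rw [one_mul, Nat.mod_eq_of_lt hg, hprod g hg0 hg, hprod 1 one_pos hp.one_lt] at h1
      have hg1 : t p r g ≤ r := by
        have := t_add hp hd hg0 hg
        omega
      have hg2 : t p r 1 ≤ r := by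
        have := t_add hp hd one_pos hp.one_lt
        omega
      obtain ⟨a, ha⟩ := Nat.exists_eq_add_of_le hg1
      obtain ⟨b, hb⟩ := Nat.exists_eq_add_of_le hg2
      have h4 : r - t p r g = a := by omega
      have h5 : r - t p r 1 = b := by omega
      rw [h4, h5] at h1
      have h6 : t p r g = t p r 1 ∨ t p r g = b := by
        have h7 : ((t p r g : ℤ) - t p r 1) * ((t p r g : ℤ) - b) = 0 := by
          have e1 : (t p r g : ℤ) + a = t p r 1 + b := by
            have : t p r g + a = t p r 1 + b := by omega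
            exact_mod_cast this
          have e2 : (a : ℤ) * t p r g = b * t p r 1 := by exact_mod_cast h1
          have e3 : (a : ℤ) = t p r 1 + b - t p r g := by linarith
          rw [e3] at e2
          linarith
        rcases mul_eq_zero.1 h7 with h | h
        · left
          have : (t p r g : ℤ) = t p r 1 := by linarith
          exact_mod_cast this
        · right
          have : (t p r g : ℤ) = b := by linarith
          exact_mod_cast this
      rcases h6 with h6 | h6
      · left
        exact t_inj hp hlt h6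
      · right
        have h7 := t_add hp hd one_pos hp.one_lt
        exact t_inj hp hlt (by omega)
    · have h1 := hsum 1 one_pos hp.one_lt
      have h4 := sg_eq hp hd one_pos hp.one_lt
      have h5 : 1 ≤ t p r 1 := by
        unfold t
        rw [mul_one]
        exact (Nat.one_le_div_iff hp.pos).2 hlt.le
      have h6 : 3 * t p r 1 ≤ r + 1 := by
        unfold t
        rw [mul_one]
        calc 3 * ((r + 1) / p) ≤ p * ((r + 1) / p) := Nat.mul_le_mul_right _ h3
          _ ≤ r + 1 := Nat.mul_div_le _ _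
      omega
  · -- few points
    obtain ⟨hA, u, hu, huc, hu1⟩ := tPr p r hp h2 hgt
    refine ⟨hA, u, hu, huc, ?_⟩
    have h1 := hsum u (hpos u huc) hu
    omega

end SEB
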