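import Pool.Agent.Lib.SE.Big.Pr3

/-!
# PROJECT SE, module IsBig: `AperC` for the curves `y ^ m = f(x)` if some prime `p < deg f` does not
divide `m` (helper36)
-/

set_option autoImplicit false

noncomputable section

namespace SEB

open HC HC.E HC.SE

/-- APERIODIC. `n = r + 1`, `F(u) = sg u · sg (m - u) = t (r - t)`, `t = ⌊n u / m⌋`. PROOF. CASE `n > m`: `t` is
strictly increasing. CASE `n < m`: `F(u) = 0` iff `n u < m` or `n (m - u) < m`. Period `g = ± j`; `F(1) = 0`,
so `n j < m`. If `j ≥ 2` let `q = min p j`, `a` with `n j q ^ a < m < n j q ^ (a + 1)`, `x = q ^ (a + 1)`: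
`n x ≤ n j q ^ a < m`, `m < n x j < q m ≤ (n - 1) m`: contradiction. -/
def S_Pr4 : Prop :=
  ∀ m r p : ℕ, 3 ≤ m → 2 ≤ r → ¬ m ∣ r + 1 → p.Prime → p < r + 1 → ¬ p ∣ m →
    AperC m r (fun _ => 1)

/-- different `m`, not `2 mod 4`: a unit which separates them -/
def S_Sp4 : Prop :=
  ∀ m m' : ℕ, 3 ≤ m → 3 ≤ m' → m % 4 ≠ 2 → m' % 4 ≠ 2 → m ≠ m' → ¬ (m = 3 ∧ m' = 4) →
    ¬ (m = 4 ∧ m' = 3) → ∃ (M : ℕ) (hM : m ∣ M) (hM' : m' ∣ M) (ρ : (ZMod M)ˣ), M ≠ 0 ∧
      ((ZMod.unitsMap hM ρ = 1 ∧ ZMod.unitsMap hM' ρ ≠ 1 ∧ ZMod.unitsMap hM' ρ ≠ -1) ∨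
        (ZMod.unitsMap hM' ρ = 1 ∧ ZMod.unitsMap hM ρ ≠ 1 ∧ ZMod.unitsMap hM ρ ≠ -1))

namespace Pr4_aux

open Pr3_aux

/-- powers of `q` -/
lemma pw {m n q : ℕ} (h0 : 0 < n) (hq : 2 ≤ q) (h : n < m) :
    ∃ a, m < n * q ^ (a + 1) ∧ n * q ^ a ≤ m := by
  classical
  have hex : ∃ a, m < n * q ^ a := ⟨m, lt_of_lt_of_le
    (lt_of_lt_of_le Nat.lt_two_pow_self (Nat.pow_le_pow_left hq m))
    (Nat.le_mul_of_pos_left _ h0)⟩
  obtain ⟨b, hb⟩ : ∃ b, Nat.find hex = b := ⟨_, rfl⟩
  have h1 := Nat.find_spec hex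
  rw [hb] at h1
  have hb0 : b ≠ 0 := by
    rintro rfl
    rw [pow_zero, mul_one] at h1
    omega
  obtain ⟨a, rfl⟩ : ∃ a, b = a + 1 := ⟨b - 1, by omega⟩
  have h2 := Nat.find_min hex (m := a) (by omega)
  exact ⟨a, h1, by omega⟩

/-- multiplication by `j` does not preserve the set -/
lemma key {m r j q : ℕ} (hq2 : 2 ≤ q) (hqj : q ≤ j) (hqr : q ≤ r) (hqc : q.Coprime m)
    (hjc : j.Coprime m) (hj : (r + 1) * j < m) :
    ∃ x, 0 < x ∧ x < m ∧ x.Coprime m ∧ (r + 1) * x < m ∧ x * j < m ∧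
      ¬ ((r + 1) * (x * j) < m ∨ (r + 1) * (m - x * j) < m) := by
  have h0 : 0 < (r + 1) * j := Nat.mul_pos (Nat.succ_pos r) (by omega)
  obtain ⟨a, h1, h3⟩ := pw h0 hq2 hj
  have hne : (r + 1) * j * q ^ a ≠ m := by
    intro h
    have h4 : j ∣ m := ⟨(r + 1) * q ^ a, by rw [← h]; ring⟩
    have h5 : j ∣ 1 := by
      have := Nat.dvd_gcd dvd_rfl h4
      rwa [hjc] at this
    have := Nat.le_of_dvd one_pos h5
    omega
  have h4 : (r + 1) * j * q ^ a < m := lt_of_le_of_ne h3 hne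
  have hc : (q ^ (a + 1)).Coprime m := Nat.Coprime.pow_left _ hqc
  have hx0 : 0 < q ^ (a + 1) := pow_pos (by omega) _
  have e1 : q ^ (a + 1) = q * q ^ a := pow_succ' q a
  have h5 : (r + 1) * q ^ (a + 1) < m := by
    calc (r + 1) * q ^ (a + 1) = (r + 1) * q * q ^ a := by rw [e1]; ring
      _ ≤ (r + 1) * j * q ^ a := Nat.mul_le_mul_right _ (Nat.mul_le_mul_left _ hqj)
      _ < m := h4
  have e2 : (r + 1) * (q ^ (a + 1) * j) = (r + 1) * j * q ^ (a + 1) := by ring
  have e3 : (r + 1) * j * q ^ (a + 1) = q * ((r + 1) * j * q ^ a) := by rw [e1]; ring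
  have h6 : (r + 1) * (q ^ (a + 1) * j) < r * m := by
    rw [e2, e3]
    calc q * ((r + 1) * j * q ^ a) < q * m := Nat.mul_lt_mul_of_pos_left h4 (by omega)
      _ ≤ r * m := Nat.mul_le_mul_right _ hqr
  have h8 : q ^ (a + 1) * j < m := by
    by_contra h
    have h7 : (r + 1) * m ≤ (r + 1) * (q ^ (a + 1) * j) := Nat.mul_le_mul_left _ (by omega)
    have h9 : (r + 1) * m = r * m + m := by ring
    omega
  have h9 : q ^ (a + 1) ≤ (r + 1) * q ^ (a + 1) := Nat.le_mul_of_pos_left _ (Nat.succ_pos r)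
  refine ⟨q ^ (a + 1), hx0, by omega, hc, h5, h8, ?_⟩
  rintro (h | h)
  · rw [e2] at h
    omega
  · have e4 : (r + 1) * (m - q ^ (a + 1) * j) + (r + 1) * (q ^ (a + 1) * j) = (r + 1) * m := by
      rw [← Nat.mul_add, Nat.sub_add_cancel h8.le]
    have e5 : (r + 1) * m = r * m + m := by ring
    omega

end Pr4_aux

open Pr3_aux

theorem tPr4 : S_Pr4 := by
  intro m r p h3 h2 hd hp hpr hpm
  have hm : 0 < m := by omega
  have hm1 : 1 < m := by omega
  have hpc : p.Coprime m := (Nat.Prime.coprime_iff_not_dvd hp).2 hpm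
  have hkey : ∀ j, 2 ≤ j → j.Coprime m → (r + 1) * j < m →
      ∃ x, 0 < x ∧ x < m ∧ x.Coprime m ∧ (r + 1) * x < m ∧ x * j < m ∧
      ¬ ((r + 1) * (x * j) < m ∨ (r + 1) * (m - x * j) < m) := by
    intro j hj2 hjc hj
    rcases le_or_gt p j with h | h
    · exact Pr4_aux.key hp.two_le h (by omega) hpc hjc hj
    · exact Pr4_aux.key hj2 le_rfl (by omega) hjc hjc hj
  have hpos : ∀ u, u.Coprime m → 0 < u := by
    intro u hu
    rcases Nat.eq_zero_or_pos u with h | h
    · rw [h, Nat.coprime_zero_left] at hu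
      omega
    · exact h
  have hsubc : ∀ u, u < m → u.Coprime m → (m - u).Coprime m := fun u hu hc =>
    (Nat.coprime_self_sub_left hu.le).2 hc
  have hprod : ∀ u, u < m → u.Coprime m → sg m r (fun _ => 1) u = r - t m r u ∧
      sg m r (fun _ => 1) (m - u) = t m r u ∧ t m r u ≤ r := by
    intro u hu hc
    have h1 := t_add hm hd hc hu
    have h4 := hpos u hc
    rw [sg_eq hm hd hc hu, sg_eq hm hd (hsubc u hu hc) (by omega)]
    refine ⟨rfl, by omega, by omega⟩
  have hc1 : (1 : ℕ).Coprime m := Nat.coprime_one_left m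
  have hne : m ≠ r + 1 := fun h => hd (h ▸ dvd_rfl)
  rcases lt_or_gt_of_ne hne with hlt | hgt
  · -- many points
    intro g hg hgc H
    have h1 := H 1 hm1 hc1
    obtain ⟨p1, p2, p3⟩ := hprod g hg hgc
    obtain ⟨q1, q2, q3⟩ := hprod 1 hm1 hc1
    rw [one_mul, Nat.mod_eq_of_lt hg, p1, p2, q1, q2] at h1
    obtain ⟨a, ha⟩ := Nat.exists_eq_add_of_le p3
    obtain ⟨b, hb⟩ := Nat.exists_eq_add_of_le q3
    have h4 : r - t m r g = a := by omega
    have h5 : r - t m r 1 = b := by omega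
    rw [h4, h5] at h1
    have h6 : t m r g = t m r 1 ∨ t m r g = b := by
      have h7 : ((t m r g : ℤ) - t m r 1) * ((t m r g : ℤ) - b) = 0 := by
        have e1 : (t m r g : ℤ) + a = t m r 1 + b := by
          have : t m r g + a = t m r 1 + b := by omega
          exact_mod_cast this
        have e2 : (a : ℤ) * t m r g = b * t m r 1 := by exact_mod_cast h1
        have e3 : (a : ℤ) = t m r 1 + b - t m r g := by linarith
        rw [e3] at e2
        linarith
      rcases mul_eq_zero.1 h7 with h | h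
      · left
        have : (t m r g : ℤ) = t m r 1 := by linarith
        exact_mod_cast this
      · right
        have : (t m r g : ℤ) = b := by linarith
        exact_mod_cast this
    rcases h6 with h6 | h6
    · left
      exact t_inj hm hlt h6
    · right
      have h7 := t_add hm hd hc1 hm1
      exact t_inj hm hlt (by omega)
  · -- few points
    have hz : ∀ u, u < m → u.Coprime m → (sg m r (fun _ => 1) u * sg m r (fun _ => 1) (m - u) = 0 ↔
        (r + 1) * u < m ∨ (r + 1) * (m - u) < m) := by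
      intro u hu hc
      obtain ⟨q1, q2, q3⟩ := hprod u hu hc
      have h1 := t_add hm hd hc hu
      rw [q1, q2, Nat.mul_eq_zero, ← t_zero hm, ← t_zero hm]
      omega
    intro g hg hgc H
    have hg0 := hpos g hgc
    -- the set is stable
    have hst : ∀ u, u < m → u.Coprime m → (((r + 1) * ((u * g) % m) < m ∨
        (r + 1) * (m - (u * g) % m) < m) ↔ ((r + 1) * u < m ∨ (r + 1) * (m - u) < m)) := by
      intro u hu hc
      have h1 := H u hu hc
      have h4 : (u * g) % m < m := Nat.mod_lt _ hm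
      have h5 : ((u * g) % m).Coprime m := by
        have h6 : (u * g).Coprime m := Nat.Coprime.mul_left hc hgc
        rw [Nat.coprime_iff_gcd_eq_one, ← Nat.gcd_rec]
        exact Nat.coprime_iff_gcd_eq_one.1 h6.symm
      rw [← hz _ h4 h5, ← hz u hu hc, h1]
    have h1 := (hst 1 hm1 hc1).2 (Or.inl (by rw [mul_one]; exact hgt))
    rw [one_mul, Nat.mod_eq_of_lt hg] at h1
    by_contra hne
    rw [not_or] at hne
    rcases h1 with h1 | h1
    · obtain ⟨x, hx0, hxp, hxc, hx1, hx2, hx3⟩ := hkey g (by omega) hgc h1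
      have h3 := (hst x hxp hxc).2 (Or.inl hx1)
      rw [Nat.mod_eq_of_lt hx2] at h3
      exact hx3 h3
    · obtain ⟨x, hx0, hxp, hxc, hx1, hx2, hx3⟩ := hkey (m - g) (by omega) (hsubc g hg hgc) h1
      have h3 := (hst x hxp hxc).2 (Or.inl hx1)
      have hx5 : 0 < x * (m - g) := Nat.mul_pos hx0 (by omega)
      have h4 : (x * g) % m = m - x * (m - g) := by
        have h5 : x * g + x * (m - g) = x * m := by
          rw [← Nat.mul_add, Nat.add_sub_cancel' hg.le]
        have h6 : x * g = (m - x * (m - g)) + m * (x - 1) := by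
          obtain ⟨x', rfl⟩ : ∃ x', x = x' + 1 := ⟨x - 1, by omega⟩
          rw [Nat.add_sub_cancel]
          have h7 : (x' + 1) * m = m * x' + m := by ring
          omega
        rw [h6, Nat.add_mul_mod_self_left, Nat.mod_eq_of_lt (by omega)]
      rw [h4] at h3
      apply hx3
      rw [Nat.sub_sub_self hx2.le] at h3
      exact h3.symm

end SEB
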