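import Pool.Agent.Lib.SE.Big.Asm5
import Pool.Agent.Lib.SE.Big.Pr3

/-!
# PROJECT SE, module IsBig: the signatures of `y ^ m = f(x)`, `deg f = 3`, `m` even (helper92)

The statement and the proof are those of `S_Pr4` in `SE/Big/VG5.lean` (helper64).
-/

set_option autoImplicit false

noncomputable section

namespace SEB

/-- the curves `y ^ m = f(x)`, `deg f = 3`, `m` even -/
def S_PrE : Prop :=
  ∀ m : ℕ, Even m → 8 ≤ m → m ≠ 10 → AperC m 2 (fun _ => 1) ∧ HypU m 2 (fun _ => 1)

namespace PrE_aux

/-- the distance of `x` to the nearest multiple of `M` is less than `M / c` -/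
def N (c M x : ℤ) : Prop := ∃ k : ℤ, c * |x - M * k| < M

lemma N_add (c M x j : ℤ) : N c M (x + M * j) ↔ N c M x := by
  constructor
  · rintro ⟨k, hk⟩
    refine ⟨k - j, ?_⟩
    have e : x - M * (k - j) = x + M * j - M * k := by ring
    rwa [e]
  · rintro ⟨k, hk⟩
    refine ⟨k + j, ?_⟩
    have e : x + M * j - M * (k + j) = x - M * k := by ring
    rwa [e]

lemma N_neg (c M x : ℤ) : N c M (-x) ↔ N c M x := by
  constructor
  · rintro ⟨k, hk⟩
    refine ⟨-k, ?_⟩
    have e : x - M * -k = -(-x - M * k) := by ring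
    rwa [e, abs_neg]
  · rintro ⟨k, hk⟩
    refine ⟨-k, ?_⟩
    have e : -x - M * -k = -(x - M * k) := by ring
    rwa [e, abs_neg]

lemma N_small {c M x : ℤ} (hM : 0 < M) (hc : 2 ≤ c) (hx : 2 * |x| ≤ M) :
    N c M x ↔ c * |x| < M := by
  constructor
  · rintro ⟨k, hk⟩
    by_cases h0 : k = 0
    · subst h0
      rwa [mul_zero, sub_zero] at hk
    · exfalso
      have h1 : 1 ≤ |k| := Int.one_le_abs h0
      have h2 : |M * k| ≤ |x - M * k| + |x| := by
        have := abs_sub_abs_le_abs_sub (M * k) x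
        rw [abs_sub_comm x (M * k)]
        linarith
      have h3 : M ≤ |M * k| := by
        rw [abs_mul, abs_of_pos hM]
        nlinarith
      have h4 : M ≤ 2 * |x - M * k| := by linarith
      have h5 : 2 * |x - M * k| ≤ c * |x - M * k| :=
        mul_le_mul_of_nonneg_right hc (abs_nonneg _)
      linarith
  · intro h
    exact ⟨0, by rwa [mul_zero, sub_zero]⟩

lemma cen {M : ℤ} (hM : 0 < M) (x : ℤ) : ∃ j d : ℤ, x = d + M * j ∧ 2 * |d| ≤ M := by
  have h1 := Int.emod_add_mul_ediv x M
  have h2 := Int.emod_nonneg x hM.ne'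
  have h3 := Int.emod_lt_of_pos x hM
  by_cases h : 2 * (x % M) ≤ M
  · exact ⟨x / M, x % M, h1.symm, by rwa [abs_of_nonneg h2]⟩
  · refine ⟨x / M + 1, x % M - M, by linear_combination -h1, ?_⟩
    rw [abs_of_nonpos (by linarith)]
    linarith

/-- part (A), a representative between `0` and `M / 2` -/
lemma partA' {M g : ℤ} (hM : 7 ≤ M) (ho : Odd M) (hg0 : 0 < g) (hg : 2 * g < M)
    (H : ∀ y, IsCoprime y M → N 6 M y → N 6 M (g * y)) : g = 1 := by
  have hM0 : 0 < M := by linarith
  have h2 : IsCoprime (2 : ℤ) M := by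
    obtain ⟨k, hk⟩ := ho
    exact ⟨-k, 1, by rw [hk]; ring⟩
  have step : ∀ k : ℕ, 6 * 2 ^ k < M → 6 * 2 ^ k * g < M := by
    intro k
    induction k with
    | zero =>
      intro _
      have h3 := H 1 isCoprime_one_left ⟨0, by simp; linarith⟩
      rw [mul_one, N_small hM0 (by norm_num) (by rw [abs_of_pos hg0]; linarith),
        abs_of_pos hg0] at h3
      simpa using h3
    | succ k ih =>
      intro h3
      have hp : (0 : ℤ) < 2 ^ k := by positivity
      have e1 : (2 : ℤ) ^ (k + 1) = 2 * 2 ^ k := pow_succ' 2 k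
      have h4 := ih (by rw [e1] at h3; linarith)
      have h5 := H (2 ^ (k + 1)) (h2.pow_left) ⟨0, by
        rw [mul_zero, sub_zero, abs_of_pos (by positivity)]
        exact h3⟩
      have h6 : 0 < g * 2 ^ (k + 1) := by positivity
      rw [N_small hM0 (by norm_num) (by
        rw [abs_of_pos h6, e1]
        nlinarith), abs_of_pos h6] at h5
      linarith
  by_contra hne
  have hg2 : 2 ≤ g := by
    rcases lt_or_ge g 2 with h | h
    · exact absurd (by linarith [Int.lt_iff_add_one_le.1 hg0, Int.lt_iff_add_one_le.1 h]) hne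
    · exact h
  obtain ⟨n, hn⟩ : ∃ n : ℕ, M = n := ⟨M.toNat, (Int.toNat_of_nonneg hM0.le).symm⟩
  obtain ⟨a, h3, h4⟩ := Pr3_aux.dbl (m := n) (n := 6) (by norm_num) (by omega)
  have h3' : M < 6 * 2 ^ (a + 1) := by
    rw [hn]
    exact_mod_cast h3
  have h4' : 6 * 2 ^ a ≤ M := by
    rw [hn]
    exact_mod_cast h4
  have h5 : 6 * 2 ^ a ≠ M := by
    intro h
    rw [← h, ← Int.not_even_iff_odd] at ho
    exact ho ((by decide : Even (6 : ℤ)).mul_right _)
  have h6 := step a (lt_of_le_of_ne h4' h5)
  have hp : (0 : ℤ) < 2 ^ a := by positivity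
  rw [pow_succ] at h3'
  nlinarith

/-- part (A) -/
lemma partA {M g : ℤ} (hM : 7 ≤ M) (ho : Odd M) (hgc : IsCoprime g M)
    (H : ∀ y, IsCoprime y M → N 6 M y → N 6 M (g * y)) : M ∣ g - 1 ∨ M ∣ g + 1 := by
  have hM0 : 0 < M := by linarith
  obtain ⟨j, d, hd, hd2⟩ := cen hM0 g
  have hd0 : d ≠ 0 := by
    rintro rfl
    rw [zero_add] at hd
    have h1 : M ∣ g := ⟨j, hd⟩
    have h2 := hgc.isUnit_of_dvd' h1 dvd_rfl
    have h3 := Int.isUnit_iff.1 h2
    rcases h3 with h3 | h3 <;> linarith
  have hne : 2 * |d| ≠ M := by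
    intro h
    rw [← h, ← Int.not_even_iff_odd] at ho
    exact ho ((by decide : Even (2 : ℤ)).mul_right _)
  have hlt : 2 * |d| < M := lt_of_le_of_ne hd2 hne
  have H' : ∀ y, IsCoprime y M → N 6 M y → N 6 M (d * y) := by
    intro y hy h
    have h1 := H y hy h
    have e : g * y = d * y + M * (j * y) := by
      rw [hd]
      ring
    rwa [e, N_add] at h1
  rcases lt_or_gt_of_ne hd0 with h | h
  · right
    have h1 : -d = 1 := by
      refine partA' hM ho (by linarith) (by rw [abs_of_neg h] at hlt; linarith) ?_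
      intro y hy hN
      have h2 := H' y hy hN
      rwa [neg_mul, N_neg]
    exact ⟨j, by linarith⟩
  · left
    have h1 : d = 1 := by
      refine partA' hM ho h (by rw [abs_of_pos h] at hlt; linarith) H'
    exact ⟨j, by linarith⟩

/-- the condition -/
def Q (m g : ℤ) : Prop := ∀ u, IsCoprime u m → (N 3 m u ↔ N 3 m (g * u))

lemma odd_of {g M : ℤ} (h : IsCoprime g (2 * M)) : Odd g := by
  have h1 : IsCoprime g 2 := h.of_mul_right_left
  by_contra h2
  rw [Int.not_odd_iff_even] at h2
  obtain ⟨k, hk⟩ := h2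
  have h3 : (2 : ℤ) ∣ g := ⟨k, by rw [hk]; ring⟩
  have h4 := h1.isUnit_of_dvd' h3 dvd_rfl
  rcases Int.isUnit_iff.1 h4 with h5 | h5 <;> omega

lemma cop2 {M : ℤ} (h : Odd M) : IsCoprime M 2 := by
  obtain ⟨k, hk⟩ := h
  exact ⟨1, -k, by rw [hk]; ring⟩

/-- part (B) -/
lemma partB {M g : ℤ} (hM : 7 ≤ M) (ho : Odd M) (hgc : IsCoprime g (2 * M)) (hQ : Q (2 * M) g) :
    2 * M ∣ g - 1 ∨ 2 * M ∣ g + 1 := by
  have hM0 : 0 < M := by linarith
  have hgo := odd_of hgc
  obtain ⟨c, hc⟩ := hgo
  have H : ∀ y, IsCoprime y M → N 6 M y → N 6 M (g * y) := by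
    rintro y hy ⟨k, hk⟩
    -- the representative
    obtain ⟨z, hz⟩ : ∃ z, z = y - M * k := ⟨_, rfl⟩
    rw [← hz] at hk
    have hzc : IsCoprime z M := by
      have := hy.add_mul_left_left (-k)
      have e : y + M * -k = z := by rw [hz]; ring
      rwa [e] at this
    have e1 : g * y = g * z + M * (g * k) := by rw [hz]; ring
    rw [e1, N_add]
    have hz1 := abs_lt.1 (show |z| < M by linarith [abs_nonneg z])
    have hu : IsCoprime (M + 2 * z) (2 * M) := by
      refine IsCoprime.mul_right ?_ ?_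
      · exact (cop2 ho).add_mul_left_left z
      · have h1 : IsCoprime (2 * z) M := IsCoprime.mul_left (cop2 ho).symm hzc
        have h2 := h1.add_mul_left_left 1
        rwa [mul_one, add_comm] at h2
    have h3 : ¬ N 3 (2 * M) (M + 2 * z) := by
      rintro ⟨k, hk'⟩
      have e2 : M + 2 * z - 2 * M * k = M * (1 - 2 * k) + 2 * z := by ring
      have h4 : |M * (1 - 2 * k)| ≤ |M + 2 * z - 2 * M * k| + |2 * z| := by
        rw [e2]
        have := abs_sub_abs_le_abs_sub (M * (1 - 2 * k)) (-(2 * z))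
        rw [abs_neg, sub_neg_eq_add] at this
        linarith
      have h5 : 1 ≤ |1 - 2 * k| := Int.one_le_abs (by omega)
      rw [abs_mul, abs_of_pos hM0, abs_mul, abs_of_pos (by norm_num : (0 : ℤ) < 2)] at h4
      nlinarith
    have h4 : ¬ N 3 (2 * M) (g * (M + 2 * z)) := fun h => h3 ((hQ _ hu).2 h)
    obtain ⟨j, d, hd, hd2⟩ := cen hM0 (g * z)
    have e2 : g * (M + 2 * z) = (M + 2 * d) + 2 * M * (c + j) := by
      have : g * (M + 2 * z) = g * M + 2 * (g * z) := by ring
      rw [this, hd, hc]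
      ring
    rw [e2, N_add] at h4
    rw [hd, N_add, N_small hM0 (by norm_num) hd2]
    have hne : 6 * |d| ≠ M := by
      intro h
      rw [← h, ← Int.not_even_iff_odd] at ho
      exact ho ((by decide : Even (6 : ℤ)).mul_right _)
    refine lt_of_le_of_ne ?_ hne
    by_contra hlt
    push Not at hlt
    rcases le_or_gt 0 d with h0 | h0
    · refine h4 ⟨1, ?_⟩
      rw [abs_of_nonneg h0] at hlt hd2
      have e3 : M + 2 * d - 2 * M * 1 = 2 * d - M := by ring
      rw [e3, abs_of_nonpos (by linarith)]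
      linarith
    · refine h4 ⟨0, ?_⟩
      rw [abs_of_neg h0] at hlt hd2
      have e3 : M + 2 * d - 2 * M * 0 = M + 2 * d := by ring
      rw [e3, abs_of_nonneg (by linarith)]
      linarith
  have hgM : IsCoprime g M := hgc.of_mul_right_right
  have key : ∀ e : ℤ, Odd e → M ∣ g - e → 2 * M ∣ g - e := by
    rintro e ⟨k, hk⟩ h
    refine (cop2 ho).symm.mul_dvd ⟨c - k, by rw [hc, hk]; ring⟩ h
  rcases partA hM ho hgM H with h | h
  · exact Or.inl (key 1 (by decide) h)
  · right
    have := key (-1) (by decide) (by rwa [sub_neg_eq_add])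
    rwa [sub_neg_eq_add] at this

/-- part (C), first step -/
lemma half {M u : ℤ} (hM : 4 ≤ M) (hu : IsCoprime u (2 * M)) :
    N 6 (2 * M) u ↔ ¬ N 3 (2 * M) (u + M) := by
  have hm0 : 0 < 2 * M := by linarith
  obtain ⟨j, d, hd, hd2⟩ := cen hm0 u
  have hd3 : |d| ≤ M := by linarith
  have hdc : IsCoprime d (2 * M) := by
    have := hu.add_mul_left_left (-j)
    have e : u + 2 * M * -j = d := by rw [hd]; ring
    rwa [e] at this
  have hne : 6 * |d| ≠ 2 * M := by
    intro h
    have h1 : |d| ∣ 2 * M := ⟨6, by rw [← h]; ring⟩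
    have h2 : d ∣ 2 * M := (abs_dvd _ _).1 h1
    have h3 := hdc.isUnit_of_dvd' dvd_rfl h2
    rcases Int.isUnit_iff.1 h3 with h4 | h4
    · rw [h4] at h
      norm_num at h
      omega
    · rw [h4] at h
      norm_num at h
      omega
  have e1 : u + M = (d + M) + 2 * M * j := by rw [hd]; ring
  rw [e1, N_add, hd, N_add, N_small hm0 (by norm_num) hd2]
  have h3 : N 3 (2 * M) (d + M) ↔ 2 * M < 6 * |d| := by
    rcases le_or_gt d 0 with h0 | h0
    · rw [abs_of_nonpos h0] at hd3 ⊢
      have h4 : 0 ≤ d + M := by linarith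
      rw [N_small hm0 (by norm_num) (by rw [abs_of_nonneg h4]; linarith), abs_of_nonneg h4]
      constructor <;> intro h <;> linarith
    · rw [abs_of_pos h0] at hd3 ⊢
      have e2 : d + M = (d - M) + 2 * M * 1 := by ring
      have h4 : d - M ≤ 0 := by linarith
      rw [e2, N_add, N_small hm0 (by norm_num) (by rw [abs_of_nonpos h4]; linarith),
        abs_of_nonpos h4]
      constructor <;> intro h <;> linarith
  rw [h3, not_lt]
  exact ⟨fun h => h.le, fun h => lt_of_le_of_ne h hne⟩

lemma dbl_mod (M x : ℤ) : N 3 M x ↔ N 6 (2 * M) x ∨ N 6 (2 * M) (x + M) := by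
  constructor
  · rintro ⟨k, hk⟩
    rcases Int.even_or_odd' k with ⟨l, hl | hl⟩
    · left
      refine ⟨l, ?_⟩
      have e : x - 2 * M * l = x - M * k := by rw [hl]; ring
      rw [e]
      linarith
    · right
      refine ⟨l + 1, ?_⟩
      have e : x + M - 2 * M * (l + 1) = x - M * k := by rw [hl]; ring
      rw [e]
      linarith
  · rintro (⟨k, hk⟩ | ⟨k, hk⟩)
    · refine ⟨2 * k, ?_⟩
      have e : x - M * (2 * k) = x - 2 * M * k := by ring
      rw [e]
      linarith
    · refine ⟨2 * k - 1, ?_⟩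
      have e : x - M * (2 * k - 1) = x + M - 2 * M * k := by ring
      rw [e]
      linarith

/-- part (C) -/
lemma partC {M g : ℤ} (hM : 4 ≤ M) (he : Even M) (hgc : IsCoprime g (2 * M))
    (hQ : Q (2 * M) g) : (∀ u, IsCoprime u (2 * M) → (N 6 (2 * M) u ↔ N 6 (2 * M) (g * u))) ∧
      N 6 (2 * M) g ∧ Q M g := by
  have h2M : (2 : ℤ) ∣ M := by
    obtain ⟨k, hk⟩ := he
    exact ⟨k, by rw [hk]; ring⟩
  obtain ⟨c, hc⟩ := odd_of hgc
  have up : ∀ x, IsCoprime x M → IsCoprime x (2 * M) := fun x hx =>
    IsCoprime.mul_right (hx.of_isCoprime_of_dvd_right h2M) hx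
  have hsh : ∀ u, IsCoprime u (2 * M) → IsCoprime (u + M) (2 * M) := by
    intro u hu
    refine up _ ?_
    have := hu.of_mul_right_right.add_mul_left_left 1
    rwa [mul_one] at this
  have h1 : ∀ u, IsCoprime u (2 * M) → (N 6 (2 * M) u ↔ N 6 (2 * M) (g * u)) := by
    intro u hu
    have e : g * (u + M) = (g * u + M) + 2 * M * c := by
      rw [hc]
      ring
    rw [half hM hu, half hM (hgc.mul_left hu), hQ _ (hsh u hu), e, N_add]
  refine ⟨h1, ?_, ?_⟩
  · have h2 := (h1 1 isCoprime_one_left).1 ⟨0, by simp; linarith⟩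
    rwa [mul_one] at h2
  · intro x hx
    have hx2 := up x hx
    have e : g * (x + M) = (g * x + M) + 2 * M * c := by
      rw [hc]
      ring
    rw [dbl_mod M x, dbl_mod M (g * x), h1 x hx2, h1 (x + M) (hsh x hx2), e, N_add]

lemma small {m g : ℤ} (hm : m = 8 ∨ m = 12 ∨ m = 20) (hgc : IsCoprime g m) (hN : N 6 m g)
    (h1 : ∀ u, IsCoprime u m → (N 6 m u ↔ N 6 m (g * u))) : m ∣ g - 1 ∨ m ∣ g + 1 := by
  obtain ⟨k, hk⟩ := hN
  obtain ⟨d, hd⟩ : ∃ d, d = g - m * k := ⟨_, rfl⟩
  rw [← hd] at hk
  have hdc : IsCoprime d m := by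
    have := hgc.add_mul_left_left (-k)
    have e : g + m * -k = d := by rw [hd]; ring
    rwa [e] at this
  have hd0 : d ≠ 0 := by
    rintro h
    rw [h] at hdc
    have := isCoprime_zero_left.1 hdc
    rcases Int.isUnit_iff.1 this with h | h <;> omega
  have h2 : ¬ (2 : ℤ) ∣ d := by
    intro h
    have h3 : (2 : ℤ) ∣ m := by rcases hm with rfl | rfl | rfl <;> norm_num
    have := hdc.isUnit_of_dvd' h h3
    rcases Int.isUnit_iff.1 this with h | h <;> omega
  have hb : d = 1 ∨ d = -1 ∨ (m = 20 ∧ (d = 3 ∨ d = -3)) := by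
    rcases hm with rfl | rfl | rfl
    · have := abs_lt.1 (show |d| < 2 by linarith)
      omega
    · have := abs_lt.1 (show |d| < 2 by linarith)
      omega
    · have := abs_lt.1 (show |d| < 4 by linarith)
      omega
  rcases hb with h | h | ⟨rfl, h⟩
  · left
    exact ⟨k, by linarith⟩
  · right
    exact ⟨k, by linarith⟩
  · exfalso
    have h3 := (h1 3 (by
      refine ⟨7, -1, by norm_num⟩)).1 ⟨0, by norm_num⟩
    have e : g * 3 = d * 3 + 20 * (3 * k) := by rw [hd]; ring
    rw [e, N_add] at h3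
    rcases h with h | h
    · rw [h, N_small (by norm_num) (by norm_num) (by norm_num)] at h3
      norm_num at h3
    · rw [h, N_small (by norm_num) (by norm_num) (by norm_num)] at h3
      norm_num at h3

/-- the theorem for integers -/
lemma main : ∀ m : ℕ, Even m → 8 ≤ m → m ≠ 10 → ∀ g : ℤ, IsCoprime g (m : ℤ) → Q m g →
    (m : ℤ) ∣ g - 1 ∨ (m : ℤ) ∣ g + 1 := by
  intro m
  induction m using Nat.strong_induction_on with
  | _ m ih =>
  intro he h8 h10 g hgc hQ
  obtain ⟨M, hM⟩ := he
  have hm2 : (m : ℤ) = 2 * (M : ℤ) := by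
    rw [hM]
    push_cast
    ring
  rw [hm2] at hgc hQ ⊢
  rcases Nat.even_or_odd M with hMe | hMo
  · have hM4 : (4 : ℤ) ≤ M := by
      have : 4 ≤ M := by omega
      exact_mod_cast this
    obtain ⟨h1, h2, h3⟩ := partC hM4 (by exact_mod_cast hMe) hgc hQ
    by_cases hb : 8 ≤ M ∧ M ≠ 10
    · have h4 := ih M (by omega) hMe hb.1 hb.2 g hgc.of_mul_right_right h3
      have h8' : (8 : ℤ) ≤ M := by exact_mod_cast hb.1
      -- the case `g = e + M` modulo `m`
      have key : ∀ e : ℤ, |e| = 1 → (M : ℤ) ∣ g - e → 2 * (M : ℤ) ∣ g - e := by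
        rintro e he ⟨k, hk⟩
        rcases Int.even_or_odd' k with ⟨l, hl | hl⟩
        · exact ⟨l, by rw [hk, hl]; ring⟩
        · exfalso
          have e1 : g = (e + M) + 2 * M * l := by
            have : g = e + M * k := by linarith
            rw [this, hl]
            ring
          rw [e1, N_add] at h2
          have he2 := abs_le.1 he.le
          rcases le_or_gt e 0 with h0 | h0
          · rw [N_small (by linarith) (by norm_num) (by
              rw [abs_of_nonneg (by linarith)]
              linarith), abs_of_nonneg (by linarith)] at h2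
            linarith
          · have e2 : e + (M : ℤ) = (e - M) + 2 * M * 1 := by ring
            rw [e2, N_add, N_small (by linarith) (by norm_num) (by
              rw [abs_of_nonpos (by linarith)]
              linarith), abs_of_nonpos (by linarith)] at h2
            linarith
      rcases h4 with h4 | h4
      · exact Or.inl (key 1 (by norm_num) h4)
      · right
        have := key (-1) (by norm_num) (by rwa [sub_neg_eq_add])
        rwa [sub_neg_eq_add] at this
    · refine small ?_ hgc h2 h1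
      have hM' : M = 4 ∨ M = 6 ∨ M = 10 := by
        obtain ⟨k, hk⟩ := hMe
        omega
      rcases hM' with rfl | rfl | rfl <;> norm_num
  · have hM7 : (7 : ℤ) ≤ M := by
      have : 7 ≤ M := by
        obtain ⟨k, hk⟩ := hMo
        omega
      exact_mod_cast this
    exact partB hM7 (by exact_mod_cast hMo) hgc hQ

end PrE_aux

open PrE_aux Pr3_aux

theorem tPrE : S_PrE := by
  intro m he h8 h10
  have hm : 0 < m := by omega
  have hm1 : 1 < m := by omega
  have hmz : (0 : ℤ) < m := by exact_mod_cast hm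
  have hd : ¬ m ∣ 2 + 1 := fun h => by
    have := Nat.le_of_dvd (by norm_num) h
    omega
  have hpos : ∀ u, u.Coprime m → 0 < u := by
    intro u hu
    rcases Nat.eq_zero_or_pos u with h | h
    · rw [h, Nat.coprime_zero_left] at hu
      omega
    · exact h
  have hsubc : ∀ u, u < m → u.Coprime m → (m - u).Coprime m := fun u hu hc =>
    (Nat.coprime_self_sub_left hu.le).2 hc
  have hprod : ∀ u, u < m → u.Coprime m → sg m 2 (fun _ => 1) u = 2 - t m 2 u ∧
      sg m 2 (fun _ => 1) (m - u) = t m 2 u ∧ t m 2 u ≤ 2 := by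
    intro u hu hc
    have h1 := t_add hm hd hc hu
    have h4 := hpos u hc
    rw [sg_eq hm hd hc hu, sg_eq hm hd (hsubc u hu hc) (by omega)]
    refine ⟨rfl, by omega, by omega⟩
  -- the product
  have hN : ∀ u, u < m → u.Coprime m → (sg m 2 (fun _ => 1) u * sg m 2 (fun _ => 1) (m - u) = 0 ↔
      N 3 m u) := by
    intro u hu hc
    obtain ⟨q1, q2, q3⟩ := hprod u hu hc
    have h1 := t_add hm hd hc hu
    have h2 := t_zero (m := m) (r := 2) (u := u) hm
    have h3 := t_zero (m := m) (r := 2) (u := m - u) hm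
    have h4 : (2 - t m 2 u) * t m 2 u = 0 ↔ t m 2 u = 0 ∨ t m 2 (m - u) = 0 := by
      rw [Nat.mul_eq_zero]
      omega
    rw [q1, q2, h4, h2, h3]
    have huz : (u : ℤ) < m := by exact_mod_cast hu
    have hu0 : (0 : ℤ) ≤ u := by positivity
    constructor
    · rintro (h | h)
      · refine ⟨0, ?_⟩
        rw [mul_zero, sub_zero, abs_of_nonneg hu0]
        exact_mod_cast h
      · refine ⟨1, ?_⟩
        rw [mul_one, abs_of_nonpos (by linarith)]
        have h5 : (((2 + 1) * (m - u) : ℕ) : ℤ) < m := by exact_mod_cast h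
        rw [Nat.cast_mul, Nat.cast_sub hu.le] at h5
        push_cast at h5
        linarith
    · rintro ⟨k, hk⟩
      have hk1 : |(u : ℤ) - m * k| < m := by
        have := abs_nonneg ((u : ℤ) - m * k)
        linarith
      obtain ⟨h5, h6⟩ := abs_lt.1 hk1
      have hk2 : -1 < k := by
        by_contra h
        push Not at h
        nlinarith
      have hk3 : k < 2 := by
        by_contra h
        push Not at h
        nlinarith
      have hk4 : k = 0 ∨ k = 1 := by omega
      rcases hk4 with rfl | rfl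
      · left
        rw [mul_zero, sub_zero, abs_of_nonneg hu0] at hk
        have : (((2 + 1) * u : ℕ) : ℤ) < m := by
          push_cast
          linarith
        exact_mod_cast this
      · right
        rw [mul_one, abs_of_nonpos (by linarith)] at hk
        have : (((2 + 1) * (m - u) : ℕ) : ℤ) < m := by
          rw [Nat.cast_mul, Nat.cast_sub hu.le]
          push_cast
          linarith
        exact_mod_cast this
  refine ⟨?_, ?_⟩
  · intro g hg hgc H
    have hQ : Q m g := by
      intro u hu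
      -- the representative of `u`
      have hun := Int.emod_nonneg u hmz.ne'
      have hul := Int.emod_lt_of_pos u hmz
      obtain ⟨v, hv⟩ : ∃ v : ℕ, u % m = v := ⟨(u % m).toNat, (Int.toNat_of_nonneg hun).symm⟩
      have hvm : v < m := by
        rw [hv] at hul
        exact_mod_cast hul
      have hu2 : u = v + m * (u / m) := by
        rw [← hv]
        exact (Int.emod_add_mul_ediv u m).symm
      have hvc : v.Coprime m := by
        rw [← Nat.isCoprime_iff_coprime]
        have := hu.add_mul_left_left (-(u / m))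
        have e : u + m * -(u / m) = v := by
          rw [mul_neg]
          linarith
        rwa [e] at this
      have h1 := H v hvm hvc
      have h4 : (v * g) % m < m := Nat.mod_lt _ hm
      have h5 : ((v * g) % m).Coprime m := by
        have h6 : (v * g).Coprime m := Nat.Coprime.mul_left hvc hgc
        rw [Nat.coprime_iff_gcd_eq_one, ← Nat.gcd_rec]
        exact Nat.coprime_iff_gcd_eq_one.1 h6.symm
      have e1 : N 3 m u ↔ N 3 m v := by
        rw [hu2, N_add]
      have e2 : N 3 m ((g : ℤ) * u) ↔ N 3 m (((v * g) % m : ℕ) : ℤ) := by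
        have e3 : (g : ℤ) * u = (((v * g) % m : ℕ) : ℤ) +
            m * ((((v * g) / m : ℕ) : ℤ) + g * (u / m)) := by
          have e4 : (((v * g) % m : ℕ) : ℤ) + m * (((v * g) / m : ℕ) : ℤ) = v * g := by
            exact_mod_cast Nat.mod_add_div (v * g) m
          have e5 : (g : ℤ) * u = g * v + g * (m * (u / m)) := by
            rw [← mul_add, ← hu2]
          linear_combination e5 - e4
        rw [e3, N_add]
      rw [e1, e2, ← hN v hvm hvc, ← hN _ h4 h5, h1]
    rcases main m he h8 h10 g (Nat.isCoprime_iff_coprime.2 hgc) hQ with h | h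
    · left
      have h0 := hpos g hgc
      have h1 : (g : ℤ) - 1 = ((g - 1 : ℕ) : ℤ) := by
        rw [Nat.cast_sub h0]
        rfl
      rw [h1] at h
      have h2 := Nat.eq_zero_of_dvd_of_lt (Int.natCast_dvd_natCast.1 h) (by omega)
      omega
    · right
      have h1 : m ∣ g + 1 := by exact_mod_cast h
      have h2 := Nat.le_of_dvd (by omega) h1
      omega
  · -- the unit
    have hu : ∃ u, u < m ∧ u.Coprime m ∧ t m 2 u = 1 := by
      obtain ⟨M, hM⟩ := he
      rcases Nat.even_or_odd M with ⟨l, hl⟩ | ⟨l, hl⟩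
      · refine ⟨2 * l - 1, by omega, ?_, ?_⟩
        · rw [← Nat.isCoprime_iff_coprime]
          refine ⟨-(2 * l + 1), l, ?_⟩
          have e1 : ((2 * l - 1 : ℕ) : ℤ) = 2 * l - 1 := by
            rw [Nat.cast_sub (by omega)]
            push_cast
            ring
          have e2 : (m : ℤ) = 4 * l := by omega
          rw [e1, e2]
          ring
        · unfold t
          rw [Nat.div_eq_iff hm]
          omega
      · refine ⟨2 * l - 1, by omega, ?_, ?_⟩
        · rw [← Nat.isCoprime_iff_coprime]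
          have hc4 : IsCoprime (2 * (l : ℤ) - 1) 4 := by
            have h2 : IsCoprime (2 * (l : ℤ) - 1) 2 := ⟨-1, l, by ring⟩
            have := h2.pow_right (n := 2)
            norm_num at this
            exact this
          have e1 : ((2 * l - 1 : ℕ) : ℤ) = 2 * l - 1 := by
            rw [Nat.cast_sub (by omega)]
            push_cast
            ring
          have e2 : (m : ℤ) = 4 + (2 * (l : ℤ) - 1) * 2 := by omega
          rw [e1, e2]
          exact hc4.add_mul_left_right 2
        · unfold t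
          rw [Nat.div_eq_iff hm]
          omega
    obtain ⟨u, hu, huc, ht⟩ := hu
    obtain ⟨q1, q2, q3⟩ := hprod u hu huc
    exact ⟨u, hu, huc, by rw [q1, ht]; norm_num, by rw [q2, ht]; norm_num, Or.inr rfl⟩

end SEB
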