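import Pool.Agent.Lib.SE.Big.VG2

/-! # PROJECT SE, module IsBig, part 4, module Pv: period vectors, linearity and independence -/

set_option autoImplicit false

open Module MeasureTheory Topology

noncomputable section

namespace SEB

open HC HC.E HC.SE

namespace Pv_aux

theorem evc (f : Polynomial ℂ) : Continuous fun x : ℝ => f.eval (x : ℂ) :=
  f.continuous.comp Complex.continuous_ofReal

theorem integrable_wf {p q : ℝ} {w : ℝ → ℝ} (h : IntervalIntegrable w volume p q)
    (f : Polynomial ℂ) :
    IntervalIntegrable (fun x : ℝ => ((w x : ℝ) : ℂ) * f.eval (x : ℂ)) volume p q := by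
  have h1 : IntervalIntegrable (fun x : ℝ => ((w x : ℝ) : ℂ)) volume p q := ⟨h.1.ofReal, h.2.ofReal⟩
  exact h1.mul_continuousOn (evc f).continuousOn

end Pv_aux

open Pv_aux in
theorem tPv : S_Kap → S_Wt → S_Mom → S_Pv := by
  intro hKap hWt hMom m r b u s hA
  obtain ⟨_, hmu, _, hk⟩ := hKap m r b u s hA
  have hs : StrictMono s := hA.1
  have hI := fun k => hWt r (mu m b u) s hmu hs k
  refine ⟨?_, ?_, ?_⟩
  · intro f g
    funext k
    simp only [Pv, Pi.add_apply, Polynomial.eval_add, mul_add]
    rw [intervalIntegral.integral_add (integrable_wf (hI k) f) (integrable_wf (hI k) g), mul_add]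
  · intro c f
    funext k
    simp only [Pv, Pi.smul_apply, smul_eq_mul, Polynomial.eval_mul, Polynomial.eval_C]
    have h1 : ∀ x : ℝ, ((wt (mu m b u) s x : ℝ) : ℂ) * (c * f.eval (x : ℂ)) =
        c * (((wt (mu m b u) s x : ℝ) : ℂ) * f.eval (x : ℂ)) := fun x => by ring
    simp only [h1]
    rw [intervalIntegral.integral_const_mul]
    ring
  · intro f hf h0
    set A : Matrix (Fin r) (Fin r) ℂ := fun d k =>
      ((∫ x in (s k.castSucc)..(s k.succ), wt (mu m b u) s x * x ^ (d : ℕ) : ℝ) : ℂ) with hAdef
    have hdet : A.det ≠ 0 := by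
      intro hd
      obtain ⟨c, hc0, hc⟩ := Matrix.exists_mulVec_eq_zero_iff.2 hd
      refine hc0 (hMom r (mu m b u) s hmu hs c fun d hd => ?_)
      have h1 := congrFun hc ⟨d, hd⟩
      simp only [Matrix.mulVec, dotProduct, Pi.zero_apply, hAdef] at h1
      rw [← h1]
      exact Finset.sum_congr rfl fun k _ => mul_comm _ _
    have hv : Matrix.vecMul (fun d : Fin r => f.coeff d) A = 0 := by
      funext k
      have h1 := congrFun h0 k
      simp only [Pv, Pi.zero_apply, mul_eq_zero, (hk k).1, false_or] at h1
      simp only [Matrix.vecMul, dotProduct, Pi.zero_apply, hAdef]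
      rw [← h1]
      have h2 : ∀ x : ℝ, ((wt (mu m b u) s x : ℝ) : ℂ) * f.eval (x : ℂ) =
          ∑ d : Fin r, f.coeff d * (((wt (mu m b u) s x * x ^ (d : ℕ) : ℝ)) : ℂ) := by
        intro x
        have h3 : f.eval (x : ℂ) = ∑ d : Fin r, f.coeff d * (x : ℂ) ^ (d : ℕ) := by
          by_cases hr : f = 0
          · subst hr
            simp
          rw [Polynomial.eval_eq_sum_range' (n := r)
            ((Polynomial.natDegree_lt_iff_degree_lt hr).2 hf)]
          exact Finset.sum_range fun i => f.coeff i * (x : ℂ) ^ i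
        rw [h3, Finset.mul_sum]
        refine Finset.sum_congr rfl fun d _ => ?_
        push_cast
        ring
      simp only [h2]
      rw [intervalIntegral.integral_finsetSum]
      · refine Finset.sum_congr rfl fun d _ => ?_
        rw [intervalIntegral.integral_const_mul, intervalIntegral.integral_ofReal]
      · intro d _
        have h4 : IntervalIntegrable (fun x : ℝ => wt (mu m b u) s x * x ^ (d : ℕ)) volume
            (s k.castSucc) (s k.succ) :=
          (hI k).mul_continuousOn (continuous_pow (d : ℕ)).continuousOn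
        have h5 : IntervalIntegrable (fun x : ℝ => ((wt (mu m b u) s x * x ^ (d : ℕ) : ℝ) : ℂ))
            volume (s k.castSucc) (s k.succ) := ⟨h4.1.ofReal, h4.2.ofReal⟩
        exact h5.const_mul _
    have hz : (fun d : Fin r => f.coeff d) = 0 := by
      by_contra hne
      exact hdet (Matrix.exists_vecMul_eq_zero_iff.1 ⟨_, hne, hv⟩)
    ext n
    rw [Polynomial.coeff_zero]
    by_cases hn : n < r
    · exact congrFun hz ⟨n, hn⟩
    · exact Polynomial.coeff_eq_zero_of_degree_lt (hf.trans_le (by exact_mod_cast not_lt.1 hn))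

end SEB
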