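import Pool.Agent.Lib.SE.Big.VG2
import Pool.Agent.Lib.SE.Big.Sub
import Pool.Agent.Lib.SE.Big.Der

/-! # PROJECT SE, module IsBig, part 4, module PvD: derivative of the period vectors -/

set_option autoImplicit false

open Module MeasureTheory Topology

noncomputable section

namespace SEB

open HC HC.E HC.SE

namespace PvD_aux

open Sub_aux Der_aux

/-- the substitution with the additional factor -/
theorem subst {r : ℕ} (μ s : Fin (r + 1) → ℝ) (a : Polynomial ℝ) (f : Polynomial ℂ)
    (hs : StrictMono s)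
    (ha : ∀ t ∈ Set.Icc (s 0) (s (Fin.last r)), |a.derivative.eval t| ≤ 1 / 2 ∧
      ∀ j, |(dd a (s j)).eval t| ≤ 1 / 2) (k : Fin r) :
    (∫ x in (s k.castSucc + a.eval (s k.castSucc))..(s k.succ + a.eval (s k.succ)),
      ((wt μ (fun j => s j + a.eval (s j)) x : ℝ) : ℂ) * f.eval (x : ℂ)) =
    ∫ t in (s k.castSucc)..(s k.succ), ((wt μ s t : ℝ) : ℂ) *
      ((((∏ j, (1 + (dd a (s j)).eval t) ^ (-μ j)) * (1 + a.derivative.eval t) : ℝ) : ℂ) *
        f.eval ((t + a.eval t : ℝ) : ℂ)) := by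
  have hk1 : s 0 ≤ s k.castSucc := hs.monotone (Fin.zero_le _)
  have hk2 : s k.castSucc < s k.succ := hs (Fin.castSucc_lt_succ)
  have hk3 : s k.succ ≤ s (Fin.last r) := hs.monotone (Fin.le_last _)
  have hsub : Set.Icc (s k.castSucc) (s k.succ) ⊆ Set.Icc (s 0) (s (Fin.last r)) :=
    Set.Icc_subset_Icc hk1 hk3
  have hm : StrictMonoOn (fun t => t + a.eval t) (Set.Icc (s k.castSucc) (s k.succ)) :=
    phi_mono fun t ht => (ha t (hsub ht)).1
  have hle : s k.castSucc + a.eval (s k.castSucc) ≤ s k.succ + a.eval (s k.succ) :=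
    hm.monotoneOn (Set.left_mem_Icc.2 hk2.le) (Set.right_mem_Icc.2 hk2.le) hk2.le
  rw [intervalIntegral.integral_of_le hle, intervalIntegral.integral_of_le hk2.le,
    ← integral_Icc_eq_integral_Ioc, ← integral_Icc_eq_integral_Ioc, ← phi_image hk2.le hm,
    integral_image_eq_integral_abs_deriv_smul measurableSet_Icc
      (fun t _ => (phi_deriv a t).hasDerivWithinAt) hm.injOn]
  refine setIntegral_congr_fun measurableSet_Icc fun t ht => ?_
  have h := ha t (hsub ht)
  have h1 := abs_le.1 h.1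
  have h2 : 0 < 1 + a.derivative.eval t := by linarith
  rw [wt_phi μ s a t h.2, abs_of_pos h2, Complex.real_smul]
  push_cast
  ring

theorem Th_eval (m : ℕ) {r : ℕ} (b : Fin (r + 1) → ℕ) (u : ℕ) (s : Fin (r + 1) → ℝ)
    (a : Polynomial ℝ) (f : Polynomial ℂ) (x : ℝ) :
    (Th m b u s (a.map (algebraMap ℝ ℂ)) f).eval (x : ℂ) =
      f.derivative.eval (x : ℂ) * ((a.eval x : ℝ) : ℂ) + f.eval (x : ℂ) *
        ((a.derivative.eval x - ∑ j, mu m b u j * (dd a (s j)).eval x : ℝ) : ℂ) := by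
  have hev : ∀ p : Polynomial ℝ, (p.map (algebraMap ℝ ℂ)).eval (x : ℂ) = ((p.eval x : ℝ) : ℂ) := by
    intro p
    exact Polynomial.eval_map_algebraMap (R := ℝ) p (x : ℂ) |>.trans
      (Polynomial.aeval_algebraMap_apply ℂ x p)
  have hdd : ∀ j, (a.map (algebraMap ℝ ℂ)) /ₘ (Polynomial.X - Polynomial.C (s j : ℂ)) =
      (dd a (s j)).map (algebraMap ℝ ℂ) := by
    intro j
    rw [dd, Polynomial.map_divByMonic _ (Polynomial.monic_X_sub_C _)]
    simp
  unfold Th
  simp only [hdd, Polynomial.derivative_map, Polynomial.eval_add, Polynomial.eval_mul,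
    Polynomial.eval_sub, Polynomial.eval_finsetSum, Polynomial.eval_C, hev]
  push_cast
  ring

end PvD_aux

open PvD_aux Der_aux in
theorem tPvD : S_Kap → S_Wt → S_Sub → S_PvD := by
  intro hKap hWt _ m r b u s hA a f
  obtain ⟨_, hμ, _, _⟩ := hKap m r b u s hA
  have hs : StrictMono s := hA.1
  rw [hasDerivAt_pi]
  intro k
  simp only [Pv]
  refine HasDerivAt.const_mul _ ?_
  simp only [Th_eval]
  set μ := mu m b u with hμdef
  obtain ⟨M, hM0, hM⟩ := exists_M s a
  set ε₀ : ℝ := 1 / (2 * (M + 1)) with hε₀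
  have hε₀p : 0 < ε₀ := by positivity
  have hε₁ : ε₀ ≤ 1 := by
    rw [hε₀, div_le_one (by positivity)]
    linarith
  have hsmall : ∀ ε : ℝ, ε ∈ Metric.ball (0 : ℝ) ε₀ → ∀ x : ℝ, |x| ≤ M → |ε * x| ≤ 1 / 2 := by
    intro ε hε x hx
    rw [mem_ball_zero_iff, Real.norm_eq_abs] at hε
    rw [abs_mul]
    have h1 : |ε| * |x| ≤ ε₀ * M := mul_le_mul hε.le hx (abs_nonneg _) hε₀p.le
    have h2 : ε₀ * M ≤ 1 / 2 := by
      rw [hε₀, div_mul_eq_mul_div, one_mul, div_le_div_iff₀ (by positivity) (by norm_num)]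
      linarith
    exact h1.trans h2
  have hicc : ∀ t ∈ Set.uIoc (s k.castSucc) (s k.succ), t ∈ Set.Icc (s 0) (s (Fin.last r)) := by
    intro t ht
    have hlt : s k.castSucc < s k.succ := hs Fin.castSucc_lt_succ
    rw [Set.uIoc_of_le hlt.le] at ht
    exact ⟨(hs.monotone (Fin.zero_le _)).trans ht.1.le, ht.2.trans (hs.monotone (Fin.le_last _))⟩
  -- bounds of the additional factor
  obtain ⟨K, hK⟩ : ∃ K : ℝ, ∀ ε ∈ Metric.ball (0 : ℝ) ε₀, ∀ t ∈ Set.Icc (s 0) (s (Fin.last r)),
      ‖f.eval ((t + ε * a.eval t : ℝ) : ℂ)‖ ≤ K ∧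
      ‖f.derivative.eval ((t + ε * a.eval t : ℝ) : ℂ) * ((a.eval t : ℝ) : ℂ)‖ ≤ K := by
    have hc : Continuous fun p : ℝ × ℝ =>
        (f.eval ((p.2 + p.1 * a.eval p.2 : ℝ) : ℂ),
          f.derivative.eval ((p.2 + p.1 * a.eval p.2 : ℝ) : ℂ) * ((a.eval p.2 : ℝ) : ℂ)) := by
      have h1 : Continuous fun p : ℝ × ℝ => ((p.2 + p.1 * a.eval p.2 : ℝ) : ℂ) :=
        Complex.continuous_ofReal.comp
          (continuous_snd.add (continuous_fst.mul (a.continuous.comp continuous_snd)))
      refine (f.continuous.comp h1).prodMk ((f.derivative.continuous.comp h1).mul ?_)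
      exact Complex.continuous_ofReal.comp (a.continuous.comp continuous_snd)
    obtain ⟨K, hK⟩ := ((isCompact_Icc (a := (-1 : ℝ)) (b := 1)).prod
      (isCompact_Icc (a := s 0) (b := s (Fin.last r)))).exists_bound_of_continuousOn
        hc.continuousOn
    refine ⟨K, fun ε hε t ht => ?_⟩
    rw [mem_ball_zero_iff, Real.norm_eq_abs] at hε
    have h2 := abs_le.1 (hε.le.trans hε₁)
    have h3 := hK (ε, t) ⟨⟨h2.1, h2.2⟩, ht⟩
    exact ⟨(norm_fst_le _).trans h3, (norm_snd_le _).trans h3⟩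
  have hK0 : 0 ≤ K := by
    refine (norm_nonneg _).trans
      (hK 0 (Metric.mem_ball_self hε₀p) (s 0) ⟨le_rfl, hs.monotone (Fin.zero_le _)⟩).1
  -- the two integrands
  let G : ℝ → ℝ → ℝ := fun ε t =>
    (∏ j, (1 + ε * (dd a (s j)).eval t) ^ (-μ j)) * (1 + ε * a.derivative.eval t)
  let G' : ℝ → ℝ → ℝ := fun ε t =>
    (∏ j, (1 + ε * (dd a (s j)).eval t) ^ (-μ j)) *
        (-∑ j, μ j * (dd a (s j)).eval t / (1 + ε * (dd a (s j)).eval t)) *
        (1 + ε * a.derivative.eval t) +
      (∏ j, (1 + ε * (dd a (s j)).eval t) ^ (-μ j)) * a.derivative.eval t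
  let F : ℝ → ℝ → ℂ := fun ε t => ((wt μ s t : ℝ) : ℂ) *
    (((G ε t : ℝ) : ℂ) * f.eval ((t + ε * a.eval t : ℝ) : ℂ))
  let F' : ℝ → ℝ → ℂ := fun ε t => ((wt μ s t : ℝ) : ℂ) *
    (((G' ε t : ℝ) : ℂ) * f.eval ((t + ε * a.eval t : ℝ) : ℂ) + ((G ε t : ℝ) : ℂ) *
      (f.derivative.eval ((t + ε * a.eval t : ℝ) : ℂ) * ((a.eval t : ℝ) : ℂ)))
  have hG0 : ∀ t, G 0 t = 1 := by
    intro t
    simp [G]
  have hG'0 : ∀ t, G' 0 t = a.derivative.eval t - ∑ j, μ j * (dd a (s j)).eval t := by
    intro t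
    simp only [G', zero_mul, add_zero, Real.one_rpow, Finset.prod_const_one, one_mul, div_one,
      mul_one]
    ring
  have hF0 : F 0 = fun t => ((wt μ s t : ℝ) : ℂ) * f.eval (t : ℂ) := by
    funext t
    simp only [F, hG0, zero_mul, add_zero, Complex.ofReal_one, one_mul]
  have hF'0 : F' 0 = fun t => ((wt μ s t : ℝ) : ℂ) *
      (f.derivative.eval (t : ℂ) * ((a.eval t : ℝ) : ℂ) + f.eval (t : ℂ) *
        ((a.derivative.eval t - ∑ j, μ j * (dd a (s j)).eval t : ℝ) : ℂ)) := by
    funext t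
    simp only [F', hG0, hG'0, zero_mul, add_zero, Complex.ofReal_one, one_mul]
    ring
  have hd : ∀ j, Measurable fun t : ℝ => (dd a (s j)).eval t := fun j =>
    (dd a (s j)).continuous.measurable
  have hda : Measurable fun t : ℝ => a.derivative.eval t := a.derivative.continuous.measurable
  have hwm : Measurable fun t => ((wt μ s t : ℝ) : ℂ) :=
    Complex.measurable_ofReal.comp (wt_meas μ s)
  have hfc : ∀ (g : Polynomial ℂ) (ε : ℝ),
      Measurable fun t : ℝ => g.eval ((t + ε * a.eval t : ℝ) : ℂ) := by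
    intro g ε
    refine (g.continuous.comp (Complex.continuous_ofReal.comp ?_)).measurable
    exact continuous_id.add (continuous_const.mul a.continuous)
  have hFm : ∀ ε, Measurable (F ε) := by
    intro ε
    refine hwm.mul (Measurable.mul (Complex.measurable_ofReal.comp (Measurable.mul ?_ ?_)) ?_)
    · refine Finset.measurable_prod _ fun j _ => ?_
      exact (((hd j).const_mul ε).const_add 1).pow_const _
    · exact (hda.const_mul ε).const_add 1
    · exact hfc f ε
  have hF'm : Measurable (F' 0) := by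
    rw [hF'0]
    refine hwm.mul (Measurable.add ?_ ?_)
    · exact ((f.derivative.continuous.comp Complex.continuous_ofReal).measurable).mul
        (Complex.measurable_ofReal.comp a.continuous.measurable)
    · refine ((f.continuous.comp Complex.continuous_ofReal).measurable).mul
        (Complex.measurable_ofReal.comp (hda.sub ?_))
      exact Finset.measurable_sum _ fun j _ => (hd j).const_mul _
  set C : ℝ := 2 ^ (r + 1) * ((∑ j : Fin (r + 1), 2 * M) * (3 / 2)) + 2 ^ (r + 1) * M with hC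
  have hC0 : 0 ≤ C := by
    have : 0 ≤ ∑ j : Fin (r + 1), 2 * M := Finset.sum_nonneg fun _ _ => by positivity
    positivity
  have key := intervalIntegral.hasDerivAt_integral_of_dominated_loc_of_deriv_le
    (μ := volume) (a := s k.castSucc) (b := s k.succ) (F := F) (F' := F') (x₀ := (0 : ℝ))
    (s := Metric.ball (0 : ℝ) ε₀)
    (bound := fun t => wt μ s t * (C * K + 2 ^ (r + 1) * (3 / 2) * K))
    (Metric.ball_mem_nhds _ hε₀p) (Filter.Eventually.of_forall fun ε =>
      (hFm ε).aestronglyMeasurable) ?_ hF'm.aestronglyMeasurable ?_ ?_ ?_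
  · have h1 := key.2
    rw [hF'0] at h1
    refine h1.congr_of_eventuallyEq ?_
    filter_upwards [Metric.ball_mem_nhds (0 : ℝ) hε₀p] with ε hε
    have h2 := subst μ s (ε • a) f hs (by
      intro t ht
      refine ⟨?_, fun j => ?_⟩
      · rw [Polynomial.derivative_smul, Polynomial.eval_smul, smul_eq_mul]
        exact hsmall ε hε _ (hM t ht).1
      · rw [dd_smul, Polynomial.eval_smul, smul_eq_mul]
        exact hsmall ε hε _ ((hM t ht).2 j)) k
    simp only [Polynomial.eval_smul, smul_eq_mul, dd_smul, Polynomial.derivative_smul] at h2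
    exact h2
  · rw [hF0]
    have h1 := hWt r μ s hμ hs k
    have h2 : IntervalIntegrable (fun t => ((wt μ s t : ℝ) : ℂ)) volume (s k.castSucc) (s k.succ) :=
      ⟨h1.1.ofReal, h1.2.ofReal⟩
    exact h2.mul_continuousOn (f.continuous.comp Complex.continuous_ofReal).continuousOn
  · refine Filter.Eventually.of_forall fun t ht ε hε => ?_
    have ht' := hicc t ht
    have hpos : ∀ j, 1 / 2 ≤ 1 + ε * (dd a (s j)).eval t := by
      intro j
      have := (abs_le.1 (hsmall ε hε _ ((hM t ht').2 j))).1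
      linarith
    have hP0 : 0 ≤ ∏ j, (1 + ε * (dd a (s j)).eval t) ^ (-μ j) :=
      Finset.prod_nonneg fun j _ => Real.rpow_nonneg (by linarith [hpos j]) _
    have hP : ∏ j, (1 + ε * (dd a (s j)).eval t) ^ (-μ j) ≤ 2 ^ (r + 1) := by
      calc ∏ j, (1 + ε * (dd a (s j)).eval t) ^ (-μ j) ≤ ∏ _j : Fin (r + 1), (2 : ℝ) :=
            Finset.prod_le_prod (fun j _ => Real.rpow_nonneg (by linarith [hpos j]) _)
              fun j _ => fac_le (hpos j) (hμ j).1 (hμ j).2
        _ = 2 ^ (r + 1) := by simp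
    have hS : |-∑ j, μ j * (dd a (s j)).eval t / (1 + ε * (dd a (s j)).eval t)| ≤
        ∑ j : Fin (r + 1), 2 * M := by
      rw [abs_neg]
      refine (Finset.abs_sum_le_sum_abs _ _).trans (Finset.sum_le_sum fun j _ => ?_)
      rw [abs_div, abs_mul, abs_of_pos (hμ j).1, abs_of_pos (by linarith [hpos j] :
        0 < 1 + ε * (dd a (s j)).eval t), div_le_iff₀ (by linarith [hpos j])]
      have h1 : μ j * |(dd a (s j)).eval t| ≤ 1 * M :=
        mul_le_mul (hμ j).2.le ((hM t ht').2 j) (abs_nonneg _) (by norm_num)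
      have h2 : M ≤ 2 * M * (1 + ε * (dd a (s j)).eval t) := by
        have := mul_le_mul_of_nonneg_left (hpos j) (by linarith : 0 ≤ 2 * M)
        linarith
      linarith
    have hA' : |1 + ε * a.derivative.eval t| ≤ 3 / 2 := by
      have h1 := abs_le.1 (hsmall ε hε _ (hM t ht').1)
      rw [abs_le]
      constructor <;> linarith [h1.1, h1.2]
    have hw := wt_nonneg μ s t
    have hGb : |G ε t| ≤ 2 ^ (r + 1) * (3 / 2) := by
      simp only [G]
      rw [abs_mul, abs_of_nonneg hP0]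
      exact mul_le_mul hP hA' (abs_nonneg _) (by positivity)
    have hG'b : |G' ε t| ≤ C := by
      simp only [G']
      refine (abs_add_le _ _).trans (add_le_add ?_ ?_)
      · rw [abs_mul, abs_mul, abs_of_nonneg hP0, mul_assoc]
        refine mul_le_mul hP ?_ (by positivity) (by positivity)
        exact mul_le_mul hS hA' (abs_nonneg _) (Finset.sum_nonneg fun _ _ => by positivity)
      · rw [abs_mul, abs_of_nonneg hP0]
        exact mul_le_mul hP (hM t ht').1 (abs_nonneg _) (by positivity)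
    obtain ⟨hK1, hK2⟩ := hK ε hε t ht'
    simp only [F']
    rw [norm_mul, Complex.norm_real, Real.norm_eq_abs, abs_of_nonneg hw]
    refine mul_le_mul_of_nonneg_left ?_ hw
    refine (norm_add_le _ _).trans (add_le_add ?_ ?_)
    · rw [norm_mul, Complex.norm_real, Real.norm_eq_abs]
      exact mul_le_mul hG'b hK1 (norm_nonneg _) hC0
    · rw [norm_mul, Complex.norm_real, Real.norm_eq_abs]
      exact mul_le_mul hGb hK2 (norm_nonneg _) (by positivity)
  · exact (hWt r μ s hμ hs k).mul_const _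
  · refine Filter.Eventually.of_forall fun t ht ε hε => ?_
    have ht' := hicc t ht
    have hpos : ∀ j ∈ Finset.univ, 0 < 1 + ε * (dd a (s j)).eval t := by
      intro j _
      have := (abs_le.1 (hsmall ε hε _ ((hM t ht').2 j))).1
      linarith
    have h1 := prod_deriv Finset.univ μ (fun j => (dd a (s j)).eval t) ε hpos
    have h2 : HasDerivAt (fun ε : ℝ => 1 + ε * a.derivative.eval t) (a.derivative.eval t) ε := by
      simpa using ((hasDerivAt_id ε).mul_const (a.derivative.eval t)).const_add 1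
    have h3 : HasDerivAt (fun ε => G ε t) (G' ε t) ε := h1.mul h2
    have h4 : HasDerivAt (fun ε : ℝ => t + ε * a.eval t) (a.eval t) ε := by
      simpa using ((hasDerivAt_id ε).mul_const (a.eval t)).const_add t
    have h5 : HasDerivAt (fun ε : ℝ => f.eval ((t + ε * a.eval t : ℝ) : ℂ))
        (f.derivative.eval ((t + ε * a.eval t : ℝ) : ℂ) * ((a.eval t : ℝ) : ℂ)) ε :=
      (f.hasDerivAt _).comp_of_eq ε h4.ofReal_comp rfl
    exact (h3.ofReal_comp.mul h5).const_mul _

end SEB
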