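import Pool.Agent.Lib.SE.Big.VG2
import Pool.Agent.Lib.SE.Big.Ctn
import Pool.Agent.Lib.SE.Big.PvD

/-! # PROJECT SE, module IsBig, part 4, module PvC: continuity of the period vectors -/

set_option autoImplicit false

open Module MeasureTheory Topology

noncomputable section

namespace SEB

open HC HC.E HC.SE

open Con_aux in
theorem tPvC : S_Kap → S_Wt → S_PvC := by
  intro hKap hWt m r b u f
  rw [continuousOn_pi]
  intro k s hA
  have hA' : Adm m b u s := hA
  obtain ⟨_, hμ, _, _⟩ := hKap m r b u s hA'
  have hs' : StrictMono s := hA'.1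
  simp only [Pv]
  refine ContinuousWithinAt.mul continuousWithinAt_const ?_
  set μ := mu m b u with hμdef
  have hinj : Set.InjOn s (Finset.univ : Finset (Fin (r + 1))) := hs'.injective.injOn
  have hmem : ∀ j, s j ∈ Set.Icc (s 0) (s (Fin.last r)) := fun j =>
    ⟨hs'.monotone (Fin.zero_le j), hs'.monotone (Fin.le_last j)⟩
  let c : Fin (r + 1) → Polynomial ℝ := fun j => Lagrange.basis Finset.univ s j
  let a : (Fin (r + 1) → ℝ) → Polynomial ℝ := fun s' =>
    Lagrange.interpolate Finset.univ s (fun j => s' j - s j)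
  have ha : ∀ s' j, s j + (a s').eval (s j) = s' j := by
    intro s' j
    have := Lagrange.eval_interpolate_at_node (s := Finset.univ) (v := s)
      (fun j => s' j - s j) hinj (Finset.mem_univ j)
    simp only [a]
    rw [this]
    ring
  obtain ⟨B, hB0, hB⟩ := exists_bd (fun j => (c j).derivative) (s 0) (s (Fin.last r))
  obtain ⟨B', hB0', hB'⟩ := exists_bd (fun j => c j) (s 0) (s (Fin.last r))
  let e : (Fin (r + 1) → ℝ) → ℝ := fun s' => ∑ j, |s' j - s j| * (B + B')
  have he : ∀ s', ∀ t ∈ Set.Icc (s 0) (s (Fin.last r)), |(a s').derivative.eval t| ≤ e s' := by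
    intro s' t ht
    simp only [a, e]
    rw [Lagrange.interpolate_apply, Polynomial.derivative_sum, Polynomial.eval_finsetSum]
    refine (Finset.abs_sum_le_sum_abs _ _).trans (Finset.sum_le_sum fun j _ => ?_)
    rw [Polynomial.derivative_C_mul, Polynomial.eval_C_mul, abs_mul]
    exact mul_le_mul_of_nonneg_left ((hB j t ht).trans (by linarith)) (abs_nonneg _)
  have he' : ∀ s', ∀ t ∈ Set.Icc (s 0) (s (Fin.last r)), |(a s').eval t| ≤ e s' := by
    intro s' t ht
    simp only [a, e]
    rw [Lagrange.interpolate_apply, Polynomial.eval_finsetSum]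
    refine (Finset.abs_sum_le_sum_abs _ _).trans (Finset.sum_le_sum fun j _ => ?_)
    rw [Polynomial.eval_C_mul, abs_mul]
    exact mul_le_mul_of_nonneg_left ((hB' j t ht).trans (by linarith)) (abs_nonneg _)
  have he2 : ∀ s' j, ∀ t ∈ Set.Icc (s 0) (s (Fin.last r)), |(dd (a s') (s j)).eval t| ≤ e s' :=
    fun s' j t ht => dd_bound (a s') (hmem j) ht (he s')
  set l : Filter (Fin (r + 1) → ℝ) := 𝓝[{s | Adm m b u s}] s with hl
  have hec : Filter.Tendsto e l (𝓝 0) := by
    have h1 : Continuous e := by
      simp only [e]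
      fun_prop
    have h2 : e s = 0 := by simp [e]
    have h3 := h1.continuousAt (x := s)
    unfold ContinuousAt at h3
    rw [h2] at h3
    exact h3.mono_left nhdsWithin_le_nhds
  have hev : ∀ᶠ s' in l, e s' ≤ 1 / 2 := by
    have := hec.eventually (eventually_lt_nhds (show (0 : ℝ) < 1 / 2 by norm_num))
    exact this.mono fun s' h => h.le
  have hcs : s k.castSucc ≤ s k.succ := hs'.monotone (Fin.castSucc_lt_succ (i := k)).le
  have hsub : ∀ t ∈ Set.uIoc (s k.castSucc) (s k.succ), t ∈ Set.Icc (s 0) (s (Fin.last r)) := by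
    intro t ht
    rw [Set.uIoc_of_le hcs] at ht
    exact ⟨(hmem _).1.trans ht.1.le, ht.2.trans (hmem _).2⟩
  obtain ⟨K, hK⟩ : ∃ K : ℝ, ∀ x ∈ Set.Icc (s 0 - 1) (s (Fin.last r) + 1),
      ‖f.eval (x : ℂ)‖ ≤ K :=
    isCompact_Icc.exists_bound_of_continuousOn
      (f.continuous.comp Complex.continuous_ofReal).continuousOn
  have hK' : ∀ s', e s' ≤ 1 / 2 → ∀ t ∈ Set.Icc (s 0) (s (Fin.last r)),
      ‖f.eval ((t + (a s').eval t : ℝ) : ℂ)‖ ≤ K := by
    intro s' h t ht
    refine hK _ ?_
    have h1 := abs_le.1 ((he' s' t ht).trans h)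
    have h2 := ht.1
    have h3 := ht.2
    constructor <;> linarith
  let G : (Fin (r + 1) → ℝ) → ℝ → ℝ := fun s' t =>
    (∏ j, (1 + (dd (a s') (s j)).eval t) ^ (-μ j)) * (1 + (a s').derivative.eval t)
  let F : (Fin (r + 1) → ℝ) → ℝ → ℂ := fun s' t => ((wt μ s t : ℝ) : ℂ) *
    (((G s' t : ℝ) : ℂ) * f.eval ((t + (a s').eval t : ℝ) : ℂ))
  have hF : ∀ᶠ s' in l, (∫ x in (s' k.castSucc)..(s' k.succ),
      ((wt μ s' x : ℝ) : ℂ) * f.eval (x : ℂ)) = ∫ t in (s k.castSucc)..(s k.succ), F s' t := by
    filter_upwards [hev] with s' h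
    have h1 := PvD_aux.subst μ s (a s') f hs'
      (fun t ht => ⟨(he s' t ht).trans h, fun j => (he2 s' j t ht).trans h⟩) k
    have h2 : (fun j => s j + (a s').eval (s j)) = s' := funext (ha s')
    rw [h2, ha, ha] at h1
    exact h1
  have hlim : Filter.Tendsto (fun s' => ∫ t in (s k.castSucc)..(s k.succ), F s' t) l
      (𝓝 (∫ t in (s k.castSucc)..(s k.succ), ((wt μ s t : ℝ) : ℂ) * f.eval (t : ℂ))) := by
    refine intervalIntegral.tendsto_integral_filter_of_dominated_convergence
      (fun t => |wt μ s t| * (2 ^ (r + 1) * 2 * K)) ?_ ?_ ?_ ?_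
    · refine Filter.Eventually.of_forall fun s' => Measurable.aestronglyMeasurable ?_
      refine (Complex.measurable_ofReal.comp (meas_wt μ s)).mul (Measurable.mul
        (Complex.measurable_ofReal.comp (Measurable.mul ?_ ?_)) ?_)
      · refine Finset.measurable_prod _ fun j _ => ?_
        exact (measurable_const.add (dd (a s') (s j)).continuous.measurable).pow_const _
      · exact measurable_const.add (a s').derivative.continuous.measurable
      · refine (f.continuous.comp (Complex.continuous_ofReal.comp ?_)).measurable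
        exact continuous_id.add (a s').continuous
    · filter_upwards [hev] with s' h
      refine Filter.Eventually.of_forall fun t ht => ?_
      have ht' := hsub t ht
      simp only [F]
      rw [norm_mul, norm_mul, Complex.norm_real, Complex.norm_real, Real.norm_eq_abs,
        Real.norm_eq_abs]
      refine mul_le_mul_of_nonneg_left ?_ (abs_nonneg _)
      refine mul_le_mul ?_ (hK' s' h t ht') (norm_nonneg _) (by positivity)
      simp only [G]
      rw [abs_mul]
      refine mul_le_mul ?_ ?_ (abs_nonneg _) (by positivity)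
      · rw [Finset.abs_prod]
        calc ∏ j, |(1 + (dd (a s') (s j)).eval t) ^ (-μ j)| ≤ ∏ _j : Fin (r + 1), (2 : ℝ) :=
              Finset.prod_le_prod (fun j _ => abs_nonneg _) fun j _ =>
                pow_le ((he2 s' j t ht').trans h) (hμ j).1 (hμ j).2
          _ = 2 ^ (r + 1) := by simp
      · have h3 := abs_le.1 ((he s' t ht').trans h)
        rw [abs_le]
        constructor <;> linarith
    · exact (hWt r μ s hμ hs' k).abs.mul_const _
    · refine Filter.Eventually.of_forall fun t ht => ?_
      have ht' := hsub t ht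
      have q0 : Filter.Tendsto (fun s' => (a s').eval t) l (𝓝 0) :=
        squeeze_zero_norm (fun s' => he' s' t ht') hec
      have q1 : Filter.Tendsto (fun s' => (a s').derivative.eval t) l (𝓝 0) :=
        squeeze_zero_norm (fun s' => he s' t ht') hec
      have q2 : ∀ j, Filter.Tendsto (fun s' => (dd (a s') (s j)).eval t) l (𝓝 0) :=
        fun j => squeeze_zero_norm (fun s' => he2 s' j t ht') hec
      have q3 : ∀ j, Filter.Tendsto (fun s' => (1 + (dd (a s') (s j)).eval t) ^ (-μ j)) l
          (𝓝 1) := by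
        intro j
        have h4 : Filter.Tendsto (fun s' => 1 + (dd (a s') (s j)).eval t) l (𝓝 1) := by
          simpa using (q2 j).const_add 1
        have h5 := h4.rpow_const (p := -μ j) (Or.inl one_ne_zero)
        simpa using h5
      have q4 : Filter.Tendsto (fun s' => ∏ j, (1 + (dd (a s') (s j)).eval t) ^ (-μ j)) l
          (𝓝 1) := by
        have h6 := tendsto_finsetProd (Finset.univ : Finset (Fin (r + 1))) (fun j _ => q3 j)
        simpa using h6
      have q5 : Filter.Tendsto (fun s' => 1 + (a s').derivative.eval t) l (𝓝 1) := by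
        simpa using q1.const_add 1
      have q6 : Filter.Tendsto (fun s' => ((G s' t : ℝ) : ℂ)) l (𝓝 1) := by
        have h7 : Filter.Tendsto (fun s' => G s' t) l (𝓝 (1 * 1)) := q4.mul q5
        rw [one_mul] at h7
        have h9 := (Complex.continuous_ofReal.tendsto (1 : ℝ)).comp h7
        rw [Complex.ofReal_one] at h9
        exact h9
      have q7 : Filter.Tendsto (fun s' => f.eval ((t + (a s').eval t : ℝ) : ℂ)) l
          (𝓝 (f.eval (t : ℂ))) := by
        have h8 : Filter.Tendsto (fun s' => t + (a s').eval t) l (𝓝 t) := by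
          simpa using q0.const_add t
        exact ((f.continuous.comp Complex.continuous_ofReal).tendsto t).comp h8
      have q8 := ((q6.mul q7).const_mul ((wt μ s t : ℝ) : ℂ))
      rw [one_mul] at q8
      exact q8
  exact hlim.congr' (hF.mono fun _ h => h.symm)

end SEB
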