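import Pool.Agent.Lib.SE.Big.VG2

/-!
# PROJECT SE, module IsBig, part PvE: exact forms
-/

set_option autoImplicit false

open Module MeasureTheory Topology

noncomputable section

namespace SEB

open HC HC.E HC.SE

namespace PvE_aux

/-- The logarithmic derivative of a product. -/
theorem prod_logderiv {K ι : Type} [RCLike K] [DecidableEq ι] (S : Finset ι) (f : ι → K → K)
    (L : ι → K) (x : K) (h : ∀ j ∈ S, HasDerivAt (f j) (f j x * L j) x) :
    HasDerivAt (fun y => ∏ j ∈ S, f j y) ((∏ j ∈ S, f j x) * ∑ j ∈ S, L j) x := by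
  induction S using Finset.induction_on with
  | empty =>
    simp only [Finset.prod_empty, Finset.sum_empty, mul_zero]
    exact hasDerivAt_const x 1
  | insert i S hi ih =>
    have h1 := (h i (Finset.mem_insert_self i S)).mul
      (ih fun j hj => h j (Finset.mem_insert_of_mem hj))
    have h2 : (fun y => ∏ j ∈ insert i S, f j y) = fun y => f i y * ∏ j ∈ S, f j y := by
      funext y
      rw [Finset.prod_insert hi]
    rw [h2, Finset.prod_insert hi, Finset.sum_insert hi]
    refine h1.congr_deriv ?_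
    ring

/-- `(x - c) |x - c|^(-m)` -/
def gj (m c x : ℝ) : ℝ := (x - c) * |x - c| ^ (-m)

theorem gj_abs {m c x : ℝ} (hx : x ≠ c) : |gj m c x| = |x - c| ^ (1 - m) := by
  have h0 : 0 < |x - c| := abs_pos.2 (sub_ne_zero.2 hx)
  unfold gj
  rw [abs_mul, abs_of_nonneg (Real.rpow_nonneg (abs_nonneg _) _),
    show (1 : ℝ) - m = 1 + -m by ring, Real.rpow_add h0, Real.rpow_one]

theorem gj_cont {m : ℝ} (hm : m < 1) (c : ℝ) : Continuous (gj m c) := by
  rw [continuous_iff_continuousAt]
  intro x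
  by_cases hx : x = c
  · subst hx
    have h0 : gj m x x = 0 := by
      unfold gj
      rw [sub_self, zero_mul]
    have hA : Filter.Tendsto (fun y : ℝ => |y - x| ^ (1 - m)) (𝓝 x) (𝓝 0) := by
      have h1 : Continuous (fun y : ℝ => |y - x| ^ (1 - m)) :=
        (continuous_abs.comp (continuous_id.sub continuous_const)).rpow_const
          fun y => Or.inr (by linarith)
      have h2 := h1.tendsto x
      rwa [sub_self, abs_zero, Real.zero_rpow (by linarith)] at h2
    unfold ContinuousAt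
    rw [h0, tendsto_zero_iff_abs_tendsto_zero]
    refine squeeze_zero (fun y => abs_nonneg _) (fun y => ?_) hA
    by_cases hy : y = x
    · subst hy
      change |gj m y y| ≤ _
      rw [h0, abs_zero]
      exact Real.rpow_nonneg (abs_nonneg _) _
    · exact (gj_abs hy).le
  · unfold gj
    have h1 : ContinuousAt (fun y : ℝ => y - c) x := (continuous_id.sub continuous_const).continuousAt
    exact h1.mul ((h1.abs).rpow_const (Or.inl (abs_ne_zero.2 (sub_ne_zero.2 hx))))

theorem gj_deriv (m : ℝ) {c x : ℝ} (hx : x ≠ c) :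
    HasDerivAt (gj m c) (gj m c x * ((1 - m) / (x - c))) x := by
  have h0 : x - c ≠ 0 := sub_ne_zero.2 hx
  have ha : |x - c| ≠ 0 := abs_ne_zero.2 h0
  have h1 : HasDerivAt (fun y : ℝ => y - c) 1 x := (hasDerivAt_id x).sub_const c
  have h2 : HasDerivAt (fun y : ℝ => |y - c|) ((SignType.sign (x - c) : ℝ) * 1) x :=
    HasDerivAt.comp x (h := fun y : ℝ => y - c) (h₂ := fun y : ℝ => |y|) (hasDerivAt_abs h0) h1
  have h3 := h2.rpow_const (p := -m) (Or.inl ha)
  refine (h1.mul h3).congr_deriv ?_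
  have hs : (SignType.sign (x - c) : ℝ) * |x - c| = x - c := sign_mul_abs _
  have hsq : |x - c| * |x - c| = (x - c) * (x - c) := abs_mul_abs_self _
  unfold gj
  rw [Real.rpow_sub_one ha]
  generalize |x - c| ^ (-m) = w
  have hkey : (SignType.sign (x - c) : ℝ) / |x - c| = 1 / (x - c) := by
    rw [div_eq_div_iff ha h0]
    have : (SignType.sign (x - c) : ℝ) * (x - c) * (x - c) = |x - c| * (x - c) := by
      calc (SignType.sign (x - c) : ℝ) * (x - c) * (x - c)
          = (SignType.sign (x - c) : ℝ) * (|x - c| * |x - c|) := by rw [hsq]; ring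
        _ = |x - c| * ((SignType.sign (x - c) : ℝ) * |x - c|) := by ring
        _ = |x - c| * (x - c) := by rw [hs]
    have h4 := mul_right_cancel₀ h0 this
    rw [h4, one_mul]
  have h5 : (SignType.sign (x - c) : ℝ) * 1 * -m * (w / |x - c|) =
      (SignType.sign (x - c) : ℝ) / |x - c| * (-m * w) := by ring
  rw [h5, hkey]
  field_simp
  ring

end PvE_aux

open PvE_aux

theorem tPvE : S_Kap → S_Wt → S_PvE := by
  intro hKap hWt m r b u s hA f
  obtain ⟨-, hE, -, -⟩ := hKap m r b u s hA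
  have hs : StrictMono s := hA.1
  obtain ⟨μ, hμ⟩ : ∃ μ, μ = mu m b u := ⟨_, rfl⟩
  rw [← hμ] at hE
  obtain ⟨Q, hQ⟩ : ∃ Q : Polynomial ℂ, Q = ∏ j, (Polynomial.X - Polynomial.C (s j : ℂ)) :=
    ⟨_, rfl⟩
  rw [← hQ]
  funext k
  -- values of `Q`
  have hQe : ∀ y : ℂ, Q.eval y = ∏ j, (y - (s j : ℂ)) := by
    intro y
    rw [hQ, Polynomial.eval_prod]
    exact Finset.prod_congr rfl fun j _ => by simp
  have hQr : ∀ j, Q.IsRoot (s j : ℂ) := by
    intro j
    rw [Polynomial.IsRoot.def, hQe]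
    exact Finset.prod_eq_zero (Finset.mem_univ j) (sub_self _)
  have hQj : ∀ (j : Fin (r + 1)) (y : ℂ), (y - (s j : ℂ)) *
      (Q /ₘ (Polynomial.X - Polynomial.C (s j : ℂ))).eval y = Q.eval y := by
    intro j y
    have h1 := congrArg (Polynomial.eval y) (Polynomial.mul_divByMonic_eq_iff_isRoot.2 (hQr j))
    simpa using h1
  have hQd : ∀ y : ℂ, (∀ j, y - (s j : ℂ) ≠ 0) →
      Q.derivative.eval y = Q.eval y * ∑ j, 1 / (y - (s j : ℂ)) := by
    intro y hy
    have h1 := Q.hasDerivAt y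
    have h2 := prod_logderiv (K := ℂ) Finset.univ (fun (j : Fin (r + 1)) (z : ℂ) => z - (s j : ℂ))
      (fun j => 1 / (y - (s j : ℂ))) y (fun j _ => by
        rw [mul_one_div_cancel (hy j)]
        exact (hasDerivAt_id y).sub_const _)
    have h3 : (fun z : ℂ => Q.eval z) = fun z => ∏ j, (z - (s j : ℂ)) := funext hQe
    rw [h3] at h1
    rw [h1.unique h2, ← hQe]
  -- the primitive
  have hcont : ContinuousOn (fun x : ℝ => f.eval (x : ℂ) * ((∏ j, gj (μ j) (s j) x : ℝ) : ℂ))
      (Set.Icc (s k.castSucc) (s k.succ)) := by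
    refine Continuous.continuousOn ?_
    refine (f.continuous.comp Complex.continuous_ofReal).mul (Complex.continuous_ofReal.comp ?_)
    exact continuous_finsetProd _ fun j _ => gj_cont (hE j).2 (s j)
  have hle : s k.castSucc ≤ s k.succ := (hs (Fin.castSucc_lt_succ)).le
  have hne : ∀ x ∈ Set.Ioo (s k.castSucc) (s k.succ), ∀ j, x ≠ s j := by
    intro x hx j hj
    rcases le_or_gt j k.castSucc with h | h
    · have := hs.monotone h
      rw [hj] at hx
      exact absurd hx.1 (not_lt.2 this)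
    · have h' : k.succ ≤ j := by
        rw [Fin.le_def, Fin.val_succ]
        rw [Fin.lt_def, Fin.val_castSucc] at h
        omega
      have := hs.monotone h'
      rw [hj] at hx
      exact absurd hx.2 (not_lt.2 this)
  have hder : ∀ x ∈ Set.Ioo (s k.castSucc) (s k.succ),
      HasDerivAt (fun x : ℝ => f.eval (x : ℂ) * ((∏ j, gj (μ j) (s j) x : ℝ) : ℂ))
        (((wt μ s x : ℝ) : ℂ) * (Th m b u s Q f).eval (x : ℂ)) x := by
    intro x hx
    have hx' := hne x hx
    have hxc : ∀ j, (x : ℂ) - (s j : ℂ) ≠ 0 := fun j => by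
      rw [← Complex.ofReal_sub]
      exact Complex.ofReal_ne_zero.2 (sub_ne_zero.2 (hx' j))
    have h1 : HasDerivAt (fun x : ℝ => f.eval (x : ℂ)) (f.derivative.eval (x : ℂ)) x :=
      (f.hasDerivAt (x : ℂ)).comp_ofReal
    have h2 := (prod_logderiv (K := ℝ) Finset.univ (fun (j : Fin (r + 1)) x => gj (μ j) (s j) x)
      (fun j => (1 - μ j) / (x - s j)) x fun j _ => gj_deriv (μ j) (hx' j)).ofReal_comp
    refine (h1.mul h2).congr_deriv ?_
    have h3 : (((∏ j, gj (μ j) (s j) x : ℝ)) : ℂ) = ((wt μ s x : ℝ) : ℂ) * Q.eval (x : ℂ) := by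
      rw [hQe]
      unfold gj wt
      rw [Finset.prod_mul_distrib]
      push_cast
      ring
    have h4 : (Th m b u s Q f).eval (x : ℂ) = Q.eval (x : ℂ) * (f.derivative.eval (x : ℂ) +
        f.eval (x : ℂ) * ∑ j, (1 - (μ j : ℂ)) / ((x : ℂ) - (s j : ℂ))) := by
      have h5 : ∀ j, (Q /ₘ (Polynomial.X - Polynomial.C (s j : ℂ))).eval (x : ℂ) =
          Q.eval (x : ℂ) / ((x : ℂ) - (s j : ℂ)) := fun j => by
        rw [eq_div_iff (hxc j), mul_comm, hQj]
      have h6 : ∑ j, (1 - (μ j : ℂ)) / ((x : ℂ) - (s j : ℂ)) =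
          ∑ j, 1 / ((x : ℂ) - (s j : ℂ)) - ∑ j, (μ j : ℂ) / ((x : ℂ) - (s j : ℂ)) := by
        rw [← Finset.sum_sub_distrib]
        exact Finset.sum_congr rfl fun j _ => by rw [sub_div]
      have h7 : ∑ j, (μ j : ℂ) * (Q.eval (x : ℂ) / ((x : ℂ) - (s j : ℂ))) =
          Q.eval (x : ℂ) * ∑ j, (μ j : ℂ) / ((x : ℂ) - (s j : ℂ)) := by
        rw [Finset.mul_sum]
        exact Finset.sum_congr rfl fun j _ => by ring
      unfold Th
      rw [← hμ, Polynomial.eval_add, Polynomial.eval_mul, Polynomial.eval_mul,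
        Polynomial.eval_sub, Polynomial.eval_finsetSum, hQd (x : ℂ) hxc]
      simp only [Polynomial.eval_mul, Polynomial.eval_C, h5]
      rw [h7, h6]
      ring
    rw [Complex.ofReal_mul, h3, h4]
    push_cast
    ring
  have hint : IntervalIntegrable
      (fun x : ℝ => ((wt μ s x : ℝ) : ℂ) * (Th m b u s Q f).eval (x : ℂ)) volume
      (s k.castSucc) (s k.succ) := by
    have hw := hWt r μ s hE hs k
    have hw' : IntervalIntegrable (fun x : ℝ => ((wt μ s x : ℝ) : ℂ)) volume (s k.castSucc)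
        (s k.succ) := ⟨hw.1.ofReal, hw.2.ofReal⟩
    refine IntervalIntegrable.mul_continuousOn hw' ?_
    exact ((Th m b u s Q f).continuous.comp Complex.continuous_ofReal).continuousOn
  have hmain := intervalIntegral.integral_eq_sub_of_hasDerivAt_of_le hle hcont hder hint
  have hz : ∀ j : Fin (r + 1), ((∏ i, gj (μ i) (s i) (s j) : ℝ) : ℂ) = 0 := by
    intro j
    rw [Finset.prod_eq_zero (Finset.mem_univ j) (by unfold gj; rw [sub_self, zero_mul])]
    simp
  change kap m b u k * ∫ x in (s k.castSucc)..(s k.succ),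
    ((wt (mu m b u) s x : ℝ) : ℂ) * (Th m b u s Q f).eval (x : ℂ) = 0
  rw [← hμ, hmain]
  simp only [hz, mul_zero, sub_self]

end SEB
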