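import Pool.Agent.Lib.SE.Big.Spec

/-!
# PROJECT SE, module IsBig: rational components of a complex operator
-/

set_option autoImplicit false

open Module

noncomputable section

namespace SEB

open HC HC.E

namespace RatSp_aux

variable {T : AV}

/-- A real basis of `T.V` which is a basis of the lattice. -/
theorem lat_basis (T : AV) : ∃ (ι : Type) (_ : Fintype ι) (b : Module.Basis ι ℝ T.V),
    (∀ i, b i ∈ T.L) ∧ ∀ v ∈ T.L, ∀ i, ∃ n : ℤ, b.repr v i = n := by
  have : Module.Free ℤ T.L := ZLattice.module_free ℝ T.L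
  have : Module.Finite ℤ T.L := ZLattice.module_finite ℝ T.L
  let B := Module.Free.chooseBasis ℤ T.L
  let ι := Module.Free.ChooseBasisIndex ℤ T.L
  refine ⟨Fin (Fintype.card ι), inferInstance,
    (B.ofZLatticeBasis ℝ T.L).reindex (Fintype.equivFin ι), fun i => ?_, fun v hv i => ?_⟩
  · rw [Module.Basis.reindex_apply, Module.Basis.ofZLatticeBasis_apply]
    exact (B _).2
  · refine ⟨(B.repr ⟨v, hv⟩ ((Fintype.equivFin ι).symm i) : ℤ), ?_⟩
    have h := B.ofZLatticeBasis_repr_apply ℝ T.L ⟨v, hv⟩ ((Fintype.equivFin ι).symm i)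
    rw [Module.Basis.repr_reindex_apply]
    exact h

theorem rat_mul {X Y : Module.End ℝ T.V} (hX : RatEnd T X) (hY : RatEnd T Y) :
    RatEnd T (X * Y) := by
  intro v hv
  obtain ⟨N, hN, h⟩ := hY v hv
  obtain ⟨M, hM, h'⟩ := hX _ h
  refine ⟨M * N, mul_ne_zero hM hN, ?_⟩
  rw [map_nsmul] at h'
  rw [mul_smul]
  exact h'

/-- The rational span of the lattice is closed under addition. -/
theorem ex_add {v w : T.V} (hv : ∃ N : ℕ, N ≠ 0 ∧ N • v ∈ T.L) (hw : ∃ N : ℕ, N ≠ 0 ∧ N • w ∈ T.L) :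
    ∃ N : ℕ, N ≠ 0 ∧ N • (v + w) ∈ T.L := by
  obtain ⟨N, hN, h⟩ := hv
  obtain ⟨M, hM, h'⟩ := hw
  refine ⟨M * N, mul_ne_zero hM hN, ?_⟩
  rw [smul_add]
  refine add_mem ?_ ?_
  · rw [mul_smul]
    exact nsmul_mem h M
  · rw [mul_comm, mul_smul]
    exact nsmul_mem h' N

theorem ex_neg {v : T.V} (hv : ∃ N : ℕ, N ≠ 0 ∧ N • v ∈ T.L) : ∃ N : ℕ, N ≠ 0 ∧ N • (-v) ∈ T.L := by
  obtain ⟨N, hN, h⟩ := hv
  refine ⟨N, hN, ?_⟩
  rw [smul_neg]
  exact neg_mem h

theorem ex_sum {α : Type} (s : Finset α) (f : α → T.V)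
    (h : ∀ i ∈ s, ∃ N : ℕ, N ≠ 0 ∧ N • f i ∈ T.L) : ∃ N : ℕ, N ≠ 0 ∧ N • (∑ i ∈ s, f i) ∈ T.L := by
  classical
  induction s using Finset.induction_on with
  | empty => exact ⟨1, one_ne_zero, by simp⟩
  | insert a s ha ih =>
    rw [Finset.sum_insert ha]
    exact ex_add (h a (Finset.mem_insert_self a s))
      (ih fun i hi => h i (Finset.mem_insert_of_mem hi))

theorem ex_smul {v : T.V} (hv : v ∈ T.L) (q : ℚ) : ∃ N : ℕ, N ≠ 0 ∧ N • ((q : ℝ) • v) ∈ T.L := by
  refine ⟨q.den, q.den_nz, ?_⟩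
  have h : q.den • ((q : ℝ) • v) = q.num • v := by
    rw [← Nat.cast_smul_eq_nsmul ℝ, smul_smul, ← Int.cast_smul_eq_zsmul ℝ]
    congr 1
    have := Rat.den_mul_eq_num q
    exact_mod_cast this
  rw [h]
  exact zsmul_mem hv _

/-- Rational coordinates of the vectors in the rational span of the lattice. -/
theorem co {ι : Type} (b : Module.Basis ι ℝ T.V)
    (hb : ∀ v ∈ T.L, ∀ i, ∃ n : ℤ, b.repr v i = n) {w : T.V}
    (hw : ∃ N : ℕ, N ≠ 0 ∧ N • w ∈ T.L) (i : ι) : ∃ q : ℚ, b.repr w i = q := by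
  obtain ⟨N, hN, h⟩ := hw
  obtain ⟨n, hn⟩ := hb _ h i
  refine ⟨n / N, ?_⟩
  rw [map_nsmul, Finsupp.smul_apply, nsmul_eq_mul] at hn
  have hN' : (N : ℝ) ≠ 0 := Nat.cast_ne_zero.2 hN
  push_cast
  rw [← hn]
  field_simp

/-- The forms dual to a basis. -/
def fb {ι : Type} (b : Module.Basis ι ℝ T.V) (i : ι) : Frm T :=
  (Algebra.linearMap ℝ ℂ) ∘ₗ b.coord i

theorem fb_apply {ι : Type} (b : Module.Basis ι ℝ T.V) (i : ι) (v : T.V) :
    fb b i v = ((b.repr v i : ℝ) : ℂ) := rfl

theorem frm_eq {ι : Type} [Fintype ι] (b : Module.Basis ι ℝ T.V) (a : Frm T) :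
    a = ∑ i, a (b i) • fb b i := by
  classical
  refine b.ext fun j => ?_
  rw [LinearMap.sum_apply, Finset.sum_eq_single j]
  · rw [LinearMap.smul_apply, fb_apply, Module.Basis.repr_self, Finsupp.single_eq_same]
    simp
  · intro i _ hij
    rw [LinearMap.smul_apply, fb_apply, Module.Basis.repr_self, Finsupp.single_eq_of_ne hij]
    simp
  · intro h
    exact absurd (Finset.mem_univ j) h

/-- Two operators on the forms which agree on the dual basis. -/
theorem op_ext {ι : Type} [Fintype ι] (b : Module.Basis ι ℝ T.V) {A B : Module.End ℂ (Frm T)}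
    (h : ∀ i j, A (fb b i) (b j) = B (fb b i) (b j)) : A = B := by
  refine LinearMap.ext fun a => ?_
  rw [frm_eq b a, map_sum, map_sum]
  refine Finset.sum_congr rfl fun i _ => ?_
  rw [map_smul, map_smul]
  congr 1
  exact b.ext fun j => h i j

theorem pre_apply (X : Module.End ℝ T.V) (a : Frm T) (v : T.V) : pre X a v = a (X v) := rfl

end RatSp_aux

open RatSp_aux in
theorem tRatSp : S_RatSp := by
  classical
  intro T A
  obtain ⟨ι, _, b, hb1, hb2⟩ := lat_basis T
  -- the rational span of the entries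
  let S : Submodule ℚ ℂ := Submodule.span ℚ (Set.range fun p : ι × ι => A (fb b p.1) (b p.2))
  have hS : Module.Finite ℚ S := Module.Finite.span_of_finite ℚ (Set.finite_range _)
  let c : Module.Basis (Fin (Module.finrank ℚ S)) ℚ S := Module.finBasis ℚ S
  have hmem : ∀ i j, A (fb b i) (b j) ∈ S := fun i j =>
    Submodule.subset_span ⟨(i, j), rfl⟩
  let q : ι → ι → Fin (Module.finrank ℚ S) → ℚ := fun i j k => c.repr ⟨_, hmem i j⟩ k
  have hq : ∀ i j, A (fb b i) (b j) = ∑ k, (q i j k : ℂ) * (c k : ℂ) := by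
    intro i j
    have h := congrArg (fun x : S => (x : ℂ)) (c.sum_repr ⟨_, hmem i j⟩)
    simp only [AddSubmonoidClass.coe_finsetSum, Submodule.coe_smul] at h
    rw [← h]
    refine Finset.sum_congr rfl fun k _ => ?_
    rw [Rat.smul_def]
  let Y : Fin (Module.finrank ℚ S) → Module.End ℝ T.V := fun k =>
    b.constr ℝ fun j => ∑ i, (q i j k : ℝ) • b i
  have hY : ∀ k j, Y k (b j) = ∑ i, (q i j k : ℝ) • b i := fun k j => b.constr_basis ℝ _ j
  have hYr : ∀ k, RatEnd T (Y k) := by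
    intro k v hv
    rw [← b.sum_repr v, map_sum]
    refine ex_sum _ _ fun j _ => ?_
    rw [map_smul, hY, Finset.smul_sum]
    refine ex_sum _ _ fun i _ => ?_
    obtain ⟨n, hn⟩ := hb2 v hv j
    rw [hn, smul_smul]
    have := ex_smul (hb1 i) (n * q i j k)
    push_cast at this
    exact this
  have hfY : ∀ i j k, fb b i (Y k (b j)) = (q i j k : ℂ) := by
    intro i j k
    rw [fb_apply, hY, map_sum, Finsupp.finsetSum_apply, Finset.sum_eq_single i]
    · rw [map_smul, Module.Basis.repr_self, Finsupp.smul_apply, Finsupp.single_eq_same]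
      simp
    · intro i' _ hi
      rw [map_smul, Module.Basis.repr_self, Finsupp.smul_apply, Finsupp.single_eq_of_ne hi.symm]
      simp
    · intro h
      exact absurd (Finset.mem_univ i) h
  have hA : A = ∑ k, (c k : ℂ) • pre (Y k) := by
    refine op_ext b fun i j => ?_
    rw [hq, LinearMap.sum_apply, LinearMap.sum_apply]
    refine Finset.sum_congr rfl fun k _ => ?_
    rw [LinearMap.smul_apply, LinearMap.smul_apply, pre_apply, hfY, smul_eq_mul, mul_comm]
  refine ⟨_, fun k => (c k : ℂ), Y, hA, hYr, ?_⟩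
  intro X hX hc
  have key : ∀ i j k, b.repr ((X * Y k - Y k * X) (b j)) i = 0 := by
    intro i j
    have hr : ∀ k, ∃ r : ℚ, b.repr ((X * Y k - Y k * X) (b j)) i = r := by
      intro k
      refine co b hb2 ?_ i
      rw [LinearMap.sub_apply, sub_eq_add_neg]
      exact ex_add (rat_mul hX (hYr k) _ (hb1 j)) (ex_neg (rat_mul (hYr k) hX _ (hb1 j)))
    choose r hr using hr
    have h1 : (A * pre X) (fb b i) (b j) = ∑ k, (c k : ℂ) * fb b i (X (Y k (b j))) := by
      rw [hA, Finset.sum_mul, LinearMap.sum_apply, LinearMap.sum_apply]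
      rfl
    have h2 : (pre X * A) (fb b i) (b j) = ∑ k, (c k : ℂ) * fb b i (Y k (X (b j))) := by
      rw [hA, Finset.mul_sum, LinearMap.sum_apply, LinearMap.sum_apply]
      refine Finset.sum_congr rfl fun k _ => ?_
      rw [Module.End.mul_apply, pre_apply, LinearMap.smul_apply, LinearMap.smul_apply, pre_apply,
        smul_eq_mul]
    have h0 : ∑ k, r k • c k = 0 := by
      apply Subtype.ext
      simp only [AddSubmonoidClass.coe_finsetSum, Submodule.coe_smul, Submodule.coe_zero]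
      have h3 : ∀ k, r k • (c k : ℂ) =
          (c k : ℂ) * fb b i (X (Y k (b j))) - (c k : ℂ) * fb b i (Y k (X (b j))) := by
        intro k
        rw [← mul_sub, ← map_sub, Rat.smul_def, mul_comm]
        congr 1
        have h4 := hr k
        rw [fb_apply]
        have h5 : X (Y k (b j)) - Y k (X (b j)) = (X * Y k - Y k * X) (b j) := rfl
        rw [h5, h4]
        simp
      rw [Finset.sum_congr rfl fun k _ => h3 k, Finset.sum_sub_distrib, ← h1, ← h2, hc, sub_self]
    intro k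
    have h6 := Fintype.linearIndependent_iff.1 c.linearIndependent r h0 k
    rw [hr, h6]
    simp
  intro k
  refine b.ext fun j => ?_
  have h7 : (X * Y k - Y k * X) (b j) = 0 := by
    rw [← b.sum_repr ((X * Y k - Y k * X) (b j))]
    exact Finset.sum_eq_zero fun i _ => by rw [key i j k, zero_smul]
  rw [LinearMap.sub_apply] at h7
  exact sub_eq_zero.1 h7

end SEB
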