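import Pool.Agent.Lib.SE.Big.Fam2
import Pool.Agent.Lib.SE.Big.Sep

/-!
# PROJECT SE, module IsBig: separation for coprime orders (helper17)
-/

set_option autoImplicit false

noncomputable section

namespace SEB

open HC HC.E HC.SE

namespace Sep2_aux

/-- two blocks of factors with coprime orders can be moved independently -/
theorem mv {q : ℕ} (F : Fm q) (β β' : F.B) (hc : (F.m β.1).Coprime (F.m β'.1))
    (w : (ZMod (F.m β.1))ˣ) (w' : (ZMod (F.m β'.1))ˣ) :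
    ∃ ρ : (ZMod F.M)ˣ, F.act ρ β = ⟨β.1, w⟩ ∧ F.act ρ β' = ⟨β'.1, w'⟩ := by
  have : NeZero F.M := ⟨Finset.prod_ne_zero_iff.2 fun i _ => by
    have := F.hm i
    omega⟩
  obtain ⟨ρ, h1, h2⟩ := Sep_aux.crt hc (F.dvd β.1) (F.dvd β'.1) (w * β.2⁻¹) (w' * β'.2⁻¹)
  refine ⟨ρ, ?_, ?_⟩
  · change (⟨β.1, ZMod.unitsMap (F.dvd β.1) ρ * β.2⟩ : F.B) = ⟨β.1, w⟩
    rw [h1, inv_mul_cancel_right]
  · change (⟨β'.1, ZMod.unitsMap (F.dvd β'.1) ρ * β'.2⟩ : F.B) = ⟨β'.1, w'⟩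
    rw [h2, inv_mul_cancel_right]

end Sep2_aux

open Sep2_aux in
theorem tSep2 : S_Sep2 := by
  intro q F hF β β' hβ
  rcases hF β.1 β'.1 hβ with h | ⟨hc, ⟨u, v, huv⟩ | ⟨u, v, huv⟩⟩
  · exact Or.inl h
  · right
    by_cases h1 : F.pp ⟨β.1, u⟩ = F.pp β'
    · obtain ⟨ρ, e1, e2⟩ := mv F β β' hc v β'.2
      refine ⟨ρ, ?_⟩
      rw [e1, e2]
      intro h2
      exact huv (h1.trans h2.symm)
    · obtain ⟨ρ, e1, e2⟩ := mv F β β' hc u β'.2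
      refine ⟨ρ, ?_⟩
      rw [e1, e2]
      exact h1
  · right
    by_cases h1 : F.pp β = F.pp ⟨β'.1, u⟩
    · obtain ⟨ρ, e1, e2⟩ := mv F β β' hc β.2 v
      refine ⟨ρ, ?_⟩
      rw [e1, e2]
      intro h2
      exact huv (h1.symm.trans h2)
    · obtain ⟨ρ, e1, e2⟩ := mv F β β' hc β.2 u
      refine ⟨ρ, ?_⟩
      rw [e1, e2]
      exact h1

end SEB
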