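import Pool.Agent.Lib.SE.Big.Pr4

/-!
# PROJECT SE, module IsBig: separation of different `m`, not `2 mod 4` (helper36)
-/

set_option autoImplicit false

noncomputable section

namespace SEB

namespace Sp4_aux

lemma lift {m m' : ℕ} (hm : 0 < m) (hm' : 0 < m') (k : (ZMod m')ˣ)
    (h : ZMod.unitsMap (Nat.gcd_dvd_right m m') k = 1) :
    ∃ ρ : (ZMod (Nat.lcm m m'))ˣ, ZMod.unitsMap (Nat.dvd_lcm_left m m') ρ = 1 ∧
      ZMod.unitsMap (Nat.dvd_lcm_right m m') ρ = k := by
  haveI : NeZero m := ⟨hm.ne'⟩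
  haveI : NeZero m' := ⟨hm'.ne'⟩
  have h1 : (1 : ℕ) ≡ (k : ZMod m').val [MOD Nat.gcd m m'] := by
    have h2 := congrArg (fun x : (ZMod (Nat.gcd m m'))ˣ => (x : ZMod (Nat.gcd m m'))) h
    simp only [ZMod.unitsMap_def, Units.coe_map, Units.val_one] at h2
    have h3 : (ZMod.castHom (Nat.gcd_dvd_right m m') (ZMod (Nat.gcd m m'))) (k : ZMod m') =
        (((k : ZMod m').val : ℕ) : ZMod (Nat.gcd m m')) := by
      rw [ZMod.castHom_apply, ZMod.natCast_val]
    have h4 : (((k : ZMod m').val : ℕ) : ZMod (Nat.gcd m m')) = ((1 : ℕ) : ZMod (Nat.gcd m m')) := by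
      rw [← h3, Nat.cast_one]
      exact h2
    exact ((ZMod.natCast_eq_natCast_iff _ _ _).1 h4).symm
  obtain ⟨x, hx1, hx2⟩ := Nat.chineseRemainder' h1
  have c1 : x.Coprime m := by
    rw [Nat.coprime_iff_gcd_eq_one, hx1.gcd_eq]
    exact Nat.gcd_one_left m
  have c2 : x.Coprime m' := by
    rw [Nat.coprime_iff_gcd_eq_one, hx2.gcd_eq]
    exact ZMod.val_coe_unit_coprime k
  have c3 : x.Coprime (Nat.lcm m m') :=
    Nat.Coprime.coprime_dvd_right (Nat.lcm_dvd_mul m m') (Nat.Coprime.mul_right c1 c2)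
  refine ⟨ZMod.unitOfCoprime x c3, ?_, ?_⟩
  · apply Units.ext
    simp only [ZMod.unitsMap_def, Units.coe_map, Units.val_one, ZMod.coe_unitOfCoprime]
    change (ZMod.castHom (Nat.dvd_lcm_left m m') (ZMod m)) ((x : ℕ) : ZMod (Nat.lcm m m')) = 1
    rw [map_natCast, (ZMod.natCast_eq_natCast_iff _ _ _).2 hx1, Nat.cast_one]
  · apply Units.ext
    simp only [ZMod.unitsMap_def, Units.coe_map, ZMod.coe_unitOfCoprime]
    change (ZMod.castHom (Nat.dvd_lcm_right m m') (ZMod m')) ((x : ℕ) : ZMod (Nat.lcm m m')) = _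
    rw [map_natCast, (ZMod.natCast_eq_natCast_iff _ _ _).2 hx2, ZMod.natCast_zmod_val]

lemma half {m m' : ℕ} (hm : 0 < m) (h3 : 3 ≤ m') (h4 : m' % 4 ≠ 2)
    (H : ∀ k : (ZMod m')ˣ, ZMod.unitsMap (Nat.gcd_dvd_right m m') k = 1 → k = 1 ∨ k = -1) :
    m' ∣ m ∨ ((m' = 3 ∨ m' = 4) ∧ Nat.gcd m m' ≤ 2) := by
  have hm' : 0 < m' := by omega
  haveI : NeZero m' := ⟨hm'.ne'⟩
  obtain ⟨d, hd⟩ : ∃ d, Nat.gcd m m' = d := ⟨_, rfl⟩
  have hd0 : 0 < d := hd ▸ Nat.gcd_pos_of_pos_left m' hm
  have hdm' : d ∣ m' := hd ▸ Nat.gcd_dvd_right m m'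
  have hdm : d ∣ m := hd ▸ Nat.gcd_dvd_left m m'
  rw [hd]
  have H' : ∀ k : (ZMod m')ˣ, ZMod.unitsMap hdm' k = 1 → k = 1 ∨ k = -1 := by
    subst hd
    exact H
  haveI : NeZero d := ⟨hd0.ne'⟩
  rcases Nat.lt_or_ge 2 d with h5 | h5
  · left
    haveI : Fact (2 < d) := ⟨h5⟩
    have hinj : Function.Injective (ZMod.unitsMap hdm') := by
      rw [injective_iff_map_eq_one]
      intro k hk
      rcases H' k hk with h | h
      · exact h
      · exfalso
        rw [h] at hk
        have h6 := congrArg (fun x : (ZMod d)ˣ => (x : ZMod d)) hk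
        simp only [ZMod.unitsMap_def, Units.coe_map, Units.val_one, Units.val_neg] at h6
        change (ZMod.castHom hdm' (ZMod d)) (-1 : ZMod m') = 1 at h6
        rw [map_neg, map_one] at h6
        exact ZMod.neg_one_ne_one h6
    have hsur := ZMod.unitsMap_surjective hdm'
    have hcard : Nat.totient m' = Nat.totient d := by
      rw [← ZMod.card_units_eq_totient, ← ZMod.card_units_eq_totient]
      exact Fintype.card_of_bijective ⟨hinj, hsur⟩
    obtain ⟨k, hk⟩ := hdm'
    have hk0 : 0 < k := by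
      rcases Nat.eq_zero_or_pos k with h | h
      · rw [h, mul_zero] at hk
        omega
      · exact h
    have h7 : Nat.totient d * Nat.totient k ≤ Nat.totient d := by
      have := Nat.totient_super_multiplicative d k
      rwa [← hk, hcard] at this
    have h8 : Nat.totient k ≤ 1 := by
      by_contra h
      have h9 : Nat.totient d * 2 ≤ Nat.totient d * Nat.totient k :=
        Nat.mul_le_mul_left _ (by omega)
      have := Nat.totient_pos.2 hd0
      omega
    have h9 : Nat.totient k = 1 := by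
      have := Nat.totient_pos.2 hk0
      omega
    rcases Nat.totient_eq_one_iff.1 h9 with h | h
    · rw [h, mul_one] at hk
      rw [hk]
      exact hdm
    · exfalso
      rw [h] at hk
      rcases Nat.even_or_odd d with h10 | h10
      · have h11 := Nat.totient_mul_of_prime_of_dvd Nat.prime_two h10.two_dvd
        rw [mul_comm 2 d, ← hk, hcard] at h11
        have := Nat.totient_pos.2 hd0
        omega
      · obtain ⟨e, he⟩ := h10
        omega
  · right
    refine ⟨?_, h5⟩
    have htriv : ∀ k : (ZMod m')ˣ, k = 1 ∨ k = -1 := by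
      intro k
      apply H' k
      have hsub : Subsingleton (ZMod d)ˣ := by
        have h6 : d = 1 ∨ d = 2 := by omega
        rcases h6 with h6 | h6
        · subst h6
          infer_instance
        · subst h6
          infer_instance
      exact Subsingleton.elim _ _
    by_contra hne
    rw [not_or] at hne
    have hbig : 5 ≤ m' := by omega
    -- a unit `x`, `1 < x < m' - 1`
    have hx : ∃ x, 1 < x ∧ x < m' - 1 ∧ x.Coprime m' := by
      rcases Nat.even_or_odd m' with h6 | h6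
      · obtain ⟨e, he⟩ := h6
        refine ⟨e + 1, by omega, by omega, ?_⟩
        have he2 : 2 ∣ e := by omega
        obtain ⟨f, hf⟩ := he2
        have c1 : (e + 1).Coprime e := (Nat.coprime_self_add_left).2 (Nat.coprime_one_left e)
        have c2 : (e + 1).Coprime 2 := by
          rw [Nat.coprime_two_right]
          exact ⟨f, by omega⟩
        have h7 : m' = 2 * e := by omega
        rw [h7]
        exact Nat.Coprime.mul_right c2 c1
      · exact ⟨2, by omega, by omega, Nat.coprime_two_left.2 h6⟩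
    obtain ⟨x, hx1, hx2, hx3⟩ := hx
    rcases htriv (ZMod.unitOfCoprime x hx3) with h | h
    · have h6 := congrArg (fun y : (ZMod m')ˣ => (y : ZMod m')) h
      simp only [ZMod.coe_unitOfCoprime, Units.val_one] at h6
      have h7 : ((x : ℕ) : ZMod m') = ((1 : ℕ) : ZMod m') := by rw [h6, Nat.cast_one]
      rw [ZMod.natCast_eq_natCast_iff'] at h7
      rw [Nat.mod_eq_of_lt (by omega), Nat.mod_eq_of_lt (by omega)] at h7
      omega
    · have h6 := congrArg (fun y : (ZMod m')ˣ => (y : ZMod m')) h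
      simp only [ZMod.coe_unitOfCoprime, Units.val_neg, Units.val_one] at h6
      have h7 : ((x + 1 : ℕ) : ZMod m') = 0 := by
        rw [Nat.cast_add, h6, Nat.cast_one, neg_add_cancel]
      rw [ZMod.natCast_eq_zero_iff] at h7
      have := Nat.le_of_dvd (by omega) h7
      omega

end Sp4_aux

theorem tSp4 : S_Sp4 := by
  intro m m' h3 h3' h4 h4' hne h34 h43
  by_contra hno
  have hM : Nat.lcm m m' ≠ 0 := (Nat.lcm_pos (by omega) (by omega)).ne'
  have A : m' ∣ m ∨ ((m' = 3 ∨ m' = 4) ∧ Nat.gcd m m' ≤ 2) := by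
    refine Sp4_aux.half (by omega) h3' h4' fun k hk => ?_
    by_contra h
    rw [not_or] at h
    obtain ⟨ρ, h1, h2⟩ := Sp4_aux.lift (by omega) (by omega) k hk
    exact hno ⟨_, Nat.dvd_lcm_left m m', Nat.dvd_lcm_right m m', ρ, hM,
      Or.inl ⟨h1, by rw [h2]; exact h⟩⟩
  have B : m ∣ m' ∨ ((m = 3 ∨ m = 4) ∧ Nat.gcd m' m ≤ 2) := by
    refine Sp4_aux.half (by omega) h3 h4 fun k hk => ?_
    by_contra h
    rw [not_or] at h
    obtain ⟨ρ, h1, h2⟩ := Sp4_aux.lift (m := m') (m' := m) (by omega) (by omega) k hk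
    exact hno ⟨_, Nat.dvd_lcm_right m' m, Nat.dvd_lcm_left m' m, ρ,
      (Nat.lcm_pos (by omega) (by omega)).ne', Or.inr ⟨h1, by rw [h2]; exact h⟩⟩
  rcases A with A | ⟨A, A2⟩ <;> rcases B with B | ⟨B, B2⟩
  · exact hne (Nat.dvd_antisymm B A)
  · rw [Nat.gcd_eq_left A] at B2
    omega
  · rw [Nat.gcd_eq_left B] at A2
    omega
  · rcases A with A | A <;> rcases B with B | B <;> omega

end SEB
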