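import Pool.Agent.Lib.HC.L.E.Spec

/-!
# PROJECT SE, module IsBig (helper64)

`T` an abelian variety with an automorphism `Z` of order `m` all of whose eigenvalues are primitive
`m`-th roots of unity (`E = ℚ(ζ_m)` acts), `ψ` a `Z`-invariant Riemann form. `IsBig D`: the derived
algebra of the Hodge Lie algebra of `T` contains `su_E`. It is proved here for rank `r = 2` (or the
Hodge Lie algebra is commutative) and, if `End⁰(T) = E`, for every `r`, when one character has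
signature `(1, r - 1)` and the signatures are aperiodic.

Every module: file `SE/Big/Xyz.lean`, `theorem tXyz : S_Xyz`, import only
`Pool.Agent.Lib.SE.Big.Spec`. If the docstring says `From S_A, S_B` and these are not hypotheses in the
statement itself, the theorem is `tXyz : S_A → S_B → S_Xyz`.
-/

set_option autoImplicit false

open Module

noncomputable section

namespace SEB

open HC HC.E

/-- The real linear forms with complex values: `H¹(T, ℂ)`. -/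
abbrev Frm (T : AV) : Type := T.V →ₗ[ℝ] ℂ

/-- The action of a real endomorphism on the forms (an antihomomorphism). -/
def pre {T : AV} (X : Module.End ℝ T.V) : Module.End ℂ (Frm T) where
  toFun a := a ∘ₗ X
  map_add' _ _ := rfl
  map_smul' _ _ := rfl

/-- `ζ_m ^ s`. -/
def zet (m : ℕ) (s : (ZMod m)ˣ) : ℂ :=
  Complex.exp (2 * Real.pi * Complex.I / m) ^ (s : ZMod m).val

/-- `E = ℚ(ζ_m)` acts on `T`; a Riemann form invariant under `Z`. -/
structure Cyc (T : AV) (m : ℕ) where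
  Z : T.V →ₗ[ℂ] T.V
  lat : ∀ v ∈ T.L, Z v ∈ T.L
  cyc : Polynomial.aeval Z (Polynomial.cyclotomic m ℤ) = 0
  ψ : T.V →ₗ[ℝ] T.V →ₗ[ℝ] ℝ
  int : ∀ u ∈ T.L, ∀ v ∈ T.L, ∃ n : ℤ, ψ u v = n
  alt : ∀ u v, ψ u v = -ψ v u
  cpx : ∀ u v, ψ (Complex.I • u) (Complex.I • v) = ψ u v
  pos : ∀ v, v ≠ 0 → 0 < ψ (Complex.I • v) v
  inv : ∀ u v, ψ (Z u) (Z v) = ψ u v

variable {T : AV} {m : ℕ}

/-- `Z` as a real endomorphism. -/
def Cyc.ZR (D : Cyc T m) : Module.End ℝ T.V := D.Z.restrictScalars ℝ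

/-- The eigenspace of the character `s` in `H¹(T, ℂ)`. -/
def Ws (D : Cyc T m) (s : (ZMod m)ˣ) : Submodule ℂ (Frm T) where
  carrier := {a | ∀ v, a (D.Z v) = zet m s * a v}
  add_mem' {a b} ha hb v := by
    rw [LinearMap.add_apply, ha v, hb v, LinearMap.add_apply, mul_add]
  zero_mem' v := by simp
  smul_mem' c a ha v := by
    rw [LinearMap.smul_apply, ha v, LinearMap.smul_apply, smul_eq_mul, smul_eq_mul]
    ring

/-- The part of type `(1,0)` of the eigenspace. -/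
def Ws10 (D : Cyc T m) (s : (ZMod m)ˣ) : Submodule ℂ (Frm T) where
  carrier := {a | a ∈ Ws D s ∧ ∀ v, a (Complex.I • v) = Complex.I * a v}
  add_mem' {a b} ha hb := by
    refine ⟨add_mem ha.1 hb.1, fun v => ?_⟩
    rw [LinearMap.add_apply, ha.2 v, hb.2 v, LinearMap.add_apply, mul_add]
  zero_mem' := ⟨zero_mem _, fun v => by simp⟩
  smul_mem' c a ha := by
    refine ⟨Submodule.smul_mem _ c ha.1, fun v => ?_⟩
    rw [LinearMap.smul_apply, ha.2 v, LinearMap.smul_apply, smul_eq_mul, smul_eq_mul]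
    ring

/-- The signature: `p s` holomorphic forms at the character `s` (so the signature is
`(p s, p (-s))`). -/
def Cyc.p (D : Cyc T m) (s : (ZMod m)ˣ) : ℕ := finrank ℂ (Ws10 D s)

/-- `X` commutes with `Z` and is skew for `ψ`: the Lie algebra `u_E`. -/
def IsU (D : Cyc T m) (X : Module.End ℝ T.V) : Prop :=
  (∀ v, X (D.Z v) = D.Z (X v)) ∧ ∀ u v, D.ψ (X u) v + D.ψ u (X v) = 0

/-- `X` is in `su_E`: all traces over `E` vanish. -/
def IsSU (D : Cyc T m) (X : Module.End ℝ T.V) : Prop :=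
  IsU D X ∧ ∀ k : ℕ, LinearMap.trace ℝ T.V (X * D.ZR ^ k) = 0

/-- A `ℚ`-Lie algebra of rational elements of `u_E` whose real span contains the multiplication by
`i` (the smallest one is the Hodge Lie algebra of `T`). -/
structure HLie (D : Cyc T m) (h : Set (Module.End ℝ T.V)) : Prop where
  rat : ∀ X ∈ h, RatEnd T X
  u : ∀ X ∈ h, IsU D X
  lie : IsQLie h
  J : mulI T ∈ Submodule.span ℝ h

/-- The commutators. -/
def Com (h : Set (Module.End ℝ T.V)) : Set (Module.End ℝ T.V) :=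
  {Y | ∃ X ∈ h, ∃ X' ∈ h, Y = X * X' - X' * X}

/-- The derived algebra of the Hodge Lie algebra contains `su_E`. -/
def IsBig (D : Cyc T m) : Prop :=
  ∀ h : Set (Module.End ℝ T.V), HLie D h → ∀ X, IsSU D X → X ∈ Submodule.span ℝ (Com h)

/-- The Hodge Lie algebra is commutative (`T` is of CM type). -/
def IsAb (D : Cyc T m) : Prop :=
  ∃ h : Set (Module.End ℝ T.V), HLie D h ∧ ∀ X ∈ h, ∀ Y ∈ h, X * Y = Y * X

/-- The signatures are aperiodic (modulo `-1`). -/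
def Aper (D : Cyc T m) : Prop :=
  ∀ g : (ZMod m)ˣ, (∀ s, D.p (s * g) * D.p (-(s * g)) = D.p s * D.p (-s)) → g = 1 ∨ g = -1

/-- `End⁰(T) = E`. -/
def EndE (D : Cyc T m) : Prop :=
  ∀ X : Module.End ℝ T.V, RatEnd T X → (∀ v, X (Complex.I • v) = Complex.I • X v) →
    X ∈ Submodule.span ℝ (Set.range fun k : ℕ => D.ZR ^ k)

/-! ## The theorems -/

/-- RANK 2. `T` is of CM type or big. -/
def R2 : Prop :=
  ∀ (T : AV) (m : ℕ) (D : Cyc T m), 3 ≤ m → finrank ℂ T.V = Nat.totient m →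
    (∃ s, D.p s = 1) → Aper D → IsAb D ∨ IsBig D

/-- RANK `r`, `End⁰(T) = E`, one character of signature `(1, r - 1)`. -/
def Rr : Prop :=
  ∀ (T : AV) (m r : ℕ) (D : Cyc T m), 3 ≤ m → 2 ≤ r → 2 * finrank ℂ T.V = r * Nat.totient m →
    (∃ s, D.p s = 1) → EndE D → Aper D → IsBig D

/-! ## Stable subspaces, and what the commutators hit -/

/-- `h` acts irreducibly on the eigenspace of `s`. -/
def Irr (D : Cyc T m) (h : Set (Module.End ℝ T.V)) (s : (ZMod m)ˣ) : Prop :=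
  ∀ U : Submodule ℂ (Frm T), U ≤ Ws D s → (∀ X ∈ h, ∀ a ∈ U, pre X a ∈ U) → U = ⊥ ∨ U = Ws D s

/-- Complex combinations of commutators: a complex Lie algebra of operators on the forms. -/
def gg (h : Set (Module.End ℝ T.V)) : Submodule ℂ (Module.End ℂ (Frm T)) :=
  Submodule.span ℂ (pre '' Com h)

/-- The commutators realise every family of traceless operators on the eigenspaces of the
characters in `F`. -/
def Hits (D : Cyc T m) (h : Set (Module.End ℝ T.V)) (F : Set (ZMod m)ˣ) : Prop :=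
  ∀ A : ∀ s, Module.End ℂ (Ws D s), (∀ s, LinearMap.trace ℂ (Ws D s) (A s) = 0) →
    ∃ C ∈ gg h, ∀ s ∈ F, ∀ a : Ws D s, C (a : Frm T) = (A s a : Frm T)

/-! ## Pure linear algebra -/

/-- RANK ONE CRITERION. A Lie algebra `g` of operators which is irreducible and contains
`c + c' e`, `c' ≠ 0`, `e = φ(·) v`, `φ v = 1`, has commutators spanning `sl(W)`.
PROOF. `g' = g + K 1` (closed under commutators, contains `e`). For `X ∈ g'`:
`e X (1 - e) = ([e,X] + [e,[e,X]])/2` and `(1 - e) X e = ([e,[e,X]] - [e,X])/2` are in `g'`. Let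
`A = {a ∈ ker φ | φ(·) a ∈ g'}`. `K v + A` is stable under `g'`: `X v = φ(X v) v + (1-e) X v`, and
`(1-e) X e = φ(·) (1-e) X v ∈ g'`; for `a ∈ A`: `[X, φ(·)a] = φ(·) X a - (φ∘X)(·) a ∈ g'`, its
component `(1-e)(..)e` is `φ(·) ((1-e) X a - φ(X v) a) ∈ g'`, so `(1-e) X a ∈ A`. So `A = ker φ`.
Dually let `B = {β | β v = 0, β(·) v ∈ g'}`; the space `K₀ = {w | φ w = 0, β w = 0 for β ∈ B}` is
stable (for `β ∈ B`, `X ∈ g'`: `[β(·) v, X]`, component `e(..)(1-e)`, gives `β∘X` minus its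
components along `φ` and `β` in `B`; and `φ∘X - φ(X v) φ ∈ B`), `v ∉ K₀`, so `K₀ = 0` and `B` is
everything that kills `v`. Then `[φ(·) a, β(·) v] = β(·) a - β(a) φ(·) v`, so `g' = End W`, and
`[g, g] = [g', g'] = [End W, End W] = sl(W)`. -/
def S_L1 : Prop :=
  ∀ (W : Type) [AddCommGroup W] [Module ℂ W] [FiniteDimensional ℂ W]
    (g : Submodule ℂ (Module.End ℂ W)) (c c' : ℂ) (φ : Module.Dual ℂ W) (v : W),
    (∀ X ∈ g, ∀ Y ∈ g, X * Y - Y * X ∈ g) → c' ≠ 0 → φ v = 1 →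
    c • (1 : Module.End ℂ W) + c' • (φ.smulRight v) ∈ g →
    (∀ U : Submodule ℂ W, (∀ X ∈ g, ∀ u ∈ U, X u ∈ U) → U = ⊥ ∨ U = ⊤) →
    ∀ X : Module.End ℂ W, LinearMap.trace ℂ W X = 0 →
      X ∈ Submodule.span ℂ {Y | ∃ A ∈ g, ∃ B ∈ g, Y = A * B - B * A}

/-- `sl` is perfect. PROOF. Matrices: `E_ij = [E_ii - E_jj, E_ij]/2` (`i ≠ j`),
`E_ii - E_jj = [E_ij, E_ji]`. -/
def S_Perf : Prop :=
  ∀ (W : Type) [AddCommGroup W] [Module ℂ W] [FiniteDimensional ℂ W] (X : Module.End ℂ W),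
    LinearMap.trace ℂ W X = 0 →
      X ∈ Submodule.span ℂ {Y | ∃ A B : Module.End ℂ W, LinearMap.trace ℂ W A = 0 ∧
        LinearMap.trace ℂ W B = 0 ∧ Y = A * B - B * A}

/-- GOURSAT FOR `sl(W) × sl(W')`. PROOF. `N = {x | (x, 0) ∈ P}` is an ideal of `sl(W)` (first
projection onto, `P` closed under commutators), even stable under `[y, ·]`, `y ∈ End W`. If
`0 ≠ n ∈ N` then `n` is not a scalar, so some `u`, `n u` are independent; `φ u = 0`, `φ (n u) = 1`,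
`x = φ(·) u`: `[x,[x,n]] = -2 x`, so `x ∈ N`. If `φ(·) u ∈ N` (`φ u = 0`, both nonzero) and
`ξ x = 0`, `ξ u ≠ 0`, `φ x ≠ 0` then `[ξ(·)x, [ξ(·)x, φ(·)u]] = -2 ξ(u) φ(x) ξ(·) x ∈ N`. For any
`u', φ'` nonzero with `φ' u' = 0` there are `x` with `φ x ≠ 0`, `φ' x ≠ 0`, then `ξ` with
`ξ x = 0`, `ξ u ≠ 0`, `ξ u' ≠ 0` (`x` is not in `K u`, `K u'`). So `φ'(·) u' ∈ N`; these span `sl`
(`E_ij`, and `E_ii - E_jj` from `(e_i + e_j) ⊗ (e_i* - e_j*)`). So `N = 0` or `N = sl(W)`; in the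
second case `P` is everything. The same for `N' = {y | (0,y) ∈ P}`; if `N = N' = 0`: second
alternative. -/
def S_Gou : Prop :=
  ∀ (W W' : Type) [AddCommGroup W] [Module ℂ W] [FiniteDimensional ℂ W] [AddCommGroup W']
    [Module ℂ W'] [FiniteDimensional ℂ W']
    (P : Submodule ℂ (Module.End ℂ W × Module.End ℂ W')),
    (∀ x ∈ P, ∀ y ∈ P, (x.1 * y.1 - y.1 * x.1, x.2 * y.2 - y.2 * x.2) ∈ P) →
    (∀ x ∈ P, LinearMap.trace ℂ W x.1 = 0 ∧ LinearMap.trace ℂ W' x.2 = 0) →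
    (∀ X : Module.End ℂ W, LinearMap.trace ℂ W X = 0 → ∃ Y, (X, Y) ∈ P) →
    (∀ Y : Module.End ℂ W', LinearMap.trace ℂ W' Y = 0 → ∃ X, (X, Y) ∈ P) →
    (∀ X Y, LinearMap.trace ℂ W X = 0 → LinearMap.trace ℂ W' Y = 0 → (X, Y) ∈ P) ∨
      ∀ x ∈ P, (x.1 = 0 ↔ x.2 = 0)

/-! ## The eigenspaces -/

/-- The projector to the eigenspace of `t`. -/
def pj (D : Cyc T m) (t : (ZMod m)ˣ) : Module.End ℂ (Frm T) :=
  (m : ℂ)⁻¹ • ∑ k ∈ Finset.range m, ((zet m t)⁻¹ ^ k) • (pre D.ZR) ^ k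

/-- PROJECTORS. PROOF. `Φ_m` divides `X^m - 1`, so `Z^m = 1`; `zet m t` is an `m`-th root of unity, and
`zet m s ≠ zet m t` for `s ≠ t` (geometric sums). -/
def S_Pj : Prop :=
  ∀ (T : AV) (m : ℕ) (D : Cyc T m), 3 ≤ m → D.Z ^ m = 1 ∧ (∀ t a, pj D t a ∈ Ws D t) ∧
    (∀ t, ∀ a ∈ Ws D t, pj D t a = a) ∧ ∀ s t, s ≠ t → ∀ a ∈ Ws D s, pj D t a = 0

/-- A HERMITIAN FORM ON THE FORMS. PROOF. `S(u,v) = ψ(i u, v)` is symmetric and positive on `T.V`;
`e_k` an orthonormal basis (over `ℝ`) for `S`; `H a b = ∑_k a(e_k) conj(b(e_k))`. If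
`S(X u, v) = S(u, Y v)`, the matrices of `X`, `Y` in the basis `e_k` are transposes of each other. -/
def S_Hm : Prop :=
  ∀ (T : AV) (m : ℕ) (D : Cyc T m), ∃ H : Frm T → Frm T → ℂ,
    (∀ a b c, H (a + b) c = H a c + H b c) ∧ (∀ (x : ℂ) (a b : Frm T), H (x • a) b = x * H a b) ∧
    (∀ a b, H b a = (starRingEnd ℂ) (H a b)) ∧ (∀ a, a ≠ 0 → 0 < (H a a).re) ∧
    ∀ X Y : Module.End ℝ T.V,
      (∀ u v, D.ψ (Complex.I • X u) v = D.ψ (Complex.I • u) (Y v)) →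
      ∀ a b, H (pre X a) b = H a (pre Y b)

/-- A SEMILINEAR FUNCTION. PROOF. `K = ℚ(ζ) ⊂ ℂ`, `ζ = exp(2πi/m)`; `τ` the automorphism of `K` with
`τ ζ = zet m ρ` (a primitive `m`-th root of unity; the cyclotomic polynomial is irreducible), `f` a
`K`-linear map `ℂ → K` with `f c = 1`, `l = τ ∘ f`. -/
def S_Tw : Prop :=
  ∀ (m : ℕ), 1 ≤ m → ∀ (ρ : (ZMod m)ˣ) (c : ℂ), c ≠ 0 → ∃ l : ℂ →+ ℂ, l c = 1 ∧
    ∀ x, l (Complex.exp (2 * Real.pi * Complex.I / m) * x) = zet m ρ * l x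

/-- BASIC FACTS. From `S_Pj`. (1) the eigenspaces span the forms (`Z` is killed by `Φ_m`, which has distinct
roots `zet m s`), and a form with a component zero everywhere is zero. (2) `pre X` preserves `Ws s`
if `X` commutes with `Z`. (3) `pre` is linear, antimultiplicative, injective. (4) complex
conjugation maps `Ws s` to `Ws (-s)`, and forms of type `(1,0)` to type `(0,1)`. -/
def S_Bas : Prop :=
  ∀ (T : AV) (m : ℕ) (D : Cyc T m), 3 ≤ m →
    (⨆ s, Ws D s = ⊤) ∧ (iSupIndep fun s => Ws D s) ∧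
    (∀ X : Module.End ℝ T.V, (∀ v, X (D.Z v) = D.Z (X v)) → ∀ s, ∀ a ∈ Ws D s, pre X a ∈ Ws D s) ∧
    (∀ X Y : Module.End ℝ T.V, pre (X * Y) = pre Y * pre X ∧ pre (X + Y) = pre X + pre Y ∧
      (∀ r : ℝ, pre (r • X) = (r : ℂ) • pre X) ∧ (pre X = pre Y → X = Y)) ∧
    (∀ s, ∀ a ∈ Ws D s, ∃ b ∈ Ws D (-s), ∀ v, b v = (starRingEnd ℂ) (a v))

/-- CHANGE OF THE CHARACTER. A linear relation between rational endomorphisms commuting with `Z`
on some eigenspaces gives a relation on the eigenspaces multiplied by `ρ`.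
From `S_Pj`, `S_Tw`. PROOF. `c_(j₀) ≠ 0`; `l` as in `S_Tw` with `l(c_(j₀)) = 1`:
`l(ζ^a x) = ζ^(ρ a) l(x)` and `l` is `ℚ`-linear; `c'_j = l(c_j)`. `Ws t` is spanned over `ℂ` by the
`pj t b`, `b` a form with rational values on `L` (these forms span `Frm T`), and
`(pj t b)(X_j v) = (1/m) ∑_k ζ^(-tk) b(Z^k X_j v)` for `v ∈ L`, with rational numbers
`b(Z^k X_j v)`. Apply `l` to `∑_j c_j (pj t b)(X_j v) = 0`: it becomes
`∑_j c'_j (pj (ρ t) b)(X_j v) = 0`. `L` spans `T.V` over `ℝ`. -/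
def S_LI : Prop :=
  ∀ (T : AV) (m : ℕ) (D : Cyc T m), 3 ≤ m → ∀ (n : ℕ) (X : Fin n → Module.End ℝ T.V),
    (∀ j, RatEnd T (X j) ∧ ∀ v, X j (D.Z v) = D.Z (X j v)) → ∀ (F : Set (ZMod m)ˣ) (c : Fin n → ℂ),
    c ≠ 0 → (∀ t ∈ F, ∀ a ∈ Ws D t, ∑ j, c j • pre (X j) a = 0) → ∀ ρ : (ZMod m)ˣ,
    ∃ c' : Fin n → ℂ, c' ≠ 0 ∧ ∀ t ∈ F, ∀ a ∈ Ws D (ρ * t), ∑ j, c' j • pre (X j) a = 0

/-- DIMENSIONS. All eigenspaces have the same dimension `r`, `p s + p (-s) = r`. From `S_Pj`, `S_Tw`,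
`S_Bas`. PROOF. As `S_LI` (with rational forms `b_j` instead of endomorphisms:
`∑ c_j (pj t b_j) = 0` gives `∑ l(c_j) (pj (ρ t) b_j) = 0`; choose the `b_j` such that the
`pj (ρ t) b_j` are a basis of `Ws (ρ t)`), so `dim Ws (ρ t) ≤ dim Ws t`; the sum of the dimensions is
`dim_ℂ Hom_ℝ(T.V, ℂ) = 2 dim T`, the number of characters is `φ(m)`. `Ws s` is the sum of its
parts of type `(1,0)` and `(0,1)` (`a = (a - i a∘i)/2 + (a + i a∘i)/2`), the second is the complex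
conjugate of `Ws10 (-s)`. -/
def S_Dim : Prop :=
  ∀ (T : AV) (m r : ℕ) (D : Cyc T m), 3 ≤ m → 2 * finrank ℂ T.V = r * Nat.totient m →
    ∀ s, finrank ℂ (Ws D s) = r ∧ D.p s + D.p (-s) = r

/-- `pre (mulI T)` on an eigenspace with `p s = 1`: `-i + 2 i e`, `e` the projector to the line of
type `(1,0)`. -/
def S_J0 : Prop :=
  ∀ (T : AV) (m : ℕ) (D : Cyc T m), 3 ≤ m → ∀ s, D.p s = 1 →
    ∃ (φ : Module.Dual ℂ (Ws D s)) (v : Ws D s), φ v = 1 ∧
      ∀ a : Ws D s, pre (mulI T) (a : Frm T) =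
        -Complex.I • (a : Frm T) + (2 * Complex.I * φ a) • (v : Frm T)

/-- The eigenvalue `2 i` of `ad J` on the operators of `Ws s`: the maps which kill type `(1,0)` and
have values of type `(1,0)`: dimension `p s * p (-s)`. From `S_Bas`. PROOF. `J = pre (mulI T)` is `i` on type
`(1,0)`, `-i` on type `(0,1)` (dimension `p (-s)` by conjugation, `S_Bas`). -/
def S_AdJ : Prop :=
  ∀ (T : AV) (m : ℕ) (D : Cyc T m), 3 ≤ m → ∀ s,
    ∀ S : Submodule ℂ (Module.End ℂ (Ws D s)),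
      (∀ A, A ∈ S ↔ ∀ a : Ws D s, ∀ b : Ws D s, (b : Frm T) = pre (mulI T) (a : Frm T) →
        pre (mulI T) (A a : Frm T) - (A b : Frm T) = (2 * Complex.I) • (A a : Frm T)) →
      finrank ℂ S = D.p s * D.p (-s) ∧ ∀ A ∈ S, LinearMap.trace ℂ (Ws D s) A = 0

/-! ## Irreducibility -/

/-- COMPLETE REDUCIBILITY. From `S_Hm`. PROOF. For `X` skew for `ψ` its adjoint for
`S(u,v) = ψ(i u, v)` is `Y = J X J`, `J = mulI T` (`J² = -1`, `ψ(J u, J v) = ψ(u, v)`), and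
`J X J = -X - [J,[J,X]]/2` (as `[J,[J,X]] = J²X - 2 J X J + X J² = -2X - 2 J X J`) lies in the real
span of `h` (closed under commutators). `H` as in `S_Hm`: `H (pre X a) b = H a (pre Y b)`. So the
orthogonal complement of a stable `U` in `Ws s` is stable (`U` is stable under `pre` of the real
span of `h`); `H` is positive, so it is a complement. -/
def S_Red : Prop :=
  ∀ (T : AV) (m : ℕ) (D : Cyc T m), 3 ≤ m → ∀ h, HLie D h → ∀ s (U : Submodule ℂ (Frm T)),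
    U ≤ Ws D s → (∀ X ∈ h, ∀ a ∈ U, pre X a ∈ U) →
    ∃ U' : Submodule ℂ (Frm T), U' ≤ Ws D s ∧ (∀ X ∈ h, ∀ a ∈ U', pre X a ∈ U') ∧
      U ⊔ U' = Ws D s ∧ U ⊓ U' = ⊥

/-- RATIONAL COMPONENTS of a complex operator. PROOF. A basis of `Hom(T.V, ℂ)` of forms `b_i`
dual to a `ℤ`-basis of `L`; the matrix entries of `A` span a finite dimensional `ℚ`-subspace of
`ℂ`; `λ` a basis of it; `A = ∑ λ_k pre (Y_k)`, `Y_k` with rational matrices in the lattice basis.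
If `X` is rational and `pre X` commutes with `A`: `∑ λ_k pre (X Y_k - Y_k X) = 0`, evaluate at
`b_i` and `v ∈ L`: rational coefficients, so `X Y_k = Y_k X`. -/
def S_RatSp : Prop :=
  ∀ (T : AV) (A : Module.End ℂ (Frm T)), ∃ (n : ℕ) (c : Fin n → ℂ)
    (Y : Fin n → Module.End ℝ T.V), A = ∑ k, c k • pre (Y k) ∧ (∀ k, RatEnd T (Y k)) ∧
      ∀ X : Module.End ℝ T.V, RatEnd T X → A * pre X = pre X * A → ∀ k, X * Y k = Y k * X

/-- `End⁰(T) = E` implies irreducibility at every character. From `S_Bas`, `S_Red`, `S_RatSp`.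
PROOF. A stable `U`, different from `0` and `Ws s`, has a stable complement `U'`; let `A` be the
projector to `U` along `U'` on `Ws s`, and `0` on the other eigenspaces; it commutes with the
`pre X`, `X ∈ h`, and with `pre Z`. `S_RatSp`: `A = ∑ c_k pre (Y_k)`, `Y_k` rational, commuting with
`Z` and with `h`, so with `mulI T ∈ span_ℝ h`; `EndE`: `Y_k` is a real combination of powers of
`Z`, so `A` is a scalar on `Ws s`: contradiction. -/
def S_Irr : Prop :=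
  S_Bas → S_Red → S_RatSp → ∀ (T : AV) (m : ℕ) (D : Cyc T m), 3 ≤ m → EndE D →
    ∀ h, HLie D h → ∀ s, Irr D h s

/-- RANK 2: irreducible or commutative. From `S_Bas`, `S_Dim`, `S_Red`, `S_LI`. PROOF. If a line
`U` in `Ws s` is stable there is a second one, and all `pre X` are diagonal on `Ws s`: the
commutators vanish on `Ws s`, so (`S_LI`, `n = 1`) on all eigenspaces, so they are `0`. -/
def S_R2i : Prop :=
  S_Bas → S_Dim → S_Red → S_LI → ∀ (T : AV) (m : ℕ) (D : Cyc T m), 3 ≤ m →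
    finrank ℂ T.V = Nat.totient m → ∀ h, HLie D h → ∀ s,
      Irr D h s ∨ ∀ X ∈ h, ∀ Y ∈ h, X * Y = Y * X

/-! ## The commutators -/

/-- `gg h` is closed under commutators, also with `pre (mulI T)`, and consists of operators which
preserve the eigenspaces and have trace `0` on them. From `S_Bas`. PROOF. `[h,h] ⊆ h`;
`[X,[Y,Z]] ∈ Com h`; `mulI T ∈ span_ℝ h`; a commutator of two operators of `Ws s` has trace `0`. -/
def S_Cl : Prop :=
  S_Bas → ∀ (T : AV) (m : ℕ) (D : Cyc T m), 3 ≤ m → ∀ h, HLie D h →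
    (∀ A ∈ gg h, ∀ B ∈ gg h, A * B - B * A ∈ gg h) ∧
    (∀ A ∈ gg h, pre (mulI T) * A - A * pre (mulI T) ∈ gg h) ∧
    ∀ A ∈ gg h, ∀ s, ∃ A' : Module.End ℂ (Ws D s), LinearMap.trace ℂ (Ws D s) A' = 0 ∧
      ∀ a : Ws D s, A (a : Frm T) = (A' a : Frm T)

/-- AT THE CHARACTER `s` WITH `p s = 1`. From `S_Bas`, `S_J0`, `S_L1`. PROOF. `g` = restrictions
to `Ws s` of the complex span of `pre h`: closed under commutators, irreducible, contains
`-i + 2 i e` (`mulI T` is in the real span of `h`). `S_L1`. Commutators of complex combinations are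
complex combinations of commutators of elements of `h`. -/
def S_At0 : Prop :=
  S_Bas → S_J0 → S_L1 → ∀ (T : AV) (m : ℕ) (D : Cyc T m), 3 ≤ m → ∀ h, HLie D h →
    ∀ s, D.p s = 1 → Irr D h s → Hits D h {s}

/-- AT ALL CHARACTERS. From `S_Bas`, `S_Dim`, `S_LI`, `S_Cl`. PROOF. There are `r² - 1` elements
`Y_j` of `Com h` which are linearly independent on `Ws s`; by `S_LI` (contrapositive) they are
linearly independent on `Ws t`, they lie in `sl(Ws t)`, of dimension `r² - 1`. -/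
def S_All : Prop :=
  S_Bas → S_Dim → S_LI → S_Cl → ∀ (T : AV) (m r : ℕ) (D : Cyc T m), 3 ≤ m → 2 ≤ r →
    2 * finrank ℂ T.V = r * Nat.totient m → ∀ h, HLie D h → ∀ s, Hits D h {s} →
    ∀ t, Hits D h {t}

/-- TWO CHARACTERS. From `S_Bas`, `S_Dim`, `S_LI`, `S_Cl`, `S_AdJ`, `S_Gou`. PROOF. Let
`P(σ,τ)` be the set of the pairs of restrictions of the elements of `gg h` to `Ws σ`, `Ws τ`.
Suppose `¬ Hits {s,t}`. `S_Gou`: `A|Ws s = 0 ↔ A|Ws t = 0` for `A ∈ gg h`, so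
`dim P(s,t) = r² - 1`. Hence any `r²` elements of `Com h` are linearly dependent on `Ws s` and
`Ws t` simultaneously, by `S_LI` on `Ws (ρ s)` and `Ws (ρ t)`, so `dim P(ρs, ρt) ≤ r² - 1 <
2 (r² - 1)`, so `¬ Hits {ρ s, ρ t}` and again `A|Ws (ρs) = 0 ↔ A|Ws (ρt) = 0`: `P(ρs,ρt)` is the
graph of an isomorphism `sl(Ws ρs) → sl(Ws ρt)`, which commutes with `ad (pre (mulI T))`
(`S_Cl`). The eigenspaces of `ad` for `2 i` have equal dimensions (`S_AdJ`):
`p(ρs) p(-ρs) = p(ρt) p(-ρt)` for all `ρ`. With `g = t s⁻¹`, `Aper`: `g = ± 1`. -/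
def S_Two : Prop :=
  S_Bas → S_Dim → S_LI → S_Cl → S_AdJ → S_Gou → ∀ (T : AV) (m r : ℕ) (D : Cyc T m), 3 ≤ m →
    2 ≤ r → 2 * finrank ℂ T.V = r * Nat.totient m → Aper D → ∀ h, HLie D h →
    (∀ s, Hits D h {s}) → ∀ s t, t ≠ s → t ≠ -s → Hits D h {s, t}

/-- ALL CHARACTERS TOGETHER (Ribet's lemma). From `S_Cl`, `S_Perf`. PROOF. `a ∈ F`. By induction
on the finite set `G ⊆ F \ {a}`: every traceless operator `A` of `Ws a` is the restriction of some
`C ∈ gg h` which vanishes on `Ws b` for `b ∈ G`. `G ∪ {b}`: `A = ∑ [A₁, A₂]` with `A₁, A₂`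
traceless (`S_Perf`), `C₁` for `A₁` and `G`, `C₂` (pairs) equal to `A₂` on `Ws a` and `0` on
`Ws b`: `[C₁, C₂]`. Sum over `a ∈ F`. -/
def S_Rib : Prop :=
  S_Cl → S_Perf → ∀ (T : AV) (m : ℕ) (D : Cyc T m), 3 ≤ m → ∀ h, HLie D h →
    (∀ s, Hits D h {s}) → (∀ s t, t ≠ s → t ≠ -s → Hits D h {s, t}) →
    ∀ F : Set (ZMod m)ˣ, (∀ s ∈ F, -s ∉ F) → Hits D h F

/-- TRACES. `X ∈ su_E` has trace `0` on every eigenspace. From `S_Pj`, `S_Bas`. PROOF. The trace
of `pre X` on `Ws s` is the trace of `pre X * pj s` on the forms, a combination of the traces of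
`pre (Z^k X)`; the trace of `pre Y` on the forms is the real trace of `Y` (basis dual to a real
basis of `T.V`). -/
def S_Tr : Prop :=
  S_Pj → S_Bas → ∀ (T : AV) (m : ℕ) (D : Cyc T m), 3 ≤ m → ∀ X, IsSU D X → ∀ s,
    ∃ A' : Module.End ℂ (Ws D s), LinearMap.trace ℂ (Ws D s) A' = 0 ∧
      ∀ a : Ws D s, pre X (a : Frm T) = (A' a : Frm T)

/-- REAL FORM. From `S_Bas`. If a complex combination `C` of the `pre Y`, `Y ∈ Y₀` (all `Y` in
`u_E`) agrees with `pre X`, `X` in `u_E`, on `Ws s` for a half system `F` of characters, then `X`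
is a real combination of elements of `Y₀`. PROOF. `ψ` gives a nondegenerate bilinear pairing `ψ'`
of the forms with `ψ'(pre Y a, b) = -ψ'(a, pre Y b)` and `ψ'(pre Z a, pre Z b) = ψ'(a,b)`, so
`Ws s` is orthogonal to `Ws t` for `t ≠ -s`. For `b ∈ Ws (-s)`, `s ∈ F`: `ψ'(a, C b) = -ψ'(C a, b)
= -ψ'(pre X a, b) = ψ'(a, pre X b)` for all `a ∈ Ws s`, and for the other eigenspaces both sides
are `0`. So `C = pre X`; with `C = ∑ c_j pre Y_j` and real valued forms: `X = ∑ Re(c_j) Y_j`. -/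
def S_Real : Prop :=
  S_Bas → ∀ (T : AV) (m : ℕ) (D : Cyc T m), 3 ≤ m → ∀ (Y₀ : Set (Module.End ℝ T.V))
    (X : Module.End ℝ T.V), (∀ Y ∈ Y₀, IsU D Y) → IsU D X → ∀ F : Set (ZMod m)ˣ,
    (∀ s, s ∈ F ∨ -s ∈ F) → ∀ C ∈ Submodule.span ℂ (pre '' Y₀),
    (∀ s ∈ F, ∀ a ∈ Ws D s, C a = pre X a) → X ∈ Submodule.span ℝ Y₀

/-- CONCLUSION. From `S_Bas`, `S_Tr`, `S_Real`. PROOF. A half system `F` exists (`-s ≠ s` as
`m ≥ 3`); `Com h` is in `u_E`. -/
def S_Fin : Prop :=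
  S_Bas → S_Tr → S_Real → ∀ (T : AV) (m : ℕ) (D : Cyc T m), 3 ≤ m → ∀ h, HLie D h →
    (∀ F : Set (ZMod m)ˣ, (∀ s ∈ F, -s ∉ F) → Hits D h F) → ∀ X, IsSU D X →
      X ∈ Submodule.span ℝ (Com h)

/-! ## From any Lie algebra to `HLie` -/

/-- Any set `h₀` of rational endomorphisms closed under commutators, with `mulI` in its real span,
can be replaced by an `HLie`. PROOF. `h` = the rational combinations of elements of `h₀` which
are in `u_E` (`IsU`). `mulI T = ∑ c_k Y_k` with `Y_k` rational combinations of elements of `h₀` and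
real numbers `c_k` linearly independent over `ℚ` (`S_Lb` of `HC/L`, or a basis of the `ℚ`-span of the
coefficients). `mulI` commutes with `Z` and is skew for `ψ` (`cpx`), so
`∑ c_k (Y_k Z - Z Y_k) = 0` and `∑ c_k (ψ(Y_k u, v) + ψ(u, Y_k v)) = 0` for `u, v ∈ L`; the
coefficients are rational (in a basis of `L`), so they vanish, and `L` spans `T.V` over `ℝ`: `Y_k ∈ h`.
The second statement: commutators of rational combinations. -/
def S_Hl : Prop :=
  ∀ (T : AV) (m : ℕ) (D : Cyc T m) (h₀ : Set (Module.End ℝ T.V)), (∀ X ∈ h₀, RatEnd T X) →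
    (∀ X ∈ h₀, ∀ Y ∈ h₀, X * Y - Y * X ∈ h₀) → mulI T ∈ Submodule.span ℝ h₀ →
    ∃ h, HLie D h ∧ ∀ Y ∈ Com h, Y ∈ Submodule.span ℝ (Com h₀)

/-! ## Existence of an invariant Riemann form -/

/-- AVERAGING. PROOF. `E'(u,v) = ∑_{k < m} E(Z^k u, Z^k v)`, `E` from `T.pol`; `Z^m = 1` because
`Φ_m` divides `X^m - 1`. -/
def S_Avg : Prop :=
  ∀ (T : AV) (m : ℕ), 1 ≤ m → ∀ Z : T.V →ₗ[ℂ] T.V, (∀ v ∈ T.L, Z v ∈ T.L) →
    Polynomial.aeval Z (Polynomial.cyclotomic m ℤ) = 0 → ∃ D : Cyc T m, D.Z = Z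

/-! ## A commutative Hodge Lie algebra: CM type -/

/-- A commutative `ℚ`-algebra of rational endomorphisms, stable under the adjoint for `ψ`, whose
real span contains the multiplication by `i`. -/
structure CAlg (D : Cyc T m) (A : Set (Module.End ℝ T.V)) : Prop where
  rat : ∀ X ∈ A, RatEnd T X
  one : 1 ∈ A
  add : ∀ X ∈ A, ∀ Y ∈ A, X + Y ∈ A
  mul : ∀ X ∈ A, ∀ Y ∈ A, X * Y ∈ A
  smul : ∀ q : ℚ, ∀ X ∈ A, (q : ℝ) • X ∈ A
  comm : ∀ X ∈ A, ∀ Y ∈ A, X * Y = Y * X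
  adj : ∀ X ∈ A, ∃ Y ∈ A, ∀ u v, D.ψ (X u) v = D.ψ u (Y v)
  J : mulI T ∈ Submodule.span ℝ A

/-- PROOF. `A` = the rational combinations of products of elements of `h` (`-X` is the adjoint of
`X ∈ h`). -/
def S_A1 : Prop :=
  ∀ (T : AV) (m : ℕ) (D : Cyc T m), IsAb D → ∃ A, CAlg D A

/-- EIGENFORMS. From `S_Hm`. PROOF. The elements of `A` commute with `mulI`, so
`ψ(i X u, v) = ψ(i u, Y v)` if `Y` is the adjoint of `X`. `H` as in `S_Hm`:
`χ(X) H z z = H (pre X z) z = H z (pre Y z) = conj(χ(Y)) H z z`. `mulI` is a real combination of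
elements of `A`, so `pre (mulI T) z = c z`, `c² = -1`. -/
def S_A2 : Prop :=
  ∀ (T : AV) (m : ℕ) (D : Cyc T m) (A : Set (Module.End ℝ T.V)), CAlg D A → ∀ (z : Frm T)
    (χ : Module.End ℝ T.V → ℂ), z ≠ 0 → (∀ X ∈ A, pre X z = χ X • z) →
    (∀ X ∈ A, ∀ Y ∈ A, (∀ u v, D.ψ (X u) v = D.ψ u (Y v)) → χ Y = (starRingEnd ℂ) (χ X)) ∧
    ((∀ v, z (Complex.I • v) = Complex.I * z v) ∨ ∀ v, z (Complex.I • v) = -Complex.I * z v)

/-- STRUCTURE. PROOF. `Λ` = the `ℚ`-span of `L` in `T.V`, finite dimensional over `ℚ` (basis: a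
`ℤ`-basis of `L`); `A` acts faithfully on `Λ` (`L` spans `T.V` over `ℝ`), so it is a finite
dimensional commutative `ℚ`-algebra. It is reduced: let `X² = 0`, `Y` the adjoint of `X` (also for
`S(u,v) = ψ(i u, v)`, since `A` commutes with `mulI`), `W = X Y`: `W` is selfadjoint, `W² = 0`, so
`S(W u, W u) = 0`, `W = 0`, `S(X u, X u) = S(u, Y X u) = 0`, `X = 0`. So `A` is semisimple
(Artinian and reduced), `Λ` is a direct sum of simple modules, which are `≅ A / 𝔪_k = E_k`, a number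
field; `y_k` the coordinates, `π_k : A → A / 𝔪_k` (`π_k X = 0` for `X ∉ A`). -/
def S_A3 : Prop :=
  ∀ (T : AV) (m : ℕ) (D : Cyc T m) (A : Set (Module.End ℝ T.V)), CAlg D A →
    ∃ (n : ℕ) (E : Fin n → Type) (_ : ∀ k, Field (E k)) (_ : ∀ k, NumberField (E k))
      (y : ∀ k, T.L →+ E k) (π : ∀ k, Module.End ℝ T.V → E k),
      (∀ k, ∀ X ∈ A, ∀ (v w : T.L) (N : ℕ), (w : T.V) = N • X (v : T.V) →
        y k w = N * π k X * y k v) ∧
      (∀ v, (∀ k, y k v = 0) → v = 0) ∧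
      (∀ x : ∀ k, E k, ∃ (N : ℕ) (v : T.L), N ≠ 0 ∧ ∀ k, y k v = N * x k) ∧
      ∀ k (x : E k), ∃ X ∈ A, π k X = x

/-- A COMMUTATIVE HODGE LIE ALGEBRA GIVES CM TYPE. From `S_A1`, `S_A2`, `S_A3`. PROOF. `S_A3`. For
`φ : E_k →+* ℂ` let `z = z_(k,φ)` be the form with `z(v) = φ(y_k v)` for `v ∈ L`; these forms are a
basis of `Frm T` (their number is `∑ [E_k : ℚ] =` rank of `L`; independent: `ℚ`-bases of the `E_k`,
the matrix of the embeddings is invertible; or Dedekind). `pre X z = φ(π_k X) z`. `S_A2`: `z` is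
complex linear or antilinear; `conj z_(k,φ) = z_(k, conj φ)`: `Φ_k = {φ | z_(k,φ) complex linear}`
satisfies `IsType`. `φ(π_k Y) = conj φ(π_k X)` if `Y` is the adjoint of `X`: `π_k X ↦ π_k Y` is an
automorphism of `E_k` which is the complex conjugation for every `φ`, and no `φ` is real, so `E_k` is
a CM field (Mathlib: `NumberField.IsCMField.of_forall_isConj` or similar). The `z_(k,φ)`, `φ ∈ Φ_k`,
give a complex linear bijection `T.V → ∏_(k,φ∈Φ_k) ℂ` (injective: if they vanish at `v`, all forms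
vanish at `v`; count dimensions). `isCM_of_isCMI` in `HC/L/E/Cm.lean` may help. -/
def S_A4 : Prop :=
  S_A1 → S_A2 → S_A3 → ∀ (T : AV) (m : ℕ) (D : Cyc T m), IsAb D → IsCM T

end SEB
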