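import Pool.Agent.Lib.SE.Big.VG

/-!
# PROJECT SE, module IsBig, part 4: very general real branch points, all signatures (helper64)

Instead of a character with signature `(1, r - 1)`: one character `u` with `p, q ≥ 1` and `p ≠ q` (or
`r = 2`). For `s` outside a meagre set the Lie algebra `g` generated on `ℂ^r ≅ Ws u` by the operators
of a `ℚ`-Lie algebra `h ∋ J(s)` is constant near `s`, so it contains the derivatives of `J(s)`, which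
are sums of rank one operators (`Key`), and `R1N`.

Every module: file `SE/Big/Xyz.lean`, `theorem tXyz : S_Xyz`, import `Pool.Agent.Lib.SE.Big.VG2` and the
proved modules `SE/Big/*.lean` you want to use. If the docstring says `From S_A, S_B` and these are
not hypotheses in the statement itself, the theorem is `tXyz : S_A → S_B → S_Xyz`.
-/

set_option autoImplicit false

open Module MeasureTheory Topology

noncomputable section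

namespace SEB

open HC HC.E HC.SE

/-! ## Algebra -/

/-- RANK ONE NILPOTENTS. `x ⊗ φ` stands for `v ↦ φ(v) x`. PROOF. Scale: `φ y = ψ x = 1`; `φ x = ψ y = 0`
(`φ(J x) = i φ x = -i φ x`). `e = x ⊗ φ`, `f = y ⊗ ψ`, `h = [e,f] = x ⊗ ψ - y ⊗ φ`. `V₀ = ker φ ∩ ker ψ`,
`V = ℂx ⊕ ℂy ⊕ V₀`, `h = 1, -1, 0` on the summands; the components of `X ∈ g` for the eigenvalues
`2, 1, 0, -1, -2` of `ad h` are in `g`; they are: `c e`; `x ⊗ α + v ⊗ φ`; `c₁ x ⊗ ψ + c₂ y ⊗ φ + Y`,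
`Y ∈ End V₀`; `y ⊗ α + v ⊗ ψ`; `c f`, with `v ∈ V₀`, `α ∈ V₀* = {α | α x = α y = 0}`.
(1) For every `v ∈ V₀` there is `α ∈ V₀*` with `x ⊗ α + v ⊗ φ ∈ g`: let `N` be the space of these `v`;
`ℂx ⊕ ℂy ⊕ N` is stable under `g` (weight `0`: `[X₀, x ⊗ α + v ⊗ φ]` has `v`-part `Y v - c₂ v`; weight
`-1`: `[e, y ⊗ α + v ⊗ ψ] = x ⊗ α - v ⊗ φ`), so it is `V`. (1') For every `α ∈ V₀*` there is `v`: the
common kernel in `V₀` of these `α` is stable and does not contain `x`, so it is `0`.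
(2) If `x ⊗ α ∈ g` for some `α ≠ 0` in `V₀*`: `y ⊗ α = [f, x ⊗ α] ∈ g`; for `x ⊗ β + v ⊗ φ ∈ g`:
`[x ⊗ β + v ⊗ φ, y ⊗ α] = v ⊗ α - α(v) y ⊗ φ`, and the bracket of this with `x ⊗ β' + w ⊗ φ ∈ g` is
`α(w) v ⊗ φ - β'(v) x ⊗ α + α(v) w ⊗ φ`; so `α(w) v ⊗ φ + α(v) w ⊗ φ ∈ g` for all `v, w ∈ V₀`, hence (a
`w` with `α(w) = 1`) all `v ⊗ φ ∈ g`, and with (1') all `x ⊗ α ∈ g`. (2') If `v ⊗ φ ∈ g` for some
`v ≠ 0`: `[f, v ⊗ φ] = -v ⊗ ψ`, `[x ⊗ β + w ⊗ φ, v ⊗ ψ] = β(v) x ⊗ ψ - v ⊗ β`, and the bracket of this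
with `x ⊗ β' + w' ⊗ φ` is `β(v) x ⊗ β' + β'(v) x ⊗ β - β(w') v ⊗ φ`: all `x ⊗ β ∈ g`, and with (1) all
`v ⊗ φ ∈ g`.
(3) If neither happens (and `V₀ ≠ 0`) there is a linear injective `τ : V₀ → V₀*` with
`x ⊗ τ(v) + v ⊗ φ ∈ g`, `τ(v)` unique. `[J, ·]` and uniqueness:
`τ(J v - i v) = -i τ(v) - τ(v) ∘ J`. For `J v = i v`: `τ(v) ∘ J = -i τ(v)`, so `τ(v)` vanishes on
`V₀⁺ = V₀ ∩ ker (J - i)`; for `J v = -i v` it vanishes on `V₀⁻`. So `dim V₀⁺ = dim V₀⁻`; these are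
`p - 1` and `q - 1`: contradiction to `p ≠ q`; if `dim V = 2` then `V₀ = 0`.
(4) So all `x ⊗ φ`, `y ⊗ ψ`, `h`, `x ⊗ α`, `v ⊗ φ`, `y ⊗ α = [f, x ⊗ α]`, `v ⊗ ψ = -[f, v ⊗ φ]`,
`[v ⊗ φ, y ⊗ α] = v ⊗ α - α(v) y ⊗ φ` are in `g`; they span the traceless operators, and
`[sl, sl] = sl` (`S_Perf`, or directly). -/
def S_R1N : Prop :=
  ∀ (V : Type) [AddCommGroup V] [Module ℂ V] [FiniteDimensional ℂ V]
    (g : Submodule ℂ (Module.End ℂ V)) (J : Module.End ℂ V) (x y : V) (φ ψ : Module.Dual ℂ V),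
    (∀ X ∈ g, ∀ Y ∈ g, X * Y - Y * X ∈ g) → J ∈ g → J * J = -1 →
    J x = -Complex.I • x → J y = Complex.I • y →
    (∀ v, φ (J v) = Complex.I * φ v) → (∀ v, ψ (J v) = -Complex.I * ψ v) →
    φ y ≠ 0 → ψ x ≠ 0 → φ.smulRight x ∈ g → ψ.smulRight y ∈ g →
    (∀ U : Submodule ℂ V, (∀ X ∈ g, ∀ u ∈ U, X u ∈ U) → U = ⊥ ∨ U = ⊤) →
    (finrank ℂ (LinearMap.ker (J - Complex.I • (1 : Module.End ℂ V))) ≠
      finrank ℂ (LinearMap.ker (J + Complex.I • (1 : Module.End ℂ V))) ∨ finrank ℂ V = 2) →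
    ∀ X : Module.End ℂ V, LinearMap.trace ℂ V X = 0 →
      X ∈ Submodule.span ℂ {Y | ∃ A ∈ g, ∃ B ∈ g, Y = A * B - B * A}

/-! ## Period vectors -/

/-- The numerators of the exponents at the character `u`. -/
def nn (m : ℕ) {r : ℕ} (b : Fin (r + 1) → ℕ) (u : ℕ) (j : Fin (r + 1)) : ℕ := m - (u * b j) % m

/-- The exponents at the character `u`. -/
def mu (m : ℕ) {r : ℕ} (b : Fin (r + 1) → ℕ) (u : ℕ) (j : Fin (r + 1)) : ℝ := (nn m b u j : ℝ) / m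

/-- The constants of the loops. -/
def kap (m : ℕ) {r : ℕ} (b : Fin (r + 1) → ℕ) (u : ℕ) (k : Fin r) : ℂ :=
  (1 - (Complex.exp (2 * Real.pi * Complex.I / m) ^ nn m b u k.castSucc)⁻¹) *
    (1 - (Complex.exp (2 * Real.pi * Complex.I / m) ^ nn m b u k.succ)⁻¹) *
    (Complex.exp (Real.pi * Complex.I / m) ^
      (∑ j ∈ Finset.univ.filter (fun j : Fin (r + 1) => k.val + 1 ≤ j.val), nn m b u j))⁻¹

/-- The period vector of `f(x) y^u dx / ∏ (x - s_j)^(1 + ⌊u b_j/m⌋)`. -/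
def Pv (m : ℕ) {r : ℕ} (b : Fin (r + 1) → ℕ) (u : ℕ) (s : Fin (r + 1) → ℝ) (f : Polynomial ℂ) :
    Fin r → ℂ :=
  fun k => kap m b u k *
    ∫ x in (s k.castSucc)..(s k.succ), ((wt (mu m b u) s x : ℝ) : ℂ) * f.eval (x : ℂ)

/-- The real points `s`, the numbers `b_j` and the character `u` are admissible. -/
def Adm (m : ℕ) {r : ℕ} (b : Fin (r + 1) → ℕ) (u : ℕ) (s : Fin (r + 1) → ℝ) : Prop :=
  StrictMono s ∧ IsCov m (fun j => (s j : ℂ)) b ∧ u < m ∧ u.Coprime m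

/-- THE CONSTANTS. PROOF. `1 ≤ nn < m` (`m ∤ u b_j`); roots of unity. -/
def S_Kap : Prop :=
  ∀ (m r : ℕ) (b : Fin (r + 1) → ℕ) (u : ℕ) (s : Fin (r + 1) → ℝ), Adm m b u s →
    (∀ j, 1 ≤ nn m b u j ∧ nn m b u j < m ∧ nn m b (m - u) j = m - nn m b u j) ∧
    Exq (mu m b u) ∧ (∀ n : ℤ, ∑ j, mu m b u j ≠ n) ∧
    ∀ k, kap m b u k ≠ 0 ∧ IsAlgebraic ℚ (kap m b u k)

/-- LINEARITY AND INDEPENDENCE. From `S_Kap`, `S_Wt`, `S_Mom`. PROOF. Integrability: `S_Wt`. For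
`deg f < r` and `Pv f = 0`: `∑_d f_d ∫_(s_k)^(s_(k+1)) w x^d = 0` for all `k`; the square matrix
`M_(dk)` is invertible by `S_Mom`. -/
def S_Pv : Prop :=
  ∀ (m r : ℕ) (b : Fin (r + 1) → ℕ) (u : ℕ) (s : Fin (r + 1) → ℝ), Adm m b u s →
    (∀ f g, Pv m b u s (f + g) = Pv m b u s f + Pv m b u s g) ∧
    (∀ (c : ℂ) (f : Polynomial ℂ), Pv m b u s (Polynomial.C c * f) = c • Pv m b u s f) ∧
    ∀ f : Polynomial ℂ, f.degree < (r : WithBot ℕ) → Pv m b u s f = 0 → f = 0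

/-- The derivative of `f w` along the vector field `a`, divided by `w`. -/
def Th (m : ℕ) {r : ℕ} (b : Fin (r + 1) → ℕ) (u : ℕ) (s : Fin (r + 1) → ℝ) (a f : Polynomial ℂ) :
    Polynomial ℂ :=
  Polynomial.derivative f * a + f * (Polynomial.derivative a -
    ∑ j, Polynomial.C ((mu m b u j : ℝ) : ℂ) * (a /ₘ (Polynomial.X - Polynomial.C (s j : ℂ))))

/-- DERIVATIVE OF THE PERIOD VECTORS. From `S_Kap`, `S_Wt`, `S_Sub`. PROOF. As `S_Der` (SE/Big/Der.lean)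
with the additional factor `f(t + ε a(t))`: the proof of `S_Sub` gives
`∫ w_(s+εa)(x) f(x) dx = ∫ w_s(t) F(ε,t) f(t + ε a(t)) dt`; differentiate at `ε = 0`. (`Pv` is linear
in `f`.) -/
def S_PvD : Prop :=
  ∀ (m r : ℕ) (b : Fin (r + 1) → ℕ) (u : ℕ) (s : Fin (r + 1) → ℝ), Adm m b u s →
    ∀ (a : Polynomial ℝ) (f : Polynomial ℂ),
    HasDerivAt (fun ε : ℝ => Pv m b u (fun j => s j + ε * a.eval (s j)) f)
      (Pv m b u s (Th m b u s (a.map (algebraMap ℝ ℂ)) f)) 0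

/-- CONTINUITY OF THE PERIOD VECTORS. From `S_Kap`, `S_Wt`. PROOF. As `S_Con` (SE/Big/Ctn.lean) with the
additional factor. -/
def S_PvC : Prop :=
  ∀ (m r : ℕ) (b : Fin (r + 1) → ℕ) (u : ℕ) (f : Polynomial ℂ),
    ContinuousOn (fun s : Fin (r + 1) → ℝ => Pv m b u s f) {s | Adm m b u s}

/-- EXACT FORMS. From `S_Kap`, `S_Wt`. PROOF. `Q = ∏ (x - s_j)`: `w · Th Q f = (f Q w)'` on the open
intervals (`Q /ₘ (X - s_j) = Q / (x - s_j)`, `w' = -w ∑ μ_j / (x - s_j)`), `f Q w` is continuous and `0`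
at the `s_j` (`|x - s_j|^(1 - μ_j) → 0`); fundamental theorem of calculus. -/
def S_PvE : Prop :=
  ∀ (m r : ℕ) (b : Fin (r + 1) → ℕ) (u : ℕ) (s : Fin (r + 1) → ℝ), Adm m b u s →
    ∀ f : Polynomial ℂ,
      Pv m b u s (Th m b u s (∏ j, (Polynomial.X - Polynomial.C (s j : ℂ))) f) = 0

/-! ## The operator `J` -/

/-- The period vectors of the forms of type `(1,0)` and the conjugates of those of the character `-u`
are linearly independent. -/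
def ND (m : ℕ) {r : ℕ} (b : Fin (r + 1) → ℕ) (u : ℕ) (s : Fin (r + 1) → ℝ) : Prop :=
  ∀ f g : Polynomial ℂ, f.degree < (sg m r b u : WithBot ℕ) →
    g.degree < (sg m r b (m - u) : WithBot ℕ) →
    Pv m b u s f + star (Pv m b (m - u) s g) = 0 → f = 0 ∧ g = 0

/-- `J` is the multiplication by `i` in the coordinates of the period vectors. -/
def IsJ (m : ℕ) {r : ℕ} (b : Fin (r + 1) → ℕ) (u : ℕ) (s : Fin (r + 1) → ℝ)
    (J : Module.End ℂ (Fin r → ℂ)) : Prop :=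
  (∀ f : Polynomial ℂ, f.degree < (sg m r b u : WithBot ℕ) →
    J (Pv m b u s f) = Complex.I • Pv m b u s f) ∧
  ∀ g : Polynomial ℂ, g.degree < (sg m r b (m - u) : WithBot ℕ) →
    J (star (Pv m b (m - u) s g)) = -Complex.I • star (Pv m b (m - u) s g)

/-- EXISTENCE AND PROPERTIES OF `J`. From `S_Pv`, `S_Sg`. PROOF. `sg u + sg (m - u) = r` (`S_Sg`) and
`ND`: the vectors `Pv X^i` (`i < sg u`) and `star (Pv' X^l)` (`l < sg (m - u)`) are a basis. -/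
def S_Jx : Prop :=
  ∀ (m r : ℕ) (b : Fin (r + 1) → ℕ) (u : ℕ) (s : Fin (r + 1) → ℝ), Adm m b u s → ND m b u s →
    ∃ J, IsJ m b u s J ∧ (∀ J', IsJ m b u s J' → J' = J) ∧ J * J = -1 ∧
      (∀ v, J v = Complex.I • v ↔
        ∃ f : Polynomial ℂ, f.degree < (sg m r b u : WithBot ℕ) ∧ v = Pv m b u s f) ∧
      (∀ v, J v = -Complex.I • v ↔ ∃ g : Polynomial ℂ,
        g.degree < (sg m r b (m - u) : WithBot ℕ) ∧ v = star (Pv m b (m - u) s g)) ∧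
      finrank ℂ (LinearMap.ker (J - Complex.I • (1 : Module.End ℂ (Fin r → ℂ)))) = sg m r b u ∧
      finrank ℂ (LinearMap.ker (J + Complex.I • (1 : Module.End ℂ (Fin r → ℂ)))) =
        sg m r b (m - u)

/-- `D` is the derivative of `J` along the vector field `a`. -/
def IsDJ (m : ℕ) {r : ℕ} (b : Fin (r + 1) → ℕ) (u : ℕ) (s : Fin (r + 1) → ℝ)
    (J : Module.End ℂ (Fin r → ℂ)) (a : Polynomial ℝ) (D : Module.End ℂ (Fin r → ℂ)) : Prop :=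
  (∀ f : Polynomial ℂ, f.degree < (sg m r b u : WithBot ℕ) → D (Pv m b u s f) =
    Complex.I • Pv m b u s (Th m b u s (a.map (algebraMap ℝ ℂ)) f) -
      J (Pv m b u s (Th m b u s (a.map (algebraMap ℝ ℂ)) f))) ∧
  ∀ g : Polynomial ℂ, g.degree < (sg m r b (m - u) : WithBot ℕ) →
    D (star (Pv m b (m - u) s g)) =
      -Complex.I • star (Pv m b (m - u) s (Th m b (m - u) s (a.map (algebraMap ℝ ℂ)) g)) -
        J (star (Pv m b (m - u) s (Th m b (m - u) s (a.map (algebraMap ℝ ℂ)) g)))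

/-- THE RANK ONE OPERATORS at the point `s_j`: for the polynomial `a = a_j` with `a_j(s_l) = δ_(jl)`,
`deg a_j = r`: there is `ξ_j` with `J ξ_j = -i ξ_j` and `D Pv(f) = f(s_j) ξ_j`, and any `q = sg (m - u)`
of the `ξ_j` are linearly independent. From `S_Pv`, `S_PvE`, `S_Jx`, `S_Kap`. PROOF. `Q = ∏ (x - s_l)`,
`c = 1/Q'(s_j)`, `a_j = c Q / (x - s_j)`. For `f = f(s_j) + (x - s_j) f₁`, `deg f < p = sg u`:
`Th a_j ((x - s_j) f₁) = c Th Q f₁ + μ_j f₁` (`(x - s_j) a_j = c Q`; `a_j /ₘ (x - s_l) = a_j / (x - s_l)` for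
`l ≠ j`, `(x - s_j) (a_j /ₘ (x - s_j)) = a_j - 1`). So `Pv (Th a_j ((x - s_j) f₁)) = μ_j Pv f₁` (`S_PvE`), of
type `i` (`deg f₁ < p`), killed by `i - J`. `ξ_j = (i - J) Pv (Th a_j 1)`, `J ξ_j = -i ξ_j` as
`J² = -1`. Independence: `∑_(j ∈ S) c_j ξ_j = 0`, `|S| = q`; `a = ∑ c_j a_j`: `(i - J) Pv (Th a 1) = 0`, so
`Pv (Th a 1) = Pv f`, `deg f < p`; `Th a 1 = a' - ∑ μ_l (a /ₘ (x - s_l))` has degree `≤ r - 1`, `Pv` is
injective on degree `< r`: `deg (Th a 1) < p`. If `a ≠ 0`: `deg a ≥ r + 1 - q = p + 1` (zeros), the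
leading coefficient of `Th a 1` is `(deg a - ∑ μ_l) lc(a) ≠ 0`, so its degree is `deg a - 1 ≥ p`:
contradiction. So `a = 0`, `c_j = a(s_j) = 0`. -/
def S_Rk1 : Prop :=
  ∀ (m r : ℕ) (b : Fin (r + 1) → ℕ) (u : ℕ) (s : Fin (r + 1) → ℝ), Adm m b u s → ND m b u s →
    ∀ J, IsJ m b u s J → ∃ ξ : Fin (r + 1) → (Fin r → ℂ), (∀ j, J (ξ j) = -Complex.I • ξ j) ∧
      (∀ j, ∃ a : Polynomial ℝ, ∀ f : Polynomial ℂ, f.degree < (sg m r b u : WithBot ℕ) →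
        Complex.I • Pv m b u s (Th m b u s (a.map (algebraMap ℝ ℂ)) f) -
          J (Pv m b u s (Th m b u s (a.map (algebraMap ℝ ℂ)) f)) = f.eval (s j : ℂ) • ξ j) ∧
      ∀ c : Fin (r + 1) → ℂ, (Finset.univ.filter fun j => c j ≠ 0).card ≤ sg m r b (m - u) →
        ∑ j, c j • ξ j = 0 → c = 0

/-- KEY. From `S_R1N`, `S_Sg`, `S_Pv`, `S_Jx`, `S_Rk1`. PROOF. `p = sg u`, `q = sg (m - u)`, `p + q = r`.
`S_Rk1` for `u`: for `D = D_(a_j) ∈ g`: `A_j = (D + (i/2)[J, D])/2 ∈ g` is `D` on the eigenspace `W⁺` of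
`i` and `0` on the eigenspace `W⁻` of `-i` (`D` exchanges them): `A_j = φ_j(·) ξ_j`,
`φ_j(Pv f) = f(s_j)`, `φ_j(W⁻) = 0`. `S_Rk1` for `m - u` (its hypotheses: `ND` and `IsJ` for `m - u` with the
operator `J' v = star (J (star v))`) gives in the same way `B_k = ψ_k(·) η_k ∈ g`, `J η_k = i η_k`,
`ψ_k(star (Pv' g)) = conj(g(s_k))`, `ψ_k(W⁺) = 0`, any `p` of the `η_k` independent. IRREDUCIBLE: let
`U ≠ 0` be stable under `g ∋ J`, so `U = U⁺ ⊕ U⁻`. If `0 ≠ Pv f ∈ U⁺`: `f` has at most `p - 1` zeros, so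
`ξ_j ∈ U` for at least `r + 1 - (p - 1) = q + 2` indices: `W⁻ ⊆ U`. If `0 ≠ star (Pv' g) ∈ U⁻`: in the
same way `W⁺ ⊆ U`. As `p, q ≥ 1`: `U = V`. CHOICE: `k` any; `η_k = Pv f ≠ 0`, `f(s_j) ≠ 0` for at least
`q + 2` indices `j`; `ψ_k(ξ_j) = 0` for at most `q - 1` indices `j` (`q` of the `ξ_j` span `W⁻`,
`ψ_k ≠ 0`); so there is `j` with `φ_j(η_k) ≠ 0`, `ψ_k(ξ_j) ≠ 0`. `S_R1N` with `x = ξ_j`, `y = η_k`. -/
def S_Key : Prop :=
  ∀ (m r : ℕ) (b : Fin (r + 1) → ℕ) (u : ℕ) (s : Fin (r + 1) → ℝ), Adm m b u s → ND m b u s →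
    0 < sg m r b u → 0 < sg m r b (m - u) → (sg m r b u ≠ sg m r b (m - u) ∨ r = 2) →
    ∀ (g : Submodule ℂ (Module.End ℂ (Fin r → ℂ))) (J : Module.End ℂ (Fin r → ℂ)),
    (∀ X ∈ g, ∀ Y ∈ g, X * Y - Y * X ∈ g) → IsJ m b u s J → J ∈ g →
    (∀ a : Polynomial ℝ, ∃ D ∈ g, IsDJ m b u s J a D) →
    ∀ X : Module.End ℂ (Fin r → ℂ), LinearMap.trace ℂ _ X = 0 →
      X ∈ Submodule.span ℂ {Y | ∃ A ∈ g, ∃ B ∈ g, Y = A * B - B * A}

/-- DERIVATIVE OF `J`. From `S_Pv`, `S_PvD`, `S_Jx`. PROOF. For small real `ε`, `s_ε = s + ε a(s) ∈ U`;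
`J_ε` its operator: `J_ε = M_ε Δ M_ε⁻¹`, `M_ε` the matrix with the columns `Pv X^i`, `star (Pv' X^l)` at
`s_ε`, differentiable at `ε = 0` (`S_PvD`), invertible (`ND`), `Δ = diag(i, -i)`. So `J_ε` is
differentiable at `0`; `D` = its derivative is in `g` (closed; difference quotients). Differentiate
`J_ε Pv_ε f = i Pv_ε f` and `J_ε star (Pv'_ε g) = -i star (Pv'_ε g)`. -/
def S_Dj : Prop :=
  ∀ (m r : ℕ) (b : Fin (r + 1) → ℕ) (u : ℕ) (U : Set (Fin (r + 1) → ℝ)), IsOpen U →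
    (∀ s ∈ U, Adm m b u s ∧ ND m b u s) → ∀ g : Submodule ℂ (Module.End ℂ (Fin r → ℂ)),
    (∀ s ∈ U, ∀ J, IsJ m b u s J → J ∈ g) → ∀ s ∈ U, ∀ J, IsJ m b u s J →
    ∀ a : Polynomial ℝ, ∃ D ∈ g, IsDJ m b u s J a D

/-- CLOSEDNESS. From `S_Pv`, `S_PvC`, `S_Jx`. PROOF. `Adm` is an open condition on `s` (it is
`StrictMono s` and conditions on `m, b, u`); `ND` is `det M(s) ≠ 0`, continuous; `J(s) = M Δ M⁻¹` is
continuous on this open set `O`, `g` is closed, so `{s ∈ O | J(s) ∈ g} = O ∩ C`, `C` closed. -/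
def S_Cj : Prop :=
  ∀ (m r : ℕ) (b : Fin (r + 1) → ℕ) (u : ℕ),
    IsOpen {s : Fin (r + 1) → ℝ | Adm m b u s ∧ ND m b u s} ∧
    ∀ g : Submodule ℂ (Module.End ℂ (Fin r → ℂ)), ∃ C : Set (Fin (r + 1) → ℝ), IsClosed C ∧
      ∀ s, Adm m b u s → ND m b u s → (s ∈ C ↔ ∀ J, IsJ m b u s J → J ∈ g)

/-- A bad Lie algebra: spanned by operators with algebraic matrix entries, closed under brackets,
whose brackets do not span the traceless operators. -/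
def Bad {r : ℕ} (g : Submodule ℂ (Module.End ℂ (Fin r → ℂ))) : Prop :=
  (∃ (n : ℕ) (X : Fin n → Module.End ℂ (Fin r → ℂ)),
    (∀ i k l, IsAlgebraic ℚ (X i (Pi.single k 1) l)) ∧ g = Submodule.span ℂ (Set.range X)) ∧
  (∀ X ∈ g, ∀ Y ∈ g, X * Y - Y * X ∈ g) ∧
  ∃ Y : Module.End ℂ (Fin r → ℂ), LinearMap.trace ℂ _ Y = 0 ∧
    Y ∉ Submodule.span ℂ {Y | ∃ A ∈ g, ∃ B ∈ g, Y = A * B - B * A}

/-- BAIRE. From `S_Jx`, `S_Key`, `S_Dj`, `S_Cj`. PROOF. There are countably many bad `g` (a matrix has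
finitely many entries, the algebraic numbers are countable). For each, `{s | Adm, ND, J(s) ∈ g}` is
`O ∩ C` (`S_Cj`); if it contained a nonempty open set, `S_Dj` and `S_Key` would contradict `Bad g`; so
it is nowhere dense. -/
def S_Ba2 : Prop :=
  ∀ (m r : ℕ) (b : Fin (r + 1) → ℕ) (u : ℕ), 0 < sg m r b u → 0 < sg m r b (m - u) →
    (sg m r b u ≠ sg m r b (m - u) ∨ r = 2) →
    IsMeagre {s : Fin (r + 1) → ℝ | Adm m b u s ∧ ND m b u s ∧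
      ∃ g, Bad g ∧ ∃ J ∈ g, IsJ m b u s J}

/-! ## Loops with a polynomial factor -/

/-- `Ak` with the factor `f`. -/
def AkF (m : ℕ) {r : ℕ} (s : Fin (r + 1) → ℝ) (n : Fin (r + 1) → ℕ) (f : Polynomial ℂ) (x₀ h : ℝ)
    (k : Fin (r + 1)) : ℂ :=
  (∫ t in x₀..(s k), f.eval (t + h * Complex.I : ℂ) * (yk m s n 0 (t + h * Complex.I))⁻¹) -
    Complex.I * ∫ y in (0 : ℝ)..h,
      f.eval (s k + y * Complex.I : ℂ) * (yk m s n 0 (s k + y * Complex.I))⁻¹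

/-- `S_Ca` with the factor `f`. From `S_Br`. PROOF. As `S_Ca` (SE/Big/Ca.lean). -/
def S_CaF : Prop :=
  ∀ (m r : ℕ) (s : Fin (r + 1) → ℝ) (n : Fin (r + 1) → ℕ) (f : Polynomial ℂ), 1 ≤ m →
    StrictMono s → (∀ j, 1 ≤ n j ∧ n j < m) → ∀ (x₀ h : ℝ) (c : ℕ → ℝ), 0 < h →
    (∀ k ≤ r + 1, c k ∈ Gp s k) → ∀ k : Fin (r + 1),
      let β : ℕ → ℂ := fun j => Pth (fun x => f.eval x * (yk m s n j x)⁻¹) x₀ h (c j)
      let z : ℂ := (Complex.exp (2 * Real.pi * Complex.I / m) ^ n k)⁻¹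
      β k - z * β (k + 1) = (1 - z) * AkF m s n f x₀ h k

/-- `S_Cb` with the factor `f`. From `S_Br`. PROOF. As `S_Cb` (SE/Big/Cb.lean). -/
def S_CbF : Prop :=
  ∀ (m r : ℕ) (s : Fin (r + 1) → ℝ) (n : Fin (r + 1) → ℕ) (f : Polynomial ℂ), 1 ≤ m →
    StrictMono s → (∀ j, 1 ≤ n j ∧ n j < m) → ∀ (x₀ h : ℝ), 0 < h → ∀ k : Fin r,
      AkF m s n f x₀ h k.succ - AkF m s n f x₀ h k.castSucc =
        (Complex.exp (Real.pi * Complex.I / m) ^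
          (∑ j ∈ Finset.univ.filter (fun j : Fin (r + 1) => k.val + 1 ≤ j.val), n j))⁻¹ *
          ∫ x in (s k.castSucc)..(s k.succ),
            ((wt (fun j => (n j : ℝ) / m) s x : ℝ) : ℂ) * f.eval (x : ℂ)

/-- THE LOOPS `v_k`. From `S_Br`, `S_Lat`, `S_CaF`, `S_CbF`. PROOF. As `S_Loop` (SE/Big/Loop.lean); the
elements of `S_Lat` do not depend on `B`. -/
def S_LoopF : Prop :=
  ∀ (T : AV) (m r : ℕ) (s : Fin (r + 1) → ℝ) (b : Fin (r + 1) → ℕ), StrictMono s →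
    IsCov m (fun j => (s j : ℂ)) b → ∀ (N : New T m (fun j => (s j : ℂ)) b),
    ∃ v : Fin r → T.V, (∀ k, v k ∈ T.L) ∧ ∀ u < m, u.Coprime m → ∀ (f : Polynomial ℂ)
      (B : T.V →ₗ[ℂ] ℂ), (∀ w, B (N.Z w) = Complex.exp (2 * Real.pi * Complex.I / m) ^ u * B w) →
      (∀ x ∉ N.γ.S, ∀ y, N.γ.P (x, y) = 0 →
        B (N.γ.ω x y) = f.eval x * y ^ u / ∏ j, (x - (s j : ℂ)) ^ (1 + u * b j / m)) →
      ∀ k, B (v k) = Pv m b u s f k

/-! ## Transfer to `T` -/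

/-- `E`-BASIS. PROOF. `Per_aux.in_span` in SE/Big/Per.lean gives the second statement (for
`X (v k) ∈ ℚ L`) and also `N w = ∑ (a_j)(Z) v_j` for every `w ∈ L`; so a form `a ∈ Ws D u` with
`a(v_k) = 0` vanishes on `L`, which spans `T.V` over `ℝ`. -/
def S_EB : Prop :=
  ∀ (T : AV) (m r : ℕ) (D : Cyc T m), 3 ≤ m → 1 ≤ r → 2 * finrank ℂ T.V = r * Nat.totient m →
    ∀ (u₀ : (ZMod m)ˣ), ∀ B ∈ Ws D u₀, ∀ v : Fin r → T.V, (∀ k, v k ∈ T.L) →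
    AInd (fun k => B (v k)) →
    (∀ u, ∀ a ∈ Ws D u, (∀ k, a (v k) = 0) → a = 0) ∧
    ∀ X : Module.End ℝ T.V, RatEnd T X → (∀ w, X (D.Z w) = D.Z (X w)) →
      ∃ (N : ℤ) (x : Fin r → Fin r → Polynomial ℤ), N ≠ 0 ∧
        ∀ k, N • X (v k) = ∑ j, (Polynomial.aeval D.Z (x k j)) (v j)

/-- HODGE DECOMPOSITION IN COORDINATES. From `S_Sg`, `S_Bas`, `S_Pnew`, `S_Bf`, `S_Pv`. PROOF. The forms
`B_(u,i)` of `New.dif` for `i < sg u` (these are the `i` with `m i + ∑ (u b_j mod m) < m r`), `S_Bf`,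
hypothesis on `v` with `f = X^i`; linear combinations; they are linearly independent (`S_Pv`), and
`Ws10 D u` has dimension `p u = sg u` (`S_Pnew`). -/
def S_Hod : Prop :=
  ∀ (T : AV) (m r : ℕ) (s : Fin (r + 1) → ℝ) (b : Fin (r + 1) → ℕ), StrictMono s →
    IsCov m (fun j => (s j : ℂ)) b → ∀ (N : New T m (fun j => (s j : ℂ)) b) (D : Cyc T m),
    D.Z = N.Z → ∀ v : Fin r → T.V, (∀ u < m, u.Coprime m → ∀ (f : Polynomial ℂ)
      (B : T.V →ₗ[ℂ] ℂ), (∀ w, B (N.Z w) = Complex.exp (2 * Real.pi * Complex.I / m) ^ u * B w) →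
      (∀ x ∉ N.γ.S, ∀ y, N.γ.P (x, y) = 0 →
        B (N.γ.ω x y) = f.eval x * y ^ u / ∏ j, (x - (s j : ℂ)) ^ (1 + u * b j / m)) →
      ∀ k, B (v k) = Pv m b u s f k) → ∀ u : (ZMod m)ˣ,
    (∀ f : Polynomial ℂ, f.degree < (sg m r b (u : ZMod m).val : WithBot ℕ) →
      ∃ a ∈ Ws10 D u, ∀ k, a (v k) = Pv m b (u : ZMod m).val s f k) ∧
    ∀ a ∈ Ws10 D u, ∃ f : Polynomial ℂ, f.degree < (sg m r b (u : ZMod m).val : WithBot ℕ) ∧
      ∀ k, a (v k) = Pv m b (u : ZMod m).val s f k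

/-- TRANSFER. From `S_Bas`, `S_Dim`, `S_Pv`. Hypotheses: `v` with the properties of `S_EB`
(injectivity, matrices) and `S_Hod`. Conclusion: `ND`, and: if `J(s)` is in no bad Lie algebra then
`Hits D h {u}` for every `HLie`. PROOF. ND: `a_f ∈ Ws10 D u`, `a_g ∈ Ws10 D (-u)`
(`(-u).val = m - u.val`), `(a_f + conj a_g)(v_k) = 0`: `a_f + conj a_g = 0`, the types: `a_f = 0 = a_g`,
`Pv f = 0`, `f = 0`. HITS: `Φ(a) = (a(v_k))_k : Ws D u → ℂ^r` is bijective. For `X` rational commuting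
with `Z`: `Φ ∘ pre X = X̂ ∘ Φ`, `X̂` the matrix `N⁻¹ x_(kj)(ζ^u)`, algebraic entries. Let `ĝ` be the complex
span of the `X̂`, `X ∈ h`: spanned by finitely many of them, closed under brackets, contains
`Ĵ = Φ pre(mulI) Φ⁻¹` (`mulI` in the real span of `h`), and `IsJ Ĵ`. `ĝ` is not bad: the brackets span the
traceless operators. Conclude as in `S_At0` (SE/Big/At0.lean). -/
def S_Hit : Prop :=
  ∀ (T : AV) (m r : ℕ) (s : Fin (r + 1) → ℝ) (b : Fin (r + 1) → ℕ) (D : Cyc T m), StrictMono s →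
    IsCov m (fun j => (s j : ℂ)) b → 1 ≤ r → 2 * finrank ℂ T.V = r * Nat.totient m →
    ∀ v : Fin r → T.V, (∀ u, ∀ a ∈ Ws D u, (∀ k, a (v k) = 0) → a = 0) →
    (∀ X : Module.End ℝ T.V, RatEnd T X → (∀ w, X (D.Z w) = D.Z (X w)) →
      ∃ (N : ℤ) (x : Fin r → Fin r → Polynomial ℤ), N ≠ 0 ∧
        ∀ k, N • X (v k) = ∑ j, (Polynomial.aeval D.Z (x k j)) (v j)) →
    (∀ u : (ZMod m)ˣ, (∀ f : Polynomial ℂ, f.degree < (sg m r b (u : ZMod m).val : WithBot ℕ) →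
      ∃ a ∈ Ws10 D u, ∀ k, a (v k) = Pv m b (u : ZMod m).val s f k) ∧
      ∀ a ∈ Ws10 D u, ∃ f : Polynomial ℂ, f.degree < (sg m r b (u : ZMod m).val : WithBot ℕ) ∧
        ∀ k, a (v k) = Pv m b (u : ZMod m).val s f k) → ∀ u : (ZMod m)ˣ,
    ND m b (u : ZMod m).val s ∧
      ((¬ ∃ g, Bad g ∧ ∃ J ∈ g, IsJ m b (u : ZMod m).val s J) →
        ∀ h, HLie D h → Hits D h {u})

/-! ## Arithmetic -/

/-- The curves `y ^ p = f(x)`, `deg f = r + 1` prime to `p`. PROOF. `sg p r 1 u = r - ⌊(r+1) u / p⌋` for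
`0 < u < p` (`Pr_aux.sg_eq` in SE/Big/Pr.lean), `sg (p - u) = r - sg u` (`S_Sg`). `r + 1 < p`: `tPr`
(`sg u = 1`, `sg (p - u) = r - 1`). `r + 1 > p`: `t(u) = ⌊(r+1) u / p⌋` is strictly increasing on
`0 < u < p`, `t(p - u) = r - t(u)`; `sg u · sg (p - u) = t (r - t)`; `t (r - t) = t' (r - t')` iff
`t' ∈ {t, r - t}`, so (`u = 1` in `AperC`) `g ∈ {1, p - 1}`. `u = 1`: `t = ⌊(r+1)/p⌋ ≥ 1`,
`r = 2 t ≤ 2 (r + 1) / 3` would give `r ≤ 2`, `r + 1 ≤ 3 ≤ p`. -/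
def S_Pr2 : Prop :=
  ∀ p r : ℕ, p.Prime → 3 ≤ p → 2 ≤ r → ¬ p ∣ r + 1 →
    AperC p r (fun _ => 1) ∧ ∃ u < p, u.Coprime p ∧ 0 < sg p r (fun _ => 1) u ∧
      0 < sg p r (fun _ => 1) (p - u) ∧
      (sg p r (fun _ => 1) u ≠ sg p r (fun _ => 1) (p - u) ∨ r = 2)

end SEB
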