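import Pool.Agent.Lib.SE.Big.VG2

/-!
# PROJECT SE, module IsBig, part 5: very general COMPLEX branch points, all signatures (helper64)

As part 4 (`VG2.lean`) for complex `s_0, …, s_r` with increasing real parts (`Inc s`; a convex open set).
The periods are integrals over the straight segments from `s_k` to `s_(k+1)`, with the branches
`(x - s_j) ^ (-μ_j)` for `j ≤ k` and `(s_j - x) ^ (-μ_j)` for `j > k` (principal values: the real parts are
positive); they are holomorphic functions of `s`. `Ic μ s k G = ∫ G w dx` over the segment number `k`,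
written as an integral over `t ∈ (0, 1)`, `x = seg s k t`; `Pc` is the analogue of `Pv`.

Every module: file `SE/Big/Xyz.lean` (`S_cXyz`: file `SE/Big/cXyz.lean`), `theorem tcXyz : S_cXyz`, namespace
`SEB`, import `Pool.Agent.Lib.SE.Big.VG3` and the proved modules `SE/Big/*.lean` you want to use. If the
docstring says `From S_A, S_B` and these are not hypotheses in the statement itself, the theorem is
`tcXyz : S_A → S_B → S_cXyz`. Put auxiliary lemmas in `namespace SEB.cXyz_aux` (do not reuse the names of the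
modules you copy).
-/

set_option autoImplicit false

open Module MeasureTheory Topology

noncomputable section

namespace SEB

open HC HC.E HC.SE

/-! ## The integrals -/

/-- The real parts increase. -/
def Inc {r : ℕ} (s : Fin (r + 1) → ℂ) : Prop := StrictMono fun j => (s j).re

/-- The point `t` of the segment from `s_k` to `s_(k+1)`. -/
def seg {r : ℕ} (s : Fin (r + 1) → ℂ) (k : Fin r) (t : ℝ) : ℂ :=
  s k.castSucc + t * (s k.succ - s k.castSucc)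

/-- The smooth factor of the weight on the segment number `k`: `w dx = t^(-μ_k) (1-t)^(-μ_(k+1)) Hc dt`. -/
def Hc {r : ℕ} (μ : Fin (r + 1) → ℝ) (s : Fin (r + 1) → ℂ) (k : Fin r) (t : ℝ) : ℂ :=
  (s k.succ - s k.castSucc) ^ (1 - (μ k.castSucc : ℂ) - (μ k.succ : ℂ)) *
    ∏ j, if j = k.castSucc ∨ j = k.succ then 1 else
      (if j.val ≤ k.val then seg s k t - s j else s j - seg s k t) ^ (-(μ j : ℂ))

/-- The integral of `G w dx` over the segment number `k`. -/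
def Ic {r : ℕ} (μ : Fin (r + 1) → ℝ) (s : Fin (r + 1) → ℂ) (k : Fin r) (G : ℂ → ℂ) : ℂ :=
  ∫ t in (0 : ℝ)..1, ((t ^ (-μ k.castSucc) * (1 - t) ^ (-μ k.succ) : ℝ) : ℂ) *
    (Hc μ s k t * G (seg s k t))

/-- THE WEIGHT. PROOF. Beta integral (`Complex.betaIntegral_convergent` or as in SE/Big/Wt.lean). `Inc s`:
finitely many strict inequalities `(s i).re < (s j).re`, linear in `s`. For `t ∈ [0,1]` the real part of
`seg s k t` is between those of `s_k` and `s_(k+1)`. `Hc` is continuous because `z ↦ z ^ c` is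
continuous on the right half plane. -/
def S_cI : Prop :=
  (∀ a b : ℝ, a < 1 → b < 1 →
    IntervalIntegrable (fun t : ℝ => t ^ (-a) * (1 - t) ^ (-b)) volume 0 1) ∧
  ∀ (r : ℕ) (μ : Fin (r + 1) → ℝ), IsOpen {s : Fin (r + 1) → ℂ | Inc s} ∧
    Convex ℝ {s : Fin (r + 1) → ℂ | Inc s} ∧ ∀ k : Fin r,
    (∀ s : Fin (r + 1) → ℂ, Inc s → 0 < (s k.succ - s k.castSucc).re ∧ ∀ t ∈ Set.Icc (0 : ℝ) 1,
      ∀ j : Fin (r + 1), (j.val < k.val → 0 < (seg s k t - s j).re) ∧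
        (k.val + 1 < j.val → 0 < (s j - seg s k t).re)) ∧
    ContinuousOn (fun p : (Fin (r + 1) → ℂ) × ℝ => Hc μ p.1 k p.2)
      ({s | Inc s} ×ˢ Set.Icc (0 : ℝ) 1)

/-- CONTINUITY. From `S_cI`. PROOF. Dominated convergence: near `s₀ ∈ Inc` the factor
`Hc μ s k t * f(seg s k t)` is bounded (compactness of `closedBall s₀ δ ×ˢ [0,1]`), continuous in `s`
(`intervalIntegral.continuousWithinAt_of_dominated_interval`). -/
def S_cC : Prop :=
  ∀ (r : ℕ) (μ : Fin (r + 1) → ℝ), Exq μ → ∀ (k : Fin r) (f : Polynomial ℂ),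
    ContinuousOn (fun s : Fin (r + 1) → ℂ => Ic μ s k fun x => f.eval x) {s | Inc s}

/-- DERIVATIVE in the direction `v`. From `S_cI`. `ℓ` is the affine function with `ℓ(s_k) = v_k`,
`ℓ(s_(k+1)) = v_(k+1)`, `ℓ'` its slope (at `ε` the point `t` of the segment is `x + ε ℓ(x)`).
PROOF. Differentiate under the integral (`hasDerivAt_integral_of_dominated_loc_of_deriv_le` for the
complex variable `ε`); the `ε`-derivative of the integrand is
`t^(-μ_k) (1-t)^(-μ_(k+1)) Hc (f'(x) ℓ(x) + f(x) ((1 - μ_k - μ_(k+1)) ℓ' - ∑_(j ≠ k,k+1) μ_j (ℓ(x) - v_j)/(x - s_j)))`,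
bounded by a constant times the integrable weight for `|ε|` small, and
`(ℓ(x) - v_j)/(x - s_j) = ℓ'` for `j = k, k + 1`, `0 < t < 1`. -/
def S_cD1 : Prop :=
  ∀ (r : ℕ) (μ : Fin (r + 1) → ℝ) (s : Fin (r + 1) → ℂ), Exq μ → Inc s →
    ∀ (v : Fin (r + 1) → ℂ) (k : Fin r) (f : Polynomial ℂ) (ℓ' : ℂ) (ℓ : ℂ → ℂ),
    ℓ' = (v k.succ - v k.castSucc) / (s k.succ - s k.castSucc) →
    (∀ x, ℓ x = v k.castSucc + (x - s k.castSucc) * ℓ') →
    HasDerivAt (fun ε : ℂ => Ic μ (fun j => s j + ε * v j) k fun x => f.eval x)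
      (Ic μ s k fun x => (Polynomial.derivative f).eval x * ℓ x +
        f.eval x * (ℓ' - ∑ j, (μ j : ℂ) * ((ℓ x - v j) / (x - s j)))) 0

/-- EXACT FORMS on the segment. From `S_cI`. PROOF. With `W(t) = t^(-μ_k) (1-t)^(-μ_(k+1)) Hc(t)`,
`Δ = s_(k+1) - s_k`, the function `f(x) e(x) W(t) / Δ` (`x = seg s k t`) is continuous on `[0,1]`, `0` at
the end points (`e(x) = O(t)`, `O(1-t)`, `μ < 1`), and its derivative on `(0,1)` is the integrand
(`x - s_k = t Δ`, `x - s_(k+1) = -(1-t) Δ`); it is integrable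
(`intervalIntegral.integral_eq_sub_of_hasDeriv_right`, compare SE/Big/PvE.lean). -/
def S_cX : Prop :=
  ∀ (r : ℕ) (μ : Fin (r + 1) → ℝ) (s : Fin (r + 1) → ℂ), Exq μ → Inc s →
    ∀ (k : Fin r) (f e : Polynomial ℂ), e.eval (s k.castSucc) = 0 → e.eval (s k.succ) = 0 →
    Ic μ s k (fun x => (Polynomial.derivative f).eval x * e.eval x +
      f.eval x * ((Polynomial.derivative e).eval x - ∑ j, (μ j : ℂ) * (e.eval x / (x - s j)))) = 0

/-- The derivative of `f w` along the vector field `a`, divided by `w`. -/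
def Thc {r : ℕ} (μ : Fin (r + 1) → ℝ) (s : Fin (r + 1) → ℂ) (a f : Polynomial ℂ) : Polynomial ℂ :=
  Polynomial.derivative f * a + f * (Polynomial.derivative a -
    ∑ j, Polynomial.C (μ j : ℂ) * (a /ₘ (Polynomial.X - Polynomial.C (s j))))

/-- DERIVATIVE along the vector field `a`. From `S_cI`, `S_cD1`, `S_cX`. PROOF. `S_cD1` with
`v_j = a(s_j)`, `S_cX` with the polynomial `e = a - ℓ`, which vanishes at `s_k` and `s_(k+1)`; for
`x ∉ {s_j}`: `(a /ₘ (X - s_j))(x) = (a(x) - a(s_j))/(x - s_j)`, so the sum of the two integrands is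
`(Thc μ s a f)(x)` for `0 < t < 1` (additivity of `Ic`: both functions are equal to polynomials plus
multiples of `1 / (x - s_j)`, `j ≠ k, k + 1`, for `0 < t < 1`, so integrable). -/
def S_cD : Prop :=
  ∀ (r : ℕ) (μ : Fin (r + 1) → ℝ) (s : Fin (r + 1) → ℂ), Exq μ → Inc s →
    ∀ (a f : Polynomial ℂ) (k : Fin r),
    HasDerivAt (fun ε : ℂ => Ic μ (fun j => s j + ε * a.eval (s j)) k fun x => f.eval x)
      (Ic μ s k fun x => (Thc μ s a f).eval x) 0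

/-- EXACT FORMS. From `S_cX`. PROOF. `e = Q = ∏ (X - s_j)`: `Q(x)/(x - s_j) = (Q /ₘ (X - s_j))(x)`. -/
def S_cE : Prop :=
  ∀ (r : ℕ) (μ : Fin (r + 1) → ℝ) (s : Fin (r + 1) → ℂ), Exq μ → Inc s →
    ∀ (f : Polynomial ℂ) (k : Fin r),
    Ic μ s k (fun x => (Thc μ s (∏ j, (Polynomial.X - Polynomial.C (s j))) f).eval x) = 0

/-- IDENTITY THEOREM. From `S_cI`. PROOF. `s⁰ ∈ U`, `s¹` with `Inc s¹`: `g(z) = F(s⁰ + z (s¹ - s⁰))` on
`{z | Inc (s⁰ + z (s¹ - s⁰))}`, open and convex, contains `0` and `1`; `g` is complex differentiable there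
and `0` near `0` (`AnalyticOnNhd.eqOn_zero_of_preconnected_of_eventuallyEq_zero`,
`DifferentiableOn.analyticOnNhd`). -/
def S_cId : Prop :=
  ∀ (r : ℕ) (F : (Fin (r + 1) → ℂ) → ℂ),
    (∀ s, Inc s → ∀ v : Fin (r + 1) → ℂ,
      DifferentiableAt ℂ (fun ε : ℂ => F fun j => s j + ε * v j) 0) →
    ∀ U : Set (Fin (r + 1) → ℂ), IsOpen U → U.Nonempty → (∀ s ∈ U, Inc s ∧ F s = 0) →
    ∀ s, Inc s → F s = 0

/-- REAL POINTS. PROOF. Substitution `x = s_k + t (s_(k+1) - s_k)`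
(`intervalIntegral.integral_comp_mul_add` or `..._comp_mul_left` and `..._comp_add_left`);
`|x - s_j| ^ (-μ_j)` is the principal power of the positive number `± (x - s_j)`
(`Complex.ofReal_cpow`). -/
def S_cRe : Prop :=
  ∀ (r : ℕ) (μ s : Fin (r + 1) → ℝ), Exq μ → StrictMono s → ∀ (k : Fin r) (f : Polynomial ℂ),
    Ic μ (fun j => (s j : ℂ)) k (fun x => f.eval x) =
      ∫ x in (s k.castSucc)..(s k.succ), ((wt μ s x : ℝ) : ℂ) * f.eval (x : ℂ)

/-- The period vectors of the polynomials of degree `< r` are linearly independent. -/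
def Nj {r : ℕ} (μ : Fin (r + 1) → ℝ) (s : Fin (r + 1) → ℂ) : Prop :=
  ∀ f : Polynomial ℂ, f.degree < (r : WithBot ℕ) → (∀ k, Ic μ s k (fun x => f.eval x) = 0) → f = 0

/-- INDEPENDENCE. From `S_cI`, `S_cC`, `S_cD1`, `S_cId`, `S_cRe`, `S_Wt`, `S_Mom`. PROOF. `M(s)` the matrix
`Ic μ s k X^d`, `k, d < r`. `¬ Nj` iff `det M(s) = 0` (`Ic` is linear in `f`). `det M` is continuous on the
open set `Inc`, so the set is relatively closed; if it contained a nonempty open set, `det M` would be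
`0` on `Inc` (`S_cId`; differentiable along lines by `S_cD1`), but it is not at real points (`S_Mom`,
`S_cRe`). So the set is nowhere dense (an open subset of its closure meets `Inc`, and then it contains
an open subset of the set). -/
def S_cN : Prop :=
  ∀ (r : ℕ) (μ : Fin (r + 1) → ℝ), Exq μ →
    IsMeagre {s : Fin (r + 1) → ℂ | Inc s ∧ ¬ Nj μ s}

/-- INDEPENDENCE OVER THE ALGEBRAIC NUMBERS. From `S_cI`, `S_cC`, `S_cD1`, `S_cId`, `S_cRe`, `S_Bai`. PROOF.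
Countable union over the `c ≠ 0` with algebraic coordinates of
`{s | Inc s, ∑ c_k Ic_k(1) = 0}`, relatively closed; if one of them contained a nonempty open set, the
sum would be `0` on `Inc`, so at all real strictly increasing points, a nonempty open set of
`ℝ^(r+1)` in the meagre set of `S_Bai`: contradiction to Baire's theorem. -/
def S_cAI : Prop :=
  ∀ (r : ℕ) (μ : Fin (r + 1) → ℝ), Exq μ → (∀ n : ℤ, ∑ j, μ j ≠ n) →
    IsMeagre {s : Fin (r + 1) → ℂ | Inc s ∧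
      ¬ AInd (fun k : Fin r => Ic μ s k fun x => (1 : Polynomial ℂ).eval x)}

/-! ## Period vectors and the operator `J` -/

/-- The period vector of `f(x) y^u dx / ∏ (x - s_j)^(1 + ⌊u b_j/m⌋)`. -/
def Pc (m : ℕ) {r : ℕ} (b : Fin (r + 1) → ℕ) (u : ℕ) (s : Fin (r + 1) → ℂ) (f : Polynomial ℂ) :
    Fin r → ℂ :=
  fun k => kap m b u k * Ic (mu m b u) s k fun x => f.eval x

/-- The points `s`, the numbers `b_j` and the character `u` are admissible. -/
def Admc (m : ℕ) {r : ℕ} (b : Fin (r + 1) → ℕ) (u : ℕ) (s : Fin (r + 1) → ℂ) : Prop :=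
  Inc s ∧ IsCov m s b ∧ u < m ∧ u.Coprime m

/-- THE CONSTANTS. PROOF. `S_Kap` (`tKap`) for the real points `s_j = j` (`IsCov` for them has the same
conditions on `m`, `b`). -/
def S_cKap : Prop :=
  ∀ (m r : ℕ) (b : Fin (r + 1) → ℕ) (u : ℕ) (s : Fin (r + 1) → ℂ), Admc m b u s →
    (∀ j, 1 ≤ nn m b u j ∧ nn m b u j < m ∧ nn m b (m - u) j = m - nn m b u j) ∧
    Exq (mu m b u) ∧ (∀ n : ℤ, ∑ j, mu m b u j ≠ n) ∧
    ∀ k, kap m b u k ≠ 0 ∧ IsAlgebraic ℚ (kap m b u k)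

/-- LINEARITY. From `S_cI`, `S_cKap`. PROOF. Integrability: the weight times a function which is
continuous on `[0,1]`. -/
def S_cPv : Prop :=
  ∀ (m r : ℕ) (b : Fin (r + 1) → ℕ) (u : ℕ) (s : Fin (r + 1) → ℂ), Admc m b u s →
    (∀ f g, Pc m b u s (f + g) = Pc m b u s f + Pc m b u s g) ∧
    ∀ (c : ℂ) (f : Polynomial ℂ), Pc m b u s (Polynomial.C c * f) = c • Pc m b u s f

/-- The period vectors of the forms of type `(1,0)` and the conjugates of those of the character `-u`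
are linearly independent. -/
def NDc (m : ℕ) {r : ℕ} (b : Fin (r + 1) → ℕ) (u : ℕ) (s : Fin (r + 1) → ℂ) : Prop :=
  ∀ f g : Polynomial ℂ, f.degree < (sg m r b u : WithBot ℕ) →
    g.degree < (sg m r b (m - u) : WithBot ℕ) →
    Pc m b u s f + star (Pc m b (m - u) s g) = 0 → f = 0 ∧ g = 0

/-- `J` is the multiplication by `i` in the coordinates of the period vectors. -/
def IsJc (m : ℕ) {r : ℕ} (b : Fin (r + 1) → ℕ) (u : ℕ) (s : Fin (r + 1) → ℂ)
    (J : Module.End ℂ (Fin r → ℂ)) : Prop :=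
  (∀ f : Polynomial ℂ, f.degree < (sg m r b u : WithBot ℕ) →
    J (Pc m b u s f) = Complex.I • Pc m b u s f) ∧
  ∀ g : Polynomial ℂ, g.degree < (sg m r b (m - u) : WithBot ℕ) →
    J (star (Pc m b (m - u) s g)) = -Complex.I • star (Pc m b (m - u) s g)

/-- EXISTENCE AND PROPERTIES OF `J`. From `S_cPv`, `S_Sg`. PROOF. As `S_Jx` (SE/Big/Jx.lean). -/
def S_cJx : Prop :=
  ∀ (m r : ℕ) (b : Fin (r + 1) → ℕ) (u : ℕ) (s : Fin (r + 1) → ℂ), Admc m b u s → NDc m b u s →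
    ∃ J, IsJc m b u s J ∧ (∀ J', IsJc m b u s J' → J' = J) ∧ J * J = -1 ∧
      (∀ v, J v = Complex.I • v ↔
        ∃ f : Polynomial ℂ, f.degree < (sg m r b u : WithBot ℕ) ∧ v = Pc m b u s f) ∧
      (∀ v, J v = -Complex.I • v ↔ ∃ g : Polynomial ℂ,
        g.degree < (sg m r b (m - u) : WithBot ℕ) ∧ v = star (Pc m b (m - u) s g)) ∧
      finrank ℂ (LinearMap.ker (J - Complex.I • (1 : Module.End ℂ (Fin r → ℂ)))) = sg m r b u ∧
      finrank ℂ (LinearMap.ker (J + Complex.I • (1 : Module.End ℂ (Fin r → ℂ)))) =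
        sg m r b (m - u)

/-- `D` is the derivative of `J` along the vector field `a` (a complex polynomial; real `ε`). -/
def IsDJc (m : ℕ) {r : ℕ} (b : Fin (r + 1) → ℕ) (u : ℕ) (s : Fin (r + 1) → ℂ)
    (J : Module.End ℂ (Fin r → ℂ)) (a : Polynomial ℂ) (D : Module.End ℂ (Fin r → ℂ)) : Prop :=
  (∀ f : Polynomial ℂ, f.degree < (sg m r b u : WithBot ℕ) → D (Pc m b u s f) =
    Complex.I • Pc m b u s (Thc (mu m b u) s a f) - J (Pc m b u s (Thc (mu m b u) s a f))) ∧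
  ∀ g : Polynomial ℂ, g.degree < (sg m r b (m - u) : WithBot ℕ) →
    D (star (Pc m b (m - u) s g)) =
      -Complex.I • star (Pc m b (m - u) s (Thc (mu m b (m - u)) s a g)) -
        J (star (Pc m b (m - u) s (Thc (mu m b (m - u)) s a g)))

/-- THE RANK ONE OPERATORS at the point `s_j`. From `S_cPv`, `S_cE`, `S_cJx`, `S_cKap`. PROOF. As `S_Rk1`
(SE/Big/Rk1.lean), with `Nj` for the injectivity of the period vectors in degree `< r`. -/
def S_cRk1 : Prop :=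
  ∀ (m r : ℕ) (b : Fin (r + 1) → ℕ) (u : ℕ) (s : Fin (r + 1) → ℂ), Admc m b u s → NDc m b u s →
    Nj (mu m b u) s →
    ∀ J, IsJc m b u s J → ∃ ξ : Fin (r + 1) → (Fin r → ℂ), (∀ j, J (ξ j) = -Complex.I • ξ j) ∧
      (∀ j, ∃ a : Polynomial ℂ, ∀ f : Polynomial ℂ, f.degree < (sg m r b u : WithBot ℕ) →
        Complex.I • Pc m b u s (Thc (mu m b u) s a f) - J (Pc m b u s (Thc (mu m b u) s a f)) =
          f.eval (s j) • ξ j) ∧
      ∀ c : Fin (r + 1) → ℂ, (Finset.univ.filter fun j => c j ≠ 0).card ≤ sg m r b (m - u) →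
        ∑ j, c j • ξ j = 0 → c = 0

/-- KEY. From `S_R1N`, `S_Sg`, `S_cPv`, `S_cJx`, `S_cRk1`. PROOF. As `S_Key` (SE/Big/Key.lean). -/
def S_cKey : Prop :=
  ∀ (m r : ℕ) (b : Fin (r + 1) → ℕ) (u : ℕ) (s : Fin (r + 1) → ℂ), Admc m b u s → NDc m b u s →
    Nj (mu m b u) s → Nj (mu m b (m - u)) s →
    0 < sg m r b u → 0 < sg m r b (m - u) → (sg m r b u ≠ sg m r b (m - u) ∨ r = 2) →
    ∀ (g : Submodule ℂ (Module.End ℂ (Fin r → ℂ))) (J : Module.End ℂ (Fin r → ℂ)),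
    (∀ X ∈ g, ∀ Y ∈ g, X * Y - Y * X ∈ g) → IsJc m b u s J → J ∈ g →
    (∀ a : Polynomial ℂ, ∃ D ∈ g, IsDJc m b u s J a D) →
    ∀ X : Module.End ℂ (Fin r → ℂ), LinearMap.trace ℂ _ X = 0 →
      X ∈ Submodule.span ℂ {Y | ∃ A ∈ g, ∃ B ∈ g, Y = A * B - B * A}

/-- DERIVATIVE OF `J`. From `S_cPv`, `S_cKap`, `S_cD`, `S_cJx`. PROOF. As `S_Dj` (SE/Big/Dj.lean): real `ε`
(`HasDerivAt.comp_ofReal`), `s_ε = s + ε a(s)`. -/
def S_cDj : Prop :=
  ∀ (m r : ℕ) (b : Fin (r + 1) → ℕ) (u : ℕ) (U : Set (Fin (r + 1) → ℂ)), IsOpen U →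
    (∀ s ∈ U, Admc m b u s ∧ NDc m b u s) → ∀ g : Submodule ℂ (Module.End ℂ (Fin r → ℂ)),
    (∀ s ∈ U, ∀ J, IsJc m b u s J → J ∈ g) → ∀ s ∈ U, ∀ J, IsJc m b u s J →
    ∀ a : Polynomial ℂ, ∃ D ∈ g, IsDJc m b u s J a D

/-- CLOSEDNESS. From `S_cI`, `S_cKap`, `S_cPv`, `S_cC`, `S_cJx`. PROOF. As `S_Cj` (SE/Big/Cj.lean). -/
def S_cCj : Prop :=
  ∀ (m r : ℕ) (b : Fin (r + 1) → ℕ) (u : ℕ),
    IsOpen {s : Fin (r + 1) → ℂ | Admc m b u s ∧ NDc m b u s} ∧
    ∀ g : Submodule ℂ (Module.End ℂ (Fin r → ℂ)), ∃ C : Set (Fin (r + 1) → ℂ), IsClosed C ∧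
      ∀ s, Admc m b u s → NDc m b u s → (s ∈ C ↔ ∀ J, IsJc m b u s J → J ∈ g)

/-- BAIRE. From `S_cKap`, `S_cN`, `S_cJx`, `S_cKey`, `S_cDj`, `S_cCj`. PROOF. As `S_Ba2` (SE/Big/Ba2.lean). If
`{s | Admc, NDc, J(s) ∈ g}` contains a nonempty open set `U`, there is a point `s ∈ U` with `Nj` for the
exponents of `u` and of `m - u` (`S_cN`, Baire): `S_cDj`, `S_cKey`. -/
def S_cBa2 : Prop :=
  ∀ (m r : ℕ) (b : Fin (r + 1) → ℕ) (u : ℕ), 0 < sg m r b u → 0 < sg m r b (m - u) →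
    (sg m r b u ≠ sg m r b (m - u) ∨ r = 2) →
    IsMeagre {s : Fin (r + 1) → ℂ | Admc m b u s ∧ NDc m b u s ∧
      ∃ g, Bad g ∧ ∃ J ∈ g, IsJc m b u s J}

/-! ## Branches and loops -/

/-- The branch of `(∏_j (x - s_j)^(b_j))^(1/m)` with the cuts from `s_j` to the left (`j < k`) and to the
right (`j ≥ k`). -/
def ykc (m : ℕ) {r : ℕ} (s : Fin (r + 1) → ℂ) (b : Fin (r + 1) → ℕ) (k : ℕ) (x : ℂ) : ℂ :=
  ∏ j, (if j.val < k then rp m (x - s j) else rn m (x - s j)) ^ b j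

/-- The complement of the cuts. It contains the strip `re x ∈ Gp (re s) k`, the points above (below) all
`s_j`, and, for `Inc s`, the vertical lines `re x = re s_k` and `re x = re s_(k-1)` without the points
`s_k`, `s_(k-1)`. -/
def Ukc {r : ℕ} (s : Fin (r + 1) → ℂ) (k : ℕ) : Set ℂ :=
  {x | ∀ j : Fin (r + 1), (j.val < k → x - s j ∈ Complex.slitPlane) ∧
    (k ≤ j.val → s j - x ∈ Complex.slitPlane)}

/-- THE BRANCHES. PROOF. As `S_Br` (SE/Big/Br.lean), for each factor. -/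
def S_cBr : Prop :=
  ∀ (m r : ℕ) (s : Fin (r + 1) → ℂ) (b : Fin (r + 1) → ℕ) (k : ℕ), 1 ≤ m →
    (∀ x, ykc m s b k x ^ m = ∏ j, (x - s j) ^ b j) ∧
    DifferentiableOn ℂ (ykc m s b k) (Ukc s k) ∧ IsOpen (Ukc s k) ∧
    (∀ x, ‖ykc m s b k x‖ = ∏ j, ‖x - s j‖ ^ ((b j : ℝ) / m)) ∧
    (∀ x : ℂ, (∀ j, (s j).im < x.im) → x ∈ Ukc s k ∧ ykc m s b k x = ykc m s b 0 x) ∧
    (∀ x : ℂ, (∀ j, x.im < (s j).im) → x ∈ Ukc s k ∧
      ykc m s b k x = Complex.exp (2 * Real.pi * Complex.I / m) ^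
        (∑ j ∈ Finset.univ.filter (fun j : Fin (r + 1) => k ≤ j.val), b j) *
          ykc m s b (r + 1) x) ∧
    (∀ x : ℂ, x.re ∈ Gp (fun j => (s j).re) k → x ∈ Ukc s k ∧ ykc m s b k x =
      Complex.exp (Real.pi * Complex.I / m) ^
        (∑ j ∈ Finset.univ.filter (fun j : Fin (r + 1) => k ≤ j.val), b j) *
        ∏ j : Fin (r + 1), (if j.val < k then x - s j else s j - x) ^ ((b j : ℂ) / m)) ∧
    ∀ (l : Fin (r + 1)) (x : ℂ),
      ((s l).im < x.im → ykc m s b l.val x = ykc m s b (l.val + 1) x) ∧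
      (x.im < (s l).im → ykc m s b l.val x =
        Complex.exp (2 * Real.pi * Complex.I / m) ^ b l * ykc m s b (l.val + 1) x)

/-- LATTICE ELEMENTS. From `S_cBr`, `S_Seg`. PROOF. As `S_Lat` (SE/Big/Lat.lean): the path is in
`Ukc s j`, its first point is above all `s_j` and its last point below. -/
def S_cLat : Prop :=
  ∀ (T : AV) (m r : ℕ) (s : Fin (r + 1) → ℂ) (b : Fin (r + 1) → ℕ) (N : New T m s b), 1 ≤ m →
    Inc s → ∀ (x₀ h : ℝ) (c : ℕ → ℝ), (∀ j, |(s j).im| < h) →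
    (∀ k ≤ r + 1, c k ∈ Gp (fun j => (s j).re) k) → ∀ k l : Fin (r + 1), ∃ v ∈ T.L,
      ∀ (B : T.V →ₗ[ℂ] ℂ) (ξ : ℂ), (∀ w, B (N.Z w) = ξ * B w) →
        let β : ℕ → ℂ := fun j => Pth (fun x => B (N.γ.ω x (ykc m s b j x))) x₀ h (c j)
        B v = (ξ ^ b l - 1) * (β k - ξ ^ b k * β (k + 1)) -
          (ξ ^ b k - 1) * (β l - ξ ^ b l * β (l + 1))

/-- The integral of `f / y` along `x₀ + i h → re s_k + i h → s_k`. -/
def Akc (m : ℕ) {r : ℕ} (s : Fin (r + 1) → ℂ) (n : Fin (r + 1) → ℕ) (f : Polynomial ℂ) (x₀ h : ℝ)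
    (k : Fin (r + 1)) : ℂ :=
  (∫ t in x₀..(s k).re, f.eval (t + h * Complex.I : ℂ) * (ykc m s n 0 (t + h * Complex.I))⁻¹) -
    Complex.I * ∫ y in (s k).im..h,
      f.eval ((s k).re + y * Complex.I : ℂ) * (ykc m s n k.val ((s k).re + y * Complex.I))⁻¹

/-- AROUND `s_k`. From `S_cBr`. PROOF. As `S_CaF` (SE/Big/CaF.lean, SE/Big/Ca.lean): Cauchy's theorem on the
rectangles between `c k` (`c (k+1)`) and `re s_k ∓ ε`, height from `-h` to `h`; `ε → 0`
(`‖1/y‖ ≤ C ‖x - s_k‖^(-n_k/m) ≤ C |y - im s_k|^(-n_k/m)` on the vertical lines). The branches number `k`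
and `k + 1` are equal above `s_k` and differ by `exp(2πi/m)^(n_k)` below `s_k` (last part of `S_cBr`), also
on the horizontal line `im = -h`; on the line `im = h` all branches are equal to the branch `0`. -/
def S_cCa : Prop :=
  ∀ (m r : ℕ) (s : Fin (r + 1) → ℂ) (n : Fin (r + 1) → ℕ) (f : Polynomial ℂ), 1 ≤ m →
    Inc s → (∀ j, 1 ≤ n j ∧ n j < m) → ∀ (x₀ h : ℝ) (c : ℕ → ℝ), (∀ j, |(s j).im| < h) →
    (∀ k ≤ r + 1, c k ∈ Gp (fun j => (s j).re) k) → ∀ k : Fin (r + 1),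
      let β : ℕ → ℂ := fun j => Pth (fun x => f.eval x * (ykc m s n j x)⁻¹) x₀ h (c j)
      let z : ℂ := (Complex.exp (2 * Real.pi * Complex.I / m) ^ n k)⁻¹
      β k - z * β (k + 1) = (1 - z) * Akc m s n f x₀ h k

/-- BETWEEN `s_k` AND `s_(k+1)`. From `S_cBr`, `S_cI`. PROOF. `G = f / y`, branch number `k + 1`, is
holomorphic in the strip between `s_k` and `s_(k+1)` and near the two vertical half lines above `s_k` and
`s_(k+1)`. For `0 ≤ λ ≤ 1` let `Φ(λ) = ∫_0^1 G(x) (∂x/∂t) dt`,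
`x = s_k + i λ a + t (Δ + i λ (b - a))`, `a = h - im s_k`, `b = h - im s_(k+1)`, `Δ = s_(k+1) - s_k`. For
`λ > 0`: `Φ'(λ) = i b G(s_(k+1) + i λ b) - i a G(s_k + i λ a)` (the integrand of `Φ'` is
`∂/∂t (G ∂x/∂λ)`); `Φ` is continuous at `0` (dominated: `|x - s_k| ≥ t re Δ`,
`|x - s_(k+1)| ≥ (1-t) re Δ`). `Φ(1)` is the integral over the horizontal line, `Φ(0)` the integral over the
segment (the formula of `S_cBr` for the strip, `(t Δ)^(-μ) = t^(-μ) Δ^(-μ)`). Integrate from `0` to `1`. -/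
def S_cCb : Prop :=
  ∀ (m r : ℕ) (s : Fin (r + 1) → ℂ) (n : Fin (r + 1) → ℕ) (f : Polynomial ℂ), 1 ≤ m →
    Inc s → (∀ j, 1 ≤ n j ∧ n j < m) → ∀ (x₀ h : ℝ), (∀ j, |(s j).im| < h) → ∀ k : Fin r,
      Akc m s n f x₀ h k.succ - Akc m s n f x₀ h k.castSucc =
        (Complex.exp (Real.pi * Complex.I / m) ^
          (∑ j ∈ Finset.univ.filter (fun j : Fin (r + 1) => k.val + 1 ≤ j.val), n j))⁻¹ *
          Ic (fun j => (n j : ℝ) / m) s k fun x => f.eval x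

/-- THE LOOPS `v_k`. From `S_cBr`, `S_cLat`, `S_cCa`, `S_cCb`. PROOF. As `S_LoopF` (SE/Big/LoopF.lean,
SE/Big/Loop.lean). -/
def S_cLoop : Prop :=
  ∀ (T : AV) (m r : ℕ) (s : Fin (r + 1) → ℂ) (b : Fin (r + 1) → ℕ), Inc s →
    IsCov m s b → ∀ (N : New T m s b),
    ∃ v : Fin r → T.V, (∀ k, v k ∈ T.L) ∧ ∀ u < m, u.Coprime m → ∀ (f : Polynomial ℂ)
      (B : T.V →ₗ[ℂ] ℂ), (∀ w, B (N.Z w) = Complex.exp (2 * Real.pi * Complex.I / m) ^ u * B w) →
      (∀ x ∉ N.γ.S, ∀ y, N.γ.P (x, y) = 0 →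
        B (N.γ.ω x y) = f.eval x * y ^ u / ∏ j, (x - s j) ^ (1 + u * b j / m)) →
      ∀ k, B (v k) = Pc m b u s f k

/-! ## Transfer to `T` -/

/-- HODGE DECOMPOSITION IN COORDINATES. From `S_Sg`, `S_Bas`, `S_Pnew`, `S_Bf`, `S_cKap`, `S_cPv`. PROOF. As
`S_Hod` (SE/Big/Hod.lean), with `Nj` for the injectivity (`kap ≠ 0`). -/
def S_cHod : Prop :=
  ∀ (T : AV) (m r : ℕ) (s : Fin (r + 1) → ℂ) (b : Fin (r + 1) → ℕ), Inc s →
    IsCov m s b → (∀ u < m, u.Coprime m → Nj (mu m b u) s) →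
    ∀ (N : New T m s b) (D : Cyc T m),
    D.Z = N.Z → ∀ v : Fin r → T.V, (∀ u < m, u.Coprime m → ∀ (f : Polynomial ℂ)
      (B : T.V →ₗ[ℂ] ℂ), (∀ w, B (N.Z w) = Complex.exp (2 * Real.pi * Complex.I / m) ^ u * B w) →
      (∀ x ∉ N.γ.S, ∀ y, N.γ.P (x, y) = 0 →
        B (N.γ.ω x y) = f.eval x * y ^ u / ∏ j, (x - s j) ^ (1 + u * b j / m)) →
      ∀ k, B (v k) = Pc m b u s f k) → ∀ u : (ZMod m)ˣ,
    (∀ f : Polynomial ℂ, f.degree < (sg m r b (u : ZMod m).val : WithBot ℕ) →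
      ∃ a ∈ Ws10 D u, ∀ k, a (v k) = Pc m b (u : ZMod m).val s f k) ∧
    ∀ a ∈ Ws10 D u, ∃ f : Polynomial ℂ, f.degree < (sg m r b (u : ZMod m).val : WithBot ℕ) ∧
      ∀ k, a (v k) = Pc m b (u : ZMod m).val s f k

/-- TRANSFER. From `S_Bas`, `S_Dim`, `S_cKap`, `S_cPv`. PROOF. As `S_Hit` (SE/Big/Hit.lean). -/
def S_cHit : Prop :=
  ∀ (T : AV) (m r : ℕ) (s : Fin (r + 1) → ℂ) (b : Fin (r + 1) → ℕ) (D : Cyc T m), Inc s →
    IsCov m s b → (∀ u < m, u.Coprime m → Nj (mu m b u) s) →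
    1 ≤ r → 2 * finrank ℂ T.V = r * Nat.totient m →
    ∀ v : Fin r → T.V, (∀ u, ∀ a ∈ Ws D u, (∀ k, a (v k) = 0) → a = 0) →
    (∀ X : Module.End ℝ T.V, RatEnd T X → (∀ w, X (D.Z w) = D.Z (X w)) →
      ∃ (N : ℤ) (x : Fin r → Fin r → Polynomial ℤ), N ≠ 0 ∧
        ∀ k, N • X (v k) = ∑ j, (Polynomial.aeval D.Z (x k j)) (v j)) →
    (∀ u : (ZMod m)ˣ, (∀ f : Polynomial ℂ, f.degree < (sg m r b (u : ZMod m).val : WithBot ℕ) →
      ∃ a ∈ Ws10 D u, ∀ k, a (v k) = Pc m b (u : ZMod m).val s f k) ∧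
      ∀ a ∈ Ws10 D u, ∃ f : Polynomial ℂ, f.degree < (sg m r b (u : ZMod m).val : WithBot ℕ) ∧
        ∀ k, a (v k) = Pc m b (u : ZMod m).val s f k) → ∀ u : (ZMod m)ˣ,
    NDc m b (u : ZMod m).val s ∧
      ((¬ ∃ g, Bad g ∧ ∃ J ∈ g, IsJc m b (u : ZMod m).val s J) →
        ∀ h, HLie D h → Hits D h {u})

/-! ## Permutations of the branch points -/

/-- PERMUTATIONS. PROOF. The product over `j` and the sum in `sg` are invariant under `σ`
(`Equiv.prod_comp`, `Equiv.sum_comp`); `N'` has the same `Z`, `γ`. -/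
def S_cPm : Prop :=
  ∀ (T : AV) (m r : ℕ) (s : Fin (r + 1) → ℂ) (b : Fin (r + 1) → ℕ)
    (σ : Equiv.Perm (Fin (r + 1))),
    (∀ u, sg m r (b ∘ σ) u = sg m r b u) ∧ (IsCov m s b → IsCov m (s ∘ σ) (b ∘ σ)) ∧
    ∀ N : New T m s b, ∃ N' : New T m (s ∘ σ) (b ∘ σ), N'.Z = N.Z

/-- SORTING. PROOF. If the real parts of the `s_j` are different there is `σ` such that `re s_(σ j)`
increases (`Tuple.sort`). The sets `{s | (s i).re = (s j).re}`, `i ≠ j`, are closed with empty interior.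
`s ↦ s ∘ σ` is a homeomorphism (`Homeomorph.piCongrLeft` or directly), so the preimage of a meagre
set is meagre (`IsMeagre.preimage_of_isOpenMap` or directly with `IsNowhereDense`). -/
def S_cSo : Prop :=
  ∀ (r : ℕ) (A : Equiv.Perm (Fin (r + 1)) → Set (Fin (r + 1) → ℂ)), (∀ σ, IsMeagre (A σ)) →
    IsMeagre {s : Fin (r + 1) → ℂ | ∀ σ : Equiv.Perm (Fin (r + 1)), Inc (s ∘ σ) → s ∘ σ ∈ A σ}

end SEB
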