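import Pool.Agent.Lib.SE.Big.Asm7
import Pool.Agent.Lib.SE.Q.SpecG

/-!
# PROJECT SE, module IsBig, part 6: five or more branch points, no condition of aperiodicity (helper64)

As part 5, for `r ≥ 3` (at least five branch points) and WITHOUT the hypothesis that the signatures are
aperiodic, and with a weaker condition on one signature (`HypV`): the only excluded case is
`p(u) = p(-u)` for all characters `u` with `0 < p(u) < r` and, at the same time, `m ∣ 2 ∑ b_j`. Consequence: for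
every `m ≥ 3`, `n ≥ 4`, `m ∤ n`, and all complex polynomials `f` of degree `n` outside a meagre set, the Hodge
conjecture for `A × J ^ N`, `J` the new part of the Jacobian of `y ^ m = f(x)`.

Two new arguments: the symplectic case of the rank one criterion (`R1S`, `dSp`), and linked characters
(`eD`-`eF`, `fL`-`fA`): a link gives a constant algebraic matrix `θ` with `θ J_u(s) = J_v(s) θ` on an open
set, its derivatives give `μ_u = μ_v`, so `u = v`.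

Every module: file `SE/Big/Xyz.lean` (`S_dXyz`: file `dXyz.lean`), `theorem tXyz : S_Xyz`, namespace `SEB`,
import `Pool.Agent.Lib.SE.Big.VG4` and the proved modules you want to use. If the docstring says
`From S_A, S_B` and these are not hypotheses in the statement itself, the theorem is
`tXyz : S_A → S_B → S_Xyz`. Auxiliary lemmas in `namespace SEB.Xyz_aux`.
-/

set_option autoImplicit false

open Module MeasureTheory Topology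

noncomputable section

namespace SEB

open HC HC.E HC.SE

/-! ## The symplectic case -/

/-- `ω` is a symplectic form, preserved up to scalars by `g`. -/
def Csp {V : Type} [AddCommGroup V] [Module ℂ V] (ω : V →ₗ[ℂ] V →ₗ[ℂ] ℂ)
    (g : Submodule ℂ (Module.End ℂ V)) : Prop :=
  (∀ v, ω v v = 0) ∧ (∀ v, (∀ w, ω v w = 0) → v = 0) ∧
    ∀ X ∈ g, ∃ χ : ℂ, ∀ v w, ω (X v) w + ω v (X w) = χ * ω v w

/-- RANK ONE NILPOTENTS, all signatures: `sl` or symplectic. PROOF. Notations and steps (1)-(3) of the proof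
of `S_R1N` (VG2.lean; SE/Big/R1N.lean: `Dat`, `Dat.n1`, `Dat.two`, `Dat.two'`, `Dat.sec`, `Dat.fin`). If
`x ⊗ α ∈ g` for some `α ≠ 0` in `V₀*` or `v ⊗ φ ∈ g` for some `v ≠ 0` in `V₀`: first alternative
(`Dat.fin`). Else there is a linear injective `τ : V₀ → V₀*` with `R_v = x ⊗ τ(v) + v ⊗ φ ∈ g`, and
`x ⊗ α + v ⊗ φ ∈ g` (`α ∈ V₀*`, `v ∈ V₀`) implies `α = τ(v)`. Then (`φ y = ψ x = 1`, `φ x = ψ y = 0`)
`S_v = [f, R_v] = y ⊗ τ(v) - v ⊗ ψ ∈ g`, and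
`L = [R_v, S_w] = v ⊗ τ(w) + w ⊗ τ(v) - τ(v)(w) x ⊗ ψ - τ(w)(v) y ⊗ φ`,
`[L, R_z] = x ⊗ β + z' ⊗ φ`, `z' = τ(w)(z) v + τ(v)(z) w + τ(w)(v) z`,
`β = -τ(v)(w) τ(z) - τ(z)(v) τ(w) - τ(z)(w) τ(v)`. So `β = τ(z')`; with `σ(v,w) = τ(v)(w) + τ(w)(v)`:
`σ(v,w) z + σ(v,z) w + σ(w,z) v = 0`, so (`v = w = z`) `3 σ(v,v) v = 0`, `σ = 0`: `τ` is alternating. Put
`ω(x,y) = 1`, `ω(x,V₀) = ω(y,V₀) = 0`, `ω(v,w) = τ(v)(w)` on `V₀`, alternating, nondegenerate. For `X ∈ g` the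
components for the eigenvalues `2, 1, 0, -1, -2` of `ad h` are in `g` and are `c e`; `R_v`;
`X₀ = c₁ x ⊗ ψ + c₂ y ⊗ φ + Y`; `S_v` (`[e, y ⊗ α + v ⊗ ψ] = x ⊗ α - v ⊗ φ` gives `α = -τ(v)`); `c f`. All of
them preserve `ω` (`χ = 0`) except `X₀`: `[X₀, R_v] = x ⊗ (c₁ τ(v) - τ(v) ∘ Y) + (Y v - c₂ v) ⊗ φ`, so
`τ(Y v) + τ(v) ∘ Y = (c₁ + c₂) τ(v)`: `χ = c₁ + c₂`. -/
def S_R1S : Prop :=
  ∀ (V : Type) [AddCommGroup V] [Module ℂ V] [FiniteDimensional ℂ V]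
    (g : Submodule ℂ (Module.End ℂ V)) (J : Module.End ℂ V) (x y : V) (φ ψ : Module.Dual ℂ V),
    (∀ X ∈ g, ∀ Y ∈ g, X * Y - Y * X ∈ g) → J ∈ g → J * J = -1 →
    J x = -Complex.I • x → J y = Complex.I • y →
    (∀ v, φ (J v) = Complex.I * φ v) → (∀ v, ψ (J v) = -Complex.I * ψ v) →
    φ y ≠ 0 → ψ x ≠ 0 → φ.smulRight x ∈ g → ψ.smulRight y ∈ g →
    (∀ U : Submodule ℂ V, (∀ X ∈ g, ∀ u ∈ U, X u ∈ U) → U = ⊥ ∨ U = ⊤) →
    (∀ X : Module.End ℂ V, LinearMap.trace ℂ V X = 0 →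
      X ∈ Submodule.span ℂ {Y | ∃ A ∈ g, ∃ B ∈ g, Y = A * B - B * A}) ∨
    ∃ ω : V →ₗ[ℂ] V →ₗ[ℂ] ℂ, Csp ω g

/-- KEY, all signatures. From `S_R1S`, `S_Sg`, `S_cPv`, `S_cJx`, `S_cRk1`. PROOF. As `S_cKey`
(SE/Big/cKey.lean), with `S_R1S` in place of `S_R1N`. -/
def S_dKey : Prop :=
  ∀ (m r : ℕ) (b : Fin (r + 1) → ℕ) (u : ℕ) (s : Fin (r + 1) → ℂ), Admc m b u s → NDc m b u s →
    Nj (mu m b u) s → Nj (mu m b (m - u)) s →
    0 < sg m r b u → 0 < sg m r b (m - u) →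
    ∀ (g : Submodule ℂ (Module.End ℂ (Fin r → ℂ))) (J : Module.End ℂ (Fin r → ℂ)),
    (∀ X ∈ g, ∀ Y ∈ g, X * Y - Y * X ∈ g) → IsJc m b u s J → J ∈ g →
    (∀ a : Polynomial ℂ, ∃ D ∈ g, IsDJc m b u s J a D) →
    (∀ X : Module.End ℂ (Fin r → ℂ), LinearMap.trace ℂ _ X = 0 →
      X ∈ Submodule.span ℂ {Y | ∃ A ∈ g, ∃ B ∈ g, Y = A * B - B * A}) ∨
    ∃ ω : (Fin r → ℂ) →ₗ[ℂ] (Fin r → ℂ) →ₗ[ℂ] ℂ, Csp ω g

/-- NO CONSTANT SYMPLECTIC FORM. From `S_cPv`, `S_cKap`, `S_cD`, `S_cJx`, `S_Sg`. PROOF. `p = sg u`, `r = 2 p`,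
`W⁺(s) = {Pc f | deg f < p}`, `J = J(s)`, eigenvalue `i` on `W⁺`, `-i` on `W⁻`. `ω(J v, w) + ω(v, J w) = χ ω(v, w)`: for
`v, w ∈ W⁺`: `2 i ω = χ ω`; `v, w ∈ W⁻`: `-2 i ω = χ ω`; `v ∈ W⁺`, `w ∈ W⁻`: `0 = χ ω`. If `χ ≠ 0` then
`ω(W⁺, W⁻) = 0`, so `ω` is not zero on `W⁺`, not on `W⁻`: `2 i = χ = -2 i`, contradiction. So `χ = 0`,
`ω(W⁺, W⁺) = 0`. Write `⟨f, g⟩ = ω(Pc f, Pc g)` (a function of `s ∈ U`), `M = ∑ μ_j` (not an integer),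
`P₁ = ∑ μ_j s_j`, `P₂ = ∑ μ_j s_j²`. By `S_cD` the derivative of `⟨f, g⟩` along the vector field `a` is
`⟨Thc a f, g⟩ + ⟨f, Thc a g⟩`, and for `a = X²`, `a = X³`:
`Thc X² X^i = (i + 2 - M) X^(i+1) - P₁ X^i`, `Thc X³ X^i = (i + 3 - M) X^(i+2) - P₁ X^(i+1) - P₂ X^i`. On `U`:
`⟨X^i, X^j⟩ = 0` for `i, j < p`. Derivative along `X²` of `⟨X^i, X^(p-1)⟩ = 0`, `i ≤ p - 2`:
`(p + 1 - M) ⟨X^i, X^p⟩ = 0`, so `⟨X^i, X^p⟩ = 0` for `i ≤ p - 2`. Derivative along `X²` of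
`⟨X^(p-2), X^p⟩ = 0`: `(p - M) κ + (p + 2 - M) z = 0`, `κ = ⟨X^(p-1), X^p⟩`, `z = ⟨X^(p-2), X^(p+1)⟩`. Derivative
along `X³` of `⟨X^(p-2), X^(p-1)⟩ = 0`: `-(p + 1 - M) κ + (p + 2 - M) z = 0`. Subtract:
`(2 p + 1 - 2 M) κ = 0`. At the point `s` with `Nj`: `κ ≠ 0`, because otherwise `Pc X^p` is orthogonal to
`W⁺`, which is its own orthogonal (`dim W⁺ = p = r/2`), so `Pc X^p = Pc f`, `deg f < p`, contradiction to `Nj`
(`p < r`). So `2 M = 2 p + 1 = r + 1`; `m M = ∑ (m - (u b_j mod m))`: `2 ∑ (u b_j mod m) = (r + 1) m`, so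
`m ∣ 2 u ∑ b_j`, `u` is prime to `m`. -/
def S_dSp : Prop :=
  ∀ (m r : ℕ) (b : Fin (r + 1) → ℕ) (u : ℕ) (U : Set (Fin (r + 1) → ℂ)), IsOpen U →
    (∀ s ∈ U, Admc m b u s ∧ NDc m b u s) → (∃ s ∈ U, Nj (mu m b u) s) → 2 ≤ sg m r b u →
    sg m r b (m - u) = sg m r b u →
    ∀ (ω : (Fin r → ℂ) →ₗ[ℂ] (Fin r → ℂ) →ₗ[ℂ] ℂ) (g : Submodule ℂ (Module.End ℂ (Fin r → ℂ))),
    Csp ω g → (∀ s ∈ U, ∀ J, IsJc m b u s J → J ∈ g) → m ∣ 2 * ∑ j, b j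

/-- BAIRE. From `S_cKap`, `S_cN`, `S_cJx`, `S_Sg`, `S_cKey`, `S_dKey`, `S_dSp`, `S_cDj`, `S_cCj`. PROOF. As
`S_cBa2` (SE/Big/cBa2.lean). If `{s | Admc, NDc, J(s) ∈ g}` (`g` bad) contains a nonempty open set `U` there is
`s ∈ U` with `Nj` for `u` and `m - u`. If `sg u ≠ sg (m - u)`: `S_cKey`. Else `r = 2 sg u`, `sg u ≥ 2`: `S_dKey`
gives `sl`, against `Bad g`, or `Csp ω g`, and `S_dSp` gives `m ∣ 2 ∑ b_j`. -/
def S_dBa : Prop :=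
  ∀ (m r : ℕ) (b : Fin (r + 1) → ℕ) (u : ℕ), 3 ≤ r → 0 < sg m r b u → 0 < sg m r b (m - u) →
    (sg m r b u ≠ sg m r b (m - u) ∨ ¬ m ∣ 2 * ∑ j, b j) →
    IsMeagre {s : Fin (r + 1) → ℂ | Admc m b u s ∧ NDc m b u s ∧
      ∃ g, Bad g ∧ ∃ J ∈ g, IsJc m b u s J}

/-! ## Links in the period domain -/

/-- `θ` intertwines the multiplications by `i` at the characters `u` and `v`. -/
def Lk (m : ℕ) {r : ℕ} (b : Fin (r + 1) → ℕ) (u v : ℕ) (s : Fin (r + 1) → ℂ)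
    (θ : Module.End ℂ (Fin r → ℂ)) : Prop :=
  ∀ J J', IsJc m b u s J → IsJc m b v s J' → θ * J = J' * θ

/-- `s` is admissible and nondegenerate for `u` and for `v`. -/
def Ad2 (m : ℕ) {r : ℕ} (b : Fin (r + 1) → ℕ) (u v : ℕ) (s : Fin (r + 1) → ℂ) : Prop :=
  Admc m b u s ∧ NDc m b u s ∧ Admc m b v s ∧ NDc m b v s

/-- There is an injective `θ` with algebraic entries. -/
def LkA (m : ℕ) {r : ℕ} (b : Fin (r + 1) → ℕ) (u v : ℕ) (s : Fin (r + 1) → ℂ) : Prop :=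
  ∃ θ : Module.End ℂ (Fin r → ℂ), Function.Injective θ ∧
    (∀ k l, IsAlgebraic ℚ (θ (Pi.single k 1) l)) ∧ Lk m b u v s θ

/-- LINEAR ALGEBRA. PROOF. Lagrange basis `f_i` (`i < p`) for the points `x_0, …, x_(p-1)`: `T f_i` vanishes at
the other points, so `T f_i = λ_i f_i`. `f_i(x_p) ≠ 0`. `f_j(x_p) f_i - f_i(x_p) f_j` vanishes at `x_p`, so
`(λ_i - λ_j) f_i(x_p) f_j(x_p) = 0`. -/
def S_eT : Prop :=
  ∀ (p : ℕ) (x : Fin (p + 1) → ℂ), Function.Injective x →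
    ∀ T : Polynomial.degreeLT ℂ p →ₗ[ℂ] Polynomial.degreeLT ℂ p,
    (∀ j (f : Polynomial.degreeLT ℂ p), (f : Polynomial ℂ).eval (x j) = 0 →
      (T f : Polynomial ℂ).eval (x j) = 0) → ∃ c : ℂ, ∀ f, T f = c • f

/-- DERIVATIVE OF A LINK. From `S_cPv`, `S_cKap`, `S_cD`, `S_cJx`, `S_Sg`. PROOF. `s_ε = s + ε a(s)`, `ε` real and
small. `θ Pc_u(f)` at `s_ε` is in the eigenspace of `i` of `J_v(s_ε)`, so it is `Pc_v(g_ε)` with a unique `g_ε`,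
`deg g_ε < sg v`, `g_0 = g` (`S_cJx`, `NDc`). The coefficients of `g_ε` are differentiable at `0`: the columns
`Pc_v(X^i)`, `i < sg v`, at `s` are independent, let `L` be a left inverse of the matrix `N_0` of these columns;
`L N_ε` is invertible for small `ε` and the coefficients are `(L N_ε)⁻¹ L θ Pc_u(f)` at `s_ε`. Differentiate
(`cDj_aux.Pc_deriv` in SE/Big/cDj.lean). -/
def S_eD : Prop :=
  ∀ (m r : ℕ) (b : Fin (r + 1) → ℕ) (u v : ℕ) (U : Set (Fin (r + 1) → ℂ)), IsOpen U →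
    (∀ s ∈ U, Ad2 m b u v s) → ∀ θ : Module.End ℂ (Fin r → ℂ), (∀ s ∈ U, Lk m b u v s θ) →
    ∀ s ∈ U, ∀ f g : Polynomial ℂ, f.degree < (sg m r b u : WithBot ℕ) →
    g.degree < (sg m r b v : WithBot ℕ) → θ (Pc m b u s f) = Pc m b v s g →
    ∀ a : Polynomial ℂ, ∃ g' : Polynomial ℂ, g'.degree < (sg m r b v : WithBot ℕ) ∧
      θ (Pc m b u s (Thc (mu m b u) s a f)) =
        Pc m b v s g' + Pc m b v s (Thc (mu m b v) s a g)

/-- A LINK IS A SCALAR. From `S_eT`, `S_eD`, `S_cPv`, `S_cKap`, `S_cE`, `S_cJx`, `S_Sg`. PROOF. `p = sg u = sg v`,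
`r ≥ p + 1`. `θ Pc_u(f) = Pc_v(T f)`, `T` linear on the polynomials of degree `< p` (`Lk`, `S_cJx`), injective.
`a_j` the polynomial of degree `r` with `a_j(s_l) = δ_(jl)`; `Pc (Thc a_j ((X - s_j) f₁)) = μ_j Pc f₁` for all
`f₁` (`cRk1_aux.Th_ac` in SE/Big/cRk1.lean and `S_cE`). Let `f(s_j) = 0`, `f = (X - s_j) f₁`, `g = T f`,
`g = g(s_j) + (X - s_j) g₁`. `S_eD` with `a = a_j`: `μ_j(u) Pc_v(T f₁) = θ Pc_u(Thc a_j f) = Pc_v(g') + g(s_j)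
Pc_v(Thc a_j 1) + μ_j(v) Pc_v(g₁)`, so `g(s_j) Pc_v(Thc a_j 1) = Pc_v(g'')`, `deg g'' < p`. `Thc a_j 1` has degree
exactly `r - 1 ≥ p` (leading coefficient `(r - ∑ μ_l) lc(a_j) ≠ 0`), so `Nj` gives `g(s_j) = 0`. `S_eT` for the
points `s_0, …, s_p`: `T = c`, `c ≠ 0`. -/
def S_eS : Prop :=
  ∀ (m r : ℕ) (b : Fin (r + 1) → ℕ) (u v : ℕ) (U : Set (Fin (r + 1) → ℂ)), IsOpen U →
    (∀ s ∈ U, Ad2 m b u v s) → ∀ θ : Module.End ℂ (Fin r → ℂ), Function.Injective θ →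
    (∀ s ∈ U, Lk m b u v s θ) → 1 ≤ sg m r b u → sg m r b v = sg m r b u →
    1 ≤ sg m r b (m - u) → ∀ s ∈ U, Nj (mu m b v) s →
    ∃ c : ℂ, c ≠ 0 ∧ ∀ f : Polynomial ℂ, f.degree < (sg m r b u : WithBot ℕ) →
      θ (Pc m b u s f) = c • Pc m b v s f

/-- THE EXPONENTS OF LINKED CHARACTERS ARE EQUAL. From `S_eS`, `S_cPv`, `S_cKap`, `S_cD`, `S_cE`. PROOF. `s ∈ U`,
`a = a_j`, `s_ε = s + ε a_j(s)` (only `s_j` moves). `θ Pc_u(f) = c(ε) Pc_v(f)` at `s_ε` for all `f` of degree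
`< p` (`S_eS`). `Pc_v(1) ≠ 0` at `s`, take a coordinate: `c(ε)` is differentiable at `0`. Differentiate for the
fixed polynomial `f = X - s_j` (`p ≥ 2`): `μ_j(u) θ Pc_u(1) = c' Pc_v(X - s_j) + c μ_j(v) Pc_v(1)`, and
`θ Pc_u(1) = c Pc_v(1)`: `Pc_v(c (μ_j(u) - μ_j(v)) - c' (X - s_j)) = 0`; `Nj` (degree `1 < r`):
`μ_j(u) = μ_j(v)`. -/
def S_eM : Prop :=
  ∀ (m r : ℕ) (b : Fin (r + 1) → ℕ) (u v : ℕ) (U : Set (Fin (r + 1) → ℂ)), IsOpen U →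
    U.Nonempty → (∀ s ∈ U, Ad2 m b u v s) → (∀ s ∈ U, Nj (mu m b v) s) →
    ∀ θ : Module.End ℂ (Fin r → ℂ), Function.Injective θ → (∀ s ∈ U, Lk m b u v s θ) →
    2 ≤ sg m r b u → sg m r b v = sg m r b u → 1 ≤ sg m r b (m - u) →
    ∀ j, mu m b u j = mu m b v j

/-- PROOF. `nn` is equal, so `u b_j = v b_j` modulo `m` for all `j`; `d = m / gcd(m, |u - v|)` divides `m` and all
`b_j`, so `d = 1` (`IsCov`), `m ∣ u - v`. -/
def S_eU : Prop :=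
  ∀ (m r : ℕ) (b : Fin (r + 1) → ℕ) (u v : ℕ) (s : Fin (r + 1) → ℂ), Admc m b u s →
    Admc m b v s → (∀ j, mu m b u j = mu m b v j) → u = v

/-- OPENNESS. From `S_cI`, `S_cC`. PROOF. `Nj` iff `det (Ic μ s k X^d)_(k,d) ≠ 0` (see SE/Big/cN.lean). -/
def S_eO : Prop :=
  ∀ (r : ℕ) (μ : Fin (r + 1) → ℝ), Exq μ → IsOpen {s : Fin (r + 1) → ℂ | Inc s ∧ Nj μ s}

/-- BAIRE FOR LINKS. From `S_cI`, `S_cKap`, `S_cPv`, `S_cC`, `S_cJx`, `S_cN`, `S_Sg`, `S_eM`, `S_eU`, `S_eO`. PROOF.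
Countably many `θ`. `{s | Ad2, Lk θ}` is relatively closed in the open set `{s | Ad2}` (`J_u(s)`, `J_v(s)` are
unique and continuous: `cCj_aux.JM`, `MM_cont` in SE/Big/cCj.lean). If it contains a nonempty open set, the part
of it with `Nj (mu m b v)` is open and not empty (`S_eO`, `S_cN`): `S_eM`, `S_eU` give `u = v`. -/
def S_eB : Prop :=
  ∀ (m r : ℕ) (b : Fin (r + 1) → ℕ) (u v : ℕ), u ≠ v → 2 ≤ sg m r b u →
    sg m r b v = sg m r b u → 1 ≤ sg m r b (m - u) →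
    IsMeagre {s : Fin (r + 1) → ℂ | Ad2 m b u v s ∧ LkA m b u v s}

/-- BAIRE FOR LINKS, all signatures, `r ≥ 3`. From `S_eB`, `S_cJx`, `S_Sg`. PROOF. `θ` is injective, so bijective,
and maps the eigenspaces of `J_u` to those of `J_v`: `sg v = sg u` if `Ad2` and `LkA` hold (`S_cJx`). `sg u ≥ 2`:
`S_eB`. Else `sg (m - u) = r - 1 ≥ 2`, and `s` is in the set of `S_eB` for `m - u`, `m - v`: `NDc` for `m - u`
(conjugate the relation), `J ↦ star J star` is a bijection between `IsJc u` and `IsJc (m - u)`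
(`m - (m - u) = u`), `θ ↦ star θ star` has algebraic entries. -/
def S_eF : Prop :=
  ∀ (m r : ℕ) (b : Fin (r + 1) → ℕ) (u v : ℕ), 3 ≤ r → u ≠ v → 0 < sg m r b u →
    0 < sg m r b (m - u) → IsMeagre {s : Fin (r + 1) → ℂ | Ad2 m b u v s ∧ LkA m b u v s}

/-! ## Links in `T` -/

/-- LINKED CHARACTERS. PROOF. The beginning of the proof of `S_Two` (SE/Big/Two.lean: `nohits`, `dich`; private,
copy them). -/
def S_fL : Prop :=
  S_Bas → S_Dim → S_LI → S_Cl → S_Gou → ∀ (T : AV) (m r : ℕ) (D : Cyc T m), 3 ≤ m →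
    2 ≤ r → 2 * finrank ℂ T.V = r * Nat.totient m → ∀ h, HLie D h →
    (∀ s, Hits D h {s}) → ∀ s t, t ≠ s → ¬ Hits D h {s, t} →
    ∀ ρ : (ZMod m)ˣ, ∀ C ∈ gg h, (∀ a ∈ Ws D (ρ * s), C a = 0) ↔ ∀ b ∈ Ws D (ρ * t), C b = 0

/-- FROM A LINK TO `θ`. From `S_Bas`, `S_Dim`, `S_Cl`, `SEQ.S_Int`, `SEQ.S_IntG`, `SEQ.S_Dua`, `SEQ.S_TrJ`. PROOF. As
`SEQ.S_Th0g`, `SEQ.S_Jc` (SE/Q/Th0g.lean, SE/Q/Jc.lean) for `T = T'`, `D = D'`, one Lie algebra `h`: `S_IntG` for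
`P = {(C|Ws s, C|Ws t) | C ∈ gg h}`; in the second case compose with `S_Dua`. `θ J θ⁻¹ - J'` commutes with all
traceless operators (`S_Cl`: `[J, ·]` preserves `gg h`), so it is a scalar `c`; `c (2 J' + c) = 0`; `c ≠ 0` would
make `J` scalar on `Ws s`, but it has the eigenvalues `i` (`p s > 0`) and `-i` (`p (-s) > 0`). -/
def S_fT : Prop :=
  ∀ (T : AV) (m r : ℕ) (D : Cyc T m), 3 ≤ m →
    2 ≤ r → 2 * finrank ℂ T.V = r * Nat.totient m → ∀ h, HLie D h →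
    (∀ s, Hits D h {s}) → ∀ s t, (∀ C ∈ gg h, (∀ a ∈ Ws D s, C a = 0) ↔ ∀ b ∈ Ws D t, C b = 0) →
    0 < D.p s → 0 < D.p (-s) → ∃ t', (t' = t ∨ t' = -t) ∧ ∃ θ : Ws D s ≃ₗ[ℂ] Ws D t',
      (∀ C ∈ gg h, ∀ a b : Ws D s, (b : Frm T) = C (a : Frm T) →
        (θ b : Frm T) = C (θ a : Frm T)) ∧
      ∀ a b : Ws D s, (b : Frm T) = pre (mulI T) (a : Frm T) →
        (θ b : Frm T) = pre (mulI T) (θ a : Frm T)

/-- COORDINATES OF A LINK. From `S_Bas`, `S_Dim`, `S_cKap`, `S_cPv`. Hypotheses on `v` as in `S_cHit`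
(SE/Big/cHit.lean). PROOF. `Φ_u(a) = (a(v_k))_k : Ws D u → ℂ^r` is bijective. For `X` rational commuting with `Z`:
`Φ_u ∘ pre X = X̂_u ∘ Φ_u`, `X̂_u` with algebraic entries. `θ' = Φ_w θ Φ_u⁻¹` intertwines the `Ŷ_u`, `Ŷ_w`,
`Y ∈ Com h`, and `J_u`, `J_w` (`IsJc`: the last hypothesis). The matrices `B` with `B Ŷ_u = Ŷ_w B` for all
`Y ∈ Com h` are the solutions of a system of linear equations with algebraic coefficients; it has the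
solution `θ' ≠ 0`, so a solution `B ≠ 0` with algebraic entries (compare `S_RatSp`: write the entries of `θ'` in
a basis over the algebraic numbers). `B θ'⁻¹` commutes with the `Ŷ_w`, whose complex span contains
all traceless matrices (`Hits D h {w}`), so it is a scalar, not `0`: `B = c θ'`. -/
def S_fA : Prop :=
  ∀ (T : AV) (m r : ℕ) (s : Fin (r + 1) → ℂ) (b : Fin (r + 1) → ℕ) (D : Cyc T m), Inc s →
    IsCov m s b → (∀ u < m, u.Coprime m → Nj (mu m b u) s) →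
    2 ≤ r → 2 * finrank ℂ T.V = r * Nat.totient m →
    ∀ v : Fin r → T.V, (∀ u, ∀ a ∈ Ws D u, (∀ k, a (v k) = 0) → a = 0) →
    (∀ X : Module.End ℝ T.V, RatEnd T X → (∀ w, X (D.Z w) = D.Z (X w)) →
      ∃ (N : ℤ) (x : Fin r → Fin r → Polynomial ℤ), N ≠ 0 ∧
        ∀ k, N • X (v k) = ∑ j, (Polynomial.aeval D.Z (x k j)) (v j)) →
    (∀ u : (ZMod m)ˣ, (∀ f : Polynomial ℂ, f.degree < (sg m r b (u : ZMod m).val : WithBot ℕ) →
      ∃ a ∈ Ws10 D u, ∀ k, a (v k) = Pc m b (u : ZMod m).val s f k) ∧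
      ∀ a ∈ Ws10 D u, ∃ f : Polynomial ℂ, f.degree < (sg m r b (u : ZMod m).val : WithBot ℕ) ∧
        ∀ k, a (v k) = Pc m b (u : ZMod m).val s f k) →
    ∀ h, HLie D h → ∀ u w : (ZMod m)ˣ, Hits D h {w} → ∀ θ : Ws D u ≃ₗ[ℂ] Ws D w,
    (∀ C ∈ gg h, ∀ a a' : Ws D u, (a' : Frm T) = C (a : Frm T) →
      (θ a' : Frm T) = C (θ a : Frm T)) →
    (∀ a a' : Ws D u, (a' : Frm T) = pre (mulI T) (a : Frm T) →
      (θ a' : Frm T) = pre (mulI T) (θ a : Frm T)) →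
    LkA m b (u : ZMod m).val (w : ZMod m).val s

/-! ## Definite signatures, arithmetic -/

/-- ALL SIGNATURES DEFINITE: commutative. From `S_Pj`, `S_Bas`, `S_Dim`. PROOF. `h` = the rational combinations of
powers of `ZR` which are in `u_E` (`IsU`): commutative, rational. `J = mulI T` acts on `Ws D s` as `± i`
(`Ws10 D s` is `0` or everything: `S_Dim`), so `pre J = ∑_s ± i pj_s` (`S_Bas`) is a complex combination of the
`pre (Z^k)` (`S_Pj`); evaluate at real valued forms and take real parts: `J = ∑ x_k Z^k`, `x_k` real. `J` is skew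
for `ψ` and the adjoint of `Z^k` is `Z^(-k) = Z^(k (m-1))`: `J = ∑ x_k (Z^k - Z^(-k))/2`, and
`Z^k - Z^(-k)` is in `h`. -/
def S_fD : Prop :=
  ∀ (T : AV) (m r : ℕ) (D : Cyc T m), 3 ≤ m → 2 * finrank ℂ T.V = r * Nat.totient m →
    (∀ s, D.p s = 0 ∨ D.p (-s) = 0) → IsAb D

/-- One unit `u` with both signatures positive, and different or `m ∤ 2 ∑ b_j`. -/
def HypV (m r : ℕ) (b : Fin (r + 1) → ℕ) : Prop :=
  ∃ u < m, u.Coprime m ∧ 0 < sg m r b u ∧ 0 < sg m r b (m - u) ∧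
    (sg m r b u ≠ sg m r b (m - u) ∨ ¬ m ∣ 2 * ∑ j, b j)

/-- All signatures are definite. -/
def DefA (m r : ℕ) (b : Fin (r + 1) → ℕ) : Prop :=
  ∀ u < m, u.Coprime m → sg m r b u = 0 ∨ sg m r b (m - u) = 0

/-- THE CURVES `y ^ m = f(x)`. PROOF. `n = r + 1`. If not `DefA` there is a unit `u` with `sg u > 0`,
`sg (m - u) > 0`. If `m ∤ 2 n`: `HypV`. If `m ∣ 2 n`, `m ∤ n`: `m` is even, `2 n = m k`, `k` odd, `u` odd.
`sg u = r - t`, `sg (m - u) = t`, `t = ⌊n u / m⌋ = ⌊k u / 2⌋ = (k u - 1)/2` (`SE/Big/Pr3.lean`: `Pr3_aux`, the value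
of `sg` for every unit). `2 t = r` would give `k u = n`, `2 k u = m k`, `m = 2 u`, impossible for a unit `u`
as `m ≥ 3`. -/
def S_fN : Prop :=
  ∀ m r : ℕ, 3 ≤ m → 2 ≤ r → ¬ m ∣ r + 1 → HypV m r (fun _ => 1) ∨ DefA m r (fun _ => 1)

end SEB
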