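import Pool.Agent.Lib.SE.Big.Asm5

/-!
# PROJECT SE, module IsBig, part 7: the curves `y ^ m = f(x)`, `deg f = 3`, `m` even (helper64)

Module: file `SE/Big/Pr5.lean`, `theorem tPr5 : S_Pr5`, namespace `SEB`. Auxiliary lemmas in
`namespace SEB.Pr5_aux`.
-/

set_option autoImplicit false

noncomputable section

namespace SEB

/-- THE CURVES `y ^ m = f(x)`, `deg f = 3`, `m` EVEN. Notations (`SE/Big/Pr3.lean`: `Pr3_aux.sg_eq`, `t_add`, `dbl`):
`t(u) = ⌊3 u / m⌋`, `sg m 2 1 u = 2 - t(u)`, `sg (m - u) = t(u)`, so `sg u · sg (m - u) = 1` if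
`m < 3 u < 2 m`, and `0` otherwise. Write `|u|` for the distance of `u` to the nearest multiple of `m`; so the product
is `1` iff `3 |u| > m`. `Q(m, g)`: for all units `u` modulo `m`, `3 |u| > m ↔ 3 |g u| > m` (`3 |u| = m` is
impossible for a unit, `m ≥ 4`). To show: `Q(m, g)` implies `g = ± 1` modulo `m`, for all even `m ≥ 8`,
`m ≠ 10`. PROOF by strong induction on `m`.

(A) `M` odd, `M ≥ 7`, `g` a unit modulo `M` such that `6 |y| < M` implies `6 |g y| < M` (`|·|` modulo `M`) for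
all units `y`. Then `g = ± 1` modulo `M`: replace `g` by `± g`, `0 < g < M/2`. `y = 1`: `6 g < M`. By induction on `k`:
if `6 · 2^k < M` then `6 · 2^k g < M` (`k + 1`: `2^(k+1)` is a unit, `|2^(k+1)| = 2^(k+1)`, so
`6 |2^(k+1) g| < M`, and `2^(k+1) g < M/3`, so `|2^(k+1) g| = 2^(k+1) g`). Let `k` be maximal with
`6 · 2^k < M`: `6 · 2^k g < M ≤ 6 · 2^(k+1)`, so `g < 2`, `g = 1`.

(B) `m = 2 M`, `M` odd, so `M ≥ 7`. The units `u` modulo `m` with `3 |u| > m` are the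
`M + 2 y`, `y` a unit modulo `M` with `6 |y| < M`: if `6 |y| < M`, then `M + 2 y` (`y` the representative in
`(-M/6, M/6)`) is odd, prime to `M`, and in `(2M/3, 4M/3)`; conversely `u` in `(2M/3, 4M/3)`, odd,
`y = (u - M)/2`. `g` is odd, `g (M + 2 y) = M + 2 g y` modulo `2 M`, so `Q(m, g)` gives the hypothesis of (A) for
`M` and `g`: `g = ± 1` modulo `M`, and modulo `2 M` because `g` is odd.

(C) `4 ∣ m`. `g` is odd; for a unit `u`, `u + m/2` is a unit, `|u + m/2| = m/2 - |u|`,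
`g (u + m/2) = g u + m/2` modulo `m`. So `6 |u| < m ↔ 3 |u + m/2| > m ↔ 3 |g u + m/2| > m ↔ 6 |g u| < m`:
(1) `6 |u| < m ↔ 6 |g u| < m`. `u = 1`: (2) `6 |g| < m`. Let `M = m/2` (even), `x` an odd number prime to `M`; it
is a unit modulo `m`. The distance of `x` to the nearest multiple of `M` is `min(|x|, |x + m/2|)`, it is less than
`M/3 = m/6` iff `6 |x| < m` or `3 |x| > m`. So by (1) and `Q(m, g)`: `Q(M, g)` holds. If `M ≥ 8`, `M ≠ 10`: by
induction `g = ± 1` modulo `M`, `g = ± 1` or `± 1 + m/2` modulo `m`; `|± 1 + m/2| = m/2 - 1 ≥ m/6` excludes the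
second by (2). If `M < 8` or `M = 10`: `m = 8`, `12`, `20`. `m = 8`, `12`: (2) gives `|g| < 2`. `m = 20`:
`|g| ≤ 3`, `g` odd, and `g = ± 3`: `u = 3`: `6 · 3 < 20` but `|9| = 9`, against (1).

UNIT for `HypU`: `u` with `m < 3 u < 2 m`: `m = 4 l`: `u = 2 l - 1` (`l ≥ 2`); `m = 4 l + 2`: `u = 2 l - 1`
(`l ≥ 3`). -/
def S_Pr5 : Prop :=
  ∀ m : ℕ, Even m → 8 ≤ m → m ≠ 10 → AperC m 2 (fun _ => 1) ∧ HypU m 2 (fun _ => 1)

end SEB
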