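import Pool.Agent.Lib.SE.Big.VG4

/-!
# PROJECT SE, module IsBig, part 8: the symplectic case does not occur (helper64)

With this, for `r ≥ 3` there is no condition at all: if one signature is not definite, very general
branch points give `Full`, for EVERY `m ≥ 3` and all exponents `b_j`.

Every module: file `SE/Big/Xyz.lean` (`S_gXyz`: file `gXyz.lean`), `theorem tXyz : S_Xyz`, namespace `SEB`,
import `Pool.Agent.Lib.SE.Big.VG6` and the proved modules you want. If the docstring says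
`From S_A, S_B` and these are not hypotheses in the statement itself, the theorem is
`tXyz : S_A → S_B → S_Xyz`. Auxiliary lemmas in `namespace SEB.Xyz_aux`.
-/

set_option autoImplicit false

open Module MeasureTheory Topology

noncomputable section

namespace SEB

open HC HC.E HC.SE

/-- NO CONSTANT SYMPLECTIC FORM, except for `μ_j = 1/2`. From `S_cPv`, `S_cKap`, `S_cD`, `S_cE`, `S_cJx`, `S_Sg`. PROOF.
(SE/Big/dSp.lean: `dSp_aux.bil_deriv, der, iso, iso_dim` can be imported; SE/Big/cRk1.lean: `cRk1_aux.mul_dv,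
dv_unique, dv_add, Th_one_add, Th_one_coeff, Q, ac, Th_ac`.) `p = sg u`, `r = 2 p`, `p ≥ 2`. For `s ∈ U` and polynomials `f`,
`g` write `B(f, g) = ω(Pc f, Pc g)`, `dd(a, c) = a /ₘ (X - C c)` (`(X - c) dd(a, c) = a - a(c)`), `P = ∏_l (X - s_l)`.
(0) `B(f, g) = 0` for `deg f, g < p` (`dSp_aux.iso`). (1) `B(Thc a f, g) + B(f, Thc a g) = 0` for `deg f, g < p` and all
`a` (`dSp_aux.der`). (2) `Thc a 1` is additive in `a`, `Thc 1 1 = 0`, `Pc (Thc P h) = 0` (`S_cE`). (3) For `y = X - c`: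
`dd(a y, s_l) = y dd(a, s_l) + a(s_l)`, so `Thc a y = Thc (a y) 1 + C (∑_l μ_l a(s_l))`. (4) So, by (1) for `y`, `1` and (0):
`B(y, Thc a 1) = - B(Thc a y, 1) = B(1, Thc (a y) 1)` for all `a`. Fix `j` and put
`A = ∏_(l ≠ j) (X - s_l)`, `α = A(s_j) ≠ 0`, `y = X - s_j`, `P = A y`, `δ = dd(A, s_j)`, `A = α + y δ`, `q = Thc A 1`,
`κ = dd(δ, s_j)`. (5) `B(y, q) = B(1, Thc P 1) = 0`. (6) `B(y, Thc δ 1) = B(1, Thc (A - α) 1) = B(1, q)`.
(7) (5) holds at every point of `U`. Let `s_ε = s + ε A(s)` (`ε` real, small): only the coordinate `j` moves,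
`(s_ε)_j = s_j + ε α`, and `A` is the same polynomial for `s_ε`. `Thc_(s_ε) A 1 = q - μ_j ε α κ_ε`,
`κ_ε = dd(δ, s_j + ε α)` (`dd(A, c') - dd(A, c) = (c' - c) dd(dd(A, c), c')`). So
`ω(Pc_(s_ε)(y) - ε α Pc_(s_ε)(1), Pc_(s_ε)(q) - μ_j ε α Pc_(s_ε)(κ_ε)) = 0` for all small `ε`. The derivative at `0`
(`S_cD`; `ε ↦ Pc_(s_ε)(κ_ε)` is continuous at `0`: finite combination of the `Pc_(s_ε)(X^i)` with
continuous coefficients): `B(Thc A y - α, q) + B(y, Thc A q - μ_j α κ) = 0`.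
(8) `Thc A y = Thc P 1 + C (μ_j α)` by (3), so `B(Thc A y - α, q) = (μ_j - 1) α B(1, q)`.
(9) IDENTITY `Thc A q - μ_j α κ = μ_j α Thc δ 1 + q(s_j) q + Thc P h`, `h = dd(q, s_j)`. Proof: with
`S = ∑_(l ≠ j) μ_l dd(A, s_l)`: `q = A' - S - μ_j δ`, `Thc A q = A q' + q²`; `P' = A + y A'`, `dd(P, s_l) = y dd(A, s_l)` (`l ≠ j`),
`dd(P, s_j) = A`, `y h' = q' - h`, so `Thc P h = A (q' - h) + h (A + y A' - y S - μ_j A) = A q' + (q - q(s_j)) (A' - S) - μ_j h A`,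
`h A = h α + (q - q(s_j)) δ`, so `Thc P h = A q' + (q - q(s_j)) q - μ_j α h`. It remains: `h = Thc δ 1 + κ`. Multiply by `y`:
`y h = q - q(s_j)`, `y κ = δ - δ(s_j)`, `y Thc δ 1 = y δ' - ∑_(l≠j) μ_l y dd(δ, s_l) - μ_j (δ - δ(s_j))`,
`dd(A, s_l) = y dd(δ, s_l) + δ(s_l)` (`l ≠ j`), `A' = δ + y δ'`: both sides are
`y δ' + (1 - μ_j) (δ - δ(s_j)) - ∑_(l≠j) μ_l (dd(A, s_l) - δ(s_l))`, as `A'(s_j) = δ(s_j)` and
`dd(A, s_l)(s_j) = δ(s_l)`.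
So `B(y, Thc A q - μ_j α κ) = μ_j α B(1, q) + q(s_j) · 0 + 0` by (5), (6), (2), and (7), (8) give
`(2 μ_j - 1) α B(1, q) = 0`. (10) At the point `s` with `Nj`: `B(1, q) ≠ 0`. Otherwise, for
`f = f(s_j) + y f₁`, `deg f < p`: `B(y f₁, q) = - B(Thc A (y f₁), 1) = - μ_j α B(f₁, 1) = 0` (`Thc A (y f₁) = Thc P f₁ + μ_j α f₁`:
`cRk1_aux.Th_ac`), so `B(f, q) = 0`: `Pc q` is orthogonal to `W⁺ = {Pc f | deg f < p}`, which is its own
orthogonal (`dim W⁺ = p = r/2`, `dSp_aux.iso_dim`): `Pc q = Pc f`, `deg f < p ≤ r - 1 = deg q`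
(`Th_one_coeff`: the coefficient of `X^(r-1)` in `q` is `r - ∑ μ_l ≠ 0`), contradiction to `Nj`. -/
def S_gSp : Prop :=
  ∀ (m r : ℕ) (b : Fin (r + 1) → ℕ) (u : ℕ) (U : Set (Fin (r + 1) → ℂ)), IsOpen U →
    (∀ s ∈ U, Admc m b u s ∧ NDc m b u s) → (∃ s ∈ U, Nj (mu m b u) s) → 2 ≤ sg m r b u →
    sg m r b (m - u) = sg m r b u →
    ∀ (ω : (Fin r → ℂ) →ₗ[ℂ] (Fin r → ℂ) →ₗ[ℂ] ℂ) (g : Submodule ℂ (Module.End ℂ (Fin r → ℂ))),
    Csp ω g → (∀ s ∈ U, ∀ J, IsJc m b u s J → J ∈ g) → ∀ j, mu m b u j = 1 / 2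

/-- BAIRE, no condition. From `S_cKap`, `S_cN`, `S_cJx`, `S_Sg`, `S_cKey`, `S_dKey`, `S_gSp`, `S_cDj`, `S_cCj`. PROOF. As
`S_dBa` (SE/Big/dBa.lean); in the symplectic case `S_gSp` gives `2 nn m b u j = m` for all `j`, so
`m ∣ 2 u b_j`, `m ∣ 2 b_j`, and `m ∤ b_j` gives: `m` is even and `m/2 ∣ b_j` for all `j`; `IsCov` with `d = m/2`: `m = 2`,
contradiction to `3 ≤ m`. -/
def S_gBa : Prop :=
  ∀ (m r : ℕ) (b : Fin (r + 1) → ℕ) (u : ℕ), 3 ≤ r → 0 < sg m r b u → 0 < sg m r b (m - u) →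
    IsMeagre {s : Fin (r + 1) → ℂ | Admc m b u s ∧ NDc m b u s ∧
      ∃ g, Bad g ∧ ∃ J ∈ g, IsJc m b u s J}

end SEB
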