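import Pool.Agent.Lib.SE.Big.VG3

/-!
# PROJECT SE, IsBig part 5, cCb: Cauchy's theorem for the trapezoid between `s_k` and `s_(k+1)`

`trap`: the divergence theorem for the bilinear map of the rectangle `[l, 1] × [0, 1]` and `l → 0`.
-/

set_option autoImplicit false

open Module MeasureTheory Topology Filter

noncomputable section

namespace SEB

open HC HC.E HC.SE

namespace cCb_aux

/-- the bilinear map -/
def Xb (p α Δ δ : ℂ) (v : ℝ × ℝ) : ℂ := p + v.1 * α + v.2 * (Δ + v.1 * δ)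

lemma d1 (v : ℝ × ℝ) : HasFDerivAt (fun v : ℝ × ℝ => (v.1 : ℂ))
    ((ContinuousLinearMap.fst ℝ ℝ ℝ).smulRight (1 : ℂ)) v := by
  have := (Complex.ofRealCLM.comp (ContinuousLinearMap.fst ℝ ℝ ℝ)).hasFDerivAt (x := v)
  refine this.congr_fderiv ?_
  ext <;> simp

lemma d2 (v : ℝ × ℝ) : HasFDerivAt (fun v : ℝ × ℝ => (v.2 : ℂ))
    ((ContinuousLinearMap.snd ℝ ℝ ℝ).smulRight (1 : ℂ)) v := by
  have := (Complex.ofRealCLM.comp (ContinuousLinearMap.snd ℝ ℝ ℝ)).hasFDerivAt (x := v)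
  refine this.congr_fderiv ?_
  ext <;> simp

lemma c1 (v : ℝ × ℝ) (a b : ℂ) : HasFDerivAt (fun v : ℝ × ℝ => a + (v.1 : ℂ) * b)
    ((ContinuousLinearMap.fst ℝ ℝ ℝ).smulRight b) v := by
  refine (((d1 v).mul_const b).const_add a).congr_fderiv ?_
  ext <;> simp

lemma c2 (v : ℝ × ℝ) (a b : ℂ) : HasFDerivAt (fun v : ℝ × ℝ => a + (v.2 : ℂ) * b)
    ((ContinuousLinearMap.snd ℝ ℝ ℝ).smulRight b) v := by
  refine (((d2 v).mul_const b).const_add a).congr_fderiv ?_
  ext <;> simp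

lemma Xb_deriv (p α Δ δ : ℂ) (v : ℝ × ℝ) : HasFDerivAt (Xb p α Δ δ)
    ((ContinuousLinearMap.fst ℝ ℝ ℝ).smulRight (α + v.2 * δ) +
      (ContinuousLinearMap.snd ℝ ℝ ℝ).smulRight (Δ + v.1 * δ)) v := by
  refine ((c1 v p α).add ((d2 v).mul (c1 v Δ δ))).congr_fderiv ?_
  ext <;> simp

lemma quad {U : Set ℂ} (hU : IsOpen U) {g : ℂ → ℂ} (hg : DifferentiableOn ℂ g U)
    (p α Δ δ : ℂ) {l : ℝ} (hl : l ≤ 1)
    (hX : ∀ x ∈ Set.Icc l 1, ∀ t ∈ Set.Icc (0 : ℝ) 1, Xb p α Δ δ (x, t) ∈ U) :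
    ∫ t in (0 : ℝ)..1, g (Xb p α Δ δ (l, t)) * (Δ + l * δ) =
      (∫ t in (0 : ℝ)..1, g (Xb p α Δ δ (1, t)) * (Δ + δ)) -
        (∫ x in l..1, g (Xb p α Δ δ (x, 1)) * (α + δ)) +
        ∫ x in l..1, g (Xb p α Δ δ (x, 0)) * α := by
  have hXc : Continuous (Xb p α Δ δ) := by
    unfold Xb
    fun_prop
  have hgX : ContinuousOn (fun v => g (Xb p α Δ δ v)) (Set.Icc l 1 ×ˢ Set.Icc (0 : ℝ) 1) :=
    hg.continuousOn.comp hXc.continuousOn fun v hv => hX v.1 hv.1 v.2 hv.2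
  have hgd : ∀ v ∈ Set.Icc l 1 ×ˢ Set.Icc (0 : ℝ) 1, HasFDerivAt (fun v => g (Xb p α Δ δ v))
      (deriv g (Xb p α Δ δ v) • ((ContinuousLinearMap.fst ℝ ℝ ℝ).smulRight (α + v.2 * δ) +
      (ContinuousLinearMap.snd ℝ ℝ ℝ).smulRight (Δ + v.1 * δ))) v := by
    intro v hv
    have h1 : HasDerivAt g (deriv g (Xb p α Δ δ v)) (Xb p α Δ δ v) :=
      (hg.differentiableAt (hU.mem_nhds (hX v.1 hv.1 v.2 hv.2))).hasDerivAt
    exact h1.comp_hasFDerivAt v (Xb_deriv p α Δ δ v)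
  have hz : ∀ v : ℝ × ℝ, (g (Xb p α Δ δ v) • ((ContinuousLinearMap.fst ℝ ℝ ℝ).smulRight δ) +
      (Δ + v.1 * δ) • (deriv g (Xb p α Δ δ v) • ((ContinuousLinearMap.fst ℝ ℝ ℝ).smulRight (α + v.2 * δ) +
      (ContinuousLinearMap.snd ℝ ℝ ℝ).smulRight (Δ + v.1 * δ)))) (1, 0) +
      (-(g (Xb p α Δ δ v) • ((ContinuousLinearMap.snd ℝ ℝ ℝ).smulRight δ) +
      (α + v.2 * δ) • (deriv g (Xb p α Δ δ v) • ((ContinuousLinearMap.fst ℝ ℝ ℝ).smulRight (α + v.2 * δ) +
      (ContinuousLinearMap.snd ℝ ℝ ℝ).smulRight (Δ + v.1 * δ))))) (0, 1) = 0 := by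
    intro v
    simp
    ring
  have hsub : Set.Ioo (min l 1) (max l 1) ×ˢ Set.Ioo (min (0 : ℝ) 1) (max (0 : ℝ) 1) ⊆
      Set.Icc l 1 ×ˢ Set.Icc (0 : ℝ) 1 := by
    rw [min_eq_left hl, max_eq_right hl, min_eq_left zero_le_one, max_eq_right zero_le_one]
    exact Set.prod_mono Set.Ioo_subset_Icc_self Set.Ioo_subset_Icc_self
  have hdiv := integral2_divergence_prod_of_hasFDerivAt
    (f := fun v => g (Xb p α Δ δ v) * (Δ + v.1 * δ))
    (g := fun v => -(g (Xb p α Δ δ v) * (α + v.2 * δ)))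
    (f' := fun v => g (Xb p α Δ δ v) • ((ContinuousLinearMap.fst ℝ ℝ ℝ).smulRight δ) +
      (Δ + v.1 * δ) • (deriv g (Xb p α Δ δ v) • ((ContinuousLinearMap.fst ℝ ℝ ℝ).smulRight (α + v.2 * δ) +
      (ContinuousLinearMap.snd ℝ ℝ ℝ).smulRight (Δ + v.1 * δ))))
    (g' := fun v => -(g (Xb p α Δ δ v) • ((ContinuousLinearMap.snd ℝ ℝ ℝ).smulRight δ) +
      (α + v.2 * δ) • (deriv g (Xb p α Δ δ v) • ((ContinuousLinearMap.fst ℝ ℝ ℝ).smulRight (α + v.2 * δ) +
      (ContinuousLinearMap.snd ℝ ℝ ℝ).smulRight (Δ + v.1 * δ)))))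
    l 0 1 1 ?_ ?_ ?_ ?_ ?_
  · simp only [hz] at hdiv
    simp only [intervalIntegral.integral_zero, intervalIntegral.integral_neg, Complex.ofReal_one,
      Complex.ofReal_zero, one_mul, zero_mul, add_zero] at hdiv
    linear_combination hdiv
  · rw [Set.uIcc_of_le hl, Set.uIcc_of_le zero_le_one]
    exact hgX.mul (by fun_prop)
  · rw [Set.uIcc_of_le hl, Set.uIcc_of_le zero_le_one]
    exact (hgX.mul (by fun_prop)).neg
  · intro v hv
    exact (hgd v (hsub hv)).mul (c1 v Δ δ)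
  · intro v hv
    exact ((hgd v (hsub hv)).mul (c2 v α δ)).neg
  · simp only [hz]
    exact integrableOn_zero

lemma int_mono {q : ℝ → ℂ} {b : ℝ → ℝ} (hq : ContinuousOn q (Set.Ioc 0 1))
    (hb : IntervalIntegrable b volume 0 1) (h : ∀ x ∈ Set.Ioo (0 : ℝ) 1, ‖q x‖ ≤ b x) :
    IntervalIntegrable q volume 0 1 := by
  have hI : Set.uIoc (0 : ℝ) 1 = Set.Ioc 0 1 := Set.uIoc_of_le zero_le_one
  refine hb.mono_fun' ?_ ?_
  · rw [hI]
    exact hq.aestronglyMeasurable measurableSet_Ioc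
  · rw [hI]
    have h1 : ∀ᵐ x ∂(volume : Measure ℝ), x ≠ 1 := by
      simp [ae_iff, measure_singleton]
    refine (ae_restrict_iff' measurableSet_Ioc).2 ?_
    filter_upwards [h1] with x hx hx2
    exact h x ⟨hx2.1, lt_of_le_of_ne hx2.2 hx⟩

lemma prim_lim {q : ℝ → ℂ} (hq : IntervalIntegrable q volume 0 1) :
    Tendsto (fun l : ℝ => ∫ x in l..1, q x) (𝓝[>] 0) (𝓝 (∫ x in (0 : ℝ)..1, q x)) := by
  have hc := intervalIntegral.continuousOn_primitive_interval' hq Set.right_mem_uIcc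
  rw [Set.uIcc_of_le zero_le_one] at hc
  have h1 := (hc 0 (Set.left_mem_Icc.2 zero_le_one)).tendsto
  have h2 : Tendsto (fun l : ℝ => l) (𝓝[>] 0) (𝓝[Set.Icc 0 1] 0) := by
    refine tendsto_nhdsWithin_iff.2 ⟨tendsto_id.mono_left nhdsWithin_le_nhds, ?_⟩
    filter_upwards [Ioo_mem_nhdsGT (zero_lt_one' ℝ)] with l hl
    exact ⟨hl.1.le, hl.2.le⟩
  have h3 := (h1.comp h2).neg
  have e : ∀ l : ℝ, -((fun b => ∫ x in (1 : ℝ)..b, q x) ∘ fun l : ℝ => l) l = ∫ x in l..1, q x := by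
    intro l
    simp only [Function.comp_apply]
    rw [intervalIntegral.integral_symm, neg_neg]
  rw [← intervalIntegral.integral_symm] at h3
  exact h3.congr e

lemma trap {U : Set ℂ} (hU : IsOpen U) {g : ℂ → ℂ} (hg : DifferentiableOn ℂ g U)
    (p α Δ δ : ℂ) {μ ν C : ℝ} (hμ : μ < 1) (hν : ν < 1)
    (hX : ∀ x ∈ Set.Icc (0 : ℝ) 1, ∀ t ∈ Set.Icc (0 : ℝ) 1, (0 < x ∨ (0 < t ∧ t < 1)) →
      Xb p α Δ δ (x, t) ∈ U)
    (hb : ∀ x ∈ Set.Icc (0 : ℝ) 1, ∀ t ∈ Set.Ioo (0 : ℝ) 1,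
      ‖g (Xb p α Δ δ (x, t))‖ ≤ C * (t ^ (-μ) * (1 - t) ^ (-ν)))
    (hb0 : ∀ x ∈ Set.Ioc (0 : ℝ) 1, ‖g (Xb p α Δ δ (x, 0))‖ ≤ C * x ^ (-μ))
    (hb1 : ∀ x ∈ Set.Ioc (0 : ℝ) 1, ‖g (Xb p α Δ δ (x, 1))‖ ≤ C * x ^ (-ν))
    (hint : IntervalIntegrable (fun t : ℝ => t ^ (-μ) * (1 - t) ^ (-ν)) volume 0 1) :
    ∫ t in (0 : ℝ)..1, g (Xb p α Δ δ (0, t)) * Δ =
      (∫ t in (0 : ℝ)..1, g (Xb p α Δ δ (1, t)) * (Δ + δ)) -
        (∫ x in (0 : ℝ)..1, g (Xb p α Δ δ (x, 1)) * (α + δ)) +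
        ∫ x in (0 : ℝ)..1, g (Xb p α Δ δ (x, 0)) * α := by
  have hXc : Continuous (Xb p α Δ δ) := by
    unfold Xb
    fun_prop
  have hI : Set.uIoc (0 : ℝ) 1 = Set.Ioc 0 1 := Set.uIoc_of_le zero_le_one
  have hgc : ∀ x ∈ Set.Icc (0 : ℝ) 1, ∀ t ∈ Set.Icc (0 : ℝ) 1, (0 < x ∨ (0 < t ∧ t < 1)) →
      ContinuousAt (fun v => g (Xb p α Δ δ v)) (x, t) := by
    intro x hx t ht h
    have h1 : ContinuousAt g (Xb p α Δ δ (x, t)) :=
      (hg.differentiableAt (hU.mem_nhds (hX x hx t ht h))).continuousAt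
    exact ContinuousAt.comp (f := Xb p α Δ δ) h1 hXc.continuousAt
  have hne1 : ∀ᵐ x ∂(volume : Measure ℝ), x ≠ 1 := by
    simp [ae_iff, measure_singleton]
  have hev : ∀ᶠ l : ℝ in 𝓝[>] 0, 0 < l ∧ l < 1 := by
    filter_upwards [Ioo_mem_nhdsGT (zero_lt_one' ℝ)] with l hl
    exact hl
  -- the left side
  have hL : Tendsto (fun l : ℝ => ∫ t in (0 : ℝ)..1, g (Xb p α Δ δ (l, t)) * (Δ + l * δ)) (𝓝[>] 0)
      (𝓝 (∫ t in (0 : ℝ)..1, g (Xb p α Δ δ (0, t)) * (Δ + (0 : ℝ) * δ))) := by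
    refine intervalIntegral.tendsto_integral_filter_of_dominated_convergence
      (fun t => C * (‖Δ‖ + ‖δ‖) * (t ^ (-μ) * (1 - t) ^ (-ν))) ?_ ?_ (hint.const_mul _) ?_
    · filter_upwards [hev] with l hl
      rw [hI]
      refine ContinuousOn.aestronglyMeasurable (fun t ht => ?_) measurableSet_Ioc
      have h1 := hgc l ⟨hl.1.le, hl.2.le⟩ t ⟨ht.1.le, ht.2⟩ (Or.inl hl.1)
      have h2 : ContinuousAt (fun t : ℝ => g (Xb p α Δ δ (l, t))) t :=
        ContinuousAt.comp (f := fun t : ℝ => ((l, t) : ℝ × ℝ)) h1 (by fun_prop)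
      exact (h2.mul continuousAt_const).continuousWithinAt
    · filter_upwards [hev] with l hl
      filter_upwards [hne1] with t ht ht2
      rw [hI] at ht2
      have h1 := hb l ⟨hl.1.le, hl.2.le⟩ t ⟨ht2.1, lt_of_le_of_ne ht2.2 ht⟩
      have h2 : ‖Δ + (l : ℂ) * δ‖ ≤ ‖Δ‖ + ‖δ‖ := by
        refine (norm_add_le _ _).trans (add_le_add le_rfl ?_)
        rw [norm_mul, Complex.norm_real, Real.norm_of_nonneg hl.1.le]
        exact mul_le_of_le_one_left (norm_nonneg _) hl.2.le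
      rw [norm_mul]
      calc ‖g (Xb p α Δ δ (l, t))‖ * ‖Δ + (l : ℂ) * δ‖
          ≤ (C * (t ^ (-μ) * (1 - t) ^ (-ν))) * (‖Δ‖ + ‖δ‖) :=
            mul_le_mul h1 h2 (norm_nonneg _) ((norm_nonneg _).trans h1)
        _ = _ := by ring
    · filter_upwards [hne1] with t ht ht2
      rw [hI] at ht2
      have h1 := hgc 0 ⟨le_rfl, zero_le_one⟩ t ⟨ht2.1.le, ht2.2⟩
        (Or.inr ⟨ht2.1, lt_of_le_of_ne ht2.2 ht⟩)
      have h2 : ContinuousAt (fun l : ℝ => g (Xb p α Δ δ (l, t))) 0 :=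
        ContinuousAt.comp (f := fun l : ℝ => ((l, t) : ℝ × ℝ)) h1 (by fun_prop)
      have h3 : ContinuousAt (fun l : ℝ => g (Xb p α Δ δ (l, t)) * (Δ + (l : ℂ) * δ)) 0 :=
        h2.mul (by fun_prop)
      exact h3.tendsto.mono_left nhdsWithin_le_nhds
  -- the vertical integrals
  have hv : ∀ (t : ℝ) (ht : t ∈ Set.Icc (0 : ℝ) 1) (κ : ℝ) (hκ : κ < 1) (β : ℂ),
      (∀ x ∈ Set.Ioc (0 : ℝ) 1, ‖g (Xb p α Δ δ (x, t))‖ ≤ C * x ^ (-κ)) →
      IntervalIntegrable (fun x : ℝ => g (Xb p α Δ δ (x, t)) * β) volume 0 1 := by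
    intro t ht κ hκ β h
    have h0 : IntervalIntegrable (fun x : ℝ => C * ‖β‖ * x ^ (-κ)) volume 0 1 :=
      (intervalIntegral.intervalIntegrable_rpow' (by linarith)).const_mul _
    refine int_mono (fun x hx => ?_) h0 fun x hx => ?_
    · have h1 := hgc x ⟨hx.1.le, hx.2⟩ t ht (Or.inl hx.1)
      have h2 : ContinuousAt (fun x : ℝ => g (Xb p α Δ δ (x, t))) x :=
        ContinuousAt.comp (f := fun x : ℝ => ((x, t) : ℝ × ℝ)) h1 (by fun_prop)
      exact (h2.mul continuousAt_const).continuousWithinAt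
    · rw [norm_mul]
      have h1 := mul_le_mul_of_nonneg_right (h x ⟨hx.1, hx.2.le⟩) (norm_nonneg β)
      linarith
  have hR := (tendsto_const_nhds (x := ∫ t in (0 : ℝ)..1, g (Xb p α Δ δ (1, t)) * (Δ + δ))
    (f := 𝓝[>] (0 : ℝ))).sub
      (prim_lim (hv 1 ⟨zero_le_one, le_rfl⟩ ν hν (α + δ) hb1)) |>.add
      (prim_lim (hv 0 ⟨le_rfl, zero_le_one⟩ μ hμ α hb0))
  have hLR : Tendsto (fun l : ℝ => ∫ t in (0 : ℝ)..1, g (Xb p α Δ δ (l, t)) * (Δ + l * δ)) (𝓝[>] 0)
      (𝓝 ((∫ t in (0 : ℝ)..1, g (Xb p α Δ δ (1, t)) * (Δ + δ)) -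
        (∫ x in (0 : ℝ)..1, g (Xb p α Δ δ (x, 1)) * (α + δ)) +
        ∫ x in (0 : ℝ)..1, g (Xb p α Δ δ (x, 0)) * α)) := by
    refine hR.congr' ?_
    filter_upwards [hev] with l hl
    exact (quad hU hg p α Δ δ hl.2.le fun x hx t ht =>
      hX x ⟨hl.1.le.trans hx.1, hx.2⟩ t ht (Or.inl (lt_of_lt_of_le hl.1 hx.1))).symm
  have := tendsto_nhds_unique hL hLR
  rw [Complex.ofReal_zero, zero_mul, add_zero] at this
  exact this

/-! ### The region -/

variable {m r : ℕ} {s : Fin (r + 1) → ℂ} {n : Fin (r + 1) → ℕ} {f : Polynomial ℂ}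

lemma re_lt (hs : Inc s) {i j : Fin (r + 1)} (h : i.val < j.val) : (s i).re < (s j).re :=
  hs (Fin.lt_def.2 h)

lemma memU (hs : Inc s) (k : Fin r) {x : ℂ} (h1 : (s k.castSucc).re ≤ x.re)
    (h2 : x.re ≤ (s k.succ).re) (h3 : x.re = (s k.castSucc).re → x.im ≠ (s k.castSucc).im)
    (h4 : x.re = (s k.succ).re → x.im ≠ (s k.succ).im) : x ∈ Ukc s (k.val + 1) := by
  intro j
  refine ⟨fun hj => ?_, fun hj => ?_⟩
  · rw [Complex.mem_slitPlane_iff, Complex.sub_re, Complex.sub_im]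
    rcases Nat.lt_or_ge j.val k.val with hlt | hge
    · have := re_lt hs (i := j) (j := k.castSucc) (by simpa using hlt)
      exact Or.inl (by linarith)
    · have e : j = k.castSucc := Fin.ext (by simp; omega)
      rw [e]
      rcases eq_or_lt_of_le h1 with h | h
      · exact Or.inr (sub_ne_zero.2 (h3 h.symm))
      · exact Or.inl (sub_pos.2 h)
  · rw [Complex.mem_slitPlane_iff, Complex.sub_re, Complex.sub_im]
    rcases Nat.lt_or_ge (k.val + 1) j.val with hlt | hge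
    · have := re_lt hs (i := k.succ) (j := j) (by simpa using hlt)
      exact Or.inl (by linarith)
    · have e : j = k.succ := Fin.ext (by simp; omega)
      rw [e]
      rcases eq_or_lt_of_le h2 with h | h
      · exact Or.inr (sub_ne_zero.2 (h4 h).symm)
      · exact Or.inl (sub_pos.2 h)

lemma ne_of_U {K : ℕ} {x : ℂ} (hx : x ∈ Ukc s K) (j : Fin (r + 1)) : x - s j ≠ 0 := by
  intro h
  rcases Nat.lt_or_ge j.val K with hj | hj
  · exact Complex.slitPlane_ne_zero ((hx j).1 hj) h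
  · exact Complex.slitPlane_ne_zero ((hx j).2 hj) (by rw [← neg_sub, h, neg_zero])

lemma yne (hbr : S_cBr) (hm : 1 ≤ m) {K : ℕ} {x : ℂ} (hx : x ∈ Ukc s K) :
    ykc m s n K x ≠ 0 := by
  intro h0
  have h := (hbr m r s n K hm).2.2.2.1 x
  rw [h0, norm_zero] at h
  exact Finset.prod_ne_zero_iff.2 (fun j _ =>
    (Real.rpow_pos_of_pos (norm_pos_iff.2 (ne_of_U hx j)) _).ne') h.symm

/-- the integrand -/
def gG (f : Polynomial ℂ) (m : ℕ) {r : ℕ} (s : Fin (r + 1) → ℂ) (n : Fin (r + 1) → ℕ) (K : ℕ)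
    (x : ℂ) : ℂ := f.eval x * (ykc m s n K x)⁻¹

lemma gdiff (hbr : S_cBr) (hm : 1 ≤ m) (K : ℕ) :
    DifferentiableOn ℂ (gG f m s n K) (Ukc s K) :=
  f.differentiable.differentiableOn.mul
    ((hbr m r s n K hm).2.1.inv fun _ hx => yne hbr hm hx)

lemma prod_two {M : Type} [CommMonoid M] (k : Fin r) (F : Fin (r + 1) → M) :
    ∏ j, F j = F k.castSucc * (F k.succ * ∏ j ∈ (Finset.univ.erase k.castSucc).erase k.succ, F j) := by
  have hne : k.succ ≠ k.castSucc := (Fin.castSucc_lt_succ (i := k)).ne'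
  rw [Finset.mul_prod_erase _ _ (Finset.mem_erase.2 ⟨hne, Finset.mem_univ _⟩),
    Finset.mul_prod_erase _ _ (Finset.mem_univ _)]

lemma bound (hbr : S_cBr) (hm : 1 ≤ m) (hs : Inc s) (n : Fin (r + 1) → ℕ) (f : Polynomial ℂ)
    (h : ℝ) (k : Fin r) :
    ∃ C : ℝ, 0 ≤ C ∧ ∀ x : ℂ, (s k.castSucc).re ≤ x.re → x.re ≤ (s k.succ).re → |x.im| ≤ h →
      ∀ τ σ : ℝ, 0 < τ → 0 < σ → τ ≤ ‖x - s k.castSucc‖ → σ ≤ ‖x - s k.succ‖ →
      ‖gG f m s n (k.val + 1) x‖ ≤
        C * (τ ^ (-((n k.castSucc : ℝ) / m)) * σ ^ (-((n k.succ : ℝ) / m))) := by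
  have hmpos : (0 : ℝ) < m := by exact_mod_cast hm
  set R : Set ℂ := Set.Icc (s k.castSucc).re (s k.succ).re ×ℂ Set.Icc (-h) h with hR
  have hRc : IsCompact R := isCompact_Icc.reProdIm isCompact_Icc
  obtain ⟨M, hM⟩ := hRc.exists_bound_of_continuousOn f.continuous.continuousOn
  set D : Fin (r + 1) → ℝ := fun j => if j.val < k.val then (s k.castSucc).re - (s j).re else
    (s j).re - (s k.succ).re with hD
  set A : Finset (Fin (r + 1)) := (Finset.univ.erase k.castSucc).erase k.succ with hA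
  have hDpos : ∀ j ∈ A, 0 < D j := by
    intro j hj
    have h1 : j ≠ k.succ := Finset.ne_of_mem_erase hj
    have h2 : j ≠ k.castSucc := Finset.ne_of_mem_erase (Finset.mem_of_mem_erase hj)
    simp only [hD]
    split_ifs with hlt
    · have := re_lt hs (i := j) (j := k.castSucc) (by simpa using hlt)
      linarith
    · have hge : k.val + 1 < j.val := by
        have e1 : j.val ≠ k.val := fun e => h2 (Fin.ext (by simpa using e))
        have e2 : j.val ≠ k.val + 1 := fun e => h1 (Fin.ext (by simpa using e))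
        omega
      have := re_lt hs (i := k.succ) (j := j) (by simpa using hge)
      linarith
  have hDle : ∀ j ∈ A, ∀ x : ℂ, (s k.castSucc).re ≤ x.re → x.re ≤ (s k.succ).re →
      D j ≤ ‖x - s j‖ := by
    intro j hj x hx1 hx2
    have h3 := Complex.abs_re_le_norm (x - s j)
    rw [Complex.sub_re] at h3
    simp only [hD]
    split_ifs with hlt
    · have := le_abs_self (x.re - (s j).re)
      linarith
    · have := neg_abs_le (x.re - (s j).re)
      linarith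
  refine ⟨max M 0 * ∏ j ∈ A, (D j) ^ (-((n j : ℝ) / m)), ?_, ?_⟩
  · refine mul_nonneg (le_max_right _ _) (Finset.prod_nonneg fun j hj => ?_)
    exact Real.rpow_nonneg (hDpos j hj).le _
  · intro x hx1 hx2 hx3 τ σ hτ hσ hτ2 hσ2
    have hxR : x ∈ R := Complex.mem_reProdIm.2 ⟨⟨hx1, hx2⟩, abs_le.1 hx3⟩
    have e1 : ‖f.eval x‖ ≤ max M 0 := (hM x hxR).trans (le_max_left _ _)
    have hrp : ∀ (a b : ℝ) (c : ℕ), 0 < a → a ≤ b →
        (b ^ ((c : ℝ) / m))⁻¹ ≤ a ^ (-((c : ℝ) / m)) := by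
      intro a b c ha hab
      rw [Real.rpow_neg ha.le]
      exact inv_anti₀ (by positivity) (Real.rpow_le_rpow ha.le hab (by positivity))
    have e2 : ‖(ykc m s n (k.val + 1) x)⁻¹‖ ≤ τ ^ (-((n k.castSucc : ℝ) / m)) *
        (σ ^ (-((n k.succ : ℝ) / m)) * ∏ j ∈ A, (D j) ^ (-((n j : ℝ) / m))) := by
      rw [norm_inv, (hbr m r s n (k.val + 1) hm).2.2.2.1 x, ← Finset.prod_inv_distrib, prod_two k]
      have hA0 : 0 ≤ ∏ j ∈ A, (‖x - s j‖ ^ ((n j : ℝ) / m))⁻¹ :=
        Finset.prod_nonneg fun j _ => by positivity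
      refine mul_le_mul (hrp _ _ _ hτ hτ2) (mul_le_mul (hrp _ _ _ hσ hσ2) ?_ hA0 (by positivity))
        (mul_nonneg (by positivity) hA0) (by positivity)
      exact Finset.prod_le_prod (fun j _ => by positivity) fun j hj =>
        hrp _ _ _ (hDpos j hj) (hDle j hj x hx1 hx2)
    rw [gG, norm_mul]
    calc ‖f.eval x‖ * ‖(ykc m s n (k.val + 1) x)⁻¹‖
        ≤ max M 0 * (τ ^ (-((n k.castSucc : ℝ) / m)) *
        (σ ^ (-((n k.succ : ℝ) / m)) * ∏ j ∈ A, (D j) ^ (-((n j : ℝ) / m)))) :=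
          mul_le_mul e1 e2 (norm_nonneg _) (le_max_right _ _)
      _ = _ := by ring

/-! ### The segment -/

lemma cpow_mul_real {t : ℝ} (ht : 0 < t) {z : ℂ} (hz : z ≠ 0) (c : ℂ) :
    ((t : ℂ) * z) ^ c = (t : ℂ) ^ c * z ^ c := by
  have ht' : (t : ℂ) ≠ 0 := Complex.ofReal_ne_zero.2 ht.ne'
  rw [Complex.cpow_def_of_ne_zero (mul_ne_zero ht' hz), Complex.cpow_def_of_ne_zero ht',
    Complex.cpow_def_of_ne_zero hz, Complex.log_ofReal_mul ht hz, Complex.ofReal_log ht.le,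
    add_mul, Complex.exp_add]

lemma on_seg (hbr : S_cBr) (hm : 1 ≤ m) (hs : Inc s) (n : Fin (r + 1) → ℕ) (f : Polynomial ℂ)
    (k : Fin r) {t : ℝ} (h0 : 0 < t) (h1 : t < 1) :
    gG f m s n (k.val + 1) (seg s k t) * (s k.succ - s k.castSucc) =
      (Complex.exp (Real.pi * Complex.I / m) ^
          (∑ j ∈ Finset.univ.filter (fun j : Fin (r + 1) => k.val + 1 ≤ j.val), n j))⁻¹ *
        (((t ^ (-((n k.castSucc : ℝ) / m)) * (1 - t) ^ (-((n k.succ : ℝ) / m)) : ℝ) : ℂ) *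
          (Hc (fun j => (n j : ℝ) / m) s k t * f.eval (seg s k t))) := by
  have hΔre : 0 < (s k.succ - s k.castSucc).re := by
    rw [Complex.sub_re]
    have := hs (Fin.castSucc_lt_succ (i := k))
    simp only at this
    linarith
  have hΔ : s k.succ - s k.castSucc ≠ 0 := by
    intro h
    rw [h] at hΔre
    exact lt_irrefl _ hΔre
  have hre : (seg s k t).re = (s k.castSucc).re + t * (s k.succ - s k.castSucc).re := by
    simp [seg]
  have hG : (seg s k t).re ∈ Gp (fun j => (s j).re) (k.val + 1) := by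
    rw [hre]
    have hp := mul_pos h0 hΔre
    have hq := mul_pos (sub_pos.2 h1) hΔre
    rw [Complex.sub_re] at hp hq
    refine ⟨fun j hj => ?_, fun j hj => ?_⟩
    · have : (s j).re ≤ (s k.castSucc).re := hs.monotone (Fin.le_def.2 (by simpa using Nat.lt_succ_iff.1 hj))
      rw [Complex.sub_re]
      linarith
    · have : (s k.succ).re ≤ (s j).re := hs.monotone (Fin.le_def.2 (by simpa using hj))
      rw [Complex.sub_re]
      linarith
  have hy := ((hbr m r s n (k.val + 1) hm).2.2.2.2.2.2.1 _ hG).2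
  rw [gG, hy, mul_inv, ← Finset.prod_inv_distrib, prod_two k, Hc, prod_two k]
  have hne : k.succ ≠ k.castSucc := (Fin.castSucc_lt_succ (i := k)).ne'
  have ek : ((if (k.castSucc : Fin (r + 1)).val < k.val + 1 then seg s k t - s k.castSucc
      else s k.castSucc - seg s k t) ^ ((n k.castSucc : ℂ) / m))⁻¹ =
      (t : ℂ) ^ (-((n k.castSucc : ℂ) / m)) *
        (s k.succ - s k.castSucc) ^ (-((n k.castSucc : ℂ) / m)) := by
    rw [if_pos (by simp), ← Complex.cpow_neg, ← cpow_mul_real h0 hΔ]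
    congr 1
    rw [seg]
    ring
  have ek1 : ((if (k.succ : Fin (r + 1)).val < k.val + 1 then seg s k t - s k.succ
      else s k.succ - seg s k t) ^ ((n k.succ : ℂ) / m))⁻¹ =
      ((1 - t : ℝ) : ℂ) ^ (-((n k.succ : ℂ) / m)) *
        (s k.succ - s k.castSucc) ^ (-((n k.succ : ℂ) / m)) := by
    rw [if_neg (by simp), ← Complex.cpow_neg, ← cpow_mul_real (sub_pos.2 h1) hΔ]
    congr 1
    rw [seg]
    push_cast
    ring
  rw [ek, ek1, if_pos (Or.inl rfl), if_pos (Or.inr rfl), one_mul, one_mul]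
  have eA : ∏ j ∈ (Finset.univ.erase k.castSucc).erase k.succ,
      ((if j.val < k.val + 1 then seg s k t - s j else s j - seg s k t) ^ ((n j : ℂ) / m))⁻¹ =
      ∏ j ∈ (Finset.univ.erase k.castSucc).erase k.succ,
        (if j = k.castSucc ∨ j = k.succ then (1 : ℂ) else
          (if j.val ≤ k.val then seg s k t - s j else s j - seg s k t) ^
            (-(((fun j => (n j : ℝ) / m) j : ℝ) : ℂ))) := by
    refine Finset.prod_congr rfl fun j hj => ?_
    have h1 : j ≠ k.succ := Finset.ne_of_mem_erase hj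
    have h2 : j ≠ k.castSucc := Finset.ne_of_mem_erase (Finset.mem_of_mem_erase hj)
    have h3 : ¬(j = k.castSucc ∨ j = k.succ) := by tauto
    have h4 : (j.val < k.val + 1) = (j.val ≤ k.val) := propext Nat.lt_succ_iff
    rw [if_neg h3, ← Complex.cpow_neg]
    simp only [h4]
    push_cast
    rfl
  rw [eA]
  have eΔ : (s k.succ - s k.castSucc) ^ (1 - (((fun j => (n j : ℝ) / m) k.castSucc : ℝ) : ℂ) -
      (((fun j => (n j : ℝ) / m) k.succ : ℝ) : ℂ)) = (s k.succ - s k.castSucc) *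
      (s k.succ - s k.castSucc) ^ (-((n k.castSucc : ℂ) / m)) *
      (s k.succ - s k.castSucc) ^ (-((n k.succ : ℂ) / m)) := by
    have e3 : (1 - (((fun j => (n j : ℝ) / m) k.castSucc : ℝ) : ℂ) -
      (((fun j => (n j : ℝ) / m) k.succ : ℝ) : ℂ)) = 1 + -((n k.castSucc : ℂ) / m) +
        -((n k.succ : ℂ) / m) := by
      push_cast
      ring
    rw [e3, Complex.cpow_add _ _ hΔ, Complex.cpow_add _ _ hΔ, Complex.cpow_one]
  rw [eΔ]
  have et : ((t ^ (-((n k.castSucc : ℝ) / m)) * (1 - t) ^ (-((n k.succ : ℝ) / m)) : ℝ) : ℂ) =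
      (t : ℂ) ^ (-((n k.castSucc : ℂ) / m)) * ((1 - t : ℝ) : ℂ) ^ (-((n k.succ : ℂ) / m)) := by
    rw [Complex.ofReal_mul, Complex.ofReal_cpow h0.le, Complex.ofReal_cpow (sub_pos.2 h1).le]
    push_cast
    rfl
  rw [et]
  ring

end cCb_aux

open cCb_aux in
theorem tcCb : S_cBr → S_cI → S_cCb := by
  intro hbr hcI m r s n f hm hs hn x₀ h hh k
  have hmpos : (0 : ℝ) < m := by exact_mod_cast hm
  have hμ : ∀ j, (n j : ℝ) / m < 1 := fun j => by
    rw [div_lt_one hmpos]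
    exact_mod_cast (hn j).2
  set P : ℂ := s k.castSucc with hP
  set Q : ℂ := s k.succ with hQ
  set K : ℕ := k.val + 1 with hK
  set g : ℂ → ℂ := gG f m s n K with hg
  have hPQ : P.re < Q.re := hs (Fin.castSucc_lt_succ (i := k))
  have ha : 0 < h - P.im := by
    have := (abs_lt.1 (hh k.castSucc)).2
    linarith
  have hb : 0 < h - Q.im := by
    have := (abs_lt.1 (hh k.succ)).2
    linarith
  set a : ℝ := h - P.im with hadef
  set b : ℝ := h - Q.im with hbdef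
  set Δ : ℂ := Q - P with hΔ
  have hΔre : 0 < Δ.re := by
    rw [hΔ, Complex.sub_re]
    linarith
  set α : ℂ := a * Complex.I with hα
  set δ : ℂ := (b - a : ℝ) * Complex.I with hδ
  have hXre : ∀ x t : ℝ, (Xb P α Δ δ (x, t)).re = P.re + t * Δ.re := by
    intro x t
    simp [Xb, hα, hδ]
  have hXim : ∀ x t : ℝ, (Xb P α Δ δ (x, t)).im = (1 - x) * (P.im + t * Δ.im) + x * h := by
    intro x t
    simp [Xb, hα, hδ, hadef, hbdef, hΔ]
    ring
  have hUo : IsOpen (Ukc s K) := (hbr m r s n K hm).2.2.1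
  have hgd : DifferentiableOn ℂ g (Ukc s K) := gdiff hbr hm K
  have hXU : ∀ x ∈ Set.Icc (0 : ℝ) 1, ∀ t ∈ Set.Icc (0 : ℝ) 1, (0 < x ∨ (0 < t ∧ t < 1)) →
      Xb P α Δ δ (x, t) ∈ Ukc s K := by
    intro x hx t ht hxt
    have h1 := mul_nonneg ht.1 hΔre.le
    have h2 := mul_nonneg (sub_nonneg.2 ht.2) hΔre.le
    refine memU hs k ?_ ?_ ?_ ?_
    · rw [hXre]
      linarith
    · rw [hXre]
      have : Δ.re = Q.re - P.re := Complex.sub_re _ _
      change _ ≤ Q.re
      nlinarith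
    · intro he
      rw [hXre] at he
      have ht0 : t = 0 := by
        have h3 : t * Δ.re = 0 := by
          change _ = P.re at he
          linarith
        exact (mul_eq_zero.1 h3).resolve_right hΔre.ne'
      have hx0 : 0 < x := by
        rcases hxt with h3 | h3
        · exact h3
        · exact absurd h3.1 (by rw [ht0]; exact lt_irrefl _)
      rw [hXim, ht0]
      change _ ≠ P.im
      have := mul_pos hx0 ha
      rw [hadef] at this
      intro h4
      nlinarith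
    · intro he
      rw [hXre] at he
      have ht1 : t = 1 := by
        have h3 : (t - 1) * Δ.re = 0 := by
          have : Δ.re = Q.re - P.re := Complex.sub_re _ _
          change _ = Q.re at he
          nlinarith
        have := (mul_eq_zero.1 h3).resolve_right hΔre.ne'
        linarith
      have hx0 : 0 < x := by
        rcases hxt with h3 | h3
        · exact h3
        · exact absurd h3.2 (by rw [ht1]; exact lt_irrefl _)
      rw [hXim, ht1]
      change _ ≠ Q.im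
      have h5 := mul_pos hx0 hb
      rw [hbdef] at h5
      have h6 : Δ.im = Q.im - P.im := Complex.sub_im _ _
      rw [h6]
      intro h4
      nlinarith
  obtain ⟨C, hC0, hC⟩ := bound hbr hm hs n f h k
  have hXbox : ∀ x ∈ Set.Icc (0 : ℝ) 1, ∀ t ∈ Set.Icc (0 : ℝ) 1,
      P.re ≤ (Xb P α Δ δ (x, t)).re ∧ (Xb P α Δ δ (x, t)).re ≤ Q.re ∧
        |(Xb P α Δ δ (x, t)).im| ≤ h := by
    intro x hx t ht
    have h1 := mul_nonneg ht.1 hΔre.le
    have h2 := mul_nonneg (sub_nonneg.2 ht.2) hΔre.le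
    have h3 : Δ.re = Q.re - P.re := Complex.sub_re _ _
    have h4 : Δ.im = Q.im - P.im := Complex.sub_im _ _
    refine ⟨by rw [hXre]; linarith, by rw [hXre]; nlinarith, ?_⟩
    rw [hXim]
    have hP' := hh k.castSucc
    have hQ' := hh k.succ
    rw [abs_lt] at hP' hQ'
    have e : P.im + t * Δ.im = (1 - t) * P.im + t * Q.im := by
      rw [h4]
      ring
    have hin : |P.im + t * Δ.im| ≤ h := by
      rw [e, abs_le]
      have t1 := ht.1
      have t2 := sub_nonneg.2 ht.2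
      constructor
      · nlinarith [hP'.1, hQ'.1]
      · nlinarith [hP'.2, hQ'.2]
    rw [abs_le] at hin ⊢
    have x1 := hx.1
    have x2 := sub_nonneg.2 hx.2
    have h0 : 0 ≤ h := by linarith
    constructor
    · nlinarith [hin.1]
    · nlinarith [hin.2]
  have hnormre : ∀ z : ℂ, z.re ≤ ‖z‖ := fun z => (le_abs_self _).trans (Complex.abs_re_le_norm z)
  have hnormre' : ∀ z : ℂ, -z.re ≤ ‖z‖ := fun z => (neg_le_abs _).trans (Complex.abs_re_le_norm z)
  have hnormim : ∀ z : ℂ, z.im ≤ ‖z‖ := fun z => (le_abs_self _).trans (Complex.abs_im_le_norm z)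
  have hrP : ∀ x t : ℝ, (Xb P α Δ δ (x, t) - s k.castSucc).re = t * Δ.re := by
    intro x t
    have h1 := Complex.sub_re (Xb P α Δ δ (x, t)) (s k.castSucc)
    rw [h1, hXre]
    change P.re + t * Δ.re - P.re = _
    ring
  have hrQ : ∀ x t : ℝ, -(Xb P α Δ δ (x, t) - s k.succ).re = (1 - t) * Δ.re := by
    intro x t
    have h1 := Complex.sub_re (Xb P α Δ δ (x, t)) (s k.succ)
    have h3 : Δ.re = Q.re - P.re := Complex.sub_re _ _
    rw [h1, hXre, h3]
    change -(P.re + t * (Q.re - P.re) - Q.re) = _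
    ring
  set μ : ℝ := (n k.castSucc : ℝ) / m with hμdef
  set ν : ℝ := (n k.succ : ℝ) / m with hνdef
  have hμ0 : 0 ≤ μ := by positivity
  have hν0 : 0 ≤ ν := by positivity
  -- the constants
  set c₁ : ℝ := Δ.re ^ (-μ) * Δ.re ^ (-ν) with hc₁
  set c₂ : ℝ := a ^ (-μ) * Δ.re ^ (-ν) with hc₂
  set c₃ : ℝ := Δ.re ^ (-μ) * b ^ (-ν) with hc₃
  have hc₁0 : 0 ≤ c₁ := by positivity
  have hc₂0 : 0 ≤ c₂ := by positivity
  have hc₃0 : 0 ≤ c₃ := by positivity
  have key := trap (μ := μ) (ν := ν) (C := C * (c₁ + c₂ + c₃)) hUo hgd P α Δ δ (hμ _) (hμ _) hXU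
    ?_ ?_ ?_ (hcI.1 μ ν (hμ _) (hμ _))
  · -- conclusion
    have hsegX : ∀ t : ℝ, Xb P α Δ δ (0, t) = seg s k t := by
      intro t
      simp [Xb, seg, hΔ, hP, hQ]
    have eL : ∫ t in (0 : ℝ)..1, g (Xb P α Δ δ (0, t)) * Δ =
        (Complex.exp (Real.pi * Complex.I / m) ^
          (∑ j ∈ Finset.univ.filter (fun j : Fin (r + 1) => k.val + 1 ≤ j.val), n j))⁻¹ *
          Ic (fun j => (n j : ℝ) / m) s k fun x => f.eval x := by
      rw [Ic, ← intervalIntegral.integral_const_mul]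
      refine intervalIntegral.integral_congr_ae ?_
      have hne1 : ∀ᵐ x ∂(volume : Measure ℝ), x ≠ 1 := by
        simp [ae_iff, measure_singleton]
      filter_upwards [hne1] with t ht ht2
      rw [Set.uIoc_of_le zero_le_one] at ht2
      rw [hsegX]
      exact on_seg hbr hm hs n f k ht2.1 (lt_of_le_of_ne ht2.2 ht)
    -- the horizontal integral
    have hrP : |P.im| < h := hh k.castSucc
    set H : ℝ → ℂ := fun t => f.eval (t + h * Complex.I : ℂ) * (ykc m s n 0 (t + h * Complex.I))⁻¹ with hH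
    have hup : ∀ t : ℝ, ∀ j, (s j).im < ((t : ℂ) + h * Complex.I).im := by
      intro t j
      have := (abs_lt.1 (hh j)).2
      simpa using this
    have hHg : ∀ t : ℝ, g ((t : ℂ) + h * Complex.I) = H t := by
      intro t
      rw [hg, gG, ((hbr m r s n K hm).2.2.2.2.1 _ (hup t)).2]
    have hHc : Continuous H := by
      rw [continuous_iff_continuousAt]
      intro t
      have h1 : (t : ℂ) + h * Complex.I ∈ Ukc s 0 := ((hbr m r s n 0 hm).2.2.2.2.1 _ (hup t)).1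
      have h2 : ContinuousAt (gG f m s n 0) ((t : ℂ) + h * Complex.I) :=
        ((gdiff hbr hm 0).differentiableAt ((hbr m r s n 0 hm).2.2.1.mem_nhds h1)).continuousAt
      exact ContinuousAt.comp (f := fun t : ℝ => (t : ℂ) + h * Complex.I) h2 (by fun_prop)
    have eH : ∫ t in (0 : ℝ)..1, g (Xb P α Δ δ (1, t)) * (Δ + δ) = ∫ t in P.re..Q.re, H t := by
      have h1 : ∀ t : ℝ, g (Xb P α Δ δ (1, t)) * (Δ + δ) = (Δ.re : ℂ) * H (Δ.re * t + P.re) := by
        intro t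
        have e1 : Δ + δ = (Δ.re : ℂ) := by
          apply Complex.ext
          · simp [hδ]
          · simp [hδ, hadef, hbdef, hΔ]
        have e2 : Xb P α Δ δ (1, t) = ((Δ.re * t + P.re : ℝ) : ℂ) + h * Complex.I := by
          apply Complex.ext
          · rw [hXre]
            simp
            ring
          · rw [hXim]
            simp
        rw [e1, e2, hHg]
        ring
      simp only [h1]
      rw [intervalIntegral.integral_const_mul]
      have h2 := intervalIntegral.smul_integral_comp_mul_add (a := 0) (b := 1) H Δ.re P.re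
      rw [Complex.real_smul] at h2
      rw [h2]
      congr 1
      · ring
      · rw [hΔ, Complex.sub_re]
        ring
    -- the vertical integrals
    have e1 : ∫ x in (0 : ℝ)..1, g (Xb P α Δ δ (x, 0)) * α =
        Complex.I * ∫ y in P.im..h, f.eval (P.re + y * Complex.I : ℂ) *
          (ykc m s n k.castSucc.val (P.re + y * Complex.I))⁻¹ := by
      have h1 : ∫ y in P.im..h, f.eval (P.re + y * Complex.I : ℂ) *
          (ykc m s n k.castSucc.val (P.re + y * Complex.I))⁻¹ =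
          ∫ y in P.im..h, g (P.re + y * Complex.I) := by
        have hle : P.im ≤ h := by linarith
        rw [intervalIntegral.integral_of_le hle, intervalIntegral.integral_of_le hle]
        refine setIntegral_congr_fun measurableSet_Ioc fun y hy => ?_
        have h2 := ((hbr m r s n K hm).2.2.2.2.2.2.2 k.castSucc (P.re + y * Complex.I)).1 (by
          have := hy.1
          simpa using this)
        simp only [hg, gG]
        rw [h2]
        rfl
      rw [h1]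
      have h3 : ∀ x : ℝ, g (Xb P α Δ δ (x, 0)) * α =
          Complex.I * ((a : ℂ) * (fun y : ℝ => g (P.re + y * Complex.I)) (a * x + P.im)) := by
        intro x
        have e2 : Xb P α Δ δ (x, 0) = (P.re : ℂ) + ((a * x + P.im : ℝ) : ℂ) * Complex.I := by
          apply Complex.ext
          · rw [hXre]
            simp
          · rw [hXim]
            simp [hadef]
            ring
        rw [e2, hα]
        ring
      simp only [h3]
      rw [intervalIntegral.integral_const_mul, intervalIntegral.integral_const_mul]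
      have h2 := intervalIntegral.smul_integral_comp_mul_add (a := 0) (b := 1)
        (fun y : ℝ => g (P.re + y * Complex.I)) a P.im
      rw [Complex.real_smul] at h2
      rw [h2]
      congr 2
      · ring
      · rw [hadef]
        ring
    have e2 : ∫ x in (0 : ℝ)..1, g (Xb P α Δ δ (x, 1)) * (α + δ) =
        Complex.I * ∫ y in Q.im..h, f.eval (Q.re + y * Complex.I : ℂ) *
          (ykc m s n k.succ.val (Q.re + y * Complex.I))⁻¹ := by
      have h3 : ∀ x : ℝ, g (Xb P α Δ δ (x, 1)) * (α + δ) =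
          Complex.I * ((b : ℂ) * (fun y : ℝ => g (Q.re + y * Complex.I)) (b * x + Q.im)) := by
        intro x
        have e2 : Xb P α Δ δ (x, 1) = (Q.re : ℂ) + ((b * x + Q.im : ℝ) : ℂ) * Complex.I := by
          apply Complex.ext
          · rw [hXre]
            simp [hΔ]
          · rw [hXim]
            simp [hbdef, hΔ]
            ring
        rw [e2, hα, hδ]
        push_cast
        ring
      simp only [h3]
      rw [intervalIntegral.integral_const_mul, intervalIntegral.integral_const_mul]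
      have h2 := intervalIntegral.smul_integral_comp_mul_add (a := 0) (b := 1)
        (fun y : ℝ => g (Q.re + y * Complex.I)) b Q.im
      rw [Complex.real_smul] at h2
      rw [h2]
      have h4 : b * 0 + Q.im = Q.im := by ring
      have h5 : b * 1 + Q.im = h := by rw [hbdef]; ring
      rw [h4, h5]
      rfl
    rw [eL, eH, e1, e2] at key
    have hsplit : (∫ t in x₀..Q.re, H t) - ∫ t in x₀..P.re, H t = ∫ t in P.re..Q.re, H t :=
      intervalIntegral.integral_interval_sub_left (hHc.intervalIntegrable _ _) (hHc.intervalIntegrable _ _)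
    rw [key, ← hsplit]
    simp only [Akc]
    ring
  · intro x hx t ht
    obtain ⟨b1, b2, b3⟩ := hXbox x hx t ⟨ht.1.le, ht.2.le⟩
    have ht' := sub_pos.2 ht.2
    have h3 : Δ.re = Q.re - P.re := Complex.sub_re _ _
    refine (hC _ b1 b2 b3 (t * Δ.re) ((1 - t) * Δ.re) (mul_pos ht.1 hΔre) (mul_pos ht' hΔre)
      ?_ ?_).trans ?_
    · exact le_trans (le_of_eq (hrP x t).symm) (hnormre _)
    · exact le_trans (le_of_eq (hrQ x t).symm) (hnormre' _)
    · rw [Real.mul_rpow ht.1.le hΔre.le, Real.mul_rpow ht'.le hΔre.le]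
      have hw : 0 ≤ t ^ (-μ) * (1 - t) ^ (-ν) :=
        mul_nonneg (Real.rpow_nonneg ht.1.le _) (Real.rpow_nonneg ht'.le _)
      calc C * (t ^ (-μ) * Δ.re ^ (-μ) * ((1 - t) ^ (-ν) * Δ.re ^ (-ν)))
          = C * c₁ * (t ^ (-μ) * (1 - t) ^ (-ν)) := by rw [hc₁]; ring
        _ ≤ C * (c₁ + c₂ + c₃) * (t ^ (-μ) * (1 - t) ^ (-ν)) :=
          mul_le_mul_of_nonneg_right (mul_le_mul_of_nonneg_left (by linarith) hC0) hw
  · intro x hx
    obtain ⟨b1, b2, b3⟩ := hXbox x ⟨hx.1.le, hx.2⟩ 0 ⟨le_rfl, zero_le_one⟩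
    have h3 : Δ.re = Q.re - P.re := Complex.sub_re _ _
    refine (hC _ b1 b2 b3 (x * a) Δ.re (mul_pos hx.1 ha) hΔre ?_ ?_).trans ?_
    · refine le_trans (le_of_eq ?_) (hnormim _)
      rw [Complex.sub_im, hXim, hadef]
      change _ = (1 - x) * (P.im + 0 * Δ.im) + x * h - P.im
      ring
    · refine le_trans (le_of_eq ?_) (hnormre' _)
      rw [hrQ]
      ring
    · rw [Real.mul_rpow hx.1.le ha.le]
      have hw : 0 ≤ x ^ (-μ) := Real.rpow_nonneg hx.1.le _
      calc C * (x ^ (-μ) * a ^ (-μ) * Δ.re ^ (-ν))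
          = C * c₂ * x ^ (-μ) := by rw [hc₂]; ring
        _ ≤ C * (c₁ + c₂ + c₃) * x ^ (-μ) :=
          mul_le_mul_of_nonneg_right (mul_le_mul_of_nonneg_left (by linarith) hC0) hw
  · intro x hx
    obtain ⟨b1, b2, b3⟩ := hXbox x ⟨hx.1.le, hx.2⟩ 1 ⟨zero_le_one, le_rfl⟩
    have h3 : Δ.re = Q.re - P.re := Complex.sub_re _ _
    have h4 : Δ.im = Q.im - P.im := Complex.sub_im _ _
    refine (hC _ b1 b2 b3 Δ.re (x * b) hΔre (mul_pos hx.1 hb) ?_ ?_).trans ?_
    · refine le_trans (le_of_eq ?_) (hnormre _)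
      rw [hrP]
      ring
    · refine le_trans (le_of_eq ?_) (hnormim _)
      rw [Complex.sub_im, hXim, hbdef, h4]
      change _ = (1 - x) * (P.im + 1 * (Q.im - P.im)) + x * h - Q.im
      ring
    · rw [Real.mul_rpow hx.1.le hb.le]
      have hw : 0 ≤ x ^ (-ν) := Real.rpow_nonneg hx.1.le _
      calc C * (Δ.re ^ (-μ) * (x ^ (-ν) * b ^ (-ν)))
          = C * c₃ * x ^ (-ν) := by rw [hc₃]; ring
        _ ≤ C * (c₁ + c₂ + c₃) * x ^ (-ν) :=
          mul_le_mul_of_nonneg_right (mul_le_mul_of_nonneg_left (by linarith) hC0) hw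

end SEB
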