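import Pool.Agent.Lib.SE.Big.VG3

/-!
# PROJECT SE, module cId: the identity theorem on the convex open set `Inc`
-/

set_option autoImplicit false

open Module MeasureTheory Topology

noncomputable section

namespace SEB

open HC HC.E HC.SE

theorem tcId : S_cI → S_cId := by
  intro hI r F hF U hU hne hz s₁ hs₁
  obtain ⟨s₀, hs₀⟩ := hne
  obtain ⟨hO, hC, _⟩ := hI.2 r (fun _ => 0)
  have hinc₀ : Inc s₀ := (hz s₀ hs₀).1
  let A : ℂ → (Fin (r + 1) → ℂ) := fun z j => s₀ j + z * (s₁ j - s₀ j)
  have hA : Continuous A := by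
    refine continuous_pi fun j => ?_
    exact continuous_const.add (continuous_id.mul continuous_const)
  have hA0 : A 0 = s₀ := by
    funext j
    simp [A]
  have hA1 : A 1 = s₁ := by
    funext j
    simp [A]
  have hDO : IsOpen {z : ℂ | Inc (A z)} := hO.preimage hA
  have hDC : Convex ℝ {z : ℂ | Inc (A z)} := by
    intro z hz w hw a b ha hb hab
    have h := hC (show A z ∈ {s : Fin (r + 1) → ℂ | Inc s} from hz)
      (show A w ∈ {s : Fin (r + 1) → ℂ | Inc s} from hw) ha hb hab
    have h2 : A (a • z + b • w) = a • A z + b • A w := by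
      funext j
      have hab' : (a : ℂ) + b = 1 := by exact_mod_cast hab
      simp only [A, Pi.add_apply, Pi.smul_apply, Complex.real_smul]
      linear_combination (-(s₀ j)) * hab'
    change Inc (A (a • z + b • w))
    rw [h2]
    exact h
  have hg : DifferentiableOn ℂ (fun z => F (A z)) {z : ℂ | Inc (A z)} := by
    intro z hz
    have h1 := hF (A z) hz (fun j => s₁ j - s₀ j)
    have h2 : DifferentiableAt ℂ (fun w : ℂ => w - z) z := differentiableAt_id.sub_const z
    have h3 : DifferentiableAt ℂ
        ((fun ε : ℂ => F fun j => A z j + ε * (s₁ j - s₀ j)) ∘ fun w : ℂ => w - z) z := by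
      refine DifferentiableAt.comp z ?_ h2
      rw [sub_self]
      exact h1
    have h4 : ((fun ε : ℂ => F fun j => A z j + ε * (s₁ j - s₀ j)) ∘ fun w : ℂ => w - z) =
        fun w => F (A w) := by
      funext w
      simp only [Function.comp_apply]
      congr 1
      funext j
      simp only [A]
      ring
    rw [h4] at h3
    exact h3.differentiableWithinAt
  have hev : (fun z => F (A z)) =ᶠ[𝓝 0] 0 := by
    have h1 : U ∈ 𝓝 (A 0) := by
      rw [hA0]
      exact hU.mem_nhds hs₀
    filter_upwards [hA.continuousAt h1] with z hz'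
    exact (hz (A z) hz').2
  have h0 : (0 : ℂ) ∈ {z : ℂ | Inc (A z)} := by
    change Inc (A 0)
    rw [hA0]
    exact hinc₀
  have h1 : (1 : ℂ) ∈ {z : ℂ | Inc (A z)} := by
    change Inc (A 1)
    rw [hA1]
    exact hs₁
  have h := (hg.analyticOnNhd hDO).eqOn_zero_of_preconnected_of_eventuallyEq_zero
    hDC.isPreconnected h0 hev h1
  have h' : F (A 1) = 0 := h
  rw [hA1] at h'
  exact h'

end SEB
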