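import Pool.Agent.Lib.SE.Big.VG4

/-!
# PROJECT SE, module IsBig, part 6: equal exponents, equal characters (helper70)
-/

set_option autoImplicit false

noncomputable section

namespace SEB

namespace eU_aux

theorem le_case {m u v : ℕ} (hm : 0 < m) (hv : v < m) (huv : u ≤ v) {ι : Type}
    (b : ι → ℕ) (hb : ∀ d, d ∣ m → (∀ j, d ∣ b j) → d = 1)
    (h : ∀ j, (u * b j) % m = (v * b j) % m) : u = v := by
  obtain ⟨k, rfl⟩ := Nat.exists_eq_add_of_le huv
  have hk : ∀ j, m ∣ k * b j := by
    intro j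
    have h1 : (u * b j) ≡ ((u + k) * b j) [MOD m] := h j
    have h2 := (Nat.modEq_iff_dvd' (Nat.mul_le_mul_right (b j) huv)).1 h1
    have h3 : (u + k) * b j - u * b j = k * b j := by
      rw [Nat.add_mul, Nat.add_sub_cancel_left]
    rwa [h3] at h2
  have hg : 0 < Nat.gcd m k := Nat.gcd_pos_of_pos_left _ hm
  have hd : m / Nat.gcd m k = 1 := by
    refine hb _ (Nat.div_dvd_of_dvd (Nat.gcd_dvd_left m k)) fun j => ?_
    have hc := Nat.coprime_div_gcd_div_gcd hg
    refine hc.dvd_of_dvd_mul_left ?_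
    have h4 : m / Nat.gcd m k * Nat.gcd m k ∣ k / Nat.gcd m k * b j * Nat.gcd m k := by
      rw [Nat.div_mul_cancel (Nat.gcd_dvd_left m k)]
      have h5 : k / Nat.gcd m k * b j * Nat.gcd m k = k * b j := by
        rw [mul_right_comm, Nat.div_mul_cancel (Nat.gcd_dvd_right m k)]
      rw [h5]
      exact hk j
    exact Nat.dvd_of_mul_dvd_mul_right hg h4
  have h6 : m = Nat.gcd m k := by
    have := Nat.div_mul_cancel (Nat.gcd_dvd_left m k)
    rw [hd, one_mul] at this
    exact this.symm
  have h7 : m ∣ k := by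
    rw [h6]
    exact Nat.gcd_dvd_right m k
  have h8 : k = 0 := Nat.eq_zero_of_dvd_of_lt h7 (by omega)
  omega

end eU_aux

/-- EQUAL EXPONENTS, EQUAL CHARACTERS. -/
theorem teU : S_eU := by
  intro m r b u v s hu hv h
  obtain ⟨_, ⟨hm3, _, _, _, hb⟩, hum, _⟩ := hu
  obtain ⟨_, _, hvm, _⟩ := hv
  have hm : 0 < m := by omega
  have hmR : (m : ℝ) ≠ 0 := by
    exact_mod_cast hm.ne'
  have h' : ∀ j, (u * b j) % m = (v * b j) % m := by
    intro j
    have h1 := h j
    unfold mu at h1
    have h2 : (nn m b u j : ℝ) = (nn m b v j : ℝ) := by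
      field_simp at h1
      exact h1
    have h3 : nn m b u j = nn m b v j := by
      exact_mod_cast h2
    unfold nn at h3
    have h4 := Nat.mod_lt (u * b j) hm
    have h5 := Nat.mod_lt (v * b j) hm
    omega
  rcases le_total u v with huv | huv
  · exact eU_aux.le_case hm hvm huv b hb h'
  · exact (eU_aux.le_case hm hum huv b hb fun j => (h' j).symm).symm

end SEB
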