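import Pool.Agent.Lib.SE.Big.VG4
import Pool.Agent.Lib.SE.Big.Pr3

/-!
# PROJECT SE, module IsBig, part 6: arithmetic of the curves `y ^ m = f(x)`
-/

set_option autoImplicit false

noncomputable section

namespace SEB

open HC HC.E HC.SE

theorem tfN : S_fN := by
  intro m r h3 h2 hd
  by_cases hA : DefA m r (fun _ => 1)
  · exact Or.inr hA
  refine Or.inl ?_
  unfold DefA at hA
  push Not at hA
  obtain ⟨u, hu, hc, h1, h4⟩ := hA
  refine ⟨u, hu, hc, Nat.pos_of_ne_zero h1, Nat.pos_of_ne_zero h4, ?_⟩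
  by_contra hcon
  push Not at hcon
  obtain ⟨he, k, hk⟩ := hcon
  have hm : 0 < m := by omega
  have hu0 : 0 < u := by
    rcases Nat.eq_zero_or_pos u with h | h
    · rw [h, Nat.coprime_zero_left] at hc
      omega
    · exact h
  have hc' : (m - u).Coprime m := (Nat.coprime_self_sub_left hu.le).2 hc
  have ht := Pr3_aux.t_add hm hd hc hu
  rw [Pr3_aux.sg_eq hm hd hc hu, Pr3_aux.sg_eq hm hd hc' (by omega)] at he
  have hr : r = 2 * Pr3_aux.t m r u := by omega
  unfold Pr3_aux.t at hr
  rw [Finset.sum_const, Finset.card_univ, Fintype.card_fin, smul_eq_mul, mul_one] at hk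
  have a1 := Nat.div_add_mod ((r + 1) * u) m
  have a2 := Nat.mod_lt ((r + 1) * u) hm
  have a3 : 0 < (r + 1) * u % m :=
    Nat.pos_of_ne_zero fun h => Pr3_aux.nd hd hc (Nat.dvd_of_mod_eq_zero h)
  set q := (r + 1) * u / m with hq
  set e := (r + 1) * u % m with he'
  -- `2 e = m`
  have a4 : m * (2 * q) + 2 * e = m * (k * u) := by
    have h5 : m * (k * u) = 2 * ((r + 1) * u) := by
      rw [← mul_assoc, ← hk, mul_assoc]
    rw [h5, ← a1]
    ring
  have a5 : 2 * q < k * u := by
    by_contra h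
    have := Nat.mul_le_mul_left m (not_lt.1 h)
    omega
  have a6 : k * u < 2 * q + 2 := by
    by_contra h
    have h6 := Nat.mul_le_mul_left m (not_lt.1 h)
    have h7 : m * (2 * q + 2) = m * (2 * q) + 2 * m := by ring
    omega
  have a7 : r + 1 = k * u := by omega
  have a8 : k * (2 * u) = k * m := by
    rw [a7] at hk
    calc k * (2 * u) = 2 * (k * u) := by ring
      _ = m * k := hk
      _ = k * m := mul_comm _ _
  have hk0 : 0 < k := by
    rcases Nat.eq_zero_or_pos k with h | h
    · rw [h, zero_mul] at a7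
      omega
    · exact h
  have a9 : 2 * u = m := Nat.eq_of_mul_eq_mul_left hk0 a8
  have a10 : u ∣ 1 := by
    have := Nat.dvd_gcd dvd_rfl (⟨2, by rw [← a9, mul_comm]⟩ : u ∣ m)
    rwa [hc] at this
  have := Nat.le_of_dvd one_pos a10
  omega

end SEB
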